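import Pool.Agent.H81.RDE.System

/-! Data file (generated): certificates. -/

set_option maxRecDepth 100000

namespace Pool.Agent.H81.RDE.Data

def s25_4_t0 : Tree := .nbr (.cons (.prune [(15, 1), (7, 1), (1, 1)]) (.cons (.ddet 0 [] (.ndet 2 [⟨2, [(14, 3), (8, 3), (0, 1)]⟩, ⟨1, [(14, 3), (8, 3)]⟩] (.ddet 0 [] (.ndet 0 [⟨1, [(0, 1)]⟩, ⟨1, [(14, 1), (8, 2), (4, 1)]⟩] (.ddet 0 [] (.leaf 2 [⟨1, [(14, 3), (8, 3), (0, 1)]⟩, ⟨1, [(8, 3), (4, 3)]⟩, ⟨1, [(14, 6), (8, 6)]⟩, ⟨1, [(14, 4), (8, 5), (4, 1)]⟩, ⟨1, [(14, 1), (8, 2), (4, 1)]⟩, ⟨1, [(0, 1)]⟩, ⟨1, []⟩, ⟨2, [(14, 3), (8, 3), (0, 3)]⟩, ⟨1, [(14, 2), (8, 4), (4, 2)]⟩, ⟨2, [(14, 3), (8, 3), (0, 1)]⟩, ⟨2, [(14, 3), (8, 3), (0, 1)]⟩, ⟨1, [(14,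 2), (8, 2)]⟩])))))) (.cons (.ddet 0 [] (.ndet 2 [⟨2, [(14, 2), (11, 1), (8, 1), (7, 1)]⟩, ⟨1, [(14, 3), (8, 3)]⟩] (.ddet 0 [] (.nbr (.cons (.ddet 0 [] (.leaf 2 [⟨1, [(16, 3), (10, 3)]⟩, ⟨2, [(16, 3), (10, 3), (2, 5)]⟩, ⟨1, [(16, 6), (10, 6), (2, 2)]⟩, ⟨2, [(16, 9), (10, 9), (2, 5)]⟩, ⟨2, [(16, 3), (10, 3), (2, 3)]⟩, ⟨1, [(1, 1)]⟩, ⟨1, []⟩, ⟨2, [(16, 3), (10, 3), (1, 3)]⟩, ⟨1, [(16, 3), (10, 3), (2, 2)]⟩, ⟨2, [(16, 3), (10, 3), (1, 1)]⟩, ⟨2, [(16, 3), (10, 3), (1, 1)]⟩, ⟨1, [(16, 2), (10, 2), (2, 1)]⟩])) (.cons (.ddet 0 [] (.leaf 2 [⟨1, [(16, 3), (10, 3)]⟩, ⟨2, [(16, 3), (10, 3), (1, 5)]⟩, ⟨1, [(16, 6), (10, 6), (1, 1)]⟩, ⟨2, [(16, 9), (10, 9), (1, 3)]⟩, ⟨2, [(16, 3), (10, 3), (1, 3)]⟩,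 ⟨1, []⟩, ⟨1, [(1, 1)]⟩, ⟨2, [(16, 2), (13, 1), (10, 1), (9, 1)]⟩, ⟨1, [(16, 3), (10, 3), (1, 1)]⟩, ⟨2, [(16, 2), (13, 1), (10, 1), (9, 1)]⟩, ⟨2, [(16, 3), (10, 3), (1, 1)]⟩, ⟨1, [(16, 2), (10, 2), (1, 1)]⟩])) (.cons (.prune [(16, 6), (11, 3), (8, 3), (2, 2), (1, 4)]) .nil))))))) .nil)))
def s25_4_t1 : Tree := .ddet 0 [] (.ndet 1 [⟨1, [(12, 2), (9, 2), (5, 2), (0, 6)]⟩, ⟨1, [(12, 2), (9, 2), (5, 2), (0, 5)]⟩] (.ddet 0 [] (.ndet 2 [⟨1, [(12, 2), (9, 2), (5, 2), (0, 6)]⟩, ⟨1, [(12, 1), (9, 1), (5, 1), (0, 5)]⟩] (.ddet 0 [] (.ndet 2 [⟨1, [(12, 1), (9, 1), (5, 1), (0, 1)]⟩, ⟨1, [(12, 3), (9, 3), (5, 3), (0, 7)]⟩] (.ddet 0 [] (.ndet 1 [⟨1, [(12, 1), (9, 1), (5, 1), (0, 5)]⟩, ⟨1, [(12, 3),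 (9, 3), (5, 3), (0, 11)]⟩] (.ddet 0 [] (.leaf 2 [⟨1, [(12, 3), (9, 3), (5, 3), (0, 7)]⟩, ⟨1, [(12, 4), (9, 4), (5, 4), (0, 16)]⟩, ⟨1, [(12, 7), (9, 7), (5, 7), (0, 19)]⟩, ⟨1, [(12, 6), (9, 6), (5, 6), (0, 18)]⟩, ⟨1, [(12, 3), (9, 3), (5, 3), (0, 11)]⟩, ⟨1, []⟩, ⟨1, [(12, 1), (9, 1), (5, 1), (0, 5)]⟩, ⟨1, [(12, 1), (9, 1), (5, 1), (0, 1)]⟩, ⟨1, [(12, 4), (9, 4), (5, 4), (0, 12)]⟩, ⟨1, [(12, 1), (9, 1), (5, 1), (0, 1)]⟩, ⟨1, [(12, 2), (9, 2), (5, 2), (0, 6)]⟩, ⟨1, [(12, 3), (9, 3), (5, 3), (0, 10)]⟩])))))))))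
def s25_4_t2 : Tree := .nbr (.cons (.prune [(12, 2), (7, 1), (4, 1), (1, 2)]) (.cons (.ddet 0 [] (.ndet 2 [⟨1, [(12, 1), (6, 1)]⟩, ⟨1, [(12, 1), (6, 2), (2, 1)]⟩] (.ddet 0 [] (.ndet 0 [⟨1, [(0, 1)]⟩, ⟨1, [(6, 1), (2, 1)]⟩] (.ddet 0 [] (.ndet 1 [⟨1, [(12, 1), (6, 2), (2, 1)]⟩, ⟨1, [(12, 2), (6, 2)]⟩] (.ddet 0 [] s25_4_t0))))))) (.cons (.ddet 0 [] (.ndet 2 [⟨1, [(12, 1), (9, 1), (5, 1), (0, 2)]⟩, ⟨1, [(12, 2), (9, 2), (5, 2), (0, 5)]⟩] (.ddet 0 [] (.ndet 0 [⟨1, [(14, 1)]⟩, ⟨1, [(12, 1), (9, 1), (5, 1), (0, 3)]⟩] s25_4_t1)))) .nil)))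
def s25_4_t3 : Tree := .nbr (.cons (.prune [(15, 6), (10, 5), (9, 6), (1, 2), (0, 7)]) (.cons (.ddet 0 [] (.ndet 2 [⟨1, [(15, 1), (11, 1), (9, 1), (5, 3)]⟩, ⟨1, [(15, 3), (9, 3), (5, 5)]⟩] (.ddet 0 [] (.ndet 0 [⟨1, [(0, 1)]⟩, ⟨1, [(15, 1), (9, 2), (5, 1), (4, 1)]⟩] (.ddet 0 [] (.leaf 2 [⟨1, [(15, 2), (11, 2), (9, 2), (5, 6)]⟩, ⟨1, [(9, 1), (4, 1), (2, 2)]⟩, ⟨1, [(15, 6), (9, 6), (5, 10)]⟩, ⟨1, [(15, 4), (9, 5), (5, 6), (4, 1)]⟩, ⟨1, [(15, 1), (9, 2), (5, 1), (4, 1)]⟩, ⟨1, [(0, 1)]⟩, ⟨1, []⟩, ⟨1, [(11, 3), (5, 4)]⟩, ⟨1, [(15, 2), (9, 4), (5, 2), (4, 2)]⟩, ⟨1, [(15, 1), (11, 1), (9, 1), (5, 3)]⟩, ⟨1, [(15, 1), (11, 1), (9, 1), (5, 3)]⟩, ⟨1, [(15, 2), (9, 2), (5, 3)]⟩])))))) (.cons (.ddet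 0 [] (.ndet 2 [⟨1, [(11, 3), (5, 4), (0, 1)]⟩, ⟨1, [(11, 6), (5, 8), (0, 3)]⟩] (.ddet 0 [] (.nbr (.cons (.ddet 0 [] (.leaf 2 [⟨1, [(13, 6), (7, 8), (2, 3)]⟩, ⟨1, [(13, 3), (7, 4), (2, 4)]⟩, ⟨1, [(13, 12), (7, 16), (2, 8)]⟩, ⟨1, [(13, 9), (7, 12), (2, 7)]⟩, ⟨1, [(13, 3), (7, 4), (2, 3)]⟩, ⟨1, [(1, 1)]⟩, ⟨1, []⟩, ⟨1, [(13, 3), (7, 4)]⟩, ⟨1, [(13, 6), (7, 8), (2, 5)]⟩, ⟨1, [(13, 3), (7, 4), (2, 1)]⟩, ⟨1, [(13, 3), (7, 4), (2, 1)]⟩, ⟨1, [(13, 4), (7, 5), (2, 3)]⟩])) (.cons (.ddet 0 [] (.leaf 2 [⟨1, [(13, 6), (7, 8), (1, 3)]⟩, ⟨1, [(13, 3), (7, 4), (1, 4)]⟩, ⟨1, [(13, 12), (7, 16), (1, 7)]⟩, ⟨1, [(13, 9), (7, 12), (1, 6)]⟩, ⟨1, [(13, 3), (7, 4), (1, 3)]⟩, ⟨1, []⟩, ⟨1, [(1, 1)]⟩, ⟨1, [(13,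 3), (7, 4), (1, 1)]⟩, ⟨1, [(13, 6), (7, 8), (1, 4)]⟩, ⟨1, [(13, 3), (7, 4), (1, 1)]⟩, ⟨1, [(13, 3), (7, 4), (1, 2)]⟩, ⟨1, [(13, 4), (7, 5), (1, 3)]⟩])) (.cons (.prune [(17, 6), (12, 5), (11, 6), (2, 2), (1, 9)]) .nil))))))) .nil)))
def s25_4_t4 : Tree := .ddet 0 [] (.ndet 1 [⟨1, [(13, 1), (7, 1), (3, 2)]⟩, ⟨1, [(9, 1), (3, 1)]⟩] (.ddet 0 [] (.ndet 2 [⟨1, [(13, 1), (7, 1), (3, 2)]⟩, ⟨1, [(13, 1), (7, 2), (3, 1), (2, 1)]⟩] (.ddet 0 [] (.ndet 0 [⟨1, [(9, 1), (3, 1)]⟩, ⟨1, [(0, 1)]⟩] (.ddet 0 [] (.ndet 1 [⟨1, [(13, 1), (7, 2), (3, 1), (2, 1)]⟩, ⟨1, [(13, 2), (7, 2), (3, 3)]⟩] (.ddet 0 [] s25_4_t3))))))))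
def s25_4_t5 : Tree := .ddet 0 [] (.ndet 1 [⟨1, [(15, 1), (9, 3), (4, 2), (2, 1)]⟩, ⟨1, [(15, 2), (9, 5), (4, 3), (2, 2)]⟩] (.ddet 0 [] (.ndet 1 [⟨1, [(15, 2), (9, 5), (4, 3), (2, 3)]⟩, ⟨1, [(15, 1), (9, 2), (4, 1), (2, 2)]⟩] (.ddet 0 [] (.ndet 2 [⟨1, [(15, 2), (9, 5), (4, 3), (2, 3)]⟩, ⟨1, [(15, 3), (9, 8), (4, 5), (2, 4)]⟩] (.ddet 0 [] (.ndet 0 [⟨1, [(15, 1), (9, 2), (4, 1), (2, 2)]⟩, ⟨1, [(15, 1), (9, 3), (4, 2), (2, 1)]⟩] (.ddet 0 [] (.leaf 2 [⟨1, [(15, 4), (9, 10), (4, 6), (2, 6)]⟩, ⟨1, [(9, 1), (4, 1), (0, 1)]⟩, ⟨1, [(15, 6), (9, 16), (4, 10), (2, 8)]⟩, ⟨1, [(15, 4), (9, 11), (4, 7), (2, 5)]⟩, ⟨1, [(15, 1), (9, 3), (4, 2), (2, 1)]⟩, ⟨1, [(15, 1), (9, 2), (4, 1), (2, 2)]⟩, ⟨1,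 []⟩, ⟨1, [(15, 3), (9, 7), (4, 4), (2, 5)]⟩, ⟨1, [(15, 2), (9, 6), (4, 4), (2, 2)]⟩, ⟨1, [(15, 2), (9, 5), (4, 3), (2, 3)]⟩, ⟨1, [(15, 2), (9, 5), (4, 3), (2, 3)]⟩, ⟨1, [(15, 2), (9, 5), (4, 3), (2, 2)]⟩])))))))))
def s25_4_t6 : Tree := .ddet 0 [] (.ndet 1 [⟨1, [(15, 2), (9, 5), (4, 3), (1, 3)]⟩, ⟨1, [(15, 1), (9, 2), (4, 1), (1, 2)]⟩] (.ddet 0 [] (.ndet 2 [⟨1, [(15, 2), (9, 5), (4, 3), (1, 3)]⟩, ⟨1, [(15, 3), (9, 8), (4, 5), (1, 3)]⟩] (.ddet 0 [] (.ndet 0 [⟨1, [(15, 1), (9, 2), (4, 1), (1, 2)]⟩, ⟨1, [(15, 1), (9, 3), (4, 2)]⟩] (.ddet 0 [] (.split [0, -3, 2] (-1000) (.leaf 1 [⟨2, [(16, 8), (10, 25), (5, 17), (0, 7)]⟩, ⟨1, [(0, 1)]⟩, ⟨1, [(16, 6), (10, 19), (5, 13), (0, 4)]⟩, ⟨1, [(16,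 1), (10, 3), (5, 2), (0, 1)]⟩, ⟨2, [(16, 6), (10, 19), (5, 13), (0, 5)]⟩, ⟨1, []⟩, ⟨2, [(16, 4), (10, 13), (5, 9), (0, 3)]⟩, ⟨2, [(16, 4), (10, 13), (5, 9), (0, 3)]⟩, ⟨1, [(16, 5), (10, 16), (5, 11), (0, 3)]⟩, ⟨2, [(16, 4), (10, 11), (5, 7), (0, 3)]⟩]) (.leaf 2 [⟨1, [(16, 4), (10, 10), (5, 6), (2, 5)]⟩, ⟨1, [(0, 1)]⟩, ⟨1, [(16, 6), (10, 16), (5, 10), (2, 6)]⟩, ⟨1, [(16, 4), (10, 11), (5, 7), (2, 3)]⟩, ⟨1, [(16, 1), (10, 3), (5, 2)]⟩, ⟨1, [(16, 1), (10, 2), (5, 1), (2, 2)]⟩, ⟨1, []⟩, ⟨1, [(16, 3), (10, 7), (5, 4), (2, 5)]⟩, ⟨1, [(16, 2), (10, 6), (5, 4), (2, 1)]⟩, ⟨1, [(16, 2), (10, 5), (5, 3), (2, 3)]⟩, ⟨1, [(16, 2), (10, 5), (5, 3), (2, 3)]⟩, ⟨1, [(16, 2), (10, 5), (5, 3), (2, 1)]⟩]))))))))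
def s25_4_t7 : Tree := .ndet 1 [⟨1, [(13, 1), (7, 3), (2, 2), (0, 2)]⟩, ⟨1, [(13, 1), (7, 2), (2, 1), (0, 2)]⟩] (.ddet 0 [] (.ndet 2 [⟨1, [(13, 1), (7, 3), (2, 2), (0, 2)]⟩, ⟨1, [(13, 1), (7, 3), (2, 2), (0, 1)]⟩] (.ddet 0 [] (.nbr (.cons s25_4_t5 (.cons (.prune [(15, 3), (10, 1), (9, 3), (2, 1), (1, 4)]) (.cons (.ddet 0 [] (.ndet 1 [⟨1, [(15, 1), (9, 3), (4, 2), (1, 1)]⟩, ⟨1, [(15, 2), (9, 5), (4, 3), (1, 2)]⟩] s25_4_t6)) .nil)))))))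
def s25_4_t8 : Tree := .ddet 0 [] (.ndet 0 [⟨1, [(0, 1)]⟩, ⟨1, [(14, 1), (8, 1)]⟩] (.ddet 0 [] (.ndet 1 [⟨1, [(14, 2), (8, 2), (0, 1)]⟩, ⟨1, [(14, 2), (8, 2), (0, 2)]⟩] (.ddet 0 [] (.ndet 2 [⟨1, [(14, 2), (8, 2), (0, 1)]⟩, ⟨2, [(18, 3), (10, 1), (9, 1)]⟩] (.ddet 0 [] (.ndet 2 [⟨1, [(14, 1), (8, 1), (0, 2)]⟩, ⟨1, [(14, 3), (8, 3), (0, 3)]⟩] (.ddet 0 [] (.leaf 1 [⟨1, [(14, 6), (8, 6), (0, 3)]⟩, ⟨1, [(14, 3), (8, 3), (0, 3)]⟩, ⟨1, [(14, 3), (10, 2), (9, 2)]⟩, ⟨1, [(14, 2), (8, 2), (0, 1)]⟩, ⟨1, [(14, 3), (8, 3)]⟩, ⟨1, [(14, 1), (8, 1), (0, 2)]⟩, ⟨2, [(18, 3), (10, 1), (9, 1)]⟩, ⟨1, [(14, 2), (8, 2), (0, 1)]⟩, ⟨1, [(14, 3), (8, 3)]⟩, ⟨1, [(14, 3), (8, 3), (0, 2)]⟩])))))))))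
def s25_4_t9 : Tree := .ndet 1 [⟨1, [(16, 2), (10, 2)]⟩, ⟨1, [(16, 1), (10, 2), (5, 2)]⟩] (.ddet 0 [] (.ndet 2 [⟨1, [(16, 2), (10, 2)]⟩, ⟨1, [(16, 1), (10, 1), (1, 2)]⟩] (.ddet 0 [] (.nbr (.cons (.ddet 0 [] (.leaf 1 [⟨1, [(18, 4), (12, 6), (7, 4)]⟩, ⟨1, [(12, 3), (7, 6)]⟩, ⟨2, [(18, 11), (12, 11), (0, 1)]⟩, ⟨1, [(18, 1), (12, 2), (7, 2)]⟩, ⟨1, [(18, 3), (12, 4), (7, 2)]⟩, ⟨1, []⟩, ⟨1, [(18, 2), (12, 2)]⟩, ⟨1, [(18, 2), (12, 2)]⟩, ⟨1, [(18, 4), (12, 4), (0, 1)]⟩, ⟨1, [(18, 2), (12, 3), (7, 2)]⟩])) (.cons (.prune [(18, 1), (13, 1), (10, 1), (7, 2), (1, 1)]) (.cons (.ddet 0 [] (.leaf 1 [⟨1, [(18, 5), (12, 5), (1, 1)]⟩, ⟨2, [(18, 3), (12, 3), (1, 3)]⟩, ⟨1, [(18, 4), (12, 4), (3, 3)]⟩,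 ⟨2, [(18, 3), (12, 3), (1, 1)]⟩, ⟨1, [(18, 3), (12, 3), (3, 1)]⟩, ⟨1, [(1, 1)]⟩, ⟨1, [(18, 1), (12, 1), (3, 2)]⟩, ⟨1, [(18, 2), (12, 2)]⟩, ⟨1, [(18, 3), (12, 3), (3, 2)]⟩, ⟨2, [(18, 5), (12, 5), (1, 1)]⟩])) .nil)))))))
def s25_4_t10 : Tree := .nbr (.cons (.ddet 0 [] (.ndet 1 [⟨1, [(16, 2), (10, 2)]⟩, ⟨1, [(16, 2), (10, 2), (1, 1)]⟩] (.ddet 0 [] (.ndet 2 [⟨1, [(16, 2), (10, 2)]⟩, ⟨1, [(16, 1), (10, 1), (2, 2)]⟩] (.ddet 0 [] (.ndet 2 [⟨1, [(16, 1), (10, 1), (1, 2)]⟩, ⟨1, [(16, 3), (10, 3), (1, 2)]⟩] (.ddet 0 [] (.leaf 1 [⟨1, [(16, 6), (10, 6)]⟩, ⟨1, [(16, 3), (10, 3), (1, 2)]⟩, ⟨1, [(16, 4), (10, 4), (2, 4)]⟩, ⟨1, [(16, 2), (10, 2)]⟩, ⟨1, [(16, 3), (10, 3), (2, 2)]⟩, ⟨1, [(16, 1), (10,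 1), (1, 2)]⟩, ⟨1, [(16, 1), (10, 1), (2, 2)]⟩, ⟨1, [(16, 2), (10, 2)]⟩, ⟨1, [(16, 3), (10, 3), (2, 2)]⟩, ⟨1, [(16, 3), (10, 3)]⟩])))))))) (.cons (.ddet 0 [] s25_4_t9) (.cons (.prune [(17, 3), (12, 4), (11, 1), (1, 3), (0, 2)]) .nil)))
def s25_4_t11 : Tree := .ddet 0 [] (.nbr (.cons (.prune [(14, 2), (9, 1), (6, 1), (0, 2)]) (.cons (.ddet 0 [] (.ndet 2 [⟨1, [(14, 1), (8, 1), (0, 1)]⟩, ⟨1, [(14, 2), (8, 2), (0, 1)]⟩] s25_4_t8)) (.cons (.ddet 0 [] (.ndet 2 [⟨1, [(8, 1), (3, 2)]⟩, ⟨1, [(14, 1), (8, 2), (3, 2)]⟩] (.ddet 0 [] s25_4_t10))) .nil))))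
def s25_4_t12 : Tree := .nbr (.cons (.prune [(15, 2), (13, 7), (12, 5), (1, 6), (0, 2)]) (.cons (.ddet 0 [] (.ndet 2 [⟨1, [(16, 2), (10, 1), (7, 1)]⟩, ⟨2, [(16, 6), (10, 5), (2, 1)]⟩] (.ddet 0 [] (.ndet 0 [⟨1, [(0, 1)]⟩, ⟨1, [(16, 1), (10, 1), (2, 1)]⟩] (.ddet 0 [] (.leaf 2 [⟨1, [(16, 4), (10, 2), (7, 2)]⟩, ⟨2, [(10, 1), (2, 5)]⟩, ⟨1, [(16, 6), (10, 5), (2, 1)]⟩, ⟨2, [(16, 8), (10, 7), (2, 3)]⟩, ⟨1, [(16, 1), (10, 1), (2, 1)]⟩, ⟨1, [(0, 1)]⟩, ⟨1, []⟩, ⟨1, [(16, 3), (7, 4)]⟩, ⟨1, [(16, 2), (10, 2), (2, 2)]⟩, ⟨1, [(16, 2), (10, 1), (7, 1)]⟩, ⟨1, [(16, 2), (10, 1), (7, 1)]⟩, ⟨2, [(16, 4), (10, 3), (2, 1)]⟩])))))) (.cons (.ddet 0 [] (.ndet 2 [⟨1, [(16, 3), (7, 4), (0, 1)]⟩, ⟨1, [(16, 6),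 (7, 8), (0, 3)]⟩] (.ddet 0 [] (.nbr (.cons (.ddet 0 [] (.leaf 2 [⟨1, [(18, 6), (9, 8), (2, 3)]⟩, ⟨1, [(18, 3), (9, 4), (2, 4)]⟩, ⟨1, [(18, 12), (9, 16), (2, 8)]⟩, ⟨1, [(18, 9), (9, 12), (2, 7)]⟩, ⟨1, [(18, 3), (9, 4), (2, 3)]⟩, ⟨1, [(1, 1)]⟩, ⟨1, []⟩, ⟨1, [(18, 3), (9, 4)]⟩, ⟨1, [(18, 6), (9, 8), (2, 5)]⟩, ⟨1, [(18, 3), (9, 4), (2, 1)]⟩, ⟨1, [(18, 3), (9, 4), (2, 1)]⟩, ⟨1, [(18, 4), (9, 5), (2, 3)]⟩])) (.cons (.ddet 0 [] (.leaf 2 [⟨1, [(18, 6), (9, 8), (1, 3)]⟩, ⟨1, [(18, 3), (9, 4), (1, 4)]⟩, ⟨1, [(18, 12), (9, 16), (1, 7)]⟩, ⟨1, [(18, 9), (9, 12), (1, 6)]⟩, ⟨1, [(18, 3), (9, 4), (1, 3)]⟩, ⟨1, []⟩, ⟨1, [(1, 1)]⟩, ⟨1, [(18, 3), (9, 4), (1, 1)]⟩, ⟨1, [(18, 6), (9, 8), (1, 4)]⟩, ⟨1,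 [(18, 3), (9, 4), (1, 1)]⟩, ⟨1, [(18, 3), (9, 4), (1, 2)]⟩, ⟨1, [(18, 4), (9, 5), (1, 3)]⟩])) (.cons (.prune [(19, 8), (14, 9), (13, 1), (2, 5), (1, 12)]) .nil))))))) .nil)))
def s25_4_t13 : Tree := .ndet 2 [⟨2, [(14, 4), (8, 3), (1, 1)]⟩, ⟨1, [(14, 3), (8, 1), (3, 3)]⟩] (.ddet 0 [] (.nbr (.cons (.ddet 0 [] (.split [0, -4, 0, 3] (7000) (.leaf 1 [⟨1, [(17, 4), (11, 3), (0, 1)]⟩, ⟨1, [(0, 1)]⟩, ⟨7, [(17, 42), (11, 32), (0, 1)]⟩, ⟨7, [(17, 7), (11, 5), (0, 3)]⟩, ⟨7, [(17, 21), (11, 16), (0, 4)]⟩, ⟨1, []⟩, ⟨7, [(17, 14), (11, 11), (0, 1)]⟩, ⟨7, [(17, 14), (11, 11), (0, 1)]⟩, ⟨1, [(17, 5), (11, 3), (6, 2)]⟩, ⟨7, [(17, 14), (11, 9), (0, 4)]⟩]) (.leaf 2 [⟨1, [(17, 4), (11, 3)]⟩, ⟨1, [(0,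 1)]⟩, ⟨7, [(17, 42), (11, 32), (0, 6)]⟩, ⟨1, [(17, 4), (11, 3), (0, 1)]⟩, ⟨7, [(17, 7), (11, 5), (0, 4)]⟩, ⟨2, [(17, 2), (11, 1), (4, 3)]⟩, ⟨1, []⟩, ⟨1, [(17, 3), (11, 2), (4, 2)]⟩, ⟨7, [(17, 14), (11, 11), (0, 6)]⟩, ⟨2, [(17, 4), (11, 3), (4, 1)]⟩, ⟨2, [(17, 4), (11, 3), (4, 1)]⟩, ⟨7, [(17, 14), (11, 9), (0, 3)]⟩]))) (.cons (.prune [(16, 4), (11, 1), (8, 1), (3, 6), (1, 4)]) (.cons (.ddet 0 [] (.leaf 1 [⟨1, [(16, 10), (5, 17), (1, 6)]⟩, ⟨1, [(16, 3), (5, 5), (1, 3)]⟩, ⟨1, [(16, 11), (5, 19), (1, 4)]⟩, ⟨1, [(16, 3), (5, 5), (1, 2)]⟩, ⟨1, [(16, 7), (5, 12), (1, 3)]⟩, ⟨1, [(1, 1)]⟩, ⟨1, [(16, 4), (5, 7), (1, 1)]⟩, ⟨1, [(16, 4), (5, 7), (1, 2)]⟩, ⟨1, [(16, 8), (5, 14), (1, 3)]⟩, ⟨1, [(16,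 5), (5, 8), (1, 3)]⟩])) .nil)))))
def s25_4_t14 : Tree := .nbr (.cons (.ddet 0 [] (.ndet 1 [⟨1, [(14, 1), (8, 1), (0, 1)]⟩, ⟨2, [(14, 4), (8, 3), (0, 1)]⟩] (.ddet 0 [] s25_4_t12))) (.cons (.prune [(15, 1), (13, 1), (5, 2), (1, 2)]) (.cons (.ddet 0 [] (.ndet 1 [⟨1, [(14, 1), (3, 2)]⟩, ⟨1, [(14, 2), (8, 1), (3, 1)]⟩] (.ddet 0 [] (.ndet 1 [⟨2, [(14, 4), (8, 3), (1, 1)]⟩, ⟨2, [(14, 2), (8, 1), (1, 3)]⟩] (.ddet 0 [] s25_4_t13))))) .nil)))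
def s25_4_t15 : Tree := .ddet 0 [] (.ndet 0 [⟨1, [(0, 1)]⟩, ⟨1, [(15, 1), (9, 1), (3, 1)]⟩] (.ddet 0 [] (.ndet 1 [⟨1, [(15, 2), (9, 2), (3, 3), (0, 1)]⟩, ⟨1, [(15, 2), (9, 2), (3, 3), (0, 2)]⟩] (.ddet 0 [] (.ndet 2 [⟨1, [(15, 2), (9, 2), (3, 3), (0, 1)]⟩, ⟨1, [(18, 2), (9, 1)]⟩] (.ddet 0 [] (.ndet 2 [⟨1, [(15, 1), (9, 1), (3, 2), (0, 2)]⟩, ⟨1, [(15, 3), (9, 3), (3, 5), (0, 3)]⟩] (.ddet 0 [] (.leaf 1 [⟨1, [(15, 6), (9, 6), (3, 9), (0, 3)]⟩, ⟨1, [(15, 3), (9, 3), (3, 5), (0, 3)]⟩, ⟨1, [(18, 2), (15, 3), (9, 4), (3, 4)]⟩, ⟨1, [(15, 2), (9, 2), (3, 3), (0, 1)]⟩, ⟨1, [(15, 3), (9, 3), (3, 4)]⟩, ⟨1, [(15, 1), (9, 1), (3, 2), (0, 2)]⟩, ⟨1, [(18, 2), (9, 1)]⟩, ⟨1, [(15, 2), (9, 2), (3, 3),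 (0, 1)]⟩, ⟨1, [(15, 3), (9, 3), (3, 4)]⟩, ⟨1, [(15, 3), (9, 3), (3, 4), (0, 2)]⟩])))))))))
def s25_4_t16 : Tree := .ddet 0 [] (.ndet 1 [⟨1, [(17, 1), (11, 3), (4, 4), (0, 3)]⟩, ⟨1, [(17, 2), (11, 5), (4, 6), (0, 4)]⟩] (.ddet 0 [] (.ndet 1 [⟨1, [(17, 2), (11, 5), (4, 6), (0, 3)]⟩, ⟨1, [(17, 1), (11, 2), (4, 2)]⟩] (.ddet 0 [] (.ndet 2 [⟨1, [(17, 2), (11, 5), (4, 6), (0, 3)]⟩, ⟨1, [(17, 3), (11, 8), (4, 10), (0, 6)]⟩] (.ddet 0 [] (.ndet 0 [⟨1, [(17, 1), (11, 2), (4, 2)]⟩, ⟨1, [(17, 1), (11, 3), (4, 4), (0, 3)]⟩] (.ddet 0 [] (.leaf 2 [⟨1, [(17, 4), (11, 10), (4, 12), (0, 6)]⟩, ⟨1, [(11, 1), (4, 2), (0, 3)]⟩, ⟨1, [(17, 6), (11, 16), (4, 20), (0, 12)]⟩, ⟨1, [(17, 4), (11, 11), (4, 14), (0,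 9)]⟩, ⟨1, [(17, 1), (11, 3), (4, 4), (0, 3)]⟩, ⟨1, [(17, 1), (11, 2), (4, 2)]⟩, ⟨1, []⟩, ⟨1, [(17, 3), (11, 7), (4, 8), (0, 3)]⟩, ⟨1, [(17, 2), (11, 6), (4, 8), (0, 6)]⟩, ⟨1, [(17, 2), (11, 5), (4, 6), (0, 3)]⟩, ⟨1, [(17, 2), (11, 5), (4, 6), (0, 3)]⟩, ⟨1, [(17, 2), (11, 5), (4, 6), (0, 4)]⟩])))))))))
def s25_4_t17 : Tree := .ndet 2 [⟨1, [(19, 2), (13, 2), (7, 3)]⟩, ⟨1, [(19, 1), (13, 1), (7, 1), (1, 2)]⟩] (.ddet 0 [] (.nbr (.cons (.ddet 0 [] (.split [0, -3, -1, 3] (5000) (.leaf 1 [⟨1, [(22, 4), (16, 6), (10, 3), (9, 4)]⟩, ⟨1, [(0, 1)]⟩, ⟨2, [(22, 11), (16, 11), (10, 16), (1, 1)]⟩, ⟨1, [(22, 1), (16, 2), (9, 2)]⟩, ⟨1, [(22, 3), (16, 4), (10, 3), (9, 2)]⟩, ⟨1, []⟩, ⟨1, [(22, 2), (16,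 2), (10, 3)]⟩, ⟨1, [(22, 2), (16, 2), (10, 3)]⟩, ⟨1, [(22, 4), (16, 4), (10, 6), (1, 1)]⟩, ⟨1, [(22, 2), (16, 3), (10, 1), (9, 2)]⟩]) (.leaf 2 [⟨4, [(22, 16), (16, 33), (9, 34), (0, 7)]⟩, ⟨1, [(0, 1)]⟩, ⟨2, [(22, 12), (16, 25), (9, 26), (0, 7)]⟩, ⟨4, [(22, 16), (16, 33), (9, 34), (0, 11)]⟩, ⟨1, [(22, 1), (16, 2), (9, 2), (0, 1)]⟩, ⟨1, [(22, 1), (16, 2), (9, 2)]⟩, ⟨1, []⟩, ⟨4, [(22, 12), (16, 25), (9, 26), (0, 3)]⟩, ⟨4, [(22, 8), (16, 17), (9, 18), (0, 7)]⟩, ⟨4, [(22, 8), (16, 17), (9, 18), (0, 3)]⟩, ⟨4, [(22, 8), (16, 17), (9, 18), (0, 3)]⟩, ⟨4, [(22, 8), (16, 15), (9, 14), (0, 5)]⟩]))) (.cons (.prune [(21, 3), (13, 2), (10, 6), (8, 2), (1, 5)]) (.cons (.ddet 0 [] (.leaf 1 [⟨1, [(21,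 5), (15, 5), (9, 7), (1, 1)]⟩, ⟨2, [(21, 3), (15, 3), (9, 4), (1, 3)]⟩, ⟨1, [(21, 4), (15, 4), (9, 5), (3, 3)]⟩, ⟨2, [(21, 3), (15, 3), (9, 4), (1, 1)]⟩, ⟨1, [(21, 3), (15, 3), (9, 4), (3, 1)]⟩, ⟨1, [(1, 1)]⟩, ⟨1, [(21, 1), (15, 1), (9, 1), (3, 2)]⟩, ⟨1, [(21, 2), (15, 2), (9, 3)]⟩, ⟨1, [(21, 3), (15, 3), (9, 4), (3, 2)]⟩, ⟨2, [(21, 5), (15, 5), (9, 6), (1, 1)]⟩])) .nil)))))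
def s25_4_t18 : Tree := .nbr (.cons (.ddet 0 [] (.ndet 1 [⟨1, [(19, 2), (13, 2), (7, 3)]⟩, ⟨1, [(19, 2), (13, 2), (7, 3), (1, 1)]⟩] (.ddet 0 [] (.ndet 2 [⟨1, [(19, 2), (13, 2), (7, 3)]⟩, ⟨1, [(19, 1), (13, 1), (7, 1), (4, 2)]⟩] (.ddet 0 [] (.ndet 2 [⟨1, [(19, 1), (13, 1), (7, 2), (1, 2)]⟩, ⟨1, [(19, 3), (13, 3), (7, 5), (1, 2)]⟩] (.ddet 0 [] (.leaf 1 [⟨1, [(19, 6), (13, 6), (7, 9)]⟩, ⟨1, [(19, 3), (13, 3), (7, 5), (1, 2)]⟩, ⟨1, [(19, 4), (13, 4), (7, 5), (4, 4)]⟩, ⟨1, [(19, 2), (13, 2), (7, 3)]⟩, ⟨1, [(19, 3), (13, 3), (7, 4), (4, 2)]⟩, ⟨1, [(19, 1), (13, 1), (7, 2), (1, 2)]⟩, ⟨1, [(19, 1), (13, 1), (7, 1), (4, 2)]⟩, ⟨1, [(19, 2), (13, 2), (7, 3)]⟩, ⟨1, [(19, 3), (13, 3), (7, 4), (4,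 2)]⟩, ⟨1, [(19, 3), (13, 3), (7, 4)]⟩])))))))) (.cons (.ddet 0 [] (.ndet 1 [⟨1, [(19, 2), (13, 2), (7, 3)]⟩, ⟨1, [(19, 1), (13, 2), (6, 2)]⟩] (.ddet 0 [] s25_4_t17))) (.cons (.prune [(19, 4), (14, 2), (13, 3), (1, 4), (0, 1)]) .nil)))
def s25_4_t19 : Tree := .nbr (.cons (.prune [(15, 2), (10, 1), (8, 2), (2, 1), (0, 3)]) (.cons (.ddet 0 [] (.ndet 2 [⟨1, [(15, 1), (9, 1), (3, 2), (0, 1)]⟩, ⟨1, [(15, 2), (9, 2), (3, 3), (0, 1)]⟩] s25_4_t15)) (.cons (.ddet 0 [] (.nbr (.cons s25_4_t16 (.cons (.prune [(17, 6), (11, 5), (9, 2), (2, 1), (1, 9)]) (.cons (.ddet 0 [] s25_4_t18) .nil))))) .nil)))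
def s25_4_t20 : Tree := .nbr (.cons (.ddet 0 [] (.ndet 1 [⟨1, [(12, 1), (6, 1)]⟩, ⟨1, [(12, 1), (6, 1), (1, 1)]⟩] s25_4_t11)) (.cons (.ddet 0 [] (.ndet 1 [⟨1, [(12, 1), (6, 1)]⟩, ⟨1, [(12, 1), (3, 1)]⟩] (.ddet 0 [] (.ndet 2 [⟨1, [(12, 1), (6, 1)]⟩, ⟨1, [(12, 1), (1, 2)]⟩] (.ddet 0 [] s25_4_t14))))) (.cons (.ddet 0 [] (.ndet 1 [⟨1, [(13, 1), (7, 1), (1, 2)]⟩, ⟨1, [(13, 1), (7, 1), (1, 1), (0, 1)]⟩] (.ddet 0 [] s25_4_t19))) .nil)))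
def s25_4_t21 : Tree := .nbr (.cons (.ddet 0 [] (.ndet 1 [⟨1, [(4, 1), (0, 1)]⟩, ⟨1, [(5, 1), (0, 1)]⟩] (.ddet 0 [] s25_4_t2))) (.cons (.ddet 0 [] (.nbr (.cons (.prune [(7, 1), (2, 1), (1, 1)]) (.cons s25_4_t4 (.cons (.ddet 0 [] s25_4_t7) .nil))))) (.cons (.ddet 0 [] s25_4_t20) .nil)))
def s25_4_n0 : Node := ⟨[⟨[1, 0, 0, -1], -200⟩, ⟨[1, 0, -1], -200⟩, ⟨[1, -1], -200⟩, ⟨[1, -1, -1, -1], 239700⟩, ⟨[1, -1, 0, -1], 239700⟩, ⟨[1, -1, 1, -1], 1660⟩, ⟨[1, 0, 1, -1], -5320⟩, ⟨[1, -1, -1], 239700⟩, ⟨[1, 1, 1], 239700⟩, ⟨[0, 1, -1, 1], 239700⟩, ⟨[0, 1, 0, 1], 239700⟩, ⟨[1, 0, 1, 1], 239700⟩, ⟨[0, 1, 1, 1], -4340⟩], [1], 0, none, s25_4_t21⟩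
def s25_4_t22 : Tree := .ddet 0 [] (.ndet 1 [⟨1, [(9, 2), (5, 2)]⟩, ⟨1, [(9, 1), (7, 1), (5, 1), (3, 1)]⟩] (.ddet 0 [] (.ndet 2 [⟨1, [(9, 2), (5, 2)]⟩, ⟨1, [(9, 3), (5, 3), (0, 1)]⟩] (.ddet 0 [] (.ndet 0 [⟨1, [(9, 1), (7, 1), (5, 1), (3, 1)]⟩, ⟨1, [(9, 1), (5, 1), (0, 1)]⟩] (.ddet 0 [] (.ndet 1 [⟨1, [(9, 3), (5, 3), (0, 1)]⟩, ⟨1, [(9, 4), (5, 4)]⟩] (.ddet 0 [] (.leaf 2 [⟨1, [(7, 2), (3, 2)]⟩, ⟨1, [(9, 6), (5, 6)]⟩, ⟨1, [(9, 3), (7, 3), (5, 3), (3, 3)]⟩, ⟨1, [(9, 3), (7, 3), (5, 3), (3, 3)]⟩, ⟨1, [(9, 3), (7, 1), (5, 3), (3, 1)]⟩, ⟨1, []⟩, ⟨1, [(9, 3), (5, 3), (0, 1)]⟩, ⟨1, []⟩, ⟨1, [(9, 3), (7, 1), (5, 3), (3, 1)]⟩, ⟨1, []⟩, ⟨1, [(9, 3), (5, 3), (0, 1)]⟩, ⟨1, [(9, 2), (7, 1), (5, 2),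 (3, 1)]⟩])))))))))
def s25_4_t23 : Tree := .ddet 0 [] (.ndet 1 [⟨1, [(11, 2), (10, 2), (6, 2), (1, 2)]⟩, ⟨1, [(11, 2), (10, 2), (6, 2), (1, 3)]⟩] (.ddet 0 [] (.ndet 2 [⟨1, [(11, 2), (10, 2), (6, 2), (1, 2)]⟩, ⟨1, [(12, 1), (11, 1), (10, 1), (6, 1)]⟩] (.ddet 0 [] (.ndet 2 [⟨1, [(11, 1), (10, 1), (6, 1), (1, 3)]⟩, ⟨1, [(11, 3), (10, 3), (6, 3), (1, 5)]⟩] (.ddet 0 [] (.ndet 1 [⟨1, [(12, 1), (11, 1), (10, 1), (6, 1)]⟩, ⟨1, [(11, 3), (10, 3), (6, 3), (1, 1)]⟩] (.ddet 0 [] (.leaf 2 [⟨1, [(11, 3), (10, 3), (6, 3), (1, 5)]⟩, ⟨1, [(11, 4), (10, 4), (6, 4)]⟩, ⟨1, [(11, 7), (10, 7), (6, 7), (1, 9)]⟩, ⟨1, [(11, 6), (10, 6), (6, 6), (1, 6)]⟩, ⟨1, [(11, 3), (10, 3), (6, 3), (1, 1)]⟩, ⟨1, []⟩, ⟨1,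 [(12, 1), (11, 1), (10, 1), (6, 1)]⟩, ⟨1, [(11, 1), (10, 1), (6, 1), (1, 3)]⟩, ⟨1, [(11, 4), (10, 4), (6, 4), (1, 4)]⟩, ⟨1, [(11, 1), (10, 1), (6, 1), (1, 3)]⟩, ⟨1, [(11, 2), (10, 2), (6, 2), (1, 2)]⟩, ⟨1, [(11, 3), (10, 3), (6, 3), (1, 3)]⟩])))))))))
def s25_4_t24 : Tree := .nbr (.cons (.ddet 0 [] (.ndet 1 [⟨3, [(13, 4), (12, 4), (8, 4), (0, 1)]⟩, ⟨1, [(13, 3), (12, 1), (9, 2), (8, 1)]⟩] (.ddet 0 [] (.leaf 2 [⟨1, [(5, 3)]⟩, ⟨1, [(13, 5), (12, 1), (9, 4), (8, 1)]⟩, ⟨1, [(13, 3), (9, 3), (5, 4)]⟩, ⟨1, [(13, 3), (9, 3), (5, 4)]⟩, ⟨1, [(13, 3), (9, 3), (5, 1)]⟩, ⟨1, []⟩, ⟨3, [(13, 4), (12, 4), (8, 4), (0, 1)]⟩, ⟨1, []⟩, ⟨1, [(13, 3), (9, 3), (5, 1)]⟩, ⟨1, []⟩, ⟨3, [(13, 4), (12, 4), (8,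 4), (0, 1)]⟩, ⟨1, [(13, 2), (9, 2), (5, 1)]⟩])))) (.cons (.prune [(12, 1), (11, 2), (7, 1), (1, 1)]) (.cons (.ddet 0 [] (.ndet 1 [⟨1, [(13, 1), (12, 1), (8, 1), (3, 1)]⟩, ⟨3, [(13, 7), (12, 7), (8, 7), (1, 2)]⟩] (.ddet 0 [] (.leaf 2 [⟨1, [(13, 1), (12, 1), (8, 1), (1, 2)]⟩, ⟨3, [(13, 11), (12, 11), (8, 11), (1, 1)]⟩, ⟨3, [(13, 10), (12, 10), (8, 10), (1, 11)]⟩, ⟨3, [(13, 10), (12, 10), (8, 10), (1, 8)]⟩, ⟨3, [(13, 7), (12, 7), (8, 7), (1, 2)]⟩, ⟨1, []⟩, ⟨1, [(13, 1), (12, 1), (8, 1), (3, 1)]⟩, ⟨1, [(1, 1)]⟩, ⟨3, [(13, 7), (12, 7), (8, 7), (1, 5)]⟩, ⟨1, [(1, 1)]⟩, ⟨3, [(13, 4), (12, 4), (8, 4), (1, 2)]⟩, ⟨3, [(13, 5), (12, 5), (8, 5), (1, 4)]⟩])))) .nil)))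
def s25_4_t25 : Tree := .ddet 0 [] (.nbr (.cons s25_4_t23 (.cons (.ddet 0 [] (.ndet 1 [⟨1, [(11, 2), (7, 2)]⟩, ⟨1, [(11, 1), (7, 1), (3, 1)]⟩] (.ddet 0 [] (.ndet 2 [⟨1, [(11, 2), (7, 2)]⟩, ⟨1, [(11, 1), (10, 1), (6, 1), (1, 1)]⟩] (.ddet 0 [] s25_4_t24))))) (.cons (.prune [(11, 1), (10, 1), (6, 1), (0, 1)]) .nil))))
def s25_4_t26 : Tree := .ndet 1 [⟨1, [(7, 1), (3, 1)]⟩, ⟨1, [(7, 1), (3, 1), (1, 1)]⟩] (.ddet 0 [] (.ndet 2 [⟨1, [(7, 1), (3, 1)]⟩, ⟨1, [(8, 1)]⟩] (.ddet 0 [] (.nbr (.cons (.ddet 0 [] (.ndet 1 [⟨1, [(9, 1), (5, 1), (0, 1)]⟩, ⟨1, [(9, 2), (5, 2), (0, 1)]⟩] s25_4_t22)) (.cons (.prune [(9, 1), (5, 1), (1, 1)]) (.cons s25_4_t25 .nil)))))))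
def s25_4_t27 : Tree := .ddet 0 [] (.ndet 2 [⟨2, [(13, 2), (12, 1), (9, 2), (0, 1)]⟩, ⟨1, [(13, 2), (12, 1), (9, 2)]⟩] (.ddet 0 [] (.ndet 0 [⟨1, [(0, 1)]⟩, ⟨1, [(13, 1), (9, 1), (2, 1)]⟩] (.ddet 0 [] (.ndet 1 [⟨1, [(13, 2), (12, 1), (9, 2)]⟩, ⟨1, [(13, 2), (12, 1), (9, 2), (0, 1)]⟩] (.ddet 0 [] (.split [2, 0, -1] (20000) (.leaf 2 [⟨1, [(0, 1)]⟩, ⟨1, [(14, 6), (10, 6), (3, 6), (0, 3)]⟩, ⟨1, [(14, 3), (10, 3), (3, 3), (0, 3)]⟩, ⟨1, [(14, 3), (10, 3), (3, 3), (0, 3)]⟩, ⟨1, [(14, 3), (10, 3), (3, 3), (0, 2)]⟩, ⟨1, []⟩, ⟨1, [(14, 3), (10, 3), (3, 3), (0, 1)]⟩, ⟨1, []⟩, ⟨1, [(14, 3), (10, 3), (3, 3), (0, 2)]⟩, ⟨1, []⟩, ⟨1, [(14, 3), (10, 3), (3, 3), (0, 1)]⟩, ⟨1, [(14, 2), (10, 2), (3, 3),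 (0, 2)]⟩]) (.leaf 3 [⟨1, [(0, 1)]⟩, ⟨1, [(14, 4), (13, 2), (10, 4)]⟩, ⟨2, [(14, 2), (13, 1), (10, 2), (1, 3)]⟩, ⟨1, [(14, 2), (13, 1), (10, 2)]⟩, ⟨1, []⟩, ⟨1, []⟩, ⟨1, []⟩, ⟨1, []⟩, ⟨2, [(14, 2), (13, 1), (10, 2), (1, 3)]⟩, ⟨1, [(14, 1), (13, 1), (10, 1)]⟩]))))))))
def s25_4_t28 : Tree := .nbr (.cons (.ddet 0 [] (.ndet 1 [⟨1, [(15, 2), (14, 1), (11, 2), (2, 1)]⟩, ⟨1, [(15, 2), (14, 1), (11, 2)]⟩] (.ddet 0 [] (.leaf 3 [⟨2, [(15, 2), (14, 1), (11, 2), (2, 5)]⟩, ⟨1, [(15, 4), (14, 2), (11, 4), (2, 2)]⟩, ⟨2, [(15, 2), (14, 1), (11, 2), (1, 3)]⟩, ⟨1, [(15, 2), (14, 1), (11, 2), (2, 1)]⟩, ⟨1, []⟩, ⟨1, []⟩, ⟨1, []⟩, ⟨1, []⟩, ⟨2, [(15, 2), (14, 1), (11, 2), (1, 3)]⟩, ⟨1, [(15, 1), (14, 1),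 (11, 1), (2, 1)]⟩])))) (.cons (.ddet 0 [] (.ndet 1 [⟨1, [(15, 2), (14, 1), (11, 2), (1, 1)]⟩, ⟨1, [(15, 2), (14, 1), (11, 2)]⟩] (.ddet 0 [] (.leaf 3 [⟨2, [(15, 2), (14, 1), (11, 2), (1, 5)]⟩, ⟨1, [(15, 4), (14, 2), (11, 4), (1, 1)]⟩, ⟨1, [(13, 1), (6, 3)]⟩, ⟨1, [(15, 2), (14, 1), (11, 2)]⟩, ⟨1, []⟩, ⟨1, [(1, 1)]⟩, ⟨1, []⟩, ⟨1, [(1, 1)]⟩, ⟨1, [(15, 1), (11, 1), (6, 1)]⟩, ⟨1, [(15, 1), (14, 1), (11, 1), (1, 1)]⟩])))) (.cons (.prune [(15, 2), (14, 3), (10, 2), (2, 1), (1, 4)]) .nil)))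
def s25_4_t29 : Tree := .ddet 0 [] (.ndet 1 [⟨1, [(11, 1), (7, 1), (0, 1)]⟩, ⟨1, [(11, 1), (10, 1), (7, 1)]⟩] (.ddet 0 [] (.nbr (.cons (.prune [(13, 2), (12, 3), (8, 2), (1, 1), (0, 3)]) (.cons s25_4_t27 (.cons (.ddet 0 [] (.ndet 2 [⟨1, [(13, 1), (9, 1), (4, 1)]⟩, ⟨1, [(13, 2), (12, 1), (9, 2)]⟩] (.ddet 0 [] s25_4_t28))) .nil))))))
def s25_4_t30 : Tree := .nbr (.cons (.ddet 0 [] (.ndet 1 [⟨1, [(13, 1), (12, 2), (9, 1), (7, 1)]⟩, ⟨1, [(13, 2), (12, 2), (9, 2), (3, 1)]⟩] (.ddet 0 [] (.split [3, 0, -1] (16000) (.leaf 2 [⟨1, [(0, 1)]⟩, ⟨2, [(14, 7), (13, 5), (10, 7), (0, 1)]⟩, ⟨4, [(14, 7), (13, 5), (10, 7), (0, 7)]⟩, ⟨4, [(14, 7), (13, 5), (10, 7), (0, 7)]⟩, ⟨4, [(14, 7), (13, 5), (10,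 7), (0, 3)]⟩, ⟨1, []⟩, ⟨1, [(14, 1), (13, 2), (10, 1), (8, 1)]⟩, ⟨1, []⟩, ⟨4, [(14, 7), (13, 5), (10, 7), (0, 3)]⟩, ⟨1, []⟩, ⟨1, [(14, 1), (13, 2), (10, 1), (8, 1)]⟩, ⟨4, [(14, 3), (13, 5), (10, 3), (0, 3)]⟩]) (.leaf 3 [⟨1, [(0, 1)]⟩, ⟨2, [(14, 7), (13, 5), (10, 7), (0, 1)]⟩, ⟨1, [(14, 1), (13, 2), (10, 1), (4, 3)]⟩, ⟨4, [(14, 7), (13, 5), (10, 7), (0, 1)]⟩, ⟨1, []⟩, ⟨1, []⟩, ⟨1, []⟩, ⟨1, []⟩, ⟨1, [(14, 1), (13, 2), (10, 1), (4, 3)]⟩, ⟨4, [(14, 3), (13, 5), (10, 3), (0, 1)]⟩]))))) (.cons (.prune [(12, 1), (3, 2), (1, 1)]) (.cons (.ddet 0 [] (.ndet 1 [⟨1, [(12, 4), (7, 3), (1, 1)]⟩, ⟨1, [(12, 7), (7, 5), (1, 3)]⟩] (.ddet 0 [] (.leaf 2 [⟨1, [(12, 3), (7, 2), (1, 3)]⟩, ⟨1, [(12, 11),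 (7, 8), (1, 4)]⟩, ⟨1, [(12, 10), (7, 7), (1, 7)]⟩, ⟨1, [(12, 10), (7, 7), (1, 6)]⟩, ⟨1, [(12, 7), (7, 5), (1, 3)]⟩, ⟨1, []⟩, ⟨1, [(12, 4), (7, 3), (1, 1)]⟩, ⟨1, [(1, 1)]⟩, ⟨1, [(12, 7), (7, 5), (1, 4)]⟩, ⟨1, [(1, 1)]⟩, ⟨1, [(12, 4), (7, 3), (1, 2)]⟩, ⟨1, [(12, 5), (7, 3), (1, 3)]⟩])))) .nil)))
def s25_4_t31 : Tree := .nbr (.cons s25_4_t29 (.cons (.prune [(2, 1), (1, 1)]) (.cons (.ddet 0 [] (.ndet 1 [⟨1, [(10, 1), (5, 1)]⟩, ⟨1, [(11, 1), (10, 1), (7, 1)]⟩] (.ddet 0 [] (.ndet 1 [⟨1, [(11, 1), (10, 1), (7, 1), (1, 1)]⟩, ⟨1, [(10, 1), (1, 2)]⟩] (.ddet 0 [] (.ndet 2 [⟨1, [(11, 1), (10, 1), (7, 1), (1, 1)]⟩, ⟨1, [(11, 1), (10, 2), (7, 1), (5, 1)]⟩] (.ddet 0 [] s25_4_t30))))))) .nil)))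
def s25_4_t32 : Tree := .ddet 0 [] (.ndet 2 [⟨1, [(9, 1), (8, 1), (5, 1), (0, 2)]⟩, ⟨1, [(8, 1), (0, 3)]⟩] (.ddet 0 [] (.ndet 2 [⟨1, [(11, 1), (9, 1), (5, 1)]⟩, ⟨1, [(9, 2), (8, 1), (5, 2), (0, 1)]⟩] (.ddet 0 [] (.ndet 1 [⟨1, [(8, 1), (0, 3)]⟩, ⟨1, [(9, 1), (8, 2), (5, 1), (0, 5)]⟩] (.ddet 0 [] (.ndet 1 [⟨1, [(9, 2), (8, 2), (5, 2), (0, 4)]⟩, ⟨1, [(9, 2), (8, 1), (5, 2), (0, 1)]⟩] (.ddet 0 [] (.leaf 3 [⟨1, [(9, 1), (8, 3), (5, 1), (0, 8)]⟩, ⟨1, [(9, 4), (8, 3), (5, 4), (0, 5)]⟩, ⟨1, [(11, 4), (7, 1)]⟩, ⟨1, [(9, 2), (8, 1), (5, 2), (0, 1)]⟩, ⟨1, []⟩, ⟨1, [(8, 1), (0, 3)]⟩, ⟨1, []⟩, ⟨1, [(8, 1), (0, 3)]⟩, ⟨1, [(11, 1), (9, 1), (5, 1)]⟩, ⟨1, [(9, 1), (8, 2), (5, 1), (0, 4)]⟩])))))))))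
def s25_4_t33 : Tree := .nbr (.cons (.prune [(11, 1), (9, 1), (4, 1), (1, 2)]) (.cons (.ddet 0 [] (.ndet 2 [⟨1, [(9, 1), (5, 1)]⟩, ⟨1, [(8, 1), (3, 1)]⟩] (.ddet 0 [] s25_4_t31))) (.cons (.ddet 0 [] (.ndet 2 [⟨1, [(9, 1), (5, 1)]⟩, ⟨1, [(9, 1), (8, 1), (5, 1), (0, 1)]⟩] (.ddet 0 [] (.ndet 0 [⟨1, [(11, 1)]⟩, ⟨1, [(8, 1), (0, 1)]⟩] (.ddet 0 [] (.ndet 1 [⟨1, [(9, 1), (8, 1), (5, 1), (0, 2)]⟩, ⟨1, [(9, 1), (8, 1), (5, 1), (0, 1)]⟩] s25_4_t32)))))) .nil)))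
def s25_4_n1 : Node := ⟨[⟨[0, 1, 0, -1], -200⟩, ⟨[0, 1, -1], -200⟩, ⟨[-1, 1], -200⟩, ⟨[0, 0, 0, -1], 239700⟩, ⟨[-1, 1, -1], 239700⟩, ⟨[1, 0, 1], 680⟩, ⟨[-1, 1, -1, 1], -2340⟩, ⟨[0, 1, 0, 1], 239700⟩, ⟨[0, 1, 1, 1], 239700⟩], [0, 1], 0, none, (.nbr (.cons (.ddet 0 [] s25_4_t26) (.cons (.ddet 0 [] s25_4_t33) (.cons (.prune [(7, 1), (1, 1)]) .nil))))⟩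
def s25_4_t34 : Tree := .ddet 0 [] (.ndet 2 [⟨5, [(12, 4), (8, 3), (6, 1), (0, 3)]⟩, ⟨5, [(12, 8), (8, 6), (6, 2), (0, 1)]⟩] (.ddet 0 [] (.ndet 0 [⟨1, [(0, 1)]⟩, ⟨3, [(12, 2), (8, 1), (6, 1), (2, 2)]⟩] (.ddet 0 [] (.ndet 1 [⟨5, [(12, 8), (8, 6), (6, 2), (0, 1)]⟩, ⟨5, [(12, 8), (8, 6), (6, 2), (0, 6)]⟩] (.ddet 0 [] (.ndet 2 [⟨5, [(12, 8), (8, 6), (6, 2), (0, 1)]⟩, ⟨2, [(11, 1), (6, 1), (2, 5)]⟩] (.ddet 0 [] (.leaf 0 [⟨1, [(12, 2), (8, 1), (6, 1), (2, 2)]⟩, ⟨5, [(12, 24), (8, 18), (6, 6), (0, 3)]⟩, ⟨5, [(12, 12), (8, 9), (6, 3), (0, 9)]⟩, ⟨5, [(12, 16), (8, 12), (6, 4), (0, 2)]⟩, ⟨5, [(12, 8), (8, 6), (6, 2), (0, 1)]⟩, ⟨1, []⟩, ⟨2, [(11, 1), (6, 1), (2, 5)]⟩, ⟨1, [(12, 4), (8, 3), (6,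 1), (0, 2)]⟩, ⟨1, [(12, 2), (8, 1), (6, 1), (2, 2)]⟩, ⟨5, [(12, 16), (8, 12), (6, 4), (0, 2)]⟩, ⟨5, [(12, 8), (8, 6), (6, 2), (0, 1)]⟩, ⟨5, [(12, 12), (8, 9), (6, 3), (0, 9)]⟩, ⟨1, []⟩, ⟨5, [(12, 13), (8, 11), (6, 2), (0, 1)]⟩])))))))))
def s25_4_t35 : Tree := .nbr (.cons (.ddet 0 [] (.ndet 1 [⟨5, [(14, 8), (10, 6), (8, 2), (2, 4)]⟩, ⟨5, [(14, 8), (10, 6), (8, 2), (1, 1)]⟩] (.ddet 0 [] (.ndet 2 [⟨5, [(14, 8), (10, 6), (8, 2), (2, 4)]⟩, ⟨5, [(14, 4), (10, 3), (8, 1), (2, 12)]⟩] (.ddet 0 [] (.leaf 0 [⟨5, [(14, 12), (10, 9), (8, 3), (2, 16)]⟩, ⟨5, [(14, 24), (10, 18), (8, 6), (2, 12)]⟩, ⟨5, [(14, 12), (10, 9), (8, 3), (1, 4)]⟩, ⟨5, [(14, 16), (10, 12), (8, 4), (2, 8)]⟩, ⟨5, [(14, 8),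 (10, 6), (8, 2), (2, 4)]⟩, ⟨1, []⟩, ⟨5, [(14, 4), (10, 3), (8, 1), (2, 12)]⟩, ⟨1, [(14, 4), (10, 3), (8, 1)]⟩, ⟨5, [(14, 12), (10, 9), (8, 3), (2, 16)]⟩, ⟨5, [(14, 16), (10, 12), (8, 4), (2, 8)]⟩, ⟨5, [(14, 8), (10, 6), (8, 2), (2, 4)]⟩, ⟨5, [(14, 12), (10, 9), (8, 3), (1, 4)]⟩, ⟨1, []⟩, ⟨5, [(14, 13), (10, 11), (8, 2), (2, 9)]⟩])))))) (.cons (.ddet 0 [] (.ndet 1 [⟨5, [(14, 8), (10, 6), (8, 2), (1, 4)]⟩, ⟨1, [(14, 2), (10, 1), (9, 1)]⟩] (.ddet 0 [] (.ndet 2 [⟨5, [(14, 8), (10, 6), (8, 2), (1, 4)]⟩, ⟨5, [(14, 4), (10, 3), (8, 1), (1, 12)]⟩] (.ddet 0 [] (.leaf 0 [⟨5, [(14, 12), (10, 9), (8, 3), (1, 11)]⟩, ⟨5, [(14, 24), (10, 18), (8, 6), (1, 2)]⟩, ⟨1, [(10, 3), (6, 3)]⟩, ⟨1, [(14, 4),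 (10, 2), (9, 2)]⟩, ⟨1, [(14, 2), (10, 1), (9, 1)]⟩, ⟨1, []⟩, ⟨5, [(14, 4), (10, 3), (8, 1), (1, 12)]⟩, ⟨1, [(14, 2), (10, 4), (9, 1), (6, 3)]⟩, ⟨5, [(14, 12), (10, 9), (8, 3), (1, 16)]⟩, ⟨5, [(14, 16), (10, 12), (8, 4), (1, 3)]⟩, ⟨5, [(14, 8), (10, 6), (8, 2), (1, 4)]⟩, ⟨1, [(14, 2), (10, 2), (9, 1), (6, 1)]⟩, ⟨1, [(1, 1)]⟩, ⟨5, [(14, 13), (10, 11), (8, 2), (1, 4)]⟩])))))) (.cons (.prune [(14, 4), (10, 3), (8, 1), (2, 2), (1, 5)]) .nil)))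
def s25_4_t36 : Tree := .ddet 0 [] (.ndet 1 [⟨3, [(10, 2), (6, 1), (4, 1), (0, 2)]⟩, ⟨1, [(10, 1), (6, 1)]⟩] (.ddet 0 [] (.nbr (.cons (.prune [(12, 4), (8, 3), (6, 1), (1, 2), (0, 3)]) (.cons s25_4_t34 (.cons (.ddet 0 [] (.ndet 2 [⟨1, [(8, 1), (4, 1)]⟩, ⟨1, [(12, 2), (8, 1), (7, 1)]⟩] (.ddet 0 [] s25_4_t35))) .nil))))))
def s25_4_t37 : Tree := .nbr (.cons (.ddet 0 [] (.ndet 1 [⟨1, [(13, 2), (8, 2), (3, 3)]⟩, ⟨1, [(13, 2), (8, 2), (3, 3), (1, 1)]⟩] (.ddet 0 [] (.ndet 2 [⟨1, [(13, 2), (8, 2), (3, 3)]⟩, ⟨1, [(13, 1), (8, 1), (3, 1), (2, 2)]⟩] (.ddet 0 [] (.leaf 0 [⟨1, [(13, 3), (8, 3), (3, 4), (2, 2)]⟩, ⟨1, [(13, 6), (8, 6), (3, 9)]⟩, ⟨1, [(13, 3), (8, 3), (3, 5), (1, 2)]⟩, ⟨1, [(13,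 4), (8, 4), (3, 6)]⟩, ⟨1, [(13, 2), (8, 2), (3, 3)]⟩, ⟨1, []⟩, ⟨1, [(13, 1), (8, 1), (3, 1), (2, 2)]⟩, ⟨1, [(13, 5), (8, 5), (3, 8), (1, 2)]⟩, ⟨1, [(13, 3), (8, 3), (3, 4), (2, 2)]⟩, ⟨1, [(13, 4), (8, 4), (3, 6)]⟩, ⟨1, [(13, 2), (8, 2), (3, 3)]⟩, ⟨1, [(13, 3), (8, 3), (3, 5), (1, 2)]⟩, ⟨1, []⟩, ⟨1, [(13, 3), (8, 3), (3, 3), (2, 1)]⟩])))))) (.cons (.ddet 0 [] (.ndet 1 [⟨1, [(13, 2), (8, 2), (3, 3)]⟩, ⟨1, [(13, 1), (8, 2), (4, 1), (3, 1)]⟩] (.ddet 0 [] (.ndet 2 [⟨1, [(13, 2), (8, 2), (3, 3)]⟩, ⟨1, [(13, 1), (8, 1), (3, 1), (1, 2)]⟩] (.ddet 0 [] (.split [-4, 0, 3] (7000) (.leaf 0 [⟨1, [(14, 3), (9, 3), (4, 4), (2, 1)]⟩, ⟨1, [(14, 4), (9, 6), (5, 2), (4, 5)]⟩, ⟨1, [(0, 1)]⟩, ⟨1, [(14,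 2), (9, 4), (5, 2), (4, 2)]⟩, ⟨1, [(14, 1), (9, 2), (5, 1), (4, 1)]⟩, ⟨1, []⟩, ⟨1, [(14, 1), (9, 1), (4, 1), (2, 2)]⟩, ⟨1, [(14, 1), (9, 5), (5, 4)]⟩, ⟨1, [(14, 3), (9, 3), (4, 4), (2, 2)]⟩, ⟨1, [(14, 3), (9, 4), (5, 1), (4, 4)]⟩, ⟨1, [(14, 2), (9, 2), (4, 3)]⟩, ⟨1, [(14, 1), (9, 3), (5, 2), (4, 1)]⟩, ⟨1, [(2, 1)]⟩, ⟨1, [(14, 3), (9, 3), (4, 3)]⟩]) (.leaf 1 [⟨1, [(14, 4), (9, 21), (5, 17), (0, 7)]⟩, ⟨1, [(14, 4), (9, 21), (5, 17), (0, 6)]⟩, ⟨1, [(0, 1)]⟩, ⟨1, [(14, 1), (9, 5), (5, 4), (0, 2)]⟩, ⟨1, [(14, 1), (9, 5), (5, 4), (0, 2)]⟩, ⟨1, [(14, 2), (9, 11), (5, 9), (0, 3)]⟩, ⟨1, []⟩, ⟨1, [(14, 2), (9, 11), (5, 9), (0, 3)]⟩, ⟨1, [(14, 1), (9, 6), (5, 5), (0, 2)]⟩, ⟨1, [(14, 3), (9, 12),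 (5, 9), (0, 4)]⟩]))))))) (.cons (.prune [(13, 5), (8, 4), (6, 1), (2, 2), (1, 6)]) .nil)))
def s25_4_t38 : Tree := .ddet 0 [] (.ndet 2 [⟨2, [(12, 2), (8, 1), (6, 1), (1, 5)]⟩, ⟨1, [(12, 3), (8, 2), (6, 1), (1, 4)]⟩] (.ddet 0 [] (.ndet 1 [⟨1, [(15, 1), (12, 1), (8, 1)]⟩, ⟨2, [(12, 6), (8, 5), (6, 1), (1, 1)]⟩] (.ddet 0 [] (.ndet 1 [⟨1, [(12, 4), (8, 3), (6, 1), (1, 3)]⟩, ⟨1, [(12, 3), (8, 2), (6, 1), (1, 4)]⟩] (.ddet 0 [] (.split [-1, -4, 3] (-14000) (.leaf 0 [⟨1, [(0, 1)]⟩, ⟨7, [(13, 28), (9, 24), (7, 4), (0, 8)]⟩, ⟨2, [(13, 14), (9, 11), (7, 3), (2, 7)]⟩, ⟨7, [(13, 21), (9, 18), (7, 3), (0, 6)]⟩, ⟨2, [(13, 6), (9, 5), (7, 1), (2, 1)]⟩, ⟨1, [(13, 3), (9, 2), (7, 1), (2, 4)]⟩, ⟨1, []⟩,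 ⟨1, [(13, 7), (9, 6), (7, 1)]⟩, ⟨7, [(13, 7), (9, 6), (7, 1), (0, 2)]⟩, ⟨7, [(13, 7), (9, 6), (7, 1), (0, 9)]⟩, ⟨7, [(13, 7), (9, 6), (7, 1), (0, 2)]⟩, ⟨1, [(13, 8), (9, 6), (7, 2), (2, 6)]⟩, ⟨2, [(13, 2), (9, 1), (7, 1), (2, 5)]⟩, ⟨7, [(13, 21), (9, 20), (7, 1), (0, 2)]⟩]) (.leaf 3 [⟨1, [(13, 4), (11, 1), (9, 4)]⟩, ⟨1, [(13, 7), (9, 6), (7, 1), (0, 2)]⟩, ⟨1, [(0, 1)]⟩, ⟨7, [(13, 21), (9, 18), (7, 3), (0, 8)]⟩, ⟨1, []⟩, ⟨1, [(16, 1), (13, 1), (9, 1)]⟩, ⟨1, []⟩, ⟨1, [(16, 1), (13, 1), (9, 1)]⟩, ⟨7, [(13, 7), (9, 6), (7, 1), (0, 5)]⟩, ⟨7, [(13, 21), (9, 20), (7, 1), (0, 5)]⟩]))))))))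
def s25_4_t39 : Tree := .nbr (.cons (.ddet 0 [] (.ndet 1 [⟨5, [(16, 7), (12, 6), (10, 1), (0, 2)]⟩, ⟨1, [(16, 2), (12, 2), (7, 1)]⟩] (.ddet 0 [] (.nbr (.cons (.prune [(18, 8), (14, 7), (12, 1), (1, 1), (0, 4)]) (.cons (.ddet 0 [] (.leaf 0 [⟨5, [(18, 7), (14, 6), (12, 1), (2, 2)]⟩, ⟨5, [(18, 24), (14, 21), (12, 3), (0, 2)]⟩, ⟨5, [(18, 16), (14, 14), (12, 2), (0, 8)]⟩, ⟨5, [(18, 16), (14, 14), (12, 2), (0, 3)]⟩, ⟨5, [(18, 8), (14, 7), (12, 1), (0, 4)]⟩, ⟨1, [(0, 1)]⟩, ⟨1, []⟩, ⟨5, [(18, 24), (14, 21), (12, 3), (0, 7)]⟩, ⟨5, [(18, 7), (14, 6), (12, 1), (2, 2)]⟩, ⟨5, [(18, 14), (14, 12), (12, 2), (2, 4)]⟩, ⟨5, [(18, 7), (14, 6), (12, 1), (2, 2)]⟩, ⟨5, [(18, 16), (14, 14), (12, 2), (0,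 8)]⟩, ⟨1, []⟩, ⟨2, [(18, 5), (14, 5), (0, 1)]⟩])) (.cons (.ddet 0 [] (.leaf 0 [⟨5, [(18, 8), (14, 7), (12, 1), (0, 6)]⟩, ⟨5, [(18, 24), (14, 21), (12, 3), (0, 3)]⟩, ⟨1, [(18, 3), (14, 3), (9, 2)]⟩, ⟨5, [(18, 16), (14, 14), (12, 2), (0, 2)]⟩, ⟨5, [(18, 8), (14, 7), (12, 1), (0, 1)]⟩, ⟨1, []⟩, ⟨1, [(0, 1)]⟩, ⟨3, [(18, 14), (14, 13), (12, 1), (9, 4)]⟩, ⟨5, [(18, 8), (14, 7), (12, 1), (0, 6)]⟩, ⟨5, [(18, 16), (14, 14), (12, 2), (0, 2)]⟩, ⟨5, [(18, 8), (14, 7), (12, 1), (0, 1)]⟩, ⟨1, [(18, 3), (14, 3), (9, 2)]⟩, ⟨1, []⟩, ⟨2, [(18, 5), (14, 5), (0, 1)]⟩])) .nil))))))) (.cons (.prune [(2, 1), (1, 1)]) (.cons (.ddet 0 [] (.ndet 1 [⟨1, [(16, 1), (12, 1), (5, 1)]⟩, ⟨5, [(16, 12), (12, 11), (10,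 1), (1, 3)]⟩] (.ddet 0 [] (.ndet 1 [⟨5, [(16, 12), (12, 11), (10, 1), (1, 8)]⟩, ⟨1, [(16, 1), (12, 1), (1, 2)]⟩] (.ddet 0 [] (.split [-1, -4, 3] (-14000) (.leaf 0 [⟨1, [(0, 1)]⟩, ⟨1, [(17, 4), (13, 4), (6, 3)]⟩, ⟨5, [(17, 24), (13, 22), (11, 2), (2, 11)]⟩, ⟨1, [(17, 3), (13, 3), (6, 2)]⟩, ⟨5, [(17, 12), (13, 11), (11, 1), (2, 3)]⟩, ⟨1, [(17, 1), (13, 1), (2, 2)]⟩, ⟨1, []⟩, ⟨5, [(17, 31), (13, 28), (11, 3), (2, 4)]⟩, ⟨1, [(17, 1), (13, 1), (6, 1)]⟩, ⟨1, [(17, 1), (13, 1), (6, 1), (0, 1)]⟩, ⟨1, [(17, 1), (13, 1), (6, 1)]⟩, ⟨5, [(17, 24), (13, 22), (11, 2), (2, 16)]⟩, ⟨1, [(2, 1)]⟩, ⟨1, [(17, 3), (13, 3)]⟩]) (.leaf 3 [⟨1, [(17, 4), (13, 4), (6, 3), (0, 1)]⟩, ⟨1, [(17, 7), (13, 7), (6,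 5), (0, 4)]⟩, ⟨1, [(0, 1)]⟩, ⟨1, [(17, 3), (13, 3), (6, 2), (0, 2)]⟩, ⟨1, []⟩, ⟨1, [(17, 1), (13, 1), (6, 1)]⟩, ⟨1, []⟩, ⟨1, [(17, 1), (13, 1), (6, 1)]⟩, ⟨1, [(17, 1), (13, 1), (6, 1), (0, 1)]⟩, ⟨1, [(17, 3), (13, 3), (0, 1)]⟩]))))))) .nil)))
def s25_4_t40 : Tree := .ddet 0 [] (.ndet 2 [⟨1, [(15, 1), (10, 1), (5, 2), (0, 1)]⟩, ⟨1, [(15, 2), (10, 2), (5, 3), (0, 3)]⟩] (.ddet 0 [] (.ndet 0 [⟨1, [(4, 1)]⟩, ⟨1, [(15, 1), (10, 1), (5, 1), (0, 2)]⟩] (.ddet 0 [] (.ndet 1 [⟨1, [(15, 2), (10, 2), (5, 3), (0, 4)]⟩, ⟨1, [(15, 2), (10, 2), (5, 3), (0, 3)]⟩] (.ddet 0 [] (.ndet 2 [⟨1, [(15, 2), (10, 2), (5, 3), (0, 4)]⟩, ⟨1, [(15, 1), (10, 1), (5, 1), (0, 4)]⟩] (.ddet 0 [] (.leaf 0 [⟨1, [(15, 3),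 (10, 3), (5, 4), (0, 8)]⟩, ⟨1, [(15, 6), (10, 6), (5, 9), (0, 12)]⟩, ⟨1, [(15, 3), (10, 3), (5, 5), (0, 4)]⟩, ⟨1, [(15, 4), (10, 4), (5, 6), (0, 8)]⟩, ⟨1, [(15, 2), (10, 2), (5, 3), (0, 4)]⟩, ⟨1, []⟩, ⟨1, [(15, 1), (10, 1), (5, 1), (0, 4)]⟩, ⟨1, [(15, 5), (10, 5), (5, 8), (0, 8)]⟩, ⟨1, [(15, 3), (10, 3), (5, 4), (0, 8)]⟩, ⟨1, [(15, 4), (10, 4), (5, 6), (0, 8)]⟩, ⟨1, [(15, 2), (10, 2), (5, 3), (0, 4)]⟩, ⟨1, [(15, 3), (10, 3), (5, 5), (0, 4)]⟩, ⟨1, []⟩, ⟨1, [(15, 3), (10, 3), (5, 3), (0, 6)]⟩])))))))))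
def s25_4_t41 : Tree := .nbr (.cons (.ddet 0 [] (.ndet 1 [⟨2, [(12, 4), (8, 3), (6, 1), (1, 3)]⟩, ⟨2, [(12, 4), (8, 3), (6, 1), (1, 5)]⟩] (.ddet 0 [] (.ndet 2 [⟨2, [(12, 4), (8, 3), (6, 1), (1, 3)]⟩, ⟨1, [(15, 1), (12, 1), (8, 1)]⟩] s25_4_t38)))) (.cons (.ddet 0 [] (.nbr (.cons (.prune [(14, 4), (10, 3), (8, 1), (1, 2), (0, 3)]) (.cons (.ddet 0 [] (.ndet 2 [⟨1, [(14, 1), (10, 1), (5, 1)]⟩, ⟨1, [(14, 1), (10, 1), (3, 1)]⟩] (.ddet 0 [] s25_4_t39))) (.cons s25_4_t40 .nil))))) (.cons (.prune [(13, 1), (8, 1), (1, 1), (0, 1)]) .nil)))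
def s25_4_t42 : Tree := .nbr (.cons s25_4_t36 (.cons (.ddet 0 [] (.ndet 1 [⟨1, [(11, 1), (6, 1), (1, 2)]⟩, ⟨1, [(11, 1), (6, 1), (1, 1)]⟩] (.ddet 0 [] (.ndet 2 [⟨1, [(11, 1), (6, 1), (1, 2)]⟩, ⟨1, [(0, 1)]⟩] (.ddet 0 [] (.ndet 2 [⟨1, [(6, 1), (2, 1)]⟩, ⟨1, [(11, 1), (6, 2), (2, 1), (1, 1)]⟩] (.ddet 0 [] s25_4_t37))))))) (.cons (.ddet 0 [] s25_4_t41) .nil)))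
def s25_4_t43 : Tree := .ddet 0 [] (.ndet 2 [⟨1, [(11, 1), (5, 1)]⟩, ⟨1, [(10, 2), (6, 1), (5, 1), (2, 1)]⟩] (.ddet 0 [] (.ndet 1 [⟨1, [(10, 1), (9, 1), (2, 3)]⟩, ⟨2, [(10, 5), (9, 1), (4, 1), (2, 9)]⟩] (.ddet 0 [] (.ndet 1 [⟨1, [(10, 4), (5, 2), (2, 4)]⟩, ⟨1, [(10, 2), (6, 1), (5, 1), (2, 1)]⟩] (.ddet 0 [] (.ndet 2 [⟨1, [(10, 4), (5, 2), (2, 4)]⟩, ⟨2, [(10, 7), (9, 3), (4, 1), (2, 15)]⟩] (.ddet 0 [] (.leaf 0 [⟨1, [(10, 6), (5, 1), (4, 1), (2, 8)]⟩, ⟨1, [(10, 8), (6, 2), (5, 4), (2, 6)]⟩, ⟨1, [(11, 3), (5, 3)]⟩, ⟨1, [(10, 4), (6, 2), (5, 2), (2, 2)]⟩, ⟨1, [(10, 2), (6, 1), (5, 1), (2, 1)]⟩, ⟨1, []⟩, ⟨2, [(10, 7), (9, 3), (4, 1), (2, 15)]⟩, ⟨1, [(11, 2), (10, 2), (6, 2), (5, 3)]⟩, ⟨2,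 [(10, 13), (9, 1), (4, 3), (2, 21)]⟩, ⟨1, [(10, 6), (6, 1), (5, 3), (2, 5)]⟩, ⟨1, [(10, 4), (5, 2), (2, 4)]⟩, ⟨1, [(10, 2), (6, 2), (5, 1)]⟩, ⟨1, [(10, 1), (9, 1), (2, 3)]⟩, ⟨1, [(10, 5), (6, 1), (5, 2), (2, 5)]⟩])))))))))
def s25_4_t44 : Tree := .ddet 0 [] (.ndet 1 [⟨1, [(11, 1), (2, 2), (1, 2)]⟩, ⟨1, [(11, 2), (6, 1), (2, 3), (1, 3)]⟩] (.ddet 0 [] (.ndet 1 [⟨1, [(11, 2), (6, 2), (2, 2), (1, 3)]⟩, ⟨1, [(11, 1), (6, 2), (1, 1)]⟩] (.ddet 0 [] (.ndet 2 [⟨1, [(11, 2), (6, 2), (2, 2), (1, 3)]⟩, ⟨1, [(11, 3), (6, 1), (2, 5), (1, 5)]⟩] (.ddet 0 [] (.split [-4, 0, 3] (7000) (.leaf 0 [⟨1, [(12, 4), (7, 3), (3, 5), (2, 6)]⟩, ⟨1, [(12, 4), (7, 6), (3, 2), (2, 5)]⟩, ⟨1, [(0, 1)]⟩, ⟨1, [(12, 2),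 (7, 4), (2, 2)]⟩, ⟨1, [(12, 1), (7, 2), (2, 1)]⟩, ⟨1, []⟩, ⟨1, [(12, 3), (7, 1), (3, 5), (2, 5)]⟩, ⟨1, [(12, 4), (7, 2), (6, 3)]⟩, ⟨1, [(12, 5), (7, 3), (3, 7), (2, 8)]⟩, ⟨1, [(12, 3), (7, 4), (3, 2), (2, 4)]⟩, ⟨1, [(12, 2), (7, 2), (3, 2), (2, 3)]⟩, ⟨1, [(12, 2), (7, 2), (6, 1), (2, 1)]⟩, ⟨1, [(12, 1), (3, 2), (2, 2)]⟩, ⟨1, [(12, 3), (7, 3), (3, 3), (2, 3)]⟩]) (.leaf 1 [⟨1, [(12, 17), (7, 8), (6, 13), (0, 7)]⟩, ⟨1, [(12, 17), (7, 8), (6, 13), (0, 6)]⟩, ⟨1, [(0, 1)]⟩, ⟨1, [(12, 4), (7, 2), (6, 3), (0, 2)]⟩, ⟨1, [(12, 4), (7, 2), (6, 3), (0, 2)]⟩, ⟨1, [(12, 9), (7, 4), (6, 7), (0, 3)]⟩, ⟨1, []⟩, ⟨1, [(12, 9), (7, 4), (6, 7), (0, 3)]⟩, ⟨1, [(12, 5), (7, 2), (6, 4), (0, 2)]⟩, ⟨1, [(12,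 9), (7, 6), (6, 6), (0, 4)]⟩]))))))))
def s25_4_t45 : Tree := .nbr (.cons (.ddet 0 [] (.ndet 1 [⟨1, [(10, 2), (5, 1), (2, 2)]⟩, ⟨1, [(10, 1), (6, 1), (2, 1)]⟩] (.ddet 0 [] (.ndet 2 [⟨1, [(10, 2), (5, 1), (2, 2)]⟩, ⟨1, [(10, 1), (9, 1), (2, 3)]⟩] s25_4_t43)))) (.cons (.ddet 0 [] (.ndet 1 [⟨1, [(11, 1), (6, 1), (2, 1), (1, 2)]⟩, ⟨1, [(11, 1), (6, 1), (2, 1), (1, 1)]⟩] (.ddet 0 [] (.ndet 2 [⟨1, [(11, 1), (6, 1), (2, 1), (1, 2)]⟩, ⟨1, [(11, 1), (2, 2), (1, 2)]⟩] (.ddet 0 [] (.ndet 2 [⟨1, [(11, 1), (5, 1)]⟩, ⟨1, [(11, 1), (6, 2), (1, 1)]⟩] s25_4_t44)))))) (.cons (.prune [(10, 1), (2, 1), (1, 1)]) .nil)))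
def s25_4_t46 : Tree := .nbr (.cons (.prune [(8, 1), (4, 1), (2, 1), (1, 2), (0, 1)]) (.cons (.ddet 0 [] (.ndet 2 [⟨1, [(8, 1), (3, 1)]⟩, ⟨1, [(11, 1)]⟩] (.ddet 0 [] s25_4_t42))) (.cons (.ddet 0 [] (.ndet 2 [⟨1, [(8, 1), (3, 1)]⟩, ⟨1, [(8, 2), (3, 1), (0, 1)]⟩] (.ddet 0 [] s25_4_t45))) .nil)))
def s25_4_n2 : Node := ⟨[⟨[0, 0, 1, -1], -200⟩, ⟨[0, -1, 1], -200⟩, ⟨[-1, 0, 1], -200⟩, ⟨[-1, -1, 1, -1], 239700⟩, ⟨[0, -1, 1, -1], 239700⟩, ⟨[1, 0, 1, -1], -5320⟩, ⟨[1, 0, 1], 680⟩, ⟨[1, 1, 1], -4340⟩, ⟨[-1, 0, 0, 1], 239700⟩, ⟨[0, 1, 0, 1], 680⟩, ⟨[1, 1, 1, 1], 239700⟩], [0, 0, 1], 0, none, s25_4_t46⟩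
def s25_4_t47 : Tree := .ddet 0 [] (.ndet 0 [⟨1, [(8, 1), (7, 1), (4, 1)]⟩, ⟨1, [(7, 1), (2, 1), (0, 2)]⟩] (.ddet 0 [] (.ndet 1 [⟨1, [(7, 3), (4, 2), (2, 2), (0, 3)]⟩, ⟨1, [(7, 4), (4, 4), (2, 2), (0, 2)]⟩] (.ddet 0 [] (.ndet 2 [⟨1, [(7, 3), (4, 2), (2, 2), (0, 3)]⟩, ⟨1, [(6, 2), (2, 1), (0, 3)]⟩] (.ddet 0 [] (.ndet 2 [⟨1, [(7, 3), (4, 4), (2, 1)]⟩, ⟨1, [(7, 6), (4, 6), (2, 3), (0, 3)]⟩] (.ddet 0 [] (.leaf 1 [⟨1, [(7, 9), (4, 6), (2, 6), (0, 9)]⟩, ⟨1, [(7, 6), (4, 6), (2, 3), (0, 3)]⟩, ⟨1, [(7, 3), (6, 2), (2, 4), (0, 9)]⟩, ⟨1, [(7, 3), (4, 2), (2, 2), (0, 3)]⟩, ⟨1, [(7, 3), (2, 3), (0, 6)]⟩, ⟨1, [(7, 3), (4, 4), (2, 1)]⟩, ⟨1, [(6, 2), (2, 1), (0, 3)]⟩, ⟨1, [(7, 3), (4, 2), (2, 2),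 (0, 3)]⟩, ⟨1, [(7, 3), (2, 3), (0, 6)]⟩, ⟨1, [(7, 5), (4, 3), (2, 3), (0, 5)]⟩])))))))))
def s25_4_t48 : Tree := .ddet 0 [] (.ndet 2 [⟨2, [(9, 1), (4, 1), (1, 3)]⟩, ⟨1, [(9, 2), (6, 2), (4, 1), (1, 1)]⟩] (.ddet 0 [] (.ndet 1 [⟨1, [(12, 2), (9, 1)]⟩, ⟨1, [(12, 2), (9, 3), (6, 2), (5, 1)]⟩] (.ddet 0 [] (.ndet 1 [⟨1, [(9, 4), (6, 4), (5, 2)]⟩, ⟨1, [(9, 2), (6, 2), (4, 1), (1, 1)]⟩] (.ddet 0 [] (.ndet 2 [⟨1, [(9, 4), (6, 4), (5, 2)]⟩, ⟨1, [(12, 4), (9, 4), (6, 2), (5, 1)]⟩] (.ddet 0 [] (.leaf 0 [⟨1, [(12, 2), (9, 7), (6, 6), (5, 3)]⟩, ⟨1, [(9, 7), (6, 8), (4, 3), (1, 1)]⟩, ⟨2, [(9, 3), (4, 3), (1, 9)]⟩, ⟨1, [(9, 4), (6, 4), (4, 2), (1, 2)]⟩, ⟨1, [(9, 2), (6, 2), (4, 1), (1, 1)]⟩, ⟨1, []⟩,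 ⟨1, [(12, 4), (9, 4), (6, 2), (5, 1)]⟩, ⟨2, [(9, 7), (6, 4), (4, 5), (1, 11)]⟩, ⟨1, [(12, 4), (9, 8), (6, 6), (5, 3)]⟩, ⟨1, [(9, 5), (6, 6), (4, 2)]⟩, ⟨1, [(9, 4), (6, 4), (5, 2)]⟩, ⟨2, [(9, 5), (6, 4), (4, 3), (1, 5)]⟩, ⟨1, [(12, 2), (9, 1)]⟩, ⟨2, [(9, 9), (6, 10), (4, 3), (1, 1)]⟩])))))))))
def s25_4_t49 : Tree := .nbr (.cons (.prune [(13, 3), (10, 4), (8, 1), (1, 1)]) (.cons (.ddet 0 [] (.ndet 2 [⟨1, [(13, 3), (10, 4), (8, 1)]⟩, ⟨3, [(13, 14), (10, 18), (8, 5), (2, 4)]⟩] (.ddet 0 [] (.leaf 1 [⟨3, [(13, 19), (10, 24), (8, 7), (2, 8)]⟩, ⟨1, [(13, 6), (10, 8), (8, 2)]⟩, ⟨3, [(13, 1), (8, 1), (2, 8)]⟩, ⟨3, [(13, 5), (10, 6), (8, 2), (2, 4)]⟩, ⟨3, [(13, 5), (10, 6), (8, 2), (2, 4)]⟩,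 ⟨1, [(13, 3), (10, 4), (8, 1)]⟩, ⟨1, []⟩, ⟨1, [(13, 3), (10, 4), (8, 1)]⟩, ⟨3, [(13, 5), (10, 6), (8, 2), (2, 4)]⟩, ⟨1, [(13, 4), (10, 5), (8, 1), (2, 1)]⟩])))) (.cons (.ddet 0 [] (.ndet 2 [⟨1, [(13, 3), (10, 4), (8, 1)]⟩, ⟨1, [(13, 6), (10, 8), (8, 2), (0, 1)]⟩] (.ddet 0 [] (.leaf 1 [⟨1, [(13, 9), (10, 12), (8, 3), (0, 3)]⟩, ⟨1, [(13, 6), (10, 8), (8, 2), (0, 1)]⟩, ⟨1, [(13, 3), (10, 4), (8, 1), (0, 3)]⟩, ⟨1, [(13, 3), (10, 4), (8, 1), (0, 1)]⟩, ⟨1, [(13, 3), (10, 4), (8, 1), (0, 2)]⟩, ⟨1, [(13, 3), (10, 4), (8, 1)]⟩, ⟨1, [(0, 1)]⟩, ⟨1, [(13, 3), (10, 4), (8, 1), (0, 1)]⟩, ⟨1, [(13, 3), (10, 4), (8, 1), (0, 2)]⟩, ⟨4, [(13, 20), (10, 26), (8, 5), (0, 7)]⟩])))) .nil)))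
def s25_4_t50 : Tree := .ddet 0 [] (.ndet 1 [⟨1, [(11, 1), (8, 2), (3, 2)]⟩, ⟨2, [(11, 5), (8, 8), (6, 1), (3, 3)]⟩] (.ddet 0 [] (.ndet 1 [⟨1, [(11, 3), (8, 4), (6, 1)]⟩, ⟨3, [(11, 4), (8, 6), (6, 1), (1, 4)]⟩] (.ddet 0 [] (.ndet 2 [⟨1, [(11, 3), (8, 4), (6, 1)]⟩, ⟨2, [(11, 7), (8, 12), (6, 1), (3, 7)]⟩] (.ddet 0 [] (.split [-4, 0, 3] (7000) (.leaf 0 [⟨2, [(12, 11), (9, 16), (7, 3), (4, 3)]⟩, ⟨11, [(12, 65), (9, 88), (7, 21), (0, 8)]⟩, ⟨1, [(0, 1)]⟩, ⟨11, [(12, 32), (9, 44), (7, 10), (0, 8)]⟩, ⟨11, [(12, 16), (9, 22), (7, 5), (0, 4)]⟩, ⟨1, []⟩, ⟨2, [(12, 7), (9, 12), (7, 1), (4, 7)]⟩, ⟨11, [(12, 16), (9, 22), (7, 5), (0, 15)]⟩, ⟨2, [(12, 13), (9, 20), (7, 3), (4, 7)]⟩, ⟨11, [(12, 49),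 (9, 66), (7, 16), (0, 4)]⟩, ⟨1, [(12, 3), (9, 4), (7, 1)]⟩, ⟨11, [(12, 17), (9, 22), (7, 6), (0, 7)]⟩, ⟨1, [(12, 1), (9, 2), (4, 2)]⟩, ⟨11, [(12, 42), (9, 55), (7, 9), (0, 5)]⟩]) (.leaf 1 [⟨11, [(12, 65), (9, 88), (7, 21), (0, 14)]⟩, ⟨11, [(12, 65), (9, 88), (7, 21), (0, 3)]⟩, ⟨1, [(0, 1)]⟩, ⟨11, [(12, 16), (9, 22), (7, 5), (0, 7)]⟩, ⟨11, [(12, 16), (9, 22), (7, 5), (0, 7)]⟩, ⟨1, [(12, 3), (9, 4), (7, 1)]⟩, ⟨1, []⟩, ⟨1, [(12, 3), (9, 4), (7, 1)]⟩, ⟨11, [(12, 17), (9, 22), (7, 6), (0, 4)]⟩, ⟨11, [(12, 42), (9, 55), (7, 9), (0, 6)]⟩]))))))))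
def s25_4_t51 : Tree := .ddet 0 [] (.ndet 2 [⟨2, [(9, 3), (6, 4), (4, 1), (1, 1)]⟩, ⟨1, [(9, 1), (6, 2), (1, 2)]⟩] (.ddet 0 [] (.nbr (.cons (.ddet 0 [] (.ndet 1 [⟨3, [(11, 5), (8, 6), (6, 2), (0, 4)]⟩, ⟨1, [(11, 3), (8, 4), (6, 1), (0, 1)]⟩] (.ddet 0 [] s25_4_t49))) (.cons (.prune [(11, 1), (8, 2), (5, 1), (1, 1)]) (.cons s25_4_t50 .nil))))))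
def s25_4_t52 : Tree := .nbr (.cons (.ddet 0 [] (.ndet 1 [⟨1, [(9, 2), (6, 2), (5, 1)]⟩, ⟨2, [(9, 3), (6, 4), (4, 1), (1, 1)]⟩] (.ddet 0 [] (.ndet 2 [⟨1, [(9, 2), (6, 2), (5, 1)]⟩, ⟨1, [(12, 2), (9, 1)]⟩] s25_4_t48)))) (.cons (.ddet 0 [] (.ndet 1 [⟨2, [(9, 3), (6, 4), (4, 1), (1, 1)]⟩, ⟨1, [(9, 1), (6, 2), (3, 1)]⟩] s25_4_t51)) (.cons (.prune [(9, 1), (6, 1), (1, 1)]) .nil)))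
def s25_4_t53 : Tree := .nbr (.cons (.ddet 0 [] (.ndet 1 [⟨1, [(7, 1), (2, 1), (0, 2)]⟩, ⟨1, [(7, 2), (4, 1), (2, 1), (0, 2)]⟩] (.ddet 0 [] (.ndet 1 [⟨1, [(7, 2), (4, 2), (2, 1), (0, 1)]⟩, ⟨1, [(8, 1), (7, 1), (4, 1)]⟩] (.ddet 0 [] (.ndet 2 [⟨1, [(7, 2), (4, 2), (2, 1), (0, 1)]⟩, ⟨1, [(7, 3), (4, 2), (2, 2), (0, 3)]⟩] s25_4_t47)))))) (.cons (.prune [(7, 1), (4, 1), (1, 1)]) (.cons (.ddet 0 [] s25_4_t52) .nil)))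
def s25_4_n3 : Node := ⟨[⟨[0, 0, -1, 1], -200⟩, ⟨[0, -1, 0, 1], -200⟩, ⟨[-1, 0, 0, 1], -200⟩, ⟨[1, -1, 1, -1], 239700⟩, ⟨[1, 0, 1, -1], -5320⟩, ⟨[1, 1, 1], -4340⟩, ⟨[-1, 0, -1, 1], 4680⟩, ⟨[0, 1, 0, 1], 680⟩, ⟨[0, 1, 1, 1], 239700⟩], [0, 0, 0, 1], 0, none, (.ndet 2 [⟨1, [(5, 1), (2, 1), (1, 1)]⟩, ⟨1, [(8, 1)]⟩] (.ddet 0 [] s25_4_t53))⟩
def s25_4 : Sys := ⟨[(0, 3000), (3, -3000), (4, -1000)], [(2, 2000)], 4, [s25_4_n0, s25_4_n1, s25_4_n2, s25_4_n3], [789439, 279033, -380681, 127725], (.leaf 0 [⟨1, []⟩, ⟨1, []⟩, ⟨1, []⟩, ⟨1, []⟩, ⟨1, []⟩, ⟨1, []⟩, ⟨1, []⟩, ⟨1, []⟩, ⟨1, []⟩, ⟨1, []⟩, ⟨1, []⟩, ⟨1, []⟩, ⟨1, []⟩])⟩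

theorem s25_4_ok : s25_4.ok = true := by decide +kernel

end Pool.Agent.H81.RDE.Data
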