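import Pool.Agent.H81.RDE.System

/-! Data file (generated): certificates. -/

set_option maxRecDepth 100000

namespace Pool.Agent.H81.RDE.Data

def s2_20_t0 : Tree := .ddet 1 [⟨1, [(3, 1), (2, 1)]⟩] (.ndet 0 [] (.ddet 1 [⟨1, [(3, 1), (2, 1)]⟩] (.ndet 0 [] (.ddet 1 [⟨1, [(3, 1), (2, 1)]⟩] (.ndet 0 [] (.ddet 1 [⟨1, [(3, 1)]⟩] (.ndet 0 [] (.ddet 0 [⟨1, [(2, 1)]⟩] (.leaf 0 [⟨1, [(3, 1), (2, 2)]⟩, ⟨1, [(3, 2), (2, 2)]⟩, ⟨1, [(3, 2)]⟩, ⟨1, [(2, 2)]⟩, ⟨1, [(3, 2), (2, 2)]⟩, ⟨3, [(3, 2), (2, 4)]⟩, ⟨3, [(3, 1), (2, 2)]⟩])))))))))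
def s2_20_t1 : Tree := .ndet 0 [] (.ddet 0 [⟨1, [(5, 1)]⟩] (.ndet 0 [] (.ddet 0 [⟨1, [(4, 1)]⟩] (.ndet 0 [] (.ddet 0 [⟨1, [(3, 1)]⟩] (.ndet 0 [] (.ddet 1 [⟨1, [(2, 1)]⟩] (.ndet 0 [] s2_20_t0))))))))
def s2_20_n0 : Node := ⟨[⟨[0, 1, 0, -1], 2176⟩, ⟨[1, 0, -1], 4320⟩, ⟨[1, -2], 3840⟩, ⟨[1, 1], 480⟩, ⟨[2, -1], 4320⟩, ⟨[1], 1600⟩], [1], 0, none, s2_20_t1⟩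
def s2_20 : Sys := ⟨[(1, 64)], [(2, 0), (4, 0)], 4, [s2_20_n0], [3136, -2304, -5504, -6656], (.leaf 0 [⟨1, []⟩, ⟨1, []⟩, ⟨1, []⟩, ⟨1, []⟩, ⟨1, []⟩, ⟨1, []⟩])⟩

theorem s2_20_ok : s2_20.ok = true := by decide +kernel

def s7_24_t0 : Tree := .nbr (.cons (.ddet 1 [⟨1, [(5, 2), (4, 1)]⟩] (.ndet 1 [⟨1, [(10, 1), (9, 1), (2, 1)]⟩, ⟨1, [(10, 1), (9, 1)]⟩] (.ddet 0 [⟨1, [(10, 1), (9, 1)]⟩] (.ndet 1 [⟨82, [(11, 507), (7, 1), (4, 5)]⟩, ⟨1, [(5, 1), (4, 1)]⟩] (.ddet 0 [⟨1, [(4, 1)]⟩] (.ndet 1 [⟨82, [(11, 507), (7, 1), (5, 82), (4, 5)]⟩, ⟨1, [(5, 1)]⟩] (.ddet 0 [⟨1, [(10, 1), (9, 1)]⟩] (.leaf 0 [⟨1, [(5, 2), (4, 1)]⟩, ⟨1, [(5, 1)]⟩, ⟨1, [(10, 1), (9, 1), (2, 1)]⟩, ⟨1, []⟩,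 ⟨82, [(11, 507), (7, 1), (4, 5)]⟩, ⟨1, []⟩, ⟨1, [(10, 1), (9, 1), (2, 1)]⟩, ⟨1, [(11, 507), (7, 1), (5, 77), (4, 5)]⟩, ⟨1, [(5, 1)]⟩])))))))) (.cons (.ddet 1 [⟨1, [(5, 2), (4, 1)]⟩] (.ndet 1 [⟨1, [(10, 1), (9, 1), (2, 2)]⟩, ⟨1, [(10, 1), (9, 1), (2, 1)]⟩] (.ddet 0 [⟨1, [(10, 1), (9, 1)]⟩] (.ndet 1 [⟨82, [(11, 507), (7, 1), (4, 5), (2, 82)]⟩, ⟨1, [(5, 1), (4, 1)]⟩] (.ddet 0 [⟨1, [(4, 1)]⟩] (.ndet 1 [⟨82, [(11, 507), (7, 1), (4, 5)]⟩, ⟨1, [(5, 1)]⟩] (.ddet 0 [⟨1, [(10, 1), (9, 1), (2, 1)]⟩] (.leaf 0 [⟨1, [(5, 2), (4, 1)]⟩, ⟨1, [(5, 1)]⟩, ⟨1, [(10, 1), (9, 1), (2, 2)]⟩, ⟨1, []⟩, ⟨82, [(11, 507), (7, 1), (4, 5), (2, 82)]⟩, ⟨1, []⟩, ⟨1, [(10, 1), (9, 1), (2, 2)]⟩,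 ⟨1, [(11, 507), (7, 1), (4, 5), (2, 5)]⟩, ⟨1, []⟩])))))))) (.cons (.prune [(4, 1), (0, 1)]) .nil)))
def s7_24_t1 : Tree := .nbr (.cons (.ddet 1 [⟨1, [(5, 1), (4, 1)]⟩] (.ndet 1 [⟨1, [(10, 1), (8, 1)]⟩, ⟨1, [(10, 1), (9, 1)]⟩] (.ddet 0 [⟨1, [(10, 1), (8, 1)]⟩] (.ndet 1 [⟨82, [(11, 507), (7, 1), (4, 5)]⟩, ⟨1, [(5, 1), (4, 1)]⟩] (.ddet 0 [⟨1, [(4, 1)]⟩] (.ndet 1 [⟨82, [(11, 507), (7, 1), (5, 82), (4, 5)]⟩, ⟨1, [(5, 1)]⟩] (.ddet 0 [⟨1, [(10, 1), (9, 1)]⟩] (.leaf 0 [⟨1, [(5, 2), (4, 1)]⟩, ⟨1, [(5, 1)]⟩, ⟨1, [(10, 1), (8, 1)]⟩, ⟨1, []⟩, ⟨82, [(11, 507), (7, 1), (4, 5)]⟩, ⟨1, []⟩, ⟨1, [(10, 1), (8, 1)]⟩, ⟨1, [(11, 507), (7, 1), (5, 77), (4, 5)]⟩, ⟨1, [(5, 1)]⟩]))))))))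 (.cons (.ddet 1 [⟨1, [(5, 1), (4, 1)]⟩] (.ndet 1 [⟨1, [(10, 1), (9, 1), (1, 2)]⟩, ⟨1, [(10, 1), (9, 1), (1, 1)]⟩] (.ddet 0 [⟨1, [(10, 1), (9, 1), (1, 1)]⟩] (.ndet 1 [⟨82, [(11, 507), (7, 1), (4, 5), (1, 82)]⟩, ⟨1, [(5, 1), (4, 1)]⟩] (.ddet 0 [⟨1, [(4, 1)]⟩] (.ndet 1 [⟨82, [(11, 507), (7, 1), (4, 5)]⟩, ⟨1, [(5, 1)]⟩] (.ddet 0 [⟨1, [(10, 1), (9, 1), (1, 1)]⟩] (.leaf 0 [⟨1, [(5, 2), (4, 1)]⟩, ⟨1, [(5, 1)]⟩, ⟨1, [(10, 1), (9, 1), (1, 2)]⟩, ⟨1, []⟩, ⟨82, [(11, 507), (7, 1), (4, 5), (1, 82)]⟩, ⟨1, []⟩, ⟨1, [(10, 1), (9, 1), (1, 2)]⟩, ⟨1, [(11, 507), (7, 1), (4, 5), (1, 5)]⟩, ⟨1, []⟩])))))))) (.cons (.prune [(5, 1), (4, 1), (1, 1)]) .nil)))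
def s7_24_t2 : Tree := .nbr (.cons (.ddet 1 [⟨1, [(8, 1), (7, 1)]⟩] (.ndet 0 [⟨82, [(9, 507), (5, 1), (3, 82), (2, 5)]⟩, ⟨1, [(8, 1), (7, 1), (0, 1)]⟩] (.ddet 1 [⟨1, [(2, 1)]⟩] (.ndet 0 [⟨1, [(3, 1), (2, 1)]⟩, ⟨82, [(9, 507), (5, 1), (3, 82), (2, 5)]⟩] (.ddet 1 [⟨1, [(8, 1), (7, 1)]⟩] s7_24_t0))))) (.cons (.prune [(8, 1), (7, 1), (0, 1)]) (.cons (.ddet 1 [⟨1, [(8, 1), (7, 1)]⟩] (.ndet 0 [⟨82, [(9, 507), (5, 1), (2, 5)]⟩, ⟨1, [(8, 1), (6, 1)]⟩] (.ddet 1 [⟨1, [(2, 1)]⟩] (.ndet 0 [⟨1, [(3, 1), (2, 1)]⟩, ⟨82, [(9, 507), (5, 1), (2, 5)]⟩] (.ddet 1 [⟨1, [(8, 1), (7, 1)]⟩] s7_24_t1))))) .nil)))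
def s7_24_t3 : Tree := .nbr (.cons (.ddet 1 [⟨1, [(5, 1), (1, 1)]⟩] (.ndet 1 [⟨82, [(12, 5), (11, 507), (7, 1), (2, 77)]⟩, ⟨82, [(12, 5), (11, 507), (7, 1), (1, 5)]⟩] (.ddet 0 [⟨82, [(11, 507), (7, 1), (4, 77)]⟩] (.ndet 1 [⟨82, [(12, 5), (11, 507), (7, 1), (1, 5)]⟩, ⟨1, [(1, 1)]⟩] (.ddet 0 [⟨1, []⟩] (.ndet 1 [⟨82, [(12, 5), (11, 507), (7, 1), (1, 87)]⟩, ⟨1, [(1, 1)]⟩] (.ddet 0 [⟨82, [(12, 5), (11, 507), (7, 1), (1, 5)]⟩] (.leaf 0 [⟨1, [(1, 2)]⟩, ⟨1, [(1, 1)]⟩, ⟨82, [(12, 5), (11, 507), (7, 1), (2, 77)]⟩, ⟨1, []⟩, ⟨82, [(12, 5), (11, 507), (7, 1), (1, 5)]⟩, ⟨1, []⟩, ⟨82, [(12, 5), (11, 507), (7, 1), (2, 77)]⟩, ⟨1, [(12, 5), (11, 507), (7, 1), (1, 82)]⟩, ⟨1, [(1,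 1)]⟩])))))))) (.cons (.ddet 1 [⟨1, [(13, 1), (5, 2)]⟩] (.ndet 1 [⟨82, [(12, 5), (11, 507), (7, 1), (2, 159)]⟩, ⟨82, [(12, 5), (11, 507), (7, 1), (2, 77)]⟩] (.ddet 0 [⟨82, [(11, 507), (7, 1), (4, 77)]⟩] (.ndet 1 [⟨82, [(12, 5), (11, 507), (7, 1), (2, 77)]⟩, ⟨1, [(13, 1), (5, 1)]⟩] (.ddet 0 [⟨1, []⟩] (.ndet 1 [⟨82, [(13, 5), (11, 507), (7, 1)]⟩, ⟨1, [(13, 1), (5, 1)]⟩] (.ddet 0 [⟨82, [(12, 5), (11, 507), (7, 1), (2, 77)]⟩] (.leaf 0 [⟨1, [(13, 2), (5, 2)]⟩, ⟨1, [(13, 1), (5, 1)]⟩, ⟨82, [(12, 5), (11, 507), (7, 1), (2, 159)]⟩, ⟨1, []⟩, ⟨82, [(12, 5), (11, 507), (7, 1), (2, 77)]⟩, ⟨1, []⟩, ⟨82, [(12, 5), (11, 507), (7, 1), (2, 159)]⟩, ⟨1, [(12, 5), (11, 507), (7,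 1)]⟩, ⟨1, []⟩])))))))) (.cons (.prune [(0, 1)]) .nil)))
def s7_24_t4 : Tree := .nbr (.cons (.ddet 1 [⟨1, [(5, 1)]⟩] (.ndet 1 [⟨82, [(12, 82), (11, 507), (7, 1), (4, 77)]⟩, ⟨82, [(12, 5), (11, 507), (7, 1), (3, 5)]⟩] (.ddet 0 [⟨82, [(12, 82), (11, 507), (7, 1), (4, 159)]⟩] (.ndet 1 [⟨82, [(12, 5), (11, 507), (7, 1), (3, 5)]⟩, ⟨1, [(3, 1)]⟩] (.ddet 0 [⟨1, []⟩] (.ndet 1 [⟨82, [(12, 5), (11, 507), (7, 1), (3, 87)]⟩, ⟨1, [(3, 1)]⟩] (.ddet 0 [⟨82, [(12, 5), (11, 507), (7, 1), (3, 5)]⟩] (.leaf 0 [⟨1, [(3, 2)]⟩, ⟨1, [(3, 1)]⟩, ⟨82, [(12, 82), (11, 507), (7, 1), (4, 77)]⟩, ⟨1, []⟩, ⟨82, [(12, 5), (11, 507), (7, 1), (3, 5)]⟩, ⟨1, []⟩, ⟨82, [(12, 82), (11, 507), (7, 1),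 (4, 77)]⟩, ⟨1, [(12, 5), (11, 507), (7, 1), (3, 82)]⟩, ⟨1, [(3, 1)]⟩])))))))) (.cons (.ddet 1 [⟨1, [(5, 1)]⟩] (.ndet 1 [⟨82, [(12, 5), (11, 507), (7, 1), (1, 159)]⟩, ⟨82, [(12, 5), (11, 507), (7, 1), (1, 77)]⟩] (.ddet 0 [⟨82, [(11, 507), (7, 1), (4, 77), (1, 82)]⟩] (.ndet 1 [⟨82, [(12, 5), (11, 507), (7, 1), (1, 77)]⟩, ⟨1, [(3, 1)]⟩] (.ddet 0 [⟨1, []⟩] (.ndet 1 [⟨82, [(12, 5), (11, 507), (7, 1), (3, 5)]⟩, ⟨1, [(3, 1)]⟩] (.ddet 0 [⟨82, [(12, 5), (11, 507), (7, 1), (1, 77)]⟩] (.leaf 0 [⟨1, [(3, 2)]⟩, ⟨1, [(3, 1)]⟩, ⟨82, [(12, 5), (11, 507), (7, 1), (1, 159)]⟩, ⟨1, []⟩, ⟨82, [(12, 5), (11, 507), (7, 1), (1, 77)]⟩, ⟨1, []⟩, ⟨82, [(12, 5), (11, 507), (7, 1), (1, 159)]⟩,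 ⟨1, [(12, 5), (11, 507), (7, 1)]⟩, ⟨1, []⟩])))))))) (.cons (.prune [(0, 1)]) .nil)))
def s7_24_t5 : Tree := .nbr (.cons (.ddet 1 [⟨82, [(9, 507), (5, 1), (2, 77)]⟩] (.ndet 0 [⟨82, [(11, 5), (9, 507), (5, 1), (3, 82)]⟩, ⟨82, [(10, 5), (9, 507), (5, 1), (0, 77)]⟩] (.ddet 1 [⟨1, []⟩] (.ndet 0 [⟨1, [(11, 1), (3, 1)]⟩, ⟨82, [(11, 5), (9, 507), (5, 1), (3, 82)]⟩] (.ddet 1 [⟨82, [(11, 5), (9, 507), (5, 1)]⟩] s7_24_t3))))) (.cons (.prune [(10, 589), (8, 507), (5, 1), (2, 77), (1, 589)]) (.cons (.ddet 1 [⟨82, [(9, 507), (5, 1), (2, 77)]⟩] (.ndet 0 [⟨82, [(9, 507), (5, 1), (2, 77)]⟩, ⟨82, [(10, 82), (9, 507), (5, 1), (2, 77)]⟩] (.ddet 1 [⟨1, []⟩] (.ndet 0 [⟨1, [(1, 1)]⟩,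 ⟨82, [(9, 507), (5, 1), (2, 77)]⟩] (.ddet 1 [⟨82, [(10, 5), (9, 507), (5, 1), (1, 5)]⟩] s7_24_t4))))) .nil)))
def s7_24_t6 : Tree := .dbr (.cons (.ndet 1 [⟨82, [(13, 507), (9, 1), (5, 5)]⟩, ⟨1, [(11, 1), (6, 1), (5, 1)]⟩] (.ddet 0 [⟨1, [(11, 1), (6, 1)]⟩] (.ndet 1 [⟨82, [(13, 507), (9, 1), (5, 87)]⟩, ⟨1, [(5, 1)]⟩] (.ddet 0 [⟨1, [(5, 2), (0, 1)]⟩] (.leaf 0 [⟨1, [(11, 1), (6, 1), (5, 2)]⟩, ⟨1, [(5, 1)]⟩, ⟨1, [(5, 1), (0, 1)]⟩, ⟨1, []⟩, ⟨82, [(13, 507), (9, 1), (5, 5)]⟩, ⟨1, []⟩, ⟨1, [(5, 1), (0, 1)]⟩, ⟨1, [(13, 507), (9, 1), (5, 82)]⟩, ⟨1, [(5, 1)]⟩]))))) (.cons (.ndet 1 [⟨1, [(12, 1), (11, 1), (7, 1)]⟩, ⟨1, [(12, 1), (11, 1)]⟩] (.ddet 0 [⟨1, [(11, 1), (6, 1)]⟩]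 (.ndet 1 [⟨82, [(13, 507), (9, 1), (7, 82), (5, 5)]⟩, ⟨1, [(5, 1)]⟩] (.ddet 0 [⟨1, [(7, 1), (5, 1)]⟩] (.split [-1, 1] (-8000) (.leaf 0 [⟨82, [(14, 507), (10, 1), (6, 5)]⟩, ⟨1, [(6, 1)]⟩, ⟨1, [(0, 1)]⟩, ⟨1, []⟩, ⟨1, [(13, 1), (12, 1), (0, 1)]⟩, ⟨1, []⟩, ⟨1, [(0, 1)]⟩, ⟨1, [(14, 507), (10, 1), (0, 82)]⟩, ⟨1, [(0, 1)]⟩]) (.ndet 1 [⟨82, [(14, 507), (10, 1), (6, 5)]⟩, ⟨1, [(0, 1)]⟩] (.ddet 0 [⟨1, [(13, 1), (12, 1)]⟩] (.leaf 0 [⟨1, [(6, 1), (0, 1)]⟩, ⟨1, [(0, 1)]⟩, ⟨1, [(13, 1), (12, 1), (8, 1)]⟩, ⟨1, []⟩, ⟨82, [(14, 507), (10, 1), (8, 82), (6, 5)]⟩, ⟨1, []⟩, ⟨1, [(13, 1), (12, 1), (8, 1)]⟩, ⟨1, [(14, 507), (10, 1), (8, 5), (6, 5)]⟩, ⟨1, []⟩])))))))) .nil))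
def s7_24_t7 : Tree := .nbr (.cons (.ddet 1 [⟨1, [(4, 1), (1, 1)]⟩] (.ndet 1 [⟨1, [(11, 1), (10, 1)]⟩, ⟨1, [(11, 1), (10, 1), (1, 1)]⟩] (.ddet 0 [⟨1, [(11, 1), (10, 1), (1, 1)]⟩] (.ndet 1 [⟨82, [(12, 507), (8, 1), (4, 5)]⟩, ⟨1, [(4, 1)]⟩] (.ddet 0 [⟨1, [(6, 1), (4, 1)]⟩] (.ndet 1 [⟨82, [(12, 507), (8, 1), (4, 5), (1, 82)]⟩, ⟨1, [(1, 1)]⟩] (.ddet 0 [⟨1, [(11, 1), (10, 1), (1, 1)]⟩] (.leaf 0 [⟨1, [(4, 1), (1, 1)]⟩, ⟨1, [(1, 1)]⟩, ⟨1, [(11, 1), (10, 1)]⟩, ⟨1, []⟩, ⟨82, [(12, 507), (8, 1), (4, 5)]⟩, ⟨1, []⟩, ⟨1, [(11, 1), (10, 1)]⟩, ⟨1, [(12, 507), (8, 1), (4, 5), (1, 77)]⟩, ⟨1, [(1, 1)]⟩])))))))) (.cons s7_24_t6 (.cons (.prune [(4, 1), (1, 1)]) .nil)))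
def s7_24_t8 : Tree := .nbr (.cons (.ddet 1 [⟨1, [(4, 1)]⟩] (.ndet 1 [⟨1, [(11, 1), (10, 1)]⟩, ⟨1, [(11, 1), (10, 1), (3, 1)]⟩] (.ddet 0 [⟨1, [(11, 1), (10, 1)]⟩] (.ndet 1 [⟨82, [(12, 507), (8, 1), (4, 5)]⟩, ⟨1, [(4, 1)]⟩] (.ddet 0 [⟨1, [(6, 1), (4, 1)]⟩] (.ndet 1 [⟨82, [(12, 507), (8, 1), (4, 5), (3, 82)]⟩, ⟨1, [(3, 1)]⟩] (.ddet 0 [⟨1, [(11, 1), (10, 1), (3, 1)]⟩] (.leaf 0 [⟨1, [(4, 1), (3, 1)]⟩, ⟨1, [(3, 1)]⟩, ⟨1, [(11, 1), (10, 1)]⟩, ⟨1, []⟩, ⟨82, [(12, 507), (8, 1), (4, 5)]⟩, ⟨1, []⟩, ⟨1, [(11, 1), (10, 1)]⟩, ⟨1, [(12, 507), (8, 1), (4, 5), (3, 77)]⟩, ⟨1, [(3, 1)]⟩])))))))) (.cons (.ddet 1 [⟨1, [(4, 1)]⟩] (.ndet 1 [⟨1, [(11, 1), (10, 1), (6, 1)]⟩, ⟨1, [(11,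 1), (10, 1)]⟩] (.ddet 0 [⟨1, [(11, 1), (10, 1)]⟩] (.ndet 1 [⟨82, [(12, 507), (8, 1), (6, 82), (4, 5)]⟩, ⟨1, [(4, 1)]⟩] (.ddet 0 [⟨1, [(6, 1), (4, 1)]⟩] (.ndet 1 [⟨82, [(12, 507), (8, 1), (4, 5)]⟩, ⟨1, [(3, 1)]⟩] (.ddet 0 [⟨1, [(11, 1), (10, 1)]⟩] (.leaf 0 [⟨1, [(4, 1), (3, 1)]⟩, ⟨1, [(3, 1)]⟩, ⟨1, [(11, 1), (10, 1), (6, 1)]⟩, ⟨1, []⟩, ⟨82, [(12, 507), (8, 1), (6, 82), (4, 5)]⟩, ⟨1, []⟩, ⟨1, [(11, 1), (10, 1), (6, 1)]⟩, ⟨1, [(12, 507), (8, 1), (6, 5), (4, 5)]⟩, ⟨1, []⟩])))))))) (.cons (.prune [(4, 1), (1, 1)]) .nil)))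
def s7_24_t9 : Tree := .nbr (.cons (.ddet 1 [⟨1, [(8, 1), (3, 1)]⟩] (.ndet 0 [⟨1, [(8, 1), (3, 1), (2, 1)]⟩, ⟨1, [(9, 1), (8, 1)]⟩] (.ddet 1 [⟨1, [(4, 1), (2, 1)]⟩] (.ndet 0 [⟨1, [(2, 1)]⟩, ⟨1, [(8, 1), (3, 1), (2, 1)]⟩] (.ddet 1 [⟨1, [(8, 1), (3, 1)]⟩] s7_24_t7))))) (.cons (.prune [(9, 1), (8, 1), (1, 1)]) (.cons (.ddet 1 [⟨1, [(9, 1), (8, 1), (1, 1)]⟩] (.ndet 0 [⟨82, [(10, 507), (6, 1), (2, 5)]⟩, ⟨1, [(9, 1), (8, 1)]⟩] (.ddet 1 [⟨1, [(4, 1), (2, 1)]⟩] (.ndet 0 [⟨1, [(2, 1)]⟩, ⟨82, [(10, 507), (6, 1), (2, 5)]⟩] (.ddet 1 [⟨1, [(9, 1), (8, 1), (1, 1)]⟩] s7_24_t8))))) .nil)))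
def s7_24_t10 : Tree := .dbr (.cons (.ndet 1 [⟨82, [(13, 507), (9, 1), (5, 77)]⟩, ⟨1, [(15, 1), (11, 1), (6, 1)]⟩] (.ddet 0 [⟨1, [(11, 1), (6, 1)]⟩] (.ndet 1 [⟨82, [(15, 5), (13, 507), (9, 1)]⟩, ⟨1, [(15, 1)]⟩] (.ddet 0 [⟨1, [(15, 1), (0, 1)]⟩] (.leaf 0 [⟨1, [(15, 2), (11, 1), (6, 1)]⟩, ⟨1, [(15, 1)]⟩, ⟨1, [(0, 1)]⟩, ⟨1, []⟩, ⟨82, [(13, 507), (9, 1), (5, 77)]⟩, ⟨1, []⟩, ⟨1, [(0, 1)]⟩, ⟨1, [(13, 507), (9, 1)]⟩, ⟨1, []⟩]))))) (.cons (.ndet 1 [⟨82, [(13, 507), (9, 1), (7, 82), (5, 159)]⟩, ⟨82, [(13, 507), (9, 1), (5, 77)]⟩] (.ddet 0 [⟨82, [(13, 507), (9, 1), (5, 159), (0, 82)]⟩] (.ndet 1 [⟨82, [(13, 507), (9, 1), (7, 82), (5, 77)]⟩, ⟨1, [(15, 1)]⟩] (.ddet 0 [⟨1,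 [(7, 1)]⟩] (.split [-1, 0, 1] (-4000) (.leaf 0 [⟨82, [(16, 5), (14, 507), (10, 1)]⟩, ⟨1, [(16, 1)]⟩, ⟨1, [(0, 1)]⟩, ⟨1, []⟩, ⟨82, [(14, 507), (10, 1), (6, 77), (0, 82)]⟩, ⟨1, []⟩, ⟨1, [(0, 1)]⟩, ⟨1, [(14, 507), (10, 1), (0, 82)]⟩, ⟨1, [(0, 1)]⟩]) (.ndet 1 [⟨82, [(16, 5), (14, 507), (10, 1)]⟩, ⟨1, [(0, 1)]⟩] (.ddet 0 [⟨82, [(14, 507), (10, 1), (6, 77)]⟩] (.leaf 0 [⟨1, [(16, 1), (0, 1)]⟩, ⟨1, [(0, 1)]⟩, ⟨82, [(14, 507), (10, 1), (8, 82), (6, 159)]⟩, ⟨1, []⟩, ⟨82, [(14, 507), (10, 1), (8, 82), (6, 77)]⟩, ⟨1, []⟩, ⟨82, [(14, 507), (10, 1), (8, 82), (6, 159)]⟩, ⟨1, [(14, 507), (10, 1), (8, 5)]⟩, ⟨1, []⟩])))))))) .nil))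
def s7_24_t11 : Tree := .nbr (.cons (.ddet 1 [⟨1, [(1, 1)]⟩] (.ndet 1 [⟨82, [(12, 507), (8, 1), (4, 77)]⟩, ⟨82, [(12, 507), (8, 1), (4, 77), (1, 82)]⟩] (.ddet 0 [⟨82, [(12, 507), (8, 1), (4, 159), (1, 82)]⟩] (.ndet 1 [⟨82, [(12, 507), (8, 1), (6, 5), (1, 5)]⟩, ⟨1, [(6, 1), (1, 1)]⟩] (.ddet 0 [⟨1, [(6, 1)]⟩] (.ndet 1 [⟨82, [(12, 507), (8, 1), (6, 5), (1, 87)]⟩, ⟨1, [(1, 1)]⟩] (.ddet 0 [⟨82, [(12, 507), (8, 1), (4, 77), (1, 82)]⟩] (.leaf 0 [⟨1, [(6, 1), (1, 2)]⟩, ⟨1, [(1, 1)]⟩, ⟨82, [(12, 507), (8, 1), (4, 77)]⟩, ⟨1, []⟩, ⟨82, [(12, 507), (8, 1), (6, 5), (1, 5)]⟩, ⟨1, []⟩, ⟨82, [(12, 507), (8, 1), (4, 77)]⟩, ⟨1, [(12, 507), (8, 1), (6, 5), (1, 82)]⟩, ⟨1, [(1, 1)]⟩]))))))))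 (.cons s7_24_t10 (.cons (.prune [(13, 1), (0, 1)]) .nil)))
def s7_24_t12 : Tree := .nbr (.cons (.ddet 1 [⟨1, []⟩] (.ndet 1 [⟨82, [(12, 507), (8, 1), (4, 77)]⟩, ⟨82, [(12, 507), (8, 1), (4, 77), (3, 82)]⟩] (.ddet 0 [⟨82, [(12, 507), (8, 1), (4, 159)]⟩] (.ndet 1 [⟨82, [(12, 507), (8, 1), (6, 5), (3, 5)]⟩, ⟨1, [(6, 1), (3, 1)]⟩] (.ddet 0 [⟨1, [(6, 1)]⟩] (.ndet 1 [⟨82, [(12, 507), (8, 1), (6, 5), (3, 87)]⟩, ⟨1, [(3, 1)]⟩] (.ddet 0 [⟨82, [(12, 507), (8, 1), (4, 77), (3, 82)]⟩] (.leaf 0 [⟨1, [(6, 1), (3, 2)]⟩, ⟨1, [(3, 1)]⟩, ⟨82, [(12, 507), (8, 1), (4, 77)]⟩, ⟨1, []⟩, ⟨82, [(12, 507), (8, 1), (6, 5), (3, 5)]⟩, ⟨1, []⟩, ⟨82, [(12, 507), (8, 1), (4, 77)]⟩, ⟨1, [(12,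 507), (8, 1), (6, 5), (3, 82)]⟩, ⟨1, [(3, 1)]⟩])))))))) (.cons (.ddet 1 [⟨1, []⟩] (.ndet 1 [⟨82, [(12, 507), (8, 1), (6, 82), (4, 159)]⟩, ⟨82, [(12, 507), (8, 1), (4, 77)]⟩] (.ddet 0 [⟨82, [(12, 507), (8, 1), (4, 159)]⟩] (.ndet 1 [⟨82, [(12, 507), (8, 1), (6, 82), (4, 77)]⟩, ⟨1, [(6, 1), (3, 1)]⟩] (.ddet 0 [⟨1, [(6, 1)]⟩] (.ndet 1 [⟨82, [(12, 507), (8, 1), (6, 5), (3, 5)]⟩, ⟨1, [(3, 1)]⟩] (.ddet 0 [⟨82, [(12, 507), (8, 1), (4, 77)]⟩] (.leaf 0 [⟨1, [(6, 1), (3, 2)]⟩, ⟨1, [(3, 1)]⟩, ⟨82, [(12, 507), (8, 1), (6, 82), (4, 159)]⟩, ⟨1, []⟩, ⟨82, [(12, 507), (8, 1), (6, 82), (4, 77)]⟩, ⟨1, []⟩, ⟨82, [(12, 507), (8, 1), (6, 82), (4, 159)]⟩, ⟨1, [(12, 507), (8, 1), (6,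 5)]⟩, ⟨1, []⟩])))))))) (.cons (.prune [(13, 1), (3, 1), (1, 1)]) .nil)))
def s7_24_t13 : Tree := .nbr (.cons (.ddet 1 [⟨1, [(8, 1), (3, 1)]⟩] (.ndet 0 [⟨1, [(12, 1), (8, 1), (3, 1)]⟩, ⟨82, [(10, 507), (6, 1), (2, 77)]⟩] (.ddet 1 [⟨1, [(4, 1)]⟩] (.ndet 0 [⟨1, [(12, 1)]⟩, ⟨1, [(12, 1), (8, 1), (3, 1)]⟩] (.ddet 1 [⟨1, [(12, 1), (8, 1), (3, 1)]⟩] s7_24_t11))))) (.cons (.prune [(9, 507), (6, 1), (2, 77), (1, 589)]) (.cons (.ddet 1 [⟨82, [(10, 507), (6, 1), (2, 159), (1, 82)]⟩] (.ndet 0 [⟨82, [(10, 507), (6, 1), (2, 77)]⟩, ⟨82, [(10, 507), (6, 1), (2, 77)]⟩] (.ddet 1 [⟨1, [(4, 1)]⟩] (.ndet 0 [⟨1, [(4, 1), (1, 1)]⟩, ⟨82, [(10, 507), (6, 1), (2, 77)]⟩] (.ddet 1 [⟨82,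 [(10, 507), (6, 1), (2, 77), (1, 82)]⟩] s7_24_t12))))) .nil)))
def s7_24_t14 : Tree := .nbr (.cons (.ddet 1 [⟨1, [(10, 1), (1, 1)]⟩] (.ndet 1 [⟨82, [(12, 589), (8, 1), (4, 5), (2, 82)]⟩, ⟨82, [(12, 589), (8, 1), (4, 5)]⟩] (.ddet 0 [⟨82, [(12, 589), (8, 1), (4, 5), (2, 82)]⟩] (.ndet 1 [⟨82, [(12, 507), (8, 1), (4, 5)]⟩, ⟨1, [(10, 1), (1, 1)]⟩] (.ddet 0 [⟨1, [(10, 1)]⟩] (.ndet 1 [⟨82, [(12, 507), (8, 1), (4, 5), (1, 82)]⟩, ⟨1, [(1, 1)]⟩] (.ddet 0 [⟨82, [(12, 589), (8, 1), (4, 5)]⟩] (.leaf 0 [⟨1, [(10, 1), (1, 2)]⟩, ⟨1, [(1, 1)]⟩, ⟨82, [(12, 589), (8, 1), (4, 5), (2, 82)]⟩, ⟨1, []⟩, ⟨82, [(12, 507), (8, 1), (4, 5)]⟩, ⟨1, []⟩, ⟨82, [(12, 589), (8, 1), (4, 5), (2,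 82)]⟩, ⟨1, [(12, 507), (8, 1), (4, 5), (1, 77)]⟩, ⟨1, [(1, 1)]⟩])))))))) (.cons (.ddet 1 [⟨1, [(15, 1), (10, 1)]⟩] (.ndet 1 [⟨82, [(12, 589), (8, 1), (4, 5), (2, 164)]⟩, ⟨82, [(12, 589), (8, 1), (4, 5), (2, 82)]⟩] (.ddet 0 [⟨82, [(12, 589), (8, 1), (4, 5), (2, 82)]⟩] (.ndet 1 [⟨82, [(12, 507), (8, 1), (4, 5), (2, 82)]⟩, ⟨1, [(15, 1), (10, 1)]⟩] (.ddet 0 [⟨1, [(10, 1)]⟩] (.ndet 1 [⟨82, [(12, 507), (8, 1), (4, 5)]⟩, ⟨1, [(15, 1)]⟩] (.ddet 0 [⟨82, [(12, 589), (8, 1), (4, 5), (2, 82)]⟩] (.leaf 0 [⟨1, [(15, 2), (10, 1)]⟩, ⟨1, [(15, 1)]⟩, ⟨82, [(12, 589), (8, 1), (4, 5), (2, 164)]⟩, ⟨1, []⟩, ⟨82, [(12, 507), (8, 1), (4, 5), (2, 82)]⟩, ⟨1, []⟩, ⟨82, [(12, 589), (8,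 1), (4, 5), (2, 164)]⟩, ⟨1, [(12, 507), (8, 1), (4, 5), (2, 5)]⟩, ⟨1, []⟩])))))))) (.cons (.prune [(10, 1), (0, 1)]) .nil)))
def s7_24_t15 : Tree := .dbr (.cons (.ndet 1 [⟨82, [(13, 507), (9, 1), (5, 5)]⟩, ⟨1, [(11, 1), (4, 1)]⟩] (.ddet 0 [⟨1, [(11, 1)]⟩] (.ndet 1 [⟨82, [(13, 507), (9, 1), (5, 5), (4, 82)]⟩, ⟨1, [(4, 1)]⟩] (.ddet 0 [⟨82, [(13, 589), (9, 1), (5, 5)]⟩] (.leaf 0 [⟨1, [(11, 1), (4, 2)]⟩, ⟨1, [(4, 1)]⟩, ⟨159, [(13, 589), (9, 1), (6, 5), (0, 77)]⟩, ⟨1, []⟩, ⟨82, [(13, 507), (9, 1), (5, 5)]⟩, ⟨1, []⟩, ⟨159, [(13, 589), (9, 1), (6, 5), (0, 77)]⟩, ⟨1, [(13, 507), (9, 1), (5, 5), (4, 77)]⟩, ⟨1, [(4, 1)]⟩]))))) (.cons (.ndet 1 [⟨1, [(12, 2), (11, 1), (6,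 2)]⟩, ⟨1, [(12, 1), (11, 1), (6, 1)]⟩] (.ddet 0 [⟨1, [(11, 1)]⟩] (.ndet 1 [⟨77, [(13, 512), (12, 72), (9, 1), (6, 77)]⟩, ⟨159, [(13, 589), (9, 1), (6, 5), (0, 82)]⟩] (.ddet 0 [⟨159, [(13, 1178), (9, 2), (6, 10), (0, 5)]⟩] (.leaf 0 [⟨159, [(13, 1019), (9, 2), (6, 10), (0, 5)]⟩, ⟨159, [(13, 589), (9, 1), (6, 5), (0, 82)]⟩, ⟨1, [(12, 1), (6, 1)]⟩, ⟨1, []⟩, ⟨1, [(12, 2), (11, 1), (6, 2)]⟩, ⟨1, []⟩, ⟨1, [(12, 1), (6, 1)]⟩, ⟨1, [(13, 507), (12, 82), (9, 1), (6, 87)]⟩, ⟨1, [(12, 1), (6, 1)]⟩]))))) .nil))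
def s7_24_t16 : Tree := .nbr (.cons (.ddet 1 [⟨1, [(10, 1)]⟩] (.ndet 1 [⟨1, [(11, 1), (5, 1)]⟩, ⟨82, [(12, 589), (8, 1), (4, 5)]⟩] s7_24_t15)) (.cons (.ddet 1 [⟨1, [(10, 1)]⟩] (.ndet 1 [⟨82, [(12, 589), (8, 1), (4, 5), (1, 164)]⟩, ⟨82, [(12, 589), (8, 1), (4, 5), (1, 82)]⟩] (.ddet 0 [⟨82, [(12, 589), (8, 1), (4, 5), (1, 164)]⟩] (.ndet 1 [⟨82, [(12, 507), (8, 1), (4, 5), (1, 82)]⟩, ⟨1, [(10, 1), (3, 1)]⟩] (.ddet 0 [⟨1, [(10, 1)]⟩] (.ndet 1 [⟨82, [(12, 507), (8, 1), (4, 5)]⟩, ⟨1, [(3, 1)]⟩] (.ddet 0 [⟨82, [(12, 589), (8, 1), (4, 5), (1, 82)]⟩] (.leaf 0 [⟨1, [(10, 1), (3, 2)]⟩, ⟨1, [(3, 1)]⟩, ⟨82, [(12, 589), (8, 1), (4, 5), (1, 164)]⟩, ⟨1, []⟩, ⟨82, [(12, 507),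 (8, 1), (4, 5), (1, 82)]⟩, ⟨1, []⟩, ⟨82, [(12, 589), (8, 1), (4, 5), (1, 164)]⟩, ⟨1, [(12, 507), (8, 1), (4, 5), (1, 5)]⟩, ⟨1, []⟩])))))))) (.cons (.prune [(10, 1), (3, 1), (1, 1)]) .nil)))
def s7_24_t17 : Tree := .nbr (.cons (.ddet 1 [⟨82, [(10, 589), (6, 1), (2, 5), (0, 82)]⟩] (.ndet 0 [⟨82, [(10, 507), (6, 1), (2, 5)]⟩, ⟨82, [(10, 589), (6, 1), (2, 5), (0, 82)]⟩] (.ddet 1 [⟨1, [(8, 1)]⟩] (.ndet 0 [⟨1, [(13, 1), (8, 1)]⟩, ⟨82, [(10, 507), (6, 1), (2, 5)]⟩] (.ddet 1 [⟨82, [(10, 589), (6, 1), (2, 5)]⟩] s7_24_t14))))) (.cons (.prune [(12, 1), (9, 1), (0, 1)]) (.cons (.ddet 1 [⟨1, [(9, 1), (3, 1)]⟩] (.ndet 0 [⟨1, [(9, 1), (8, 1), (3, 1)]⟩, ⟨1, [(9, 1), (3, 1)]⟩]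 (.ddet 1 [⟨1, [(8, 1)]⟩] (.ndet 0 [⟨1, [(8, 1), (1, 1)]⟩, ⟨1, [(9, 1), (8, 1), (3, 1)]⟩] (.ddet 1 [⟨82, [(10, 589), (6, 1), (2, 5)]⟩] s7_24_t16))))) .nil)))
def s7_24_t18 : Tree := .nbr (.cons (.ddet 1 [⟨1, [(14, 1), (10, 1), (1, 1)]⟩] (.ndet 1 [⟨82, [(12, 589), (8, 1), (4, 77), (2, 82)]⟩, ⟨82, [(12, 589), (8, 1), (4, 77)]⟩] (.ddet 0 [⟨82, [(14, 5), (12, 589), (8, 1), (2, 82)]⟩] (.ndet 1 [⟨82, [(12, 507), (8, 1), (4, 77)]⟩, ⟨1, [(10, 1), (1, 1)]⟩] (.ddet 0 [⟨1, [(10, 1)]⟩] (.ndet 1 [⟨82, [(12, 507), (8, 1), (4, 77), (1, 82)]⟩, ⟨1, [(1, 1)]⟩] (.ddet 0 [⟨82, [(12, 589), (8, 1), (4, 77)]⟩] (.leaf 0 [⟨1, [(10, 1), (1, 2)]⟩, ⟨1, [(1, 1)]⟩, ⟨82, [(12, 589), (8, 1),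 (4, 77), (2, 82)]⟩, ⟨1, []⟩, ⟨82, [(12, 507), (8, 1), (4, 77)]⟩, ⟨1, []⟩, ⟨82, [(12, 589), (8, 1), (4, 77), (2, 82)]⟩, ⟨1, [(12, 507), (8, 1), (4, 77), (1, 77)]⟩, ⟨1, [(4, 1), (1, 1)]⟩])))))))) (.cons (.ddet 1 [⟨1, [(15, 1), (14, 1), (10, 1)]⟩] (.ndet 1 [⟨82, [(12, 589), (8, 1), (4, 77), (2, 164)]⟩, ⟨82, [(12, 589), (8, 1), (4, 77), (2, 82)]⟩] (.ddet 0 [⟨82, [(14, 5), (12, 589), (8, 1), (2, 82)]⟩] (.ndet 1 [⟨82, [(12, 507), (8, 1), (4, 77), (2, 82)]⟩, ⟨1, [(15, 1), (10, 1)]⟩] (.ddet 0 [⟨1, [(10, 1)]⟩] (.ndet 1 [⟨82, [(12, 507), (8, 1), (4, 77)]⟩, ⟨1, [(15, 1)]⟩] (.ddet 0 [⟨82, [(12, 589), (8, 1), (4, 77), (2, 82)]⟩] (.leaf 0 [⟨1, [(15, 2), (10, 1)]⟩, ⟨1, [(15,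 1)]⟩, ⟨82, [(12, 589), (8, 1), (4, 77), (2, 164)]⟩, ⟨1, []⟩, ⟨82, [(12, 507), (8, 1), (4, 77), (2, 82)]⟩, ⟨1, []⟩, ⟨82, [(12, 589), (8, 1), (4, 77), (2, 164)]⟩, ⟨1, [(12, 507), (8, 1), (4, 77), (2, 5)]⟩, ⟨1, [(4, 1)]⟩])))))))) (.cons (.prune [(10, 1), (0, 1)]) .nil)))
def s7_24_t19 : Tree := .nbr (.cons (.ddet 1 [⟨1, [(14, 1), (10, 1)]⟩] (.ndet 1 [⟨82, [(12, 589), (8, 1), (5, 82), (4, 159)]⟩, ⟨82, [(12, 589), (8, 1), (4, 77)]⟩] (.ddet 0 [⟨82, [(12, 589), (8, 1), (5, 164), (4, 159)]⟩] (.ndet 1 [⟨82, [(12, 507), (8, 1), (4, 77)]⟩, ⟨1, [(10, 1), (3, 1)]⟩] (.ddet 0 [⟨1, [(10, 1)]⟩] (.ndet 1 [⟨82, [(12, 507), (8, 1), (4, 77), (3, 82)]⟩, ⟨1, [(3, 1)]⟩] (.ddet 0 [⟨82,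 [(12, 589), (8, 1), (4, 77)]⟩] (.leaf 0 [⟨1, [(10, 1), (3, 2)]⟩, ⟨1, [(3, 1)]⟩, ⟨82, [(12, 589), (8, 1), (5, 82), (4, 159)]⟩, ⟨1, []⟩, ⟨82, [(12, 507), (8, 1), (4, 77)]⟩, ⟨1, []⟩, ⟨82, [(12, 589), (8, 1), (5, 82), (4, 159)]⟩, ⟨1, [(12, 507), (8, 1), (4, 77), (3, 77)]⟩, ⟨1, [(4, 1), (3, 1)]⟩])))))))) (.cons (.ddet 1 [⟨1, [(14, 1), (10, 1)]⟩] (.ndet 1 [⟨82, [(12, 589), (8, 1), (4, 77), (1, 164)]⟩, ⟨82, [(12, 589), (8, 1), (4, 77), (1, 82)]⟩] (.ddet 0 [⟨82, [(14, 5), (12, 589), (8, 1), (1, 164)]⟩] (.ndet 1 [⟨82, [(12, 507), (8, 1), (4, 77), (1, 82)]⟩, ⟨1, [(10, 1), (3, 1)]⟩] (.ddet 0 [⟨1, [(10, 1)]⟩] (.ndet 1 [⟨82, [(12, 507), (8, 1), (4, 77)]⟩, ⟨1, [(3, 1)]⟩] (.ddet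 0 [⟨82, [(12, 589), (8, 1), (4, 77), (1, 82)]⟩] (.leaf 0 [⟨1, [(10, 1), (3, 2)]⟩, ⟨1, [(3, 1)]⟩, ⟨82, [(12, 589), (8, 1), (4, 77), (1, 164)]⟩, ⟨1, []⟩, ⟨82, [(12, 507), (8, 1), (4, 77), (1, 82)]⟩, ⟨1, []⟩, ⟨82, [(12, 589), (8, 1), (4, 77), (1, 164)]⟩, ⟨1, [(12, 507), (8, 1), (4, 77), (1, 5)]⟩, ⟨1, [(4, 1)]⟩])))))))) (.cons (.prune [(10, 1), (3, 1), (1, 1)]) .nil)))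
def s7_24_t20 : Tree := .nbr (.cons (.ddet 1 [⟨82, [(12, 5), (10, 589), (6, 1), (0, 82)]⟩] (.ndet 0 [⟨82, [(12, 5), (10, 507), (6, 1)]⟩, ⟨82, [(10, 589), (6, 1), (2, 77), (0, 82)]⟩] (.ddet 1 [⟨1, [(8, 1)]⟩] (.ndet 0 [⟨1, [(13, 1), (8, 1)]⟩, ⟨82, [(12, 5), (10, 507), (6, 1)]⟩] (.ddet 1 [⟨82, [(10, 589), (6, 1), (2, 77)]⟩] s7_24_t18))))) (.cons (.prune [(9, 1), (0, 1)]) (.cons (.ddet 1 [⟨82, [(10, 589), (6, 1), (3, 82), (2, 77)]⟩] (.ndet 0 [⟨82, [(10, 507), (6, 1), (3, 82), (2, 77)]⟩, ⟨82, [(10, 589), (6, 1), (3, 82), (2, 159)]⟩] (.ddet 1 [⟨1, [(8, 1)]⟩] (.ndet 0 [⟨1, [(8, 1), (1, 1)]⟩, ⟨82, [(10, 507), (6, 1), (3, 82), (2, 77)]⟩] (.ddet 1 [⟨82, [(10, 589), (6,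 1), (2, 77)]⟩] s7_24_t19))))) .nil)))
def s7_24_t21 : Tree := .dbr (.cons (.ndet 2 [⟨1, [(9, 1), (5, 1), (0, 1)]⟩, ⟨1, [(5, 1), (0, 1)]⟩] (.dbr (.cons (.ndet 2 [⟨1, [(0, 1)]⟩, ⟨1, [(2, 1), (0, 1)]⟩] (.ddet 1 [⟨1, [(2, 1)]⟩] s7_24_t9)) (.cons (.ndet 2 [⟨1, [(10, 1)]⟩, ⟨1, [(2, 1)]⟩] (.ddet 1 [⟨1, [(2, 1)]⟩] s7_24_t13)) .nil)))) (.cons (.ndet 2 [⟨1, [(10, 1), (5, 1)]⟩, ⟨1, [(5, 1)]⟩] (.dbr (.cons s7_24_t17 (.cons s7_24_t20 .nil)))) .nil))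
def s7_24_t22 : Tree := .nbr (.cons (.prune [(8, 512), (5, 507), (2, 1), (0, 589)]) (.cons (.ddet 0 [⟨1, [(5, 1), (0, 1)]⟩] (.ndet 2 [⟨82, [(8, 5), (6, 507), (2, 1), (0, 82)]⟩, ⟨1, [(5, 1), (4, 1)]⟩] (.dbr (.cons (.ndet 2 [⟨1, [(1, 1), (0, 1)]⟩, ⟨1, [(0, 1)]⟩] (.ddet 1 [⟨1, [(8, 1)]⟩] s7_24_t2)) (.cons (.ndet 2 [⟨1, [(9, 1), (1, 1)]⟩, ⟨1, []⟩] (.ddet 1 [⟨1, [(8, 1)]⟩] s7_24_t5)) .nil))))) (.cons s7_24_t21 .nil)))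
def s7_24_n0 : Node := ⟨[⟨[0, 1, 0, -1], -200⟩, ⟨[0, 1, -1], -200⟩, ⟨[-1, 1], -200⟩, ⟨[-1, 1, 0, -1], -6020⟩, ⟨[-1, 1, 1, -1], 179700⟩, ⟨[1, -1, 0, 1], 3980⟩, ⟨[0, 0, 0, 1], 4594⟩, ⟨[507, -430, 5, 507], 91107900⟩], [0, 1], 0, none, s7_24_t22⟩
def s7_24 : Sys := ⟨[(0, 2000), (1, 3000), (2, 1000)], [(3, -2000), (4, 2000)], 4, [s7_24_n0], [1012251, 1130650, 1021099, 123399], (.leaf 0 [⟨1, []⟩, ⟨1, []⟩, ⟨1, []⟩, ⟨1, []⟩, ⟨1, []⟩, ⟨1, []⟩, ⟨1, []⟩, ⟨1, []⟩])⟩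

theorem s7_24_ok : s7_24.ok = true := by decide +kernel

def s8_1_n0 : Node := ⟨[], [1, 1, 1], 0, none, (.ndet 0 [] (.ddet 0 [] (.leaf 0 [⟨1, []⟩])))⟩
def s8_1 : Sys := ⟨[(3, 0)], [(0, -16)], 3, [s8_1_n0], [16, -48, 0, 0], (.leaf 0 [])⟩

theorem s8_1_ok : s8_1.ok = true := by decide +kernel

def s8_20_n0 : Node := ⟨[⟨[0, -1, 0, 1], 248⟩, ⟨[1, 0, -1], 104⟩, ⟨[0, -1, 1, -1], -80⟩, ⟨[0, 0, -1, 1], 208⟩, ⟨[2, -1], 272⟩, ⟨[1, 0, -2, 2], 376⟩, ⟨[1, 0, -1, 1], 280⟩], [1], 0, none, (.ndet 0 [] (.ddet 1 [⟨1, [(6, 1)]⟩] (.ndet 0 [] (.ddet 0 [⟨1, [(5, 1)]⟩] (.ndet 0 [] (.ddet 0 [⟨1, [(4, 1)]⟩] (.leaf 0 [⟨1, [(2, 1)]⟩, ⟨1, [(3, 1), (0, 1)]⟩, ⟨1, [(4, 1)]⟩, ⟨1, [(0, 1)]⟩,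 ⟨1, [(4, 1), (0, 3)]⟩, ⟨1, [(0, 3)]⟩, ⟨1, [(0, 2)]⟩, ⟨1, [(3, 1)]⟩])))))))⟩
def s8_20 : Sys := ⟨[(3, 64)], [(2, 176), (4, 64)], 4, [s8_20_n0], [144, -256, -176, 128], (.leaf 0 [⟨1, []⟩, ⟨1, []⟩, ⟨1, []⟩, ⟨1, []⟩, ⟨1, []⟩, ⟨1, []⟩, ⟨1, []⟩])⟩

theorem s8_20_ok : s8_20.ok = true := by decide +kernel

def s12_10_n0 : Node := ⟨[⟨[0, 1, -1], -8⟩, ⟨[1, 0, -1], -56⟩, ⟨[-1, 1], 64⟩, ⟨[-1], 64⟩, ⟨[-1], 96⟩], [0, 1], 0, none, (.ndet 0 [⟨1, [(3, 1), (2, 1)]⟩] (.ddet 0 [⟨1, [(3, 1)]⟩] (.ndet 1 [⟨1, [(2, 1)]⟩] (.ddet 0 [⟨1, [(0, 1)]⟩] (.leaf 0 [⟨1, [(2, 1), (0, 1)]⟩, ⟨1, []⟩, ⟨1, [(2, 1), (0, 1)]⟩, ⟨1, [(0, 1)]⟩, ⟨1, [(0, 1)]⟩, ⟨1, [(0, 1)]⟩])))))⟩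
def s12_10 : Sys := ⟨[(2, -32), (3, -80)], [(1, 48), (3, -16)], 3, [s12_10_n0], [-112, -32, -64, 0], (.leaf 0 [⟨1, []⟩, ⟨1, []⟩, ⟨1, []⟩, ⟨1, []⟩, ⟨1, []⟩])⟩

theorem s12_10_ok : s12_10.ok = true := by decide +kernel

def s13_20_n0 : Node := ⟨[⟨[0, 1], 88⟩, ⟨[0, 1, -1], 96⟩, ⟨[0, 1, 0, -1], 72⟩, ⟨[0, 1], 72⟩, ⟨[-1, 1], 120⟩, ⟨[-1, 0, 1], 48⟩, ⟨[-1], 64⟩, ⟨[0, 0, -1], -8⟩], [0, 1], 0, none, (.ndet 1 [⟨1, [(7, 1)]⟩, ⟨1, [(6, 1)]⟩] (.ddet 0 [⟨1, [(5, 1)]⟩] (.ndet 2 [⟨1, [(7, 1)]⟩, ⟨1, [(7, 1), (1, 1)]⟩] (.ddet 1 [⟨1, [(2, 1)]⟩] (.ndet 0 [⟨1, []⟩, ⟨1, [(1, 1)]⟩] (.ddet 1 [⟨1, [(7, 1)]⟩] (.leaf 0 [⟨1, [(6, 1)]⟩, ⟨1, [(6, 1)]⟩, ⟨1, [(6, 1), (1, 1)]⟩, ⟨1, [(6, 1)]⟩,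 ⟨1, [(7, 1), (6, 1)]⟩, ⟨1, [(7, 1)]⟩, ⟨1, [(7, 1)]⟩, ⟨1, []⟩, ⟨1, [(0, 1)]⟩])))))))⟩
def s13_20 : Sys := ⟨[(0, 0), (2, -16), (3, 16)], [(2, -16), (4, 0)], 4, [s13_20_n0], [-112, 160, 0, 32], (.leaf 0 [⟨1, []⟩, ⟨1, []⟩, ⟨1, []⟩, ⟨1, []⟩, ⟨1, []⟩, ⟨1, []⟩, ⟨1, []⟩, ⟨1, []⟩])⟩

theorem s13_20_ok : s13_20.ok = true := by decide +kernel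

def s15_21_n0 : Node := ⟨[⟨[0, 1], 40⟩, ⟨[-1, 1], 32⟩, ⟨[0, 1, -1], 144⟩, ⟨[0, 1], -40⟩, ⟨[0, 1, 0, -1], 96⟩, ⟨[0, 1], 0⟩, ⟨[0, 1], -128⟩, ⟨[-1, 1], 88⟩, ⟨[0, 0, 1], -144⟩, ⟨[-1, 0, 1], 24⟩, ⟨[0, 1, -1], 192⟩, ⟨[0, 1, -1], 160⟩, ⟨[-1, 1, -1], 320⟩, ⟨[0, 1], 8⟩, ⟨[0, 0, -1], 56⟩], [0, 1], 0, none, (.ndet 2 [⟨1, [(6, 1), (4, 1)]⟩, ⟨1, [(5, 1), (4, 1)]⟩, ⟨1, [(4, 1)]⟩] (.ddet 1 [⟨1, [(6, 1), (4, 1)]⟩, ⟨1, [(10, 1)]⟩] (.ndet 3 [⟨1, [(6, 1), (4, 1)]⟩, ⟨1, [(6, 1), (4, 1)]⟩, ⟨1, [(5, 1), (4, 1)]⟩] (.ddet 2 [⟨1, [(6, 1)]⟩, ⟨1, [(5, 1)]⟩] (.ndet 1 [⟨1, [(4, 1)]⟩, ⟨1, [(4, 1)]⟩, ⟨1, [(2, 1)]⟩] (.ddet 2 [⟨1, [(6, 1), (4, 1)]⟩, ⟨1, [(6, 1), (4, 1)]⟩] (.leaf 0 [⟨1, [(4,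 1)]⟩, ⟨1, [(6, 1), (4, 1)]⟩, ⟨1, [(4, 1)]⟩, ⟨1, [(4, 1)]⟩, ⟨1, [(2, 1)]⟩, ⟨1, [(4, 1)]⟩, ⟨1, [(4, 1)]⟩, ⟨1, [(6, 1), (4, 1)]⟩, ⟨1, []⟩, ⟨1, [(6, 1)]⟩, ⟨1, [(4, 1)]⟩, ⟨1, [(4, 1)]⟩, ⟨1, [(6, 1), (4, 1)]⟩, ⟨1, [(4, 1)]⟩, ⟨1, []⟩, ⟨1, [(0, 1)]⟩])))))))⟩
def s15_21 : Sys := ⟨[(0, -16), (1, -176), (2, 16), (3, 96)], [(0, -80), (2, 112), (4, 112)], 4, [s15_21_n0], [-144, 112, -96, -80], (.leaf 0 [⟨1, []⟩, ⟨1, []⟩, ⟨1, []⟩, ⟨1, []⟩, ⟨1, []⟩, ⟨1, []⟩, ⟨1, []⟩, ⟨1, []⟩, ⟨1, []⟩, ⟨1, []⟩, ⟨1, []⟩, ⟨1, []⟩, ⟨1, []⟩, ⟨1, []⟩, ⟨1, []⟩])⟩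

theorem s15_21_ok : s15_21.ok = true := by decide +kernel

def s19_2_n0 : Node := ⟨[⟨[1], 104⟩, ⟨[1, 0, 0, -1], 104⟩, ⟨[0, 0, 1], 64⟩, ⟨[0, 0, 1], 40⟩, ⟨[0, -1, 1], 80⟩], [1, 0, 1], 0, none, (.ndet 1 [⟨1, [(4, 1)]⟩, ⟨1, [(3, 1)]⟩] (.ddet 0 [] (.ndet 2 [⟨1, [(2, 1)]⟩, ⟨1, [(2, 1)]⟩] (.ddet 0 [] (.leaf 0 [⟨1, [(2, 1)]⟩, ⟨1, [(0, 1)]⟩, ⟨1, [(4, 1)]⟩, ⟨1, [(4, 1)]⟩, ⟨1, [(4, 1)]⟩, ⟨1, []⟩])))))⟩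
def s19_2 : Sys := ⟨[(0, 16), (1, -32), (4, 32)], [(1, -32)], 4, [s19_2_n0], [160, -16, 144, 16], (.leaf 0 [⟨1, []⟩, ⟨1, []⟩, ⟨1, []⟩, ⟨1, []⟩, ⟨1, []⟩])⟩

theorem s19_2_ok : s19_2.ok = true := by decide +kernel

def s19_3_n0 : Node := ⟨[⟨[1], 132⟩, ⟨[1, 0, 0, -1], 212⟩, ⟨[1], 92⟩, ⟨[0, 0, 1], 84⟩, ⟨[0, 0, 1], 68⟩, ⟨[0, -1, 1], 164⟩], [1, 0, 1], 0, none, (.ndet 1 [⟨1, [(5, 1)]⟩, ⟨1, [(4, 1)]⟩] (.ddet 1 [⟨1, [(5, 1)]⟩] (.ndet 2 [⟨1, [(2, 1)]⟩, ⟨1, [(2, 1)]⟩] (.ddet 1 [⟨1, []⟩] (.leaf 0 [⟨1, [(2, 1)]⟩, ⟨1, [(0, 1)]⟩, ⟨1, [(2, 1)]⟩, ⟨1, [(5, 1)]⟩, ⟨1, [(5, 1)]⟩, ⟨1, [(5, 1)]⟩, ⟨1, []⟩])))))⟩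
def s19_3 : Sys := ⟨[(0, -16), (1, 16), (4, 80)], [(0, -32), (1, 80)], 4, [s19_3_n0], [576, -64, 144, -64], (.leaf 0 [⟨1, []⟩, ⟨1, []⟩, ⟨1, []⟩, ⟨1, []⟩, ⟨1, []⟩, ⟨1, []⟩])⟩

theorem s19_3_ok : s19_3.ok = true := by decide +kernel

def s20_7_n0 : Node := ⟨[⟨[0, 1, 0, -1], 112⟩, ⟨[1], 40⟩, ⟨[1, -1], 96⟩, ⟨[1, 0, -1], 112⟩, ⟨[1], 64⟩, ⟨[2, -1], 200⟩, ⟨[1, -1], 72⟩, ⟨[0, -1], 56⟩, ⟨[1], 80⟩], [1], 0, none, (.ndet 0 [⟨1, [(8, 1)]⟩] (.ddet 1 [⟨1, [(0, 1)]⟩, ⟨1, [(1, 1), (0, 1)]⟩] (.ndet 0 [⟨1, [(5, 1)]⟩] (.ddet 2 [⟨1, [(0, 1)]⟩, ⟨1, [(1, 1), (0, 2)]⟩] (.ndet 1 [⟨1, [(0, 1)]⟩] (.ddet 1 [⟨1, []⟩, ⟨1, [(1, 1), (0, 1)]⟩] (.ndet 1 [⟨1, [(0, 1)]⟩] (.ddet 2 [⟨1, []⟩, ⟨1,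 [(1, 1)]⟩] (.leaf 0 [⟨1, [(0, 1)]⟩, ⟨1, [(0, 1)]⟩, ⟨1, [(1, 1), (0, 1)]⟩, ⟨1, [(0, 1)]⟩, ⟨1, [(0, 1)]⟩, ⟨1, [(1, 1), (0, 2)]⟩, ⟨1, [(1, 1), (0, 1)]⟩, ⟨1, [(1, 1)]⟩, ⟨1, [(0, 1)]⟩, ⟨1, []⟩])))))))))⟩
def s20_7 : Sys := ⟨[(2, -16), (4, 16)], [(0, -48), (1, 48), (2, 0)], 4, [s20_7_n0], [176, -64, -16, -256], (.leaf 0 [⟨1, []⟩, ⟨1, []⟩, ⟨1, []⟩, ⟨1, []⟩, ⟨1, []⟩, ⟨1, []⟩, ⟨1, []⟩, ⟨1, []⟩, ⟨1, []⟩])⟩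

theorem s20_7_ok : s20_7.ok = true := by decide +kernel

def s20_11_n0 : Node := ⟨[⟨[0, 1, 0, -1], 0⟩, ⟨[-1], 108⟩, ⟨[0, 0, -1], 80⟩, ⟨[-1, 0, 1], 36⟩, ⟨[0, 1], 44⟩, ⟨[1, 1, -1], 24⟩], [0, 1], 0, none, (.ndet 0 [⟨1, [(5, 1)]⟩] (.ddet 0 [⟨1, [(3, 1), (2, 1)]⟩, ⟨1, [(3, 1)]⟩] (.ndet 1 [⟨1, [(2, 1)]⟩] (.ddet 1 [⟨1, [(2, 1), (0, 1)]⟩, ⟨1, []⟩] (.leaf 0 [⟨1, []⟩, ⟨1, [(3, 1), (2, 1), (0, 1)]⟩, ⟨1, [(3, 1), (2, 1)]⟩, ⟨1, [(0, 1)]⟩, ⟨1, [(2, 1), (0, 1)]⟩, ⟨1, [(2, 1)]⟩, ⟨1, []⟩])))))⟩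
def s20_11 : Sys := ⟨[(2, 16), (4, 0)], [(0, 0), (1, 0), (3, 0)], 4, [s20_11_n0], [-192, 96, -128, 80], (.leaf 0 [⟨1, []⟩, ⟨1, []⟩, ⟨1, []⟩, ⟨1, []⟩, ⟨1, []⟩, ⟨1, []⟩])⟩

theorem s20_11_ok : s20_11.ok = true := by decide +kernel

def s21_1_n0 : Node := ⟨[⟨[0, 1], 0⟩, ⟨[0, 1, 0, -1], 0⟩, ⟨[1], 16⟩, ⟨[1, 0, -1], 24⟩], [1, 1], 0, none, (.ndet 1 [⟨1, [(3, 1)]⟩, ⟨1, [(2, 1)]⟩] (.ddet 0 [] (.leaf 0 [⟨1, [(1, 1)]⟩, ⟨1, [(0, 1)]⟩, ⟨1, [(3, 1)]⟩, ⟨1, []⟩, ⟨1, []⟩])))⟩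
def s21_1 : Sys := ⟨[(0, 16), (2, 32), (4, 16)], [(0, -32)], 4, [s21_1_n0], [48, 16, -16, 0], (.leaf 0 [⟨1, []⟩, ⟨1, []⟩, ⟨1, []⟩, ⟨1, []⟩])⟩

theorem s21_1_ok : s21_1.ok = true := by decide +kernel

def s24_12_n0 : Node := ⟨[⟨[0, 0, -1, 1], 40⟩, ⟨[0, 1, -1], 56⟩, ⟨[0, 1, -1], 96⟩, ⟨[1, -1], 72⟩, ⟨[1, -1], 112⟩, ⟨[1, 1, 0, -1], 200⟩, ⟨[1, 1, 0, -1], 160⟩, ⟨[1, -2, 0, 1], 88⟩, ⟨[0, 1, 0, -1], 8⟩, ⟨[1], 168⟩], [1], 0, none, (.ndet 1 [⟨1, [(9, 1)]⟩] (.ddet 0 [⟨1, [(7, 1)]⟩] (.ndet 0 [⟨1, [(7, 1)]⟩] (.ddet 0 [⟨1, [(5, 1)]⟩] (.ndet 0 [⟨1, [(5, 1)]⟩] (.ddet 1 [⟨1, [(4, 1)]⟩] (.ndet 1 [⟨1, [(4, 1)]⟩] (.ddet 1 [⟨1, [(2, 1)]⟩] (.leaf 0 [⟨1, [(2, 1)]⟩, ⟨1, [(5, 1)]⟩, ⟨1,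 [(5, 1)]⟩, ⟨1, [(4, 1)]⟩, ⟨1, [(4, 1)]⟩, ⟨1, [(4, 1), (1, 1)]⟩, ⟨1, [(4, 1), (1, 1)]⟩, ⟨1, [(0, 1)]⟩, ⟨1, [(1, 1)]⟩, ⟨1, [(4, 1)]⟩, ⟨1, [(1, 1)]⟩])))))))))⟩
def s24_12 : Sys := ⟨[(3, 16), (4, 32)], [(2, 32), (3, -32)], 4, [s24_12_n0], [256, 48, -128, -32], (.leaf 0 [⟨1, []⟩, ⟨1, []⟩, ⟨1, []⟩, ⟨1, []⟩, ⟨1, []⟩, ⟨1, []⟩, ⟨1, []⟩, ⟨1, []⟩, ⟨1, []⟩, ⟨1, []⟩])⟩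

theorem s24_12_ok : s24_12.ok = true := by decide +kernel

def s24_21_n0 : Node := ⟨[⟨[0, 0, 1, -1], 316⟩, ⟨[0, -1], 120⟩, ⟨[0, 0, 0, -1], 304⟩, ⟨[0, -1, 1], 228⟩, ⟨[0, 0, 1], 44⟩, ⟨[-1, 0, 1], 360⟩, ⟨[-1, 1], 228⟩, ⟨[0, 0, 1], 36⟩, ⟨[0, -1, 1], 188⟩], [0, 0, 1], 0, none, (.ndet 0 [⟨1, [(6, 1), (4, 1)]⟩] (.ddet 0 [⟨1, [(7, 1)]⟩, ⟨1, [(6, 1)]⟩] (.ndet 1 [⟨1, [(5, 1)]⟩] (.ddet 2 [⟨1, [(4, 1)]⟩, ⟨1, [(5, 1), (2, 1)]⟩] (.ndet 1 [⟨1, [(2, 1)]⟩] (.ddet 1 [⟨1, [(4, 1)]⟩, ⟨1, [(5, 1)]⟩] (.leaf 0 [⟨1, [(5, 1), (2, 1)]⟩, ⟨1, []⟩, ⟨1, [(7, 1), (2, 1)]⟩, ⟨1, [(4, 1)]⟩, ⟨1, [(4, 1)]⟩, ⟨1, [(5, 1), (4, 1)]⟩, ⟨1, [(5, 1)]⟩, ⟨1, [(4, 1)]⟩, ⟨1, [(4, 1)]⟩, ⟨1, []⟩])))))))⟩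
def s24_21 : Sys := ⟨[(3, 0), (4, -64)], [(0, -80), (2, 16), (4, 80)], 4, [s24_21_n0], [-560, -144, 208, -336], (.leaf 0 [⟨1, []⟩, ⟨1, []⟩, ⟨1, []⟩, ⟨1, []⟩, ⟨1, []⟩, ⟨1, []⟩, ⟨1, []⟩, ⟨1, []⟩, ⟨1, []⟩])⟩

theorem s24_21_ok : s24_21.ok = true := by decide +kernel

def s26_6_n0 : Node := ⟨[⟨[-1, 0, 1], 1096⟩, ⟨[0, 0, 1, -1], 1112⟩, ⟨[-1, 1], 552⟩, ⟨[0, -2, 1], 832⟩, ⟨[0, -1], 216⟩, ⟨[-1, -1, 1], 1352⟩, ⟨[0, 1], -264⟩, ⟨[-1, 1], 592⟩, ⟨[0, -1, 1], 528⟩, ⟨[0, -1], 176⟩], [0, 0, 1], 0, none, (.ndet 1 [⟨1, [(6, 1), (3, 1), (2, 1)]⟩, ⟨1, [(8, 1)]⟩] (.ddet 1 [⟨1, [(2, 1)]⟩] (.ndet 0 [⟨1, [(6, 1)]⟩, ⟨1, [(5, 1)]⟩] (.ddet 0 [⟨1, [(6, 1), (2, 1)]⟩] (.ndet 2 [⟨1, [(3, 1)]⟩,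 ⟨1, [(2, 1)]⟩] (.ddet 1 [⟨1, [(6, 1), (3, 1)]⟩] (.leaf 0 [⟨1, [(6, 2), (3, 1)]⟩, ⟨1, [(6, 1), (2, 1)]⟩, ⟨1, [(6, 1)]⟩, ⟨1, [(6, 1), (3, 1)]⟩, ⟨1, []⟩, ⟨1, [(6, 2), (3, 1)]⟩, ⟨1, []⟩, ⟨1, [(6, 1)]⟩, ⟨1, [(6, 1), (3, 1)]⟩, ⟨1, []⟩, ⟨1, [(5, 1)]⟩])))))))⟩
def s26_6 : Sys := ⟨[(1, -144), (3, -16), (4, -64)], [(1, 80), (2, 112)], 4, [s26_6_n0], [-1360, -224, 960, -1312], (.leaf 0 [⟨1, []⟩, ⟨1, []⟩, ⟨1, []⟩, ⟨1, []⟩, ⟨1, []⟩, ⟨1, []⟩, ⟨1, []⟩, ⟨1, []⟩, ⟨1, []⟩, ⟨1, []⟩])⟩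

theorem s26_6_ok : s26_6.ok = true := by decide +kernel

def s30_15_n0 : Node := ⟨[⟨[1, -1], 252⟩, ⟨[1, 0, -1], 116⟩, ⟨[1, 0, 0, -1], 202⟩, ⟨[1], 204⟩, ⟨[1, -1], 244⟩, ⟨[1, 0, -1], 188⟩, ⟨[1], 180⟩, ⟨[1, -1], 156⟩, ⟨[1, 0, -1], 164⟩, ⟨[1], 188⟩, ⟨[1, -1], 236⟩, ⟨[1], 252⟩, ⟨[1], 276⟩, ⟨[1, -1], 300⟩, ⟨[1], 164⟩, ⟨[1], 196⟩, ⟨[1], 92⟩, ⟨[1], 132⟩], [1], 0, none, (.ndet 0 [⟨1, [(4, 1)]⟩, ⟨1, [(12, 1)]⟩, ⟨1, [(15, 1)]⟩] (.ddet 1 [⟨1, [(5, 1)]⟩, ⟨1, [(4, 1)]⟩, ⟨1, [(12, 1)]⟩] (.ndet 1 [⟨1, [(5, 1)]⟩, ⟨1, [(4, 1)]⟩, ⟨1, [(12, 1)]⟩] (.ddet 2 [⟨1, [(5, 1)]⟩, ⟨1, [(5, 1)]⟩, ⟨1, [(4, 1)]⟩] (.ndet 2 [⟨1, [(5, 1)]⟩, ⟨1, [(5, 1)]⟩, ⟨1, [(4, 1)]⟩] (.ddet 3 [⟨1, [(5, 1)]⟩,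 ⟨1, [(5, 1)]⟩, ⟨1, [(5, 1)]⟩] (.ndet 3 [⟨1, [(5, 1)]⟩, ⟨1, [(5, 1)]⟩, ⟨1, [(5, 1)]⟩] (.ddet 3 [⟨1, []⟩, ⟨1, []⟩, ⟨1, []⟩] (.leaf 0 [⟨1, [(5, 1)]⟩, ⟨1, [(5, 1)]⟩, ⟨1, [(5, 1)]⟩, ⟨1, [(5, 1)]⟩, ⟨1, [(5, 1)]⟩, ⟨1, [(5, 1)]⟩, ⟨1, [(5, 1)]⟩, ⟨1, [(5, 1)]⟩, ⟨1, [(5, 1)]⟩, ⟨1, [(5, 1)]⟩, ⟨1, [(5, 1)]⟩, ⟨1, [(5, 1)]⟩, ⟨1, [(5, 1)]⟩, ⟨1, [(5, 1)]⟩, ⟨1, [(5, 1)]⟩, ⟨1, [(5, 1)]⟩, ⟨1, [(5, 1)]⟩, ⟨1, [(5, 1)]⟩, ⟨1, []⟩])))))))))⟩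
def s30_15 : Sys := ⟨[(1, -16), (2, 48), (3, -80), (4, 80)], [(0, -32), (1, -80), (2, -32), (3, 0)], 4, [s30_15_n0], [288, -80, 80, 64], (.leaf 0 [⟨1, []⟩, ⟨1, []⟩, ⟨1, []⟩, ⟨1, []⟩, ⟨1, []⟩, ⟨1, []⟩, ⟨1, []⟩, ⟨1, []⟩, ⟨1, []⟩, ⟨1, []⟩, ⟨1, []⟩, ⟨1, []⟩, ⟨1, []⟩, ⟨1, []⟩, ⟨1, []⟩, ⟨1, []⟩, ⟨1, []⟩, ⟨1, []⟩])⟩

theorem s30_15_ok : s30_15.ok = true := by decide +kernel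

end Pool.Agent.H81.RDE.Data
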