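import Pool.Agent.H81.RDE.System

/-! Data file (generated): certificates. -/

set_option maxRecDepth 100000

namespace Pool.Agent.H81.RDE.Data

def s10_23_n0 : Node := ⟨[⟨[-1, 0, 1], 320⟩, ⟨[-1], 224⟩, ⟨[0, -1], 32⟩, ⟨[0, 0, 0, -1], 192⟩, ⟨[0, -1, 1], 192⟩, ⟨[0, 0, 1], 96⟩, ⟨[-1, 0, 1], 288⟩, ⟨[-1], 256⟩, ⟨[0, 0, 1], 128⟩, ⟨[0, 0, 1], 160⟩], [0, 0, 1], 0, none, (.ndet 1 [⟨1, [(2, 1), (0, 1)]⟩] (.ddet 0 [⟨1, [(2, 1)]⟩, ⟨1, [(7, 1)]⟩, ⟨1, [(6, 1)]⟩] (.ndet 0 [⟨1, [(5, 1)]⟩] (.ddet 1 [⟨1, [(0, 1)]⟩, ⟨1, [(2, 1), (0, 1)]⟩, ⟨1, []⟩] (.ndet 0 [⟨1, [(2, 1)]⟩] (.ddet 2 [⟨1, [(0, 1)]⟩, ⟨1, [(0, 1)]⟩, ⟨1, [(5, 1)]⟩]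 (.leaf 0 [⟨1, [(0, 2)]⟩, ⟨1, [(0, 1)]⟩, ⟨1, []⟩, ⟨1, [(2, 1)]⟩, ⟨1, [(0, 1)]⟩, ⟨1, [(0, 1)]⟩, ⟨1, [(0, 2)]⟩, ⟨1, [(0, 1)]⟩, ⟨1, [(0, 1)]⟩, ⟨1, [(0, 1)]⟩, ⟨1, []⟩])))))))⟩
def s10_23 : Sys := ⟨[(1, 0), (3, 64)], [(0, 0), (1, 64), (2, 0), (4, 64)], 4, [s10_23_n0], [-384, -64, 320, -320], (.leaf 0 [⟨1, []⟩, ⟨1, []⟩, ⟨1, []⟩, ⟨1, []⟩, ⟨1, []⟩, ⟨1, []⟩, ⟨1, []⟩, ⟨1, []⟩, ⟨1, []⟩, ⟨1, []⟩])⟩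

theorem s10_23_ok : s10_23.ok = true := by decide +kernel

def s11_6_n0 : Node := ⟨[⟨[1], 120⟩, ⟨[1, 0, -1], 133⟩, ⟨[1, -1], 165⟩, ⟨[0, -1], 61⟩, ⟨[2], 240⟩, ⟨[1], 152⟩], [1], 0, none, (.ndet 1 [⟨1, [(0, 1)]⟩, ⟨1, [(4, 1)]⟩] (.ddet 0 [⟨1, [(2, 1), (0, 1)]⟩] (.ndet 0 [⟨1, []⟩, ⟨1, [(2, 1)]⟩] (.ddet 1 [⟨1, [(0, 1)]⟩] (.ndet 2 [⟨1, [(0, 1)]⟩, ⟨1, [(0, 2)]⟩] (.ddet 1 [⟨1, [(0, 1)]⟩] (.leaf 0 [⟨1, [(0, 1)]⟩, ⟨1, [(0, 1)]⟩, ⟨1, [(0, 2)]⟩, ⟨1, [(0, 1)]⟩, ⟨1, [(0, 2)]⟩, ⟨1, [(0, 1)]⟩, ⟨1, []⟩])))))))⟩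
def s11_6 : Sys := ⟨[(0, 16), (1, 0), (3, 0)], [(1, 16), (2, -16)], 3, [s11_6_n0], [192, -64, -96, 0], (.leaf 0 [⟨1, []⟩, ⟨1, []⟩, ⟨1, []⟩, ⟨1, []⟩, ⟨1, []⟩, ⟨1, []⟩])⟩

theorem s11_6_ok : s11_6.ok = true := by decide +kernel

def s13_2_n0 : Node := ⟨[⟨[0, 1], 224⟩, ⟨[0, 1, -1], 200⟩, ⟨[0, 1], 256⟩, ⟨[-1, 1], 296⟩, ⟨[-1], -32⟩], [0, 1], 0, none, (.ndet 1 [⟨1, [(2, 1)]⟩, ⟨1, [(3, 1)]⟩] (.ddet 0 [] (.ndet 2 [⟨1, [(2, 1)]⟩, ⟨1, [(1, 1)]⟩] (.ddet 0 [] (.leaf 0 [⟨1, [(1, 1)]⟩, ⟨1, [(1, 1), (0, 1)]⟩, ⟨1, [(1, 1)]⟩, ⟨1, [(1, 1), (0, 1)]⟩, ⟨1, [(0, 1)]⟩, ⟨1, [(0, 1)]⟩])))))⟩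
def s13_2 : Sys := ⟨[(0, 80), (2, 80), (3, 16)], [(1, -64)], 3, [s13_2_n0], [-80, 448, -16, 0], (.leaf 0 [⟨1, []⟩, ⟨1, []⟩, ⟨1, []⟩, ⟨1, []⟩, ⟨1, []⟩])⟩

theorem s13_2_ok : s13_2.ok = true := by decide +kernel

def s15_7_n0 : Node := ⟨[⟨[0, 0, 1], 0⟩, ⟨[-1, 0, 1], 0⟩, ⟨[0, -1, 1], 64⟩, ⟨[1], -128⟩, ⟨[1, -1], 32⟩, ⟨[-1, 0, 1], 96⟩, ⟨[-2, 0, 1], 128⟩, ⟨[-1, -1, 1], 192⟩, ⟨[-1, 0, 1], -32⟩, ⟨[-2, 0, 1], 96⟩, ⟨[-1, 0, 1], 64⟩, ⟨[-1], 32⟩], [0, 0, 1], 0, none, (.ndet 3 [⟨1, [(11, 1)]⟩, ⟨1, [(6, 1)]⟩, ⟨1, [(7, 1), (6, 1)]⟩] (.ddet 1 [⟨1, [(8, 1)]⟩, ⟨1, [(7, 1)]⟩] (.ndet 1 [⟨1, [(6, 1)]⟩, ⟨1, [(5, 1)]⟩, ⟨1, [(4,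 1)]⟩] (.ddet 1 [⟨1, [(6, 1)]⟩, ⟨1, [(5, 1)]⟩] (.ndet 2 [⟨1, [(6, 1)]⟩, ⟨1, [(6, 1)]⟩, ⟨1, [(5, 1)]⟩] (.ddet 2 [⟨1, [(6, 1)]⟩, ⟨1, [(6, 1)]⟩] (.leaf 0 [⟨1, [(6, 1)]⟩, ⟨1, [(6, 1)]⟩, ⟨1, [(6, 1)]⟩, ⟨1, []⟩, ⟨1, []⟩, ⟨1, [(6, 1)]⟩, ⟨1, [(6, 1)]⟩, ⟨1, [(6, 1)]⟩, ⟨1, [(6, 1)]⟩, ⟨1, [(6, 1)]⟩, ⟨1, [(6, 1)]⟩, ⟨1, []⟩, ⟨1, [(0, 1)]⟩])))))))⟩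
def s15_7 : Sys := ⟨[(0, 0), (1, -64), (2, 0), (3, 64)], [(0, -128), (1, 64), (2, 64)], 3, [s15_7_n0], [-64, -128, 64, 0], (.leaf 0 [⟨1, []⟩, ⟨1, []⟩, ⟨1, []⟩, ⟨1, []⟩, ⟨1, []⟩, ⟨1, []⟩, ⟨1, []⟩, ⟨1, []⟩, ⟨1, []⟩, ⟨1, []⟩, ⟨1, []⟩, ⟨1, []⟩])⟩

theorem s15_7_ok : s15_7.ok = true := by decide +kernel

def s16_1_n0 : Node := ⟨[], [1, 1, 1, 1], 0, none, (.ndet 0 [] (.ddet 0 [] (.leaf 0 [⟨1, []⟩])))⟩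
def s16_1 : Sys := ⟨[(4, 32)], [(0, -16)], 4, [s16_1_n0], [32, -48, 48, -48], (.leaf 0 [])⟩

theorem s16_1_ok : s16_1.ok = true := by decide +kernel

def s18_4_t0 : Tree := .ddet 0 [] (.ndet 1 [⟨1, [(4, 1)]⟩] (.ddet 0 [] (.ndet 0 [⟨2, [(2, 1), (1, 1)]⟩] (.ddet 0 [] (.ndet 0 [⟨1, [(2, 1)]⟩] (.ddet 0 [] (.ndet 1 [⟨1, [(1, 1)]⟩] (.ddet 0 [] (.leaf 0 [⟨1, [(4, 1), (2, 1)]⟩, ⟨1, [(1, 1)]⟩, ⟨2, [(2, 3), (1, 1)]⟩, ⟨1, [(4, 3)]⟩, ⟨2, [(2, 3), (1, 3)]⟩, ⟨1, [(2, 3)]⟩, ⟨1, [(1, 3)]⟩, ⟨1, [(4, 1), (2, 1)]⟩, ⟨1, [(6, 1), (4, 1)]⟩])))))))))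
def s18_4_t1 : Tree := .ndet 1 [⟨1, [(7, 1)]⟩] (.ddet 0 [] (.ndet 0 [⟨1, [(6, 1)]⟩] (.ddet 0 [] (.ndet 0 [⟨1, [(5, 1)]⟩] (.ddet 0 [] (.ndet 0 [⟨1, [(4, 1)]⟩] (.ddet 0 [] (.ndet 1 [⟨2, [(2, 1), (1, 1)]⟩] s18_4_t0))))))))
def s18_4_n0 : Node := ⟨[⟨[-1, 0, 0, 1], 2560⟩, ⟨[0, -1, -1, 1], 1536⟩, ⟨[-1, -2, 0, 1], 3584⟩, ⟨[-2], 2048⟩, ⟨[0, -2, 0, 2], 4096⟩, ⟨[-2, -2, 0, 2], 6144⟩, ⟨[2, -2, 0, 2], 2048⟩, ⟨[-2, -1, -1, 1], 3584⟩], [0, 0, 1], 0, none, s18_4_t1⟩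
def s18_4 : Sys := ⟨[(1, -1024), (4, -1024)], [(2, -1024)], 4, [s18_4_n0], [-2048, -1024, 1024, 3072], (.leaf 0 [⟨1, []⟩, ⟨1, []⟩, ⟨1, []⟩, ⟨1, []⟩, ⟨1, []⟩, ⟨1, []⟩, ⟨1, []⟩, ⟨1, []⟩])⟩

theorem s18_4_ok : s18_4.ok = true := by decide +kernel

def s19_11_n0 : Node := ⟨[⟨[1], 120⟩, ⟨[1, 0, 0, -1], 128⟩, ⟨[1], 64⟩, ⟨[1, 0, -1], 48⟩, ⟨[0, 0, 1], 32⟩, ⟨[0, 0, 1], -8⟩, ⟨[0, -1], 24⟩, ⟨[0, -1, 1], 56⟩, ⟨[1], 88⟩, ⟨[1, 0, -1], 112⟩, ⟨[1], 104⟩, ⟨[2, 0, -1], 176⟩, ⟨[1, 0, -1], 128⟩], [1], 0, none, (.ndet 1 [⟨1, [(8, 1), (0, 1)]⟩, ⟨1, [(11, 1)]⟩] (.ddet 1 [⟨1, [(8, 1), (0, 1)]⟩, ⟨1, [(0, 1)]⟩] (.ndet 2 [⟨1, [(8,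 1)]⟩, ⟨1, [(8, 1)]⟩] (.ddet 1 [⟨1, []⟩, ⟨1, [(6, 1)]⟩] (.ndet 1 [⟨1, [(8, 1)]⟩, ⟨1, [(5, 1)]⟩] (.ddet 2 [⟨1, [(8, 1), (0, 1)]⟩, ⟨1, [(0, 1)]⟩] (.ndet 2 [⟨1, [(8, 1), (0, 1)]⟩, ⟨1, [(8, 1), (0, 2)]⟩] (.ddet 0 [⟨1, [(0, 1)]⟩, ⟨1, []⟩] (.leaf 0 [⟨1, [(8, 1), (0, 1)]⟩, ⟨1, [(8, 1), (0, 1)]⟩, ⟨1, [(8, 1), (0, 1)]⟩, ⟨1, [(0, 1)]⟩, ⟨1, [(8, 1)]⟩, ⟨1, [(8, 1)]⟩, ⟨1, [(0, 1)]⟩, ⟨1, [(8, 1), (0, 1)]⟩, ⟨1, [(8, 1), (0, 1)]⟩, ⟨1, [(0, 1)]⟩, ⟨1, [(8, 1), (0, 1)]⟩, ⟨1, [(8, 1), (0, 2)]⟩, ⟨1, [(0, 1)]⟩, ⟨1, []⟩])))))))))⟩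
def s19_11 : Sys := ⟨[(0, 64), (1, 16), (4, 48)], [(0, -16), (1, 48), (3, 0)], 4, [s19_11_n0], [192, -64, 48, -32], (.leaf 0 [⟨1, []⟩, ⟨1, []⟩, ⟨1, []⟩, ⟨1, []⟩, ⟨1, []⟩, ⟨1, []⟩, ⟨1, []⟩, ⟨1, []⟩, ⟨1, []⟩, ⟨1, []⟩, ⟨1, []⟩, ⟨1, []⟩, ⟨1, []⟩])⟩

theorem s19_11_ok : s19_11.ok = true := by decide +kernel

def s20_2_n0 : Node := ⟨[⟨[0, -1, 0, 1], 20⟩, ⟨[1, 0, -1], 44⟩, ⟨[1, 0, 0, -1], 52⟩, ⟨[1, 1, 0, -1], 32⟩], [1], 0, none, (.ndet 1 [⟨1, [(3, 1)]⟩] (.ddet 0 [] (.ndet 0 [⟨1, [(2, 1)]⟩] (.ddet 0 [] (.leaf 0 [⟨1, [(0, 1)]⟩, ⟨1, [(1, 1)]⟩, ⟨1, [(3, 1), (1, 2)]⟩, ⟨1, [(3, 1), (1, 1)]⟩, ⟨1, [(1, 1)]⟩])))))⟩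
def s20_2 : Sys := ⟨[(2, 16), (4, 16)], [(1, 16)], 4, [s20_2_n0], [288, -160, 128, -48], (.leaf 0 [⟨1, []⟩, ⟨1, []⟩, ⟨1, []⟩, ⟨1, []⟩])⟩

theorem s20_2_ok : s20_2.ok = true := by decide +kernel

def s20_3_n0 : Node := ⟨[⟨[0, -1, 0, 1], 24⟩, ⟨[1], -16⟩, ⟨[1, 0, -1], 32⟩, ⟨[1, 0, 0, -1], 120⟩, ⟨[1, 1, 0, -1], 8⟩], [1], 0, none, (.ndet 1 [⟨1, [(4, 1)]⟩] (.ddet 1 [⟨1, [(4, 1), (0, 1)]⟩] (.ndet 0 [⟨1, [(2, 1)]⟩] (.ddet 0 [⟨1, [(1, 1)]⟩] (.leaf 0 [⟨1, [(0, 1)]⟩, ⟨1, [(4, 1), (0, 1)]⟩, ⟨1, []⟩, ⟨1, [(4, 1), (1, 1)]⟩, ⟨1, [(4, 1)]⟩, ⟨1, []⟩])))))⟩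
def s20_3 : Sys := ⟨[(2, 48), (4, 48)], [(0, -48), (1, 80)], 4, [s20_3_n0], [96, -96, 32, -48], (.leaf 0 [⟨1, []⟩, ⟨1, []⟩, ⟨1, []⟩, ⟨1, []⟩, ⟨1, []⟩])⟩

theorem s20_3_ok : s20_3.ok = true := by decide +kernel

def s22_15_n0 : Node := ⟨[⟨[1, -1], 432⟩, ⟨[1, 0, 0, -1], 112⟩, ⟨[1], 200⟩, ⟨[1, -1], 424⟩, ⟨[1, 0, -1], 224⟩, ⟨[1], 208⟩, ⟨[1, 0, -1], 264⟩, ⟨[1], 216⟩, ⟨[0, -1], 248⟩, ⟨[1], 224⟩, ⟨[2], 400⟩, ⟨[1], 184⟩, ⟨[1], 248⟩], [1], 0, none, (.ndet 0 [⟨1, [(4, 1), (0, 1)]⟩, ⟨1, [(11, 1)]⟩] (.ddet 1 [⟨1, [(0, 1)]⟩, ⟨1, [(4, 1), (0, 1)]⟩, ⟨1, [(6, 1)]⟩] (.ndet 1 [⟨1, [(0, 1)]⟩, ⟨1, [(6, 1)]⟩] (.ddet 2 [⟨1,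 [(0, 1)]⟩, ⟨1, [(0, 1)]⟩, ⟨1, [(4, 1), (0, 1)]⟩] (.ndet 0 [⟨1, []⟩, ⟨1, [(4, 1)]⟩] (.ddet 3 [⟨1, [(0, 1)]⟩, ⟨1, [(0, 1)]⟩, ⟨1, [(0, 1)]⟩] (.ndet 2 [⟨1, [(0, 2)]⟩, ⟨1, [(0, 1)]⟩] (.ddet 2 [⟨1, []⟩, ⟨1, [(0, 1)]⟩, ⟨1, []⟩] (.leaf 0 [⟨1, [(0, 2)]⟩, ⟨1, [(0, 1)]⟩, ⟨1, [(0, 1)]⟩, ⟨1, [(0, 2)]⟩, ⟨1, [(0, 1)]⟩, ⟨1, [(0, 1)]⟩, ⟨1, [(0, 1)]⟩, ⟨1, [(0, 1)]⟩, ⟨1, [(0, 1)]⟩, ⟨1, [(0, 1)]⟩, ⟨1, [(0, 2)]⟩, ⟨1, [(0, 1)]⟩, ⟨1, [(0, 1)]⟩, ⟨1, []⟩])))))))))⟩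
def s22_15 : Sys := ⟨[(1, 0), (2, 0), (4, 64)], [(0, -16), (1, 32), (2, 16), (3, 16)], 4, [s22_15_n0], [448, -416, -16, 288], (.leaf 0 [⟨1, []⟩, ⟨1, []⟩, ⟨1, []⟩, ⟨1, []⟩, ⟨1, []⟩, ⟨1, []⟩, ⟨1, []⟩, ⟨1, []⟩, ⟨1, []⟩, ⟨1, []⟩, ⟨1, []⟩, ⟨1, []⟩, ⟨1, []⟩])⟩

theorem s22_15_ok : s22_15.ok = true := by decide +kernel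

def s24_7_n0 : Node := ⟨[⟨[0, 0, 1, -1], 56⟩, ⟨[-1], 64⟩, ⟨[0, -1], 16⟩, ⟨[0, -1, 1], 72⟩, ⟨[0, 0, 1], 32⟩, ⟨[-1, 0, 1], 96⟩, ⟨[-1, 1], 64⟩, ⟨[0, 0, 1], 16⟩], [0, 0, 1], 0, none, (.ndet 0 [⟨1, [(7, 1)]⟩] (.ddet 0 [⟨1, [(5, 1), (1, 1)]⟩, ⟨1, [(5, 1)]⟩] (.ndet 1 [⟨1, [(4, 1)]⟩] (.ddet 1 [⟨1, [(3, 1)]⟩, ⟨1, [(4, 1), (1, 1)]⟩] (.ndet 1 [⟨1, [(1, 1)]⟩] (.ddet 2 [⟨1, [(3, 1)]⟩, ⟨1, [(3, 1)]⟩] (.leaf 0 [⟨1, [(4, 1), (1, 1)]⟩, ⟨1, [(4, 1)]⟩, ⟨1, []⟩, ⟨1, [(3, 1)]⟩, ⟨1, [(3, 1)]⟩, ⟨1, [(4, 1), (3, 1)]⟩, ⟨1, [(4, 1)]⟩, ⟨1, [(3, 1)]⟩, ⟨1, []⟩])))))))⟩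
def s24_7 : Sys := ⟨[(3, 64), (4, 32)], [(0, 48), (1, 48), (2, 48)], 4, [s24_7_n0], [-128, -32, 80, -64], (.leaf 0 [⟨1, []⟩, ⟨1, []⟩, ⟨1, []⟩, ⟨1, []⟩, ⟨1, []⟩, ⟨1, []⟩, ⟨1, []⟩, ⟨1, []⟩])⟩

theorem s24_7_ok : s24_7.ok = true := by decide +kernel

def s25_5_t0 : Tree := .nbr (.cons (.prune [(13, 1), (1, 1)]) (.cons (.ddet 0 [⟨1, [(6, 1), (2, 1)]⟩] (.ndet 2 [⟨1, [(13, 1)]⟩, ⟨1, [(13, 1), (6, 1), (2, 1)]⟩] (.ddet 0 [⟨1, [(0, 1)]⟩] (.leaf 0 [⟨1, [(13, 1), (6, 1), (2, 1)]⟩, ⟨1, [(13, 1), (0, 1)]⟩, ⟨1, []⟩, ⟨1, [(6, 1), (2, 1)]⟩, ⟨1, [(13, 2), (6, 1), (2, 1)]⟩, ⟨1, [(0, 1)]⟩, ⟨1, [(0, 1)]⟩, ⟨1, [(13, 1), (0,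 1)]⟩, ⟨1, [(13, 2), (0, 1)]⟩, ⟨1, [(13, 1)]⟩, ⟨1, [(13, 1)]⟩, ⟨1, [(13, 2)]⟩, ⟨1, [(6, 1), (2, 1)]⟩, ⟨1, [(13, 1), (6, 1), (2, 1)]⟩, ⟨1, [(0, 2)]⟩, ⟨1, [(0, 1)]⟩, ⟨1, [(0, 1)]⟩, ⟨1, []⟩, ⟨1, []⟩, ⟨1, []⟩])))) (.cons (.ddet 0 [⟨1, [(13, 1), (0, 1)]⟩] (.ndet 2 [⟨1, [(13, 1)]⟩, ⟨1, [(13, 2), (0, 1)]⟩] (.ddet 0 [⟨1, [(20, 1)]⟩] (.split [1, -1] (0) (.leaf 0 [⟨1, [(14, 2), (1, 1)]⟩, ⟨1, [(14, 1), (0, 1)]⟩, ⟨1, [(0, 1)]⟩, ⟨1, [(14, 1)]⟩, ⟨1, [(14, 3), (1, 2)]⟩, ⟨1, [(0, 2)]⟩, ⟨1, [(0, 1)]⟩, ⟨1, [(14, 1), (0, 1)]⟩, ⟨1, [(14, 2)]⟩, ⟨1, [(14, 1)]⟩, ⟨1, [(14, 1), (1, 1)]⟩, ⟨1, [(14, 2), (1, 1)]⟩, ⟨1, [(14, 1), (1,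 1)]⟩, ⟨1, [(14, 2), (1, 2)]⟩, ⟨1, [(0, 1)]⟩, ⟨1, [(0, 1)]⟩, ⟨1, []⟩, ⟨1, []⟩, ⟨1, [(1, 1)]⟩, ⟨1, []⟩]) (.leaf 1 [⟨1, [(14, 2), (0, 2)]⟩, ⟨1, [(14, 1)]⟩, ⟨1, [(0, 1)]⟩, ⟨1, []⟩, ⟨1, [(14, 2), (0, 1)]⟩, ⟨1, [(14, 1), (0, 1)]⟩, ⟨1, [(14, 2), (0, 2)]⟩, ⟨1, [(14, 3), (0, 2)]⟩, ⟨1, [(0, 1)]⟩, ⟨1, [(14, 1), (0, 2)]⟩, ⟨1, [(14, 2), (0, 2)]⟩, ⟨1, []⟩, ⟨1, [(14, 1), (0, 1)]⟩, ⟨1, [(14, 2), (0, 1)]⟩, ⟨1, [(0, 1)]⟩, ⟨1, [(14, 1), (0, 1)]⟩, ⟨1, []⟩, ⟨1, [(0, 1)]⟩, ⟨1, [(0, 1)]⟩]))))) .nil)))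
def s25_5_t1 : Tree := .nbr (.cons (.prune [(15, 1), (1, 1)]) (.cons (.ddet 0 [⟨1, [(2, 1)]⟩] (.ndet 2 [⟨1, [(15, 1)]⟩, ⟨1, [(17, 1), (10, 1), (4, 1)]⟩] (.ddet 0 [⟨1, [(0, 1)]⟩] (.leaf 0 [⟨1, [(17, 1), (10, 1), (4, 1)]⟩, ⟨1, [(15, 1), (0, 1)]⟩, ⟨1, []⟩, ⟨1, [(2, 1)]⟩, ⟨1, [(17, 2), (8, 1), (4, 1)]⟩, ⟨1, [(0, 1)]⟩, ⟨1, [(0, 1)]⟩, ⟨1, [(15, 1), (0, 1)]⟩, ⟨1, [(15, 2), (0, 1)]⟩, ⟨1, [(15, 1)]⟩, ⟨1, [(15, 1)]⟩, ⟨1, [(15, 2)]⟩, ⟨1, [(10, 1), (4, 1)]⟩, ⟨1, [(17, 1), (8, 1), (4, 1)]⟩, ⟨1, [(5, 1), (0, 2)]⟩, ⟨1, [(5, 1), (0, 1)]⟩, ⟨1, [(5, 1), (0, 1)]⟩, ⟨1, [(5, 1)]⟩, ⟨1, [(5, 1)]⟩, ⟨1, []⟩])))) (.cons (.ddet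 0 [⟨1, [(17, 1), (0, 1)]⟩] (.ndet 2 [⟨1, [(15, 1)]⟩, ⟨1, [(17, 1), (15, 1), (0, 1)]⟩] (.ddet 0 [⟨1, [(22, 1)]⟩] (.split [1, -1] (0) (.leaf 0 [⟨1, [(18, 1), (16, 1), (1, 1)]⟩, ⟨1, [(16, 1), (0, 1)]⟩, ⟨1, [(0, 1)]⟩, ⟨1, [(18, 1)]⟩, ⟨1, [(18, 1), (16, 2), (1, 2)]⟩, ⟨1, [(0, 2)]⟩, ⟨1, [(0, 1)]⟩, ⟨1, [(16, 1), (0, 1)]⟩, ⟨1, [(16, 2)]⟩, ⟨1, [(16, 1)]⟩, ⟨1, [(16, 1), (1, 1)]⟩, ⟨1, [(16, 2), (1, 1)]⟩, ⟨1, [(16, 1), (1, 1)]⟩, ⟨1, [(16, 2), (1, 2)]⟩, ⟨1, [(6, 1), (0, 1)]⟩, ⟨1, [(6, 1), (0, 1)]⟩, ⟨1, [(6, 1)]⟩, ⟨1, [(6, 1)]⟩, ⟨1, [(6, 1), (1, 1)]⟩, ⟨1, []⟩]) (.leaf 1 [⟨1, [(18, 1), (16, 1), (0, 2)]⟩, ⟨1, [(16, 1)]⟩,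 ⟨1, [(0, 1)]⟩, ⟨1, [(20, 1), (0, 1)]⟩, ⟨1, [(18, 1), (16, 1), (0, 1)]⟩, ⟨1, [(18, 1), (0, 1)]⟩, ⟨1, [(18, 1), (16, 1), (0, 2)]⟩, ⟨1, [(18, 1), (16, 2), (0, 2)]⟩, ⟨1, [(20, 1), (0, 2)]⟩, ⟨1, [(18, 1), (0, 2)]⟩, ⟨1, [(18, 1), (16, 1), (0, 2)]⟩, ⟨1, []⟩, ⟨1, [(16, 1), (0, 1)]⟩, ⟨1, [(16, 2), (0, 1)]⟩, ⟨1, [(0, 1)]⟩, ⟨1, [(16, 1), (0, 1)]⟩, ⟨1, [(6, 1)]⟩, ⟨1, [(6, 1), (0, 1)]⟩, ⟨1, [(0, 1)]⟩]))))) .nil)))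
def s25_5_t2 : Tree := .nbr (.cons (.prune [(8, 1), (2, 1), (1, 1)]) (.cons (.ddet 1 [⟨1, [(13, 1)]⟩] s25_5_t1) (.cons (.ddet 1 [⟨1, [(15, 1), (8, 1), (2, 1), (0, 1)]⟩] (.ndet 1 [⟨1, [(15, 1), (8, 1), (2, 1), (0, 1)]⟩, ⟨1, [(15, 1), (0, 1)]⟩] (.ddet 0 [⟨1, [(16, 1), (8, 1), (2, 1)]⟩] (.ndet 2 [⟨1, [(15, 1), (8, 1), (2, 1), (0, 1)]⟩, ⟨1, [(15, 1), (8, 1), (2, 1)]⟩] (.ddet 0 [⟨1, [(15, 1)]⟩] (.leaf 0 [⟨1, [(15, 1), (8, 1), (2, 1)]⟩, ⟨1, [(15, 2), (8, 1), (2, 1), (0, 1)]⟩, ⟨1, []⟩, ⟨1, [(16, 1), (8, 1), (2, 1)]⟩, ⟨1, [(15, 2), (8, 2), (2, 2), (0, 1)]⟩, ⟨1, [(15, 1)]⟩, ⟨1, [(15, 1)]⟩, ⟨1, [(15, 2), (8, 1),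 (2, 1), (0, 1)]⟩, ⟨1, [(15, 3), (8, 2), (2, 2), (0, 2)]⟩, ⟨1, [(15, 1), (8, 1), (2, 1), (0, 1)]⟩, ⟨1, [(15, 1), (8, 1), (2, 1), (0, 1)]⟩, ⟨1, [(15, 2), (8, 2), (2, 2), (0, 2)]⟩, ⟨1, [(8, 1), (2, 1), (0, 1)]⟩, ⟨1, [(15, 1), (8, 2), (2, 2), (0, 2)]⟩, ⟨1, [(15, 2), (8, 1), (2, 1), (0, 2)]⟩, ⟨1, [(15, 1), (8, 1), (2, 1), (0, 2)]⟩, ⟨1, [(15, 1), (8, 1), (2, 1), (0, 2)]⟩, ⟨1, [(8, 1), (2, 1), (0, 2)]⟩, ⟨1, [(8, 1), (2, 1), (0, 2)]⟩, ⟨1, []⟩])))))) .nil)))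
def s25_5_t3 : Tree := .dbr (.cons (.ndet 2 [⟨1, [(15, 1)]⟩, ⟨1, [(15, 1), (0, 1)]⟩] (.ddet 0 [⟨1, [(15, 1), (3, 1)]⟩] (.leaf 0 [⟨1, [(15, 1), (0, 1)]⟩, ⟨1, [(15, 2), (3, 1)]⟩, ⟨1, []⟩, ⟨1, [(0, 1)]⟩, ⟨1, [(15, 2), (0, 1)]⟩, ⟨1, [(15, 1), (3, 1)]⟩, ⟨1, [(15, 1), (3, 1)]⟩, ⟨1, [(15, 2), (3, 1)]⟩, ⟨1, [(15, 3), (3, 1)]⟩, ⟨1, [(15, 1)]⟩, ⟨1, [(15, 1)]⟩, ⟨1, [(15, 2)]⟩, ⟨2, [(6, 1), (1, 1), (0, 1)]⟩, ⟨2, [(15, 2), (6, 1), (1, 1), (0, 1)]⟩, ⟨1, [(15, 2), (8, 1), (3, 2)]⟩, ⟨1, [(15, 1), (8, 1), (3, 1)]⟩, ⟨1, [(15, 1), (8, 1), (3, 1)]⟩, ⟨1, [(8, 1)]⟩, ⟨1, [(8, 1)]⟩, ⟨1, []⟩]))) (.cons (.ndet 2 [⟨1, [(15, 1)]⟩,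 ⟨1, [(24, 1)]⟩] (.ddet 0 [⟨1, [(15, 1), (3, 1)]⟩] (.split [1, 0, 0, -1] (0) (.leaf 0 [⟨1, [(0, 1)]⟩, ⟨1, [(16, 2), (4, 1)]⟩, ⟨1, [(1, 1)]⟩, ⟨1, []⟩, ⟨1, [(0, 2)]⟩, ⟨1, [(16, 1), (4, 1), (1, 1)]⟩, ⟨1, [(16, 1), (4, 1)]⟩, ⟨1, [(16, 2), (4, 1)]⟩, ⟨1, [(22, 1), (16, 2)]⟩, ⟨1, [(16, 1)]⟩, ⟨1, [(0, 1)]⟩, ⟨1, [(16, 1), (0, 1)]⟩, ⟨1, [(3, 1)]⟩, ⟨1, [(3, 1), (0, 1)]⟩, ⟨1, [(16, 2), (4, 1)]⟩, ⟨1, [(16, 1), (1, 1)]⟩, ⟨1, [(16, 1)]⟩, ⟨2, [(7, 1), (2, 1), (1, 1)]⟩, ⟨1, [(3, 1)]⟩, ⟨1, []⟩]) (.leaf 3 [⟨1, [(22, 1), (16, 2), (0, 2)]⟩, ⟨1, [(16, 1), (0, 2)]⟩, ⟨1, [(0, 1)]⟩, ⟨1, []⟩, ⟨1, [(22, 1), (16, 1), (0, 2)]⟩, ⟨1,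 [(0, 1)]⟩, ⟨1, [(16, 1), (0, 1)]⟩, ⟨1, [(16, 1)]⟩, ⟨1, [(3, 1), (0, 1)]⟩, ⟨1, [(3, 1)]⟩, ⟨1, [(25, 1), (3, 1)]⟩, ⟨1, [(22, 1), (16, 1), (0, 2)]⟩, ⟨1, [(0, 2)]⟩, ⟨1, [(16, 1), (0, 2)]⟩, ⟨1, [(16, 1), (0, 1)]⟩, ⟨1, [(16, 1)]⟩, ⟨1, [(16, 2)]⟩, ⟨1, [(3, 1), (0, 2)]⟩, ⟨1, [(3, 1), (0, 1)]⟩, ⟨1, [(3, 1)]⟩, ⟨1, [(0, 1)]⟩])))) .nil))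
def s25_5_t4 : Tree := .dbr (.cons (.ndet 2 [⟨1, [(15, 1)]⟩, ⟨1, [(15, 1), (0, 1)]⟩] (.ddet 0 [⟨1, [(17, 1)]⟩] (.leaf 0 [⟨1, [(15, 1), (0, 1)]⟩, ⟨1, [(17, 1), (15, 1)]⟩, ⟨1, []⟩, ⟨1, [(0, 1)]⟩, ⟨1, [(15, 2), (0, 1)]⟩, ⟨1, [(17, 1)]⟩, ⟨1, [(17, 1)]⟩, ⟨1, [(17, 1), (15, 1)]⟩, ⟨1, [(17, 1), (15, 2)]⟩, ⟨1, [(15, 1)]⟩, ⟨1, [(15, 1)]⟩, ⟨1, [(15, 2)]⟩, ⟨2, [(6, 1), (1, 1), (0, 1)]⟩, ⟨2, [(15, 2), (6, 1), (1, 1), (0, 1)]⟩, ⟨1, [(17, 1), (15, 1), (8, 1), (3, 1)]⟩, ⟨1, [(15, 1), (8, 1), (3, 1)]⟩, ⟨1, [(15, 1), (8, 1), (3, 1)]⟩, ⟨1, [(8, 1), (1, 1)]⟩, ⟨1, [(8, 1), (1, 1)]⟩, ⟨1, []⟩]))) (.cons (.ndet 2 [⟨1, [(15,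 1)]⟩, ⟨1, [(24, 1)]⟩] (.ddet 0 [⟨1, [(17, 1)]⟩] (.split [1, 0, 0, -1] (0) (.leaf 0 [⟨1, [(0, 1)]⟩, ⟨1, [(18, 1), (16, 1)]⟩, ⟨1, [(1, 1)]⟩, ⟨1, []⟩, ⟨1, [(0, 2)]⟩, ⟨1, [(18, 1), (1, 1)]⟩, ⟨1, [(18, 1)]⟩, ⟨1, [(18, 1), (16, 1)]⟩, ⟨1, [(22, 1), (17, 1), (16, 1)]⟩, ⟨1, [(16, 1)]⟩, ⟨1, [(0, 1)]⟩, ⟨1, [(16, 1), (0, 1)]⟩, ⟨1, [(3, 1)]⟩, ⟨1, [(3, 1), (0, 1)]⟩, ⟨1, [(18, 1), (16, 1)]⟩, ⟨1, [(16, 1), (1, 1)]⟩, ⟨1, [(16, 1)]⟩, ⟨2, [(7, 1), (2, 1), (1, 1)]⟩, ⟨1, [(3, 1)]⟩, ⟨1, []⟩]) (.leaf 3 [⟨1, [(22, 1), (17, 1), (16, 1), (0, 2)]⟩, ⟨1, [(16, 1), (0, 2)]⟩, ⟨1, [(0, 1)]⟩, ⟨1, []⟩, ⟨1, [(22, 1), (17, 1), (0, 2)]⟩,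 ⟨1, [(0, 1)]⟩, ⟨1, [(16, 1), (0, 1)]⟩, ⟨1, [(16, 1)]⟩, ⟨1, [(3, 1), (0, 1)]⟩, ⟨1, [(3, 1)]⟩, ⟨1, [(25, 1), (3, 1)]⟩, ⟨1, [(22, 1), (17, 1), (0, 2)]⟩, ⟨1, [(0, 2)]⟩, ⟨1, [(16, 1), (0, 2)]⟩, ⟨1, [(16, 1), (0, 1)]⟩, ⟨1, [(16, 1)]⟩, ⟨1, [(16, 2)]⟩, ⟨1, [(3, 1), (0, 2)]⟩, ⟨1, [(3, 1), (0, 1)]⟩, ⟨1, [(3, 1)]⟩, ⟨1, [(0, 1)]⟩])))) .nil))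
def s25_5_t5 : Tree := .nbr (.cons (.ddet 1 [⟨1, [(14, 1)]⟩] (.ndet 1 [⟨1, [(14, 1)]⟩, ⟨1, [(14, 1), (1, 1)]⟩] (.ddet 1 [⟨1, [(5, 1), (1, 1), (0, 1)]⟩] (.ndet 2 [⟨1, [(14, 1)]⟩, ⟨1, [(23, 1)]⟩] (.ddet 0 [⟨1, [(14, 1)]⟩] (.split [1, 0, 0, -1] (0) (.leaf 0 [⟨1, [(0, 1)]⟩, ⟨1, [(15, 2)]⟩, ⟨1, [(6, 1), (2, 1), (1, 1)]⟩, ⟨1, []⟩, ⟨1, [(0, 2)]⟩, ⟨1, [(15, 1), (6, 1), (2, 1), (1, 1)]⟩, ⟨1, [(15, 1)]⟩, ⟨1, [(15, 2)]⟩, ⟨1, [(15, 2), (0, 1)]⟩, ⟨1, [(15, 1)]⟩, ⟨1, [(0, 1)]⟩, ⟨1, [(15, 1), (0, 1)]⟩, ⟨1, []⟩, ⟨1, [(0, 1)]⟩, ⟨1, [(15, 2)]⟩, ⟨1, [(15, 1), (6, 1), (2, 1), (1, 1)]⟩, ⟨1, [(15, 1)]⟩, ⟨1, [(6, 1), (2, 1),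 (1, 1)]⟩, ⟨1, []⟩, ⟨1, []⟩]) (.leaf 3 [⟨1, [(15, 2), (0, 1)]⟩, ⟨1, [(15, 1), (0, 2)]⟩, ⟨1, [(0, 1)]⟩, ⟨1, []⟩, ⟨1, [(15, 1), (0, 1)]⟩, ⟨1, [(0, 1)]⟩, ⟨1, [(15, 1), (0, 1)]⟩, ⟨1, [(15, 1)]⟩, ⟨1, [(0, 1)]⟩, ⟨1, []⟩, ⟨1, [(24, 1)]⟩, ⟨1, [(15, 1), (0, 1)]⟩, ⟨1, [(0, 2)]⟩, ⟨1, [(15, 1), (0, 2)]⟩, ⟨1, [(15, 1), (0, 1)]⟩, ⟨1, [(15, 1)]⟩, ⟨1, [(15, 2)]⟩, ⟨1, [(0, 2)]⟩, ⟨1, [(0, 1)]⟩, ⟨1, []⟩, ⟨1, [(0, 1)]⟩]))))))) (.cons (.ddet 1 [⟨1, [(14, 1)]⟩] (.ndet 1 [⟨1, [(14, 1)]⟩, ⟨1, [(14, 1), (2, 1)]⟩] s25_5_t3)) (.cons (.ddet 1 [⟨1, [(14, 1)]⟩] (.ndet 1 [⟨1, [(14, 1)]⟩, ⟨1, [(14, 1), (2, 1)]⟩] s25_5_t4)) .nil)))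
def s25_5_t6 : Tree := .nbr (.cons (.prune [(16, 1), (1, 1)]) (.cons (.dbr (.cons (.ndet 2 [⟨1, [(17, 1)]⟩, ⟨1, [(17, 1), (0, 1)]⟩] (.ddet 0 [⟨1, [(1, 1)]⟩] (.leaf 0 [⟨1, [(17, 1), (0, 1)]⟩, ⟨1, [(17, 1), (1, 1)]⟩, ⟨1, []⟩, ⟨1, [(0, 1)]⟩, ⟨1, [(17, 2), (0, 1)]⟩, ⟨1, [(1, 1)]⟩, ⟨1, [(1, 1)]⟩, ⟨1, [(17, 1), (1, 1)]⟩, ⟨1, [(17, 2), (1, 1)]⟩, ⟨1, [(17, 1)]⟩, ⟨1, [(17, 1)]⟩, ⟨1, [(17, 2)]⟩, ⟨1, [(5, 1)]⟩, ⟨1, [(17, 1), (5, 1)]⟩, ⟨1, [(7, 1), (1, 2)]⟩, ⟨1, [(7, 1), (1, 1)]⟩, ⟨1, [(7, 1), (1, 1)]⟩, ⟨1, [(7, 1)]⟩, ⟨1, [(7, 1)]⟩, ⟨1, []⟩]))) (.cons (.ndet 2 [⟨1, [(17, 1)]⟩, ⟨1, [(23, 1), (5, 2)]⟩] (.ddet 0 [⟨2,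 [(23, 1), (17, 1), (0, 1)]⟩] (.leaf 0 [⟨1, [(23, 1), (5, 2)]⟩, ⟨2, [(23, 1), (17, 3), (0, 1)]⟩, ⟨1, [(0, 1)]⟩, ⟨1, []⟩, ⟨1, [(23, 2), (5, 4)]⟩, ⟨2, [(23, 1), (17, 1), (0, 3)]⟩, ⟨2, [(23, 1), (17, 1), (0, 1)]⟩, ⟨2, [(23, 1), (17, 3), (0, 1)]⟩, ⟨1, [(23, 1), (17, 2), (5, 1)]⟩, ⟨1, [(17, 1)]⟩, ⟨1, [(23, 1), (5, 2)]⟩, ⟨1, [(23, 1), (17, 1), (5, 2)]⟩, ⟨1, [(5, 1)]⟩, ⟨1, [(23, 1), (5, 3)]⟩, ⟨2, [(23, 1), (17, 3), (0, 1)]⟩, ⟨1, [(17, 1), (0, 1)]⟩, ⟨1, [(17, 1)]⟩, ⟨1, [(5, 1), (0, 1)]⟩, ⟨1, [(5, 1)]⟩, ⟨1, []⟩]))) .nil))) (.cons (.ddet 0 [⟨1, [(22, 1), (16, 1), (0, 2)]⟩] (.ndet 2 [⟨1, [(16, 1)]⟩, ⟨1, [(22, 1),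 (16, 2), (0, 2)]⟩] (.ddet 0 [⟨1, [(23, 1)]⟩] (.split [1, -1] (0) (.leaf 0 [⟨1, [(23, 1), (17, 2), (1, 2)]⟩, ⟨1, [(17, 1), (0, 1)]⟩, ⟨1, [(0, 1)]⟩, ⟨1, [(23, 1), (17, 1), (1, 1)]⟩, ⟨1, [(23, 1), (17, 3), (1, 3)]⟩, ⟨1, [(0, 2)]⟩, ⟨1, [(0, 1)]⟩, ⟨1, [(17, 1), (0, 1)]⟩, ⟨1, [(17, 2)]⟩, ⟨1, [(17, 1)]⟩, ⟨1, [(17, 1), (1, 1)]⟩, ⟨1, [(17, 2), (1, 1)]⟩, ⟨1, [(17, 1), (1, 1)]⟩, ⟨1, [(17, 2), (1, 2)]⟩, ⟨1, [(7, 1), (0, 1)]⟩, ⟨1, [(7, 1), (0, 1)]⟩, ⟨1, [(7, 1)]⟩, ⟨1, [(7, 1)]⟩, ⟨1, [(7, 1), (1, 1)]⟩, ⟨1, []⟩]) (.leaf 1 [⟨1, [(23, 1), (17, 2), (0, 3)]⟩, ⟨1, [(17, 1)]⟩, ⟨1, [(0, 1)]⟩, ⟨1, [(23, 1), (0, 1)]⟩, ⟨1, [(23,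 1), (17, 2), (0, 2)]⟩, ⟨1, [(23, 1), (17, 1), (0, 2)]⟩, ⟨1, [(23, 1), (17, 2), (0, 3)]⟩, ⟨1, [(23, 1), (17, 3), (0, 3)]⟩, ⟨1, [(23, 1), (0, 2)]⟩, ⟨1, [(23, 1), (17, 1), (0, 3)]⟩, ⟨1, [(23, 1), (17, 2), (0, 3)]⟩, ⟨1, []⟩, ⟨1, [(17, 1), (0, 1)]⟩, ⟨1, [(17, 2), (0, 1)]⟩, ⟨1, [(0, 1)]⟩, ⟨1, [(17, 1), (0, 1)]⟩, ⟨1, [(7, 1)]⟩, ⟨1, [(7, 1), (0, 1)]⟩, ⟨1, [(0, 1)]⟩]))))) .nil)))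
def s25_5_t7 : Tree := .nbr (.cons (.prune [(2, 1), (1, 1)]) (.cons (.ddet 1 [⟨1, [(14, 1)]⟩] s25_5_t6) (.cons (.ddet 1 [⟨1, [(14, 1)]⟩] (.ndet 1 [⟨1, [(14, 1)]⟩, ⟨1, [(16, 1), (0, 1)]⟩] (.dbr (.cons (.ndet 2 [⟨1, [(15, 1)]⟩, ⟨1, [(15, 1), (0, 1)]⟩] (.ddet 0 [⟨1, [(17, 1)]⟩] (.leaf 0 [⟨1, [(15, 1), (0, 1)]⟩, ⟨1, [(17, 1), (15, 1)]⟩, ⟨1, []⟩, ⟨1, [(0, 1)]⟩, ⟨1, [(15, 2), (0, 1)]⟩, ⟨1, [(17, 1)]⟩, ⟨1, [(17, 1)]⟩, ⟨1, [(17, 1), (15, 1)]⟩, ⟨1, [(17, 1), (15, 2)]⟩, ⟨1, [(15, 1)]⟩, ⟨1, [(15, 1)]⟩, ⟨1, [(15, 2)]⟩, ⟨1, [(3, 1), (1, 1)]⟩, ⟨1, [(15, 1), (3, 1), (1, 1)]⟩, ⟨1, [(17, 2), (10, 1), (1, 2)]⟩, ⟨1, [(17,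 1), (10, 1), (1, 2)]⟩, ⟨1, [(17, 1), (10, 1), (1, 2)]⟩, ⟨1, [(10, 1), (1, 2)]⟩, ⟨1, [(10, 1), (1, 2)]⟩, ⟨1, []⟩]))) (.cons (.ndet 2 [⟨1, [(15, 1)]⟩, ⟨1, [(21, 1), (3, 2)]⟩] (.ddet 0 [⟨1, [(17, 1)]⟩] (.leaf 0 [⟨1, [(21, 1), (3, 2)]⟩, ⟨1, [(17, 1), (15, 1)]⟩, ⟨1, [(0, 1)]⟩, ⟨1, []⟩, ⟨1, [(21, 2), (3, 4)]⟩, ⟨1, [(17, 1), (0, 1)]⟩, ⟨1, [(17, 1)]⟩, ⟨1, [(17, 1), (15, 1)]⟩, ⟨1, [(21, 1), (17, 1), (15, 1), (3, 2)]⟩, ⟨1, [(15, 1)]⟩, ⟨1, [(21, 1), (3, 2)]⟩, ⟨1, [(21, 1), (15, 1), (3, 2)]⟩, ⟨1, [(3, 1), (1, 1)]⟩, ⟨1, [(21, 1), (3, 3), (1, 1)]⟩, ⟨1, [(17, 1), (15, 1)]⟩, ⟨1, [(15, 1), (0, 1)]⟩, ⟨1, [(15, 1)]⟩, ⟨1,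 [(3, 1), (1, 1), (0, 1)]⟩, ⟨1, [(3, 1), (1, 1)]⟩, ⟨1, []⟩]))) .nil))))) .nil)))
def s25_5_t8 : Tree := .nbr (.cons (.ddet 1 [⟨1, [(4, 1), (0, 1)]⟩] (.ndet 1 [⟨1, [(4, 1), (0, 1)]⟩, ⟨1, [(4, 1), (1, 1), (0, 1)]⟩] (.ddet 1 [⟨1, [(11, 1)]⟩] s25_5_t0))) (.cons (.ddet 1 [⟨1, [(6, 1), (0, 1)]⟩] s25_5_t2) (.cons (.dbr (.cons s25_5_t5 (.cons s25_5_t7 .nil))) .nil)))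
def s25_5_n0 : Node := ⟨[⟨[1, 0, 0, -1], -200⟩, ⟨[1, 0, -1], -200⟩, ⟨[1, -1], -200⟩, ⟨[1, -1, 0, -1], -340⟩, ⟨[1, 1, 0, -1], -300⟩, ⟨[1, -1, -1], -1280⟩, ⟨[0, 0, -1], -1320⟩, ⟨[1, 0, -1], 179000⟩, ⟨[1, 1, -1], 179700⟩, ⟨[1], 179700⟩, ⟨[0, 1], -320⟩, ⟨[1, 1], 179700⟩, ⟨[1, 0, 1], 1740⟩, ⟨[1, 1, 1], 1720⟩, ⟨[0, 1, -1, 1], 880⟩, ⟨[1, 0, 0, 1], 1940⟩, ⟨[0, 1, 0, 1], 1660⟩, ⟨[1, 0, 1, 1], 2640⟩, ⟨[0, 1, 1, 1], 640⟩], [1], 0, none, s25_5_t8⟩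
def s25_5_t9 : Tree := .dbr (.cons (.ndet 2 [⟨1, [(8, 1)]⟩, ⟨1, [(8, 1), (0, 1)]⟩] (.ddet 0 [⟨1, [(1, 1)]⟩] (.nbr (.cons (.ddet 1 [⟨1, [(10, 1)]⟩] (.leaf 1 [⟨1, [(10, 1), (3, 1)]⟩, ⟨1, []⟩, ⟨1, [(10, 2)]⟩, ⟨1, [(3, 1)]⟩, ⟨1, [(3, 1)]⟩, ⟨1, [(3, 1)]⟩, ⟨1, [(10, 1), (3, 1)]⟩, ⟨1, [(3, 1)]⟩, ⟨1, [(3, 1)]⟩, ⟨1, [(10, 1), (3, 1)]⟩, ⟨1, [(3, 1)]⟩, ⟨1, [(10, 1)]⟩, ⟨1, [(10, 1)]⟩, ⟨1, []⟩, ⟨1, [(10, 1)]⟩, ⟨1, []⟩, ⟨1, [(7, 1), (0, 1)]⟩, ⟨1, [(10, 1), (7, 1), (0, 1)]⟩, ⟨1, []⟩])) (.cons (.prune [(3, 1), (1, 1)]) (.cons (.ddet 1 [⟨1, [(10, 1)]⟩] (.leaf 1 [⟨1, [(10, 1), (3, 1)]⟩, ⟨1, []⟩, ⟨1, [(10, 2), (2, 1)]⟩,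 ⟨1, [(3, 1), (2, 1)]⟩, ⟨1, [(3, 1)]⟩, ⟨1, [(3, 1)]⟩, ⟨1, [(10, 1), (3, 1)]⟩, ⟨1, [(3, 1), (1, 1)]⟩, ⟨1, [(3, 1)]⟩, ⟨1, [(10, 1), (3, 1)]⟩, ⟨1, [(3, 1), (1, 1)]⟩, ⟨1, [(10, 1), (2, 1)]⟩, ⟨1, [(10, 1)]⟩, ⟨1, [(1, 1)]⟩, ⟨1, [(10, 1)]⟩, ⟨1, [(1, 1)]⟩, ⟨1, [(8, 1)]⟩, ⟨1, [(10, 1), (8, 1)]⟩, ⟨1, []⟩])) .nil)))))) (.cons (.ndet 2 [⟨1, [(8, 1)]⟩, ⟨1, [(18, 1)]⟩] (.ddet 0 [⟨1, [(1, 1)]⟩] (.ndet 2 [⟨1, [(0, 1)]⟩, ⟨1, [(1, 1), (0, 1)]⟩] (.dbr (.cons (.split [1, -1] (0) (.leaf 0 [⟨1, [(11, 1), (10, 2), (0, 2)]⟩, ⟨1, [(10, 1), (0, 2)]⟩, ⟨1, [(0, 1)]⟩, ⟨1, [(11, 1), (10, 1), (0, 2)]⟩, ⟨1, [(11, 1), (10, 3), (0, 2)]⟩,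 ⟨1, [(0, 2)]⟩, ⟨1, [(0, 1)]⟩, ⟨1, [(10, 1), (0, 2)]⟩, ⟨1, [(10, 2), (0, 2)]⟩, ⟨1, [(10, 1), (0, 1)]⟩, ⟨1, [(10, 1)]⟩, ⟨1, [(10, 2), (0, 1)]⟩, ⟨1, [(10, 1)]⟩, ⟨1, [(10, 2)]⟩, ⟨1, [(8, 1), (0, 1)]⟩, ⟨1, [(8, 1), (0, 1)]⟩, ⟨1, [(8, 1)]⟩, ⟨1, [(8, 1)]⟩, ⟨1, [(20, 1), (8, 1)]⟩, ⟨1, [(0, 1)]⟩]) (.leaf 1 [⟨1, [(11, 1), (10, 2), (1, 1)]⟩, ⟨1, [(10, 1), (1, 1)]⟩, ⟨1, [(0, 1)]⟩, ⟨1, [(11, 1), (1, 1)]⟩, ⟨1, [(11, 1), (10, 2), (1, 2)]⟩, ⟨1, [(11, 1), (10, 1), (1, 1)]⟩, ⟨1, [(11, 1), (10, 2), (1, 1)]⟩, ⟨1, [(11, 1), (10, 3), (1, 2)]⟩, ⟨1, [(11, 1)]⟩, ⟨1, [(11, 1), (10, 1)]⟩, ⟨1, [(11, 1), (10, 2), (1, 1)]⟩, ⟨1, []⟩,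 ⟨1, [(10, 1)]⟩, ⟨1, [(10, 2), (1, 1)]⟩, ⟨1, [(0, 1)]⟩, ⟨1, [(10, 1)]⟩, ⟨1, [(8, 1)]⟩, ⟨1, [(8, 1), (0, 1)]⟩, ⟨1, []⟩])) (.cons (.leaf 1 [⟨1, [(9, 1), (2, 1)]⟩, ⟨1, [(1, 1)]⟩, ⟨1, [(0, 2)]⟩, ⟨1, [(10, 1)]⟩, ⟨1, [(2, 1), (1, 1)]⟩, ⟨1, [(2, 1)]⟩, ⟨1, [(9, 1), (2, 1)]⟩, ⟨1, [(2, 1), (1, 2)]⟩, ⟨1, [(10, 1)]⟩, ⟨1, [(10, 1), (9, 1)]⟩, ⟨1, [(2, 1), (1, 1)]⟩, ⟨1, [(0, 1)]⟩, ⟨1, [(9, 1)]⟩, ⟨1, [(1, 2)]⟩, ⟨1, [(0, 1)]⟩, ⟨1, [(1, 1)]⟩, ⟨1, [(7, 1)]⟩, ⟨1, [(7, 1), (0, 1)]⟩, ⟨1, []⟩]) .nil)))))) .nil))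
def s25_5_t10 : Tree := .nbr (.cons (.ddet 1 [⟨1, [(10, 1), (3, 1)]⟩] (.leaf 1 [⟨1, [(10, 1), (1, 1)]⟩, ⟨1, [(1, 1)]⟩, ⟨1, [(10, 2), (3, 1)]⟩, ⟨1, [(1, 1)]⟩, ⟨1, [(1, 2)]⟩, ⟨1, [(1, 1)]⟩, ⟨1, [(10, 1), (1, 1)]⟩, ⟨1, [(1, 2)]⟩, ⟨1, []⟩, ⟨1, [(10, 1)]⟩, ⟨1, [(1, 1)]⟩, ⟨1, [(10, 1)]⟩, ⟨1, [(10, 1)]⟩, ⟨1, [(1, 1)]⟩, ⟨1, [(10, 1), (3, 1)]⟩, ⟨1, []⟩, ⟨1, [(10, 1), (3, 1)]⟩, ⟨1, [(10, 2), (3, 2)]⟩, ⟨1, []⟩])) (.cons (.ddet 1 [⟨1, [(10, 1), (1, 1)]⟩] (.split [0, 1, -1] (0) (.leaf 1 [⟨1, [(11, 1), (0, 1)]⟩, ⟨1, [(0, 1)]⟩, ⟨1, [(11, 2)]⟩, ⟨1, [(0, 2)]⟩, ⟨1, [(0, 2)]⟩, ⟨1, [(0, 1)]⟩, ⟨1, [(11, 1), (0, 1)]⟩, ⟨1, [(0,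 1)]⟩, ⟨1, []⟩, ⟨1, [(11, 1)]⟩, ⟨1, []⟩, ⟨1, [(11, 1), (0, 1)]⟩, ⟨1, [(11, 1)]⟩, ⟨1, []⟩, ⟨1, [(11, 1), (2, 1)]⟩, ⟨1, [(2, 1)]⟩, ⟨1, [(11, 1), (2, 1)]⟩, ⟨1, [(11, 2), (2, 2)]⟩, ⟨1, []⟩]) (.leaf 2 [⟨1, [(11, 1)]⟩, ⟨1, [(0, 1)]⟩, ⟨1, [(11, 2), (0, 1)]⟩, ⟨1, [(22, 1)]⟩, ⟨1, []⟩, ⟨1, [(11, 2)]⟩, ⟨1, []⟩, ⟨1, []⟩, ⟨1, [(11, 1)]⟩, ⟨1, [(11, 2), (0, 1)]⟩, ⟨1, [(11, 1), (0, 1)]⟩, ⟨1, [(0, 1)]⟩, ⟨1, [(11, 2), (0, 1)]⟩, ⟨1, [(11, 1), (0, 1)]⟩, ⟨1, []⟩, ⟨1, [(11, 1), (0, 1)]⟩, ⟨1, [(0, 1)]⟩, ⟨1, [(11, 2), (0, 1)]⟩, ⟨1, [(11, 1), (0, 1)]⟩, ⟨1, [(0, 1)]⟩, ⟨1, [(0, 2)]⟩, ⟨1, [(11, 1), (0, 2)]⟩, ⟨1, [(0, 1)]⟩]))) (.cons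 (.ddet 1 [⟨1, [(10, 1), (3, 1)]⟩] (.split [0, 1, -1] (0) (.leaf 1 [⟨1, [(11, 1), (0, 1)]⟩, ⟨1, [(0, 1)]⟩, ⟨1, [(11, 2), (4, 1), (3, 1)]⟩, ⟨1, [(12, 1)]⟩, ⟨1, [(0, 2)]⟩, ⟨1, [(0, 1)]⟩, ⟨1, [(11, 1), (0, 1)]⟩, ⟨1, [(1, 1), (0, 1)]⟩, ⟨1, []⟩, ⟨1, [(11, 1)]⟩, ⟨1, [(1, 1)]⟩, ⟨1, [(11, 1), (3, 1)]⟩, ⟨1, [(11, 1)]⟩, ⟨1, [(1, 1)]⟩, ⟨1, [(11, 1), (4, 1)]⟩, ⟨1, [(2, 1)]⟩, ⟨1, [(11, 1), (4, 1)]⟩, ⟨1, [(11, 2), (4, 2)]⟩, ⟨1, []⟩]) (.leaf 2 [⟨1, [(11, 1)]⟩, ⟨1, [(0, 1)]⟩, ⟨1, [(12, 1), (11, 2), (0, 3)]⟩, ⟨1, [(12, 1), (0, 1)]⟩, ⟨1, []⟩, ⟨1, [(12, 1), (11, 2), (0, 2)]⟩, ⟨1, [(1, 1)]⟩, ⟨1, [(12, 1), (0, 2)]⟩, ⟨1, [(12,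 1), (11, 1), (0, 2)]⟩, ⟨1, [(12, 1), (11, 2), (0, 3)]⟩, ⟨1, [(11, 1), (0, 1)]⟩, ⟨1, [(1, 1), (0, 1)]⟩, ⟨1, [(11, 2), (0, 1)]⟩, ⟨1, [(11, 1), (1, 1), (0, 1)]⟩, ⟨1, [(12, 1), (0, 2)]⟩, ⟨1, [(12, 1), (11, 1), (0, 3)]⟩, ⟨1, [(0, 1)]⟩, ⟨1, [(12, 1), (11, 2), (0, 3)]⟩, ⟨1, [(11, 1), (0, 1)]⟩, ⟨1, [(1, 1), (0, 1)]⟩, ⟨1, [(1, 1), (0, 2)]⟩, ⟨1, [(11, 1), (1, 1), (0, 2)]⟩, ⟨1, [(0, 1)]⟩]))) .nil)))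
def s25_5_t11 : Tree := .nbr (.cons (.prune [(13, 1), (3, 1), (1, 2)]) (.cons s25_5_t9 (.cons (.dbr (.cons (.ndet 2 [⟨1, [(8, 1)]⟩, ⟨1, [(8, 1), (0, 1)]⟩] (.ddet 0 [⟨1, [(19, 1)]⟩] s25_5_t10)) (.cons (.ndet 2 [⟨1, [(8, 1)]⟩, ⟨1, [(9, 1), (8, 1), (1, 1)]⟩] (.ddet 0 [⟨1, [(9, 1), (0, 1)]⟩] (.ndet 2 [⟨1, [(0, 1)]⟩, ⟨1, [(9, 1), (0, 2)]⟩] (.ddet 1 [⟨1, [(9, 1), (8, 1), (1, 2)]⟩] (.leaf 1 [⟨1, [(9, 1), (8, 1), (0, 1)]⟩, ⟨1, [(9, 1), (0, 2)]⟩, ⟨1, [(9, 2), (8, 2), (1, 3)]⟩, ⟨1, [(9, 1)]⟩, ⟨1, [(9, 2), (0, 3)]⟩, ⟨1, [(9, 1), (0, 1)]⟩, ⟨1, [(9, 1), (8, 1), (0, 1)]⟩, ⟨1, [(9, 2), (0, 4)]⟩, ⟨1, [(9, 1), (1, 1)]⟩,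 ⟨1, [(9, 1), (8, 1), (1, 1)]⟩, ⟨1, [(9, 1), (0, 2)]⟩, ⟨1, [(9, 1), (8, 1), (1, 1)]⟩, ⟨1, [(8, 1)]⟩, ⟨1, [(9, 1), (0, 3)]⟩, ⟨1, [(9, 1), (8, 1), (1, 2)]⟩, ⟨1, [(0, 1)]⟩, ⟨1, [(8, 1), (1, 1)]⟩, ⟨1, [(9, 1), (8, 2), (1, 3)]⟩, ⟨1, []⟩]))))) .nil))) .nil)))
def s25_5_n1 : Node := ⟨[⟨[0, 1, 0, -1], -200⟩, ⟨[0, 1, -1], -200⟩, ⟨[-1, 1], -200⟩, ⟨[-1, 0, -1, -1], -5940⟩, ⟨[0, 1, -1, -1], -1280⟩, ⟨[0, 0, 0, -1], -1320⟩, ⟨[0, 1, 0, -1], 179000⟩, ⟨[1, 1, 0, -1], 720⟩, ⟨[0, -1, 1, -1], -5040⟩, ⟨[0, 0, 1, -1], 177000⟩, ⟨[1, 0, 1, -1], 680⟩, ⟨[-1, 1, -1], -1360⟩, ⟨[0, 1], 179700⟩, ⟨[1, 1], 1620⟩, ⟨[0, 0, 1], 640⟩, ⟨[1,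 0, 1], 680⟩, ⟨[0, 1, 0, 1], 1940⟩, ⟨[0, 1, 1, 1], 2880⟩], [0, 1], 0, none, (.ndet 1 [⟨1, [(3, 1)]⟩, ⟨1, [(8, 1)]⟩] (.ddet 1 [⟨1, [(5, 1)]⟩] s25_5_t11))⟩
def s25_5_t12 : Tree := .nbr (.cons (.ddet 1 [⟨1, [(16, 1)]⟩] (.ndet 1 [⟨1, [(16, 1)]⟩, ⟨1, [(16, 1), (1, 1)]⟩] (.ddet 1 [⟨1, [(16, 1)]⟩] (.leaf 2 [⟨1, []⟩, ⟨1, [(16, 2)]⟩, ⟨1, [(16, 1)]⟩, ⟨1, []⟩, ⟨1, [(16, 1)]⟩, ⟨1, []⟩, ⟨1, []⟩, ⟨1, [(16, 1)]⟩, ⟨1, []⟩, ⟨1, [(16, 1)]⟩, ⟨1, [(16, 1)]⟩, ⟨1, [(16, 1)]⟩, ⟨1, []⟩, ⟨1, []⟩, ⟨1, []⟩, ⟨1, [(16, 1)]⟩, ⟨1, [(16, 1)]⟩, ⟨1, []⟩, ⟨1, []⟩, ⟨1, []⟩, ⟨1, [(16, 2)]⟩, ⟨1, [(16, 1)]⟩, ⟨1, []⟩])))) (.cons (.ddet 1 [⟨1,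 [(16, 1)]⟩] (.ndet 1 [⟨1, [(16, 1)]⟩, ⟨1, [(17, 1)]⟩] (.ddet 1 [⟨1, [(16, 1)]⟩] (.leaf 2 [⟨1, []⟩, ⟨1, [(17, 1), (16, 1)]⟩, ⟨1, [(16, 1)]⟩, ⟨1, [(18, 1)]⟩, ⟨1, [(17, 1)]⟩, ⟨1, []⟩, ⟨1, []⟩, ⟨1, [(17, 1)]⟩, ⟨1, []⟩, ⟨1, [(16, 1)]⟩, ⟨1, [(16, 1)]⟩, ⟨1, [(16, 1)]⟩, ⟨1, [(1, 1)]⟩, ⟨1, [(1, 1)]⟩, ⟨1, []⟩, ⟨1, [(16, 1)]⟩, ⟨1, [(16, 1)]⟩, ⟨1, [(1, 1)]⟩, ⟨1, [(1, 1)]⟩, ⟨1, [(1, 1)]⟩, ⟨1, [(16, 2)]⟩, ⟨1, [(16, 1), (1, 1)]⟩, ⟨1, []⟩])))) (.cons (.ddet 1 [⟨1, [(16, 1)]⟩] (.ndet 1 [⟨1, [(16, 1)]⟩, ⟨2, [(23, 1), (16, 2), (11, 1), (1, 1)]⟩] (.ddet 1 [⟨1, [(16, 1)]⟩] (.leaf 2 [⟨1, []⟩, ⟨1, [(16, 2), (2, 1)]⟩, ⟨1, [(16,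 1)]⟩, ⟨1, [(2, 1)]⟩, ⟨1, [(16, 1), (2, 1)]⟩, ⟨1, []⟩, ⟨1, []⟩, ⟨1, [(16, 1), (2, 1)]⟩, ⟨1, []⟩, ⟨1, [(16, 1)]⟩, ⟨1, [(16, 1)]⟩, ⟨1, [(16, 1)]⟩, ⟨1, [(1, 1)]⟩, ⟨1, [(1, 1)]⟩, ⟨1, []⟩, ⟨1, [(16, 1)]⟩, ⟨1, [(16, 1)]⟩, ⟨1, [(1, 1)]⟩, ⟨1, [(1, 1)]⟩, ⟨1, [(1, 1)]⟩, ⟨1, [(16, 2)]⟩, ⟨1, [(16, 1), (1, 1)]⟩, ⟨1, []⟩])))) .nil)))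
def s25_5_t13 : Tree := .ndet 2 [⟨1, [(0, 1)]⟩, ⟨2, [(21, 1), (9, 1), (0, 3)]⟩] (.dbr (.cons (.ndet 1 [⟨1, [(24, 1)]⟩, ⟨1, [(21, 1), (10, 1)]⟩] (.ddet 1 [⟨1, [(15, 1)]⟩] (.split [0, 1, -1] (0) (.leaf 1 [⟨1, [(16, 1), (0, 2)]⟩, ⟨1, [(0, 1)]⟩, ⟨1, [(16, 2), (0, 2)]⟩, ⟨1, [(0, 2)]⟩, ⟨1, [(0, 2)]⟩, ⟨1, [(0, 1)]⟩, ⟨1, [(16, 1), (0, 2)]⟩, ⟨1, [(0, 1)]⟩, ⟨1, []⟩, ⟨1, [(16, 1), (0, 1)]⟩, ⟨1, []⟩, ⟨1, [(16, 1), (0, 2)]⟩, ⟨1, [(16, 1), (0, 1)]⟩, ⟨1, []⟩, ⟨1, [(16, 1)]⟩, ⟨1, [(25, 1)]⟩, ⟨1, [(16, 1)]⟩, ⟨1, [(16, 2)]⟩, ⟨1, [(0, 1)]⟩]) (.leaf 2 [⟨1, [(16, 1), (1, 1)]⟩, ⟨1, [(0, 1)]⟩, ⟨1, [(16, 2), (1, 1)]⟩, ⟨1, [(1,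 1)]⟩, ⟨1, []⟩, ⟨1, [(16, 2), (1, 2)]⟩, ⟨1, []⟩, ⟨1, []⟩, ⟨1, [(16, 1), (1, 1)]⟩, ⟨1, [(16, 2), (1, 1)]⟩, ⟨1, [(16, 1)]⟩, ⟨1, [(0, 1)]⟩, ⟨1, [(16, 2), (1, 1)]⟩, ⟨1, [(16, 1)]⟩, ⟨1, []⟩, ⟨1, [(16, 1)]⟩, ⟨1, [(0, 1)]⟩, ⟨1, [(16, 2), (1, 1)]⟩, ⟨1, [(16, 1)]⟩, ⟨1, [(0, 1)]⟩, ⟨1, [(0, 2)]⟩, ⟨1, [(16, 1), (0, 1)]⟩, ⟨1, []⟩])))) (.cons (.ndet 1 [⟨1, [(0, 1)]⟩, ⟨1, [(21, 1), (10, 1)]⟩] (.ddet 1 [⟨1, [(15, 1)]⟩] (.leaf 2 [⟨1, [(1, 1)]⟩, ⟨1, [(0, 2)]⟩, ⟨1, [(15, 1), (1, 1)]⟩, ⟨1, []⟩, ⟨1, [(0, 1)]⟩, ⟨1, [(1, 2)]⟩, ⟨1, []⟩, ⟨1, [(0, 1)]⟩, ⟨1, [(1, 1)]⟩, ⟨1, [(15, 1), (1, 1)]⟩, ⟨1, [(15, 1)]⟩, ⟨1, [(0, 1)]⟩, ⟨1, [(1,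 2)]⟩, ⟨1, [(1, 1)]⟩, ⟨1, []⟩, ⟨1, [(15, 1)]⟩, ⟨1, [(0, 1)]⟩, ⟨1, [(1, 2)]⟩, ⟨1, [(1, 1)]⟩, ⟨1, []⟩, ⟨1, [(0, 2)]⟩, ⟨1, [(15, 1)]⟩, ⟨1, []⟩]))) .nil)))
def s25_5_t14 : Tree := .nbr (.cons (.ddet 1 [⟨1, [(15, 1), (2, 1)]⟩] (.ndet 1 [⟨1, [(15, 1), (2, 1)]⟩, ⟨1, [(15, 1), (2, 1), (1, 1)]⟩] (.ddet 1 [⟨1, [(15, 1)]⟩] (.leaf 2 [⟨1, [(19, 1), (1, 1)]⟩, ⟨1, [(15, 2), (2, 1)]⟩, ⟨1, [(19, 1), (15, 1), (1, 1)]⟩, ⟨1, [(19, 1), (1, 1)]⟩, ⟨1, [(15, 1)]⟩, ⟨1, [(19, 2), (1, 2)]⟩, ⟨1, []⟩, ⟨1, [(15, 1)]⟩, ⟨1, [(19, 1), (1, 1)]⟩, ⟨1, [(19, 1), (15, 1), (1, 1)]⟩, ⟨1, [(15, 1)]⟩, ⟨1, [(15, 1), (2, 1)]⟩, ⟨1, [(19, 1), (1, 1)]⟩,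 ⟨1, []⟩, ⟨1, []⟩, ⟨1, [(15, 1)]⟩, ⟨1, [(15, 1), (2, 1)]⟩, ⟨1, [(19, 1), (1, 1)]⟩, ⟨1, []⟩, ⟨1, [(2, 1)]⟩, ⟨1, [(15, 2), (2, 2)]⟩, ⟨1, [(15, 1), (2, 1)]⟩, ⟨1, []⟩])))) (.cons (.ddet 1 [⟨1, [(15, 1), (2, 1)]⟩] (.ndet 1 [⟨1, [(15, 1), (2, 1)]⟩, ⟨1, [(10, 1)]⟩] (.ddet 1 [⟨1, [(15, 1)]⟩] (.split [0, 0, 1, -1] (0) (.leaf 2 [⟨1, [(0, 1)]⟩, ⟨1, [(17, 1), (16, 1), (3, 1)]⟩, ⟨1, [(16, 1), (0, 1)]⟩, ⟨1, [(21, 1)]⟩, ⟨1, [(17, 1)]⟩, ⟨1, [(0, 2)]⟩, ⟨1, []⟩, ⟨1, [(17, 1)]⟩, ⟨1, [(0, 1)]⟩, ⟨1, [(16, 1), (0, 1)]⟩, ⟨1, [(16, 1)]⟩, ⟨1, [(16, 1), (3, 1)]⟩, ⟨1, [(20, 1)]⟩, ⟨1, [(2, 1)]⟩, ⟨1, []⟩, ⟨1, [(16, 1)]⟩, ⟨1, [(16,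 1), (3, 1)]⟩, ⟨1, [(20, 1)]⟩, ⟨1, [(2, 1)]⟩, ⟨1, [(3, 1), (2, 1)]⟩, ⟨1, [(16, 2), (3, 2)]⟩, ⟨1, [(16, 1), (3, 1), (2, 1)]⟩, ⟨1, []⟩]) (.leaf 3 [⟨1, [(0, 1)]⟩, ⟨1, [(17, 1), (16, 1), (0, 2)]⟩, ⟨1, [(16, 1)]⟩, ⟨1, [(21, 1), (0, 2)]⟩, ⟨1, [(21, 1), (0, 2)]⟩, ⟨1, [(17, 1), (0, 1)]⟩, ⟨1, [(17, 1), (0, 2)]⟩, ⟨1, [(0, 1)]⟩, ⟨1, [(17, 1), (16, 1), (0, 2)]⟩, ⟨1, [(16, 1), (0, 1)]⟩, ⟨1, [(20, 1), (0, 1)]⟩, ⟨1, []⟩, ⟨1, [(17, 1), (16, 1), (0, 1)]⟩, ⟨1, [(17, 1), (16, 1), (0, 2)]⟩, ⟨1, [(16, 1), (0, 1)]⟩, ⟨1, [(20, 1), (0, 1)]⟩, ⟨1, [(20, 1), (0, 2)]⟩, ⟨1, [(17, 1), (16, 2), (0, 2)]⟩, ⟨1, [(16, 2), (0, 1)]⟩, ⟨1, [(20,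 1), (16, 1), (0, 1)]⟩, ⟨1, [(0, 1)]⟩]))))) (.cons (.prune [(22, 1), (19, 1), (15, 1), (2, 2), (1, 1)]) .nil)))
def s25_5_t15 : Tree := .nbr (.cons (.prune [(22, 1), (17, 1), (14, 2), (2, 1), (1, 5)]) (.cons (.dbr (.cons (.ndet 2 [⟨1, [(14, 1)]⟩, ⟨1, [(14, 1), (0, 1)]⟩] (.ddet 0 [⟨1, [(16, 1)]⟩] s25_5_t12)) (.cons (.ndet 2 [⟨1, [(14, 1)]⟩, ⟨1, [(23, 1)]⟩] (.ddet 0 [⟨2, [(21, 1), (9, 1), (0, 1)]⟩] s25_5_t13)) .nil))) (.cons (.ddet 0 [⟨1, [(20, 1), (17, 1), (13, 1), (0, 2)]⟩] (.ndet 2 [⟨1, [(13, 1)]⟩, ⟨1, [(20, 1), (17, 1), (13, 2), (0, 2)]⟩] (.ddet 0 [⟨1, [(15, 1)]⟩] s25_5_t14))) .nil)))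
def s25_5_n2 : Node := ⟨[⟨[0, 0, 1, -1], -200⟩, ⟨[0, -1, 1], -200⟩, ⟨[-1, 0, 1], -200⟩, ⟨[-1, -1, 0, -1], -7040⟩, ⟨[0, -1, 1, -1], -1360⟩, ⟨[-1, 0, 1, -1], -1240⟩, ⟨[1, 0, 1, -1], 680⟩, ⟨[-1, -1], -5040⟩, ⟨[-1], -1280⟩, ⟨[-1, 0, 1], 179000⟩, ⟨[0, 0, 1], 179700⟩, ⟨[1, 0, 1], 1660⟩, ⟨[0, 1, 1], 1620⟩, ⟨[1, 1, 1], 1660⟩, ⟨[-1, 0, -1, 1], -4020⟩, ⟨[-1, 0, 0, 1], 177000⟩, ⟨[0, 0, 0, 1], 640⟩, ⟨[-1, 1, 0, 1], 600⟩, ⟨[0, 1, 0, 1], 680⟩, ⟨[1, 1, 0, 1], -380⟩, ⟨[1, 0, 1, 1], 2600⟩, ⟨[1, 1, 1, 1], 179700⟩], [0, 0, 1], 0, none, s25_5_t15⟩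
def s25_5_t16 : Tree := .ndet 1 [⟨2, [(15, 1), (11, 1), (0, 1)]⟩, ⟨1, [(15, 1)]⟩] (.ddet 1 [⟨1, [(7, 1)]⟩] (.nbr (.cons (.prune [(9, 1), (1, 1)]) (.cons (.ddet 0 [⟨2, [(17, 1), (13, 1), (2, 1)]⟩] (.leaf 3 [⟨2, [(17, 1), (13, 1), (9, 2), (2, 1)]⟩, ⟨1, [(9, 1), (0, 1)]⟩, ⟨1, []⟩, ⟨1, [(0, 1)]⟩, ⟨1, [(9, 1)]⟩, ⟨1, [(0, 1)]⟩, ⟨1, [(9, 1), (0, 1)]⟩, ⟨1, [(9, 1)]⟩, ⟨1, [(0, 2)]⟩, ⟨1, [(0, 1)]⟩, ⟨1, []⟩, ⟨2, [(17, 1), (13, 1), (2, 1)]⟩, ⟨1, [(0, 1)]⟩, ⟨1, [(9, 1), (0, 1)]⟩, ⟨1, [(9, 1)]⟩, ⟨2, [(17, 1), (13, 1), (2, 1)]⟩, ⟨2, [(17, 1), (13, 1), (9, 2), (2, 1)]⟩, ⟨1, [(0, 2)]⟩, ⟨1, [(0, 1)]⟩, ⟨1, []⟩, ⟨1, []⟩]))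 (.cons (.ddet 0 [⟨1, [(9, 1), (0, 1)]⟩] (.split [1, 0, 0, -1] (0) (.leaf 0 [⟨1, [(0, 1)]⟩, ⟨1, [(10, 2), (0, 2)]⟩, ⟨1, [(10, 1)]⟩, ⟨1, []⟩, ⟨1, [(0, 2)]⟩, ⟨1, [(10, 2), (0, 1)]⟩, ⟨1, [(10, 1), (0, 1)]⟩, ⟨1, [(10, 2), (0, 2)]⟩, ⟨1, [(10, 2), (0, 3)]⟩, ⟨1, [(10, 1), (0, 1)]⟩, ⟨1, [(0, 1)]⟩, ⟨1, [(10, 1), (0, 2)]⟩, ⟨1, []⟩, ⟨1, [(0, 1)]⟩, ⟨1, [(10, 2), (0, 2)]⟩, ⟨1, [(10, 2), (0, 1)]⟩, ⟨1, [(10, 1), (0, 1)]⟩, ⟨1, [(10, 1)]⟩, ⟨1, []⟩, ⟨1, [(0, 1)]⟩]) (.leaf 3 [⟨1, [(10, 2), (1, 1)]⟩, ⟨1, [(10, 1), (0, 1)]⟩, ⟨1, [(0, 1)]⟩, ⟨1, []⟩, ⟨1, [(10, 1)]⟩, ⟨1, [(0, 1)]⟩, ⟨1, [(10, 1)]⟩, ⟨1, [(10, 1), (1, 1)]⟩, ⟨1, [(0,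 1)]⟩, ⟨1, []⟩, ⟨1, [(1, 1)]⟩, ⟨1, [(10, 1)]⟩, ⟨1, [(0, 2)]⟩, ⟨1, [(10, 1), (0, 1)]⟩, ⟨1, [(10, 1)]⟩, ⟨1, [(10, 1), (1, 1)]⟩, ⟨1, [(10, 2), (1, 2)]⟩, ⟨1, [(0, 2)]⟩, ⟨1, [(0, 1)]⟩, ⟨1, []⟩, ⟨1, []⟩]))) .nil)))))
def s25_5_t17 : Tree := .ddet 1 [⟨1, [(7, 1)]⟩] (.nbr (.cons (.prune [(9, 1), (1, 1)]) (.cons (.ddet 0 [⟨1, [(17, 1)]⟩] (.leaf 3 [⟨1, [(17, 2), (3, 1), (0, 1)]⟩, ⟨1, [(17, 1), (3, 1), (0, 2)]⟩, ⟨1, []⟩, ⟨1, [(0, 1)]⟩, ⟨1, [(17, 1), (0, 1)]⟩, ⟨1, [(0, 1)]⟩, ⟨1, [(17, 1), (3, 1), (0, 2)]⟩, ⟨1, [(17, 1), (3, 1), (0, 1)]⟩, ⟨1, [(3, 1), (0, 2)]⟩, ⟨1, [(3, 1), (0, 1)]⟩, ⟨1, [(3, 1)]⟩, ⟨1, [(17, 1)]⟩, ⟨1,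 [(0, 1)]⟩, ⟨1, [(17, 1), (3, 1), (0, 2)]⟩, ⟨1, [(17, 1), (3, 1), (0, 1)]⟩, ⟨1, [(17, 1), (3, 1)]⟩, ⟨1, [(17, 2), (3, 2), (0, 1)]⟩, ⟨1, [(3, 1), (0, 2)]⟩, ⟨1, [(3, 1), (0, 1)]⟩, ⟨1, [(3, 1)]⟩, ⟨1, []⟩])) (.cons (.ddet 0 [⟨1, [(17, 1)]⟩] (.split [1, 0, 0, -1] (0) (.leaf 0 [⟨1, [(0, 1)]⟩, ⟨1, [(11, 1), (10, 1), (0, 2)]⟩, ⟨1, [(10, 1)]⟩, ⟨1, []⟩, ⟨1, [(0, 2)]⟩, ⟨1, [(11, 1), (10, 1), (0, 1)]⟩, ⟨1, [(11, 1), (0, 1)]⟩, ⟨1, [(11, 1), (10, 1), (0, 2)]⟩, ⟨1, [(11, 1), (10, 1), (0, 3)]⟩, ⟨1, [(10, 1), (0, 1)]⟩, ⟨1, [(0, 1)]⟩, ⟨1, [(10, 1), (0, 2)]⟩, ⟨1, [(4, 1)]⟩, ⟨1, [(4, 1), (0, 1)]⟩, ⟨1, [(11, 1), (10, 1), (0,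 2)]⟩, ⟨1, [(10, 2), (0, 1)]⟩, ⟨1, [(10, 1), (0, 1)]⟩, ⟨1, [(10, 1), (4, 1)]⟩, ⟨1, [(4, 1)]⟩, ⟨1, [(0, 1)]⟩]) (.leaf 3 [⟨1, [(18, 1), (10, 1)]⟩, ⟨1, [(10, 1), (0, 1)]⟩, ⟨1, [(0, 1)]⟩, ⟨1, []⟩, ⟨1, [(11, 1)]⟩, ⟨1, [(0, 1)]⟩, ⟨1, [(10, 1)]⟩, ⟨1, [(18, 1), (4, 1)]⟩, ⟨1, [(4, 1), (0, 1)]⟩, ⟨1, [(4, 1)]⟩, ⟨1, [(4, 1), (1, 1)]⟩, ⟨1, [(11, 1)]⟩, ⟨1, [(0, 2)]⟩, ⟨1, [(10, 1), (0, 1)]⟩, ⟨1, [(10, 1)]⟩, ⟨1, [(18, 1), (4, 1)]⟩, ⟨1, [(18, 2), (4, 2)]⟩, ⟨1, [(4, 1), (0, 2)]⟩, ⟨1, [(4, 1), (0, 1)]⟩, ⟨1, [(4, 1)]⟩, ⟨1, []⟩]))) .nil))))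
def s25_5_t18 : Tree := .nbr (.cons (.prune [(10, 1), (1, 1)]) (.cons (.dbr (.cons (.leaf 3 [⟨1, [(11, 1), (0, 1)]⟩, ⟨1, [(11, 1), (1, 1)]⟩, ⟨1, []⟩, ⟨1, [(1, 1)]⟩, ⟨2, [(14, 1), (11, 1), (0, 1)]⟩, ⟨1, [(1, 1)]⟩, ⟨1, [(11, 1), (1, 1)]⟩, ⟨1, [(11, 1)]⟩, ⟨1, [(5, 1), (1, 2)]⟩, ⟨1, [(5, 1), (1, 1)]⟩, ⟨1, [(5, 1)]⟩, ⟨1, [(0, 1)]⟩, ⟨1, [(1, 1)]⟩, ⟨1, [(11, 1), (1, 1)]⟩, ⟨1, [(11, 1)]⟩, ⟨3, [(19, 1), (15, 1), (0, 1)]⟩, ⟨3, [(19, 1), (15, 1), (11, 3), (0, 1)]⟩, ⟨1, [(5, 1), (1, 2)]⟩, ⟨1, [(5, 1), (1, 1)]⟩, ⟨1, [(5, 1)]⟩, ⟨1, []⟩]) (.cons (.leaf 3 [⟨1, [(14, 1), (3, 2)]⟩, ⟨2, [(14, 1), (11, 3), (0, 1)]⟩, ⟨1, [(0,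 1)]⟩, ⟨1, [(14, 1), (3, 1)]⟩, ⟨1, [(14, 1), (3, 1)]⟩, ⟨2, [(14, 1), (11, 1), (0, 1)]⟩, ⟨1, [(14, 1), (11, 1), (3, 1)]⟩, ⟨1, [(14, 1), (3, 2)]⟩, ⟨2, [(14, 1), (11, 3), (0, 1)]⟩, ⟨1, [(11, 1)]⟩, ⟨1, [(3, 1)]⟩, ⟨1, []⟩, ⟨2, [(14, 1), (11, 1), (0, 3)]⟩, ⟨2, [(14, 1), (11, 3), (0, 1)]⟩, ⟨1, [(11, 1)]⟩, ⟨1, [(3, 1)]⟩, ⟨1, [(14, 1), (3, 3)]⟩, ⟨2, [(14, 1), (11, 3), (0, 3)]⟩, ⟨1, [(11, 1), (0, 1)]⟩, ⟨3, [(19, 1), (15, 1), (0, 2)]⟩, ⟨1, []⟩]) .nil))) (.cons (.ddet 0 [⟨1, [(13, 1), (10, 1), (0, 2)]⟩] (.split [1, 0, 0, -1] (0) (.leaf 0 [⟨1, [(0, 1)]⟩, ⟨1, [(14, 1), (11, 2), (0, 3)]⟩, ⟨1, [(11, 1)]⟩, ⟨1, []⟩, ⟨1,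 [(0, 2)]⟩, ⟨1, [(14, 1), (11, 2), (0, 2)]⟩, ⟨1, [(14, 1), (11, 1), (0, 2)]⟩, ⟨1, [(14, 1), (11, 2), (0, 3)]⟩, ⟨1, [(14, 1), (11, 2), (0, 4)]⟩, ⟨1, [(11, 1), (0, 1)]⟩, ⟨1, [(0, 1)]⟩, ⟨1, [(11, 1), (0, 2)]⟩, ⟨1, [(5, 1)]⟩, ⟨1, [(5, 1), (0, 1)]⟩, ⟨1, [(14, 1), (11, 2), (0, 3)]⟩, ⟨1, [(11, 2), (0, 1)]⟩, ⟨1, [(11, 1), (0, 1)]⟩, ⟨1, [(11, 1), (5, 1)]⟩, ⟨1, [(5, 1)]⟩, ⟨1, [(0, 1)]⟩]) (.leaf 3 [⟨1, [(14, 1), (11, 2), (1, 2)]⟩, ⟨1, [(11, 1), (0, 1)]⟩, ⟨1, [(0, 1)]⟩, ⟨1, []⟩, ⟨1, [(14, 1), (11, 1), (1, 1)]⟩, ⟨1, [(0, 1)]⟩, ⟨1, [(11, 1)]⟩, ⟨1, [(11, 1), (1, 1)]⟩, ⟨1, [(5, 1), (0, 1)]⟩, ⟨1, [(5, 1)]⟩, ⟨1, [(5, 1),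 (1, 1)]⟩, ⟨1, [(14, 1), (11, 1), (1, 1)]⟩, ⟨1, [(0, 2)]⟩, ⟨1, [(11, 1), (0, 1)]⟩, ⟨1, [(11, 1)]⟩, ⟨1, [(11, 1), (1, 1)]⟩, ⟨1, [(11, 2), (1, 2)]⟩, ⟨1, [(5, 1), (0, 2)]⟩, ⟨1, [(5, 1), (0, 1)]⟩, ⟨1, [(5, 1)]⟩, ⟨1, []⟩]))) .nil)))
def s25_5_t19 : Tree := .dbr (.cons (.ndet 1 [⟨1, [(15, 1)]⟩, ⟨1, [(16, 1)]⟩] (.ddet 1 [⟨1, [(8, 1)]⟩] (.ndet 1 [⟨1, [(8, 1)]⟩, ⟨1, [(8, 1), (0, 1)]⟩] (.ddet 1 [⟨1, [(16, 1), (12, 1), (0, 2)]⟩] (.split [0, 0, 1, -1] (0) (.leaf 2 [⟨1, [(0, 1)]⟩, ⟨1, [(12, 1), (9, 2), (0, 2)]⟩, ⟨1, [(9, 1), (0, 2)]⟩, ⟨1, [(12, 1), (0, 2)]⟩, ⟨1, [(12, 1), (9, 1), (0, 2)]⟩, ⟨1, [(0, 2)]⟩, ⟨1, []⟩, ⟨1,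 [(12, 1), (9, 1), (0, 2)]⟩, ⟨1, [(0, 1)]⟩, ⟨1, [(9, 1), (0, 2)]⟩, ⟨1, [(9, 1), (0, 1)]⟩, ⟨1, [(9, 1)]⟩, ⟨1, [(16, 1), (0, 1)]⟩, ⟨1, [(16, 1)]⟩, ⟨1, []⟩, ⟨1, [(9, 1), (0, 1)]⟩, ⟨1, [(9, 1)]⟩, ⟨1, [(16, 1), (0, 1)]⟩, ⟨1, [(16, 1)]⟩, ⟨1, [(23, 1), (16, 1)]⟩, ⟨1, [(9, 2)]⟩, ⟨2, [(17, 1), (9, 1), (7, 1)]⟩, ⟨1, [(0, 1)]⟩]) (.leaf 3 [⟨1, [(0, 1)]⟩, ⟨1, [(9, 2), (1, 1)]⟩, ⟨1, [(17, 1), (13, 1), (1, 2)]⟩, ⟨1, [(12, 1)]⟩, ⟨1, [(12, 1)]⟩, ⟨1, [(9, 1), (1, 1)]⟩, ⟨1, [(12, 1), (9, 1)]⟩, ⟨1, [(0, 1)]⟩, ⟨1, [(9, 2), (1, 1)]⟩, ⟨1, [(9, 1)]⟩, ⟨1, [(16, 1)]⟩, ⟨1, []⟩, ⟨1, [(17, 1), (13, 1), (9, 1), (1, 3)]⟩, ⟨1, [(9, 2),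 (1, 1)]⟩, ⟨1, [(9, 1)]⟩, ⟨1, [(16, 1)]⟩, ⟨1, [(16, 1), (0, 1)]⟩, ⟨1, [(17, 1), (13, 1), (9, 2), (1, 3)]⟩, ⟨1, [(17, 1), (13, 1), (9, 1), (1, 2)]⟩, ⟨1, [(17, 1), (13, 1), (1, 1)]⟩, ⟨1, []⟩])))))) (.cons (.ndet 1 [⟨1, [(0, 1)]⟩, ⟨1, [(16, 1)]⟩] (.ddet 1 [⟨1, [(8, 1)]⟩] s25_5_t18)) .nil))
def s25_5_n3 : Node := ⟨[⟨[0, 0, -1, 1], -200⟩, ⟨[0, -1, 0, 1], -200⟩, ⟨[-1, 0, 0, 1], -200⟩, ⟨[1, -1, 0, -1], -2020⟩, ⟨[0, -1, -1], -2340⟩, ⟨[0, -1], -320⟩, ⟨[1, -1], 179000⟩, ⟨[1], 680⟩, ⟨[1, -1, 1], 1680⟩, ⟨[1, 0, 1], 1660⟩, ⟨[1, 1, 1], 640⟩, ⟨[-1, 0, -1, 1], -1320⟩, ⟨[-1, -1, 0, 1], -300⟩, ⟨[0, -1, 0, 1], 179700⟩, ⟨[0,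 0, 0, 1], 179700⟩, ⟨[0, 1, 0, 1], 1660⟩, ⟨[1, 1, 0, 1], 2640⟩, ⟨[0, -1, 1, 1], 1720⟩, ⟨[0, 0, 1, 1], 1720⟩, ⟨[0, 1, 1, 1], 1660⟩], [0, 0, 0, 1], 0, none, (.ndet 2 [⟨1, [(5, 1)]⟩, ⟨1, [(19, 1)]⟩] (.ddet 0 [⟨1, [(14, 1)]⟩] (.nbr (.cons (.ddet 1 [⟨2, [(15, 1), (11, 1), (0, 1)]⟩] s25_5_t16) (.cons (.ddet 1 [⟨1, [(15, 1), (1, 1)]⟩] (.ndet 1 [⟨1, [(15, 1), (1, 1)]⟩, ⟨1, [(15, 1)]⟩] s25_5_t17)) (.cons s25_5_t19 .nil))))))⟩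
def s25_5 : Sys := ⟨[(0, 0), (3, 0), (4, 2000)], [(0, 1000), (2, -1000)], 4, [s25_5_n0, s25_5_n1, s25_5_n2, s25_5_n3], [1192707, 732979, -19260, -114698], (.leaf 0 [⟨1, []⟩, ⟨1, []⟩, ⟨1, []⟩, ⟨1, []⟩, ⟨1, []⟩, ⟨1, []⟩, ⟨1, []⟩, ⟨1, []⟩, ⟨1, []⟩, ⟨1, []⟩, ⟨1, []⟩, ⟨1, []⟩, ⟨1, []⟩, ⟨1, []⟩, ⟨1, []⟩, ⟨1, []⟩, ⟨1, []⟩, ⟨1, []⟩, ⟨1, []⟩])⟩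

theorem s25_5_ok : s25_5.ok = true := by decide +kernel

def s26_7_n0 : Node := ⟨[⟨[-1, 0, 1], 40⟩, ⟨[0, 0, 1, -1], 32⟩, ⟨[-1], 32⟩, ⟨[0, -1], 8⟩, ⟨[0, -1, 1], 40⟩, ⟨[0, 0, 1], 8⟩, ⟨[-1, 0, 1], 32⟩, ⟨[0, 1], -24⟩, ⟨[-1, 1], 24⟩, ⟨[0, 0, 1], 16⟩, ⟨[0, -1, 1], 48⟩], [0, 0, 1], 0, none, (.ndet 1 [⟨1, [(2, 1), (0, 1)]⟩, ⟨1, [(9, 1)]⟩] (.ddet 0 [⟨1, [(8, 1)]⟩, ⟨1, [(7, 1)]⟩] (.ndet 0 [⟨1, [(0, 1)]⟩, ⟨1, []⟩] (.ddet 1 [⟨1, [(3, 1), (0, 1)]⟩, ⟨1, [(2, 1), (0, 1)]⟩] (.ndet 2 [⟨1, [(3, 1)]⟩, ⟨1, [(2, 1)]⟩] (.ddet 2 [⟨1, [(3, 1), (0, 1)]⟩, ⟨1, [(3, 1), (0, 1)]⟩] (.leaf 0 [⟨1, [(3, 1), (0, 2)]⟩, ⟨1, [(2, 1), (0,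 1)]⟩, ⟨1, [(0, 1)]⟩, ⟨1, []⟩, ⟨1, [(3, 1), (0, 1)]⟩, ⟨1, [(3, 1), (0, 1)]⟩, ⟨1, [(3, 1), (0, 2)]⟩, ⟨1, []⟩, ⟨1, [(0, 1)]⟩, ⟨1, [(3, 1), (0, 1)]⟩, ⟨1, [(3, 1), (0, 1)]⟩, ⟨1, []⟩])))))))⟩
def s26_7 : Sys := ⟨[(1, -16), (3, 16), (4, 0)], [(0, -16), (1, 0), (2, -16)], 4, [s26_7_n0], [-48, -16, 64, -16], (.leaf 0 [⟨1, []⟩, ⟨1, []⟩, ⟨1, []⟩, ⟨1, []⟩, ⟨1, []⟩, ⟨1, []⟩, ⟨1, []⟩, ⟨1, []⟩, ⟨1, []⟩, ⟨1, []⟩, ⟨1, []⟩])⟩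

theorem s26_7_ok : s26_7.ok = true := by decide +kernel

def s30_1_n0 : Node := ⟨[⟨[1, -1], 16⟩, ⟨[1, 0, -1], -16⟩, ⟨[1, 0, 0, -1], -32⟩], [1], 0, none, (.ndet 0 [⟨1, [(2, 1)]⟩, ⟨1, [(1, 1)]⟩, ⟨1, [(0, 1)]⟩] (.ddet 0 [] (.leaf 0 [⟨1, []⟩, ⟨1, [(2, 1)]⟩, ⟨1, [(1, 1)]⟩, ⟨1, []⟩])))⟩
def s30_1 : Sys := ⟨[(1, 32), (2, 32), (3, -32), (4, -32)], [(0, -16)], 4, [s30_1_n0], [16, -16, -16, 16], (.leaf 0 [⟨1, []⟩, ⟨1, []⟩, ⟨1, []⟩])⟩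

theorem s30_1_ok : s30_1.ok = true := by decide +kernel

def s30_9_n0 : Node := ⟨[⟨[-1, 1], -32⟩, ⟨[0, 1, -1], 8⟩, ⟨[0, 1, 0, -1], -48⟩, ⟨[0, 0, -1], 24⟩, ⟨[-1, 1], 80⟩, ⟨[0, 1, -1], 16⟩, ⟨[0, 1], 16⟩, ⟨[-1], 32⟩], [0, 1], 0, none, (.ndet 1 [⟨1, [(3, 1)]⟩, ⟨1, [(4, 1), (1, 1)]⟩, ⟨1, [(5, 1)]⟩] (.ddet 0 [⟨1, [(4, 1)]⟩] (.ndet 2 [⟨1, []⟩, ⟨1, [(3, 1)]⟩, ⟨1, [(4, 1), (1, 1)]⟩] (.ddet 1 [⟨1, [(1, 1)]⟩] (.leaf 0 [⟨1, [(1, 1)]⟩, ⟨1, [(3, 1)]⟩, ⟨1, []⟩, ⟨1, [(0, 1)]⟩, ⟨1, [(1, 1)]⟩, ⟨1, [(3, 1)]⟩, ⟨1, [(1, 1)]⟩, ⟨1, []⟩, ⟨1, []⟩])))))⟩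
def s30_9 : Sys := ⟨[(1, -80), (2, 80), (3, 16), (4, -32)], [(0, 48), (3, 64)], 4, [s30_9_n0], [-48, 48, -32, 32], (.leaf 0 [⟨1, []⟩, ⟨1, []⟩, ⟨1, []⟩, ⟨1, []⟩, ⟨1, []⟩, ⟨1, []⟩, ⟨1, []⟩, ⟨1, []⟩])⟩

theorem s30_9_ok : s30_9.ok = true := by decide +kernel

def s31_20_n0 : Node := ⟨[⟨[0, 0, 0, 1], -40⟩, ⟨[-1, 0, 0, 1], -80⟩, ⟨[0, -1, 0, 1], 32⟩, ⟨[0, 0, -1, 1], 56⟩, ⟨[1], -8⟩, ⟨[1], -16⟩, ⟨[1, -1], 88⟩, ⟨[1, 0, -1], 72⟩, ⟨[1], -32⟩, ⟨[1], -40⟩, ⟨[1], 8⟩, ⟨[1, -1], 48⟩, ⟨[0, 1], -40⟩, ⟨[0, -1], 16⟩], [1], 0, none, (.ndet 4 [⟨1, [(11, 1), (1, 1)]⟩, ⟨1, [(12, 1)]⟩, ⟨1, [(11, 1)]⟩, ⟨1, [(10, 1)]⟩] (.ddet 1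 [⟨1, [(11, 1)]⟩] (.ndet 2 [⟨1, [(7, 1), (1, 1)]⟩, ⟨1, [(7, 1), (1, 1)]⟩, ⟨1, [(7, 1)]⟩, ⟨1, [(6, 1)]⟩] (.ddet 0 [⟨1, [(6, 1)]⟩] (.ndet 3 [⟨1, [(7, 1), (1, 1)]⟩, ⟨1, [(7, 1), (1, 1)]⟩, ⟨1, [(7, 1), (1, 1)]⟩, ⟨1, [(7, 1)]⟩] (.ddet 1 [⟨1, [(1, 1)]⟩] (.leaf 0 [⟨1, [(7, 1), (1, 1)]⟩, ⟨1, [(1, 1)]⟩, ⟨1, [(7, 1), (1, 1)]⟩, ⟨1, [(7, 1), (1, 1)]⟩, ⟨1, [(7, 1)]⟩, ⟨1, [(7, 1)]⟩, ⟨1, [(7, 1)]⟩, ⟨1, [(7, 1)]⟩, ⟨1, [(7, 1)]⟩, ⟨1, [(7, 1)]⟩, ⟨1, [(7, 1)]⟩, ⟨1, [(7, 1)]⟩, ⟨1, []⟩, ⟨1, []⟩, ⟨1, [(0, 1)]⟩])))))))⟩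
def s31_20 : Sys := ⟨[(0, -80), (1, -64), (2, 32), (3, 80), (4, 48)], [(2, 64), (4, 80)], 4, [s31_20_n0], [96, -32, -32, 48], (.leaf 0 [⟨1, []⟩, ⟨1, []⟩, ⟨1, []⟩, ⟨1, []⟩, ⟨1, []⟩, ⟨1, []⟩, ⟨1, []⟩, ⟨1, []⟩, ⟨1, []⟩, ⟨1, []⟩, ⟨1, []⟩, ⟨1, []⟩, ⟨1, []⟩, ⟨1, []⟩])⟩

theorem s31_20_ok : s31_20.ok = true := by decide +kernel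

end Pool.Agent.H81.RDE.Data
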