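import Pool.Agent.H81.RDE.System

/-! Data file (generated): certificates. -/

set_option maxRecDepth 100000

namespace Pool.Agent.H81.RDE.Data

def s3_1_n0 : Node := ⟨[⟨[1], -8⟩], [1], 0, none, (.ndet 1 [⟨1, [(0, 1)]⟩] (.ddet 0 [] (.leaf 0 [⟨1, [(0, 1)]⟩, ⟨1, []⟩])))⟩
def s3_1 : Sys := ⟨[(0, 48), (1, 64)], [(0, 48)], 1, [s3_1_n0], [0, 0, 0, 0], (.leaf 0 [⟨1, []⟩])⟩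

theorem s3_1_ok : s3_1.ok = true := by decide +kernel

def s9_1_n0 : Node := ⟨[⟨[0, 0, 1], -46⟩, ⟨[0, 1], -22⟩, ⟨[1], 2⟩], [1, 1, 1], 0, none, (.ndet 1 [⟨1, [(2, 1)]⟩] (.ddet 0 [] (.leaf 0 [⟨1, [(1, 1)]⟩, ⟨1, [(0, 1)]⟩, ⟨1, [(2, 1)]⟩, ⟨1, []⟩])))⟩
def s9_1 : Sys := ⟨[(0, -16), (3, 80)], [(0, -64)], 3, [s9_1_n0], [176, 0, -16, 0], (.leaf 0 [⟨1, []⟩, ⟨1, []⟩, ⟨1, []⟩])⟩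

theorem s9_1_ok : s9_1.ok = true := by decide +kernel

def s10_6_n0 : Node := ⟨[⟨[1, 0, -1], 56⟩, ⟨[1, -1], 48⟩, ⟨[0, -1], -48⟩, ⟨[1], 144⟩, ⟨[2], 264⟩, ⟨[1], 168⟩], [1], 0, none, (.ndet 0 [⟨1, [(5, 1)]⟩] (.ddet 0 [⟨1, [(3, 1), (0, 1)]⟩] (.ndet 0 [⟨1, [(3, 1)]⟩] (.ddet 1 [⟨1, [(0, 1)]⟩] (.ndet 1 [⟨1, [(0, 2)]⟩] (.ddet 1 [⟨1, [(0, 1)]⟩] (.leaf 0 [⟨1, [(0, 1)]⟩, ⟨1, [(0, 2)]⟩, ⟨1, [(0, 1)]⟩, ⟨1, [(0, 1)]⟩, ⟨1, [(0, 2)]⟩, ⟨1, [(0, 1)]⟩, ⟨1, []⟩])))))))⟩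
def s10_6 : Sys := ⟨[(1, 32), (3, 32)], [(1, -32), (2, -80)], 3, [s10_6_n0], [176, 32, 64, 0], (.leaf 0 [⟨1, []⟩, ⟨1, []⟩, ⟨1, []⟩, ⟨1, []⟩, ⟨1, []⟩, ⟨1, []⟩])⟩

theorem s10_6_ok : s10_6.ok = true := by decide +kernel

def s14_22_n0 : Node := ⟨[⟨[1, -1], 24⟩, ⟨[1, 0, -1], 32⟩, ⟨[1, -1], 32⟩, ⟨[1, 0, 0, -1], 8⟩, ⟨[1], 64⟩, ⟨[1, -1], 48⟩, ⟨[1], 56⟩, ⟨[1, 0, -1], 24⟩, ⟨[1], 40⟩, ⟨[0, -1], -24⟩], [1], 0, none, (.ndet 0 [⟨1, [(4, 1)]⟩, ⟨1, [(8, 1)]⟩] (.ddet 0 [⟨1, [(4, 1)]⟩, ⟨1, [(6, 1)]⟩] (.ndet 1 [⟨1, [(5, 1)]⟩, ⟨1, [(4, 1)]⟩] (.ddet 1 [⟨1, [(5, 1)]⟩, ⟨1, [(8, 1)]⟩] (.ndet 2 [⟨1, [(5, 1)]⟩, ⟨1, [(5, 1)]⟩] (.ddet 1 [⟨1, []⟩, ⟨1, [(0, 1)]⟩] (.leaf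 0 [⟨1, [(5, 1)]⟩, ⟨1, [(5, 1)]⟩, ⟨1, [(5, 1)]⟩, ⟨1, []⟩, ⟨1, [(5, 1)]⟩, ⟨1, [(5, 1)]⟩, ⟨1, [(5, 1)]⟩, ⟨1, [(5, 1)]⟩, ⟨1, [(5, 1)]⟩, ⟨1, []⟩, ⟨1, []⟩])))))))⟩
def s14_22 : Sys := ⟨[(1, 16), (2, 0), (3, 32)], [(1, -16), (2, -16), (4, -16)], 4, [s14_22_n0], [80, 16, 32, 64], (.leaf 0 [⟨1, []⟩, ⟨1, []⟩, ⟨1, []⟩, ⟨1, []⟩, ⟨1, []⟩, ⟨1, []⟩, ⟨1, []⟩, ⟨1, []⟩, ⟨1, []⟩, ⟨1, []⟩])⟩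

theorem s14_22_ok : s14_22.ok = true := by decide +kernel

def s15_3_n0 : Node := ⟨[⟨[1], 104⟩, ⟨[1, -1], 104⟩, ⟨[1, 0, -1], -16⟩, ⟨[1], 88⟩, ⟨[1], 96⟩, ⟨[1, -1], 64⟩], [1], 0, none, (.ndet 1 [⟨1, [(5, 1)]⟩, ⟨1, [(4, 1)]⟩, ⟨1, [(3, 1)]⟩] (.ddet 1 [⟨1, [(5, 1)]⟩] (.ndet 2 [⟨1, [(5, 1)]⟩, ⟨1, [(5, 1)]⟩, ⟨1, [(4, 1)]⟩] (.ddet 1 [⟨1, []⟩] (.leaf 0 [⟨1, [(5, 1)]⟩, ⟨1, [(5, 1)]⟩, ⟨1, []⟩, ⟨1, [(5, 1)]⟩, ⟨1, [(5, 1)]⟩, ⟨1, [(5, 1)]⟩, ⟨1, []⟩])))))⟩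
def s15_3 : Sys := ⟨[(0, 32), (1, 16), (2, 32), (3, -32)], [(0, 0), (1, 16)], 3, [s15_3_n0], [192, 0, 176, 0], (.leaf 0 [⟨1, []⟩, ⟨1, []⟩, ⟨1, []⟩, ⟨1, []⟩, ⟨1, []⟩, ⟨1, []⟩])⟩

theorem s15_3_ok : s15_3.ok = true := by decide +kernel

def s20_9_n0 : Node := ⟨[⟨[0, 1, 0, -1], 0⟩, ⟨[0, 0, -1], 280⟩, ⟨[-1, 0, 1], 208⟩, ⟨[0, 1], 80⟩, ⟨[1, 1, -1], 72⟩], [0, 1], 0, none, (.ndet 0 [⟨1, [(4, 1)]⟩] (.ddet 0 [⟨1, [(3, 1)]⟩] (.ndet 1 [⟨1, [(2, 1)]⟩] (.ddet 1 [⟨1, [(2, 1), (0, 1)]⟩] (.leaf 0 [⟨1, []⟩, ⟨1, [(3, 1), (2, 1)]⟩, ⟨1, [(0, 1)]⟩, ⟨1, [(2, 1), (0, 1)]⟩, ⟨1, [(2, 1)]⟩, ⟨1, []⟩])))))⟩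
def s20_9 : Sys := ⟨[(2, 64), (4, -112)], [(0, -160), (3, 80)], 4, [s20_9_n0], [-560, 400, -320, 224], (.leaf 0 [⟨1, []⟩, ⟨1, []⟩, ⟨1, []⟩, ⟨1, []⟩, ⟨1, []⟩])⟩

theorem s20_9_ok : s20_9.ok = true := by decide +kernel

def s21_7_n0 : Node := ⟨[⟨[0, -1], 136⟩, ⟨[0, 0, 0, -1], 576⟩, ⟨[1], 200⟩, ⟨[1, -1], 376⟩, ⟨[1], 376⟩, ⟨[1, 0, -1], 536⟩, ⟨[1], 336⟩, ⟨[2], 720⟩, ⟨[1], 208⟩, ⟨[0, -1], 264⟩, ⟨[1], 104⟩, ⟨[1], 248⟩, ⟨[1], 216⟩], [1], 0, none, (.ndet 0 [⟨1, [(3, 1)]⟩, ⟨1, [(11, 1)]⟩] (.ddet 1 [⟨1, [(8, 1)]⟩, ⟨1, [(8, 1), (3, 1)]⟩] (.ndet 1 [⟨1, [(8, 1)]⟩, ⟨1, [(7, 1)]⟩] (.ddet 2 [⟨1, [(8, 1)]⟩, ⟨1, [(8, 2)]⟩] (.ndet 0 [⟨1, [(8, 1)]⟩, ⟨1, [(3, 1)]⟩]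 (.ddet 1 [⟨1, []⟩, ⟨1, [(8, 1)]⟩] (.ndet 2 [⟨1, [(8, 1)]⟩, ⟨1, [(8, 1)]⟩] (.ddet 1 [⟨1, []⟩, ⟨1, []⟩] (.leaf 0 [⟨1, []⟩, ⟨1, [(8, 1)]⟩, ⟨1, [(8, 1)]⟩, ⟨1, [(8, 1)]⟩, ⟨1, [(8, 1)]⟩, ⟨1, [(8, 1)]⟩, ⟨1, [(8, 1)]⟩, ⟨1, [(8, 2)]⟩, ⟨1, [(8, 1)]⟩, ⟨1, []⟩, ⟨1, [(8, 1)]⟩, ⟨1, [(8, 1)]⟩, ⟨1, [(8, 1)]⟩, ⟨1, []⟩])))))))))⟩
def s21_7 : Sys := ⟨[(0, -176), (2, -176), (4, 80)], [(0, -192), (1, 160), (2, -112)], 4, [s21_7_n0], [752, -272, -64, -896], (.leaf 0 [⟨1, []⟩, ⟨1, []⟩, ⟨1, []⟩, ⟨1, []⟩, ⟨1, []⟩, ⟨1, []⟩, ⟨1, []⟩, ⟨1, []⟩, ⟨1, []⟩, ⟨1, []⟩, ⟨1, []⟩, ⟨1, []⟩, ⟨1, []⟩])⟩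

theorem s21_7_ok : s21_7.ok = true := by decide +kernel

def s21_14_n0 : Node := ⟨[⟨[0, 0, 0, 1], 288⟩, ⟨[0, -1, 0, 1], 320⟩, ⟨[-1, 1], 128⟩, ⟨[0, 1, -1], 128⟩, ⟨[-1], 160⟩, ⟨[0, 0, -1], 192⟩, ⟨[-1, -1, 0, 1], 704⟩, ⟨[0, -2, 0, 1], 576⟩, ⟨[0, -1, 0, 1], 544⟩, ⟨[0, -2, 0, 1], 608⟩, ⟨[0, -2, 0, 2], 864⟩, ⟨[-1], 192⟩, ⟨[0, -1], 224⟩], [0, 0, 0, 1], 0, none, (.ndet 2 [⟨1, [(12, 1)]⟩, ⟨1, [(4, 1)]⟩] (.ddet 1 [⟨1, [(10, 1)]⟩, ⟨1, [(9, 1)]⟩] (.ndet 0 [⟨1, [(10, 1), (0, 1)]⟩, ⟨1, [(9, 1), (0, 1)]⟩] (.ddet 0 [⟨1, [(10, 1), (4, 1), (0, 1)]⟩, ⟨1, [(4, 1), (0, 1)]⟩] (.ndet 1 [⟨1, [(4, 1)]⟩, ⟨1, [(4, 1), (0, 1)]⟩] (.ddet 1 [⟨1, [(4, 2)]⟩, ⟨1, [(10, 1), (4,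 1), (0, 1)]⟩] (.ndet 0 [⟨1, [(4, 1)]⟩, ⟨1, [(10, 1), (0, 1)]⟩] (.ddet 2 [⟨1, [(4, 1)]⟩, ⟨1, [(4, 2)]⟩] (.leaf 0 [⟨1, [(4, 1)]⟩, ⟨1, [(4, 1)]⟩, ⟨1, [(4, 1)]⟩, ⟨1, [(4, 1)]⟩, ⟨1, [(4, 1)]⟩, ⟨1, [(4, 1)]⟩, ⟨1, [(4, 2)]⟩, ⟨1, [(4, 1)]⟩, ⟨1, [(4, 1)]⟩, ⟨1, [(4, 1)]⟩, ⟨1, [(4, 2)]⟩, ⟨1, [(4, 1)]⟩, ⟨1, []⟩, ⟨1, [(0, 1)]⟩])))))))))⟩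
def s21_14 : Sys := ⟨[(0, 64), (2, -128), (4, -64)], [(1, 128), (2, 128), (3, 128)], 4, [s21_14_n0], [-512, -256, -512, 448], (.leaf 0 [⟨1, []⟩, ⟨1, []⟩, ⟨1, []⟩, ⟨1, []⟩, ⟨1, []⟩, ⟨1, []⟩, ⟨1, []⟩, ⟨1, []⟩, ⟨1, []⟩, ⟨1, []⟩, ⟨1, []⟩, ⟨1, []⟩, ⟨1, []⟩])⟩

theorem s21_14_ok : s21_14.ok = true := by decide +kernel

def s22_3_n0 : Node := ⟨[⟨[1, -1], 56⟩, ⟨[1, 0, 0, -1], 48⟩, ⟨[1], 40⟩, ⟨[1, 0, -1], 0⟩, ⟨[1], 48⟩], [1], 0, none, (.ndet 0 [⟨1, [(4, 1)]⟩, ⟨1, [(3, 1)]⟩] (.ddet 1 [⟨1, [(0, 1)]⟩] (.ndet 1 [⟨1, [(0, 1)]⟩, ⟨1, [(1, 1)]⟩] (.ddet 1 [⟨1, []⟩] (.leaf 0 [⟨1, [(0, 1)]⟩, ⟨1, [(4, 1)]⟩, ⟨1, [(0, 1)]⟩, ⟨1, []⟩, ⟨1, [(0, 1)]⟩, ⟨1, []⟩])))))⟩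
def s22_3 : Sys := ⟨[(1, 0), (2, 16), (4, 0)], [(0, -16), (1, 0)], 4, [s22_3_n0], [96, 0, 80, 0], (.leaf 0 [⟨1, []⟩, ⟨1, []⟩, ⟨1, []⟩, ⟨1, []⟩, ⟨1, []⟩])⟩

theorem s22_3_ok : s22_3.ok = true := by decide +kernel

def s23_8_t0 : Tree := .nbr (.cons (.prune [(20, 1), (14, 1), (3, 1), (2, 2), (0, 1)]) (.cons (.ddet 0 [] (.ndet 3 [⟨1, [(19, 1), (3, 2)]⟩, ⟨1, [(19, 1), (9, 1), (3, 2)]⟩, ⟨1, [(9, 1)]⟩] (.ddet 0 [] (.split [1, 1, -1] (7000) (.leaf 0 [⟨1, [(20, 1)]⟩, ⟨1, [(0, 1)]⟩, ⟨1, [(20, 1), (10, 1), (4, 1)]⟩, ⟨1, [(20, 1), (4, 1)]⟩, ⟨1, [(18, 1)]⟩, ⟨1, [(18, 1)]⟩, ⟨1, [(20, 1), (4, 2)]⟩, ⟨1, [(18, 1), (4, 1)]⟩, ⟨1, [(10, 1)]⟩, ⟨1, []⟩, ⟨1, [(20,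 1), (10, 1), (4, 2)]⟩, ⟨1, [(20, 1), (4, 2)]⟩, ⟨1, [(18, 1), (4, 1)]⟩, ⟨1, []⟩]) (.leaf 2 [⟨1, [(20, 1), (0, 1)]⟩, ⟨1, [(20, 1), (10, 2), (0, 2)]⟩, ⟨1, [(0, 1)]⟩, ⟨1, [(20, 1), (10, 1)]⟩, ⟨1, [(20, 1)]⟩, ⟨1, [(20, 1), (0, 1)]⟩, ⟨1, [(10, 1)]⟩, ⟨1, []⟩, ⟨1, [(20, 1), (10, 3), (0, 2)]⟩, ⟨1, [(10, 1), (0, 1)]⟩, ⟨1, [(20, 1), (10, 1), (0, 2)]⟩, ⟨1, [(10, 1), (0, 2)]⟩, ⟨1, [(0, 1)]⟩]))))) (.cons (.prune [(20, 1), (12, 1), (1, 2), (0, 1)]) (.cons (.ddet 0 [] (.ndet 3 [⟨1, [(17, 2), (3, 2), (1, 1)]⟩, ⟨1, [(17, 3), (3, 3), (1, 1)]⟩, ⟨1, [(17, 1), (3, 1), (1, 1)]⟩] (.ddet 0 [] (.leaf 0 [⟨1, [(17, 2), (1, 1)]⟩, ⟨1, [(17, 1), (1, 1)]⟩, ⟨1, [(17, 3), (3,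 2), (1, 1)]⟩, ⟨1, [(17, 2), (3, 1)]⟩, ⟨1, [(17, 1)]⟩, ⟨1, [(17, 1), (1, 1)]⟩, ⟨1, [(17, 2), (3, 2)]⟩, ⟨1, [(17, 1), (3, 1)]⟩, ⟨1, [(17, 1), (3, 1), (1, 1)]⟩, ⟨1, [(1, 1)]⟩, ⟨1, [(17, 3), (3, 3), (1, 1)]⟩, ⟨1, [(17, 2), (3, 2), (1, 1)]⟩, ⟨1, [(17, 1), (3, 1), (1, 1)]⟩, ⟨1, []⟩])))) .nil))))
def s23_8_t1 : Tree := .nbr (.cons (.prune [(20, 2), (14, 1), (12, 1), (2, 4), (0, 2)]) (.cons (.ddet 0 [] (.nbr (.cons (.prune [(23, 1), (16, 1), (3, 1), (1, 3)]) (.cons (.prune [(22, 1), (9, 2), (1, 3)]) (.cons (.ddet 0 [] (.leaf 0 [⟨1, [(22, 1), (0, 1)]⟩, ⟨1, [(12, 1), (0, 1)]⟩, ⟨1, [(20, 1), (12, 1)]⟩, ⟨1, [(20, 1), (12, 1)]⟩, ⟨2, [(22, 1), (20, 1), (0,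 1)]⟩, ⟨2, [(22, 1), (20, 1), (0, 3)]⟩, ⟨1, [(21, 1), (12, 1)]⟩, ⟨1, [(20, 1)]⟩, ⟨1, []⟩, ⟨1, [(0, 1)]⟩, ⟨1, [(21, 1), (12, 1)]⟩, ⟨1, [(20, 1)]⟩, ⟨1, [(20, 1), (0, 1)]⟩, ⟨1, [(0, 1)]⟩])) (.cons (.ddet 0 [] (.leaf 0 [⟨1, [(22, 1)]⟩, ⟨1, [(12, 1)]⟩, ⟨1, [(20, 1), (12, 1), (0, 1)]⟩, ⟨1, [(20, 1), (12, 1)]⟩, ⟨1, [(20, 1), (6, 1)]⟩, ⟨1, [(20, 1), (6, 1)]⟩, ⟨1, [(20, 1), (0, 1)]⟩, ⟨1, [(20, 1)]⟩, ⟨1, [(0, 1)]⟩, ⟨1, []⟩, ⟨1, [(20, 1), (0, 2)]⟩, ⟨1, [(20, 1), (0, 1)]⟩, ⟨1, [(20, 1)]⟩, ⟨1, []⟩])) .nil)))))) (.cons (.prune [(20, 1), (12, 1), (3, 2), (1, 2), (0, 1)]) (.cons (.ddet 0 [] (.ndet 3 [⟨1, [(18, 1), (17, 1), (1, 1)]⟩, ⟨1, [(18, 2), (17, 1), (1,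 1)]⟩, ⟨1, [(18, 1), (1, 1)]⟩] (.ddet 0 [] (.leaf 0 [⟨1, [(17, 2), (3, 1), (1, 1)]⟩, ⟨1, [(17, 1), (1, 1)]⟩, ⟨1, [(18, 1), (17, 2), (1, 1)]⟩, ⟨1, [(17, 2)]⟩, ⟨1, [(17, 1), (3, 1)]⟩, ⟨1, [(17, 1), (3, 1), (1, 1)]⟩, ⟨1, [(18, 1), (17, 1)]⟩, ⟨1, [(17, 1)]⟩, ⟨1, [(18, 1), (1, 1)]⟩, ⟨1, [(1, 1)]⟩, ⟨1, [(18, 2), (17, 1), (1, 1)]⟩, ⟨1, [(18, 1), (17, 1), (1, 1)]⟩, ⟨1, [(17, 1), (1, 1)]⟩, ⟨1, []⟩])))) .nil))))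
def s23_8_t2 : Tree := .nbr (.cons (.prune [(12, 1), (3, 1), (2, 1)]) (.cons (.ddet 0 [] (.nbr (.cons (.prune [(15, 1), (6, 1), (1, 1)]) (.cons (.prune [(21, 2), (15, 1), (13, 1), (9, 1), (1, 4)]) (.cons (.ddet 0 [] s23_8_t0) (.cons (.ddet 0 [] s23_8_t1) .nil)))))) (.cons (.prune [(12, 1), (1, 1)]) (.cons (.ddet 0 [] (.ndet 3 [⟨1, [(12, 2), (3, 2), (1, 1)]⟩, ⟨1, [(12, 3), (3, 3), (1, 1)]⟩, ⟨1, [(12, 1), (3, 1), (1, 1)]⟩] (.ddet 0 [] (.ndet 1 [⟨1, [(12, 2), (3, 1), (1, 1)]⟩, ⟨1, [(12, 3), (3, 2), (1, 1)]⟩, ⟨1, [(12, 2), (1, 1)]⟩] (.ddet 0 [] (.ndet 2 [⟨1, [(12, 2), (3, 1), (1, 1)]⟩, ⟨1, [(12, 1), (3, 1)]⟩, ⟨1, [(12, 1), (1, 1)]⟩] (.ddet 0 [] (.leaf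 0 [⟨1, [(12, 4), (3, 3), (1, 1)]⟩, ⟨1, [(12, 1), (3, 1)]⟩, ⟨1, [(12, 2), (3, 2)]⟩, ⟨1, [(12, 2), (3, 2)]⟩, ⟨1, [(12, 3), (3, 2), (1, 1)]⟩, ⟨1, [(12, 4), (3, 2), (1, 2)]⟩, ⟨1, [(12, 1), (3, 1)]⟩, ⟨1, [(12, 2), (3, 1), (1, 1)]⟩, ⟨1, []⟩, ⟨1, [(12, 1), (1, 1)]⟩, ⟨1, [(12, 1), (3, 1)]⟩, ⟨1, [(12, 2), (3, 1), (1, 1)]⟩, ⟨1, [(12, 3), (3, 1), (1, 2)]⟩, ⟨1, [(12, 1)]⟩])))))))) .nil))))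
def s23_8_t3 : Tree := .nbr (.cons (.prune [(20, 2), (12, 2), (9, 2), (6, 1), (1, 5)]) (.cons (.prune [(20, 1), (14, 1), (9, 1), (6, 1), (1, 3)]) (.cons (.ddet 0 [] (.split [1, 1, -1] (3000) (.leaf 0 [⟨1, [(20, 1), (0, 1)]⟩, ⟨1, [(0, 1)]⟩, ⟨4, [(24, 1), (22, 1), (20, 2), (15, 1)]⟩, ⟨4, [(24, 1), (22, 1), (20, 2), (15, 1)]⟩, ⟨1, [(20, 1)]⟩, ⟨1, [(20, 1), (1, 1)]⟩, ⟨1, [(19, 1)]⟩, ⟨1, [(18, 1)]⟩, ⟨1, []⟩, ⟨1, [(1, 1)]⟩, ⟨1, [(19, 1)]⟩, ⟨1, [(18, 1)]⟩, ⟨1, [(20, 1), (10, 1)]⟩, ⟨1, [(1, 1)]⟩]) (.leaf 2 [⟨1, [(20, 1)]⟩, ⟨1, [(24, 1), (20, 1), (0, 2)]⟩, ⟨1, [(0, 1)]⟩, ⟨1, [(24, 1), (20, 1)]⟩, ⟨1, [(24, 1), (20, 1), (1, 1)]⟩, ⟨1, [(20, 1), (1, 1)]⟩,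 ⟨1, []⟩, ⟨1, [(1, 1)]⟩, ⟨1, [(24, 1), (20, 1), (0, 2)]⟩, ⟨1, [(0, 1)]⟩, ⟨1, [(20, 1), (1, 1), (0, 1)]⟩, ⟨1, [(0, 2)]⟩, ⟨1, [(1, 1), (0, 1)]⟩]))) (.cons (.ddet 0 [] (.split [1, 0, -1] (0) (.leaf 0 [⟨1, [(20, 1), (0, 1)]⟩, ⟨1, [(0, 1)]⟩, ⟨1, [(20, 1), (1, 2)]⟩, ⟨1, [(20, 1), (1, 1)]⟩, ⟨1, [(20, 1)]⟩, ⟨1, [(20, 1)]⟩, ⟨1, [(18, 1), (1, 1)]⟩, ⟨1, [(18, 1)]⟩, ⟨1, [(1, 1)]⟩, ⟨1, []⟩, ⟨1, [(18, 1), (1, 2)]⟩, ⟨1, [(18, 1), (1, 1)]⟩, ⟨1, [(18, 1)]⟩, ⟨1, []⟩]) (.leaf 2 [⟨1, [(20, 1)]⟩, ⟨1, [(20, 1), (1, 2), (0, 1)]⟩, ⟨1, [(0, 1)]⟩, ⟨1, [(24, 1), (20, 1), (1, 1)]⟩, ⟨1, [(24, 1), (20, 1)]⟩, ⟨1, [(20, 1)]⟩, ⟨1, [(1, 1)]⟩, ⟨1, []⟩, ⟨1, [(20, 1), (1, 3), (0,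 1)]⟩, ⟨1, [(1, 1), (0, 1)]⟩, ⟨1, [(20, 1), (1, 1), (0, 1)]⟩, ⟨1, [(1, 1), (0, 2)]⟩, ⟨1, [(0, 1)]⟩]))) .nil))))
def s23_8_t4 : Tree := .nbr (.cons (.prune [(18, 2), (13, 1), (9, 1), (1, 1), (0, 2)]) (.cons (.prune [(21, 1), (18, 1), (13, 1), (9, 1), (1, 3)]) (.cons (.ddet 0 [] (.ndet 1 [⟨1, [(16, 1), (0, 2)]⟩, ⟨1, [(16, 1), (0, 1)]⟩, ⟨1, [(16, 1), (6, 1), (0, 2)]⟩] (.ddet 0 [] (.ndet 3 [⟨1, [(20, 1), (16, 1), (0, 2)]⟩, ⟨1, [(20, 2), (16, 1), (0, 2)]⟩, ⟨1, [(20, 1)]⟩] (.ddet 0 [] (.split [2, 1, -2] (4000) (.leaf 0 [⟨1, [(17, 1), (1, 1), (0, 1)]⟩, ⟨1, [(0, 1)]⟩, ⟨1, [(17, 1), (1, 3), (0, 2)]⟩, ⟨1, [(17, 1), (1, 2), (0, 1)]⟩, ⟨1, [(17, 1), (1, 1)]⟩,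 ⟨1, [(17, 1), (1, 1)]⟩, ⟨1, [(17, 1), (1, 3), (0, 1)]⟩, ⟨1, [(17, 1), (1, 2)]⟩, ⟨1, [(1, 1), (0, 1)]⟩, ⟨1, []⟩, ⟨1, [(17, 1), (1, 4), (0, 2)]⟩, ⟨1, [(17, 1), (1, 3), (0, 1)]⟩, ⟨1, [(17, 1), (1, 2)]⟩, ⟨1, []⟩]) (.leaf 2 [⟨1, [(17, 1), (1, 1)]⟩, ⟨1, [(21, 1), (17, 1), (1, 2)]⟩, ⟨1, [(0, 1)]⟩, ⟨1, [(21, 2), (17, 1)]⟩, ⟨1, [(21, 1), (17, 1)]⟩, ⟨1, [(17, 1), (1, 1)]⟩, ⟨1, [(21, 1)]⟩, ⟨1, []⟩, ⟨1, [(21, 2), (17, 1), (1, 2)]⟩, ⟨1, [(1, 1)]⟩, ⟨1, [(17, 1), (1, 2)]⟩, ⟨1, [(1, 1), (0, 1)]⟩, ⟨1, [(0, 1)]⟩]))))))) (.cons (.ddet 0 [] (.ndet 1 [⟨1, [(14, 1)]⟩, ⟨1, [(16, 1)]⟩, ⟨1, [(14, 1), (6, 1)]⟩] (.ddet 0 [] s23_8_t3))) .nil))))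
def s23_8_t5 : Tree := .nbr (.cons (.prune [(15, 1), (8, 1), (3, 1), (2, 2)]) (.cons (.ddet 0 [] s23_8_t4) (.cons (.prune [(14, 1), (8, 1), (3, 4), (1, 2), (0, 1)]) (.cons (.ddet 0 [] (.ndet 3 [⟨1, [(15, 1), (8, 1), (1, 1)]⟩, ⟨2, [(17, 1), (15, 3), (8, 3), (1, 2)]⟩, ⟨2, [(17, 1), (15, 1), (8, 1), (1, 2)]⟩] (.ddet 0 [] (.ndet 1 [⟨1, [(12, 2), (1, 1)]⟩, ⟨1, [(15, 1), (12, 1), (8, 1), (1, 1)]⟩, ⟨1, [(12, 2), (3, 1), (1, 1)]⟩] (.ddet 0 [] (.ndet 2 [⟨1, [(12, 2), (1, 1)]⟩, ⟨1, [(12, 1)]⟩, ⟨1, [(12, 1), (1, 1)]⟩] (.ddet 0 [] (.leaf 0 [⟨1, [(15, 2), (8, 2), (1, 1)]⟩, ⟨2, [(17, 1), (15, 1), (8, 1)]⟩, ⟨1, [(15, 1), (8, 1)]⟩, ⟨1, [(15, 1), (8, 1)]⟩, ⟨1,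 [(15, 1), (12, 1), (8, 1), (1, 1)]⟩, ⟨1, [(15, 1), (12, 2), (8, 1), (1, 2)]⟩, ⟨1, [(12, 1)]⟩, ⟨1, [(12, 2), (1, 1)]⟩, ⟨1, []⟩, ⟨1, [(12, 1), (1, 1)]⟩, ⟨1, [(12, 1)]⟩, ⟨1, [(12, 2), (1, 1)]⟩, ⟨1, [(12, 3), (1, 2)]⟩, ⟨1, [(12, 1)]⟩])))))))) .nil))))
def s23_8_n0 : Node := ⟨[⟨[1, 0, 0, -1], -200⟩, ⟨[1, 0, -1], -200⟩, ⟨[1, -1], -200⟩, ⟨[0, -1, 1, -1], 239700⟩, ⟨[0, 0, 1, -1], 239700⟩, ⟨[1, 1], 239700⟩, ⟨[0, -1, 1], 239700⟩, ⟨[0, 0, 1], 239700⟩, ⟨[1, 0, -1, 1], -4320⟩, ⟨[1, 1, -1, 1], -7340⟩, ⟨[1, -1, 0, 1], 239700⟩, ⟨[1, 0, 0, 1], 239700⟩, ⟨[1, 1, 0, 1], 237000⟩], [1], 0, none, (.ndet 1 [⟨4, [(11, 1), (9, 1), (7, 2), (2, 1)]⟩, ⟨2, [(11, 1), (9, 1),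 (2, 1)]⟩, ⟨1, [(11, 1), (8, 1)]⟩] (.ddet 0 [] (.nbr (.cons (.prune [(11, 2), (5, 1), (3, 1), (1, 2), (0, 2)]) (.cons (.prune [(8, 1), (1, 1)]) (.cons (.ddet 0 [] s23_8_t2) (.cons (.ddet 0 [] s23_8_t5) .nil)))))))⟩
def s23_8_t6 : Tree := .ddet 0 [] (.ndet 1 [⟨1, [(15, 1), (0, 2)]⟩, ⟨1, [(15, 1), (0, 1)]⟩, ⟨1, [(17, 1), (10, 1), (0, 1)]⟩] (.ddet 0 [] (.ndet 3 [⟨2, [(15, 1), (14, 1), (0, 4)]⟩, ⟨1, [(14, 1), (0, 2)]⟩, ⟨1, [(11, 1), (6, 1)]⟩] (.ddet 0 [] (.ndet 1 [⟨2, [(15, 1), (14, 1), (0, 2)]⟩, ⟨1, [(14, 1), (0, 1)]⟩, ⟨2, [(15, 1), (14, 1)]⟩] (.ddet 0 [] (.split [1, 0, 1] (13000) (.leaf 1 [⟨1, [(0, 1)]⟩, ⟨1, [(15, 1), (1, 1)]⟩, ⟨1, [(16, 1), (1,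 2)]⟩, ⟨1, []⟩, ⟨1, [(0, 2)]⟩, ⟨1, [(18, 1), (11, 1), (1, 1)]⟩, ⟨2, [(16, 1), (15, 1)]⟩, ⟨2, [(16, 1), (15, 1), (1, 4)]⟩, ⟨1, [(15, 1), (1, 1)]⟩, ⟨1, []⟩, ⟨1, [(18, 1), (11, 1), (1, 2)]⟩, ⟨2, [(16, 1), (15, 1), (1, 2)]⟩, ⟨1, []⟩]) (.leaf 3 [⟨1, [(15, 1), (12, 1), (7, 1), (0, 2)]⟩, ⟨1, [(0, 1)]⟩, ⟨1, [(15, 1), (0, 3)]⟩, ⟨1, []⟩, ⟨1, [(15, 1), (12, 1), (7, 1)]⟩, ⟨1, [(0, 1)]⟩, ⟨2, [(16, 1), (15, 1)]⟩, ⟨1, []⟩, ⟨1, [(0, 1)]⟩]))))))))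
def s23_8_t7 : Tree := .nbr (.cons (.prune [(20, 5), (17, 2), (13, 5), (6, 1), (1, 8)]) (.cons (.prune [(20, 1), (19, 1), (16, 2), (1, 2)]) (.cons (.ddet 0 [] (.ndet 1 [⟨1, [(20, 1), (12, 1), (0, 1)]⟩, ⟨1, [(20, 1), (12, 1)]⟩, ⟨1, [(12, 1), (9, 1), (0, 2)]⟩] (.ddet 0 [] (.leaf 1 [⟨1, [(14, 1), (9, 1), (0, 1)]⟩, ⟨1, [(20, 1), (12, 1)]⟩, ⟨2, [(20, 2), (13, 1), (12, 1)]⟩, ⟨1, []⟩, ⟨1, [(14, 2), (9, 2), (0, 2)]⟩, ⟨2, [(20, 2), (13, 1), (12, 1), (0, 2)]⟩, ⟨1, [(12, 1), (9, 1), (0, 3)]⟩, ⟨1, [(20, 1), (15, 1)]⟩, ⟨1, [(20, 1), (12, 1)]⟩, ⟨1, []⟩, ⟨1, [(20, 1), (16, 1)]⟩, ⟨1, [(20, 1), (12, 1), (0, 1)]⟩, ⟨1, [(0, 1)]⟩])))) (.cons (.ddet 0 [] (.ndet 1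 [⟨1, [(20, 1), (12, 1)]⟩, ⟨1, [(20, 1), (12, 1), (0, 1)]⟩, ⟨2, [(18, 1), (17, 1)]⟩] (.ddet 0 [] (.leaf 1 [⟨1, [(14, 1), (9, 1)]⟩, ⟨1, [(20, 1), (12, 1), (0, 1)]⟩, ⟨2, [(20, 2), (13, 1), (12, 1)]⟩, ⟨1, []⟩, ⟨1, [(14, 2), (9, 2)]⟩, ⟨1, [(20, 1), (13, 1), (3, 1)]⟩, ⟨2, [(18, 1), (17, 1)]⟩, ⟨1, [(20, 1), (15, 1)]⟩, ⟨1, [(20, 1), (12, 1), (0, 1)]⟩, ⟨1, []⟩, ⟨1, [(20, 1), (13, 1)]⟩, ⟨1, [(20, 1), (12, 1)]⟩, ⟨1, []⟩])))) .nil))))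
def s23_8_t8 : Tree := .ddet 0 [] (.ndet 3 [⟨1, [(14, 2), (9, 2), (1, 1)]⟩, ⟨1, [(14, 3), (9, 3), (1, 1)]⟩, ⟨1, [(14, 1), (9, 1), (1, 1)]⟩] (.ddet 0 [] (.ndet 1 [⟨1, [(14, 2), (10, 1), (9, 1), (1, 1)]⟩, ⟨1, [(14, 3), (10, 1), (9, 2), (1, 1)]⟩, ⟨1, [(14, 2), (10, 2), (1, 1)]⟩] (.ddet 0 [] (.ndet 2 [⟨1, [(14, 2), (10, 1), (9, 1), (1, 1)]⟩, ⟨1, [(14, 1), (9, 1)]⟩, ⟨1, [(14, 1), (10, 1), (1, 1)]⟩] (.ddet 0 [] (.ndet 1 [⟨1, [(14, 3), (10, 1), (9, 2), (1, 1)]⟩, ⟨1, [(14, 2), (9, 2)]⟩, ⟨1, [(14, 4), (10, 1), (9, 3), (1, 1)]⟩] (.ddet 0 [] (.leaf 1 [⟨1, [(14, 1), (9, 1)]⟩, ⟨1, [(14, 2), (9, 2)]⟩, ⟨1, [(14, 2), (10, 1), (9, 1), (1, 1)]⟩, ⟨1, []⟩, ⟨1, [(14,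 2), (9, 2)]⟩, ⟨1, [(14, 3), (10, 2), (9, 1), (1, 2)]⟩, ⟨1, [(14, 5), (10, 2), (9, 3), (1, 2)]⟩, ⟨1, [(14, 1), (9, 1)]⟩, ⟨1, [(14, 2), (9, 2)]⟩, ⟨1, []⟩, ⟨1, [(14, 1), (10, 1), (1, 1)]⟩, ⟨1, [(14, 3), (10, 1), (9, 2), (1, 1)]⟩, ⟨1, [(14, 1), (10, 1)]⟩])))))))))
def s23_8_t9 : Tree := .nbr (.cons (.prune [(14, 1), (9, 1), (2, 1)]) (.cons (.ddet 0 [] (.nbr (.cons (.prune [(17, 1), (14, 2), (10, 1), (3, 1), (0, 4)]) (.cons (.prune [(15, 1), (14, 1), (0, 2)]) (.cons s23_8_t6 (.cons (.ddet 0 [] (.ndet 1 [⟨2, [(17, 2), (10, 1), (9, 1)]⟩, ⟨1, [(15, 1)]⟩, ⟨1, [(17, 1), (10, 1)]⟩] (.ddet 0 [] s23_8_t7))) .nil)))))) (.cons (.prune [(14, 1), (7, 1), (1, 1),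 (0, 1)]) (.cons s23_8_t8 .nil))))
def s23_8_t10 : Tree := .ddet 0 [] (.ndet 1 [⟨1, [(17, 2), (14, 1), (6, 1), (0, 2)]⟩, ⟨1, [(17, 2), (14, 1), (6, 1), (0, 1)]⟩, ⟨1, [(17, 3), (14, 1), (6, 2), (0, 2)]⟩] (.ddet 0 [] (.ndet 3 [⟨1, [(17, 1), (14, 1), (0, 2)]⟩, ⟨1, [(20, 1), (14, 1), (0, 2)]⟩, ⟨2, [(16, 1), (11, 1)]⟩] (.ddet 0 [] (.ndet 1 [⟨1, [(17, 1), (14, 1), (0, 1)]⟩, ⟨1, [(20, 1), (14, 1), (0, 1)]⟩, ⟨1, [(17, 1), (14, 1)]⟩] (.ddet 0 [] (.split [1, 1, 1, -1] (10000) (.leaf 1 [⟨1, [(0, 1)]⟩, ⟨1, [(21, 1), (15, 1), (1, 1)]⟩, ⟨1, [(18, 2), (15, 1), (7, 1), (1, 2)]⟩, ⟨1, []⟩, ⟨1, [(0, 2)]⟩, ⟨1, [(18, 3), (15, 1), (7, 2), (1, 2)]⟩, ⟨1, [(18, 1), (15,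 1)]⟩, ⟨1, [(18, 1), (15, 1), (1, 2)]⟩, ⟨1, [(21, 1), (15, 1), (1, 1)]⟩, ⟨1, []⟩, ⟨1, [(18, 3), (15, 1), (7, 2), (1, 3)]⟩, ⟨1, [(18, 1), (15, 1), (1, 1)]⟩, ⟨1, []⟩]) (.leaf 3 [⟨1, [(21, 1), (15, 1), (1, 1), (0, 1)]⟩, ⟨1, [(0, 1)]⟩, ⟨1, [(21, 1), (15, 1), (0, 3)]⟩, ⟨1, []⟩, ⟨1, [(17, 1), (15, 1)]⟩, ⟨1, [(0, 1)]⟩, ⟨1, [(18, 1), (15, 1)]⟩, ⟨1, []⟩, ⟨1, [(0, 1)]⟩]))))))))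
def s23_8_t11 : Tree := .nbr (.cons (.prune [(20, 1), (18, 2), (6, 1), (1, 3)]) (.cons (.prune [(16, 1), (1, 1)]) (.cons (.ddet 0 [] (.ndet 1 [⟨1, [(20, 1), (12, 1), (0, 1)]⟩, ⟨1, [(20, 1), (12, 1)]⟩, ⟨1, [(20, 1), (17, 1), (0, 1)]⟩] (.ddet 0 [] (.split [0, 1, 1, -1] (3000) (.leaf 1 [⟨1, [(0, 1)]⟩, ⟨1, [(21, 1), (13, 1)]⟩, ⟨1, [(21, 2), (13, 1), (10, 1)]⟩, ⟨1, []⟩, ⟨1, [(0, 2)]⟩, ⟨1, [(21, 2), (13, 1), (10, 1), (1, 1)]⟩, ⟨1, [(21, 1), (18, 1), (1, 2)]⟩, ⟨1, [(21, 1), (16, 1), (10, 1)]⟩, ⟨1, [(21, 1), (13, 1)]⟩, ⟨1, []⟩, ⟨1, [(21, 2), (16, 1), (10, 2)]⟩, ⟨1, [(21, 1), (13, 1), (1, 1)]⟩, ⟨1, [(1, 1)]⟩]) (.leaf 3 [⟨1, [(24, 1), (18, 1), (1, 1), (0,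 3)]⟩, ⟨1, [(0, 1)]⟩, ⟨1, [(24, 1), (18, 1), (1, 2), (0, 4)]⟩, ⟨1, []⟩, ⟨1, [(24, 1), (18, 1), (1, 1), (0, 1)]⟩, ⟨1, [(0, 1)]⟩, ⟨1, [(24, 1), (18, 1), (1, 3), (0, 1)]⟩, ⟨1, []⟩, ⟨1, [(1, 1), (0, 1)]⟩]))))) (.cons (.ddet 0 [] (.ndet 1 [⟨1, [(20, 1), (12, 1)]⟩, ⟨1, [(20, 1), (12, 1), (0, 1)]⟩, ⟨1, [(20, 1), (17, 1)]⟩] (.ddet 0 [] (.split [1] (6000) (.leaf 1 [⟨1, [(0, 1)]⟩, ⟨1, [(21, 1), (13, 1), (1, 1)]⟩, ⟨1, [(21, 2), (13, 1), (10, 1)]⟩, ⟨1, []⟩, ⟨1, [(0, 2)]⟩, ⟨1, [(21, 3), (18, 1), (10, 2)]⟩, ⟨1, [(21, 1), (18, 1)]⟩, ⟨1, [(21, 2), (13, 1), (10, 1), (1, 1)]⟩, ⟨1, [(21, 1), (13, 1), (1, 1)]⟩, ⟨1, []⟩, ⟨1, [(21, 3), (13, 1), (10, 2)]⟩, ⟨1, [(21,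 1), (13, 1)]⟩, ⟨1, []⟩]) (.leaf 3 [⟨1, [(24, 1), (18, 1), (1, 2), (0, 3)]⟩, ⟨1, [(0, 1)]⟩, ⟨1, [(24, 1), (18, 1), (1, 1), (0, 4)]⟩, ⟨1, []⟩, ⟨1, [(24, 1), (18, 1), (1, 2), (0, 1)]⟩, ⟨1, [(0, 1)]⟩, ⟨1, [(24, 1), (18, 1), (0, 1)]⟩, ⟨1, []⟩, ⟨1, [(0, 1)]⟩]))))) .nil))))
def s23_8_t12 : Tree := .ddet 0 [] (.ndet 3 [⟨1, [(14, 2), (9, 2), (3, 1), (1, 1)]⟩, ⟨1, [(14, 3), (9, 3), (3, 1), (1, 1)]⟩, ⟨1, [(14, 1), (9, 1), (1, 1)]⟩] (.ddet 0 [] (.ndet 1 [⟨1, [(14, 3), (9, 2), (3, 2), (1, 1)]⟩, ⟨1, [(14, 4), (9, 3), (3, 2), (1, 1)]⟩, ⟨1, [(14, 4), (9, 2), (3, 3), (1, 1)]⟩] (.ddet 0 [] (.ndet 2 [⟨1, [(14, 3), (9, 2), (3, 2), (1, 1)]⟩, ⟨1, [(14, 1), (9, 1),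 (3, 1)]⟩, ⟨1, [(14, 2), (9, 1), (3, 1), (1, 1)]⟩] (.ddet 0 [] (.ndet 1 [⟨1, [(14, 4), (9, 3), (3, 2), (1, 1)]⟩, ⟨1, [(14, 2), (9, 2), (3, 1)]⟩, ⟨1, [(14, 5), (9, 4), (3, 2), (1, 1)]⟩] (.ddet 0 [] (.leaf 1 [⟨1, [(14, 1), (9, 1)]⟩, ⟨1, [(14, 2), (9, 2), (3, 1)]⟩, ⟨1, [(14, 3), (9, 2), (3, 2), (1, 1)]⟩, ⟨1, []⟩, ⟨1, [(14, 2), (9, 2)]⟩, ⟨1, [(14, 5), (9, 3), (3, 3), (1, 2)]⟩, ⟨1, [(14, 7), (9, 5), (3, 3), (1, 2)]⟩, ⟨1, [(14, 1), (9, 1), (3, 1)]⟩, ⟨1, [(14, 2), (9, 2), (3, 1)]⟩, ⟨1, []⟩, ⟨1, [(14, 2), (9, 1), (3, 2), (1, 1)]⟩, ⟨1, [(14, 4), (9, 3), (3, 2), (1, 1)]⟩, ⟨1, [(14, 2), (9, 1), (3, 1)]⟩])))))))))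
def s23_8_t13 : Tree := .nbr (.cons (.prune [(9, 1), (7, 1), (2, 2), (0, 1)]) (.cons (.ddet 0 [] (.nbr (.cons (.prune [(17, 2), (15, 1), (14, 3), (3, 2), (0, 6)]) (.cons (.prune [(17, 1), (14, 1), (0, 1)]) (.cons s23_8_t10 (.cons (.ddet 0 [] (.ndet 1 [⟨1, [(17, 2), (9, 1), (6, 1)]⟩, ⟨1, [(17, 2), (14, 1), (6, 1)]⟩, ⟨1, [(17, 3), (9, 1), (6, 2)]⟩] (.ddet 0 [] s23_8_t11))) .nil)))))) (.cons (.prune [(14, 1), (7, 1), (3, 1), (1, 1), (0, 1)]) (.cons s23_8_t12 .nil))))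
def s23_8_n1 : Node := ⟨[⟨[0, 1, 0, -1], -200⟩, ⟨[0, 1, -1], -200⟩, ⟨[-1, 1], -200⟩, ⟨[-1, 1, 0, -1], 5680⟩, ⟨[1, 1, 0, -1], -6296⟩, ⟨[-1, 1, 1], 239700⟩, ⟨[1, 1, 1], 239700⟩, ⟨[0, 0, -1, 1], 239700⟩, ⟨[1, 0, -1, 1], 239700⟩, ⟨[1, -1, 0, 1], -6320⟩, ⟨[-1, 0, 0, 1], 239700⟩, ⟨[1, 0, 0, 1], 239700⟩], [0, 1], 0, none, (.nbr (.cons (.prune [(11, 2), (9, 1), (8, 1), (6, 2), (1, 4)]) (.cons (.prune [(11, 2), (9, 1), (6, 1), (4, 1), (1, 3)]) (.cons (.ddet 0 [] s23_8_t9) (.cons (.ddet 0 [] s23_8_t13) .nil)))))⟩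
def s23_8_t14 : Tree := .ddet 0 [] (.nbr (.cons (.prune [(17, 1), (9, 1), (0, 1)]) (.cons (.prune [(17, 1), (12, 1), (0, 2)]) (.cons (.ddet 0 [] (.leaf 2 [⟨1, [(15, 1), (3, 1)]⟩, ⟨4, [(17, 1), (15, 2), (12, 1), (3, 4)]⟩, ⟨1, [(3, 1)]⟩, ⟨1, [(16, 1), (13, 1)]⟩, ⟨1, [(15, 1)]⟩, ⟨1, [(15, 1), (3, 1), (0, 1)]⟩, ⟨1, []⟩, ⟨1, [(0, 1)]⟩, ⟨4, [(17, 1), (15, 2), (12, 1), (3, 4)]⟩, ⟨1, [(3, 1)]⟩, ⟨1, [(15, 1), (3, 2), (0, 1)]⟩, ⟨1, [(3, 2)]⟩, ⟨1, [(3, 1)]⟩])) (.cons (.ddet 0 [] (.split [2, 1, -2] (4000) (.leaf 0 [⟨1, [(16, 1), (4, 1), (0, 1)]⟩, ⟨1, [(0, 1)]⟩, ⟨1, [(16, 1), (4, 3), (0, 2)]⟩, ⟨1, [(16, 1), (4, 2), (0, 1)]⟩, ⟨1, [(16, 1), (4, 1)]⟩, ⟨1, [(16,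 1), (4, 1)]⟩, ⟨1, [(16, 1), (4, 3), (0, 1)]⟩, ⟨1, [(16, 1), (4, 2)]⟩, ⟨1, [(4, 1), (0, 1)]⟩, ⟨1, []⟩, ⟨1, [(16, 1), (4, 4), (0, 2)]⟩, ⟨1, [(16, 1), (4, 3), (0, 1)]⟩, ⟨1, [(16, 1), (4, 2)]⟩, ⟨1, [(4, 1), (0, 1)]⟩]) (.leaf 2 [⟨1, [(16, 1), (4, 1)]⟩, ⟨1, [(16, 1), (4, 2), (1, 1)]⟩, ⟨1, [(0, 1)]⟩, ⟨1, [(16, 1), (1, 2)]⟩, ⟨1, [(16, 1), (1, 1)]⟩, ⟨1, [(16, 1), (4, 1)]⟩, ⟨1, [(1, 1)]⟩, ⟨1, []⟩, ⟨1, [(16, 1), (4, 2), (1, 2)]⟩, ⟨1, [(4, 1)]⟩, ⟨1, [(16, 1), (4, 2)]⟩, ⟨1, [(4, 1), (0, 1)]⟩, ⟨1, [(4, 1)]⟩]))) .nil)))))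
def s23_8_t15 : Tree := .nbr (.cons (.prune [(16, 1), (9, 1), (1, 1)]) (.cons (.prune [(17, 1), (9, 1), (1, 1)]) (.cons (.ddet 0 [] (.split [1, 1, -1] (3000) (.leaf 0 [⟨1, [(16, 1), (0, 1)]⟩, ⟨1, [(0, 1)]⟩, ⟨2, [(18, 1), (11, 1)]⟩, ⟨2, [(18, 1), (11, 1)]⟩, ⟨1, [(16, 1)]⟩, ⟨1, [(16, 1), (1, 1)]⟩, ⟨2, [(19, 2), (18, 1), (13, 1)]⟩, ⟨2, [(19, 2), (18, 1), (11, 1)]⟩, ⟨1, []⟩, ⟨1, [(1, 1)]⟩, ⟨2, [(19, 2), (18, 1), (13, 1)]⟩, ⟨2, [(19, 2), (18, 1), (11, 1)]⟩, ⟨1, [(19, 1), (16, 1)]⟩, ⟨1, [(0, 1)]⟩]) (.leaf 2 [⟨1, [(16, 1)]⟩, ⟨4, [(18, 1), (16, 2), (13, 1), (0, 4)]⟩, ⟨1, [(0, 1)]⟩, ⟨4, [(17, 2), (13, 1), (11, 1), (4, 4)]⟩, ⟨1, [(16, 1), (4, 1)]⟩, ⟨1,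 [(16, 1), (1, 1)]⟩, ⟨1, []⟩, ⟨1, [(1, 1)]⟩, ⟨4, [(18, 1), (16, 2), (13, 1), (0, 4)]⟩, ⟨1, [(0, 1)]⟩, ⟨1, [(16, 1), (1, 1), (0, 1)]⟩, ⟨1, [(0, 2)]⟩, ⟨1, []⟩]))) (.cons (.ddet 0 [] (.split [1, 0, -1] (0) (.leaf 0 [⟨1, [(16, 1), (0, 1)]⟩, ⟨1, [(0, 1)]⟩, ⟨1, [(16, 1), (1, 2)]⟩, ⟨1, [(16, 1), (1, 1)]⟩, ⟨1, [(16, 1)]⟩, ⟨1, [(16, 1)]⟩, ⟨1, [(19, 1), (16, 1), (1, 2)]⟩, ⟨1, [(19, 1), (16, 1), (1, 1)]⟩, ⟨1, [(1, 1)]⟩, ⟨1, []⟩, ⟨1, [(19, 1), (16, 1), (1, 3)]⟩, ⟨1, [(19, 1), (16, 1), (1, 2)]⟩, ⟨1, [(19, 1), (16, 1), (1, 1)]⟩, ⟨1, [(0, 1)]⟩]) (.leaf 2 [⟨1, [(16, 1)]⟩, ⟨1, [(16, 1), (1, 2), (0, 1)]⟩, ⟨1, [(0, 1)]⟩, ⟨1, [(16, 1), (4, 1), (1, 2)]⟩, ⟨1, [(16,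 1), (4, 1), (1, 1)]⟩, ⟨1, [(16, 1)]⟩, ⟨1, [(1, 1)]⟩, ⟨1, []⟩, ⟨1, [(16, 1), (1, 3), (0, 1)]⟩, ⟨1, [(1, 1), (0, 1)]⟩, ⟨1, [(16, 1), (1, 1), (0, 1)]⟩, ⟨1, [(1, 1), (0, 2)]⟩, ⟨1, []⟩]))) .nil))))
def s23_8_t16 : Tree := .nbr (.cons (.prune [(14, 1), (7, 1), (0, 2)]) (.cons (.prune [(14, 1), (7, 1), (1, 2)]) (.cons (.ddet 0 [] (.ndet 1 [⟨1, [(12, 1), (0, 2)]⟩, ⟨1, [(12, 1), (0, 1)]⟩, ⟨1, [(15, 1), (12, 1), (0, 2)]⟩] s23_8_t14)) (.cons (.ddet 0 [] (.ndet 1 [⟨2, [(15, 2), (14, 1), (7, 1)]⟩, ⟨1, [(12, 1)]⟩, ⟨2, [(15, 4), (14, 1), (7, 1)]⟩] (.ddet 0 [] s23_8_t15))) .nil))))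
def s23_8_t17 : Tree := .nbr (.cons (.prune [(11, 1), (3, 1), (2, 1)]) (.cons (.ddet 0 [] s23_8_t16) (.cons (.prune [(12, 1), (11, 1), (3, 1), (1, 1)]) (.cons (.ddet 0 [] (.ndet 3 [⟨1, [(12, 1), (11, 1), (6, 1), (1, 1)]⟩, ⟨2, [(12, 2), (11, 3), (6, 3), (1, 2)]⟩, ⟨2, [(11, 1), (6, 1), (1, 2)]⟩] (.ddet 0 [] (.ndet 1 [⟨1, [(12, 2), (11, 1), (6, 1), (1, 1)]⟩, ⟨2, [(12, 4), (11, 3), (6, 3), (1, 2)]⟩, ⟨1, [(12, 3), (11, 1), (6, 1), (1, 1)]⟩] (.ddet 0 [] (.ndet 2 [⟨1, [(12, 2), (11, 1), (6, 1), (1, 1)]⟩, ⟨2, [(12, 2), (11, 1), (6, 1)]⟩, ⟨2, [(12, 2), (11, 1), (6, 1), (1, 2)]⟩] (.ddet 0 [] (.leaf 0 [⟨1, [(12, 2), (11, 2), (6, 2), (1, 1)]⟩, ⟨2, [(11, 1),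 (6, 1)]⟩, ⟨1, [(12, 1), (11, 1), (6, 1)]⟩, ⟨1, [(12, 1), (11, 1), (6, 1)]⟩, ⟨2, [(12, 4), (11, 3), (6, 3), (1, 2)]⟩, ⟨1, [(12, 3), (11, 2), (6, 2), (1, 2)]⟩, ⟨2, [(12, 2), (11, 1), (6, 1)]⟩, ⟨1, [(12, 2), (11, 1), (6, 1), (1, 1)]⟩, ⟨1, []⟩, ⟨2, [(12, 2), (11, 1), (6, 1), (1, 2)]⟩, ⟨2, [(12, 2), (11, 1), (6, 1)]⟩, ⟨1, [(12, 2), (11, 1), (6, 1), (1, 1)]⟩, ⟨2, [(12, 6), (11, 3), (6, 3), (1, 4)]⟩, ⟨2, [(11, 1), (6, 1)]⟩])))))))) .nil))))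
def s23_8_n2 : Node := ⟨[⟨[0, 0, 1, -1], -200⟩, ⟨[0, -1, 1], -200⟩, ⟨[-1, 0, 1], -200⟩, ⟨[1, -1, 0, -1], 239700⟩, ⟨[1, 0, 0, -1], 239700⟩, ⟨[1, 1], 239700⟩, ⟨[1, 0, -1, 1], -4320⟩, ⟨[1, 1, -1, 1], -7340⟩, ⟨[1, -1, 0, 1], 239700⟩, ⟨[0, 0, 0, 1], -4295⟩, ⟨[1, 1, 0, 1], 239700⟩, ⟨[-1, 0, 1, 1], -4280⟩], [0, 0, 1], 0, none, (.ndet 1 [⟨2, [(8, 1), (1, 1)]⟩, ⟨2, [(8, 1), (3, 1)]⟩, ⟨1, [(7, 1)]⟩] (.ddet 0 [] (.ndet 3 [⟨2, [(9, 2), (8, 1), (1, 1)]⟩, ⟨2, [(9, 4), (8, 1), (1, 1)]⟩, ⟨1, [(9, 1)]⟩] (.ddet 0 [] s23_8_t17))))⟩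
def s23_8_t18 : Tree := .nbr (.cons (.prune [(13, 1), (10, 1), (3, 2), (0, 1)]) (.cons (.prune [(12, 1), (10, 1), (9, 2), (6, 2), (0, 4)]) (.cons (.ddet 0 [] (.ndet 1 [⟨1, [(13, 1), (10, 1), (3, 1), (0, 1)]⟩, ⟨1, [(13, 1), (10, 1), (3, 1)]⟩, ⟨1, [(13, 1), (10, 1), (0, 1)]⟩] (.ddet 0 [] (.leaf 3 [⟨1, [(13, 1), (10, 1), (3, 2)]⟩, ⟨1, [(3, 1)]⟩, ⟨1, [(13, 1), (10, 1), (3, 3), (0, 1)]⟩, ⟨1, []⟩, ⟨1, [(13, 1), (10, 1)]⟩, ⟨1, [(3, 1)]⟩, ⟨1, [(13, 1), (10, 1), (0, 2)]⟩, ⟨1, []⟩, ⟨1, [(13, 1), (3, 1)]⟩])))) (.cons (.ddet 0 [] (.ndet 1 [⟨1, [(13, 1), (10, 1), (3, 1)]⟩, ⟨1, [(13, 1), (10, 1), (3, 1), (0, 1)]⟩, ⟨1, [(13, 1), (10, 1)]⟩] (.ddet 0 [] (.split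 [1, 1, 1, -1] (10000) (.leaf 1 [⟨1, [(0, 1)]⟩, ⟨1, [(14, 1), (11, 1), (4, 2), (0, 1)]⟩, ⟨1, [(14, 1), (12, 1), (11, 1), (4, 2)]⟩, ⟨1, []⟩, ⟨1, [(0, 2)]⟩, ⟨1, [(14, 1), (12, 2), (11, 1), (4, 2)]⟩, ⟨1, [(14, 1), (11, 1)]⟩, ⟨1, [(14, 1), (11, 1), (4, 2)]⟩, ⟨1, [(14, 1), (11, 1), (4, 2), (0, 1)]⟩, ⟨1, []⟩, ⟨1, [(14, 1), (12, 2), (11, 1), (4, 3)]⟩, ⟨1, [(14, 1), (11, 1), (4, 1)]⟩, ⟨1, [(14, 1), (4, 1), (0, 1)]⟩]) (.leaf 3 [⟨1, [(14, 1), (11, 1), (4, 2)]⟩, ⟨1, [(0, 1)]⟩, ⟨1, [(14, 1), (11, 1), (4, 1), (0, 2)]⟩, ⟨1, []⟩, ⟨1, [(14, 1), (11, 1), (1, 2)]⟩, ⟨1, [(0, 1)]⟩, ⟨1, [(14, 1), (11, 1)]⟩, ⟨1, []⟩, ⟨1, [(14, 1), (4, 1)]⟩]))))) .nil))))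
def s23_8_t19 : Tree := .nbr (.cons (.prune [(13, 1), (11, 4), (10, 2), (6, 1), (1, 3)]) (.cons (.prune [(15, 2), (12, 1), (6, 1), (2, 1), (1, 2)]) (.cons (.ddet 0 [] (.ndet 1 [⟨1, [(13, 1), (11, 1), (10, 1)]⟩, ⟨2, [(12, 1), (11, 2), (10, 1)]⟩, ⟨1, [(13, 1), (10, 1), (0, 1)]⟩] (.ddet 0 [] (.split [0, 1, 1, -1] (3000) (.leaf 1 [⟨1, [(0, 1)]⟩, ⟨2, [(13, 1), (12, 2), (11, 1)]⟩, ⟨2, [(13, 1), (12, 4), (11, 1)]⟩, ⟨1, []⟩, ⟨1, [(0, 2)]⟩, ⟨1, [(14, 1), (12, 2), (11, 1)]⟩, ⟨1, [(14, 1), (11, 1), (1, 2)]⟩, ⟨1, [(16, 1), (13, 1), (12, 1)]⟩, ⟨2, [(13, 1), (12, 2), (11, 1)]⟩, ⟨1, []⟩, ⟨1, [(16, 1), (13, 1), (12, 2)]⟩, ⟨1, [(14, 1), (12, 1), (11, 1)]⟩, ⟨1,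 [(14, 1), (0, 1)]⟩]) (.leaf 3 [⟨1, [(14, 1), (11, 1), (0, 2)]⟩, ⟨1, [(0, 1)]⟩, ⟨1, [(14, 1), (11, 1), (1, 1), (0, 3)]⟩, ⟨1, []⟩, ⟨1, [(14, 1), (11, 1)]⟩, ⟨1, [(0, 1)]⟩, ⟨1, [(14, 1), (11, 1), (1, 2)]⟩, ⟨1, []⟩, ⟨1, [(14, 1)]⟩]))))) (.cons (.ddet 0 [] (.ndet 1 [⟨1, [(13, 1), (11, 1), (10, 1), (0, 1)]⟩, ⟨1, [(13, 1), (11, 1), (10, 1), (0, 2)]⟩, ⟨1, [(13, 1), (10, 1)]⟩] (.ddet 0 [] (.split [1] (6000) (.leaf 1 [⟨1, [(0, 1)]⟩, ⟨1, [(14, 1), (12, 1), (11, 1), (1, 2)]⟩, ⟨1, [(14, 1), (12, 2), (11, 1), (1, 1)]⟩, ⟨1, []⟩, ⟨1, [(0, 2)]⟩, ⟨1, [(14, 1), (12, 2), (11, 1)]⟩, ⟨1, [(14, 1), (11, 1)]⟩, ⟨1, [(14, 1), (12, 2), (11, 1), (1, 2)]⟩, ⟨1, [(14, 1), (12,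 1), (11, 1), (1, 2)]⟩, ⟨1, []⟩, ⟨1, [(14, 1), (12, 3), (11, 1), (1, 1)]⟩, ⟨1, [(14, 1), (12, 1), (11, 1), (1, 1)]⟩, ⟨1, [(14, 1), (0, 1)]⟩]) (.leaf 3 [⟨1, [(14, 1), (11, 1), (1, 2), (0, 2)]⟩, ⟨1, [(0, 1)]⟩, ⟨1, [(14, 1), (11, 1), (1, 1), (0, 3)]⟩, ⟨1, []⟩, ⟨1, [(14, 1), (11, 1), (1, 2)]⟩, ⟨1, [(0, 1)]⟩, ⟨1, [(14, 1), (11, 1)]⟩, ⟨1, []⟩, ⟨1, [(14, 1)]⟩]))))) .nil))))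
def s23_8_t20 : Tree := .nbr (.cons (.prune [(11, 1), (10, 3), (7, 4), (3, 2), (0, 7)]) (.cons (.prune [(10, 1), (7, 1), (0, 1)]) (.cons (.ddet 0 [] (.ndet 1 [⟨1, [(10, 1), (8, 1), (7, 1), (0, 2)]⟩, ⟨1, [(10, 1), (8, 1), (7, 1), (0, 1)]⟩, ⟨1, [(10, 1), (8, 2), (7, 1), (0, 2)]⟩] (.ddet 0 [] s23_8_t18))) (.cons (.ddet 0 [] (.ndet 1 [⟨2, [(9, 1), (8, 4), (7, 1)]⟩, ⟨1, [(10, 1), (8, 1), (7, 1)]⟩, ⟨2, [(9, 1), (8, 6), (7, 1)]⟩] (.ddet 0 [] s23_8_t19))) .nil))))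
def s23_8_t21 : Tree := .ddet 0 [] (.ndet 3 [⟨1, [(9, 1), (6, 2), (5, 2), (1, 1)]⟩, ⟨1, [(9, 1), (6, 3), (5, 3), (1, 1)]⟩, ⟨1, [(6, 1), (5, 1), (1, 1)]⟩] (.ddet 0 [] (.ndet 1 [⟨1, [(9, 1), (6, 2), (5, 3), (1, 1)]⟩, ⟨1, [(9, 1), (6, 3), (5, 4), (1, 1)]⟩, ⟨1, [(9, 1), (6, 2), (5, 4), (1, 1)]⟩] (.ddet 0 [] (.ndet 2 [⟨1, [(9, 1), (6, 2), (5, 3), (1, 1)]⟩, ⟨1, [(9, 1), (6, 1), (5, 1)]⟩, ⟨1, [(6, 1), (5, 2), (1, 1)]⟩] (.ddet 0 [] (.ndet 1 [⟨1, [(9, 1), (6, 3), (5, 4), (1, 1)]⟩, ⟨1, [(9, 1), (6, 2), (5, 2)]⟩, ⟨1, [(9, 1), (6, 4), (5, 5), (1, 1)]⟩] (.ddet 0 [] (.leaf 1 [⟨1, [(6, 1), (5, 1)]⟩, ⟨1, [(9, 1), (6, 2), (5, 2)]⟩, ⟨1, [(9, 1), (6, 2), (5, 3),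 (1, 1)]⟩, ⟨1, []⟩, ⟨1, [(6, 2), (5, 2)]⟩, ⟨1, [(9, 1), (6, 3), (5, 5), (1, 2)]⟩, ⟨1, [(9, 1), (6, 5), (5, 7), (1, 2)]⟩, ⟨1, [(9, 1), (6, 1), (5, 1)]⟩, ⟨1, [(9, 1), (6, 2), (5, 2)]⟩, ⟨1, []⟩, ⟨1, [(9, 1), (6, 1), (5, 2), (1, 1)]⟩, ⟨1, [(9, 1), (6, 3), (5, 4), (1, 1)]⟩, ⟨1, [(7, 1), (6, 1), (5, 1)]⟩])))))))))
def s23_8_n3 : Node := ⟨[⟨[0, 0, -1, 1], -200⟩, ⟨[0, -1, 0, 1], -200⟩, ⟨[-1, 0, 0, 1], -200⟩, ⟨[-1, 1, 0, -1], 5680⟩, ⟨[1, 1, -1], 239700⟩, ⟨[-1], 5700⟩, ⟨[1, 1, 1], 239700⟩, ⟨[1, -1, 0, 1], -6320⟩], [0, 0, 0, 1], 0, none, (.ndet 3 [⟨2, [(6, 2), (3, 1), (2, 2), (1, 1)]⟩, ⟨2, [(6, 2), (3, 1), (2, 4), (1, 1)]⟩, ⟨1, [(6, 1)]⟩] (.ddet 0 [] (.nbr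 (.cons (.prune [(9, 1), (6, 1), (5, 1), (2, 1)]) (.cons (.ddet 0 [] s23_8_t20) (.cons (.prune [(9, 1), (6, 1), (5, 2), (1, 1)]) (.cons s23_8_t21 .nil)))))))⟩
def s23_8 : Sys := ⟨[(0, 3000), (1, -3000), (2, -1000), (4, 2000)], [(3, 3000)], 4, [s23_8_n0, s23_8_n1, s23_8_n2, s23_8_n3], [279392, -6451, 255338, -24603], (.leaf 0 [⟨1, []⟩, ⟨1, []⟩, ⟨1, []⟩, ⟨1, []⟩, ⟨1, []⟩, ⟨1, []⟩, ⟨1, []⟩, ⟨1, []⟩, ⟨1, []⟩, ⟨1, []⟩, ⟨1, []⟩, ⟨1, []⟩, ⟨1, []⟩])⟩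

theorem s23_8_ok : s23_8.ok = true := by decide +kernel

def s24_22_n0 : Node := ⟨[⟨[0, 0, 1, -1], 88⟩, ⟨[-1, 1], 56⟩, ⟨[0, 1, 0, -1], -16⟩, ⟨[0, -1, 1], 136⟩, ⟨[-1, -1, 1], 264⟩, ⟨[0, -1], 72⟩, ⟨[-1, 1], 88⟩, ⟨[0, -2, 1], 168⟩, ⟨[0, -2, 1], 176⟩, ⟨[0, -1], 80⟩], [0, 0, 1], 0, none, (.ndet 0 [⟨1, [(7, 1), (6, 1)]⟩] (.ddet 1 [⟨1, [(3, 1)]⟩, ⟨1, [(7, 1)]⟩] (.ndet 1 [⟨1, [(6, 1)]⟩] (.ddet 0 [⟨1, [(6, 1), (3, 1), (0, 1)]⟩, ⟨1, [(0, 1)]⟩] (.ndet 1 [⟨1, [(3, 1)]⟩] (.ddet 1 [⟨1, [(6, 1), (0, 1)]⟩, ⟨1, [(6, 1), (0, 1)]⟩] (.leaf 0 [⟨1, [(6, 1), (3, 1), (0, 1)]⟩, ⟨1, [(6, 1)]⟩, ⟨1, [(3, 1)]⟩, ⟨1, [(6, 1), (0, 1)]⟩, ⟨1, [(6, 2), (0, 2)]⟩, ⟨1, [(0, 1)]⟩,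 ⟨1, [(6, 1)]⟩, ⟨1, [(6, 1), (0, 2)]⟩, ⟨1, [(6, 1), (0, 2)]⟩, ⟨1, [(0, 1)]⟩, ⟨1, [(0, 1)]⟩])))))))⟩
def s24_22 : Sys := ⟨[(3, 0), (4, -48)], [(1, 16), (2, 32), (4, 0)], 4, [s24_22_n0], [-256, -128, 96, -128], (.leaf 0 [⟨1, []⟩, ⟨1, []⟩, ⟨1, []⟩, ⟨1, []⟩, ⟨1, []⟩, ⟨1, []⟩, ⟨1, []⟩, ⟨1, []⟩, ⟨1, []⟩, ⟨1, []⟩])⟩

theorem s24_22_ok : s24_22.ok = true := by decide +kernel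

def s25_7_n0 : Node := ⟨[⟨[0, 0, 1], 40⟩, ⟨[0, 0, 1, -1], 32⟩, ⟨[-1], 8⟩, ⟨[0, -1], -16⟩, ⟨[0, 0, 1], 48⟩, ⟨[0, -1, 1], 48⟩, ⟨[-1, 0, 1], 40⟩, ⟨[-1], 16⟩, ⟨[0, -1], -8⟩, ⟨[0, 0, 1], 56⟩], [0, 0, 1], 0, none, (.ndet 1 [⟨1, [(0, 1)]⟩, ⟨1, [(8, 1)]⟩] (.ddet 0 [⟨1, [(2, 1)]⟩, ⟨1, [(1, 1)]⟩] (.ndet 2 [⟨1, [(0, 1)]⟩, ⟨1, [(4, 1)]⟩] (.ddet 1 [⟨1, [(0, 1)]⟩, ⟨1, [(2, 1), (0, 1)]⟩] (.ndet 0 [⟨1, [(2, 1)]⟩, ⟨1, [(1, 1)]⟩] (.ddet 2 [⟨1, [(0, 1)]⟩, ⟨1, [(0, 1)]⟩] (.leaf 0 [⟨1, [(0, 1)]⟩, ⟨1, [(2, 1), (0, 1)]⟩, ⟨1, [(0, 1)]⟩, ⟨1, []⟩, ⟨1, [(0, 1)]⟩, ⟨1, [(0, 1)]⟩, ⟨1, [(0, 2)]⟩, ⟨1, [(0, 1)]⟩, ⟨1, []⟩, ⟨1, [(0, 1)]⟩, ⟨1, []⟩])))))))⟩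
def s25_7 : Sys := ⟨[(0, 16), (3, 16), (4, 0)], [(0, 0), (1, -16), (2, -32)], 4, [s25_7_n0], [-32, 0, 80, 0], (.leaf 0 [⟨1, []⟩, ⟨1, []⟩, ⟨1, []⟩, ⟨1, []⟩, ⟨1, []⟩, ⟨1, []⟩, ⟨1, []⟩, ⟨1, []⟩, ⟨1, []⟩, ⟨1, []⟩])⟩

theorem s25_7_ok : s25_7.ok = true := by decide +kernel

def s25_8_n0 : Node := ⟨[⟨[0, 0, 0, 1], -56⟩, ⟨[0, 0, -1, 1], 24⟩, ⟨[0, 1], 68⟩, ⟨[0, 1, -1], 236⟩, ⟨[0, 0, -1], 80⟩, ⟨[-1, 1], 68⟩, ⟨[0, 0, -1, 1], 112⟩, ⟨[-1, 0, -1, 1], 288⟩, ⟨[-1], 88⟩], [0, 1, 0, 1], 0, none, (.ndet 2 [⟨1, [(8, 1)]⟩, ⟨1, [(2, 1)]⟩] (.ddet 0 [] (.ndet 1 [⟨1, [(6, 1)]⟩, ⟨1, [(5, 1)]⟩] (.ddet 0 [] (.leaf 0 [⟨1, [(6, 1)]⟩, ⟨1, [(6, 1), (0, 1)]⟩, ⟨1, [(2, 1)]⟩,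 ⟨1, [(1, 1)]⟩, ⟨1, [(0, 1)]⟩, ⟨1, [(2, 1)]⟩, ⟨1, [(6, 1), (0, 1)]⟩, ⟨1, [(6, 1), (0, 1)]⟩, ⟨1, []⟩, ⟨1, [(4, 1)]⟩])))))⟩
def s25_8 : Sys := ⟨[(0, -112), (3, -96), (4, 80)], [(3, 96)], 4, [s25_8_n0], [-192, 272, -128, 32], (.leaf 0 [⟨1, []⟩, ⟨1, []⟩, ⟨1, []⟩, ⟨1, []⟩, ⟨1, []⟩, ⟨1, []⟩, ⟨1, []⟩, ⟨1, []⟩, ⟨1, []⟩])⟩

theorem s25_8_ok : s25_8.ok = true := by decide +kernel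

def s25_22_n0 : Node := ⟨[⟨[0, 0, 1], 200⟩, ⟨[0, 0, 1, -1], 424⟩, ⟨[-1, 1], 216⟩, ⟨[0, 1, 0, -1], 152⟩, ⟨[0, -1, 1], 272⟩, ⟨[-1, -1, 1], 496⟩, ⟨[0, -1], 16⟩, ⟨[-1], 280⟩, ⟨[0, -1], 72⟩, ⟨[0, -2, 1], 296⟩, ⟨[0, -1], 24⟩, ⟨[0, 0, 1], 216⟩], [0, 0, 1], 0, none, (.ndet 1 [⟨1, [(0, 1)]⟩, ⟨1, [(8, 1), (3, 1), (0, 1)]⟩] (.ddet 1 [⟨1, [(9, 1)]⟩, ⟨1, [(8, 1)]⟩] (.ndet 2 [⟨1, [(0, 1)]⟩, ⟨1, [(3, 1), (0, 1)]⟩] (.ddet 0 [⟨1, [(9, 1), (3, 2), (0, 1)]⟩, ⟨1, [(3, 1)]⟩] (.ndet 0 [⟨1, [(9, 1), (3, 1)]⟩, ⟨1, [(3, 1)]⟩] (.ddet 1 [⟨1, [(3, 2), (0, 1)]⟩, ⟨1, [(3, 2), (0, 1)]⟩] (.leaf 0 [⟨1, [(3, 1), (0, 1)]⟩, ⟨1, [(9, 1), (3, 2), (0, 1)]⟩, ⟨1, [(0, 1)]⟩, ⟨1, [(9,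 1)]⟩, ⟨1, [(3, 2), (0, 1)]⟩, ⟨1, [(3, 3), (0, 2)]⟩, ⟨1, [(3, 1)]⟩, ⟨1, [(3, 1), (0, 1)]⟩, ⟨1, [(3, 1)]⟩, ⟨1, [(3, 3), (0, 1)]⟩, ⟨1, [(3, 1)]⟩, ⟨1, [(3, 1), (0, 1)]⟩, ⟨1, [(3, 1)]⟩])))))))⟩
def s25_22 : Sys := ⟨[(0, -32), (3, 32), (4, 32)], [(1, 16), (2, 0), (4, 0)], 4, [s25_22_n0], [-496, -80, 464, -384], (.leaf 0 [⟨1, []⟩, ⟨1, []⟩, ⟨1, []⟩, ⟨1, []⟩, ⟨1, []⟩, ⟨1, []⟩, ⟨1, []⟩, ⟨1, []⟩, ⟨1, []⟩, ⟨1, []⟩, ⟨1, []⟩, ⟨1, []⟩])⟩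

theorem s25_22_ok : s25_22.ok = true := by decide +kernel

def s27_7_n0 : Node := ⟨[⟨[0, 0, 1], 152⟩, ⟨[-1, 0, 1], 216⟩, ⟨[0, 0, 1, -1], 160⟩, ⟨[-1], 112⟩, ⟨[0, -1], 0⟩, ⟨[0, -1, 1], 192⟩, ⟨[0, 0, 1], 104⟩, ⟨[-1, 0, 1], 176⟩, ⟨[0, -1], 8⟩, ⟨[0, 0, 1], 144⟩, ⟨[0, 0, 1], 192⟩], [0, 0, 1], 0, none, (.ndet 2 [⟨1, [(0, 1)]⟩, ⟨1, [(7, 1), (0, 1)]⟩, ⟨1, [(8, 1)]⟩] (.ddet 0 [⟨1, [(7, 1)]⟩, ⟨1, [(2, 1)]⟩] (.ndet 1 [⟨1, [(0, 1)]⟩, ⟨1, [(2, 1), (0, 1)]⟩, ⟨1, []⟩] (.ddet 1 [⟨1, [(0, 1)]⟩, ⟨1, [(7, 1), (0, 1)]⟩] (.ndet 0 [⟨1, []⟩, ⟨1, [(7, 1)]⟩, ⟨1, [(2, 1)]⟩] (.ddet 2 [⟨1, [(0, 1)]⟩, ⟨1, [(0, 1)]⟩] (.leaf 0 [⟨1, [(0, 1)]⟩, ⟨1, [(0, 2)]⟩, ⟨1, [(7, 1), (0,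 1)]⟩, ⟨1, [(0, 1)]⟩, ⟨1, []⟩, ⟨1, [(0, 1)]⟩, ⟨1, [(0, 1)]⟩, ⟨1, [(0, 2)]⟩, ⟨1, []⟩, ⟨1, [(0, 1)]⟩, ⟨1, [(0, 1)]⟩, ⟨1, []⟩])))))))⟩
def s27_7 : Sys := ⟨[(0, 16), (1, -32), (3, 64), (4, 0)], [(0, -32), (1, 16), (2, -64)], 4, [s27_7_n0], [-176, -32, 352, -32], (.leaf 0 [⟨1, []⟩, ⟨1, []⟩, ⟨1, []⟩, ⟨1, []⟩, ⟨1, []⟩, ⟨1, []⟩, ⟨1, []⟩, ⟨1, []⟩, ⟨1, []⟩, ⟨1, []⟩, ⟨1, []⟩])⟩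

theorem s27_7_ok : s27_7.ok = true := by decide +kernel

def s28_16_t0 : Tree := .ddet 0 [] (.ndet 2 [⟨1, [(6, 1)]⟩, ⟨1, [(6, 1), (0, 1)]⟩] (.ddet 0 [] (.ndet 0 [⟨1, [(4, 1)]⟩, ⟨1, [(4, 1), (0, 1)]⟩] (.ddet 0 [] (.ndet 1 [⟨1, [(4, 1), (0, 1)]⟩, ⟨1, [(4, 1)]⟩] (.ddet 0 [] (.ndet 0 [⟨1, [(4, 1), (0, 1)]⟩, ⟨1, []⟩] (.ddet 0 [] (.leaf 0 [⟨1, [(0, 1)]⟩, ⟨1, [(4, 1), (0, 1)]⟩, ⟨1, [(4, 1), (0, 1)]⟩, ⟨1, [(0, 1)]⟩, ⟨1, [(4, 1), (0, 1)]⟩, ⟨1, [(0, 1)]⟩, ⟨1, [(4, 1), (0, 1)]⟩, ⟨1, [(4, 1), (0, 1)]⟩, ⟨1, [(4, 1)]⟩, ⟨1, [(4, 1), (0, 1)]⟩, ⟨1, [(4, 1)]⟩, ⟨1, [(4, 1), (0, 1)]⟩, ⟨1, [(4, 1)]⟩, ⟨1, []⟩, ⟨1, [(0, 1)]⟩, ⟨1, [(1, 1)]⟩])))))))))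
def s28_16_n0 : Node := ⟨[⟨[0, -1, 1], 64⟩, ⟨[0, 0, 1, -1], 296⟩, ⟨[-1, 0, 1], 312⟩, ⟨[0, -1, 1], 112⟩, ⟨[-1, 0, 1, -1], 264⟩, ⟨[0, -1, 1, -1], 16⟩, ⟨[0, 0, 1, -1], 280⟩, ⟨[-1, 0, 1, -1], 216⟩, ⟨[0, 1], 296⟩, ⟨[0, 0, 1, -1], 328⟩, ⟨[-1, 1], 216⟩, ⟨[-1, 0, 1, -1], 200⟩, ⟨[-1, 1], 168⟩, ⟨[-1], -96⟩, ⟨[0, -1, 1, -1], 64⟩], [0, 1], 0, none, (.ndet 1 [⟨1, [(11, 1)]⟩, ⟨1, [(6, 1), (0, 1)]⟩] (.ddet 0 [] (.ndet 2 [⟨1, [(11, 1), (4, 1)]⟩, ⟨1, [(11, 1)]⟩] (.ddet 0 [] (.ndet 0 [⟨1, [(4, 1), (0, 1)]⟩, ⟨1, [(0, 1)]⟩] (.ddet 0 [] (.ndet 1 [⟨1, [(6, 1), (0, 1)]⟩, ⟨1, [(4, 1), (0, 1)]⟩] s28_16_t0)))))))⟩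
def s28_16 : Sys := ⟨[(2, -32), (3, 0), (4, -64)], [(4, -80)], 4, [s28_16_n0], [80, 512, 672, 16], (.leaf 0 [⟨1, []⟩, ⟨1, []⟩, ⟨1, []⟩, ⟨1, []⟩, ⟨1, []⟩, ⟨1, []⟩, ⟨1, []⟩, ⟨1, []⟩, ⟨1, []⟩, ⟨1, []⟩, ⟨1, []⟩, ⟨1, []⟩, ⟨1, []⟩, ⟨1, []⟩, ⟨1, []⟩])⟩

theorem s28_16_ok : s28_16.ok = true := by decide +kernel

end Pool.Agent.H81.RDE.Data
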