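import Pool.Agent.H81.RDE.System

/-! Data file (generated): certificates. -/

set_option maxRecDepth 100000

namespace Pool.Agent.H81.RDE.Data

def s8_18_t0 : Tree := .ndet 0 [] (.dbr (.cons (.ndet 0 [] (.ddet 1 [⟨2, [(13, 1), (11, 2), (4, 1), (0, 3)]⟩] (.split [3, 2, -5] (-10000) (.leaf 0 [⟨1, [(14, 1), (12, 1), (5, 1)]⟩, ⟨1, [(0, 1)]⟩, ⟨2, [(14, 5), (12, 6), (5, 5), (1, 1)]⟩, ⟨1, [(14, 1), (12, 1), (5, 1), (1, 1)]⟩, ⟨1, [(1, 1)]⟩, ⟨1, [(12, 3), (3, 2)]⟩, ⟨1, []⟩, ⟨1, [(12, 3), (3, 2)]⟩, ⟨2, [(14, 1), (12, 2), (5, 1), (1, 3)]⟩, ⟨2, [(14, 3), (12, 4), (5, 3), (1, 1)]⟩, ⟨2, [(12, 5), (3, 3), (0, 1)]⟩, ⟨1, [(14, 3), (12, 4), (5, 3), (1, 1)]⟩, ⟨2,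 [(14, 1), (12, 8), (10, 1)]⟩, ⟨1, [(12, 2), (3, 2)]⟩]) (.leaf 2 [⟨2, [(12, 7), (3, 5), (0, 3)]⟩, ⟨2, [(12, 19), (3, 13), (0, 5)]⟩, ⟨1, [(0, 1)]⟩, ⟨1, [(12, 4), (3, 3), (0, 1)]⟩, ⟨1, []⟩, ⟨1, []⟩, ⟨1, [(12, 3), (3, 2), (0, 1)]⟩, ⟨1, [(12, 2), (3, 2), (0, 1)]⟩])))) (.cons (.ndet 0 [] (.ddet 1 [⟨3, [(13, 1), (4, 2), (3, 1), (1, 2)]⟩] (.leaf 0 [⟨1, [(13, 1), (11, 1), (4, 1)]⟩, ⟨2, [(13, 1), (4, 1), (0, 5)]⟩, ⟨2, [(13, 5), (11, 6), (4, 5), (0, 1)]⟩, ⟨1, [(13, 1), (11, 1), (4, 1)]⟩, ⟨1, []⟩, ⟨1, [(13, 1), (11, 1), (4, 1), (0, 1)]⟩, ⟨1, [(0, 1)]⟩, ⟨1, [(13, 1), (11, 1), (4, 1), (0, 2)]⟩, ⟨3, [(13, 1), (4, 2), (3, 1), (1, 2)]⟩, ⟨2, [(13, 3), (11, 4), (4,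 3), (0, 1)]⟩, ⟨1, [(13, 1), (11, 1), (4, 1), (0, 2)]⟩, ⟨1, [(13, 3), (11, 4), (4, 3)]⟩, ⟨2, [(13, 3), (11, 4), (4, 3), (0, 1)]⟩, ⟨1, [(13, 1), (4, 1), (0, 1)]⟩]))) .nil)))
def s8_18_t1 : Tree := .ndet 0 [] (.ddet 1 [⟨3, [(12, 1), (3, 2), (2, 1), (0, 1)]⟩] (.ndet 0 [] (.ddet 0 [⟨1, [(12, 1), (3, 1), (0, 1)]⟩] (.ndet 0 [] (.ddet 1 [⟨1, [(12, 1), (3, 1), (0, 2)]⟩] (.ndet 0 [] (.dbr (.cons (.leaf 0 [⟨1, [(13, 2), (4, 3), (3, 1), (0, 1)]⟩, ⟨1, [(13, 6), (4, 9), (3, 3), (0, 8)]⟩, ⟨1, [(13, 6), (4, 9), (3, 3), (0, 5)]⟩, ⟨1, [(13, 2), (4, 3), (3, 1), (0, 2)]⟩, ⟨1, [(0, 1)]⟩, ⟨1, [(13, 4), (4, 6), (3, 2), (0, 4)]⟩, ⟨1, [(13, 2), (4, 3), (3, 1), (0, 4)]⟩,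 ⟨1, [(13, 6), (4, 9), (3, 3), (0, 8)]⟩, ⟨1, []⟩, ⟨1, [(13, 4), (4, 6), (3, 2), (0, 4)]⟩, ⟨1, [(13, 6), (4, 9), (3, 3), (0, 7)]⟩, ⟨1, [(13, 6), (4, 9), (3, 3), (0, 4)]⟩, ⟨1, [(13, 4), (4, 6), (3, 2), (0, 3)]⟩, ⟨2, [(13, 7), (4, 10), (3, 3), (0, 7)]⟩]) (.cons (.leaf 0 [⟨3, [(13, 4), (4, 5), (3, 1), (1, 4)]⟩, ⟨1, [(13, 3), (4, 3), (1, 6)]⟩, ⟨1, [(13, 4), (4, 5), (3, 1), (1, 4)]⟩, ⟨3, [(13, 4), (4, 5), (3, 1), (1, 4)]⟩, ⟨1, []⟩, ⟨3, [(13, 7), (4, 8), (3, 1), (1, 10)]⟩, ⟨1, [(13, 1), (4, 1), (1, 2)]⟩, ⟨3, [(13, 10), (4, 11), (3, 1), (1, 16)]⟩, ⟨1, [(0, 1)]⟩, ⟨3, [(13, 8), (4, 10), (3, 2), (1, 8)]⟩, ⟨3, [(13, 10), (4, 11), (3, 1), (1, 16)]⟩, ⟨3, [(13,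 13), (4, 17), (3, 4), (1, 10)]⟩, ⟨3, [(13, 8), (4, 10), (3, 2), (1, 8)]⟩, ⟨1, [(13, 2), (4, 2), (1, 3)]⟩]) .nil)))))))))
def s8_18_t2 : Tree := .ndet 0 [] (.dbr (.cons (.ndet 0 [] (.ddet 1 [⟨1, [(13, 1), (9, 1), (2, 4)]⟩] (.split [3, 2, -5] (-10000) (.leaf 0 [⟨1, [(14, 1), (12, 1), (7, 1)]⟩, ⟨1, [(0, 1)]⟩, ⟨1, [(14, 3), (12, 2), (7, 3), (3, 1)]⟩, ⟨1, [(14, 1), (12, 1), (10, 1), (3, 3)]⟩, ⟨1, [(1, 1)]⟩, ⟨7, [(14, 6), (12, 6), (7, 6), (0, 3)]⟩, ⟨1, []⟩, ⟨7, [(14, 6), (12, 6), (7, 6), (0, 3)]⟩, ⟨1, [(14, 1), (10, 1), (3, 4)]⟩, ⟨1, [(14, 2), (12, 1), (7, 2), (3, 1)]⟩, ⟨7, [(14, 5), (12, 5), (7, 5), (0, 6)]⟩, ⟨1, [(14, 4), (12, 2), (7, 4), (3, 2)]⟩,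 ⟨7, [(14, 11), (12, 11), (7, 11), (0, 2)]⟩, ⟨7, [(14, 3), (12, 5), (10, 3), (0, 3)]⟩]) (.leaf 2 [⟨1, [(14, 1), (12, 1), (7, 1), (0, 1)]⟩, ⟨7, [(14, 19), (12, 19), (7, 19), (0, 8)]⟩, ⟨1, [(0, 1)]⟩, ⟨7, [(14, 8), (12, 8), (7, 8), (0, 3)]⟩, ⟨1, []⟩, ⟨1, []⟩, ⟨7, [(14, 6), (12, 6), (7, 6), (0, 4)]⟩, ⟨14, [(14, 11), (10, 1), (7, 10), (0, 8)]⟩])))) (.cons (.ndet 0 [] (.ddet 1 [⟨1, [(13, 1), (9, 1), (2, 4), (0, 1)]⟩] (.leaf 0 [⟨2, [(13, 3), (9, 3), (2, 12), (0, 4)]⟩, ⟨2, [(13, 1), (9, 1), (2, 4), (0, 6)]⟩, ⟨1, [(13, 4), (9, 4), (2, 16), (0, 6)]⟩, ⟨2, [(13, 3), (9, 3), (2, 12), (0, 4)]⟩, ⟨1, []⟩, ⟨2, [(13, 3), (9, 3), (2, 12), (0, 6)]⟩, ⟨1, [(0, 1)]⟩,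 ⟨2, [(13, 3), (9, 3), (2, 12), (0, 8)]⟩, ⟨1, [(13, 1), (9, 1), (2, 4), (0, 1)]⟩, ⟨2, [(13, 5), (9, 5), (2, 20), (0, 8)]⟩, ⟨2, [(13, 3), (9, 3), (2, 12), (0, 8)]⟩, ⟨1, [(13, 5), (9, 5), (2, 20), (0, 7)]⟩, ⟨2, [(13, 5), (9, 5), (2, 20), (0, 8)]⟩, ⟨1, [(13, 1), (9, 1), (2, 3), (0, 2)]⟩]))) .nil)))
def s8_18_t3 : Tree := .ndet 0 [] (.ddet 1 [⟨2, [(11, 1), (9, 2), (7, 1), (0, 2)]⟩] (.ndet 0 [] (.dbr (.cons s8_18_t2 (.cons (.ndet 0 [] (.ddet 0 [⟨1, [(12, 1), (10, 1), (5, 1), (0, 2)]⟩] (.ndet 0 [] (.ddet 1 [⟨1, [(12, 2), (10, 2), (5, 2), (0, 3)]⟩] (.leaf 2 [⟨1, [(12, 3), (10, 3), (5, 3), (0, 6)]⟩, ⟨1, [(12, 5), (10, 5), (5, 5), (0, 6)]⟩, ⟨1, [(12, 2),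 (10, 2), (5, 2), (0, 6)]⟩, ⟨1, [(12, 2), (10, 2), (5, 2), (0, 3)]⟩, ⟨1, []⟩, ⟨1, []⟩, ⟨1, [(12, 2), (10, 2), (5, 2), (0, 3)]⟩, ⟨1, [(12, 2), (10, 1), (5, 2), (0, 3)]⟩]))))) .nil)))))
def s8_18_t4 : Tree := .dbr (.cons (.ndet 0 [] (.dbr (.cons (.ndet 0 [] (.ddet 1 [⟨3, [(12, 1), (3, 2), (2, 1), (0, 2)]⟩] (.ndet 0 [] (.ddet 0 [⟨1, [(10, 1), (1, 1)]⟩] s8_18_t0)))) (.cons s8_18_t1 .nil)))) (.cons (.ndet 0 [] (.ddet 0 [⟨2, [(11, 1), (7, 1), (0, 2)]⟩] s8_18_t3)) .nil))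
def s8_18_t5 : Tree := .ndet 0 [] (.dbr (.cons (.ndet 0 [] (.ddet 1 [⟨3, [(13, 1), (11, 6), (3, 3), (0, 5)]⟩] (.split [0, 2, -5, 3] (-4000) (.leaf 0 [⟨3, [(14, 2), (12, 9), (4, 6), (1, 1)]⟩, ⟨1, [(0, 1)]⟩, ⟨3, [(14, 5), (12, 24), (4, 15), (1, 4)]⟩, ⟨3, [(14, 2), (12, 9), (4, 6), (1, 4)]⟩, ⟨1, [(1, 1)]⟩, ⟨7, [(14, 4), (12, 19), (4, 12), (0, 2)]⟩, ⟨1, []⟩, ⟨7, [(14, 4), (12, 19), (4, 12), (0, 2)]⟩, ⟨3, [(14, 1), (12, 6), (4, 3), (1, 5)]⟩, ⟨1, [(14, 1), (12, 5), (4, 3), (1, 1)]⟩, ⟨7, [(14, 3), (12, 16), (4, 9), (0, 5)]⟩, ⟨1, [(14, 2), (12, 10), (4, 6), (1, 2)]⟩, ⟨1, [(14, 1), (12, 5), (4, 3)]⟩, ⟨7, [(14, 4), (12, 12), (4, 12), (0, 2)]⟩]) (.leaf 2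 [⟨7, [(14, 5), (12, 22), (4, 15), (0, 8)]⟩, ⟨7, [(14, 13), (12, 60), (4, 39), (0, 11)]⟩, ⟨1, [(0, 1)]⟩, ⟨7, [(14, 6), (12, 25), (4, 18), (0, 4)]⟩, ⟨1, []⟩, ⟨1, []⟩, ⟨7, [(14, 4), (12, 19), (4, 12), (0, 5)]⟩, ⟨7, [(14, 4), (12, 12), (4, 12), (0, 5)]⟩])))) (.cons (.ndet 0 [] (.ddet 1 [⟨1, [(11, 1), (1, 1)]⟩] (.leaf 0 [⟨1, [(13, 1), (11, 1), (4, 1), (3, 1)]⟩, ⟨3, [(13, 1), (11, 3), (3, 3), (0, 7)]⟩, ⟨1, [(13, 2), (11, 6), (4, 1), (3, 4)]⟩, ⟨1, [(13, 1), (11, 1), (4, 1), (3, 1)]⟩, ⟨1, []⟩, ⟨3, [(13, 2), (11, 9), (3, 6), (0, 2)]⟩, ⟨1, [(0, 1)]⟩, ⟨3, [(13, 2), (11, 9), (3, 6), (0, 5)]⟩, ⟨1, [(11, 1), (1, 1)]⟩, ⟨1, [(13, 1), (11, 5), (3, 3)]⟩, ⟨3, [(13,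 2), (11, 9), (3, 6), (0, 5)]⟩, ⟨1, [(13, 3), (11, 4), (4, 3), (3, 3)]⟩, ⟨1, [(13, 1), (11, 5), (3, 3)]⟩, ⟨3, [(13, 2), (11, 6), (3, 6), (0, 2)]⟩]))) .nil)))
def s8_18_t6 : Tree := .ndet 0 [] (.ddet 1 [⟨1, [(10, 1)]⟩] (.ndet 0 [] (.ddet 0 [⟨1, [(12, 1), (3, 1), (2, 1), (0, 1)]⟩] (.ndet 0 [] (.ddet 1 [⟨1, [(12, 1), (3, 1), (2, 1), (0, 2)]⟩] (.ndet 0 [] (.dbr (.cons (.leaf 0 [⟨1, [(13, 2), (4, 3), (0, 1)]⟩, ⟨1, [(13, 6), (4, 9), (0, 8)]⟩, ⟨1, [(13, 6), (4, 9), (0, 5)]⟩, ⟨1, [(13, 2), (4, 3), (0, 2)]⟩, ⟨1, [(0, 1)]⟩, ⟨1, [(13, 4), (4, 6), (0, 4)]⟩, ⟨1, [(13, 2), (4, 3), (0, 4)]⟩, ⟨1, [(13, 6), (4, 9), (0, 8)]⟩, ⟨1, []⟩, ⟨1, [(13, 4), (4, 6), (0, 4)]⟩,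 ⟨1, [(13, 6), (4, 9), (0, 7)]⟩, ⟨1, [(13, 6), (4, 9), (0, 4)]⟩, ⟨1, [(13, 4), (4, 6), (0, 3)]⟩, ⟨2, [(13, 7), (4, 10), (3, 1), (0, 7)]⟩]) (.cons (.leaf 0 [⟨3, [(13, 4), (4, 5), (3, 2), (1, 4)]⟩, ⟨1, [(13, 3), (4, 3), (3, 3), (1, 6)]⟩, ⟨1, [(13, 4), (4, 5), (3, 2), (1, 4)]⟩, ⟨3, [(13, 4), (4, 5), (3, 2), (1, 4)]⟩, ⟨1, []⟩, ⟨3, [(13, 7), (4, 8), (3, 5), (1, 10)]⟩, ⟨1, [(13, 1), (4, 1), (3, 1), (1, 2)]⟩, ⟨3, [(13, 10), (4, 11), (3, 8), (1, 16)]⟩, ⟨1, [(0, 1)]⟩, ⟨3, [(13, 8), (4, 10), (3, 4), (1, 8)]⟩, ⟨3, [(13, 10), (4, 11), (3, 8), (1, 16)]⟩, ⟨3, [(13, 13), (4, 17), (3, 5), (1, 10)]⟩, ⟨3, [(13, 8), (4, 10), (3, 4), (1, 8)]⟩, ⟨1, [(13, 2), (4, 2),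 (3, 2), (1, 3)]⟩]) .nil)))))))))
def s8_18_t7 : Tree := .dbr (.cons (.ndet 0 [] (.ddet 0 [⟨1, [(12, 1), (1, 3)]⟩] (.ndet 0 [] (.ddet 1 [⟨1, [(12, 2), (10, 2), (2, 1), (1, 4)]⟩] (.split [0, 2, -5, 3] (-4000) (.leaf 0 [⟨1, [(16, 1), (13, 7), (2, 21), (0, 3)]⟩, ⟨1, [(0, 1)]⟩, ⟨1, [(16, 3), (13, 19), (2, 57), (0, 8)]⟩, ⟨1, [(16, 1), (13, 8), (2, 24), (0, 3)]⟩, ⟨1, [(13, 1), (2, 3)]⟩, ⟨1, [(16, 1), (13, 6), (2, 18), (0, 3)]⟩, ⟨1, []⟩, ⟨1, [(16, 1), (13, 6), (2, 18), (0, 3)]⟩, ⟨1, [(16, 1), (13, 6), (2, 18), (0, 2)]⟩, ⟨1, [(16, 2), (13, 12), (2, 36), (0, 5)]⟩, ⟨1, [(16, 1), (13, 5), (2, 15), (0, 3)]⟩, ⟨1, [(16, 4), (13, 24), (2, 72), (0, 10)]⟩, ⟨1, [(16,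 2), (13, 11), (2, 33), (0, 5)]⟩, ⟨1, [(13, 4), (2, 11), (0, 2)]⟩]) (.leaf 2 [⟨1, [(13, 3), (11, 2), (3, 1), (2, 7)]⟩, ⟨1, [(13, 5), (11, 7), (3, 4), (2, 8)]⟩, ⟨1, [(0, 1)]⟩, ⟨1, [(13, 2), (11, 3), (3, 2), (2, 3)]⟩, ⟨1, []⟩, ⟨1, []⟩, ⟨1, [(13, 2), (11, 2), (3, 1), (2, 4)]⟩, ⟨1, [(13, 2), (11, 1), (3, 1), (2, 4)]⟩])))))) (.cons (.ndet 0 [] (.ddet 0 [⟨1, [(12, 1), (10, 3), (2, 3), (0, 2)]⟩] (.ndet 0 [] (.ddet 1 [⟨1, [(12, 2), (10, 6), (2, 5), (0, 3)]⟩] (.leaf 2 [⟨1, [(12, 3), (10, 9), (2, 8), (0, 6)]⟩, ⟨1, [(12, 5), (10, 15), (2, 12), (0, 6)]⟩, ⟨1, [(12, 2), (10, 6), (2, 6), (0, 6)]⟩, ⟨1, [(12, 2), (10, 6), (2, 5), (0, 3)]⟩, ⟨1, []⟩, ⟨1, []⟩, ⟨1,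 [(12, 2), (10, 6), (2, 5), (0, 3)]⟩, ⟨1, [(12, 2), (10, 5), (2, 5), (0, 3)]⟩]))))) .nil))
def s8_18_t8 : Tree := .dbr (.cons (.ndet 0 [] (.dbr (.cons (.ndet 0 [] (.ddet 1 [⟨1, [(10, 1), (0, 1)]⟩] (.ndet 0 [] (.ddet 0 [⟨1, [(10, 1), (2, 1), (1, 1)]⟩] s8_18_t5)))) (.cons s8_18_t6 .nil)))) (.cons (.ndet 0 [] (.ddet 0 [⟨1, [(11, 1), (9, 1), (1, 1), (0, 1)]⟩] (.ndet 0 [] (.ddet 1 [⟨1, [(11, 1), (9, 2), (1, 1), (0, 1)]⟩] (.ndet 0 [] s8_18_t7))))) .nil))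
def s8_18_t9 : Tree := .ndet 0 [] (.dbr (.cons (.ndet 0 [] (.ddet 1 [⟨1, [(8, 1)]⟩] (.ndet 0 [] s8_18_t4))) (.cons (.ndet 0 [] (.ddet 1 [⟨1, [(8, 1), (0, 1)]⟩] (.ndet 0 [] s8_18_t8))) .nil)))
def s8_18_n0 : Node := ⟨[⟨[1, 0, 0, -1], -200⟩, ⟨[1, 0, -1], -200⟩, ⟨[1, -1], -200⟩, ⟨[0, -1, -1, -1], 239700⟩, ⟨[-1, -1, -1], -14360⟩, ⟨[1], 239700⟩, ⟨[-1, -1, -1, 1], -10340⟩, ⟨[0, -1, -1, 1], 239700⟩, ⟨[-1, -1, 0, 1], -6320⟩, ⟨[0, -1, 0, 1], 239700⟩, ⟨[1, 0, 0, 1], 239700⟩, ⟨[1, -1, 1, 1], 239700⟩, ⟨[1, 0, 1, 1], 239700⟩], [1], 0, none, s8_18_t9⟩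
def s8_18_t10 : Tree := .dbr (.cons (.ndet 0 [] (.ddet 1 [⟨3, [(8, 1), (7, 4), (3, 1), (0, 5)]⟩] (.ndet 0 [] (.ddet 0 [⟨3, [(9, 2), (7, 3), (3, 4), (0, 1)]⟩] (.split [-3, 0, 2, -2] (8000) (.leaf 1 [⟨1, [(0, 1)]⟩, ⟨3, [(10, 5), (8, 9), (4, 10), (1, 4)]⟩, ⟨1, [(8, 1), (4, 2), (3, 2), (0, 1)]⟩, ⟨1, [(1, 1)]⟩, ⟨3, [(10, 2), (8, 3), (4, 4), (1, 1)]⟩, ⟨3, [(10, 2), (8, 3), (4, 4), (1, 1)]⟩, ⟨1, [(8, 1), (4, 2), (3, 2)]⟩, ⟨1, [(10, 1), (8, 2), (4, 2), (1, 2)]⟩, ⟨3, [(10, 5), (8, 9), (4, 10), (1, 4)]⟩, ⟨1, []⟩, ⟨1, [(8, 1), (4, 2), (3, 2)]⟩, ⟨1, [(4, 2), (3, 2)]⟩]) (.leaf 3 [⟨2, [(8, 6), (4, 13), (3, 13), (0, 5)]⟩, ⟨1, [(0, 1)]⟩, ⟨1, [(8, 1), (4, 2), (3,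 2)]⟩, ⟨1, []⟩, ⟨2, [(8, 2), (4, 5), (3, 5), (0, 1)]⟩, ⟨1, []⟩, ⟨1, [(8, 1), (4, 2), (3, 2), (0, 1)]⟩, ⟨1, [(4, 2), (3, 2), (0, 1)]⟩])))))) (.cons (.ndet 0 [] (.ddet 1 [⟨1, [(7, 1), (1, 1)]⟩] (.ndet 0 [] (.ddet 0 [⟨2, [(8, 1), (7, 3), (3, 1), (1, 1)]⟩] (.leaf 1 [⟨3, [(9, 1), (3, 2), (0, 7)]⟩, ⟨2, [(8, 3), (7, 9), (3, 3), (1, 1)]⟩, ⟨1, [(9, 1), (7, 1), (3, 2), (0, 3)]⟩, ⟨1, []⟩, ⟨3, [(9, 2), (7, 3), (3, 4), (0, 2)]⟩, ⟨3, [(9, 2), (7, 3), (3, 4), (0, 2)]⟩, ⟨3, [(9, 2), (7, 3), (3, 4), (0, 2)]⟩, ⟨2, [(8, 1), (7, 5), (3, 1), (1, 3)]⟩, ⟨2, [(8, 3), (7, 9), (3, 3), (1, 1)]⟩, ⟨1, []⟩, ⟨3, [(9, 2), (7, 3), (3, 4), (0, 2)]⟩, ⟨3, [(9, 2), (3, 4), (0, 2)]⟩])))))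 .nil))
def s8_18_t11 : Tree := .ndet 0 [] (.ddet 1 [⟨2, [(8, 1), (2, 2), (0, 3)]⟩] (.ndet 0 [] (.dbr (.cons (.ndet 0 [] (.ddet 0 [⟨1, [(7, 2), (5, 1)]⟩] (.leaf 1 [⟨2, [(8, 3), (7, 12), (3, 3), (0, 7)]⟩, ⟨2, [(8, 3), (7, 12), (3, 3), (0, 1)]⟩, ⟨2, [(8, 5), (7, 20), (3, 5), (0, 9)]⟩, ⟨1, [(0, 1)]⟩, ⟨1, [(8, 1), (7, 4), (3, 1), (0, 2)]⟩, ⟨1, [(8, 1), (7, 4), (3, 1), (0, 2)]⟩, ⟨1, [(8, 1), (7, 4), (3, 1), (0, 1)]⟩, ⟨1, [(7, 2), (5, 1)]⟩, ⟨2, [(8, 3), (7, 12), (3, 3), (0, 1)]⟩, ⟨1, []⟩, ⟨1, [(8, 1), (7, 4), (3, 1), (0, 1)]⟩, ⟨1, [(9, 1), (7, 2), (3, 2), (0, 1)]⟩]))) (.cons (.ndet 0 [] (.ddet 0 [⟨2, [(8, 1), (7, 3), (3, 1), (1, 1)]⟩] (.leaf 1 [⟨2, [(9,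 3), (3, 6), (1, 9)]⟩, ⟨2, [(8, 3), (7, 9), (3, 3), (1, 3)]⟩, ⟨2, [(9, 5), (7, 2), (3, 10), (1, 13)]⟩, ⟨1, []⟩, ⟨1, [(9, 1), (7, 1), (3, 2), (1, 2)]⟩, ⟨1, [(9, 1), (7, 1), (3, 2), (1, 2)]⟩, ⟨1, [(9, 1), (7, 1), (3, 2), (1, 2)]⟩, ⟨1, [(7, 2), (5, 1)]⟩, ⟨2, [(8, 3), (7, 9), (3, 3), (1, 3)]⟩, ⟨1, []⟩, ⟨1, [(9, 1), (7, 1), (3, 2), (1, 2)]⟩, ⟨1, [(9, 1), (3, 2), (1, 2)]⟩]))) .nil)))))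
def s8_18_t12 : Tree := .dbr (.cons (.ndet 0 [] (.ddet 1 [⟨1, [(6, 1), (0, 1)]⟩] (.ndet 0 [] (.ddet 0 [⟨1, [(2, 1), (1, 1)]⟩] (.ndet 0 [] s8_18_t10))))) (.cons (.ndet 0 [] (.ddet 1 [⟨1, [(6, 1)]⟩] (.ndet 0 [] (.ddet 0 [⟨2, [(8, 1), (2, 2), (0, 1)]⟩] s8_18_t11)))) .nil))
def s8_18_t13 : Tree := .ddet 0 [⟨1, [(8, 1), (7, 2)]⟩] (.split [5, -1, -2, 3] (-12000) (.split [2, -1, 0, 1] (-4000) (.leaf 0 [⟨1, [(0, 1)]⟩, ⟨1, [(15, 16), (10, 5), (5, 10), (0, 9)]⟩, ⟨2, [(15, 13), (10, 4), (5, 8), (0, 11)]⟩, ⟨1, [(15, 3), (10, 1), (5, 2), (0, 2)]⟩, ⟨1, [(15, 3), (10, 1), (5, 2), (0, 1)]⟩, ⟨2, [(15, 13), (10, 4), (5, 8), (0, 9)]⟩, ⟨2, [(15, 19), (10, 6), (5,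 12), (0, 9)]⟩, ⟨1, [(15, 16), (10, 5), (5, 10), (0, 9)]⟩, ⟨1, []⟩, ⟨2, [(15, 13), (10, 4), (5, 8), (0, 9)]⟩, ⟨1, [(15, 13), (10, 4), (5, 8), (0, 8)]⟩, ⟨2, [(15, 7), (10, 2), (5, 4), (0, 9)]⟩, ⟨2, [(15, 7), (10, 2), (5, 4), (0, 7)]⟩, ⟨1, [(15, 5), (10, 2), (5, 3), (0, 4)]⟩]) (.leaf 3 [⟨5, [(11, 2), (10, 15), (9, 34), (1, 4)]⟩, ⟨10, [(11, 1), (10, 5), (9, 12), (1, 7)]⟩, ⟨1, [(0, 1)]⟩, ⟨1, []⟩, ⟨1, [(10, 1), (9, 2)]⟩, ⟨1, []⟩, ⟨5, [(11, 1), (10, 5), (9, 12), (1, 2)]⟩, ⟨5, [(11, 1), (10, 5), (9, 7), (1, 2)]⟩])) (.split [-3, 0, 2, -2] (8000) (.leaf 1 [⟨1, [(0, 1)]⟩, ⟨1, [(11, 1), (10, 2), (9, 5), (4, 1)]⟩, ⟨7, [(11, 6), (9, 7), (5, 5), (0, 10)]⟩, ⟨1,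 [(2, 1)]⟩, ⟨1, [(10, 1), (9, 2)]⟩, ⟨1, [(10, 1), (9, 2)]⟩, ⟨7, [(11, 6), (9, 7), (5, 5), (0, 3)]⟩, ⟨1, [(11, 3), (9, 2), (4, 4)]⟩, ⟨1, [(11, 1), (10, 2), (9, 5), (4, 1)]⟩, ⟨1, []⟩, ⟨7, [(11, 6), (9, 7), (5, 5), (0, 3)]⟩, ⟨7, [(11, 1), (10, 5), (9, 5), (0, 3)]⟩]) (.leaf 3 [⟨7, [(11, 2), (10, 17), (9, 38), (0, 8)]⟩, ⟨1, [(0, 1)]⟩, ⟨10, [(11, 6), (9, 7), (5, 5), (1, 3)]⟩, ⟨1, []⟩, ⟨1, [(10, 1), (9, 2)]⟩, ⟨1, []⟩, ⟨7, [(11, 1), (10, 5), (9, 12), (0, 4)]⟩, ⟨7, [(11, 1), (10, 5), (9, 5), (0, 4)]⟩])))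
def s8_18_t14 : Tree := .dbr (.cons (.ndet 0 [] (.ddet 1 [⟨1, [(9, 1), (7, 1), (2, 1), (0, 1)]⟩] (.ndet 0 [] s8_18_t13))) (.cons (.ndet 0 [] (.ddet 1 [⟨1, [(9, 1), (7, 1), (2, 1)]⟩] (.ndet 0 [] (.ddet 0 [⟨1, [(9, 2), (7, 1), (2, 3), (0, 1)]⟩] (.leaf 1 [⟨1, [(9, 1), (2, 2), (0, 3)]⟩, ⟨1, [(9, 5), (7, 3), (2, 7), (0, 3)]⟩, ⟨1, [(9, 3), (7, 1), (2, 5), (0, 5)]⟩, ⟨1, []⟩, ⟨1, [(9, 2), (7, 1), (2, 3), (0, 2)]⟩, ⟨1, [(9, 2), (7, 1), (2, 3), (0, 2)]⟩, ⟨1, [(9, 2), (7, 1), (2, 3), (0, 2)]⟩, ⟨1, [(9, 3), (7, 2), (2, 4), (0, 1)]⟩, ⟨1, [(9, 5), (7, 3), (2, 7), (0, 3)]⟩, ⟨1, []⟩, ⟨1, [(9, 2), (7, 1), (2, 3), (0, 2)]⟩, ⟨1, [(9, 2), (2, 3), (0, 2)]⟩]))))) .nil))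
def s8_18_t15 : Tree := .dbr (.cons (.ndet 0 [] s8_18_t14) (.cons (.ndet 0 [] (.ddet 0 [⟨1, [(12, 1), (7, 1), (2, 2), (0, 3)]⟩] (.ndet 0 [] (.ddet 1 [⟨1, [(12, 3), (7, 2), (2, 4), (0, 6)]⟩] (.ndet 0 [] (.ddet 0 [⟨1, [(12, 2), (7, 1), (2, 2), (0, 2)]⟩] (.split [2, -1, 0, 1] (-4000) (.leaf 0 [⟨1, [(0, 1)]⟩, ⟨1, [(13, 7), (8, 5), (3, 10), (1, 16)]⟩, ⟨1, [(13, 1), (8, 2), (3, 4), (1, 10)]⟩, ⟨1, [(13, 1), (8, 1), (3, 2), (1, 4)]⟩, ⟨1, [(13, 2), (8, 1), (3, 2), (1, 2)]⟩, ⟨1, [(13, 2), (8, 2), (3, 4), (1, 8)]⟩, ⟨1, [(13, 5), (8, 3), (3, 6), (1, 8)]⟩, ⟨1, [(13, 7), (8, 5), (3, 10), (1, 16)]⟩, ⟨1, []⟩, ⟨1, [(13, 2), (8, 2), (3, 4), (1, 8)]⟩, ⟨1, [(13, 5),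 (8, 4), (3, 8), (1, 14)]⟩, ⟨1, [(8, 1), (3, 2), (1, 6), (0, 1)]⟩, ⟨1, [(8, 1), (3, 2), (1, 6)]⟩, ⟨1, [(13, 1), (8, 2), (3, 3), (1, 7)]⟩]) (.leaf 3 [⟨1, [(8, 5), (3, 10), (1, 30), (0, 8)]⟩, ⟨1, [(8, 2), (3, 4), (1, 12), (0, 2)]⟩, ⟨1, [(0, 1)]⟩, ⟨1, []⟩, ⟨1, [(8, 1), (3, 2), (1, 6), (0, 2)]⟩, ⟨1, []⟩, ⟨1, [(8, 2), (3, 4), (1, 12), (0, 3)]⟩, ⟨1, [(8, 2), (3, 3), (1, 9), (0, 2)]⟩])))))))) .nil))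
def s8_18_t16 : Tree := .ndet 0 [] (.dbr (.cons (.ndet 0 [] s8_18_t12) (.cons (.ndet 0 [] (.ddet 0 [⟨1, [(7, 1), (0, 1)]⟩] (.ndet 0 [] (.ddet 1 [⟨1, [(7, 1), (5, 1), (0, 1)]⟩] (.ndet 0 [] s8_18_t15))))) .nil)))
def s8_18_n1 : Node := ⟨[⟨[0, 1, 0, -1], -200⟩, ⟨[0, 1, -1], -200⟩, ⟨[-1, 1], -200⟩, ⟨[0, -1, -1, -1], -14360⟩, ⟨[0, 0, -1, -1], 239700⟩, ⟨[-1, -1, -1], 239700⟩, ⟨[0, 1], 239700⟩, ⟨[-1, -1, -1, 1], -10340⟩, ⟨[-1, 0, -1, 1], 239700⟩, ⟨[-1, -1, 0, 1], -6320⟩, ⟨[-1, 0, 0, 1], 239700⟩], [0, 1], 0, none, (.ndet 0 [] (.ddet 1 [⟨1, [(0, 1)]⟩] s8_18_t16))⟩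
def s8_18_t17 : Tree := .dbr (.cons (.ndet 0 [] (.ddet 1 [⟨3, [(6, 1), (5, 4), (3, 5), (0, 5)]⟩] (.ndet 0 [] (.ddet 0 [⟨3, [(6, 2), (5, 5), (3, 7), (0, 1)]⟩] (.ndet 0 [] (.ddet 1 [⟨1, [(5, 1), (3, 3), (2, 2)]⟩] (.split [-2, 5, -1] (-2000) (.leaf 1 [⟨2, [(6, 9), (4, 28), (3, 19), (0, 5)]⟩, ⟨1, [(0, 1)]⟩, ⟨2, [(6, 13), (4, 40), (3, 27), (0, 7)]⟩, ⟨2, [(6, 3), (4, 10), (3, 7), (0, 1)]⟩, ⟨2, [(6, 5), (4, 16), (3, 11), (0, 3)]⟩, ⟨2, [(6, 7), (4, 22), (3, 15), (0, 3)]⟩, ⟨1, [(6, 1), (4, 3), (3, 2), (0, 1)]⟩, ⟨1, []⟩, ⟨1, [(6, 1), (4, 3), (3, 2), (0, 1)]⟩, ⟨1, [(6, 1), (4, 3), (3, 2)]⟩, ⟨1, [(6, 2), (4, 6), (3, 4), (0, 1)]⟩, ⟨1, [(4, 2), (3, 2), (0, 1)]⟩])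 (.leaf 2 [⟨3, [(7, 5), (6, 14), (4, 19), (1, 4)]⟩, ⟨1, [(0, 1)]⟩, ⟨1, [(7, 2), (6, 6), (4, 8), (1, 3)]⟩, ⟨3, [(7, 2), (6, 5), (4, 7), (1, 1)]⟩, ⟨1, []⟩, ⟨1, []⟩, ⟨1, [(6, 1), (4, 3), (3, 2)]⟩, ⟨1, [(4, 2), (3, 2)]⟩])))))))) (.cons (.ndet 0 [] (.ddet 1 [⟨1, [(5, 1), (3, 1), (1, 1)]⟩] (.ndet 0 [] (.ddet 0 [⟨2, [(6, 1), (5, 3), (3, 4), (1, 1)]⟩] (.ndet 0 [] (.ddet 1 [⟨3, [(6, 2), (5, 5), (3, 7), (0, 2)]⟩] (.leaf 2 [⟨2, [(6, 3), (5, 9), (3, 12), (1, 1)]⟩, ⟨1, [(6, 1), (5, 2), (3, 3), (0, 3)]⟩, ⟨1, [(6, 1), (5, 5), (3, 6), (1, 3)]⟩, ⟨3, [(6, 2), (5, 5), (3, 7), (0, 2)]⟩, ⟨1, []⟩, ⟨1, []⟩, ⟨3, [(6, 2), (5, 5), (3, 7), (0, 2)]⟩, ⟨3, [(6, 2), (5, 2), (3,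 4), (0, 2)]⟩]))))))) .nil))
def s8_18_t18 : Tree := .ddet 0 [⟨2, [(5, 1), (4, 1), (2, 2), (0, 1)]⟩] (.ndet 0 [] (.ddet 1 [⟨2, [(5, 1), (4, 1), (2, 2), (0, 3)]⟩] (.ndet 0 [] (.ddet 1 [⟨1, [(6, 1)]⟩] (.ndet 0 [] (.ddet 0 [⟨2, [(5, 1), (4, 3), (2, 4), (0, 1)]⟩] (.ndet 0 [] (.ddet 1 [⟨1, [(5, 1), (4, 2), (2, 3), (0, 2)]⟩] (.leaf 2 [⟨2, [(5, 3), (4, 9), (2, 12), (0, 3)]⟩, ⟨2, [(5, 5), (4, 7), (2, 12), (0, 13)]⟩, ⟨1, [(6, 1), (5, 1), (4, 4), (2, 5)]⟩, ⟨1, [(5, 1), (4, 2), (2, 3), (0, 2)]⟩, ⟨1, []⟩, ⟨1, []⟩, ⟨1, [(5, 1), (4, 2), (2, 3), (0, 2)]⟩, ⟨1, [(5, 1), (4, 1), (2, 2), (0, 2)]⟩])))))))))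
def s8_18_t19 : Tree := .dbr (.cons (.ndet 0 [] (.ddet 1 [⟨1, [(4, 1), (2, 1), (0, 1)]⟩] (.ndet 0 [] (.ddet 0 [⟨1, [(2, 1), (1, 1)]⟩] (.ndet 0 [] s8_18_t17))))) (.cons (.ndet 0 [] (.ddet 1 [⟨1, [(4, 1), (2, 1)]⟩] (.ndet 0 [] s8_18_t18))) .nil))
def s8_18_t20 : Tree := .dbr (.cons (.ndet 0 [] (.ddet 1 [⟨1, [(6, 2), (5, 3), (2, 4)]⟩] (.ndet 0 [] (.ddet 0 [⟨1, [(6, 1), (5, 2), (3, 2)]⟩] (.ndet 0 [] (.ddet 1 [⟨1, [(5, 1), (1, 3)]⟩] (.split [-3, 5, -1, 1] (0) (.leaf 1 [⟨10, [(7, 28), (6, 59), (4, 56), (0, 11)]⟩, ⟨1, [(0, 1)]⟩, ⟨2, [(7, 8), (6, 17), (4, 16), (0, 3)]⟩, ⟨1, [(7, 1), (6, 2), (4, 2)]⟩, ⟨10, [(7, 16), (6, 33), (4, 32), (0, 7)]⟩, ⟨5, [(7,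 11), (6, 23), (4, 22), (0, 2)]⟩, ⟨10, [(7, 6), (6, 13), (4, 12), (0, 7)]⟩, ⟨1, []⟩, ⟨10, [(7, 6), (6, 13), (4, 12), (0, 7)]⟩, ⟨1, [(6, 1), (2, 3)]⟩, ⟨5, [(7, 6), (6, 13), (4, 12), (0, 2)]⟩, ⟨10, [(7, 6), (6, 3), (4, 2), (0, 7)]⟩]) (.leaf 2 [⟨1, [(7, 3), (6, 6), (4, 5), (3, 1)]⟩, ⟨1, [(0, 1)]⟩, ⟨1, [(7, 5), (6, 9), (4, 5), (3, 5)]⟩, ⟨1, [(7, 1), (6, 2), (4, 2)]⟩, ⟨1, []⟩, ⟨1, []⟩, ⟨10, [(7, 6), (6, 13), (4, 12), (0, 3)]⟩, ⟨10, [(7, 6), (6, 3), (4, 2), (0, 3)]⟩])))))))) (.cons (.ndet 0 [] (.ddet 1 [⟨1, [(6, 2), (5, 3), (2, 4), (0, 1)]⟩] (.ndet 0 [] (.ddet 0 [⟨1, [(6, 3), (5, 4), (2, 6), (0, 2)]⟩] (.ndet 0 [] (.ddet 1 [⟨1, [(6, 3), (5, 4), (2, 6),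 (0, 3)]⟩] (.leaf 2 [⟨1, [(6, 8), (5, 11), (2, 16), (0, 6)]⟩, ⟨1, [(6, 4), (5, 5), (2, 8), (0, 6)]⟩, ⟨1, [(6, 10), (5, 14), (2, 20), (0, 6)]⟩, ⟨1, [(6, 3), (5, 4), (2, 6), (0, 3)]⟩, ⟨1, []⟩, ⟨1, []⟩, ⟨1, [(6, 3), (5, 4), (2, 6), (0, 3)]⟩, ⟨1, [(6, 2), (5, 2), (2, 3), (0, 2)]⟩]))))))) .nil))
def s8_18_t21 : Tree := .ndet 0 [] (.ddet 0 [⟨1, [(5, 1), (4, 1), (2, 2), (0, 2)]⟩] (.ndet 0 [] (.ddet 1 [⟨1, [(5, 2), (4, 3), (2, 4), (0, 3)]⟩] (.ndet 0 [] (.ddet 0 [⟨1, [(5, 1), (4, 2), (2, 2)]⟩] (.ndet 0 [] (.dbr (.cons (.leaf 1 [⟨1, [(6, 5), (5, 10), (3, 10), (0, 3)]⟩, ⟨1, [(6, 2), (5, 4), (3, 4), (0, 3)]⟩, ⟨1, [(6, 7), (5, 14), (3, 14), (0, 5)]⟩, ⟨1, [(6,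 1), (5, 2), (3, 2)]⟩, ⟨1, [(6, 3), (5, 6), (3, 6), (0, 2)]⟩, ⟨1, [(6, 3), (5, 6), (3, 6), (0, 2)]⟩, ⟨1, [(6, 2), (5, 4), (3, 4), (0, 2)]⟩, ⟨1, [(0, 1)]⟩, ⟨1, [(6, 2), (5, 4), (3, 4), (0, 3)]⟩, ⟨1, []⟩, ⟨1, [(6, 2), (5, 4), (3, 4), (0, 2)]⟩, ⟨1, [(6, 2), (5, 3), (3, 3), (0, 2)]⟩]) (.cons (.leaf 1 [⟨1, [(6, 5), (5, 7), (3, 10), (1, 9)]⟩, ⟨1, [(6, 2), (5, 1), (3, 4), (1, 9)]⟩, ⟨1, [(6, 7), (5, 10), (3, 14), (1, 12)]⟩, ⟨1, [(6, 1), (5, 2), (3, 2)]⟩, ⟨1, [(6, 3), (5, 4), (3, 6), (1, 6)]⟩, ⟨1, [(6, 3), (5, 5), (3, 6), (1, 3)]⟩, ⟨1, [(6, 2), (5, 2), (3, 4), (1, 6)]⟩, ⟨1, []⟩, ⟨1, [(6, 2), (5, 2), (3, 4), (1, 6)]⟩, ⟨1, [(0, 1)]⟩, ⟨1, [(6, 2), (5, 3), (3,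 4), (1, 3)]⟩, ⟨1, [(6, 2), (5, 1), (3, 3), (1, 6)]⟩]) .nil)))))))))
def s8_18_t22 : Tree := .dbr (.cons (.ndet 0 [] s8_18_t19) (.cons (.ndet 0 [] (.ddet 0 [⟨1, [(4, 1), (3, 1), (0, 1)]⟩] (.ndet 0 [] (.ddet 1 [⟨1, [(4, 1), (3, 2), (1, 1), (0, 1)]⟩] (.ndet 0 [] (.dbr (.cons (.ndet 0 [] s8_18_t20) (.cons s8_18_t21 .nil)))))))) .nil))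
def s8_18_n2 : Node := ⟨[⟨[0, 0, 1, -1], -200⟩, ⟨[0, -1, 1], -200⟩, ⟨[-1, 0, 1], -200⟩, ⟨[0, -1, -1, -1], 239700⟩, ⟨[1, 1, 1, -1], 9660⟩, ⟨[-1, -1, -1, 1], -10340⟩, ⟨[-1, -1, 0, 1], 239700⟩], [0, 0, 1], 0, none, (.ndet 0 [] s8_18_t22)⟩
def s8_18_t23 : Tree := .ddet 1 [⟨1, [(4, 1), (3, 2), (2, 1), (0, 1)]⟩] (.ndet 0 [] (.ddet 1 [⟨1, [(5, 1), (3, 1)]⟩] (.ndet 0 [] (.ddet 0 [⟨1, [(3, 1), (2, 1), (0, 2)]⟩] (.ndet 0 [] (.ddet 1 [⟨1, [(4, 1), (3, 3), (2, 2), (0, 3)]⟩] (.ndet 0 [] (.ddet 0 [⟨1, [(4, 2), (3, 2), (2, 1)]⟩] (.leaf 0 [⟨1, [(5, 3), (3, 2)]⟩, ⟨1, [(4, 1), (3, 7), (2, 5), (0, 9)]⟩, ⟨1, [(5, 5), (3, 6), (2, 2), (0, 4)]⟩, ⟨1, [(5, 1), (3, 2),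 (2, 1), (0, 2)]⟩, ⟨1, [(4, 2), (3, 2), (2, 1)]⟩, ⟨1, [(5, 2), (3, 4), (2, 2), (0, 4)]⟩, ⟨1, [(4, 3), (3, 5), (2, 3), (0, 3)]⟩, ⟨1, [(4, 1), (3, 7), (2, 5), (0, 9)]⟩, ⟨1, []⟩, ⟨1, [(5, 2), (3, 4), (2, 2), (0, 4)]⟩, ⟨1, [(5, 1), (3, 6), (2, 4), (0, 8)]⟩, ⟨1, [(5, 7), (3, 6), (2, 1), (0, 2)]⟩, ⟨1, [(5, 4), (3, 4), (2, 1), (0, 2)]⟩, ⟨1, [(5, 2), (3, 4), (2, 2), (0, 3)]⟩])))))))))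
def s8_18_n3 : Node := ⟨[⟨[0, 0, -1, 1], -200⟩, ⟨[0, -1, 0, 1], -200⟩, ⟨[-1, 0, 0, 1], -200⟩, ⟨[1, 1, 0, -1], 5680⟩, ⟨[-1, -1, -1], 239700⟩, ⟨[-1, -1, 0, 1], -6320⟩, ⟨[0, 0, 0, 1], 239700⟩], [0, 0, 0, 1], 0, none, (.ndet 0 [] (.ddet 1 [⟨1, [(4, 1)]⟩] (.ndet 0 [] (.ddet 1 [⟨1, [(0, 1)]⟩] (.ndet 0 [] (.ddet 0 [⟨1, [(3, 1), (2, 1), (0, 1)]⟩] (.ndet 0 [] s8_18_t23)))))))⟩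
def s8_18 : Sys := ⟨[(3, 3000)], [(1, -3000), (4, -1000)], 4, [s8_18_n0, s8_18_n1, s8_18_n2, s8_18_n3], [301117, -509017, 216626, -1274], (.leaf 0 [⟨1, []⟩, ⟨1, []⟩, ⟨1, []⟩, ⟨1, []⟩, ⟨1, []⟩, ⟨1, []⟩, ⟨1, []⟩, ⟨1, []⟩, ⟨1, []⟩, ⟨1, []⟩, ⟨1, []⟩, ⟨1, []⟩, ⟨1, []⟩])⟩

theorem s8_18_ok : s8_18.ok = true := by decide +kernel

def s10_1_n0 : Node := ⟨[⟨[1, 0, -1], -12⟩, ⟨[1, -1], -24⟩], [1], 0, none, (.ndet 0 [⟨1, [(1, 1)]⟩] (.ddet 0 [] (.leaf 0 [⟨1, [(0, 1)]⟩, ⟨1, []⟩, ⟨1, []⟩])))⟩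
def s10_1 : Sys := ⟨[(1, 16), (3, -16)], [(0, 0)], 3, [s10_1_n0], [16, 32, 0, 0], (.leaf 0 [⟨1, []⟩, ⟨1, []⟩])⟩

theorem s10_1_ok : s10_1.ok = true := by decide +kernel

def s10_21_n0 : Node := ⟨[⟨[-1, 0, 1], 40⟩, ⟨[0, -1], -32⟩, ⟨[0, 0, 0, -1], 0⟩, ⟨[0, -1, 1], 40⟩, ⟨[0, 0, 1], 48⟩, ⟨[-1], 24⟩, ⟨[0, 0, 1], 56⟩, ⟨[0, 0, 1], 64⟩], [0, 0, 1], 0, none, (.ndet 1 [⟨1, [(2, 1), (0, 1)]⟩] (.ddet 0 [⟨1, [(6, 1)]⟩, ⟨1, [(5, 1)]⟩] (.ndet 0 [⟨1, [(4, 1)]⟩] (.ddet 2 [⟨1, [(0, 1)]⟩, ⟨1, [(2, 1), (0, 1)]⟩] (.ndet 0 [⟨1, [(2, 1)]⟩] (.ddet 1 [⟨1, [(0, 1)]⟩, ⟨1, [(4, 1)]⟩] (.leaf 0 [⟨1, [(0, 2)]⟩, ⟨1, []⟩, ⟨1, [(2, 1)]⟩, ⟨1, [(0, 1)]⟩, ⟨1, [(0, 1)]⟩, ⟨1, [(0, 1)]⟩,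 ⟨1, [(0, 1)]⟩, ⟨1, [(0, 1)]⟩, ⟨1, []⟩])))))))⟩
def s10_21 : Sys := ⟨[(1, 0), (3, 32)], [(0, 16), (2, -32), (4, 0)], 4, [s10_21_n0], [-32, 16, 80, -16], (.leaf 0 [⟨1, []⟩, ⟨1, []⟩, ⟨1, []⟩, ⟨1, []⟩, ⟨1, []⟩, ⟨1, []⟩, ⟨1, []⟩, ⟨1, []⟩])⟩

theorem s10_21_ok : s10_21.ok = true := by decide +kernel

def s11_1_n0 : Node := ⟨[⟨[1], -24⟩, ⟨[1, 0, -1], 0⟩, ⟨[1, -1], -24⟩], [1], 0, none, (.ndet 1 [⟨1, [(2, 1)]⟩, ⟨1, [(1, 1)]⟩] (.ddet 0 [] (.leaf 0 [⟨1, [(2, 1)]⟩, ⟨1, [(0, 1)]⟩, ⟨1, []⟩, ⟨1, []⟩])))⟩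
def s11_1 : Sys := ⟨[(0, -16), (1, 32), (3, 16)], [(0, 0)], 3, [s11_1_n0], [0, 0, -16, 0], (.leaf 0 [⟨1, []⟩, ⟨1, []⟩, ⟨1, []⟩])⟩

theorem s11_1_ok : s11_1.ok = true := by decide +kernel

def s14_23_n0 : Node := ⟨[⟨[1, -1], 72⟩, ⟨[1, 0, -1], 80⟩, ⟨[1], 96⟩, ⟨[1, -1], 64⟩, ⟨[1, 0, 0, -1], 8⟩, ⟨[1], 64⟩, ⟨[1], 88⟩, ⟨[1], 72⟩, ⟨[1, 0, -1], 48⟩, ⟨[0, -1], -40⟩], [1], 0, none, (.ndet 0 [⟨1, [(9, 1)]⟩, ⟨1, [(8, 1)]⟩] (.ddet 1 [⟨1, [(7, 1)]⟩, ⟨1, [(9, 1)]⟩, ⟨1, [(5, 1)]⟩] (.ndet 1 [⟨1, [(7, 1)]⟩, ⟨1, [(9, 1)]⟩] (.ddet 2 [⟨1, [(7, 1)]⟩, ⟨1, [(7, 1)]⟩, ⟨1, [(8, 1)]⟩] (.ndet 2 [⟨1, [(7, 1)]⟩, ⟨1, [(7, 1)]⟩] (.ddet 0 [⟨1, []⟩, ⟨1, []⟩, ⟨1, [(0, 1)]⟩] (.leaf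 0 [⟨1, [(7, 1)]⟩, ⟨1, [(7, 1)]⟩, ⟨1, [(7, 1)]⟩, ⟨1, [(7, 1)]⟩, ⟨1, []⟩, ⟨1, [(7, 1)]⟩, ⟨1, [(7, 1)]⟩, ⟨1, [(7, 1)]⟩, ⟨1, [(7, 1)]⟩, ⟨1, []⟩, ⟨1, []⟩])))))))⟩
def s14_23 : Sys := ⟨[(1, -16), (2, 16), (3, 32)], [(0, 16), (1, -32), (2, -16), (4, -32)], 4, [s14_23_n0], [144, 32, 32, 128], (.leaf 0 [⟨1, []⟩, ⟨1, []⟩, ⟨1, []⟩, ⟨1, []⟩, ⟨1, []⟩, ⟨1, []⟩, ⟨1, []⟩, ⟨1, []⟩, ⟨1, []⟩, ⟨1, []⟩])⟩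

theorem s14_23_ok : s14_23.ok = true := by decide +kernel

def s15_17_t0 : Tree := .ddet 0 [⟨1, [(13, 1)]⟩] (.ndet 1 [⟨1, [(10, 1), (2, 1)]⟩, ⟨1, [(10, 1), (2, 1)]⟩, ⟨1, [(10, 1)]⟩] (.ddet 1 [⟨1, [(10, 1), (2, 1)]⟩] (.ndet 2 [⟨1, [(10, 1), (2, 1)]⟩, ⟨1, [(10, 1), (2, 1)]⟩, ⟨1, [(10, 1), (2, 1)]⟩] (.ddet 1 [⟨1, [(2, 1)]⟩] (.ndet 3 [⟨1, [(10, 1), (2, 1)]⟩, ⟨1, [(2, 1)]⟩, ⟨1, [(10, 1), (2, 1)]⟩] (.ddet 1 [⟨1, []⟩] (.ndet 1 [⟨1, [(10, 1), (2, 1)]⟩, ⟨1, [(2, 1)]⟩, ⟨1, [(10, 1), (2, 1)]⟩] (.ddet 1 [⟨1, [(10, 1), (2, 1)]⟩] (.leaf 0 [⟨1, [(10, 1), (2, 1)]⟩, ⟨1, [(10, 1), (2, 1)]⟩, ⟨1, [(2, 1)]⟩, ⟨1, []⟩, ⟨1, [(10, 1), (2, 1)]⟩, ⟨1, [(10, 1), (2, 1)]⟩,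 ⟨1, [(10, 1)]⟩, ⟨1, [(10, 1)]⟩, ⟨1, [(10, 1), (2, 1)]⟩, ⟨1, [(10, 1), (2, 1)]⟩, ⟨1, [(10, 1), (2, 1)]⟩, ⟨1, [(10, 1), (2, 1)]⟩, ⟨1, []⟩, ⟨1, [(10, 1), (2, 1)]⟩, ⟨1, [(10, 1), (2, 1)]⟩, ⟨1, [(10, 1)]⟩, ⟨1, [(10, 1), (2, 1)]⟩, ⟨1, [(10, 1), (2, 1)]⟩, ⟨1, [(10, 1), (2, 1)]⟩, ⟨1, [(2, 1)]⟩, ⟨1, [(10, 1), (2, 1)]⟩, ⟨1, [(2, 1)]⟩, ⟨1, [(10, 1), (2, 1)]⟩, ⟨1, [(2, 1)]⟩, ⟨1, [(10, 1), (2, 1)]⟩, ⟨1, [(10, 1), (2, 1)]⟩, ⟨1, []⟩])))))))))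
def s15_17_n0 : Node := ⟨[⟨[0, 1], 2272⟩, ⟨[-1, 1], 2112⟩, ⟨[0, 1, -1], 736⟩, ⟨[0, 0, 0, -1], 352⟩, ⟨[0, 1], 2240⟩, ⟨[-1, 1], 2784⟩, ⟨[0, 0, 1], 1696⟩, ⟨[0, 0, 1], 1024⟩, ⟨[-1, 1], 2816⟩, ⟨[0, 1], 2400⟩, ⟨[0, 1], 2208⟩, ⟨[0, 1], 1696⟩, ⟨[-1], 416⟩, ⟨[0, 1], 2880⟩, ⟨[0, 1], 3072⟩, ⟨[0, 0, 1], 2400⟩, ⟨[0, 1], 2368⟩, ⟨[0, 1], 2176⟩, ⟨[0, 1], 992⟩, ⟨[0, 1, -1], 640⟩, ⟨[0, 1], 2144⟩, ⟨[0, 1, -1], -64⟩, ⟨[0, 1], 1664⟩, ⟨[0, 1, -1], 1376⟩, ⟨[0, 1], 2432⟩, ⟨[0, 1], 2304⟩], [0, 1], 0, none, (.ndet 2 [⟨1, [(10, 1), (2, 1)]⟩, ⟨1, [(13, 1), (10, 1), (2, 1)]⟩, ⟨1, [(2, 1)]⟩] (.ddet 0 [⟨1, [(22, 1)]⟩] (.ndet 3 [⟨1, [(10, 1), (2, 1)]⟩, ⟨1, []⟩, ⟨1, [(13, 1),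 (10, 1), (2, 1)]⟩] (.ddet 1 [⟨1, [(10, 1)]⟩] (.ndet 2 [⟨1, [(10, 1), (2, 1)]⟩, ⟨1, [(10, 1)]⟩, ⟨1, [(13, 1), (10, 1), (2, 1)]⟩] (.ddet 1 [⟨1, [(10, 1), (2, 1)]⟩] (.ndet 3 [⟨1, [(10, 1), (2, 1)]⟩, ⟨1, [(10, 1), (2, 1)]⟩, ⟨1, [(10, 1)]⟩] s15_17_t0)))))))⟩
def s15_17 : Sys := ⟨[(0, 704), (1, -704), (2, 704), (3, 768)], [(0, 640), (4, 384)], 4, [s15_17_n0], [-1088, 4544, 3136, -960], (.leaf 0 [⟨1, []⟩, ⟨1, []⟩, ⟨1, []⟩, ⟨1, []⟩, ⟨1, []⟩, ⟨1, []⟩, ⟨1, []⟩, ⟨1, []⟩, ⟨1, []⟩, ⟨1, []⟩, ⟨1, []⟩, ⟨1, []⟩, ⟨1, []⟩, ⟨1, []⟩, ⟨1, []⟩, ⟨1, []⟩, ⟨1, []⟩, ⟨1, []⟩, ⟨1, []⟩, ⟨1, []⟩, ⟨1, []⟩, ⟨1, []⟩, ⟨1, []⟩, ⟨1, []⟩, ⟨1, []⟩, ⟨1, []⟩])⟩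

theorem s15_17_ok : s15_17.ok = true := by decide +kernel

def s17_8_n0 : Node := ⟨[⟨[0, 0, 0, 1], 52⟩, ⟨[0, 0, -1], 92⟩, ⟨[0, 0, -1], 76⟩, ⟨[0, 1], 80⟩, ⟨[-1], 96⟩, ⟨[-1], 80⟩, ⟨[0, 1], 96⟩], [0, 1, 0, 1], 0, none, (.ndet 1 [⟨1, [(6, 1)]⟩] (.ddet 0 [] (.ndet 0 [⟨1, [(5, 1)]⟩] (.ddet 0 [] (.leaf 0 [⟨1, [(0, 1)]⟩, ⟨1, [(2, 1)]⟩, ⟨1, [(2, 1)]⟩, ⟨1, [(6, 1), (5, 1)]⟩, ⟨1, [(0, 1)]⟩, ⟨1, [(0, 1)]⟩, ⟨1, [(6, 1), (5, 1)]⟩, ⟨1, [(5, 1)]⟩])))))⟩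
def s17_8 : Sys := ⟨[(0, -32), (4, 0)], [(3, 0)], 4, [s17_8_n0], [-192, 96, -112, 176], (.leaf 0 [⟨1, []⟩, ⟨1, []⟩, ⟨1, []⟩, ⟨1, []⟩, ⟨1, []⟩, ⟨1, []⟩, ⟨1, []⟩])⟩

theorem s17_8_ok : s17_8.ok = true := by decide +kernel

def s19_8_t0 : Tree := .ddet 0 [] (.ndet 1 [⟨7, [(6, 4), (3, 2), (0, 1)]⟩, ⟨1, [(6, 1)]⟩] (.ddet 0 [] (.ndet 2 [⟨7, [(6, 2), (3, 1), (0, 4)]⟩, ⟨1, [(0, 1)]⟩] (.ddet 0 [] (.ndet 1 [⟨7, [(6, 1), (3, 4), (0, 2)]⟩, ⟨1, [(3, 1)]⟩] (.ddet 0 [] (.ndet 2 [⟨7, [(6, 4), (3, 2), (0, 1)]⟩, ⟨1, [(6, 1)]⟩] (.ddet 0 [] (.leaf 0 [⟨7, [(6, 2), (3, 1), (0, 4)]⟩, ⟨1, [(0, 1)]⟩, ⟨7, [(6, 1), (3, 4), (0, 2)]⟩, ⟨1, [(3, 1)]⟩, ⟨7, [(6, 4), (3, 2), (0,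 1)]⟩, ⟨1, [(6, 1)]⟩, ⟨7, [(6, 2), (3, 1), (0, 4)]⟩, ⟨1, [(0, 1)]⟩, ⟨1, [(3, 1)]⟩, ⟨7, [(6, 4), (3, 2), (0, 1)]⟩, ⟨1, [(6, 1)]⟩, ⟨1, [(0, 1)]⟩, ⟨1, []⟩])))))))))
def s19_8_n0 : Node := ⟨[⟨[1], 32⟩, ⟨[1, 0, 0, -1], 176⟩, ⟨[0, 0, 1], -64⟩, ⟨[-1, 0, 2], -64⟩, ⟨[0, -1, 1], 32⟩, ⟨[0, -2, 1], 224⟩, ⟨[1], -32⟩, ⟨[2, 1, -1], 0⟩, ⟨[-1, 0, 2], 0⟩, ⟨[0, -1, 1], -32⟩, ⟨[0, -2, 1], 96⟩, ⟨[2, 1, -1], 64⟩], [1], 0, none, (.ndet 1 [⟨7, [(6, 2), (3, 1), (0, 4)]⟩, ⟨1, [(10, 1)]⟩] (.ddet 0 [] (.ndet 2 [⟨7, [(6, 1), (3, 4), (0, 2)]⟩, ⟨1, [(3, 1)]⟩] s19_8_t0)))⟩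
def s19_8 : Sys := ⟨[(0, -128), (1, 0), (4, 128)], [(3, 64)], 4, [s19_8_n0], [128, -128, 64, -128], (.leaf 0 [⟨1, []⟩, ⟨1, []⟩, ⟨1, []⟩, ⟨1, []⟩, ⟨1, []⟩, ⟨1, []⟩, ⟨1, []⟩, ⟨1, []⟩, ⟨1, []⟩, ⟨1, []⟩, ⟨1, []⟩, ⟨1, []⟩])⟩

theorem s19_8_ok : s19_8.ok = true := by decide +kernel

def s21_3_n0 : Node := ⟨[⟨[0, -1], -8⟩, ⟨[0, 0, 0, -1], -16⟩, ⟨[1], 56⟩, ⟨[1], 80⟩, ⟨[1, 0, -1], 8⟩, ⟨[1], 88⟩], [1], 0, none, (.ndet 0 [⟨1, [(5, 1)]⟩, ⟨1, [(4, 1)]⟩] (.ddet 1 [⟨1, [(0, 1)]⟩] (.ndet 1 [⟨1, [(0, 1)]⟩, ⟨1, [(1, 1)]⟩] (.ddet 0 [⟨1, [(0, 1)]⟩] (.leaf 0 [⟨1, [(0, 1)]⟩, ⟨1, [(5, 1)]⟩, ⟨1, [(0, 1)]⟩, ⟨1, [(0, 1)]⟩, ⟨1, []⟩, ⟨1, [(0, 1)]⟩, ⟨1, []⟩])))))⟩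
def s21_3 : Sys := ⟨[(0, 32), (2, -16), (4, -16)], [(0, -32), (1, -32)], 4, [s21_3_n0], [112, -32, 96, -16], (.leaf 0 [⟨1, []⟩, ⟨1, []⟩, ⟨1, []⟩, ⟨1, []⟩, ⟨1, []⟩, ⟨1, []⟩])⟩

theorem s21_3_ok : s21_3.ok = true := by decide +kernel

def s23_6_n0 : Node := ⟨[⟨[0, 1], 1184⟩, ⟨[-1, 1], 1184⟩, ⟨[0, 1, 0, -1], 1344⟩, ⟨[-1, 1], 1120⟩, ⟨[1], -64⟩, ⟨[1, 0, -1], 96⟩, ⟨[1], -128⟩, ⟨[0, 1], 1152⟩, ⟨[0, 1], 1216⟩, ⟨[0, 1], 1280⟩, ⟨[-1, 1], 1312⟩, ⟨[0, 1], 1344⟩], [0, 1], 0, none, (.ndet 2 [⟨1, [(0, 1)]⟩, ⟨1, [(1, 1)]⟩, ⟨1, [(9, 1)]⟩] (.ddet 1 [⟨1, [(1, 1)]⟩] (.ndet 2 [⟨1, [(7, 1)]⟩, ⟨1, [(7, 1)]⟩, ⟨1, [(6, 1)]⟩] (.ddet 1 [⟨1, [(7, 1)]⟩] (.ndet 3 [⟨1, [(0,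 1)]⟩, ⟨1, [(0, 1)]⟩, ⟨1, [(0, 1)]⟩] (.ddet 1 [⟨1, []⟩] (.ndet 1 [⟨1, [(0, 1)]⟩, ⟨1, [(0, 1)]⟩, ⟨1, [(1, 1)]⟩] (.ddet 0 [⟨1, [(0, 1)]⟩] (.leaf 0 [⟨1, [(0, 1)]⟩, ⟨1, [(0, 1)]⟩, ⟨1, [(0, 1)]⟩, ⟨1, [(0, 1)]⟩, ⟨1, []⟩, ⟨1, []⟩, ⟨1, []⟩, ⟨1, [(0, 1)]⟩, ⟨1, [(0, 1)]⟩, ⟨1, [(0, 1)]⟩, ⟨1, [(0, 1)]⟩, ⟨1, [(0, 1)]⟩, ⟨1, []⟩])))))))))⟩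
def s23_6 : Sys := ⟨[(0, -128), (1, -64), (2, 64), (4, 128)], [(1, -128), (2, 128)], 4, [s23_6_n0], [64, 2560, -64, -64], (.leaf 0 [⟨1, []⟩, ⟨1, []⟩, ⟨1, []⟩, ⟨1, []⟩, ⟨1, []⟩, ⟨1, []⟩, ⟨1, []⟩, ⟨1, []⟩, ⟨1, []⟩, ⟨1, []⟩, ⟨1, []⟩, ⟨1, []⟩])⟩

theorem s23_6_ok : s23_6.ok = true := by decide +kernel

def s24_8_n0 : Node := ⟨[⟨[0, 0, 1, -1], 68⟩, ⟨[0, -1, 1], 36⟩, ⟨[0, -1], 0⟩, ⟨[1, -1], 76⟩, ⟨[1], 28⟩, ⟨[0, -1, 1], 52⟩, ⟨[1], 44⟩], [1, 0, 1], 0, none, (.ndet 0 [⟨1, [(6, 1)]⟩] (.ddet 0 [] (.ndet 1 [⟨1, [(1, 1)]⟩] (.ddet 0 [] (.leaf 0 [⟨1, [(3, 1)]⟩, ⟨1, [(0, 1)]⟩, ⟨1, []⟩, ⟨1, [(1, 1)]⟩, ⟨1, [(1, 1)]⟩, ⟨1, [(0, 1)]⟩, ⟨1, [(1, 1)]⟩, ⟨1, [(4, 1)]⟩])))))⟩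
def s24_8 : Sys := ⟨[(3, -16), (4, 16)], [(3, 0)], 4, [s24_8_n0], [80, -16, 96, -16], (.leaf 0 [⟨1, []⟩, ⟨1, []⟩, ⟨1, []⟩, ⟨1, []⟩, ⟨1, []⟩, ⟨1, []⟩, ⟨1, []⟩])⟩

theorem s24_8_ok : s24_8.ok = true := by decide +kernel

def s25_2_n0 : Node := ⟨[⟨[0, 0, 1], 16⟩, ⟨[0, 0, 1, -1], 48⟩, ⟨[0, 0, 1], 8⟩, ⟨[0, -1, 1], 40⟩, ⟨[1], 24⟩, ⟨[1, -1], 64⟩, ⟨[1], 16⟩, ⟨[2, 0, -1], 32⟩, ⟨[2, 0, -1], 40⟩], [1], 0, none, (.ndet 1 [⟨1, [(8, 1)]⟩, ⟨1, [(7, 1)]⟩] (.ddet 0 [] (.ndet 2 [⟨1, [(8, 1)]⟩, ⟨1, [(5, 1)]⟩] (.ddet 0 [] (.leaf 0 [⟨2, [(8, 1), (0, 1)]⟩, ⟨1, [(3, 1)]⟩, ⟨2, [(8, 1), (0, 1)]⟩, ⟨1, [(0, 1)]⟩, ⟨2, [(8, 1), (0, 1)]⟩, ⟨1, [(0, 1)]⟩, ⟨2, [(8, 1), (0, 1)]⟩,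 ⟨2, [(8, 1), (0, 1)]⟩, ⟨2, [(8, 1), (0, 1)]⟩, ⟨1, []⟩])))))⟩
def s25_2 : Sys := ⟨[(0, -16), (3, 16), (4, 32)], [(1, 32)], 4, [s25_2_n0], [80, -32, 64, -16], (.leaf 0 [⟨1, []⟩, ⟨1, []⟩, ⟨1, []⟩, ⟨1, []⟩, ⟨1, []⟩, ⟨1, []⟩, ⟨1, []⟩, ⟨1, []⟩, ⟨1, []⟩])⟩

theorem s25_2_ok : s25_2.ok = true := by decide +kernel

def s27_4_n0 : Node := ⟨[⟨[1], 96⟩, ⟨[1, 0, -1], 120⟩, ⟨[1, 0, 0, -1], 48⟩, ⟨[1, -1], 88⟩, ⟨[1, -2], 72⟩, ⟨[1, -1, -1], 112⟩, ⟨[1], 88⟩, ⟨[1, 1], 80⟩, ⟨[1, -1], 72⟩, ⟨[0, 1], 8⟩, ⟨[0, 1], 0⟩], [1], 0, none, (.ndet 1 [⟨1, [(10, 1)]⟩, ⟨1, [(9, 1)]⟩, ⟨1, [(8, 1)]⟩] (.ddet 0 [] (.ndet 1 [⟨1, [(7, 1)]⟩, ⟨1, [(6, 1)]⟩, ⟨1, [(5, 1)]⟩] (.ddet 0 [] (.ndet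 2 [⟨1, [(10, 1)]⟩, ⟨1, [(10, 1), (1, 1)]⟩, ⟨1, [(7, 1)]⟩] (.ddet 0 [] (.ndet 3 [⟨1, [(10, 1)]⟩, ⟨1, [(7, 1)]⟩, ⟨1, [(1, 1)]⟩] (.ddet 0 [] (.leaf 0 [⟨1, [(10, 1), (1, 1)]⟩, ⟨1, [(10, 1), (1, 2)]⟩, ⟨1, [(1, 2)]⟩, ⟨1, [(10, 1)]⟩, ⟨1, [(7, 1)]⟩, ⟨1, [(10, 1), (1, 1)]⟩, ⟨1, [(10, 1), (1, 1)]⟩, ⟨1, [(10, 1), (1, 2)]⟩, ⟨1, [(10, 1)]⟩, ⟨1, [(1, 1)]⟩, ⟨1, [(1, 1)]⟩, ⟨1, [(1, 1)]⟩])))))))))⟩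
def s27_4 : Sys := ⟨[(0, 0), (1, -16), (3, 0), (4, 0)], [(2, 0)], 4, [s27_4_n0], [176, 32, -48, 96], (.leaf 0 [⟨1, []⟩, ⟨1, []⟩, ⟨1, []⟩, ⟨1, []⟩, ⟨1, []⟩, ⟨1, []⟩, ⟨1, []⟩, ⟨1, []⟩, ⟨1, []⟩, ⟨1, []⟩, ⟨1, []⟩])⟩

theorem s27_4_ok : s27_4.ok = true := by decide +kernel

def s27_15_n0 : Node := ⟨[⟨[1], 96⟩, ⟨[1, 0, -1], 104⟩, ⟨[1, 0, 0, -1], 128⟩, ⟨[1], 56⟩, ⟨[1, -1], 72⟩, ⟨[0, -1], -8⟩, ⟨[0, 0, -1], 32⟩, ⟨[1], 72⟩, ⟨[1, -1], 104⟩, ⟨[2], 152⟩, ⟨[1, -1], 112⟩, ⟨[1], 24⟩, ⟨[1], 16⟩, ⟨[1], 80⟩], [1], 0, none, (.ndet 1 [⟨1, [(13, 1)]⟩, ⟨1, [(13, 1), (7, 1)]⟩, ⟨1, [(11, 1)]⟩] (.ddet 1 [⟨1, [(13, 1)]⟩, ⟨1, [(3, 1)]⟩, ⟨1, [(13, 1), (7, 1)]⟩] (.ndet 0 [⟨1,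 []⟩, ⟨1, [(8, 1)]⟩, ⟨1, [(7, 1)]⟩] (.ddet 2 [⟨1, [(13, 1)]⟩, ⟨1, [(13, 1)]⟩, ⟨1, [(3, 1)]⟩] (.ndet 2 [⟨1, [(13, 1)]⟩, ⟨1, [(13, 2)]⟩, ⟨1, [(3, 1)]⟩] (.ddet 3 [⟨1, [(13, 1)]⟩, ⟨1, [(13, 2)]⟩, ⟨1, [(13, 1)]⟩] (.ndet 3 [⟨1, [(13, 1)]⟩, ⟨1, [(13, 1)]⟩, ⟨1, [(13, 1)]⟩] (.ddet 0 [⟨1, []⟩, ⟨1, [(13, 1)]⟩, ⟨1, []⟩] (.leaf 0 [⟨1, [(13, 1)]⟩, ⟨1, [(13, 2)]⟩, ⟨1, [(13, 1)]⟩, ⟨1, [(13, 1)]⟩, ⟨1, [(13, 1)]⟩, ⟨1, []⟩, ⟨1, [(13, 1)]⟩, ⟨1, [(13, 1)]⟩, ⟨1, [(13, 1)]⟩, ⟨1, [(13, 2)]⟩, ⟨1, [(13, 1)]⟩, ⟨1, [(13, 1)]⟩, ⟨1, [(13, 1)]⟩, ⟨1, [(13, 1)]⟩, ⟨1, []⟩])))))))))⟩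
def s27_15 : Sys := ⟨[(0, 16), (1, -32), (3, -32), (4, 16)], [(0, 0), (1, 32), (2, 0), (3, 32)], 4, [s27_15_n0], [144, -32, -64, -64], (.leaf 0 [⟨1, []⟩, ⟨1, []⟩, ⟨1, []⟩, ⟨1, []⟩, ⟨1, []⟩, ⟨1, []⟩, ⟨1, []⟩, ⟨1, []⟩, ⟨1, []⟩, ⟨1, []⟩, ⟨1, []⟩, ⟨1, []⟩, ⟨1, []⟩, ⟨1, []⟩])⟩

theorem s27_15_ok : s27_15.ok = true := by decide +kernel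

def s28_12_n0 : Node := ⟨[⟨[0, -1, 0, 1], 168⟩, ⟨[0, 0, -1, 1], 176⟩, ⟨[0, 1, -1], -16⟩, ⟨[1, -1], 32⟩, ⟨[1, 0, -1], 40⟩, ⟨[1, -1], 8⟩, ⟨[-1, -1, 0, 1], 184⟩, ⟨[0, -2, 0, 1], 216⟩, ⟨[-1, -1, 0, 1], 160⟩, ⟨[0, -1, 0, 1], 160⟩, ⟨[0, -1, 0, 1], 184⟩, ⟨[0, -1], 16⟩], [0, 0, 0, 1], 0, none, (.ndet 2 [⟨1, [(1, 1)]⟩, ⟨1, [(10, 1)]⟩] (.ddet 0 [⟨1, [(9, 1)]⟩] (.ndet 0 [⟨1, [(8, 1)]⟩, ⟨1, [(7, 1)]⟩] (.ddet 0 [⟨1, [(8, 1)]⟩] (.ndet 0 [⟨1, [(5, 1)]⟩, ⟨1, [(4, 1)]⟩] (.ddet 0 [⟨1, [(5, 1)]⟩] (.ndet 1 [⟨1, [(1, 1)]⟩, ⟨1, [(5, 1)]⟩] (.ddet 1 [⟨1, [(1, 1)]⟩] (.leaf 0 [⟨1, [(1, 1)]⟩, ⟨1, [(1, 1)]⟩, ⟨1, []⟩, ⟨1, []⟩, ⟨1, []⟩, ⟨1, []⟩, ⟨1, [(1, 1)]⟩, ⟨1, [(1, 1)]⟩,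 ⟨1, [(1, 1)]⟩, ⟨1, [(1, 1)]⟩, ⟨1, [(1, 1)]⟩, ⟨1, []⟩, ⟨1, [(0, 1)]⟩])))))))))⟩
def s28_12 : Sys := ⟨[(2, -16), (3, 0), (4, 16)], [(2, 16), (3, -16)], 4, [s28_12_n0], [16, -32, -32, 336], (.leaf 0 [⟨1, []⟩, ⟨1, []⟩, ⟨1, []⟩, ⟨1, []⟩, ⟨1, []⟩, ⟨1, []⟩, ⟨1, []⟩, ⟨1, []⟩, ⟨1, []⟩, ⟨1, []⟩, ⟨1, []⟩, ⟨1, []⟩])⟩

theorem s28_12_ok : s28_12.ok = true := by decide +kernel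

def s30_10_n0 : Node := ⟨[⟨[-1, 1], 64⟩, ⟨[0, 1, -1], 56⟩, ⟨[0, 1, 0, -1], 24⟩, ⟨[1, 0, -1], -56⟩, ⟨[-2, 1], 224⟩, ⟨[-1], 112⟩, ⟨[-1, 1, -1], 208⟩, ⟨[-1], 64⟩, ⟨[-1], 96⟩], [0, 1], 0, none, (.ndet 1 [⟨1, [(8, 1)]⟩, ⟨1, [(7, 1)]⟩, ⟨1, [(6, 1)]⟩] (.ddet 0 [⟨1, [(5, 1)]⟩] (.ndet 0 [⟨1, [(4, 1)]⟩, ⟨1, [(3, 1)]⟩, ⟨1, [(2, 1)]⟩] (.ddet 0 [⟨1, [(3, 1)]⟩] (.leaf 0 [⟨1, [(8, 1)]⟩, ⟨1, [(4, 1)]⟩, ⟨1, [(3, 1)]⟩, ⟨1, [(3, 1)]⟩, ⟨1, [(8, 1)]⟩, ⟨1, []⟩, ⟨1, [(4, 1)]⟩, ⟨1, []⟩, ⟨1, []⟩, ⟨1, [(3, 1)]⟩])))))⟩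
def s30_10 : Sys := ⟨[(1, -64), (2, 0), (3, -32), (4, 16)], [(1, 64), (3, 0)], 4, [s30_10_n0], [-128, 64, -80, 32], (.leaf 0 [⟨1, []⟩, ⟨1, []⟩, ⟨1, []⟩, ⟨1, []⟩, ⟨1, []⟩, ⟨1, []⟩, ⟨1, []⟩, ⟨1, []⟩, ⟨1, []⟩])⟩

theorem s30_10_ok : s30_10.ok = true := by decide +kernel

def s30_23_n0 : Node := ⟨[⟨[1, -1], 312⟩, ⟨[1, 0, -1], 320⟩, ⟨[1, 0, 0, -1], 8⟩, ⟨[1], 320⟩, ⟨[1, -1], 320⟩, ⟨[1], 336⟩, ⟨[1, -1], 336⟩, ⟨[1], 328⟩, ⟨[1, 0, -1], 312⟩, ⟨[1], 312⟩, ⟨[0, -1], -8⟩], [1], 0, none, (.ndet 0 [⟨1, [(4, 1)]⟩, ⟨1, [(9, 1)]⟩, ⟨1, [(8, 1)]⟩] (.ddet 1 [⟨1, [(5, 1)]⟩, ⟨1, [(4, 1)]⟩, ⟨1, [(8, 1)]⟩] (.ndet 1 [⟨1, [(5, 1)]⟩, ⟨1, [(4, 1)]⟩, ⟨1, [(9, 1)]⟩] (.ddet 2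 [⟨1, [(5, 1)]⟩, ⟨1, [(5, 1)]⟩, ⟨1, [(9, 1)]⟩] (.ndet 2 [⟨1, [(5, 1)]⟩, ⟨1, [(5, 1)]⟩, ⟨1, [(4, 1)]⟩] (.ddet 2 [⟨1, []⟩, ⟨1, []⟩, ⟨1, [(0, 1)]⟩] (.leaf 0 [⟨1, [(5, 1)]⟩, ⟨1, [(5, 1)]⟩, ⟨1, []⟩, ⟨1, [(5, 1)]⟩, ⟨1, [(5, 1)]⟩, ⟨1, [(5, 1)]⟩, ⟨1, [(5, 1)]⟩, ⟨1, [(5, 1)]⟩, ⟨1, [(5, 1)]⟩, ⟨1, [(5, 1)]⟩, ⟨1, []⟩, ⟨1, []⟩])))))))⟩
def s30_23 : Sys := ⟨[(1, 0), (2, -16), (3, 16), (4, 0)], [(0, -16), (1, -16), (2, -16), (4, -16)], 4, [s30_23_n0], [640, 0, 16, 624], (.leaf 0 [⟨1, []⟩, ⟨1, []⟩, ⟨1, []⟩, ⟨1, []⟩, ⟨1, []⟩, ⟨1, []⟩, ⟨1, []⟩, ⟨1, []⟩, ⟨1, []⟩, ⟨1, []⟩, ⟨1, []⟩])⟩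

theorem s30_23_ok : s30_23.ok = true := by decide +kernel

end Pool.Agent.H81.RDE.Data
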