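import Pool.Agent.H81.RDE.System

/-! Data file (generated): certificates. -/

set_option maxRecDepth 100000

namespace Pool.Agent.H81.RDE.Data

def s8_22_n0 : Node := ⟨[⟨[-1, 1], 72⟩, ⟨[0, 1, 0, -1], 48⟩, ⟨[0, 1], -24⟩, ⟨[-1, 0, 1], 56⟩, ⟨[0, 2, -2], 32⟩, ⟨[0, 0, -1], 40⟩], [0, 1], 0, none, (.ndet 0 [] (.ddet 1 [⟨1, [(5, 1)]⟩, ⟨1, [(4, 1)]⟩] (.ndet 0 [] (.ddet 2 [⟨1, [(3, 1)]⟩, ⟨1, [(2, 1)]⟩] (.ndet 0 [] (.ddet 0 [⟨1, [(1, 1)]⟩, ⟨1, [(0, 1)]⟩] (.leaf 0 [⟨2, [(5, 2), (1, 1), (0, 2)]⟩, ⟨1, [(5, 1), (0, 1)]⟩, ⟨2, [(1, 1)]⟩, ⟨1, [(2, 1), (0, 1)]⟩, ⟨1, [(1, 2)]⟩, ⟨2, [(1, 1)]⟩, ⟨1, [(0, 1)]⟩])))))))⟩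
def s8_22 : Sys := ⟨[(3, -16)], [(1, 16), (2, 16), (4, 16)], 4, [s8_22_n0], [-160, -16, -48, -112], (.leaf 0 [⟨1, []⟩, ⟨1, []⟩, ⟨1, []⟩, ⟨1, []⟩, ⟨1, []⟩, ⟨1, []⟩])⟩

theorem s8_22_ok : s8_22.ok = true := by decide +kernel

def s10_4_t0 : Tree := .ddet 0 [] (.split [-1, 3, -2] (-1914) (.leaf 0 [⟨1, [(1, 1)]⟩, ⟨1, [(0, 1)]⟩, ⟨1, [(8, 2), (5, 1), (1, 1)]⟩, ⟨1, [(0, 1)]⟩, ⟨1, [(8, 2), (5, 1)]⟩, ⟨1, [(8, 2)]⟩]) (.ndet 1 [⟨1, [(8, 2), (5, 1)]⟩] (.ddet 0 [] (.ndet 1 [⟨1, [(2, 1)]⟩] (.ddet 0 [] (.ndet 0 [⟨1, [(8, 2), (5, 1), (2, 1)]⟩] (.ddet 0 [] (.leaf 0 [⟨1, []⟩, ⟨1, []⟩, ⟨1, [(0, 2)]⟩, ⟨1, [(8, 2), (5, 1), (2, 2)]⟩, ⟨1, [(8, 2), (5, 1)]⟩,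 ⟨1, [(8, 2)]⟩]))))))))
def s10_4_t1 : Tree := .nbr (.cons (.ddet 0 [] (.split [1, -3, 2] (1194) (.leaf 0 [⟨1, []⟩, ⟨1, []⟩, ⟨1, [(0, 1)]⟩, ⟨1, [(6, 2), (3, 1)]⟩, ⟨1, [(6, 2), (3, 1), (0, 1)]⟩, ⟨1, [(6, 2), (0, 1)]⟩]) (.nbr (.cons (.ddet 0 [] (.leaf 0 [⟨1, []⟩, ⟨1, []⟩, ⟨2, [(6, 1), (2, 1)]⟩, ⟨1, [(0, 1)]⟩, ⟨1, [(7, 2), (4, 1)]⟩, ⟨1, [(7, 2)]⟩])) (.cons s10_4_t0 .nil))))) (.cons (.ddet 0 [] (.ndet 0 [⟨1, [(5, 3), (2, 1), (0, 2)]⟩] (.ddet 0 [] (.leaf 0 [⟨1, []⟩, ⟨1, []⟩, ⟨1, [(5, 3), (4, 2)]⟩, ⟨1, [(5, 3), (2, 1), (0, 3)]⟩, ⟨1, [(5, 2), (2, 1), (0, 1)]⟩, ⟨1, [(5, 2), (0, 1)]⟩])))) .nil))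
def s10_4_n0 : Node := ⟨[⟨[1, -1, 1], -100⟩, ⟨[-1, 1, -1], -100⟩, ⟨[0, -1, 2], -200⟩, ⟨[0, 2, -1], -200⟩, ⟨[0, 1, 1], 60000⟩], [0, 1, 1], 0, none, (.ndet 1 [⟨1, [(3, 1), (2, 1)]⟩] (.ddet 0 [] (.nbr (.cons (.ddet 0 [] (.ndet 0 [⟨1, [(4, 2), (1, 1), (0, 2)]⟩] (.ddet 0 [] (.leaf 0 [⟨1, []⟩, ⟨1, []⟩, ⟨1, [(5, 1)]⟩, ⟨1, [(4, 2), (1, 1), (0, 2)]⟩, ⟨1, [(4, 1), (1, 1), (0, 2)]⟩, ⟨1, [(4, 1), (0, 2)]⟩])))) (.cons (.ddet 0 [] s10_4_t1) .nil)))))⟩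
def s10_4 : Sys := ⟨[(1, 0), (3, 1000)], [(2, 0)], 3, [s10_4_n0], [66000, 312000, 246000, 0], (.leaf 0 [⟨1, []⟩, ⟨1, []⟩, ⟨1, []⟩, ⟨1, []⟩, ⟨1, []⟩])⟩

theorem s10_4_ok : s10_4.ok = true := by decide +kernel

def s13_11_n0 : Node := ⟨[⟨[0, 0, 1], 56⟩, ⟨[0, -1, 1], 64⟩, ⟨[1], 40⟩, ⟨[1, 0, -1], 8⟩, ⟨[1], 48⟩, ⟨[1, -1], 32⟩, ⟨[0, -1], 8⟩, ⟨[1], 72⟩], [1], 0, none, (.ndet 2 [⟨1, [(7, 1)]⟩, ⟨1, [(6, 1)]⟩] (.ddet 1 [⟨1, [(0, 1)]⟩, ⟨1, [(4, 1)]⟩] (.ndet 1 [⟨1, [(0, 1)]⟩, ⟨1, [(1, 1), (0, 1)]⟩] (.ddet 0 [⟨1, [(4, 1)]⟩, ⟨1, [(1, 1)]⟩] (.leaf 0 [⟨1, [(0, 1)]⟩, ⟨1, [(4, 1), (0, 1)]⟩, ⟨1, [(0, 1)]⟩, ⟨1, []⟩, ⟨1, [(0, 1)]⟩, ⟨1, [(4, 1), (0, 1)]⟩,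 ⟨1, [(4, 1)]⟩, ⟨1, [(0, 1)]⟩, ⟨1, []⟩])))))⟩
def s13_11 : Sys := ⟨[(0, 16), (2, 16), (3, -32)], [(0, -16), (1, 0), (3, -16)], 3, [s13_11_n0], [96, -16, 64, 0], (.leaf 0 [⟨1, []⟩, ⟨1, []⟩, ⟨1, []⟩, ⟨1, []⟩, ⟨1, []⟩, ⟨1, []⟩, ⟨1, []⟩, ⟨1, []⟩])⟩

theorem s13_11_ok : s13_11.ok = true := by decide +kernel

def s13_17_t0 : Tree := .ddet 1 [⟨1, [(2, 1), (0, 1)]⟩] (.ndet 1 [⟨1, [(2, 1), (0, 1)]⟩, ⟨1, [(3, 1), (2, 1)]⟩] (.ddet 1 [⟨1, [(0, 1)]⟩] (.ndet 2 [⟨1, [(2, 1), (0, 1)]⟩, ⟨1, [(2, 2), (0, 1)]⟩] (.ddet 1 [⟨1, [(7, 1)]⟩] (.ndet 1 [⟨1, [(2, 1)]⟩, ⟨1, [(2, 2)]⟩] (.ddet 1 [⟨1, [(2, 1), (0, 1)]⟩] (.ndet 1 [⟨1, [(3, 1), (2, 1)]⟩, ⟨1, [(3, 1)]⟩]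 (.ddet 0 [⟨1, [(2, 1)]⟩] (.leaf 0 [⟨1, [(3, 1), (2, 1)]⟩, ⟨1, [(3, 1), (2, 1), (0, 1)]⟩, ⟨1, [(2, 1)]⟩, ⟨1, [(3, 1), (2, 1)]⟩, ⟨1, [(3, 1), (2, 1), (0, 1)]⟩, ⟨1, [(3, 1), (2, 1)]⟩, ⟨1, [(2, 1)]⟩, ⟨1, [(0, 1)]⟩, ⟨1, [(3, 1)]⟩, ⟨1, [(3, 1)]⟩, ⟨1, [(3, 1), (2, 1)]⟩, ⟨1, [(3, 1), (2, 1)]⟩, ⟨1, [(3, 1), (2, 2)]⟩, ⟨1, []⟩, ⟨1, [(2, 1)]⟩, ⟨1, [(2, 2)]⟩, ⟨1, [(3, 1), (2, 1)]⟩, ⟨1, [(3, 1)]⟩, ⟨1, [(2, 1)]⟩, ⟨1, []⟩, ⟨1, [(3, 1)]⟩, ⟨1, [(1, 1)]⟩])))))))))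
def s13_17_n0 : Node := ⟨[⟨[0, 0, 1], 96⟩, ⟨[0, -1, 1], 320⟩, ⟨[0, 0, 0, 1], -32⟩, ⟨[1], 160⟩, ⟨[1, -1], 416⟩, ⟨[1], 128⟩, ⟨[1, 0, -1, 1], 32⟩, ⟨[0, -1], 256⟩, ⟨[0, 0, 1, -1], 64⟩, ⟨[-1, 0, 2, -1], 32⟩, ⟨[1], 96⟩, ⟨[1], 64⟩, ⟨[2, 0, -1, 1], 160⟩, ⟨[1, 0, -1], 0⟩, ⟨[1, 0, -1, 1], 0⟩, ⟨[2, 0, -2, 2], 128⟩, ⟨[0, 0, 1], 32⟩, ⟨[-1, 0, 2, -1], 64⟩, ⟨[1, 0, -1, 1], 128⟩, ⟨[-1, 0, 1], -160⟩, ⟨[0, 0, 1, -1], 128⟩], [1], 0, none, (.ndet 2 [⟨1, [(3, 1), (2, 1)]⟩, ⟨1, [(13, 1), (3, 1), (2, 1)]⟩] (.ddet 1 [⟨1, [(18, 1)]⟩] (.ndet 1 [⟨1, [(2, 1), (0, 1)]⟩, ⟨1, [(13, 1), (2, 1), (0, 1)]⟩] (.ddet 1 [⟨1, [(3, 1), (2, 1)]⟩] (.ndet 2 [⟨1, [(2, 1), (0,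 1)]⟩, ⟨1, [(2, 1)]⟩] (.ddet 0 [⟨1, [(13, 1)]⟩] (.ndet 2 [⟨1, [(0, 1)]⟩, ⟨1, [(3, 1)]⟩] s13_17_t0)))))))⟩
def s13_17 : Sys := ⟨[(0, -320), (2, -192), (3, -128)], [(0, -256), (4, -64)], 4, [s13_17_n0], [448, -320, 384, 128], (.leaf 0 [⟨1, []⟩, ⟨1, []⟩, ⟨1, []⟩, ⟨1, []⟩, ⟨1, []⟩, ⟨1, []⟩, ⟨1, []⟩, ⟨1, []⟩, ⟨1, []⟩, ⟨1, []⟩, ⟨1, []⟩, ⟨1, []⟩, ⟨1, []⟩, ⟨1, []⟩, ⟨1, []⟩, ⟨1, []⟩, ⟨1, []⟩, ⟨1, []⟩, ⟨1, []⟩, ⟨1, []⟩, ⟨1, []⟩])⟩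

theorem s13_17_ok : s13_17.ok = true := by decide +kernel

def s15_11_n0 : Node := ⟨[⟨[1], 344⟩, ⟨[1, -1], 352⟩, ⟨[1, 0, -1], 0⟩, ⟨[1], 320⟩, ⟨[1], 336⟩, ⟨[1, -1], 328⟩, ⟨[0, -1], 8⟩], [1], 0, none, (.ndet 1 [⟨1, [(6, 1)]⟩, ⟨1, [(5, 1)]⟩, ⟨1, [(4, 1)]⟩] (.ddet 1 [⟨1, [(6, 1)]⟩, ⟨1, [(4, 1)]⟩] (.ndet 2 [⟨1, [(6, 1)]⟩, ⟨1, [(6, 1)]⟩, ⟨1, [(5, 1)]⟩] (.ddet 1 [⟨1, []⟩, ⟨1, [(0, 1)]⟩] (.leaf 0 [⟨1, [(6, 1)]⟩, ⟨1, [(6, 1)]⟩, ⟨1, []⟩, ⟨1, [(6, 1)]⟩, ⟨1, [(6, 1)]⟩, ⟨1, [(6, 1)]⟩, ⟨1, []⟩, ⟨1, []⟩])))))⟩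
def s15_11 : Sys := ⟨[(0, 16), (1, 0), (2, 16), (3, -16)], [(0, -16), (1, 16), (3, 0)], 3, [s15_11_n0], [672, -16, 656, 0], (.leaf 0 [⟨1, []⟩, ⟨1, []⟩, ⟨1, []⟩, ⟨1, []⟩, ⟨1, []⟩, ⟨1, []⟩, ⟨1, []⟩])⟩

theorem s15_11_ok : s15_11.ok = true := by decide +kernel

def s17_5_n0 : Node := ⟨[⟨[0, 0, 0, 1], 24⟩, ⟨[0, -1], 72⟩, ⟨[0, 0, 1], 8⟩, ⟨[-1], 48⟩, ⟨[0, 0, 0, 1], 8⟩, ⟨[0, 0, 1], -8⟩], [0, 0, 1], 0, none, (.ndet 1 [⟨1, [(5, 1)]⟩] (.ddet 0 [⟨1, [(4, 1)]⟩] (.ndet 1 [⟨1, [(3, 1)]⟩] (.ddet 0 [⟨1, [(2, 1)]⟩] (.ndet 0 [⟨1, [(4, 1)]⟩] (.ddet 1 [⟨1, [(5, 1)]⟩] (.ndet 0 [⟨1, [(2, 1)]⟩] (.ddet 1 [⟨1, [(3, 1)]⟩] (.leaf 0 [⟨1, [(5, 1)]⟩, ⟨1, [(5, 1)]⟩,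 ⟨1, [(3, 1)]⟩, ⟨1, [(3, 1)]⟩, ⟨1, [(5, 1)]⟩, ⟨1, [(3, 1)]⟩, ⟨1, []⟩])))))))))⟩
def s17_5 : Sys := ⟨[(0, -16), (4, 16)], [(0, -16), (2, 16)], 4, [s17_5_n0], [-64, -112, 48, 80], (.leaf 0 [⟨1, []⟩, ⟨1, []⟩, ⟨1, []⟩, ⟨1, []⟩, ⟨1, []⟩, ⟨1, []⟩])⟩

theorem s17_5_ok : s17_5.ok = true := by decide +kernel

def s19_6_n0 : Node := ⟨[⟨[1], 192⟩, ⟨[1, 0, 0, -1], 152⟩, ⟨[1, -1], 192⟩, ⟨[0, 0, -1], 96⟩, ⟨[1], 216⟩, ⟨[1], 240⟩, ⟨[0, -1], -16⟩, ⟨[1], 208⟩], [1], 0, none, (.ndet 1 [⟨1, [(2, 1)]⟩, ⟨1, [(6, 1)]⟩] (.ddet 0 [⟨1, [(2, 1), (1, 1)]⟩] (.ndet 1 [⟨1, []⟩, ⟨1, [(4, 1)]⟩] (.ddet 1 [⟨1, [(2, 1)]⟩] (.ndet 0 [⟨1, [(2, 1)]⟩, ⟨1, [(1, 1)]⟩] (.ddet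 1 [⟨1, [(2, 1)]⟩] (.ndet 2 [⟨1, [(2, 1)]⟩, ⟨1, [(2, 1)]⟩] (.ddet 0 [⟨1, [(2, 1)]⟩] (.leaf 0 [⟨1, [(2, 1)]⟩, ⟨1, [(2, 1)]⟩, ⟨1, [(2, 1)]⟩, ⟨1, [(2, 1)]⟩, ⟨1, [(2, 1)]⟩, ⟨1, [(2, 1)]⟩, ⟨1, []⟩, ⟨1, [(2, 1)]⟩, ⟨1, []⟩])))))))))⟩
def s19_6 : Sys := ⟨[(0, -16), (1, -16), (4, -48)], [(1, -64), (2, -64)], 4, [s19_6_n0], [384, 0, -272, 48], (.leaf 0 [⟨1, []⟩, ⟨1, []⟩, ⟨1, []⟩, ⟨1, []⟩, ⟨1, []⟩, ⟨1, []⟩, ⟨1, []⟩, ⟨1, []⟩])⟩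

theorem s19_6_ok : s19_6.ok = true := by decide +kernel

def s20_14_n0 : Node := ⟨[⟨[0, -1, 0, 1], 640⟩, ⟨[-1, 1], 5408⟩, ⟨[0, 1, -1], 4768⟩, ⟨[-1, 0, 1], 672⟩, ⟨[-1, -1, 0, 1], 6176⟩, ⟨[0, -2, 0, 1], 768⟩, ⟨[0, -2, 0, 1], 736⟩, ⟨[0, -2, -1, 2], 6112⟩, ⟨[-1, 1, 1, -1], 32⟩, ⟨[0, -1, 0, 1], 576⟩, ⟨[0, -1], 32⟩, ⟨[0, -1, 0, 1], 672⟩], [0, 0, 0, 1], 0, none, (.ndet 1 [⟨1, [(0, 1)]⟩] (.ddet 1 [⟨1, [(9, 1), (3, 1), (0, 1)]⟩, ⟨1, [(9, 1)]⟩] (.ndet 1 [⟨1, [(3, 1), (0, 1)]⟩] (.ddet 0 [⟨1, [(9, 1), (6, 1), (3, 1), (0, 1)]⟩, ⟨1, [(6, 1)]⟩] (.ndet 0 [⟨1, [(6, 1)]⟩] (.ddet 1 [⟨1, [(9, 1), (6, 1), (0, 1)]⟩, ⟨1, [(9, 1), (6, 1), (3, 1), (0, 1)]⟩]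 (.ndet 0 [⟨1, [(3, 1)]⟩] (.ddet 2 [⟨1, [(0, 1)]⟩, ⟨1, [(9, 1), (6, 1), (0, 1)]⟩] (.leaf 0 [⟨1, [(0, 1)]⟩, ⟨1, [(9, 1), (6, 1), (0, 1)]⟩, ⟨1, [(9, 1), (6, 1)]⟩, ⟨1, [(0, 1)]⟩, ⟨1, [(9, 1), (6, 1), (0, 2)]⟩, ⟨1, [(0, 1)]⟩, ⟨1, [(0, 1)]⟩, ⟨1, [(9, 1), (6, 1), (0, 2)]⟩, ⟨1, []⟩, ⟨1, [(0, 1)]⟩, ⟨1, []⟩, ⟨1, [(0, 1)]⟩, ⟨1, [(1, 1)]⟩])))))))))⟩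
def s20_14 : Sys := ⟨[(2, -64), (4, 0)], [(1, -64), (2, 0), (3, 64)], 4, [s20_14_n0], [-10944, -64, -9536, 1280], (.leaf 0 [⟨1, []⟩, ⟨1, []⟩, ⟨1, []⟩, ⟨1, []⟩, ⟨1, []⟩, ⟨1, []⟩, ⟨1, []⟩, ⟨1, []⟩, ⟨1, []⟩, ⟨1, []⟩, ⟨1, []⟩, ⟨1, []⟩])⟩

theorem s20_14_ok : s20_14.ok = true := by decide +kernel

def s21_5_n0 : Node := ⟨[⟨[0, 0, 0, 1], 32⟩, ⟨[0, -1, 0, 1], 96⟩, ⟨[0, 1], -96⟩, ⟨[0, 0, 1], 64⟩, ⟨[-1, 0, 1], 128⟩, ⟨[1], -96⟩, ⟨[0, -2, 0, 1], 192⟩, ⟨[0, -1, 0, 1], 64⟩, ⟨[-2, 0, 1], 224⟩, ⟨[-1, 0, 1], 96⟩, ⟨[-1], 32⟩], [0, 0, 1], 0, none, (.ndet 2 [⟨1, [(10, 1)]⟩, ⟨2, [(10, 1), (4, 1)]⟩] (.ddet 1 [⟨1, [(8, 1)]⟩] (.ndet 2 [⟨1, [(7, 1)]⟩, ⟨2,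 [(7, 1), (2, 1)]⟩] (.ddet 1 [⟨1, [(5, 1)]⟩] (.ndet 1 [⟨2, [(10, 1), (4, 1)]⟩, ⟨1, [(4, 1)]⟩] (.ddet 1 [⟨2, [(10, 1), (4, 1)]⟩] (.ndet 1 [⟨2, [(7, 1), (2, 1)]⟩, ⟨1, [(2, 1)]⟩] (.ddet 1 [⟨2, [(7, 1), (2, 1)]⟩] (.leaf 0 [⟨2, [(10, 1), (4, 1)]⟩, ⟨2, [(10, 1), (4, 1)]⟩, ⟨1, []⟩, ⟨2, [(7, 1), (2, 1)]⟩, ⟨2, [(7, 1), (2, 1)]⟩, ⟨1, []⟩, ⟨2, [(10, 1), (4, 1)]⟩, ⟨2, [(10, 1), (4, 1)]⟩, ⟨2, [(7, 1), (2, 1)]⟩, ⟨2, [(7, 1), (2, 1)]⟩, ⟨1, []⟩, ⟨1, [(0, 1)]⟩])))))))))⟩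
def s21_5 : Sys := ⟨[(0, -64), (2, 0), (4, 64)], [(0, -64), (2, 64)], 4, [s21_5_n0], [-64, -64, 256, 192], (.leaf 0 [⟨1, []⟩, ⟨1, []⟩, ⟨1, []⟩, ⟨1, []⟩, ⟨1, []⟩, ⟨1, []⟩, ⟨1, []⟩, ⟨1, []⟩, ⟨1, []⟩, ⟨1, []⟩, ⟨1, []⟩])⟩

theorem s21_5_ok : s21_5.ok = true := by decide +kernel

def s21_11_n0 : Node := ⟨[⟨[0, -1], 24⟩, ⟨[0, 0, 0, -1], -24⟩, ⟨[1], 56⟩, ⟨[1, 0, -1], 16⟩, ⟨[1, 0, -1], -16⟩, ⟨[1], 72⟩], [1], 0, none, (.ndet 0 [⟨1, [(5, 1)]⟩, ⟨1, [(4, 1)]⟩] (.ddet 1 [⟨1, [(0, 1)]⟩, ⟨1, [(2, 1)]⟩] (.ndet 1 [⟨1, [(0, 1)]⟩, ⟨1, [(2, 1)]⟩] (.ddet 0 [⟨1, [(0, 1)]⟩, ⟨1, [(5, 1)]⟩] (.leaf 0 [⟨1, [(0, 1)]⟩, ⟨1, [(5, 1)]⟩, ⟨1, [(0, 1)]⟩, ⟨1, []⟩, ⟨1,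 []⟩, ⟨1, [(0, 1)]⟩, ⟨1, []⟩])))))⟩
def s21_11 : Sys := ⟨[(0, 32), (2, 32), (4, -32)], [(0, 0), (1, 0), (3, 0)], 4, [s21_11_n0], [112, -48, 80, -16], (.leaf 0 [⟨1, []⟩, ⟨1, []⟩, ⟨1, []⟩, ⟨1, []⟩, ⟨1, []⟩, ⟨1, []⟩])⟩

theorem s21_11_ok : s21_11.ok = true := by decide +kernel

def s22_2_n0 : Node := ⟨[⟨[1, -1], 80⟩, ⟨[1, 0, 0, -1], 24⟩, ⟨[1], 16⟩, ⟨[1, 0, -1], -8⟩, ⟨[1], 40⟩], [1], 0, none, (.ndet 0 [⟨1, [(4, 1)]⟩, ⟨1, [(3, 1)]⟩] (.ddet 0 [] (.ndet 1 [⟨1, [(0, 1)]⟩, ⟨1, [(1, 1)]⟩] (.ddet 0 [] (.leaf 0 [⟨1, [(0, 1)]⟩, ⟨1, [(4, 1)]⟩, ⟨1, [(0, 1)]⟩, ⟨1, []⟩, ⟨1, [(0, 1)]⟩, ⟨1, []⟩])))))⟩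
def s22_2 : Sys := ⟨[(1, -32), (2, 16), (4, -16)], [(1, 0)], 4, [s22_2_n0], [112, 0, 96, 80], (.leaf 0 [⟨1, []⟩, ⟨1, []⟩, ⟨1, []⟩, ⟨1, []⟩, ⟨1, []⟩])⟩

theorem s22_2_ok : s22_2.ok = true := by decide +kernel

def s22_8_t0 : Tree := .nbr (.cons (.ddet 0 [] (.ndet 2 [⟨2, [(14, 1), (8, 1), (6, 3), (2, 3)]⟩, ⟨1, [(6, 1)]⟩] (.ddet 0 [] (.split [1, 1, -1] (7000) (.leaf 0 [⟨1, [(15, 1), (11, 1)]⟩, ⟨1, [(0, 1)]⟩, ⟨2, [(15, 1), (9, 1), (7, 3), (3, 1)]⟩, ⟨1, [(15, 1), (11, 1)]⟩, ⟨2, [(15, 1), (9, 1), (7, 1), (3, 1)]⟩, ⟨1, [(13, 1)]⟩, ⟨2, [(15, 1), (9, 1), (7, 1), (3, 3)]⟩, ⟨1, [(13, 1), (3, 1)]⟩, ⟨1, [(7, 1)]⟩, ⟨1, []⟩, ⟨2, [(15, 1), (9, 1),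 (7, 1), (3, 3)]⟩, ⟨1, [(13, 1), (3, 1)]⟩, ⟨1, []⟩]) (.leaf 2 [⟨1, [(15, 1), (11, 1), (0, 1)]⟩, ⟨1, [(15, 1), (11, 1), (7, 2), (0, 2)]⟩, ⟨1, [(0, 1)]⟩, ⟨1, [(15, 1), (11, 1), (7, 1)]⟩, ⟨1, [(15, 1), (11, 1)]⟩, ⟨1, [(15, 1), (11, 1), (7, 1), (0, 1)]⟩, ⟨1, [(15, 1), (11, 1), (7, 2), (0, 1)]⟩, ⟨1, [(15, 1), (11, 1), (7, 1), (0, 1)]⟩, ⟨1, [(15, 1), (11, 1), (0, 1)]⟩, ⟨1, [(7, 1)]⟩, ⟨1, []⟩, ⟨1, [(15, 1), (11, 1), (7, 2), (0, 2)]⟩, ⟨1, [(15, 1), (11, 1), (7, 1), (0, 2)]⟩, ⟨1, [(0, 2)]⟩, ⟨1, [(0, 1)]⟩]))))) (.cons (.prune [(14, 1), (8, 1), (1, 2), (0, 1)]) (.cons (.ddet 0 [] (.ndet 2 [⟨1, [(12, 3), (2, 3), (1, 1)]⟩, ⟨1, [(12, 1), (2, 1),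 (1, 1)]⟩] (.ddet 0 [] (.leaf 0 [⟨1, [(12, 2), (1, 1)]⟩, ⟨1, [(12, 1), (1, 1)]⟩, ⟨1, [(12, 3), (2, 2), (1, 1)]⟩, ⟨1, [(12, 2), (1, 1)]⟩, ⟨1, [(12, 2), (2, 1)]⟩, ⟨1, [(12, 1)]⟩, ⟨1, [(12, 2), (2, 2)]⟩, ⟨1, [(12, 1), (2, 1)]⟩, ⟨1, [(12, 1), (2, 1), (1, 1)]⟩, ⟨1, [(1, 1)]⟩, ⟨1, [(12, 2), (2, 2), (1, 1)]⟩, ⟨1, [(12, 1), (2, 1), (1, 1)]⟩, ⟨1, []⟩])))) .nil)))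
def s22_8_t1 : Tree := .nbr (.cons (.ddet 0 [] (.nbr (.cons (.prune [(16, 1), (10, 1), (8, 1), (6, 3), (1, 5)]) (.cons (.ddet 0 [] (.leaf 0 [⟨1, [(15, 1), (8, 3), (0, 3)]⟩, ⟨1, [(8, 1), (0, 1)]⟩, ⟨1, [(15, 1), (8, 2), (0, 1)]⟩, ⟨1, [(15, 1), (8, 3), (0, 3)]⟩, ⟨1, [(15, 1), (8, 2), (0, 1)]⟩, ⟨1, [(15, 1), (8, 2), (0, 2)]⟩, ⟨1, [(15, 1), (8, 1)]⟩, ⟨1, [(15, 1), (8, 1), (0, 1)]⟩, ⟨1, []⟩, ⟨1, [(0, 1)]⟩, ⟨1, [(15, 1), (8, 1), (0, 1)]⟩, ⟨1, [(15, 1), (8, 1), (0, 2)]⟩, ⟨1, [(0, 1)]⟩])) (.cons (.ddet 0 [] (.leaf 0 [⟨2, [(16, 1), (10, 1), (8, 1), (4, 1)]⟩, ⟨1, [(8, 1)]⟩, ⟨1, [(15, 1), (8, 2)]⟩, ⟨2, [(16, 1), (10, 1), (8, 1), (4, 1)]⟩, ⟨1,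 [(14, 1), (8, 1)]⟩, ⟨1, [(14, 1), (4, 1)]⟩, ⟨1, [(15, 1), (8, 1)]⟩, ⟨1, [(14, 1)]⟩, ⟨1, [(0, 1)]⟩, ⟨1, []⟩, ⟨1, [(15, 1), (8, 1)]⟩, ⟨1, [(14, 1)]⟩, ⟨1, []⟩])) .nil))))) (.cons (.prune [(16, 1), (8, 1), (2, 3), (1, 2), (0, 2)]) (.cons (.ddet 0 [] (.ndet 2 [⟨1, [(13, 2), (12, 1), (1, 1)]⟩, ⟨1, [(13, 1), (1, 1)]⟩] (.ddet 0 [] (.leaf 0 [⟨1, [(12, 2), (2, 1), (1, 1)]⟩, ⟨1, [(12, 1), (1, 1)]⟩, ⟨1, [(13, 1), (12, 2), (1, 1)]⟩, ⟨1, [(12, 2), (2, 1), (1, 1)]⟩, ⟨1, [(12, 2)]⟩, ⟨1, [(12, 1), (2, 1)]⟩, ⟨1, [(13, 1), (12, 1)]⟩, ⟨1, [(12, 1)]⟩, ⟨1, [(13, 1), (1, 1)]⟩, ⟨1, [(1, 1)]⟩, ⟨1, [(13, 1), (12, 1), (1, 1)]⟩, ⟨1, [(12, 1), (1, 1)]⟩, ⟨1, []⟩]))))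 .nil)))
def s22_8_t2 : Tree := .nbr (.cons (.ddet 0 [] (.nbr (.cons (.prune [(14, 2), (11, 1), (9, 1), (6, 1), (1, 4)]) (.cons (.ddet 0 [] s22_8_t0) (.cons (.ddet 0 [] s22_8_t1) .nil))))) (.cons (.prune [(9, 1), (1, 1)]) (.cons (.ddet 0 [] (.ndet 2 [⟨1, [(9, 3), (2, 3), (1, 1)]⟩, ⟨1, [(9, 1), (2, 1), (1, 1)]⟩] (.ddet 0 [] (.ndet 0 [⟨1, [(9, 3), (2, 2), (1, 1)]⟩, ⟨1, [(9, 2), (1, 1)]⟩] (.ddet 0 [] (.ndet 1 [⟨1, [(9, 1), (2, 1)]⟩, ⟨1, [(9, 1), (1, 1)]⟩] (.ddet 0 [] (.leaf 0 [⟨1, [(9, 4), (2, 3), (1, 1)]⟩, ⟨1, [(9, 1), (2, 1)]⟩, ⟨1, [(9, 2), (2, 2)]⟩, ⟨1, [(9, 4), (2, 3), (1, 1)]⟩, ⟨1, [(9, 2), (2, 2)]⟩, ⟨1, [(9, 3), (2, 2), (1, 1)]⟩,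 ⟨1, [(9, 1), (2, 1)]⟩, ⟨1, [(9, 2), (2, 1), (1, 1)]⟩, ⟨1, []⟩, ⟨1, [(9, 1), (1, 1)]⟩, ⟨1, [(9, 2), (2, 1), (1, 1)]⟩, ⟨1, [(9, 3), (2, 1), (1, 2)]⟩, ⟨1, [(9, 1)]⟩])))))))) .nil)))
def s22_8_t3 : Tree := .nbr (.cons (.prune [(13, 1), (1, 1)]) (.cons (.ddet 0 [] (.split [1, 1, -1] (-1000) (.leaf 0 [⟨1, [(14, 1), (1, 1), (0, 2)]⟩, ⟨1, [(0, 1)]⟩, ⟨1, [(14, 1), (0, 1)]⟩, ⟨1, [(14, 1), (1, 1), (0, 2)]⟩, ⟨1, [(14, 1), (0, 1)]⟩, ⟨1, [(14, 1), (1, 1), (0, 1)]⟩, ⟨1, [(14, 1)]⟩, ⟨1, [(14, 1), (1, 1)]⟩, ⟨1, []⟩, ⟨1, [(1, 1)]⟩, ⟨1, [(14, 1), (1, 1)]⟩, ⟨1, [(14, 1), (1, 2)]⟩, ⟨1, [(1, 1)]⟩]) (.leaf 2 [⟨1, [(19, 1), (14, 1), (1, 2)]⟩, ⟨1, [(14, 1)]⟩,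 ⟨1, [(0, 1)]⟩, ⟨1, [(19, 2), (14, 1), (1, 2)]⟩, ⟨1, [(19, 2), (14, 1), (1, 3)]⟩, ⟨1, [(19, 1), (14, 1), (1, 1)]⟩, ⟨1, [(19, 1), (14, 1), (1, 1)]⟩, ⟨1, [(19, 1), (14, 1), (1, 2)]⟩, ⟨1, [(19, 1), (14, 1), (1, 3)]⟩, ⟨1, []⟩, ⟨1, [(1, 1)]⟩, ⟨1, [(14, 1), (1, 1)]⟩, ⟨1, [(14, 1), (1, 2)]⟩, ⟨1, [(1, 1), (0, 2)]⟩, ⟨1, [(1, 1), (0, 1)]⟩]))) (.cons (.ddet 0 [] (.split [1, 0, -1] (0) (.leaf 0 [⟨1, [(17, 1), (11, 1)]⟩, ⟨1, [(0, 1)]⟩, ⟨1, [(14, 1), (0, 1)]⟩, ⟨1, [(17, 1), (11, 1)]⟩, ⟨1, [(13, 1), (0, 1)]⟩, ⟨2, [(15, 1), (9, 1), (3, 1)]⟩, ⟨1, [(14, 1)]⟩, ⟨1, [(13, 1)]⟩, ⟨1, [(1, 1)]⟩, ⟨1, []⟩, ⟨1, [(14, 1)]⟩, ⟨1, [(13, 1)]⟩, ⟨1, []⟩]) (.leaf 2 [⟨1,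 [(17, 1), (11, 1), (0, 1)]⟩, ⟨1, [(14, 1)]⟩, ⟨1, [(0, 1)]⟩, ⟨1, [(19, 2), (13, 1)]⟩, ⟨1, [(17, 1), (11, 1)]⟩, ⟨1, [(19, 1), (13, 1)]⟩, ⟨1, [(19, 1), (14, 1)]⟩, ⟨1, [(19, 1), (13, 1)]⟩, ⟨1, [(17, 1), (11, 1), (0, 1)]⟩, ⟨1, [(1, 1)]⟩, ⟨1, []⟩, ⟨1, [(14, 1)]⟩, ⟨1, [(13, 1)]⟩, ⟨1, [(0, 2)]⟩, ⟨1, [(0, 1)]⟩]))) .nil)))
def s22_8_t4 : Tree := .nbr (.cons (.prune [(14, 2), (9, 1), (6, 1), (1, 2), (0, 1)]) (.cons (.ddet 0 [] (.ndet 0 [⟨2, [(12, 1), (6, 1), (0, 1)]⟩, ⟨2, [(12, 1), (6, 1), (4, 2), (0, 3)]⟩] (.ddet 0 [] (.ndet 2 [⟨1, [(16, 1), (14, 1), (8, 1), (0, 2)]⟩, ⟨1, [(16, 1)]⟩] (.ddet 0 [] (.split [2, 1, -2] (4000) (.leaf 0 [⟨1, [(15,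 1), (9, 1)]⟩, ⟨1, [(0, 1)]⟩, ⟨1, [(15, 1), (9, 1), (1, 2), (0, 1)]⟩, ⟨1, [(15, 1), (9, 1)]⟩, ⟨1, [(15, 1), (9, 1), (1, 1)]⟩, ⟨2, [(13, 1), (7, 1), (1, 1)]⟩, ⟨1, [(15, 1), (9, 1), (1, 2)]⟩, ⟨2, [(13, 1), (7, 1), (1, 3)]⟩, ⟨1, [(1, 1), (0, 1)]⟩, ⟨1, []⟩, ⟨1, [(15, 1), (9, 1), (1, 2)]⟩, ⟨2, [(13, 1), (7, 1), (1, 3)]⟩, ⟨1, []⟩]) (.leaf 2 [⟨1, [(15, 1), (9, 1), (0, 1)]⟩, ⟨1, [(15, 1), (9, 1), (1, 2)]⟩, ⟨1, [(0, 1)]⟩, ⟨1, [(17, 1), (15, 1), (9, 1)]⟩, ⟨1, [(15, 1), (9, 1)]⟩, ⟨1, [(15, 1), (9, 1), (1, 1)]⟩, ⟨1, [(17, 1), (15, 1), (9, 1), (1, 1)]⟩, ⟨1, [(15, 1), (9, 1), (1, 1)]⟩, ⟨1, [(15, 1), (9, 1), (0, 1)]⟩, ⟨1, [(17, 1)]⟩, ⟨1, []⟩, ⟨1,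 [(15, 1), (9, 1), (1, 2)]⟩, ⟨1, [(15, 1), (9, 1), (1, 1), (0, 1)]⟩, ⟨1, [(0, 2)]⟩, ⟨1, [(0, 1)]⟩]))))))) (.cons (.ddet 0 [] (.ndet 0 [⟨2, [(12, 1), (6, 1), (0, 1)]⟩, ⟨1, [(10, 1), (4, 1)]⟩] (.ddet 0 [] s22_8_t3))) .nil)))
def s22_8_t5 : Tree := .nbr (.cons (.ddet 0 [] s22_8_t4) (.cons (.prune [(9, 1), (2, 1), (1, 1)]) (.cons (.ddet 0 [] (.ndet 2 [⟨1, [(14, 2), (9, 3), (1, 1)]⟩, ⟨1, [(14, 1), (9, 1), (1, 1)]⟩] (.ddet 0 [] (.ndet 0 [⟨1, [(14, 1), (9, 3), (1, 1)]⟩, ⟨1, [(9, 2), (2, 1), (1, 1)]⟩] (.ddet 0 [] (.ndet 1 [⟨1, [(9, 1)]⟩, ⟨1, [(9, 1), (1, 1)]⟩] (.ddet 0 [] (.leaf 0 [⟨1, [(14, 2), (9, 4), (1, 1)]⟩, ⟨1, [(14, 1), (9, 1)]⟩, ⟨1,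 [(14, 1), (9, 2)]⟩, ⟨1, [(14, 2), (9, 4), (1, 1)]⟩, ⟨1, [(14, 1), (9, 2)]⟩, ⟨1, [(14, 1), (9, 3), (1, 1)]⟩, ⟨1, [(9, 1)]⟩, ⟨1, [(9, 2), (1, 1)]⟩, ⟨1, []⟩, ⟨1, [(9, 1), (1, 1)]⟩, ⟨1, [(9, 2), (1, 1)]⟩, ⟨1, [(9, 3), (1, 2)]⟩, ⟨1, [(9, 1)]⟩])))))))) .nil)))
def s22_8_n0 : Node := ⟨[⟨[1, 0, 0, -1], -200⟩, ⟨[1, 0, -1], -200⟩, ⟨[1, -1], -200⟩, ⟨[1, 0, 0, -1], 119700⟩, ⟨[0, -1, 1, -1], 119700⟩, ⟨[0, 0, 1, -1], 119000⟩, ⟨[0, -1, 1], 119700⟩, ⟨[0, 0, 1], 119700⟩, ⟨[1, 0, -1, 1], -4320⟩, ⟨[1, 1, -1, 1], -3340⟩, ⟨[1, 0, 0, 1], 117000⟩, ⟨[1, 1, 0, 1], 117000⟩], [1], 0, none, (.ndet 0 [⟨1, [(10, 1), (5, 1)]⟩, ⟨1, [(8, 1)]⟩] (.ddet 0 [] (.nbr (.cons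 (.prune [(6, 1), (1, 1)]) (.cons (.ddet 0 [] s22_8_t2) (.cons (.ddet 0 [] s22_8_t5) .nil))))))⟩
def s22_8_t6 : Tree := .ddet 0 [] (.ndet 0 [⟨1, [(7, 1), (4, 1)]⟩, ⟨1, [(15, 1), (7, 1), (0, 1)]⟩] (.ddet 0 [] (.ndet 2 [⟨1, [(12, 1), (8, 1), (4, 1), (0, 2)]⟩, ⟨1, [(8, 1), (4, 1)]⟩] (.ddet 0 [] (.ndet 0 [⟨1, [(12, 1), (8, 1), (4, 1), (0, 1)]⟩, ⟨1, [(12, 1)]⟩] (.ddet 0 [] (.split [1, 0, 1] (9000) (.leaf 1 [⟨1, [(0, 1)]⟩, ⟨1, [(13, 1), (9, 1), (5, 1), (1, 1)]⟩, ⟨1, [(8, 1), (5, 1), (1, 1)]⟩, ⟨1, []⟩, ⟨1, [(0, 2)]⟩, ⟨1, [(0, 1)]⟩, ⟨1, [(8, 1), (5, 1)]⟩, ⟨1, [(13, 1)]⟩, ⟨1, [(13, 1), (1, 2)]⟩, ⟨1, [(13, 1), (9, 1), (5, 1), (1, 1)]⟩, ⟨1, []⟩,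 ⟨1, [(16, 1), (8, 1), (1, 2)]⟩, ⟨1, [(13, 1), (1, 1)]⟩, ⟨1, []⟩]) (.leaf 3 [⟨1, [(13, 1), (9, 2), (5, 2), (0, 2)]⟩, ⟨1, [(0, 1)]⟩, ⟨1, [(13, 1), (9, 1), (5, 1), (0, 3)]⟩, ⟨1, []⟩, ⟨1, [(13, 1), (0, 1)]⟩, ⟨1, [(13, 1)]⟩, ⟨1, [(13, 1), (9, 2), (5, 2), (0, 1)]⟩, ⟨1, [(0, 2)]⟩, ⟨1, []⟩, ⟨1, [(13, 1), (9, 1), (5, 1), (0, 1)]⟩, ⟨1, [(0, 1)]⟩]))))))))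
def s22_8_t7 : Tree := .nbr (.cons (.prune [(17, 1), (16, 1), (12, 2), (1, 2)]) (.cons (.ddet 0 [] (.ndet 0 [⟨1, [(10, 1), (9, 1), (6, 2)]⟩, ⟨1, [(10, 2), (9, 1), (6, 3), (0, 2)]⟩] (.ddet 0 [] (.leaf 1 [⟨1, [(10, 1), (6, 1), (0, 1)]⟩, ⟨1, [(10, 1), (9, 1), (6, 2)]⟩, ⟨1, [(9, 1), (6, 1)]⟩, ⟨1, []⟩, ⟨1, [(10, 2), (6, 2), (0, 2)]⟩, ⟨1, [(10, 1), (6, 1), (0, 1)]⟩, ⟨1, [(10, 1), (9, 1), (6, 2), (0, 2)]⟩, ⟨1, [(10, 2), (9, 1), (6, 3), (0, 3)]⟩, ⟨1, [(12, 1), (6, 1)]⟩, ⟨1, [(10, 1), (9, 1), (6, 2)]⟩, ⟨1, []⟩, ⟨1, [(17, 1), (12, 1)]⟩, ⟨1, [(10, 1), (9, 1), (6, 2), (0, 1)]⟩, ⟨1, [(0, 1)]⟩])))) (.cons (.ddet 0 [] (.ndet 0 [⟨1, [(12, 1), (10,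 1), (6, 2)]⟩, ⟨1, [(14, 1)]⟩] (.ddet 0 [] (.leaf 1 [⟨1, [(10, 1), (6, 1)]⟩, ⟨1, [(12, 1), (10, 1), (6, 2)]⟩, ⟨1, [(9, 1), (6, 1)]⟩, ⟨1, []⟩, ⟨1, [(10, 2), (6, 2)]⟩, ⟨1, [(10, 1), (6, 1)]⟩, ⟨1, [(9, 1), (6, 1), (2, 1)]⟩, ⟨1, [(14, 1)]⟩, ⟨1, [(12, 1), (6, 1)]⟩, ⟨1, [(12, 1), (10, 1), (6, 2)]⟩, ⟨1, []⟩, ⟨1, [(17, 1), (9, 1)]⟩, ⟨1, [(10, 1), (9, 1), (6, 2)]⟩, ⟨1, []⟩])))) .nil)))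
def s22_8_t8 : Tree := .ddet 0 [] (.ndet 2 [⟨1, [(8, 3), (2, 3), (1, 1)]⟩, ⟨1, [(8, 1), (2, 1), (1, 1)]⟩] (.ddet 0 [] (.ndet 0 [⟨1, [(13, 1), (8, 3), (2, 2), (1, 1)]⟩, ⟨1, [(13, 2), (8, 2), (1, 1)]⟩] (.ddet 0 [] (.ndet 1 [⟨1, [(8, 1), (2, 1)]⟩, ⟨1, [(13, 1), (8, 1), (1, 1)]⟩] (.ddet 0 [] (.ndet 0 [⟨1, [(8, 2), (2, 2)]⟩, ⟨1, [(13, 1), (8, 4), (2, 3), (1, 1)]⟩] (.ddet 0 [] (.leaf 1 [⟨1, [(8, 1), (2, 1)]⟩, ⟨1, [(8, 2), (2, 2)]⟩, ⟨1, [(13, 1), (8, 2), (2, 1), (1, 1)]⟩, ⟨1, []⟩, ⟨1, [(8, 2), (2, 2)]⟩, ⟨1, [(8, 1), (2, 1)]⟩, ⟨1, [(13, 2), (8, 4), (2, 2), (1, 2)]⟩, ⟨1, [(13, 2), (8, 5), (2, 3), (1, 2)]⟩, ⟨1, [(8, 1), (2, 1)]⟩, ⟨1, [(8, 2),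 (2, 2)]⟩, ⟨1, []⟩, ⟨1, [(13, 1), (8, 1), (1, 1)]⟩, ⟨1, [(13, 1), (8, 3), (2, 2), (1, 1)]⟩, ⟨1, [(13, 1), (8, 1)]⟩])))))))))
def s22_8_t9 : Tree := .nbr (.cons (.ddet 0 [] (.nbr (.cons (.prune [(15, 1), (11, 2), (7, 1), (1, 1), (0, 2)]) (.cons s22_8_t6 (.cons (.ddet 0 [] (.ndet 0 [⟨1, [(7, 1), (4, 1), (0, 1)]⟩, ⟨1, [(15, 1), (7, 1)]⟩] (.ddet 0 [] s22_8_t7))) .nil))))) (.cons (.prune [(13, 1), (5, 1), (1, 1), (0, 1)]) (.cons s22_8_t8 .nil)))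
def s22_8_t10 : Tree := .ddet 0 [] (.ndet 0 [⟨1, [(15, 1), (12, 1), (0, 1)]⟩, ⟨1, [(15, 1), (7, 1), (0, 1)]⟩] (.ddet 0 [] (.ndet 2 [⟨1, [(18, 1), (11, 1), (0, 2)]⟩, ⟨1, [(13, 1)]⟩] (.ddet 0 [] (.ndet 0 [⟨1, [(18, 1), (11, 1), (0, 1)]⟩, ⟨1, [(15, 1), (11, 1)]⟩] (.ddet 0 [] (.split [1, 1, 1, -1] (6000) (.leaf 1 [⟨1, [(0, 1)]⟩, ⟨1, [(19, 1), (12, 1), (1, 1)]⟩, ⟨1, [(16, 1), (13, 1), (1, 2)]⟩, ⟨1, []⟩, ⟨1, [(0, 2)]⟩, ⟨1, [(0, 1)]⟩, ⟨1, [(16, 1), (13, 1), (1, 1)]⟩, ⟨1, [(16, 1), (12, 1)]⟩, ⟨1, [(16, 1), (12, 1), (1, 2)]⟩, ⟨1, [(19, 1), (12, 1), (1, 1)]⟩, ⟨1, []⟩, ⟨1, [(16, 1), (8, 1), (1, 2)]⟩, ⟨1, [(16, 1), (12, 1), (1, 1)]⟩, ⟨1, []⟩])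 (.leaf 3 [⟨1, [(19, 1), (12, 1), (1, 1), (0, 1)]⟩, ⟨1, [(0, 1)]⟩, ⟨1, [(19, 1), (12, 1), (0, 3)]⟩, ⟨1, []⟩, ⟨1, [(16, 1), (12, 1), (0, 1)]⟩, ⟨1, [(16, 1), (12, 1)]⟩, ⟨1, [(19, 1), (12, 1), (1, 1)]⟩, ⟨1, [(0, 2)]⟩, ⟨1, []⟩, ⟨1, [(19, 1), (12, 1), (0, 1)]⟩, ⟨1, [(0, 1)]⟩]))))))))
def s22_8_t11 : Tree := .nbr (.cons (.prune [(11, 1), (9, 1), (4, 1), (1, 3)]) (.cons (.ddet 0 [] (.ndet 0 [⟨1, [(11, 1), (0, 1)]⟩, ⟨1, [(15, 1), (11, 1), (0, 3)]⟩] (.ddet 0 [] (.split [0, 1, 1, -1] (-1000) (.leaf 1 [⟨1, [(0, 1)]⟩, ⟨1, [(12, 1), (1, 1)]⟩, ⟨1, [(13, 1), (1, 1)]⟩, ⟨1, []⟩, ⟨1, [(0, 2)]⟩, ⟨1, [(0, 1)]⟩, ⟨1, [(12, 1), (1, 3)]⟩, ⟨1, [(12, 1), (1,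 3), (0, 1)]⟩, ⟨1, [(13, 1)]⟩, ⟨1, [(12, 1), (1, 1)]⟩, ⟨1, []⟩, ⟨1, [(18, 1), (13, 1), (7, 1)]⟩, ⟨1, [(12, 1), (1, 2)]⟩, ⟨1, [(1, 1)]⟩]) (.leaf 3 [⟨1, [(12, 1), (1, 1), (0, 1)]⟩, ⟨1, [(0, 1)]⟩, ⟨1, [(12, 1), (1, 2), (0, 2)]⟩, ⟨1, []⟩, ⟨1, [(12, 1), (1, 3)]⟩, ⟨1, [(16, 1), (12, 1), (1, 4)]⟩, ⟨1, [(12, 1), (1, 1)]⟩, ⟨1, [(0, 2)]⟩, ⟨1, []⟩, ⟨1, [(12, 1), (1, 2)]⟩, ⟨1, [(1, 1), (0, 1)]⟩]))))) (.cons (.ddet 0 [] (.ndet 0 [⟨1, [(11, 1)]⟩, ⟨1, [(17, 1), (13, 1)]⟩] (.ddet 0 [] (.split [1] (2000) (.leaf 1 [⟨1, [(0, 1)]⟩, ⟨1, [(12, 1)]⟩, ⟨2, [(18, 2), (10, 1), (9, 1)]⟩, ⟨1, []⟩, ⟨1, [(0, 2)]⟩, ⟨1, [(0, 1)]⟩, ⟨1, [(18, 1), (15, 1)]⟩, ⟨1, [(18,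 1), (14, 1)]⟩, ⟨1, [(13, 1)]⟩, ⟨1, [(12, 1)]⟩, ⟨1, []⟩, ⟨1, [(18, 1), (10, 1)]⟩, ⟨1, [(18, 1), (9, 1)]⟩, ⟨1, []⟩]) (.leaf 3 [⟨1, [(12, 1), (0, 1)]⟩, ⟨1, [(0, 1)]⟩, ⟨1, [(21, 1), (9, 1), (0, 3)]⟩, ⟨1, []⟩, ⟨1, [(21, 1), (14, 1), (0, 2)]⟩, ⟨1, [(21, 1), (14, 1), (0, 1)]⟩, ⟨1, [(12, 1)]⟩, ⟨1, [(0, 2)]⟩, ⟨1, []⟩, ⟨1, [(21, 1), (9, 1), (0, 1)]⟩, ⟨1, [(0, 1)]⟩]))))) .nil)))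
def s22_8_t12 : Tree := .ddet 0 [] (.ndet 2 [⟨1, [(13, 2), (8, 1), (7, 2), (1, 1)]⟩, ⟨1, [(13, 1), (7, 1), (1, 1)]⟩] (.ddet 0 [] (.ndet 0 [⟨1, [(13, 2), (8, 2), (7, 1), (1, 1)]⟩, ⟨1, [(13, 2), (8, 2), (2, 1), (1, 1)]⟩] (.ddet 0 [] (.ndet 1 [⟨1, [(8, 1)]⟩, ⟨1, [(13, 1), (8, 1), (1, 1)]⟩] (.ddet 0 [] (.ndet 0 [⟨1, [(13, 1), (8, 1), (7, 1)]⟩, ⟨1, [(13, 3), (8, 2), (7, 2), (1, 1)]⟩] (.ddet 0 [] (.leaf 1 [⟨1, [(13, 1), (7, 1)]⟩, ⟨1, [(13, 1), (8, 1), (7, 1)]⟩, ⟨1, [(13, 1), (8, 2), (1, 1)]⟩, ⟨1, []⟩, ⟨1, [(13, 2), (7, 2)]⟩, ⟨1, [(13, 1), (7, 1)]⟩, ⟨1, [(13, 3), (8, 3), (7, 1), (1, 2)]⟩, ⟨1, [(13, 4), (8, 3), (7, 2), (1, 2)]⟩, ⟨1, [(8, 1)]⟩,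 ⟨1, [(13, 1), (8, 1), (7, 1)]⟩, ⟨1, []⟩, ⟨1, [(13, 1), (8, 1), (2, 1), (1, 1)]⟩, ⟨1, [(13, 2), (8, 2), (7, 1), (1, 1)]⟩, ⟨1, [(13, 1), (8, 1)]⟩])))))))))
def s22_8_t13 : Tree := .nbr (.cons (.ddet 0 [] (.nbr (.cons (.prune [(15, 1), (11, 1), (0, 1)]) (.cons s22_8_t10 (.cons (.ddet 0 [] (.ndet 0 [⟨1, [(15, 1), (12, 1)]⟩, ⟨1, [(15, 1), (7, 1)]⟩] (.ddet 0 [] s22_8_t11))) .nil))))) (.cons (.prune [(13, 1), (5, 1), (2, 1), (1, 1), (0, 1)]) (.cons s22_8_t12 .nil)))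
def s22_8_n1 : Node := ⟨[⟨[0, 1, 0, -1], -200⟩, ⟨[0, 1, -1], -200⟩, ⟨[-1, 1], -200⟩, ⟨[-1, 1, 0, -1], 1680⟩, ⟨[1, 1, 0, -1], -2294⟩, ⟨[1], -2303⟩, ⟨[0, 1, 1], 117000⟩, ⟨[1, 1, 1], 117000⟩, ⟨[0, 0, -1, 1], 119700⟩, ⟨[1, 0, -1, 1], 119700⟩, ⟨[1, -1, 0, 1], -2320⟩, ⟨[-1, 0, 0, 1], 119700⟩, ⟨[1, 0, 0, 1], 119700⟩], [0, 1], 0, none, (.nbr (.cons (.prune [(3, 1), (0, 1)]) (.cons (.ddet 0 [] s22_8_t9) (.cons (.ddet 0 [] s22_8_t13) .nil))))⟩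
def s22_8_t14 : Tree := .ndet 0 [⟨1, [(9, 1), (0, 1)]⟩, ⟨1, [(15, 1), (9, 1), (0, 2)]⟩] (.ddet 0 [] (.nbr (.cons (.prune [(16, 3), (10, 2), (7, 1), (2, 2), (0, 4)]) (.cons (.ddet 0 [] (.leaf 2 [⟨1, [(16, 1), (9, 1), (0, 2)]⟩, ⟨1, [(13, 1), (0, 1)]⟩, ⟨1, [(2, 1)]⟩, ⟨1, [(15, 1), (9, 1)]⟩, ⟨1, [(15, 1), (9, 1), (0, 1)]⟩, ⟨1, [(16, 1), (9, 1), (0, 1)]⟩, ⟨1, [(16, 1), (9, 1), (0, 1)]⟩, ⟨1, [(16, 1), (9, 1), (0, 2)]⟩, ⟨1, [(16, 1), (9, 1), (0, 3)]⟩, ⟨1, []⟩, ⟨1, [(0, 1)]⟩, ⟨1, [(13, 1), (0, 2)]⟩, ⟨1, [(13, 1), (0, 3)]⟩, ⟨1, [(2, 2), (0, 1)]⟩, ⟨1, [(2, 1)]⟩])) (.cons (.ddet 0 [] (.split [2, 1, -2] (4000) (.leaf 0 [⟨1, [(12, 1), (3, 1), (0,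 1)]⟩, ⟨1, [(0, 1)]⟩, ⟨1, [(12, 1), (3, 3), (0, 2)]⟩, ⟨1, [(12, 1), (3, 1), (0, 1)]⟩, ⟨1, [(12, 1), (3, 2), (0, 1)]⟩, ⟨1, [(12, 1), (3, 1)]⟩, ⟨1, [(12, 1), (3, 3), (0, 1)]⟩, ⟨1, [(12, 1), (3, 2)]⟩, ⟨1, [(3, 1), (0, 1)]⟩, ⟨1, []⟩, ⟨1, [(12, 1), (3, 3), (0, 1)]⟩, ⟨1, [(12, 1), (3, 2)]⟩, ⟨1, [(3, 1), (0, 1)]⟩]) (.leaf 2 [⟨1, [(12, 1), (3, 1)]⟩, ⟨1, [(16, 1), (10, 1), (3, 2)]⟩, ⟨1, [(0, 1)]⟩, ⟨1, [(16, 1), (10, 1), (1, 1)]⟩, ⟨1, [(16, 1), (10, 1)]⟩, ⟨1, [(16, 1), (10, 1), (3, 1)]⟩, ⟨1, [(17, 1), (10, 1)]⟩, ⟨1, [(16, 1), (10, 1), (3, 1)]⟩, ⟨1, [(12, 1), (3, 1)]⟩, ⟨1, [(1, 1)]⟩, ⟨1, []⟩, ⟨1, [(16, 1), (10, 1), (3, 2)]⟩, ⟨1, [(12, 1), (3,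 2)]⟩, ⟨1, [(0, 2)]⟩, ⟨1, [(3, 1)]⟩]))) .nil)))))
def s22_8_t15 : Tree := .nbr (.cons (.prune [(14, 2), (7, 1), (6, 1), (4, 3), (1, 6)]) (.cons (.ddet 0 [] (.split [1, 1, -1] (-1000) (.leaf 0 [⟨1, [(14, 1), (1, 2), (0, 1)]⟩, ⟨1, [(0, 1)]⟩, ⟨1, [(14, 1), (1, 1)]⟩, ⟨1, [(14, 1), (1, 2), (0, 1)]⟩, ⟨1, [(14, 1), (1, 1)]⟩, ⟨1, [(14, 1), (1, 2)]⟩, ⟨1, [(18, 1), (14, 1)]⟩, ⟨1, [(18, 1), (14, 1), (1, 1)]⟩, ⟨1, []⟩, ⟨1, [(1, 1)]⟩, ⟨1, [(18, 1), (14, 1), (1, 1)]⟩, ⟨1, [(18, 1), (14, 1), (1, 2)]⟩, ⟨1, [(0, 1)]⟩]) (.leaf 2 [⟨1, [(14, 1), (1, 2)]⟩, ⟨1, [(14, 1), (1, 1), (0, 1)]⟩, ⟨1, [(0, 1)]⟩, ⟨1, [(14, 1), (3, 1), (1, 1)]⟩, ⟨1, [(14, 1), (3, 1),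 (1, 2)]⟩, ⟨1, [(14, 1), (1, 1)]⟩, ⟨1, [(14, 1), (1, 1)]⟩, ⟨1, [(14, 1), (1, 2)]⟩, ⟨1, [(14, 1), (1, 3)]⟩, ⟨1, []⟩, ⟨1, [(1, 1)]⟩, ⟨1, [(14, 1), (1, 2), (0, 1)]⟩, ⟨1, [(14, 1), (1, 3), (0, 1)]⟩, ⟨1, [(1, 1), (0, 2)]⟩, ⟨1, []⟩]))) (.cons (.ddet 0 [] (.split [1, 0, -1] (0) (.leaf 0 [⟨1, [(12, 1), (0, 1)]⟩, ⟨1, [(0, 1)]⟩, ⟨1, [(14, 1)]⟩, ⟨1, [(12, 1), (0, 1)]⟩, ⟨1, [(13, 1)]⟩, ⟨1, [(12, 1)]⟩, ⟨1, [(18, 1), (14, 1)]⟩, ⟨1, [(18, 1), (13, 1)]⟩, ⟨1, [(1, 1)]⟩, ⟨1, []⟩, ⟨1, [(18, 1), (14, 1)]⟩, ⟨1, [(18, 1), (13, 1)]⟩, ⟨1, [(0, 1)]⟩]) (.leaf 2 [⟨1, [(12, 1)]⟩, ⟨1, [(14, 1), (0, 1)]⟩, ⟨1, [(0, 1)]⟩, ⟨1, [(14, 1), (3, 1)]⟩, ⟨1, [(16, 1), (10,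 1)]⟩, ⟨1, [(13, 1)]⟩, ⟨1, [(14, 1)]⟩, ⟨1, [(13, 1)]⟩, ⟨1, [(12, 1)]⟩, ⟨1, [(1, 1)]⟩, ⟨1, []⟩, ⟨1, [(14, 1), (0, 1)]⟩, ⟨1, [(13, 1), (0, 1)]⟩, ⟨1, [(0, 2)]⟩, ⟨1, []⟩]))) .nil)))
def s22_8_t16 : Tree := .nbr (.cons (.ddet 0 [] (.nbr (.cons (.prune [(14, 1), (5, 1), (1, 2)]) (.cons (.ddet 0 [] s22_8_t14) (.cons (.ddet 0 [] (.ndet 0 [⟨1, [(9, 1)]⟩, ⟨1, [(15, 2), (10, 1)]⟩] (.ddet 0 [] s22_8_t15))) .nil))))) (.cons (.prune [(13, 6), (11, 1), (4, 1), (1, 2), (0, 2)]) (.cons (.ddet 0 [] (.ndet 2 [⟨1, [(13, 1), (9, 3), (1, 1)]⟩, ⟨1, [(9, 1), (1, 1)]⟩] (.ddet 0 [] (.ndet 0 [⟨1, [(13, 2), (9, 3), (1, 1)]⟩, ⟨1, [(13, 3), (9, 2), (1, 1)]⟩] (.ddet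 0 [] (.ndet 1 [⟨1, [(13, 1), (9, 1)]⟩, ⟨1, [(13, 1), (9, 1), (1, 1)]⟩] (.ddet 0 [] (.leaf 0 [⟨1, [(13, 2), (9, 4), (1, 1)]⟩, ⟨1, [(9, 1)]⟩, ⟨1, [(13, 1), (9, 2)]⟩, ⟨1, [(13, 2), (9, 4), (1, 1)]⟩, ⟨1, [(13, 1), (9, 2)]⟩, ⟨1, [(13, 2), (9, 3), (1, 1)]⟩, ⟨1, [(13, 1), (9, 1)]⟩, ⟨1, [(13, 2), (9, 2), (1, 1)]⟩, ⟨1, []⟩, ⟨1, [(13, 1), (9, 1), (1, 1)]⟩, ⟨1, [(13, 2), (9, 2), (1, 1)]⟩, ⟨1, [(13, 3), (9, 3), (1, 2)]⟩, ⟨1, [(9, 1)]⟩])))))))) .nil)))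
def s22_8_n2 : Node := ⟨[⟨[0, 0, 1, -1], -200⟩, ⟨[0, -1, 1], -200⟩, ⟨[-1, 0, 1], -200⟩, ⟨[1, -1, 0, -1], 119000⟩, ⟨[1, 0, 0, -1], 119700⟩, ⟨[0, -1, 1, -1], 119700⟩, ⟨[1, -1], 119700⟩, ⟨[1], 119700⟩, ⟨[1, 1], 117000⟩, ⟨[1, 0, -1, 1], -4320⟩, ⟨[1, 1, -1, 1], -3340⟩, ⟨[1, 0, 0, 1], 117000⟩, ⟨[1, 1, 0, 1], 117000⟩, ⟨[-1, 1, 1, 1], -3300⟩], [0, 0, 1], 0, none, (.ndet 0 [⟨1, [(7, 1)]⟩, ⟨1, [(9, 1)]⟩] (.ddet 0 [] (.ndet 2 [⟨1, [(11, 2), (6, 1)]⟩, ⟨1, [(11, 1)]⟩] (.ddet 0 [] s22_8_t16))))⟩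
def s22_8_t17 : Tree := .nbr (.cons (.prune [(9, 1), (0, 1)]) (.cons (.ddet 0 [] (.ndet 0 [⟨2, [(12, 1), (10, 1), (9, 1), (0, 1)]⟩, ⟨1, [(12, 1), (10, 1), (0, 1)]⟩] (.ddet 0 [] (.leaf 3 [⟨1, [(9, 1), (0, 1)]⟩, ⟨1, [(2, 1)]⟩, ⟨1, [(9, 1), (2, 1), (0, 2)]⟩, ⟨1, []⟩, ⟨2, [(12, 1), (10, 1), (9, 1), (0, 5)]⟩, ⟨1, [(12, 1), (10, 1), (0, 2)]⟩, ⟨2, [(12, 1), (10, 1), (9, 1), (0, 1)]⟩, ⟨1, [(2, 2)]⟩, ⟨1, []⟩, ⟨2, [(12, 1), (10, 1), (9, 1), (0, 3)]⟩, ⟨1, [(12, 1), (2, 1)]⟩])))) (.cons (.ddet 0 [] (.ndet 0 [⟨2, [(12, 1), (10, 1), (9, 1), (0, 1)]⟩, ⟨1, [(12, 1), (10, 1)]⟩] (.ddet 0 [] (.split [1, 1, 1, -1] (6000) (.leaf 1 [⟨1, [(0, 1)]⟩, ⟨1, [(13,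 1), (11, 1), (3, 2), (0, 1)]⟩, ⟨1, [(13, 1), (12, 1), (3, 2)]⟩, ⟨1, []⟩, ⟨1, [(0, 2)]⟩, ⟨1, [(0, 1)]⟩, ⟨1, [(13, 1), (12, 1), (3, 1)]⟩, ⟨1, [(13, 1), (11, 1)]⟩, ⟨1, [(13, 1), (11, 1), (3, 2)]⟩, ⟨1, [(13, 1), (11, 1), (3, 2), (0, 1)]⟩, ⟨1, []⟩, ⟨2, [(13, 3), (12, 2), (9, 1), (3, 6)]⟩, ⟨1, [(13, 1), (11, 1), (3, 1)]⟩, ⟨1, [(13, 1), (3, 1), (0, 1)]⟩]) (.leaf 3 [⟨1, [(13, 1), (11, 1), (3, 2)]⟩, ⟨1, [(0, 1)]⟩, ⟨1, [(13, 1), (11, 1), (3, 1), (0, 2)]⟩, ⟨1, []⟩, ⟨1, [(13, 1), (11, 1), (0, 1)]⟩, ⟨1, [(13, 1), (11, 1)]⟩, ⟨2, [(13, 1), (11, 1), (10, 1), (1, 1)]⟩, ⟨1, [(0, 2)]⟩, ⟨1, []⟩, ⟨1, [(13, 1), (11, 1), (3, 1)]⟩, ⟨1, [(13, 1), (3, 1)]⟩])))))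 .nil)))
def s22_8_t18 : Tree := .nbr (.cons (.prune [(9, 2), (8, 1), (4, 1), (1, 2), (0, 1)]) (.cons (.ddet 0 [] (.ndet 0 [⟨1, [(9, 1), (0, 1)]⟩, ⟨1, [(9, 1), (2, 1), (0, 2)]⟩] (.ddet 0 [] (.split [0, 1, 1, -1] (-1000) (.leaf 1 [⟨1, [(0, 1)]⟩, ⟨1, [(10, 1), (1, 1)]⟩, ⟨2, [(13, 1), (10, 2), (9, 1), (1, 2)]⟩, ⟨1, []⟩, ⟨1, [(0, 2)]⟩, ⟨1, [(0, 1)]⟩, ⟨1, [(10, 1), (1, 3)]⟩, ⟨1, [(10, 1), (1, 3), (0, 1)]⟩, ⟨2, [(13, 1), (10, 2), (9, 1)]⟩, ⟨1, [(10, 1), (1, 1)]⟩, ⟨1, []⟩, ⟨1, [(13, 1), (10, 1), (9, 1)]⟩, ⟨1, [(10, 1), (1, 2)]⟩, ⟨1, [(13, 1), (0, 1)]⟩]) (.leaf 3 [⟨1, [(10, 1), (1, 1), (0, 1)]⟩, ⟨1, [(0, 1)]⟩, ⟨1, [(10, 1), (1, 2), (0, 2)]⟩,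 ⟨1, []⟩, ⟨1, [(10, 1), (1, 3)]⟩, ⟨1, [(10, 1), (3, 1), (1, 3)]⟩, ⟨1, [(10, 1), (1, 1)]⟩, ⟨1, [(0, 2)]⟩, ⟨1, []⟩, ⟨1, [(10, 1), (1, 2)]⟩, ⟨1, [(13, 1)]⟩]))))) (.cons (.ddet 0 [] (.ndet 0 [⟨1, [(9, 1)]⟩, ⟨1, [(12, 1), (10, 1)]⟩] (.ddet 0 [] (.split [1] (2000) (.leaf 1 [⟨1, [(0, 1)]⟩, ⟨1, [(10, 1)]⟩, ⟨2, [(13, 3), (9, 1), (7, 2)]⟩, ⟨1, []⟩, ⟨1, [(0, 2)]⟩, ⟨1, [(0, 1)]⟩, ⟨1, [(13, 1), (12, 1)]⟩, ⟨1, [(13, 1), (11, 1)]⟩, ⟨2, [(13, 1), (10, 2), (9, 1)]⟩, ⟨1, [(10, 1)]⟩, ⟨1, []⟩, ⟨1, [(13, 2), (9, 1), (7, 1)]⟩, ⟨1, [(13, 1), (7, 1)]⟩, ⟨1, [(13, 1), (0, 1)]⟩]) (.leaf 3 [⟨1, [(10, 1), (0, 1)]⟩, ⟨1, [(0, 1)]⟩, ⟨1, [(13, 1), (7, 1), (0, 2)]⟩,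 ⟨1, []⟩, ⟨1, [(13, 1), (12, 1)]⟩, ⟨1, [(13, 1), (11, 1)]⟩, ⟨1, [(10, 1)]⟩, ⟨1, [(0, 2)]⟩, ⟨1, []⟩, ⟨1, [(13, 1), (7, 1)]⟩, ⟨1, [(13, 1)]⟩]))))) .nil)))
def s22_8_t19 : Tree := .nbr (.cons (.prune [(10, 1), (8, 1), (0, 1)]) (.cons (.ddet 0 [] (.ndet 0 [⟨1, [(10, 1), (9, 1), (0, 1)]⟩, ⟨2, [(10, 3), (9, 2), (6, 1), (0, 4)]⟩] (.ddet 0 [] s22_8_t17))) (.cons (.ddet 0 [] (.ndet 0 [⟨1, [(10, 1), (9, 1)]⟩, ⟨1, [(10, 2), (6, 1), (4, 1)]⟩] (.ddet 0 [] s22_8_t18))) .nil)))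
def s22_8_t20 : Tree := .ddet 0 [] (.ndet 2 [⟨2, [(8, 5), (5, 6), (4, 1), (1, 2)]⟩, ⟨1, [(8, 1), (5, 1), (1, 1)]⟩] (.ddet 0 [] (.ndet 0 [⟨1, [(8, 3), (5, 3), (4, 1), (1, 1)]⟩, ⟨2, [(8, 5), (5, 4), (4, 3), (1, 2)]⟩] (.ddet 0 [] (.ndet 1 [⟨2, [(8, 1), (5, 2), (4, 1)]⟩, ⟨2, [(8, 3), (5, 2), (4, 1), (1, 2)]⟩] (.ddet 0 [] (.ndet 0 [⟨2, [(8, 3), (5, 4), (4, 1)]⟩, ⟨1, [(8, 4), (5, 4), (4, 1), (1, 1)]⟩] (.ddet 0 [] (.leaf 1 [⟨1, [(8, 1), (5, 1)]⟩, ⟨2, [(8, 3), (5, 4), (4, 1)]⟩, ⟨1, [(8, 2), (5, 2), (4, 1), (1, 1)]⟩, ⟨1, []⟩, ⟨1, [(8, 2), (5, 2)]⟩, ⟨1, [(8, 1), (5, 1)]⟩, ⟨2, [(8, 9), (5, 8), (4, 3), (1, 4)]⟩, ⟨2, [(8, 11), (5, 10), (4, 3),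 (1, 4)]⟩, ⟨2, [(8, 1), (5, 2), (4, 1)]⟩, ⟨2, [(8, 3), (5, 4), (4, 1)]⟩, ⟨1, []⟩, ⟨1, [(8, 1), (5, 1), (4, 1), (1, 1)]⟩, ⟨1, [(8, 3), (5, 3), (4, 1), (1, 1)]⟩, ⟨1, [(8, 2), (5, 1)]⟩])))))))))
def s22_8_n3 : Node := ⟨[⟨[0, 0, -1, 1], -200⟩, ⟨[0, -1, 0, 1], -200⟩, ⟨[-1, 0, 0, 1], -200⟩, ⟨[-1, 1, 0, -1], 1680⟩, ⟨[0, 1, 1], 119000⟩, ⟨[1, 1, 1], 117000⟩, ⟨[1, 0, -1, 1], 119700⟩, ⟨[-1, -1, 0, 1], 1684⟩, ⟨[1, -1, 0, 1], -2320⟩, ⟨[1, 0, 0, 1], 119700⟩], [0, 0, 0, 1], 0, none, (.ndet 2 [⟨1, [(6, 1), (2, 1), (0, 1)]⟩, ⟨1, [(8, 1)]⟩] (.ddet 0 [] (.nbr (.cons (.ddet 0 [] s22_8_t19) (.cons (.prune [(8, 1), (5, 1), (4, 1), (1, 1)]) (.cons s22_8_t20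 .nil))))))⟩
def s22_8 : Sys := ⟨[(1, 0), (2, -2000), (4, 1000)], [(3, 2000)], 4, [s22_8_n0, s22_8_n1, s22_8_n2, s22_8_n3], [158278, 3832, 135656, -26622], (.leaf 0 [⟨1, []⟩, ⟨1, []⟩, ⟨1, []⟩, ⟨1, []⟩, ⟨1, []⟩, ⟨1, []⟩, ⟨1, []⟩, ⟨1, []⟩, ⟨1, []⟩, ⟨1, []⟩, ⟨1, []⟩, ⟨1, []⟩])⟩

theorem s22_8_ok : s22_8.ok = true := by decide +kernel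

def s22_10_n0 : Node := ⟨[⟨[1, -1], 40⟩, ⟨[1, 0, 0, -1], 16⟩, ⟨[1, 0, -1], -8⟩, ⟨[1], 8⟩, ⟨[0, -1], 8⟩, ⟨[1], 16⟩], [1], 0, none, (.ndet 0 [⟨1, [(5, 1)]⟩, ⟨1, [(4, 1)]⟩] (.ddet 0 [⟨1, [(3, 1)]⟩] (.ndet 1 [⟨1, [(0, 1)]⟩, ⟨1, [(3, 1)]⟩] (.ddet 0 [⟨1, [(1, 1)]⟩] (.leaf 0 [⟨1, [(0, 1)]⟩, ⟨1, [(5, 1)]⟩, ⟨1, []⟩, ⟨1, [(0, 1)]⟩, ⟨1, []⟩, ⟨1, [(0, 1)]⟩, ⟨1, []⟩])))))⟩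
def s22_10 : Sys := ⟨[(1, -32), (2, -16), (4, -32)], [(1, -16), (3, -32)], 4, [s22_10_n0], [48, -16, 48, 16], (.leaf 0 [⟨1, []⟩, ⟨1, []⟩, ⟨1, []⟩, ⟨1, []⟩, ⟨1, []⟩, ⟨1, []⟩])⟩

theorem s22_10_ok : s22_10.ok = true := by decide +kernel

def s25_21_n0 : Node := ⟨[⟨[0, 0, -1], 24⟩, ⟨[0, 0, 0, -1], -16⟩, ⟨[0, 1], 40⟩, ⟨[0, 1, 0, -1], 56⟩, ⟨[0, 1, -1], 32⟩, ⟨[-1], 24⟩, ⟨[0, 1], 72⟩, ⟨[-1, 1], 96⟩, ⟨[0, 2], 88⟩], [0, 1], 0, none, (.ndet 0 [⟨1, [(8, 1)]⟩, ⟨1, [(7, 1)]⟩] (.ddet 1 [⟨1, [(2, 1)]⟩, ⟨1, [(5, 1)]⟩] (.ndet 1 [⟨1, [(2, 1)]⟩, ⟨1, [(8, 1), (2, 1)]⟩] (.ddet 0 [⟨1, [(3, 1)]⟩, ⟨1, [(8, 1)]⟩] (.ndet 2 [⟨1, [(2, 1)]⟩, ⟨1, [(1, 1)]⟩] (.ddet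 2 [⟨1, [(2, 1)]⟩, ⟨1, [(2, 2)]⟩] (.leaf 0 [⟨1, [(2, 1)]⟩, ⟨1, [(3, 1)]⟩, ⟨1, [(2, 1)]⟩, ⟨1, [(1, 1)]⟩, ⟨1, [(2, 2)]⟩, ⟨1, []⟩, ⟨1, [(2, 1)]⟩, ⟨1, [(2, 1)]⟩, ⟨1, [(2, 2)]⟩, ⟨1, []⟩])))))))⟩
def s25_21 : Sys := ⟨[(0, 32), (3, 32), (4, -32)], [(0, 16), (2, 16), (4, 16)], 4, [s25_21_n0], [-48, 80, -48, -32], (.leaf 0 [⟨1, []⟩, ⟨1, []⟩, ⟨1, []⟩, ⟨1, []⟩, ⟨1, []⟩, ⟨1, []⟩, ⟨1, []⟩, ⟨1, []⟩, ⟨1, []⟩])⟩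

theorem s25_21_ok : s25_21.ok = true := by decide +kernel

def s26_1_n0 : Node := ⟨[⟨[1, 0, -1], -16⟩, ⟨[1, 0, 0, -1], -16⟩, ⟨[1, -1], -64⟩], [1], 0, none, (.ndet 0 [⟨1, [(2, 1)]⟩, ⟨1, [(1, 1)]⟩] (.ddet 0 [] (.leaf 0 [⟨1, [(0, 1)]⟩, ⟨1, [(2, 1)]⟩, ⟨1, []⟩, ⟨1, []⟩])))⟩
def s26_1 : Sys := ⟨[(1, 80), (3, 48), (4, -16)], [(0, -48)], 4, [s26_1_n0], [32, 0, 32, -32], (.leaf 0 [⟨1, []⟩, ⟨1, []⟩, ⟨1, []⟩])⟩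

theorem s26_1_ok : s26_1.ok = true := by decide +kernel

def s28_14_n0 : Node := ⟨[⟨[0, 1, -1], 88⟩, ⟨[0, 1, 0, -1], 96⟩, ⟨[-1, 1], 88⟩, ⟨[-1, 1], 72⟩, ⟨[0, 1, -1], 72⟩, ⟨[0, 1], 16⟩, ⟨[-1], 72⟩, ⟨[-1], 56⟩, ⟨[0, 1], 24⟩, ⟨[0, 1], 48⟩, ⟨[0, 1], 72⟩, ⟨[0, 1], 56⟩], [0, 1], 0, none, (.ndet 0 [⟨1, [(11, 1)]⟩, ⟨1, [(10, 1)]⟩] (.ddet 1 [⟨1, [(5, 1), (1, 1)]⟩, ⟨1, [(11, 1)]⟩] (.ndet 1 [⟨1, [(5, 1), (1, 1)]⟩, ⟨1, [(11, 1)]⟩] (.ddet 2 [⟨1, [(1, 1)]⟩, ⟨1, [(5, 1), (1, 1)]⟩] (.ndet 2 [⟨1, [(1, 1)]⟩, ⟨1, [(5, 1), (1, 1)]⟩] (.ddet 1 [⟨1, []⟩, ⟨1, [(5, 1)]⟩] (.ndet 1 [⟨1, []⟩, ⟨1, [(5, 1)]⟩] (.ddet 0 [⟨1, [(1, 1)]⟩, ⟨1, [(1, 1)]⟩] (.leaf 0 [⟨1,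 [(1, 1)]⟩, ⟨1, [(1, 1)]⟩, ⟨1, [(1, 2)]⟩, ⟨1, [(1, 2)]⟩, ⟨1, [(1, 1)]⟩, ⟨1, [(1, 1)]⟩, ⟨1, [(1, 1)]⟩, ⟨1, [(1, 1)]⟩, ⟨1, [(1, 1)]⟩, ⟨1, [(1, 1)]⟩, ⟨1, [(1, 1)]⟩, ⟨1, [(1, 1)]⟩, ⟨1, []⟩])))))))))⟩
def s28_14 : Sys := ⟨[(2, -32), (3, 16), (4, 32)], [(1, -32), (2, -16), (3, 32)], 4, [s28_14_n0], [-80, 112, -16, -16], (.leaf 0 [⟨1, []⟩, ⟨1, []⟩, ⟨1, []⟩, ⟨1, []⟩, ⟨1, []⟩, ⟨1, []⟩, ⟨1, []⟩, ⟨1, []⟩, ⟨1, []⟩, ⟨1, []⟩, ⟨1, []⟩, ⟨1, []⟩])⟩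

theorem s28_14_ok : s28_14.ok = true := by decide +kernel

def s31_23_n0 : Node := ⟨[⟨[0, 1], 224⟩, ⟨[-1, 1], 224⟩, ⟨[0, 1, -1], 256⟩, ⟨[0, 1, 0, -1], 192⟩, ⟨[0, 1], 128⟩, ⟨[0, 1], 160⟩, ⟨[0, 1], 96⟩, ⟨[-1, 1], 128⟩, ⟨[0, 1, -1], 128⟩, ⟨[-1], 32⟩, ⟨[0, 0, -1], 32⟩, ⟨[0, 1], 64⟩, ⟨[-1, 1], 192⟩], [0, 1], 0, none, (.ndet 2 [⟨1, [(12, 1)]⟩, ⟨1, [(12, 1), (3, 1)]⟩, ⟨1, [(10, 1)]⟩, ⟨1, [(9, 1)]⟩] (.ddet 2 [⟨1, [(12, 1)]⟩, ⟨1, [(12, 1), (3, 1)]⟩, ⟨1, [(9, 1)]⟩] (.ndet 3 [⟨1, [(12, 1)]⟩, ⟨1, [(12, 1)]⟩, ⟨1, [(12, 1), (3, 1)]⟩, ⟨1, [(10, 1)]⟩] (.ddet 1 [⟨1, []⟩, ⟨1, [(3, 1)]⟩, ⟨1, [(2, 1)]⟩] (.ndet 1 [⟨1, [(12, 1)]⟩, ⟨1, [(12, 1)]⟩, ⟨1, [(12,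 1), (3, 1)]⟩, ⟨1, []⟩] (.ddet 1 [⟨1, [(12, 1)]⟩, ⟨1, [(12, 1)]⟩, ⟨1, []⟩] (.leaf 0 [⟨1, [(12, 1)]⟩, ⟨1, [(12, 1)]⟩, ⟨1, [(12, 1)]⟩, ⟨1, [(12, 1), (3, 1)]⟩, ⟨1, [(12, 1)]⟩, ⟨1, [(12, 1)]⟩, ⟨1, [(12, 1)]⟩, ⟨1, [(12, 1)]⟩, ⟨1, [(12, 1)]⟩, ⟨1, []⟩, ⟨1, []⟩, ⟨1, [(12, 1)]⟩, ⟨1, [(12, 1)]⟩, ⟨1, []⟩])))))))⟩
def s31_23 : Sys := ⟨[(0, 64), (1, 0), (2, -64), (3, 64), (4, -64)], [(0, -64), (1, 64), (2, 0), (4, 0)], 4, [s31_23_n0], [-64, 320, -64, -64], (.leaf 0 [⟨1, []⟩, ⟨1, []⟩, ⟨1, []⟩, ⟨1, []⟩, ⟨1, []⟩, ⟨1, []⟩, ⟨1, []⟩, ⟨1, []⟩, ⟨1, []⟩, ⟨1, []⟩, ⟨1, []⟩, ⟨1, []⟩, ⟨1, []⟩])⟩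

theorem s31_23_ok : s31_23.ok = true := by decide +kernel

end Pool.Agent.H81.RDE.Data
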