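import Pool.Agent.H81.RDE.System

/-! Data file (generated): certificates. -/

set_option maxRecDepth 100000

namespace Pool.Agent.H81.RDE.Data

def s4_9_n0 : Node := ⟨[⟨[0, 0, -1], -24⟩, ⟨[0, 1], 72⟩, ⟨[-1], -16⟩, ⟨[-1, 1], 64⟩], [0, 1], 0, none, (.ndet 0 [] (.ddet 0 [⟨1, [(3, 1)]⟩] (.ndet 0 [] (.ddet 1 [⟨1, [(2, 1)]⟩] (.leaf 0 [⟨1, [(1, 1)]⟩, ⟨1, [(2, 1)]⟩, ⟨1, [(0, 1)]⟩, ⟨1, [(2, 1), (0, 1)]⟩, ⟨1, []⟩])))))⟩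
def s4_9 : Sys := ⟨[(2, 32)], [(0, 16), (3, -32)], 3, [s4_9_n0], [-16, 96, 0, 0], (.leaf 0 [⟨1, []⟩, ⟨1, []⟩, ⟨1, []⟩, ⟨1, []⟩])⟩

theorem s4_9_ok : s4_9.ok = true := by decide +kernel

def s5_1_n0 : Node := ⟨[⟨[0, 1], -16⟩, ⟨[1], -12⟩], [1, 1], 0, none, (.ndet 1 [⟨1, [(1, 1)]⟩] (.ddet 0 [] (.leaf 0 [⟨1, [(0, 1)]⟩, ⟨1, [(1, 1)]⟩, ⟨1, []⟩])))⟩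
def s5_1 : Sys := ⟨[(0, -16), (2, 16)], [(0, 0)], 2, [s5_1_n0], [16, -16, 0, 0], (.leaf 0 [⟨1, []⟩, ⟨1, []⟩])⟩

theorem s5_1_ok : s5_1.ok = true := by decide +kernel

def s5_9_n0 : Node := ⟨[⟨[0, 1], 16⟩, ⟨[0, 0, -1], 16⟩, ⟨[-1], 48⟩, ⟨[0, 1], 32⟩, ⟨[0, 1], 40⟩], [0, 1], 0, none, (.ndet 1 [⟨1, [(0, 1)]⟩] (.ddet 0 [⟨1, [(3, 1)]⟩] (.ndet 0 [⟨1, [(2, 1)]⟩] (.ddet 1 [⟨1, [(0, 1)]⟩] (.leaf 0 [⟨1, [(0, 1)]⟩, ⟨1, [(2, 1)]⟩, ⟨1, [(0, 1)]⟩, ⟨1, [(0, 1)]⟩, ⟨1, [(0, 1)]⟩, ⟨1, []⟩])))))⟩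
def s5_9 : Sys := ⟨[(0, -16), (2, 16)], [(0, 0), (3, 0)], 3, [s5_9_n0], [-64, 64, -32, 0], (.leaf 0 [⟨1, []⟩, ⟨1, []⟩, ⟨1, []⟩, ⟨1, []⟩, ⟨1, []⟩])⟩

theorem s5_9_ok : s5_9.ok = true := by decide +kernel

def s12_7_n0 : Node := ⟨[⟨[0, 1, -1], 72⟩, ⟨[0, 1], 32⟩, ⟨[-1, 1], 72⟩, ⟨[-1], 56⟩, ⟨[-1], 80⟩, ⟨[0, 1], 40⟩, ⟨[0, 1], 48⟩], [0, 1], 0, none, (.ndet 0 [⟨1, [(6, 1)]⟩] (.ddet 2 [⟨1, [(0, 1)]⟩, ⟨1, [(2, 1), (0, 1)]⟩] (.ndet 1 [⟨1, [(2, 1), (0, 1)]⟩] (.ddet 0 [⟨1, []⟩, ⟨1, [(2, 1)]⟩] (.ndet 0 [⟨1, [(2, 1)]⟩] (.ddet 1 [⟨1, [(0, 1)]⟩, ⟨1, [(0, 1)]⟩] (.leaf 0 [⟨1, [(0, 1)]⟩, ⟨1, [(0, 1)]⟩, ⟨1, [(0, 2)]⟩, ⟨1, [(0,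 1)]⟩, ⟨1, [(0, 1)]⟩, ⟨1, [(0, 1)]⟩, ⟨1, [(0, 1)]⟩, ⟨1, []⟩])))))))⟩
def s12_7 : Sys := ⟨[(2, -16), (3, 16)], [(0, 0), (1, -16), (2, 16)], 3, [s12_7_n0], [-96, 80, -32, 0], (.leaf 0 [⟨1, []⟩, ⟨1, []⟩, ⟨1, []⟩, ⟨1, []⟩, ⟨1, []⟩, ⟨1, []⟩, ⟨1, []⟩])⟩

theorem s12_7_ok : s12_7.ok = true := by decide +kernel

def s17_10_n0 : Node := ⟨[⟨[0, 0, 0, -1], 56⟩, ⟨[1, 0, -1], 24⟩, ⟨[0, 0, 1], 72⟩, ⟨[1, 1], 40⟩, ⟨[-1, -1, 1], 32⟩, ⟨[0, -1], 80⟩, ⟨[1], 112⟩, ⟨[-1, -1, 1], 48⟩, ⟨[2, 1, -1], 80⟩], [1], 0, none, (.ndet 0 [⟨1, [(8, 1)]⟩] (.ddet 0 [⟨1, [(7, 1)]⟩] (.ndet 1 [⟨1, [(5, 1), (1, 1)]⟩] (.ddet 1 [⟨1, [(5, 1)]⟩] (.leaf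 0 [⟨1, [(3, 1)]⟩, ⟨1, [(1, 1)]⟩, ⟨1, [(1, 1), (0, 1)]⟩, ⟨1, [(1, 1)]⟩, ⟨1, [(0, 1)]⟩, ⟨1, [(1, 1), (0, 1)]⟩, ⟨1, [(1, 2), (0, 1)]⟩, ⟨1, [(0, 1)]⟩, ⟨1, [(1, 2)]⟩, ⟨1, [(1, 1)]⟩])))))⟩
def s17_10 : Sys := ⟨[(0, -16), (4, -16)], [(1, 0), (3, -32)], 4, [s17_10_n0], [224, -160, 144, -112], (.leaf 0 [⟨1, []⟩, ⟨1, []⟩, ⟨1, []⟩, ⟨1, []⟩, ⟨1, []⟩, ⟨1, []⟩, ⟨1, []⟩, ⟨1, []⟩, ⟨1, []⟩])⟩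

theorem s17_10_ok : s17_10.ok = true := by decide +kernel

def s19_5_t0 : Tree := .nbr (.cons (.ddet 1 [⟨1, [(16, 1)]⟩] (.ndet 2 [⟨1, [(16, 1)]⟩, ⟨1, [(16, 2)]⟩] (.ddet 0 [⟨1, []⟩] (.leaf 0 [⟨1, []⟩, ⟨1, [(16, 1)]⟩, ⟨1, [(16, 2)]⟩, ⟨1, []⟩, ⟨1, []⟩, ⟨1, [(16, 1)]⟩, ⟨1, []⟩, ⟨1, [(16, 1)]⟩, ⟨1, []⟩, ⟨1, [(16, 1)]⟩, ⟨1, []⟩, ⟨1, [(16, 1)]⟩, ⟨1, []⟩, ⟨1, [(16, 1)]⟩, ⟨1, []⟩, ⟨1, [(16, 2)]⟩, ⟨1, []⟩, ⟨1, []⟩, ⟨1, [(16, 3)]⟩, ⟨1, [(16, 1)]⟩, ⟨1, []⟩, ⟨1, [(16, 2)]⟩, ⟨1, []⟩, ⟨1, []⟩])))) (.cons (.ddet 1 [⟨1, [(16, 1)]⟩] (.ndet 2 [⟨1, [(16, 1)]⟩, ⟨1, [(16, 2)]⟩] (.ddet 0 [⟨1, []⟩] (.leaf 0 [⟨1, []⟩, ⟨1, [(16,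 1)]⟩, ⟨1, [(16, 2)]⟩, ⟨1, []⟩, ⟨1, []⟩, ⟨1, [(16, 1)]⟩, ⟨1, []⟩, ⟨1, [(16, 1)]⟩, ⟨1, []⟩, ⟨1, [(16, 1)]⟩, ⟨1, []⟩, ⟨1, [(16, 1)]⟩, ⟨1, []⟩, ⟨1, [(16, 1)]⟩, ⟨1, []⟩, ⟨1, [(16, 2)]⟩, ⟨1, []⟩, ⟨1, []⟩, ⟨1, [(16, 3)]⟩, ⟨1, [(16, 1)]⟩, ⟨1, []⟩, ⟨1, [(16, 2)]⟩, ⟨1, []⟩, ⟨1, []⟩])))) (.cons (.ddet 1 [⟨1, [(16, 1)]⟩] (.ndet 2 [⟨1, [(16, 1)]⟩, ⟨1, [(16, 2), (2, 1)]⟩] (.ddet 0 [⟨1, []⟩] (.leaf 0 [⟨1, []⟩, ⟨1, [(16, 1)]⟩, ⟨1, [(16, 2), (2, 1)]⟩, ⟨1, [(2, 1)]⟩, ⟨1, []⟩, ⟨1, [(16, 1), (2, 1)]⟩, ⟨1, []⟩, ⟨1, [(16, 1), (2, 1)]⟩, ⟨1, []⟩, ⟨1, [(16, 1)]⟩, ⟨1, [(1, 1)]⟩, ⟨1, [(16, 1)]⟩, ⟨1, [(1, 1)]⟩, ⟨1, [(16, 1)]⟩, ⟨1,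 [(1, 1)]⟩, ⟨1, [(16, 2), (2, 1)]⟩, ⟨1, []⟩, ⟨1, [(1, 1)]⟩, ⟨1, [(16, 3), (2, 1)]⟩, ⟨1, [(16, 1)]⟩, ⟨1, [(1, 1)]⟩, ⟨1, [(16, 2)]⟩, ⟨1, [(1, 1)]⟩, ⟨1, []⟩])))) .nil)))
def s19_5_t1 : Tree := .ndet 2 [⟨1, [(0, 1)]⟩, ⟨1, [(0, 2)]⟩] (.dbr (.cons (.ndet 2 [⟨1, [(15, 1)]⟩, ⟨1, [(24, 1)]⟩] (.ddet 0 [⟨1, [(15, 1), (0, 1)]⟩] (.split [1, -1] (0) (.leaf 0 [⟨1, [(16, 1), (1, 1)]⟩, ⟨1, [(16, 2), (1, 1)]⟩, ⟨1, [(0, 1)]⟩, ⟨1, [(1, 1)]⟩, ⟨1, [(16, 2), (1, 2)]⟩, ⟨1, []⟩, ⟨1, []⟩, ⟨1, []⟩, ⟨1, [(16, 1), (1, 1)]⟩, ⟨1, [(16, 2), (1, 1)]⟩, ⟨1, [(16, 3), (1, 2)]⟩, ⟨1, [(16, 1)]⟩, ⟨1, [(16, 2), (1, 1)]⟩, ⟨1, [(0, 1)]⟩, ⟨1, [(16,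 1)]⟩, ⟨1, [(0, 1)]⟩, ⟨1, []⟩, ⟨1, [(16, 2), (1, 1)]⟩, ⟨1, [(0, 2)]⟩, ⟨1, [(0, 1)]⟩, ⟨1, [(16, 1)]⟩, ⟨1, [(0, 2)]⟩, ⟨1, [(0, 1)]⟩, ⟨1, []⟩]) (.leaf 1 [⟨1, [(16, 1), (0, 2)]⟩, ⟨1, [(16, 2), (0, 2)]⟩, ⟨1, [(0, 1)]⟩, ⟨1, [(16, 1), (0, 2)]⟩, ⟨1, [(16, 2), (0, 2)]⟩, ⟨1, []⟩, ⟨1, [(0, 1)]⟩, ⟨1, [(0, 2)]⟩, ⟨1, [(16, 1), (0, 2)]⟩, ⟨1, []⟩, ⟨1, [(0, 1)]⟩, ⟨1, [(16, 1), (0, 2)]⟩, ⟨1, [(16, 3), (0, 2)]⟩, ⟨1, [(16, 1)]⟩, ⟨1, [(16, 1), (0, 1)]⟩, ⟨1, [(25, 1)]⟩, ⟨1, []⟩, ⟨1, [(16, 1)]⟩, ⟨1, [(16, 2)]⟩, ⟨1, [(25, 2)]⟩, ⟨1, [(25, 1)]⟩, ⟨1, [(0, 1)]⟩])))) (.cons (.ndet 2 [⟨1, [(15, 1)]⟩, ⟨1, [(0, 2)]⟩] (.ddet 0 [⟨1, [(1,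 1)]⟩] (.leaf 0 [⟨1, [(1, 1)]⟩, ⟨1, [(15, 1), (1, 1)]⟩, ⟨1, [(0, 2)]⟩, ⟨1, []⟩, ⟨1, [(1, 2)]⟩, ⟨1, [(0, 1)]⟩, ⟨1, []⟩, ⟨1, [(0, 1)]⟩, ⟨1, [(1, 1)]⟩, ⟨1, [(15, 1), (1, 1)]⟩, ⟨1, [(1, 3)]⟩, ⟨1, [(15, 1)]⟩, ⟨1, [(1, 2)]⟩, ⟨1, [(0, 1)]⟩, ⟨1, [(1, 1)]⟩, ⟨1, [(0, 2)]⟩, ⟨1, []⟩, ⟨1, [(1, 2)]⟩, ⟨1, [(0, 3)]⟩, ⟨1, [(0, 1)]⟩, ⟨1, [(1, 1)]⟩, ⟨1, [(0, 2)]⟩, ⟨1, []⟩, ⟨1, []⟩]))) .nil)))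
def s19_5_t2 : Tree := .nbr (.cons (.ddet 1 [⟨1, [(15, 1), (2, 1)]⟩] (.ndet 2 [⟨1, [(15, 1)]⟩, ⟨1, [(15, 2), (2, 1)]⟩] (.ddet 0 [⟨1, [(1, 1)]⟩] (.leaf 0 [⟨1, [(1, 1)]⟩, ⟨1, [(15, 1), (1, 1)]⟩, ⟨1, [(15, 2), (2, 1)]⟩, ⟨1, [(1, 1)]⟩, ⟨1, [(1, 2)]⟩, ⟨1, [(15, 1)]⟩, ⟨1, []⟩, ⟨1, [(15, 1)]⟩, ⟨1, [(1, 1)]⟩, ⟨1, [(15, 1), (1, 1)]⟩, ⟨1, [(1, 2)]⟩, ⟨1, [(15, 1)]⟩, ⟨1, [(1, 1)]⟩, ⟨1, [(15, 1), (2, 1)]⟩, ⟨1, []⟩, ⟨1, [(15, 2), (2, 1)]⟩, ⟨1, []⟩, ⟨1, [(1, 1)]⟩, ⟨1, [(15, 3), (2, 2)]⟩, ⟨1, [(15, 1), (2, 1)]⟩, ⟨1, []⟩, ⟨1, [(15, 2), (2, 2)]⟩, ⟨1, [(2, 1)]⟩, ⟨1, []⟩])))) (.cons (.ddet 1 [⟨1, [(15, 1), (2, 1)]⟩] (.ndet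 2 [⟨1, [(15, 1)]⟩, ⟨1, [(15, 2)]⟩] (.dbr (.cons (.leaf 0 [⟨1, [(0, 1)]⟩, ⟨1, [(21, 1), (18, 1)]⟩, ⟨1, [(16, 2)]⟩, ⟨1, [(0, 2)]⟩, ⟨1, [(0, 2)]⟩, ⟨1, [(21, 1), (18, 1)]⟩, ⟨1, []⟩, ⟨1, [(21, 1), (18, 1)]⟩, ⟨1, [(0, 1)]⟩, ⟨1, [(21, 1), (18, 1)]⟩, ⟨1, [(0, 1)]⟩, ⟨1, [(16, 1)]⟩, ⟨1, []⟩, ⟨1, [(16, 1), (3, 1)]⟩, ⟨1, [(3, 1)]⟩, ⟨1, [(16, 2)]⟩, ⟨1, []⟩, ⟨1, []⟩, ⟨1, [(16, 3), (3, 1)]⟩, ⟨1, [(16, 1), (3, 1)]⟩, ⟨1, [(3, 1)]⟩, ⟨1, [(16, 2), (3, 2)]⟩, ⟨1, [(3, 2)]⟩, ⟨1, []⟩]) (.cons (.leaf 3 [⟨1, [(21, 1), (18, 1), (0, 1)]⟩, ⟨1, [(21, 2), (18, 2), (0, 3)]⟩, ⟨1, [(0, 2)]⟩, ⟨1, []⟩, ⟨1, []⟩, ⟨1, [(0, 1)]⟩, ⟨1, [(21, 1),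 (18, 1), (0, 2)]⟩, ⟨1, [(21, 2), (18, 2), (0, 2)]⟩, ⟨1, [(21, 1), (18, 1), (0, 1)]⟩, ⟨1, []⟩, ⟨1, [(21, 2), (18, 2), (0, 2)]⟩, ⟨1, [(0, 1)]⟩, ⟨1, []⟩, ⟨1, [(21, 1), (18, 1), (0, 3)]⟩, ⟨1, [(21, 3), (18, 3), (0, 3)]⟩, ⟨1, [(21, 2), (18, 2), (0, 2)]⟩, ⟨1, [(0, 1)]⟩, ⟨1, [(21, 1), (18, 1), (0, 1)]⟩, ⟨1, [(0, 2)]⟩, ⟨1, [(0, 1)]⟩]) .nil))))) (.cons (.prune [(23, 1), (20, 1), (15, 1), (2, 2), (1, 1)]) .nil)))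
def s19_5_t3 : Tree := .nbr (.cons (.prune [(18, 2), (15, 3), (6, 1), (2, 1), (1, 6)]) (.cons (.dbr (.cons (.ndet 1 [⟨1, [(14, 1)]⟩, ⟨1, [(16, 1)]⟩] (.ddet 1 [⟨1, [(14, 1)]⟩] s19_5_t0)) (.cons (.ndet 1 [⟨1, [(23, 1)]⟩, ⟨1, [(18, 1), (14, 1)]⟩] (.ddet 1 [⟨1, [(14, 1)]⟩] s19_5_t1)) .nil))) (.cons (.ddet 0 [⟨1, [(21, 1), (18, 1), (13, 1), (0, 2)]⟩] (.ndet 1 [⟨1, [(13, 1), (0, 1)]⟩, ⟨1, [(15, 1), (0, 1)]⟩] (.ddet 1 [⟨1, [(13, 1)]⟩] s19_5_t2))) .nil)))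
def s19_5_n0 : Node := ⟨[⟨[1, 0, 0, -1], -200⟩, ⟨[1, 0, -1], -200⟩, ⟨[1, -1], -200⟩, ⟨[0, -1, -1, -1], -8020⟩, ⟨[1, 0, -1, -1], -2180⟩, ⟨[1, -1, 0, -1], -1360⟩, ⟨[1, 0, 1, -1], 1660⟩, ⟨[0, -1, -1], -6020⟩, ⟨[0, 0, -1], -2220⟩, ⟨[1, 0, -1], 179700⟩, ⟨[1, 1, -1], 760⟩, ⟨[1], 179700⟩, ⟨[1, 1], 2640⟩, ⟨[1, 0, 1], 2700⟩, ⟨[1, 1, 1], 2640⟩, ⟨[0, -1, -1, 1], -5020⟩, ⟨[-1, 0, -1, 1], -5040⟩, ⟨[0, 1, -1, 1], 680⟩, ⟨[1, -1, 0, 1], 680⟩, ⟨[0, 0, 0, 1], 660⟩, ⟨[0, 1, 0, 1], 680⟩, ⟨[1, 0, 1, 1], 3660⟩, ⟨[0, 1, 1, 1], 640⟩], [1], 0, none, s19_5_t3⟩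
def s19_5_t4 : Tree := .ndet 2 [⟨1, [(8, 1)]⟩, ⟨1, [(8, 2)]⟩] (.ddet 0 [⟨1, [(20, 1)]⟩] (.nbr (.cons (.prune [(23, 1), (22, 1), (16, 1), (5, 1), (1, 3)]) (.cons (.ddet 0 [⟨1, [(10, 1)]⟩] (.leaf 1 [⟨1, [(10, 1), (0, 1)]⟩, ⟨1, [(10, 2)]⟩, ⟨1, []⟩, ⟨1, [(10, 1), (0, 1)]⟩, ⟨1, [(10, 2), (0, 1)]⟩, ⟨1, [(0, 1)]⟩, ⟨1, [(0, 1)]⟩, ⟨1, [(0, 1)]⟩, ⟨1, [(10, 1), (0, 1)]⟩, ⟨1, [(0, 1)]⟩, ⟨1, [(0, 1)]⟩, ⟨1, [(10, 1)]⟩, ⟨1, [(10, 3)]⟩, ⟨1, [(10, 1)]⟩, ⟨1, [(10, 1)]⟩, ⟨1, []⟩, ⟨1, []⟩, ⟨1, [(10, 1), (3, 1)]⟩, ⟨1, [(10, 2), (3, 1)]⟩, ⟨1, [(3, 1)]⟩, ⟨1, [(3, 1)]⟩, ⟨1, []⟩])) (.cons (.ddet 0 [⟨1, [(10, 1)]⟩] (.split [1, -1]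 (0) (.leaf 0 [⟨1, [(11, 1)]⟩, ⟨1, [(11, 2), (0, 1)]⟩, ⟨1, [(0, 1)]⟩, ⟨1, [(23, 1)]⟩, ⟨1, [(11, 2)]⟩, ⟨1, []⟩, ⟨1, []⟩, ⟨1, []⟩, ⟨1, [(11, 1)]⟩, ⟨1, [(11, 2), (0, 1)]⟩, ⟨1, [(11, 3), (0, 1)]⟩, ⟨1, [(11, 1), (0, 1)]⟩, ⟨1, [(11, 2), (0, 1)]⟩, ⟨1, [(0, 1)]⟩, ⟨1, [(11, 1), (0, 1)]⟩, ⟨1, [(0, 1)]⟩, ⟨1, []⟩, ⟨1, [(11, 2), (0, 1)]⟩, ⟨1, [(0, 2)]⟩, ⟨1, [(0, 1)]⟩, ⟨1, [(11, 1), (0, 1)]⟩, ⟨1, [(0, 2)]⟩, ⟨1, [(0, 1)]⟩, ⟨1, [(0, 1)]⟩]) (.leaf 1 [⟨1, [(11, 1), (0, 1)]⟩, ⟨1, [(11, 2)]⟩, ⟨1, [(0, 1)]⟩, ⟨1, [(11, 1), (0, 1)]⟩, ⟨1, [(11, 2)]⟩, ⟨1, []⟩, ⟨1, [(0, 1)]⟩, ⟨1, [(0, 2)]⟩, ⟨1, [(11, 1), (0, 1)]⟩, ⟨1, []⟩, ⟨1, [(0,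 1)]⟩, ⟨1, [(11, 1), (0, 1)]⟩, ⟨1, [(11, 3), (4, 1)]⟩, ⟨1, [(11, 1), (4, 1)]⟩, ⟨1, [(11, 1)]⟩, ⟨1, [(4, 1)]⟩, ⟨1, []⟩, ⟨1, [(11, 1), (4, 1)]⟩, ⟨1, [(11, 2), (4, 2)]⟩, ⟨1, [(4, 2)]⟩, ⟨1, [(4, 1)]⟩, ⟨1, []⟩]))) .nil)))))
def s19_5_t5 : Tree := .nbr (.cons (.prune [(17, 1), (14, 1), (6, 1), (1, 2)]) (.cons (.dbr (.cons (.leaf 1 [⟨1, [(12, 1), (1, 1)]⟩, ⟨1, [(12, 1), (0, 1)]⟩, ⟨1, []⟩, ⟨2, [(15, 1), (12, 1), (0, 1)]⟩, ⟨2, [(15, 1), (12, 3), (0, 1)]⟩, ⟨1, [(1, 1)]⟩, ⟨1, [(1, 1)]⟩, ⟨1, [(1, 1)]⟩, ⟨1, [(12, 1), (1, 1)]⟩, ⟨1, [(4, 1), (1, 1)]⟩, ⟨1, [(4, 1), (1, 1)]⟩, ⟨1, [(0, 1)]⟩, ⟨1, [(12, 2), (0, 1)]⟩, ⟨1, [(12,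 1)]⟩, ⟨1, [(12, 1)]⟩, ⟨1, [(4, 1)]⟩, ⟨1, [(4, 1)]⟩, ⟨3, [(21, 1), (12, 1), (7, 1), (0, 1)]⟩, ⟨3, [(21, 1), (12, 4), (7, 1), (0, 1)]⟩, ⟨1, [(5, 1)]⟩, ⟨1, [(5, 1)]⟩, ⟨1, []⟩]) (.cons (.leaf 1 [⟨2, [(15, 1), (12, 3), (0, 1)]⟩, ⟨1, [(15, 1), (3, 2)]⟩, ⟨1, [(0, 1)]⟩, ⟨1, [(15, 1), (3, 1)]⟩, ⟨1, [(15, 2), (3, 3)]⟩, ⟨1, [(15, 1), (3, 1)]⟩, ⟨2, [(15, 1), (12, 1), (0, 1)]⟩, ⟨2, [(15, 1), (12, 1), (0, 3)]⟩, ⟨2, [(15, 1), (12, 3), (0, 1)]⟩, ⟨2, [(15, 1), (12, 3), (0, 1)]⟩, ⟨2, [(15, 1), (12, 3), (0, 3)]⟩, ⟨1, []⟩, ⟨1, [(15, 2), (3, 4)]⟩, ⟨1, [(15, 1), (3, 2)]⟩, ⟨1, [(12, 1)]⟩, ⟨1, [(12, 1)]⟩, ⟨1, [(12, 1), (0, 1)]⟩,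 ⟨1, [(3, 1)]⟩, ⟨1, [(15, 1), (3, 3)]⟩, ⟨1, [(3, 1)]⟩, ⟨3, [(21, 1), (12, 1), (7, 1), (0, 2)]⟩, ⟨1, []⟩]) .nil))) (.cons (.ddet 0 [⟨1, [(14, 1), (11, 1), (0, 2)]⟩] (.split [1, -1] (0) (.leaf 0 [⟨1, [(12, 1)]⟩, ⟨1, [(15, 1), (12, 2), (0, 3)]⟩, ⟨1, [(0, 1)]⟩, ⟨1, [(15, 1), (0, 1)]⟩, ⟨1, [(15, 1), (12, 2), (0, 2)]⟩, ⟨1, []⟩, ⟨1, [(4, 1)]⟩, ⟨1, [(15, 1), (0, 2)]⟩, ⟨1, [(15, 1), (12, 1), (0, 2)]⟩, ⟨1, [(15, 1), (12, 2), (0, 3)]⟩, ⟨1, [(15, 1), (12, 3), (0, 3)]⟩, ⟨1, [(12, 1), (0, 1)]⟩, ⟨1, [(12, 2), (0, 1)]⟩, ⟨1, [(4, 1), (0, 1)]⟩, ⟨1, [(12, 1), (4, 1), (0, 1)]⟩, ⟨1, [(15, 1), (0, 3)]⟩, ⟨1, [(15, 1), (0, 2)]⟩,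 ⟨1, [(15, 1), (12, 2), (0, 3)]⟩, ⟨1, [(0, 2)]⟩, ⟨1, [(0, 1)]⟩, ⟨1, [(12, 1), (0, 1)]⟩, ⟨1, [(4, 1), (0, 2)]⟩, ⟨1, [(4, 1), (0, 1)]⟩, ⟨1, [(0, 1)]⟩]) (.leaf 1 [⟨1, [(12, 1), (0, 1)]⟩, ⟨1, [(15, 1), (12, 2), (1, 2)]⟩, ⟨1, [(0, 1)]⟩, ⟨1, [(15, 1), (12, 1), (1, 1)]⟩, ⟨1, [(15, 1), (12, 2), (1, 2)]⟩, ⟨1, []⟩, ⟨1, [(0, 1)]⟩, ⟨1, [(0, 2)]⟩, ⟨1, [(12, 1), (0, 1)]⟩, ⟨1, [(4, 1)]⟩, ⟨1, [(4, 1), (0, 1)]⟩, ⟨1, [(15, 1), (12, 1), (1, 1)]⟩, ⟨1, [(15, 1), (12, 3), (1, 3)]⟩, ⟨1, [(12, 1), (1, 1)]⟩, ⟨1, [(12, 1)]⟩, ⟨1, [(5, 1)]⟩, ⟨1, [(4, 1)]⟩, ⟨1, [(12, 1), (1, 1)]⟩, ⟨1, [(12, 2), (1, 2)]⟩, ⟨1, [(5, 1), (1, 1)]⟩, ⟨1, [(5,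 1)]⟩, ⟨1, []⟩]))) .nil)))
def s19_5_t6 : Tree := .dbr (.cons (.ndet 2 [⟨1, [(9, 1)]⟩, ⟨1, [(22, 1)]⟩] (.ddet 0 [⟨1, [(9, 1), (0, 1)]⟩] (.ndet 1 [⟨1, [(9, 1)]⟩, ⟨1, [(9, 1), (0, 1)]⟩] (.ddet 1 [⟨1, [(18, 1), (9, 1), (4, 1), (0, 2)]⟩] (.split [0, 1, -1] (0) (.leaf 1 [⟨1, [(10, 2), (1, 1)]⟩, ⟨1, [(0, 1)]⟩, ⟨1, [(19, 1), (10, 1), (5, 1), (1, 2)]⟩, ⟨1, [(13, 1)]⟩, ⟨1, [(13, 1), (0, 1)]⟩, ⟨1, [(13, 1)]⟩, ⟨1, [(10, 1), (1, 1)]⟩, ⟨1, [(19, 1), (10, 2), (5, 1), (1, 3)]⟩, ⟨1, [(10, 2), (1, 1)]⟩, ⟨1, [(10, 2), (1, 1)]⟩, ⟨1, [(19, 1), (10, 3), (5, 1), (1, 3)]⟩, ⟨1, []⟩, ⟨1, [(0, 2)]⟩, ⟨1, [(0, 1)]⟩, ⟨1, [(10, 1)]⟩,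 ⟨1, [(10, 1)]⟩, ⟨1, [(19, 1), (10, 2), (5, 1), (1, 2)]⟩, ⟨1, [(11, 1)]⟩, ⟨1, [(12, 1)]⟩, ⟨1, [(11, 1)]⟩, ⟨1, [(19, 1), (10, 1), (5, 1), (1, 1)]⟩, ⟨1, []⟩]) (.leaf 2 [⟨1, [(13, 1), (10, 2), (0, 2)]⟩, ⟨1, [(0, 1)]⟩, ⟨1, [(10, 1), (0, 2)]⟩, ⟨1, [(13, 1), (10, 1), (0, 2)]⟩, ⟨1, [(13, 1), (10, 2), (0, 2)]⟩, ⟨1, [(13, 1), (10, 1), (0, 3)]⟩, ⟨1, [(13, 1), (10, 1), (0, 2)]⟩, ⟨1, [(13, 1), (10, 3), (0, 3)]⟩, ⟨1, [(13, 1), (10, 3), (0, 2)]⟩, ⟨1, []⟩, ⟨1, [(10, 1), (0, 1)]⟩, ⟨1, [(0, 2)]⟩, ⟨1, []⟩, ⟨1, [(10, 1), (0, 1)]⟩, ⟨1, [(10, 1)]⟩, ⟨1, [(10, 2)]⟩, ⟨1, [(12, 1), (0, 2)]⟩, ⟨1, [(12, 1), (0, 1)]⟩, ⟨1, [(12, 1)]⟩,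 ⟨1, [(12, 1), (0, 2)]⟩, ⟨1, [(12, 1), (0, 1)]⟩, ⟨1, [(0, 1)]⟩])))))) (.cons (.ndet 2 [⟨1, [(9, 1)]⟩, ⟨1, [(12, 1), (0, 2)]⟩] (.ddet 0 [⟨1, [(21, 1)]⟩] s19_5_t5)) .nil))
def s19_5_t7 : Tree := .nbr (.cons (.ddet 1 [⟨2, [(17, 1), (8, 1), (3, 1), (0, 1)]⟩] (.ndet 2 [⟨1, [(8, 1)]⟩, ⟨2, [(17, 1), (8, 3), (3, 1), (0, 1)]⟩] (.ddet 0 [⟨1, [(1, 1)]⟩] (.nbr (.cons (.prune [(23, 1), (22, 1), (16, 1), (5, 1), (1, 3)]) (.cons (.ddet 0 [⟨2, [(19, 1), (10, 1), (5, 1), (2, 1)]⟩] (.leaf 1 [⟨1, [(10, 1), (3, 1)]⟩, ⟨2, [(19, 1), (10, 3), (5, 1), (2, 1)]⟩, ⟨1, []⟩, ⟨1, [(10, 1)]⟩, ⟨1, [(10, 2)]⟩, ⟨1, [(3, 1)]⟩, ⟨1, [(3, 1)]⟩,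 ⟨1, [(3, 1)]⟩, ⟨1, [(10, 1), (3, 1)]⟩, ⟨1, [(3, 2)]⟩, ⟨1, [(3, 2)]⟩, ⟨2, [(19, 1), (10, 1), (5, 1), (2, 1)]⟩, ⟨2, [(19, 1), (10, 5), (5, 1), (2, 1)]⟩, ⟨1, [(10, 1)]⟩, ⟨1, [(10, 1)]⟩, ⟨1, [(3, 1)]⟩, ⟨1, [(3, 1)]⟩, ⟨2, [(19, 1), (10, 1), (5, 1), (2, 1)]⟩, ⟨2, [(19, 1), (10, 3), (5, 1), (2, 1)]⟩, ⟨1, []⟩, ⟨1, []⟩, ⟨1, []⟩])) (.cons (.ddet 0 [⟨1, [(10, 1), (0, 1)]⟩] (.leaf 1 [⟨1, [(10, 1), (3, 1)]⟩, ⟨1, [(10, 2), (0, 1)]⟩, ⟨1, [(3, 1)]⟩, ⟨1, [(10, 1)]⟩, ⟨1, [(10, 2), (0, 1)]⟩, ⟨1, []⟩, ⟨1, [(3, 1)]⟩, ⟨1, [(3, 2)]⟩, ⟨1, [(10, 1), (3, 1)]⟩, ⟨1, [(3, 1)]⟩, ⟨1, [(3, 2)]⟩, ⟨1, [(10, 1)]⟩, ⟨1, [(10, 3), (0, 2)]⟩,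 ⟨1, [(10, 1), (0, 1)]⟩, ⟨1, [(10, 1)]⟩, ⟨1, []⟩, ⟨1, [(3, 1)]⟩, ⟨1, [(10, 1), (0, 1)]⟩, ⟨1, [(10, 2), (0, 2)]⟩, ⟨1, [(0, 1)]⟩, ⟨1, []⟩, ⟨1, []⟩])) .nil))))))) (.cons (.ddet 1 [⟨1, [(8, 1), (1, 1)]⟩] s19_5_t4) (.cons s19_5_t6 .nil)))
def s19_5_n1 : Node := ⟨[⟨[0, 1, 0, -1], -200⟩, ⟨[0, 1, -1], -200⟩, ⟨[-1, 1], -200⟩, ⟨[0, 0, -1, -1], -6020⟩, ⟨[1, 0, -1, -1], -4980⟩, ⟨[1, -1, 0, -1], -5000⟩, ⟨[0, 0, 0, -1], -1340⟩, ⟨[-1, 1, 0, -1], -1320⟩, ⟨[0, 1, 0, -1], 179000⟩, ⟨[1, 0, 1, -1], 1660⟩, ⟨[0, 1, 1, -1], 1680⟩, ⟨[-1, 1, -1], -1320⟩, ⟨[1, 1, -1], 720⟩, ⟨[1], 700⟩, ⟨[0, 1], 179700⟩, ⟨[1, 0, 1], 1660⟩, ⟨[0, 1,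 1], 2640⟩, ⟨[0, 1, 0, 1], 2000⟩, ⟨[1, 1, 0, 1], 3000⟩, ⟨[1, 0, 1, 1], 1620⟩, ⟨[0, 1, 1, 1], 2640⟩], [0, 1], 0, none, (.ndet 1 [⟨1, [(7, 1)]⟩, ⟨1, [(15, 1), (6, 1)]⟩] (.ddet 1 [⟨1, [(6, 1)]⟩] s19_5_t7))⟩
def s19_5_t8 : Tree := .nbr (.cons (.prune [(23, 2), (17, 1), (6, 1), (1, 3)]) (.cons (.ddet 0 [⟨2, [(14, 1), (6, 1), (2, 1)]⟩] (.ndet 1 [⟨1, [(11, 1)]⟩, ⟨1, [(14, 1), (0, 1)]⟩] (.ddet 1 [⟨1, [(11, 1)]⟩] (.leaf 2 [⟨2, [(14, 1), (11, 2), (6, 1), (2, 1)]⟩, ⟨1, []⟩, ⟨1, [(11, 1)]⟩, ⟨2, [(14, 1), (6, 1), (2, 1)]⟩, ⟨2, [(14, 1), (11, 2), (6, 1), (2, 1)]⟩, ⟨2, [(14, 1), (6, 1), (2, 1)]⟩, ⟨2, [(14, 1), (6, 1), (2,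 1)]⟩, ⟨2, [(14, 1), (11, 4), (6, 1), (2, 1)]⟩, ⟨2, [(14, 1), (11, 4), (6, 1), (2, 1)]⟩, ⟨1, []⟩, ⟨1, [(11, 1)]⟩, ⟨1, []⟩, ⟨1, []⟩, ⟨1, [(11, 1)]⟩, ⟨1, [(11, 1)]⟩, ⟨1, [(11, 2)]⟩, ⟨1, [(0, 1)]⟩, ⟨1, [(0, 1)]⟩, ⟨1, [(0, 1)]⟩, ⟨1, [(0, 1)]⟩, ⟨1, [(0, 1)]⟩, ⟨1, []⟩])))) (.cons (.ddet 0 [⟨1, [(11, 1), (0, 1)]⟩] (.ndet 1 [⟨1, [(11, 1), (0, 1)]⟩, ⟨1, [(14, 1)]⟩] (.ddet 1 [⟨1, [(11, 1)]⟩] (.leaf 2 [⟨1, [(11, 2), (0, 1)]⟩, ⟨1, [(12, 1), (3, 1)]⟩, ⟨1, [(12, 1), (11, 1), (3, 1)]⟩, ⟨1, [(11, 1)]⟩, ⟨1, [(11, 2), (0, 1)]⟩, ⟨1, [(12, 1), (11, 1), (3, 1)]⟩, ⟨1, [(11, 1)]⟩, ⟨1, [(11, 3), (0, 1)]⟩, ⟨1, [(11, 3), (0, 2)]⟩,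 ⟨1, []⟩, ⟨1, [(11, 1)]⟩, ⟨1, [(12, 2), (3, 2)]⟩, ⟨1, []⟩, ⟨1, [(11, 1)]⟩, ⟨1, [(11, 1), (0, 1)]⟩, ⟨1, [(11, 2), (0, 2)]⟩, ⟨1, [(12, 1), (3, 1)]⟩, ⟨1, []⟩, ⟨1, [(0, 1)]⟩, ⟨1, [(12, 1), (3, 1)]⟩, ⟨1, []⟩, ⟨1, []⟩])))) .nil)))
def s19_5_t9 : Tree := .nbr (.cons (.prune [(23, 2), (17, 1), (6, 1), (1, 3)]) (.cons (.ddet 0 [⟨1, [(14, 1)]⟩] (.ndet 1 [⟨1, [(14, 1), (3, 1), (0, 1)]⟩, ⟨1, [(14, 1), (0, 1)]⟩] (.ddet 1 [⟨1, [(14, 1), (3, 1), (0, 1)]⟩] (.leaf 2 [⟨1, [(14, 2), (3, 1), (0, 1)]⟩, ⟨1, []⟩, ⟨1, [(14, 1), (3, 1), (0, 1)]⟩, ⟨1, [(14, 1)]⟩, ⟨1, [(14, 2), (3, 1), (0, 1)]⟩, ⟨1, [(14, 1)]⟩, ⟨1, [(14, 1)]⟩, ⟨1,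 [(14, 3), (3, 2), (0, 2)]⟩, ⟨1, [(14, 3), (3, 2), (0, 2)]⟩, ⟨1, []⟩, ⟨1, [(14, 1), (3, 1), (0, 1)]⟩, ⟨1, []⟩, ⟨1, []⟩, ⟨1, [(14, 1), (3, 1), (0, 1)]⟩, ⟨1, [(14, 1), (3, 1), (0, 1)]⟩, ⟨1, [(14, 2), (3, 2), (0, 2)]⟩, ⟨1, [(3, 1), (0, 1)]⟩, ⟨1, [(3, 1), (0, 1)]⟩, ⟨1, [(3, 1), (0, 1)]⟩, ⟨1, [(3, 1), (0, 1)]⟩, ⟨1, [(3, 1), (0, 1)]⟩, ⟨1, []⟩])))) (.cons (.ddet 0 [⟨1, [(14, 1)]⟩] (.ndet 1 [⟨1, [(14, 1), (3, 1)]⟩, ⟨1, [(14, 1)]⟩] (.ddet 1 [⟨1, [(11, 1)]⟩] (.split [0, 1, -1] (0) (.leaf 1 [⟨1, [(15, 1), (12, 1), (0, 1)]⟩, ⟨1, [(0, 1)]⟩, ⟨1, [(12, 1)]⟩, ⟨1, [(14, 1), (0, 2)]⟩, ⟨1, [(14, 1), (0, 3)]⟩, ⟨1, [(14, 1),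 (0, 2)]⟩, ⟨1, [(15, 1)]⟩, ⟨1, [(15, 1), (12, 1)]⟩, ⟨1, [(15, 1), (12, 1), (0, 1)]⟩, ⟨1, [(15, 1), (12, 1), (0, 1)]⟩, ⟨1, [(15, 1), (12, 2), (0, 1)]⟩, ⟨1, []⟩, ⟨1, [(0, 2)]⟩, ⟨1, [(0, 1)]⟩, ⟨1, [(12, 1), (0, 1)]⟩, ⟨1, [(12, 1), (0, 1)]⟩, ⟨1, [(12, 2), (0, 1)]⟩, ⟨1, [(13, 1), (0, 1)]⟩, ⟨1, [(13, 1), (0, 2)]⟩, ⟨1, [(13, 1), (0, 1)]⟩, ⟨1, [(13, 1), (12, 1), (0, 1)]⟩, ⟨1, [(0, 1)]⟩]) (.leaf 2 [⟨1, [(15, 1), (12, 1)]⟩, ⟨1, [(0, 1)]⟩, ⟨1, [(12, 1), (0, 1)]⟩, ⟨1, [(15, 1), (0, 1)]⟩, ⟨1, [(15, 1), (12, 1)]⟩, ⟨1, [(15, 1), (0, 2)]⟩, ⟨1, [(15, 1), (0, 1)]⟩, ⟨1, [(15, 1), (12, 2)]⟩, ⟨1, [(15, 2), (12, 1), (4, 1)]⟩,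 ⟨1, []⟩, ⟨1, [(12, 1)]⟩, ⟨1, [(0, 2)]⟩, ⟨1, []⟩, ⟨1, [(12, 1)]⟩, ⟨1, [(15, 1), (4, 1)]⟩, ⟨1, [(15, 2), (4, 2)]⟩, ⟨1, [(13, 1)]⟩, ⟨1, [(4, 1)]⟩, ⟨1, [(4, 1), (1, 1)]⟩, ⟨1, [(13, 1)]⟩, ⟨1, [(4, 1)]⟩, ⟨1, []⟩]))))) .nil)))
def s19_5_t10 : Tree := .nbr (.cons (.prune [(12, 1), (1, 1)]) (.cons (.dbr (.cons (.ndet 1 [⟨1, [(13, 1)]⟩, ⟨1, [(16, 1), (1, 1)]⟩] (.ddet 1 [⟨1, [(13, 1)]⟩] (.leaf 2 [⟨1, [(13, 1), (0, 1)]⟩, ⟨1, []⟩, ⟨1, [(13, 1)]⟩, ⟨1, [(0, 1)]⟩, ⟨1, [(13, 1), (0, 1)]⟩, ⟨1, [(0, 1)]⟩, ⟨1, [(0, 1)]⟩, ⟨1, [(13, 2), (0, 1)]⟩, ⟨1, [(13, 2), (0, 1)]⟩, ⟨1, []⟩, ⟨1, [(13, 1)]⟩, ⟨1, []⟩, ⟨1, []⟩, ⟨1, [(13, 1)]⟩,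 ⟨1, [(13, 1)]⟩, ⟨1, [(13, 2)]⟩, ⟨1, [(5, 1), (1, 1)]⟩, ⟨1, [(5, 1), (1, 1)]⟩, ⟨1, [(5, 1), (1, 1)]⟩, ⟨1, [(5, 1), (1, 1)]⟩, ⟨1, [(5, 1), (1, 1)]⟩, ⟨1, []⟩]))) (.cons (.ndet 1 [⟨1, [(20, 1), (3, 2)]⟩, ⟨1, [(19, 1)]⟩] (.ddet 1 [⟨1, [(13, 1)]⟩] (.leaf 2 [⟨1, [(20, 1), (3, 2)]⟩, ⟨1, [(0, 1)]⟩, ⟨1, [(13, 1), (0, 1)]⟩, ⟨1, []⟩, ⟨1, [(20, 1), (3, 2)]⟩, ⟨1, [(0, 1)]⟩, ⟨1, []⟩, ⟨1, [(20, 1), (13, 1), (3, 2)]⟩, ⟨1, [(20, 2), (3, 4)]⟩, ⟨1, []⟩, ⟨1, [(13, 1)]⟩, ⟨1, [(0, 2)]⟩, ⟨1, []⟩, ⟨1, [(13, 1)]⟩, ⟨1, [(20, 1), (3, 2)]⟩, ⟨1, [(20, 2), (3, 4)]⟩, ⟨1, [(13, 1), (0, 1)]⟩, ⟨1, [(13, 1)]⟩, ⟨1, [(20, 1), (3, 2)]⟩, ⟨1, [(13,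 1), (0, 1)]⟩, ⟨1, [(13, 1)]⟩, ⟨1, []⟩]))) .nil))) (.cons (.ddet 0 [⟨1, [(19, 1), (12, 1), (0, 2)]⟩] (.ndet 1 [⟨1, [(12, 1), (0, 1)]⟩, ⟨1, [(15, 1)]⟩] (.ddet 1 [⟨1, [(12, 1)]⟩] (.split [0, 1, -1] (0) (.leaf 1 [⟨1, [(21, 1), (14, 1), (13, 2), (0, 4)]⟩, ⟨1, [(0, 1)]⟩, ⟨1, [(13, 1)]⟩, ⟨1, [(21, 1), (14, 1), (0, 3)]⟩, ⟨1, [(21, 1), (14, 1), (0, 4)]⟩, ⟨1, [(21, 1), (14, 1), (0, 3)]⟩, ⟨1, [(21, 1), (14, 1), (13, 1), (0, 3)]⟩, ⟨1, [(21, 1), (14, 1), (13, 2), (0, 3)]⟩, ⟨1, [(21, 1), (14, 1), (13, 2), (0, 4)]⟩, ⟨1, [(21, 1), (14, 1), (13, 2), (0, 4)]⟩, ⟨1, [(21, 1), (14, 1), (13, 3), (0, 4)]⟩, ⟨1, []⟩, ⟨1, [(0, 2)]⟩,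 ⟨1, [(0, 1)]⟩, ⟨1, [(13, 1), (0, 1)]⟩, ⟨1, [(13, 1), (0, 1)]⟩, ⟨1, [(13, 2), (0, 1)]⟩, ⟨1, [(14, 1), (4, 1), (0, 1)]⟩, ⟨1, [(14, 1), (4, 1), (0, 2)]⟩, ⟨1, [(14, 1), (4, 1), (0, 1)]⟩, ⟨1, [(14, 1), (13, 1), (4, 1), (0, 1)]⟩, ⟨1, [(0, 1)]⟩]) (.leaf 2 [⟨1, [(20, 1), (13, 2), (1, 2)]⟩, ⟨1, [(0, 1)]⟩, ⟨1, [(13, 1), (0, 1)]⟩, ⟨1, [(20, 1), (13, 1), (1, 1)]⟩, ⟨1, [(20, 1), (13, 2), (1, 2)]⟩, ⟨1, [(20, 1), (13, 1)]⟩, ⟨1, [(20, 1), (13, 1), (1, 1)]⟩, ⟨1, [(20, 1), (13, 3), (1, 2)]⟩, ⟨1, [(20, 1), (13, 3), (1, 3)]⟩, ⟨1, []⟩, ⟨1, [(13, 1)]⟩, ⟨1, [(0, 2)]⟩, ⟨1, []⟩, ⟨1, [(13, 1)]⟩, ⟨1, [(13, 1), (1, 1)]⟩, ⟨1, [(13,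 2), (1, 2)]⟩, ⟨1, [(14, 1), (4, 1)]⟩, ⟨1, [(5, 1)]⟩, ⟨1, [(5, 1), (1, 1)]⟩, ⟨1, [(14, 1), (4, 1)]⟩, ⟨1, [(5, 1)]⟩, ⟨1, []⟩]))))) .nil)))
def s19_5_t11 : Tree := .dbr (.cons (.ndet 2 [⟨1, [(10, 1)]⟩, ⟨1, [(23, 1)]⟩] (.ddet 0 [⟨1, [(13, 1), (0, 1)]⟩] (.ndet 1 [⟨1, [(10, 1)]⟩, ⟨1, [(10, 1), (0, 1)]⟩] (.ddet 1 [⟨1, [(13, 1), (5, 1), (0, 2)]⟩] (.ndet 1 [⟨1, [(23, 1)]⟩, ⟨1, [(16, 1), (0, 1)]⟩] (.ddet 1 [⟨1, [(10, 1)]⟩] (.split [0, 0, 1, -1] (0) (.leaf 2 [⟨1, [(0, 1)]⟩, ⟨1, [(14, 1), (6, 1), (1, 2)]⟩, ⟨1, [(14, 1), (11, 1), (6, 1), (1, 2)]⟩, ⟨1, []⟩, ⟨1, [(0, 1)]⟩, ⟨1, [(14, 1), (6, 1), (1, 2)]⟩, ⟨1, []⟩, ⟨1, [(17,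 1), (12, 1)]⟩, ⟨1, [(0, 2)]⟩, ⟨1, []⟩, ⟨1, [(11, 1)]⟩, ⟨1, [(14, 2), (6, 2), (1, 4)]⟩, ⟨1, []⟩, ⟨1, [(11, 1)]⟩, ⟨1, [(0, 1)]⟩, ⟨1, [(0, 2)]⟩, ⟨1, [(14, 1), (11, 1), (6, 1), (1, 2)]⟩, ⟨1, [(11, 1)]⟩, ⟨1, [(0, 1)]⟩, ⟨1, [(14, 1), (11, 1), (6, 1), (1, 2)]⟩, ⟨1, [(11, 1)]⟩, ⟨1, []⟩]) (.leaf 3 [⟨1, [(0, 1)]⟩, ⟨1, [(17, 1), (12, 1), (0, 3)]⟩, ⟨1, [(17, 2), (12, 2), (0, 4)]⟩, ⟨1, []⟩, ⟨1, [(0, 2)]⟩, ⟨1, [(17, 1), (12, 1), (0, 3)]⟩, ⟨1, [(17, 1), (12, 1), (0, 2)]⟩, ⟨1, []⟩, ⟨1, [(24, 1)]⟩, ⟨1, [(24, 2)]⟩, ⟨1, [(0, 2)]⟩, ⟨1, [(17, 1), (12, 1), (0, 3)]⟩, ⟨1, []⟩, ⟨1, [(17, 2), (12, 2), (0, 5)]⟩, ⟨1, [(0, 1)]⟩, ⟨1,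 []⟩, ⟨1, [(17, 1), (12, 1), (0, 1)]⟩, ⟨1, [(24, 1)]⟩, ⟨1, [(17, 2), (12, 2), (0, 2)]⟩, ⟨1, [(0, 1)]⟩])))))))) (.cons (.ndet 2 [⟨1, [(10, 1)]⟩, ⟨1, [(17, 1), (0, 2)]⟩] (.ddet 0 [⟨2, [(14, 1), (12, 1)]⟩] s19_5_t10)) .nil))
def s19_5_t12 : Tree := .nbr (.cons (.ddet 1 [⟨2, [(12, 1), (4, 1), (0, 1)]⟩] (.ndet 2 [⟨1, [(9, 1)]⟩, ⟨2, [(12, 1), (9, 2), (4, 1), (0, 1)]⟩] (.ddet 0 [⟨1, [(1, 1)]⟩] s19_5_t8))) (.cons (.ddet 1 [⟨1, [(12, 1), (1, 1)]⟩] (.ndet 2 [⟨1, [(9, 1)]⟩, ⟨1, [(12, 1), (9, 1)]⟩] (.ddet 0 [⟨2, [(13, 1), (11, 1)]⟩] s19_5_t9))) (.cons s19_5_t11 .nil)))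
def s19_5_n2 : Node := ⟨[⟨[0, 0, 1, -1], -200⟩, ⟨[0, -1, 1], -200⟩, ⟨[-1, 0, 1], -200⟩, ⟨[-1, 0, 0, -1], -2300⟩, ⟨[-1, 1, 0, -1], -1300⟩, ⟨[-1, -1, 1, -1], -1780⟩, ⟨[0, -1, 1, -1], -1320⟩, ⟨[-1, 1, 1, -1], 179700⟩, ⟨[0, 1, 1, -1], 720⟩, ⟨[-1, 1, -1], -1320⟩, ⟨[-1, 1], 179000⟩, ⟨[-1, -1, 1], -1280⟩, ⟨[1, -1, 1], 680⟩, ⟨[0, 0, 1], 179700⟩, ⟨[1, 0, 1], 1720⟩, ⟨[1, 1, 1], 2720⟩, ⟨[-1, 1, 0, 1], 1620⟩, ⟨[0, 1, 0, 1], 1660⟩, ⟨[1, 1, 0, 1], 1620⟩, ⟨[0, 0, 1, 1], 2640⟩, ⟨[1, 0, 1, 1], 2640⟩], [0, 0, 1], 0, none, s19_5_t12⟩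
def s19_5_t13 : Tree := .dbr (.cons (.ndet 1 [⟨1, [(15, 1), (9, 1)]⟩, ⟨1, [(15, 1), (1, 1)]⟩] (.ddet 1 [⟨1, [(15, 1), (9, 1)]⟩] (.nbr (.cons (.ddet 1 [⟨1, [(17, 1), (11, 1)]⟩] (.leaf 3 [⟨1, []⟩, ⟨1, [(17, 1), (11, 1)]⟩, ⟨1, [(17, 2), (11, 2)]⟩, ⟨1, []⟩, ⟨1, []⟩, ⟨1, [(17, 1), (11, 1)]⟩, ⟨1, [(17, 1), (11, 1)]⟩, ⟨1, []⟩, ⟨1, []⟩, ⟨1, []⟩, ⟨1, []⟩, ⟨1, [(17, 1), (11, 1)]⟩, ⟨1, []⟩, ⟨1, [(17, 2), (11, 2)]⟩, ⟨1, []⟩, ⟨1, []⟩, ⟨1, [(17, 1), (11, 1)]⟩, ⟨1, []⟩, ⟨1, [(17, 2), (11, 2)]⟩, ⟨1, []⟩])) (.cons (.ddet 1 [⟨1, [(17, 1), (11, 1)]⟩] (.leaf 3 [⟨1, []⟩, ⟨1, [(17, 1), (11, 1)]⟩, ⟨1, [(17, 2), (11, 2)]⟩, ⟨1,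 []⟩, ⟨1, []⟩, ⟨1, [(17, 1), (11, 1)]⟩, ⟨1, [(17, 1), (11, 1)]⟩, ⟨1, []⟩, ⟨1, []⟩, ⟨1, []⟩, ⟨1, []⟩, ⟨1, [(17, 1), (11, 1)]⟩, ⟨1, []⟩, ⟨1, [(17, 2), (11, 2)]⟩, ⟨1, []⟩, ⟨1, []⟩, ⟨1, [(17, 1), (11, 1)]⟩, ⟨1, []⟩, ⟨1, [(17, 2), (11, 2)]⟩, ⟨1, []⟩])) (.cons (.ddet 1 [⟨1, [(17, 1), (11, 1)]⟩] (.leaf 3 [⟨1, []⟩, ⟨1, [(17, 1), (11, 1)]⟩, ⟨1, [(17, 2), (11, 2), (2, 1)]⟩, ⟨1, []⟩, ⟨1, [(2, 1)]⟩, ⟨1, [(17, 1), (11, 1), (2, 1)]⟩, ⟨1, [(17, 1), (11, 1)]⟩, ⟨1, [(1, 1)]⟩, ⟨1, [(1, 1)]⟩, ⟨1, [(1, 1)]⟩, ⟨1, []⟩, ⟨1, [(17, 1), (11, 1), (2, 1)]⟩, ⟨1, []⟩, ⟨1, [(17, 2), (11, 2), (2, 1)]⟩, ⟨1, [(1, 1)]⟩, ⟨1, [(1, 1)]⟩, ⟨1,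 [(17, 1), (11, 1)]⟩, ⟨1, [(1, 1)]⟩, ⟨1, [(17, 2), (11, 2)]⟩, ⟨1, []⟩])) .nil)))))) (.cons (.ndet 1 [⟨1, [(19, 1)]⟩, ⟨1, [(8, 1)]⟩] (.ddet 1 [⟨1, [(15, 1), (9, 1)]⟩] (.ndet 2 [⟨1, [(0, 1)]⟩, ⟨1, [(0, 2)]⟩] (.dbr (.cons (.leaf 0 [⟨1, [(0, 1)]⟩, ⟨1, [(9, 1), (6, 1), (0, 3)]⟩, ⟨1, [(9, 2), (6, 2), (0, 4)]⟩, ⟨1, [(0, 2)]⟩, ⟨1, [(0, 2)]⟩, ⟨1, [(9, 1), (6, 1), (0, 3)]⟩, ⟨1, []⟩, ⟨1, [(9, 1), (6, 1), (0, 3)]⟩, ⟨1, [(0, 1)]⟩, ⟨1, [(9, 1), (6, 1), (0, 3)]⟩, ⟨1, [(0, 1)]⟩, ⟨1, [(9, 1), (6, 1), (0, 2)]⟩, ⟨1, []⟩, ⟨1, [(9, 1), (6, 1), (0, 1)]⟩, ⟨1, [(20, 1)]⟩, ⟨1, [(9, 2), (6, 2), (0, 4)]⟩, ⟨1, []⟩, ⟨1, []⟩, ⟨1, [(9,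 3), (6, 3), (0, 5)]⟩, ⟨1, [(9, 1), (6, 1), (0, 1)]⟩, ⟨1, [(20, 1)]⟩, ⟨1, [(9, 2), (6, 2), (0, 2)]⟩, ⟨1, [(20, 2)]⟩, ⟨1, [(0, 1)]⟩]) (.cons (.leaf 3 [⟨1, [(1, 1)]⟩, ⟨1, [(16, 1), (10, 1), (1, 1)]⟩, ⟨1, [(0, 2)]⟩, ⟨1, []⟩, ⟨1, []⟩, ⟨1, [(0, 1)]⟩, ⟨1, [(16, 1), (10, 1)]⟩, ⟨1, [(1, 2)]⟩, ⟨1, [(1, 1)]⟩, ⟨1, []⟩, ⟨1, [(1, 2)]⟩, ⟨1, [(0, 1)]⟩, ⟨1, []⟩, ⟨1, [(9, 1), (6, 1)]⟩, ⟨1, [(1, 3)]⟩, ⟨1, [(1, 2)]⟩, ⟨1, [(0, 1)]⟩, ⟨1, [(1, 1)]⟩, ⟨1, [(0, 2)]⟩, ⟨1, []⟩]) .nil)))))) .nil))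
def s19_5_t14 : Tree := .ddet 1 [⟨1, [(14, 1), (8, 1)]⟩] (.nbr (.cons (.ddet 1 [⟨1, [(16, 1), (10, 1), (2, 1)]⟩] (.leaf 3 [⟨1, [(1, 1)]⟩, ⟨1, [(16, 1), (10, 1), (1, 1)]⟩, ⟨1, [(16, 2), (10, 2), (2, 1)]⟩, ⟨1, []⟩, ⟨1, [(1, 1)]⟩, ⟨1, [(16, 1), (10, 1)]⟩, ⟨1, [(16, 1), (10, 1)]⟩, ⟨1, [(1, 1)]⟩, ⟨1, []⟩, ⟨1, [(2, 1)]⟩, ⟨1, [(1, 2)]⟩, ⟨1, [(16, 1), (10, 1)]⟩, ⟨1, []⟩, ⟨1, [(16, 2), (10, 2)]⟩, ⟨1, [(1, 2)]⟩, ⟨1, [(1, 1)]⟩, ⟨1, [(16, 1), (10, 1), (2, 1)]⟩, ⟨1, []⟩, ⟨1, [(16, 2), (10, 2), (2, 2)]⟩, ⟨1, []⟩])) (.cons (.ddet 1 [⟨1, [(16, 1), (10, 1), (2, 1)]⟩] (.split [0, 0, 1, -1] (0) (.leaf 2 [⟨1, [(0, 1)]⟩, ⟨1,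 [(17, 1), (11, 1)]⟩, ⟨1, [(17, 2), (11, 2), (0, 1)]⟩, ⟨1, []⟩, ⟨1, [(0, 1)]⟩, ⟨1, [(17, 1), (11, 1)]⟩, ⟨1, []⟩, ⟨1, [(17, 1), (11, 1), (0, 2)]⟩, ⟨1, [(0, 2)]⟩, ⟨1, []⟩, ⟨1, [(17, 1), (11, 1), (0, 1)]⟩, ⟨1, [(17, 2), (11, 2)]⟩, ⟨1, []⟩, ⟨1, [(17, 1), (11, 1), (0, 1)]⟩, ⟨1, [(0, 1)]⟩, ⟨1, [(0, 2)]⟩, ⟨1, [(17, 2), (11, 2), (0, 1)]⟩, ⟨1, [(17, 1), (11, 1), (0, 1)]⟩, ⟨1, [(0, 1)]⟩, ⟨1, [(17, 2), (11, 2), (0, 1)]⟩, ⟨1, [(17, 1), (11, 1), (0, 1)]⟩, ⟨1, [(0, 1)]⟩]) (.leaf 3 [⟨1, [(0, 1)]⟩, ⟨1, [(17, 1), (11, 1), (0, 1)]⟩, ⟨1, [(17, 2), (11, 2)]⟩, ⟨1, []⟩, ⟨1, [(0, 2)]⟩, ⟨1, [(17, 1), (11, 1), (0, 1)]⟩, ⟨1, [(17,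 1), (11, 1)]⟩, ⟨1, []⟩, ⟨1, [(3, 1)]⟩, ⟨1, [(3, 2)]⟩, ⟨1, [(0, 2)]⟩, ⟨1, [(17, 1), (11, 1), (0, 1)]⟩, ⟨1, []⟩, ⟨1, [(17, 2), (11, 2), (0, 1)]⟩, ⟨1, [(0, 1)]⟩, ⟨1, []⟩, ⟨1, [(17, 1), (11, 1), (3, 1)]⟩, ⟨1, [(3, 1)]⟩, ⟨1, [(17, 2), (11, 2), (3, 2)]⟩, ⟨1, []⟩]))) (.cons (.prune [(18, 1), (16, 1), (10, 2), (2, 2), (1, 1)]) .nil))))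
def s19_5_n3 : Node := ⟨[⟨[0, 0, -1, 1], -200⟩, ⟨[0, -1, 0, 1], -200⟩, ⟨[-1, 0, 0, 1], -200⟩, ⟨[0, -1, 1, -1], -1320⟩, ⟨[-1, -1, -1], -5320⟩, ⟨[-1, -1], -3280⟩, ⟨[0, -1, 1], 179700⟩, ⟨[1, -1, 1], 680⟩, ⟨[1, 0, 1], 680⟩, ⟨[1, 1, 1], 640⟩, ⟨[0, -1, -1, 1], -1280⟩, ⟨[-1, 0, -1, 1], -2260⟩, ⟨[0, 1, -1, 1], 680⟩, ⟨[-1, -1, 0, 1], 179000⟩, ⟨[1, -1, 0, 1], 700⟩, ⟨[1, 0, 0, 1], 1660⟩, ⟨[0, 1, 0, 1], 2680⟩, ⟨[1, 1, 0, 1], 1660⟩, ⟨[0, 1, 1, 1], 4640⟩], [0, 0, 0, 1], 0, none, (.ndet 2 [⟨1, [(12, 1), (6, 1)]⟩, ⟨1, [(16, 1)]⟩] (.ddet 0 [⟨2, [(15, 1), (8, 1)]⟩] (.nbr (.cons (.prune [(14, 1), (2, 1), (1, 1), (0, 2)]) (.cons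 s19_5_t13 (.cons (.ddet 0 [⟨1, [(16, 1), (14, 1), (8, 2), (0, 2)]⟩] (.ndet 1 [⟨1, [(14, 1), (8, 1), (0, 1)]⟩, ⟨1, [(14, 1)]⟩] s19_5_t14)) .nil))))))⟩
def s19_5 : Sys := ⟨[(0, 0), (1, 0), (4, 2000)], [(0, 1000), (2, -1000)], 4, [s19_5_n0, s19_5_n1, s19_5_n2, s19_5_n3], [-730979, 460728, 1192707, 732979], (.leaf 2 [⟨1, []⟩, ⟨1, []⟩, ⟨1, []⟩, ⟨1, []⟩, ⟨1, []⟩, ⟨1, []⟩, ⟨1, []⟩, ⟨1, []⟩, ⟨1, []⟩, ⟨1, []⟩, ⟨1, []⟩, ⟨1, []⟩, ⟨1, []⟩, ⟨1, []⟩, ⟨1, []⟩, ⟨1, []⟩, ⟨1, []⟩, ⟨1, []⟩, ⟨1, []⟩, ⟨1, []⟩, ⟨1, []⟩])⟩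

theorem s19_5_ok : s19_5.ok = true := by decide +kernel

def s22_7_n0 : Node := ⟨[⟨[1, -1], 200⟩, ⟨[1, 0, 0, -1], 128⟩, ⟨[1], 288⟩, ⟨[1, -1], 384⟩, ⟨[1], 448⟩, ⟨[1, 0, -1], 360⟩, ⟨[1], 200⟩, ⟨[1], 264⟩, ⟨[0, -1], 56⟩, ⟨[1], 152⟩, ⟨[1], 56⟩], [1], 0, none, (.ndet 0 [⟨1, [(6, 1), (2, 1)]⟩, ⟨1, [(9, 1)]⟩] (.ddet 1 [⟨1, [(6, 1)]⟩, ⟨1, [(6, 1), (2, 1)]⟩] (.ndet 1 [⟨1, [(6, 1)]⟩, ⟨1, [(5, 1)]⟩] (.ddet 2 [⟨1, [(6, 1)]⟩, ⟨1, [(6, 1)]⟩] (.ndet 1 [⟨1, []⟩, ⟨1, [(2, 1)]⟩] (.ddet 2 [⟨1, []⟩, ⟨1, []⟩] (.ndet 2 [⟨1, [(6, 1)]⟩, ⟨1, [(6, 1)]⟩] (.ddet 0 [⟨1, []⟩, ⟨1, []⟩] (.leaf 0 [⟨1, [(6, 1)]⟩, ⟨1, [(6, 1)]⟩, ⟨1, [(6,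 1)]⟩, ⟨1, [(6, 1)]⟩, ⟨1, [(6, 1)]⟩, ⟨1, [(6, 1)]⟩, ⟨1, [(6, 1)]⟩, ⟨1, [(6, 1)]⟩, ⟨1, []⟩, ⟨1, [(6, 1)]⟩, ⟨1, [(6, 1)]⟩, ⟨1, []⟩])))))))))⟩
def s22_7 : Sys := ⟨[(1, 160), (2, -32), (4, 192)], [(0, 32), (1, -80), (2, 96)], 4, [s22_7_n0], [464, -128, -32, 240], (.leaf 0 [⟨1, []⟩, ⟨1, []⟩, ⟨1, []⟩, ⟨1, []⟩, ⟨1, []⟩, ⟨1, []⟩, ⟨1, []⟩, ⟨1, []⟩, ⟨1, []⟩, ⟨1, []⟩, ⟨1, []⟩])⟩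

theorem s22_7_ok : s22_7.ok = true := by decide +kernel

def s26_21_n0 : Node := ⟨[⟨[-1, 0, 1], 192⟩, ⟨[0, 0, 1, -1], 144⟩, ⟨[0, -1], -88⟩, ⟨[0, 0, 0, -1], 24⟩, ⟨[0, -1, 1], 120⟩, ⟨[0, 0, 1], 176⟩, ⟨[-1, 0, 1], 200⟩, ⟨[-1], 64⟩, ⟨[0, -1], -104⟩, ⟨[0, -1, 1], 112⟩, ⟨[0, 0, 1], 200⟩], [0, 0, 1], 0, none, (.ndet 1 [⟨1, [(3, 1), (0, 1)]⟩, ⟨1, [(7, 1), (0, 1)]⟩] (.ddet 0 [⟨1, [(8, 1)]⟩, ⟨1, [(7, 1)]⟩] (.ndet 0 [⟨1, [(6, 1)]⟩, ⟨1, []⟩] (.ddet 2 [⟨1, [(0, 1)]⟩, ⟨1, [(3, 1), (0, 1)]⟩] (.ndet 0 [⟨1, [(3, 1)]⟩, ⟨1, [(8, 1)]⟩] (.ddet 1 [⟨1, [(0, 1)]⟩, ⟨1, [(6, 1)]⟩] (.leaf 0 [⟨1, [(0, 2)]⟩, ⟨1, [(3, 1), (0, 1)]⟩,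 ⟨1, []⟩, ⟨1, [(3, 1)]⟩, ⟨1, [(0, 1)]⟩, ⟨1, [(0, 1)]⟩, ⟨1, [(0, 2)]⟩, ⟨1, [(0, 1)]⟩, ⟨1, []⟩, ⟨1, [(0, 1)]⟩, ⟨1, [(0, 1)]⟩, ⟨1, []⟩])))))))⟩
def s26_21 : Sys := ⟨[(1, 0), (3, 64), (4, -48)], [(0, 16), (2, -80), (4, -32)], 4, [s26_21_n0], [-144, 80, 304, -96], (.leaf 0 [⟨1, []⟩, ⟨1, []⟩, ⟨1, []⟩, ⟨1, []⟩, ⟨1, []⟩, ⟨1, []⟩, ⟨1, []⟩, ⟨1, []⟩, ⟨1, []⟩, ⟨1, []⟩, ⟨1, []⟩])⟩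

theorem s26_21_ok : s26_21.ok = true := by decide +kernel

def s26_23_n0 : Node := ⟨[⟨[-1, 0, 1], 40⟩, ⟨[0, 0, 1, -1], 16⟩, ⟨[-1], 0⟩, ⟨[0, -1], -24⟩, ⟨[0, 0, 0, -1], -16⟩, ⟨[0, -1, 1], 40⟩, ⟨[0, 0, 1], 48⟩, ⟨[-1, 0, 1], 48⟩, ⟨[-1], 24⟩, ⟨[0, 0, 1], 40⟩, ⟨[0, -1, 1], 24⟩, ⟨[0, 0, 1], 56⟩], [0, 0, 1], 0, none, (.ndet 1 [⟨1, [(3, 1), (0, 1)]⟩, ⟨1, [(7, 1), (0, 1)]⟩] (.ddet 0 [⟨1, [(3, 1)]⟩, ⟨1, [(8, 1)]⟩, ⟨1, [(7, 1)]⟩] (.ndet 0 [⟨1, [(6, 1)]⟩, ⟨1, []⟩] (.ddet 1 [⟨1, [(0, 1)]⟩, ⟨1, [(3, 1), (0, 1)]⟩, ⟨1, []⟩] (.ndet 0 [⟨1, [(3, 1)]⟩, ⟨1, [(8, 1)]⟩] (.ddet 2 [⟨1, [(0, 1)]⟩, ⟨1, [(0, 1)]⟩, ⟨1, [(6, 1)]⟩] (.leaf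 0 [⟨1, [(0, 2)]⟩, ⟨1, [(3, 1), (0, 1)]⟩, ⟨1, [(0, 1)]⟩, ⟨1, []⟩, ⟨1, [(3, 1)]⟩, ⟨1, [(0, 1)]⟩, ⟨1, [(0, 1)]⟩, ⟨1, [(0, 2)]⟩, ⟨1, [(0, 1)]⟩, ⟨1, [(0, 1)]⟩, ⟨1, [(0, 1)]⟩, ⟨1, [(0, 1)]⟩, ⟨1, []⟩])))))))⟩
def s26_23 : Sys := ⟨[(1, 0), (3, 32), (4, -16)], [(0, 16), (1, -16), (2, -16), (4, -16)], 4, [s26_23_n0], [-32, 16, 80, 0], (.leaf 0 [⟨1, []⟩, ⟨1, []⟩, ⟨1, []⟩, ⟨1, []⟩, ⟨1, []⟩, ⟨1, []⟩, ⟨1, []⟩, ⟨1, []⟩, ⟨1, []⟩, ⟨1, []⟩, ⟨1, []⟩, ⟨1, []⟩])⟩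

theorem s26_23_ok : s26_23.ok = true := by decide +kernel

def s27_5_n0 : Node := ⟨[⟨[1], 120⟩, ⟨[1, 0, -1], 104⟩, ⟨[1, 0, 0, -1], 64⟩, ⟨[0, 1], 24⟩, ⟨[1, -1], 88⟩, ⟨[1, -2], 48⟩, ⟨[1, -1, -1], 88⟩, ⟨[1], 96⟩, ⟨[1], 112⟩, ⟨[1, 1], 128⟩, ⟨[1, -1], 64⟩, ⟨[1, -1], 56⟩, ⟨[0, 1], 16⟩, ⟨[0, 1], 40⟩], [1], 0, none, (.ndet 1 [⟨1, [(9, 1), (0, 1)]⟩, ⟨1, [(7, 1), (0, 1)]⟩, ⟨1, [(11, 1)]⟩] (.ddet 1 [⟨1, [(0, 1)]⟩] (.ndet 1 [⟨1, [(9, 1)]⟩, ⟨1, [(8, 1)]⟩, ⟨1, [(7, 1)]⟩] (.ddet 1 [⟨1, [(9, 1), (0, 1)]⟩] (.ndet 2 [⟨1, [(9, 1), (0, 1)]⟩, ⟨1, [(9, 1), (0, 2)]⟩, ⟨1, [(9, 1)]⟩] (.ddet 1 [⟨1, [(9, 1)]⟩] (.ndet 3 [⟨1, [(9,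 1), (0, 1)]⟩, ⟨1, [(9, 1)]⟩, ⟨1, [(0, 1)]⟩] (.ddet 0 [⟨1, [(0, 1)]⟩] (.leaf 0 [⟨1, [(9, 1), (0, 1)]⟩, ⟨1, [(9, 1), (0, 2)]⟩, ⟨1, [(0, 1)]⟩, ⟨1, [(0, 1)]⟩, ⟨1, [(9, 1)]⟩, ⟨1, [(8, 1)]⟩, ⟨1, [(9, 1), (0, 1)]⟩, ⟨1, [(9, 1), (0, 1)]⟩, ⟨1, [(9, 1), (0, 1)]⟩, ⟨1, [(9, 1), (0, 2)]⟩, ⟨1, [(9, 1)]⟩, ⟨1, [(9, 1)]⟩, ⟨1, [(0, 1)]⟩, ⟨1, [(0, 1)]⟩, ⟨1, []⟩])))))))))⟩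
def s27_5 : Sys := ⟨[(0, 32), (1, -16), (3, 0), (4, 32)], [(0, -32), (2, -32)], 4, [s27_5_n0], [192, 48, 0, 112], (.leaf 0 [⟨1, []⟩, ⟨1, []⟩, ⟨1, []⟩, ⟨1, []⟩, ⟨1, []⟩, ⟨1, []⟩, ⟨1, []⟩, ⟨1, []⟩, ⟨1, []⟩, ⟨1, []⟩, ⟨1, []⟩, ⟨1, []⟩, ⟨1, []⟩, ⟨1, []⟩])⟩

theorem s27_5_ok : s27_5.ok = true := by decide +kernel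

def s27_6_n0 : Node := ⟨[⟨[1], 392⟩, ⟨[1, 0, -1], 392⟩, ⟨[1, 0, 0, -1], 0⟩, ⟨[1, -1], 744⟩, ⟨[0, -1], 360⟩, ⟨[0, 0, -1], -8⟩, ⟨[1], 384⟩, ⟨[2], 776⟩, ⟨[1], 408⟩], [1], 0, none, (.ndet 1 [⟨1, [(0, 1)]⟩, ⟨1, [(3, 1), (0, 1)]⟩, ⟨1, [(6, 1)]⟩] (.ddet 0 [⟨1, [(4, 1), (0, 1)]⟩] (.ndet 0 [⟨1, []⟩, ⟨1, [(4, 1)]⟩, ⟨1, [(3, 1)]⟩] (.ddet 1 [⟨1, [(0, 1)]⟩] (.ndet 2 [⟨1, [(0, 1)]⟩, ⟨1, [(0, 2)]⟩, ⟨1, [(4, 1), (0, 1)]⟩] (.ddet 1 [⟨1, [(0, 1)]⟩] (.leaf 0 [⟨1, [(0, 1)]⟩, ⟨1, [(0, 1)]⟩, ⟨1, []⟩, ⟨1, [(0, 2)]⟩, ⟨1, [(0, 1)]⟩, ⟨1, []⟩, ⟨1, [(0, 1)]⟩, ⟨1, [(0, 2)]⟩, ⟨1, [(0, 1)]⟩, ⟨1, []⟩])))))))⟩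
def s27_6 : Sys := ⟨[(0, 16), (1, 0), (3, 0), (4, -16)], [(1, 16), (2, 0)], 4, [s27_6_n0], [768, -736, -16, 752], (.leaf 0 [⟨1, []⟩, ⟨1, []⟩, ⟨1, []⟩, ⟨1, []⟩, ⟨1, []⟩, ⟨1, []⟩, ⟨1, []⟩, ⟨1, []⟩, ⟨1, []⟩])⟩

theorem s27_6_ok : s27_6.ok = true := by decide +kernel

def s28_8_n0 : Node := ⟨[⟨[0, -1, 1], 56⟩, ⟨[0, 0, 1, -1], 32⟩, ⟨[1, -1], 32⟩, ⟨[1, 0, -1], -8⟩, ⟨[0, -1], 0⟩, ⟨[1], 48⟩], [1], 0, none, (.ndet 1 [⟨1, [(5, 1)]⟩, ⟨1, [(4, 1)]⟩] (.ddet 0 [] (.ndet 0 [⟨1, [(5, 1), (2, 1)]⟩, ⟨1, [(2, 1)]⟩] (.ddet 0 [] (.leaf 0 [⟨1, [(0, 1)]⟩, ⟨1, [(5, 1), (2, 1)]⟩, ⟨1, [(5, 1), (2, 1)]⟩, ⟨1, [(1, 1)]⟩, ⟨1, []⟩, ⟨1,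 [(5, 1), (2, 1)]⟩, ⟨1, [(1, 1)]⟩])))))⟩
def s28_8 : Sys := ⟨[(2, 16), (3, -16), (4, -16)], [(3, 0)], 4, [s28_8_n0], [80, -16, 64, 0], (.leaf 0 [⟨1, []⟩, ⟨1, []⟩, ⟨1, []⟩, ⟨1, []⟩, ⟨1, []⟩, ⟨1, []⟩])⟩

theorem s28_8_ok : s28_8.ok = true := by decide +kernel

def s28_11_n0 : Node := ⟨[⟨[0, 1, -1], 416⟩, ⟨[0, 1, 0, -1], 96⟩, ⟨[-1], 168⟩, ⟨[0, 0, -1], 112⟩, ⟨[-1, 1], 624⟩, ⟨[0, 1, -1], 664⟩, ⟨[0, 1], 296⟩], [0, 1], 0, none, (.ndet 0 [⟨1, [(1, 1)]⟩, ⟨1, [(5, 1)]⟩] (.ddet 0 [⟨1, [(4, 1)]⟩, ⟨1, [(3, 1)]⟩] (.ndet 1 [⟨1, [(2, 1)]⟩, ⟨1, [(1, 1)]⟩] (.ddet 1 [⟨1, [(0, 1)]⟩, ⟨1, []⟩] (.leaf 0 [⟨1, [(2, 1)]⟩, ⟨1, []⟩,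 ⟨1, []⟩, ⟨1, [(4, 1)]⟩, ⟨1, [(0, 1)]⟩, ⟨1, [(2, 1)]⟩, ⟨1, [(0, 1)]⟩, ⟨1, []⟩])))))⟩
def s28_11 : Sys := ⟨[(2, 32), (3, -176), (4, 112)], [(0, -80), (1, -16), (3, -128)], 4, [s28_11_n0], [-272, 768, -272, 656], (.leaf 0 [⟨1, []⟩, ⟨1, []⟩, ⟨1, []⟩, ⟨1, []⟩, ⟨1, []⟩, ⟨1, []⟩, ⟨1, []⟩])⟩

theorem s28_11_ok : s28_11.ok = true := by decide +kernel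

def s30_4_n0 : Node := ⟨[⟨[-1, 0, 1], 256⟩, ⟨[0, -1, 1], 160⟩, ⟨[0, 0, 1, -1], 128⟩, ⟨[0, 1], 0⟩, ⟨[-1, 0, 1], 224⟩, ⟨[-1, 1], 64⟩, ⟨[-2, 0, 1], 320⟩, ⟨[-1, -1, 1], 256⟩, ⟨[-1, 1], 96⟩, ⟨[-2, 0, 1], 352⟩, ⟨[-1], 32⟩], [0, 1], 0, none, (.ndet 2 [⟨2, [(9, 1), (7, 1), (1, 1)]⟩, ⟨1, [(9, 1)]⟩, ⟨1, [(8, 1)]⟩] (.ddet 0 [] (.ndet 3 [⟨1, [(7, 1)]⟩, ⟨2, [(9, 1), (7, 1), (1, 1)]⟩, ⟨1, [(9, 1)]⟩] (.ddet 0 [] (.ndet 0 [⟨1, [(2, 1)]⟩, ⟨1, [(1, 1)]⟩, ⟨1, [(3, 1)]⟩] (.ddet 0 [] (.ndet 1 [⟨1, [(9, 1)]⟩, ⟨1, [(2, 1)]⟩, ⟨1, [(1, 1)]⟩] (.ddet 0 [] (.leaf 0 [⟨2, [(9, 1), (7, 1), (1, 1)]⟩, ⟨1, [(9, 1)]⟩, ⟨1, [(2, 1)]⟩, ⟨1,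 [(2, 1)]⟩, ⟨2, [(9, 1), (7, 1), (1, 1)]⟩, ⟨1, [(2, 1)]⟩, ⟨2, [(9, 1), (7, 1), (1, 1)]⟩, ⟨1, [(9, 1)]⟩, ⟨1, [(2, 1)]⟩, ⟨2, [(9, 1), (7, 1), (1, 1)]⟩, ⟨1, []⟩, ⟨1, [(0, 1)]⟩])))))))))⟩
def s30_4 : Sys := ⟨[(1, 0), (2, 0), (3, 64), (4, 128)], [(2, 64)], 4, [s30_4_n0], [-64, 128, 512, 320], (.leaf 0 [⟨1, []⟩, ⟨1, []⟩, ⟨1, []⟩, ⟨1, []⟩, ⟨1, []⟩, ⟨1, []⟩, ⟨1, []⟩, ⟨1, []⟩, ⟨1, []⟩, ⟨1, []⟩, ⟨1, []⟩])⟩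

theorem s30_4_ok : s30_4.ok = true := by decide +kernel

def s30_8_t0 : Tree := .nbr (.cons (.ddet 0 [] (.ndet 1 [⟨1, [(16, 1), (1, 1)]⟩, ⟨1, [(23, 1), (9, 1), (1, 1)]⟩, ⟨1, [(1, 1)]⟩] (.ddet 0 [] (.leaf 0 [⟨1, [(23, 1), (8, 1)]⟩, ⟨2, [(23, 1), (7, 1)]⟩, ⟨1, [(23, 1), (9, 1)]⟩, ⟨2, [(22, 1), (6, 1)]⟩, ⟨2, [(23, 1), (7, 1)]⟩, ⟨2, [(23, 1), (7, 1), (1, 2)]⟩, ⟨1, [(17, 1)]⟩, ⟨1, []⟩, ⟨1, [(1, 1)]⟩, ⟨2, [(22, 1), (6, 1)]⟩, ⟨2, [(23, 1), (7, 1)]⟩, ⟨2, [(23, 1), (7, 1), (1, 2)]⟩, ⟨1, [(17, 1)]⟩, ⟨1, [(1, 1)]⟩, ⟨1, [(23, 1), (9, 1), (1, 2)]⟩, ⟨1, [(17, 1), (4, 1)]⟩, ⟨1, [(17, 1)]⟩, ⟨1, []⟩, ⟨1, [(1, 1)]⟩, ⟨1,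 [(17, 1), (4, 1)]⟩, ⟨1, [(4, 1)]⟩, ⟨1, [(16, 1), (1, 2)]⟩, ⟨1, [(16, 1), (4, 1), (1, 1)]⟩, ⟨1, [(4, 2)]⟩, ⟨1, [(4, 2), (1, 1)]⟩, ⟨2, [(23, 1), (7, 1), (1, 2)]⟩])))) (.cons (.prune [(23, 3), (16, 1), (8, 3), (2, 4), (0, 2)]) (.cons (.ddet 0 [] (.ndet 1 [⟨1, [(24, 1), (9, 1), (4, 1)]⟩, ⟨1, [(24, 1), (9, 1)]⟩, ⟨1, [(18, 1)]⟩] (.ddet 0 [] (.leaf 0 [⟨1, [(23, 1), (8, 1)]⟩, ⟨2, [(23, 1), (7, 1)]⟩, ⟨1, [(24, 1), (9, 1)]⟩, ⟨2, [(23, 1), (7, 1)]⟩, ⟨2, [(23, 1), (7, 1)]⟩, ⟨2, [(23, 1), (7, 1)]⟩, ⟨1, []⟩, ⟨1, []⟩, ⟨1, []⟩, ⟨2, [(23, 1), (7, 1)]⟩, ⟨2, [(23, 1), (7, 1)]⟩, ⟨2, [(23, 1), (7, 1)]⟩, ⟨1, []⟩, ⟨1, []⟩, ⟨1,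 [(24, 1), (9, 1)]⟩, ⟨1, [(4, 1)]⟩, ⟨1, []⟩, ⟨1, []⟩, ⟨1, []⟩, ⟨1, [(4, 1)]⟩, ⟨1, [(4, 1)]⟩, ⟨1, [(24, 1), (9, 1), (4, 1)]⟩, ⟨1, [(24, 1), (9, 1), (4, 2)]⟩, ⟨1, [(4, 2)]⟩, ⟨1, [(4, 2)]⟩, ⟨1, [(15, 1)]⟩])))) (.cons (.prune [(27, 6), (16, 2), (14, 3), (8, 3), (2, 5)]) .nil))))
def s30_8_t1 : Tree := .nbr (.cons (.ddet 0 [] (.ndet 1 [⟨1, [(16, 1), (1, 1)]⟩, ⟨1, [(16, 1), (1, 2)]⟩, ⟨1, [(1, 1)]⟩] (.ddet 0 [] (.leaf 0 [⟨1, [(16, 1), (1, 2)]⟩, ⟨1, []⟩, ⟨1, [(16, 1), (1, 1)]⟩, ⟨1, [(17, 1)]⟩, ⟨1, []⟩, ⟨1, [(1, 1)]⟩, ⟨1, [(17, 1)]⟩, ⟨1, []⟩, ⟨1, [(1, 1)]⟩, ⟨1, [(17, 1)]⟩, ⟨1, []⟩, ⟨1, [(1, 1)]⟩, ⟨1, [(17, 1)]⟩, ⟨1,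 [(1, 1)]⟩, ⟨1, [(16, 1), (1, 3)]⟩, ⟨1, [(17, 1)]⟩, ⟨1, [(17, 1)]⟩, ⟨1, []⟩, ⟨1, [(1, 1)]⟩, ⟨1, [(17, 1)]⟩, ⟨1, []⟩, ⟨1, [(16, 1), (1, 2)]⟩, ⟨1, [(16, 1), (1, 1)]⟩, ⟨1, []⟩, ⟨1, [(1, 1)]⟩, ⟨1, [(1, 1)]⟩])))) (.cons (.prune [(27, 4), (16, 3), (14, 2), (8, 2), (2, 5)]) (.cons (.ddet 0 [] (.ndet 1 [⟨1, [(27, 1), (9, 1)]⟩, ⟨1, [(27, 1), (9, 1)]⟩, ⟨1, [(18, 1)]⟩] (.ddet 0 [] (.leaf 0 [⟨1, [(27, 1), (9, 1)]⟩, ⟨1, []⟩, ⟨1, [(27, 1), (9, 1)]⟩, ⟨1, []⟩, ⟨1, []⟩, ⟨1, []⟩, ⟨1, []⟩, ⟨1, []⟩, ⟨1, []⟩, ⟨1, []⟩, ⟨1, []⟩, ⟨1, []⟩, ⟨1, []⟩, ⟨1, []⟩, ⟨1, [(27, 1), (9, 1)]⟩, ⟨1, []⟩, ⟨1, []⟩, ⟨1, []⟩, ⟨1, []⟩, ⟨1, []⟩, ⟨1,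 []⟩, ⟨1, [(27, 1), (9, 1)]⟩, ⟨1, [(27, 1), (9, 1)]⟩, ⟨1, []⟩, ⟨1, []⟩, ⟨1, [(18, 1)]⟩])))) (.cons (.prune [(27, 6), (16, 2), (14, 3), (8, 3), (2, 5)]) .nil))))
def s30_8_t2 : Tree := .nbr (.cons (.ddet 0 [] (.ndet 1 [⟨1, [(20, 1), (6, 1)]⟩, ⟨1, [(21, 1), (6, 1), (1, 1)]⟩, ⟨1, [(1, 1)]⟩] (.ddet 0 [] s30_8_t0))) (.cons (.prune [(24, 4), (13, 3), (11, 2), (5, 2), (2, 5)]) (.cons (.ddet 0 [] (.ndet 1 [⟨2, [(24, 1), (13, 1), (6, 1)]⟩, ⟨1, [(24, 1), (6, 1)]⟩, ⟨1, [(17, 1)]⟩] (.ddet 0 [] s30_8_t1))) (.cons (.prune [(24, 1), (13, 1), (2, 1)]) .nil))))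
def s30_8_n0 : Node := ⟨[⟨[1, 0, 0, -1], -200⟩, ⟨[1, 0, -1], -200⟩, ⟨[1, -1], -200⟩, ⟨[0, -1, 0, -1], 3613⟩, ⟨[0, 0, 0, -1], 1640⟩, ⟨[0, 1, 0, -1], -5387⟩, ⟨[-1, -1, 1, -1], 2620⟩, ⟨[-1, 0, 1, -1], 680⟩, ⟨[-1, 1, 1, -1], -6340⟩, ⟨[1, -1, -1], 2613⟩, ⟨[1, 0, -1], 620⟩, ⟨[1, 1, -1], -6387⟩, ⟨[0, -1], 1640⟩, ⟨[0, 1], -7320⟩, ⟨[1, 1], 299700⟩, ⟨[-1, -1, 1], -4387⟩, ⟨[1, -1, -1, 1], 620⟩, ⟨[1, 0, -1, 1], -1320⟩, ⟨[1, 1, -1, 1], -8340⟩, ⟨[0, -1, 0, 1], -5387⟩, ⟨[0, 0, 0, 1], -7320⟩, ⟨[1, 0, 0, 1], 299700⟩, ⟨[0, -1, 1, 1], 299700⟩, ⟨[-1, 0, 1, 1], -13360⟩, ⟨[-1, 1, 1, 1], -20347⟩], [1], 0, none, s30_8_t2⟩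
def s30_8_t3 : Tree := .ddet 0 [] (.ndet 1 [⟨1, [(20, 1), (6, 1)]⟩, ⟨1, [(20, 1), (3, 1), (1, 2)]⟩, ⟨1, [(1, 1)]⟩] (.ddet 0 [] (.nbr (.cons (.ddet 0 [] (.leaf 1 [⟨1, [(1, 1)]⟩, ⟨1, [(23, 1), (6, 1), (4, 1)]⟩, ⟨1, [(23, 1), (9, 1), (4, 1)]⟩, ⟨1, []⟩, ⟨1, [(1, 1)]⟩, ⟨1, [(1, 2)]⟩, ⟨1, [(4, 1), (1, 1)]⟩, ⟨1, [(14, 1)]⟩, ⟨1, [(14, 1), (1, 1)]⟩, ⟨1, [(16, 1)]⟩, ⟨1, [(1, 1)]⟩, ⟨1, [(16, 1), (4, 1)]⟩, ⟨1, [(4, 1)]⟩, ⟨1, [(4, 1), (1, 1)]⟩, ⟨1, [(14, 1)]⟩, ⟨1, [(16, 1)]⟩, ⟨1, []⟩, ⟨1, [(23, 1), (6, 1), (4, 2)]⟩, ⟨1, [(16, 1), (4, 1)]⟩, ⟨1, [(4, 1)]⟩, ⟨1, [(23, 1), (9, 1), (4, 2)]⟩, ⟨1, [(4, 1), (1, 1)]⟩])) (.cons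 (.prune [(23, 3), (6, 3), (3, 1), (2, 4), (0, 1)]) (.cons (.ddet 0 [] (.leaf 1 [⟨1, [(17, 1)]⟩, ⟨1, [(23, 1), (6, 1), (4, 1)]⟩, ⟨1, [(23, 1), (6, 1), (4, 2)]⟩, ⟨1, [(17, 1)]⟩, ⟨1, [(17, 1)]⟩, ⟨1, [(17, 1)]⟩, ⟨1, [(17, 1), (4, 1)]⟩, ⟨1, [(14, 1)]⟩, ⟨1, [(14, 1)]⟩, ⟨1, []⟩, ⟨1, []⟩, ⟨1, [(4, 1)]⟩, ⟨1, [(4, 1)]⟩, ⟨1, [(4, 1)]⟩, ⟨1, [(14, 1), (2, 1)]⟩, ⟨1, [(2, 1)]⟩, ⟨1, [(2, 1)]⟩, ⟨1, [(23, 1), (9, 1), (4, 1)]⟩, ⟨1, [(4, 1), (2, 1)]⟩, ⟨1, [(4, 1), (2, 1)]⟩, ⟨1, [(23, 1), (9, 1), (4, 2)]⟩, ⟨1, [(17, 1), (4, 1)]⟩])) (.cons (.prune [(23, 1), (17, 2), (9, 1), (3, 1), (0, 2)]) .nil)))))))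
def s30_8_t4 : Tree := .ddet 0 [] (.ndet 1 [⟨1, [(20, 1), (16, 1), (6, 1)]⟩, ⟨1, [(20, 1), (16, 1), (14, 1), (6, 1)]⟩, ⟨1, [(16, 1)]⟩] (.ddet 0 [] (.nbr (.cons (.ddet 0 [] (.leaf 1 [⟨1, [(1, 1)]⟩, ⟨1, [(23, 1), (19, 1), (9, 1), (1, 1)]⟩, ⟨1, [(23, 1), (19, 1), (9, 1)]⟩, ⟨1, []⟩, ⟨1, [(1, 1)]⟩, ⟨1, [(1, 2)]⟩, ⟨1, [(1, 1)]⟩, ⟨1, []⟩, ⟨1, [(1, 1)]⟩, ⟨1, [(16, 1)]⟩, ⟨1, [(1, 1)]⟩, ⟨1, [(16, 1)]⟩, ⟨1, []⟩, ⟨1, [(1, 1)]⟩, ⟨1, []⟩, ⟨1, [(16, 1)]⟩, ⟨1, []⟩, ⟨1, [(23, 1), (19, 1), (9, 1), (1, 1)]⟩, ⟨1, [(16, 1)]⟩, ⟨1, []⟩, ⟨1, [(23, 1), (19, 1), (9, 1)]⟩, ⟨1, [(19, 1), (1, 1)]⟩])) (.cons (.prune [(23, 1), (19, 1),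 (9, 1), (2, 1), (0, 1)]) (.cons (.ddet 0 [] (.leaf 1 [⟨1, [(17, 1)]⟩, ⟨1, [(23, 1), (19, 1), (17, 1), (9, 1)]⟩, ⟨1, [(23, 1), (19, 1), (17, 1), (9, 1)]⟩, ⟨1, [(17, 1)]⟩, ⟨1, [(17, 1)]⟩, ⟨1, [(17, 1)]⟩, ⟨1, [(17, 1)]⟩, ⟨1, []⟩, ⟨1, []⟩, ⟨1, []⟩, ⟨1, []⟩, ⟨1, []⟩, ⟨1, []⟩, ⟨1, []⟩, ⟨1, [(2, 1)]⟩, ⟨1, [(2, 1)]⟩, ⟨1, [(2, 1)]⟩, ⟨1, [(23, 1), (19, 1), (9, 1)]⟩, ⟨1, [(2, 1)]⟩, ⟨1, [(2, 1)]⟩, ⟨1, [(23, 1), (19, 1), (9, 1)]⟩, ⟨1, [(19, 1), (17, 1)]⟩])) (.cons (.prune [(23, 1), (19, 1), (17, 1), (9, 1), (0, 1)]) .nil)))))))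
def s30_8_n1 : Node := ⟨[⟨[0, 1, 0, -1], -200⟩, ⟨[0, 1, -1], -200⟩, ⟨[-1, 1], -200⟩, ⟨[-1, 1, 0, -1], 7600⟩, ⟨[0, 1, 0, -1], 620⟩, ⟨[1, 1, 0, -1], -6400⟩, ⟨[0, 1, 1, -1], -6387⟩, ⟨[0, 0, -1], 1640⟩, ⟨[1, 0, -1], -5387⟩, ⟨[-1], 1640⟩, ⟨[1], -7320⟩, ⟨[-1, 0, 1], -5387⟩, ⟨[0, 0, 1], -7320⟩, ⟨[1, 0, 1], -14407⟩, ⟨[1, -1, -1, 1], -6380⟩, ⟨[0, -1, 0, 1], -6340⟩, ⟨[1, -1, 0, 1], -8320⟩, ⟨[1, 0, 0, 1], 299700⟩, ⟨[0, -1, 1, 1], -13387⟩, ⟨[1, -1, 1, 1], -15340⟩, ⟨[0, 0, 1, 1], 299700⟩], [0, 1], 0, none, (.ndet 1 [⟨1, [(17, 1), (11, 1), (3, 1)]⟩, ⟨1, [(17, 1), (13, 1), (3, 1)]⟩, ⟨1, [(16, 1)]⟩] (.ddet 0 [] (.nbr (.cons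 s30_8_t3 (.cons (.prune [(20, 1), (14, 1), (6, 1), (1, 1)]) (.cons s30_8_t4 (.cons (.prune [(20, 1), (16, 1), (6, 1), (0, 1)]) .nil)))))))⟩
def s30_8 : Sys := ⟨[(1, -5000), (2, 2000), (3, -4000), (4, 0)], [(3, 3000)], 4, [s30_8_n0, s30_8_n1], [309335, -5210, 303335, -7000], (.leaf 0 [⟨1, []⟩, ⟨1, []⟩, ⟨1, []⟩, ⟨1, []⟩, ⟨1, []⟩, ⟨1, []⟩, ⟨1, []⟩, ⟨1, []⟩, ⟨1, []⟩, ⟨1, []⟩, ⟨1, []⟩, ⟨1, []⟩, ⟨1, []⟩, ⟨1, []⟩, ⟨1, []⟩, ⟨1, []⟩, ⟨1, []⟩, ⟨1, []⟩, ⟨1, []⟩, ⟨1, []⟩, ⟨1, []⟩, ⟨1, []⟩, ⟨1, []⟩, ⟨1, []⟩, ⟨1, []⟩])⟩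

theorem s30_8_ok : s30_8.ok = true := by decide +kernel

def s30_14_n0 : Node := ⟨[⟨[1, -1], 86⟩, ⟨[1, 0, -1], 72⟩, ⟨[1, 0, 0, -1], 92⟩, ⟨[1, -1], 94⟩, ⟨[1, 0, -1], 80⟩, ⟨[1], 80⟩, ⟨[1, 0, -1], 120⟩, ⟨[1], 72⟩, ⟨[1, -1], 134⟩, ⟨[1], 48⟩, ⟨[1], 32⟩], [1], 0, none, (.ndet 0 [⟨1, [(2, 1)]⟩, ⟨1, [(4, 1)]⟩, ⟨1, [(8, 1)]⟩] (.ddet 0 [⟨1, [(2, 1)]⟩, ⟨1, [(4, 1)]⟩] (.ndet 1 [⟨1, [(5, 1)]⟩, ⟨1, [(2, 1)]⟩, ⟨1, [(4, 1)]⟩] (.ddet 1 [⟨1, [(5, 1)]⟩, ⟨1, [(2, 1)]⟩] (.ndet 2 [⟨1, [(5, 1)]⟩, ⟨1, [(5, 1)]⟩, ⟨1, [(2, 1)]⟩] (.ddet 2 [⟨1, [(5, 1)]⟩, ⟨1, [(5, 1)]⟩] (.ndet 3 [⟨1, [(5, 1)]⟩, ⟨1, [(5, 1)]⟩, ⟨1, [(5, 1)]⟩] (.ddet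 0 [⟨1, []⟩, ⟨1, []⟩] (.leaf 0 [⟨1, [(5, 1)]⟩, ⟨1, [(5, 1)]⟩, ⟨1, [(5, 1)]⟩, ⟨1, [(5, 1)]⟩, ⟨1, [(5, 1)]⟩, ⟨1, [(5, 1)]⟩, ⟨1, [(5, 1)]⟩, ⟨1, [(5, 1)]⟩, ⟨1, [(5, 1)]⟩, ⟨1, [(5, 1)]⟩, ⟨1, [(5, 1)]⟩, ⟨1, []⟩])))))))))⟩
def s30_14 : Sys := ⟨[(1, 16), (2, -16), (3, -32), (4, 32)], [(1, 32), (2, 16), (3, 0)], 4, [s30_14_n0], [96, -144, -96, -48], (.leaf 0 [⟨1, []⟩, ⟨1, []⟩, ⟨1, []⟩, ⟨1, []⟩, ⟨1, []⟩, ⟨1, []⟩, ⟨1, []⟩, ⟨1, []⟩, ⟨1, []⟩, ⟨1, []⟩, ⟨1, []⟩])⟩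

theorem s30_14_ok : s30_14.ok = true := by decide +kernel

def s30_16_t0 : Tree := .ddet 0 [] (.ndet 1 [⟨1, [(3, 1)]⟩, ⟨1, [(15, 1), (3, 1)]⟩, ⟨1, [(8, 1)]⟩] (.ddet 0 [] (.ndet 2 [⟨1, [(3, 1), (0, 1)]⟩, ⟨1, [(3, 1)]⟩, ⟨1, [(15, 1), (3, 1)]⟩] (.ddet 0 [] (.ndet 3 [⟨1, []⟩, ⟨1, [(3, 1), (0, 1)]⟩, ⟨1, [(3, 1)]⟩] (.ddet 0 [] (.ndet 1 [⟨1, [(15, 1), (3, 1)]⟩, ⟨1, [(3, 1), (0, 1)]⟩, ⟨1, [(3, 1)]⟩] (.ddet 0 [] (.leaf 0 [⟨1, [(15, 1)]⟩, ⟨1, [(15, 1), (3, 1)]⟩, ⟨1, [(3, 1), (0, 1)]⟩, ⟨1, [(8, 1)]⟩, ⟨1, [(15, 1)]⟩, ⟨1, [(15, 1), (3, 1)]⟩, ⟨1, [(3, 1), (0, 1)]⟩, ⟨1, [(0, 1)]⟩, ⟨1, [(3, 1), (0, 1)]⟩, ⟨1, []⟩, ⟨1, [(3,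 1), (0, 1)]⟩, ⟨1, [(0, 1)]⟩, ⟨1, [(3, 1)]⟩, ⟨1, [(3, 1), (0, 1)]⟩, ⟨1, []⟩, ⟨1, [(3, 1), (0, 1)]⟩, ⟨1, [(3, 1)]⟩, ⟨1, [(3, 1), (0, 1)]⟩, ⟨1, [(3, 1), (0, 1)]⟩, ⟨1, [(3, 1)]⟩, ⟨1, [(3, 1), (0, 1)]⟩, ⟨1, [(3, 1)]⟩, ⟨1, [(0, 1)]⟩, ⟨1, [(8, 1)]⟩])))))))))
def s30_16_n0 : Node := ⟨[⟨[-1, 0, 1], -64⟩, ⟨[0, -1, 1], 320⟩, ⟨[0, 0, 1, -1], 224⟩, ⟨[0, 0, 0, 1], 32⟩, ⟨[-1, 0, 1], 192⟩, ⟨[0, -1, 1], 480⟩, ⟨[0, 0, 1, -1], 64⟩, ⟨[-1, 0, 1, -1], 64⟩, ⟨[0, -1, 1, -1], 192⟩, ⟨[0, 1], -192⟩, ⟨[0, 0, 1, -1], 160⟩, ⟨[-1, 0, 1, -1], -96⟩, ⟨[1, -1], 128⟩, ⟨[0, -1, 1, -1], 256⟩, ⟨[0, -1], -64⟩, ⟨[0, 0, 1, -1], 32⟩, ⟨[1, -1], 224⟩,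 ⟨[0, -1, 1, -1], 96⟩, ⟨[0, 0, 1, -1], 288⟩, ⟨[1, -1], 384⟩, ⟨[0, -1, 1, -1], -64⟩, ⟨[1, -1], 160⟩, ⟨[-1, 1, 1, -1], -32⟩], [1], 0, none, (.ndet 2 [⟨1, [(18, 1)]⟩, ⟨1, [(18, 1), (3, 1)]⟩, ⟨1, [(3, 1), (0, 1)]⟩] (.ddet 0 [] (.ndet 3 [⟨1, [(19, 1)]⟩, ⟨1, [(18, 1)]⟩, ⟨1, [(18, 1), (3, 1)]⟩] (.ddet 0 [] (.ndet 1 [⟨1, [(3, 1), (0, 1)]⟩, ⟨1, [(15, 1)]⟩, ⟨1, [(15, 1), (3, 1)]⟩] (.ddet 0 [] (.ndet 2 [⟨1, [(13, 1)]⟩, ⟨1, [(3, 1), (0, 1)]⟩, ⟨1, [(15, 1)]⟩] s30_16_t0)))))))⟩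
def s30_16 : Sys := ⟨[(1, -192), (2, 128), (3, 256), (4, 64)], [(4, 64)], 4, [s30_16_n0], [448, 0, 768, 128], (.leaf 0 [⟨1, []⟩, ⟨1, []⟩, ⟨1, []⟩, ⟨1, []⟩, ⟨1, []⟩, ⟨1, []⟩, ⟨1, []⟩, ⟨1, []⟩, ⟨1, []⟩, ⟨1, []⟩, ⟨1, []⟩, ⟨1, []⟩, ⟨1, []⟩, ⟨1, []⟩, ⟨1, []⟩, ⟨1, []⟩, ⟨1, []⟩, ⟨1, []⟩, ⟨1, []⟩, ⟨1, []⟩, ⟨1, []⟩, ⟨1, []⟩, ⟨1, []⟩])⟩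

theorem s30_16_ok : s30_16.ok = true := by decide +kernel

end Pool.Agent.H81.RDE.Data
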