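import Pool.Agent.H81.RDE.System

/-! Data file (generated): certificates. -/

set_option maxRecDepth 100000

namespace Pool.Agent.H81.RDE.Data

def s2_12_t0 : Tree := .ddet 1 [⟨1, [(1, 1)]⟩] (.ndet 0 [] (.ddet 1 [⟨1, [(3, 1)]⟩] (.ndet 0 [] (.ddet 1 [⟨1, [(3, 1)]⟩] (.ndet 0 [] (.ddet 1 [⟨1, [(2, 1)]⟩] (.ndet 0 [] (.ddet 0 [⟨1, [(1, 1)]⟩] (.leaf 0 [⟨1, [(3, 1), (1, 1)]⟩, ⟨1, [(3, 1), (2, 1)]⟩, ⟨1, [(5, 3)]⟩, ⟨1, [(3, 1), (1, 1)]⟩, ⟨1, [(3, 3)]⟩, ⟨1, [(2, 3)]⟩, ⟨1, [(1, 3)]⟩, ⟨1, [(3, 2), (1, 2)]⟩, ⟨3, [(3, 2), (1, 2)]⟩])))))))))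
def s2_12_t1 : Tree := .ndet 0 [] (.ddet 1 [⟨1, [(5, 1)]⟩] (.ndet 0 [] (.ddet 0 [⟨3, [(3, 1), (1, 1)]⟩] (.ndet 0 [] (.ddet 0 [⟨1, [(3, 1)]⟩] (.ndet 0 [] (.ddet 0 [⟨1, [(2, 1)]⟩] (.ndet 0 [] s2_12_t0))))))))
def s2_12_t2 : Tree := .ddet 0 [⟨3, [(3, 1), (2, 1)]⟩] (.ndet 0 [] (.ddet 0 [⟨1, [(5, 1)]⟩] (.ndet 0 [] (.ddet 1 [⟨3, [(3, 1), (1, 1)]⟩] (.ndet 0 [] (.ddet 1 [⟨3, [(3, 1), (2, 1)]⟩] (.ndet 0 [] (.ddet 1 [⟨3, [(3, 1), (2, 1)]⟩] s2_12_t1))))))))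
def s2_12_n0 : Node := ⟨[⟨[0, 1, -1], 2560⟩, ⟨[1, -1], 3072⟩, ⟨[0, -1], 5632⟩, ⟨[1], -2560⟩, ⟨[2, -1], 512⟩, ⟨[1, -2], 8704⟩, ⟨[1, 1], -8192⟩, ⟨[2], -5120⟩], [1], 0, none, (.ndet 0 [] (.ddet 0 [⟨1, [(7, 1)]⟩] (.ndet 0 [] s2_12_t2)))⟩
def s2_12 : Sys := ⟨[(1, -4096)], [(2, 1024), (3, 1024)], 3, [s2_12_n0], [0, -6144, -11264, 0], (.leaf 0 [⟨1, []⟩, ⟨1, []⟩, ⟨1, []⟩, ⟨1, []⟩, ⟨1, []⟩, ⟨1, []⟩, ⟨1, []⟩, ⟨1, []⟩])⟩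

theorem s2_12_ok : s2_12.ok = true := by decide +kernel

def s9_16_t0 : Tree := .nbr (.cons (.ddet 0 [] (.ndet 1 [⟨219404, [(8, 1858), (6, 126649), (4, 126069), (1, 91332)]⟩] (.ddet 0 [] (.leaf 0 [⟨54851, [(8, 801), (6, 55987), (4, 55796), (1, 66770)]⟩, ⟨164553, [(8, 384), (6, 49438), (4, 49141), (0, 63312)]⟩, ⟨1, [(1, 1)]⟩, ⟨219404, [(6, 122577), (4, 174149), (2, 12382), (0, 851908)]⟩, ⟨329106, [(8, 176214), (6, 202867), (4, 130855), (0, 68011206)]⟩, ⟨164553, [(8, 90894), (6, 291407), (4, 254531), (0, 33868605)]⟩, ⟨164553, [(6, 31660), (4, 66796), (2, 85320), (1, 34142601)]⟩, ⟨329106, [(6, 446983), (4, 515515), (2, 165066), (1, 68559198)]⟩,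 ⟨658212, [(8, 48294), (6, 367399), (4, 209203), (1, 3103716)]⟩, ⟨658212, [(8, 59442), (6, 1127293), (4, 965617), (1, 3651708)]⟩, ⟨658212, [(8, 5574), (6, 270245), (4, 268505), (1, 273996)]⟩])))) (.cons (.ddet 0 [] (.ndet 1 [⟨219404, [(8, 1858), (6, 126649), (4, 126069), (0, 91332)]⟩] (.ddet 0 [] (.leaf 0 [⟨54851, [(8, 801), (6, 55987), (4, 55796), (0, 66770)]⟩, ⟨101241, [(10, 227865), (8, 768), (6, 22921), (4, 22327)]⟩, ⟨1, [(0, 1)]⟩, ⟨219404, [(6, 122577), (4, 174149), (2, 12382), (0, 25708)]⟩, ⟨329106, [(8, 176214), (6, 202867), (4, 130855), (0, 442842)]⟩, ⟨164553, [(8, 90894), (6, 291407), (4, 254531), (0, 358419)]⟩, ⟨33747, [(10,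 28141), (6, 5611), (4, 12766), (2, 17432)]⟩, ⟨329106, [(6, 446983), (4, 515515), (2, 165066), (0, 105150)]⟩, ⟨658212, [(8, 48294), (6, 367399), (4, 209203), (0, 470868)]⟩, ⟨658212, [(8, 59442), (6, 1127293), (4, 965617), (0, 1018860)]⟩, ⟨658212, [(8, 5574), (6, 270245), (4, 268505), (0, 273996)]⟩])))) .nil))
def s9_16_t1 : Tree := .ddet 0 [] (.ndet 1 [⟨1048458, [(9, 27576), (7, 1850999), (5, 1842923), (0, 801240)]⟩] (.ddet 0 [] (.ndet 0 [⟨2096916, [(9, 35934), (7, 2436617), (5, 2425637), (0, 1986696)]⟩] (.ddet 0 [] (.ndet 1 [⟨2096916, [(9, 8358), (7, 410875), (5, 407971), (0, 3282372)]⟩] (.ddet 0 [] (.ndet 1 [⟨524229, [(9, 16503), (7,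 1139126), (5, 1134521), (0, 8202)]⟩] (.ddet 0 [] (.leaf 0 [⟨349486, [(9, 20194), (7, 1376417), (5, 1370655), (0, 272548)]⟩, ⟨219404, [(9, 190), (7, 100453), (5, 99449), (1, 1745420)]⟩, ⟨2096916, [(9, 8358), (7, 410875), (5, 407971), (0, 3282372)]⟩, ⟨109702, [(9, 7292), (7, 268025), (5, 260671), (1, 242376)]⟩, ⟨698972, [(7, 1702939), (5, 1719211), (3, 61274), (0, 976900)]⟩, ⟨698972, [(7, 4769947), (5, 4773939), (3, 17266), (0, 998772)]⟩, ⟨164553, [(9, 23931), (7, 272449), (5, 265510), (1, 716271)]⟩, ⟨164553, [(9, 34311), (7, 988318), (5, 978493), (1, 699867)]⟩, ⟨1048458, [(7, 1886603), (5, 1937765), (3, 6444), (0, 759936)]⟩, ⟨61674,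 [(9, 3504), (7, 379259), (5, 381185), (0, 46632)]⟩, ⟨1048458, [(9, 33006), (7, 2103509), (5, 2094299), (0, 16404)]⟩])))))))))
def s9_16_t2 : Tree := .ndet 1 [⟨164553, [(9, 384), (7, 49438), (5, 49141), (1, 392418)]⟩] (.ddet 0 [] (.ndet 0 [⟨219404, [(9, 1858), (7, 126649), (5, 126069), (1, 128072)]⟩] (.ddet 0 [] (.ndet 1 [⟨2096916, [(9, 35934), (7, 2436617), (5, 2425637), (0, 1986696)]⟩] (.ddet 0 [] (.ndet 0 [⟨2096916, [(9, 8358), (7, 410875), (5, 407971), (0, 3282372)]⟩] (.ddet 0 [] (.ndet 0 [⟨164553, [(9, 384), (7, 49438), (5, 49141), (1, 392418)]⟩] s9_16_t1))))))))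
def s9_16_t3 : Tree := .ddet 0 [] (.ndet 1 [⟨219404, [(8, 1858), (6, 126649), (4, 126069), (0, 128072)]⟩] (.ddet 0 [] (.split [3, -3, 1] (-13000) (.leaf 0 [⟨2096916, [(9, 35934), (7, 2436617), (5, 2425637), (0, 110220)]⟩, ⟨1, [(0, 1)]⟩, ⟨5276, [(10, 24697), (9, 90), (7, 648), (5, 599)]⟩, ⟨2096916, [(7, 1182889), (5, 1099741), (3, 406230), (0, 1029456)]⟩, ⟨5276, [(10, 14274), (7, 3327), (5, 4589), (3, 326)]⟩, ⟨2096916, [(7, 3956741), (5, 4457549), (3, 106974), (0, 83280)]⟩, ⟨698972, [(9, 61282), (7, 344489), (5, 170657), (0, 484528)]⟩, ⟨2096916, [(9, 222282), (7, 3564229), (5, 3032389), (0, 2222016)]⟩, ⟨5276, [(10, 5438), (9, 1134),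 (7, 2625), (5, 2799)]⟩, ⟨698972, [(9, 161034), (7, 1202605), (5, 1223425), (0, 169136)]⟩, ⟨2096916, [(9, 19218), (7, 915895), (5, 910723), (0, 384216)]⟩]) (.ndet 0 [⟨174743, [(9, 1393), (7, 97603), (5, 97119), (0, 22833)]⟩] (.ddet 0 [] (.ndet 1 [⟨2096916, [(9, 19218), (7, 1265381), (5, 1260209), (0, 1712700)]⟩] (.ddet 0 [] s9_16_t2)))))))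
def s9_16_t4 : Tree := .ndet 0 [⟨1, [(0, 1)]⟩] (.ddet 0 [] (.ndet 1 [⟨21104, [(8, 22833), (7, 232), (5, 11431), (3, 11334)]⟩] (.ddet 0 [] (.split [-1, 1] (9000) (.leaf 0 [⟨54851, [(8, 801), (6, 55987), (4, 55796), (0, 66770)]⟩, ⟨164553, [(8, 384), (6, 49438), (4, 49141), (1, 227865)]⟩, ⟨1, [(0, 1)]⟩, ⟨219404, [(6, 122577), (4, 174149), (2, 12382), (0, 25708)]⟩, ⟨329106, [(8, 176214), (6, 202867), (4, 130855), (0, 442842)]⟩, ⟨164553, [(8, 90894), (6, 291407), (4, 254531), (0, 358419)]⟩, ⟨164553, [(6, 31660), (4, 66796), (2, 85320), (1, 84423)]⟩, ⟨329106, [(6, 446983), (4, 515515), (2, 165066), (0, 105150)]⟩, ⟨658212, [(8, 48294), (6,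 367399), (4, 209203), (0, 470868)]⟩, ⟨658212, [(8, 59442), (6, 1127293), (4, 965617), (0, 1018860)]⟩, ⟨658212, [(8, 5574), (6, 270245), (4, 268505), (0, 273996)]⟩]) (.ndet 0 [⟨63312, [(9, 131811), (8, 696), (6, 23741), (4, 23450)]⟩] (.ddet 0 [] (.ndet 1 [⟨5276, [(9, 24697), (8, 90), (6, 648), (4, 599)]⟩] s9_16_t3)))))))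
def s9_16_t5 : Tree := .nbr (.cons (.ddet 0 [] (.ndet 0 [⟨202482, [(9, 126624), (7, 768), (5, 22921), (3, 22327)]⟩] (.ddet 0 [] (.ndet 1 [⟨219404, [(7, 1346), (5, 97299), (3, 97115), (0, 175748)]⟩] (.ddet 0 [] (.ndet 0 [⟨658212, [(7, 4038), (5, 182195), (3, 181643), (0, 527244)]⟩] (.ddet 0 [] s9_16_t0))))))) (.cons (.ddet 0 [] (.ndet 0 [⟨109702, [(7, 256), (5, 14675), (3, 14477), (0, 42208)]⟩] (.ddet 0 [] (.ndet 1 [⟨63312, [(8, 131811), (7, 696), (5, 23741), (3, 23450)]⟩] (.ddet 0 [] (.ndet 0 [⟨5276, [(8, 24697), (7, 90), (5, 648), (3, 599)]⟩] (.ddet 0 [] s9_16_t4))))))) .nil))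
def s9_16_t6 : Tree := .ddet 0 [] (.ndet 1 [⟨21104, [(7, 33747), (6, 128), (4, 1713), (2, 1614)]⟩] (.ddet 0 [] (.ndet 1 [⟨202482, [(8, 126624), (6, 768), (4, 22921), (2, 22327)]⟩] (.ddet 0 [] (.ndet 0 [⟨6, [(4, 1), (2, 1)]⟩] (.ddet 0 [] (.ndet 1 [⟨63312, [(7, 131811), (6, 696), (4, 13189), (2, 12898)]⟩] (.ddet 0 [] s9_16_t5))))))))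
def s9_16_n0 : Node := ⟨[⟨[0, 0, -1, 1], -200⟩, ⟨[0, -1, 0, 1], -200⟩, ⟨[-1, 0, 0, 1], -200⟩, ⟨[102, 4, -198, -255], 23168967⟩, ⟨[209, 208, 256, -111], 19894654⟩, ⟨[209, 208, 256, -109], 59773597⟩, ⟨[-209, -208, -256, 113], 19830688⟩, ⟨[-209, -208, -256, 115], 59709631⟩, ⟨[-102, -4, 198, 257], 16556376⟩, ⟨[-102, -4, 198, 259], 56434719⟩], [0, 0, 0, 1], 0, none, (.ndet 0 [⟨31656, [(7, 15285), (6, 156), (4, 4025), (2, 4028)]⟩] s9_16_t6)⟩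
def s9_16 : Sys := ⟨[(0, 2000), (3, -2000)], [(4, 3000)], 4, [s9_16_n0], [41139482, 40630974, -44173482, 51169395], (.leaf 0 [⟨1, []⟩, ⟨1, []⟩, ⟨1, []⟩, ⟨1, []⟩, ⟨1, []⟩, ⟨1, []⟩, ⟨1, []⟩, ⟨1, []⟩, ⟨1, []⟩, ⟨1, []⟩])⟩

theorem s9_16_ok : s9_16.ok = true := by decide +kernel

def s10_7_n0 : Node := ⟨[⟨[-1, 0, 1], 224⟩, ⟨[0, 1], -96⟩, ⟨[-1, 1], 128⟩, ⟨[0, -2, 1], 224⟩, ⟨[0, -1, 1], 96⟩, ⟨[-1, -1, 1], 352⟩, ⟨[-1], 288⟩, ⟨[0, -1, 1], 64⟩, ⟨[0, -1], 32⟩], [0, 0, 1], 0, none, (.ndet 1 [⟨1, [(7, 2), (5, 1), (2, 1)]⟩] (.ddet 2 [⟨1, [(7, 1)]⟩, ⟨1, [(7, 1), (2, 1)]⟩] (.ndet 0 [⟨1, [(5, 1)]⟩] (.ddet 1 [⟨1, [(7, 1), (5, 1)]⟩, ⟨1, [(7, 1), (5, 1),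 (2, 1)]⟩] (.ndet 0 [⟨1, [(2, 1)]⟩] (.ddet 2 [⟨1, [(7, 1), (5, 1)]⟩, ⟨1, [(7, 1), (5, 1)]⟩] (.leaf 0 [⟨1, [(7, 2), (5, 2)]⟩, ⟨1, []⟩, ⟨1, [(7, 1), (5, 1)]⟩, ⟨1, [(7, 1), (5, 1)]⟩, ⟨1, [(7, 1), (5, 1)]⟩, ⟨1, [(7, 2), (5, 2)]⟩, ⟨1, [(7, 1), (5, 1)]⟩, ⟨1, [(7, 1), (5, 1)]⟩, ⟨1, []⟩, ⟨1, [(0, 1)]⟩])))))))⟩
def s10_7 : Sys := ⟨[(1, -64), (3, 64)], [(0, -64), (1, 0), (2, 64)], 3, [s10_7_n0], [-384, -64, 192, 0], (.leaf 0 [⟨1, []⟩, ⟨1, []⟩, ⟨1, []⟩, ⟨1, []⟩, ⟨1, []⟩, ⟨1, []⟩, ⟨1, []⟩, ⟨1, []⟩, ⟨1, []⟩])⟩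

theorem s10_7_ok : s10_7.ok = true := by decide +kernel

def s11_22_n0 : Node := ⟨[⟨[1], 32⟩, ⟨[1, 0, -1], 40⟩, ⟨[1, -1], 48⟩, ⟨[1, 0, 0, -1], 24⟩, ⟨[0, -1], 40⟩, ⟨[1, 0, -1], 32⟩, ⟨[1], 16⟩, ⟨[2], 48⟩, ⟨[1], 48⟩], [1], 0, none, (.ndet 1 [⟨1, [(0, 1)]⟩, ⟨1, [(7, 1)]⟩] (.ddet 0 [⟨1, [(4, 1), (0, 1)]⟩, ⟨1, [(5, 1)]⟩] (.ndet 0 [⟨1, []⟩, ⟨1, [(4, 1)]⟩] (.ddet 1 [⟨1, [(0, 1)]⟩, ⟨1, [(7, 1)]⟩] (.ndet 2 [⟨1, [(0, 1)]⟩, ⟨1, [(0, 2)]⟩] (.ddet 1 [⟨1, [(0, 1)]⟩, ⟨1, [(4, 1)]⟩] (.leaf 0 [⟨1, [(0, 1)]⟩, ⟨1, [(0, 1)]⟩, ⟨1, [(0, 2)]⟩, ⟨1, []⟩, ⟨1, [(0, 1)]⟩, ⟨1, [(0, 1)]⟩, ⟨1, [(0, 1)]⟩, ⟨1, [(0, 2)]⟩, ⟨1, [(0, 1)]⟩, ⟨1, []⟩])))))))⟩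
def s11_22 : Sys := ⟨[(0, -16), (1, -16), (3, 16)], [(1, 0), (2, -16), (4, 0)], 4, [s11_22_n0], [64, -48, 16, 16], (.leaf 0 [⟨1, []⟩, ⟨1, []⟩, ⟨1, []⟩, ⟨1, []⟩, ⟨1, []⟩, ⟨1, []⟩, ⟨1, []⟩, ⟨1, []⟩, ⟨1, []⟩])⟩

theorem s11_22_ok : s11_22.ok = true := by decide +kernel

def s12_8_n0 : Node := ⟨[⟨[0, -1, 1], 104⟩, ⟨[1, -1], 88⟩, ⟨[0, -1], -48⟩, ⟨[1], 152⟩], [1], 0, none, (.ndet 1 [⟨1, [(3, 1)]⟩] (.ddet 0 [] (.ndet 0 [⟨1, [(1, 1), (0, 1)]⟩] (.ddet 0 [] (.leaf 0 [⟨1, [(0, 1)]⟩, ⟨1, [(1, 1), (0, 1)]⟩, ⟨1, []⟩, ⟨1, [(1, 1), (0, 1)]⟩, ⟨1, [(1, 1)]⟩])))))⟩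
def s12_8 : Sys := ⟨[(2, 32), (3, 0)], [(3, -32)], 3, [s12_8_n0], [240, 32, 208, 0], (.leaf 0 [⟨1, []⟩, ⟨1, []⟩, ⟨1, []⟩, ⟨1, []⟩])⟩

theorem s12_8_ok : s12_8.ok = true := by decide +kernel

def s14_7_n0 : Node := ⟨[⟨[1, -1], 48⟩, ⟨[1, 0, -1], 80⟩, ⟨[1], 72⟩, ⟨[1, -1], 32⟩, ⟨[1], 32⟩, ⟨[1], 48⟩], [1], 0, none, (.ndet 0 [⟨1, [(5, 1)]⟩, ⟨1, [(4, 1)]⟩] (.ddet 1 [⟨1, [(3, 1)]⟩, ⟨1, [(5, 1)]⟩] (.ndet 1 [⟨1, [(3, 1)]⟩, ⟨1, [(5, 1)]⟩] (.ddet 2 [⟨1, [(3, 1)]⟩, ⟨1, [(3, 1)]⟩] (.ndet 2 [⟨1, [(3, 1)]⟩, ⟨1, [(3, 1)]⟩] (.ddet 0 [⟨1, []⟩, ⟨1, []⟩] (.leaf 0 [⟨1, [(3, 1)]⟩, ⟨1, [(3, 1)]⟩, ⟨1, [(3, 1)]⟩, ⟨1, [(3, 1)]⟩, ⟨1, [(3, 1)]⟩, ⟨1, [(3, 1)]⟩,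 ⟨1, []⟩])))))))⟩
def s14_7 : Sys := ⟨[(1, -32), (2, 0), (3, 32)], [(0, 16), (1, -32), (2, -32)], 3, [s14_7_n0], [96, 32, 0, 0], (.leaf 0 [⟨1, []⟩, ⟨1, []⟩, ⟨1, []⟩, ⟨1, []⟩, ⟨1, []⟩, ⟨1, []⟩])⟩

theorem s14_7_ok : s14_7.ok = true := by decide +kernel

def s14_10_n0 : Node := ⟨[⟨[-1, 1], 24⟩, ⟨[0, 1, -1], 0⟩, ⟨[1, 0, -1], -208⟩, ⟨[-2, 1], 456⟩, ⟨[-1], 184⟩, ⟨[-1], 0⟩, ⟨[-1], 128⟩], [0, 1], 0, none, (.ndet 1 [⟨1, [(6, 1)]⟩, ⟨1, [(5, 1)]⟩] (.ddet 0 [⟨1, [(4, 1)]⟩] (.ndet 0 [⟨1, [(3, 1)]⟩, ⟨1, [(2, 1)]⟩] (.ddet 0 [⟨1, [(2, 1)]⟩] (.leaf 0 [⟨1, [(6, 1)]⟩, ⟨1, [(3, 1)]⟩, ⟨1, [(2, 1)]⟩, ⟨1, [(6, 1)]⟩, ⟨1, []⟩, ⟨1, []⟩, ⟨1, []⟩, ⟨1, [(2, 1)]⟩])))))⟩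
def s14_10 : Sys := ⟨[(1, -176), (2, 128), (3, -64)], [(1, 160), (3, -96)], 3, [s14_10_n0], [-224, 128, -64, 0], (.leaf 0 [⟨1, []⟩, ⟨1, []⟩, ⟨1, []⟩, ⟨1, []⟩, ⟨1, []⟩, ⟨1, []⟩, ⟨1, []⟩])⟩

theorem s14_10_ok : s14_10.ok = true := by decide +kernel

def s16_3_n0 : Node := ⟨[⟨[1], 36⟩, ⟨[1, 0, 0, -1], 28⟩, ⟨[0, 0, 1], 24⟩, ⟨[0, -1, 1], 24⟩], [1, 0, 1], 0, none, (.ndet 0 [] (.ddet 1 [⟨1, [(3, 1)]⟩] (.ndet 0 [] (.ddet 0 [⟨1, [(2, 1)]⟩] (.leaf 0 [⟨1, [(1, 1)]⟩, ⟨1, [(0, 1)]⟩, ⟨1, [(3, 1)]⟩, ⟨1, [(3, 1), (2, 1)]⟩, ⟨1, []⟩])))))⟩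
def s16_3 : Sys := ⟨[(4, 16)], [(0, 0), (1, -16)], 4, [s16_3_n0], [48, -16, 64, 16], (.leaf 0 [⟨1, []⟩, ⟨1, []⟩, ⟨1, []⟩, ⟨1, []⟩])⟩

theorem s16_3_ok : s16_3.ok = true := by decide +kernel

def s19_4_t0 : Tree := .ddet 0 [] (.ndet 1 [⟨1, [(8, 3), (2, 2)]⟩, ⟨1, [(8, 2), (2, 2)]⟩] (.ddet 0 [] (.ndet 1 [⟨1, [(8, 3), (2, 1)]⟩, ⟨1, [(8, 4), (2, 2)]⟩] (.ddet 0 [] (.ndet 2 [⟨1, [(2, 1)]⟩, ⟨1, [(2, 2)]⟩] (.ddet 0 [] (.ndet 2 [⟨1, [(8, 3), (2, 2)]⟩, ⟨1, [(8, 6), (2, 2)]⟩] (.ddet 0 [] (.leaf 0 [⟨1, [(8, 3), (2, 3)]⟩, ⟨1, [(2, 2)]⟩, ⟨1, [(8, 6), (2, 3)]⟩, ⟨1, [(8, 6), (2, 4)]⟩, ⟨1, [(8, 3)]⟩, ⟨1, [(8, 6)]⟩, ⟨1, [(8, 6), (2, 6)]⟩, ⟨1, [(8, 9),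 (2, 6)]⟩, ⟨1, [(8, 9), (2, 3)]⟩, ⟨1, [(8, 12), (2, 6)]⟩, ⟨1, [(2, 3)]⟩, ⟨1, [(2, 6)]⟩, ⟨1, [(8, 18), (2, 6)]⟩, ⟨1, [(8, 2), (2, 2)]⟩])))))))))
def s19_4_t1 : Tree := .ndet 1 [⟨1, [(8, 1), (2, 1)]⟩, ⟨1, [(11, 1)]⟩] (.ddet 0 [] (.ndet 1 [⟨1, [(8, 2), (2, 1)]⟩, ⟨1, [(9, 1)]⟩] (.ddet 0 [] (.ndet 1 [⟨1, [(8, 1)]⟩, ⟨1, [(8, 2)]⟩] (.ddet 0 [] (.ndet 2 [⟨1, [(8, 1), (2, 1)]⟩, ⟨1, [(8, 2), (2, 2)]⟩] (.ddet 0 [] (.ndet 2 [⟨1, [(8, 2), (2, 1)]⟩, ⟨1, [(8, 2)]⟩] s19_4_t0))))))))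
def s19_4_n0 : Node := ⟨[⟨[1], 232⟩, ⟨[1, 0, 0, -1], 64⟩, ⟨[1, -1], 312⟩, ⟨[1, -1, -1], 528⟩, ⟨[0, -1], 96⟩, ⟨[0, -2], 160⟩, ⟨[2], 432⟩, ⟨[2, -1], 528⟩, ⟨[1, -2], 392⟩, ⟨[2, -2], 592⟩, ⟨[1, 1], 152⟩, ⟨[2, 2], 272⟩, ⟨[2, -4], 752⟩], [1], 0, none, s19_4_t1⟩
def s19_4 : Sys := ⟨[(0, 48), (1, 32), (4, 32)], [(2, 48)], 4, [s19_4_n0], [448, -144, -448, 320], (.leaf 0 [⟨1, []⟩, ⟨1, []⟩, ⟨1, []⟩, ⟨1, []⟩, ⟨1, []⟩, ⟨1, []⟩, ⟨1, []⟩, ⟨1, []⟩, ⟨1, []⟩, ⟨1, []⟩, ⟨1, []⟩, ⟨1, []⟩, ⟨1, []⟩])⟩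

theorem s19_4_ok : s19_4.ok = true := by decide +kernel

def s21_2_n0 : Node := ⟨[⟨[0, 1], 40⟩, ⟨[0, 1, 0, -1], 16⟩, ⟨[-1], 32⟩, ⟨[0, 0, -1], 8⟩, ⟨[-1], 24⟩], [0, 1], 0, none, (.ndet 1 [⟨1, [(4, 1)]⟩, ⟨1, [(3, 1)]⟩] (.ddet 0 [] (.ndet 0 [⟨1, [(2, 1)]⟩, ⟨1, [(1, 1)]⟩] (.ddet 0 [] (.leaf 0 [⟨1, [(4, 1), (2, 1)]⟩, ⟨1, [(2, 1)]⟩, ⟨1, [(4, 1), (2, 1)]⟩, ⟨1, [(2, 1)]⟩, ⟨1, [(4, 1), (2, 1)]⟩, ⟨1, [(2, 1)]⟩])))))⟩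
def s21_2 : Sys := ⟨[(0, 0), (2, 0), (4, 0)], [(1, -16)], 4, [s21_2_n0], [-64, 80, -16, 48], (.leaf 0 [⟨1, []⟩, ⟨1, []⟩, ⟨1, []⟩, ⟨1, []⟩, ⟨1, []⟩])⟩

theorem s21_2_ok : s21_2.ok = true := by decide +kernel

def s22_6_n0 : Node := ⟨[⟨[1, -1], 240⟩, ⟨[1, 0, 0, -1], 208⟩, ⟨[1, -1], 280⟩, ⟨[1], 248⟩, ⟨[1, 0, -1], 256⟩, ⟨[1], 208⟩, ⟨[0, -1], 16⟩, ⟨[1], 200⟩, ⟨[1], 192⟩], [1], 0, none, (.ndet 0 [⟨1, [(6, 1)]⟩, ⟨1, [(7, 1)]⟩] (.ddet 0 [⟨1, [(6, 1)]⟩] (.ndet 1 [⟨1, [(5, 1)]⟩, ⟨1, [(4, 1)]⟩] (.ddet 1 [⟨1, [(5, 1)]⟩] (.ndet 1 [⟨1, []⟩, ⟨1, [(2, 1)]⟩] (.ddet 1 [⟨1, []⟩] (.ndet 2 [⟨1, [(5, 1)]⟩, ⟨1, [(5, 1)]⟩] (.ddet 1 [⟨1, []⟩] (.leaf 0 [⟨1,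 [(5, 1)]⟩, ⟨1, [(5, 1)]⟩, ⟨1, [(5, 1)]⟩, ⟨1, [(5, 1)]⟩, ⟨1, [(5, 1)]⟩, ⟨1, [(5, 1)]⟩, ⟨1, []⟩, ⟨1, [(5, 1)]⟩, ⟨1, [(5, 1)]⟩, ⟨1, []⟩])))))))))⟩
def s22_6 : Sys := ⟨[(1, 0), (2, -16), (4, 0)], [(1, -32), (2, 32)], 4, [s22_6_n0], [448, -48, -48, 32], (.leaf 0 [⟨1, []⟩, ⟨1, []⟩, ⟨1, []⟩, ⟨1, []⟩, ⟨1, []⟩, ⟨1, []⟩, ⟨1, []⟩, ⟨1, []⟩, ⟨1, []⟩])⟩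

theorem s22_6_ok : s22_6.ok = true := by decide +kernel

def s24_5_t0 : Tree := .nbr (.cons (.ddet 1 [⟨1, [(4, 1)]⟩] (.ndet 0 [⟨1, [(4, 1), (1, 1)]⟩] (.ddet 0 [⟨1, [(1, 1), (0, 1)]⟩] (.ndet 1 [⟨1, [(4, 1), (1, 1), (0, 1)]⟩] (.ddet 0 [⟨1, [(4, 1), (1, 1)]⟩] (.leaf 0 [⟨1, [(4, 1), (1, 1), (0, 1)]⟩, ⟨1, [(4, 2), (1, 1)]⟩, ⟨1, []⟩, ⟨1, [(4, 2), (1, 2), (0, 1)]⟩, ⟨1, [(1, 1), (0, 1)]⟩, ⟨1, [(4, 2), (1, 1), (0, 1)]⟩, ⟨1, [(4, 1), (1, 1)]⟩, ⟨1, [(4, 1), (1, 1)]⟩, ⟨1, [(4, 3), (1, 1)]⟩, ⟨1, [(4, 1)]⟩, ⟨1, [(4, 1)]⟩, ⟨1, []⟩])))))) (.cons (.ddet 1 [⟨1, [(4, 1)]⟩] (.ndet 0 [⟨1, [(4, 1), (1, 1)]⟩] (.ddet 0 [⟨1, [(6, 1)]⟩] (.ndet 1 [⟨1, [(6, 1),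 (4, 1)]⟩] (.ddet 0 [⟨1, [(6, 1), (4, 1)]⟩] (.leaf 0 [⟨1, [(6, 1), (4, 1)]⟩, ⟨1, [(6, 1), (4, 2)]⟩, ⟨1, []⟩, ⟨1, [(6, 2), (4, 2)]⟩, ⟨1, [(6, 1)]⟩, ⟨1, [(6, 1), (4, 2)]⟩, ⟨1, [(6, 1), (4, 1)]⟩, ⟨1, [(6, 1), (4, 1)]⟩, ⟨1, [(6, 1), (4, 3)]⟩, ⟨1, [(4, 1)]⟩, ⟨1, [(4, 1)]⟩, ⟨1, []⟩])))))) .nil))
def s24_5_t1 : Tree := .nbr (.cons (.ddet 0 [⟨1, [(1, 1)]⟩] (.ndet 1 [⟨1, [(5, 1), (1, 1)]⟩] (.ddet 0 [⟨1, [(0, 1)]⟩] (.leaf 0 [⟨1, [(5, 1), (1, 1)]⟩, ⟨1, [(5, 1), (0, 1)]⟩, ⟨1, []⟩, ⟨1, [(7, 1), (5, 2)]⟩, ⟨1, [(1, 1)]⟩, ⟨1, [(5, 2), (1, 1)]⟩, ⟨1, [(0, 1)]⟩, ⟨1, [(0, 1)]⟩, ⟨1, [(5, 2), (0, 1)]⟩, ⟨1, [(5, 1)]⟩, ⟨1, [(5, 1)]⟩, ⟨1, []⟩])))) (.cons (.ddet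 0 [⟨1, [(7, 1), (5, 1), (0, 1)]⟩] (.ndet 1 [⟨1, [(7, 1), (5, 2), (0, 1)]⟩] (.ddet 0 [⟨1, [(12, 1)]⟩] (.split [1, -1] (0) (.leaf 0 [⟨1, [(8, 1), (6, 2), (1, 1)]⟩, ⟨1, [(6, 1), (0, 1)]⟩, ⟨1, [(0, 1)]⟩, ⟨1, [(8, 1), (6, 2)]⟩, ⟨1, [(8, 1), (6, 1)]⟩, ⟨1, [(8, 1), (6, 3), (1, 2)]⟩, ⟨1, [(0, 2)]⟩, ⟨1, [(0, 1)]⟩, ⟨1, [(6, 2)]⟩, ⟨1, [(6, 1)]⟩, ⟨1, [(6, 1), (1, 1)]⟩, ⟨1, []⟩]) (.leaf 1 [⟨1, [(9, 1), (6, 2), (0, 3)]⟩, ⟨1, [(6, 1)]⟩, ⟨1, [(0, 1)]⟩, ⟨1, [(9, 1), (0, 1)]⟩, ⟨1, [(9, 1), (6, 2), (0, 2)]⟩, ⟨1, [(9, 1), (6, 1), (0, 2)]⟩, ⟨1, [(9, 1), (6, 1), (0, 3)]⟩, ⟨1, [(9, 1), (6, 3), (0, 3)]⟩, ⟨1, [(9, 1), (6, 1), (0, 3)]⟩, ⟨1, [(9, 1), (6, 2),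 (0, 3)]⟩, ⟨1, [(9, 1), (6, 3), (0, 4)]⟩, ⟨1, []⟩, ⟨1, [(6, 1), (0, 1)]⟩, ⟨1, [(0, 1)]⟩, ⟨1, [(6, 1), (0, 2)]⟩, ⟨1, [(0, 1)]⟩]))))) .nil))
def s24_5_t2 : Tree := .dbr (.cons s24_5_t0 (.cons (.nbr (.cons (.ddet 1 [⟨1, [(4, 1)]⟩] s24_5_t1) (.cons (.ddet 1 [⟨1, [(4, 1)]⟩] (.ndet 0 [⟨1, [(6, 1), (4, 1), (0, 1)]⟩] (.ddet 0 [⟨1, [(6, 1), (1, 1)]⟩] (.ndet 1 [⟨1, [(6, 1), (4, 1), (1, 1)]⟩] (.ddet 0 [⟨1, [(6, 1), (4, 1)]⟩] (.leaf 0 [⟨1, [(6, 1), (4, 1), (1, 1)]⟩, ⟨1, [(6, 1), (4, 2)]⟩, ⟨1, []⟩, ⟨1, [(6, 2), (4, 2), (1, 1)]⟩, ⟨1, [(6, 1), (1, 1)]⟩, ⟨1, [(6, 1), (4, 2), (1, 1)]⟩, ⟨1, [(6, 1), (4, 1)]⟩, ⟨1, [(6, 1), (4, 1)]⟩, ⟨1, [(6, 1), (4, 3)]⟩,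 ⟨1, [(4, 1)]⟩, ⟨1, [(4, 1)]⟩, ⟨1, []⟩])))))) .nil))) .nil))
def s24_5_t3 : Tree := .ndet 0 [⟨1, [(4, 1), (1, 1)]⟩] (.dbr (.cons (.ndet 1 [⟨1, [(5, 1), (0, 1)]⟩] (.ddet 0 [⟨1, [(5, 1), (2, 1)]⟩] (.leaf 0 [⟨1, [(5, 1), (0, 1)]⟩, ⟨1, [(5, 2), (2, 1)]⟩, ⟨1, []⟩, ⟨1, [(5, 2), (2, 1), (0, 1)]⟩, ⟨1, [(0, 1)]⟩, ⟨1, [(5, 2), (0, 1)]⟩, ⟨1, [(5, 1), (2, 1)]⟩, ⟨1, [(5, 1), (2, 1)]⟩, ⟨1, [(5, 3), (2, 1)]⟩, ⟨1, [(5, 1)]⟩, ⟨1, [(5, 1)]⟩, ⟨1, []⟩]))) (.cons (.ndet 1 [⟨1, [(14, 1)]⟩] (.ddet 0 [⟨1, [(5, 1), (2, 1)]⟩] (.split [1, 0, 0, -1] (0) (.leaf 0 [⟨1, [(0, 1)]⟩, ⟨1, [(6, 2), (3, 1)]⟩, ⟨1, [(1, 1)]⟩, ⟨1, [(11, 1), (6, 1)]⟩, ⟨1, []⟩, ⟨1, [(0, 2)]⟩,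 ⟨1, [(6, 1), (3, 1), (1, 1)]⟩, ⟨1, [(6, 1), (3, 1)]⟩, ⟨1, [(11, 1), (6, 2)]⟩, ⟨1, [(6, 1)]⟩, ⟨1, [(0, 1)]⟩, ⟨1, []⟩]) (.leaf 3 [⟨1, [(11, 1), (6, 2), (0, 2)]⟩, ⟨1, [(6, 1), (0, 2)]⟩, ⟨1, [(0, 1)]⟩, ⟨1, []⟩, ⟨1, [(11, 1), (6, 1), (0, 2)]⟩, ⟨1, [(0, 1)]⟩, ⟨1, [(6, 1)]⟩, ⟨1, [(11, 1), (6, 1), (0, 2)]⟩, ⟨1, [(0, 2)]⟩, ⟨1, [(6, 1), (0, 1)]⟩, ⟨1, [(6, 2), (0, 1)]⟩, ⟨1, [(6, 1)]⟩, ⟨1, [(6, 2)]⟩, ⟨1, [(0, 1)]⟩])))) .nil)))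
def s24_5_t4 : Tree := .nbr (.cons (.ddet 1 [⟨1, [(4, 1)]⟩] s24_5_t3) (.cons (.ddet 1 [⟨1, [(4, 1)]⟩] (.ndet 0 [⟨1, [(4, 1), (1, 1)]⟩] (.dbr (.cons (.ndet 1 [⟨1, [(5, 1), (0, 1)]⟩] (.ddet 0 [⟨1, [(7, 1), (5, 1)]⟩] (.leaf 0 [⟨1, [(5, 1), (0, 1)]⟩, ⟨1, [(7, 1), (5, 2)]⟩, ⟨1, []⟩, ⟨1, [(7, 1), (5, 2), (0, 1)]⟩, ⟨1, [(0, 1)]⟩, ⟨1, [(5, 2), (0, 1)]⟩, ⟨1, [(7, 1), (5, 1)]⟩, ⟨1, [(7, 1), (5, 1)]⟩, ⟨1, [(7, 1), (5, 3)]⟩, ⟨1, [(5, 1)]⟩, ⟨1, [(5, 1)]⟩, ⟨1, []⟩]))) (.cons (.ndet 1 [⟨1, [(11, 1), (4, 1), (1, 1)]⟩] (.ddet 0 [⟨1, [(7, 1), (5, 1)]⟩] (.leaf 0 [⟨1, [(11, 1), (4, 1), (1, 1)]⟩, ⟨1, [(7, 1), (5, 2)]⟩, ⟨1, [(0, 1)]⟩, ⟨1, [(11, 1), (5, 1)]⟩,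 ⟨1, []⟩, ⟨1, [(11, 2), (4, 2), (1, 2)]⟩, ⟨1, [(7, 1), (5, 1), (0, 1)]⟩, ⟨1, [(7, 1), (5, 1)]⟩, ⟨1, [(11, 1), (5, 2)]⟩, ⟨1, [(5, 1)]⟩, ⟨1, [(11, 1), (4, 1), (1, 1)]⟩, ⟨1, []⟩]))) .nil))))) .nil))
def s24_5_t5 : Tree := .nbr (.cons (.dbr (.cons (.ndet 1 [⟨1, [(6, 1), (0, 1)]⟩] (.ddet 0 [⟨1, [(1, 1)]⟩] (.leaf 0 [⟨1, [(6, 1), (0, 1)]⟩, ⟨1, [(6, 1), (1, 1)]⟩, ⟨1, []⟩, ⟨2, [(11, 1), (6, 3), (0, 1)]⟩, ⟨1, [(0, 1)]⟩, ⟨1, [(6, 2), (0, 1)]⟩, ⟨1, [(1, 1)]⟩, ⟨1, [(1, 1)]⟩, ⟨1, [(6, 2), (1, 1)]⟩, ⟨1, [(6, 1)]⟩, ⟨1, [(6, 1)]⟩, ⟨1, []⟩]))) (.cons (.ndet 1 [⟨1, [(11, 1), (3, 2)]⟩] (.ddet 0 [⟨2, [(11, 1), (6, 1), (0, 1)]⟩] (.leaf 0 [⟨1, [(11, 1), (3,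 2)]⟩, ⟨2, [(11, 1), (6, 3), (0, 1)]⟩, ⟨1, [(0, 1)]⟩, ⟨1, [(11, 1), (6, 1), (3, 1)]⟩, ⟨1, []⟩, ⟨1, [(11, 2), (3, 4)]⟩, ⟨2, [(11, 1), (6, 1), (0, 3)]⟩, ⟨2, [(11, 1), (6, 1), (0, 1)]⟩, ⟨1, [(11, 1), (6, 2), (3, 1)]⟩, ⟨1, [(6, 1)]⟩, ⟨1, [(11, 1), (3, 2)]⟩, ⟨1, []⟩]))) .nil))) (.cons (.ddet 0 [⟨1, [(10, 1), (5, 1), (0, 2)]⟩] (.ndet 1 [⟨1, [(10, 1), (5, 2), (0, 2)]⟩] (.ddet 0 [⟨1, [(12, 1)]⟩] (.split [1, -1] (0) (.leaf 0 [⟨1, [(11, 1), (6, 2), (1, 2)]⟩, ⟨1, [(6, 1), (0, 1)]⟩, ⟨1, [(0, 1)]⟩, ⟨1, [(11, 1), (6, 2), (1, 1)]⟩, ⟨1, [(11, 1), (6, 1), (1, 1)]⟩, ⟨1, [(11, 1), (6, 3), (1, 3)]⟩, ⟨1, [(0, 2)]⟩, ⟨1, [(0, 1)]⟩, ⟨1, [(6, 2)]⟩, ⟨1, [(6,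 1)]⟩, ⟨1, [(6, 1), (1, 1)]⟩, ⟨1, []⟩]) (.leaf 1 [⟨1, [(11, 1), (6, 2), (0, 3)]⟩, ⟨1, [(6, 1)]⟩, ⟨1, [(0, 1)]⟩, ⟨1, [(11, 1), (0, 1)]⟩, ⟨1, [(11, 1), (6, 2), (0, 2)]⟩, ⟨1, [(11, 1), (6, 1), (0, 2)]⟩, ⟨1, [(11, 1), (6, 1), (0, 3)]⟩, ⟨1, [(11, 1), (6, 3), (0, 3)]⟩, ⟨1, [(11, 1), (6, 1), (0, 3)]⟩, ⟨1, [(11, 1), (6, 2), (0, 3)]⟩, ⟨1, [(11, 1), (6, 3), (0, 4)]⟩, ⟨1, []⟩, ⟨1, [(6, 1), (0, 1)]⟩, ⟨1, [(0, 1)]⟩, ⟨1, [(6, 1), (0, 2)]⟩, ⟨1, [(0, 1)]⟩]))))) .nil))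
def s24_5_t6 : Tree := .nbr (.cons (.ddet 1 [⟨1, [(4, 1)]⟩] s24_5_t5) (.cons (.ddet 1 [⟨1, [(4, 1)]⟩] (.ndet 0 [⟨1, [(6, 1), (4, 1), (0, 1)]⟩] (.dbr (.cons (.ndet 1 [⟨1, [(5, 1), (0, 1)]⟩] (.ddet 0 [⟨1, [(7, 1), (5, 1)]⟩] (.leaf 0 [⟨1, [(5, 1), (0, 1)]⟩, ⟨1, [(7, 1), (5, 2)]⟩, ⟨1, []⟩, ⟨1, [(7, 1), (5, 2), (0, 1)]⟩, ⟨1, [(0, 1)]⟩, ⟨1, [(5, 2), (0, 1)]⟩, ⟨1, [(7, 1), (5, 1)]⟩, ⟨1, [(7, 1), (5, 1)]⟩, ⟨1, [(7, 1), (5, 3)]⟩, ⟨1, [(5, 1)]⟩, ⟨1, [(5, 1)]⟩, ⟨1, []⟩]))) (.cons (.ndet 1 [⟨1, [(11, 1), (2, 2), (1, 1)]⟩] (.ddet 0 [⟨1, [(7, 1), (5, 1)]⟩] (.leaf 0 [⟨1, [(11, 1), (2, 2), (1, 1)]⟩, ⟨1, [(7, 1), (5, 2)]⟩, ⟨1, [(0, 1)]⟩, ⟨1, [(11, 1),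 (5, 1), (2, 1)]⟩, ⟨1, []⟩, ⟨1, [(11, 2), (2, 4), (1, 2)]⟩, ⟨1, [(7, 1), (5, 1), (0, 1)]⟩, ⟨1, [(7, 1), (5, 1)]⟩, ⟨1, [(11, 1), (5, 2), (2, 1)]⟩, ⟨1, [(5, 1)]⟩, ⟨1, [(11, 1), (2, 2), (1, 1)]⟩, ⟨1, []⟩]))) .nil))))) .nil))
def s24_5_n0 : Node := ⟨[⟨[1, 0, 0, -1], -200⟩, ⟨[1, 0, -1], -200⟩, ⟨[1, -1], -200⟩, ⟨[1, 0, -1, -1], 239000⟩, ⟨[1, -1, 0, -1], 3660⟩, ⟨[1, 1, 0, -1], -4300⟩, ⟨[1, -1, -1], 2692⟩, ⟨[0, 0, -1], 2666⟩, ⟨[1, 1, -1], 239700⟩, ⟨[1], 239700⟩, ⟨[0, 1], -4320⟩], [1], 0, none, (.nbr (.cons s24_5_t2 (.cons (.dbr (.cons s24_5_t4 (.cons s24_5_t6 .nil))) .nil)))⟩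
def s24_5_t7 : Tree := .dbr (.cons (.ndet 1 [⟨1, [(4, 1), (0, 1)]⟩] (.ddet 0 [⟨1, [(1, 1)]⟩] (.nbr (.cons (.ddet 1 [⟨1, [(5, 1)]⟩] (.leaf 1 [⟨1, [(5, 1), (2, 1)]⟩, ⟨1, []⟩, ⟨1, [(5, 2), (2, 1)]⟩, ⟨1, [(2, 2)]⟩, ⟨1, [(2, 1)]⟩, ⟨1, [(2, 1)]⟩, ⟨1, [(5, 2), (2, 2)]⟩, ⟨1, []⟩, ⟨1, [(5, 1), (2, 1)]⟩, ⟨1, []⟩, ⟨1, [(5, 1)]⟩, ⟨1, [(5, 1), (2, 1)]⟩, ⟨1, [(5, 1)]⟩, ⟨1, [(5, 1)]⟩, ⟨1, [(5, 2)]⟩, ⟨1, []⟩])) (.cons (.ddet 1 [⟨1, [(5, 1)]⟩] (.leaf 1 [⟨1, [(5, 1), (2, 1)]⟩, ⟨1, []⟩, ⟨1, [(5, 2), (1, 1)]⟩, ⟨1, [(2, 1), (1, 1)]⟩, ⟨1, [(2, 1)]⟩, ⟨1, [(2, 1)]⟩, ⟨1, [(5, 2), (2, 1), (1, 1)]⟩, ⟨1, [(0, 1)]⟩, ⟨1, [(5, 1), (2, 1)]⟩, ⟨1, [(0, 1)]⟩, ⟨1, [(5,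 1), (0, 1)]⟩, ⟨1, [(5, 1), (1, 1)]⟩, ⟨1, [(5, 1)]⟩, ⟨1, [(5, 1)]⟩, ⟨1, [(5, 2)]⟩, ⟨1, []⟩])) .nil))))) (.cons (.ndet 1 [⟨1, [(14, 1)]⟩] (.ddet 0 [⟨1, [(1, 1)]⟩] (.ndet 1 [⟨1, [(1, 1), (0, 1)]⟩] (.dbr (.cons (.split [1, -1] (0) (.leaf 0 [⟨1, [(7, 1), (6, 2), (0, 2)]⟩, ⟨1, [(6, 1), (0, 2)]⟩, ⟨1, [(0, 1)]⟩, ⟨1, [(7, 1), (6, 2), (0, 3)]⟩, ⟨1, [(7, 1), (6, 1), (0, 2)]⟩, ⟨1, [(7, 1), (6, 3), (0, 2)]⟩, ⟨1, [(0, 2)]⟩, ⟨1, [(0, 1)]⟩, ⟨1, [(6, 2), (0, 2)]⟩, ⟨1, [(6, 1), (0, 1)]⟩, ⟨1, [(6, 1)]⟩, ⟨1, [(0, 1)]⟩]) (.leaf 1 [⟨1, [(7, 1), (6, 2), (1, 1)]⟩, ⟨1, [(6, 1), (1, 1)]⟩, ⟨1, [(0, 1)]⟩, ⟨1, [(7, 1), (1, 1)]⟩, ⟨1, [(7, 1), (6, 2), (1, 2)]⟩, ⟨1,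 [(7, 1), (6, 1), (1, 1)]⟩, ⟨1, [(7, 1), (6, 1)]⟩, ⟨1, [(7, 1), (6, 3), (1, 2)]⟩, ⟨1, [(7, 1), (6, 1)]⟩, ⟨1, [(7, 1), (6, 2), (1, 1)]⟩, ⟨1, [(7, 1), (6, 3), (1, 1)]⟩, ⟨1, []⟩, ⟨1, [(6, 1)]⟩, ⟨1, [(0, 1)]⟩, ⟨1, [(6, 1), (0, 1)]⟩, ⟨1, []⟩])) (.cons (.leaf 1 [⟨1, [(5, 1), (2, 1)]⟩, ⟨1, [(1, 1)]⟩, ⟨1, [(0, 2)]⟩, ⟨1, [(6, 1)]⟩, ⟨1, [(2, 1), (1, 1)]⟩, ⟨1, [(2, 1)]⟩, ⟨1, [(6, 1), (5, 1), (0, 1)]⟩, ⟨1, [(2, 1), (1, 2)]⟩, ⟨1, [(6, 1), (5, 1)]⟩, ⟨1, [(2, 1), (1, 1)]⟩, ⟨1, [(5, 1), (2, 1), (1, 1)]⟩, ⟨1, [(0, 1)]⟩, ⟨1, [(5, 1)]⟩, ⟨1, [(0, 1)]⟩, ⟨1, [(5, 1), (0, 1)]⟩, ⟨1, []⟩]) .nil)))))) .nil))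
def s24_5_t8 : Tree := .ddet 0 [⟨1, [(15, 1)]⟩] (.nbr (.cons (.ddet 1 [⟨1, [(5, 1), (2, 1)]⟩] (.split [0, 1, -1] (0) (.leaf 1 [⟨1, [(6, 1), (0, 1)]⟩, ⟨1, [(0, 1)]⟩, ⟨1, [(6, 2)]⟩, ⟨1, [(0, 2)]⟩, ⟨1, [(0, 2)]⟩, ⟨1, [(0, 1)]⟩, ⟨1, [(6, 2), (0, 1)]⟩, ⟨1, [(0, 1)]⟩, ⟨1, [(6, 1)]⟩, ⟨1, []⟩, ⟨1, [(6, 1)]⟩, ⟨1, [(6, 1), (0, 1)]⟩, ⟨1, [(6, 1)]⟩, ⟨1, [(6, 1), (3, 1)]⟩, ⟨1, [(6, 2), (3, 1)]⟩, ⟨1, []⟩]) (.leaf 2 [⟨1, [(6, 1)]⟩, ⟨1, [(0, 1)]⟩, ⟨1, [(6, 2), (0, 1)]⟩, ⟨1, [(17, 1)]⟩, ⟨1, []⟩, ⟨1, [(6, 2)]⟩, ⟨1, []⟩, ⟨1, [(6, 1)]⟩, ⟨1, [(6, 1), (0, 1)]⟩, ⟨1, [(6, 1), (0, 1)]⟩, ⟨1, [(0, 1)]⟩, ⟨1, [(6, 1), (0, 1)]⟩, ⟨1, [(0, 1)]⟩, ⟨1, [(6, 1), (0, 2)]⟩,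 ⟨1, [(0, 2)]⟩, ⟨1, [(0, 1)]⟩]))) (.cons (.ddet 1 [⟨1, [(5, 1), (2, 1)]⟩] (.split [0, 1, -1] (0) (.leaf 1 [⟨1, [(6, 1), (0, 1)]⟩, ⟨1, [(0, 1)]⟩, ⟨1, [(6, 2), (3, 1), (2, 1)]⟩, ⟨1, [(7, 1)]⟩, ⟨1, [(0, 2)]⟩, ⟨1, [(0, 1)]⟩, ⟨1, [(6, 2), (2, 1)]⟩, ⟨1, [(1, 1), (0, 1)]⟩, ⟨1, [(6, 1)]⟩, ⟨1, [(1, 1)]⟩, ⟨1, [(6, 1), (1, 1)]⟩, ⟨1, [(6, 1), (2, 1)]⟩, ⟨1, [(6, 1)]⟩, ⟨1, [(6, 1), (3, 1)]⟩, ⟨1, [(6, 2), (3, 1)]⟩, ⟨1, []⟩]) (.leaf 2 [⟨1, [(6, 1)]⟩, ⟨1, [(0, 1)]⟩, ⟨1, [(7, 1), (6, 2), (0, 3)]⟩, ⟨1, [(7, 1), (0, 1)]⟩, ⟨1, []⟩, ⟨1, [(7, 1), (6, 2), (0, 2)]⟩, ⟨1, [(1, 1)]⟩, ⟨1, [(7, 1), (6, 1), (0, 2)]⟩, ⟨1, [(7, 1), (6, 1), (0, 3)]⟩, ⟨1, [(6, 1), (0,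 1)]⟩, ⟨1, [(1, 1), (0, 1)]⟩, ⟨1, [(7, 1), (6, 1), (0, 3)]⟩, ⟨1, [(0, 1)]⟩, ⟨1, [(6, 1), (0, 2)]⟩, ⟨1, [(1, 1), (0, 2)]⟩, ⟨1, [(0, 1)]⟩]))) .nil)))
def s24_5_t9 : Tree := .nbr (.cons s24_5_t7 (.cons (.dbr (.cons (.ndet 1 [⟨1, [(4, 1), (0, 1)]⟩] s24_5_t8) (.cons (.ndet 1 [⟨1, [(5, 1), (4, 1), (1, 1)]⟩] (.ddet 0 [⟨1, [(5, 1), (0, 1)]⟩] (.ndet 1 [⟨1, [(5, 1), (0, 2)]⟩] (.ddet 1 [⟨1, [(5, 1), (4, 1), (1, 2)]⟩] (.leaf 1 [⟨1, [(5, 1), (4, 1), (0, 1)]⟩, ⟨1, [(5, 1), (0, 2)]⟩, ⟨1, [(5, 2), (4, 2), (1, 3)]⟩, ⟨1, [(5, 1)]⟩, ⟨1, [(5, 2), (0, 3)]⟩, ⟨1, [(5, 1), (0, 1)]⟩, ⟨1, [(5, 2), (4, 2), (1, 2)]⟩, ⟨1, [(5, 2), (0, 4)]⟩, ⟨1, [(5, 1), (4, 1),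 (1, 1)]⟩, ⟨1, [(5, 1), (0, 2)]⟩, ⟨1, [(5, 1), (4, 1), (0, 2)]⟩, ⟨1, [(5, 1), (4, 1), (1, 1)]⟩, ⟨1, [(4, 1)]⟩, ⟨1, [(5, 1), (4, 1), (1, 2)]⟩, ⟨1, [(5, 1), (4, 2), (1, 2)]⟩, ⟨1, []⟩]))))) .nil))) .nil))
def s24_5_n1 : Node := ⟨[⟨[0, 1, 0, -1], -200⟩, ⟨[0, 1, -1], -200⟩, ⟨[-1, 1], -200⟩, ⟨[-1, 0, -1, -1], 2060⟩, ⟨[0, 1, -1, -1], 2692⟩, ⟨[0, 0, 0, -1], 2666⟩, ⟨[-1, 1, 0, -1], 239700⟩, ⟨[1, 1, 0, -1], -3294⟩, ⟨[0, 0, 1, -1], 237000⟩, ⟨[1, 0, 1, -1], -3320⟩, ⟨[1, 1, 1, -1], 237000⟩, ⟨[-1, 1, -1], 2640⟩, ⟨[0, 1], 239700⟩, ⟨[0, 0, 1], -3360⟩, ⟨[0, 1, 1], 237000⟩], [0, 1], 0, none, (.ndet 0 [⟨1, [(6, 1)]⟩] (.ddet 1 [⟨1, [(2, 1)]⟩] s24_5_t9))⟩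
def s24_5_t10 : Tree := .ddet 0 [⟨1, [(9, 1)]⟩] (.nbr (.cons (.ddet 1 [⟨1, [(8, 1)]⟩] (.ndet 0 [⟨1, [(6, 1), (2, 1)]⟩] (.ddet 1 [⟨1, [(8, 1)]⟩] (.leaf 2 [⟨1, []⟩, ⟨1, [(8, 1), (6, 1), (2, 1)]⟩, ⟨1, [(8, 1)]⟩, ⟨1, [(10, 1)]⟩, ⟨1, [(6, 1), (2, 1)]⟩, ⟨1, []⟩, ⟨1, []⟩, ⟨1, []⟩, ⟨1, [(8, 1), (6, 1), (2, 1)]⟩, ⟨1, [(8, 1)]⟩, ⟨1, [(8, 1)]⟩, ⟨1, [(8, 1)]⟩, ⟨1, [(8, 1)]⟩, ⟨1, [(8, 2)]⟩, ⟨1, [(8, 2)]⟩, ⟨1, []⟩])))) (.cons (.ddet 1 [⟨1, [(8, 1)]⟩] (.ndet 0 [⟨3, [(14, 1), (8, 3), (6, 1), (0, 1)]⟩] (.ddet 1 [⟨1, [(8, 1)]⟩] (.leaf 2 [⟨1, []⟩, ⟨1, [(8, 2), (1, 1)]⟩, ⟨1, [(8, 1)]⟩, ⟨1, [(1, 1)]⟩, ⟨1, [(8, 1), (1, 1)]⟩, ⟨1, []⟩, ⟨1, []⟩, ⟨1, []⟩, ⟨1,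 [(8, 2), (1, 1)]⟩, ⟨1, [(8, 1)]⟩, ⟨1, [(8, 1)]⟩, ⟨1, [(8, 1)]⟩, ⟨1, [(8, 1)]⟩, ⟨1, [(8, 2)]⟩, ⟨1, [(8, 2)]⟩, ⟨1, []⟩])))) .nil)))
def s24_5_t11 : Tree := .ndet 1 [⟨2, [(13, 1), (5, 1), (0, 3)]⟩] (.dbr (.cons (.ndet 0 [⟨1, [(9, 1)]⟩] (.ddet 1 [⟨1, [(8, 1)]⟩] (.split [0, 1, -1] (0) (.leaf 1 [⟨1, [(9, 1), (0, 2)]⟩, ⟨1, [(0, 1)]⟩, ⟨1, [(9, 2), (0, 2)]⟩, ⟨1, [(0, 2)]⟩, ⟨1, [(0, 2)]⟩, ⟨1, [(0, 1)]⟩, ⟨1, [(9, 2), (0, 3)]⟩, ⟨1, [(0, 1)]⟩, ⟨1, [(9, 1), (0, 1)]⟩, ⟨1, []⟩, ⟨1, [(9, 1), (0, 1)]⟩, ⟨1, [(9, 1), (0, 2)]⟩, ⟨1, [(9, 1), (0, 1)]⟩, ⟨1, [(9, 1)]⟩, ⟨1, [(9, 2), (0, 1)]⟩, ⟨1, [(0, 1)]⟩]) (.leaf 2 [⟨1, [(9, 1), (1, 1)]⟩, ⟨1, [(0, 1)]⟩, ⟨1,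 [(9, 2), (1, 1)]⟩, ⟨1, [(1, 1)]⟩, ⟨1, []⟩, ⟨1, [(9, 2), (1, 2)]⟩, ⟨1, []⟩, ⟨1, [(9, 1), (1, 1)]⟩, ⟨1, [(9, 1)]⟩, ⟨1, [(9, 1)]⟩, ⟨1, [(0, 1)]⟩, ⟨1, [(9, 1)]⟩, ⟨1, [(0, 1)]⟩, ⟨1, [(9, 1), (0, 1)]⟩, ⟨1, [(0, 2)]⟩, ⟨1, []⟩])))) (.cons (.ndet 0 [⟨2, [(14, 1), (8, 1), (6, 1), (0, 1)]⟩] (.ddet 1 [⟨1, [(8, 1)]⟩] (.leaf 2 [⟨1, [(1, 1)]⟩, ⟨1, [(0, 2)]⟩, ⟨1, [(8, 1), (1, 1)]⟩, ⟨1, []⟩, ⟨1, [(0, 1)]⟩, ⟨1, [(1, 2)]⟩, ⟨1, []⟩, ⟨1, [(1, 1)]⟩, ⟨1, [(8, 1), (0, 1)]⟩, ⟨1, [(8, 1)]⟩, ⟨1, [(0, 1)]⟩, ⟨1, [(8, 1)]⟩, ⟨1, [(0, 1)]⟩, ⟨1, [(8, 1), (0, 1)]⟩, ⟨1, [(0, 2)]⟩, ⟨1, []⟩]))) .nil)))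
def s24_5_t12 : Tree := .ddet 0 [⟨1, [(12, 1), (9, 1), (6, 1), (0, 2)]⟩] (.ndet 1 [⟨1, [(12, 1), (9, 1), (6, 2), (0, 2)]⟩] (.ddet 0 [⟨1, [(8, 1)]⟩] (.ndet 0 [⟨1, [(12, 1), (9, 2), (6, 1), (0, 3)]⟩] (.ddet 1 [⟨1, [(6, 1), (0, 1)]⟩] (.ndet 0 [⟨1, [(4, 1)]⟩] (.ddet 1 [⟨1, [(6, 1)]⟩] (.split [0, 0, 1, -1] (0) (.leaf 2 [⟨1, [(0, 1)]⟩, ⟨1, [(7, 1), (5, 1)]⟩, ⟨1, [(7, 1), (0, 1)]⟩, ⟨1, [(11, 1)]⟩, ⟨1, [(9, 1), (7, 1)]⟩, ⟨1, [(0, 2)]⟩, ⟨1, []⟩, ⟨1, [(0, 1)]⟩, ⟨1, [(9, 1), (7, 2)]⟩, ⟨1, [(7, 1)]⟩, ⟨1, [(7, 1), (1, 1)]⟩, ⟨1, [(7, 1)]⟩, ⟨1, [(7, 1), (1, 1)]⟩, ⟨1, [(7, 2), (1, 1)]⟩, ⟨1, [(7, 2), (1, 2)]⟩, ⟨1, []⟩]) (.leaf 3 [⟨1, [(0, 1)]⟩, ⟨1,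 [(11, 1), (7, 2), (0, 3)]⟩, ⟨1, [(7, 1)]⟩, ⟨1, [(11, 1), (0, 2)]⟩, ⟨1, [(11, 1), (0, 2)]⟩, ⟨1, [(11, 1), (7, 1), (0, 2)]⟩, ⟨1, [(0, 1)]⟩, ⟨1, []⟩, ⟨1, [(11, 1), (7, 2), (0, 2)]⟩, ⟨1, [(7, 1), (0, 1)]⟩, ⟨1, [(7, 1), (0, 2)]⟩, ⟨1, [(10, 1), (0, 1)]⟩, ⟨1, [(10, 1), (0, 2)]⟩, ⟨1, [(0, 1)]⟩]))))))))
def s24_5_n2 : Node := ⟨[⟨[0, 0, 1, -1], -200⟩, ⟨[0, -1, 1], -200⟩, ⟨[-1, 0, 1], -200⟩, ⟨[-1, -1, 0, -1], 960⟩, ⟨[0, -1, 1, -1], 2640⟩, ⟨[-1, 0, 1, -1], 2732⟩, ⟨[1, 0, 1, -1], -3320⟩, ⟨[-1], 2706⟩, ⟨[-1, -1, 1], 239700⟩, ⟨[0, 0, 1], 239700⟩, ⟨[1, 0, 1], -6340⟩, ⟨[-1, 0, 0, 1], 237000⟩, ⟨[0, 0, 0, 1], -3360⟩, ⟨[0, 0, 1, 1], 237000⟩, ⟨[1, 0, 1,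 1], -9400⟩], [0, 0, 1], 0, none, (.nbr (.cons (.dbr (.cons (.ndet 1 [⟨1, [(7, 1), (0, 1)]⟩] s24_5_t10) (.cons (.ndet 1 [⟨1, [(15, 1)]⟩] (.ddet 0 [⟨2, [(13, 1), (5, 1), (0, 1)]⟩] s24_5_t11)) .nil))) (.cons s24_5_t12 .nil)))⟩
def s24_5_t13 : Tree := .dbr (.cons (.ndet 0 [⟨1, [(11, 1), (5, 1)]⟩] (.ddet 1 [⟨1, [(5, 1)]⟩] (.ndet 0 [⟨1, [(5, 1), (0, 1)]⟩] (.ddet 0 [⟨1, [(11, 1), (5, 1), (0, 1)]⟩] (.leaf 3 [⟨1, [(11, 1), (5, 2), (0, 1)]⟩, ⟨1, [(5, 2), (0, 1)]⟩, ⟨1, []⟩, ⟨1, [(5, 1), (0, 1)]⟩, ⟨1, [(11, 1), (5, 2), (0, 2)]⟩, ⟨1, [(5, 1), (0, 1)]⟩, ⟨1, [(5, 1)]⟩, ⟨1, [(11, 1), (5, 1), (0, 1)]⟩, ⟨1, [(5, 1), (0, 1)]⟩, ⟨1, [(5, 1)]⟩, ⟨1, [(5,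 2)]⟩, ⟨1, [(8, 1)]⟩, ⟨1, [(4, 1)]⟩, ⟨1, []⟩]))))) (.cons (.ndet 0 [⟨1, [(11, 1), (5, 1)]⟩] (.ddet 1 [⟨1, [(5, 1)]⟩] (.nbr (.cons (.ddet 0 [⟨1, [(12, 1), (6, 1)]⟩] (.leaf 3 [⟨1, [(12, 1), (6, 2)]⟩, ⟨1, [(6, 1), (0, 1)]⟩, ⟨1, []⟩, ⟨1, [(0, 1)]⟩, ⟨1, [(12, 1), (6, 1), (0, 1)]⟩, ⟨1, [(0, 1)]⟩, ⟨1, [(6, 1)]⟩, ⟨1, [(12, 1), (6, 1)]⟩, ⟨1, [(0, 1)]⟩, ⟨1, [(6, 1)]⟩, ⟨1, [(6, 2)]⟩, ⟨1, [(1, 1)]⟩, ⟨1, [(6, 1), (1, 1)]⟩, ⟨1, []⟩])) (.cons (.ddet 0 [⟨1, [(12, 1), (6, 1)]⟩] (.split [1, 0, 0, -1] (0) (.leaf 0 [⟨1, [(0, 1)]⟩, ⟨1, [(8, 1), (7, 2), (0, 3)]⟩, ⟨1, [(7, 1)]⟩, ⟨1, [(8, 1), (7, 1), (0, 3)]⟩, ⟨1, []⟩, ⟨1, [(0, 2)]⟩, ⟨1, [(8, 1), (7, 2), (0,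 2)]⟩, ⟨1, [(8, 1), (7, 1), (0, 2)]⟩, ⟨1, [(8, 1), (7, 2), (0, 4)]⟩, ⟨1, [(7, 1), (0, 1)]⟩, ⟨1, [(0, 1)]⟩, ⟨1, [(0, 1)]⟩]) (.leaf 3 [⟨1, [(13, 1), (7, 2)]⟩, ⟨1, [(7, 1), (0, 1)]⟩, ⟨1, [(0, 1)]⟩, ⟨1, []⟩, ⟨1, [(11, 1), (7, 1)]⟩, ⟨1, [(0, 1)]⟩, ⟨1, [(7, 1), (1, 1)]⟩, ⟨1, [(11, 1), (7, 1)]⟩, ⟨1, [(0, 2)]⟩, ⟨1, [(7, 1)]⟩, ⟨1, [(7, 2), (1, 1)]⟩, ⟨1, [(7, 1), (1, 1)]⟩, ⟨1, [(7, 2), (1, 2)]⟩, ⟨1, []⟩]))) .nil))))) .nil))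
def s24_5_t14 : Tree := .ndet 0 [⟨1, [(11, 1), (5, 1)]⟩] (.ddet 1 [⟨1, [(5, 1)]⟩] (.nbr (.cons (.dbr (.cons (.leaf 3 [⟨1, [(7, 1), (0, 1)]⟩, ⟨1, [(7, 1), (1, 1)]⟩, ⟨1, []⟩, ⟨1, [(1, 1)]⟩, ⟨2, [(9, 1), (7, 1), (0, 1)]⟩, ⟨1, [(1, 1)]⟩, ⟨1, [(7, 1)]⟩, ⟨1, [(0, 1)]⟩, ⟨1, [(1, 1)]⟩, ⟨1, [(7, 1)]⟩, ⟨1, [(7, 2)]⟩, ⟨1, [(2, 1)]⟩, ⟨1, [(7, 1), (2, 1)]⟩, ⟨1, []⟩]) (.cons (.leaf 3 [⟨1, [(9, 1), (2, 2)]⟩, ⟨2, [(9, 1), (7, 3), (0, 1)]⟩, ⟨1, [(0, 1)]⟩, ⟨1, [(9, 1), (2, 1)]⟩, ⟨1, [(9, 1), (2, 1)]⟩, ⟨2, [(9, 1), (7, 1), (0, 1)]⟩, ⟨1, [(9, 1), (2, 2)]⟩, ⟨1, []⟩, ⟨2, [(9, 1), (7, 1), (0, 3)]⟩, ⟨1, [(7, 1)]⟩, ⟨1, [(9, 1), (7, 1), (2, 2)]⟩, ⟨1, [(2, 1)]⟩,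 ⟨1, [(9, 1), (2, 3)]⟩, ⟨1, []⟩]) .nil))) (.cons (.ddet 0 [⟨1, [(8, 1), (6, 1), (0, 2)]⟩] (.split [1, 0, 0, -1] (0) (.leaf 0 [⟨1, [(0, 1)]⟩, ⟨1, [(9, 1), (7, 2), (0, 3)]⟩, ⟨1, [(7, 1)]⟩, ⟨1, [(9, 1), (7, 1), (0, 3)]⟩, ⟨1, []⟩, ⟨1, [(0, 2)]⟩, ⟨1, [(9, 1), (7, 2), (0, 2)]⟩, ⟨1, [(9, 1), (7, 1), (0, 2)]⟩, ⟨1, [(9, 1), (7, 2), (0, 4)]⟩, ⟨1, [(7, 1), (0, 1)]⟩, ⟨1, [(0, 1)]⟩, ⟨1, [(0, 1)]⟩]) (.leaf 3 [⟨1, [(9, 1), (7, 2), (1, 2)]⟩, ⟨1, [(7, 1), (0, 1)]⟩, ⟨1, [(0, 1)]⟩, ⟨1, []⟩, ⟨1, [(9, 1), (7, 1), (1, 1)]⟩, ⟨1, [(0, 1)]⟩, ⟨1, [(7, 1), (1, 1)]⟩, ⟨1, [(9, 1), (7, 1), (1, 1)]⟩, ⟨1, [(0, 2)]⟩, ⟨1, [(7, 1)]⟩, ⟨1, [(7, 2), (1, 1)]⟩, ⟨1, [(7, 1),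 (1, 1)]⟩, ⟨1, [(7, 2), (1, 2)]⟩, ⟨1, []⟩]))) .nil))))
def s24_5_t15 : Tree := .dbr (.cons (.ndet 0 [⟨1, [(11, 1), (5, 1)]⟩] (.ddet 1 [⟨1, [(5, 1)]⟩] (.ndet 0 [⟨1, [(5, 1), (0, 1)]⟩] (.dbr (.cons (.leaf 3 [⟨1, [(6, 1), (0, 1)]⟩, ⟨1, [(6, 2), (1, 1)]⟩, ⟨1, []⟩, ⟨1, [(6, 1), (1, 1)]⟩, ⟨1, [(6, 1), (1, 1), (0, 1)]⟩, ⟨1, [(6, 1), (1, 1)]⟩, ⟨1, [(6, 1)]⟩, ⟨1, [(0, 1)]⟩, ⟨1, [(6, 1), (1, 1)]⟩, ⟨1, [(6, 1)]⟩, ⟨1, [(6, 2)]⟩, ⟨1, [(9, 1)]⟩, ⟨1, [(5, 1)]⟩, ⟨1, []⟩]) (.cons (.split [0, 0, 1, -1] (0) (.leaf 2 [⟨1, [(0, 1)]⟩, ⟨1, [(9, 1), (7, 2), (0, 2)]⟩, ⟨1, [(7, 1), (0, 2)]⟩, ⟨1, [(9, 1), (0, 2)]⟩, ⟨1, [(9, 1), (7, 1), (0, 2)]⟩, ⟨1, [(0, 2)]⟩,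 ⟨1, []⟩, ⟨1, [(0, 1)]⟩, ⟨1, [(9, 1), (7, 2), (0, 3)]⟩, ⟨1, [(7, 1), (0, 1)]⟩, ⟨1, [(7, 1)]⟩, ⟨1, [(7, 1), (0, 1)]⟩, ⟨1, [(7, 1)]⟩, ⟨1, [(7, 2), (0, 1)]⟩, ⟨1, [(7, 2)]⟩, ⟨1, [(0, 1)]⟩]) (.leaf 3 [⟨1, [(0, 1)]⟩, ⟨1, [(7, 2), (2, 1)]⟩, ⟨1, [(1, 1)]⟩, ⟨1, [(9, 1)]⟩, ⟨1, [(9, 1)]⟩, ⟨1, [(7, 1), (2, 1)]⟩, ⟨1, [(0, 1)]⟩, ⟨1, []⟩, ⟨1, [(7, 1), (2, 1), (1, 1)]⟩, ⟨1, [(7, 1)]⟩, ⟨1, [(7, 1), (0, 1)]⟩, ⟨1, [(10, 1)]⟩, ⟨1, [(10, 1), (0, 1)]⟩, ⟨1, []⟩])) .nil)))))) (.cons s24_5_t14 .nil))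
def s24_5_n3 : Node := ⟨[⟨[0, 0, -1, 1], -200⟩, ⟨[0, -1, 0, 1], -200⟩, ⟨[-1, 0, 0, 1], -200⟩, ⟨[1, -1, 0, -1], 2600⟩, ⟨[0, -1, -1], 5620⟩, ⟨[0, -1], 3666⟩, ⟨[1], -3320⟩, ⟨[-1, 0, -1, 1], 2680⟩, ⟨[-1, -1, 0, 1], 3672⟩, ⟨[0, 0, 0, 1], 239700⟩, ⟨[1, 0, 0, 1], 237000⟩, ⟨[0, 1, 0, 1], -6340⟩, ⟨[1, 1, 0, 1], -9360⟩], [0, 0, 0, 1], 0, none, (.ndet 1 [⟨1, [(12, 1)]⟩] (.ddet 0 [⟨1, [(7, 1)]⟩] (.nbr (.cons s24_5_t13 (.cons s24_5_t15 .nil)))))⟩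
def s24_5 : Sys := ⟨[(3, -4000), (4, 2000)], [(0, 1000), (2, -1000)], 4, [s24_5_n0, s24_5_n1, s24_5_n2, s24_5_n3], [2384415, 1465958, -38520, -229396], (.leaf 0 [⟨1, []⟩, ⟨1, []⟩, ⟨1, []⟩, ⟨1, []⟩, ⟨1, []⟩, ⟨1, []⟩, ⟨1, []⟩, ⟨1, []⟩, ⟨1, []⟩, ⟨1, []⟩, ⟨1, []⟩])⟩

theorem s24_5_ok : s24_5.ok = true := by decide +kernel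

def s24_15_n0 : Node := ⟨[⟨[0, 0, 1, -1], 24⟩, ⟨[0, 1], 80⟩, ⟨[-1, 1], 88⟩, ⟨[0, 1, -1], 48⟩, ⟨[0, 1], 72⟩, ⟨[0, 2, -1], 112⟩, ⟨[-1, 1], 80⟩, ⟨[0, 1, -1], 40⟩, ⟨[-1], 16⟩, ⟨[-1, -1, 1], -24⟩, ⟨[0, 1], 64⟩, ⟨[0, 2, -1], 120⟩, ⟨[0, 1, -1], 56⟩], [0, 1], 0, none, (.ndet 0 [⟨1, [(12, 1)]⟩] (.ddet 2 [⟨1, [(11, 1)]⟩, ⟨1, [(11, 1), (3, 1), (0, 1)]⟩, ⟨1, [(0, 1)]⟩] (.ndet 0 [⟨1, [(0, 1)]⟩] (.ddet 3 [⟨1, [(11, 1)]⟩, ⟨1, [(11, 1), (0, 1)]⟩, ⟨1, [(11, 1), (3, 1), (0, 1)]⟩] (.ndet 1 [⟨1, [(11, 1), (3, 1), (0, 1)]⟩] (.ddet 0 [⟨1, []⟩, ⟨1, [(0, 1)]⟩, ⟨1, [(3, 1), (0, 1)]⟩] (.ndet 0 [⟨1, [(3, 1)]⟩] (.ddet 1 [⟨1, [(11, 1)]⟩, ⟨1, [(11, 1)]⟩, ⟨1, [(11,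 1), (0, 1)]⟩] (.leaf 0 [⟨1, [(0, 1)]⟩, ⟨1, [(11, 1)]⟩, ⟨1, [(11, 2), (0, 1)]⟩, ⟨1, [(11, 1)]⟩, ⟨1, [(11, 1)]⟩, ⟨1, [(11, 2)]⟩, ⟨1, [(11, 2), (0, 1)]⟩, ⟨1, [(11, 1)]⟩, ⟨1, [(11, 1), (0, 1)]⟩, ⟨1, [(0, 1)]⟩, ⟨1, [(11, 1)]⟩, ⟨1, [(11, 2)]⟩, ⟨1, [(11, 1)]⟩, ⟨1, []⟩])))))))))⟩
def s24_15 : Sys := ⟨[(3, 16), (4, 32)], [(0, 16), (1, -32), (2, -32), (3, -16)], 4, [s24_15_n0], [-64, 112, 32, 0], (.leaf 0 [⟨1, []⟩, ⟨1, []⟩, ⟨1, []⟩, ⟨1, []⟩, ⟨1, []⟩, ⟨1, []⟩, ⟨1, []⟩, ⟨1, []⟩, ⟨1, []⟩, ⟨1, []⟩, ⟨1, []⟩, ⟨1, []⟩, ⟨1, []⟩])⟩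

theorem s24_15_ok : s24_15.ok = true := by decide +kernel

def s29_14_n0 : Node := ⟨[⟨[0, 1], 40⟩, ⟨[0, 1, -1], 24⟩, ⟨[0, 1, 0, -1], 32⟩, ⟨[-1, 1], 32⟩, ⟨[0, 1, -1], 32⟩, ⟨[0, 1], 48⟩, ⟨[-1, 1], 48⟩, ⟨[0, 1, -1], 48⟩, ⟨[0, 1], 32⟩, ⟨[-1, 1], 40⟩, ⟨[-1, 1], 24⟩, ⟨[-1], 0⟩, ⟨[-1], 8⟩], [0, 1], 0, none, (.ndet 1 [⟨1, [(7, 1)]⟩, ⟨1, [(5, 1)]⟩, ⟨1, [(10, 1)]⟩] (.ddet 1 [⟨1, [(7, 1), (0, 1)]⟩, ⟨1, [(5, 1)]⟩] (.ndet 2 [⟨1, [(7, 1)]⟩, ⟨1, [(7, 1), (0, 1)]⟩, ⟨1, [(5, 1)]⟩] (.ddet 2 [⟨1, [(7, 1)]⟩, ⟨1, [(7, 1), (0, 1)]⟩] (.ndet 3 [⟨1, [(7, 1)]⟩, ⟨1, [(7, 1)]⟩, ⟨1, [(7, 1), (0, 1)]⟩] (.ddet 1 [⟨1, []⟩, ⟨1, [(0, 1)]⟩] (.ndet 0 [⟨1, []⟩, ⟨1, []⟩,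 ⟨1, [(0, 1)]⟩] (.ddet 0 [⟨1, [(7, 1)]⟩, ⟨1, [(7, 1)]⟩] (.leaf 0 [⟨1, [(7, 1)]⟩, ⟨1, [(7, 1)]⟩, ⟨1, [(7, 1)]⟩, ⟨1, [(7, 2)]⟩, ⟨1, [(7, 1)]⟩, ⟨1, [(7, 1)]⟩, ⟨1, [(7, 2)]⟩, ⟨1, [(7, 1)]⟩, ⟨1, [(7, 1)]⟩, ⟨1, [(7, 2)]⟩, ⟨1, [(7, 2)]⟩, ⟨1, [(7, 1)]⟩, ⟨1, [(7, 1)]⟩, ⟨1, []⟩])))))))))⟩
def s29_14 : Sys := ⟨[(0, 16), (2, 0), (3, -16), (4, 16)], [(1, -32), (2, -16), (3, -16)], 4, [s29_14_n0], [-16, 64, 0, 16], (.leaf 0 [⟨1, []⟩, ⟨1, []⟩, ⟨1, []⟩, ⟨1, []⟩, ⟨1, []⟩, ⟨1, []⟩, ⟨1, []⟩, ⟨1, []⟩, ⟨1, []⟩, ⟨1, []⟩, ⟨1, []⟩, ⟨1, []⟩, ⟨1, []⟩])⟩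

theorem s29_14_ok : s29_14.ok = true := by decide +kernel

def s29_22_n0 : Node := ⟨[⟨[0, 1], 112⟩, ⟨[0, 1, -1], 152⟩, ⟨[0, 1, 0, -1], 64⟩, ⟨[-1, 1], 104⟩, ⟨[0, 1], 56⟩, ⟨[-1, 1], 56⟩, ⟨[0, 1, -1], 24⟩, ⟨[-1], 8⟩, ⟨[0, 0, -1], -24⟩, ⟨[0, 1], 128⟩, ⟨[-1, 1], 184⟩], [0, 1], 0, none, (.ndet 1 [⟨1, [(1, 1)]⟩, ⟨1, [(9, 1)]⟩, ⟨1, [(8, 1)]⟩] (.ddet 1 [⟨1, [(0, 1)]⟩, ⟨1, [(8, 1)]⟩] (.ndet 2 [⟨1, [(1, 1)]⟩, ⟨1, [(0, 1)]⟩, ⟨1, [(9, 1)]⟩] (.ddet 0 [⟨1, [(3, 1)]⟩, ⟨1, [(2, 1)]⟩] (.ndet 3 [⟨1, [(1, 1)]⟩, ⟨1, [(1, 1)]⟩, ⟨1, [(0, 1)]⟩] (.ddet 0 [⟨1, [(1, 1)]⟩, ⟨1, []⟩] (.leaf 0 [⟨1, [(1, 1)]⟩, ⟨1, [(1, 1)]⟩, ⟨1, [(0, 1)]⟩, ⟨1, [(1, 1)]⟩, ⟨1, [(1,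 1)]⟩, ⟨1, [(1, 1)]⟩, ⟨1, [(1, 1)]⟩, ⟨1, []⟩, ⟨1, []⟩, ⟨1, [(1, 1)]⟩, ⟨1, [(1, 1)]⟩, ⟨1, []⟩])))))))⟩
def s29_22 : Sys := ⟨[(0, 96), (2, 80), (3, 192), (4, 48)], [(1, 48), (2, 64), (4, 32)], 4, [s29_22_n0], [-16, 208, 16, 48], (.leaf 0 [⟨1, []⟩, ⟨1, []⟩, ⟨1, []⟩, ⟨1, []⟩, ⟨1, []⟩, ⟨1, []⟩, ⟨1, []⟩, ⟨1, []⟩, ⟨1, []⟩, ⟨1, []⟩, ⟨1, []⟩])⟩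

theorem s29_22_ok : s29_22.ok = true := by decide +kernel

def s31_9_n0 : Node := ⟨[⟨[0, 1], -56⟩, ⟨[-1, 1], -32⟩, ⟨[0, 1, -1], 16⟩, ⟨[0, 1, 0, -1], -8⟩, ⟨[0, 0, -1], 24⟩, ⟨[0, 1], -8⟩, ⟨[-1, 1], 120⟩, ⟨[0, 1, -1], 88⟩, ⟨[0, 1], 40⟩, ⟨[-1], 32⟩], [0, 1], 0, none, (.ndet 2 [⟨1, [(1, 1)]⟩, ⟨1, [(3, 1)]⟩, ⟨1, [(2, 1)]⟩, ⟨1, [(6, 1)]⟩] (.ddet 0 [⟨1, [(5, 1)]⟩] (.ndet 3 [⟨1, [(1, 1)]⟩, ⟨1, []⟩, ⟨1, [(3, 1)]⟩, ⟨1, [(2, 1)]⟩] (.ddet 1 [⟨1, [(1, 1)]⟩] (.leaf 0 [⟨1, [(1, 1)]⟩, ⟨1, [(1, 1)]⟩, ⟨1, [(3, 1)]⟩, ⟨1, []⟩, ⟨1, [(0, 1)]⟩, ⟨1, [(1, 1)]⟩, ⟨1, [(1, 1)]⟩, ⟨1, [(3, 1)]⟩, ⟨1, [(1, 1)]⟩, ⟨1, []⟩, ⟨1, []⟩])))))⟩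
def s31_9 : Sys := ⟨[(0, -96), (1, -112), (2, 96), (3, 0), (4, 48)], [(0, 64), (3, 64)], 4, [s31_9_n0], [-64, 80, -48, 48], (.leaf 0 [⟨1, []⟩, ⟨1, []⟩, ⟨1, []⟩, ⟨1, []⟩, ⟨1, []⟩, ⟨1, []⟩, ⟨1, []⟩, ⟨1, []⟩, ⟨1, []⟩, ⟨1, []⟩])⟩

theorem s31_9_ok : s31_9.ok = true := by decide +kernel

def s31_22_n0 : Node := ⟨[⟨[0, 1], 216⟩, ⟨[-1, 1], 192⟩, ⟨[0, 1, -1], 232⟩, ⟨[0, 1, 0, -1], 152⟩, ⟨[-1, 1], 216⟩, ⟨[0, 1, 0, -1], 112⟩, ⟨[0, 1], 160⟩, ⟨[0, 1], -32⟩, ⟨[-1, 1], 160⟩, ⟨[0, 1, -1], 96⟩, ⟨[-1], 168⟩, ⟨[0, 0, -1], 64⟩, ⟨[0, 1], 184⟩, ⟨[0, 1], 16⟩, ⟨[-1, 1], 240⟩, ⟨[0, 1], -8⟩], [0, 1], 0, none, (.ndet 2 [⟨1, [(15, 1)]⟩, ⟨1, [(15, 1), (5, 1)]⟩,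 ⟨1, [(15, 1), (4, 1)]⟩, ⟨1, [(12, 1)]⟩] (.ddet 1 [⟨1, [(15, 1), (5, 1)]⟩, ⟨1, [(12, 1)]⟩] (.ndet 3 [⟨1, [(15, 1)]⟩, ⟨1, [(15, 1)]⟩, ⟨1, [(15, 1), (5, 1)]⟩, ⟨1, [(15, 1), (4, 1)]⟩] (.ddet 0 [⟨1, [(5, 1)]⟩, ⟨1, [(4, 1)]⟩] (.ndet 1 [⟨1, [(15, 1)]⟩, ⟨1, [(15, 1)]⟩, ⟨1, [(15, 1), (5, 1)]⟩, ⟨1, []⟩] (.ddet 0 [⟨1, [(15, 1)]⟩, ⟨1, []⟩] (.leaf 0 [⟨1, [(15, 1)]⟩, ⟨1, [(15, 1)]⟩, ⟨1, [(15, 1)]⟩, ⟨1, [(15, 1), (5, 1)]⟩, ⟨1, [(15, 1)]⟩, ⟨1, [(15, 1), (5, 1)]⟩, ⟨1, [(15, 1)]⟩, ⟨1, [(15, 1)]⟩, ⟨1, [(15, 1)]⟩, ⟨1, [(15, 1)]⟩, ⟨1, []⟩, ⟨1, []⟩, ⟨1, [(15, 1)]⟩, ⟨1, [(15, 1)]⟩, ⟨1, [(15, 1)]⟩, ⟨1, [(15, 1)]⟩, ⟨1, []⟩])))))))⟩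
def s31_22 : Sys := ⟨[(0, 80), (1, -160), (2, -112), (3, 0), (4, -160)], [(1, 32), (2, 32), (4, -96)], 4, [s31_22_n0], [-192, 240, -112, -112], (.leaf 0 [⟨1, []⟩, ⟨1, []⟩, ⟨1, []⟩, ⟨1, []⟩, ⟨1, []⟩, ⟨1, []⟩, ⟨1, []⟩, ⟨1, []⟩, ⟨1, []⟩, ⟨1, []⟩, ⟨1, []⟩, ⟨1, []⟩, ⟨1, []⟩, ⟨1, []⟩, ⟨1, []⟩, ⟨1, []⟩])⟩

theorem s31_22_ok : s31_22.ok = true := by decide +kernel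

end Pool.Agent.H81.RDE.Data
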