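import Pool.Agent.H81.RDE.System

/-! Data file (generated): certificates. -/

set_option maxRecDepth 100000

namespace Pool.Agent.H81.RDE.Data

def s5_8_n0 : Node := ⟨[⟨[0, 1], 338⟩, ⟨[-1], 272⟩, ⟨[0, 0, -1], 218⟩], [0, 1], 0, none, (.ndet 1 [⟨1, [(2, 1)]⟩] (.ddet 0 [] (.ndet 0 [⟨1, [(1, 1)]⟩] (.ddet 0 [] (.leaf 0 [⟨1, [(2, 1), (0, 1)]⟩, ⟨1, [(2, 1)]⟩, ⟨1, [(1, 1)]⟩, ⟨1, [(0, 1)]⟩])))))⟩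
def s5_8 : Sys := ⟨[(0, -32), (2, 0)], [(3, 32)], 3, [s5_8_n0], [-352, 752, -368, 0], (.leaf 0 [⟨1, []⟩, ⟨1, []⟩, ⟨1, []⟩])⟩

theorem s5_8_ok : s5_8.ok = true := by decide +kernel

def s6_11_n0 : Node := ⟨[⟨[-1, 1], 0⟩, ⟨[-1], 16⟩, ⟨[0, 0, -1], -8⟩, ⟨[-1, 1], 56⟩, ⟨[0, 1], 8⟩], [0, 1], 0, none, (.ndet 1 [⟨1, [(1, 1)]⟩] (.ddet 0 [⟨1, [(3, 1)]⟩, ⟨1, [(2, 1)]⟩] (.ndet 0 [⟨1, [(1, 1)]⟩] (.ddet 1 [⟨1, [(0, 1)]⟩, ⟨1, []⟩] (.leaf 0 [⟨1, [(0, 1)]⟩, ⟨1, []⟩, ⟨1, [(3, 1)]⟩, ⟨1, [(0, 1)]⟩, ⟨1, [(0, 1)]⟩, ⟨1, []⟩])))))⟩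
def s6_11 : Sys := ⟨[(1, -32), (2, 32)], [(0, 16), (1, 16), (3, -16)], 3, [s6_11_n0], [-32, 32, -16, 0], (.leaf 0 [⟨1, []⟩, ⟨1, []⟩, ⟨1, []⟩, ⟨1, []⟩, ⟨1, []⟩])⟩

theorem s6_11_ok : s6_11.ok = true := by decide +kernel

def s6_28_t0 : Tree := .ddet 2 [⟨1, [(11, 1), (7, 1)]⟩, ⟨1, [(11, 1)]⟩] (.ndet 1 [⟨1, [(7, 1)]⟩] (.ddet 2 [⟨1, [(11, 1), (7, 1)]⟩, ⟨1, [(7, 1)]⟩] (.ndet 0 [⟨1, []⟩] (.ddet 2 [⟨1, [(11, 1), (7, 1)]⟩, ⟨1, [(11, 1)]⟩] (.ndet 0 [⟨1, []⟩] (.ddet 2 [⟨1, [(7, 1)]⟩, ⟨1, [(7, 1)]⟩] (.ndet 0 [⟨1, [(11, 1)]⟩] (.ddet 0 [⟨1, []⟩, ⟨1, []⟩] (.leaf 0 [⟨1, [(11, 1), (7, 1)]⟩, ⟨1, [(11, 1)]⟩, ⟨1, [(11, 1)]⟩, ⟨1,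 [(7, 1)]⟩, ⟨1, [(11, 1), (7, 1)]⟩, ⟨1, [(11, 2), (7, 1)]⟩, ⟨1, [(11, 1)]⟩, ⟨1, [(7, 1)]⟩, ⟨1, [(11, 1), (7, 2)]⟩, ⟨1, [(11, 1)]⟩, ⟨1, [(7, 1)]⟩, ⟨1, [(11, 1), (7, 1)]⟩, ⟨1, [(11, 1)]⟩, ⟨1, [(7, 1)]⟩, ⟨1, [(7, 1)]⟩, ⟨1, [(11, 1), (7, 1)]⟩, ⟨1, [(7, 1)]⟩, ⟨1, [(11, 1)]⟩, ⟨1, []⟩])))))))))
def s6_28_t1 : Tree := .ndet 0 [⟨1, [(11, 1), (7, 1)]⟩] (.ddet 0 [⟨1, [(16, 1)]⟩, ⟨1, [(15, 1)]⟩] (.ndet 0 [⟨1, [(7, 1)]⟩] (.ddet 0 [⟨1, [(11, 1), (7, 1)]⟩, ⟨1, [(16, 1), (11, 1), (7, 1)]⟩] (.ndet 1 [⟨1, [(11, 1)]⟩] (.ddet 0 [⟨1, [(7, 1)]⟩, ⟨1, [(11, 1), (7, 2)]⟩] (.ndet 1 [⟨1, [(7, 1)]⟩] (.ddet 1 [⟨1, [(11, 1)]⟩, ⟨1, [(7, 1)]⟩]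 (.ndet 1 [⟨1, [(11, 1)]⟩] s6_28_t0))))))))
def s6_28_n0 : Node := ⟨[⟨[1, -1], 352⟩, ⟨[0, 1, -1], 368⟩, ⟨[0, 1, 0, -1], 392⟩, ⟨[0, -1], -32⟩, ⟨[1, -1], 416⟩, ⟨[1, 0, -1], 800⟩, ⟨[1], 448⟩, ⟨[0, -1], 32⟩, ⟨[1, -2], 464⟩, ⟨[1], 384⟩, ⟨[0, -1], 48⟩, ⟨[1, -1], 336⟩, ⟨[1], 368⟩, ⟨[0, -1], 16⟩, ⟨[0, -1], -48⟩, ⟨[1, -1], 320⟩, ⟨[0, -1], -64⟩, ⟨[1], 272⟩], [1], 0, none, s6_28_t1⟩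
def s6_28 : Sys := ⟨[(1, 80), (2, -48)], [(2, 32), (3, 32), (4, 64)], 4, [s6_28_n0], [672, -64, -816, -752], (.leaf 0 [⟨1, []⟩, ⟨1, []⟩, ⟨1, []⟩, ⟨1, []⟩, ⟨1, []⟩, ⟨1, []⟩, ⟨1, []⟩, ⟨1, []⟩, ⟨1, []⟩, ⟨1, []⟩, ⟨1, []⟩, ⟨1, []⟩, ⟨1, []⟩, ⟨1, []⟩, ⟨1, []⟩, ⟨1, []⟩, ⟨1, []⟩, ⟨1, []⟩])⟩

theorem s6_28_ok : s6_28.ok = true := by decide +kernel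

def s8_23_n0 : Node := ⟨[⟨[0, 1], 40⟩, ⟨[-1, 1], 336⟩, ⟨[0, 1, 0, -1], 128⟩, ⟨[0, 1, -1], 336⟩, ⟨[-1], 296⟩, ⟨[0, 0, -1], 280⟩, ⟨[0, 1], 24⟩, ⟨[0, 2, -1], 360⟩], [0, 1], 0, none, (.ndet 0 [] (.ddet 2 [⟨1, [(7, 1)]⟩, ⟨1, [(6, 1)]⟩, ⟨1, [(5, 1)]⟩] (.ndet 0 [] (.ddet 0 [⟨1, [(4, 1)]⟩, ⟨1, [(3, 1)]⟩, ⟨1, [(2, 1)]⟩] (.ndet 0 [] (.ddet 1 [⟨1, [(7, 1)]⟩, ⟨1, [(7, 1), (4, 1)]⟩, ⟨1, []⟩] (.leaf 0 [⟨1, [(7, 1)]⟩, ⟨1, [(7, 1), (6, 1)]⟩, ⟨1, [(6, 1)]⟩, ⟨1, [(7, 1), (4, 1)]⟩, ⟨1, [(6, 1)]⟩, ⟨1, [(4, 1)]⟩, ⟨1, [(7, 1)]⟩, ⟨1, [(7, 2), (4, 1)]⟩, ⟨1, []⟩])))))))⟩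
def s8_23 : Sys := ⟨[(3, 16)], [(0, -16), (1, -16), (2, -16), (4, -16)], 4, [s8_23_n0], [-592, 80, -560, -176], (.leaf 0 [⟨1, []⟩, ⟨1, []⟩, ⟨1, []⟩, ⟨1, []⟩, ⟨1, []⟩, ⟨1, []⟩, ⟨1, []⟩, ⟨1, []⟩])⟩

theorem s8_23_ok : s8_23.ok = true := by decide +kernel

def s13_6_n0 : Node := ⟨[⟨[0, 1], 32⟩, ⟨[0, 1, -1], 48⟩, ⟨[-1, 1], 48⟩, ⟨[0, 1], 16⟩, ⟨[-1, 1], 32⟩, ⟨[-1], 32⟩, ⟨[0, 1], 0⟩], [0, 1], 0, none, (.ndet 1 [⟨1, [(6, 1)]⟩, ⟨1, [(5, 1)]⟩] (.ddet 1 [⟨1, [(6, 1), (1, 1)]⟩] (.ndet 2 [⟨1, [(6, 1)]⟩, ⟨1, [(6, 1), (1, 1)]⟩] (.ddet 0 [⟨1, [(1, 1)]⟩] (.ndet 0 [⟨1, []⟩, ⟨1, [(1, 1)]⟩] (.ddet 0 [⟨1, [(6, 1)]⟩] (.leaf 0 [⟨1,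 [(6, 1)]⟩, ⟨1, [(6, 1)]⟩, ⟨1, [(6, 2)]⟩, ⟨1, [(6, 1)]⟩, ⟨1, [(6, 2)]⟩, ⟨1, [(6, 1)]⟩, ⟨1, [(6, 1)]⟩, ⟨1, []⟩])))))))⟩
def s13_6 : Sys := ⟨[(0, 0), (2, -16), (3, 16)], [(1, 0), (2, 0)], 3, [s13_6_n0], [-48, 48, -16, 0], (.leaf 0 [⟨1, []⟩, ⟨1, []⟩, ⟨1, []⟩, ⟨1, []⟩, ⟨1, []⟩, ⟨1, []⟩, ⟨1, []⟩])⟩

theorem s13_6_ok : s13_6.ok = true := by decide +kernel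

def s13_21_n0 : Node := ⟨[⟨[0, 1], 64⟩, ⟨[0, 1, -1], 56⟩, ⟨[0, 1], 112⟩, ⟨[0, 1, 0, -1], 40⟩, ⟨[0, 1], 56⟩, ⟨[-1, 1], 64⟩, ⟨[-1], -40⟩, ⟨[0, 0, -1], -80⟩, ⟨[-1], -32⟩, ⟨[0, 1], 128⟩, ⟨[0, 1], 136⟩], [0, 1], 0, none, (.ndet 1 [⟨1, [(0, 1)]⟩, ⟨1, [(9, 1)]⟩] (.ddet 1 [⟨1, [(0, 1)]⟩, ⟨1, [(7, 1)]⟩] (.ndet 2 [⟨1, [(0, 1)]⟩, ⟨1, [(2, 1), (0, 1)]⟩] (.ddet 0 [⟨1, [(2, 1)]⟩, ⟨1, [(3, 1)]⟩] (.ndet 1 [⟨1, []⟩, ⟨1, [(2, 1)]⟩] (.ddet 2 [⟨1, [(0, 1)]⟩, ⟨1, [(0, 1)]⟩] (.leaf 0 [⟨1, [(0, 1)]⟩, ⟨1, [(0, 1)]⟩, ⟨1, [(0, 1)]⟩, ⟨1, [(2, 1), (0, 1)]⟩, ⟨1, [(0, 1)]⟩, ⟨1, [(0, 2)]⟩, ⟨1, [(0, 1)]⟩, ⟨1, []⟩, ⟨1, [(0, 1)]⟩, ⟨1, [(0,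 1)]⟩, ⟨1, [(0, 1)]⟩, ⟨1, []⟩])))))))⟩
def s13_21 : Sys := ⟨[(0, 0), (2, 32), (3, 48)], [(0, 32), (2, -32), (4, -64)], 4, [s13_21_n0], [16, 160, 64, 48], (.leaf 0 [⟨1, []⟩, ⟨1, []⟩, ⟨1, []⟩, ⟨1, []⟩, ⟨1, []⟩, ⟨1, []⟩, ⟨1, []⟩, ⟨1, []⟩, ⟨1, []⟩, ⟨1, []⟩, ⟨1, []⟩])⟩

theorem s13_21_ok : s13_21.ok = true := by decide +kernel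

def s14_1_n0 : Node := ⟨[⟨[1, -1], 8⟩, ⟨[1, 0, -1], 0⟩], [1], 0, none, (.ndet 0 [⟨1, [(1, 1)]⟩, ⟨1, [(0, 1)]⟩] (.ddet 0 [] (.leaf 0 [⟨1, []⟩, ⟨1, [(1, 1)]⟩, ⟨1, []⟩])))⟩
def s14_1 : Sys := ⟨[(1, 0), (2, 0), (3, -16)], [(0, -16)], 3, [s14_1_n0], [16, 0, 0, 0], (.leaf 0 [⟨1, []⟩, ⟨1, []⟩])⟩

theorem s14_1_ok : s14_1.ok = true := by decide +kernel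

def s18_9_t0 : Tree := .ndet 1 [⟨2, [(9, 1), (6, 2), (0, 1)]⟩] (.ddet 0 [⟨1, [(16, 1), (6, 1)]⟩] (.ndet 0 [⟨1, [(16, 1), (13, 1), (6, 1), (0, 1)]⟩] (.ddet 1 [⟨1, [(16, 1), (13, 1), (0, 1)]⟩] (.ndet 1 [⟨1, [(16, 2), (13, 1), (0, 1)]⟩] (.dbr (.cons (.split [1, 0, -1] (0) (.leaf 0 [⟨1, [(15, 1), (2, 1)]⟩, ⟨1, [(0, 1)]⟩, ⟨1, [(15, 1), (2, 1), (0, 2)]⟩, ⟨1, []⟩, ⟨1, []⟩, ⟨1, [(1, 1)]⟩, ⟨1, [(1, 1)]⟩, ⟨1, [(1, 2)]⟩, ⟨1, [(11, 1), (8, 1), (4, 1)]⟩, ⟨1, []⟩, ⟨1, [(1, 1)]⟩, ⟨1, []⟩, ⟨1, [(1, 1)]⟩, ⟨1, [(1, 2)]⟩, ⟨1, []⟩, ⟨1, []⟩, ⟨1, [(1, 1)]⟩, ⟨1, [(15, 1), (2, 1)]⟩, ⟨1, []⟩]) (.leaf 2 [⟨1, [(15, 1), (2, 1), (0, 1)]⟩,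 ⟨1, [(18, 1), (15, 1), (2, 1)]⟩, ⟨1, [(0, 1)]⟩, ⟨1, [(18, 1)]⟩, ⟨1, []⟩, ⟨1, []⟩, ⟨1, [(18, 1)]⟩, ⟨1, []⟩, ⟨1, [(18, 1)]⟩, ⟨1, []⟩, ⟨1, [(18, 1)]⟩, ⟨1, [(18, 3), (15, 1), (2, 1)]⟩, ⟨1, []⟩, ⟨1, [(18, 1), (15, 1), (2, 1)]⟩, ⟨1, [(18, 1)]⟩, ⟨1, []⟩, ⟨1, [(0, 1)]⟩])) (.cons (.leaf 0 [⟨1, [(10, 1), (7, 1), (3, 1), (0, 1)]⟩, ⟨1, []⟩, ⟨1, [(10, 1), (7, 1), (3, 1), (0, 3)]⟩, ⟨1, [(6, 1)]⟩, ⟨1, []⟩, ⟨1, [(6, 1)]⟩, ⟨1, []⟩, ⟨1, [(6, 1)]⟩, ⟨1, [(10, 1), (7, 1), (3, 1)]⟩, ⟨1, [(6, 1)]⟩, ⟨1, [(6, 1)]⟩, ⟨1, [(0, 1)]⟩, ⟨1, []⟩, ⟨1, [(6, 1)]⟩, ⟨1, []⟩, ⟨1, [(0, 1)]⟩, ⟨1, []⟩, ⟨1, [(10, 1), (7, 1), (3, 1), (0, 2)]⟩, ⟨1, [(6,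 1)]⟩]) .nil)))))))
def s18_9_n0 : Node := ⟨[⟨[1, 0, 0, -1], -200⟩, ⟨[1, 0, -1], -200⟩, ⟨[1, -1], -200⟩, ⟨[1, 0, -1, -1], 2600⟩, ⟨[0, -1, 0, -1], 4640⟩, ⟨[0, 0, 0, -1], -2354⟩, ⟨[-1, -1, 1, -1], -340⟩, ⟨[-1, 0, 1, -1], -7369⟩, ⟨[0, 1, 1, -1], 239700⟩, ⟨[1, 1, -1], -2366⟩, ⟨[0, 1], -7363⟩, ⟨[-1, -1, 1], 1660⟩, ⟨[-1, 0, 1], -5342⟩, ⟨[-1, 1, 1], -12397⟩, ⟨[0, 1, 0, 1], -5360⟩, ⟨[-1, 0, 1, 1], -3360⟩, ⟨[-1, 1, 1, 1], -10380⟩, ⟨[0, 1, 1, 1], 239700⟩], [1], 0, none, (.ndet 0 [⟨1, [(14, 1), (13, 1), (0, 1)]⟩] (.ddet 1 [⟨1, [(13, 1), (0, 1)]⟩] s18_9_t0))⟩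
def s18_9_t1 : Tree := .ndet 1 [⟨1, [(16, 2), (10, 1), (0, 1)]⟩] (.dbr (.cons (.ndet 0 [⟨1, [(14, 1), (11, 1), (1, 1)]⟩] (.ddet 1 [⟨1, [(11, 1), (1, 1)]⟩] (.split [0, 1, 0, -1] (0) (.leaf 1 [⟨1, [(0, 1)]⟩, ⟨1, [(12, 1), (2, 1), (0, 2)]⟩, ⟨1, [(12, 1), (2, 1)]⟩, ⟨1, []⟩, ⟨1, [(5, 1), (1, 1)]⟩, ⟨1, []⟩, ⟨1, []⟩, ⟨1, [(5, 1), (1, 1)]⟩, ⟨1, [(5, 1), (1, 1)]⟩, ⟨1, []⟩, ⟨1, [(5, 1), (1, 1)]⟩, ⟨1, []⟩, ⟨1, [(5, 1), (1, 1)]⟩, ⟨1, []⟩, ⟨1, [(5, 1), (1, 1)]⟩, ⟨1, [(7, 1), (5, 1), (3, 1)]⟩, ⟨1, [(12, 1), (2, 1)]⟩, ⟨1, []⟩]) (.leaf 3 [⟨1, [(18, 1), (12, 1), (2, 1)]⟩, ⟨1, [(0, 1)]⟩, ⟨1, [(12, 1), (2, 1), (0, 1)]⟩, ⟨1, [(18,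 1)]⟩, ⟨1, []⟩, ⟨1, [(18, 1)]⟩, ⟨1, []⟩, ⟨1, [(18, 1)]⟩, ⟨1, []⟩, ⟨1, [(18, 1)]⟩, ⟨1, [(18, 3), (12, 1), (2, 1)]⟩, ⟨1, [(18, 1)]⟩, ⟨1, []⟩, ⟨1, [(18, 1), (12, 1), (2, 1)]⟩, ⟨1, []⟩, ⟨1, []⟩, ⟨1, [(0, 1)]⟩])))) (.cons (.ndet 0 [⟨1, [(14, 1), (11, 1), (2, 1), (0, 1)]⟩] (.ddet 1 [⟨1, [(11, 1), (2, 1), (0, 2)]⟩] (.leaf 1 [⟨1, [(14, 1)]⟩, ⟨1, [(14, 2), (11, 1), (2, 1), (0, 3)]⟩, ⟨1, [(11, 1), (2, 1), (0, 2)]⟩, ⟨1, []⟩, ⟨1, [(5, 1)]⟩, ⟨1, [(10, 1)]⟩, ⟨1, [(0, 1)]⟩, ⟨1, [(4, 1)]⟩, ⟨1, [(5, 1)]⟩, ⟨1, [(10, 1)]⟩, ⟨1, [(4, 1), (0, 1)]⟩, ⟨1, [(0, 1)]⟩, ⟨1, [(4, 1)]⟩, ⟨1, []⟩, ⟨1, [(5, 1)]⟩, ⟨1, [(6, 1), (4, 1), (2, 1),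 (0, 1)]⟩, ⟨1, [(11, 1), (2, 1), (0, 1)]⟩, ⟨1, [(10, 1)]⟩]))) .nil)))
def s18_9_n1 : Node := ⟨[⟨[0, 1, 0, -1], -200⟩, ⟨[0, 1, -1], -200⟩, ⟨[-1, 1], -200⟩, ⟨[-1, 1, 0, -1], 2680⟩, ⟨[-1, 1, 1, -1], -4369⟩, ⟨[0, 1, 1, -1], -2366⟩, ⟨[-1, 0, -1], 4640⟩, ⟨[-1], -2354⟩, ⟨[0, 0, 1], -7363⟩, ⟨[1, 0, 1], -5373⟩, ⟨[-1, -1, -1, 1], -380⟩, ⟨[0, -1, -1, 1], 1660⟩, ⟨[0, -1, 0, 1], -5342⟩, ⟨[1, -1, 0, 1], -3320⟩, ⟨[1, -1, 1, 1], -10363⟩, ⟨[-1, 0, 1, 1], 239700⟩, ⟨[1, 0, 1, 1], 239700⟩], [0, 1], 0, none, (.ndet 1 [⟨2, [(10, 2), (1, 1), (0, 1)]⟩] (.ddet 0 [⟨1, [(16, 1), (5, 1)]⟩] (.ndet 0 [⟨1, [(16, 1), (10, 1), (5, 1), (0, 1)]⟩]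 (.ddet 1 [⟨1, [(16, 1), (10, 1), (0, 1)]⟩] s18_9_t1))))⟩
def s18_9_t2 : Tree := .dbr (.cons (.ndet 0 [⟨1, [(11, 1), (7, 1), (3, 1)]⟩] (.ddet 1 [⟨1, [(11, 1), (3, 1)]⟩] (.ndet 1 [⟨2, [(12, 2), (5, 1), (3, 1)]⟩] (.ddet 0 [⟨1, [(14, 1)]⟩] (.split [1, 0, -1] (0) (.leaf 0 [⟨1, [(15, 1), (12, 1), (4, 1)]⟩, ⟨1, [(0, 1)]⟩, ⟨1, [(12, 1), (4, 1), (0, 1)]⟩, ⟨1, []⟩, ⟨1, []⟩, ⟨1, [(15, 1)]⟩, ⟨1, [(15, 1)]⟩, ⟨1, [(15, 2)]⟩, ⟨1, [(15, 3), (12, 1), (4, 1)]⟩, ⟨1, []⟩, ⟨1, [(15, 1)]⟩, ⟨1, []⟩, ⟨1, [(15, 1)]⟩, ⟨1, [(15, 2)]⟩, ⟨1, []⟩, ⟨1, []⟩, ⟨1, [(15, 1)]⟩, ⟨1, [(15, 1), (12, 1), (4, 1)]⟩, ⟨1, [(0, 1)]⟩]) (.leaf 2 [⟨1, [(12,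 1), (4, 1), (0, 2)]⟩, ⟨1, [(12, 1), (4, 1)]⟩, ⟨1, [(0, 1)]⟩, ⟨1, [(10, 1), (1, 1)]⟩, ⟨1, []⟩, ⟨1, []⟩, ⟨1, [(10, 1), (1, 1)]⟩, ⟨1, []⟩, ⟨1, [(10, 1), (1, 1)]⟩, ⟨1, []⟩, ⟨1, [(10, 1), (1, 1)]⟩, ⟨1, [(13, 1), (10, 1), (6, 1)]⟩, ⟨1, []⟩, ⟨1, [(12, 1), (4, 1)]⟩, ⟨1, [(10, 1), (1, 1)]⟩, ⟨1, []⟩, ⟨1, []⟩])))))) (.cons (.ndet 0 [⟨1, [(11, 1), (7, 1), (5, 1), (0, 1)]⟩] (.ddet 1 [⟨1, [(11, 1), (5, 1), (0, 2)]⟩] (.ndet 1 [⟨1, [(12, 1), (5, 1), (0, 2)]⟩] (.ddet 0 [⟨1, [(7, 1), (0, 1)]⟩] (.leaf 2 [⟨1, [(11, 1), (7, 2), (5, 1), (0, 3)]⟩, ⟨1, [(11, 1), (5, 1), (0, 2)]⟩, ⟨1, [(7, 1)]⟩, ⟨1, [(9, 1), (0, 1)]⟩, ⟨1, [(0, 1)]⟩,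 ⟨1, [(0, 1)]⟩, ⟨1, [(9, 1)]⟩, ⟨1, []⟩, ⟨1, [(9, 1)]⟩, ⟨1, []⟩, ⟨1, [(10, 1)]⟩, ⟨1, [(12, 1), (9, 1), (5, 1), (0, 1)]⟩, ⟨1, [(8, 1)]⟩, ⟨1, [(11, 1), (5, 1), (0, 1)]⟩, ⟨1, [(10, 1)]⟩, ⟨1, [(8, 1)]⟩, ⟨1, [(8, 1)]⟩]))))) .nil))
def s18_9_n2 : Node := ⟨[⟨[0, 0, 1, -1], -200⟩, ⟨[0, -1, 1], -200⟩, ⟨[-1, 0, 1], -200⟩, ⟨[1, -1, -1, -1], 601⟩, ⟨[1, 0, -1, -1], 2640⟩, ⟨[0, -1, 0, -1], 4640⟩, ⟨[1, 0, -1], -4362⟩, ⟨[1, 1, -1], -2340⟩, ⟨[0, -1], -2354⟩, ⟨[-1, -1, 1], 1660⟩, ⟨[1, 1, -1, 1], -9378⟩, ⟨[1, -1, 0, 1], 239700⟩, ⟨[0, 1, 0, 1], -5373⟩, ⟨[1, 1, 0, 1], 239700⟩, ⟨[-1, -1, 1, 1], -5373⟩, ⟨[-1, 0, 1, 1], -3370⟩], [0,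 0, 1], 0, none, (.ndet 0 [⟨1, [(13, 1), (11, 1), (10, 1), (2, 1)]⟩] (.ddet 1 [⟨1, [(13, 1), (10, 1), (2, 1)]⟩] (.ndet 1 [⟨1, [(13, 2), (10, 1), (2, 1)]⟩] s18_9_t2)))⟩
def s18_9_t3 : Tree := .dbr (.cons (.ndet 0 [⟨1, [(8, 1), (3, 1), (2, 1)]⟩] (.ddet 1 [⟨1, [(8, 1), (3, 1)]⟩] (.ndet 1 [⟨2, [(12, 2), (6, 1), (3, 1)]⟩] (.ddet 0 [⟨1, [(15, 1), (12, 1)]⟩] (.ndet 0 [⟨1, [(15, 1), (12, 1), (8, 1), (3, 1)]⟩] (.ddet 1 [⟨1, [(15, 1), (8, 1), (3, 1)]⟩] (.split [0, 1, 0, -1] (0) (.leaf 1 [⟨1, [(0, 1)]⟩, ⟨1, [(9, 1), (4, 1), (0, 1)]⟩, ⟨1, [(16, 1), (9, 1), (4, 1)]⟩, ⟨1, []⟩, ⟨1, [(16, 1)]⟩, ⟨1, []⟩, ⟨1, []⟩, ⟨1, [(16, 1)]⟩,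 ⟨1, [(16, 1)]⟩, ⟨1, []⟩, ⟨1, [(16, 1)]⟩, ⟨1, []⟩, ⟨1, [(16, 1)]⟩, ⟨1, []⟩, ⟨1, [(16, 1)]⟩, ⟨1, [(16, 3), (9, 1), (4, 1)]⟩, ⟨1, [(16, 1), (9, 1), (4, 1)]⟩, ⟨1, [(0, 1)]⟩]) (.leaf 3 [⟨1, [(9, 1), (4, 1)]⟩, ⟨1, [(0, 1)]⟩, ⟨1, [(9, 1), (4, 1), (0, 2)]⟩, ⟨1, [(11, 1), (1, 1)]⟩, ⟨1, []⟩, ⟨1, [(11, 1), (1, 1)]⟩, ⟨1, []⟩, ⟨1, [(11, 1), (1, 1)]⟩, ⟨1, []⟩, ⟨1, [(11, 1), (1, 1)]⟩, ⟨1, [(13, 1), (11, 1), (7, 1)]⟩, ⟨1, [(11, 1), (1, 1)]⟩, ⟨1, []⟩, ⟨1, [(9, 1), (4, 1)]⟩, ⟨1, []⟩, ⟨1, []⟩, ⟨1, []⟩])))))))) (.cons (.ndet 0 [⟨1, [(8, 1), (6, 1), (2, 1), (0, 1)]⟩] (.ddet 1 [⟨1, [(8, 1), (6, 1), (0, 2)]⟩] (.ndet 1 [⟨1, [(12, 1),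 (6, 1), (0, 2)]⟩] (.ddet 0 [⟨1, [(8, 1), (0, 1)]⟩] (.ndet 0 [⟨1, [(8, 2), (6, 1), (0, 3)]⟩] (.ddet 1 [⟨1, [(8, 1), (6, 1), (2, 1), (0, 2)]⟩] (.leaf 3 [⟨1, [(8, 1), (6, 1), (0, 2)]⟩, ⟨1, [(2, 1)]⟩, ⟨1, [(8, 1), (6, 1), (2, 2), (0, 2)]⟩, ⟨1, [(10, 1)]⟩, ⟨1, []⟩, ⟨1, [(10, 1)]⟩, ⟨1, []⟩, ⟨1, [(10, 1)]⟩, ⟨1, []⟩, ⟨1, [(10, 1)]⟩, ⟨1, [(12, 1), (10, 1), (6, 1), (0, 2)]⟩, ⟨1, [(10, 1)]⟩, ⟨1, []⟩, ⟨1, [(8, 1), (6, 1), (0, 2)]⟩, ⟨1, []⟩, ⟨1, []⟩, ⟨1, [(7, 1)]⟩]))))))) .nil))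
def s18_9_n3 : Node := ⟨[⟨[0, 0, -1, 1], -200⟩, ⟨[0, -1, 0, 1], -200⟩, ⟨[-1, 0, 0, 1], -200⟩, ⟨[-1, 1, -1, -1], 640⟩, ⟨[-1, 1, 0, -1], 2680⟩, ⟨[0, 1, 0, -1], -4362⟩, ⟨[0, 1, 1, -1], -2340⟩, ⟨[1, 1, 1, -1], -9381⟩, ⟨[-1, 0, -1], 4640⟩, ⟨[0, 0, -1], -2354⟩, ⟨[1, 1, -1], 239700⟩, ⟨[1], -7363⟩, ⟨[1, 0, 1], -5360⟩, ⟨[1, 1, 1], 239700⟩, ⟨[0, -1, -1, 1], 1660⟩, ⟨[1, -1, 0, 1], -3320⟩], [0, 0, 0, 1], 0, none, (.ndet 1 [⟨1, [(14, 2), (11, 1), (7, 1), (2, 1)]⟩] s18_9_t3)⟩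
def s18_9 : Sys := ⟨[(1, -4000), (4, 2000)], [(0, 1000), (3, -1000)], 4, [s18_9_n0, s18_9_n1, s18_9_n2, s18_9_n3], [-7000, 441986, 2000, 445986], (.leaf 3 [⟨1, []⟩, ⟨1, []⟩, ⟨1, []⟩, ⟨1, []⟩, ⟨1, []⟩, ⟨1, []⟩, ⟨1, []⟩, ⟨1, []⟩, ⟨1, []⟩, ⟨1, []⟩, ⟨1, []⟩, ⟨1, []⟩, ⟨1, []⟩, ⟨1, []⟩, ⟨1, []⟩, ⟨1, []⟩])⟩

theorem s18_9_ok : s18_9.ok = true := by decide +kernel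

def s18_11_n0 : Node := ⟨[⟨[1, 0, 0, -1], 192⟩, ⟨[1], 136⟩, ⟨[1, 0, -1], 64⟩, ⟨[0, 0, 1], 24⟩, ⟨[0, -1], -24⟩, ⟨[0, -1, 1], 72⟩, ⟨[1], 176⟩, ⟨[1, 0, -1], 176⟩, ⟨[2, 0, -1], 304⟩, ⟨[1, 0, -1], 200⟩], [1], 0, none, (.ndet 0 [⟨1, [(9, 1)]⟩] (.ddet 1 [⟨1, [(6, 1), (0, 1)]⟩, ⟨1, [(0, 1)]⟩] (.ndet 1 [⟨1, [(6, 1)]⟩] (.ddet 1 [⟨1, []⟩, ⟨1, [(5, 1)]⟩] (.ndet 0 [⟨1, [(4, 1)]⟩] (.ddet 2 [⟨1, [(6, 1), (0, 1)]⟩, ⟨1, [(0, 1)]⟩] (.ndet 1 [⟨1, [(6, 1), (0, 2)]⟩] (.ddet 0 [⟨1, [(0, 1)]⟩, ⟨1, []⟩] (.leaf 0 [⟨1, [(6, 1), (0, 1)]⟩, ⟨1, [(6, 1), (0, 1)]⟩, ⟨1, [(0, 1)]⟩, ⟨1, [(6, 1)]⟩, ⟨1, [(0, 1)]⟩, ⟨1, [(6, 1), (0, 1)]⟩, ⟨1, [(6,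 1), (0, 1)]⟩, ⟨1, [(0, 1)]⟩, ⟨1, [(6, 1), (0, 2)]⟩, ⟨1, [(0, 1)]⟩, ⟨1, []⟩])))))))))⟩
def s18_11 : Sys := ⟨[(1, 16), (4, 80)], [(0, -32), (1, 16), (3, -64)], 4, [s18_11_n0], [320, -32, 112, 0], (.leaf 0 [⟨1, []⟩, ⟨1, []⟩, ⟨1, []⟩, ⟨1, []⟩, ⟨1, []⟩, ⟨1, []⟩, ⟨1, []⟩, ⟨1, []⟩, ⟨1, []⟩, ⟨1, []⟩])⟩

theorem s18_11_ok : s18_11.ok = true := by decide +kernel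

def s19_15_n0 : Node := ⟨[⟨[1], 48⟩, ⟨[1, 0, 0, -1], 40⟩, ⟨[1], 24⟩, ⟨[1, -1], 48⟩, ⟨[1, 0, -1], 48⟩, ⟨[0, 0, -1], 16⟩, ⟨[1], 16⟩, ⟨[1, -1], 24⟩, ⟨[0, -1], 0⟩, ⟨[1], 32⟩, ⟨[2], 72⟩, ⟨[1], 40⟩, ⟨[1], 56⟩], [1], 0, none, (.ndet 1 [⟨1, [(0, 1)]⟩, ⟨1, [(11, 1)]⟩] (.ddet 1 [⟨1, [(0, 1)]⟩, ⟨1, [(4, 1), (0, 1)]⟩, ⟨1, [(7, 1), (0, 1)]⟩] (.ndet 0 [⟨1, []⟩, ⟨1, [(7, 1)]⟩] (.ddet 2 [⟨1, [(0, 1)]⟩, ⟨1, [(0, 1)]⟩, ⟨1, [(4, 1), (0, 1)]⟩] (.ndet 0 [⟨1, [(0, 1)]⟩, ⟨1, [(4, 1)]⟩] (.ddet 3 [⟨1, [(0, 1)]⟩, ⟨1, [(0, 2)]⟩, ⟨1, [(0, 1)]⟩] (.ndet 2 [⟨1, [(0, 1)]⟩, ⟨1, [(0, 2)]⟩] (.ddet 0 [⟨1, [(0, 1)]⟩, ⟨1, [(0, 1)]⟩, ⟨1, []⟩] (.leaf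 0 [⟨1, [(0, 1)]⟩, ⟨1, [(0, 1)]⟩, ⟨1, [(0, 1)]⟩, ⟨1, [(0, 2)]⟩, ⟨1, [(0, 2)]⟩, ⟨1, [(0, 1)]⟩, ⟨1, [(0, 1)]⟩, ⟨1, [(0, 2)]⟩, ⟨1, [(0, 1)]⟩, ⟨1, [(0, 1)]⟩, ⟨1, [(0, 2)]⟩, ⟨1, [(0, 1)]⟩, ⟨1, [(0, 1)]⟩, ⟨1, []⟩])))))))))⟩
def s19_15 : Sys := ⟨[(0, 16), (1, -16), (4, 0)], [(0, -16), (1, 0), (2, 16), (3, -16)], 4, [s19_15_n0], [64, -16, -48, 0], (.leaf 0 [⟨1, []⟩, ⟨1, []⟩, ⟨1, []⟩, ⟨1, []⟩, ⟨1, []⟩, ⟨1, []⟩, ⟨1, []⟩, ⟨1, []⟩, ⟨1, []⟩, ⟨1, []⟩, ⟨1, []⟩, ⟨1, []⟩, ⟨1, []⟩])⟩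

theorem s19_15_ok : s19_15.ok = true := by decide +kernel

def s25_3_n0 : Node := ⟨[⟨[0, 0, 1], 0⟩, ⟨[0, 0, 1, -1], 24⟩, ⟨[1], 48⟩, ⟨[0, 0, 1], -8⟩, ⟨[0, -1, 1], 16⟩, ⟨[-1, 0, 1], -32⟩, ⟨[1, -1], 40⟩, ⟨[2, 0, -1], 72⟩, ⟨[2, 0, -1], 80⟩, ⟨[1], 56⟩], [1], 0, none, (.ndet 1 [⟨1, [(4, 1), (0, 1)]⟩, ⟨1, [(8, 1)]⟩] (.ddet 1 [⟨1, [(0, 1)]⟩] (.ndet 2 [⟨1, [(4, 1), (0, 1)]⟩, ⟨1, [(5, 1)]⟩] (.ddet 1 [⟨1, [(4, 1)]⟩] (.leaf 0 [⟨1, [(0, 1)]⟩, ⟨1, [(3, 1)]⟩, ⟨1, [(0, 1)]⟩, ⟨1, [(0, 1)]⟩, ⟨1, [(1, 1)]⟩, ⟨1, []⟩, ⟨1, [(1, 1)]⟩, ⟨1, [(0, 1)]⟩, ⟨1, [(0, 1)]⟩, ⟨1, [(0, 1)]⟩, ⟨1, []⟩])))))⟩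
def s25_3 : Sys := ⟨[(0, -32), (3, 48), (4, 64)], [(0, 0), (1, 0)], 4, [s25_3_n0], [96, 32, 80, 48], (.leaf 0 [⟨1, []⟩, ⟨1, []⟩, ⟨1, []⟩, ⟨1, []⟩, ⟨1, []⟩, ⟨1, []⟩, ⟨1, []⟩, ⟨1, []⟩, ⟨1, []⟩, ⟨1, []⟩])⟩

theorem s25_3_ok : s25_3.ok = true := by decide +kernel

def s27_21_n0 : Node := ⟨[⟨[0, 0, 1], 72⟩, ⟨[-1, 0, 1], 104⟩, ⟨[0, 0, 1, -1], 48⟩, ⟨[0, -1], -80⟩, ⟨[0, 0, 0, -1], -40⟩, ⟨[0, 0, 1], 112⟩, ⟨[0, -1, 1], 112⟩, ⟨[0, 0, 1], 160⟩, ⟨[-1, 0, 1], 168⟩, ⟨[-1], 80⟩, ⟨[0, 0, 1], 136⟩, ⟨[0, -1, 1], 48⟩], [0, 0, 1], 0, none, (.ndet 2 [⟨1, [(4, 1)]⟩, ⟨1, [(4, 1), (2, 1)]⟩, ⟨1, [(7, 1), (4, 1)]⟩] (.ddet 0 [⟨1, [(8,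 1)]⟩, ⟨1, [(7, 1)]⟩] (.ndet 1 [⟨1, [(4, 1)]⟩, ⟨1, [(5, 1)]⟩, ⟨1, []⟩] (.ddet 2 [⟨1, [(4, 1)]⟩, ⟨1, [(4, 1), (2, 1)]⟩] (.ndet 1 [⟨1, []⟩, ⟨1, [(2, 1)]⟩, ⟨1, [(8, 1)]⟩] (.ddet 1 [⟨1, [(4, 1)]⟩, ⟨1, [(5, 1)]⟩] (.leaf 0 [⟨1, [(4, 1)]⟩, ⟨1, [(4, 2)]⟩, ⟨1, [(4, 1), (2, 1)]⟩, ⟨1, []⟩, ⟨1, [(2, 1)]⟩, ⟨1, [(4, 1)]⟩, ⟨1, [(4, 1)]⟩, ⟨1, [(4, 1)]⟩, ⟨1, [(4, 2)]⟩, ⟨1, [(4, 1)]⟩, ⟨1, [(4, 1)]⟩, ⟨1, [(4, 1)]⟩, ⟨1, []⟩])))))))⟩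
def s27_21 : Sys := ⟨[(0, 16), (1, -32), (3, 80), (4, -64)], [(0, 48), (2, -48), (4, -64)], 4, [s27_21_n0], [-112, 64, 208, -32], (.leaf 0 [⟨1, []⟩, ⟨1, []⟩, ⟨1, []⟩, ⟨1, []⟩, ⟨1, []⟩, ⟨1, []⟩, ⟨1, []⟩, ⟨1, []⟩, ⟨1, []⟩, ⟨1, []⟩, ⟨1, []⟩, ⟨1, []⟩])⟩

theorem s27_21_ok : s27_21.ok = true := by decide +kernel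

def s28_5_t0 : Tree := .nbr (.cons (.prune [(23, 1), (12, 2), (6, 1), (4, 2), (0, 6)]) (.cons (.ddet 0 [⟨1, []⟩] (.ndet 2 [⟨1, [(20, 1), (17, 1)]⟩, ⟨1, [(20, 1), (17, 1)]⟩] (.ddet 0 [⟨1, []⟩] (.leaf 0 [⟨1, [(20, 1), (17, 1)]⟩, ⟨1, [(20, 1), (17, 1)]⟩, ⟨1, []⟩, ⟨1, []⟩, ⟨1, [(20, 2), (17, 2)]⟩, ⟨1, []⟩, ⟨1, [(20, 2), (17, 2)]⟩, ⟨1, []⟩, ⟨1, []⟩, ⟨1, [(20, 1), (17, 1)]⟩, ⟨1, [(20, 1), (17, 1)]⟩, ⟨1, []⟩, ⟨1, []⟩, ⟨1, [(20, 1), (17, 1)]⟩, ⟨1, []⟩, ⟨1, []⟩, ⟨1, []⟩, ⟨1, [(20, 1), (17, 1)]⟩, ⟨1, []⟩, ⟨1, []⟩, ⟨1, [(20, 1), (17, 1)]⟩, ⟨1, []⟩, ⟨1, []⟩, ⟨1, []⟩, ⟨1, []⟩])))) (.cons (.ddet 0 [⟨1, []⟩] (.ndet 2 [⟨1,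 [(20, 1), (17, 1)]⟩, ⟨1, [(20, 1), (17, 1)]⟩] (.ddet 0 [⟨1, []⟩] (.leaf 0 [⟨1, [(20, 1), (17, 1)]⟩, ⟨1, [(20, 1), (17, 1)]⟩, ⟨1, [(3, 1)]⟩, ⟨1, [(3, 1)]⟩, ⟨1, [(20, 2), (17, 2), (0, 1)]⟩, ⟨1, [(3, 1)]⟩, ⟨1, [(20, 2), (17, 2), (0, 1)]⟩, ⟨1, [(3, 1)]⟩, ⟨1, []⟩, ⟨1, [(20, 1), (17, 1)]⟩, ⟨1, [(20, 1), (17, 1), (0, 1)]⟩, ⟨1, [(3, 1)]⟩, ⟨1, []⟩, ⟨1, [(20, 1), (17, 1), (0, 1)]⟩, ⟨1, [(3, 1)]⟩, ⟨1, []⟩, ⟨1, [(0, 1)]⟩, ⟨1, [(20, 1), (17, 1), (0, 1)]⟩, ⟨1, []⟩, ⟨1, [(0, 1)]⟩, ⟨1, [(20, 1), (17, 1), (0, 1)]⟩, ⟨1, [(3, 1)]⟩, ⟨1, []⟩, ⟨1, [(0, 1)]⟩, ⟨1, []⟩])))) .nil)))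
def s28_5_t1 : Tree := .nbr (.cons (.ddet 1 [⟨1, [(18, 1), (15, 1)]⟩] s28_5_t0) (.cons (.ddet 1 [⟨1, [(18, 1), (16, 1), (1, 1)]⟩] (.ndet 2 [⟨1, [(18, 1), (16, 1), (1, 2)]⟩, ⟨1, [(1, 1)]⟩] (.ddet 0 [⟨1, []⟩] (.ndet 2 [⟨1, [(18, 1), (16, 1)]⟩, ⟨1, [(18, 1), (16, 1), (1, 1)]⟩] (.ddet 0 [⟨1, [(25, 1)]⟩] (.leaf 1 [⟨1, [(18, 1), (16, 1), (1, 2)]⟩, ⟨1, [(18, 1), (16, 1), (1, 1)]⟩, ⟨1, [(1, 1)]⟩, ⟨1, []⟩, ⟨1, [(18, 1), (16, 1), (1, 1)]⟩, ⟨1, [(18, 2), (16, 2), (1, 2)]⟩, ⟨1, []⟩, ⟨1, [(18, 1), (16, 1), (1, 1)]⟩, ⟨1, [(18, 1), (16, 1), (1, 2)]⟩, ⟨1, [(1, 1)]⟩, ⟨1, [(18, 1), (16, 1), (1, 1)]⟩, ⟨1, []⟩, ⟨1, [(18, 1), (16,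 1), (1, 1)]⟩, ⟨1, [(18, 2), (16, 2), (1, 2)]⟩, ⟨1, []⟩, ⟨1, [(18, 1), (16, 1), (1, 1)]⟩, ⟨1, [(1, 1)]⟩, ⟨1, [(1, 1)]⟩])))))) (.cons (.prune [(18, 1), (1, 1)]) .nil)))
def s28_5_t2 : Tree := .nbr (.cons (.ddet 1 [⟨1, [(19, 1), (16, 1), (1, 1)]⟩] (.ndet 2 [⟨1, [(19, 1), (16, 1)]⟩, ⟨1, [(28, 1)]⟩] (.ddet 0 [⟨1, []⟩] (.split [1, 0, 0, -1] (0) (.leaf 0 [⟨1, [(0, 1)]⟩, ⟨1, [(20, 1), (17, 1)]⟩, ⟨1, [(20, 1), (17, 1)]⟩, ⟨1, [(0, 1)]⟩, ⟨1, [(0, 1)]⟩, ⟨1, [(0, 1)]⟩, ⟨1, [(0, 1)]⟩, ⟨1, [(20, 1), (17, 1)]⟩, ⟨1, []⟩, ⟨1, [(20, 1), (17, 1)]⟩, ⟨1, []⟩, ⟨1, [(20, 1), (17, 1)]⟩, ⟨1, []⟩, ⟨1, []⟩, ⟨1, [(20, 2), (17, 2), (2, 1)]⟩,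 ⟨1, [(20, 1), (17, 1), (2, 1)]⟩, ⟨1, [(2, 1)]⟩, ⟨1, [(20, 1), (17, 1), (2, 1)]⟩, ⟨1, [(20, 1), (17, 1), (2, 1)]⟩, ⟨1, [(2, 1)]⟩, ⟨1, [(20, 1), (17, 1), (2, 1)]⟩, ⟨1, [(20, 2), (17, 2), (2, 1)]⟩, ⟨1, [(20, 1), (17, 1), (2, 1)]⟩, ⟨1, [(2, 1)]⟩, ⟨1, []⟩]) (.leaf 3 [⟨2, [(24, 1), (23, 1), (20, 2), (0, 4)]⟩, ⟨2, [(24, 1), (23, 1), (20, 2), (0, 4)]⟩, ⟨1, [(0, 1)]⟩, ⟨1, [(29, 1)]⟩, ⟨1, [(29, 1)]⟩, ⟨1, [(29, 1)]⟩, ⟨1, []⟩, ⟨2, [(24, 1), (23, 1), (20, 2), (0, 2)]⟩, ⟨1, []⟩, ⟨2, [(24, 1), (23, 1), (20, 2), (0, 2)]⟩, ⟨1, []⟩, ⟨2, [(24, 1), (23, 1), (20, 2), (0, 2)]⟩, ⟨1, []⟩, ⟨1, []⟩, ⟨1, [(0, 1)]⟩, ⟨1, [(0, 1)]⟩, ⟨1,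 [(0, 1)]⟩, ⟨2, [(24, 1), (23, 1), (20, 2), (0, 4)]⟩, ⟨1, [(0, 1)]⟩, ⟨1, [(0, 1)]⟩, ⟨1, [(0, 1)]⟩, ⟨1, [(0, 1)]⟩]))))) (.cons (.ddet 1 [⟨1, [(8, 1), (2, 1)]⟩] (.ndet 2 [⟨1, [(19, 1), (16, 1)]⟩, ⟨1, [(1, 1)]⟩] (.ddet 0 [⟨1, []⟩] (.leaf 0 [⟨1, [(1, 1)]⟩, ⟨1, [(19, 1), (16, 1)]⟩, ⟨1, [(8, 1), (2, 1)]⟩, ⟨1, []⟩, ⟨1, [(1, 2)]⟩, ⟨1, []⟩, ⟨1, [(1, 2)]⟩, ⟨1, [(8, 1), (2, 1)]⟩, ⟨1, []⟩, ⟨1, [(19, 1), (16, 1)]⟩, ⟨1, [(1, 1)]⟩, ⟨1, [(8, 1), (2, 1)]⟩, ⟨1, []⟩, ⟨1, [(1, 1)]⟩, ⟨1, [(8, 2), (2, 2)]⟩, ⟨1, [(8, 1), (2, 1)]⟩, ⟨1, []⟩, ⟨1, [(19, 1), (16, 1)]⟩, ⟨1, [(8, 1), (2, 1)]⟩, ⟨1, []⟩, ⟨1, [(19, 1), (16, 1)]⟩, ⟨1, [(8, 2),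 (2, 2)]⟩, ⟨1, [(8, 1), (2, 1)]⟩, ⟨1, []⟩, ⟨1, []⟩])))) (.cons (.prune [(23, 1), (11, 1), (2, 1), (0, 1)]) .nil)))
def s28_5_t3 : Tree := .nbr (.cons (.ddet 1 [⟨1, [(19, 1), (16, 1), (1, 1)]⟩] (.ndet 2 [⟨1, [(19, 1), (16, 1)]⟩, ⟨2, [(25, 1), (23, 1), (2, 4)]⟩] (.ddet 0 [⟨1, []⟩] (.leaf 0 [⟨2, [(25, 1), (23, 1), (2, 4)]⟩, ⟨1, [(19, 1), (16, 1)]⟩, ⟨1, [(19, 1), (16, 1)]⟩, ⟨2, [(25, 1), (23, 1), (2, 4)]⟩, ⟨2, [(25, 1), (23, 1), (2, 4)]⟩, ⟨2, [(25, 1), (23, 1), (2, 4)]⟩, ⟨2, [(25, 1), (23, 1), (2, 4)]⟩, ⟨1, [(19, 1), (16, 1)]⟩, ⟨1, []⟩, ⟨1, [(19, 1), (16, 1)]⟩, ⟨1, []⟩, ⟨1, [(19, 1), (16, 1)]⟩, ⟨1, []⟩, ⟨1, []⟩,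 ⟨1, [(19, 2), (16, 2), (1, 1)]⟩, ⟨1, [(19, 1), (16, 1), (1, 1)]⟩, ⟨1, [(1, 1)]⟩, ⟨1, [(19, 1), (16, 1), (1, 1)]⟩, ⟨1, [(19, 1), (16, 1), (1, 1)]⟩, ⟨1, [(1, 1)]⟩, ⟨1, [(19, 1), (16, 1), (1, 1)]⟩, ⟨1, [(19, 2), (16, 2), (1, 1)]⟩, ⟨1, [(19, 1), (16, 1), (1, 1)]⟩, ⟨1, [(1, 1)]⟩, ⟨1, []⟩])))) (.cons (.dbr (.cons (.ndet 2 [⟨1, [(20, 1), (17, 1)]⟩, ⟨1, [(20, 1), (17, 1), (0, 1)]⟩] (.ddet 0 [⟨1, []⟩] (.leaf 0 [⟨1, [(20, 1), (17, 1), (0, 1)]⟩, ⟨1, [(20, 1), (17, 1)]⟩, ⟨1, []⟩, ⟨1, [(0, 1)]⟩, ⟨1, [(20, 2), (17, 2), (0, 1)]⟩, ⟨1, [(0, 1)]⟩, ⟨1, [(20, 2), (17, 2), (0, 1)]⟩, ⟨1, []⟩, ⟨1, []⟩, ⟨1, [(20, 1), (17, 1)]⟩, ⟨1,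 [(20, 1), (17, 1)]⟩, ⟨1, []⟩, ⟨1, []⟩, ⟨1, [(20, 1), (17, 1)]⟩, ⟨1, [(5, 1)]⟩, ⟨1, [(5, 1)]⟩, ⟨1, [(5, 1)]⟩, ⟨1, [(20, 1), (17, 1), (5, 1)]⟩, ⟨1, [(5, 1)]⟩, ⟨1, [(5, 1)]⟩, ⟨1, [(20, 1), (17, 1), (5, 1)]⟩, ⟨1, [(5, 1)]⟩, ⟨1, [(5, 1)]⟩, ⟨1, [(5, 1)]⟩, ⟨1, []⟩]))) (.cons (.ndet 2 [⟨1, [(20, 1), (17, 1)]⟩, ⟨1, [(2, 1)]⟩] (.ddet 0 [⟨1, []⟩] (.leaf 0 [⟨1, [(2, 1)]⟩, ⟨1, [(20, 1), (17, 1)]⟩, ⟨1, [(0, 1)]⟩, ⟨1, []⟩, ⟨1, [(2, 2)]⟩, ⟨1, []⟩, ⟨1, [(2, 2)]⟩, ⟨1, [(0, 1)]⟩, ⟨1, []⟩, ⟨1, [(20, 1), (17, 1)]⟩, ⟨1, [(2, 1)]⟩, ⟨1, [(0, 1)]⟩, ⟨1, []⟩, ⟨1, [(2, 1)]⟩, ⟨1, [(0, 2)]⟩, ⟨1, [(0, 1)]⟩, ⟨1, []⟩, ⟨1, [(20, 1), (17, 1)]⟩,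 ⟨1, [(0, 1)]⟩, ⟨1, []⟩, ⟨1, [(20, 1), (17, 1)]⟩, ⟨1, [(0, 2)]⟩, ⟨1, [(0, 1)]⟩, ⟨1, []⟩, ⟨1, []⟩]))) .nil))) (.cons (.prune [(25, 1), (23, 3), (11, 2), (4, 2), (0, 4)]) .nil)))
def s28_5_t4 : Tree := .nbr (.cons (.ddet 1 [⟨2, [(5, 1), (0, 1)]⟩] s28_5_t1) (.cons (.prune [(22, 1), (9, 1), (8, 2), (1, 2), (0, 2)]) (.cons (.dbr (.cons (.ndet 0 [⟨1, [(17, 1), (14, 1), (0, 1)]⟩, ⟨1, [(17, 1)]⟩] (.ddet 1 [⟨1, [(17, 1), (14, 1)]⟩] s28_5_t2)) (.cons (.ndet 0 [⟨2, [(21, 1), (17, 1), (2, 1)]⟩, ⟨1, [(17, 1)]⟩] (.ddet 1 [⟨1, [(17, 1), (14, 1)]⟩] s28_5_t3)) .nil))) .nil)))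
def s28_5_n0 : Node := ⟨[⟨[1, 0, 0, -1], -200⟩, ⟨[1, 0, -1], -200⟩, ⟨[1, -1], -200⟩, ⟨[1, -1, -1, -1], -2280⟩, ⟨[1, 1, -1, -1], -320⟩, ⟨[1, -1, 1, -1], -320⟩, ⟨[1, 1, 1, -1], 1720⟩, ⟨[1, -1, -1], -1280⟩, ⟨[0, 0, -1], -1320⟩, ⟨[1, 0, -1], 179700⟩, ⟨[0, 1, -1], -340⟩, ⟨[1, -1, 1], 720⟩, ⟨[0, 0, 1], 680⟩, ⟨[0, 1, 1], 1700⟩, ⟨[1, -1, -1, 1], -300⟩, ⟨[0, 0, -1, 1], -340⟩, ⟨[-1, 1, -1, 1], -2380⟩, ⟨[0, 1, -1, 1], 179000⟩, ⟨[0, 0, 0, 1], 680⟩, ⟨[-1, 1, 0, 1], -1360⟩, ⟨[0, 1, 0, 1], 179700⟩, ⟨[1, -1, 1, 1], 1740⟩, ⟨[0, 0, 1, 1], 1660⟩, ⟨[-1, 1, 1, 1], -380⟩], [1], 0, none, s28_5_t4⟩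
def s28_5_t5 : Tree := .dbr (.cons (.ndet 2 [⟨1, [(13, 1), (7, 1)]⟩, ⟨1, [(13, 1), (7, 1), (0, 1)]⟩] (.ddet 0 [⟨1, []⟩] (.ndet 0 [⟨1, [(13, 1), (7, 1)]⟩, ⟨1, [(13, 1), (7, 1), (0, 1)]⟩] (.ddet 1 [⟨1, [(13, 1), (7, 1)]⟩] (.leaf 1 [⟨1, [(13, 1), (7, 1)]⟩, ⟨1, []⟩, ⟨1, [(13, 1), (7, 1)]⟩, ⟨1, []⟩, ⟨1, []⟩, ⟨1, []⟩, ⟨1, []⟩, ⟨1, []⟩, ⟨1, [(13, 1), (7, 1)]⟩, ⟨1, [(13, 1), (7, 1)]⟩, ⟨1, []⟩, ⟨1, []⟩, ⟨1, []⟩, ⟨1, []⟩, ⟨1, []⟩, ⟨1, []⟩, ⟨1, [(13, 1), (7, 1)]⟩, ⟨1, []⟩]))))) (.cons (.ndet 2 [⟨1, [(13, 1), (7, 1)]⟩, ⟨1, [(2, 1)]⟩] (.ddet 0 [⟨1, []⟩] (.nbr (.cons (.ddet 1 [⟨2, [(15, 1), (9, 1), (0, 1)]⟩] (.leaf 1 [⟨1,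 [(15, 1), (9, 1)]⟩, ⟨1, [(2, 1)]⟩, ⟨1, [(15, 1), (9, 1)]⟩, ⟨1, [(2, 1)]⟩, ⟨1, [(2, 1)]⟩, ⟨1, [(2, 1)]⟩, ⟨1, []⟩, ⟨1, []⟩, ⟨1, [(15, 1), (9, 1)]⟩, ⟨2, [(15, 1), (9, 1), (0, 1)]⟩, ⟨1, []⟩, ⟨1, [(2, 1)]⟩, ⟨1, [(2, 1)]⟩, ⟨1, [(2, 1)]⟩, ⟨1, []⟩, ⟨1, []⟩, ⟨2, [(15, 1), (9, 1), (0, 1)]⟩, ⟨1, []⟩])) (.cons (.prune [(15, 2), (12, 1), (7, 1), (1, 3), (0, 2)]) (.cons (.dbr (.cons (.leaf 1 [⟨1, [(16, 1), (10, 1)]⟩, ⟨1, [(16, 1), (10, 1), (0, 1)]⟩, ⟨1, [(5, 1)]⟩, ⟨1, []⟩, ⟨1, [(16, 1), (10, 1), (0, 1)]⟩, ⟨1, [(16, 2), (10, 2), (0, 2)]⟩, ⟨1, []⟩, ⟨1, [(16, 1), (10, 1), (0, 1)]⟩, ⟨1, [(16, 1), (10, 1)]⟩, ⟨1, [(5, 1)]⟩, ⟨1,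 [(16, 1), (10, 1), (0, 1)]⟩, ⟨1, []⟩, ⟨1, [(16, 1), (10, 1), (0, 1)]⟩, ⟨1, [(16, 2), (10, 2), (0, 2)]⟩, ⟨1, []⟩, ⟨1, [(16, 1), (10, 1), (0, 1)]⟩, ⟨1, [(5, 1)]⟩, ⟨1, []⟩]) (.cons (.leaf 1 [⟨1, [(16, 1), (10, 1)]⟩, ⟨2, [(16, 1), (10, 1), (2, 1)]⟩, ⟨1, [(0, 2)]⟩, ⟨1, [(0, 1)]⟩, ⟨2, [(16, 1), (10, 1), (2, 1)]⟩, ⟨2, [(16, 1), (10, 1), (2, 3)]⟩, ⟨1, []⟩, ⟨1, [(2, 1)]⟩, ⟨1, [(16, 1), (10, 1)]⟩, ⟨1, [(0, 1)]⟩, ⟨1, [(2, 1)]⟩, ⟨1, [(0, 1)]⟩, ⟨2, [(16, 1), (10, 1), (2, 1)]⟩, ⟨2, [(16, 1), (10, 1), (2, 3)]⟩, ⟨1, []⟩, ⟨1, [(2, 1)]⟩, ⟨1, [(0, 1)]⟩, ⟨1, []⟩]) .nil))) .nil)))))) .nil))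
def s28_5_t6 : Tree := .dbr (.cons (.ndet 2 [⟨1, [(13, 1), (7, 1)]⟩, ⟨1, [(13, 1), (7, 1), (0, 1)]⟩] (.ddet 0 [⟨1, []⟩] (.ndet 0 [⟨1, [(13, 1), (7, 1), (1, 1)]⟩, ⟨1, [(13, 1), (7, 1), (1, 1), (0, 1)]⟩] (.ddet 1 [⟨1, [(13, 1), (7, 1), (1, 1)]⟩] (.leaf 1 [⟨1, [(13, 1), (7, 1)]⟩, ⟨1, [(4, 1)]⟩, ⟨1, [(13, 1), (7, 1)]⟩, ⟨1, [(4, 1)]⟩, ⟨1, [(4, 1)]⟩, ⟨1, [(4, 1)]⟩, ⟨1, []⟩, ⟨1, []⟩, ⟨1, [(13, 1), (7, 1)]⟩, ⟨1, [(13, 1), (7, 1), (1, 1)]⟩, ⟨1, []⟩, ⟨1, [(4, 1)]⟩, ⟨1, [(4, 1)]⟩, ⟨1, [(4, 1)]⟩, ⟨1, []⟩, ⟨1, []⟩, ⟨1, [(13, 1), (7, 1), (1, 1)]⟩, ⟨1, []⟩]))))) (.cons (.ndet 2 [⟨1, [(13, 1), (7, 1)]⟩, ⟨1, [(13, 1), (10, 1),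 (1, 1)]⟩] (.ddet 0 [⟨1, []⟩] (.ndet 0 [⟨1, [(13, 1), (10, 1), (1, 2)]⟩, ⟨2, [(18, 1), (13, 2), (10, 3), (1, 6)]⟩] (.ddet 1 [⟨1, [(13, 1), (10, 1), (1, 2)]⟩] (.leaf 1 [⟨1, [(13, 1), (7, 1)]⟩, ⟨2, [(18, 1), (10, 1), (0, 4)]⟩, ⟨1, [(13, 1), (7, 1)]⟩, ⟨2, [(18, 1), (10, 1), (0, 4)]⟩, ⟨2, [(18, 1), (10, 1), (0, 4)]⟩, ⟨2, [(18, 1), (10, 1), (0, 4)]⟩, ⟨1, []⟩, ⟨1, []⟩, ⟨1, [(13, 1), (7, 1)]⟩, ⟨1, [(13, 1), (10, 1), (1, 2)]⟩, ⟨1, []⟩, ⟨2, [(18, 1), (10, 1), (0, 4)]⟩, ⟨2, [(18, 1), (10, 1), (0, 4)]⟩, ⟨2, [(18, 1), (10, 1), (0, 4)]⟩, ⟨1, []⟩, ⟨1, []⟩, ⟨1, [(13, 1), (10, 1), (1, 2)]⟩, ⟨1, []⟩]))))) .nil))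
def s28_5_t7 : Tree := .ddet 1 [⟨1, [(10, 1), (4, 1)]⟩] (.nbr (.cons (.ddet 1 [⟨1, [(12, 1), (6, 1), (1, 1)]⟩] (.ndet 2 [⟨1, [(12, 1), (6, 1)]⟩, ⟨1, [(18, 1)]⟩] (.ddet 0 [⟨1, []⟩] (.ndet 2 [⟨1, [(12, 1), (6, 1), (1, 1)]⟩, ⟨1, [(12, 1), (6, 1), (1, 1)]⟩] (.ddet 0 [⟨1, []⟩] (.leaf 0 [⟨1, [(12, 1), (6, 1), (1, 1)]⟩, ⟨1, [(12, 1), (6, 1), (1, 1)]⟩, ⟨1, [(1, 1)]⟩, ⟨1, [(1, 1)]⟩, ⟨1, [(12, 2), (6, 2), (1, 1)]⟩, ⟨1, [(1, 1)]⟩, ⟨1, [(12, 2), (6, 2), (1, 1)]⟩, ⟨1, [(1, 1)]⟩, ⟨1, []⟩, ⟨1, [(12, 1), (6, 1), (1, 1)]⟩, ⟨1, [(12, 1), (6, 1)]⟩, ⟨1, [(1, 1)]⟩, ⟨1, []⟩, ⟨1, [(12, 1), (6, 1)]⟩, ⟨1, [(1, 1)]⟩, ⟨1, []⟩, ⟨1, [(18,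 1)]⟩, ⟨1, [(12, 1), (6, 1)]⟩, ⟨1, []⟩, ⟨1, [(18, 1)]⟩, ⟨1, [(12, 1), (6, 1)]⟩, ⟨1, [(1, 1)]⟩, ⟨1, []⟩, ⟨1, [(18, 1)]⟩, ⟨1, [(1, 1)]⟩])))))) (.cons s28_5_t5 (.cons s28_5_t6 .nil))))
def s28_5_t8 : Tree := .nbr (.cons s28_5_t7 (.cons (.ddet 1 [⟨1, [(10, 1), (6, 1), (1, 1)]⟩] (.ndet 2 [⟨1, [(10, 1), (7, 1), (1, 2)]⟩, ⟨1, [(1, 1)]⟩] (.ddet 0 [⟨2, [(15, 1), (7, 1), (1, 2)]⟩] (.ndet 2 [⟨1, [(10, 1), (6, 1)]⟩, ⟨1, [(10, 1), (7, 1), (1, 1)]⟩] (.ddet 0 [⟨1, [(17, 1)]⟩] (.ndet 0 [⟨1, [(10, 1), (6, 1), (1, 1)]⟩, ⟨1, [(10, 1), (7, 1), (1, 2)]⟩] (.ddet 1 [⟨1, [(10, 1), (6, 1), (1, 2)]⟩] (.leaf 2 [⟨1, [(10, 1), (6, 1), (1,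 1)]⟩, ⟨1, [(1, 1)]⟩, ⟨1, [(10, 1), (6, 1), (1, 2)]⟩, ⟨1, []⟩, ⟨1, []⟩, ⟨1, [(10, 1), (6, 1), (1, 1)]⟩, ⟨1, [(10, 1), (6, 1), (1, 1)]⟩, ⟨1, [(10, 2), (6, 2), (1, 2)]⟩, ⟨1, [(10, 2), (6, 2), (1, 2)]⟩, ⟨1, []⟩, ⟨1, []⟩, ⟨1, [(10, 1), (6, 1), (1, 1)]⟩, ⟨1, [(10, 1), (6, 1), (1, 1)]⟩, ⟨1, [(10, 1), (6, 1), (1, 1)]⟩, ⟨1, [(10, 1), (6, 1), (1, 2)]⟩, ⟨1, [(1, 1)]⟩, ⟨1, [(1, 1)]⟩, ⟨1, [(1, 1)]⟩])))))))) (.cons (.prune [(10, 1), (1, 1)]) .nil)))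
def s28_5_n1 : Node := ⟨[⟨[0, 1, 0, -1], -200⟩, ⟨[0, 1, -1], -200⟩, ⟨[-1, 1], -200⟩, ⟨[-1, 1, -1, -1], -2340⟩, ⟨[0, 1, -1, -1], -1280⟩, ⟨[1, 1, -1, -1], -300⟩, ⟨[0, 0, 0, -1], -1320⟩, ⟨[1, 0, 0, -1], -340⟩, ⟨[0, 1, 0, -1], 179700⟩, ⟨[0, 0, 1, -1], -340⟩, ⟨[1], 680⟩, ⟨[-1, 1, -1, 1], -380⟩, ⟨[0, 1, -1, 1], 720⟩, ⟨[1, 1, -1, 1], 1740⟩, ⟨[0, 0, 0, 1], 680⟩, ⟨[1, 0, 0, 1], 1660⟩, ⟨[0, 0, 1, 1], 1700⟩], [0, 1], 0, none, s28_5_t8⟩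
def s28_5_t9 : Tree := .nbr (.cons (.ddet 1 [⟨2, [(11, 1), (7, 1), (0, 1)]⟩] (.ndet 0 [⟨1, [(2, 1)]⟩, ⟨1, [(7, 1)]⟩] (.ddet 1 [⟨1, [(11, 1), (7, 1)]⟩] (.leaf 2 [⟨1, [(2, 1)]⟩, ⟨1, [(11, 1), (7, 1)]⟩, ⟨1, [(11, 1), (7, 1)]⟩, ⟨1, [(2, 1)]⟩, ⟨1, [(2, 1)]⟩, ⟨1, [(2, 1)]⟩, ⟨1, [(2, 1)]⟩, ⟨1, [(2, 1)]⟩, ⟨1, [(2, 1)]⟩, ⟨1, []⟩, ⟨1, []⟩, ⟨1, []⟩, ⟨1, []⟩, ⟨1, []⟩, ⟨1, [(11, 1), (7, 1)]⟩, ⟨2, [(11, 1), (7, 1), (0, 1)]⟩, ⟨2, [(11, 1), (7, 1), (0, 1)]⟩, ⟨1, []⟩])))) (.cons (.prune [(12, 1), (7, 1), (1, 1), (0, 1)]) (.cons (.dbr (.cons (.ndet 0 [⟨1, [(12, 1), (8, 1), (0, 1)]⟩, ⟨1, [(8, 1)]⟩] (.ddet 1 [⟨1, [(12, 1), (8,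 1)]⟩] (.leaf 2 [⟨1, [(12, 1), (8, 1), (0, 1)]⟩, ⟨1, [(5, 1)]⟩, ⟨1, [(12, 1), (8, 1)]⟩, ⟨1, []⟩, ⟨1, []⟩, ⟨1, [(12, 1), (8, 1), (0, 1)]⟩, ⟨1, [(12, 1), (8, 1), (0, 1)]⟩, ⟨1, [(12, 2), (8, 2), (0, 2)]⟩, ⟨1, [(12, 2), (8, 2), (0, 2)]⟩, ⟨1, []⟩, ⟨1, []⟩, ⟨1, [(12, 1), (8, 1), (0, 1)]⟩, ⟨1, [(12, 1), (8, 1), (0, 1)]⟩, ⟨1, [(12, 1), (8, 1), (0, 1)]⟩, ⟨1, [(12, 1), (8, 1)]⟩, ⟨1, [(5, 1)]⟩, ⟨1, [(5, 1)]⟩, ⟨1, []⟩]))) (.cons (.ndet 0 [⟨2, [(12, 1), (8, 1), (2, 1)]⟩, ⟨1, [(8, 1)]⟩] (.ddet 1 [⟨1, [(12, 1), (8, 1)]⟩] (.leaf 2 [⟨2, [(12, 1), (8, 1), (2, 1)]⟩, ⟨1, [(0, 2)]⟩, ⟨1, [(12, 1), (8, 1)]⟩, ⟨1, [(0, 1)]⟩, ⟨1, [(0,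 1)]⟩, ⟨2, [(12, 1), (8, 1), (2, 1)]⟩, ⟨2, [(12, 1), (8, 1), (2, 1)]⟩, ⟨2, [(12, 1), (8, 1), (2, 3)]⟩, ⟨2, [(12, 1), (8, 1), (2, 3)]⟩, ⟨1, []⟩, ⟨1, []⟩, ⟨1, [(2, 1)]⟩, ⟨1, [(2, 1)]⟩, ⟨1, [(2, 1)]⟩, ⟨1, [(12, 1), (8, 1)]⟩, ⟨1, [(0, 1)]⟩, ⟨1, [(0, 1)]⟩, ⟨1, []⟩]))) .nil))) .nil)))
def s28_5_t10 : Tree := .dbr (.cons (.ndet 2 [⟨1, [(5, 1)]⟩, ⟨1, [(9, 1), (5, 1), (0, 1)]⟩] (.ddet 0 [⟨1, [(10, 1)]⟩] (.ndet 0 [⟨1, [(5, 1)]⟩, ⟨1, [(9, 1), (5, 1), (0, 1)]⟩] (.ddet 1 [⟨1, [(9, 1), (5, 1)]⟩] (.ndet 0 [⟨1, []⟩, ⟨1, [(5, 1)]⟩] (.ddet 1 [⟨1, [(9, 1), (5, 1)]⟩] (.leaf 2 [⟨1, []⟩, ⟨1, [(9, 1), (5, 1)]⟩, ⟨1, [(9, 1), (5, 1)]⟩,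 ⟨1, []⟩, ⟨1, []⟩, ⟨1, []⟩, ⟨1, []⟩, ⟨1, []⟩, ⟨1, []⟩, ⟨1, []⟩, ⟨1, []⟩, ⟨1, []⟩, ⟨1, []⟩, ⟨1, []⟩, ⟨1, [(9, 1), (5, 1)]⟩, ⟨1, [(9, 1), (5, 1)]⟩, ⟨1, [(9, 1), (5, 1)]⟩, ⟨1, []⟩]))))))) (.cons (.ndet 2 [⟨1, [(5, 1)]⟩, ⟨1, [(2, 1)]⟩] (.ddet 0 [⟨1, [(10, 1)]⟩] s28_5_t9)) .nil))
def s28_5_t11 : Tree := .ndet 2 [⟨1, [(5, 1)]⟩, ⟨1, [(9, 1), (5, 1), (0, 1)]⟩] (.ddet 0 [⟨1, [(10, 1)]⟩] (.ndet 0 [⟨1, [(5, 1), (1, 1)]⟩, ⟨1, [(9, 1), (5, 1), (1, 1), (0, 1)]⟩] (.ddet 1 [⟨1, [(9, 1), (5, 1), (1, 1)]⟩] (.nbr (.cons (.ddet 1 [⟨1, [(11, 1), (7, 1)]⟩] (.leaf 2 [⟨1, [(1, 1)]⟩, ⟨1, [(11, 1), (7, 1)]⟩, ⟨1, [(11, 1), (7, 1)]⟩, ⟨1,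 [(1, 1)]⟩, ⟨1, [(1, 1)]⟩, ⟨1, [(1, 1)]⟩, ⟨1, [(1, 1)]⟩, ⟨1, [(1, 1)]⟩, ⟨1, [(1, 1)]⟩, ⟨1, []⟩, ⟨1, []⟩, ⟨1, []⟩, ⟨1, []⟩, ⟨1, []⟩, ⟨1, [(11, 1), (7, 1)]⟩, ⟨1, [(11, 1), (7, 1), (3, 1)]⟩, ⟨1, [(11, 1), (7, 1), (3, 1)]⟩, ⟨1, []⟩])) (.cons (.ddet 1 [⟨1, [(15, 1), (7, 1), (1, 1)]⟩] (.leaf 3 [⟨1, [(1, 1)]⟩, ⟨1, [(15, 1), (7, 1), (1, 2)]⟩, ⟨1, [(15, 1), (7, 1), (1, 1)]⟩, ⟨1, []⟩, ⟨1, []⟩, ⟨1, []⟩, ⟨1, []⟩, ⟨1, [(1, 1)]⟩, ⟨1, []⟩, ⟨1, [(1, 1)]⟩, ⟨1, [(15, 1), (7, 1), (1, 1)]⟩, ⟨1, [(15, 1), (7, 1), (1, 2)]⟩, ⟨1, [(15, 1), (7, 1), (1, 1)]⟩, ⟨1, [(15, 1), (7, 1), (1, 1)]⟩, ⟨1, []⟩, ⟨1, []⟩, ⟨1, [(15, 1), (7, 1), (1,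 1)]⟩, ⟨1, [(15, 1), (7, 1), (1, 2)]⟩, ⟨1, [(15, 1), (7, 1), (1, 1)]⟩, ⟨1, [(15, 2), (7, 2), (1, 2)]⟩, ⟨1, [(15, 2), (7, 2), (1, 2)]⟩, ⟨1, [(1, 1)]⟩])) (.cons (.prune [(7, 1), (1, 1)]) .nil)))))))
def s28_5_t12 : Tree := .nbr (.cons (.ddet 1 [⟨1, [(8, 1), (4, 1), (1, 1)]⟩] (.ndet 2 [⟨1, [(4, 1)]⟩, ⟨1, [(17, 1)]⟩] (.ddet 0 [⟨1, [(9, 1)]⟩] (.ndet 2 [⟨1, [(8, 1), (4, 1), (1, 1)]⟩, ⟨1, [(4, 1), (1, 1)]⟩] (.ddet 0 [⟨1, []⟩] (.ndet 0 [⟨1, [(8, 1), (4, 1)]⟩, ⟨1, [(4, 1)]⟩] (.ddet 1 [⟨1, [(8, 1), (4, 1)]⟩] (.leaf 1 [⟨1, [(8, 1), (4, 1), (1, 1)]⟩, ⟨1, [(1, 1)]⟩, ⟨1, [(8, 1), (4, 1), (1, 1)]⟩, ⟨1, [(1, 1)]⟩, ⟨1, [(1, 1)]⟩,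 ⟨1, [(1, 1)]⟩, ⟨1, []⟩, ⟨1, []⟩, ⟨1, [(8, 1), (4, 1), (1, 1)]⟩, ⟨1, [(8, 1), (4, 1)]⟩, ⟨1, []⟩, ⟨1, [(1, 1)]⟩, ⟨1, [(1, 1)]⟩, ⟨1, [(1, 1)]⟩, ⟨1, []⟩, ⟨1, []⟩, ⟨1, [(8, 1), (4, 1)]⟩, ⟨1, [(1, 1)]⟩])))))))) (.cons s28_5_t10 (.cons (.dbr (.cons s28_5_t11 (.cons (.ndet 2 [⟨1, [(5, 1)]⟩, ⟨1, [(15, 1), (5, 1), (1, 1)]⟩] (.ddet 0 [⟨1, [(10, 1)]⟩] (.ndet 0 [⟨2, [(16, 1), (15, 1), (5, 2), (1, 4)]⟩, ⟨2, [(16, 1), (15, 3), (5, 2), (1, 6)]⟩] (.ddet 1 [⟨1, [(15, 1), (5, 1), (1, 2)]⟩] (.ndet 0 [⟨2, [(16, 1), (15, 1), (0, 4)]⟩, ⟨1, [(5, 1)]⟩] (.ddet 1 [⟨1, [(9, 1), (5, 1)]⟩] (.leaf 2 [⟨2, [(16, 1), (15, 1), (0, 4)]⟩, ⟨1, [(9,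 1), (5, 1)]⟩, ⟨1, [(9, 1), (5, 1)]⟩, ⟨2, [(16, 1), (15, 1), (0, 4)]⟩, ⟨2, [(16, 1), (15, 1), (0, 4)]⟩, ⟨2, [(16, 1), (15, 1), (0, 4)]⟩, ⟨2, [(16, 1), (15, 1), (0, 4)]⟩, ⟨2, [(16, 1), (15, 1), (0, 4)]⟩, ⟨2, [(16, 1), (15, 1), (0, 4)]⟩, ⟨1, []⟩, ⟨1, []⟩, ⟨1, []⟩, ⟨1, []⟩, ⟨1, []⟩, ⟨1, [(9, 1), (5, 1)]⟩, ⟨1, [(15, 1), (5, 1), (1, 2)]⟩, ⟨1, [(15, 1), (5, 1), (1, 2)]⟩, ⟨1, []⟩]))))))) .nil))) .nil)))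
def s28_5_n2 : Node := ⟨[⟨[0, 0, 1, -1], -200⟩, ⟨[0, -1, 1], -200⟩, ⟨[-1, 0, 1], -200⟩, ⟨[-1, -1, 1, -1], -2340⟩, ⟨[1, -1, 1, -1], -380⟩, ⟨[-1, 0, 1, -1], -1280⟩, ⟨[1, 0, 1, -1], 720⟩, ⟨[-1, 1, 1, -1], -300⟩, ⟨[1, 1, 1, -1], 1740⟩, ⟨[-1], -1320⟩, ⟨[1], 680⟩, ⟨[-1, 1], -340⟩, ⟨[0, 1], 680⟩, ⟨[1, 1], 1660⟩, ⟨[-1, 0, 1], 179700⟩, ⟨[-1, 0, 0, 1], -340⟩, ⟨[1, 0, 0, 1], 1700⟩], [0, 0, 1], 0, none, s28_5_t12⟩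
def s28_5_t13 : Tree := .ndet 0 [⟨1, [(20, 1)]⟩, ⟨1, [(5, 1)]⟩] (.ddet 1 [⟨1, [(14, 1), (5, 1)]⟩] (.nbr (.cons (.prune [(19, 1), (13, 2), (9, 1), (2, 2), (0, 4)]) (.cons (.ddet 0 [⟨1, []⟩] (.leaf 3 [⟨1, [(16, 1), (7, 1)]⟩, ⟨1, [(16, 1), (7, 1)]⟩, ⟨1, []⟩, ⟨1, []⟩, ⟨1, []⟩, ⟨1, []⟩, ⟨1, []⟩, ⟨1, [(16, 1), (7, 1)]⟩, ⟨1, []⟩, ⟨1, [(16, 1), (7, 1)]⟩, ⟨1, []⟩, ⟨1, [(16, 1), (7, 1)]⟩, ⟨1, []⟩, ⟨1, []⟩, ⟨1, []⟩, ⟨1, []⟩, ⟨1, []⟩, ⟨1, [(16, 1), (7, 1)]⟩, ⟨1, []⟩, ⟨1, []⟩, ⟨1, []⟩, ⟨1, []⟩])) (.cons (.ddet 0 [⟨1, []⟩] (.split [1, 0, 0, -1] (0) (.leaf 0 [⟨1, [(0, 1)]⟩, ⟨1, [(8, 1), (7, 1), (0, 2)]⟩, ⟨1, [(8, 1), (7, 1),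 (0, 2)]⟩, ⟨1, [(0, 1)]⟩, ⟨1, [(0, 1)]⟩, ⟨1, [(0, 1)]⟩, ⟨1, [(0, 1)]⟩, ⟨1, [(8, 1), (7, 1), (0, 2)]⟩, ⟨1, []⟩, ⟨1, [(8, 1), (7, 1), (0, 2)]⟩, ⟨1, []⟩, ⟨1, [(8, 1), (7, 1), (0, 2)]⟩, ⟨1, []⟩, ⟨1, []⟩, ⟨1, [(8, 2), (7, 2), (0, 3)]⟩, ⟨1, [(8, 1), (7, 1), (0, 1)]⟩, ⟨1, [(23, 1)]⟩, ⟨1, [(8, 1), (7, 1), (0, 1)]⟩, ⟨1, [(8, 1), (7, 1), (0, 1)]⟩, ⟨1, [(23, 1)]⟩, ⟨1, [(8, 1), (7, 1), (0, 1)]⟩, ⟨1, [(8, 2), (7, 2), (0, 3)]⟩, ⟨1, [(8, 1), (7, 1), (0, 1)]⟩, ⟨1, [(23, 1)]⟩, ⟨1, [(0, 1)]⟩]) (.leaf 3 [⟨1, [(17, 1), (8, 1)]⟩, ⟨1, [(17, 1), (8, 1)]⟩, ⟨1, [(0, 1)]⟩, ⟨1, [(1, 1)]⟩, ⟨1, [(1, 1)]⟩, ⟨1, [(1, 1)]⟩, ⟨1, []⟩, ⟨1, [(17,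 1), (8, 1), (1, 1)]⟩, ⟨1, []⟩, ⟨1, [(17, 1), (8, 1), (1, 1)]⟩, ⟨1, []⟩, ⟨1, [(17, 1), (8, 1), (1, 1)]⟩, ⟨1, []⟩, ⟨1, []⟩, ⟨1, [(0, 1)]⟩, ⟨1, [(0, 1)]⟩, ⟨1, [(0, 1)]⟩, ⟨1, [(17, 1), (8, 1)]⟩, ⟨1, [(0, 1)]⟩, ⟨1, [(0, 1)]⟩, ⟨1, [(0, 1)]⟩, ⟨1, []⟩]))) .nil)))))
def s28_5_t14 : Tree := .dbr (.cons (.ndet 0 [⟨1, [(15, 1), (6, 1), (0, 1)]⟩, ⟨1, [(6, 1)]⟩] (.ddet 1 [⟨1, [(15, 1), (6, 1)]⟩] (.nbr (.cons (.ddet 1 [⟨1, [(17, 1), (8, 1), (1, 1)]⟩] (.leaf 2 [⟨1, [(1, 1)]⟩, ⟨1, [(17, 1), (8, 1), (1, 1)]⟩, ⟨1, [(17, 1), (8, 1), (1, 1)]⟩, ⟨1, [(1, 1)]⟩, ⟨1, [(1, 1)]⟩, ⟨1, [(1, 1)]⟩, ⟨1, [(1, 1)]⟩, ⟨1, [(1, 1)]⟩, ⟨1, [(1, 1)]⟩,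 ⟨1, []⟩, ⟨1, []⟩, ⟨1, []⟩, ⟨1, []⟩, ⟨1, []⟩, ⟨1, [(17, 1), (8, 1), (1, 1)]⟩, ⟨1, [(17, 1), (8, 1)]⟩, ⟨1, [(17, 1), (8, 1)]⟩, ⟨1, [(1, 1)]⟩])) (.cons (.ddet 1 [⟨1, [(17, 1), (14, 1), (2, 1)]⟩] (.leaf 3 [⟨1, [(1, 1)]⟩, ⟨1, [(17, 1), (8, 1)]⟩, ⟨1, [(17, 1), (14, 1), (2, 1)]⟩, ⟨1, []⟩, ⟨1, []⟩, ⟨1, []⟩, ⟨1, []⟩, ⟨1, [(1, 1)]⟩, ⟨1, []⟩, ⟨1, [(1, 1)]⟩, ⟨1, [(17, 1), (14, 1), (2, 1)]⟩, ⟨1, [(17, 1), (8, 1)]⟩, ⟨1, [(17, 1), (14, 1), (2, 1)]⟩, ⟨1, [(17, 1), (14, 1), (2, 1)]⟩, ⟨1, []⟩, ⟨1, []⟩, ⟨1, [(17, 1), (14, 1), (2, 1)]⟩, ⟨1, [(17, 1), (8, 1)]⟩, ⟨1, [(17, 1), (14, 1), (2, 1)]⟩, ⟨1, [(17, 2), (14, 2), (2, 2)]⟩, ⟨1,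 [(17, 2), (14, 2), (2, 2)]⟩, ⟨1, []⟩])) (.cons (.prune [(14, 1), (10, 1), (2, 1), (0, 1)]) .nil)))))) (.cons (.ndet 0 [⟨2, [(8, 1), (6, 1), (2, 1)]⟩, ⟨1, [(6, 1)]⟩] (.ddet 1 [⟨1, [(15, 1), (6, 1)]⟩] (.ndet 1 [⟨2, [(9, 1), (8, 1), (0, 4)]⟩, ⟨2, [(8, 1), (6, 1), (2, 1)]⟩] (.dbr (.cons (.leaf 3 [⟨1, [(16, 1), (7, 1), (0, 1)]⟩, ⟨1, [(16, 1), (7, 1)]⟩, ⟨1, []⟩, ⟨1, [(3, 1)]⟩, ⟨1, [(3, 1)]⟩, ⟨1, [(3, 1)]⟩, ⟨1, []⟩, ⟨1, [(16, 1), (7, 1)]⟩, ⟨1, []⟩, ⟨1, [(16, 1), (7, 1)]⟩, ⟨1, [(3, 1)]⟩, ⟨1, [(16, 1), (7, 1), (3, 1)]⟩, ⟨1, [(3, 1)]⟩, ⟨1, [(3, 1)]⟩, ⟨1, [(0, 1)]⟩, ⟨1, [(0, 1)]⟩, ⟨1, []⟩, ⟨1, [(16, 1), (7, 1)]⟩, ⟨1, []⟩,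 ⟨1, [(3, 1)]⟩, ⟨1, [(3, 1)]⟩, ⟨1, []⟩]) (.cons (.leaf 3 [⟨2, [(10, 1), (9, 1), (1, 4)]⟩, ⟨1, [(16, 1), (7, 1)]⟩, ⟨1, [(0, 1)]⟩, ⟨1, []⟩, ⟨1, []⟩, ⟨1, []⟩, ⟨1, []⟩, ⟨2, [(10, 1), (9, 1), (1, 4)]⟩, ⟨1, []⟩, ⟨2, [(10, 1), (9, 1), (1, 4)]⟩, ⟨1, [(0, 1)]⟩, ⟨1, [(16, 1), (7, 1)]⟩, ⟨1, [(0, 1)]⟩, ⟨1, [(0, 1)]⟩, ⟨1, []⟩, ⟨1, []⟩, ⟨1, [(0, 1)]⟩, ⟨1, [(16, 1), (7, 1)]⟩, ⟨1, [(0, 1)]⟩, ⟨1, [(0, 2)]⟩, ⟨1, [(0, 2)]⟩, ⟨1, []⟩]) .nil)))))) .nil))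
def s28_5_n3 : Node := ⟨[⟨[0, 0, -1, 1], -200⟩, ⟨[0, -1, 0, 1], -200⟩, ⟨[-1, 0, 0, 1], -200⟩, ⟨[1, -1, 1, -1], -1360⟩, ⟨[1, 0, 1, -1], -340⟩, ⟨[1, 1, 1, -1], 640⟩, ⟨[0, -1], -1320⟩, ⟨[1, -1], -340⟩, ⟨[0, 1], 680⟩, ⟨[1, 1], 1700⟩, ⟨[0, -1, 1], -340⟩, ⟨[1, -1, 1], 179700⟩, ⟨[0, 0, 1], 680⟩, ⟨[0, 1, 1], 1660⟩, ⟨[-1, -1, -1, 1], -2300⟩, ⟨[-1, 1, -1, 1], -340⟩, ⟨[-1, -1, 0, 1], -1300⟩, ⟨[0, -1, 0, 1], 179700⟩, ⟨[-1, 1, 0, 1], 700⟩, ⟨[-1, -1, 1, 1], -320⟩, ⟨[-1, 1, 1, 1], 1720⟩], [0, 0, 0, 1], 0, none, (.ndet 2 [⟨1, [(3, 1)]⟩, ⟨1, [(20, 1)]⟩] (.ddet 0 [⟨1, [(14, 1)]⟩] (.nbr (.cons (.ddet 1 [⟨2, [(14, 1), (11, 1),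 (0, 1)]⟩] s28_5_t13) (.cons (.prune [(19, 1), (11, 2), (8, 1), (1, 2), (0, 2)]) (.cons s28_5_t14 .nil))))))⟩
def s28_5 : Sys := ⟨[(2, 0), (3, 0), (4, 2000)], [(0, 1000), (2, -1000)], 4, [s28_5_n0, s28_5_n1, s28_5_n2, s28_5_n3], [1000, 1000, 1192707, 732979], (.leaf 2 [⟨1, []⟩, ⟨1, []⟩, ⟨1, []⟩, ⟨1, []⟩, ⟨1, []⟩, ⟨1, []⟩, ⟨1, []⟩, ⟨1, []⟩, ⟨1, []⟩, ⟨1, []⟩, ⟨1, []⟩, ⟨1, []⟩, ⟨1, []⟩, ⟨1, []⟩, ⟨1, []⟩, ⟨1, []⟩, ⟨1, []⟩])⟩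

theorem s28_5_ok : s28_5.ok = true := by decide +kernel

def s28_22_n0 : Node := ⟨[⟨[0, 1, -1], 240⟩, ⟨[0, 1, 0, -1], 184⟩, ⟨[-1, 1], 136⟩, ⟨[0, 1, 0, -1], 176⟩, ⟨[-1, 1], 56⟩, ⟨[0, 1, -1], 104⟩, ⟨[0, 0, 1], -72⟩, ⟨[-1, 0, 1], -40⟩, ⟨[0, 1], 80⟩, ⟨[-1, 1], 192⟩, ⟨[0, 0, -1], 16⟩, ⟨[0, 0, -1], -24⟩], [0, 1], 0, none, (.ndet 0 [⟨1, [(11, 1)]⟩, ⟨1, [(10, 1)]⟩] (.ddet 1 [⟨1, [(11, 1), (4, 1)]⟩, ⟨1, [(10, 1)]⟩] (.ndet 1 [⟨1, [(11, 1), (4, 1)]⟩, ⟨1, [(11, 1)]⟩] (.ddet 2 [⟨1, [(5, 1)]⟩, ⟨1, [(4, 1)]⟩] (.ndet 2 [⟨1, [(11, 1), (5, 1)]⟩, ⟨1, [(11, 1), (4, 1)]⟩] (.ddet 0 [⟨1, [(11, 1)]⟩, ⟨1, [(1, 1)]⟩] (.leaf 0 [⟨1, [(11,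 1)]⟩, ⟨1, [(11, 1), (4, 1), (1, 1)]⟩, ⟨1, [(11, 1), (1, 1)]⟩, ⟨1, [(11, 1), (4, 1), (1, 1)]⟩, ⟨1, [(11, 1), (1, 1)]⟩, ⟨1, [(11, 1)]⟩, ⟨1, []⟩, ⟨1, [(1, 1)]⟩, ⟨1, [(11, 1)]⟩, ⟨1, [(11, 1), (1, 1)]⟩, ⟨1, []⟩, ⟨1, []⟩, ⟨1, [(1, 1)]⟩])))))))⟩
def s28_22 : Sys := ⟨[(2, -112), (3, 64), (4, -32)], [(1, -96), (2, -80), (4, -16)], 4, [s28_22_n0], [-16, 272, -32, -16], (.leaf 0 [⟨1, []⟩, ⟨1, []⟩, ⟨1, []⟩, ⟨1, []⟩, ⟨1, []⟩, ⟨1, []⟩, ⟨1, []⟩, ⟨1, []⟩, ⟨1, []⟩, ⟨1, []⟩, ⟨1, []⟩, ⟨1, []⟩])⟩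

theorem s28_22_ok : s28_22.ok = true := by decide +kernel

def s29_15_n0 : Node := ⟨[⟨[0, 1], 272⟩, ⟨[0, 1, -1], 368⟩, ⟨[0, 1, 0, -1], 472⟩, ⟨[0, 1], 248⟩, ⟨[-1, 1], 584⟩, ⟨[0, 1, -1], 344⟩, ⟨[0, 1], 216⟩, ⟨[-1, 1], 528⟩, ⟨[0, 1, -1], 392⟩, ⟨[0, 1], 208⟩, ⟨[-1, 1], 552⟩, ⟨[0, 1], 136⟩, ⟨[0, 1], 104⟩, ⟨[-1, 1], 504⟩, ⟨[-1], 352⟩, ⟨[-1], 424⟩, ⟨[0, 1], 152⟩, ⟨[0, 1], 160⟩], [0, 1], 0, none, (.ndet 1 [⟨1, [(17, 1)]⟩, ⟨1, [(9, 1)]⟩, ⟨1, [(15, 1)]⟩] (.ddet 2 [⟨1, [(17, 1)]⟩, ⟨1, [(17, 1), (2, 1)]⟩, ⟨1, [(9, 1)]⟩] (.ndet 2 [⟨1, [(17, 1)]⟩, ⟨1, [(17, 1), (2, 1)]⟩, ⟨1, [(9, 1)]⟩] (.ddet 3 [⟨1, [(17, 1)]⟩, ⟨1, [(17,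 1)]⟩, ⟨1, [(17, 1), (2, 1)]⟩] (.ndet 3 [⟨1, [(17, 1)]⟩, ⟨1, [(17, 1)]⟩, ⟨1, [(17, 1), (2, 1)]⟩] (.ddet 1 [⟨1, []⟩, ⟨1, []⟩, ⟨1, [(2, 1)]⟩] (.ndet 2 [⟨1, []⟩, ⟨1, []⟩, ⟨1, [(2, 1)]⟩] (.ddet 1 [⟨1, [(17, 1)]⟩, ⟨1, [(17, 1)]⟩, ⟨1, [(17, 1)]⟩] (.leaf 0 [⟨1, [(17, 1)]⟩, ⟨1, [(17, 1)]⟩, ⟨1, [(17, 1)]⟩, ⟨1, [(17, 1)]⟩, ⟨1, [(17, 2)]⟩, ⟨1, [(17, 1)]⟩, ⟨1, [(17, 1)]⟩, ⟨1, [(17, 2)]⟩, ⟨1, [(17, 1)]⟩, ⟨1, [(17, 1)]⟩, ⟨1, [(17, 2)]⟩, ⟨1, [(17, 1)]⟩, ⟨1, [(17, 1)]⟩, ⟨1, [(17, 2)]⟩, ⟨1, [(17, 1)]⟩, ⟨1, [(17, 1)]⟩, ⟨1, [(17, 1)]⟩, ⟨1, [(17, 1)]⟩, ⟨1, []⟩])))))))))⟩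
def s29_15 : Sys := ⟨[(0, -144), (2, -112), (3, 0), (4, 160)], [(0, -96), (1, -16), (2, -16), (3, 48)], 4, [s29_15_n0], [-592, 576, -48, -96], (.leaf 0 [⟨1, []⟩, ⟨1, []⟩, ⟨1, []⟩, ⟨1, []⟩, ⟨1, []⟩, ⟨1, []⟩, ⟨1, []⟩, ⟨1, []⟩, ⟨1, []⟩, ⟨1, []⟩, ⟨1, []⟩, ⟨1, []⟩, ⟨1, []⟩, ⟨1, []⟩, ⟨1, []⟩, ⟨1, []⟩, ⟨1, []⟩, ⟨1, []⟩])⟩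

theorem s29_15_ok : s29_15.ok = true := by decide +kernel

def s30_3_n0 : Node := ⟨[⟨[1, -1], 40⟩, ⟨[1, 0, -1], 0⟩, ⟨[1, 0, 0, -1], 32⟩, ⟨[1], 8⟩, ⟨[1, -1], 16⟩, ⟨[1], 16⟩], [1], 0, none, (.ndet 0 [⟨1, [(5, 1)]⟩, ⟨1, [(4, 1)]⟩, ⟨1, [(3, 1)]⟩] (.ddet 1 [⟨1, [(0, 1)]⟩] (.ndet 1 [⟨1, [(0, 1)]⟩, ⟨1, [(5, 1)]⟩, ⟨1, [(4, 1)]⟩] (.ddet 1 [⟨1, []⟩] (.leaf 0 [⟨1, [(0, 1)]⟩, ⟨1, []⟩, ⟨1, [(5, 1)]⟩, ⟨1, [(0, 1)]⟩, ⟨1, [(0, 1)]⟩, ⟨1, [(0, 1)]⟩, ⟨1, []⟩])))))⟩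
def s30_3 : Sys := ⟨[(1, 0), (2, 16), (3, -16), (4, 0)], [(0, -16), (1, 16)], 4, [s30_3_n0], [48, -16, 32, -16], (.leaf 0 [⟨1, []⟩, ⟨1, []⟩, ⟨1, []⟩, ⟨1, []⟩, ⟨1, []⟩, ⟨1, []⟩])⟩

theorem s30_3_ok : s30_3.ok = true := by decide +kernel

def s31_2_n0 : Node := ⟨[⟨[1], 32⟩, ⟨[1, -1], 72⟩, ⟨[1, 0, -1], 8⟩, ⟨[1, 0, 0, -1], 64⟩, ⟨[1], 16⟩, ⟨[1], 8⟩, ⟨[1, -1], 32⟩], [1], 0, none, (.ndet 1 [⟨1, [(6, 1)]⟩, ⟨1, [(5, 1)]⟩, ⟨1, [(4, 1)]⟩, ⟨1, [(3, 1)]⟩] (.ddet 0 [] (.ndet 2 [⟨1, [(6, 1)]⟩, ⟨1, [(6, 1)]⟩, ⟨1, [(5, 1)]⟩, ⟨1, [(4, 1)]⟩] (.ddet 0 [] (.leaf 0 [⟨1, [(6, 1)]⟩, ⟨1, [(6, 1)]⟩, ⟨1, []⟩, ⟨1, [(5, 1)]⟩, ⟨1, [(6, 1)]⟩,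 ⟨1, [(6, 1)]⟩, ⟨1, [(6, 1)]⟩, ⟨1, []⟩])))))⟩
def s31_2 : Sys := ⟨[(0, -16), (1, 0), (2, 32), (3, -16), (4, 16)], [(1, 32)], 4, [s31_2_n0], [80, -32, 48, -32], (.leaf 0 [⟨1, []⟩, ⟨1, []⟩, ⟨1, []⟩, ⟨1, []⟩, ⟨1, []⟩, ⟨1, []⟩, ⟨1, []⟩])⟩

theorem s31_2_ok : s31_2.ok = true := by decide +kernel

def s31_17_t0 : Tree := .ddet 0 [⟨1, [(11, 1)]⟩] (.ndet 1 [⟨1, [(24, 1), (8, 1)]⟩, ⟨1, [(24, 1), (8, 1)]⟩, ⟨1, [(8, 1)]⟩, ⟨1, []⟩] (.ddet 1 [⟨1, [(24, 1), (8, 1)]⟩] (.ndet 2 [⟨1, [(24, 1), (8, 1)]⟩, ⟨1, [(24, 1), (8, 1)]⟩, ⟨1, [(24, 1), (8, 1)]⟩, ⟨1, [(8, 1)]⟩] (.ddet 1 [⟨1, [(24, 1)]⟩] (.ndet 3 [⟨1, [(24, 1), (8, 1)]⟩, ⟨1,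 [(24, 1)]⟩, ⟨1, [(24, 1), (8, 1)]⟩, ⟨1, [(24, 1), (8, 1)]⟩] (.ddet 1 [⟨1, []⟩] (.ndet 1 [⟨1, [(24, 1), (8, 1)]⟩, ⟨1, [(24, 1)]⟩, ⟨1, [(24, 1), (8, 1)]⟩, ⟨1, []⟩] (.ddet 1 [⟨1, [(24, 1), (8, 1)]⟩] (.leaf 0 [⟨1, [(24, 1), (8, 1)]⟩, ⟨1, [(24, 1), (8, 1)]⟩, ⟨1, [(24, 1)]⟩, ⟨1, [(24, 1), (8, 1)]⟩, ⟨1, []⟩, ⟨1, [(24, 1), (8, 1)]⟩, ⟨1, [(24, 1), (8, 1)]⟩, ⟨1, [(24, 1)]⟩, ⟨1, [(8, 1)]⟩, ⟨1, [(24, 1), (8, 1)]⟩, ⟨1, [(8, 1)]⟩, ⟨1, [(24, 1), (8, 1)]⟩, ⟨1, [(24, 1), (8, 1)]⟩, ⟨1, [(24, 1), (8, 1)]⟩, ⟨1, [(24, 1), (8, 1)]⟩, ⟨1, []⟩, ⟨1, [(24, 1), (8, 1)]⟩, ⟨1, [(24, 1), (8, 1)]⟩, ⟨1, [(8, 1)]⟩, ⟨1, [(24, 1), (8, 1)]⟩, ⟨1,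 [(24, 1), (8, 1)]⟩, ⟨1, [(8, 1)]⟩, ⟨1, [(24, 1)]⟩, ⟨1, [(24, 1), (8, 1)]⟩, ⟨1, [(24, 1)]⟩, ⟨1, [(24, 1), (8, 1)]⟩, ⟨1, [(24, 1), (8, 1)]⟩, ⟨1, []⟩])))))))))
def s31_17_n0 : Node := ⟨[⟨[0, 1], 352⟩, ⟨[-1, 1], 320⟩, ⟨[0, 1, -1], 160⟩, ⟨[0, 1, 0, -1], 288⟩, ⟨[0, 0, 0, -1], -96⟩, ⟨[0, 1], 288⟩, ⟨[-1, 1], 416⟩, ⟨[0, 1, -1], -128⟩, ⟨[0, 0, 1], 448⟩, ⟨[0, 1], 320⟩, ⟨[0, 0, 1], 352⟩, ⟨[-1, 1], 512⟩, ⟨[0, 1], 544⟩, ⟨[0, 1], 256⟩, ⟨[-1, 1], 224⟩, ⟨[-1], -64⟩, ⟨[0, 1], 384⟩, ⟨[0, 1], 640⟩, ⟨[0, 0, 1], 640⟩, ⟨[0, 1], 512⟩, ⟨[0, 1], 224⟩, ⟨[0, 0, 1], 256⟩, ⟨[0, 1, -1], 0⟩, ⟨[0, 1], 160⟩, ⟨[0, 1, -1], -192⟩, ⟨[0, 1], 576⟩,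 ⟨[0, 1], 416⟩], [0, 1], 0, none, (.ndet 2 [⟨1, [(24, 1), (8, 1)]⟩, ⟨1, [(24, 1), (11, 1), (8, 1)]⟩, ⟨1, [(24, 1)]⟩, ⟨1, [(24, 1), (22, 1), (8, 1)]⟩] (.ddet 0 [⟨1, [(22, 1)]⟩] (.ndet 3 [⟨1, [(24, 1), (8, 1)]⟩, ⟨1, []⟩, ⟨1, [(24, 1), (11, 1), (8, 1)]⟩, ⟨1, [(24, 1)]⟩] (.ddet 1 [⟨1, [(8, 1)]⟩] (.ndet 2 [⟨1, [(24, 1), (8, 1)]⟩, ⟨1, [(8, 1)]⟩, ⟨1, [(24, 1), (11, 1), (8, 1)]⟩, ⟨1, []⟩] (.ddet 1 [⟨1, [(24, 1), (8, 1)]⟩] (.ndet 3 [⟨1, [(24, 1), (8, 1)]⟩, ⟨1, [(24, 1), (8, 1)]⟩, ⟨1, [(8, 1)]⟩, ⟨1, [(24, 1), (11, 1), (8, 1)]⟩] s31_17_t0)))))))⟩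
def s31_17 : Sys := ⟨[(0, -192), (1, -256), (2, 64), (3, 192), (4, -256)], [(0, 0), (4, -128)], 4, [s31_17_n0], [0, 960, 768, 64], (.leaf 0 [⟨1, []⟩, ⟨1, []⟩, ⟨1, []⟩, ⟨1, []⟩, ⟨1, []⟩, ⟨1, []⟩, ⟨1, []⟩, ⟨1, []⟩, ⟨1, []⟩, ⟨1, []⟩, ⟨1, []⟩, ⟨1, []⟩, ⟨1, []⟩, ⟨1, []⟩, ⟨1, []⟩, ⟨1, []⟩, ⟨1, []⟩, ⟨1, []⟩, ⟨1, []⟩, ⟨1, []⟩, ⟨1, []⟩, ⟨1, []⟩, ⟨1, []⟩, ⟨1, []⟩, ⟨1, []⟩, ⟨1, []⟩, ⟨1, []⟩])⟩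

theorem s31_17_ok : s31_17.ok = true := by decide +kernel

end Pool.Agent.H81.RDE.Data
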