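import Pool.Agent.H81.RDE.System

/-! Data file (generated): certificates. -/

set_option maxRecDepth 100000

namespace Pool.Agent.H81.RDE.Data

def s4_8_n0 : Node := ⟨[⟨[0, 0, -1], 16⟩, ⟨[-1], 40⟩, ⟨[-1, 1], 64⟩, ⟨[-1, 2, -1], 104⟩], [0, 1], 0, none, (.ndet 0 [] (.ddet 0 [] (.ndet 0 [] (.ddet 0 [] (.leaf 0 [⟨1, [(2, 1)]⟩, ⟨1, [(1, 1)]⟩, ⟨1, [(0, 1)]⟩, ⟨2, [(3, 1), (2, 1), (0, 3)]⟩, ⟨1, [(3, 1)]⟩])))))⟩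
def s4_8 : Sys := ⟨[(2, 16)], [(3, 16)], 3, [s4_8_n0], [-80, 48, -32, 0], (.leaf 0 [⟨1, []⟩, ⟨1, []⟩, ⟨1, []⟩, ⟨1, []⟩])⟩

theorem s4_8_ok : s4_8.ok = true := by decide +kernel

def s8_7_n0 : Node := ⟨[⟨[1], -72⟩, ⟨[1, -1], 32⟩, ⟨[1], -80⟩, ⟨[2, 0, -1], 8⟩, ⟨[1, -1], 24⟩, ⟨[1, 0, -1], 96⟩], [1], 0, none, (.ndet 0 [] (.ddet 1 [⟨1, [(5, 1)]⟩, ⟨1, [(4, 1)]⟩] (.ndet 0 [] (.ddet 2 [⟨1, [(5, 1)]⟩, ⟨1, [(5, 1), (0, 1)]⟩] (.ndet 0 [] (.ddet 0 [⟨1, [(4, 1)]⟩, ⟨1, [(0, 1)]⟩] (.leaf 0 [⟨1, [(5, 1)]⟩, ⟨1, [(5, 1), (4, 1)]⟩, ⟨1, [(5, 1)]⟩, ⟨1, [(5, 2), (0, 1)]⟩, ⟨1, [(5, 1), (4, 1)]⟩, ⟨1, [(5, 1), (0, 1)]⟩, ⟨1, []⟩])))))))⟩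
def s8_7 : Sys := ⟨[(3, -64)], [(0, -80), (1, 16), (2, 32)], 3, [s8_7_n0], [-48, -96, -208, 0], (.leaf 0 [⟨1, []⟩, ⟨1, []⟩, ⟨1, []⟩, ⟨1, []⟩, ⟨1, []⟩, ⟨1, []⟩])⟩

theorem s8_7_ok : s8_7.ok = true := by decide +kernel

def s11_4_t0 : Tree := .ddet 0 [] (.split [-1, 3, -2] (-1914) (.leaf 0 [⟨1, [(1, 1)]⟩, ⟨1, [(0, 1)]⟩, ⟨1, [(11, 2), (8, 1), (1, 1)]⟩, ⟨1, [(0, 1)]⟩, ⟨1, [(11, 2), (8, 1)]⟩, ⟨1, [(11, 2)]⟩]) (.ndet 2 [⟨3, [(11, 4), (8, 2), (0, 1)]⟩, ⟨1, [(11, 2), (8, 1)]⟩] (.ddet 0 [] (.ndet 2 [⟨3, [(11, 2), (8, 1), (3, 1)]⟩, ⟨1, [(3, 1)]⟩] (.ddet 0 [] (.ndet 1 [⟨3, [(11, 4), (8, 2), (3, 2)]⟩, ⟨1, [(11, 2), (8, 1), (3, 1)]⟩] (.ddet 0 [] (.leaf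 0 [⟨1, []⟩, ⟨1, []⟩, ⟨1, [(0, 2)]⟩, ⟨1, [(11, 2), (8, 1), (3, 2)]⟩, ⟨1, [(11, 2), (8, 1)]⟩, ⟨1, [(11, 2)]⟩]))))))))
def s11_4_t1 : Tree := .nbr (.cons (.prune [(4, 1), (2, 1), (1, 3), (0, 3)]) (.cons (.ddet 0 [] (.split [1, -3, 2] (1194) (.leaf 0 [⟨1, []⟩, ⟨1, []⟩, ⟨1, [(0, 1)]⟩, ⟨1, [(8, 2), (5, 1)]⟩, ⟨1, [(8, 2), (5, 1), (0, 1)]⟩, ⟨1, [(8, 2), (0, 1)]⟩]) (.nbr (.cons (.prune [(10, 2), (7, 1), (1, 2), (0, 1)]) (.cons (.ddet 0 [] (.leaf 0 [⟨1, []⟩, ⟨1, []⟩, ⟨2, [(9, 1), (3, 1)]⟩, ⟨1, [(0, 1)]⟩, ⟨1, [(10, 2), (7, 1)]⟩, ⟨1, [(10, 2)]⟩])) (.cons s11_4_t0 .nil)))))) (.cons (.ddet 0 [] (.ndet 1 [⟨3, [(7, 5), (4, 2), (0, 4)]⟩, ⟨1, [(7, 3), (4,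 1), (0, 2)]⟩] (.ddet 0 [] (.leaf 0 [⟨1, []⟩, ⟨1, []⟩, ⟨1, [(7, 3), (6, 2)]⟩, ⟨1, [(7, 3), (4, 1), (0, 3)]⟩, ⟨1, [(7, 2), (4, 1), (0, 1)]⟩, ⟨1, [(7, 2), (0, 1)]⟩])))) .nil)))
def s11_4_t2 : Tree := .ndet 2 [⟨3, [(2, 1), (0, 1)]⟩, ⟨1, [(3, 1), (2, 1)]⟩] (.ddet 0 [] (.nbr (.cons (.prune [(2, 1), (1, 1), (0, 2)]) (.cons (.ddet 0 [] (.ndet 1 [⟨3, [(5, 3), (2, 2), (0, 4)]⟩, ⟨1, [(5, 2), (2, 1), (0, 2)]⟩] (.ddet 0 [] (.leaf 0 [⟨1, []⟩, ⟨1, []⟩, ⟨1, [(6, 1)]⟩, ⟨1, [(5, 2), (2, 1), (0, 2)]⟩, ⟨1, [(5, 1), (2, 1), (0, 2)]⟩, ⟨1, [(5, 1), (0, 2)]⟩])))) (.cons (.ddet 0 [] s11_4_t1) .nil)))))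
def s11_4_n0 : Node := ⟨[⟨[1, -1, 1], -100⟩, ⟨[-1, 1, -1], -100⟩, ⟨[0, -1, 2], -200⟩, ⟨[0, 2, -1], -200⟩, ⟨[0, 1, 1], 60000⟩], [0, 1, 1], 0, none, s11_4_t2⟩
def s11_4 : Sys := ⟨[(0, 0), (1, 0), (3, 1000)], [(2, 0)], 3, [s11_4_n0], [66000, 312000, 246000, 0], (.leaf 0 [⟨1, []⟩, ⟨1, []⟩, ⟨1, []⟩, ⟨1, []⟩, ⟨1, []⟩])⟩

theorem s11_4_ok : s11_4.ok = true := by decide +kernel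

def s11_23_n0 : Node := ⟨[⟨[0, 0, 1], 8⟩, ⟨[-1, 0, 1], 80⟩, ⟨[-1], 80⟩, ⟨[0, -1], 32⟩, ⟨[0, 0, 0, -1], 40⟩, ⟨[0, 0, 1], 16⟩, ⟨[0, -1, 1], 72⟩, ⟨[-1], 96⟩, ⟨[0, -1, 1], 48⟩, ⟨[0, 0, 1], 32⟩], [0, 0, 1], 0, none, (.ndet 2 [⟨1, [(0, 1)]⟩, ⟨1, [(2, 1), (0, 1)]⟩] (.ddet 0 [⟨1, [(2, 1)]⟩, ⟨1, [(6, 1)]⟩, ⟨1, [(5, 1)]⟩] (.ndet 1 [⟨1, [(0, 1)]⟩, ⟨1, [(3, 1)]⟩] (.ddet 1 [⟨1, [(0, 1)]⟩, ⟨1, [(2, 1), (0, 1)]⟩, ⟨1, []⟩] (.ndet 0 [⟨1, []⟩, ⟨1, [(2, 1)]⟩] (.ddet 2 [⟨1, [(0, 1)]⟩, ⟨1, [(0, 1)]⟩, ⟨1, [(3, 1)]⟩] (.leaf 0 [⟨1, [(0, 1)]⟩, ⟨1, [(0, 2)]⟩, ⟨1, [(0, 1)]⟩, ⟨1, []⟩, ⟨1, [(2, 1)]⟩, ⟨1, [(0, 1)]⟩, ⟨1, [(0, 1)]⟩, ⟨1, [(0, 1)]⟩, ⟨1, [(0, 1)]⟩, ⟨1,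 [(0, 1)]⟩, ⟨1, []⟩])))))))⟩
def s11_23 : Sys := ⟨[(0, -32), (1, -16), (3, 32)], [(0, 0), (1, 32), (2, 16), (4, 16)], 4, [s11_23_n0], [-128, -48, 80, -64], (.leaf 0 [⟨1, []⟩, ⟨1, []⟩, ⟨1, []⟩, ⟨1, []⟩, ⟨1, []⟩, ⟨1, []⟩, ⟨1, []⟩, ⟨1, []⟩, ⟨1, []⟩, ⟨1, []⟩])⟩

theorem s11_23_ok : s11_23.ok = true := by decide +kernel

def s12_16_t0 : Tree := .nbr (.cons (.ddet 0 [] (.ndet 0 [⟨118, [(8, 1), (2, 1), (1, 118)]⟩] (.ddet 0 [] (.ndet 1 [⟨4818176, [(8, 94967), (4, 18821), (2, 74258), (1, 4911278)]⟩] (.ddet 0 [] (.leaf 0 [⟨4818176, [(8, 94967), (4, 18821), (2, 74258), (1, 4911278)]⟩, ⟨1, [(1, 1)]⟩, ⟨6975570, [(8, 11511), (4, 18821), (2, 5906), (0,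 2157394)]⟩, ⟨8791, [(9, 184965), (8, 2684), (5, 580206), (2, 3923)]⟩, ⟨1, [(5, 1), (1, 1)]⟩, ⟨37642, [(8, 333), (2, 215), (1, 17582)]⟩, ⟨11823, [(8, 6), (4, 17), (2, 38), (0, 7471)]⟩, ⟨1204544, [(8, 843350), (3, 621093), (2, 61659), (1, 324839250)]⟩, ⟨7971, [(9, 33147), (4, 4976), (2, 4811), (0, 1005850)]⟩, ⟨602272, [(8, 336209), (4, 432883), (2, 207294), (1, 48550274)]⟩, ⟨4818176, [(8, 11511), (4, 18821), (2, 5906), (1, 2660782)]⟩])))))) (.cons (.ddet 0 [] (.ndet 0 [⟨6975570, [(8, 70626), (4, 18821), (2, 65021), (0, 4818176)]⟩] (.ddet 0 [] (.ndet 1 [⟨1125248, [(9, 1032146), (8, 25251), (4, 8791), (2, 15870)]⟩] (.ddet 0 [] (.leaf 0 [⟨1125248,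 [(9, 1032146), (8, 25251), (4, 8791), (2, 15870)]⟩, ⟨6975570, [(8, 11511), (4, 18821), (2, 5906), (0, 4818176)]⟩, ⟨1, [(6, 1)]⟩, ⟨8791, [(9, 2089131), (8, 8525), (2, 1976), (0, 580206)]⟩, ⟨17582, [(9, 20060), (8, 163), (2, 45)]⟩, ⟨2250496, [(9, 4725074), (8, 27043), (4, 8791), (2, 2558)]⟩, ⟨11823, [(8, 6), (4, 17), (2, 38), (0, 4352)]⟩, ⟨562624, [(9, 121597230), (8, 1161853), (4, 272521), (2, 248002)]⟩, ⟨7971, [(9, 33147), (4, 4976), (2, 4811), (0, 1034726)]⟩, ⟨6975570, [(8, 4821927), (4, 6530887), (2, 2876992), (0, 388402192)]⟩, ⟨3487785, [(8, 11511), (4, 18821), (2, 5906), (0, 1330391)]⟩])))))) .nil))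
def s12_16_t1 : Tree := .ddet 0 [] (.ndet 1 [⟨2409088, [(10, 32823), (6, 18821), (4, 19666), (2, 10668498)]⟩] (.ddet 0 [] (.ndet 1 [⟨4818176, [(10, 4758), (5, 18821), (4, 10363), (0, 21430098)]⟩] (.ddet 0 [] (.ndet 0 [⟨4818176, [(10, 135799), (6, 18821), (4, 115090), (0, 4911278)]⟩] (.ddet 0 [] (.ndet 1 [⟨1204544, [(10, 53239), (6, 18821), (4, 40082), (2, 7054866)]⟩] (.ddet 0 [] (.leaf 0 [⟨1204544, [(10, 53239), (6, 18821), (4, 40082), (2, 7054866)]⟩, ⟨118, [(10, 1), (4, 1), (0, 236)]⟩, ⟨4818176, [(10, 11511), (6, 18821), (4, 5906), (2, 11793746)]⟩, ⟨2409088, [(10, 3639701), (6, 357599), (4, 2747798), (2, 73328150)]⟩, ⟨4818176, [(10, 54135),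 (6, 18821), (4, 33426), (2, 9543250)]⟩, ⟨2409088, [(10, 32823), (6, 18821), (4, 19666), (2, 10668498)]⟩, ⟨118, [(10, 1), (4, 1), (0, 118)]⟩, ⟨602272, [(10, 1567985), (6, 734019), (4, 994446), (2, 338410430)]⟩, ⟨1204544, [(10, 2510902), (5, 18821), (4, 2644891), (0, 411845842)]⟩, ⟨2409088, [(10, 5051589), (6, 1863279), (4, 4390966), (2, 332737462)]⟩, ⟨2409088, [(10, 53239), (6, 18821), (4, 40082), (2, 3441234)]⟩])))))))))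
def s12_16_t2 : Tree := .split [-1, 1] (-2000) (.leaf 0 [⟨2409088, [(10, 53239), (6, 18821), (4, 40082), (0, 8259410)]⟩, ⟨10030, [(12, 18821), (10, 92), (4, 33)]⟩, ⟨1, [(0, 1)]⟩, ⟨602272, [(10, 474075), (6, 244673), (4, 204858), (0, 48778250)]⟩, ⟨4818176, [(10, 11511), (6, 18821), (4, 5906), (0, 6975570)]⟩, ⟨4818176, [(10, 11511), (6, 18821), (4, 5906), (0, 11793746)]⟩, ⟨10030, [(12, 8791), (10, 92), (4, 33)]⟩, ⟨1204544, [(10, 745337), (6, 884587), (4, 738670), (0, 405860174)]⟩, ⟨7552, [(12, 2634645), (10, 17921), (5, 1003), (4, 4705)]⟩, ⟨2409088, [(10, 3706753), (6, 131747), (4, 3561790), (0, 83666366)]⟩, ⟨4818176, [(10, 54135), (6, 18821),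 (4, 33426), (0, 4725074)]⟩]) (.ndet 0 [⟨2409088, [(10, 32823), (6, 18821), (4, 19666), (2, 10668498)]⟩] (.ddet 0 [] (.ndet 0 [⟨118, [(10, 1), (4, 1), (0, 236)]⟩] (.ddet 0 [] (.ndet 1 [⟨4818176, [(10, 135799), (6, 18821), (4, 115090), (0, 4911278)]⟩] (.ddet 0 [] (.ndet 0 [⟨2409088, [(10, 73655), (6, 18821), (4, 60498), (2, 3441234)]⟩] s12_16_t1)))))))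
def s12_16_t3 : Tree := .nbr (.cons (.ddet 0 [] (.ndet 0 [⟨19, [(11, 638), (9, 2), (8, 19), (0, 170)]⟩] (.ddet 0 [] (.ndet 1 [⟨19, [(11, 1295), (9, 4), (8, 38), (0, 359)]⟩] (.ddet 0 [] (.leaf 0 [⟨19, [(11, 1295), (9, 4), (8, 38), (0, 359)]⟩, ⟨38, [(11, 319), (9, 1), (0, 66)]⟩, ⟨38, [(11, 319), (9, 1), (0, 104)]⟩, ⟨38, [(11, 64119), (9, 201), (8, 3952), (0, 18662)]⟩, ⟨19, [(11, 338), (9, 1), (8, 19), (0, 85)]⟩, ⟨38, [(11, 995), (9, 3), (8, 38), (0, 274)]⟩, ⟨38, [(11, 281), (9, 1), (0, 104)]⟩, ⟨38, [(11, 176565), (9, 523), (8, 7144), (0, 43790)]⟩, ⟨2432, [(11, 3850235), (9, 13666), (4, 323), (0, 1422442)]⟩, ⟨38, [(11, 124091), (9, 389),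 (8, 532), (0, 33730)]⟩, ⟨38, [(11, 957), (9, 3), (8, 38), (0, 274)]⟩])))))) (.cons (.ddet 0 [] (.ndet 0 [⟨1283840, [(11, 46551), (9, 25322), (5, 5015), (3, 19658)]⟩] (.ddet 0 [] (.ndet 1 [⟨2409088, [(9, 53239), (5, 18821), (3, 40082), (1, 8259410)]⟩] (.ddet 0 [] s12_16_t2))))) .nil))
def s12_16_t4 : Tree := .ddet 0 [] (.ndet 1 [⟨1283840, [(9, 46551), (7, 25322), (3, 5015), (1, 19658)]⟩] (.ddet 0 [] (.split [1, -1] (1000) (.leaf 0 [⟨4818176, [(8, 94967), (4, 18821), (2, 74258), (0, 93102)]⟩, ⟨1, [(0, 1)]⟩, ⟨4818176, [(8, 11511), (4, 18821), (2, 5906), (1, 6975570)]⟩, ⟨219008, [(8, 84802), (3, 56463), (2, 101617), (0, 11071350)]⟩, ⟨1, [(5,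 1), (0, 2)]⟩, ⟨37642, [(8, 333), (2, 215), (0, 17582)]⟩, ⟨4818176, [(8, 9719), (4, 18821), (2, 19218), (1, 9226066)]⟩, ⟨1204544, [(8, 843350), (3, 621093), (2, 61659), (0, 483839058)]⟩, ⟨2409088, [(8, 722553), (4, 2691403), (2, 1854350), (1, 1133797454)]⟩, ⟨602272, [(8, 336209), (4, 432883), (2, 207294), (1, 62267774)]⟩, ⟨4818176, [(8, 11511), (4, 18821), (2, 5906), (1, 2157394)]⟩]) (.ndet 0 [⟨4818176, [(8, 94967), (4, 18821), (2, 74258), (0, 4725074)]⟩] (.ddet 0 [] (.ndet 1 [⟨4818176, [(8, 11511), (4, 18821), (2, 5906), (0, 11793746)]⟩] (.ddet 0 [] s12_16_t3)))))))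
def s12_16_t5 : Tree := .ndet 1 [⟨10030, [(9, 18821), (7, 92), (1, 33)]⟩] (.ddet 0 [] (.ndet 0 [⟨4818176, [(7, 52343), (3, 18821), (1, 46738), (0, 2157394)]⟩] (.ddet 0 [] (.ndet 1 [⟨4818176, [(7, 54135), (3, 18821), (1, 33426), (0, 9543250)]⟩] (.ddet 0 [] (.ndet 0 [⟨4818176, [(7, 11511), (3, 18821), (1, 5906), (0, 11793746)]⟩] (.ddet 0 [] (.ndet 0 [⟨10030, [(9, 18821), (7, 92), (1, 33)]⟩] s12_16_t4))))))))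
def s12_16_t6 : Tree := .nbr (.cons (.ddet 0 [] (.ndet 1 [⟨118, [(7, 1), (1, 1), (0, 118)]⟩] (.ddet 0 [] (.ndet 0 [⟨4818176, [(7, 52343), (3, 18821), (1, 46738), (0, 2660782)]⟩] (.ddet 0 [] (.ndet 1 [⟨2250496, [(8, 4725074), (7, 27043), (3, 8791), (1, 2558)]⟩] (.ddet 0 [] s12_16_t0))))))) (.cons (.ddet 0 [] s12_16_t5) .nil))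
def s12_16_n0 : Node := ⟨[⟨[0, 0, -1, 1], -200⟩, ⟨[0, -1, 0, 1], -200⟩, ⟨[-1, 0, 0, 1], -200⟩, ⟨[170, 149, 0, -215], 12835500⟩, ⟨[1, 0, -1, -1], 57000⟩, ⟨[0, 0, -1], 59700⟩, ⟨[0, 1, 1], 59700⟩, ⟨[64, -159, -256, 27], 15283200⟩, ⟨[-64, 159, 256, 127], 15283200⟩, ⟨[-170, -149, 0, 333], 19880100⟩], [0, 0, 0, 1], 0, none, (.ndet 0 [⟨2250496, [(7, 4725074), (6, 27043), (2, 8791), (0, 2558)]⟩] (.ddet 0 [] s12_16_t6))⟩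
def s12_16 : Sys := ⟨[(2, -1000), (3, 0)], [(4, -1000)], 4, [s12_16_n0], [329227, 200354, -89514, 334196], (.leaf 0 [⟨1, []⟩, ⟨1, []⟩, ⟨1, []⟩, ⟨1, []⟩, ⟨1, []⟩, ⟨1, []⟩, ⟨1, []⟩, ⟨1, []⟩, ⟨1, []⟩, ⟨1, []⟩])⟩

theorem s12_16_ok : s12_16.ok = true := by decide +kernel

def s15_20_n0 : Node := ⟨[⟨[0, 1], 8⟩, ⟨[-1, 1], 56⟩, ⟨[0, 1, -1], 88⟩, ⟨[0, 1, 0, -1], 96⟩, ⟨[0, 1], -24⟩, ⟨[-1, 1], 40⟩, ⟨[-1, 0, 1], -8⟩, ⟨[0, 1, -1], 48⟩, ⟨[0, 1, -1], 64⟩, ⟨[-1, 1, -1], 144⟩, ⟨[0, 1], 0⟩, ⟨[0, 0, -1], 24⟩, ⟨[0, 0, 1], -88⟩, ⟨[0, 1], 24⟩], [0, 1], 0, none, (.ndet 2 [⟨1, [(0, 1)]⟩, ⟨2, [(7, 1), (4, 1), (0, 1)]⟩, ⟨1, [(11, 1)]⟩] (.ddet 0 [⟨1, [(10, 1)]⟩]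 (.ndet 3 [⟨1, [(0, 1)]⟩, ⟨1, [(0, 1)]⟩, ⟨2, [(7, 1), (4, 1), (0, 1)]⟩] (.ddet 1 [⟨1, [(7, 1)]⟩] (.ndet 1 [⟨1, [(11, 1)]⟩, ⟨1, [(11, 1)]⟩, ⟨1, [(4, 1)]⟩] (.ddet 1 [⟨1, [(0, 1)]⟩] (.leaf 0 [⟨1, [(11, 1)]⟩, ⟨1, [(0, 1)]⟩, ⟨1, [(11, 1)]⟩, ⟨1, [(4, 1)]⟩, ⟨1, [(11, 1)]⟩, ⟨1, [(0, 1)]⟩, ⟨1, [(1, 1)]⟩, ⟨1, [(11, 1)]⟩, ⟨1, [(11, 1)]⟩, ⟨1, [(0, 1)]⟩, ⟨1, [(11, 1)]⟩, ⟨1, []⟩, ⟨1, []⟩, ⟨1, [(11, 1)]⟩, ⟨1, [(2, 1)]⟩])))))))⟩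
def s15_20 : Sys := ⟨[(0, -64), (1, -32), (2, 0), (3, 64)], [(2, 32), (4, 80)], 4, [s15_20_n0], [-64, 80, -32, -64], (.leaf 0 [⟨1, []⟩, ⟨1, []⟩, ⟨1, []⟩, ⟨1, []⟩, ⟨1, []⟩, ⟨1, []⟩, ⟨1, []⟩, ⟨1, []⟩, ⟨1, []⟩, ⟨1, []⟩, ⟨1, []⟩, ⟨1, []⟩, ⟨1, []⟩, ⟨1, []⟩])⟩

theorem s15_20_ok : s15_20.ok = true := by decide +kernel

def s16_2_n0 : Node := ⟨[⟨[1, 0, 0, -1], -200⟩, ⟨[1, 0, -1], -200⟩, ⟨[1, -1], -200⟩, ⟨[1, 1, -1, -1], 239700⟩, ⟨[-1, -1, 0, -1], 239700⟩, ⟨[0, 1, 1, -1], 239700⟩, ⟨[1, 0, -1, 1], 239700⟩, ⟨[0, 0, 1, 1], 239700⟩], [1], 0, none, (.ndet 0 [] (.ddet 0 [] (.ndet 0 [] (.ddet 0 [] (.ndet 0 [] (.ddet 0 [] (.ndet 0 [] (.ddet 0 [] (.leaf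 0 [⟨1, [(3, 11), (2, 10), (1, 14), (0, 5)]⟩, ⟨1, [(4, 3), (3, 4), (1, 2), (0, 5)]⟩, ⟨1, [(4, 12), (3, 14), (1, 5), (0, 19)]⟩, ⟨1, [(3, 1), (2, 1), (1, 2)]⟩, ⟨1, [(3, 1), (2, 1), (1, 1)]⟩, ⟨1, [(3, 1), (2, 2), (1, 2)]⟩, ⟨1, [(3, 1), (1, 1), (0, 1)]⟩, ⟨1, [(4, 1), (3, 1), (0, 2)]⟩, ⟨1, [(4, 5), (3, 6), (1, 2), (0, 8)]⟩])))))))))⟩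
def s16_2_n1 : Node := ⟨[⟨[0, 1, 0, -1], -200⟩, ⟨[0, 1, -1], -200⟩, ⟨[-1, 1], -200⟩, ⟨[0, 0, -1, -1], 239700⟩, ⟨[-1, 0, 1, -1], 239700⟩, ⟨[0, -1, -1, 1], 239700⟩, ⟨[1, 1, 0, 1], 239700⟩, ⟨[-1, -1, 1, 1], 239700⟩], [0, 1], 0, none, (.ndet 0 [] (.ddet 0 [] (.ndet 0 [] (.ddet 0 [] (.ndet 0 [] (.ddet 0 [] (.ndet 0 [] (.ddet 0 [] (.leaf 1 [⟨1, [(4, 2), (3, 3), (2, 2), (1, 3)]⟩, ⟨1, [(4, 14), (3, 3), (1, 10), (0, 9)]⟩, ⟨1, [(4, 19), (3, 5), (1, 14), (0, 12)]⟩, ⟨1, [(4, 1), (3, 1), (2, 1), (1, 1)]⟩, ⟨1, [(4, 1), (3, 1), (1, 1)]⟩, ⟨1, [(4, 2), (1, 1), (0, 2)]⟩, ⟨1, [(4, 1), (1, 1), (0, 1)]⟩, ⟨1, [(4, 1), (3, 1), (1, 1), (0, 1)]⟩, ⟨1, [(4, 6),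 (3, 1), (1, 4), (0, 4)]⟩])))))))))⟩
def s16_2 : Sys := ⟨[(4, 3000)], [(1, -3000)], 4, [s16_2_n0, s16_2_n1], [3091283, -2230492, 1631301, -1170906], (.leaf 0 [⟨1, []⟩, ⟨1, []⟩, ⟨1, []⟩, ⟨1, []⟩, ⟨1, []⟩, ⟨1, []⟩, ⟨1, []⟩, ⟨1, []⟩])⟩

theorem s16_2_ok : s16_2.ok = true := by decide +kernel

def s17_14_n0 : Node := ⟨[⟨[0, 0, 0, -1], 256⟩, ⟨[1, -1], 840⟩, ⟨[1, 0, -1], 872⟩, ⟨[0, 0, -1], 328⟩, ⟨[2], 1000⟩, ⟨[1, -1], 704⟩, ⟨[0, -1], 232⟩, ⟨[2], 992⟩, ⟨[2], 1136⟩, ⟨[1], 536⟩, ⟨[1], 544⟩], [1], 0, none, (.ndet 0 [⟨1, [(10, 1)]⟩] (.ddet 0 [⟨1, [(9, 1)]⟩, ⟨2, [(7, 2), (2, 1)]⟩] (.ndet 0 [⟨1, [(7, 1)]⟩] (.ddet 1 [⟨1, [(2, 1)]⟩, ⟨1, [(9, 1)]⟩] (.ndet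 0 [⟨1, [(4, 1)]⟩] (.ddet 2 [⟨1, [(2, 1)]⟩, ⟨1, [(2, 1)]⟩] (.ndet 1 [⟨2, [(2, 1)]⟩] (.ddet 2 [⟨1, []⟩, ⟨1, []⟩] (.leaf 0 [⟨2, [(2, 1)]⟩, ⟨2, [(2, 3)]⟩, ⟨2, [(2, 3)]⟩, ⟨2, [(2, 1)]⟩, ⟨1, [(2, 2)]⟩, ⟨2, [(2, 3)]⟩, ⟨2, [(2, 1)]⟩, ⟨1, [(2, 2)]⟩, ⟨1, [(2, 2)]⟩, ⟨1, [(2, 1)]⟩, ⟨1, [(2, 1)]⟩, ⟨2, [(2, 1)]⟩])))))))))⟩
def s17_14 : Sys := ⟨[(0, -32), (4, -48)], [(1, -64), (2, 80), (3, -48)], 4, [s17_14_n0], [1056, -480, -672, -528], (.leaf 0 [⟨1, []⟩, ⟨1, []⟩, ⟨1, []⟩, ⟨1, []⟩, ⟨1, []⟩, ⟨1, []⟩, ⟨1, []⟩, ⟨1, []⟩, ⟨1, []⟩, ⟨1, []⟩, ⟨1, []⟩])⟩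

theorem s17_14_ok : s17_14.ok = true := by decide +kernel

def s18_5_t0 : Tree := .ddet 1 [⟨1, [(13, 1)]⟩] (.nbr (.cons (.ddet 1 [⟨1, [(14, 1)]⟩] (.ndet 1 [⟨1, [(14, 2)]⟩] (.ddet 0 [⟨1, []⟩] (.leaf 0 [⟨1, []⟩, ⟨1, [(14, 1)]⟩, ⟨1, [(14, 2)]⟩, ⟨1, []⟩, ⟨1, []⟩, ⟨1, [(14, 1)]⟩, ⟨1, []⟩, ⟨1, [(14, 2)]⟩, ⟨1, []⟩, ⟨1, []⟩, ⟨1, [(14, 1)]⟩, ⟨1, []⟩, ⟨1, [(14, 1)]⟩, ⟨1, []⟩, ⟨1, [(14, 2)]⟩, ⟨1, []⟩, ⟨1, [(14, 1)]⟩, ⟨1, [(14, 3)]⟩, ⟨1, [(14, 1)]⟩, ⟨1, [(14, 2)]⟩, ⟨1, [(14, 2)]⟩, ⟨1, []⟩, ⟨1, []⟩])))) (.cons (.ddet 1 [⟨1, [(14, 1)]⟩] (.ndet 1 [⟨1, [(14, 2), (1, 1)]⟩] (.ddet 0 [⟨1, []⟩] (.leaf 0 [⟨1, []⟩, ⟨1, [(14, 1)]⟩, ⟨1, [(14, 2), (1, 1)]⟩, ⟨1,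 [(1, 1)]⟩, ⟨1, []⟩, ⟨1, [(14, 1), (1, 1)]⟩, ⟨1, []⟩, ⟨1, [(14, 2), (1, 1)]⟩, ⟨1, []⟩, ⟨1, [(0, 1)]⟩, ⟨1, [(14, 1)]⟩, ⟨1, [(0, 1)]⟩, ⟨1, [(14, 1)]⟩, ⟨1, [(0, 1)]⟩, ⟨1, [(14, 2)]⟩, ⟨1, [(0, 1)]⟩, ⟨1, [(14, 1), (0, 1)]⟩, ⟨1, [(14, 3), (1, 1)]⟩, ⟨1, [(14, 1)]⟩, ⟨1, [(14, 2)]⟩, ⟨1, [(14, 2)]⟩, ⟨1, [(0, 1)]⟩, ⟨1, []⟩])))) .nil)))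
def s18_5_t1 : Tree := .ndet 1 [⟨1, [(0, 2)]⟩] (.dbr (.cons (.ndet 1 [⟨1, [(22, 1)]⟩] (.ddet 0 [⟨1, [(14, 1), (0, 1)]⟩] (.split [1, -1] (0) (.leaf 0 [⟨1, [(15, 1), (1, 1)]⟩, ⟨1, [(15, 2), (1, 1)]⟩, ⟨1, [(0, 1)]⟩, ⟨1, [(1, 1)]⟩, ⟨1, [(15, 2), (1, 2)]⟩, ⟨1, []⟩, ⟨1, []⟩, ⟨1, [(15, 1)]⟩, ⟨1, [(15, 1), (1, 1)]⟩, ⟨1, [(15, 3), (1, 2)]⟩, ⟨1, [(15, 1)]⟩, ⟨1, [(15, 2), (1, 1)]⟩, ⟨1, [(0, 1)]⟩, ⟨1, [(15, 1)]⟩, ⟨1, [(15, 2)]⟩, ⟨1, [(15, 2), (1, 1)]⟩, ⟨1, [(15, 3), (1, 1)]⟩, ⟨1, [(0, 2)]⟩, ⟨1, [(0, 1)]⟩, ⟨1, [(15, 1), (0, 1)]⟩, ⟨1, [(0, 2)]⟩, ⟨1, [(0, 1)]⟩, ⟨1, []⟩]) (.leaf 1 [⟨1, [(15, 1), (0, 2)]⟩, ⟨1, [(15, 2), (0, 2)]⟩, ⟨1, [(0, 1)]⟩, ⟨1, [(15,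 2), (0, 3)]⟩, ⟨1, [(0, 1)]⟩, ⟨1, [(0, 2)]⟩, ⟨1, [(15, 2), (0, 2)]⟩, ⟨1, []⟩, ⟨1, [(0, 1)]⟩, ⟨1, [(15, 1), (0, 2)]⟩, ⟨1, [(15, 3), (0, 2)]⟩, ⟨1, [(15, 1)]⟩, ⟨1, [(15, 1), (0, 1)]⟩, ⟨1, [(15, 2), (0, 1)]⟩, ⟨1, [(23, 1)]⟩, ⟨1, []⟩, ⟨1, [(15, 1)]⟩, ⟨1, [(15, 2)]⟩, ⟨1, [(0, 1)]⟩])))) (.cons (.ndet 1 [⟨1, [(0, 2)]⟩] (.ddet 0 [⟨1, [(1, 1)]⟩] (.leaf 0 [⟨1, [(1, 1)]⟩, ⟨1, [(14, 1), (1, 1)]⟩, ⟨1, [(0, 2)]⟩, ⟨1, []⟩, ⟨1, [(1, 2)]⟩, ⟨1, [(0, 1)]⟩, ⟨1, []⟩, ⟨1, [(14, 1), (0, 1)]⟩, ⟨1, [(1, 1)]⟩, ⟨1, [(1, 3)]⟩, ⟨1, [(14, 1)]⟩, ⟨1, [(1, 2)]⟩, ⟨1, [(0, 1)]⟩, ⟨1, [(1, 1)]⟩, ⟨1, [(14, 2)]⟩, ⟨1, [(1, 2)]⟩, ⟨1, [(14, 1), (1, 2)]⟩, ⟨1, [(0, 3)]⟩, ⟨1, [(0,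 1)]⟩, ⟨1, [(14, 1), (0, 1)]⟩, ⟨1, [(0, 2)]⟩, ⟨1, []⟩, ⟨1, []⟩]))) .nil)))
def s18_5_t2 : Tree := .ddet 0 [⟨1, [(19, 1), (16, 1), (12, 1), (0, 2)]⟩] (.ndet 0 [⟨1, [(14, 1), (12, 1), (0, 1)]⟩] (.ddet 1 [⟨1, [(12, 1)]⟩] (.ndet 0 [⟨1, [(19, 1), (16, 1), (12, 1), (0, 3)]⟩] (.ddet 1 [⟨1, [(12, 1), (0, 1)]⟩] (.ndet 1 [⟨1, [(12, 2)]⟩] (.ddet 0 [⟨1, [(22, 1)]⟩] (.split [1, 0, 0, -1] (0) (.leaf 0 [⟨1, [(0, 1)]⟩, ⟨1, [(13, 1), (0, 1)]⟩, ⟨1, [(13, 2)]⟩, ⟨1, [(0, 2)]⟩, ⟨1, [(0, 2)]⟩, ⟨1, [(13, 1), (0, 1)]⟩, ⟨1, []⟩, ⟨1, [(13, 2), (0, 1)]⟩, ⟨1, [(0, 1)]⟩, ⟨1, [(0, 1)]⟩, ⟨1, [(13, 1)]⟩, ⟨1, []⟩, ⟨1, [(13, 1), (1, 1)]⟩, ⟨1, [(1, 1)]⟩, ⟨1, [(13, 2)]⟩,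 ⟨1, []⟩, ⟨1, [(13, 1)]⟩, ⟨1, [(13, 3), (1, 1)]⟩, ⟨1, [(13, 1), (1, 1)]⟩, ⟨1, [(13, 2), (1, 1)]⟩, ⟨1, [(13, 2), (1, 2)]⟩, ⟨1, [(1, 2)]⟩, ⟨1, []⟩]) (.leaf 3 [⟨1, [(13, 1)]⟩, ⟨1, [(13, 2), (0, 1)]⟩, ⟨1, [(0, 1)]⟩, ⟨1, []⟩, ⟨1, [(23, 1)]⟩, ⟨1, []⟩, ⟨1, [(13, 2), (0, 1)]⟩, ⟨1, [(0, 1)]⟩, ⟨1, [(13, 2)]⟩, ⟨1, []⟩, ⟨1, []⟩, ⟨1, [(13, 3), (0, 1)]⟩, ⟨1, [(13, 1), (0, 1)]⟩, ⟨1, [(13, 2), (0, 1)]⟩, ⟨1, [(0, 1)]⟩, ⟨1, [(13, 1), (0, 1)]⟩, ⟨1, [(13, 3), (0, 2)]⟩, ⟨1, [(0, 2)]⟩, ⟨1, [(0, 1)]⟩]))))))))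
def s18_5_n0 : Node := ⟨[⟨[1, 0, 0, -1], -200⟩, ⟨[1, 0, -1], -200⟩, ⟨[1, -1], -200⟩, ⟨[0, -1, -1, -1], 20⟩, ⟨[1, 0, -1, -1], 1740⟩, ⟨[1, -1, 0, -1], 2640⟩, ⟨[1, 0, 1, -1], -2340⟩, ⟨[1, -1, -1], 239000⟩, ⟨[0, 0, -1], 1700⟩, ⟨[1, 1, -1], -3280⟩, ⟨[1], 239700⟩, ⟨[1, 1], -5360⟩, ⟨[1, 0, 1], -5300⟩, ⟨[1, 1, 1], -13400⟩, ⟨[1, 0, -1, 1], 239700⟩, ⟨[0, 1, -1, 1], -3320⟩, ⟨[1, 1, -1, 1], 237000⟩, ⟨[1, -1, 0, 1], -3320⟩, ⟨[0, 0, 0, 1], -3340⟩, ⟨[1, 0, 0, 1], 237000⟩, ⟨[1, 0, 1, 1], -8340⟩, ⟨[0, 1, 1, 1], -19400⟩], [1], 0, none, (.nbr (.cons (.dbr (.cons (.ndet 0 [⟨1, [(15, 1), (13, 1)]⟩] s18_5_t0) (.cons (.ndet 0 [⟨1, [(16, 1)]⟩] (.ddet 1 [⟨1, [(13,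 1)]⟩] s18_5_t1)) .nil))) (.cons s18_5_t2 .nil)))⟩
def s18_5_t3 : Tree := .ddet 1 [⟨2, [(7, 1), (5, 1), (0, 1)]⟩] (.ndet 1 [⟨1, [(7, 2)]⟩] (.ddet 0 [⟨1, [(17, 1)]⟩] (.nbr (.cons (.ddet 0 [⟨1, [(8, 1)]⟩] (.leaf 1 [⟨1, [(8, 1), (0, 1)]⟩, ⟨1, [(8, 2)]⟩, ⟨1, []⟩, ⟨1, [(8, 2), (0, 1)]⟩, ⟨1, [(0, 1)]⟩, ⟨1, [(0, 1)]⟩, ⟨1, [(8, 2), (0, 1)]⟩, ⟨1, [(0, 1)]⟩, ⟨1, [(0, 1)]⟩, ⟨1, [(8, 1)]⟩, ⟨1, [(8, 3)]⟩, ⟨1, [(8, 1)]⟩, ⟨1, [(8, 1)]⟩, ⟨1, [(8, 2)]⟩, ⟨1, []⟩, ⟨1, []⟩, ⟨2, [(8, 1), (6, 1), (1, 1)]⟩, ⟨2, [(8, 3), (6, 1), (1, 1)]⟩, ⟨1, []⟩])) (.cons (.ddet 0 [⟨1, [(8, 1)]⟩] (.split [1, -1] (0) (.leaf 0 [⟨1, [(9, 1)]⟩, ⟨1, [(9, 2), (0, 1)]⟩, ⟨1, [(0, 1)]⟩,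 ⟨1, [(19, 1)]⟩, ⟨1, [(9, 2)]⟩, ⟨1, []⟩, ⟨1, []⟩, ⟨1, [(9, 1), (0, 1)]⟩, ⟨1, [(9, 1)]⟩, ⟨1, [(9, 3), (0, 1)]⟩, ⟨1, [(9, 1), (0, 1)]⟩, ⟨1, [(9, 2), (0, 1)]⟩, ⟨1, [(0, 1)]⟩, ⟨1, [(9, 1), (0, 1)]⟩, ⟨1, [(9, 2), (0, 2)]⟩, ⟨1, [(9, 2), (0, 1)]⟩, ⟨1, [(9, 3), (0, 2)]⟩, ⟨1, [(0, 2)]⟩, ⟨1, [(0, 1)]⟩, ⟨1, [(9, 1), (0, 2)]⟩, ⟨1, [(0, 2)]⟩, ⟨1, [(0, 1)]⟩, ⟨1, [(0, 1)]⟩]) (.leaf 1 [⟨1, [(9, 1), (0, 1)]⟩, ⟨1, [(9, 2)]⟩, ⟨1, [(0, 1)]⟩, ⟨1, [(9, 2), (0, 1)]⟩, ⟨1, [(0, 1)]⟩, ⟨1, [(0, 2)]⟩, ⟨1, [(9, 2)]⟩, ⟨1, []⟩, ⟨1, [(0, 1)]⟩, ⟨1, [(9, 1), (0, 1)]⟩, ⟨1, [(9, 3), (1, 1)]⟩, ⟨1, [(9, 1), (1, 1)]⟩, ⟨1, [(9, 1)]⟩, ⟨1, [(9, 2), (1, 1)]⟩, ⟨1, [(1, 1)]⟩, ⟨1,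 []⟩, ⟨1, [(9, 1), (1, 1)]⟩, ⟨1, [(9, 2), (1, 2)]⟩, ⟨1, []⟩]))) .nil)))))
def s18_5_t4 : Tree := .nbr (.cons (.dbr (.cons (.leaf 1 [⟨1, [(10, 1), (1, 1)]⟩, ⟨1, [(10, 1), (0, 1)]⟩, ⟨1, []⟩, ⟨2, [(13, 1), (10, 3), (0, 1)]⟩, ⟨1, [(1, 1)]⟩, ⟨1, [(1, 1)]⟩, ⟨1, [(10, 2), (1, 1)]⟩, ⟨1, [(3, 1), (1, 1)]⟩, ⟨1, [(3, 1), (1, 1)]⟩, ⟨1, [(0, 1)]⟩, ⟨1, [(10, 2), (0, 1)]⟩, ⟨1, [(10, 1)]⟩, ⟨1, [(10, 1)]⟩, ⟨1, [(10, 2)]⟩, ⟨1, [(3, 1)]⟩, ⟨1, [(3, 1)]⟩, ⟨1, [(2, 1)]⟩, ⟨1, [(10, 1), (2, 1)]⟩, ⟨1, []⟩]) (.cons (.leaf 1 [⟨2, [(13, 1), (10, 3), (0, 1)]⟩, ⟨1, [(13, 1), (2, 2)]⟩, ⟨1, [(0, 1)]⟩, ⟨1, [(13, 1), (10, 1), (2, 1)]⟩, ⟨2, [(13, 1), (10, 1), (0, 1)]⟩, ⟨2,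 [(13, 1), (10, 1), (0, 3)]⟩, ⟨1, [(13, 1), (10, 2), (2, 1)]⟩, ⟨2, [(13, 1), (10, 3), (0, 1)]⟩, ⟨2, [(13, 1), (10, 3), (0, 3)]⟩, ⟨1, []⟩, ⟨1, [(13, 2), (2, 4)]⟩, ⟨1, [(13, 1), (2, 2)]⟩, ⟨1, [(10, 1)]⟩, ⟨1, [(13, 1), (10, 1), (2, 2)]⟩, ⟨1, [(10, 1)]⟩, ⟨1, [(10, 1), (0, 1)]⟩, ⟨1, [(2, 1)]⟩, ⟨1, [(13, 1), (2, 3)]⟩, ⟨1, []⟩]) .nil))) (.cons (.ddet 0 [⟨1, [(12, 1), (9, 1), (0, 2)]⟩] (.split [1, -1] (0) (.leaf 0 [⟨1, [(10, 1)]⟩, ⟨1, [(13, 1), (10, 2), (0, 3)]⟩, ⟨1, [(0, 1)]⟩, ⟨1, [(13, 1), (0, 1)]⟩, ⟨1, [(13, 1), (10, 2), (0, 2)]⟩, ⟨1, []⟩, ⟨1, [(3, 1)]⟩, ⟨1, [(13, 1), (10, 1), (0, 3)]⟩, ⟨1, [(13, 1), (10, 1), (0, 2)]⟩, ⟨1, [(13, 1), (10, 3),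 (0, 3)]⟩, ⟨1, [(10, 1), (0, 1)]⟩, ⟨1, [(10, 2), (0, 1)]⟩, ⟨1, [(3, 1), (0, 1)]⟩, ⟨1, [(10, 1), (3, 1), (0, 1)]⟩, ⟨1, [(13, 1), (10, 2), (0, 4)]⟩, ⟨1, [(13, 1), (10, 2), (0, 3)]⟩, ⟨1, [(13, 1), (10, 3), (0, 4)]⟩, ⟨1, [(0, 2)]⟩, ⟨1, [(0, 1)]⟩, ⟨1, [(10, 1), (0, 2)]⟩, ⟨1, [(3, 1), (0, 2)]⟩, ⟨1, [(3, 1), (0, 1)]⟩, ⟨1, [(0, 1)]⟩]) (.leaf 1 [⟨1, [(10, 1), (0, 1)]⟩, ⟨1, [(13, 1), (10, 2), (1, 2)]⟩, ⟨1, [(0, 1)]⟩, ⟨1, [(13, 1), (10, 2), (1, 1)]⟩, ⟨1, [(0, 1)]⟩, ⟨1, [(0, 2)]⟩, ⟨1, [(10, 2)]⟩, ⟨1, [(3, 1)]⟩, ⟨1, [(3, 1), (0, 1)]⟩, ⟨1, [(13, 1), (10, 1), (1, 1)]⟩, ⟨1, [(13, 1), (10, 3), (1, 3)]⟩, ⟨1, [(10, 1), (1, 1)]⟩, ⟨1, [(10, 1)]⟩, ⟨1, [(10,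 2), (1, 1)]⟩, ⟨1, [(3, 1), (1, 1)]⟩, ⟨1, [(3, 1)]⟩, ⟨1, [(10, 1), (1, 1)]⟩, ⟨1, [(10, 2), (1, 2)]⟩, ⟨1, []⟩]))) .nil))
def s18_5_t5 : Tree := .dbr (.cons (.ndet 1 [⟨1, [(19, 1)]⟩] (.ddet 0 [⟨1, [(8, 1), (0, 1)]⟩] (.ndet 0 [⟨1, [(8, 1), (0, 1)]⟩] (.dbr (.cons (.leaf 1 [⟨1, [(9, 2), (1, 1)]⟩, ⟨1, [(9, 1), (0, 1)]⟩, ⟨1, []⟩, ⟨1, [(9, 2), (1, 1), (0, 1)]⟩, ⟨1, [(9, 1), (1, 1)]⟩, ⟨1, [(9, 1), (1, 1)]⟩, ⟨1, [(9, 3), (1, 1)]⟩, ⟨1, [(9, 2), (7, 1), (1, 2)]⟩, ⟨1, [(9, 2), (7, 1), (1, 2)]⟩, ⟨1, [(0, 1)]⟩, ⟨1, [(9, 2), (0, 1)]⟩, ⟨1, [(9, 1)]⟩, ⟨1, [(9, 1)]⟩, ⟨1, [(9, 2)]⟩, ⟨1, [(9, 1), (7, 1), (1, 1)]⟩, ⟨1, [(9, 1), (7, 1), (1, 1)]⟩, ⟨1, [(10, 1)]⟩,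 ⟨1, [(8, 1)]⟩, ⟨1, []⟩]) (.cons (.split [0, 1, -1] (0) (.leaf 1 [⟨1, [(10, 2), (2, 1)]⟩, ⟨1, [(0, 1)]⟩, ⟨1, [(1, 1)]⟩, ⟨1, [(13, 1), (10, 1)]⟩, ⟨1, [(10, 1), (2, 1)]⟩, ⟨1, [(10, 1), (2, 1), (1, 1)]⟩, ⟨1, [(13, 1), (10, 2)]⟩, ⟨1, [(10, 2), (2, 1)]⟩, ⟨1, [(10, 2), (2, 1), (1, 1)]⟩, ⟨1, []⟩, ⟨1, [(0, 2)]⟩, ⟨1, [(0, 1)]⟩, ⟨1, [(10, 1)]⟩, ⟨1, [(10, 1), (0, 1)]⟩, ⟨1, [(10, 1)]⟩, ⟨1, [(10, 1), (1, 1)]⟩, ⟨1, [(11, 1)]⟩, ⟨1, [(12, 1)]⟩, ⟨1, []⟩]) (.leaf 2 [⟨1, [(13, 1), (10, 2), (0, 2)]⟩, ⟨1, [(0, 1)]⟩, ⟨1, [(10, 1), (0, 2)]⟩, ⟨1, [(13, 1), (10, 1), (0, 2)]⟩, ⟨1, [(13, 1), (10, 2), (0, 2)]⟩, ⟨1, [(13, 1), (10, 1), (0, 2)]⟩, ⟨1, [(13, 1), (10, 3),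 (0, 2)]⟩, ⟨1, []⟩, ⟨1, [(0, 2)]⟩, ⟨1, []⟩, ⟨1, [(10, 1), (0, 1)]⟩, ⟨1, [(10, 1)]⟩, ⟨1, [(10, 2), (0, 1)]⟩, ⟨1, [(10, 2)]⟩, ⟨1, [(12, 1), (0, 2)]⟩, ⟨1, [(12, 1), (0, 1)]⟩, ⟨1, [(12, 1)]⟩, ⟨1, [(12, 1), (0, 2)]⟩, ⟨1, [(12, 1), (0, 1)]⟩, ⟨1, [(0, 1)]⟩])) .nil)))))) (.cons (.ndet 1 [⟨1, [(11, 1), (0, 2)]⟩] (.ddet 0 [⟨1, [(18, 1)]⟩] s18_5_t4)) .nil))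
def s18_5_t6 : Tree := .dbr (.cons (.ndet 1 [⟨1, [(16, 1), (8, 1), (1, 1)]⟩] (.ddet 0 [⟨1, [(15, 1), (7, 1)]⟩] (.ndet 0 [⟨1, [(7, 1), (0, 1)]⟩] (.dbr (.cons (.leaf 1 [⟨1, [(16, 1), (8, 2)]⟩, ⟨1, [(8, 1), (0, 1)]⟩, ⟨1, []⟩, ⟨1, [(16, 1), (8, 2), (0, 1)]⟩, ⟨1, [(16, 1), (8, 1)]⟩, ⟨1, [(16, 1), (8, 1)]⟩, ⟨1, [(16, 1), (8, 3)]⟩, ⟨1, [(13, 1), (8, 2), (1, 1)]⟩, ⟨1, [(13, 1), (8, 2), (1, 1)]⟩, ⟨1, [(0, 1)]⟩, ⟨1, [(8, 2), (0, 1)]⟩, ⟨1, [(8, 1)]⟩, ⟨1, [(8, 1)]⟩, ⟨1, [(8, 2)]⟩, ⟨1, [(13, 1), (8, 1), (2, 1)]⟩, ⟨1, [(13, 1), (8, 1), (2, 1)]⟩, ⟨1, [(9, 1), (2, 1)]⟩, ⟨1, [(7, 1), (2, 1)]⟩, ⟨1, []⟩]) (.cons (.leaf 1 [⟨1, [(16, 1), (8, 2)]⟩, ⟨1, [(17,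 1), (9, 1), (2, 1)]⟩, ⟨1, [(0, 1)]⟩, ⟨1, [(17, 1), (8, 1)]⟩, ⟨1, [(16, 1), (8, 1)]⟩, ⟨1, [(16, 1), (8, 1), (0, 1)]⟩, ⟨1, [(17, 1), (8, 2)]⟩, ⟨1, [(16, 1), (8, 2)]⟩, ⟨1, [(16, 1), (8, 2), (0, 1)]⟩, ⟨1, []⟩, ⟨1, [(17, 2), (9, 2), (2, 2)]⟩, ⟨1, [(17, 1), (9, 1), (2, 1)]⟩, ⟨1, [(8, 1)]⟩, ⟨1, [(17, 1), (7, 1), (2, 1)]⟩, ⟨1, [(8, 1)]⟩, ⟨1, [(8, 1), (0, 1)]⟩, ⟨1, [(9, 1), (2, 1)]⟩, ⟨1, [(17, 1), (9, 2), (2, 2)]⟩, ⟨1, []⟩]) .nil)))))) (.cons (.ndet 1 [⟨1, [(16, 1), (1, 1), (0, 2)]⟩] (.ddet 0 [⟨1, [(15, 1), (7, 1)]⟩] (.ndet 0 [⟨1, [(15, 1), (7, 1), (1, 1)]⟩] (.dbr (.cons (.leaf 1 [⟨1, [(16, 1), (8, 2)]⟩, ⟨1, [(8, 1), (0, 1)]⟩, ⟨1, []⟩, ⟨1, [(16,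 1), (8, 2), (0, 1)]⟩, ⟨1, [(16, 1), (8, 1)]⟩, ⟨1, [(16, 1), (8, 1)]⟩, ⟨1, [(16, 1), (8, 3)]⟩, ⟨1, [(16, 2), (13, 1), (8, 2), (2, 2)]⟩, ⟨1, [(16, 2), (13, 1), (8, 2), (2, 2)]⟩, ⟨1, [(0, 1)]⟩, ⟨1, [(8, 2), (0, 1)]⟩, ⟨1, [(8, 1)]⟩, ⟨1, [(8, 1)]⟩, ⟨1, [(8, 2)]⟩, ⟨1, [(16, 1), (13, 1), (8, 1), (2, 2)]⟩, ⟨1, [(16, 1), (13, 1), (8, 1), (2, 2)]⟩, ⟨1, [(2, 1), (1, 1)]⟩, ⟨1, [(8, 1), (2, 1), (1, 1)]⟩, ⟨1, []⟩]) (.cons (.leaf 1 [⟨1, [(16, 1), (8, 2)]⟩, ⟨1, [(17, 1), (2, 1), (1, 2)]⟩, ⟨1, [(0, 1)]⟩, ⟨1, [(17, 1), (8, 1), (1, 1)]⟩, ⟨1, [(16, 1), (8, 1)]⟩, ⟨1, [(16, 1), (8, 1), (0, 1)]⟩, ⟨1, [(17, 1), (8, 2), (1, 1)]⟩, ⟨1, [(16, 1), (8, 2)]⟩, ⟨1, [(16,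 1), (8, 2), (0, 1)]⟩, ⟨1, []⟩, ⟨1, [(17, 2), (2, 2), (1, 4)]⟩, ⟨1, [(17, 1), (2, 1), (1, 2)]⟩, ⟨1, [(8, 1)]⟩, ⟨1, [(17, 1), (8, 1), (2, 1), (1, 2)]⟩, ⟨1, [(8, 1)]⟩, ⟨1, [(8, 1), (0, 1)]⟩, ⟨1, [(2, 1), (1, 1)]⟩, ⟨1, [(17, 1), (2, 2), (1, 3)]⟩, ⟨1, []⟩]) .nil)))))) .nil))
def s18_5_n1 : Node := ⟨[⟨[0, 1, 0, -1], -200⟩, ⟨[0, 1, -1], -200⟩, ⟨[-1, 1], -200⟩, ⟨[0, 1, -1, -1], 239000⟩, ⟨[0, 0, 0, -1], 2660⟩, ⟨[-1, 1, 0, -1], 2680⟩, ⟨[1, 1, 0, -1], 239700⟩, ⟨[1, 0, 1, -1], -2340⟩, ⟨[0, 1, 1, -1], -2320⟩, ⟨[-1, 1, -1], 2680⟩, ⟨[1, 1, -1], -3280⟩, ⟨[1], -3300⟩, ⟨[0, 1], 239700⟩, ⟨[1, 1], 237000⟩, ⟨[1, 0, 1], -10380⟩, ⟨[0, 1, 1], -5360⟩, ⟨[0, 1,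 0, 1], -6000⟩, ⟨[1, 1, 0, 1], -9000⟩], [0, 1], 0, none, (.nbr (.cons (.ddet 1 [⟨1, [(6, 1)]⟩] (.nbr (.cons s18_5_t3 (.cons s18_5_t5 .nil)))) (.cons (.ddet 1 [⟨1, [(6, 1)]⟩] (.ndet 1 [⟨1, [(14, 1), (11, 1), (6, 1), (0, 1)]⟩] s18_5_t6)) .nil)))⟩
def s18_5_t7 : Tree := .nbr (.cons (.ddet 0 [⟨1, [(13, 1), (10, 1)]⟩] (.ndet 0 [⟨1, [(13, 1), (10, 1), (0, 1)]⟩] (.ddet 1 [⟨1, [(10, 1)]⟩] (.leaf 2 [⟨1, [(13, 1), (10, 2)]⟩, ⟨1, []⟩, ⟨1, [(10, 1)]⟩, ⟨1, [(13, 1), (10, 1)]⟩, ⟨1, [(13, 1), (10, 2)]⟩, ⟨1, [(13, 1), (10, 1)]⟩, ⟨1, [(13, 1), (10, 3)]⟩, ⟨1, []⟩, ⟨1, []⟩, ⟨1, []⟩, ⟨1, [(10, 1)]⟩, ⟨1, [(10, 1)]⟩, ⟨1, [(10, 2)]⟩, ⟨1, [(10, 2)]⟩, ⟨1, [(11,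 1)]⟩, ⟨1, [(11, 1)]⟩, ⟨1, [(11, 1)]⟩, ⟨1, [(11, 1)]⟩, ⟨1, [(11, 1)]⟩, ⟨1, []⟩])))) (.cons (.ddet 0 [⟨1, [(13, 1), (10, 1)]⟩] (.ndet 0 [⟨1, [(13, 1), (10, 1)]⟩] (.ddet 1 [⟨1, [(10, 1)]⟩] (.split [0, 1, -1] (0) (.leaf 1 [⟨1, [(13, 1), (11, 2), (0, 3)]⟩, ⟨1, [(0, 1)]⟩, ⟨1, [(11, 1)]⟩, ⟨1, [(13, 1), (11, 1), (0, 3)]⟩, ⟨1, [(13, 1), (11, 1), (0, 2)]⟩, ⟨1, [(13, 1), (11, 2), (0, 2)]⟩, ⟨1, [(13, 1), (11, 2), (0, 4)]⟩, ⟨1, [(13, 1), (11, 2), (0, 3)]⟩, ⟨1, [(13, 1), (11, 3), (0, 3)]⟩, ⟨1, []⟩, ⟨1, [(0, 2)]⟩, ⟨1, [(0, 1)]⟩, ⟨1, [(11, 1), (0, 1)]⟩, ⟨1, [(11, 1), (0, 2)]⟩, ⟨1, [(11, 1), (0, 1)]⟩, ⟨1, [(11, 2), (0, 1)]⟩, ⟨1, [(12, 1), (0, 1)]⟩, ⟨1,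 [(12, 1), (0, 2)]⟩, ⟨1, [(0, 1)]⟩]) (.leaf 2 [⟨1, [(14, 1), (11, 2)]⟩, ⟨1, [(0, 1)]⟩, ⟨1, [(11, 1), (0, 1)]⟩, ⟨2, [(14, 1), (13, 1), (11, 2)]⟩, ⟨1, [(14, 1), (11, 2)]⟩, ⟨2, [(14, 1), (13, 1), (11, 2)]⟩, ⟨1, [(14, 1), (11, 3), (1, 1)]⟩, ⟨1, []⟩, ⟨1, [(0, 2)]⟩, ⟨1, []⟩, ⟨1, [(11, 1)]⟩, ⟨1, [(11, 1), (1, 1)]⟩, ⟨1, [(11, 2), (1, 1)]⟩, ⟨1, [(11, 2), (1, 2)]⟩, ⟨1, [(12, 1)]⟩, ⟨1, [(12, 1), (1, 1)]⟩, ⟨1, [(12, 1), (1, 2)]⟩, ⟨1, [(12, 1)]⟩, ⟨1, [(12, 1), (1, 1)]⟩, ⟨1, []⟩]))))) .nil))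
def s18_5_t8 : Tree := .nbr (.cons (.dbr (.cons (.ndet 0 [⟨1, [(15, 1), (12, 1), (1, 1)]⟩] (.ddet 1 [⟨1, [(12, 1)]⟩] (.leaf 2 [⟨1, [(12, 1), (0, 1)]⟩, ⟨1, []⟩, ⟨1, [(12, 1)]⟩, ⟨1, [(0, 1)]⟩, ⟨1, [(12, 1), (0, 1)]⟩, ⟨1, [(0, 1)]⟩, ⟨1, [(12, 2), (0, 1)]⟩, ⟨1, []⟩, ⟨1, []⟩, ⟨1, []⟩, ⟨1, [(12, 1)]⟩, ⟨1, [(12, 1)]⟩, ⟨1, [(12, 2)]⟩, ⟨1, [(12, 2)]⟩, ⟨1, [(13, 1), (3, 1)]⟩, ⟨1, [(13, 1), (3, 1)]⟩, ⟨1, [(13, 1), (3, 1)]⟩, ⟨1, [(13, 1), (3, 1)]⟩, ⟨1, [(13, 1), (3, 1)]⟩, ⟨1, []⟩]))) (.cons (.ndet 0 [⟨1, [(19, 1), (12, 1), (2, 1)]⟩] (.ddet 1 [⟨1, [(12, 1)]⟩] (.leaf 2 [⟨1, [(17, 1), (2, 2)]⟩, ⟨1, [(0, 1)]⟩, ⟨1, [(12, 1), (0, 1)]⟩, ⟨1, []⟩, ⟨1, [(17,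 1), (2, 2)]⟩, ⟨1, []⟩, ⟨1, [(17, 2), (2, 4)]⟩, ⟨1, []⟩, ⟨1, [(0, 2)]⟩, ⟨1, []⟩, ⟨1, [(12, 1)]⟩, ⟨1, [(17, 1), (2, 2)]⟩, ⟨1, [(17, 1), (12, 1), (2, 2)]⟩, ⟨1, [(17, 2), (2, 4)]⟩, ⟨1, [(12, 1), (0, 1)]⟩, ⟨1, [(12, 1)]⟩, ⟨1, [(17, 1), (2, 2)]⟩, ⟨1, [(12, 1), (0, 1)]⟩, ⟨1, [(12, 1)]⟩, ⟨1, []⟩]))) .nil))) (.cons (.ddet 0 [⟨1, [(16, 1), (11, 1), (0, 2)]⟩] (.ndet 0 [⟨1, [(14, 1), (11, 1)]⟩] (.ddet 1 [⟨1, [(11, 1)]⟩] (.split [0, 1, -1] (0) (.leaf 1 [⟨1, [(17, 1), (12, 2), (0, 3)]⟩, ⟨1, [(0, 1)]⟩, ⟨1, [(12, 1)]⟩, ⟨1, [(17, 1), (12, 1), (0, 3)]⟩, ⟨1, [(17, 1), (12, 1), (0, 2)]⟩, ⟨1, [(17, 1), (12, 2), (0, 2)]⟩, ⟨1, [(17, 1), (12, 2), (0, 4)]⟩, ⟨1,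 [(17, 1), (12, 2), (0, 3)]⟩, ⟨1, [(17, 1), (12, 3), (0, 3)]⟩, ⟨1, []⟩, ⟨1, [(0, 2)]⟩, ⟨1, [(0, 1)]⟩, ⟨1, [(12, 1), (0, 1)]⟩, ⟨1, [(12, 1), (0, 2)]⟩, ⟨1, [(12, 1), (0, 1)]⟩, ⟨1, [(12, 2), (0, 1)]⟩, ⟨1, [(13, 1), (3, 1), (0, 1)]⟩, ⟨1, [(13, 1), (3, 1), (0, 2)]⟩, ⟨1, [(0, 1)]⟩]) (.leaf 2 [⟨1, [(17, 1), (12, 2), (1, 2)]⟩, ⟨1, [(0, 1)]⟩, ⟨1, [(12, 1), (0, 1)]⟩, ⟨1, [(17, 1), (12, 1), (1, 1)]⟩, ⟨1, [(17, 1), (12, 2), (1, 2)]⟩, ⟨1, [(17, 1), (12, 1), (1, 1)]⟩, ⟨1, [(17, 1), (12, 3), (1, 3)]⟩, ⟨1, []⟩, ⟨1, [(0, 2)]⟩, ⟨1, []⟩, ⟨1, [(12, 1)]⟩, ⟨1, [(12, 1), (1, 1)]⟩, ⟨1, [(12, 2), (1, 1)]⟩, ⟨1, [(12, 2), (1, 2)]⟩, ⟨1, [(13, 1), (3, 1)]⟩, ⟨1, [(13,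 1), (3, 1), (1, 1)]⟩, ⟨1, [(13, 1), (3, 1), (1, 2)]⟩, ⟨1, [(13, 1), (3, 1)]⟩, ⟨1, [(13, 1), (3, 1), (1, 1)]⟩, ⟨1, []⟩]))))) .nil))
def s18_5_t9 : Tree := .dbr (.cons (.ndet 1 [⟨1, [(20, 1)]⟩] (.ddet 0 [⟨1, [(13, 1), (10, 1), (0, 1)]⟩] (.ndet 0 [⟨1, [(10, 1), (0, 1)]⟩] (.ddet 1 [⟨1, [(13, 1), (10, 1), (4, 1), (0, 2)]⟩] (.ndet 0 [⟨1, [(17, 1), (10, 1)]⟩] (.ddet 1 [⟨1, [(10, 1)]⟩] (.split [0, 0, 1, -1] (0) (.leaf 2 [⟨1, [(0, 1)]⟩, ⟨1, [(14, 1), (11, 1), (5, 1), (1, 2)]⟩, ⟨1, [(14, 1), (11, 2), (5, 1), (1, 2)]⟩, ⟨1, []⟩, ⟨1, [(0, 1)]⟩, ⟨1, []⟩, ⟨1, [(0, 2)]⟩, ⟨1, []⟩, ⟨1, [(14, 2), (11, 2), (5, 2), (1, 4)]⟩, ⟨1, []⟩, ⟨1, [(11, 1)]⟩, ⟨1, [(0,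 1)]⟩, ⟨1, [(11, 1), (0, 1)]⟩, ⟨1, [(0, 2)]⟩, ⟨1, [(14, 1), (11, 2), (5, 1), (1, 2)]⟩, ⟨1, [(11, 1)]⟩, ⟨1, [(0, 1)]⟩, ⟨1, [(14, 1), (11, 2), (5, 1), (1, 2)]⟩, ⟨1, [(11, 1)]⟩, ⟨1, []⟩]) (.leaf 3 [⟨1, [(0, 1)]⟩, ⟨1, [(11, 1), (0, 2)]⟩, ⟨1, [(11, 2), (0, 2)]⟩, ⟨1, []⟩, ⟨1, [(0, 2)]⟩, ⟨1, [(11, 1), (0, 2)]⟩, ⟨1, []⟩, ⟨1, [(21, 2)]⟩, ⟨1, [(0, 2)]⟩, ⟨1, [(11, 1), (0, 2)]⟩, ⟨1, []⟩, ⟨1, [(0, 1)]⟩, ⟨1, [(11, 1), (0, 1)]⟩, ⟨1, []⟩, ⟨1, [(11, 1)]⟩, ⟨1, [(21, 1)]⟩, ⟨1, [(11, 1), (0, 1)]⟩, ⟨1, [(11, 2)]⟩, ⟨1, [(0, 1)]⟩])))))))) (.cons (.ndet 1 [⟨1, [(15, 1), (0, 2)]⟩] (.ddet 0 [⟨2, [(13, 1), (12, 1)]⟩] s18_5_t8)) .nil))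
def s18_5_n2 : Node := ⟨[⟨[0, 0, 1, -1], -200⟩, ⟨[0, -1, 1], -200⟩, ⟨[-1, 0, 1], -200⟩, ⟨[-1, 0, 0, -1], 5660⟩, ⟨[-1, 1, 0, -1], 2700⟩, ⟨[0, -1, 1, -1], 2680⟩, ⟨[0, 1, 1, -1], -3280⟩, ⟨[-1, 1, -1], 2680⟩, ⟨[-1, -1, 1], 2720⟩, ⟨[1, -1, 1], -3320⟩, ⟨[0, 0, 1], 239700⟩, ⟨[1, 0, 1], -6280⟩, ⟨[0, 1, 1], 237000⟩, ⟨[1, 1, 1], -9280⟩, ⟨[-1, 1, 0, 1], -2380⟩, ⟨[0, 1, 0, 1], -10380⟩, ⟨[1, 1, 0, 1], -18420⟩, ⟨[0, 0, 1, 1], -5360⟩, ⟨[1, 0, 1, 1], -13400⟩], [0, 0, 1], 0, none, (.nbr (.cons (.ddet 1 [⟨3, [(12, 2), (9, 2), (3, 1), (0, 1)]⟩] (.ndet 1 [⟨1, [(12, 1), (9, 2)]⟩] (.ddet 0 [⟨2, [(12, 1), (11, 1)]⟩] s18_5_t7))) (.cons s18_5_t9 .nil)))⟩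
def s18_5_t10 : Tree := .dbr (.cons (.ndet 0 [⟨1, [(16, 1), (7, 1), (1, 1)]⟩] (.ddet 1 [⟨1, [(7, 1)]⟩] (.nbr (.cons (.ddet 1 [⟨1, [(8, 1)]⟩] (.leaf 3 [⟨1, []⟩, ⟨1, [(8, 1)]⟩, ⟨1, [(8, 2)]⟩, ⟨1, []⟩, ⟨1, []⟩, ⟨1, [(8, 1)]⟩, ⟨1, []⟩, ⟨1, []⟩, ⟨1, []⟩, ⟨1, [(8, 1)]⟩, ⟨1, []⟩, ⟨1, []⟩, ⟨1, [(8, 1)]⟩, ⟨1, []⟩, ⟨1, [(8, 1)]⟩, ⟨1, []⟩, ⟨1, [(8, 1)]⟩, ⟨1, [(8, 2)]⟩, ⟨1, []⟩])) (.cons (.ddet 1 [⟨1, [(8, 1)]⟩] (.leaf 3 [⟨1, []⟩, ⟨1, [(8, 1)]⟩, ⟨1, [(8, 2), (1, 1)]⟩, ⟨1, []⟩, ⟨1, [(1, 1)]⟩, ⟨1, [(8, 1), (1, 1)]⟩, ⟨1, [(0, 1)]⟩, ⟨1, [(0, 1)]⟩, ⟨1, []⟩, ⟨1, [(8, 1), (1, 1)]⟩, ⟨1, []⟩, ⟨1, [(0, 1)]⟩, ⟨1, [(8, 1)]⟩, ⟨1, [(0, 1)]⟩, ⟨1, [(8, 1)]⟩, ⟨1,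 [(0, 1)]⟩, ⟨1, [(8, 1), (0, 1)]⟩, ⟨1, [(8, 2)]⟩, ⟨1, []⟩])) .nil))))) (.cons (.ndet 0 [⟨1, [(14, 1), (7, 1)]⟩] (.ddet 1 [⟨1, [(7, 1)]⟩] (.ndet 1 [⟨1, [(0, 2)]⟩] (.dbr (.cons (.split [1, 0, 0, -1] (0) (.leaf 0 [⟨1, [(0, 1)]⟩, ⟨1, [(9, 1), (0, 2)]⟩, ⟨1, [(9, 2), (0, 2)]⟩, ⟨1, [(0, 2)]⟩, ⟨1, [(0, 2)]⟩, ⟨1, [(9, 1), (0, 2)]⟩, ⟨1, []⟩, ⟨1, [(9, 2), (0, 3)]⟩, ⟨1, [(0, 1)]⟩, ⟨1, [(0, 1)]⟩, ⟨1, [(9, 1), (0, 1)]⟩, ⟨1, []⟩, ⟨1, [(9, 1)]⟩, ⟨1, [(19, 1)]⟩, ⟨1, [(9, 2), (0, 2)]⟩, ⟨1, []⟩, ⟨1, [(9, 1), (0, 1)]⟩, ⟨1, [(9, 3), (0, 2)]⟩, ⟨1, [(9, 1)]⟩, ⟨1, [(9, 2), (0, 1)]⟩, ⟨1, [(9, 2)]⟩, ⟨1, [(19, 2)]⟩, ⟨1, [(0, 1)]⟩]) (.leaf 3 [⟨1, [(9, 1), (1, 1)]⟩,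 ⟨1, [(9, 2), (1, 1)]⟩, ⟨1, [(0, 1)]⟩, ⟨1, []⟩, ⟨1, [(1, 1)]⟩, ⟨1, []⟩, ⟨1, [(9, 2), (1, 1)]⟩, ⟨1, [(0, 1)]⟩, ⟨1, [(9, 2), (1, 2)]⟩, ⟨1, []⟩, ⟨1, []⟩, ⟨1, [(9, 3), (1, 2)]⟩, ⟨1, [(9, 1)]⟩, ⟨1, [(9, 2), (1, 1)]⟩, ⟨1, [(0, 1)]⟩, ⟨1, [(9, 1)]⟩, ⟨1, [(9, 3), (1, 1)]⟩, ⟨1, [(0, 2)]⟩, ⟨1, []⟩])) (.cons (.leaf 3 [⟨1, [(1, 1)]⟩, ⟨1, [(8, 1), (1, 1)]⟩, ⟨1, [(0, 2)]⟩, ⟨1, []⟩, ⟨1, []⟩, ⟨1, [(0, 1)]⟩, ⟨1, [(1, 2)]⟩, ⟨1, []⟩, ⟨1, [(1, 2)]⟩, ⟨1, [(0, 1)]⟩, ⟨1, []⟩, ⟨1, [(1, 3)]⟩, ⟨1, [(8, 1)]⟩, ⟨1, [(1, 2)]⟩, ⟨1, [(0, 1)]⟩, ⟨1, [(1, 1)]⟩, ⟨1, [(8, 1), (1, 2)]⟩, ⟨1, [(0, 2)]⟩, ⟨1, []⟩]) .nil)))))) .nil))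
def s18_5_t11 : Tree := .nbr (.cons s18_5_t10 (.cons (.ddet 0 [⟨1, [(14, 1), (8, 1), (6, 1), (0, 2)]⟩] (.ndet 0 [⟨1, [(15, 1), (6, 1)]⟩] (.ddet 1 [⟨1, [(6, 1)]⟩] (.ndet 0 [⟨1, [(14, 1), (8, 1), (6, 1), (0, 3)]⟩] (.ddet 1 [⟨1, [(6, 1), (0, 1)]⟩] (.split [0, 0, 1, -1] (0) (.leaf 2 [⟨1, [(0, 1)]⟩, ⟨1, [(7, 1)]⟩, ⟨1, [(7, 2), (0, 1)]⟩, ⟨1, []⟩, ⟨1, [(0, 1)]⟩, ⟨1, []⟩, ⟨1, [(0, 2)]⟩, ⟨1, []⟩, ⟨1, [(7, 2)]⟩, ⟨1, []⟩, ⟨1, [(7, 1), (0, 1)]⟩, ⟨1, [(0, 1)]⟩, ⟨1, [(7, 1), (0, 2)]⟩, ⟨1, [(0, 2)]⟩, ⟨1, [(7, 2), (0, 1)]⟩, ⟨1, [(7, 1), (0, 1)]⟩, ⟨1, [(0, 1)]⟩, ⟨1, [(7, 2), (0, 1)]⟩, ⟨1, [(7, 1), (0, 1)]⟩, ⟨1, [(0, 1)]⟩]) (.leaf 3 [⟨1, [(0, 1)]⟩, ⟨1,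 [(7, 1), (0, 1)]⟩, ⟨1, [(7, 2)]⟩, ⟨1, []⟩, ⟨1, [(0, 2)]⟩, ⟨1, [(7, 1), (0, 1)]⟩, ⟨1, []⟩, ⟨1, [(1, 2)]⟩, ⟨1, [(0, 2)]⟩, ⟨1, [(7, 1), (0, 1)]⟩, ⟨1, []⟩, ⟨1, [(0, 1)]⟩, ⟨1, [(7, 1)]⟩, ⟨1, []⟩, ⟨1, [(7, 1), (1, 1)]⟩, ⟨1, [(1, 1)]⟩, ⟨1, [(7, 1)]⟩, ⟨1, [(7, 2), (1, 2)]⟩, ⟨1, []⟩]))))))) .nil))
def s18_5_n3 : Node := ⟨[⟨[0, 0, -1, 1], -200⟩, ⟨[0, -1, 0, 1], -200⟩, ⟨[-1, 0, 0, 1], -200⟩, ⟨[0, -1, 1, -1], 2680⟩, ⟨[-1, -1, -1], 2720⟩, ⟨[-1, -1], 4680⟩, ⟨[1, -1, 1], -3320⟩, ⟨[1, 1, 1], -19400⟩, ⟨[0, -1, -1, 1], 2720⟩, ⟨[-1, 0, -1, 1], 1660⟩, ⟨[0, 1, -1, 1], -3320⟩, ⟨[1, -1, 0, 1], -3300⟩, ⟨[0, 0, 0, 1], 239700⟩, ⟨[1, 0, 0, 1], -6340⟩, ⟨[0, 1, 0,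 1], -5320⟩, ⟨[1, 1, 0, 1], -14380⟩, ⟨[1, -1, 1, 1], 237000⟩, ⟨[0, 1, 1, 1], -7360⟩], [0, 0, 0, 1], 0, none, (.ndet 1 [⟨1, [(15, 1)]⟩] (.ddet 0 [⟨2, [(14, 1), (9, 1)]⟩] s18_5_t11))⟩
def s18_5 : Sys := ⟨[(1, -4000), (4, 2000)], [(0, 1000), (2, -1000)], 4, [s18_5_n0, s18_5_n1, s18_5_n2, s18_5_n3], [915457, 2384415, 1465958, -38520], (.leaf 1 [⟨1, []⟩, ⟨1, []⟩, ⟨1, []⟩, ⟨1, []⟩, ⟨1, []⟩, ⟨1, []⟩, ⟨1, []⟩, ⟨1, []⟩, ⟨1, []⟩, ⟨1, []⟩, ⟨1, []⟩, ⟨1, []⟩, ⟨1, []⟩, ⟨1, []⟩, ⟨1, []⟩, ⟨1, []⟩, ⟨1, []⟩, ⟨1, []⟩])⟩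

theorem s18_5_ok : s18_5.ok = true := by decide +kernel

def s19_14_n0 : Node := ⟨[⟨[1], 96⟩, ⟨[1, 0, 0, -1], 112⟩, ⟨[1, -1], 141⟩, ⟨[1, 0, -1], 154⟩, ⟨[0, 0, -1], 66⟩, ⟨[1], 88⟩, ⟨[1, -1], 157⟩, ⟨[0, -1], 61⟩, ⟨[2], 184⟩, ⟨[1], 72⟩, ⟨[2], 168⟩], [1], 0, none, (.ndet 1 [⟨1, [(10, 1)]⟩, ⟨1, [(9, 1)]⟩] (.ddet 0 [⟨1, [(10, 1), (3, 1)]⟩, ⟨1, [(10, 1), (6, 1)]⟩] (.ndet 0 [⟨1, []⟩, ⟨1, [(6, 1)]⟩] (.ddet 1 [⟨1, [(10, 1)]⟩, ⟨1, [(10, 1), (3, 1)]⟩] (.ndet 0 [⟨1, [(10, 1)]⟩, ⟨1, [(3, 1)]⟩] (.ddet 2 [⟨1, [(10, 2)]⟩, ⟨1, [(10, 1)]⟩] (.ndet 2 [⟨1, [(10, 1)]⟩, ⟨1, [(10, 2)]⟩] (.ddet 2 [⟨1, [(10, 1)]⟩, ⟨1, [(10, 1)]⟩] (.leaf 0 [⟨1, [(10, 1)]⟩, ⟨1, [(10,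 1)]⟩, ⟨1, [(10, 2)]⟩, ⟨1, [(10, 2)]⟩, ⟨1, [(10, 1)]⟩, ⟨1, [(10, 1)]⟩, ⟨1, [(10, 2)]⟩, ⟨1, [(10, 1)]⟩, ⟨1, [(10, 2)]⟩, ⟨1, [(10, 1)]⟩, ⟨1, [(10, 2)]⟩, ⟨1, []⟩])))))))))⟩
def s19_14 : Sys := ⟨[(0, 16), (1, 0), (4, 16)], [(1, 16), (2, 0), (3, 16)], 4, [s19_14_n0], [176, -160, -144, -16], (.leaf 0 [⟨1, []⟩, ⟨1, []⟩, ⟨1, []⟩, ⟨1, []⟩, ⟨1, []⟩, ⟨1, []⟩, ⟨1, []⟩, ⟨1, []⟩, ⟨1, []⟩, ⟨1, []⟩, ⟨1, []⟩])⟩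

theorem s19_14_ok : s19_14.ok = true := by decide +kernel

def s20_1_n0 : Node := ⟨[⟨[0, 1, 0, -1], -12⟩, ⟨[1, 0, -1], -8⟩], [1, 1], 0, none, (.ndet 0 [⟨1, [(1, 1)]⟩] (.ddet 0 [] (.leaf 0 [⟨1, [(0, 1)]⟩, ⟨1, []⟩, ⟨1, []⟩])))⟩
def s20_1 : Sys := ⟨[(2, 16), (4, -32)], [(0, -32)], 4, [s20_1_n0], [48, 0, 32, -32], (.leaf 0 [⟨1, []⟩, ⟨1, []⟩])⟩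

theorem s20_1_ok : s20_1.ok = true := by decide +kernel

def s20_10_n0 : Node := ⟨[⟨[0, 1, 0, -1], 0⟩, ⟨[-1, 0, 1], 32⟩, ⟨[-1, 0, 1], 48⟩, ⟨[0, 0, -1], 16⟩, ⟨[1, 1, -2], 16⟩, ⟨[1, 1, -2], 32⟩], [0, 1], 0, none, (.ndet 0 [⟨1, [(5, 1)]⟩] (.ddet 1 [⟨1, [(3, 1)]⟩] (.ndet 1 [⟨1, [(3, 1)]⟩] (.ddet 0 [⟨1, [(2, 1)]⟩] (.leaf 0 [⟨1, [(2, 1)]⟩, ⟨1, [(0, 1)]⟩, ⟨1, [(0, 1)]⟩, ⟨1, [(3, 1), (2, 1)]⟩, ⟨1, [(3, 2), (2, 1)]⟩, ⟨1, [(3, 2), (2, 1)]⟩, ⟨1, [(2, 1)]⟩])))))⟩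
def s20_10 : Sys := ⟨[(2, 16), (4, -16)], [(1, 0), (3, 0)], 4, [s20_10_n0], [-112, 80, -48, 48], (.leaf 0 [⟨1, []⟩, ⟨1, []⟩, ⟨1, []⟩, ⟨1, []⟩, ⟨1, []⟩, ⟨1, []⟩])⟩

theorem s20_10_ok : s20_10.ok = true := by decide +kernel

def s22_1_n0 : Node := ⟨[⟨[1, -1], 0⟩, ⟨[1, 0, 0, -1], 0⟩, ⟨[1, 0, -1], 0⟩], [1], 0, none, (.ndet 0 [⟨1, [(2, 1)]⟩, ⟨1, [(1, 1)]⟩] (.ddet 0 [] (.leaf 0 [⟨1, []⟩, ⟨1, [(0, 1)]⟩, ⟨1, [(2, 1)]⟩, ⟨1, []⟩])))⟩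
def s22_1 : Sys := ⟨[(1, 0), (2, -16), (4, -16)], [(0, -16)], 4, [s22_1_n0], [0, -16, -32, -16], (.leaf 0 [⟨1, []⟩, ⟨1, []⟩, ⟨1, []⟩])⟩

theorem s22_1_ok : s22_1.ok = true := by decide +kernel

def s22_14_n0 : Node := ⟨[⟨[-1, 0, 0, 1], 224⟩, ⟨[0, -1, 0, 1], 128⟩, ⟨[-1, 1], 96⟩, ⟨[0, 1, -1], -32⟩, ⟨[-1, -1, 0, 1], 160⟩, ⟨[0, -1, -1, 1], 128⟩, ⟨[0, -2, 0, 1], 64⟩, ⟨[0, -1, 0, 1], 160⟩, ⟨[0, -2, 0, 1], 160⟩, ⟨[-1], 64⟩, ⟨[0, -1, 0, 1], 192⟩, ⟨[0, -1], -32⟩, ⟨[0, -1, 0, 1], 224⟩], [0, 0, 0, 1], 0, none, (.ndet 2 [⟨1, [(10, 1), (0, 1)]⟩, ⟨1, [(0, 1)]⟩] (.ddet 1 [⟨1, [(10, 1)]⟩, ⟨1, [(9, 1)]⟩] (.ndet 0 [⟨1, [(3, 1), (0, 1)]⟩, ⟨1, [(9, 1), (1,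 1), (0, 1)]⟩] (.ddet 0 [⟨1, [(3, 1), (0, 1)]⟩, ⟨1, [(1, 1), (0, 1)]⟩] (.ndet 1 [⟨1, [(0, 1)]⟩, ⟨1, [(1, 1), (0, 1)]⟩] (.ddet 1 [⟨1, [(0, 1)]⟩, ⟨1, [(3, 1), (0, 1)]⟩] (.ndet 0 [⟨1, []⟩, ⟨1, [(3, 1)]⟩] (.ddet 2 [⟨1, [(0, 1)]⟩, ⟨1, [(0, 1)]⟩] (.leaf 0 [⟨1, [(0, 2)]⟩, ⟨1, [(0, 1)]⟩, ⟨1, [(0, 1)]⟩, ⟨1, []⟩, ⟨1, [(0, 2)]⟩, ⟨1, [(0, 1)]⟩, ⟨1, [(0, 1)]⟩, ⟨1, [(0, 1)]⟩, ⟨1, [(0, 1)]⟩, ⟨1, [(0, 1)]⟩, ⟨1, [(0, 1)]⟩, ⟨1, []⟩, ⟨1, [(0, 1)]⟩, ⟨1, [(1, 1)]⟩])))))))))⟩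
def s22_14 : Sys := ⟨[(1, 64), (2, 0), (4, 64)], [(1, 64), (2, 0), (3, -64)], 4, [s22_14_n0], [-128, 0, 0, 320], (.leaf 0 [⟨1, []⟩, ⟨1, []⟩, ⟨1, []⟩, ⟨1, []⟩, ⟨1, []⟩, ⟨1, []⟩, ⟨1, []⟩, ⟨1, []⟩, ⟨1, []⟩, ⟨1, []⟩, ⟨1, []⟩, ⟨1, []⟩, ⟨1, []⟩])⟩

theorem s22_14_ok : s22_14.ok = true := by decide +kernel

def s23_2_n0 : Node := ⟨[⟨[1], 88⟩, ⟨[1, -1], 96⟩, ⟨[1, 0, 0, -1], 88⟩, ⟨[1], 80⟩, ⟨[1, 0, -1], 0⟩], [1], 0, none, (.ndet 1 [⟨1, [(4, 1)]⟩, ⟨1, [(3, 1)]⟩, ⟨1, [(2, 1)]⟩] (.ddet 0 [] (.ndet 2 [⟨1, [(4, 1)]⟩, ⟨1, [(4, 1)]⟩, ⟨1, [(0, 1)]⟩] (.ddet 0 [] (.leaf 0 [⟨1, [(4, 1)]⟩, ⟨1, [(4, 1)]⟩, ⟨1, [(3, 1)]⟩, ⟨1, [(4, 1)]⟩, ⟨1, []⟩, ⟨1, []⟩])))))⟩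
def s23_2 : Sys := ⟨[(0, 0), (1, 0), (2, 16), (4, 0)], [(1, 0)], 4, [s23_2_n0], [176, 0, 160, 0], (.leaf 0 [⟨1, []⟩, ⟨1, []⟩, ⟨1, []⟩, ⟨1, []⟩, ⟨1, []⟩])⟩

theorem s23_2_ok : s23_2.ok = true := by decide +kernel

def s23_10_n0 : Node := ⟨[⟨[1], 184⟩, ⟨[1, -1], 192⟩, ⟨[1, 0, 0, -1], 184⟩, ⟨[1, 0, -1], 0⟩, ⟨[1], 176⟩, ⟨[0, -1], -8⟩], [1], 0, none, (.ndet 1 [⟨1, [(5, 1)]⟩, ⟨1, [(4, 1)]⟩, ⟨1, [(3, 1)]⟩] (.ddet 0 [⟨1, [(2, 1)]⟩] (.ndet 2 [⟨1, [(5, 1)]⟩, ⟨1, [(5, 1)]⟩, ⟨1, [(2, 1)]⟩] (.ddet 0 [⟨1, [(0, 1)]⟩] (.leaf 0 [⟨1, [(5, 1)]⟩, ⟨1, [(5, 1)]⟩, ⟨1, [(4, 1)]⟩, ⟨1, []⟩, ⟨1, [(5, 1)]⟩, ⟨1, []⟩, ⟨1, []⟩])))))⟩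
def s23_10 : Sys := ⟨[(0, 0), (1, 0), (2, 16), (4, 0)], [(1, 0), (3, -16)], 4, [s23_10_n0], [368, 0, 352, 0], (.leaf 0 [⟨1, []⟩, ⟨1, []⟩, ⟨1, []⟩, ⟨1, []⟩, ⟨1, []⟩, ⟨1, []⟩])⟩

theorem s23_10_ok : s23_10.ok = true := by decide +kernel

def s24_11_n0 : Node := ⟨[⟨[0, 0, 1, -1], 40⟩, ⟨[1], 72⟩, ⟨[1, 0, -1], 104⟩, ⟨[0, -1, 1], 8⟩, ⟨[0, 1], -48⟩, ⟨[1, 1, -1], 40⟩, ⟨[1, -1], 96⟩, ⟨[1], 40⟩, ⟨[1, 1, -1], 16⟩, ⟨[2, 0, -1], 152⟩, ⟨[1, 0, -1], 120⟩], [1], 0, none, (.ndet 0 [⟨1, [(10, 1)]⟩] (.ddet 1 [⟨1, [(7, 1), (6, 1), (0, 1)]⟩, ⟨1, [(0, 1)]⟩] (.ndet 1 [⟨1, [(7, 1)]⟩] (.ddet 2 [⟨1, [(6, 1)]⟩, ⟨1, [(6, 1), (0, 1)]⟩] (.ndet 0 [⟨1, [(7, 1), (0, 1)]⟩]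 (.ddet 2 [⟨1, [(7, 1), (6, 1), (0, 1)]⟩, ⟨1, [(6, 1), (0, 1)]⟩] (.ndet 1 [⟨1, [(7, 1), (6, 1), (0, 2)]⟩] (.ddet 0 [⟨1, []⟩, ⟨1, [(0, 1)]⟩] (.leaf 0 [⟨1, [(7, 1), (0, 1)]⟩, ⟨1, [(7, 1), (6, 1), (0, 1)]⟩, ⟨1, [(6, 1), (0, 1)]⟩, ⟨1, [(7, 1)]⟩, ⟨1, []⟩, ⟨1, [(6, 1), (0, 1)]⟩, ⟨1, [(7, 1), (6, 1), (0, 1)]⟩, ⟨1, [(7, 1), (6, 1), (0, 1)]⟩, ⟨1, [(6, 1), (0, 1)]⟩, ⟨1, [(7, 1), (6, 2), (0, 2)]⟩, ⟨1, [(6, 1), (0, 1)]⟩, ⟨1, []⟩])))))))))⟩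
def s24_11 : Sys := ⟨[(3, 32), (4, 48)], [(0, 0), (1, 0), (3, 64)], 4, [s24_11_n0], [144, -32, 0, -64], (.leaf 0 [⟨1, []⟩, ⟨1, []⟩, ⟨1, []⟩, ⟨1, []⟩, ⟨1, []⟩, ⟨1, []⟩, ⟨1, []⟩, ⟨1, []⟩, ⟨1, []⟩, ⟨1, []⟩, ⟨1, []⟩])⟩

theorem s24_11_ok : s24_11.ok = true := by decide +kernel

def s24_20_n0 : Node := ⟨[⟨[0, 0, 1, -1], 40⟩, ⟨[0, 1, 0, -1], 8⟩, ⟨[0, -1, 1], 80⟩, ⟨[-1, 0, 1], 96⟩, ⟨[-1, 1], 64⟩, ⟨[0, -2, 1], 48⟩, ⟨[0, -1], -8⟩], [0, 0, 1], 0, none, (.ndet 0 [⟨1, [(5, 1), (4, 1)]⟩] (.ddet 0 [⟨1, [(5, 1)]⟩] (.ndet 1 [⟨1, [(4, 1)]⟩] (.ddet 1 [⟨1, [(4, 1), (2, 1)]⟩] (.ndet 1 [⟨1, [(2, 1)]⟩] (.ddet 0 [⟨1, [(4, 1), (0, 1)]⟩] (.leaf 0 [⟨1, [(4, 1),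 (2, 1), (0, 1)]⟩, ⟨1, [(2, 1), (0, 1)]⟩, ⟨1, [(4, 1)]⟩, ⟨1, [(4, 2), (0, 1)]⟩, ⟨1, [(4, 1), (0, 1)]⟩, ⟨1, [(4, 1)]⟩, ⟨1, []⟩, ⟨1, [(0, 1)]⟩])))))))⟩
def s24_20 : Sys := ⟨[(3, 16), (4, -32)], [(2, -16), (4, -16)], 4, [s24_20_n0], [-96, -16, 96, -32], (.leaf 0 [⟨1, []⟩, ⟨1, []⟩, ⟨1, []⟩, ⟨1, []⟩, ⟨1, []⟩, ⟨1, []⟩, ⟨1, []⟩])⟩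

theorem s24_20_ok : s24_20.ok = true := by decide +kernel

def s28_10_n0 : Node := ⟨[⟨[0, -1, 1], 104⟩, ⟨[0, 0, 1, -1], 80⟩, ⟨[1, 0, -1], 8⟩, ⟨[1, -1], 112⟩, ⟨[-1, -1, 1], -8⟩, ⟨[1, 0, -1], 16⟩, ⟨[2, 0, -1], 120⟩, ⟨[3, 0, -2], 120⟩], [1], 0, none, (.ndet 1 [⟨1, [(7, 1)]⟩, ⟨1, [(6, 1)]⟩] (.ddet 0 [⟨1, [(2, 1)]⟩] (.ndet 0 [⟨1, [(7, 1), (2, 1)]⟩, ⟨1, [(2, 1)]⟩] (.ddet 0 [⟨1, [(3, 1)]⟩] (.leaf 0 [⟨1, [(1, 1)]⟩, ⟨1, [(7, 1), (2, 1)]⟩, ⟨1, [(2, 1)]⟩, ⟨1, [(2, 1), (1, 1)]⟩, ⟨1, []⟩, ⟨1, [(2, 1)]⟩, ⟨1, [(2, 1), (1, 1)]⟩, ⟨1, [(2, 2), (1, 1)]⟩, ⟨1, [(2, 1)]⟩])))))⟩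
def s28_10 : Sys := ⟨[(2, 16), (3, 0), (4, -16)], [(1, 16), (3, -16)], 4, [s28_10_n0], [192, -48, 144, -32], (.leaf 0 [⟨1, []⟩, ⟨1, []⟩, ⟨1, []⟩, ⟨1, []⟩, ⟨1, []⟩, ⟨1, []⟩, ⟨1, []⟩, ⟨1, []⟩])⟩

theorem s28_10_ok : s28_10.ok = true := by decide +kernel

end Pool.Agent.H81.RDE.Data
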