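import Pool.Agent.H81.RDE.System

/-! Data file (generated): certificates. -/

set_option maxRecDepth 100000

namespace Pool.Agent.H81.RDE.Data

def s4_11_n0 : Node := ⟨[⟨[1], 32⟩, ⟨[1, 0, -1], 16⟩, ⟨[1, -1], 72⟩, ⟨[0, -1], 8⟩], [1], 0, none, (.ndet 0 [] (.ddet 1 [⟨1, [(3, 1)]⟩, ⟨1, [(2, 1)]⟩] (.ndet 0 [] (.ddet 0 [⟨1, [(1, 1)]⟩, ⟨1, [(0, 1)]⟩] (.leaf 0 [⟨1, [(3, 1)]⟩, ⟨1, []⟩, ⟨1, [(3, 1), (1, 1)]⟩, ⟨1, [(1, 1)]⟩, ⟨1, []⟩])))))⟩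
def s4_11 : Sys := ⟨[(2, 16)], [(0, -32), (1, -16), (3, -32)], 3, [s4_11_n0], [80, -16, 32, 0], (.leaf 0 [⟨1, []⟩, ⟨1, []⟩, ⟨1, []⟩, ⟨1, []⟩])⟩

theorem s4_11_ok : s4_11.ok = true := by decide +kernel

def s6_8_t0 : Tree := .ddet 0 [] (.ndet 1 [⟨1, [(0, 1)]⟩] (.ddet 0 [] (.ndet 0 [⟨1, [(2, 1)]⟩] (.ddet 0 [] (.ndet 1 [⟨1, [(6, 1)]⟩] (.ddet 0 [] (.ndet 0 [⟨1, [(0, 1)]⟩] (.ddet 0 [] (.leaf 0 [⟨1, [(4, 1)]⟩, ⟨1, [(6, 1)]⟩, ⟨1, [(2, 1)]⟩, ⟨1, [(4, 1)]⟩, ⟨1, [(0, 1)]⟩, ⟨1, [(2, 1)]⟩, ⟨1, [(6, 1)]⟩, ⟨1, [(0, 1)]⟩, ⟨1, []⟩])))))))))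
def s6_8_n0 : Node := ⟨[⟨[-1, 1], 0⟩, ⟨[-1, 1, -1], 32⟩, ⟨[0, 1], 32⟩, ⟨[-1, 1], 64⟩, ⟨[0, 1, -1], -64⟩, ⟨[0, 1], 96⟩, ⟨[-1, 1, -1], -160⟩, ⟨[0, 1, -1], 0⟩], [0, 1], 0, none, (.ndet 1 [⟨1, [(4, 1)]⟩] (.ddet 0 [] (.ndet 0 [⟨1, [(6, 1)]⟩] (.ddet 0 [] (.ndet 1 [⟨1, [(2, 1)]⟩] (.ddet 0 [] (.ndet 0 [⟨1, [(4, 1)]⟩] s6_8_t0)))))))⟩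
def s6_8 : Sys := ⟨[(1, -64), (2, 64)], [(3, -128)], 3, [s6_8_n0], [0, 128, 0, 0], (.leaf 0 [⟨1, []⟩, ⟨1, []⟩, ⟨1, []⟩, ⟨1, []⟩, ⟨1, []⟩, ⟨1, []⟩, ⟨1, []⟩, ⟨1, []⟩])⟩

theorem s6_8_ok : s6_8.ok = true := by decide +kernel

def s8_16_t0 : Tree := .ddet 0 [] (.ndet 0 [] (.ddet 0 [] (.ndet 0 [] (.ddet 0 [] (.ndet 0 [] (.ddet 0 [] (.split [0, -4, 6, -3] (6000) (.leaf 1 [⟨13, [(5, 49), (4, 39), (2, 18), (0, 6)]⟩, ⟨1, [(0, 1)]⟩, ⟨13, [(5, 67), (4, 52), (2, 27), (0, 9)]⟩, ⟨13, [(5, 17), (4, 13), (2, 2), (0, 5)]⟩, ⟨13, [(5, 35), (4, 26), (2, 11), (0, 8)]⟩, ⟨13, [(5, 16), (4, 13), (2, 8), (0, 7)]⟩, ⟨13, [(5, 18), (4, 13), (2, 9), (0, 16)]⟩, ⟨13,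 [(5, 34), (4, 26), (2, 17), (0, 10)]⟩, ⟨13, [(5, 3), (2, 8), (0, 7)]⟩]) (.leaf 2 [⟨13, [(5, 49), (4, 39), (2, 18), (0, 7)]⟩, ⟨1, [(0, 1)]⟩, ⟨13, [(5, 67), (4, 52), (2, 27), (0, 4)]⟩, ⟨13, [(5, 68), (4, 52), (2, 21), (0, 6)]⟩, ⟨13, [(5, 17), (4, 13), (2, 2), (0, 8)]⟩, ⟨13, [(5, 49), (4, 39), (2, 18), (0, 7)]⟩, ⟨13, [(5, 35), (4, 26), (2, 11), (0, 5)]⟩, ⟨13, [(5, 16), (4, 13), (2, 8), (0, 6)]⟩, ⟨13, [(5, 18), (4, 13), (2, 9), (0, 10)]⟩, ⟨13, [(5, 3), (2, 8), (0, 6)]⟩]))))))))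
def s8_16_t1 : Tree := .ndet 0 [] (.ddet 0 [] (.ndet 0 [] (.ddet 0 [] (.ndet 0 [] (.ddet 0 [] (.ndet 0 [] (.ddet 0 [] (.ndet 0 [] s8_16_t0))))))))
def s8_16_n0 : Node := ⟨[⟨[1, 0, 0, -1], -200⟩, ⟨[1, 0, -1], -200⟩, ⟨[1, -1], -200⟩, ⟨[0, -1, -1], 239700⟩, ⟨[1, 1, 1], 239700⟩, ⟨[0, -1, -1, 1], 239700⟩, ⟨[0, -1, 0, 1], 239700⟩, ⟨[1, 1, 1, 1], 239700⟩], [1], 0, none, (.ndet 0 [] (.ddet 0 [] (.ndet 0 [] (.ddet 0 [] s8_16_t1))))⟩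
def s8_16_t2 : Tree := .ddet 0 [] (.ndet 0 [] (.ddet 0 [] (.ndet 0 [] (.ddet 0 [] (.ndet 0 [] (.ddet 0 [] (.split [-4, 2, 3, -3] (12000) (.leaf 0 [⟨1, [(4, 1), (3, 2)]⟩, ⟨1, [(0, 1)]⟩, ⟨10, [(4, 33), (3, 55), (1, 3), (0, 1)]⟩, ⟨10, [(5, 9), (3, 6), (1, 8), (0, 3)]⟩, ⟨10, [(5, 3), (3, 2), (1, 6), (0, 1)]⟩, ⟨10, [(5, 11), (3, 4), (1, 12), (0, 7)]⟩, ⟨10, [(4, 23), (3, 35), (1, 3), (0, 1)]⟩, ⟨2, [(5, 1), (1, 2), (0, 1)]⟩, ⟨5, [(5, 5), (4, 1), (1, 6), (0, 2)]⟩]) (.leaf 2 [⟨1, [(4, 1), (3, 2), (0, 1)]⟩, ⟨10, [(4, 33), (3, 55), (1, 3), (0, 9)]⟩, ⟨1, [(0, 1)]⟩, ⟨10, [(5, 7), (3, 8), (1, 4), (0, 11)]⟩, ⟨10, [(5, 1), (4, 18), (3, 34), (0, 7)]⟩,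 ⟨1, [(4, 1), (3, 2), (0, 1)]⟩, ⟨10, [(5, 1), (4, 8), (3, 14), (0, 7)]⟩, ⟨5, [(4, 6), (3, 10), (1, 1), (0, 3)]⟩, ⟨10, [(4, 23), (3, 35), (1, 3), (0, 9)]⟩, ⟨5, [(4, 6), (3, 5), (1, 1), (0, 3)]⟩]))))))))
def s8_16_t3 : Tree := .ndet 0 [] (.ddet 0 [] (.ndet 0 [] (.ddet 0 [] (.ndet 0 [] (.ddet 0 [] (.ndet 0 [] (.ddet 0 [] (.ndet 0 [] s8_16_t2))))))))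
def s8_16_n1 : Node := ⟨[⟨[0, 1, 0, -1], -200⟩, ⟨[0, 1, -1], -200⟩, ⟨[-1, 1], -200⟩, ⟨[0, 0, -1, -1], 239700⟩, ⟨[-1, 0, -1], 239700⟩, ⟨[0, 1], 239700⟩, ⟨[-1, 1, -1, 1], 239700⟩, ⟨[-1, 1, 0, 1], 239700⟩], [0, 1], 0, none, (.ndet 0 [] (.ddet 0 [] (.ndet 0 [] (.ddet 0 [] s8_16_t3))))⟩
def s8_16_t4 : Tree := .ddet 0 [] (.ndet 0 [] (.ddet 0 [] (.split [-4, 6, -3] (6000) (.split [-1, 2, -1] (0) (.leaf 0 [⟨1, [(0, 1)]⟩, ⟨4, [(6, 15), (3, 22), (2, 3), (0, 13)]⟩, ⟨3, [(4, 2), (3, 1), (0, 10)]⟩, ⟨4, [(6, 5), (3, 6), (2, 1), (0, 7)]⟩, ⟨4, [(6, 1), (3, 2), (2, 1), (0, 3)]⟩, ⟨4, [(6, 11), (3, 14), (2, 3), (0, 13)]⟩, ⟨3, [(4, 2), (3, 1), (0, 7)]⟩,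 ⟨4, [(6, 7), (3, 10), (2, 3), (0, 9)]⟩, ⟨2, [(6, 3), (3, 2), (2, 1), (0, 5)]⟩]) (.leaf 3 [⟨5, [(6, 15), (4, 3), (3, 29), (1, 3)]⟩, ⟨10, [(4, 2), (3, 1), (1, 7)]⟩, ⟨1, [(0, 1)]⟩, ⟨1, [(6, 1), (5, 1), (3, 2), (0, 2)]⟩, ⟨1, [(6, 1), (3, 2)]⟩, ⟨2, [(6, 2), (3, 3), (1, 1)]⟩, ⟨4, [(6, 1), (3, 2), (2, 1), (0, 1)]⟩, ⟨5, [(6, 5), (4, 2), (3, 6), (1, 2)]⟩])) (.split [3, -4, 2] (-6000) (.leaf 1 [⟨1, [(0, 1)]⟩, ⟨7, [(6, 21), (4, 3), (3, 40), (0, 1)]⟩, ⟨7, [(4, 2), (3, 1), (0, 10)]⟩, ⟨3, [(6, 2), (5, 1), (3, 3), (0, 1)]⟩, ⟨7, [(6, 7), (4, 1), (3, 11), (0, 5)]⟩, ⟨7, [(6, 7), (4, 2), (3, 15), (0, 3)]⟩, ⟨7, [(6, 21), (4, 5), (3, 41), (0, 4)]⟩, ⟨7, [(6,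 7), (4, 4), (3, 16), (0, 6)]⟩, ⟨7, [(6, 7), (4, 2), (3, 8), (0, 3)]⟩]) (.leaf 3 [⟨7, [(6, 21), (4, 3), (3, 40), (0, 6)]⟩, ⟨1, [(0, 1)]⟩, ⟨10, [(4, 2), (3, 1), (1, 3)]⟩, ⟨2, [(6, 4), (3, 7), (1, 1)]⟩, ⟨1, [(6, 1), (3, 2)]⟩, ⟨3, [(6, 2), (5, 1), (3, 3), (0, 2)]⟩, ⟨10, [(4, 4), (3, 7), (1, 1)]⟩, ⟨7, [(6, 7), (4, 2), (3, 8), (0, 4)]⟩])))))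
def s8_16_t5 : Tree := .ndet 0 [] (.ddet 0 [] (.ndet 0 [] (.ddet 0 [] (.ndet 0 [] (.ddet 0 [] (.ndet 0 [] (.ddet 0 [] (.ndet 0 [] s8_16_t4))))))))
def s8_16_n2 : Node := ⟨[⟨[0, 0, 1, -1], -200⟩, ⟨[0, -1, 1], -200⟩, ⟨[-1, 0, 1], -200⟩, ⟨[-1, -1, 0, -1], 239700⟩, ⟨[0, -1, 0, -1], 239700⟩, ⟨[0, 0, 1, -1], 239700⟩, ⟨[-1, -1], 239700⟩, ⟨[0, 0, 1], 239700⟩, ⟨[-1, -1, 1, 1], 239700⟩], [0, 0, 1], 0, none, (.ndet 0 [] (.ddet 0 [] (.ndet 0 [] (.ddet 0 [] (.ndet 0 [] (.ddet 0 [] (.ndet 0 [] (.ddet 0 [] s8_16_t5))))))))⟩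
def s8_16_t6 : Tree := .ddet 0 [] (.ndet 0 [] (.ddet 0 [] (.ndet 0 [] (.ddet 0 [] (.ndet 0 [] (.ddet 0 [] (.ndet 0 [] (.ddet 0 [] (.leaf 2 [⟨2, [(3, 1), (2, 6), (1, 20), (0, 13)]⟩, ⟨1, [(3, 5), (1, 9), (0, 8)]⟩, ⟨1, [(5, 3), (2, 4), (1, 7), (0, 4)]⟩, ⟨1, [(5, 1), (2, 4), (1, 10), (0, 6)]⟩, ⟨2, [(3, 5), (2, 2), (1, 14), (0, 11)]⟩, ⟨2, [(3, 1), (2, 6), (1, 20), (0, 13)]⟩, ⟨2, [(3, 1), (2, 4), (1, 14), (0, 9)]⟩, ⟨2, [(3, 3), (2, 2), (1, 12), (0, 9)]⟩, ⟨1, [(3, 3), (2, 1), (1, 9), (0, 7)]⟩, ⟨2, [(3, 3), (2, 2), (1, 10), (0, 7)]⟩])))))))))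
def s8_16_t7 : Tree := .ndet 0 [] (.ddet 0 [] (.ndet 0 [] (.ddet 0 [] (.ndet 0 [] (.ddet 0 [] (.ndet 0 [] (.ddet 0 [] (.ndet 0 [] s8_16_t6))))))))
def s8_16_n3 : Node := ⟨[⟨[0, 0, -1, 1], -200⟩, ⟨[0, -1, 0, 1], -200⟩, ⟨[-1, 0, 0, 1], -200⟩, ⟨[0, 1, -1, -1], 239700⟩, ⟨[1, 1, 0, -1], 239700⟩, ⟨[0, -1, -1], 239700⟩, ⟨[0, 1, 1, 1], 239700⟩], [0, 0, 0, 1], 0, none, (.ndet 0 [] (.ddet 0 [] s8_16_t7))⟩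
def s8_16 : Sys := ⟨[(3, 3000)], [(4, -3000)], 4, [s8_16_n0, s8_16_n1, s8_16_n2, s8_16_n3], [-73833, 445721, -393280, 107011], (.leaf 1 [⟨1, []⟩, ⟨1, []⟩, ⟨1, []⟩, ⟨1, []⟩, ⟨1, []⟩, ⟨1, []⟩, ⟨1, []⟩, ⟨1, []⟩])⟩

theorem s8_16_ok : s8_16.ok = true := by decide +kernel

def s14_21_n0 : Node := ⟨[⟨[1, -1], 152⟩, ⟨[1, 0, -1], 184⟩, ⟨[0, 0, 0, 1], 120⟩, ⟨[0, -1, 0, 1], 120⟩, ⟨[0, 0, 0, 1], 88⟩, ⟨[1], 136⟩, ⟨[1, 0, -1], 160⟩, ⟨[1], 104⟩, ⟨[0, 1], -8⟩, ⟨[-1, 1, 0, 1], -40⟩, ⟨[0, -1], -8⟩, ⟨[0, -1, 0, 1], 128⟩], [1], 0, none, (.ndet 0 [⟨1, [(11, 1)]⟩, ⟨1, [(10, 1)]⟩] (.ddet 2 [⟨1, [(9, 1)]⟩, ⟨1, [(0, 1)]⟩] (.ndet 1 [⟨1, [(9, 1)]⟩, ⟨1, [(11,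 1)]⟩] (.ddet 1 [⟨1, [(11, 1), (3, 1)]⟩, ⟨1, [(10, 1)]⟩] (.ndet 2 [⟨1, [(11, 1), (3, 1)]⟩, ⟨1, [(9, 1)]⟩] (.ddet 2 [⟨1, [(3, 1)]⟩, ⟨1, [(2, 1)]⟩] (.leaf 0 [⟨1, [(11, 1)]⟩, ⟨1, [(0, 1)]⟩, ⟨1, [(11, 1), (3, 1)]⟩, ⟨1, [(11, 1), (3, 1)]⟩, ⟨1, [(11, 1), (3, 1)]⟩, ⟨1, [(11, 1)]⟩, ⟨1, [(0, 1)]⟩, ⟨1, [(11, 1)]⟩, ⟨1, []⟩, ⟨1, [(3, 1)]⟩, ⟨1, []⟩, ⟨1, [(11, 1), (3, 1)]⟩, ⟨1, [(1, 1)]⟩])))))))⟩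
def s14_21 : Sys := ⟨[(1, -32), (2, 0), (3, 32)], [(0, 0), (2, 0), (4, 16)], 4, [s14_21_n0], [272, 0, -32, 256], (.leaf 0 [⟨1, []⟩, ⟨1, []⟩, ⟨1, []⟩, ⟨1, []⟩, ⟨1, []⟩, ⟨1, []⟩, ⟨1, []⟩, ⟨1, []⟩, ⟨1, []⟩, ⟨1, []⟩, ⟨1, []⟩, ⟨1, []⟩])⟩

theorem s14_21_ok : s14_21.ok = true := by decide +kernel

def s16_4_n0 : Node := ⟨[⟨[1, 0, 0, -1], -200⟩, ⟨[1, 0, -1], -200⟩, ⟨[1, -1], -200⟩, ⟨[1, 0, 1, -1], 239700⟩, ⟨[-1, -1, -1], 239700⟩, ⟨[0, 1, -1], 239700⟩, ⟨[0, -1, 1, 1], 239700⟩, ⟨[1, 1, 1, 1], 239700⟩], [1], 0, none, (.ndet 0 [] (.ddet 0 [] (.ndet 0 [] (.ddet 0 [] (.ndet 0 [] (.ddet 0 [] (.ndet 0 [] (.ddet 0 [] (.leaf 0 [⟨1, [(4, 4), (3, 5), (2,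 3), (0, 3)]⟩, ⟨1, [(4, 8), (3, 13), (2, 5), (0, 8)]⟩, ⟨1, [(4, 7), (3, 5), (2, 11), (1, 8)]⟩, ⟨1, [(4, 1), (2, 1)]⟩, ⟨1, [(3, 1), (1, 1)]⟩, ⟨1, [(4, 1), (2, 2)]⟩, ⟨1, [(3, 1), (1, 2)]⟩, ⟨1, [(4, 1), (3, 1), (2, 1), (0, 1)]⟩, ⟨1, [(4, 3), (3, 2), (2, 5), (1, 3)]⟩])))))))))⟩
def s16_4_n1 : Node := ⟨[⟨[0, 1, 0, -1], -200⟩, ⟨[0, 1, -1], -200⟩, ⟨[-1, 1], -200⟩, ⟨[0, -1, -1, -1], 239700⟩, ⟨[0, 0, 1, -1], 239700⟩, ⟨[-1, 1, -1, 1], 239700⟩, ⟨[1, 0, 0, 1], 239700⟩], [0, 1], 0, none, (.ndet 0 [] (.ddet 0 [] (.ndet 0 [] (.ddet 0 [] (.ndet 0 [] (.ddet 0 [] (.ndet 0 [] (.ddet 0 [] (.leaf 1 [⟨1, [(3, 5), (2, 13), (1, 8), (0, 8)]⟩, ⟨1, [(3, 5), (2,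 11), (1, 7), (0, 8)]⟩, ⟨1, [(2, 3), (1, 2)]⟩, ⟨1, [(3, 1), (0, 1)]⟩, ⟨1, [(2, 2), (1, 1)]⟩, ⟨1, [(2, 1), (1, 1)]⟩, ⟨1, [(3, 1), (0, 2)]⟩, ⟨1, [(3, 2), (2, 5), (1, 3), (0, 3)]⟩])))))))))⟩
def s16_4_n2 : Node := ⟨[⟨[0, 0, 1, -1], -200⟩, ⟨[0, -1, 1], -200⟩, ⟨[-1, 0, 1], -200⟩, ⟨[-1, -1, -1, -1], 239700⟩, ⟨[0, 1, -1, -1], 239700⟩, ⟨[0, -1, 1], 239700⟩, ⟨[1, 1, 1], 239700⟩, ⟨[-1, 0, -1, 1], 239700⟩], [0, 0, 1], 0, none, (.ndet 0 [] (.ddet 0 [] (.ndet 0 [] (.ddet 0 [] (.ndet 0 [] (.ddet 0 [] (.ndet 0 [] (.ddet 0 [] (.leaf 2 [⟨1, [(4, 5), (2, 2), (1, 8), (0, 4)]⟩, ⟨1, [(2, 2), (0, 1)]⟩, ⟨1, [(3, 8), (2, 13), (1, 5), (0, 8)]⟩, ⟨1, [(4, 1), (2,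 1), (1, 1), (0, 1)]⟩, ⟨1, [(3, 2), (1, 1)]⟩, ⟨1, [(2, 2), (0, 1)]⟩, ⟨1, [(3, 1), (1, 1)]⟩, ⟨1, [(2, 1), (0, 1)]⟩, ⟨1, [(3, 2), (2, 3), (1, 1), (0, 2)]⟩])))))))))⟩
def s16_4_n3 : Node := ⟨[⟨[0, 0, -1, 1], -200⟩, ⟨[0, -1, 0, 1], -200⟩, ⟨[-1, 0, 0, 1], -200⟩, ⟨[-1, 0, 0, -1], 239700⟩, ⟨[1, -1, 1, -1], 239700⟩, ⟨[0, 0, -1, 1], 239700⟩, ⟨[0, 1, 1, 1], 239700⟩], [0, 0, 0, 1], 0, none, (.ndet 0 [] (.ddet 0 [] (.ndet 0 [] (.ddet 0 [] (.ndet 0 [] (.ddet 0 [] (.ndet 0 [] (.ddet 0 [] (.leaf 3 [⟨1, [(2, 1), (1, 2)]⟩, ⟨1, [(3, 8), (2, 8), (1, 13), (0, 5)]⟩, ⟨1, [(3, 8), (2, 6), (1, 10), (0, 5)]⟩, ⟨1, [(3, 2), (0, 1)]⟩, ⟨1, [(2, 1), (1, 1)]⟩, ⟨1,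 [(2, 1), (1, 2)]⟩, ⟨1, [(3, 1), (0, 1)]⟩, ⟨1, [(3, 2), (2, 2), (1, 3), (0, 1)]⟩])))))))))⟩
def s16_4 : Sys := ⟨[(4, 3000)], [(2, -3000)], 4, [s16_4_n0, s16_4_n1, s16_4_n2, s16_4_n3], [8660232, -4609741, -4943502, 2403092], (.leaf 0 [⟨1, []⟩, ⟨1, []⟩, ⟨1, []⟩, ⟨1, []⟩, ⟨1, []⟩, ⟨1, []⟩, ⟨1, []⟩, ⟨1, []⟩])⟩

theorem s16_4_ok : s16_4.ok = true := by decide +kernel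

def s17_9_n0 : Node := ⟨[⟨[0, 0, 0, 1], -32⟩, ⟨[0, 0, -1], 120⟩, ⟨[0, 0, -1], 128⟩, ⟨[0, 1], -20⟩, ⟨[-1], 136⟩, ⟨[-1], 144⟩, ⟨[0, 1], -12⟩, ⟨[0, 0, 0, 1], -24⟩], [0, 1, 0, 1], 0, none, (.ndet 1 [⟨1, [(0, 1)]⟩] (.ddet 0 [⟨1, [(5, 1)]⟩] (.ndet 0 [⟨1, [(5, 1)]⟩] (.ddet 1 [⟨1, [(1, 1)]⟩] (.leaf 0 [⟨1, [(1, 1)]⟩, ⟨1, [(2, 1)]⟩, ⟨1, [(2, 1)]⟩, ⟨1, [(0, 1)]⟩, ⟨1, [(1, 1)]⟩, ⟨1, [(1, 1)]⟩, ⟨1, [(0, 1)]⟩, ⟨1, [(1, 1)]⟩, ⟨1, []⟩])))))⟩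
def s17_9 : Sys := ⟨[(0, -80), (4, 16)], [(0, 0), (3, 80)], 4, [s17_9_n0], [-176, 48, -144, 16], (.leaf 0 [⟨1, []⟩, ⟨1, []⟩, ⟨1, []⟩, ⟨1, []⟩, ⟨1, []⟩, ⟨1, []⟩, ⟨1, []⟩, ⟨1, []⟩])⟩

theorem s17_9_ok : s17_9.ok = true := by decide +kernel

def s18_2_n0 : Node := ⟨[⟨[-1, 0, 0, 1], 80⟩, ⟨[-1, 0, -1, 1], 176⟩, ⟨[-1], 32⟩, ⟨[0, 1], 32⟩, ⟨[-1, 1], 128⟩], [0, 1, 0, 1], 0, none, (.ndet 1 [⟨1, [(4, 1)]⟩] (.ddet 0 [] (.ndet 0 [⟨1, [(3, 1)]⟩] (.ddet 0 [] (.leaf 0 [⟨1, [(1, 1)]⟩, ⟨1, [(0, 1)]⟩, ⟨1, []⟩, ⟨1, [(4, 1)]⟩, ⟨1, [(4, 1)]⟩, ⟨1, [(2, 1)]⟩])))))⟩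
def s18_2 : Sys := ⟨[(1, 0), (4, 64)], [(1, 64)], 4, [s18_2_n0], [-64, 256, -64, 64], (.leaf 0 [⟨1, []⟩, ⟨1, []⟩, ⟨1, []⟩, ⟨1, []⟩, ⟨1, []⟩])⟩

theorem s18_2_ok : s18_2.ok = true := by decide +kernel

def s22_9_n0 : Node := ⟨[⟨[-1, 1], -24⟩, ⟨[0, 1, 0, -1], -64⟩, ⟨[0, 0, -1], -48⟩, ⟨[-1, 1], 248⟩, ⟨[0, 1, -1], 136⟩, ⟨[0, 1], 144⟩, ⟨[-1], -16⟩], [0, 1], 0, none, (.ndet 1 [⟨1, [(3, 1)]⟩, ⟨1, [(5, 1)]⟩] (.ddet 0 [⟨1, [(4, 1)]⟩] (.ndet 0 [⟨1, [(3, 1)]⟩, ⟨1, [(2, 1)]⟩] (.ddet 1 [⟨1, [(1, 1)]⟩] (.leaf 0 [⟨1, [(1, 1)]⟩, ⟨1, []⟩, ⟨1, [(0, 1)]⟩, ⟨1, [(1, 1)]⟩, ⟨1, [(3, 1)]⟩, ⟨1, [(1, 1)]⟩, ⟨1, []⟩, ⟨1, []⟩])))))⟩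
def s22_9 : Sys := ⟨[(1, -192), (2, 112), (4, -48)], [(0, 48), (3, -16)], 4, [s22_9_n0], [-32, 224, 32, 192], (.leaf 0 [⟨1, []⟩, ⟨1, []⟩, ⟨1, []⟩, ⟨1, []⟩, ⟨1, []⟩, ⟨1, []⟩, ⟨1, []⟩])⟩

theorem s22_9_ok : s22_9.ok = true := by decide +kernel

def s23_4_t0 : Tree := .nbr (.cons (.prune [(14, 1), (10, 1), (1, 1), (0, 1)]) (.cons (.prune [(2, 1)]) (.cons (.ddet 0 [] (.ndet 3 [⟨1, [(14, 1), (10, 1)]⟩, ⟨1, [(14, 1), (10, 1)]⟩, ⟨1, [(14, 1), (10, 1)]⟩] (.ddet 0 [] (.leaf 0 [⟨1, [(12, 1)]⟩, ⟨1, [(14, 1), (10, 1)]⟩, ⟨1, [(14, 1), (10, 1)]⟩, ⟨1, []⟩, ⟨1, []⟩, ⟨1, []⟩, ⟨1, []⟩, ⟨1, [(14, 1), (10, 1)]⟩, ⟨1, []⟩, ⟨1, [(14, 1), (10, 1)]⟩, ⟨2, [(14,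 3), (10, 3), (0, 1)]⟩, ⟨2, [(14, 3), (10, 3), (0, 1)]⟩, ⟨1, []⟩])))) (.cons (.ddet 0 [] (.ndet 3 [⟨1, [(14, 1), (10, 1)]⟩, ⟨1, [(4, 2)]⟩, ⟨1, [(14, 1), (10, 1)]⟩] (.ddet 0 [] (.leaf 0 [⟨2, [(14, 1), (10, 1), (0, 1)]⟩, ⟨1, [(14, 1), (10, 1)]⟩, ⟨1, [(4, 2)]⟩, ⟨1, []⟩, ⟨1, [(0, 1)]⟩, ⟨1, [(0, 1)]⟩, ⟨1, []⟩, ⟨1, [(14, 1), (10, 1)]⟩, ⟨1, [(0, 1)]⟩, ⟨1, [(14, 1), (10, 1), (0, 1)]⟩, ⟨1, [(14, 1), (10, 1), (4, 1)]⟩, ⟨2, [(14, 3), (10, 3), (0, 1)]⟩, ⟨1, []⟩])))) .nil))))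
def s23_4_t1 : Tree := .ddet 0 [] (.ndet 2 [⟨1, [(11, 1), (7, 1)]⟩, ⟨1, [(11, 1), (7, 1)]⟩, ⟨1, [(11, 2), (7, 1)]⟩] (.ddet 0 [] (.ndet 3 [⟨1, [(11, 1), (7, 1), (1, 1)]⟩, ⟨1, [(11, 1), (7, 1), (1, 1)]⟩, ⟨1, [(11, 1), (7, 1), (1, 1)]⟩] (.ddet 0 [] (.ndet 3 [⟨1, [(11, 1), (7, 1)]⟩, ⟨1, [(12, 1)]⟩, ⟨1, [(11, 1), (7, 1)]⟩] (.ddet 0 [] (.split [1, -1] (0) (.leaf 0 [⟨1, [(12, 1), (8, 1)]⟩, ⟨1, [(12, 1), (8, 1)]⟩, ⟨1, [(0, 1)]⟩, ⟨1, []⟩, ⟨1, [(12, 1), (8, 1), (2, 1)]⟩, ⟨1, [(12, 1), (8, 1), (2, 1)]⟩, ⟨1, []⟩, ⟨1, [(12, 1), (8, 1)]⟩, ⟨1, [(12, 1), (8, 1), (2, 1)]⟩, ⟨1, [(12, 2), (8, 2), (2, 1)]⟩, ⟨1, [(12, 1), (8, 1)]⟩, ⟨1, [(12, 2), (8, 2),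 (2, 1)]⟩, ⟨1, []⟩]) (.leaf 1 [⟨1, [(12, 1), (8, 1), (0, 1)]⟩, ⟨1, [(12, 1), (8, 1), (0, 1)]⟩, ⟨1, [(0, 1)]⟩, ⟨1, [(0, 1)]⟩, ⟨1, []⟩, ⟨1, [(0, 1)]⟩, ⟨1, [(13, 1)]⟩, ⟨1, []⟩, ⟨1, [(0, 1)]⟩, ⟨1, [(0, 1)]⟩, ⟨1, [(13, 1)]⟩, ⟨1, []⟩, ⟨1, [(0, 1)]⟩, ⟨1, [(0, 1)]⟩, ⟨1, []⟩, ⟨1, [(0, 1)]⟩, ⟨1, [(12, 2), (8, 2), (0, 1)]⟩, ⟨1, [(13, 1)]⟩, ⟨1, []⟩, ⟨1, [(12, 1), (8, 1)]⟩, ⟨1, [(0, 1)]⟩, ⟨1, [(0, 1)]⟩]))))))))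
def s23_4_t2 : Tree := .nbr (.cons (.prune [(17, 1), (13, 1), (7, 1), (1, 1), (0, 1)]) (.cons (.prune [(2, 1)]) (.cons (.ddet 0 [] (.ndet 3 [⟨1, [(17, 1), (13, 1)]⟩, ⟨1, [(17, 1), (13, 1)]⟩, ⟨1, [(17, 1), (13, 1)]⟩] (.ddet 0 [] (.leaf 0 [⟨1, [(4, 1)]⟩, ⟨1, [(17, 1), (13, 1)]⟩, ⟨1, [(17, 1), (13, 1)]⟩, ⟨1, []⟩, ⟨1, []⟩, ⟨1, []⟩, ⟨1, []⟩, ⟨1, [(17, 1), (13, 1)]⟩, ⟨1, []⟩, ⟨1, [(17, 1), (13, 1)]⟩, ⟨2, [(17, 3), (13, 3), (7, 1), (0, 1)]⟩, ⟨2, [(17, 3), (13, 3), (7, 1), (0, 1)]⟩, ⟨1, []⟩])))) (.cons (.ddet 0 [] (.ndet 3 [⟨1, [(17, 1), (13, 1)]⟩, ⟨1, [(18, 1), (6, 1)]⟩, ⟨1, [(17, 1), (13, 1)]⟩] (.ddet 0 [] (.split [1, -2, 0, 1] (48000) (.leaf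 0 [⟨2, [(21, 1), (18, 1), (14, 1), (1, 1)]⟩, ⟨1, [(18, 1), (14, 1)]⟩, ⟨1, [(0, 1)]⟩, ⟨1, []⟩, ⟨1, [(1, 1)]⟩, ⟨1, [(1, 1)]⟩, ⟨1, []⟩, ⟨1, [(18, 1), (14, 1)]⟩, ⟨1, [(1, 1)]⟩, ⟨1, [(18, 1), (14, 1), (1, 1)]⟩, ⟨1, [(18, 1), (14, 1), (7, 1)]⟩, ⟨2, [(18, 3), (14, 3), (8, 1), (1, 1)]⟩, ⟨1, []⟩]) (.leaf 1 [⟨1, [(19, 1), (18, 1), (14, 1), (0, 2)]⟩, ⟨1, [(18, 1), (14, 1), (0, 1)]⟩, ⟨1, [(0, 1)]⟩, ⟨1, [(19, 1), (0, 2)]⟩, ⟨1, [(19, 1), (0, 1)]⟩, ⟨1, [(19, 1), (0, 2)]⟩, ⟨1, [(19, 1)]⟩, ⟨1, [(19, 1), (0, 1)]⟩, ⟨1, [(19, 1), (0, 2)]⟩, ⟨1, [(0, 1)]⟩, ⟨1, [(19, 1), (7, 1)]⟩, ⟨1, []⟩, ⟨1, [(0, 1)]⟩, ⟨1, [(7, 1), (0, 1)]⟩, ⟨1, [(7, 1)]⟩, ⟨1, [(7, 1), (0,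 1)]⟩, ⟨1, [(18, 2), (14, 2), (7, 1), (0, 1)]⟩, ⟨1, [(19, 1), (7, 2)]⟩, ⟨1, [(7, 1)]⟩, ⟨1, [(18, 1), (14, 1), (7, 1)]⟩, ⟨1, [(7, 1), (0, 1)]⟩, ⟨1, [(0, 1)]⟩]))))) .nil))))
def s23_4_t3 : Tree := .nbr (.cons (.prune [(14, 1), (10, 1), (1, 1)]) (.cons (.ddet 0 [] (.ndet 2 [⟨1, [(17, 1), (14, 1), (8, 1), (1, 2)]⟩, ⟨1, [(17, 1), (14, 1), (8, 1), (1, 1)]⟩, ⟨1, [(17, 2), (14, 1), (8, 1), (1, 3)]⟩] (.ddet 0 [] (.ndet 3 [⟨1, [(17, 1), (14, 1), (8, 1), (1, 1)]⟩, ⟨1, [(17, 1), (14, 1), (8, 1), (1, 1)]⟩, ⟨1, [(17, 1), (14, 1), (8, 1)]⟩] (.ddet 0 [] (.split [2, 2, 0, -2] (112000) (.leaf 0 [⟨1, [(0, 1)]⟩, ⟨2, [(18, 2), (15, 2), (9, 2), (0, 1)]⟩, ⟨1,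 [(18, 1), (15, 1), (9, 1)]⟩, ⟨2, [(0, 1)]⟩, ⟨2, [(0, 1)]⟩, ⟨1, []⟩, ⟨1, [(2, 1)]⟩, ⟨1, [(18, 1), (15, 1), (9, 1), (2, 1)]⟩, ⟨1, [(2, 1)]⟩, ⟨1, [(18, 1), (15, 1), (9, 1), (2, 1)]⟩, ⟨1, [(18, 2), (15, 2), (9, 2), (2, 3)]⟩, ⟨1, [(18, 2), (15, 2), (9, 2), (2, 3)]⟩, ⟨2, [(0, 1)]⟩]) (.leaf 3 [⟨2, [(18, 2), (15, 2), (9, 2), (0, 1)]⟩, ⟨1, [(18, 1), (15, 1), (9, 1), (0, 1)]⟩, ⟨1, [(0, 1)]⟩, ⟨1, []⟩, ⟨1, [(18, 1), (15, 1), (9, 1)]⟩, ⟨1, [(18, 1), (15, 1), (9, 1)]⟩, ⟨1, []⟩, ⟨1, [(18, 1), (15, 1), (9, 1)]⟩, ⟨2, [(0, 1)]⟩, ⟨2, [(18, 2), (15, 2), (9, 2), (0, 1)]⟩, ⟨2, [(18, 4), (15, 4), (9, 4), (0, 1)]⟩, ⟨2, [(18, 4), (15, 4), (9, 4), (0, 1)]⟩, ⟨2,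 [(0, 1)]⟩, ⟨2, [(18, 2), (15, 2), (9, 2), (0, 1)]⟩, ⟨2, [(18, 4), (15, 4), (9, 4), (0, 1)]⟩, ⟨1, [(18, 1), (15, 1), (9, 1), (0, 1)]⟩, ⟨1, [(18, 2), (15, 2), (9, 2), (0, 1)]⟩, ⟨2, [(18, 2), (15, 2), (9, 2), (0, 3)]⟩, ⟨2, [(18, 4), (15, 4), (9, 4), (0, 3)]⟩, ⟨2, [(0, 1)]⟩]))))))) (.cons (.ddet 0 [] s23_4_t2) (.cons (.prune [(14, 2), (10, 1), (0, 1)]) .nil))))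
def s23_4_n0 : Node := ⟨[⟨[1, 0, 0, -1], -200⟩, ⟨[1, 0, -1], -200⟩, ⟨[1, -1], -200⟩, ⟨[0, 0, -1], 47680⟩, ⟨[0, 1, -1], -16640⟩, ⟨[0, 1], -69120⟩, ⟨[0, 0, 1], -69120⟩, ⟨[1, 0, 1], 3835200⟩, ⟨[0, 1, 1], -133440⟩, ⟨[1, 1, 1], 3792000⟩, ⟨[1, 0, 1, 1], 3792000⟩, ⟨[1, 1, 1, 1], 3835200⟩], [1], 0, none, (.nbr (.cons (.prune [(13, 1), (7, 1), (2, 2)]) (.cons (.ddet 0 [] (.ndet 2 [⟨1, [(11, 1), (7, 1)]⟩, ⟨1, [(9, 1)]⟩, ⟨1, [(11, 2), (7, 1)]⟩] (.ddet 0 [] s23_4_t0))) (.cons s23_4_t1 (.cons (.ddet 0 [] s23_4_t3) .nil)))))⟩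
def s23_4_t4 : Tree := .ddet 0 [] (.nbr (.cons (.prune [(23, 1), (20, 1), (7, 2), (3, 2), (0, 4)]) (.cons (.ddet 0 [] (.leaf 1 [⟨1, [(23, 1), (7, 1)]⟩, ⟨1, [(23, 1), (7, 1)]⟩, ⟨1, []⟩, ⟨1, []⟩, ⟨1, []⟩, ⟨1, []⟩, ⟨1, []⟩, ⟨1, []⟩, ⟨1, []⟩, ⟨1, []⟩, ⟨1, []⟩, ⟨1, []⟩, ⟨1, []⟩, ⟨1, []⟩, ⟨1, []⟩, ⟨1, []⟩, ⟨1, [(23, 2), (7, 2)]⟩, ⟨1, []⟩, ⟨1, []⟩, ⟨1, [(23, 1), (7, 1)]⟩, ⟨1, []⟩, ⟨1, []⟩])) (.cons (.prune [(2, 1)]) (.cons (.ddet 0 [] (.split [1, -1] (0) (.leaf 0 [⟨1, [(24, 1), (8, 1), (0, 1)]⟩, ⟨1, [(24, 1), (8, 1), (0, 1)]⟩, ⟨1, [(0, 1)]⟩, ⟨1, []⟩, ⟨1, [(24, 1), (8, 1)]⟩, ⟨1, [(24, 1), (8, 1)]⟩, ⟨1, []⟩, ⟨1, [(24, 1), (8, 1), (0, 1)]⟩, ⟨1,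 [(24, 1), (8, 1)]⟩, ⟨1, [(24, 2), (8, 2), (0, 1)]⟩, ⟨1, [(24, 1), (8, 1), (0, 1)]⟩, ⟨1, [(24, 2), (8, 2), (0, 1)]⟩, ⟨1, [(0, 1)]⟩]) (.leaf 1 [⟨1, [(24, 1), (8, 1)]⟩, ⟨1, [(24, 1), (8, 1)]⟩, ⟨1, [(0, 1)]⟩, ⟨1, [(0, 1)]⟩, ⟨1, []⟩, ⟨1, [(0, 1)]⟩, ⟨1, [(2, 1)]⟩, ⟨1, []⟩, ⟨1, [(0, 1)]⟩, ⟨1, [(0, 1)]⟩, ⟨1, [(2, 1)]⟩, ⟨1, []⟩, ⟨1, [(0, 1)]⟩, ⟨1, [(0, 1)]⟩, ⟨1, []⟩, ⟨1, [(0, 1)]⟩, ⟨1, [(24, 2), (8, 2), (2, 1)]⟩, ⟨1, [(2, 1)]⟩, ⟨1, []⟩, ⟨1, [(24, 1), (8, 1), (2, 1)]⟩, ⟨1, [(0, 1)]⟩, ⟨1, []⟩]))) .nil)))))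
def s23_4_t5 : Tree := .nbr (.cons (.prune [(26, 1), (10, 1), (2, 1)]) (.cons (.ddet 0 [] (.leaf 1 [⟨1, [(26, 1), (10, 1)]⟩, ⟨1, [(1, 1)]⟩, ⟨1, [(6, 1)]⟩, ⟨1, []⟩, ⟨1, []⟩, ⟨1, [(6, 1)]⟩, ⟨1, []⟩, ⟨1, [(6, 1)]⟩, ⟨1, [(6, 2)]⟩, ⟨1, []⟩, ⟨1, []⟩, ⟨1, [(6, 1)]⟩, ⟨1, [(6, 2)]⟩, ⟨1, []⟩, ⟨1, []⟩, ⟨1, [(6, 1)]⟩, ⟨2, [(26, 1), (25, 1), (13, 2), (1, 1)]⟩, ⟨1, []⟩, ⟨1, [(6, 1)]⟩, ⟨1, [(26, 1), (10, 1)]⟩, ⟨1, [(6, 2)]⟩, ⟨1, []⟩])) (.cons (.ddet 0 [] (.split [1, 1, -1] (64000) (.leaf 1 [⟨2, [(27, 1), (26, 1), (14, 2), (2, 1)]⟩, ⟨1, [(0, 1)]⟩, ⟨2, [(27, 1), (26, 1), (14, 2), (2, 1)]⟩, ⟨1, [(0, 1)]⟩, ⟨1, []⟩, ⟨2, [(27, 1), (26, 1), (14, 2), (2, 1)]⟩,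 ⟨1, [(2, 1)]⟩, ⟨2, [(27, 1), (26, 1), (14, 2), (2, 3)]⟩, ⟨1, [(27, 1), (26, 1), (14, 2), (2, 2)]⟩, ⟨1, [(0, 1)]⟩, ⟨1, [(2, 1)]⟩, ⟨2, [(27, 1), (26, 1), (14, 2), (2, 3)]⟩, ⟨1, [(27, 1), (26, 1), (14, 2), (2, 2)]⟩, ⟨1, [(0, 1)]⟩, ⟨1, []⟩, ⟨2, [(27, 1), (26, 1), (14, 2), (2, 1)]⟩, ⟨2, [(27, 1), (26, 1), (14, 2), (2, 1)]⟩, ⟨1, [(2, 1)]⟩, ⟨2, [(27, 1), (26, 1), (14, 2), (2, 3)]⟩, ⟨2, [(27, 1), (26, 1), (14, 2), (2, 3)]⟩, ⟨1, [(27, 1), (26, 1), (14, 2), (2, 2)]⟩, ⟨1, []⟩]) (.leaf 2 [⟨2, [(27, 1), (26, 1), (14, 2), (0, 3)]⟩, ⟨1, [(0, 1)]⟩, ⟨2, [(27, 1), (26, 1), (14, 2), (0, 3)]⟩, ⟨1, [(0, 1)]⟩, ⟨1, [(0, 1)]⟩, ⟨1, []⟩, ⟨1, []⟩, ⟨1, [(0, 1)]⟩,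 ⟨1, [(0, 1)]⟩, ⟨1, [(5, 1)]⟩, ⟨1, [(5, 1)]⟩, ⟨1, [(5, 1)]⟩, ⟨1, []⟩, ⟨1, []⟩, ⟨1, []⟩, ⟨2, [(27, 1), (26, 1), (14, 2), (0, 1)]⟩, ⟨1, [(0, 1)]⟩, ⟨1, [(0, 1)]⟩, ⟨2, [(27, 1), (26, 1), (14, 2), (0, 3)]⟩, ⟨1, [(0, 1)]⟩]))) (.cons (.prune [(26, 3), (16, 1), (10, 2), (6, 2), (1, 4)]) .nil))))
def s23_4_t6 : Tree := .ddet 0 [] (.nbr (.cons (.prune [(23, 1), (7, 1), (0, 1)]) (.cons (.ddet 0 [] (.ndet 2 [⟨1, [(25, 1), (22, 1), (10, 1), (0, 2)]⟩, ⟨1, []⟩, ⟨1, [(25, 2), (22, 1), (10, 1), (0, 3)]⟩] (.ddet 0 [] (.leaf 2 [⟨1, [(25, 1), (22, 1), (10, 1), (0, 2)]⟩, ⟨1, []⟩, ⟨1, [(25, 1), (22, 1), (10, 1), (0, 2)]⟩, ⟨1, []⟩, ⟨1, []⟩, ⟨1, []⟩, ⟨1, []⟩,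 ⟨1, []⟩, ⟨1, []⟩, ⟨1, []⟩, ⟨1, []⟩, ⟨1, []⟩, ⟨1, []⟩, ⟨1, []⟩, ⟨1, []⟩, ⟨1, [(25, 1), (22, 1), (10, 1), (0, 2)]⟩, ⟨1, []⟩, ⟨1, []⟩, ⟨1, [(25, 1), (22, 1), (10, 1), (0, 2)]⟩, ⟨1, [(0, 1)]⟩])))) (.cons (.prune [(2, 1)]) (.cons (.ddet 0 [] s23_4_t5) .nil)))))
def s23_4_n1 : Node := ⟨[⟨[0, 1, 0, -1], -200⟩, ⟨[0, 1, -1], -200⟩, ⟨[-1, 1], -200⟩, ⟨[-1, 1, -1, -1], 125216⟩, ⟨[0, 0, 0, -1], 58880⟩, ⟨[-1, 1, 0, -1], 61088⟩, ⟨[1, -1, 1, -1], -37440⟩, ⟨[0, 0, 1, -1], -5440⟩, ⟨[-1, 1, 1, -1], -3200⟩, ⟨[-1, 1, -1], 61088⟩, ⟨[1, -1, 1], -101120⟩, ⟨[0, 0, 1], -69120⟩, ⟨[-1, 1, 1], -67040⟩, ⟨[-1, 1, -1, 1], -3056⟩, ⟨[0, 0, 0, 1], -69120⟩, ⟨[-1, 1, 0,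 1], -66976⟩, ⟨[1, 1, 0, 1], 3835200⟩, ⟨[1, -1, 1, 1], -165440⟩, ⟨[0, 0, 1, 1], -133440⟩, ⟨[1, 0, 1, 1], 3792000⟩, ⟨[-1, 1, 1, 1], -131024⟩], [0, 1], 0, none, (.ndet 2 [⟨1, [(17, 1), (1, 1)]⟩, ⟨1, [(18, 1)]⟩, ⟨1, [(17, 1), (16, 1), (1, 1)]⟩] (.ddet 0 [] (.nbr (.cons (.prune [(20, 1), (17, 1), (4, 2), (1, 2), (0, 2)]) (.cons (.prune [(2, 1)]) (.cons (.ddet 0 [] (.ndet 3 [⟨1, [(20, 1), (4, 1)]⟩, ⟨1, [(20, 1), (4, 1)]⟩, ⟨1, [(20, 1), (4, 1)]⟩] s23_4_t4)) (.cons s23_4_t6 .nil)))))))⟩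
def s23_4_t7 : Tree := .nbr (.cons (.prune [(21, 1), (15, 1), (9, 2), (3, 2), (0, 4)]) (.cons (.ddet 0 [] (.ndet 2 [⟨1, [(21, 1), (19, 1), (9, 1)]⟩, ⟨1, []⟩, ⟨1, [(21, 1), (19, 2), (9, 1)]⟩] (.ddet 0 [] (.leaf 2 [⟨1, [(21, 1), (19, 1), (9, 1)]⟩, ⟨1, []⟩, ⟨1, [(21, 1), (19, 1), (9, 1)]⟩, ⟨1, []⟩, ⟨1, []⟩, ⟨1, []⟩, ⟨1, []⟩, ⟨1, []⟩, ⟨1, []⟩, ⟨1, []⟩, ⟨1, []⟩, ⟨1, []⟩, ⟨1, []⟩, ⟨1, []⟩, ⟨1, []⟩, ⟨1, [(21, 1), (19, 1), (9, 1)]⟩, ⟨1, []⟩, ⟨1, []⟩, ⟨1, [(21, 1), (19, 1), (9, 1)]⟩, ⟨1, [(19, 1)]⟩])))) (.cons (.prune [(2, 1)]) (.cons (.ddet 0 [] (.ndet 2 [⟨1, [(21, 1), (19, 1), (9, 1)]⟩, ⟨1, [(17, 1)]⟩, ⟨1, [(21, 1), (19, 2), (9, 1)]⟩] (.ddet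 0 [] (.split [1, 1, -1] (64000) (.leaf 1 [⟨1, [(22, 1), (20, 2), (7, 1), (0, 2)]⟩, ⟨1, [(0, 1)]⟩, ⟨1, [(22, 1), (20, 2), (7, 1), (0, 2)]⟩, ⟨1, [(0, 1)]⟩, ⟨1, []⟩, ⟨1, [(22, 1), (20, 2), (7, 1), (0, 2)]⟩, ⟨1, [(18, 1)]⟩, ⟨1, [(22, 1), (20, 2), (7, 1), (0, 1)]⟩, ⟨1, [(22, 2), (20, 4), (7, 2), (0, 3)]⟩, ⟨1, [(0, 1)]⟩, ⟨1, [(18, 1)]⟩, ⟨1, [(22, 1), (20, 2), (7, 1), (0, 1)]⟩, ⟨1, [(22, 2), (20, 4), (7, 2), (0, 3)]⟩, ⟨1, [(0, 1)]⟩, ⟨1, []⟩, ⟨1, [(22, 1), (20, 2), (7, 1), (0, 2)]⟩, ⟨1, [(22, 1), (20, 2), (7, 1), (0, 2)]⟩, ⟨1, [(18, 1)]⟩, ⟨1, [(22, 1), (20, 2), (7, 1), (0, 1)]⟩, ⟨1, [(22, 1), (20, 2), (7, 1), (0, 1)]⟩, ⟨1, [(22, 2), (20, 4),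 (7, 2), (0, 3)]⟩, ⟨1, [(20, 1), (0, 1)]⟩]) (.leaf 2 [⟨1, [(22, 1), (20, 1), (10, 1)]⟩, ⟨1, [(0, 1)]⟩, ⟨1, [(22, 1), (20, 1), (10, 1)]⟩, ⟨1, [(0, 1)]⟩, ⟨1, [(0, 1)]⟩, ⟨1, []⟩, ⟨1, []⟩, ⟨1, [(0, 1)]⟩, ⟨1, [(0, 1)]⟩, ⟨1, [(2, 1)]⟩, ⟨1, [(2, 1)]⟩, ⟨1, [(2, 1)]⟩, ⟨1, []⟩, ⟨1, []⟩, ⟨1, []⟩, ⟨1, [(22, 1), (20, 1), (10, 1), (2, 1)]⟩, ⟨1, [(0, 1)]⟩, ⟨1, [(0, 1)]⟩, ⟨1, [(22, 1), (20, 1), (10, 1)]⟩, ⟨1, [(20, 1)]⟩]))))) .nil))))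
def s23_4_t8 : Tree := .nbr (.cons (.prune [(24, 3), (18, 1), (12, 2), (2, 2)]) (.cons (.ddet 0 [] (.ndet 2 [⟨1, [(24, 1), (22, 1), (12, 1)]⟩, ⟨1, [(6, 1)]⟩, ⟨1, [(24, 1), (22, 2), (12, 1)]⟩] (.ddet 0 [] (.leaf 2 [⟨1, [(1, 1)]⟩, ⟨1, [(6, 1)]⟩, ⟨1, [(24, 1), (22, 1), (12, 1)]⟩, ⟨1, []⟩, ⟨1, []⟩, ⟨1, []⟩, ⟨1, []⟩, ⟨1, [(6, 1)]⟩, ⟨1, [(6, 1)]⟩, ⟨1, []⟩, ⟨1, []⟩, ⟨1, []⟩, ⟨1, [(6, 1)]⟩, ⟨1, [(6, 1)]⟩, ⟨1, [(6, 1)]⟩, ⟨1, [(24, 1), (22, 1), (12, 1)]⟩, ⟨1, [(6, 2)]⟩, ⟨1, [(6, 2)]⟩, ⟨1, [(24, 1), (22, 1), (12, 1), (6, 1)]⟩, ⟨1, [(22, 1)]⟩])))) (.cons (.ddet 0 [] (.ndet 2 [⟨1, [(24, 1), (22, 1), (12, 1)]⟩, ⟨1, [(24, 1), (22, 1), (12, 1)]⟩, ⟨1,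 [(24, 1), (22, 2), (12, 1)]⟩] (.ddet 0 [] (.split [-1, 1, 1, -1] (0) (.leaf 2 [⟨1, [(0, 1)]⟩, ⟨1, [(25, 1), (23, 1), (13, 1)]⟩, ⟨1, [(25, 1), (23, 1), (13, 1)]⟩, ⟨1, [(0, 1)]⟩, ⟨1, [(0, 1)]⟩, ⟨1, []⟩, ⟨1, []⟩, ⟨1, [(25, 1), (23, 1), (13, 1)]⟩, ⟨1, [(25, 1), (23, 1), (13, 1)]⟩, ⟨1, [(2, 1)]⟩, ⟨1, [(2, 1)]⟩, ⟨1, [(2, 1)]⟩, ⟨1, [(25, 1), (23, 1), (13, 1), (2, 1)]⟩, ⟨1, [(25, 1), (23, 1), (13, 1), (2, 1)]⟩, ⟨1, [(25, 1), (23, 1), (13, 1), (2, 1)]⟩, ⟨1, [(25, 1), (23, 1), (13, 1), (2, 1)]⟩, ⟨1, [(25, 2), (23, 2), (13, 2), (2, 1)]⟩, ⟨1, [(25, 2), (23, 2), (13, 2), (2, 1)]⟩, ⟨1, [(25, 2), (23, 2), (13, 2), (2, 1)]⟩, ⟨1, [(23, 1)]⟩]) (.leaf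 3 [⟨1, [(0, 1)]⟩, ⟨1, [(25, 1), (23, 1), (13, 1), (0, 1)]⟩, ⟨1, [(25, 1), (23, 1), (13, 1), (0, 1)]⟩, ⟨1, []⟩, ⟨1, []⟩, ⟨1, []⟩, ⟨1, []⟩, ⟨1, []⟩, ⟨1, [(0, 1)]⟩, ⟨1, [(0, 1)]⟩, ⟨1, [(0, 1)]⟩, ⟨1, [(0, 1)]⟩, ⟨1, [(0, 1)]⟩, ⟨1, [(0, 1)]⟩, ⟨1, [(0, 1)]⟩, ⟨1, [(25, 1), (23, 1), (13, 1), (0, 1)]⟩, ⟨1, [(25, 1), (23, 1), (13, 1), (0, 1)]⟩, ⟨1, [(25, 2), (23, 2), (13, 2), (0, 1)]⟩, ⟨1, [(25, 2), (23, 2), (13, 2), (0, 1)]⟩, ⟨1, [(23, 1), (0, 1)]⟩]))))) (.cons (.prune [(24, 5), (18, 1), (12, 2), (6, 2), (1, 4)]) .nil))))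
def s23_4_t9 : Tree := .nbr (.cons (.prune [(21, 1), (9, 1), (0, 1)]) (.cons (.ddet 0 [] (.ndet 2 [⟨1, [(24, 2), (19, 1), (9, 1), (0, 2)]⟩, ⟨1, [(18, 1)]⟩, ⟨1, [(24, 3), (19, 1), (9, 1), (0, 3)]⟩] (.ddet 0 [] (.ndet 2 [⟨1, [(24, 2), (19, 2), (9, 1), (0, 2)]⟩, ⟨1, [(24, 2), (19, 2), (9, 1), (0, 2)]⟩, ⟨1, [(24, 2), (19, 3), (9, 1), (0, 2)]⟩] (.ddet 0 [] (.leaf 3 [⟨1, [(18, 1)]⟩, ⟨1, [(24, 2), (19, 1), (9, 1), (0, 2)]⟩, ⟨1, [(24, 2), (19, 1), (9, 1), (0, 2)]⟩, ⟨1, []⟩, ⟨1, []⟩, ⟨1, []⟩, ⟨1, []⟩, ⟨1, []⟩, ⟨1, [(18, 1)]⟩, ⟨1, [(18, 1)]⟩, ⟨1, [(18, 1)]⟩, ⟨1, [(18, 1)]⟩, ⟨1, [(18, 1)]⟩, ⟨1, [(18, 1)]⟩, ⟨1, [(18, 1)]⟩, ⟨1, [(24, 2), (19, 1),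 (9, 1), (0, 2)]⟩, ⟨1, [(24, 2), (19, 1), (9, 1), (0, 2)]⟩, ⟨1, [(24, 4), (19, 3), (9, 2), (0, 4)]⟩, ⟨1, [(24, 4), (19, 3), (9, 2), (0, 4)]⟩, ⟨1, [(0, 1)]⟩])))))) (.cons (.prune [(21, 3), (15, 1), (9, 2), (0, 2)]) (.cons (.ddet 0 [] s23_4_t8) .nil))))
def s23_4_n2 : Node := ⟨[⟨[0, 0, 1, -1], -200⟩, ⟨[0, -1, 1], -200⟩, ⟨[-1, 0, 1], -200⟩, ⟨[-1, -1, 1, -1], 125184⟩, ⟨[1, -1, 1, -1], -3008⟩, ⟨[-1], 58880⟩, ⟨[1], -69120⟩, ⟨[-1, -1, 1], 61264⟩, ⟨[1, -1, 1], -66928⟩, ⟨[-1, 1, -1, 1], -37440⟩, ⟨[0, 1, -1, 1], -101120⟩, ⟨[1, 1, -1, 1], -165440⟩, ⟨[-1, 0, 0, 1], -5440⟩, ⟨[0, 0, 0, 1], -69120⟩, ⟨[1, 0, 0, 1], -133440⟩, ⟨[1, 1, 0, 1], 3824000⟩,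 ⟨[-1, -1, 1, 1], -2896⟩, ⟨[1, -1, 1, 1], -131184⟩, ⟨[1, 0, 1, 1], 3835200⟩], [0, 0, 1], 0, none, (.nbr (.cons (.prune [(18, 1), (12, 1), (6, 2), (1, 2), (0, 2)]) (.cons (.prune [(18, 3), (12, 3), (6, 2), (1, 2), (0, 2)]) (.cons (.ddet 0 [] (.ndet 3 [⟨1, [(18, 1), (6, 1)]⟩, ⟨1, [(18, 1), (6, 1)]⟩, ⟨1, [(18, 1), (16, 1), (6, 1)]⟩] (.ddet 0 [] s23_4_t7))) (.cons (.ddet 0 [] s23_4_t9) .nil)))))⟩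
def s23_4_t10 : Tree := .ddet 0 [] (.ndet 2 [⟨1, [(18, 2), (6, 1)]⟩, ⟨1, [(16, 1)]⟩, ⟨1, [(18, 3), (6, 1)]⟩] (.ddet 0 [] (.nbr (.cons (.prune [(21, 2), (9, 1), (1, 1), (0, 1)]) (.cons (.prune [(2, 1)]) (.cons (.ddet 0 [] (.leaf 3 [⟨1, [(19, 1)]⟩, ⟨1, [(21, 2), (9, 1)]⟩, ⟨1, [(21, 2), (9, 1)]⟩, ⟨1, []⟩, ⟨1, []⟩, ⟨1, []⟩, ⟨1, []⟩, ⟨1, []⟩, ⟨1, [(19, 1)]⟩, ⟨1, [(19, 1)]⟩, ⟨1, [(19, 1)]⟩, ⟨1, [(19, 1)]⟩, ⟨1, [(19, 1)]⟩, ⟨1, [(19, 1)]⟩, ⟨1, [(19, 1)]⟩, ⟨1, [(21, 2), (9, 1)]⟩, ⟨1, [(21, 2), (9, 1)]⟩, ⟨2, [(21, 6), (9, 3), (0, 1)]⟩, ⟨2, [(21, 6), (9, 3), (0, 1)]⟩, ⟨1, [(21, 1)]⟩])) (.cons (.ddet 0 [] (.leaf 3 [⟨2, [(21, 2), (9, 1), (0, 1)]⟩,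 ⟨1, [(21, 2), (9, 1)]⟩, ⟨1, [(22, 2), (21, 2)]⟩, ⟨1, []⟩, ⟨1, [(0, 1)]⟩, ⟨1, [(0, 1)]⟩, ⟨1, []⟩, ⟨1, [(0, 1)]⟩, ⟨1, [(22, 1), (21, 1)]⟩, ⟨2, [(21, 2), (9, 1), (0, 1)]⟩, ⟨2, [(21, 2), (9, 1), (0, 3)]⟩, ⟨2, [(21, 2), (9, 1), (0, 3)]⟩, ⟨1, [(22, 1), (21, 1)]⟩, ⟨2, [(21, 2), (9, 1), (0, 1)]⟩, ⟨2, [(21, 2), (9, 1), (0, 3)]⟩, ⟨1, [(21, 2), (9, 1)]⟩, ⟨1, [(21, 2), (9, 1), (0, 1)]⟩, ⟨1, [(22, 1), (21, 3), (9, 1)]⟩, ⟨2, [(21, 6), (9, 3), (0, 1)]⟩, ⟨1, [(21, 1)]⟩])) .nil)))))))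
def s23_4_t11 : Tree := .nbr (.cons (.prune [(18, 2), (6, 1), (2, 1)]) (.cons s23_4_t10 (.cons (.prune [(19, 1), (18, 1), (1, 1)]) (.cons (.ddet 0 [] (.ndet 2 [⟨1, [(18, 2), (6, 1)]⟩, ⟨1, [(11, 1)]⟩, ⟨1, [(18, 3), (6, 1)]⟩] (.ddet 0 [] (.ndet 2 [⟨1, [(18, 2), (13, 1), (6, 1), (1, 2)]⟩, ⟨1, [(18, 2), (13, 1), (6, 1), (1, 2)]⟩, ⟨1, [(18, 2), (13, 2), (6, 1), (1, 3)]⟩] (.ddet 0 [] (.split [-1, 1, 1, -1] (0) (.leaf 2 [⟨1, [(0, 1)]⟩, ⟨1, [(19, 2), (13, 1), (6, 1), (0, 2)]⟩, ⟨1, [(19, 2), (13, 1), (6, 1), (0, 2)]⟩, ⟨1, [(0, 1)]⟩, ⟨1, [(0, 1)]⟩, ⟨1, []⟩, ⟨1, []⟩, ⟨1, [(19, 2), (13, 1), (6, 1), (0, 2)]⟩, ⟨1, [(19, 2), (13, 1), (6, 1), (0, 2)]⟩,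 ⟨1, [(12, 1)]⟩, ⟨1, [(12, 1)]⟩, ⟨1, [(12, 1)]⟩, ⟨1, [(19, 2), (13, 1), (6, 1), (0, 1)]⟩, ⟨1, [(19, 2), (13, 1), (6, 1), (0, 1)]⟩, ⟨1, [(19, 2), (13, 1), (6, 1), (0, 1)]⟩, ⟨1, [(19, 2), (13, 1), (6, 1), (0, 1)]⟩, ⟨1, [(19, 4), (13, 2), (6, 2), (0, 3)]⟩, ⟨1, [(19, 4), (13, 2), (6, 2), (0, 3)]⟩, ⟨1, [(19, 4), (13, 2), (6, 2), (0, 3)]⟩, ⟨1, [(19, 1), (0, 1)]⟩]) (.leaf 3 [⟨1, [(0, 1)]⟩, ⟨1, [(19, 2), (7, 1)]⟩, ⟨1, [(19, 2), (7, 1)]⟩, ⟨1, []⟩, ⟨1, []⟩, ⟨1, []⟩, ⟨1, []⟩, ⟨1, []⟩, ⟨1, [(0, 1)]⟩, ⟨1, [(0, 1)]⟩, ⟨1, [(0, 1)]⟩, ⟨1, [(0, 1)]⟩, ⟨1, [(0, 1)]⟩, ⟨1, [(0, 1)]⟩, ⟨1, [(0, 1)]⟩, ⟨1, [(19, 2), (7, 1)]⟩, ⟨1, [(19, 2), (7, 1)]⟩, ⟨1, [(19,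 4), (14, 1), (7, 2), (2, 2)]⟩, ⟨1, [(19, 4), (14, 1), (7, 2), (2, 2)]⟩, ⟨1, [(19, 1)]⟩]))))))) .nil))))
def s23_4_n3 : Node := ⟨[⟨[0, 0, -1, 1], -200⟩, ⟨[0, -1, 0, 1], -200⟩, ⟨[-1, 0, 0, 1], -200⟩, ⟨[0, -1], 58880⟩, ⟨[1, -1], -5440⟩, ⟨[1], -69120⟩, ⟨[0, 1], -69120⟩, ⟨[1, 1], -133440⟩, ⟨[-1, -1, -1, 1], 92992⟩, ⟨[0, -1, -1, 1], 61264⟩, ⟨[1, -1, -1, 1], -2832⟩, ⟨[1, 0, -1, 1], -66656⟩, ⟨[-1, 1, -1, 1], -35200⟩, ⟨[0, 1, -1, 1], -66928⟩, ⟨[1, 1, -1, 1], -130800⟩, ⟨[0, 1, 0, 1], 3835200⟩, ⟨[1, 1, 0, 1], 3792000⟩, ⟨[0, 1, 1, 1], 3792000⟩, ⟨[1, 1, 1, 1], 3835200⟩], [0, 0, 0, 1], 0, none, (.ndet 3 [⟨1, [(15, 1), (3, 1)]⟩, ⟨1, [(16, 1)]⟩, ⟨1,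 [(15, 2), (3, 1)]⟩] (.ddet 0 [] s23_4_t11))⟩
def s23_4 : Sys := ⟨[(0, 48000), (1, -48000), (2, -16000), (4, 32000)], [(2, 48000)], 4, [s23_4_n0, s23_4_n1, s23_4_n2, s23_4_n3], [3961235, -64000, -64000, 3881235], (.leaf 0 [⟨1, []⟩, ⟨1, []⟩, ⟨1, []⟩, ⟨1, []⟩, ⟨1, []⟩, ⟨1, []⟩, ⟨1, []⟩, ⟨1, []⟩, ⟨1, []⟩, ⟨1, []⟩, ⟨1, []⟩, ⟨1, []⟩])⟩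

theorem s23_4_ok : s23_4.ok = true := by decide +kernel

def s23_7_n0 : Node := ⟨[⟨[1], 320⟩, ⟨[1, -1], 328⟩, ⟨[1, 0, 0, -1], 312⟩, ⟨[1], 304⟩, ⟨[1, -1], 384⟩, ⟨[1], 296⟩, ⟨[1, 0, -1], 368⟩, ⟨[1], 248⟩, ⟨[1], 240⟩, ⟨[0, -1], 24⟩, ⟨[1], 224⟩], [1], 0, none, (.ndet 1 [⟨1, [(10, 1)]⟩, ⟨1, [(6, 1)]⟩, ⟨1, [(8, 1)]⟩] (.ddet 1 [⟨1, [(10, 1)]⟩, ⟨1, [(6, 1)]⟩] (.ndet 2 [⟨1, [(10, 1)]⟩, ⟨1, [(10, 1)]⟩, ⟨1, [(4, 1)]⟩] (.ddet 2 [⟨1, [(10, 1)]⟩, ⟨1, [(10, 1)]⟩] (.ndet 0 [⟨1, []⟩, ⟨1, []⟩, ⟨1, [(1, 1)]⟩] (.ddet 2 [⟨1, []⟩, ⟨1, []⟩] (.ndet 3 [⟨1, [(10, 1)]⟩, ⟨1, [(10, 1)]⟩, ⟨1, [(10, 1)]⟩] (.ddet 0 [⟨1, []⟩, ⟨1, []⟩] (.leaf 0 [⟨1, [(10, 1)]⟩, ⟨1,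 [(10, 1)]⟩, ⟨1, [(10, 1)]⟩, ⟨1, [(10, 1)]⟩, ⟨1, [(10, 1)]⟩, ⟨1, [(10, 1)]⟩, ⟨1, [(10, 1)]⟩, ⟨1, [(10, 1)]⟩, ⟨1, [(10, 1)]⟩, ⟨1, []⟩, ⟨1, [(10, 1)]⟩, ⟨1, []⟩])))))))))⟩
def s23_7 : Sys := ⟨[(0, -32), (1, -80), (2, -80), (4, -48)], [(0, -64), (1, -80), (2, 32)], 4, [s23_7_n0], [592, -64, -112, 0], (.leaf 0 [⟨1, []⟩, ⟨1, []⟩, ⟨1, []⟩, ⟨1, []⟩, ⟨1, []⟩, ⟨1, []⟩, ⟨1, []⟩, ⟨1, []⟩, ⟨1, []⟩, ⟨1, []⟩, ⟨1, []⟩])⟩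

theorem s23_7_ok : s23_7.ok = true := by decide +kernel

def s25_9_n0 : Node := ⟨[⟨[0, 0, 0, 1], 184⟩, ⟨[0, 0, -1, 1], 72⟩, ⟨[0, 0, -1], -8⟩, ⟨[0, 1], 272⟩, ⟨[0, 1, -1], 232⟩, ⟨[0, 1], 168⟩, ⟨[-1, 1], 96⟩, ⟨[-1], 0⟩, ⟨[0, 0, 0, 1], 232⟩, ⟨[-1, 0, 0, 1], 200⟩], [0, 1, 0, 1], 0, none, (.ndet 2 [⟨1, [(1, 1)]⟩, ⟨1, [(7, 1), (1, 1)]⟩] (.ddet 0 [⟨1, [(7, 1)]⟩] (.ndet 1 [⟨1, [(6, 1)]⟩, ⟨1, [(7, 1), (6, 1)]⟩] (.ddet 1 [⟨1, [(6, 1)]⟩] (.leaf 0 [⟨1, [(6, 1)]⟩, ⟨1, [(6, 1), (2, 1)]⟩, ⟨1, [(2, 1)]⟩, ⟨1, [(1, 1)]⟩, ⟨1, [(2, 1), (1, 1)]⟩, ⟨1, [(1, 1)]⟩, ⟨1, [(1, 1)]⟩, ⟨1, []⟩, ⟨1, [(6, 1)]⟩, ⟨1, [(6, 1)]⟩, ⟨1, []⟩])))))⟩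
def s25_9 : Sys := ⟨[(0, 80), (3, -176), (4, -32)], [(0, -80), (3, -128)], 4, [s25_9_n0], [-48, 288, -32, 256], (.leaf 0 [⟨1, []⟩, ⟨1, []⟩, ⟨1, []⟩, ⟨1, []⟩, ⟨1, []⟩, ⟨1, []⟩, ⟨1, []⟩, ⟨1, []⟩, ⟨1, []⟩, ⟨1, []⟩])⟩

theorem s25_9_ok : s25_9.ok = true := by decide +kernel

def s26_20_n0 : Node := ⟨[⟨[-1, 0, 1], 56⟩, ⟨[0, 0, 1, -1], 64⟩, ⟨[0, 1, 0, -1], 32⟩, ⟨[0, 1], -40⟩, ⟨[0, -1, 1], 40⟩, ⟨[-1, 0, 1], 64⟩, ⟨[0, 1], -48⟩, ⟨[-1, 1], 32⟩, ⟨[0, -2, 1], 72⟩, ⟨[0, -1], 24⟩, ⟨[-1], 72⟩, ⟨[0, -2, 1], 80⟩], [0, 0, 1], 0, none, (.ndet 1 [⟨1, [(7, 1), (4, 1)]⟩, ⟨1, [(9, 1), (7, 1)]⟩] (.ddet 0 [⟨1, [(9, 1)]⟩] (.ndet 2 [⟨1, [(8, 1)]⟩, ⟨1, [(7, 1)]⟩]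 (.ddet 1 [⟨1, [(7, 1), (4, 1)]⟩] (.ndet 2 [⟨1, [(8, 1)]⟩, ⟨1, [(4, 1)]⟩] (.ddet 0 [⟨1, [(0, 1)]⟩] (.leaf 0 [⟨1, [(7, 1), (0, 1)]⟩, ⟨1, [(7, 1), (1, 1)]⟩, ⟨1, [(1, 1)]⟩, ⟨1, []⟩, ⟨1, [(7, 1)]⟩, ⟨1, [(7, 1), (0, 1)]⟩, ⟨1, []⟩, ⟨1, [(0, 1)]⟩, ⟨1, [(7, 1)]⟩, ⟨1, []⟩, ⟨1, [(0, 1)]⟩, ⟨1, [(7, 1)]⟩, ⟨1, [(2, 1)]⟩])))))))⟩
def s26_20 : Sys := ⟨[(1, -32), (3, 0), (4, 0)], [(2, 16), (4, 32)], 4, [s26_20_n0], [-96, -32, 48, -80], (.leaf 0 [⟨1, []⟩, ⟨1, []⟩, ⟨1, []⟩, ⟨1, []⟩, ⟨1, []⟩, ⟨1, []⟩, ⟨1, []⟩, ⟨1, []⟩, ⟨1, []⟩, ⟨1, []⟩, ⟨1, []⟩, ⟨1, []⟩])⟩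

theorem s26_20_ok : s26_20.ok = true := by decide +kernel

def s27_11_n0 : Node := ⟨[⟨[0, 0, 1], 968⟩, ⟨[-1, 0, 1], 1008⟩, ⟨[0, 0, 1, -1], 1056⟩, ⟨[0, 0, 1], 744⟩, ⟨[-1, 0, 1], 936⟩, ⟨[0, 0, 1], 824⟩, ⟨[0, 0, 1], 792⟩, ⟨[0, -1, 1], 696⟩, ⟨[0, -1], -24⟩, ⟨[0, 0, 1], 752⟩, ⟨[-1, 0, 1], 624⟩, ⟨[0, -1, 1], 768⟩, ⟨[0, 0, 1], 600⟩, ⟨[-1, 0, 1], 696⟩, ⟨[-1], -24⟩], [0, 0, 1], 0, none, (.ndet 2 [⟨1, [(14, 1)]⟩, ⟨1, [(13, 1)]⟩, ⟨1, [(12, 1)]⟩] (.ddet 2 [⟨1, [(14, 1)]⟩, ⟨1, [(13, 1)]⟩] (.ndet 3 [⟨1, [(14, 1)]⟩, ⟨1, [(14, 1)]⟩, ⟨1, [(14, 1), (6, 1)]⟩] (.ddet 1 [⟨1, []⟩, ⟨1, [(6, 1)]⟩] (.ndet 1 [⟨1, [(14, 1)]⟩, ⟨1, [(13, 1)]⟩, ⟨1, [(14, 1), (6,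 1)]⟩] (.ddet 1 [⟨1, [(14, 1)]⟩, ⟨1, [(13, 1)]⟩] (.ndet 1 [⟨1, []⟩, ⟨1, []⟩, ⟨1, [(0, 1)]⟩] (.ddet 1 [⟨1, []⟩, ⟨1, []⟩] (.leaf 0 [⟨1, [(14, 1)]⟩, ⟨1, [(14, 1)]⟩, ⟨1, [(14, 1)]⟩, ⟨1, [(14, 1)]⟩, ⟨1, [(14, 1)]⟩, ⟨1, [(14, 1)]⟩, ⟨1, [(14, 1)]⟩, ⟨1, [(14, 1)]⟩, ⟨1, []⟩, ⟨1, [(14, 1)]⟩, ⟨1, [(14, 1)]⟩, ⟨1, [(14, 1)]⟩, ⟨1, [(14, 1)]⟩, ⟨1, [(14, 1)]⟩, ⟨1, []⟩, ⟨1, []⟩])))))))))⟩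
def s27_11 : Sys := ⟨[(0, 112), (1, 192), (3, -144), (4, 144)], [(0, -192), (1, 192), (3, 0)], 4, [s27_11_n0], [0, 0, 1680, -144], (.leaf 0 [⟨1, []⟩, ⟨1, []⟩, ⟨1, []⟩, ⟨1, []⟩, ⟨1, []⟩, ⟨1, []⟩, ⟨1, []⟩, ⟨1, []⟩, ⟨1, []⟩, ⟨1, []⟩, ⟨1, []⟩, ⟨1, []⟩, ⟨1, []⟩, ⟨1, []⟩, ⟨1, []⟩])⟩

theorem s27_11_ok : s27_11.ok = true := by decide +kernel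

def s28_6_n0 : Node := ⟨[⟨[0, 1, -1], 104⟩, ⟨[0, 1, 0, -1], 32⟩, ⟨[-1, 1], 120⟩, ⟨[-1, 1], 40⟩, ⟨[0, 1, -1], -8⟩, ⟨[-1], -64⟩, ⟨[0, 1], 136⟩, ⟨[-1, 1], 152⟩, ⟨[0, 1], 72⟩, ⟨[0, 1], 152⟩], [0, 1], 0, none, (.ndet 0 [⟨1, [(9, 1)]⟩, ⟨1, [(8, 1)]⟩] (.ddet 1 [⟨1, [(2, 1)]⟩] (.ndet 1 [⟨1, [(2, 1)]⟩, ⟨1, [(9, 1)]⟩] (.ddet 0 [⟨1, [(4, 1)]⟩] (.ndet 2 [⟨1, [(0, 1)]⟩, ⟨1, [(2, 1)]⟩] (.ddet 0 [⟨1, [(0, 1)]⟩] (.leaf 0 [⟨1, [(0, 1)]⟩, ⟨1, [(2, 1)]⟩, ⟨1, [(0, 1)]⟩, ⟨1, [(0, 1)]⟩, ⟨1, [(0, 1)]⟩, ⟨1, []⟩, ⟨1, [(0, 1)]⟩, ⟨1, [(0, 1)]⟩, ⟨1, [(0, 1)]⟩, ⟨1, [(0, 1)]⟩, ⟨1, []⟩])))))))⟩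
def s28_6 : Sys := ⟨[(2, -16), (3, 80), (4, -48)], [(1, -16), (2, -80)], 4, [s28_6_n0], [0, 176, 64, 80], (.leaf 0 [⟨1, []⟩, ⟨1, []⟩, ⟨1, []⟩, ⟨1, []⟩, ⟨1, []⟩, ⟨1, []⟩, ⟨1, []⟩, ⟨1, []⟩, ⟨1, []⟩, ⟨1, []⟩])⟩

theorem s28_6_ok : s28_6.ok = true := by decide +kernel

def s29_17_t0 : Tree := .ddet 0 [⟨1, [(10, 1)]⟩] (.ndet 3 [⟨1, [(21, 1), (7, 1)]⟩, ⟨1, [(21, 1), (7, 1)]⟩, ⟨1, [(7, 1)]⟩] (.ddet 1 [⟨1, [(21, 1), (7, 1)]⟩] (.ndet 1 [⟨1, [(21, 1), (7, 1)]⟩, ⟨1, [(21, 1), (7, 1)]⟩, ⟨1, [(7, 1)]⟩] (.ddet 1 [⟨1, [(21, 1)]⟩] (.ndet 2 [⟨1, [(21, 1), (7, 1)]⟩, ⟨1, [(21, 1), (7, 1)]⟩, ⟨1, [(21, 1), (7, 1)]⟩] (.ddet 1 [⟨1, []⟩] (.ndet 3 [⟨1, [(21,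 1), (7, 1)]⟩, ⟨1, [(21, 1)]⟩, ⟨1, [(21, 1), (7, 1)]⟩] (.ddet 1 [⟨1, [(21, 1), (7, 1)]⟩] (.leaf 0 [⟨1, [(21, 1), (7, 1)]⟩, ⟨1, [(21, 1)]⟩, ⟨1, [(21, 1), (7, 1)]⟩, ⟨1, []⟩, ⟨1, [(21, 1), (7, 1)]⟩, ⟨1, [(21, 1), (7, 1)]⟩, ⟨1, [(21, 1)]⟩, ⟨1, [(7, 1)]⟩, ⟨1, [(21, 1), (7, 1)]⟩, ⟨1, [(21, 1), (7, 1)]⟩, ⟨1, [(21, 1), (7, 1)]⟩, ⟨1, [(21, 1), (7, 1)]⟩, ⟨1, []⟩, ⟨1, [(21, 1), (7, 1)]⟩, ⟨1, [(21, 1), (7, 1)]⟩, ⟨1, [(7, 1)]⟩, ⟨1, [(21, 1), (7, 1)]⟩, ⟨1, [(7, 1)]⟩, ⟨1, [(21, 1)]⟩, ⟨1, [(21, 1), (7, 1)]⟩, ⟨1, [(21, 1), (7, 1)]⟩, ⟨1, [(21, 1), (7, 1)]⟩, ⟨1, [(21, 1), (7, 1)]⟩, ⟨1, []⟩])))))))))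
def s29_17_n0 : Node := ⟨[⟨[0, 1], 344⟩, ⟨[0, 1, -1], 56⟩, ⟨[0, 1, 0, -1], 280⟩, ⟨[0, 0, 0, -1], -24⟩, ⟨[0, 1], 328⟩, ⟨[-1, 1], 296⟩, ⟨[0, 1, -1], -8⟩, ⟨[0, 0, 1], 296⟩, ⟨[0, 1], 336⟩, ⟨[-1, 1], 320⟩, ⟨[0, 1], 320⟩, ⟨[-1, 1], 256⟩, ⟨[-1], -24⟩, ⟨[0, 1], 368⟩, ⟨[0, 1], 376⟩, ⟨[0, 0, 1], 360⟩, ⟨[0, 1], 312⟩, ⟨[0, 0, 1], 256⟩, ⟨[0, 1, -1], 16⟩, ⟨[0, 1], 296⟩, ⟨[0, 1], 264⟩, ⟨[0, 1], 272⟩, ⟨[0, 1], 304⟩], [0, 1], 0, none, (.ndet 1 [⟨1, [(21, 1), (7, 1)]⟩, ⟨1, [(21, 1)]⟩, ⟨1, [(21, 1), (19, 1), (7, 1)]⟩] (.ddet 0 [⟨1, [(19, 1)]⟩] (.ndet 2 [⟨1, [(21, 1), (7, 1)]⟩, ⟨1, [(21, 1), (10, 1), (7, 1)]⟩, ⟨1, [(21, 1)]⟩] (.ddet 1 [⟨1, [(7, 1)]⟩] (.ndet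 1 [⟨1, [(21, 1), (7, 1)]⟩, ⟨1, [(21, 1), (10, 1), (7, 1)]⟩, ⟨1, []⟩] (.ddet 1 [⟨1, [(21, 1), (7, 1)]⟩] (.ndet 2 [⟨1, [(21, 1), (7, 1)]⟩, ⟨1, [(7, 1)]⟩, ⟨1, [(21, 1), (10, 1), (7, 1)]⟩] s29_17_t0)))))))⟩
def s29_17 : Sys := ⟨[(0, 80), (2, 16), (3, 48), (4, -48)], [(0, 0), (4, -48)], 4, [s29_17_n0], [0, 624, 544, 0], (.leaf 0 [⟨1, []⟩, ⟨1, []⟩, ⟨1, []⟩, ⟨1, []⟩, ⟨1, []⟩, ⟨1, []⟩, ⟨1, []⟩, ⟨1, []⟩, ⟨1, []⟩, ⟨1, []⟩, ⟨1, []⟩, ⟨1, []⟩, ⟨1, []⟩, ⟨1, []⟩, ⟨1, []⟩, ⟨1, []⟩, ⟨1, []⟩, ⟨1, []⟩, ⟨1, []⟩, ⟨1, []⟩, ⟨1, []⟩, ⟨1, []⟩, ⟨1, []⟩])⟩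

theorem s29_17_ok : s29_17.ok = true := by decide +kernel

def s30_7_n0 : Node := ⟨[⟨[1, -1], 72⟩, ⟨[1, 0, -1], 88⟩, ⟨[1, 0, 0, -1], 24⟩, ⟨[1], 32⟩, ⟨[1], 8⟩, ⟨[1, 0, -1], 48⟩, ⟨[1], 16⟩, ⟨[1], -8⟩, ⟨[1, -1], 32⟩, ⟨[1], 40⟩], [1], 0, none, (.ndet 0 [⟨1, [(9, 1)]⟩, ⟨1, [(8, 1)]⟩, ⟨1, [(7, 1)]⟩] (.ddet 1 [⟨1, [(0, 1)]⟩, ⟨1, [(9, 1)]⟩] (.ndet 1 [⟨1, [(0, 1)]⟩, ⟨1, [(9, 1)]⟩, ⟨1, [(8, 1)]⟩] (.ddet 2 [⟨1, [(0, 1)]⟩, ⟨1, [(0, 1)]⟩] (.ndet 2 [⟨1, [(0, 1)]⟩, ⟨1, [(0, 1)]⟩, ⟨1, [(9, 1)]⟩] (.ddet 2 [⟨1, []⟩, ⟨1, []⟩] (.leaf 0 [⟨1, [(0, 1)]⟩, ⟨1, [(0, 1)]⟩, ⟨1, []⟩, ⟨1, [(0, 1)]⟩, ⟨1, [(0, 1)]⟩, ⟨1, [(0, 1)]⟩, ⟨1, [(0, 1)]⟩, ⟨1, [(0, 1)]⟩, ⟨1,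 [(0, 1)]⟩, ⟨1, [(0, 1)]⟩, ⟨1, []⟩])))))))⟩
def s30_7 : Sys := ⟨[(1, -32), (2, 0), (3, 32), (4, -16)], [(0, -16), (1, 0), (2, 32)], 4, [s30_7_n0], [80, -32, -32, 48], (.leaf 0 [⟨1, []⟩, ⟨1, []⟩, ⟨1, []⟩, ⟨1, []⟩, ⟨1, []⟩, ⟨1, []⟩, ⟨1, []⟩, ⟨1, []⟩, ⟨1, []⟩, ⟨1, []⟩])⟩

theorem s30_7_ok : s30_7.ok = true := by decide +kernel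

def s31_3_n0 : Node := ⟨[⟨[0, 1], -40⟩, ⟨[-1, 1], 8⟩, ⟨[0, 1, -1], 16⟩, ⟨[0, 1, 0, -1], -16⟩, ⟨[-1], 80⟩, ⟨[0, 1], -16⟩, ⟨[-1, 1], 88⟩, ⟨[0, 1, -1], 32⟩], [0, 1], 0, none, (.ndet 2 [⟨1, [(2, 1)]⟩, ⟨1, [(1, 1)]⟩, ⟨1, [(0, 1)]⟩, ⟨1, [(4, 1)]⟩] (.ddet 0 [⟨1, [(3, 1)]⟩] (.ndet 3 [⟨1, [(2, 1)]⟩, ⟨1, []⟩, ⟨1, [(1, 1)]⟩, ⟨1, [(0, 1)]⟩] (.ddet 1 [⟨1, [(2, 1)]⟩] (.leaf 0 [⟨1, [(2, 1)]⟩, ⟨1, [(2, 1)]⟩, ⟨1, [(1, 1)]⟩, ⟨1, []⟩, ⟨1, []⟩, ⟨1, [(2, 1)]⟩, ⟨1, [(2, 1)]⟩, ⟨1, [(1, 1)]⟩, ⟨1, []⟩])))))⟩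
def s31_3 : Sys := ⟨[(0, -48), (1, -48), (2, 64), (3, 16), (4, 0)], [(0, 16), (1, 80)], 4, [s31_3_n0], [-96, 32, -48, 0], (.leaf 0 [⟨1, []⟩, ⟨1, []⟩, ⟨1, []⟩, ⟨1, []⟩, ⟨1, []⟩, ⟨1, []⟩, ⟨1, []⟩, ⟨1, []⟩])⟩

theorem s31_3_ok : s31_3.ok = true := by decide +kernel

def s31_15_n0 : Node := ⟨[⟨[1], 88⟩, ⟨[1, -1], 64⟩, ⟨[1, 0, -1], 88⟩, ⟨[1, 0, 0, -1], 80⟩, ⟨[1], 72⟩, ⟨[1, 0, -1], 80⟩, ⟨[1, -1], 72⟩, ⟨[1, 0, -1], 96⟩, ⟨[1], 80⟩, ⟨[1], 64⟩, ⟨[1], 56⟩], [1], 0, none, (.ndet 1 [⟨1, [(10, 1)]⟩, ⟨1, [(4, 1)]⟩, ⟨1, [(3, 1)]⟩, ⟨1, [(7, 1)]⟩] (.ddet 1 [⟨1, [(10, 1)]⟩, ⟨1, [(4, 1)]⟩, ⟨1, [(3, 1)]⟩] (.ndet 2 [⟨1, [(10, 1)]⟩, ⟨1, [(10, 1)]⟩, ⟨1, [(4,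 1)]⟩, ⟨1, [(3, 1)]⟩] (.ddet 2 [⟨1, [(10, 1)]⟩, ⟨1, [(10, 1)]⟩, ⟨1, [(4, 1)]⟩] (.ndet 3 [⟨1, [(10, 1)]⟩, ⟨1, [(10, 1)]⟩, ⟨1, [(10, 1)]⟩, ⟨1, [(4, 1)]⟩] (.ddet 3 [⟨1, [(10, 1)]⟩, ⟨1, [(10, 1)]⟩, ⟨1, [(10, 1)]⟩] (.ndet 4 [⟨1, [(10, 1)]⟩, ⟨1, [(10, 1)]⟩, ⟨1, [(10, 1)]⟩, ⟨1, [(10, 1)]⟩] (.ddet 1 [⟨1, []⟩, ⟨1, []⟩, ⟨1, []⟩] (.leaf 0 [⟨1, [(10, 1)]⟩, ⟨1, [(10, 1)]⟩, ⟨1, [(10, 1)]⟩, ⟨1, [(10, 1)]⟩, ⟨1, [(10, 1)]⟩, ⟨1, [(10, 1)]⟩, ⟨1, [(10, 1)]⟩, ⟨1, [(10, 1)]⟩, ⟨1, [(10, 1)]⟩, ⟨1, [(10, 1)]⟩, ⟨1, [(10, 1)]⟩, ⟨1, []⟩])))))))))⟩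
def s31_15 : Sys := ⟨[(0, 16), (1, -16), (2, -16), (3, 0), (4, 16)], [(0, -16), (1, -16), (2, -16), (3, -16)], 4, [s31_15_n0], [144, 16, -16, 16], (.leaf 0 [⟨1, []⟩, ⟨1, []⟩, ⟨1, []⟩, ⟨1, []⟩, ⟨1, []⟩, ⟨1, []⟩, ⟨1, []⟩, ⟨1, []⟩, ⟨1, []⟩, ⟨1, []⟩, ⟨1, []⟩])⟩

theorem s31_15_ok : s31_15.ok = true := by decide +kernel

end Pool.Agent.H81.RDE.Data
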