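import Pool.Agent.H81.RDE.System

/-! Data file (generated): certificates. -/

set_option maxRecDepth 100000

namespace Pool.Agent.H81.RDE.Data

def s6_16_t0 : Tree := .nbr (.cons (.ddet 0 [] (.leaf 0 [⟨723192, [(9, 48993), (5, 908), (3, 49551), (0, 1077896)]⟩, ⟨1, [(0, 1)]⟩, ⟨253360, [(7, 1771), (5, 3151), (3, 290), (2, 697320)]⟩, ⟨126680, [(7, 70167), (5, 119907), (3, 29730), (2, 122800)]⟩, ⟨886760, [(7, 974901), (5, 1328201), (3, 207350), (2, 351360)]⟩, ⟨602660, [(9, 113930), (7, 294007), (5, 454227), (0, 249380)]⟩, ⟨180798, [(9, 34254), (7, 183411), (5, 232651), (0, 125638)]⟩, ⟨301330, [(9, 198211), (7, 74240), (3, 254801), (0, 129430)]⟩, ⟨361596, [(9, 430769),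 (7, 86740), (3, 498527), (0, 256964)]⟩, ⟨723192, [(9, 170082), (7, 550143), (5, 281155), (0, 953728)]⟩, ⟨3615960, [(9, 851910), (7, 4654893), (5, 3333433), (0, 5785120)]⟩, ⟨3615960, [(9, 750), (7, 590493), (5, 602233), (0, 508240)]⟩])) (.cons (.ddet 0 [] (.leaf 0 [⟨723192, [(9, 48993), (5, 908), (3, 49551), (1, 1077896)]⟩, ⟨1, [(1, 1)]⟩, ⟨602660, [(9, 57713), (5, 1200), (3, 57123), (0, 210880)]⟩, ⟨3615960, [(7, 2115909), (5, 3531289), (3, 845910), (1, 750400480)]⟩, ⟨1205320, [(7, 1340529), (5, 1820149), (3, 281470), (1, 250472320)]⟩, ⟨602660, [(9, 407937), (5, 160220), (3, 294007), (1, 167788860)]⟩, ⟨180798, [(9, 217665), (5, 49240), (3, 183411), (1, 50387482)]⟩, ⟨301330,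 [(7, 272451), (5, 198211), (3, 56590), (0, 83640310)]⟩, ⟨361596, [(7, 517509), (5, 430769), (3, 67758), (0, 100266724)]⟩, ⟨723192, [(9, 170082), (7, 550143), (5, 281155), (0, 149470208)]⟩, ⟨3615960, [(9, 851910), (7, 4654893), (5, 3333433), (0, 746334560)]⟩, ⟨3615960, [(9, 750), (7, 590493), (5, 602233), (1, 508240)]⟩])) .nil))
def s6_16_t1 : Tree := .ddet 0 [] (.ndet 0 [⟨443380, [(7, 32257), (3, 1280), (1, 32067), (0, 316320)]⟩] (.ddet 0 [] (.ndet 0 [⟨10, [(7, 1), (1, 1)]⟩] (.ddet 0 [] (.ndet 0 [⟨316320, [(10, 443380), (7, 190), (5, 19361), (3, 20641)]⟩] (.ddet 0 [] (.split [-1, 0, 0, 1] (0) (.leaf 0 [⟨316320, [(11, 443380), (8, 190), (6, 50993), (4, 52273)]⟩, ⟨316320,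 [(11, 443380), (8, 190), (6, 19361), (4, 20641)]⟩, ⟨1, [(0, 1)]⟩, ⟨1205320, [(8, 623249), (6, 714460), (2, 728439), (0, 4057640)]⟩, ⟨723192, [(8, 759781), (6, 423980), (2, 822595), (0, 3677672)]⟩, ⟨1205320, [(6, 669623), (4, 745083), (2, 359650), (0, 2975440)]⟩, ⟨3615960, [(6, 3914547), (4, 4164407), (2, 1077450), (0, 15141760)]⟩, ⟨241064, [(8, 72230), (6, 174981), (4, 164585), (0, 648000)]⟩, ⟨3615960, [(8, 1084950), (6, 4528893), (4, 4396433), (0, 15935440)]⟩, ⟨1205320, [(8, 106690), (6, 461279), (4, 1199219), (0, 2157800)]⟩, ⟨723192, [(8, 64314), (6, 657603), (4, 1105063), (0, 2537768)]⟩, ⟨3615960, [(8, 591243), (4, 11740), (2, 590493), (0, 3107720)]⟩]) s6_16_t0)))))))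
def s6_16_t2 : Tree := .ddet 0 [] (.ndet 0 [⟨443380, [(9, 316320), (7, 32257), (3, 1280), (1, 32067)]⟩] (.ddet 0 [] (.ndet 0 [⟨10, [(7, 1), (1, 1)]⟩] (.ddet 0 [] (.ndet 0 [⟨10, [(5, 1), (3, 1), (0, 10)]⟩] (.ddet 0 [] (.ndet 0 [⟨1773520, [(7, 2790), (5, 113841), (3, 109301), (0, 1842440)]⟩] (.ddet 0 [] (.leaf 0 [⟨1773520, [(7, 2790), (5, 291193), (3, 286653), (0, 3615960)]⟩, ⟨1773520, [(7, 2790), (5, 113841), (3, 109301), (0, 1842440)]⟩, ⟨253360, [(9, 443960), (5, 1771), (3, 3151), (1, 290)]⟩, ⟨126680, [(5, 70167), (3, 119907), (1, 29730), (0, 18879200)]⟩, ⟨886760, [(5, 974901), (3, 1328201), (1, 207350), (0, 132662640)]⟩, ⟨1773520, [(9, 135064760), (7, 336430), (5,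 912317), (3, 1381937)]⟩, ⟨1773520, [(9, 134048280), (7, 337950), (5, 1878261), (3, 2358121)]⟩, ⟨50672, [(7, 34707), (5, 12540), (1, 44189), (0, 3946120)]⟩, ⟨1773520, [(7, 2192449), (5, 428660), (1, 2522799), (0, 139130680)]⟩, ⟨886760, [(9, 130629680), (7, 210390), (5, 749637), (3, 416817)]⟩, ⟨886760, [(9, 130121440), (7, 211150), (5, 1232609), (3, 904909)]⟩, ⟨88676, [(7, 38), (5, 15281), (3, 15537), (0, 25412)]⟩])))))))))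
def s6_16_t3 : Tree := .ddet 0 [] (.ndet 1 [⟨1, [(9, 1)]⟩] (.ddet 0 [] (.nbr (.cons (.ddet 0 [] (.ndet 0 [⟨1773520, [(7, 60721), (3, 4540), (1, 63511), (0, 1842440)]⟩] s6_16_t1)) (.cons (.ddet 0 [] (.ndet 0 [⟨1773520, [(9, 68920), (5, 60721), (3, 65261), (1, 2790)]⟩] s6_16_t2)) .nil)))))
def s6_16_t4 : Tree := .ndet 1 [⟨1, [(8, 1)]⟩] (.ddet 0 [] (.ndet 1 [⟨1773520, [(8, 68920), (4, 60721), (2, 65261), (0, 2790)]⟩] (.ddet 0 [] (.ndet 1 [⟨1773520, [(8, 1196360), (6, 3550), (4, 64757), (2, 65337)]⟩] (.ddet 0 [] (.ndet 1 [⟨632640, [(9, 598180), (6, 22599), (2, 1520), (0, 23609)]⟩] (.ddet 0 [] (.ndet 1 [⟨632640, [(9, 288580), (6, 16503), (2, 1040), (0, 15113)]⟩] s6_16_t3))))))))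
def s6_16_n0 : Node := ⟨[⟨[0, 1, 0, -1], -200⟩, ⟨[0, 1, -1], -200⟩, ⟨[-1, 1], -200⟩, ⟨[-208, 61, 454, -512], 34891897⟩, ⟨[-208, 63, 454, -512], 56568746⟩, ⟨[-278, 515, -279, -76], 29595416⟩, ⟨[-278, 517, -279, -76], 51271665⟩, ⟨[278, -509, 279, 76], 35127931⟩, ⟨[278, -507, 279, 76], 56805381⟩, ⟨[208, -55, -454, 512], 29831451⟩, ⟨[208, -53, -454, 512], 51508300⟩], [0, 1], 0, none, s6_16_t4⟩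
def s6_16 : Sys := ⟨[(1, -1000), (2, 0)], [(4, -1000)], 4, [s6_16_n0], [13399870, 16089790, 13836223, 8639653], (.leaf 0 [⟨1, []⟩, ⟨1, []⟩, ⟨1, []⟩, ⟨1, []⟩, ⟨1, []⟩, ⟨1, []⟩, ⟨1, []⟩, ⟨1, []⟩, ⟨1, []⟩, ⟨1, []⟩, ⟨1, []⟩])⟩

theorem s6_16_ok : s6_16.ok = true := by decide +kernel

def s7_10_n0 : Node := ⟨[⟨[1], 32⟩, ⟨[1, -1], 64⟩, ⟨[1, 0, -1], 0⟩, ⟨[1], 16⟩, ⟨[0, -1], 0⟩], [1], 0, none, (.ndet 1 [⟨1, [(4, 1)]⟩, ⟨1, [(3, 1)]⟩] (.ddet 0 [⟨1, [(2, 1)]⟩] (.ndet 2 [⟨1, [(4, 1)]⟩, ⟨1, [(4, 1)]⟩] (.ddet 0 [⟨1, [(0, 1)]⟩] (.leaf 0 [⟨1, [(4, 1)]⟩, ⟨1, [(4, 1)]⟩, ⟨1, []⟩, ⟨1, [(4, 1)]⟩, ⟨1, []⟩, ⟨1, []⟩])))))⟩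
def s7_10 : Sys := ⟨[(0, -32), (1, -16), (2, 16)], [(1, 0), (3, -32)], 3, [s7_10_n0], [80, -16, 48, 0], (.leaf 0 [⟨1, []⟩, ⟨1, []⟩, ⟨1, []⟩, ⟨1, []⟩, ⟨1, []⟩])⟩

theorem s7_10_ok : s7_10.ok = true := by decide +kernel

def s7_16_t0 : Tree := .ddet 0 [] (.ndet 1 [⟨359574, [(6, 981242), (5, 15211), (4, 806), (2, 16151)]⟩, ⟨359574, [(6, 262810), (5, 31655), (3, 218), (2, 32293)]⟩] (.ddet 0 [] (.ndet 1 [⟨179787, [(6, 670050), (4, 30154), (3, 29239), (2, 621)]⟩, ⟨359574, [(6, 358858), (5, 43267), (4, 1024), (2, 43569)]⟩] (.ddet 0 [] (.ndet 1 [⟨179787, [(6, 179429), (5, 51598), (4, 512), (2, 51749)]⟩, ⟨179787, [(5, 470), (4, 21486), (3, 21889), (0, 490621)]⟩] (.ddet 0 []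 (.ndet 1 [⟨3, [(5, 1), (2, 1), (0, 3)]⟩, ⟨179787, [(5, 7819), (3, 512), (2, 7668), (0, 359216)]⟩] (.ddet 0 [] (.leaf 0 [⟨59929, [(5, 9925), (3, 305), (2, 9718), (0, 283279)]⟩, ⟨179787, [(5, 7819), (3, 512), (2, 7668), (0, 359216)]⟩, ⟨359574, [(6, 981242), (5, 15211), (4, 806), (2, 16151)]⟩, ⟨359574, [(5, 60178), (4, 221007), (3, 355997), (0, 11837570)]⟩, ⟨179787, [(5, 120561), (4, 113488), (3, 94837), (0, 64779201)]⟩, ⟨179787, [(6, 63700479), (5, 125525), (3, 18651), (2, 246086)]⟩, ⟨359574, [(6, 9680126), (5, 302973), (4, 134990), (2, 363151)]⟩, ⟨6, [(5, 1), (2, 1), (0, 6)]⟩])))))))))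
def s7_16_t1 : Tree := .ndet 2 [⟨179787, [(5, 470), (4, 21486), (3, 21889), (0, 490621)]⟩, ⟨179787, [(5, 319), (4, 13818), (3, 13709), (0, 131405)]⟩] (.ddet 0 [] (.ndet 2 [⟨179787, [(5, 7819), (3, 512), (2, 7668), (0, 359216)]⟩, ⟨359574, [(6, 262810), (5, 31655), (3, 218), (2, 32293)]⟩] (.ddet 0 [] (.ndet 0 [⟨359574, [(6, 358858), (5, 43267), (4, 1024), (2, 43569)]⟩, ⟨359574, [(6, 981242), (5, 15211), (4, 806), (2, 16151)]⟩] (.ddet 0 [] (.ndet 0 [⟨179787, [(5, 470), (4, 21486), (3, 21889), (0, 490621)]⟩, ⟨359574, [(6, 358858), (5, 43267), (4, 1024), (2, 43569)]⟩] (.ddet 0 [] (.ndet 0 [⟨179787, [(5, 7819), (3, 512), (2, 7668), (0, 359216)]⟩, ⟨179787, [(5, 470), (4,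 21486), (3, 21889), (0, 490621)]⟩] s7_16_t0))))))))
def s7_16_t2 : Tree := .nbr (.cons (.ddet 0 [] (.ndet 1 [⟨538824, [(9, 44279), (7, 120), (6, 45296), (2, 466251)]⟩, ⟨538824, [(9, 44279), (7, 120), (6, 45296), (1, 72573)]⟩] (.ddet 0 [] (.ndet 1 [⟨1077648, [(9, 243413), (8, 1296), (6, 245900), (2, 393141)]⟩, ⟨1077648, [(9, 154615), (8, 1536), (6, 155068), (1, 539361)]⟩] (.ddet 0 [] (.ndet 1 [⟨1077648, [(9, 334223), (8, 1536), (6, 334676), (1, 539361)]⟩, ⟨179608, [(9, 339), (8, 14836), (7, 14796), (1, 155417)]⟩] (.ddet 0 [] (.leaf 0 [⟨1077648, [(9, 1581), (8, 245620), (7, 243844), (1, 1471863)]⟩, ⟨179608, [(9, 339), (8, 14836), (7, 14796), (1, 155417)]⟩, ⟨1, [(2, 1)]⟩,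 ⟨48984, [(9, 4971), (8, 51092), (7, 32588), (2, 12959079)]⟩, ⟨1077648, [(9, 394489), (8, 183024), (6, 1119892), (1, 17834655)]⟩, ⟨1077648, [(9, 722685), (8, 714356), (7, 888164), (2, 14598489)]⟩, ⟨67353, [(9, 48823), (7, 24867), (6, 55828), (1, 18020994)]⟩, ⟨1077648, [(9, 154615), (8, 1536), (6, 155068), (1, 539361)]⟩])))))))) (.cons (.ddet 0 [] (.ndet 1 [⟨538824, [(9, 44279), (7, 120), (6, 45296), (1, 1005075)]⟩, ⟨538824, [(9, 44279), (7, 120), (6, 45296), (1, 466251)]⟩] (.ddet 0 [] (.ndet 1 [⟨1077648, [(9, 243413), (8, 1296), (6, 245900), (1, 1470789)]⟩, ⟨1076574, [(11, 1078722), (9, 129443), (8, 3072), (6, 130349)]⟩] (.ddet 0 [] (.ndet 1 [⟨1077648, [(9, 334223),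 (8, 1536), (6, 334676), (1, 538287)]⟩, ⟨179429, [(11, 310834), (9, 208), (8, 8186), (7, 7703)]⟩] (.ddet 0 [] (.leaf 0 [⟨1076574, [(11, 2943726), (9, 342), (8, 182537), (7, 176567)]⟩, ⟨179429, [(11, 310834), (9, 208), (8, 8186), (7, 7703)]⟩, ⟨1, [(1, 1)]⟩, ⟨48984, [(9, 4971), (8, 51092), (7, 32588), (1, 27303)]⟩, ⟨1077648, [(9, 394489), (8, 183024), (6, 1119892), (1, 1563009)]⟩, ⟨1077648, [(9, 722685), (8, 714356), (7, 888164), (1, 1666713)]⟩, ⟨67353, [(9, 48823), (7, 24867), (6, 55828), (1, 164316)]⟩, ⟨1077648, [(9, 154615), (8, 1536), (6, 155068), (1, 538287)]⟩])))))))) (.cons (.prune [(9, 15135), (8, 40), (6, 14796), (1, 24191), (0, 155417)]) .nil)))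
def s7_16_t3 : Tree := .split [-1, 0, 1] (3000) (.leaf 0 [⟨1077648, [(8, 1581), (7, 245620), (6, 243844), (2, 394215)]⟩, ⟨179608, [(8, 339), (7, 14836), (6, 14796), (2, 155417)]⟩, ⟨1, [(0, 1)]⟩, ⟨48984, [(8, 4971), (7, 51092), (6, 32588), (0, 25107111)]⟩, ⟨1077648, [(8, 394489), (7, 183024), (5, 1119892), (0, 164287857)]⟩, ⟨1077648, [(8, 722685), (7, 714356), (6, 888164), (2, 161058135)]⟩, ⟨67353, [(8, 48823), (6, 24867), (5, 55828), (2, 34320420)]⟩, ⟨1077648, [(8, 154615), (7, 1536), (5, 155068), (0, 538287)]⟩]) (.nbr (.cons (.prune [(10, 334223), (9, 1536), (7, 334676), (1, 538287), (0, 539361)]) (.cons (.ddet 0 [] (.leaf 0 [⟨179608, [(10, 15135), (9, 40), (7, 14796),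 (2, 335025)]⟩, ⟨1, [(2, 1)]⟩, ⟨359574, [(10, 15211), (9, 806), (7, 16151), (5, 621668)]⟩, ⟨179608, [(10, 29763), (9, 95360), (8, 161784), (2, 352481)]⟩, ⟨269412, [(10, 180513), (9, 162524), (8, 134072), (2, 176751)]⟩, ⟨538824, [(10, 321203), (8, 52296), (7, 683588), (2, 1264581)]⟩, ⟨44902, [(10, 35669), (9, 16990), (7, 43223), (2, 46720)]⟩, ⟨1077648, [(10, 154615), (9, 1536), (7, 155068), (2, 539361)]⟩])) (.cons (.ddet 0 [] (.leaf 0 [⟨179608, [(10, 15135), (9, 40), (7, 14796), (2, 335025)]⟩, ⟨1, [(2, 1)]⟩, ⟨538824, [(10, 44279), (8, 120), (7, 45296), (2, 72573)]⟩, ⟨179608, [(10, 125123), (8, 66424), (7, 95360), (2, 87103145)]⟩, ⟨269412, [(10, 180513), (9, 162524),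 (8, 134072), (0, 55860945)]⟩, ⟨538824, [(10, 321203), (8, 52296), (7, 683588), (2, 113339973)]⟩, ⟨44902, [(10, 35669), (9, 16990), (7, 43223), (0, 21640946)]⟩, ⟨1077648, [(10, 154615), (9, 1536), (7, 155068), (2, 539361)]⟩])) .nil))))
def s7_16_t4 : Tree := .ddet 0 [] (.ndet 0 [⟨1, [(1, 1)]⟩, ⟨179608, [(7, 339), (6, 14836), (5, 14796), (1, 155417)]⟩] (.ddet 0 [] (.ndet 1 [⟨359574, [(7, 15211), (6, 806), (4, 16151), (2, 621668)]⟩, ⟨538824, [(7, 44279), (5, 120), (4, 45296), (1, 72573)]⟩] (.ddet 0 [] (.ndet 1 [⟨179787, [(7, 29239), (6, 915), (4, 29860), (2, 490263)]⟩, ⟨359574, [(7, 43267), (6, 1024), (4, 43569), (2, 358858)]⟩] (.ddet 0 [] (.ndet 1 [⟨179787, [(7, 51598),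 (6, 512), (4, 51749), (2, 179429)]⟩, ⟨179608, [(7, 339), (6, 14836), (5, 14796), (1, 155417)]⟩] (.ddet 0 [] s7_16_t3))))))))
def s7_16_t5 : Tree := .nbr (.cons (.ddet 0 [] (.ndet 0 [⟨1076574, [(9, 1078722), (7, 129443), (6, 3072), (4, 130349)]⟩, ⟨538824, [(7, 44279), (5, 120), (4, 45296), (0, 466251)]⟩] (.ddet 0 [] (.ndet 0 [⟨179429, [(9, 310834), (7, 208), (6, 8186), (5, 7703)]⟩, ⟨1076574, [(9, 1078722), (7, 129443), (6, 3072), (4, 130349)]⟩] (.ddet 0 [] s7_16_t2))))) (.cons (.prune [(7, 44279), (5, 120), (4, 45296), (1, 72573), (0, 466251)]) (.cons (.ddet 0 [] (.ndet 0 [⟨359574, [(7, 43267), (6, 1024), (4, 43569), (2, 358858)]⟩, ⟨359574, [(7, 15211), (6, 806), (4,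 16151), (2, 621668)]⟩] (.ddet 0 [] (.ndet 0 [⟨179608, [(7, 339), (6, 14836), (5, 14796), (1, 155417)]⟩, ⟨359574, [(7, 43267), (6, 1024), (4, 43569), (2, 358858)]⟩] s7_16_t4)))) .nil)))
def s7_16_t6 : Tree := .nbr (.cons (.prune [(5, 1), (2, 1), (0, 6)]) (.cons (.ddet 0 [] (.ndet 2 [⟨6, [(5, 1), (2, 1), (0, 6)]⟩, ⟨359574, [(6, 621668), (5, 15211), (4, 806), (2, 16151)]⟩] (.ddet 0 [] s7_16_t1))) (.cons (.ddet 0 [] (.ndet 2 [⟨1076574, [(7, 1078722), (5, 129443), (4, 3072), (2, 130349)]⟩, ⟨359574, [(5, 15211), (4, 806), (2, 16151), (0, 262094)]⟩] (.ddet 0 [] (.ndet 2 [⟨179429, [(7, 310834), (5, 208), (4, 8186), (3, 7703)]⟩, ⟨179787, [(5, 319), (4, 13818), (3, 13709), (0,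 48382)]⟩] (.ddet 0 [] s7_16_t5))))) .nil)))
def s7_16_n0 : Node := ⟨[⟨[0, 1, 0, -1], -200⟩, ⟨[0, 1, -1], -200⟩, ⟨[-1, 1], -200⟩, ⟨[-483, 328, 403, -512], 61286400⟩, ⟨[208, -509, 470, -151], 60927300⟩, ⟨[-208, 515, -470, 151], 61645500⟩, ⟨[483, -322, -403, 512], 61286400⟩], [0, 1], 0, none, s7_16_t6⟩
def s7_16 : Sys := ⟨[(0, 4000), (1, 1000), (2, 1000)], [(4, 1000)], 4, [s7_16_n0], [29231159, 29725266, 22252243, 8817956], (.leaf 0 [⟨1, []⟩, ⟨1, []⟩, ⟨1, []⟩, ⟨1, []⟩, ⟨1, []⟩, ⟨1, []⟩, ⟨1, []⟩])⟩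

theorem s7_16_ok : s7_16.ok = true := by decide +kernel

def s9_2_t0 : Tree := .ddet 0 [] (.ndet 1 [⟨1, [(12, 1), (7, 1), (0, 1)]⟩] (.ddet 0 [] (.ndet 0 [⟨1, [(12, 1), (7, 1), (0, 1)]⟩] (.ddet 0 [] (.ndet 1 [⟨1, [(12, 1), (10, 1), (7, 1), (0, 2)]⟩] (.ddet 0 [] (.split [0, -1] (48000) (.leaf 0 [⟨1, [(13, 2), (8, 2), (1, 2)]⟩, ⟨1, [(0, 1)]⟩, ⟨1, [(13, 1), (11, 1), (8, 1), (1, 2)]⟩, ⟨1, [(22, 1), (8, 1), (1, 1)]⟩, ⟨1, [(22, 1), (8, 1), (1, 1)]⟩, ⟨1, [(22, 1), (8, 1), (1, 1)]⟩, ⟨1, [(22, 1), (8, 1), (1, 1)]⟩, ⟨1, [(13, 2), (8, 2), (1, 2)]⟩, ⟨1, [(22, 1), (8, 1), (1, 1)]⟩, ⟨1, []⟩, ⟨1, []⟩, ⟨1, []⟩, ⟨1, []⟩, ⟨1, []⟩, ⟨1, [(13, 1), (8, 1), (1, 1)]⟩, ⟨1, [(22, 1), (8, 1),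 (1, 1)]⟩, ⟨1, []⟩, ⟨1, [(11, 1), (1, 1)]⟩, ⟨1, [(11, 1), (1, 1)]⟩, ⟨1, [(11, 1), (1, 1)]⟩, ⟨1, [(11, 1), (1, 1)]⟩, ⟨1, [(11, 1), (1, 1)]⟩, ⟨1, []⟩]) (.leaf 3 [⟨1, [(22, 2), (8, 2), (1, 2), (0, 3)]⟩, ⟨1, [(22, 1), (8, 1), (1, 1), (0, 3)]⟩, ⟨1, [(22, 1), (8, 1), (1, 1), (0, 1)]⟩, ⟨1, [(0, 1)]⟩, ⟨1, []⟩, ⟨1, []⟩, ⟨1, []⟩, ⟨1, []⟩, ⟨1, [(22, 1), (8, 1), (1, 1), (0, 2)]⟩, ⟨1, []⟩, ⟨1, []⟩, ⟨1, []⟩, ⟨1, []⟩, ⟨1, []⟩, ⟨1, []⟩, ⟨1, []⟩, ⟨1, []⟩, ⟨1, []⟩, ⟨1, []⟩, ⟨1, [(0, 1)]⟩]))))))))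
def s9_2_t1 : Tree := .nbr (.cons (.ddet 0 [] (.leaf 2 [⟨2, [(21, 1), (18, 1), (7, 2), (0, 1)]⟩, ⟨2, [(21, 1), (18, 1), (7, 2), (0, 5)]⟩, ⟨1, [(21, 1), (18, 1), (7, 2), (0, 2)]⟩, ⟨1, [(0, 1)]⟩, ⟨2, [(21, 1), (18, 1), (7, 2), (0, 3)]⟩, ⟨2, [(21, 1), (18, 1), (7, 2), (0, 3)]⟩, ⟨2, [(21, 1), (18, 1), (7, 2), (0, 3)]⟩, ⟨1, []⟩, ⟨1, []⟩, ⟨2, [(21, 1), (18, 1), (7, 2), (0, 3)]⟩, ⟨2, [(21, 1), (18, 1), (7, 2), (0, 5)]⟩, ⟨1, []⟩, ⟨1, []⟩, ⟨2, [(21, 1), (18, 1), (7, 2), (0, 3)]⟩, ⟨1, []⟩, ⟨1, []⟩, ⟨2, [(21, 1), (18, 1), (7, 2), (0, 5)]⟩, ⟨1, []⟩, ⟨1, []⟩, ⟨2, [(21, 1), (18, 1), (7, 2), (0, 3)]⟩, ⟨1, [(21, 1), (18, 1), (7, 2), (0, 2)]⟩, ⟨1, []⟩, ⟨1, []⟩, ⟨1, []⟩, ⟨2, [(21, 3),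 (18, 3), (7, 6), (0, 5)]⟩, ⟨1, [(0, 1)]⟩])) (.cons (.ddet 0 [] (.split [2, 0, -2] (-80000) (.leaf 0 [⟨1, [(21, 1), (8, 1), (0, 1)]⟩, ⟨1, [(21, 1), (8, 1)]⟩, ⟨1, [(0, 1)]⟩, ⟨2, [(21, 4), (8, 4), (0, 1)]⟩, ⟨1, [(21, 1), (8, 1), (0, 1)]⟩, ⟨2, [(21, 2), (8, 2), (0, 1)]⟩, ⟨1, [(21, 1), (8, 1)]⟩, ⟨1, [(21, 1), (8, 1), (0, 1)]⟩, ⟨1, [(21, 1), (8, 1)]⟩, ⟨2, [(0, 1)]⟩, ⟨1, []⟩, ⟨2, [(0, 1)]⟩, ⟨1, [(2, 1)]⟩, ⟨1, []⟩, ⟨2, [(21, 2), (8, 2), (0, 1)]⟩, ⟨1, [(21, 2), (8, 2)]⟩, ⟨1, [(2, 1)]⟩, ⟨2, [(0, 1)]⟩, ⟨1, []⟩, ⟨2, [(0, 1)]⟩, ⟨1, []⟩, ⟨1, [(2, 1)]⟩, ⟨2, [(0, 1)]⟩]) (.leaf 2 [⟨1, [(21, 1), (8, 1)]⟩, ⟨1, [(21, 1), (8, 1), (0, 1)]⟩, ⟨2, [(21, 4), (8, 4), (0, 1)]⟩, ⟨1, [(0, 1)]⟩,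 ⟨1, [(21, 1), (8, 1), (0, 1)]⟩, ⟨2, [(21, 2), (8, 2), (0, 1)]⟩, ⟨1, [(21, 1), (8, 1)]⟩, ⟨2, [(0, 1)]⟩, ⟨1, []⟩, ⟨1, [(21, 1), (8, 1)]⟩, ⟨2, [(21, 2), (8, 2), (0, 3)]⟩, ⟨2, [(0, 1)]⟩, ⟨1, [(1, 1)]⟩, ⟨1, [(21, 1), (8, 1), (0, 1)]⟩, ⟨2, [(0, 1)]⟩, ⟨1, []⟩, ⟨1, [(21, 1), (8, 1), (0, 1)]⟩, ⟨1, []⟩, ⟨1, [(1, 1)]⟩, ⟨2, [(21, 2), (8, 2), (0, 1)]⟩, ⟨1, [(21, 2), (8, 2)]⟩, ⟨2, [(0, 1)]⟩, ⟨1, []⟩, ⟨1, [(1, 1)]⟩, ⟨1, [(21, 3), (8, 3)]⟩, ⟨2, [(0, 1)]⟩]))) .nil))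
def s9_2_t2 : Tree := .ddet 0 [] (.ndet 1 [⟨1, [(18, 1), (5, 1)]⟩] (.ddet 0 [] (.nbr (.cons (.ddet 0 [] (.ndet 1 [⟨1, [(0, 1)]⟩] (.ddet 0 [] (.leaf 0 [⟨1, [(19, 1), (6, 1), (0, 1)]⟩, ⟨1, [(12, 1), (1, 1)]⟩, ⟨1, [(0, 1)]⟩, ⟨1, [(18, 1), (6, 1), (1, 1)]⟩, ⟨1, [(19, 1), (6, 1)]⟩, ⟨1, [(19, 1), (6, 1)]⟩, ⟨1, [(19, 1), (6, 1)]⟩, ⟨1, [(19, 1), (6, 1), (0, 1)]⟩, ⟨1, [(19, 1), (6, 1)]⟩, ⟨1, []⟩, ⟨1, []⟩, ⟨1, []⟩, ⟨1, []⟩, ⟨1, []⟩, ⟨1, [(19, 1), (6, 1)]⟩, ⟨1, [(18, 1), (6, 1), (1, 1)]⟩, ⟨1, []⟩, ⟨1, []⟩, ⟨1, []⟩, ⟨1, []⟩, ⟨1, []⟩, ⟨1, []⟩, ⟨1, []⟩])))) (.cons (.ddet 0 [] s9_2_t1) .nil)))))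
def s9_2_t3 : Tree := .ddet 0 [] (.ndet 1 [⟨1, [(18, 1), (5, 1)]⟩] (.ddet 0 [] (.ndet 0 [⟨1, [(19, 1), (3, 1), (0, 1)]⟩] (.ddet 0 [] (.ndet 1 [⟨1, [(19, 1), (3, 1), (0, 2)]⟩] (.ddet 0 [] (.split [0, -1, 1] (80000) (.leaf 0 [⟨1, [(20, 1), (10, 1), (6, 1), (1, 1)]⟩, ⟨1, [(0, 1)]⟩, ⟨1, [(20, 1), (4, 1), (1, 2)]⟩, ⟨1, [(23, 1), (9, 1)]⟩, ⟨2, [(23, 1), (20, 1), (9, 1), (4, 1)]⟩, ⟨2, [(23, 1), (20, 1), (9, 1), (4, 1)]⟩, ⟨2, [(23, 1), (20, 1), (9, 1), (4, 1)]⟩, ⟨1, [(20, 1), (10, 1), (6, 1), (1, 1)]⟩, ⟨2, [(23, 1), (20, 1), (9, 1), (4, 1)]⟩, ⟨1, []⟩, ⟨1, []⟩, ⟨1, []⟩, ⟨1, []⟩, ⟨1, []⟩, ⟨1, [(19, 1), (6, 1)]⟩, ⟨1, [(23, 1), (9, 1)]⟩, ⟨1, []⟩, ⟨1, [(1, 1)]⟩, ⟨1, [(1, 1)]⟩,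 ⟨1, [(1, 1)]⟩, ⟨1, [(1, 1)]⟩, ⟨1, [(1, 1)]⟩, ⟨1, []⟩]) (.leaf 3 [⟨1, [(23, 3), (11, 1), (9, 2), (0, 4)]⟩, ⟨1, [(23, 1), (9, 1), (0, 3)]⟩, ⟨1, [(23, 1), (9, 1), (0, 1)]⟩, ⟨1, [(0, 1)]⟩, ⟨1, [(23, 1), (11, 1), (0, 1)]⟩, ⟨1, [(23, 1), (11, 1), (0, 1)]⟩, ⟨1, [(23, 1), (11, 1), (0, 1)]⟩, ⟨1, [(23, 1), (11, 1), (0, 1)]⟩, ⟨1, [(23, 2), (11, 1), (9, 1), (0, 3)]⟩, ⟨1, []⟩, ⟨1, []⟩, ⟨1, []⟩, ⟨1, []⟩, ⟨1, []⟩, ⟨1, []⟩, ⟨1, [(2, 1)]⟩, ⟨1, [(2, 1)]⟩, ⟨1, [(2, 1)]⟩, ⟨1, [(2, 1)]⟩, ⟨1, [(0, 1)]⟩]))))))))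
def s9_2_n0 : Node := ⟨[⟨[1, 0, 0, 0, -1], -200⟩, ⟨[1, 0, 0, -1], -200⟩, ⟨[1, 0, -1], -200⟩, ⟨[1, -1], -200⟩, ⟨[1, -1, -1, -1, -1], 2875200⟩, ⟨[0, -1, 0, 0, -1], 2864000⟩, ⟨[0, 0, 1, 0, -1], 2875200⟩, ⟨[0, -1, 0, 1, -1], 2875200⟩, ⟨[-1, -1, 1, 1, -1], 2832000⟩, ⟨[1, 0, -1, -1], -16640⟩, ⟨[1, 1, 0, -1], 42880⟩, ⟨[0, -1, -1], -64320⟩, ⟨[0, 1, 1], 10880⟩, ⟨[-1, -1, 0, 1], -53120⟩, ⟨[0, -1, 0, 1], 2875200⟩, ⟨[0, -1, 1, 1], 2875200⟩, ⟨[-1, 0, 1, 1], -37440⟩, ⟨[1, 0, -1, 0, 1], -960⟩, ⟨[1, 1, 0, 0, 1], 58560⟩, ⟨[0, -1, -1, 1, 1], -48640⟩, ⟨[0, 0, 0, 1, 1], 10880⟩, ⟨[0, 1, 1, 1, 1], 26560⟩], [1], 0, none, (.nbr (.cons (.ddet 0 [] (.ndet 1 [⟨1, [(10, 1), (0, 1)]⟩] s9_2_t0))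 (.cons (.ddet 0 [] (.nbr (.cons s9_2_t2 (.cons s9_2_t3 .nil)))) .nil)))⟩
def s9_2_t4 : Tree := .nbr (.cons (.ddet 0 [] (.ndet 1 [⟨1, [(18, 1), (7, 1), (0, 2)]⟩] (.ddet 0 [] (.leaf 3 [⟨1, [(18, 1), (7, 1), (0, 3)]⟩, ⟨1, [(18, 2), (7, 2), (0, 3)]⟩, ⟨1, [(0, 1)]⟩, ⟨1, [(18, 1), (7, 1), (0, 1)]⟩, ⟨1, []⟩, ⟨1, []⟩, ⟨1, []⟩, ⟨1, []⟩, ⟨1, [(18, 1), (7, 1), (0, 2)]⟩, ⟨1, []⟩, ⟨1, []⟩, ⟨1, []⟩, ⟨1, []⟩, ⟨1, []⟩, ⟨1, []⟩, ⟨1, []⟩, ⟨1, []⟩, ⟨1, []⟩, ⟨1, []⟩, ⟨1, [(0, 1)]⟩])))) (.cons (.ddet 0 [] (.ndet 1 [⟨1, [(18, 1), (15, 1), (6, 1), (1, 1)]⟩] (.ddet 0 [] (.split [-2] (16000) (.leaf 1 [⟨1, [(19, 1), (16, 1), (7, 1)]⟩, ⟨1, [(0, 1)]⟩, ⟨2, [(19, 4), (16, 4), (7, 4), (0, 1)]⟩,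 ⟨2, [(19, 2), (16, 2), (7, 2), (0, 3)]⟩, ⟨2, [(19, 2), (16, 2), (7, 2), (0, 3)]⟩, ⟨2, [(0, 1)]⟩, ⟨2, [(0, 1)]⟩, ⟨1, []⟩, ⟨1, []⟩, ⟨2, [(0, 1)]⟩, ⟨1, []⟩, ⟨2, [(0, 1)]⟩, ⟨1, [(19, 1), (16, 1), (7, 1), (0, 1)]⟩, ⟨1, [(2, 1)]⟩, ⟨1, []⟩, ⟨1, [(2, 1)]⟩, ⟨1, []⟩, ⟨1, []⟩, ⟨2, [(19, 2), (16, 2), (7, 2), (0, 3)]⟩, ⟨2, [(19, 2), (16, 2), (7, 2), (0, 1)]⟩, ⟨1, [(19, 2), (16, 2), (7, 2)]⟩, ⟨1, [(2, 1)]⟩, ⟨1, [(2, 2)]⟩, ⟨2, [(0, 1)]⟩]) (.leaf 3 [⟨1, [(19, 1), (16, 1), (7, 1), (0, 1)]⟩, ⟨2, [(19, 4), (16, 4), (7, 4), (0, 1)]⟩, ⟨1, [(0, 1)]⟩, ⟨1, [(19, 1), (8, 1)]⟩, ⟨1, []⟩, ⟨1, [(1, 1)]⟩, ⟨1, []⟩, ⟨1, [(1, 2)]⟩, ⟨2, [(19, 2), (16, 2), (7, 2), (0, 1)]⟩, ⟨2, [(0, 1)]⟩, ⟨1, []⟩, ⟨2,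 [(0, 1)]⟩, ⟨1, [(1, 1)]⟩, ⟨1, []⟩, ⟨1, [(1, 1)]⟩, ⟨2, [(0, 1)]⟩, ⟨1, []⟩, ⟨2, [(0, 1)]⟩, ⟨1, []⟩, ⟨2, [(0, 1)]⟩]))))) .nil))
def s9_2_t5 : Tree := .ddet 0 [] (.nbr (.cons (.ddet 0 [] (.ndet 1 [⟨1, [(0, 1)]⟩] (.ddet 0 [] (.ndet 1 [⟨1, [(11, 1), (1, 1)]⟩] (.ddet 0 [] (.leaf 1 [⟨1, [(11, 1), (1, 1)]⟩, ⟨1, [(0, 1)]⟩, ⟨1, [(17, 1), (14, 1), (11, 1), (5, 1), (1, 1)]⟩, ⟨1, [(17, 1), (14, 1), (5, 1), (0, 1)]⟩, ⟨1, [(17, 1), (14, 1), (5, 1)]⟩, ⟨1, []⟩, ⟨1, []⟩, ⟨1, []⟩, ⟨1, []⟩, ⟨1, []⟩, ⟨1, []⟩, ⟨1, []⟩, ⟨1, [(17, 1), (14, 1), (5, 1)]⟩, ⟨1, []⟩, ⟨1, []⟩, ⟨1, []⟩, ⟨1, []⟩, ⟨1, []⟩, ⟨1, [(17, 1), (14, 1), (5, 1), (0, 1)]⟩, ⟨1, [(17, 1), (14, 1), (5, 1)]⟩, ⟨1, [(17, 1), (14,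 1), (11, 1), (5, 1), (1, 1)]⟩, ⟨1, []⟩, ⟨1, []⟩, ⟨1, []⟩])))))) (.cons (.ddet 0 [] s9_2_t4) .nil)))
def s9_2_t6 : Tree := .ddet 0 [] (.ndet 0 [⟨1, [(11, 1), (0, 1)]⟩] (.ddet 0 [] (.ndet 1 [⟨1, [(11, 1), (0, 2)]⟩] (.ddet 0 [] (.nbr (.cons (.ddet 0 [] (.leaf 4 [⟨2, [(24, 2), (14, 2), (11, 1), (5, 2), (0, 5)]⟩, ⟨2, [(24, 2), (14, 2), (11, 1), (5, 2), (0, 1)]⟩, ⟨1, [(0, 1)]⟩, ⟨1, [(24, 2), (14, 2), (11, 1), (5, 2), (0, 2)]⟩, ⟨1, []⟩, ⟨1, []⟩, ⟨1, []⟩, ⟨1, []⟩, ⟨1, []⟩, ⟨1, []⟩, ⟨1, []⟩, ⟨2, [(24, 2), (14, 2), (11, 1), (5, 2), (0, 3)]⟩, ⟨2, [(24, 2), (14, 2), (11, 1), (5, 2), (0, 3)]⟩, ⟨1, []⟩, ⟨1, []⟩, ⟨2, [(24, 2), (14, 2), (11, 1), (5, 2), (0, 3)]⟩, ⟨1, []⟩, ⟨1, []⟩,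 ⟨1, [(0, 1)]⟩])) (.cons (.ddet 0 [] (.leaf 1 [⟨1, [(0, 1)]⟩, ⟨1, [(12, 1), (1, 2)]⟩, ⟨2, [(24, 2), (14, 2), (11, 1), (5, 2), (0, 1)]⟩, ⟨1, [(17, 1), (14, 1), (12, 1), (5, 1), (1, 2)]⟩, ⟨1, [(17, 1), (14, 1), (5, 1)]⟩, ⟨1, []⟩, ⟨1, []⟩, ⟨1, []⟩, ⟨1, []⟩, ⟨1, []⟩, ⟨1, []⟩, ⟨1, []⟩, ⟨1, [(17, 1), (14, 1), (5, 1)]⟩, ⟨1, []⟩, ⟨1, []⟩, ⟨1, []⟩, ⟨1, []⟩, ⟨1, []⟩, ⟨1, [(17, 1), (14, 1), (12, 1), (5, 1), (1, 2)]⟩, ⟨1, [(17, 1), (14, 1), (5, 1)]⟩, ⟨2, [(24, 2), (14, 2), (11, 1), (5, 2), (0, 1)]⟩, ⟨1, []⟩, ⟨1, []⟩, ⟨1, []⟩])) .nil)))))))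
def s9_2_n1 : Node := ⟨[⟨[0, 1, 0, 0, -1], -200⟩, ⟨[0, 1, 0, -1], -200⟩, ⟨[0, 1, -1], -200⟩, ⟨[-1, 1], -200⟩, ⟨[-1, 1, -1, -1, -1], 2875200⟩, ⟨[0, 1, 0, -1, -1], -16640⟩, ⟨[-1, 0, 0, 0, -1], -64960⟩, ⟨[0, 1, 1, 0, -1], 42880⟩, ⟨[-1, 0, 1, 1, -1], -5440⟩, ⟨[0, 0, -1, -1], -64320⟩, ⟨[1, 1, 0, -1], 42880⟩, ⟨[-1, -1, -1], -112640⟩, ⟨[-1, 0, -1], 2875200⟩, ⟨[1, 1, 1], 58560⟩, ⟨[-1, -1, 0, 1], -53120⟩, ⟨[0, 0, 1, 1], 10880⟩, ⟨[1, 0, -1, -1, 1], -5440⟩, ⟨[0, -1, -1, 0, 1], -53120⟩, ⟨[-1, 0, -1, 0, 1], 2875200⟩, ⟨[-1, -1, -1, 1, 1], 2864000⟩, ⟨[0, 0, -1, 1, 1], 2875200⟩, ⟨[0, -1, 0, 1, 1], -37440⟩, ⟨[1, 0, 1, 1, 1], 25920⟩], [0, 1], 0, none, (.nbr (.cons (.ddet 0 [] (.ndet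 1 [⟨1, [(16, 1), (13, 1), (4, 1)]⟩] s9_2_t5)) (.cons (.ddet 0 [] (.ndet 1 [⟨1, [(16, 1), (13, 1), (4, 1)]⟩] s9_2_t6)) .nil)))⟩
def s9_2_t7 : Tree := .ddet 0 [] (.ndet 1 [⟨1, [(13, 1), (0, 1)]⟩] (.ddet 0 [] (.ndet 1 [⟨1, [(22, 1)]⟩] (.ddet 0 [] (.nbr (.cons (.ddet 0 [] (.leaf 2 [⟨1, [(14, 1), (1, 1)]⟩, ⟨1, [(16, 1), (11, 1)]⟩, ⟨1, [(18, 1), (14, 1), (7, 1), (1, 1)]⟩, ⟨1, [(0, 1)]⟩, ⟨1, [(18, 1), (7, 1)]⟩, ⟨1, [(18, 1), (7, 1)]⟩, ⟨1, [(18, 1), (7, 1)]⟩, ⟨1, []⟩, ⟨1, []⟩, ⟨1, [(18, 1), (7, 1)]⟩, ⟨1, [(16, 1), (11, 1)]⟩, ⟨1, []⟩, ⟨1, []⟩, ⟨1, [(18, 1), (7, 1)]⟩, ⟨1, []⟩, ⟨1, []⟩, ⟨1, [(16, 1), (11, 1)]⟩, ⟨1, []⟩, ⟨1, []⟩, ⟨1, [(18, 1), (7, 1)]⟩, ⟨1, [(18, 1), (14, 1),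 (7, 1), (1, 1)]⟩, ⟨1, []⟩, ⟨1, []⟩, ⟨1, []⟩, ⟨1, [(18, 1), (14, 2), (7, 1), (1, 2)]⟩, ⟨1, []⟩])) (.cons (.ddet 0 [] (.leaf 2 [⟨1, [(16, 1), (11, 1), (0, 2)]⟩, ⟨1, [(16, 1), (11, 1)]⟩, ⟨1, [(16, 2), (11, 2), (0, 3)]⟩, ⟨1, [(23, 2)]⟩, ⟨1, [(16, 1), (11, 1)]⟩, ⟨1, [(16, 1), (11, 1), (0, 1)]⟩, ⟨1, [(16, 1), (11, 1), (0, 2)]⟩, ⟨1, [(23, 1)]⟩, ⟨1, []⟩, ⟨1, [(16, 1), (11, 1), (0, 2)]⟩, ⟨1, [(23, 1), (16, 1), (11, 1)]⟩, ⟨1, [(23, 1)]⟩, ⟨1, [(0, 1)]⟩, ⟨1, [(16, 1), (11, 1)]⟩, ⟨1, [(23, 1)]⟩, ⟨1, []⟩, ⟨1, [(16, 1), (11, 1)]⟩, ⟨1, []⟩, ⟨1, [(0, 1)]⟩, ⟨1, [(16, 1), (11, 1), (0, 1)]⟩, ⟨1, [(16, 2), (11, 2), (0, 4)]⟩, ⟨1, [(23, 1)]⟩, ⟨1, []⟩, ⟨1, [(0, 1)]⟩, ⟨1, [(16, 3), (11, 3),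 (0, 6)]⟩, ⟨1, []⟩])) .nil)))))))
def s9_2_t8 : Tree := .nbr (.cons (.ddet 0 [] (.ndet 1 [⟨1, [(18, 1), (6, 1), (0, 2)]⟩] (.ddet 0 [] (.ndet 0 [⟨1, [(26, 1), (6, 1), (0, 2)]⟩] (.ddet 0 [] (.leaf 4 [⟨1, [(26, 1), (18, 1), (6, 2), (0, 4)]⟩, ⟨1, [(14, 1), (0, 1)]⟩, ⟨1, [(26, 1), (6, 1), (0, 2)]⟩, ⟨1, [(18, 1), (14, 1), (6, 1), (0, 3)]⟩, ⟨1, []⟩, ⟨1, []⟩, ⟨1, []⟩, ⟨1, []⟩, ⟨1, []⟩, ⟨1, []⟩, ⟨1, []⟩, ⟨1, [(18, 1), (6, 1), (0, 2)]⟩, ⟨1, [(18, 1), (6, 1), (0, 2)]⟩, ⟨1, []⟩, ⟨1, []⟩, ⟨1, [(18, 1), (6, 1), (0, 2)]⟩, ⟨1, []⟩, ⟨1, []⟩, ⟨1, [(0, 1)]⟩])))))) (.cons (.ddet 0 [] (.ndet 1 [⟨1, [(13, 1), (1, 1)]⟩] (.ddet 0 [] (.ndet 0 [⟨1, [(13, 1)]⟩] (.ddet 0 [] (.split [1, -1] (0)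 (.leaf 2 [⟨1, [(0, 1)]⟩, ⟨2, [(19, 1), (14, 3), (8, 1), (0, 1)]⟩, ⟨2, [(19, 1), (14, 1), (8, 1), (0, 3)]⟩, ⟨1, [(14, 1), (2, 1)]⟩, ⟨1, [(14, 1), (0, 1)]⟩, ⟨1, [(14, 1), (0, 1)]⟩, ⟨1, [(14, 1), (0, 1)]⟩, ⟨1, []⟩, ⟨1, []⟩, ⟨1, [(14, 1), (0, 1)]⟩, ⟨2, [(19, 1), (14, 3), (8, 1), (0, 1)]⟩, ⟨1, []⟩, ⟨1, []⟩, ⟨2, [(19, 1), (14, 1), (8, 1), (0, 1)]⟩, ⟨1, [(2, 1)]⟩, ⟨1, [(2, 1)]⟩, ⟨2, [(19, 1), (14, 3), (8, 1), (0, 1)]⟩, ⟨1, []⟩, ⟨1, []⟩, ⟨2, [(19, 1), (14, 1), (8, 1), (0, 1)]⟩, ⟨2, [(19, 1), (14, 1), (8, 1), (0, 3)]⟩, ⟨1, [(2, 1)]⟩, ⟨1, [(2, 1)]⟩, ⟨1, [(2, 1)]⟩, ⟨1, [(19, 1), (8, 1), (0, 2)]⟩, ⟨2, [(16, 1), (0, 1)]⟩]) (.leaf 4 [⟨2, [(19, 1), (14, 3), (8, 1), (0, 1)]⟩, ⟨1,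 [(0, 1)]⟩, ⟨1, [(27, 1), (8, 1)]⟩, ⟨2, [(19, 1), (14, 1), (8, 1), (0, 3)]⟩, ⟨1, []⟩, ⟨1, []⟩, ⟨1, []⟩, ⟨1, []⟩, ⟨1, [(1, 1)]⟩, ⟨1, [(1, 1)]⟩, ⟨1, [(1, 1)]⟩, ⟨1, [(14, 1), (0, 1)]⟩, ⟨1, [(14, 1), (0, 1)]⟩, ⟨1, []⟩, ⟨1, []⟩, ⟨2, [(19, 1), (14, 1), (8, 1), (0, 1)]⟩, ⟨1, [(1, 1)]⟩, ⟨1, [(1, 1)]⟩, ⟨2, [(16, 1), (0, 1)]⟩]))))))) .nil))
def s9_2_n2 : Node := ⟨[⟨[0, 0, 1, 0, -1], -200⟩, ⟨[0, 0, 1, -1], -200⟩, ⟨[0, -1, 1], -200⟩, ⟨[-1, 0, 1], -200⟩, ⟨[-1, -1, 1, -1, -1], 2832000⟩, ⟨[0, 0, 1, -1, -1], 2864000⟩, ⟨[1, 1, 1, -1, -1], 2875200⟩, ⟨[-1, 0, 1, 0, -1], -16640⟩, ⟨[0, 1, 1, 0, -1], 42880⟩, ⟨[1, 0, 0, -1], 2832000⟩, ⟨[-1, -1, 1, -1], 2875200⟩, ⟨[-1, -1], -64320⟩, ⟨[1, 1],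 10880⟩, ⟨[-1, -1, 1], 2875200⟩, ⟨[-1, 0, 1, 1], -960⟩, ⟨[0, 1, 1, 1], 58560⟩, ⟨[0, -1, 0, -1, 1], 2875200⟩, ⟨[0, -1, -1, 0, 1], -53120⟩, ⟨[1, 0, -1, 0, 1], -37440⟩, ⟨[0, -1, 0, 0, 1], 2875200⟩, ⟨[1, -1, 0, 0, 1], 2864000⟩, ⟨[-1, -1, 0, 1, 1], -48640⟩, ⟨[0, 0, 0, 1, 1], 10880⟩, ⟨[1, 1, 0, 1, 1], 26560⟩, ⟨[1, -1, 1, 1, 1], 2875200⟩], [0, 0, 1], 0, none, (.ndet 1 [⟨1, [(16, 1), (5, 1)]⟩] (.ddet 0 [] (.nbr (.cons s9_2_t7 (.cons (.ddet 0 [] s9_2_t8) .nil)))))⟩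
def s9_2_t9 : Tree := .nbr (.cons (.ddet 0 [] (.ndet 1 [⟨1, [(12, 1), (10, 1), (4, 1)]⟩] (.ddet 0 [] (.split [0, -1] (48000) (.leaf 0 [⟨1, [(13, 2), (11, 2), (5, 2), (0, 2)]⟩, ⟨1, [(0, 1)]⟩, ⟨1, [(13, 1), (11, 1), (5, 1)]⟩, ⟨1, [(13, 1), (11, 1), (5, 1), (0, 2)]⟩, ⟨1, [(13, 1), (11, 1), (5, 1), (0, 2)]⟩, ⟨1, [(13, 1), (11, 1), (5, 1), (0, 2)]⟩, ⟨1, [(13, 1), (11, 1), (5, 1), (0, 2)]⟩, ⟨1, [(13, 2), (11, 2), (5, 2), (0, 2)]⟩, ⟨1, [(13, 1), (11, 1), (5, 1), (0, 2)]⟩, ⟨1, []⟩, ⟨1, []⟩, ⟨1, []⟩, ⟨1, []⟩, ⟨1, []⟩, ⟨1, [(13, 1), (11, 1), (5, 1), (0, 1)]⟩, ⟨1, [(13, 1), (11, 1), (5, 1), (0, 2)]⟩, ⟨1, []⟩, ⟨1, [(9, 1), (2, 1)]⟩, ⟨1, [(9, 1), (2, 1)]⟩, ⟨1, [(9, 1), (2, 1)]⟩,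 ⟨1, [(9, 1), (2, 1)]⟩, ⟨1, [(9, 1), (2, 1)]⟩, ⟨1, [(11, 1), (0, 1)]⟩]) (.leaf 3 [⟨1, [(13, 1), (11, 1), (5, 1), (1, 1)]⟩, ⟨1, [(13, 1), (11, 1), (5, 1), (0, 1)]⟩, ⟨1, [(1, 1)]⟩, ⟨1, [(0, 1)]⟩, ⟨1, []⟩, ⟨1, []⟩, ⟨1, []⟩, ⟨1, []⟩, ⟨1, [(13, 1), (11, 1), (5, 1)]⟩, ⟨1, []⟩, ⟨1, []⟩, ⟨1, []⟩, ⟨1, []⟩, ⟨1, []⟩, ⟨1, []⟩, ⟨1, []⟩, ⟨1, []⟩, ⟨1, []⟩, ⟨1, []⟩, ⟨1, [(11, 1)]⟩]))))) (.cons (.ddet 0 [] (.ndet 1 [⟨1, [(12, 1), (10, 1), (4, 1)]⟩] (.ddet 0 [] (.leaf 3 [⟨1, [(18, 1), (12, 1), (10, 2), (4, 1)]⟩, ⟨1, [(12, 2), (10, 2), (4, 2), (0, 1)]⟩, ⟨1, [(18, 2), (10, 2)]⟩, ⟨1, [(12, 1), (10, 1), (4, 1), (0, 2)]⟩, ⟨1, []⟩, ⟨1, [(0, 1)]⟩, ⟨1, []⟩, ⟨1, [(0, 2)]⟩, ⟨1, [(12, 1), (10,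 1), (4, 1)]⟩, ⟨1, [(18, 1), (10, 1)]⟩, ⟨1, []⟩, ⟨1, [(18, 1), (10, 1)]⟩, ⟨1, [(0, 1)]⟩, ⟨1, []⟩, ⟨1, [(0, 1)]⟩, ⟨1, [(18, 1), (10, 1)]⟩, ⟨1, []⟩, ⟨1, [(18, 1), (10, 1)]⟩, ⟨1, []⟩, ⟨1, [(10, 1)]⟩])))) .nil))
def s9_2_t10 : Tree := .ddet 0 [] (.ndet 1 [⟨1, [(11, 1), (10, 1), (3, 1), (0, 1)]⟩] (.ddet 0 [] (.ndet 0 [⟨1, [(11, 1), (10, 1), (3, 1)]⟩] (.ddet 0 [] (.ndet 1 [⟨1, [(16, 1), (11, 1), (10, 1), (9, 1), (3, 1)]⟩] (.ddet 0 [] (.split [0, -1, 1] (80000) (.leaf 0 [⟨2, [(12, 4), (11, 3), (10, 1), (4, 4), (0, 1)]⟩, ⟨1, [(0, 1)]⟩, ⟨1, [(17, 1), (12, 1), (11, 1), (10, 1), (4, 1)]⟩, ⟨2, [(12, 2), (11, 1), (10, 1), (4, 2), (0, 3)]⟩, ⟨1, [(12, 1), (11, 1), (4, 1), (0, 1)]⟩,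 ⟨1, [(12, 1), (11, 1), (4, 1), (0, 1)]⟩, ⟨1, [(12, 1), (11, 1), (4, 1), (0, 1)]⟩, ⟨2, [(12, 4), (11, 3), (10, 1), (4, 4), (0, 1)]⟩, ⟨1, [(12, 1), (11, 1), (4, 1), (0, 1)]⟩, ⟨1, []⟩, ⟨1, []⟩, ⟨1, []⟩, ⟨1, []⟩, ⟨1, []⟩, ⟨2, [(12, 2), (11, 1), (10, 1), (4, 2), (0, 1)]⟩, ⟨2, [(12, 2), (11, 1), (10, 1), (4, 2), (0, 3)]⟩, ⟨1, []⟩, ⟨1, [(17, 1), (10, 1)]⟩, ⟨1, [(17, 1), (10, 1)]⟩, ⟨1, [(17, 1), (10, 1)]⟩, ⟨1, [(17, 1), (10, 1)]⟩, ⟨1, [(17, 1), (10, 1)]⟩, ⟨2, [(11, 1), (10, 1), (0, 1)]⟩]) (.leaf 3 [⟨2, [(12, 4), (11, 3), (10, 1), (4, 4), (0, 1)]⟩, ⟨2, [(12, 2), (11, 1), (10, 1), (4, 2), (0, 3)]⟩, ⟨1, [(12, 1), (11, 1), (4, 1), (1, 1)]⟩, ⟨1, [(0, 1)]⟩, ⟨2, [(9, 1), (0, 1)]⟩,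 ⟨2, [(9, 1), (0, 1)]⟩, ⟨2, [(9, 1), (0, 1)]⟩, ⟨2, [(9, 1), (0, 1)]⟩, ⟨1, [(12, 1), (11, 1), (4, 1), (0, 1)]⟩, ⟨1, []⟩, ⟨1, []⟩, ⟨1, []⟩, ⟨1, []⟩, ⟨1, []⟩, ⟨1, []⟩, ⟨1, [(1, 1)]⟩, ⟨1, [(1, 1)]⟩, ⟨1, [(1, 1)]⟩, ⟨1, [(1, 1)]⟩, ⟨2, [(11, 1), (10, 1), (0, 1)]⟩]))))))))
def s9_2_t11 : Tree := .nbr (.cons (.ddet 0 [] (.ndet 1 [⟨1, [(7, 1), (0, 1)]⟩] (.ddet 0 [] (.ndet 1 [⟨1, [(17, 1), (9, 1)]⟩] (.ddet 0 [] s9_2_t9))))) (.cons (.ddet 0 [] (.ndet 1 [⟨1, [(16, 1), (9, 1)]⟩] s9_2_t10)) .nil))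
def s9_2_n3 : Node := ⟨[⟨[0, 0, 0, 1, -1], -200⟩, ⟨[0, 0, -1, 1], -200⟩, ⟨[0, -1, 0, 1], -200⟩, ⟨[-1, 0, 0, 1], -200⟩, ⟨[0, 0, -1, -1, -1], -112640⟩, ⟨[0, 1, 0, -1, -1], -96960⟩, ⟨[-1, -1, -1, 0, -1], -160960⟩, ⟨[-1, 1, 1, 0, -1], -129600⟩, ⟨[-1, -1, -1, 1, -1], 2875200⟩, ⟨[1, 0, -1, -1], -16640⟩, ⟨[1, 1, 0, -1], 42880⟩, ⟨[0, -1, -1], -64320⟩, ⟨[0, 1, 1], 10880⟩, ⟨[-1, -1, 0, 1], -53120⟩, ⟨[-1, 0, 1, 1], -37440⟩, ⟨[1, 0, 0, 0, 1], 46720⟩, ⟨[1, 1, 1, 0, 1], 106240⟩, ⟨[0, -1, 0, 1, 1], -960⟩, ⟨[0, 0, 1, 1, 1], 58560⟩], [0, 0, 0, 1], 0, none, s9_2_t11⟩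
def s9_2_t12 : Tree := .nbr (.cons (.ddet 0 [] (.ndet 1 [⟨1, [(13, 1), (3, 1)]⟩] (.ddet 0 [] (.nbr (.cons (.ddet 0 [] (.leaf 4 [⟨1, [(14, 1), (4, 1), (0, 1)]⟩, ⟨1, [(12, 1), (1, 1)]⟩, ⟨1, [(0, 1)]⟩, ⟨1, [(14, 1), (12, 1), (4, 1), (1, 1)]⟩, ⟨1, []⟩, ⟨1, []⟩, ⟨1, []⟩, ⟨1, []⟩, ⟨1, []⟩, ⟨1, []⟩, ⟨1, []⟩, ⟨1, [(14, 1), (4, 1)]⟩, ⟨1, [(14, 1), (4, 1)]⟩, ⟨1, []⟩, ⟨1, []⟩, ⟨1, [(14, 1), (4, 1)]⟩, ⟨1, []⟩, ⟨1, []⟩, ⟨1, [(15, 1)]⟩])) (.cons (.ddet 0 [] (.leaf 1 [⟨1, [(0, 1)]⟩, ⟨1, [(14, 1), (4, 1)]⟩, ⟨1, [(14, 1), (4, 1), (0, 2)]⟩, ⟨1, [(14, 2), (4, 2), (0, 1)]⟩, ⟨1, [(14, 1), (4, 1), (0, 1)]⟩, ⟨1, []⟩, ⟨1, []⟩, ⟨1, []⟩, ⟨1, []⟩, ⟨1, []⟩, ⟨1, []⟩, ⟨1, []⟩, ⟨1, [(14, 1), (4,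 1), (0, 1)]⟩, ⟨1, []⟩, ⟨1, []⟩, ⟨1, []⟩, ⟨1, []⟩, ⟨1, []⟩, ⟨1, [(14, 2), (4, 2), (0, 1)]⟩, ⟨1, [(14, 1), (4, 1), (0, 1)]⟩, ⟨1, [(14, 1), (4, 1), (0, 2)]⟩, ⟨1, []⟩, ⟨1, []⟩, ⟨1, [(15, 1), (0, 1)]⟩])) .nil)))))) (.cons (.ddet 0 [] (.ndet 1 [⟨1, [(13, 1), (3, 1)]⟩] (.ddet 0 [] (.ndet 0 [⟨1, [(14, 1), (3, 1), (0, 1)]⟩] (.ddet 0 [] (.leaf 4 [⟨1, [(14, 1), (13, 1), (3, 2), (0, 1)]⟩, ⟨1, [(17, 2), (14, 1), (13, 1)]⟩, ⟨1, [(14, 1), (3, 1), (0, 2)]⟩, ⟨1, [(17, 2), (14, 1), (13, 2), (3, 1)]⟩, ⟨1, []⟩, ⟨1, []⟩, ⟨1, []⟩, ⟨1, []⟩, ⟨1, [(0, 1)]⟩, ⟨1, [(0, 1)]⟩, ⟨1, [(0, 1)]⟩, ⟨1, [(17, 1), (14, 1), (13, 1), (3, 1)]⟩, ⟨1, [(17, 1), (14, 1), (13, 1), (3, 1)]⟩, ⟨1, []⟩, ⟨1, []⟩, ⟨1,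 [(13, 1), (3, 1)]⟩, ⟨1, [(0, 1)]⟩, ⟨1, [(0, 1)]⟩, ⟨1, [(14, 1)]⟩])))))) .nil))
def s9_2_n4 : Node := ⟨[⟨[0, 0, 0, -1, 1], -200⟩, ⟨[0, 0, -1, 0, 1], -200⟩, ⟨[0, -1, 0, 0, 1], -200⟩, ⟨[-1, 0, 0, 0, 1], -200⟩, ⟨[-1, 0, 1, 0, -1], 26560⟩, ⟨[0, 1, 1, 0, -1], 42880⟩, ⟨[-1, -1], -21120⟩, ⟨[1, 1], 10880⟩, ⟨[-1, -1, 1, 1], -5440⟩, ⟨[0, 0, 1, 1], 10880⟩, ⟨[1, 1, 1, 1], 26560⟩, ⟨[0, 0, -1, -1, 1], 2864000⟩, ⟨[1, 1, -1, -1, 1], 2875200⟩, ⟨[0, -1, -1, 0, 1], -53120⟩, ⟨[1, 0, -1, 0, 1], -37440⟩, ⟨[-1, -1, 0, 0, 1], 2875200⟩, ⟨[0, -1, 0, 1, 1], -37440⟩, ⟨[1, 0, 0, 1, 1], -21760⟩], [0, 0, 0, 0, 1], 0, none, (.ndet 1 [⟨1, [(15, 1), (12, 1)]⟩] (.ddet 0 [] (.ndet 1 [⟨1, [(16, 1), (12,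 1)]⟩] (.ddet 0 [] s9_2_t12))))⟩
def s9_2 : Sys := ⟨[(0, 16000), (3, 48000)], [(1, 0)], 5, [s9_2_n0, s9_2_n1, s9_2_n2, s9_2_n3, s9_2_n4], [2681235, 259745, -243745, 2892980], (.ndet 0 [⟨1, []⟩] (.ddet 0 [] (.leaf 4 [⟨1, []⟩, ⟨1, []⟩, ⟨1, []⟩, ⟨1, []⟩, ⟨1, []⟩, ⟨1, []⟩, ⟨1, []⟩, ⟨1, []⟩, ⟨1, []⟩, ⟨1, []⟩, ⟨1, []⟩, ⟨1, []⟩, ⟨1, []⟩, ⟨1, []⟩, ⟨1, []⟩, ⟨1, []⟩, ⟨1, []⟩, ⟨1, []⟩])))⟩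

theorem s9_2_ok : s9_2.ok = true := by decide +kernel

def s10_22_n0 : Node := ⟨[⟨[1, 0, -1], 168⟩, ⟨[1, -1], 136⟩, ⟨[1, 0, 0, -1], 48⟩, ⟨[0, -1], 48⟩, ⟨[1], 192⟩, ⟨[2], 320⟩, ⟨[1], 232⟩], [1], 0, none, (.ndet 0 [⟨1, [(6, 1)]⟩] (.ddet 0 [⟨1, [(3, 1), (0, 1)]⟩, ⟨1, [(4, 1)]⟩] (.ndet 0 [⟨1, [(3, 1)]⟩] (.ddet 1 [⟨1, [(0, 1)]⟩, ⟨1, [(6, 1)]⟩] (.ndet 1 [⟨1, [(0, 2)]⟩] (.ddet 1 [⟨1, [(0, 1)]⟩, ⟨1, [(3, 1)]⟩] (.leaf 0 [⟨1, [(0, 1)]⟩, ⟨1, [(0, 2)]⟩, ⟨1, []⟩, ⟨1, [(0, 1)]⟩, ⟨1, [(0, 1)]⟩, ⟨1, [(0, 2)]⟩, ⟨1, [(0, 1)]⟩, ⟨1, []⟩])))))))⟩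
def s10_22 : Sys := ⟨[(1, 16), (3, 64)], [(1, 0), (2, -80), (4, -32)], 4, [s10_22_n0], [288, -64, 0, 160], (.leaf 0 [⟨1, []⟩, ⟨1, []⟩, ⟨1, []⟩, ⟨1, []⟩, ⟨1, []⟩, ⟨1, []⟩, ⟨1, []⟩])⟩

theorem s10_22_ok : s10_22.ok = true := by decide +kernel

def s11_7_n0 : Node := ⟨[⟨[1], 24⟩, ⟨[1, 0, -1], 64⟩, ⟨[1], -8⟩, ⟨[1, -1], 40⟩, ⟨[0, -1], 40⟩, ⟨[1], -16⟩, ⟨[1], 0⟩, ⟨[2], -16⟩, ⟨[1], 16⟩], [1], 0, none, (.ndet 1 [⟨1, [(8, 1)]⟩, ⟨1, [(7, 1)]⟩] (.ddet 1 [⟨1, [(8, 1)]⟩, ⟨1, [(8, 1), (4, 1)]⟩] (.ndet 0 [⟨1, []⟩, ⟨1, [(4, 1)]⟩] (.ddet 2 [⟨1, [(8, 1)]⟩, ⟨1, [(8, 1)]⟩] (.ndet 2 [⟨1, [(8, 1)]⟩, ⟨1, [(8, 2)]⟩] (.ddet 0 [⟨1, [(8, 1)]⟩, ⟨1, []⟩] (.leaf 0 [⟨1, [(8, 1)]⟩, ⟨1, [(8, 1)]⟩,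 ⟨1, [(8, 1)]⟩, ⟨1, [(8, 2)]⟩, ⟨1, [(8, 1)]⟩, ⟨1, [(8, 1)]⟩, ⟨1, [(8, 1)]⟩, ⟨1, [(8, 2)]⟩, ⟨1, [(8, 1)]⟩, ⟨1, []⟩])))))))⟩
def s11_7 : Sys := ⟨[(0, -16), (1, -32), (3, 16)], [(0, -16), (1, 32), (2, 32)], 3, [s11_7_n0], [32, -48, -48, 0], (.leaf 0 [⟨1, []⟩, ⟨1, []⟩, ⟨1, []⟩, ⟨1, []⟩, ⟨1, []⟩, ⟨1, []⟩, ⟨1, []⟩, ⟨1, []⟩, ⟨1, []⟩])⟩

theorem s11_7_ok : s11_7.ok = true := by decide +kernel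

def s12_3_n0 : Node := ⟨[⟨[0, 1, -1], 24⟩, ⟨[-1], 0⟩, ⟨[-1, 1], 56⟩, ⟨[0, 1], 32⟩], [0, 1], 0, none, (.ndet 0 [⟨1, [(3, 1)]⟩] (.ddet 0 [⟨1, [(2, 1)]⟩] (.ndet 1 [⟨1, [(1, 1)]⟩] (.ddet 1 [⟨1, [(0, 1)]⟩] (.leaf 0 [⟨1, [(1, 1)]⟩, ⟨1, []⟩, ⟨1, [(0, 1)]⟩, ⟨1, [(0, 1)]⟩, ⟨1, []⟩])))))⟩
def s12_3 : Sys := ⟨[(2, 16), (3, -16)], [(0, 0), (1, -16)], 3, [s12_3_n0], [-16, 64, -16, 0], (.leaf 0 [⟨1, []⟩, ⟨1, []⟩, ⟨1, []⟩, ⟨1, []⟩])⟩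

theorem s12_3_ok : s12_3.ok = true := by decide +kernel

def s13_9_n0 : Node := ⟨[⟨[0, 0, 1], 32⟩, ⟨[0, -1, 1], 40⟩, ⟨[1], 24⟩, ⟨[1, -1], 16⟩, ⟨[0, -1], -8⟩, ⟨[1], 40⟩, ⟨[1], 48⟩], [1], 0, none, (.ndet 2 [⟨1, [(6, 1)]⟩, ⟨1, [(5, 1)]⟩] (.ddet 1 [⟨1, [(6, 1)]⟩] (.ndet 1 [⟨1, [(0, 1)]⟩, ⟨1, [(2, 1), (0, 1)]⟩] (.ddet 0 [⟨1, [(2, 1)]⟩] (.leaf 0 [⟨1, [(0, 1)]⟩, ⟨1, [(0, 1)]⟩, ⟨1, [(0, 1)]⟩, ⟨1, [(0, 1)]⟩, ⟨1, []⟩, ⟨1, [(0, 1)]⟩, ⟨1, [(0, 1)]⟩, ⟨1, []⟩])))))⟩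
def s13_9 : Sys := ⟨[(0, 0), (2, 16), (3, -16)], [(0, 0), (3, -16)], 3, [s13_9_n0], [64, 0, 48, 0], (.leaf 0 [⟨1, []⟩, ⟨1, []⟩, ⟨1, []⟩, ⟨1, []⟩, ⟨1, []⟩, ⟨1, []⟩, ⟨1, []⟩])⟩

theorem s13_9_ok : s13_9.ok = true := by decide +kernel

def s14_9_n0 : Node := ⟨[⟨[-1, 1], 8⟩, ⟨[0, 1, -1], 0⟩, ⟨[0, 0, -1], -8⟩, ⟨[-1, 1], 64⟩, ⟨[0, 1], 40⟩, ⟨[-1], 0⟩], [0, 1], 0, none, (.ndet 1 [⟨1, [(2, 1)]⟩, ⟨1, [(3, 1), (1, 1)]⟩] (.ddet 0 [⟨1, [(3, 1)]⟩] (.ndet 0 [⟨1, [(2, 1)]⟩, ⟨1, []⟩] (.ddet 1 [⟨1, [(1, 1)]⟩] (.leaf 0 [⟨1, [(1, 1)]⟩, ⟨1, [(2, 1)]⟩, ⟨1, [(0, 1)]⟩, ⟨1, [(1, 1)]⟩, ⟨1, [(1, 1)]⟩, ⟨1, []⟩, ⟨1, []⟩])))))⟩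
def s14_9 : Sys := ⟨[(1, -32), (2, 32), (3, -32)], [(0, 16), (3, 0)], 3, [s14_9_n0], [-16, 64, 0, 0], (.leaf 0 [⟨1, []⟩, ⟨1, []⟩, ⟨1, []⟩, ⟨1, []⟩, ⟨1, []⟩, ⟨1, []⟩])⟩

theorem s14_9_ok : s14_9.ok = true := by decide +kernel

def s15_23_n0 : Node := ⟨[⟨[1], 32⟩, ⟨[1, -1], 72⟩, ⟨[1, 0, -1], 168⟩, ⟨[1], 16⟩, ⟨[1, -1], 56⟩, ⟨[1, 0, 0, -1], -16⟩, ⟨[1], -40⟩, ⟨[1, -1], 104⟩, ⟨[1], -24⟩, ⟨[1, 0, -1], 72⟩, ⟨[1], -32⟩, ⟨[1], -72⟩, ⟨[0, -1], 8⟩], [1], 0, none, (.ndet 1 [⟨1, [(12, 1)]⟩, ⟨1, [(5, 1)]⟩, ⟨1, [(10, 1)]⟩] (.ddet 1 [⟨1, [(12, 1)]⟩, ⟨1, [(5, 1)]⟩, ⟨1, [(7, 1)]⟩] (.ndet 2 [⟨1, [(12, 1)]⟩, ⟨1, [(12, 1)]⟩, ⟨1, [(5, 1)]⟩] (.ddet 2 [⟨1, [(12, 1)]⟩, ⟨1, [(12, 1)]⟩, ⟨1, [(10,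 1)]⟩] (.ndet 3 [⟨1, [(12, 1)]⟩, ⟨1, [(12, 1)]⟩, ⟨1, [(12, 1)]⟩] (.ddet 0 [⟨1, []⟩, ⟨1, []⟩, ⟨1, [(0, 1)]⟩] (.leaf 0 [⟨1, [(12, 1)]⟩, ⟨1, [(12, 1)]⟩, ⟨1, [(12, 1)]⟩, ⟨1, [(12, 1)]⟩, ⟨1, [(12, 1)]⟩, ⟨1, []⟩, ⟨1, [(12, 1)]⟩, ⟨1, [(12, 1)]⟩, ⟨1, [(12, 1)]⟩, ⟨1, [(12, 1)]⟩, ⟨1, [(12, 1)]⟩, ⟨1, [(12, 1)]⟩, ⟨1, []⟩, ⟨1, []⟩])))))))⟩
def s15_23 : Sys := ⟨[(0, -64), (1, -48), (2, -16), (3, 80)], [(0, 32), (1, 80), (2, 80), (4, 16)], 4, [s15_23_n0], [80, -32, -128, 48], (.leaf 0 [⟨1, []⟩, ⟨1, []⟩, ⟨1, []⟩, ⟨1, []⟩, ⟨1, []⟩, ⟨1, []⟩, ⟨1, []⟩, ⟨1, []⟩, ⟨1, []⟩, ⟨1, []⟩, ⟨1, []⟩, ⟨1, []⟩, ⟨1, []⟩])⟩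

theorem s15_23_ok : s15_23.ok = true := by decide +kernel

def s26_11_n0 : Node := ⟨[⟨[1, 0, -1], 24⟩, ⟨[1, 0, 0, -1], 120⟩, ⟨[1], 16⟩, ⟨[1, 0, -1], 64⟩, ⟨[0, 0, 1], -32⟩, ⟨[0, -1, 1], -40⟩, ⟨[0, -1], 32⟩, ⟨[1, 0, -1], 168⟩, ⟨[1, -1], 208⟩, ⟨[1], 40⟩, ⟨[1, 0, -1], 128⟩, ⟨[1], -8⟩], [1], 0, none, (.ndet 0 [⟨1, [(4, 1)]⟩, ⟨1, [(10, 1)]⟩] (.ddet 1 [⟨1, [(7, 1), (4, 1)]⟩, ⟨1, [(4, 1)]⟩] (.ndet 2 [⟨1, [(7, 1)]⟩, ⟨1, [(7, 1), (5, 1)]⟩] (.ddet 1 [⟨1, []⟩, ⟨1, [(5, 1)]⟩] (.ndet 1 [⟨1, [(4, 1)]⟩, ⟨1, [(3, 1)]⟩] (.ddet 2 [⟨1, [(7, 1), (4, 1)]⟩, ⟨1, [(4, 1)]⟩] (.ndet 2 [⟨1, [(7, 1), (4, 1)]⟩, ⟨1, [(7, 1), (4, 1)]⟩] (.ddet 2 [⟨1, []⟩, ⟨1, []⟩] (.leaf 0 [⟨1, [(4, 1)]⟩, ⟨1, [(7,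 1), (4, 1)]⟩, ⟨1, [(7, 1), (4, 1)]⟩, ⟨1, [(4, 1)]⟩, ⟨1, [(7, 1)]⟩, ⟨1, [(7, 1)]⟩, ⟨1, []⟩, ⟨1, [(4, 1)]⟩, ⟨1, [(7, 1), (4, 1)]⟩, ⟨1, [(7, 1), (4, 1)]⟩, ⟨1, [(4, 1)]⟩, ⟨1, [(7, 1), (4, 1)]⟩, ⟨1, []⟩])))))))))⟩
def s26_11 : Sys := ⟨[(1, 48), (3, -80), (4, 80)], [(0, -64), (1, 80), (3, 32)], 4, [s26_11_n0], [176, -80, 0, -32], (.leaf 0 [⟨1, []⟩, ⟨1, []⟩, ⟨1, []⟩, ⟨1, []⟩, ⟨1, []⟩, ⟨1, []⟩, ⟨1, []⟩, ⟨1, []⟩, ⟨1, []⟩, ⟨1, []⟩, ⟨1, []⟩, ⟨1, []⟩])⟩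

theorem s26_11_ok : s26_11.ok = true := by decide +kernel

def s29_6_n0 : Node := ⟨[⟨[0, 0, 0, 1], 72⟩, ⟨[0, -1, 0, 1], 88⟩, ⟨[0, 0, -1, 1], 104⟩, ⟨[1, -1], 104⟩, ⟨[1], 80⟩, ⟨[1, 0, -1], 96⟩, ⟨[2, 0, 0, -1], 88⟩, ⟨[1], 72⟩, ⟨[1, -1], 80⟩, ⟨[1, 0, 0, -1], 24⟩], [1], 0, none, (.ndet 3 [⟨1, [(9, 1)]⟩, ⟨1, [(8, 1)]⟩, ⟨1, [(7, 1)]⟩] (.ddet 0 [⟨1, [(8, 1), (0, 1)]⟩] (.ndet 1 [⟨1, [(9, 1), (0, 1)]⟩, ⟨1, [(8, 1), (0, 1)]⟩, ⟨1, [(7, 1), (0, 1)]⟩] (.ddet 1 [⟨1, [(9, 1), (0, 2)]⟩] (.ndet 2 [⟨1, [(9, 1), (0, 1)]⟩, ⟨1, [(9, 1), (0, 2)]⟩, ⟨1, [(8, 1), (0, 1)]⟩] (.ddet 0 [⟨1, [(0, 1)]⟩] (.leaf 0 [⟨1, [(9, 1), (0, 1)]⟩, ⟨1, [(9, 1), (0, 1)]⟩, ⟨1, [(9, 1), (0, 2)]⟩, ⟨1, [(9, 1), (0,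 1)]⟩, ⟨1, [(9, 1), (0, 1)]⟩, ⟨1, [(9, 1), (0, 2)]⟩, ⟨1, [(9, 1), (0, 1)]⟩, ⟨1, [(9, 1), (0, 1)]⟩, ⟨1, [(9, 1), (0, 1)]⟩, ⟨1, []⟩, ⟨1, []⟩])))))))⟩
def s29_6 : Sys := ⟨[(0, -32), (2, -16), (3, 0), (4, -32)], [(1, -16), (2, 0)], 4, [s29_6_n0], [176, -16, -32, 144], (.leaf 0 [⟨1, []⟩, ⟨1, []⟩, ⟨1, []⟩, ⟨1, []⟩, ⟨1, []⟩, ⟨1, []⟩, ⟨1, []⟩, ⟨1, []⟩, ⟨1, []⟩, ⟨1, []⟩])⟩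

theorem s29_6_ok : s29_6.ok = true := by decide +kernel

def s29_7_n0 : Node := ⟨[⟨[0, 1], 184⟩, ⟨[0, 1, -1], 208⟩, ⟨[0, 1, 0, -1], 200⟩, ⟨[0, 1], 176⟩, ⟨[-1, 1], 192⟩, ⟨[0, 1], 168⟩, ⟨[-1, 1], 184⟩, ⟨[0, 1, -1], 176⟩, ⟨[-1], 24⟩, ⟨[-1, 1], 216⟩], [0, 1], 0, none, (.ndet 1 [⟨1, [(9, 1)]⟩, ⟨1, [(8, 1)]⟩, ⟨1, [(7, 1)]⟩] (.ddet 2 [⟨1, [(9, 1)]⟩, ⟨1, [(0, 1)]⟩] (.ndet 2 [⟨1, [(9, 1)]⟩, ⟨1, [(0, 1)]⟩, ⟨1, [(8, 1)]⟩] (.ddet 0 [⟨1, []⟩, ⟨1, [(1, 1)]⟩] (.ndet 3 [⟨1, [(9, 1)]⟩, ⟨1, [(9, 1)]⟩, ⟨1, [(0, 1)]⟩] (.ddet 1 [⟨1, [(9, 1)]⟩, ⟨1, [(9, 1)]⟩] (.leaf 0 [⟨1, [(9, 1)]⟩, ⟨1, [(9, 1)]⟩, ⟨1, [(0, 1)]⟩, ⟨1, [(9, 1)]⟩, ⟨1, [(9, 1)]⟩, ⟨1, [(9, 1)]⟩, ⟨1, [(9, 1)]⟩, ⟨1, [(9, 1)]⟩,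 ⟨1, []⟩, ⟨1, [(9, 1)]⟩, ⟨1, []⟩])))))))⟩
def s29_7 : Sys := ⟨[(0, -16), (2, -16), (3, 16), (4, -16)], [(0, -16), (1, -16), (2, 0)], 4, [s29_7_n0], [-32, 368, -16, -32], (.leaf 0 [⟨1, []⟩, ⟨1, []⟩, ⟨1, []⟩, ⟨1, []⟩, ⟨1, []⟩, ⟨1, []⟩, ⟨1, []⟩, ⟨1, []⟩, ⟨1, []⟩, ⟨1, []⟩])⟩

theorem s29_7_ok : s29_7.ok = true := by decide +kernel

def s29_9_n0 : Node := ⟨[⟨[0, 0, 1], 48⟩, ⟨[0, -1, 1], 48⟩, ⟨[0, 0, 1, -1], 32⟩, ⟨[0, 0, 1], 40⟩, ⟨[1], 40⟩, ⟨[1, -1], 24⟩, ⟨[1, 0, -1], 0⟩, ⟨[0, -1], -8⟩, ⟨[1], 56⟩], [1], 0, none, (.ndet 2 [⟨1, [(8, 1)]⟩, ⟨1, [(7, 1)]⟩, ⟨1, [(6, 1)]⟩] (.ddet 1 [⟨1, [(8, 1)]⟩] (.ndet 1 [⟨1, [(0, 1)]⟩, ⟨1, [(7, 1), (2, 1)]⟩, ⟨1, [(2, 1)]⟩] (.ddet 0 [⟨1, [(1,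 1)]⟩] (.leaf 0 [⟨1, [(0, 1)]⟩, ⟨1, [(0, 1)]⟩, ⟨1, [(7, 1), (2, 1)]⟩, ⟨1, [(0, 1)]⟩, ⟨1, [(0, 1)]⟩, ⟨1, [(0, 1)]⟩, ⟨1, []⟩, ⟨1, []⟩, ⟨1, [(0, 1)]⟩, ⟨1, []⟩])))))⟩
def s29_9 : Sys := ⟨[(0, 16), (2, 16), (3, -16), (4, 0)], [(0, 0), (3, -16)], 4, [s29_9_n0], [80, 0, 64, 16], (.leaf 0 [⟨1, []⟩, ⟨1, []⟩, ⟨1, []⟩, ⟨1, []⟩, ⟨1, []⟩, ⟨1, []⟩, ⟨1, []⟩, ⟨1, []⟩, ⟨1, []⟩])⟩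

theorem s29_9_ok : s29_9.ok = true := by decide +kernel

def s29_16_t0 : Tree := .ddet 0 [] (.ndet 1 [⟨1, [(5, 1)]⟩, ⟨1, [(3, 1), (0, 1)]⟩, ⟨1, [(0, 1)]⟩] (.ddet 0 [] (.ndet 2 [⟨1, [(5, 1)]⟩, ⟨1, [(5, 1)]⟩, ⟨1, [(3, 1), (0, 1)]⟩] (.ddet 0 [] (.ndet 3 [⟨1, [(5, 1)]⟩, ⟨1, [(4, 1)]⟩, ⟨1, [(5, 1)]⟩] (.ddet 0 [] (.ndet 1 [⟨1, [(3, 1), (0, 1)]⟩, ⟨1, [(3, 1)]⟩, ⟨1, [(3, 1), (0, 1)]⟩] (.ddet 0 [] (.leaf 0 [⟨1, [(3, 1), (0, 1)]⟩, ⟨1, [(3, 1), (0, 1)]⟩, ⟨1, [(3, 1)]⟩, ⟨1, [(3, 1), (0, 1)]⟩, ⟨1, [(3, 1), (0, 1)]⟩, ⟨1, []⟩, ⟨1, [(3, 1), (0, 1)]⟩, ⟨1, [(0, 1)]⟩, ⟨1, [(3, 1), (0, 1)]⟩, ⟨1, [(3, 1), (0, 1)]⟩, ⟨1, [(0, 1)]⟩, ⟨1, [(3, 1), (0, 1)]⟩, ⟨1, [(0, 1)]⟩, ⟨1, [(3, 1), (0,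 1)]⟩, ⟨1, [(3, 1), (0, 1)]⟩, ⟨1, [(3, 1), (0, 1)]⟩, ⟨1, [(3, 1), (0, 1)]⟩, ⟨1, [(3, 1)]⟩, ⟨1, [(3, 1)]⟩, ⟨1, [(3, 1), (0, 1)]⟩, ⟨1, []⟩, ⟨1, [(0, 1)]⟩, ⟨1, [(1, 1)]⟩])))))))))
def s29_16_n0 : Node := ⟨[⟨[0, 0, 1], 288⟩, ⟨[0, -1, 1], 320⟩, ⟨[0, 0, 1, -1], 0⟩, ⟨[1], 352⟩, ⟨[1, -1], 416⟩, ⟨[1, 0, -1], 0⟩, ⟨[1], 320⟩, ⟨[1, 0, -1, 1], 224⟩, ⟨[1, -1], 320⟩, ⟨[1], 384⟩, ⟨[1, 0, -1, 1], 320⟩, ⟨[0, -1, 1], 352⟩, ⟨[1, -1, -1, 1], 288⟩, ⟨[1, -1], 384⟩, ⟨[1, -1], 288⟩, ⟨[0, -1, 1], 256⟩, ⟨[1, -1], 448⟩, ⟨[0, 0, 1, -1], 64⟩, ⟨[-1, 0, 2, -1], 0⟩, ⟨[0, -1, 1], 224⟩, ⟨[-1, -1, 1], -32⟩, ⟨[1, -1, -1, 1], 384⟩], [1], 0, none, (.ndet 2 [⟨1, [(11, 1), (3, 1)]⟩, ⟨1, [(3, 1), (0, 1)]⟩,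 ⟨1, [(4, 1)]⟩] (.ddet 0 [] (.ndet 1 [⟨1, [(12, 1)]⟩, ⟨1, [(5, 1)]⟩, ⟨1, [(16, 1)]⟩] (.ddet 0 [] (.ndet 2 [⟨1, [(12, 1)]⟩, ⟨1, [(11, 1)]⟩, ⟨1, [(5, 1)]⟩] (.ddet 0 [] (.ndet 3 [⟨1, [(12, 1)]⟩, ⟨1, [(11, 1), (3, 1)]⟩, ⟨1, [(11, 1)]⟩] s29_16_t0)))))))⟩
def s29_16 : Sys := ⟨[(0, 128), (2, 64), (3, 128), (4, 0)], [(4, 128)], 4, [s29_16_n0], [640, -128, 576, 448], (.leaf 0 [⟨1, []⟩, ⟨1, []⟩, ⟨1, []⟩, ⟨1, []⟩, ⟨1, []⟩, ⟨1, []⟩, ⟨1, []⟩, ⟨1, []⟩, ⟨1, []⟩, ⟨1, []⟩, ⟨1, []⟩, ⟨1, []⟩, ⟨1, []⟩, ⟨1, []⟩, ⟨1, []⟩, ⟨1, []⟩, ⟨1, []⟩, ⟨1, []⟩, ⟨1, []⟩, ⟨1, []⟩, ⟨1, []⟩, ⟨1, []⟩])⟩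

theorem s29_16_ok : s29_16.ok = true := by decide +kernel

def s31_14_n0 : Node := ⟨[⟨[0, 0, 0, 1], -32⟩, ⟨[-1, 0, 0, 1], -32⟩, ⟨[0, -1, 0, 1], 0⟩, ⟨[0, 0, -1, 1], 96⟩, ⟨[1, -1], -32⟩, ⟨[1, 0, -1], 64⟩, ⟨[-1, 0, 0, 1], 96⟩, ⟨[-2, 0, 0, 1], 128⟩, ⟨[-1, -1, 0, 1], 160⟩, ⟨[-1, 0, -1, 1], 256⟩, ⟨[-2, 0, 0, 1], 64⟩, ⟨[-1, -1, 0, 1], 96⟩, ⟨[-1, 0, 0, 1], 64⟩, ⟨[-1, 0, 0, 1], -64⟩, ⟨[-1, 0, 0, 1], 0⟩, ⟨[-1, 0, 0, 1], 32⟩, ⟨[-1], 32⟩], [0, 0, 0, 1], 0, none, (.ndet 4 [⟨1, [(16, 1)]⟩, ⟨1, [(10, 1)]⟩, ⟨1, [(12, 1), (10, 1)]⟩, ⟨1, [(11, 1), (10, 1)]⟩] (.ddet 0 [⟨1, [(12, 1)]⟩, ⟨1, [(11, 1)]⟩] (.ndet 1 [⟨1, [(10, 1)]⟩, ⟨1, [(9, 1)]⟩, ⟨1, [(8, 1)]⟩, ⟨1, [(7, 1)]⟩] (.ddet 0 [⟨1,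 [(9, 1)]⟩, ⟨1, [(8, 1)]⟩] (.ndet 2 [⟨1, [(10, 1)]⟩, ⟨1, [(10, 1)]⟩, ⟨1, [(9, 1)]⟩, ⟨1, [(8, 1)]⟩] (.ddet 1 [⟨1, [(10, 1)]⟩, ⟨1, [(9, 1)]⟩] (.ndet 3 [⟨1, [(10, 1)]⟩, ⟨1, [(10, 1)]⟩, ⟨1, [(10, 1)]⟩, ⟨1, [(9, 1)]⟩] (.ddet 2 [⟨1, [(10, 1)]⟩, ⟨1, [(10, 1)]⟩] (.leaf 0 [⟨1, [(10, 1)]⟩, ⟨1, [(10, 1)]⟩, ⟨1, [(10, 1)]⟩, ⟨1, [(10, 1)]⟩, ⟨1, []⟩, ⟨1, []⟩, ⟨1, [(10, 1)]⟩, ⟨1, [(10, 1)]⟩, ⟨1, [(10, 1)]⟩, ⟨1, [(10, 1)]⟩, ⟨1, [(10, 1)]⟩, ⟨1, [(10, 1)]⟩, ⟨1, [(10, 1)]⟩, ⟨1, [(10, 1)]⟩, ⟨1, [(10, 1)]⟩, ⟨1, [(10, 1)]⟩, ⟨1, []⟩, ⟨1, [(0, 1)]⟩])))))))))⟩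
def s31_14 : Sys := ⟨[(0, 0), (1, -64), (2, 0), (3, 64), (4, 128)], [(1, 128), (2, 64), (3, 128)], 4, [s31_14_n0], [-64, -64, -192, 64], (.leaf 0 [⟨1, []⟩, ⟨1, []⟩, ⟨1, []⟩, ⟨1, []⟩, ⟨1, []⟩, ⟨1, []⟩, ⟨1, []⟩, ⟨1, []⟩, ⟨1, []⟩, ⟨1, []⟩, ⟨1, []⟩, ⟨1, []⟩, ⟨1, []⟩, ⟨1, []⟩, ⟨1, []⟩, ⟨1, []⟩, ⟨1, []⟩])⟩

theorem s31_14_ok : s31_14.ok = true := by decide +kernel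

def s31_21_n0 : Node := ⟨[⟨[1], 104⟩, ⟨[1, -1], 104⟩, ⟨[1, 0, -1], 160⟩, ⟨[1, 0, 0, -1], 16⟩, ⟨[0, 0, 0, 1], 32⟩, ⟨[0, -1, 0, 1], 56⟩, ⟨[0, 0, 0, 1], -8⟩, ⟨[1, -1], 168⟩, ⟨[1, 0, -1], 88⟩, ⟨[1], 80⟩, ⟨[1, 0, -1], 120⟩, ⟨[1], 40⟩, ⟨[1], -24⟩, ⟨[0, 0, 0, 1], -72⟩, ⟨[1, -1], 32⟩, ⟨[-1, 0, 0, 1], -88⟩, ⟨[0, -1], 48⟩], [1], 0, none, (.ndet 1 [⟨1, [(16, 1)]⟩, ⟨1, [(9, 1)]⟩, ⟨1, [(14, 1)]⟩, ⟨1, [(13, 1)]⟩] (.ddet 2 [⟨1, [(12, 1)]⟩, ⟨1, [(9, 1), (1, 1)]⟩] (.ndet 2 [⟨1, [(16, 1)]⟩, ⟨1, [(12, 1)]⟩, ⟨1, [(9, 1)]⟩, ⟨1, [(14, 1)]⟩] (.ddet 1 [⟨1, [(16, 1)]⟩, ⟨1, [(14, 1)]⟩] (.ndet 3 [⟨1, [(16, 1)]⟩, ⟨1, [(16, 1)]⟩, ⟨1, [(12, 1)]⟩, ⟨1, [(9, 1)]⟩] (.ddet 0 [⟨1, [(1, 1)]⟩, ⟨1, [(0,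 1)]⟩] (.leaf 0 [⟨1, [(16, 1)]⟩, ⟨1, [(16, 1)]⟩, ⟨1, [(12, 1)]⟩, ⟨1, []⟩, ⟨1, [(16, 1)]⟩, ⟨1, [(16, 1)]⟩, ⟨1, [(16, 1)]⟩, ⟨1, [(16, 1)]⟩, ⟨1, [(12, 1)]⟩, ⟨1, [(16, 1)]⟩, ⟨1, [(12, 1)]⟩, ⟨1, [(16, 1)]⟩, ⟨1, [(16, 1)]⟩, ⟨1, [(16, 1)]⟩, ⟨1, [(16, 1)]⟩, ⟨1, []⟩, ⟨1, []⟩, ⟨1, []⟩])))))))⟩
def s31_21 : Sys := ⟨[(0, 0), (1, -64), (2, -64), (3, 64), (4, -80)], [(0, 16), (2, 0), (4, 48)], 4, [s31_21_n0], [144, -64, -48, 96], (.leaf 0 [⟨1, []⟩, ⟨1, []⟩, ⟨1, []⟩, ⟨1, []⟩, ⟨1, []⟩, ⟨1, []⟩, ⟨1, []⟩, ⟨1, []⟩, ⟨1, []⟩, ⟨1, []⟩, ⟨1, []⟩, ⟨1, []⟩, ⟨1, []⟩, ⟨1, []⟩, ⟨1, []⟩, ⟨1, []⟩, ⟨1, []⟩])⟩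

theorem s31_21_ok : s31_21.ok = true := by decide +kernel

end Pool.Agent.H81.RDE.Data
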