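import Pool.Agent.H81.RDE.System

/-! Data file (generated): certificates. -/

set_option maxRecDepth 100000

namespace Pool.Agent.H81.RDE.Data

def s3_24_t0 : Tree := .ddet 1 [⟨1, []⟩] (.ndet 1 [⟨4096, [(9, 899), (6, 395290), (4, 314), (2, 3943)]⟩] (.ddet 0 [⟨512, [(9, 27), (6, 11754), (4, 10), (2, 287)]⟩] (.ndet 1 [⟨2048, [(9, 791), (6, 348274), (4, 274), (2, 747)]⟩] (.ddet 0 [⟨4096, [(9, 683), (6, 301258), (4, 234), (2, 1647)]⟩] (.split [-1, 0, 1] (-4000) (.leaf 0 [⟨801, [(9, 98), (8, 120514), (4, 275), (2, 951)]⟩, ⟨1602, [(9, 61), (8, 70829), (4, 163), (2, 2055)]⟩, ⟨1, [(0, 1)]⟩, ⟨4096, [(10, 4303), (7, 1798658), (5, 1954), (0, 4931)]⟩, ⟨64,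 [(10, 73), (7, 27854), (5, 46), (0, 53)]⟩, ⟨1, []⟩, ⟨1, []⟩, ⟨1024, [(10, 1205), (7, 599158), (5, 86), (0, 1393)]⟩, ⟨256, [(10, 499), (7, 236858), (5, 90), (0, 535)]⟩, ⟨4096, [(10, 5189), (7, 2380630), (5, 1334), (0, 4033)]⟩, ⟨4096, [(10, 683), (7, 301258), (5, 234), (0, 1647)]⟩]) (.ndet 1 [⟨2048, [(10, 791), (7, 348274), (5, 274), (0, 1301)]⟩] (.ddet 0 [⟨4096, [(10, 899), (7, 395290), (5, 314), (0, 153)]⟩] (.leaf 0 [⟨4096, [(10, 683), (7, 301258), (5, 234), (0, 6545)]⟩, ⟨1, [(0, 1)]⟩, ⟨4096, [(10, 899), (7, 395290), (5, 314), (3, 3943)]⟩, ⟨4096, [(10, 5195), (7, 2359690), (5, 1450), (0, 7281)]⟩, ⟨4096, [(10, 6455), (7, 3049522), (5, 1234), (0,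 11637)]⟩, ⟨1, []⟩, ⟨1, []⟩, ⟨4096, [(10, 3037), (7, 1129766), (5, 2054), (0, 3975)]⟩, ⟨4096, [(10, 6201), (7, 2522862), (5, 3150), (0, 9179)]⟩, ⟨4096, [(10, 4297), (7, 1819598), (5, 1838), (0, 8331)]⟩, ⟨4096, [(10, 683), (7, 301258), (5, 234), (0, 2449)]⟩]))))))))
def s3_24_t1 : Tree := .nbr (.cons (.ddet 1 [⟨1, []⟩] (.ndet 1 [⟨4096, [(9, 899), (6, 395290), (4, 314), (0, 153)]⟩] (.ddet 0 [⟨512, [(9, 27), (6, 11754), (4, 10), (2, 287)]⟩] (.ndet 1 [⟨2048, [(9, 791), (6, 348274), (4, 274), (0, 1301)]⟩] (.ddet 0 [⟨4096, [(9, 683), (6, 301258), (4, 234), (2, 1647)]⟩] (.ndet 1 [⟨2048, [(9, 791), (6, 348274), (4, 274), (0, 3349)]⟩] (.ddet 0 [⟨4096, [(9,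 899), (6, 395290), (4, 314), (0, 4249)]⟩] (.leaf 0 [⟨4096, [(9, 683), (6, 301258), (4, 234), (0, 6545)]⟩, ⟨1, [(0, 1)]⟩, ⟨4096, [(9, 899), (6, 395290), (4, 314), (0, 153)]⟩, ⟨4096, [(9, 5195), (6, 2359690), (4, 1450), (2, 217999)]⟩, ⟨4096, [(9, 6455), (6, 3049522), (4, 1234), (2, 656011)]⟩, ⟨1, []⟩, ⟨1, []⟩, ⟨4096, [(9, 3037), (6, 1129766), (4, 2054), (0, 696199)]⟩, ⟨4096, [(9, 6201), (6, 2522862), (4, 3150), (0, 709595)]⟩, ⟨4096, [(9, 4297), (6, 1819598), (4, 1838), (0, 258187)]⟩, ⟨4096, [(9, 683), (6, 301258), (4, 234), (0, 6545)]⟩])))))))) (.cons s3_24_t0 .nil))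
def s3_24_t2 : Tree := .ddet 1 [⟨178, [(7, 15), (6, 18911), (2, 43), (0, 195)]⟩] (.ndet 0 [⟨1602, [(10, 2055), (7, 61), (6, 70829), (2, 163)]⟩] (.ddet 1 [⟨1602, [(10, 2055), (7, 61), (6, 70829), (2, 163)]⟩] (.ndet 1 [⟨801, [(7, 37), (6, 49685), (2, 112), (0, 1905)]⟩] (.ddet 1 [⟨1, [(10, 1)]⟩] (.ndet 1 [⟨1602, [(7, 209), (6, 269569), (2, 611), (0, 5565)]⟩] (.ddet 0 [⟨801, [(7, 37), (6, 49685), (2, 112), (0, 1104)]⟩] (.ndet 1 [⟨89, [(7, 15), (6, 18911), (2, 43), (0, 195)]⟩] (.ddet 0 [⟨178, [(7, 15), (6, 18911), (2, 43), (0, 195)]⟩] (.leaf 0 [⟨801, [(10, 150), (7, 98), (6, 120514), (2, 275)]⟩, ⟨1602, [(10, 2055), (7, 61), (6, 70829), (2, 163)]⟩, ⟨801,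 [(7, 37), (6, 49685), (2, 112), (0, 1905)]⟩, ⟨1602, [(7, 691), (6, 1138499), (2, 2503), (0, 134295)]⟩, ⟨801, [(7, 305), (6, 764257), (2, 1616), (0, 181965)]⟩, ⟨1, []⟩, ⟨1, []⟩, ⟨801, [(10, 171435), (7, 505), (6, 256937), (2, 706)]⟩, ⟨801, [(10, 167925), (7, 775), (6, 597335), (2, 1480)]⟩, ⟨1602, [(10, 113235), (7, 929), (6, 903889), (2, 2141)]⟩, ⟨178, [(7, 15), (6, 18911), (2, 43), (0, 373)]⟩])))))))))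
def s3_24_t3 : Tree := .dbr (.cons (.ndet 0 [⟨8, [(7, 1), (3, 1)]⟩] (.ddet 1 [⟨512, [(8, 27), (5, 11754), (3, 10), (1, 287)]⟩] (.ndet 0 [⟨8, [(7, 1), (3, 1)]⟩] (.ddet 1 [⟨4096, [(8, 683), (5, 301258), (3, 234), (1, 1647)]⟩] (.ndet 0 [⟨1602, [(7, 61), (6, 70829), (2, 163), (0, 2055)]⟩] (.ddet 1 [⟨1602, [(7, 61), (6, 70829), (2, 163), (0, 3657)]⟩] s3_24_t1)))))) (.cons (.ndet 0 [⟨178, [(7, 15), (6, 18911), (2, 43), (0, 195)]⟩] (.ddet 1 [⟨801, [(7, 37), (6, 49685), (2, 112), (0, 1104)]⟩] (.ndet 0 [⟨178, [(7, 15), (6, 18911), (2, 43), (0, 17)]⟩] s3_24_t2))) .nil))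
def s3_24_t4 : Tree := .dbr (.cons (.ndet 1 [⟨969, [(9, 403), (6, 177563), (5, 139), (0, 612)]⟩] (.ddet 0 [⟨646, [(9, 98), (6, 43345), (5, 33), (0, 459)]⟩] (.ndet 1 [⟨2048, [(9, 791), (6, 348274), (4, 274), (2, 1301)]⟩] (.ddet 0 [⟨4096, [(9, 899), (6, 395290), (4, 314), (2, 153)]⟩] (.leaf 0 [⟨4096, [(9, 683), (6, 301258), (4, 234), (2, 6545)]⟩, ⟨1, [(2, 1)]⟩, ⟨646, [(9, 98), (6, 43345), (5, 33), (0, 1105)]⟩, ⟨4096, [(9, 5195), (6, 2359690), (4, 1450), (2, 7281)]⟩, ⟨4096, [(9, 6455), (6, 3049522), (4, 1234), (2, 11637)]⟩, ⟨1, []⟩, ⟨1, []⟩, ⟨4096, [(9, 3037), (6, 1129766), (4, 2054), (2, 3975)]⟩, ⟨4096, [(9, 6201), (6, 2522862), (4, 3150), (2, 9179)]⟩,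 ⟨4096, [(9, 4297), (6, 1819598), (4, 1838), (2, 8331)]⟩, ⟨4096, [(9, 683), (6, 301258), (4, 234), (2, 2449)]⟩]))))) (.cons (.ndet 1 [⟨969, [(10, 1581), (9, 403), (6, 177563), (5, 139)]⟩] (.ddet 0 [⟨646, [(10, 459), (9, 98), (6, 43345), (5, 33)]⟩] (.ndet 1 [⟨969, [(9, 512), (6, 225091), (5, 179), (0, 153)]⟩] (.ddet 0 [⟨1938, [(9, 512), (6, 225091), (5, 179), (0, 153)]⟩] (.leaf 0 [⟨1938, [(9, 730), (6, 320147), (5, 259), (0, 3621)]⟩, ⟨969, [(9, 109), (6, 47528), (5, 40), (0, 1734)]⟩, ⟨646, [(10, 1105), (9, 98), (6, 43345), (5, 33)]⟩, ⟨1938, [(10, 148767), (9, 3208), (6, 1444811), (5, 955)]⟩, ⟨1938, [(10, 424167), (9, 3982), (6, 1848551), (5, 919)]⟩,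 ⟨1, []⟩, ⟨1, []⟩, ⟨1938, [(9, 2162), (6, 852541), (5, 1229), (0, 426003)]⟩, ⟨1938, [(9, 4210), (6, 1752905), (5, 1945), (0, 426615)]⟩, ⟨1938, [(9, 2936), (6, 1256281), (5, 1193), (0, 150603)]⟩, ⟨1938, [(9, 512), (6, 225091), (5, 179), (0, 153)]⟩]))))) .nil))
def s3_24_t5 : Tree := .nbr (.cons (.ddet 1 [⟨1, [(1, 1)]⟩] (.ndet 1 [⟨646, [(9, 1105), (8, 98), (5, 43345), (4, 33)]⟩] s3_24_t4)) (.cons (.ddet 1 [⟨1, [(1, 1)]⟩] (.ndet 1 [⟨4096, [(8, 899), (5, 395290), (3, 314), (0, 8039)]⟩] (.ddet 0 [⟨512, [(8, 27), (5, 11754), (3, 10), (0, 287)]⟩] (.ndet 1 [⟨2048, [(8, 791), (5, 348274), (3, 274), (0, 2795)]⟩] (.ddet 0 [⟨4096, [(8, 683), (5, 301258), (3,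 234), (0, 1647)]⟩] (.ndet 1 [⟨2048, [(8, 791), (5, 348274), (3, 274), (0, 747)]⟩] (.ddet 0 [⟨4096, [(8, 899), (5, 395290), (3, 314), (0, 3943)]⟩] (.leaf 0 [⟨4096, [(8, 683), (5, 301258), (3, 234), (1, 6545)]⟩, ⟨1, [(1, 1)]⟩, ⟨4096, [(8, 899), (5, 395290), (3, 314), (0, 8039)]⟩, ⟨4096, [(8, 5195), (5, 2359690), (3, 1450), (1, 232561)]⟩, ⟨4096, [(8, 6455), (5, 3049522), (3, 1234), (1, 679285)]⟩, ⟨1, []⟩, ⟨1, []⟩, ⟨4096, [(8, 3037), (5, 1129766), (3, 2054), (0, 688249)]⟩, ⟨4096, [(8, 6201), (5, 2522862), (3, 3150), (0, 691237)]⟩, ⟨4096, [(8, 4297), (5, 1819598), (3, 1838), (0, 241525)]⟩, ⟨4096, [(8, 683), (5, 301258), (3, 234), (0, 1647)]⟩]))))))))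 .nil))
def s3_24_t6 : Tree := .nbr (.cons s3_24_t3 (.cons (.ddet 0 [⟨512, [(7, 27), (4, 11754), (2, 10), (0, 225)]⟩] (.ndet 0 [⟨646, [(8, 1105), (7, 98), (4, 43345), (3, 33)]⟩] (.ddet 1 [⟨1, [(8, 1)]⟩] (.ndet 0 [⟨4096, [(7, 899), (4, 395290), (2, 314), (0, 153)]⟩] (.ddet 1 [⟨646, [(8, 459), (7, 98), (4, 43345), (3, 33)]⟩] (.ndet 0 [⟨4096, [(7, 683), (4, 301258), (2, 234), (0, 2449)]⟩] (.ddet 1 [⟨4096, [(7, 899), (4, 395290), (2, 314), (0, 153)]⟩] s3_24_t5))))))) .nil))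
def s3_24_n0 : Node := ⟨[⟨[0, 1, 0, -1], -200⟩, ⟨[0, 1, -1], -200⟩, ⟨[-1, 1], -200⟩, ⟨[-377, 278, 179, -512], 39252480⟩, ⟨[180, -468, 512, -207], 47311516⟩, ⟨[-1, 1, 0, -1], -1320⟩, ⟨[1, -1, 0, 1], 680⟩, ⟨[-180, 474, -512, 207], 30829476⟩, ⟨[-180, 476, -512, 207], 56978874⟩, ⟨[377, -272, -179, 512], 38888513⟩], [0, 1], 0, none, (.ndet 1 [⟨1602, [(8, 2055), (5, 61), (4, 70829), (0, 163)]⟩] (.ddet 0 [⟨1602, [(8, 453), (5, 61), (4, 72431), (0, 163)]⟩] s3_24_t6))⟩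
def s3_24 : Sys := ⟨[(0, -1000), (1, 0)], [(3, -1000), (4, 1000)], 4, [s3_24_n0], [16452541, 18771196, 12446184, 2319655], (.leaf 0 [⟨1, []⟩, ⟨1, []⟩, ⟨1, []⟩, ⟨1, []⟩, ⟨1, []⟩, ⟨1, []⟩, ⟨1, []⟩, ⟨1, []⟩, ⟨1, []⟩, ⟨1, []⟩])⟩

theorem s3_24_ok : s3_24.ok = true := by decide +kernel

def s5_10_n0 : Node := ⟨[⟨[0, -1], 120⟩, ⟨[1, 0, -1], 56⟩, ⟨[1], 16⟩, ⟨[1, 1], -40⟩, ⟨[0, -1], 56⟩], [1], 0, none, (.ndet 0 [⟨1, [(4, 1)]⟩] (.ddet 0 [⟨1, [(3, 1)]⟩] (.ndet 1 [⟨1, [(4, 1), (1, 1)]⟩] (.ddet 1 [⟨1, [(1, 1)]⟩] (.leaf 0 [⟨1, [(4, 1), (1, 1)]⟩, ⟨1, [(4, 1)]⟩, ⟨1, [(4, 2), (1, 1)]⟩, ⟨1, [(4, 1)]⟩, ⟨1, [(4, 1), (1, 1)]⟩, ⟨1, [(4, 1)]⟩])))))⟩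
def s5_10 : Sys := ⟨[(0, -32), (2, 80)], [(1, 80), (3, 64)], 3, [s5_10_n0], [144, -128, 16, 0], (.leaf 0 [⟨1, []⟩, ⟨1, []⟩, ⟨1, []⟩, ⟨1, []⟩, ⟨1, []⟩])⟩

theorem s5_10_ok : s5_10.ok = true := by decide +kernel

def s6_3_n0 : Node := ⟨[⟨[1, -1], 216⟩, ⟨[1], 88⟩, ⟨[1], 8⟩], [1], 0, none, (.ndet 0 [⟨1, [(2, 1)]⟩] (.ddet 1 [⟨1, [(1, 1)]⟩] (.ndet 1 [⟨1, [(1, 1)]⟩] (.ddet 0 [⟨1, []⟩] (.leaf 0 [⟨1, [(1, 1)]⟩, ⟨1, [(1, 1)]⟩, ⟨1, [(1, 1)]⟩, ⟨1, []⟩])))))⟩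
def s6_3 : Sys := ⟨[(1, -64), (2, 80)], [(0, -48), (1, 16)], 2, [s6_3_n0], [240, -48, 0, 0], (.leaf 0 [⟨1, []⟩, ⟨1, []⟩, ⟨1, []⟩])⟩

theorem s6_3_ok : s6_3.ok = true := by decide +kernel

def s6_9_n0 : Node := ⟨[⟨[-1, 1], 0⟩, ⟨[0, 0, -1], 104⟩, ⟨[-1, 1], 128⟩, ⟨[0, 1], -64⟩, ⟨[-1], 136⟩], [0, 1], 0, none, (.ndet 1 [⟨1, [(2, 1)]⟩] (.ddet 0 [⟨1, [(3, 1)]⟩] (.ndet 0 [⟨1, [(2, 1)]⟩] (.ddet 1 [⟨1, [(1, 1)]⟩] (.leaf 0 [⟨1, [(1, 1)]⟩, ⟨1, [(0, 1)]⟩, ⟨1, [(1, 1)]⟩, ⟨1, [(1, 1)]⟩, ⟨1, []⟩, ⟨1, []⟩])))))⟩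
def s6_9 : Sys := ⟨[(1, -48), (2, 96)], [(0, 64), (3, 160)], 3, [s6_9_n0], [-176, -32, -112, 0], (.leaf 0 [⟨1, []⟩, ⟨1, []⟩, ⟨1, []⟩, ⟨1, []⟩, ⟨1, []⟩])⟩

theorem s6_9_ok : s6_9.ok = true := by decide +kernel

def s9_4_t0 : Tree := .ddet 0 [] (.ndet 1 [⟨2, [(5, 1), (1, 1), (0, 1)]⟩] (.ddet 0 [] (.ndet 1 [⟨1, [(3, 1)]⟩] (.ddet 0 [] (.ndet 0 [⟨2, [(5, 1), (1, 1), (0, 1)]⟩] (.ddet 0 [] (.ndet 1 [⟨1, [(1, 1)]⟩] (.ddet 0 [] (.leaf 0 [⟨1, [(3, 1), (2, 1)]⟩, ⟨1, [(1, 1)]⟩, ⟨1, [(3, 2)]⟩, ⟨1, [(5, 1), (1, 1), (0, 1)]⟩, ⟨1, [(1, 2)]⟩, ⟨1, [(3, 1), (2, 1)]⟩, ⟨1, [(0, 1)]⟩])))))))))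
def s9_4_n0 : Node := ⟨[⟨[0, 0, 1], 48⟩, ⟨[0, -1], 40⟩, ⟨[-1], 40⟩, ⟨[0, -1, 1], 88⟩, ⟨[1, -1, 1], 48⟩, ⟨[-1, -1], 80⟩], [0, 0, 1], 0, none, (.ndet 1 [⟨1, [(5, 1)]⟩] (.ddet 0 [] (.ndet 0 [⟨1, [(4, 1)]⟩] (.ddet 0 [] (.ndet 0 [⟨1, [(3, 1)]⟩] s9_4_t0)))))⟩
def s9_4 : Sys := ⟨[(0, 0), (3, 0)], [(2, 0)], 3, [s9_4_n0], [-80, -80, 96, 0], (.leaf 0 [⟨1, []⟩, ⟨1, []⟩, ⟨1, []⟩, ⟨1, []⟩, ⟨1, []⟩, ⟨1, []⟩])⟩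

theorem s9_4_ok : s9_4.ok = true := by decide +kernel

def s16_6_t0 : Tree := .ddet 0 [⟨1, [(8, 1)]⟩] (.ndet 0 [] (.ddet 0 [⟨62, [(18, 11), (16, 28), (5, 20), (1, 19)]⟩] (.ndet 0 [] (.ddet 1 [⟨31, [(18, 10), (16, 17), (5, 21), (1, 6)]⟩] (.ndet 0 [] (.ddet 1 [⟨6, [(18, 1), (12, 2), (8, 4), (1, 1)]⟩] (.ndet 0 [] (.ddet 0 [⟨1, [(5, 1)]⟩] (.leaf 0 [⟨50, [(18, 1), (11, 1), (6, 10), (0, 7)]⟩, ⟨31, [(18, 10), (16, 17), (5, 21), (1, 6)]⟩, ⟨1, [(2, 1)]⟩, ⟨62, [(18, 3), (16, 2), (5, 90), (1, 39)]⟩, ⟨31, [(18, 3), (16, 2), (5, 59), (1, 8)]⟩, ⟨182, [(18, 70), (16, 111), (5, 363), (0, 11)]⟩, ⟨1, [(1, 1)]⟩, ⟨31, [(18, 3), (16, 2), (5, 59), (1, 39)]⟩, ⟨62, [(18,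 29), (16, 40), (5, 250), (1, 67)]⟩, ⟨26, [(18, 4), (16, 3), (5, 85), (0, 1)]⟩, ⟨94, [(18, 8), (8, 73), (5, 217), (0, 5)]⟩, ⟨31, [(18, 23), (16, 36), (5, 101), (1, 82)]⟩, ⟨62, [(18, 55), (16, 78), (5, 410), (1, 157)]⟩, ⟨31, [(18, 22), (16, 25), (5, 288), (1, 69)]⟩, ⟨1, [(5, 3)]⟩, ⟨47, [(18, 4), (8, 13), (5, 132), (0, 26)]⟩, ⟨1, [(0, 1)]⟩, ⟨6, [(18, 5), (16, 6), (13, 8), (1, 43)]⟩, ⟨94, [(18, 30), (8, 403), (5, 661), (0, 477)]⟩, ⟨1, [(4, 1)]⟩])))))))))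
def s16_6_t1 : Tree := .ndet 0 [] (.ddet 1 [⟨12, [(18, 5), (16, 6), (13, 2), (1, 1)]⟩] (.ndet 0 [] (.ddet 0 [⟨62, [(18, 5), (16, 24), (5, 26), (1, 3)]⟩] (.ndet 0 [] (.ddet 1 [⟨26, [(18, 4), (16, 3), (5, 7), (0, 1)]⟩] (.ndet 0 [] (.ddet 1 [⟨6, [(18, 1), (12, 2), (8, 4), (1, 1)]⟩] (.ndet 0 [] s16_6_t0))))))))
def s16_6_t2 : Tree := .ddet 1 [⟨34, [(18, 13), (8, 8), (5, 4), (1, 1)]⟩] (.ndet 0 [] (.ddet 1 [⟨12, [(18, 5), (16, 6), (13, 2), (1, 1)]⟩] (.ndet 0 [] (.ddet 0 [⟨182, [(18, 56), (16, 159), (5, 33), (0, 1)]⟩] (.ndet 0 [] (.ddet 0 [⟨1, [(12, 1)]⟩] (.ndet 0 [] (.ddet 1 [⟨6, [(18, 1), (12, 2), (8, 4), (1, 1)]⟩] s16_6_t1))))))))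
def s16_6_t3 : Tree := .ndet 0 [] (.ddet 1 [⟨1, [(18, 1)]⟩] (.ndet 0 [] (.ddet 1 [⟨12, [(18, 5), (16, 6), (13, 2), (1, 1)]⟩] (.ndet 0 [] (.ddet 0 [⟨1, [(16, 1)]⟩] (.ndet 0 [] (.ddet 0 [⟨33, [(12, 3), (8, 12), (4, 5), (1, 3)]⟩] (.ndet 0 [] s16_6_t2))))))))
def s16_6_n0 : Node := ⟨[⟨[-1, 1], 2048⟩, ⟨[1, 1, 0, -1], 3584⟩, ⟨[-1, 1, 1, -1], 512⟩, ⟨[2, 1, -2], 6144⟩, ⟨[1, 2, -2], 8192⟩, ⟨[0, 3, -1, -1], 8704⟩, ⟨[3, -1, -1], 1024⟩, ⟨[4, 1, -3], 9216⟩, ⟨[4, 4, -4, -1], 17920⟩, ⟨[0, 4, -3], 13312⟩, ⟨[-1, 3, -3, 1], 9728⟩, ⟨[9, 2, -4, -2], 17408⟩, ⟨[9, 6, -7, -2], 30720⟩, ⟨[8, 9, -10, -1], 40448⟩, ⟨[0, 3, -3], 9216⟩, ⟨[-5, 6, -3, 1], 13824⟩, ⟨[-9, 5, 0,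 1], 4608⟩, ⟨[23, -5, -4, -4], 12288⟩, ⟨[-49, 34, -11, 10], 53248⟩], [0, 1], 0, none, s16_6_t3⟩
def s16_6 : Sys := ⟨[(4, -1024)], [(1, 0), (2, 0)], 4, [s16_6_n0], [5120, 9216, 3072, 6144], (.leaf 0 [⟨1, []⟩, ⟨1, []⟩, ⟨1, []⟩, ⟨1, []⟩, ⟨1, []⟩, ⟨1, []⟩, ⟨1, []⟩, ⟨1, []⟩, ⟨1, []⟩, ⟨1, []⟩, ⟨1, []⟩, ⟨1, []⟩, ⟨1, []⟩, ⟨1, []⟩, ⟨1, []⟩, ⟨1, []⟩, ⟨1, []⟩, ⟨1, []⟩, ⟨1, []⟩])⟩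

theorem s16_6_ok : s16_6.ok = true := by decide +kernel

def s17_4_n0 : Node := ⟨[⟨[0, 0, 0, 1], 112⟩, ⟨[0, 0, 1], 88⟩, ⟨[0, -1], 104⟩, ⟨[-1], 80⟩, ⟨[-1], 72⟩], [0, 0, 1], 0, none, (.ndet 1 [⟨1, [(4, 1)]⟩] (.ddet 0 [] (.ndet 1 [⟨1, [(3, 1)]⟩] (.ddet 0 [] (.ndet 0 [⟨1, [(2, 1)]⟩] (.ddet 0 [] (.ndet 0 [⟨1, [(1, 1)]⟩] (.ddet 0 [] (.leaf 0 [⟨1, [(4, 1), (2, 1)]⟩, ⟨1, [(3, 1), (1, 1)]⟩, ⟨1, [(4, 1), (2, 1)]⟩, ⟨1, [(3, 1), (1, 1)]⟩, ⟨1, [(3, 1), (1, 1)]⟩, ⟨1, [(1, 1)]⟩])))))))))⟩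
def s17_4 : Sys := ⟨[(0, 32), (4, 32)], [(2, 16)], 4, [s17_4_n0], [-160, -208, 176, 224], (.leaf 0 [⟨1, []⟩, ⟨1, []⟩, ⟨1, []⟩, ⟨1, []⟩, ⟨1, []⟩])⟩

theorem s17_4_ok : s17_4.ok = true := by decide +kernel

def s20_6_n0 : Node := ⟨[⟨[0, 1, 0, -1], 24⟩, ⟨[-1, 1], 88⟩, ⟨[-1, 0, 1], 24⟩, ⟨[-1], -8⟩, ⟨[0, 1], 40⟩, ⟨[0, 0, -1], -8⟩, ⟨[-1, 0, 1], 56⟩, ⟨[0, 1, -1], -16⟩, ⟨[0, 1], 48⟩], [0, 1], 0, none, (.ndet 0 [⟨1, [(8, 1)]⟩] (.ddet 1 [⟨1, [(3, 1), (2, 1), (0, 1)]⟩] (.ndet 1 [⟨1, [(2, 1)]⟩] (.ddet 0 [⟨1, [(3, 1), (2, 1)]⟩] (.ndet 1 [⟨1, [(0, 1)]⟩] (.ddet 1 [⟨1, [(3, 1)]⟩] (.ndet 0 [⟨1, [(2, 1)]⟩] (.ddet 0 [⟨1, [(3, 1), (0, 1)]⟩] (.leaf 0 [⟨1, [(0, 1)]⟩,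 ⟨1, [(3, 1), (0, 2)]⟩, ⟨1, [(0, 1)]⟩, ⟨1, [(3, 1), (0, 1)]⟩, ⟨1, [(0, 1)]⟩, ⟨1, [(3, 1)]⟩, ⟨1, [(0, 1)]⟩, ⟨1, [(3, 1), (0, 1)]⟩, ⟨1, [(0, 1)]⟩, ⟨1, []⟩])))))))))⟩
def s20_6 : Sys := ⟨[(2, 0), (4, 16)], [(1, 16), (2, -32)], 4, [s20_6_n0], [-64, 64, 0, 32], (.leaf 0 [⟨1, []⟩, ⟨1, []⟩, ⟨1, []⟩, ⟨1, []⟩, ⟨1, []⟩, ⟨1, []⟩, ⟨1, []⟩, ⟨1, []⟩, ⟨1, []⟩])⟩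

theorem s20_6_ok : s20_6.ok = true := by decide +kernel

def s22_11_n0 : Node := ⟨[⟨[1, -1], 152⟩, ⟨[1, 0, 0, -1], 88⟩, ⟨[1], -16⟩, ⟨[1, 0, -1], 32⟩, ⟨[1], -96⟩, ⟨[1, 0, -1], -16⟩, ⟨[0, -1], 112⟩], [1], 0, none, (.ndet 0 [⟨1, [(6, 1)]⟩, ⟨1, [(5, 1)]⟩] (.ddet 1 [⟨1, [(4, 1)]⟩, ⟨1, [(3, 1)]⟩] (.ndet 1 [⟨1, [(4, 1)]⟩, ⟨1, [(3, 1)]⟩] (.ddet 0 [⟨1, []⟩, ⟨1, [(0, 1)]⟩] (.leaf 0 [⟨1, [(4, 1)]⟩, ⟨1, [(6, 1)]⟩, ⟨1, [(4, 1)]⟩, ⟨1, []⟩, ⟨1, [(4, 1)]⟩, ⟨1, []⟩, ⟨1, []⟩, ⟨1, []⟩])))))⟩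
def s22_11 : Sys := ⟨[(1, -80), (2, 32), (4, -64)], [(0, -32), (1, 64), (3, 64)], 4, [s22_11_n0], [64, -128, 0, -96], (.leaf 0 [⟨1, []⟩, ⟨1, []⟩, ⟨1, []⟩, ⟨1, []⟩, ⟨1, []⟩, ⟨1, []⟩, ⟨1, []⟩])⟩

theorem s22_11_ok : s22_11.ok = true := by decide +kernel

def s23_5_t0 : Tree := .nbr (.cons (.prune [(2, 1)]) (.cons (.prune [(23, 1), (13, 1), (1, 2), (0, 3)]) (.cons (.ddet 1 [⟨2, [(19, 1), (0, 1)]⟩] (.ndet 3 [⟨1, [(19, 1)]⟩, ⟨1, [(19, 1)]⟩, ⟨1, [(19, 1)]⟩] (.ddet 1 [⟨1, []⟩] (.leaf 0 [⟨1, [(4, 1)]⟩, ⟨1, [(19, 1)]⟩, ⟨1, [(19, 1)]⟩, ⟨1, [(4, 1)]⟩, ⟨1, [(4, 1)]⟩, ⟨1, [(4, 1)]⟩, ⟨1, [(4, 1)]⟩, ⟨1, [(4, 1)]⟩, ⟨1, []⟩, ⟨1, []⟩, ⟨1, [(19, 1)]⟩, ⟨1, [(19, 1)]⟩,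 ⟨1, []⟩, ⟨1, [(19, 1)]⟩, ⟨1, []⟩, ⟨1, []⟩, ⟨2, [(19, 1), (0, 1)]⟩, ⟨2, [(19, 3), (0, 1)]⟩, ⟨2, [(19, 3), (0, 1)]⟩, ⟨2, [(19, 1), (0, 1)]⟩, ⟨2, [(19, 3), (0, 1)]⟩, ⟨2, [(19, 1), (0, 1)]⟩, ⟨1, []⟩])))) (.cons (.ddet 1 [⟨2, [(26, 1), (12, 1)]⟩] (.nbr (.cons (.prune [(1, 1)]) (.cons (.ddet 1 [⟨1, []⟩] (.leaf 0 [⟨2, [(29, 2), (20, 2), (16, 2), (0, 5)]⟩, ⟨1, [(29, 1), (20, 1), (16, 1), (0, 2)]⟩, ⟨1, []⟩, ⟨2, [(0, 1)]⟩, ⟨2, [(0, 1)]⟩, ⟨2, [(0, 1)]⟩, ⟨2, [(29, 2), (20, 2), (16, 2), (0, 5)]⟩, ⟨2, [(29, 4), (20, 4), (16, 4), (0, 9)]⟩, ⟨1, []⟩, ⟨1, [(29, 1), (20, 1), (16, 1), (0, 2)]⟩, ⟨1, [(29, 2), (20, 2), (16, 2), (0, 4)]⟩, ⟨1, [(29, 1), (20, 1), (16,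 1), (0, 2)]⟩, ⟨1, [(29, 1), (20, 1), (16, 1), (0, 2)]⟩, ⟨1, []⟩, ⟨1, []⟩, ⟨1, [(29, 1), (20, 1), (16, 1), (0, 2)]⟩, ⟨2, [(29, 1), (15, 1)]⟩, ⟨2, [(29, 2), (20, 2), (16, 2), (0, 3)]⟩, ⟨2, [(29, 1), (15, 1)]⟩, ⟨2, [(29, 1), (15, 1)]⟩, ⟨2, [(29, 1), (15, 1)]⟩, ⟨2, [(29, 1), (15, 1)]⟩, ⟨1, [(0, 1)]⟩])) (.cons (.prune [(26, 2), (16, 2), (1, 1), (0, 5)]) (.cons (.ddet 1 [⟨1, []⟩] (.leaf 0 [⟨2, [(22, 1), (3, 1)]⟩, ⟨1, [(22, 1)]⟩, ⟨1, [(1, 1)]⟩, ⟨2, [(1, 1)]⟩, ⟨2, [(1, 1)]⟩, ⟨2, [(1, 1)]⟩, ⟨2, [(22, 1), (3, 1)]⟩, ⟨2, [(22, 1), (3, 3)]⟩, ⟨1, []⟩, ⟨1, [(3, 1)]⟩, ⟨1, [(22, 1), (3, 1)]⟩, ⟨1, [(22, 1)]⟩, ⟨1, [(3, 1)]⟩, ⟨1, [(1, 1)]⟩, ⟨1, []⟩, ⟨1, [(3, 1)]⟩,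 ⟨2, [(1, 1)]⟩, ⟨2, [(29, 1), (22, 1), (20, 1), (16, 1)]⟩, ⟨2, [(1, 3)]⟩, ⟨2, [(1, 1)]⟩, ⟨2, [(1, 3)]⟩, ⟨2, [(1, 1)]⟩, ⟨1, []⟩])) .nil)))))) .nil))))
def s23_5_t1 : Tree := .nbr (.cons (.prune [(24, 1), (20, 1), (17, 2), (7, 2), (1, 6)]) (.cons (.ddet 1 [⟨1, [(16, 1)]⟩] (.ndet 2 [⟨1, [(16, 1), (1, 1)]⟩, ⟨1, [(16, 1)]⟩, ⟨1, [(16, 1), (1, 2)]⟩] (.ddet 1 [⟨1, [(16, 1), (1, 1)]⟩] (.ndet 3 [⟨1, [(16, 1)]⟩, ⟨1, [(16, 1)]⟩, ⟨1, [(16, 1), (15, 1)]⟩] (.ddet 1 [⟨1, [(1, 1)]⟩] (.split [0, 2] (-9000) (.leaf 0 [⟨1, [(0, 1)]⟩, ⟨1, [(17, 1), (0, 1)]⟩, ⟨2, [(17, 2), (0, 1)]⟩, ⟨2, [(0, 3)]⟩, ⟨1, [(0, 1)]⟩, ⟨2, [(0, 1)]⟩, ⟨2, [(0, 1)]⟩, ⟨2, [(0, 1)]⟩, ⟨2, [(0, 1)]⟩,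 ⟨2, [(0, 1)]⟩, ⟨1, [(17, 1), (0, 1)]⟩, ⟨2, [(17, 2), (0, 1)]⟩, ⟨1, []⟩, ⟨1, [(17, 1)]⟩, ⟨1, [(2, 1)]⟩, ⟨1, [(2, 1)]⟩, ⟨1, [(17, 1)]⟩, ⟨2, [(17, 4), (0, 1)]⟩, ⟨1, [(17, 2)]⟩, ⟨1, [(17, 1), (2, 1)]⟩, ⟨1, [(17, 2), (2, 1)]⟩, ⟨1, [(17, 1), (2, 2)]⟩, ⟨2, [(0, 1)]⟩]) (.leaf 3 [⟨1, [(17, 1)]⟩, ⟨2, [(17, 2), (0, 1)]⟩, ⟨1, [(0, 1)]⟩, ⟨1, []⟩, ⟨1, [(17, 1), (16, 1)]⟩, ⟨1, [(17, 1), (16, 1)]⟩, ⟨1, []⟩, ⟨1, [(17, 1), (16, 1)]⟩, ⟨2, [(0, 1)]⟩, ⟨2, [(0, 1)]⟩, ⟨2, [(0, 1)]⟩, ⟨2, [(0, 1)]⟩, ⟨2, [(0, 1)]⟩, ⟨2, [(0, 1)]⟩, ⟨1, [(17, 1)]⟩, ⟨1, [(17, 2), (16, 1)]⟩, ⟨1, [(0, 1)]⟩, ⟨1, [(17, 2)]⟩, ⟨2, [(17, 2), (0, 1)]⟩, ⟨1, [(0, 1)]⟩, ⟨2, [(0, 1)]⟩]))))))) (.cons (.ddet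 1 [⟨1, [(16, 1)]⟩] s23_5_t0) (.cons (.prune [(24, 1), (10, 1), (1, 1), (0, 1)]) .nil))))
def s23_5_t2 : Tree := .ddet 1 [⟨1, [(12, 1)]⟩] (.ndet 1 [⟨1, [(20, 1), (13, 1), (1, 2)]⟩, ⟨1, [(20, 1), (1, 2)]⟩, ⟨1, [(21, 1), (13, 1), (1, 2)]⟩] (.ddet 1 [⟨1, [(13, 1)]⟩] (.ndet 2 [⟨1, [(20, 1), (13, 1), (1, 2)]⟩, ⟨1, [(13, 1)]⟩, ⟨1, [(20, 2), (13, 1), (1, 3)]⟩] (.ddet 1 [⟨1, [(20, 1), (13, 1), (1, 2)]⟩] (.ndet 3 [⟨1, [(13, 1)]⟩, ⟨1, [(13, 1)]⟩, ⟨1, [(24, 1), (13, 1), (12, 1)]⟩] (.ddet 1 [⟨1, [(20, 1), (1, 2)]⟩] (.split [2, 2, 0, -2] (-11000) (.leaf 0 [⟨1, [(0, 1)]⟩, ⟨1, [(14, 1), (0, 1)]⟩, ⟨2, [(14, 2), (0, 1)]⟩, ⟨2, [(0, 3)]⟩, ⟨1, [(0, 1)]⟩, ⟨2, [(0, 1)]⟩,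 ⟨2, [(0, 1)]⟩, ⟨2, [(0, 1)]⟩, ⟨2, [(0, 1)]⟩, ⟨2, [(0, 1)]⟩, ⟨1, [(14, 1), (0, 1)]⟩, ⟨2, [(14, 2), (0, 1)]⟩, ⟨1, []⟩, ⟨1, [(14, 1)]⟩, ⟨1, [(21, 1), (2, 2)]⟩, ⟨1, [(21, 1), (2, 2)]⟩, ⟨1, [(14, 1)]⟩, ⟨2, [(14, 4), (0, 1)]⟩, ⟨1, [(14, 2)]⟩, ⟨1, [(21, 1), (14, 1), (2, 2)]⟩, ⟨1, [(21, 1), (14, 2), (2, 2)]⟩, ⟨1, [(21, 2), (14, 1), (2, 4)]⟩, ⟨2, [(0, 1)]⟩]) (.leaf 3 [⟨1, [(14, 1)]⟩, ⟨2, [(14, 2), (0, 1)]⟩, ⟨1, [(0, 1)]⟩, ⟨1, []⟩, ⟨1, [(25, 1), (14, 1), (13, 1)]⟩, ⟨1, [(25, 1), (14, 1), (13, 1)]⟩, ⟨1, []⟩, ⟨1, [(25, 1), (14, 1), (13, 1)]⟩, ⟨2, [(0, 1)]⟩, ⟨2, [(0, 1)]⟩, ⟨2, [(0, 1)]⟩, ⟨2, [(0, 1)]⟩, ⟨2, [(0, 1)]⟩, ⟨2, [(0, 1)]⟩, ⟨1, [(14, 1)]⟩, ⟨1, [(25,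 1), (14, 2), (13, 1)]⟩, ⟨1, [(0, 1)]⟩, ⟨1, [(14, 2)]⟩, ⟨2, [(14, 2), (0, 1)]⟩, ⟨1, [(0, 1)]⟩, ⟨2, [(0, 1)]⟩]))))))))
def s23_5_n0 : Node := ⟨[⟨[1, 0, 0, -1], -200⟩, ⟨[1, 0, -1], -200⟩, ⟨[1, -1], -200⟩, ⟨[1, -1, -1, -1], -10087⟩, ⟨[1, -1, 0, -1], -4070⟩, ⟨[1, -1, 1, -1], -80⟩, ⟨[1, 0, 1, -1], 4675⟩, ⟨[1, 1, 1, -1], 8695⟩, ⟨[0, 0, -1], -7020⟩, ⟨[0, 1, -1], -3040⟩, ⟨[1, 1, -1], 237000⟩, ⟨[1], 239700⟩, ⟨[0, 1], 3680⟩, ⟨[1, -1, 1], 4680⟩, ⟨[0, 0, 1], 3680⟩, ⟨[0, 1, 1], 7660⟩, ⟨[0, 0, -1, 1], -1040⟩, ⟨[1, 0, -1, 1], 239700⟩, ⟨[1, -1, 0, 1], 3940⟩, ⟨[0, 0, 0, 1], 3680⟩, ⟨[1, -1, 1, 1], 8660⟩, ⟨[0, 0, 1, 1], 7660⟩], [1], 0, none, (.nbr (.cons (.prune [(21,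 1), (17, 1), (14, 2), (4, 2), (2, 6)]) (.cons (.ddet 1 [⟨1, [(12, 1)]⟩] s23_5_t1) (.cons (.prune [(20, 2), (8, 1), (4, 1), (1, 3)]) (.cons s23_5_t2 .nil)))))⟩
def s23_5_t3 : Tree := .ddet 1 [⟨1, [(10, 1), (1, 1)]⟩] (.ndet 3 [⟨1, [(10, 1)]⟩, ⟨1, [(10, 1)]⟩, ⟨1, [(16, 1), (10, 1)]⟩] (.ddet 1 [⟨1, [(1, 1)]⟩] (.nbr (.cons (.prune [(1, 1)]) (.cons (.ddet 1 [⟨1, []⟩] (.leaf 0 [⟨1, [(13, 1), (0, 1)]⟩, ⟨2, [(13, 2), (0, 1)]⟩, ⟨1, []⟩, ⟨2, [(0, 1)]⟩, ⟨2, [(0, 1)]⟩, ⟨2, [(0, 1)]⟩, ⟨1, [(13, 1), (0, 1)]⟩, ⟨2, [(13, 4), (0, 3)]⟩, ⟨1, []⟩, ⟨2, [(13, 2), (0, 1)]⟩, ⟨1, [(13, 2), (0, 1)]⟩, ⟨2, [(13, 2), (0, 1)]⟩, ⟨2, [(13, 2), (0, 1)]⟩, ⟨1, []⟩, ⟨1, []⟩, ⟨2, [(13,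 2), (0, 1)]⟩, ⟨1, [(4, 1)]⟩, ⟨1, [(13, 1)]⟩, ⟨1, [(4, 1)]⟩, ⟨1, [(4, 1)]⟩, ⟨1, [(4, 1)]⟩, ⟨1, [(4, 1)]⟩, ⟨2, [(0, 1)]⟩])) (.cons (.prune [(13, 2), (1, 1), (0, 1)]) (.cons (.ddet 1 [⟨1, []⟩] (.leaf 0 [⟨1, [(13, 1)]⟩, ⟨2, [(13, 2), (1, 1)]⟩, ⟨1, [(1, 1)]⟩, ⟨2, [(1, 1)]⟩, ⟨2, [(1, 1)]⟩, ⟨2, [(1, 1)]⟩, ⟨1, [(13, 1)]⟩, ⟨1, [(19, 1), (13, 2)]⟩, ⟨1, []⟩, ⟨1, [(19, 1), (13, 1)]⟩, ⟨1, [(13, 2)]⟩, ⟨2, [(13, 2), (1, 1)]⟩, ⟨1, [(19, 1), (13, 1)]⟩, ⟨1, [(1, 1)]⟩, ⟨1, []⟩, ⟨1, [(19, 1), (13, 1)]⟩, ⟨2, [(1, 1)]⟩, ⟨1, [(13, 1), (1, 1)]⟩, ⟨2, [(1, 3)]⟩, ⟨2, [(1, 1)]⟩, ⟨2, [(1, 3)]⟩, ⟨2, [(1, 1)]⟩, ⟨2, [(1, 1)]⟩])) .nil)))))))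
def s23_5_t4 : Tree := .nbr (.cons (.prune [(1, 1)]) (.cons (.ddet 1 [⟨1, []⟩] (.ndet 1 [⟨1, [(16, 1), (0, 1)]⟩, ⟨1, []⟩, ⟨2, [(21, 1), (16, 2), (12, 1), (0, 4)]⟩] (.ddet 1 [⟨1, [(16, 1), (0, 1)]⟩] (.leaf 1 [⟨1, [(16, 1), (0, 1)]⟩, ⟨1, []⟩, ⟨1, [(16, 1), (0, 1)]⟩, ⟨1, []⟩, ⟨1, []⟩, ⟨1, []⟩, ⟨1, [(16, 1), (0, 1)]⟩, ⟨1, []⟩, ⟨1, [(16, 1), (0, 1)]⟩, ⟨1, []⟩, ⟨1, []⟩, ⟨1, []⟩, ⟨1, []⟩, ⟨1, []⟩, ⟨1, []⟩, ⟨1, []⟩, ⟨1, [(0, 1)]⟩])))) (.cons (.prune [(16, 1), (0, 1)]) (.cons (.ddet 1 [⟨1, []⟩] (.ndet 1 [⟨1, [(16, 1)]⟩, ⟨1, [(1, 1)]⟩, ⟨2, [(17, 1), (16, 1), (3, 1)]⟩] (.ddet 1 [⟨1, [(3, 1)]⟩] (.split [1, 0, -1] (-1000) (.leaf 0 [⟨1, [(17, 1), (0, 1)]⟩, ⟨1,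 [(17, 1), (0, 2)]⟩, ⟨1, [(0, 1)]⟩, ⟨1, [(0, 2)]⟩, ⟨1, [(0, 1)]⟩, ⟨1, []⟩, ⟨1, [(17, 1)]⟩, ⟨1, [(17, 2)]⟩, ⟨1, [(0, 1)]⟩, ⟨1, [(17, 1), (0, 1)]⟩, ⟨1, [(17, 2), (0, 2)]⟩, ⟨1, [(17, 1), (0, 1)]⟩, ⟨1, [(17, 1)]⟩, ⟨1, []⟩, ⟨1, [(4, 1)]⟩, ⟨1, [(17, 1), (4, 1)]⟩, ⟨1, [(0, 1)]⟩, ⟨1, [(17, 1), (0, 2)]⟩, ⟨1, [(0, 1)]⟩, ⟨1, []⟩, ⟨1, []⟩, ⟨1, [(4, 1)]⟩, ⟨1, [(0, 1)]⟩]) (.leaf 1 [⟨1, [(17, 1)]⟩, ⟨1, [(2, 1)]⟩, ⟨1, [(0, 1)]⟩, ⟨1, []⟩, ⟨1, []⟩, ⟨1, []⟩, ⟨1, [(17, 1)]⟩, ⟨1, []⟩, ⟨1, [(17, 1)]⟩, ⟨1, []⟩, ⟨1, []⟩, ⟨1, [(2, 1)]⟩, ⟨1, [(2, 2)]⟩, ⟨1, []⟩, ⟨1, [(2, 1)]⟩, ⟨1, []⟩, ⟨1, []⟩]))))) .nil))))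
def s23_5_t5 : Tree := .nbr (.cons (.prune [(2, 1)]) (.cons (.prune [(15, 1), (13, 1), (6, 1), (1, 2), (0, 2)]) (.cons (.ddet 1 [⟨2, [(13, 1), (12, 1), (0, 1)]⟩] (.ndet 3 [⟨1, [(13, 1)]⟩, ⟨1, [(13, 1)]⟩, ⟨1, [(13, 1)]⟩] (.ddet 1 [⟨1, []⟩] (.ndet 1 [⟨1, [(13, 1)]⟩, ⟨1, [(13, 1)]⟩, ⟨1, [(4, 1)]⟩] (.ddet 1 [⟨1, []⟩] (.leaf 0 [⟨1, [(13, 1)]⟩, ⟨1, [(13, 1)]⟩, ⟨1, []⟩, ⟨1, []⟩, ⟨1, []⟩, ⟨1, []⟩, ⟨1, [(13, 1)]⟩, ⟨1, [(13, 2)]⟩, ⟨1, []⟩, ⟨1, [(13, 1)]⟩, ⟨1, [(13, 2)]⟩, ⟨1, [(13, 1)]⟩, ⟨1, [(13, 1)]⟩, ⟨1, []⟩, ⟨1, []⟩, ⟨1, [(13, 1)]⟩, ⟨1, []⟩, ⟨1, [(13, 1)]⟩, ⟨1, []⟩, ⟨1, []⟩, ⟨1, []⟩, ⟨1, []⟩, ⟨1, []⟩])))))) (.cons (.ddet 1 [⟨2, [(16, 1), (9, 1)]⟩] s23_5_t4)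 .nil))))
def s23_5_n1 : Node := ⟨[⟨[0, 1, 0, -1], -200⟩, ⟨[0, 1, -1], -200⟩, ⟨[-1, 1], -200⟩, ⟨[-1, 1, -1, -1], -10040⟩, ⟨[0, 0, 0, -1], -5020⟩, ⟨[1, -1, 1, -1], -40⟩, ⟨[1, 0, 1, -1], 239700⟩, ⟨[-1, 1, -1], -5320⟩, ⟨[0, 1], 239700⟩, ⟨[1, -1, 1], 4680⟩, ⟨[-1, 1, -1, 1], -1340⟩, ⟨[0, 1, -1, 1], 4680⟩, ⟨[1, 1, -1, 1], 9920⟩, ⟨[0, 0, 0, 1], 3680⟩, ⟨[1, 0, 0, 1], 9660⟩, ⟨[1, -1, 1, 1], 8660⟩], [0, 1], 0, none, (.nbr (.cons (.prune [(10, 1), (1, 1)]) (.cons (.ddet 1 [⟨1, [(10, 1)]⟩] (.ndet 2 [⟨1, [(10, 1), (1, 1)]⟩, ⟨1, [(10, 1)]⟩, ⟨1, [(11, 1), (10, 1), (1, 2)]⟩] s23_5_t3)) (.cons (.ddet 1 [⟨1, [(10, 1)]⟩] s23_5_t5) (.cons (.prune [(15, 1), (12, 1),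 (10, 1), (0, 2)]) .nil)))))⟩
def s23_5_t6 : Tree := .nbr (.cons (.prune [(1, 1)]) (.cons (.ddet 1 [⟨1, []⟩] (.ndet 1 [⟨2, [(22, 1), (11, 1), (6, 1)]⟩, ⟨1, []⟩, ⟨1, [(22, 1), (6, 1)]⟩] (.ddet 1 [⟨2, [(22, 1), (11, 1), (6, 1)]⟩] (.leaf 1 [⟨2, [(22, 1), (11, 1), (6, 1)]⟩, ⟨1, []⟩, ⟨2, [(22, 1), (11, 1), (6, 1)]⟩, ⟨1, []⟩, ⟨1, []⟩, ⟨1, []⟩, ⟨2, [(22, 1), (11, 1), (6, 1)]⟩, ⟨1, []⟩, ⟨2, [(22, 1), (11, 1), (6, 1)]⟩, ⟨1, []⟩, ⟨1, []⟩, ⟨1, []⟩, ⟨1, []⟩, ⟨1, []⟩, ⟨1, []⟩, ⟨1, []⟩, ⟨1, [(17, 1)]⟩])))) (.cons (.prune [(12, 1), (8, 1), (6, 2), (3, 3), (0, 5)]) (.cons (.ddet 1 [⟨1, []⟩] (.ndet 1 [⟨2, [(22, 1), (11, 1), (6, 1), (1, 2)]⟩, ⟨1, [(1, 1)]⟩, ⟨1, [(22,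 1), (6, 1), (1, 1)]⟩] (.ddet 1 [⟨2, [(22, 1), (11, 1), (6, 1)]⟩] (.leaf 1 [⟨2, [(22, 1), (11, 1), (6, 1), (1, 2)]⟩, ⟨1, [(1, 1)]⟩, ⟨2, [(22, 1), (11, 1), (6, 1)]⟩, ⟨1, []⟩, ⟨1, []⟩, ⟨1, []⟩, ⟨2, [(22, 1), (11, 1), (6, 1), (1, 2)]⟩, ⟨1, []⟩, ⟨2, [(22, 1), (11, 1), (6, 1), (1, 2)]⟩, ⟨1, []⟩, ⟨1, []⟩, ⟨1, [(1, 1)]⟩, ⟨1, [(1, 2)]⟩, ⟨1, []⟩, ⟨1, [(1, 1)]⟩, ⟨1, []⟩, ⟨1, [(17, 1), (1, 1)]⟩])))) .nil))))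
def s23_5_t7 : Tree := .nbr (.cons (.prune [(25, 1), (14, 1), (9, 1), (1, 2)]) (.cons (.ddet 1 [⟨2, [(25, 1), (14, 1), (9, 1)]⟩] (.split [0, 1, 0, -1] (-1000) (.leaf 1 [⟨2, [(26, 1), (15, 1), (10, 1), (0, 4)]⟩, ⟨1, [(0, 1)]⟩, ⟨2, [(26, 1), (15, 1), (10, 1)]⟩, ⟨1, [(0, 1)]⟩, ⟨1, [(0, 1)]⟩, ⟨1, [(0, 1)]⟩, ⟨2, [(26, 1), (15, 1), (10, 1), (0, 4)]⟩, ⟨1, []⟩, ⟨2, [(26, 1), (15, 1), (10, 1), (0, 2)]⟩, ⟨1, []⟩, ⟨1, [(7, 1)]⟩, ⟨1, []⟩, ⟨1, [(0, 1)]⟩, ⟨1, [(7, 1)]⟩, ⟨1, []⟩, ⟨1, [(7, 1)]⟩, ⟨1, [(21, 1), (0, 1)]⟩]) (.leaf 2 [⟨2, [(26, 1), (15, 1), (10, 1), (2, 2)]⟩, ⟨1, [(0, 1)]⟩, ⟨2, [(26, 1), (15, 1), (10, 1), (0, 2)]⟩, ⟨1, [(0, 1)]⟩, ⟨1, []⟩, ⟨1, [(2,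 1)]⟩, ⟨2, [(26, 1), (15, 1), (10, 1)]⟩, ⟨2, [(26, 1), (15, 1), (10, 1), (2, 4)]⟩, ⟨1, [(0, 1)]⟩, ⟨1, [(2, 1)]⟩, ⟨2, [(26, 1), (15, 1), (10, 1)]⟩, ⟨2, [(26, 1), (15, 1), (10, 1), (2, 2)]⟩, ⟨2, [(26, 1), (15, 1), (10, 1), (2, 4)]⟩, ⟨1, []⟩, ⟨2, [(26, 1), (15, 1), (10, 1)]⟩, ⟨1, [(0, 1)]⟩, ⟨1, []⟩, ⟨1, [(2, 1)]⟩, ⟨1, []⟩, ⟨2, [(26, 1), (15, 1), (10, 1), (0, 2)]⟩, ⟨1, [(21, 1)]⟩]))) (.cons (.ddet 1 [⟨2, [(25, 1), (14, 1), (9, 1)]⟩] (.leaf 2 [⟨2, [(22, 1), (18, 1), (4, 1)]⟩, ⟨1, [(1, 1)]⟩, ⟨2, [(25, 1), (14, 1), (9, 1)]⟩, ⟨1, []⟩, ⟨1, []⟩, ⟨1, []⟩, ⟨2, [(22, 1), (18, 1), (4, 1)]⟩, ⟨2, [(22, 1), (18, 1), (4, 1)]⟩, ⟨1, []⟩, ⟨1, []⟩, ⟨2, [(22, 1), (18,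 1), (4, 1)]⟩, ⟨2, [(22, 1), (18, 1), (4, 1)]⟩, ⟨2, [(22, 1), (18, 1), (4, 1)]⟩, ⟨1, [(1, 1)]⟩, ⟨2, [(25, 1), (14, 1), (9, 1)]⟩, ⟨1, []⟩, ⟨1, []⟩, ⟨1, []⟩, ⟨1, [(1, 1)]⟩, ⟨2, [(25, 1), (14, 1), (9, 1)]⟩, ⟨1, [(20, 1)]⟩])) (.cons (.prune [(25, 1), (9, 1), (0, 1)]) .nil))))
def s23_5_t8 : Tree := .nbr (.cons (.prune [(22, 1), (12, 4), (6, 3), (2, 2), (0, 5)]) (.cons (.ddet 1 [⟨2, [(18, 1), (13, 1), (0, 1)]⟩] (.ndet 1 [⟨2, [(19, 1), (15, 1), (11, 2), (0, 3)]⟩, ⟨2, [(19, 1), (15, 1), (0, 1)]⟩, ⟨1, [(19, 1), (11, 1), (0, 2)]⟩] (.ddet 1 [⟨1, [(11, 1), (0, 1)]⟩] (.ndet 2 [⟨2, [(19, 1), (15, 1), (11, 2), (0, 3)]⟩, ⟨1, [(11, 1), (0, 1)]⟩, ⟨1, [(19, 1), (15,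 1), (11, 1), (0, 2)]⟩] (.ddet 1 [⟨2, [(19, 1), (15, 1), (11, 2), (0, 3)]⟩] (.leaf 2 [⟨2, [(19, 1), (15, 1), (0, 1)]⟩, ⟨1, [(11, 1), (0, 1)]⟩, ⟨2, [(19, 1), (15, 1), (11, 2), (0, 3)]⟩, ⟨1, []⟩, ⟨1, []⟩, ⟨1, []⟩, ⟨2, [(19, 1), (15, 1), (0, 1)]⟩, ⟨2, [(19, 1), (15, 1), (0, 1)]⟩, ⟨1, []⟩, ⟨1, []⟩, ⟨2, [(19, 1), (15, 1), (0, 1)]⟩, ⟨2, [(19, 1), (15, 1), (0, 1)]⟩, ⟨2, [(19, 1), (15, 1), (0, 1)]⟩, ⟨1, [(11, 1), (0, 1)]⟩, ⟨2, [(19, 1), (15, 1), (11, 2), (0, 3)]⟩, ⟨1, []⟩, ⟨1, []⟩, ⟨1, []⟩, ⟨1, [(11, 1), (0, 1)]⟩, ⟨2, [(19, 1), (15, 1), (11, 2), (0, 3)]⟩, ⟨2, [(19, 1), (15, 1), (0, 3)]⟩])))))) (.cons (.prune [(22, 4), (12, 2), (6, 5), (1, 1), (0, 6)]) (.cons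 (.ddet 1 [⟨1, [(16, 1)]⟩] (.ndet 1 [⟨2, [(22, 1), (11, 1), (6, 1)]⟩, ⟨2, [(19, 1), (15, 1), (1, 1)]⟩, ⟨4, [(22, 3), (11, 1), (6, 1), (3, 2)]⟩] (.ddet 1 [⟨1, [(3, 1)]⟩] s23_5_t7))) .nil))))
def s23_5_n2 : Node := ⟨[⟨[0, 0, 1, -1], -200⟩, ⟨[0, -1, 1], -200⟩, ⟨[-1, 0, 1], -200⟩, ⟨[-1, -1, 1, -1], -10040⟩, ⟨[0, -1, 1, -1], -5320⟩, ⟨[1, -1, 1, -1], -1340⟩, ⟨[-1, 0, 1, -1], -4060⟩, ⟨[1, 0, 1, -1], 3940⟩, ⟨[-1], -5020⟩, ⟨[1], 3680⟩, ⟨[-1, 1], 920⟩, ⟨[0, 1], 4940⟩, ⟨[1, 1], 8920⟩, ⟨[1, -1, 1], 4675⟩, ⟨[0, 0, 1], 239700⟩, ⟨[-1, 1, -1, 1], -40⟩, ⟨[0, 1, -1, 1], 4680⟩, ⟨[1, 1, -1, 1], 8660⟩, ⟨[1, 0, 0, 1], 9695⟩, ⟨[-1, 1, 0, 1], 239700⟩], [0, 0, 1], 0, none,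 (.nbr (.cons (.prune [(9, 1), (5, 1), (3, 2), (1, 2), (0, 3)]) (.cons (.prune [(19, 1), (7, 1), (3, 2), (1, 2), (0, 2)]) (.cons (.ddet 1 [⟨2, [(8, 1), (6, 1), (0, 1)]⟩] (.ndet 3 [⟨1, [(8, 1)]⟩, ⟨1, [(8, 1)]⟩, ⟨2, [(19, 1), (8, 1), (3, 1)]⟩] (.ddet 1 [⟨1, [(13, 1)]⟩] s23_5_t6))) (.cons (.ddet 1 [⟨1, [(11, 1)]⟩] s23_5_t8) .nil)))))⟩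
def s23_5_t9 : Tree := .nbr (.cons (.prune [(17, 2), (14, 2), (8, 3), (6, 1), (1, 6)]) (.cons (.ddet 1 [⟨1, [(22, 1), (7, 1)]⟩] (.ndet 2 [⟨1, [(22, 1), (7, 1), (1, 1)]⟩, ⟨1, [(22, 1), (7, 1)]⟩, ⟨1, [(22, 1), (7, 1), (1, 2)]⟩] (.ddet 1 [⟨1, [(22, 1), (7, 1), (1, 1)]⟩] (.split [-1] (5000) (.leaf 2 [⟨1, [(0, 1)]⟩, ⟨1, [(23, 1), (8, 1)]⟩, ⟨1, [(23, 1), (8, 1), (0, 1)]⟩, ⟨1, []⟩, ⟨1, []⟩, ⟨1, []⟩, ⟨1, [(0, 1)]⟩, ⟨1, [(0, 1)]⟩, ⟨1, []⟩, ⟨1, []⟩, ⟨1, [(0, 1)]⟩, ⟨1, [(0, 1)]⟩, ⟨1, [(0, 1)]⟩, ⟨1, [(23, 1), (8, 1)]⟩, ⟨1, [(23, 1), (8, 1), (0, 1)]⟩, ⟨1, []⟩, ⟨1, []⟩, ⟨1, []⟩, ⟨1, [(23, 1), (8, 1)]⟩, ⟨1, [(23, 1), (8, 1), (0, 1)]⟩, ⟨1, [(23, 1), (0, 1)]⟩])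 (.leaf 3 [⟨1, [(0, 1)]⟩, ⟨1, [(23, 1), (8, 1), (0, 1)]⟩, ⟨1, [(23, 1), (8, 1)]⟩, ⟨1, [(0, 1)]⟩, ⟨1, [(0, 1)]⟩, ⟨1, []⟩, ⟨1, [(2, 1)]⟩, ⟨1, [(2, 1)]⟩, ⟨1, [(23, 1), (8, 1)]⟩, ⟨1, [(23, 1), (8, 1), (2, 1)]⟩, ⟨1, [(23, 1), (8, 1), (2, 2)]⟩, ⟨1, [(0, 2)]⟩, ⟨1, [(0, 1)]⟩, ⟨1, []⟩, ⟨1, []⟩, ⟨1, []⟩, ⟨1, [(23, 1), (8, 1), (0, 1)]⟩, ⟨1, [(23, 1), (8, 1), (0, 1)]⟩, ⟨1, [(23, 1), (8, 1)]⟩, ⟨1, [(23, 1), (8, 1), (2, 1)]⟩, ⟨1, [(23, 1)]⟩]))))) (.cons (.ddet 1 [⟨1, [(22, 1), (7, 1)]⟩] (.nbr (.cons (.prune [(2, 1)]) (.cons (.prune [(10, 1), (3, 1), (1, 2), (0, 2)]) (.cons (.ddet 1 [⟨2, [(25, 1), (10, 1), (0, 1)]⟩] (.leaf 3 [⟨1, [(4, 1)]⟩, ⟨1, [(25, 1), (10,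 1)]⟩, ⟨1, [(25, 1), (10, 1)]⟩, ⟨1, []⟩, ⟨1, []⟩, ⟨1, []⟩, ⟨1, []⟩, ⟨1, []⟩, ⟨2, [(25, 1), (10, 1), (0, 1)]⟩, ⟨2, [(25, 1), (10, 1), (0, 1)]⟩, ⟨2, [(25, 1), (10, 1), (0, 1)]⟩, ⟨1, [(4, 1)]⟩, ⟨1, [(4, 1)]⟩, ⟨1, [(4, 1)]⟩, ⟨1, [(4, 1)]⟩, ⟨1, [(4, 1)]⟩, ⟨1, [(25, 1), (10, 1)]⟩, ⟨1, [(25, 1), (10, 1)]⟩, ⟨1, [(25, 1), (10, 1)]⟩, ⟨1, [(25, 1), (10, 1)]⟩, ⟨1, [(25, 1)]⟩])) (.cons (.ddet 1 [⟨1, [(12, 1)]⟩] (.leaf 3 [⟨2, [(25, 1), (10, 1), (0, 1)]⟩, ⟨1, [(25, 1), (10, 1)]⟩, ⟨1, [(12, 2)]⟩, ⟨1, []⟩, ⟨1, [(0, 1)]⟩, ⟨1, [(0, 1)]⟩, ⟨1, []⟩, ⟨1, [(0, 1)]⟩, ⟨1, [(12, 1)]⟩, ⟨1, [(12, 1)]⟩, ⟨1, [(12, 1)]⟩, ⟨1, [(12, 1)]⟩, ⟨1, [(12, 1)]⟩, ⟨1, [(12, 1)]⟩, ⟨2, [(25,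 1), (10, 1), (0, 1)]⟩, ⟨2, [(25, 1), (10, 1), (0, 3)]⟩, ⟨1, [(12, 2)]⟩, ⟨1, [(25, 1), (10, 1), (0, 1)]⟩, ⟨1, [(25, 1), (10, 1)]⟩, ⟨1, [(12, 2)]⟩, ⟨1, [(25, 1)]⟩])) .nil)))))) (.cons (.prune [(22, 2), (7, 1), (0, 1)]) .nil))))
def s23_5_t10 : Tree := .nbr (.cons (.prune [(14, 2), (11, 2), (5, 3), (3, 1), (2, 6)]) (.cons (.ddet 1 [⟨1, [(17, 1)]⟩] s23_5_t9) (.cons (.prune [(14, 2), (11, 2), (3, 1), (1, 3)]) (.cons (.ddet 1 [⟨3, [(18, 2), (7, 1), (1, 1)]⟩] (.ndet 1 [⟨1, [(19, 1), (11, 1), (4, 1), (1, 2)]⟩, ⟨1, [(11, 1), (1, 2)]⟩, ⟨1, [(19, 2), (11, 1), (4, 1), (1, 2)]⟩] (.ddet 1 [⟨1, [(19, 1), (4, 1)]⟩] (.ndet 2 [⟨1, [(19, 1), (11, 1), (4, 1), (1,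 2)]⟩, ⟨1, [(19, 1), (4, 1)]⟩, ⟨1, [(19, 1), (11, 2), (4, 1), (1, 3)]⟩] (.ddet 1 [⟨1, [(19, 1), (11, 1), (4, 1), (1, 2)]⟩] (.split [-1, 1, 1, -1] (0) (.leaf 2 [⟨1, [(0, 1)]⟩, ⟨1, [(20, 1), (5, 1)]⟩, ⟨1, [(20, 1), (5, 1), (0, 1)]⟩, ⟨1, []⟩, ⟨1, []⟩, ⟨1, []⟩, ⟨1, [(0, 1)]⟩, ⟨1, [(0, 1)]⟩, ⟨1, []⟩, ⟨1, []⟩, ⟨1, [(0, 1)]⟩, ⟨1, [(0, 1)]⟩, ⟨1, [(0, 1)]⟩, ⟨1, [(20, 1), (5, 1)]⟩, ⟨1, [(20, 1), (5, 1), (0, 1)]⟩, ⟨1, []⟩, ⟨1, []⟩, ⟨1, []⟩, ⟨1, [(20, 1), (5, 1)]⟩, ⟨1, [(20, 1), (5, 1), (0, 1)]⟩, ⟨1, [(20, 1), (0, 1)]⟩]) (.leaf 3 [⟨1, [(0, 1)]⟩, ⟨1, [(20, 1), (5, 1), (0, 1)]⟩, ⟨1, [(20, 1), (5, 1)]⟩, ⟨1, [(0, 1)]⟩, ⟨1, [(0, 1)]⟩, ⟨1, []⟩, ⟨1, [(12, 1), (2,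 2)]⟩, ⟨1, [(12, 1), (2, 2)]⟩, ⟨1, [(20, 1), (5, 1)]⟩, ⟨1, [(20, 1), (12, 1), (5, 1), (2, 2)]⟩, ⟨1, [(20, 1), (12, 2), (5, 1), (2, 4)]⟩, ⟨1, [(0, 2)]⟩, ⟨1, [(0, 1)]⟩, ⟨1, []⟩, ⟨1, []⟩, ⟨1, []⟩, ⟨1, [(20, 1), (5, 1), (0, 1)]⟩, ⟨1, [(20, 1), (5, 1), (0, 1)]⟩, ⟨1, [(20, 1), (5, 1)]⟩, ⟨1, [(20, 1), (12, 1), (5, 1), (2, 2)]⟩, ⟨1, [(20, 1)]⟩]))))))) .nil))))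
def s23_5_n3 : Node := ⟨[⟨[0, 0, -1, 1], -200⟩, ⟨[0, -1, 0, 1], -200⟩, ⟨[-1, 0, 0, 1], -200⟩, ⟨[0, -1], -5020⟩, ⟨[1, -1], -1040⟩, ⟨[1], 3680⟩, ⟨[0, 1], 3680⟩, ⟨[1, 1], 7660⟩, ⟨[0, -1, 1], 920⟩, ⟨[0, 0, 1], 4940⟩, ⟨[0, 1, 1], 8920⟩, ⟨[-1, -1, -1, 1], -10058⟩, ⟨[-1, 0, -1, 1], -6060⟩, ⟨[-1, 1, -1, 1], -2080⟩, ⟨[0, 1, -1, 1], 4675⟩, ⟨[1, 1, -1, 1], 8695⟩, ⟨[-1, -1, 0, 1], -4107⟩, ⟨[1, -1, 0, 1], 239000⟩, ⟨[0, 0, 0, 1], 239700⟩, ⟨[-1, 1, 0, 1], 3900⟩], [0, 0, 0, 1], 0, none, (.ndet 3 [⟨1, [(1, 1)]⟩, ⟨2, [(3, 1), (0, 1)]⟩, ⟨1, [(16, 1), (1, 1)]⟩] (.ddet 1 [⟨1, [(13, 1)]⟩] s23_5_t10))⟩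
def s23_5 : Sys := ⟨[(0, -4000), (1, 3000), (2, 2000), (4, 4000)], [(0, 0), (2, -2000)], 4, [s23_5_n0, s23_5_n1, s23_5_n2, s23_5_n3], [241606, 178606, 4000, 36000], (.leaf 0 [⟨1, []⟩, ⟨1, []⟩, ⟨1, []⟩, ⟨1, []⟩, ⟨1, []⟩, ⟨1, []⟩, ⟨1, []⟩, ⟨1, []⟩, ⟨1, []⟩, ⟨1, []⟩, ⟨1, []⟩, ⟨1, []⟩, ⟨1, []⟩, ⟨1, []⟩, ⟨1, []⟩, ⟨1, []⟩, ⟨1, []⟩, ⟨1, []⟩, ⟨1, []⟩, ⟨1, []⟩, ⟨1, []⟩, ⟨1, []⟩])⟩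

theorem s23_5_ok : s23_5.ok = true := by decide +kernel

def s25_11_n0 : Node := ⟨[⟨[0, 0, 1], 40⟩, ⟨[0, 0, 1, -1], 40⟩, ⟨[0, 0, 1], 48⟩, ⟨[-1, 0, 1], 24⟩, ⟨[0, 0, 1], 32⟩, ⟨[0, -1, 1], 48⟩, ⟨[0, -1], -16⟩, ⟨[1], 8⟩, ⟨[1, -1], 32⟩, ⟨[1], 0⟩, ⟨[1], 40⟩, ⟨[-1, 0, 1], 16⟩, ⟨[0, 0, 1], 72⟩, ⟨[-1, 0, 1], 32⟩], [1], 0, none, (.ndet 1 [⟨1, [(1, 1)]⟩, ⟨1, [(12, 1)]⟩] (.ddet 2 [⟨1, [(1, 1)]⟩, ⟨1, [(0, 1)]⟩] (.ndet 2 [⟨1, [(1, 1)]⟩, ⟨1, [(5, 1), (0, 1)]⟩] (.ddet 1 [⟨1, []⟩, ⟨1, [(7, 1)]⟩] (.ndet 1 [⟨1, [(3, 1)]⟩, ⟨1, [(5, 1)]⟩] (.ddet 1 [⟨1, [(1, 1)]⟩, ⟨1, [(0, 1)]⟩] (.ndet 2 [⟨1, [(3, 1)]⟩, ⟨1, [(3, 1)]⟩] (.ddet 2 [⟨1, []⟩, ⟨1, [(0, 1)]⟩] (.leaf 0 [⟨1,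 [(1, 1)]⟩, ⟨1, [(1, 1)]⟩, ⟨1, [(1, 1)]⟩, ⟨1, [(0, 1)]⟩, ⟨1, [(1, 1)]⟩, ⟨1, [(1, 1), (0, 1)]⟩, ⟨1, [(0, 1)]⟩, ⟨1, [(3, 1)]⟩, ⟨1, [(1, 1)]⟩, ⟨1, [(3, 1)]⟩, ⟨1, [(3, 1)]⟩, ⟨1, [(0, 1)]⟩, ⟨1, [(1, 1)]⟩, ⟨1, [(0, 1)]⟩, ⟨1, []⟩])))))))))⟩
def s25_11 : Sys := ⟨[(0, -16), (3, 16), (4, 32)], [(0, -48), (1, -48), (3, -32)], 4, [s25_11_n0], [48, 0, 112, 48], (.leaf 0 [⟨1, []⟩, ⟨1, []⟩, ⟨1, []⟩, ⟨1, []⟩, ⟨1, []⟩, ⟨1, []⟩, ⟨1, []⟩, ⟨1, []⟩, ⟨1, []⟩, ⟨1, []⟩, ⟨1, []⟩, ⟨1, []⟩, ⟨1, []⟩, ⟨1, []⟩])⟩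

theorem s25_11_ok : s25_11.ok = true := by decide +kernel

def s26_2_n0 : Node := ⟨[⟨[-1, 0, 0, 1], 32⟩, ⟨[0, 0, -1, 1], 64⟩, ⟨[1, 1, 0, -1], -96⟩, ⟨[0, 1, -1], 160⟩, ⟨[-1, -1, 0, 1], 32⟩, ⟨[-1, 1], 128⟩, ⟨[-2, 0, 0, 1], 224⟩, ⟨[-2, -1, 0, 2], 96⟩, ⟨[-2, -1, 0, 2], 128⟩], [0, 1], 0, none, (.ndet 2 [⟨1, [(8, 1)]⟩, ⟨1, [(7, 1)]⟩] (.ddet 0 [] (.ndet 1 [⟨1, [(6, 1)]⟩, ⟨1, [(5, 1)]⟩] (.ddet 0 [] (.leaf 0 [⟨1, [(8, 1)]⟩, ⟨1, [(6, 1), (2, 1)]⟩, ⟨1, []⟩, ⟨1, [(2, 1)]⟩, ⟨1, []⟩, ⟨1, [(0, 1)]⟩, ⟨1, [(0, 1)]⟩, ⟨1, [(8, 1)]⟩, ⟨1, [(8, 1)]⟩, ⟨1, [(4, 1)]⟩])))))⟩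
def s26_2 : Sys := ⟨[(1, -128), (3, 0), (4, 64)], [(1, 64)], 4, [s26_2_n0], [-128, 192, -64, 128], (.leaf 0 [⟨1, []⟩, ⟨1, []⟩, ⟨1, []⟩, ⟨1, []⟩, ⟨1, []⟩, ⟨1, []⟩, ⟨1, []⟩, ⟨1, []⟩, ⟨1, []⟩])⟩

theorem s26_2_ok : s26_2.ok = true := by decide +kernel

def s26_5_n0 : Node := ⟨[⟨[1, 0, -1], 80⟩, ⟨[1, 0, 0, -1], 128⟩, ⟨[0, 1], 32⟩, ⟨[-1, 2], 56⟩, ⟨[0, 1, -1], 120⟩, ⟨[1], 8⟩, ⟨[1], -8⟩, ⟨[-1, 1], -8⟩, ⟨[-1, 1], 40⟩, ⟨[-1, 2], 24⟩, ⟨[-1, 1], 8⟩, ⟨[2, -1], -16⟩], [1], 0, none, (.ndet 0 [⟨1, [(11, 1)]⟩, ⟨1, [(10, 1)]⟩] (.ddet 1 [⟨1, [(3, 2), (0, 1)]⟩] (.ndet 1 [⟨1, [(3, 3), (0, 1)]⟩, ⟨1, [(7, 1)]⟩] (.ddet 1 [⟨1, [(3, 1), (0, 1)]⟩] (.ndet 2 [⟨1, [(3, 1),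 (0, 1)]⟩, ⟨1, [(3, 1)]⟩] (.ddet 0 [⟨1, [(3, 1)]⟩] (.ndet 0 [⟨1, [(3, 3), (0, 1)]⟩, ⟨1, [(3, 1)]⟩] (.ddet 1 [⟨1, [(3, 1)]⟩] (.leaf 0 [⟨1, [(0, 1)]⟩, ⟨1, [(3, 2), (0, 1)]⟩, ⟨1, [(3, 2), (0, 1)]⟩, ⟨1, [(3, 3), (0, 1)]⟩, ⟨1, [(3, 1), (0, 1)]⟩, ⟨1, [(3, 1), (0, 1)]⟩, ⟨1, [(3, 1), (0, 1)]⟩, ⟨1, [(3, 1)]⟩, ⟨1, [(3, 1)]⟩, ⟨1, [(3, 3), (0, 1)]⟩, ⟨1, [(3, 1)]⟩, ⟨1, [(0, 1)]⟩, ⟨1, []⟩])))))))))⟩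
def s26_5 : Sys := ⟨[(1, -16), (3, 16), (4, 80)], [(0, -48), (2, 48)], 4, [s26_5_n0], [112, 160, -16, -48], (.leaf 0 [⟨1, []⟩, ⟨1, []⟩, ⟨1, []⟩, ⟨1, []⟩, ⟨1, []⟩, ⟨1, []⟩, ⟨1, []⟩, ⟨1, []⟩, ⟨1, []⟩, ⟨1, []⟩, ⟨1, []⟩, ⟨1, []⟩])⟩

theorem s26_5_ok : s26_5.ok = true := by decide +kernel

def s26_10_n0 : Node := ⟨[⟨[-1, 0, 1], 568⟩, ⟨[0, 0, 1, -1], 832⟩, ⟨[-1, 0, 1], 600⟩, ⟨[0, 0, 1], 760⟩, ⟨[0, -1, 1], 712⟩, ⟨[0, -1], -80⟩, ⟨[0, -1, 1], 792⟩, ⟨[1], 112⟩, ⟨[1], 192⟩, ⟨[0, 0, 1], 840⟩], [1], 0, none, (.ndet 1 [⟨1, [(7, 1)]⟩, ⟨1, [(8, 1)]⟩] (.ddet 1 [⟨1, [(7, 1)]⟩] (.ndet 2 [⟨1, [(0, 1)]⟩, ⟨1, [(3, 1)]⟩] (.ddet 0 [⟨1, [(4, 1)]⟩] (.ndet 0 [⟨1, [(7, 1)]⟩,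 ⟨1, [(3, 1)]⟩] (.ddet 0 [⟨1, [(7, 1)]⟩] (.ndet 2 [⟨1, [(1, 1)]⟩, ⟨1, [(1, 1)]⟩] (.ddet 1 [⟨1, []⟩] (.leaf 0 [⟨1, [(7, 1)]⟩, ⟨1, [(0, 1)]⟩, ⟨1, [(7, 1)]⟩, ⟨1, [(0, 1)]⟩, ⟨1, [(0, 1)]⟩, ⟨1, []⟩, ⟨1, [(0, 1)]⟩, ⟨1, [(1, 1)]⟩, ⟨1, [(1, 1)]⟩, ⟨1, [(0, 1)]⟩, ⟨1, []⟩])))))))))⟩
def s26_10 : Sys := ⟨[(1, -80), (3, 16), (4, 112)], [(1, -144), (3, -112)], 4, [s26_10_n0], [256, 64, 1456, 128], (.leaf 0 [⟨1, []⟩, ⟨1, []⟩, ⟨1, []⟩, ⟨1, []⟩, ⟨1, []⟩, ⟨1, []⟩, ⟨1, []⟩, ⟨1, []⟩, ⟨1, []⟩, ⟨1, []⟩])⟩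

theorem s26_10_ok : s26_10.ok = true := by decide +kernel

def s28_21_n0 : Node := ⟨[⟨[0, 1, -1], 48⟩, ⟨[0, 1, 0, -1], 16⟩, ⟨[0, 1], 16⟩, ⟨[-1, 1], 32⟩, ⟨[0, 1, -1], 8⟩, ⟨[1], -24⟩, ⟨[1, 0, -1], -24⟩, ⟨[0, 1], 48⟩, ⟨[-1, 1], 72⟩, ⟨[0, 1], 40⟩, ⟨[-1], 8⟩], [0, 1], 0, none, (.ndet 0 [⟨1, [(10, 1)]⟩, ⟨1, [(9, 1)]⟩] (.ddet 1 [⟨1, [(3, 1)]⟩, ⟨1, [(9, 1)]⟩] (.ndet 1 [⟨1, [(2, 1)]⟩, ⟨1, [(10, 1)]⟩] (.ddet 1 [⟨1, [(5, 1)]⟩, ⟨1, [(4, 1)]⟩] (.ndet 2 [⟨1, [(3, 1)]⟩, ⟨1, [(2, 1)]⟩] (.ddet 2 [⟨1, [(3, 1)]⟩, ⟨1, [(3, 1)]⟩] (.leaf 0 [⟨1, [(2, 1)]⟩, ⟨1, [(2, 1), (0, 1)]⟩, ⟨1, [(2, 1)]⟩, ⟨1, [(2, 1)]⟩, ⟨1, [(2, 1)]⟩, ⟨1, []⟩, ⟨1, []⟩, ⟨1, [(2, 1)]⟩, ⟨1, [(2, 1)]⟩,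 ⟨1, [(2, 1)]⟩, ⟨1, []⟩, ⟨1, [(0, 1)]⟩])))))))⟩
def s28_21 : Sys := ⟨[(2, 16), (3, 32), (4, -32)], [(0, 0), (2, 32), (4, -16)], 4, [s28_21_n0], [-16, 64, -16, -16], (.leaf 0 [⟨1, []⟩, ⟨1, []⟩, ⟨1, []⟩, ⟨1, []⟩, ⟨1, []⟩, ⟨1, []⟩, ⟨1, []⟩, ⟨1, []⟩, ⟨1, []⟩, ⟨1, []⟩, ⟨1, []⟩])⟩

theorem s28_21_ok : s28_21.ok = true := by decide +kernel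

def s30_6_n0 : Node := ⟨[⟨[1, -1], 200⟩, ⟨[1, 0, -1], 216⟩, ⟨[1, 0, 0, -1], 0⟩, ⟨[1], 248⟩, ⟨[1, -1], 224⟩, ⟨[1, 0, -1], 208⟩, ⟨[1], 232⟩, ⟨[1], 224⟩, ⟨[1, -1], 192⟩], [1], 0, none, (.ndet 0 [⟨1, [(4, 1)]⟩, ⟨1, [(7, 1)]⟩, ⟨1, [(6, 1)]⟩] (.ddet 0 [⟨1, [(4, 1)]⟩] (.ndet 1 [⟨1, [(5, 1)]⟩, ⟨1, [(4, 1)]⟩, ⟨1, [(7, 1)]⟩] (.ddet 1 [⟨1, [(5, 1)]⟩] (.ndet 2 [⟨1, [(5, 1)]⟩, ⟨1, [(5, 1)]⟩, ⟨1, [(4, 1)]⟩] (.ddet 0 [⟨1, []⟩] (.leaf 0 [⟨1, [(5, 1)]⟩, ⟨1, [(5, 1)]⟩, ⟨1, []⟩, ⟨1, [(5, 1)]⟩, ⟨1, [(5, 1)]⟩, ⟨1, [(5, 1)]⟩, ⟨1, [(5, 1)]⟩, ⟨1, [(5, 1)]⟩, ⟨1, [(5, 1)]⟩, ⟨1, []⟩])))))))⟩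
def s30_6 : Sys := ⟨[(1, 16), (2, 0), (3, 32), (4, 0)], [(1, -16), (2, -32)], 4, [s30_6_n0], [448, 32, 32, 432], (.leaf 0 [⟨1, []⟩, ⟨1, []⟩, ⟨1, []⟩, ⟨1, []⟩, ⟨1, []⟩, ⟨1, []⟩, ⟨1, []⟩, ⟨1, []⟩, ⟨1, []⟩])⟩

theorem s30_6_ok : s30_6.ok = true := by decide +kernel

def s31_10_n0 : Node := ⟨[⟨[0, 1], 0⟩, ⟨[-1, 1], 8⟩, ⟨[0, 1, -1], -8⟩, ⟨[0, 1, 0, -1], -24⟩, ⟨[1, 0, -1], -48⟩, ⟨[-1, 1], 56⟩, ⟨[-2, 1], 96⟩, ⟨[-1], 24⟩, ⟨[-1, 1, -1], 48⟩, ⟨[-1], -8⟩], [0, 1], 0, none, (.ndet 2 [⟨1, [(9, 1)]⟩, ⟨1, [(4, 1)]⟩, ⟨1, [(5, 1), (4, 1)]⟩, ⟨1, [(6, 1)]⟩] (.ddet 0 [⟨1, [(5, 1)]⟩] (.ndet 1 [⟨1, [(4, 1)]⟩, ⟨1, [(3, 1)]⟩, ⟨1, [(2, 1)]⟩, ⟨1, [(5, 1), (3, 1)]⟩] (.ddet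 0 [⟨1, [(2, 1)]⟩] (.leaf 0 [⟨1, [(4, 1)]⟩, ⟨1, [(4, 1)]⟩, ⟨1, [(3, 1)]⟩, ⟨1, [(2, 1)]⟩, ⟨1, [(2, 1)]⟩, ⟨1, [(4, 1)]⟩, ⟨1, [(4, 1)]⟩, ⟨1, []⟩, ⟨1, [(3, 1)]⟩, ⟨1, []⟩, ⟨1, [(2, 1)]⟩])))))⟩
def s31_10 : Sys := ⟨[(0, 0), (1, -32), (2, 32), (3, -32), (4, -32)], [(1, 32), (3, -32)], 4, [s31_10_n0], [-48, 32, -16, 16], (.leaf 0 [⟨1, []⟩, ⟨1, []⟩, ⟨1, []⟩, ⟨1, []⟩, ⟨1, []⟩, ⟨1, []⟩, ⟨1, []⟩, ⟨1, []⟩, ⟨1, []⟩, ⟨1, []⟩])⟩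

theorem s31_10_ok : s31_10.ok = true := by decide +kernel

def s31_16_t0 : Tree := .ddet 0 [] (.ndet 2 [⟨1, [(16, 1), (4, 1)]⟩, ⟨1, [(4, 1)]⟩, ⟨1, [(16, 1), (4, 1)]⟩, ⟨1, [(9, 1)]⟩] (.ddet 0 [] (.ndet 3 [⟨1, [(16, 1), (4, 1)]⟩, ⟨1, [(4, 1), (1, 1)]⟩, ⟨1, [(4, 1)]⟩, ⟨1, [(16, 1), (4, 1)]⟩] (.ddet 0 [] (.ndet 4 [⟨1, [(16, 1), (4, 1)]⟩, ⟨1, []⟩, ⟨1, [(4, 1), (1, 1)]⟩, ⟨1, [(4, 1)]⟩] (.ddet 0 [] (.ndet 2 [⟨1, [(16, 1), (4, 1)]⟩, ⟨1, [(16, 1), (4, 1)]⟩, ⟨1, [(4, 1), (1, 1)]⟩, ⟨1, [(4, 1)]⟩] (.ddet 0 [] (.leaf 0 [⟨1, [(16, 1), (4, 1)]⟩, ⟨1, [(16, 1)]⟩, ⟨1, [(16, 1), (4, 1)]⟩, ⟨1, [(4, 1), (1, 1)]⟩, ⟨1, [(16, 1), (4, 1)]⟩, ⟨1, [(9, 1)]⟩, ⟨1, [(16, 1)]⟩,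 ⟨1, [(16, 1), (4, 1)]⟩, ⟨1, [(4, 1), (1, 1)]⟩, ⟨1, [(1, 1)]⟩, ⟨1, [(4, 1), (1, 1)]⟩, ⟨1, [(4, 1), (1, 1)]⟩, ⟨1, []⟩, ⟨1, [(1, 1)]⟩, ⟨1, [(4, 1)]⟩, ⟨1, [(4, 1), (1, 1)]⟩, ⟨1, []⟩, ⟨1, [(4, 1), (1, 1)]⟩, ⟨1, [(4, 1)]⟩, ⟨1, [(4, 1), (1, 1)]⟩, ⟨1, [(4, 1), (1, 1)]⟩, ⟨1, [(4, 1)]⟩, ⟨1, [(4, 1), (1, 1)]⟩, ⟨1, [(4, 1)]⟩, ⟨1, [(1, 1)]⟩, ⟨1, [(1, 1)]⟩, ⟨1, [(9, 1)]⟩])))))))))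
def s31_16_n0 : Node := ⟨[⟨[0, 0, 1], 256⟩, ⟨[-1, 0, 1], 0⟩, ⟨[0, -1, 1], 320⟩, ⟨[0, 0, 1, -1], 256⟩, ⟨[0, 0, 1], 320⟩, ⟨[0, 0, 0, 1], -96⟩, ⟨[-1, 0, 1], 224⟩, ⟨[0, -1, 1], 416⟩, ⟨[0, 0, 1, -1], 96⟩, ⟨[-1, 0, 1, -1], 192⟩, ⟨[0, -1, 1, -1], 288⟩, ⟨[0, 0, 1, -1], 224⟩, ⟨[0, 1], -224⟩, ⟨[-1, 0, 1, -1], 96⟩, ⟨[1, -1], 32⟩, ⟨[0, -1, 1, -1], 320⟩, ⟨[0, -1], 0⟩, ⟨[0, -1, 1, -1], 256⟩, ⟨[1, -1], 160⟩, ⟨[0, -1, 1, -1], 224⟩, ⟨[0, 0, 1, -1], 320⟩, ⟨[1, -1], 256⟩, ⟨[0, -1, 1, -1], 64⟩, ⟨[1, -1], 96⟩, ⟨[-1, 1, 1, -1], 96⟩, ⟨[-1, 1, 1, -1], 0⟩], [1], 0, none, (.ndet 3 [⟨1, [(21, 1)]⟩, ⟨1, [(19, 1)]⟩, ⟨1, [(19, 1), (4, 1)]⟩, ⟨1, [(4, 1), (1, 1)]⟩] (.ddet 0 []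 (.ndet 4 [⟨1, [(21, 1)]⟩, ⟨1, [(20, 1)]⟩, ⟨1, [(19, 1)]⟩, ⟨1, [(19, 1), (4, 1)]⟩] (.ddet 0 [] (.ndet 2 [⟨1, [(4, 1), (1, 1)]⟩, ⟨1, [(4, 1), (1, 1)]⟩, ⟨1, [(16, 1)]⟩, ⟨1, [(16, 1), (4, 1)]⟩] (.ddet 0 [] (.ndet 3 [⟨1, [(4, 1), (1, 1)]⟩, ⟨1, [(13, 1)]⟩, ⟨1, [(4, 1), (1, 1)]⟩, ⟨1, [(16, 1)]⟩] s31_16_t0)))))))⟩
def s31_16 : Sys := ⟨[(0, -64), (1, -320), (2, 0), (3, 64), (4, -64)], [(4, 0)], 4, [s31_16_n0], [256, -64, 640, 0], (.leaf 0 [⟨1, []⟩, ⟨1, []⟩, ⟨1, []⟩, ⟨1, []⟩, ⟨1, []⟩, ⟨1, []⟩, ⟨1, []⟩, ⟨1, []⟩, ⟨1, []⟩, ⟨1, []⟩, ⟨1, []⟩, ⟨1, []⟩, ⟨1, []⟩, ⟨1, []⟩, ⟨1, []⟩, ⟨1, []⟩, ⟨1, []⟩, ⟨1, []⟩, ⟨1, []⟩, ⟨1, []⟩, ⟨1, []⟩, ⟨1, []⟩, ⟨1, []⟩, ⟨1, []⟩, ⟨1,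 []⟩, ⟨1, []⟩])⟩

theorem s31_16_ok : s31_16.ok = true := by decide +kernel

end Pool.Agent.H81.RDE.Data
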