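import Pool.Agent.H81.RDE.System

/-! Data file (generated): certificates. -/

set_option maxRecDepth 100000

namespace Pool.Agent.H81.RDE.Data

def s2_24_t0 : Tree := .ddet 1 [⟨3, [(3, 1), (2, 1), (0, 3)]⟩] (.ndet 0 [] (.ddet 1 [⟨130737, [(3, 17605), (2, 17270), (1, 256), (0, 220514)]⟩] (.ndet 0 [] (.ddet 0 [⟨392211, [(5, 661542), (4, 768), (3, 75874), (2, 76879)]⟩] (.ndet 0 [] (.ddet 0 [⟨392211, [(5, 269331), (4, 768), (3, 206611), (2, 207616)]⟩] (.ndet 0 [] (.ddet 0 [⟨392211, [(4, 768), (3, 337348), (2, 338353), (0, 122880)]⟩] (.leaf 0 [⟨130737, [(3, 139973), (2, 138968), (1, 768), (0, 1053753)]⟩, ⟨130737, [(3, 35210), (2, 34540), (1, 512), (0, 571765)]⟩,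 ⟨130737, [(5, 530805), (4, 768), (3, 75874), (2, 76879)]⟩, ⟨130737, [(3, 955571), (2, 944851), (1, 8192), (0, 5487604)]⟩, ⟨130737, [(3, 322658), (2, 322323), (1, 256), (0, 1004936)]⟩, ⟨392211, [(4, 768), (3, 991033), (2, 992038), (0, 1691724)]⟩, ⟨392211, [(5, 3912060), (4, 24576), (3, 2297231), (2, 2329391)]⟩, ⟨3, [(3, 4), (2, 4), (0, 12)]⟩])))))))))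
def s2_24_t1 : Tree := .dbr (.cons (.ndet 0 [] (.ddet 0 [⟨3, [(4, 1), (3, 1), (0, 3)]⟩] (.ndet 0 [] (.ddet 0 [⟨3, [(4, 2), (3, 2), (0, 3)]⟩] (.leaf 0 [⟨269331, [(7, 1445964), (5, 2304), (4, 284296), (3, 287311)]⟩, ⟨89777, [(7, 351251), (5, 512), (4, 23276), (3, 23946)]⟩, ⟨220514, [(4, 17605), (3, 17270), (2, 256), (0, 571765)]⟩, ⟨89777, [(7, 2298267), (5, 8192), (4, 641747), (3, 652467)]⟩, ⟨269331, [(7, 122880), (5, 768), (4, 663353), (3, 664358)]⟩, ⟨220514, [(5, 256), (4, 496245), (3, 496580), (0, 310291)]⟩, ⟨661542, [(4, 2156161), (3, 2110936), (2, 34560), (0, 9049449)]⟩, ⟨220514, [(5, 256), (4, 275731), (3, 276066), (0, 89777)]⟩]))))) (.cons (.ndet 0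 [] (.ddet 0 [⟨392211, [(5, 768), (4, 75874), (3, 76879), (1, 661542)]⟩] (.ndet 0 [] (.ddet 0 [⟨392211, [(5, 768), (4, 206611), (3, 207616), (1, 661542)]⟩] (.split [-3, 1, 2] (4000) (.leaf 0 [⟨110257, [(6, 256), (5, 165474), (4, 165809), (1, 130737)]⟩, ⟨661542, [(6, 768), (5, 386165), (4, 387170), (1, 1053753)]⟩, ⟨1, [(0, 1)]⟩, ⟨114353, [(6, 17408), (5, 319263), (4, 342043), (0, 8934243)]⟩, ⟨571765, [(6, 1792), (5, 1396693), (4, 1399038), (0, 400068)]⟩, ⟨114353, [(6, 256), (5, 248536), (4, 248871), (0, 106161)]⟩, ⟨661542, [(5, 2156161), (4, 2110936), (3, 34560), (1, 126566661)]⟩, ⟨1715295, [(6, 3072), (5, 2067608), (4, 2071628), (0, 930873)]⟩]) (.ndet 0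 [] (.ddet 0 [⟨392211, [(6, 768), (5, 337348), (4, 338353), (2, 269331)]⟩] (.leaf 0 [⟨571765, [(6, 256), (5, 362889), (4, 363224), (0, 923016)]⟩, ⟨1, [(0, 1)]⟩, ⟨130737, [(6, 768), (5, 75874), (4, 76879), (2, 661542)]⟩, ⟨130737, [(5, 955571), (4, 944851), (3, 8192), (2, 4186934)]⟩, ⟨114353, [(6, 256), (5, 248536), (4, 248871), (0, 122545)]⟩, ⟨571765, [(6, 1792), (5, 1396693), (4, 1399038), (0, 171697)]⟩, ⟨571765, [(6, 60416), (5, 1592349), (4, 1671409), (0, 6278726)]⟩, ⟨1715295, [(6, 3072), (5, 2067608), (4, 2071628), (0, 784422)]⟩])))))))) .nil))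
def s2_24_t2 : Tree := .ndet 0 [] (.ddet 1 [⟨392211, [(4, 768), (3, 75874), (2, 76879), (0, 269331)]⟩] (.ndet 0 [] (.ddet 1 [⟨3, [(3, 1), (2, 1)]⟩] (.ndet 0 [] (.ddet 1 [⟨3, [(3, 1), (2, 1)]⟩] (.ndet 0 [] (.ddet 1 [⟨89777, [(6, 130737), (4, 256), (3, 11638), (2, 11973)]⟩] (.ndet 0 [] s2_24_t1))))))))
def s2_24_t3 : Tree := .dbr (.cons (.ndet 0 [] (.ddet 1 [⟨392211, [(5, 269331), (4, 768), (3, 75874), (2, 76879)]⟩] (.ndet 0 [] (.ddet 1 [⟨3, [(3, 1), (2, 1)]⟩] (.ndet 0 [] (.ddet 1 [⟨3, [(3, 1), (2, 1), (0, 3)]⟩] (.ndet 0 [] s2_24_t0))))))) (.cons s2_24_t2 .nil))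
def s2_24_n0 : Node := ⟨[⟨[0, 1, 0, -1], -200⟩, ⟨[0, 1, -1], -200⟩, ⟨[-1, 1], -200⟩, ⟨[17, -316, 512, -335], 61286400⟩, ⟨[-255, 256, 1, -256], 30643200⟩, ⟨[255, -253, -1, 256], 30643200⟩, ⟨[-17, 324, -512, 335], 61286400⟩], [0, 1], 0, none, (.ndet 0 [] (.ddet 0 [⟨15843, [(5, 7200), (3, 45), (2, 2087), (1, 2084)]⟩] (.ndet 0 [] (.ddet 0 [⟨1, [(5, 1)]⟩] (.ndet 0 [] s2_24_t3)))))⟩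
def s2_24 : Sys := ⟨[(1, -1000)], [(3, 0), (4, -1000)], 4, [s2_24_n0], [30246316, 60925885, 57317296, 30678569], (.leaf 0 [⟨1, []⟩, ⟨1, []⟩, ⟨1, []⟩, ⟨1, []⟩, ⟨1, []⟩, ⟨1, []⟩, ⟨1, []⟩])⟩

theorem s2_24_ok : s2_24.ok = true := by decide +kernel

def s4_10_n0 : Node := ⟨[⟨[-1, 0, 1], 392⟩, ⟨[0, 0, -1], 216⟩, ⟨[0, 0, -1], 240⟩, ⟨[0, 1, -1], 456⟩], [0, 1], 0, none, (.ndet 0 [] (.ddet 1 [⟨1, [(3, 1)]⟩] (.ndet 0 [] (.ddet 0 [⟨1, [(1, 1)]⟩] (.leaf 0 [⟨1, [(0, 1)]⟩, ⟨1, [(3, 1), (1, 1)]⟩, ⟨1, [(3, 1), (1, 1)]⟩, ⟨1, [(3, 1), (1, 1), (0, 1)]⟩, ⟨1, [(1, 1)]⟩])))))⟩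
def s4_10 : Sys := ⟨[(2, -32)], [(1, 32), (3, -16)], 3, [s4_10_n0], [-1200, 448, -464, 0], (.leaf 0 [⟨1, []⟩, ⟨1, []⟩, ⟨1, []⟩, ⟨1, []⟩])⟩

theorem s4_10_ok : s4_10.ok = true := by decide +kernel

def s6_10_n0 : Node := ⟨[⟨[1, -1], 56⟩, ⟨[1, 0, -1], 8⟩, ⟨[1], -8⟩, ⟨[0, -1], 24⟩, ⟨[1], 8⟩], [1], 0, none, (.ndet 0 [⟨1, [(4, 1)]⟩] (.ddet 0 [⟨1, [(3, 1)]⟩] (.ndet 1 [⟨1, [(0, 1)]⟩] (.ddet 0 [⟨1, [(1, 1)]⟩] (.leaf 0 [⟨1, [(0, 1)]⟩, ⟨1, []⟩, ⟨1, [(0, 1)]⟩, ⟨1, []⟩, ⟨1, [(0, 1)]⟩, ⟨1, []⟩])))))⟩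
def s6_10 : Sys := ⟨[(1, -16), (2, 16)], [(1, 16), (3, 0)], 3, [s6_10_n0], [48, -32, 16, 0], (.leaf 0 [⟨1, []⟩, ⟨1, []⟩, ⟨1, []⟩, ⟨1, []⟩, ⟨1, []⟩])⟩

theorem s6_10_ok : s6_10.ok = true := by decide +kernel

def s7_2_n0 : Node := ⟨[⟨[0, 1], 0⟩, ⟨[-1, 1], 64⟩, ⟨[-2, 1], 160⟩, ⟨[-1], 32⟩], [0, 1], 0, none, (.ndet 2 [⟨1, [(3, 1)]⟩, ⟨2, [(3, 1), (1, 1)]⟩] (.ddet 0 [] (.ndet 1 [⟨2, [(3, 1), (1, 1)]⟩, ⟨1, [(1, 1)]⟩] (.ddet 0 [] (.leaf 0 [⟨2, [(3, 1), (1, 1)]⟩, ⟨2, [(3, 1), (1, 1)]⟩, ⟨2, [(3, 1), (1, 1)]⟩, ⟨1, []⟩, ⟨1, [(0, 1)]⟩])))))⟩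
def s7_2 : Sys := ⟨[(0, 0), (1, 64), (2, 128)], [(1, 128)], 2, [s7_2_n0], [-64, 128, 0, 0], (.leaf 0 [⟨1, []⟩, ⟨1, []⟩, ⟨1, []⟩, ⟨1, []⟩])⟩

theorem s7_2_ok : s7_2.ok = true := by decide +kernel

def s7_3_n0 : Node := ⟨[⟨[1], 40⟩, ⟨[1, -1], 64⟩, ⟨[1], 16⟩, ⟨[1], 8⟩], [1], 0, none, (.ndet 1 [⟨1, [(3, 1)]⟩, ⟨1, [(2, 1)]⟩] (.ddet 1 [⟨1, [(3, 1)]⟩] (.ndet 2 [⟨1, [(3, 1)]⟩, ⟨1, [(3, 1)]⟩] (.ddet 0 [⟨1, []⟩] (.leaf 0 [⟨1, [(3, 1)]⟩, ⟨1, [(3, 1)]⟩, ⟨1, [(3, 1)]⟩, ⟨1, [(3, 1)]⟩, ⟨1, []⟩])))))⟩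
def s7_3 : Sys := ⟨[(0, 16), (1, 16), (2, 64)], [(0, 32), (1, 32)], 2, [s7_3_n0], [80, 0, 0, 0], (.leaf 0 [⟨1, []⟩, ⟨1, []⟩, ⟨1, []⟩, ⟨1, []⟩])⟩

theorem s7_3_ok : s7_3.ok = true := by decide +kernel

def s9_7_n0 : Node := ⟨[⟨[0, 0, -1], 248⟩, ⟨[0, 1], 232⟩, ⟨[-1, 1], 472⟩, ⟨[-1], 248⟩, ⟨[0, 2], 472⟩, ⟨[0, 1], 240⟩], [0, 1], 0, none, (.ndet 0 [⟨1, [(5, 1)]⟩] (.ddet 2 [⟨1, [(0, 1)]⟩, ⟨1, [(2, 1), (0, 1)]⟩] (.ndet 1 [⟨1, [(0, 1)]⟩] (.ddet 0 [⟨1, [(0, 1)]⟩, ⟨1, [(2, 1)]⟩] (.ndet 0 [⟨1, [(2, 1)]⟩] (.ddet 1 [⟨1, [(0, 1)]⟩, ⟨1, [(0, 2)]⟩] (.leaf 0 [⟨1, [(0, 1)]⟩, ⟨1, [(0, 1)]⟩, ⟨1, [(0, 2)]⟩, ⟨1, [(0, 1)]⟩, ⟨1, [(0, 2)]⟩, ⟨1, [(0, 1)]⟩, ⟨1, []⟩])))))))⟩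
def s9_7 : Sys := ⟨[(0, 0), (3, 16)], [(0, 0), (1, 0), (2, 16)], 3, [s9_7_n0], [-480, 480, -480, 0], (.leaf 0 [⟨1, []⟩, ⟨1, []⟩, ⟨1, []⟩, ⟨1, []⟩, ⟨1, []⟩, ⟨1, []⟩])⟩

theorem s9_7_ok : s9_7.ok = true := by decide +kernel

def s9_21_n0 : Node := ⟨[⟨[0, 0, 1], 24⟩, ⟨[0, -1], 24⟩, ⟨[0, 0, 0, -1], 8⟩, ⟨[0, -1], 32⟩, ⟨[0, 0, 1], 32⟩, ⟨[-1, 0, 1], 64⟩, ⟨[-1], 40⟩, ⟨[0, -1, 1], 48⟩, ⟨[0, 0, 1], 40⟩], [0, 0, 1], 0, none, (.ndet 1 [⟨1, [(0, 1)]⟩] (.ddet 0 [⟨1, [(5, 1)]⟩, ⟨1, [(6, 1)]⟩] (.ndet 0 [⟨1, [(5, 1)]⟩] (.ddet 2 [⟨1, [(0, 1)]⟩, ⟨1, [(2, 1), (0, 1)]⟩] (.ndet 0 [⟨1, [(2, 1)]⟩] (.ddet 1 [⟨1, [(0, 1)]⟩, ⟨1, [(5, 1), (0, 1)]⟩] (.leaf 0 [⟨1, [(0, 1)]⟩, ⟨1, [(0,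 1)]⟩, ⟨1, [(2, 1)]⟩, ⟨1, [(0, 1)]⟩, ⟨1, [(0, 1)]⟩, ⟨1, [(0, 2)]⟩, ⟨1, [(0, 1)]⟩, ⟨1, [(0, 2)]⟩, ⟨1, [(0, 1)]⟩, ⟨1, []⟩])))))))⟩
def s9_21 : Sys := ⟨[(0, -16), (3, 0)], [(0, -16), (2, -16), (4, -16)], 4, [s9_21_n0], [-64, -48, 64, -16], (.leaf 0 [⟨1, []⟩, ⟨1, []⟩, ⟨1, []⟩, ⟨1, []⟩, ⟨1, []⟩, ⟨1, []⟩, ⟨1, []⟩, ⟨1, []⟩, ⟨1, []⟩])⟩

theorem s9_21_ok : s9_21.ok = true := by decide +kernel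

def s13_16_t0 : Tree := .nbr (.cons (.prune [(9, 22689), (6, 37642), (4, 11597), (1, 9636352), (0, 3993592)]) (.cons (.ddet 0 [] (.ndet 1 [⟨9636352, [(9, 104353), (6, 37642), (4, 93261), (2, 5642760)]⟩, ⟨118, [(9, 1), (4, 1), (2, 118)]⟩] (.ddet 0 [] (.ndet 2 [⟨9636352, [(9, 104353), (6, 37642), (4, 93261), (2, 5642760)]⟩, ⟨9636352, [(9, 189601), (6, 37642), (4, 148301), (2, 10143752)]⟩] (.ddet 0 [] (.leaf 0 [⟨9636352, [(9, 189601), (6, 37642), (4, 148301), (2, 10143752)]⟩, ⟨1, [(2, 1)]⟩, ⟨13629944, [(9, 22689), (6, 37642), (4, 11597), (0, 3993592)]⟩, ⟨19234, [(9, 4631), (7, 1392754), (4, 8997), (0, 123310)]⟩, ⟨37642, [(9, 333), (4, 215), (2, 17582)]⟩,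 ⟨6814972, [(9, 3511), (6, 10030), (4, 21919), (0, 4247292)]⟩, ⟨9636352, [(9, 7518755), (5, 4629966), (4, 1149823), (2, 2443282984)]⟩, ⟨15667, [(10, 157760), (6, 10087), (4, 9106), (0, 1757487)]⟩, ⟨1204544, [(9, 664759), (6, 865766), (4, 409643), (2, 104488056)]⟩, ⟨9636352, [(9, 22689), (6, 37642), (4, 11597), (2, 5642760)]⟩])))))) (.cons (.ddet 0 [] (.ndet 1 [⟨6814972, [(9, 80443), (6, 37642), (4, 69351), (0, 2821380)]⟩, ⟨13629944, [(9, 138197), (6, 37642), (4, 127105), (0, 9636352)]⟩] (.ddet 0 [] (.ndet 2 [⟨6814972, [(9, 80443), (6, 37642), (4, 69351), (0, 2821380)]⟩, ⟨2250496, [(10, 1743096), (9, 50227), (6, 17582), (4, 32527)]⟩] (.ddet 0 [] (.leaf 0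 [⟨2250496, [(10, 1743096), (9, 50227), (6, 17582), (4, 32527)]⟩, ⟨13629944, [(9, 22689), (6, 37642), (4, 11597), (0, 9636352)]⟩, ⟨1, [(8, 1)]⟩, ⟨8791, [(10, 184965), (9, 2684), (7, 580206), (4, 3923)]⟩, ⟨4500992, [(10, 9128952), (9, 53811), (6, 17582), (4, 5903)]⟩, ⟨6814972, [(9, 3511), (6, 10030), (4, 21919), (0, 2567680)]⟩, ⟨4500992, [(10, 1045982680), (9, 9436287), (6, 2338406), (4, 1856203)]⟩, ⟨15667, [(10, 157760), (6, 10087), (4, 9106), (0, 2253265)]⟩, ⟨13629944, [(9, 9490195), (6, 13061774), (4, 5641271), (0, 835904448)]⟩, ⟨6814972, [(9, 22689), (6, 37642), (4, 11597), (0, 2821380)]⟩])))))) .nil)))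
def s13_16_t1 : Tree := .ddet 0 [] (.ndet 2 [⟨4818176, [(11, 106145), (8, 37642), (6, 79949), (3, 11379448)]⟩, ⟨81664, [(11, 1107), (8, 638), (6, 663), (3, 356200)]⟩] (.ddet 0 [] (.ndet 2 [⟨118, [(11, 1), (6, 1), (0, 236)]⟩, ⟨9636352, [(11, 9849), (7, 37642), (6, 20941), (0, 42539000)]⟩] (.ddet 0 [] (.ndet 1 [⟨4818176, [(11, 146977), (8, 37642), (6, 120781), (3, 6561272)]⟩, ⟨9636352, [(11, 271265), (8, 37642), (6, 229965), (0, 10143752)]⟩] (.ddet 0 [] (.ndet 2 [⟨4818176, [(11, 146977), (8, 37642), (6, 120781), (3, 6561272)]⟩, ⟨2409088, [(11, 106145), (8, 37642), (6, 79949), (3, 13788536)]⟩] (.ddet 0 [] (.leaf 0 [⟨2409088, [(11, 106145), (8, 37642), (6,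 79949), (3, 13788536)]⟩, ⟨118, [(11, 1), (6, 1), (0, 236)]⟩, ⟨9636352, [(11, 22689), (8, 37642), (6, 11597), (3, 23266296)]⟩, ⟨4818176, [(11, 7273075), (8, 715198), (6, 5491511), (3, 140553576)]⟩, ⟨81664, [(11, 1107), (8, 638), (6, 663), (3, 356200)]⟩, ⟨118, [(11, 1), (6, 1), (0, 118)]⟩, ⟨4818176, [(11, 12362177), (8, 6060362), (6, 7721709), (3, 2843530488)]⟩, ⟨4818176, [(11, 9928399), (7, 263494), (6, 10534683), (0, 1833094600)]⟩, ⟨4818176, [(11, 10070211), (8, 3726558), (6, 8760647), (3, 633676520)]⟩, ⟨4818176, [(11, 106145), (8, 37642), (6, 79949), (3, 6561272)]⟩])))))))))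
def s13_16_t2 : Tree := .split [-1, 1] (-10000) (.leaf 0 [⟨4818176, [(11, 106145), (8, 37642), (6, 79949), (0, 16197624)]⟩, ⟨10030, [(13, 18821), (11, 92), (6, 33)]⟩, ⟨1, [(0, 1)]⟩, ⟨1204544, [(11, 943821), (8, 489346), (6, 406921), (0, 93380952)]⟩, ⟨9636352, [(11, 22689), (8, 37642), (6, 11597), (0, 23266296)]⟩, ⟨10030, [(13, 8791), (11, 92), (6, 33)]⟩, ⟨9636352, [(11, 5354717), (8, 7114338), (6, 5282265), (0, 3359443480)]⟩, ⟨2567680, [(13, 976792436), (11, 6258517), (7, 351050), (6, 1521053)]⟩, ⟨4818176, [(11, 7411175), (8, 263494), (6, 7122075), (0, 165084360)]⟩, ⟨9636352, [(11, 107937), (8, 37642), (6, 66637), (0, 9128952)]⟩]) (.ndet 1 [⟨9636352, [(11,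 107937), (8, 37642), (6, 66637), (3, 18765304)]⟩, ⟨81664, [(11, 1107), (8, 638), (6, 663), (3, 356200)]⟩] (.ddet 0 [] (.ndet 1 [⟨9636352, [(11, 189601), (8, 37642), (6, 148301), (0, 507400)]⟩, ⟨118, [(11, 1), (6, 1), (0, 236)]⟩] (.ddet 0 [] (.ndet 2 [⟨9636352, [(11, 189601), (8, 37642), (6, 148301), (0, 507400)]⟩, ⟨9636352, [(11, 271265), (8, 37642), (6, 229965), (0, 10143752)]⟩] (.ddet 0 [] (.ndet 1 [⟨4818176, [(11, 106145), (8, 37642), (6, 79949), (3, 11379448)]⟩, ⟨4818176, [(11, 146977), (8, 37642), (6, 120781), (3, 6561272)]⟩] s13_16_t1)))))))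
def s13_16_t3 : Tree := .nbr (.cons (.prune [(10, 1), (5, 1), (1, 118), (0, 118)]) (.cons (.ddet 0 [] (.ndet 1 [⟨4864, [(12, 186983), (10, 607), (7, 19), (0, 52127)]⟩, ⟨4864, [(12, 146151), (10, 479), (7, 19), (0, 38815)]⟩] (.ddet 0 [] (.ndet 2 [⟨4864, [(12, 186983), (10, 607), (7, 19), (0, 52127)]⟩, ⟨2432, [(12, 148583), (10, 479), (7, 19), (0, 41247)]⟩] (.ddet 0 [] (.leaf 0 [⟨2432, [(12, 148583), (10, 479), (7, 19), (0, 41247)]⟩, ⟨38, [(12, 319), (10, 1), (0, 66)]⟩, ⟨38, [(12, 319), (10, 1), (0, 104)]⟩, ⟨608, [(12, 802603), (10, 2787), (7, 247), (0, 237427)]⟩, ⟨4864, [(12, 110183), (10, 351), (7, 19), (0, 30367)]⟩, ⟨38, [(12, 281), (10, 1), (0, 104)]⟩,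 ⟨4864, [(12, 19517195), (10, 61219), (7, 3591), (0, 4803171)]⟩, ⟨4864, [(12, 7558777), (10, 26869), (6, 665), (0, 2766237)]⟩, ⟨2432, [(12, 7821585), (10, 24665), (7, 133), (0, 2125785)]⟩, ⟨4864, [(12, 105319), (10, 351), (7, 19), (0, 30367)]⟩])))))) (.cons (.ddet 0 [] (.ndet 1 [⟨9636352, [(10, 189601), (7, 37642), (5, 148301), (2, 9128952)]⟩, ⟨513536, [(12, 50740), (10, 10123), (7, 2006), (5, 7763)]⟩] (.ddet 0 [] (.ndet 2 [⟨9636352, [(10, 189601), (7, 37642), (5, 148301), (2, 9128952)]⟩, ⟨4818176, [(10, 106145), (7, 37642), (5, 79949), (2, 16197624)]⟩] (.ddet 0 [] s13_16_t2))))) .nil)))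
def s13_16_t4 : Tree := .ddet 0 [] (.ndet 2 [⟨9636352, [(7, 104353), (4, 37642), (2, 93261), (0, 3993592)]⟩, ⟨513536, [(9, 50740), (7, 10123), (4, 2006), (2, 7763)]⟩] (.ddet 0 [] (.split [1, -1] (5000) (.leaf 0 [⟨9636352, [(8, 189601), (5, 37642), (3, 148301), (0, 507400)]⟩, ⟨1, [(0, 1)]⟩, ⟨9636352, [(8, 22689), (5, 37642), (3, 11597), (1, 13629944)]⟩, ⟨438016, [(8, 170603), (4, 112926), (3, 203879), (0, 21179112)]⟩, ⟨37642, [(8, 333), (3, 215), (0, 17582)]⟩, ⟨9636352, [(8, 19105), (5, 37642), (3, 38221), (1, 18130936)]⟩, ⟨9636352, [(8, 7518755), (4, 4629966), (3, 1149823), (0, 3628554280)]⟩, ⟨332288, [(8, 86521), (5, 359546), (3, 247237), (1, 146329912)]⟩,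 ⟨1204544, [(8, 664759), (5, 865766), (3, 409643), (1, 117148040)]⟩, ⟨9636352, [(8, 22689), (5, 37642), (3, 11597), (1, 3993592)]⟩]) (.ndet 1 [⟨9636352, [(8, 104353), (5, 37642), (3, 93261), (0, 13629944)]⟩, ⟨9636352, [(8, 189601), (5, 37642), (3, 148301), (0, 9128952)]⟩] (.ddet 0 [] (.ndet 2 [⟨9636352, [(8, 104353), (5, 37642), (3, 93261), (0, 13629944)]⟩, ⟨9636352, [(8, 22689), (5, 37642), (3, 11597), (0, 23266296)]⟩] (.ddet 0 [] s13_16_t3)))))))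
def s13_16_t5 : Tree := .ndet 2 [⟨10030, [(9, 8791), (7, 92), (2, 33)]⟩, ⟨10030, [(9, 18821), (7, 92), (2, 33)]⟩] (.ddet 0 [] (.ndet 1 [⟨9636352, [(7, 107937), (4, 37642), (2, 66637), (0, 9128952)]⟩, ⟨9636352, [(7, 104353), (4, 37642), (2, 93261), (0, 3993592)]⟩] (.ddet 0 [] (.ndet 2 [⟨9636352, [(7, 107937), (4, 37642), (2, 66637), (0, 9128952)]⟩, ⟨9636352, [(7, 107937), (4, 37642), (2, 66637), (0, 18765304)]⟩] (.ddet 0 [] (.ndet 1 [⟨9636352, [(7, 22689), (4, 37642), (2, 11597), (0, 13629944)]⟩, ⟨9636352, [(7, 22689), (4, 37642), (2, 11597), (0, 23266296)]⟩] (.ddet 0 [] (.ndet 1 [⟨9636352, [(7, 104353), (4, 37642), (2, 93261), (0, 3993592)]⟩, ⟨10030, [(9,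 18821), (7, 92), (2, 33)]⟩] s13_16_t4))))))))
def s13_16_t6 : Tree := .nbr (.cons (.prune [(7, 333), (2, 215), (1, 20060), (0, 17582)]) (.cons (.ddet 0 [] (.ndet 2 [⟨37642, [(7, 333), (2, 215), (0, 17582)]⟩, ⟨118, [(7, 1), (2, 1), (0, 118)]⟩] (.ddet 0 [] (.ndet 1 [⟨9636352, [(7, 107937), (4, 37642), (2, 66637), (0, 507400)]⟩, ⟨9636352, [(7, 104353), (4, 37642), (2, 93261), (0, 5642760)]⟩] (.ddet 0 [] (.ndet 2 [⟨9636352, [(7, 107937), (4, 37642), (2, 66637), (0, 507400)]⟩, ⟨4500992, [(8, 9128952), (7, 53811), (4, 17582), (2, 5903)]⟩] (.ddet 0 [] s13_16_t0))))))) (.cons (.ddet 0 [] s13_16_t5) .nil)))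
def s13_16_n0 : Node := ⟨[⟨[0, 0, -1, 1], -200⟩, ⟨[0, -1, 0, 1], -200⟩, ⟨[-1, 0, 0, 1], -200⟩, ⟨[170, 149, 0, -215], 51535500⟩, ⟨[0, 0, -1], 239700⟩, ⟨[0, 1, 1], 239700⟩, ⟨[56, -150, -256, 27], 61363200⟩, ⟨[-56, 150, 256, 127], 61363200⟩, ⟨[-170, -149, 0, 333], 79820100⟩], [0, 0, 0, 1], 0, none, (.ndet 1 [⟨17582, [(6, 20060), (5, 163), (0, 45)]⟩, ⟨4500992, [(6, 9128952), (5, 53811), (2, 17582), (0, 5903)]⟩] (.ddet 0 [] s13_16_t6))⟩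
def s13_16 : Sys := ⟨[(0, 2000), (2, -2000), (3, 3000)], [(4, -1000)], 4, [s13_16_n0], [1171444, 1213465, -850613, 1479107], (.leaf 0 [⟨1, []⟩, ⟨1, []⟩, ⟨1, []⟩, ⟨1, []⟩, ⟨1, []⟩, ⟨1, []⟩, ⟨1, []⟩, ⟨1, []⟩, ⟨1, []⟩])⟩

theorem s13_16_ok : s13_16.ok = true := by decide +kernel

def s14_20_n0 : Node := ⟨[⟨[-1, 1], 104⟩, ⟨[0, 1, -1], 160⟩, ⟨[0, 1, 0, -1], 136⟩, ⟨[0, 1], -56⟩, ⟨[-1, 1], 56⟩, ⟨[-1, 0, 1], -24⟩, ⟨[0, 1, -1], 88⟩, ⟨[-1, 1, -1], 248⟩, ⟨[0, 1], -24⟩, ⟨[0, 0, -1], 72⟩, ⟨[0, 0, 1], -144⟩, ⟨[0, 1], 8⟩], [0, 1], 0, none, (.ndet 1 [⟨1, [(10, 1), (6, 1)]⟩, ⟨1, [(10, 1)]⟩] (.ddet 0 [⟨1, [(9, 1)]⟩] (.ndet 2 [⟨1, [(10, 1), (1, 1)]⟩, ⟨1, [(10, 1), (6, 1)]⟩]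 (.ddet 1 [⟨1, [(6, 1)]⟩] (.ndet 0 [⟨1, [(10, 1)]⟩, ⟨1, [(4, 1)]⟩] (.ddet 1 [⟨1, [(10, 1), (1, 1)]⟩] (.leaf 0 [⟨1, [(10, 1), (1, 1)]⟩, ⟨1, [(10, 1)]⟩, ⟨1, [(4, 1)]⟩, ⟨1, [(10, 1)]⟩, ⟨1, [(10, 1), (1, 1)]⟩, ⟨1, [(1, 1)]⟩, ⟨1, [(10, 1)]⟩, ⟨1, [(10, 1), (1, 1)]⟩, ⟨1, [(10, 1)]⟩, ⟨1, []⟩, ⟨1, []⟩, ⟨1, [(10, 1)]⟩, ⟨1, [(2, 1)]⟩])))))))⟩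
def s14_20 : Sys := ⟨[(1, 0), (2, 16), (3, 128)], [(2, 112), (4, 176)], 4, [s14_20_n0], [-112, 112, -96, -96], (.leaf 0 [⟨1, []⟩, ⟨1, []⟩, ⟨1, []⟩, ⟨1, []⟩, ⟨1, []⟩, ⟨1, []⟩, ⟨1, []⟩, ⟨1, []⟩, ⟨1, []⟩, ⟨1, []⟩, ⟨1, []⟩, ⟨1, []⟩])⟩

theorem s14_20_ok : s14_20.ok = true := by decide +kernel

def s18_1_n0 : Node := ⟨[⟨[1, 0, 0, -1], 4⟩, ⟨[1, 0, -1], -20⟩, ⟨[1, -1], -48⟩], [1], 0, none, (.ndet 0 [⟨1, [(2, 1)]⟩] (.ddet 0 [] (.leaf 0 [⟨1, [(1, 1)]⟩, ⟨1, [(0, 1)]⟩, ⟨1, []⟩, ⟨1, []⟩])))⟩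
def s18_1 : Sys := ⟨[(1, 16), (4, -16)], [(0, -16)], 4, [s18_1_n0], [32, 0, 32, -48], (.leaf 0 [⟨1, []⟩, ⟨1, []⟩, ⟨1, []⟩])⟩

theorem s18_1_ok : s18_1.ok = true := by decide +kernel

def s23_14_n0 : Node := ⟨[⟨[1], 64⟩, ⟨[1, -1], 64⟩, ⟨[1, 0, 0, -1], 80⟩, ⟨[1, -1], 56⟩, ⟨[1, 0, -1], 48⟩, ⟨[1], 24⟩, ⟨[1, 0, -1], 64⟩, ⟨[1], 32⟩, ⟨[1, -1], 80⟩, ⟨[0, -1], 24⟩, ⟨[1], 8⟩, ⟨[1], 40⟩, ⟨[2], 56⟩, ⟨[1], 48⟩], [1], 0, none, (.ndet 1 [⟨1, [(13, 1)]⟩, ⟨1, [(13, 1), (4, 1)]⟩, ⟨1, [(11, 1)]⟩] (.ddet 0 [⟨1, [(13, 1), (4, 1)]⟩, ⟨1, [(7, 1)]⟩] (.ndet 2 [⟨1, [(13, 1)]⟩, ⟨1, [(13, 1)]⟩, ⟨1, [(7, 1)]⟩] (.ddet 1 [⟨1, [(13, 1)]⟩, ⟨1, [(13, 1), (4, 1)]⟩] (.ndet 0 [⟨1, []⟩, ⟨1,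 []⟩, ⟨1, [(4, 1)]⟩] (.ddet 2 [⟨1, [(13, 1)]⟩, ⟨1, [(13, 1)]⟩] (.ndet 3 [⟨1, [(13, 1)]⟩, ⟨1, [(13, 2)]⟩, ⟨1, [(13, 1)]⟩] (.ddet 2 [⟨1, [(13, 1)]⟩, ⟨1, []⟩] (.leaf 0 [⟨1, [(13, 1)]⟩, ⟨1, [(13, 2)]⟩, ⟨1, [(13, 1)]⟩, ⟨1, [(13, 2)]⟩, ⟨1, [(13, 1)]⟩, ⟨1, [(13, 1)]⟩, ⟨1, [(13, 1)]⟩, ⟨1, [(13, 1)]⟩, ⟨1, [(13, 2)]⟩, ⟨1, [(13, 1)]⟩, ⟨1, [(13, 1)]⟩, ⟨1, [(13, 1)]⟩, ⟨1, [(13, 2)]⟩, ⟨1, [(13, 1)]⟩, ⟨1, []⟩])))))))))⟩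
def s23_14 : Sys := ⟨[(0, 16), (1, -32), (2, -32), (4, 16)], [(1, 0), (2, -16), (3, 16)], 4, [s23_14_n0], [80, -48, 0, -32], (.leaf 0 [⟨1, []⟩, ⟨1, []⟩, ⟨1, []⟩, ⟨1, []⟩, ⟨1, []⟩, ⟨1, []⟩, ⟨1, []⟩, ⟨1, []⟩, ⟨1, []⟩, ⟨1, []⟩, ⟨1, []⟩, ⟨1, []⟩, ⟨1, []⟩, ⟨1, []⟩])⟩

theorem s23_14_ok : s23_14.ok = true := by decide +kernel

def s26_14_n0 : Node := ⟨[⟨[-1, 0, 1], 320⟩, ⟨[0, 0, 1, -1], 192⟩, ⟨[-1, 0, 1], 352⟩, ⟨[0, -1, 1], 224⟩, ⟨[0, 0, 1], 96⟩, ⟨[0, -1, 1], 160⟩, ⟨[-1], 224⟩, ⟨[0, -1], 32⟩, ⟨[0, 0, 1], 160⟩, ⟨[0, 0, 1], 64⟩], [0, 0, 1], 0, none, (.ndet 1 [⟨1, [(3, 1), (1, 1)]⟩, ⟨1, [(8, 1)]⟩] (.ddet 2 [⟨1, [(3, 1), (1, 1)]⟩, ⟨1, [(6, 1)]⟩] (.ndet 2 [⟨1, [(1,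 1)]⟩, ⟨1, [(6, 1)]⟩] (.ddet 0 [⟨1, [(3, 1)]⟩, ⟨1, [(2, 1)]⟩] (.ndet 0 [⟨1, [(3, 1), (1, 1)]⟩, ⟨1, [(6, 1)]⟩] (.ddet 0 [⟨1, [(1, 1)]⟩, ⟨1, [(3, 1), (1, 1)]⟩] (.ndet 1 [⟨1, []⟩, ⟨1, [(3, 1)]⟩] (.ddet 1 [⟨1, [(1, 1)]⟩, ⟨1, [(1, 1)]⟩] (.leaf 0 [⟨1, [(1, 2)]⟩, ⟨1, [(1, 1)]⟩, ⟨1, [(1, 2)]⟩, ⟨1, [(1, 1)]⟩, ⟨1, [(1, 1)]⟩, ⟨1, [(1, 1)]⟩, ⟨1, [(1, 1)]⟩, ⟨1, []⟩, ⟨1, [(1, 1)]⟩, ⟨1, [(1, 1)]⟩, ⟨1, []⟩])))))))))⟩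
def s26_14 : Sys := ⟨[(1, -64), (3, 0), (4, 64)], [(1, 0), (2, 64), (3, 0)], 4, [s26_14_n0], [-384, -64, 320, 0], (.leaf 0 [⟨1, []⟩, ⟨1, []⟩, ⟨1, []⟩, ⟨1, []⟩, ⟨1, []⟩, ⟨1, []⟩, ⟨1, []⟩, ⟨1, []⟩, ⟨1, []⟩, ⟨1, []⟩])⟩

theorem s26_14_ok : s26_14.ok = true := by decide +kernel

def s26_22_n0 : Node := ⟨[⟨[1, 0, -1], 24⟩, ⟨[1, 0, 0, -1], -8⟩, ⟨[1, -1], 24⟩, ⟨[0, -1], 8⟩, ⟨[0, 0, -1], -16⟩, ⟨[1], 32⟩, ⟨[1, 0, -1], 16⟩, ⟨[2], 56⟩, ⟨[1, -1], 16⟩, ⟨[1], 40⟩, ⟨[0, -1], 0⟩], [1], 0, none, (.ndet 0 [⟨1, [(10, 1)]⟩, ⟨1, [(9, 1)]⟩] (.ddet 0 [⟨1, [(7, 1), (1, 1)]⟩, ⟨1, [(9, 1)]⟩] (.ndet 0 [⟨1, [(7, 1)]⟩, ⟨1, [(6, 1)]⟩] (.ddet 1 [⟨1, [(1, 1)]⟩, ⟨1, [(10, 1)]⟩] (.ndet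 1 [⟨1, [(1, 2)]⟩, ⟨1, [(7, 1), (1, 1)]⟩] (.ddet 1 [⟨1, [(1, 1)]⟩, ⟨1, [(7, 1)]⟩] (.leaf 0 [⟨1, [(1, 1)]⟩, ⟨1, []⟩, ⟨1, [(1, 2)]⟩, ⟨1, [(1, 1)]⟩, ⟨1, []⟩, ⟨1, [(1, 1)]⟩, ⟨1, [(1, 1)]⟩, ⟨1, [(1, 2)]⟩, ⟨1, [(1, 2)]⟩, ⟨1, [(1, 1)]⟩, ⟨1, [(1, 1)]⟩, ⟨1, []⟩])))))))⟩
def s26_22 : Sys := ⟨[(1, 16), (3, 16), (4, -16)], [(1, 16), (2, 0), (4, -16)], 4, [s26_22_n0], [48, -16, 0, 32], (.leaf 0 [⟨1, []⟩, ⟨1, []⟩, ⟨1, []⟩, ⟨1, []⟩, ⟨1, []⟩, ⟨1, []⟩, ⟨1, []⟩, ⟨1, []⟩, ⟨1, []⟩, ⟨1, []⟩, ⟨1, []⟩])⟩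

theorem s26_22_ok : s26_22.ok = true := by decide +kernel

def s28_17_t0 : Tree := .ddet 0 [⟨1, [(9, 1)]⟩] (.ndet 2 [⟨1, [(18, 1), (7, 1)]⟩, ⟨1, [(7, 1)]⟩] (.ddet 1 [⟨1, [(18, 1), (7, 1)]⟩] (.ndet 0 [⟨1, [(18, 1), (7, 1)]⟩, ⟨1, [(7, 1)]⟩] (.ddet 1 [⟨1, [(18, 1)]⟩] (.ndet 1 [⟨1, [(18, 1), (7, 1)]⟩, ⟨1, [(18, 1), (7, 1)]⟩] (.ddet 1 [⟨1, []⟩] (.ndet 2 [⟨1, [(18, 1)]⟩, ⟨1, [(18, 1), (7, 1)]⟩] (.ddet 1 [⟨1, [(18, 1), (7, 1)]⟩] (.leaf 0 [⟨1, [(18, 1)]⟩, ⟨1, [(18, 1), (7, 1)]⟩, ⟨1, []⟩, ⟨1, [(18, 1), (7, 1)]⟩, ⟨1, [(18, 1)]⟩, ⟨1, [(7, 1)]⟩, ⟨1, [(18, 1), (7, 1)]⟩, ⟨1, [(18, 1), (7, 1)]⟩, ⟨1, [(18, 1), (7, 1)]⟩, ⟨1, []⟩, ⟨1, [(18, 1), (7, 1)]⟩, ⟨1, [(7, 1)]⟩,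 ⟨1, [(18, 1), (7, 1)]⟩, ⟨1, [(7, 1)]⟩, ⟨1, [(18, 1)]⟩, ⟨1, [(18, 1), (7, 1)]⟩, ⟨1, [(18, 1), (7, 1)]⟩, ⟨1, [(18, 1)]⟩, ⟨1, [(18, 1), (7, 1)]⟩, ⟨1, []⟩])))))))))
def s28_17_n0 : Node := ⟨[⟨[0, 1, -1], 72⟩, ⟨[0, 1, 0, -1], 200⟩, ⟨[0, 0, 0, -1], 128⟩, ⟨[-1, 1], 208⟩, ⟨[0, 1, -1], -32⟩, ⟨[0, 0, 1], 72⟩, ⟨[-1, 1], 264⟩, ⟨[0, 1], 112⟩, ⟨[-1, 1], 160⟩, ⟨[-1], 128⟩, ⟨[0, 1], 160⟩, ⟨[0, 0, 1], 176⟩, ⟨[0, 1], 104⟩, ⟨[0, 0, 1], 24⟩, ⟨[0, 1, -1], 0⟩, ⟨[0, 1], 0⟩, ⟨[0, 1], 8⟩, ⟨[0, 1, -1], 48⟩, ⟨[0, 1], 64⟩], [0, 1], 0, none, (.ndet 0 [⟨1, [(18, 1)]⟩, ⟨1, [(18, 1), (16, 1), (7, 1)]⟩] (.ddet 0 [⟨1, [(16, 1)]⟩] (.ndet 1 [⟨1, [(18, 1), (9, 1), (7, 1)]⟩, ⟨1, [(18, 1)]⟩]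 (.ddet 1 [⟨1, [(7, 1)]⟩] (.ndet 0 [⟨1, [(18, 1), (9, 1), (7, 1)]⟩, ⟨1, []⟩] (.ddet 1 [⟨1, [(18, 1), (7, 1)]⟩] (.ndet 1 [⟨1, [(7, 1)]⟩, ⟨1, [(18, 1), (9, 1), (7, 1)]⟩] s28_17_t0)))))))⟩
def s28_17 : Sys := ⟨[(2, 0), (3, 64), (4, -80)], [(0, -16), (4, 80)], 4, [s28_17_n0], [-160, 320, 240, -160], (.leaf 0 [⟨1, []⟩, ⟨1, []⟩, ⟨1, []⟩, ⟨1, []⟩, ⟨1, []⟩, ⟨1, []⟩, ⟨1, []⟩, ⟨1, []⟩, ⟨1, []⟩, ⟨1, []⟩, ⟨1, []⟩, ⟨1, []⟩, ⟨1, []⟩, ⟨1, []⟩, ⟨1, []⟩, ⟨1, []⟩, ⟨1, []⟩, ⟨1, []⟩, ⟨1, []⟩])⟩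

theorem s28_17_ok : s28_17.ok = true := by decide +kernel

def s29_2_n0 : Node := ⟨[⟨[0, 1], 56⟩, ⟨[0, 1, -1], 48⟩, ⟨[0, 1, 0, -1], 8⟩, ⟨[0, 1], 64⟩, ⟨[-1, 1], 72⟩, ⟨[0, 1, -1], 56⟩, ⟨[-1], 8⟩], [0, 1], 0, none, (.ndet 1 [⟨1, [(3, 1)]⟩, ⟨1, [(1, 1)]⟩, ⟨1, [(4, 1)]⟩] (.ddet 0 [] (.ndet 2 [⟨1, [(3, 1)]⟩, ⟨1, [(2, 1)]⟩, ⟨1, [(1, 1)]⟩] (.ddet 0 [] (.leaf 0 [⟨1, [(2, 1)]⟩, ⟨1, [(2, 1), (0, 1)]⟩, ⟨1, [(0, 1)]⟩, ⟨1, [(2, 1)]⟩, ⟨1, [(2, 1), (0, 1)]⟩, ⟨1, [(2, 1), (0, 1)]⟩, ⟨1, [(0, 1)]⟩, ⟨1, [(0, 1)]⟩])))))⟩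
def s29_2 : Sys := ⟨[(0, 16), (2, 0), (3, -16), (4, -16)], [(1, -16)], 4, [s29_2_n0], [-32, 96, -16, 64], (.leaf 0 [⟨1, []⟩, ⟨1, []⟩, ⟨1, []⟩, ⟨1, []⟩, ⟨1, []⟩, ⟨1, []⟩, ⟨1, []⟩])⟩

theorem s29_2_ok : s29_2.ok = true := by decide +kernel

def s29_5_t0 : Tree := .nbr (.cons (.prune [(2, 1)]) (.cons (.prune [(19, 1), (6, 1), (3, 1), (0, 2)]) (.cons (.ddet 1 [⟨1, []⟩] (.ndet 3 [⟨1, [(19, 1), (15, 1)]⟩, ⟨1, [(19, 1), (15, 1)]⟩, ⟨1, [(19, 1), (15, 1)]⟩] (.ddet 1 [⟨1, []⟩] (.leaf 0 [⟨1, [(19, 1), (15, 1)]⟩, ⟨1, [(19, 1), (15, 1)]⟩, ⟨1, []⟩, ⟨1, []⟩, ⟨1, [(19, 1), (15, 1)]⟩, ⟨1, [(19, 2), (15, 2)]⟩, ⟨1, []⟩, ⟨1, [(19, 2), (15, 2)]⟩, ⟨1, []⟩, ⟨1, [(19, 1), (15,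 1)]⟩, ⟨1, [(19, 2), (15, 2)]⟩, ⟨1, []⟩, ⟨1, []⟩, ⟨1, [(19, 1), (15, 1)]⟩, ⟨1, [(19, 1), (15, 1)]⟩, ⟨1, [(19, 1), (15, 1)]⟩, ⟨1, []⟩, ⟨1, []⟩, ⟨1, [(19, 1), (15, 1)]⟩, ⟨1, []⟩, ⟨1, []⟩, ⟨1, []⟩, ⟨1, []⟩, ⟨1, []⟩, ⟨1, []⟩, ⟨1, []⟩, ⟨1, []⟩, ⟨1, []⟩])))) (.cons (.ddet 1 [⟨1, []⟩] (.ndet 3 [⟨1, [(19, 1), (15, 1)]⟩, ⟨1, [(19, 1), (15, 1)]⟩, ⟨1, [(19, 1), (15, 1)]⟩] (.ddet 1 [⟨1, []⟩] (.split [1, -1] (0) (.leaf 0 [⟨1, [(20, 1), (16, 1)]⟩, ⟨1, [(20, 1), (16, 1)]⟩, ⟨1, [(0, 1)]⟩, ⟨1, [(0, 1)]⟩, ⟨1, [(20, 1), (16, 1)]⟩, ⟨1, [(20, 2), (16, 2), (1, 1)]⟩, ⟨1, [(0, 1)]⟩, ⟨1, [(20, 2), (16, 2), (1, 1)]⟩, ⟨1, [(0, 1)]⟩, ⟨1, [(20, 1), (16, 1)]⟩, ⟨1, [(20, 2), (16, 2),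 (1, 1)]⟩, ⟨1, [(0, 1)]⟩, ⟨1, []⟩, ⟨1, [(20, 1), (16, 1)]⟩, ⟨1, [(20, 1), (16, 1), (1, 1)]⟩, ⟨1, [(20, 1), (16, 1), (1, 1)]⟩, ⟨1, [(0, 1)]⟩, ⟨1, []⟩, ⟨1, [(20, 1), (16, 1), (1, 1)]⟩, ⟨1, [(0, 1)]⟩, ⟨1, []⟩, ⟨1, [(1, 1)]⟩, ⟨1, [(0, 1)]⟩, ⟨1, []⟩, ⟨1, [(0, 1)]⟩, ⟨1, []⟩, ⟨1, [(1, 1)]⟩, ⟨1, []⟩]) (.leaf 1 [⟨1, [(20, 1), (17, 1), (0, 2)]⟩, ⟨1, [(20, 1), (17, 1), (0, 2)]⟩, ⟨1, [(0, 1)]⟩, ⟨1, [(0, 1)]⟩, ⟨1, [(20, 1), (17, 1), (0, 2)]⟩, ⟨1, [(20, 2), (17, 2), (0, 3)]⟩, ⟨1, []⟩, ⟨1, [(20, 1), (17, 1), (0, 1)]⟩, ⟨1, [(0, 1)]⟩, ⟨1, [(20, 1), (17, 1), (0, 2)]⟩, ⟨1, []⟩, ⟨1, [(0, 1)]⟩, ⟨1, [(0, 1)]⟩, ⟨1, [(20, 2), (17, 2), (0, 3)]⟩, ⟨1, [(20, 1), (17, 1), (0, 1)]⟩,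 ⟨1, []⟩, ⟨1, [(0, 1)]⟩, ⟨1, [(0, 1)]⟩, ⟨1, [(20, 1), (17, 1), (0, 2)]⟩, ⟨1, [(20, 2), (17, 2), (0, 3)]⟩, ⟨1, []⟩, ⟨1, [(20, 1), (17, 1), (0, 1)]⟩, ⟨1, [(0, 1)]⟩, ⟨1, []⟩, ⟨1, [(0, 1)]⟩, ⟨1, [(0, 1)]⟩]))))) .nil))))
def s29_5_t1 : Tree := .nbr (.cons (.prune [(19, 1), (6, 1), (2, 1), (0, 2)]) (.cons (.ddet 1 [⟨1, [(19, 1), (15, 1), (1, 1)]⟩] (.ndet 3 [⟨1, [(19, 1), (15, 1)]⟩, ⟨1, [(19, 1), (15, 1)]⟩, ⟨1, [(25, 1)]⟩] (.ddet 1 [⟨1, []⟩] (.split [1, 1, 0, -1] (-5000) (.leaf 0 [⟨1, [(0, 1)]⟩, ⟨1, [(20, 1), (16, 1)]⟩, ⟨1, [(20, 1), (16, 1)]⟩, ⟨1, [(0, 1)]⟩, ⟨1, [(0, 1)]⟩, ⟨1, [(0, 1)]⟩, ⟨1, [(0, 1)]⟩, ⟨1, [(0, 1)]⟩, ⟨1, [(0, 1)]⟩, ⟨1, [(0, 1)]⟩, ⟨1, [(0, 1)]⟩,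 ⟨1, [(20, 1), (16, 1)]⟩, ⟨1, []⟩, ⟨1, [(20, 1), (16, 1)]⟩, ⟨1, []⟩, ⟨1, []⟩, ⟨1, [(20, 1), (16, 1)]⟩, ⟨1, []⟩, ⟨1, []⟩, ⟨1, [(20, 2), (16, 2), (2, 1)]⟩, ⟨1, [(20, 1), (16, 1), (2, 1)]⟩, ⟨1, [(2, 1)]⟩, ⟨1, [(20, 2), (16, 2), (2, 1)]⟩, ⟨1, [(20, 1), (16, 1), (2, 1)]⟩, ⟨1, [(20, 2), (16, 2), (2, 1)]⟩, ⟨1, [(20, 1), (16, 1), (2, 1)]⟩, ⟨1, [(2, 1)]⟩, ⟨1, []⟩]) (.leaf 3 [⟨1, [(20, 1), (16, 1), (0, 1)]⟩, ⟨1, [(20, 1), (16, 1), (0, 1)]⟩, ⟨1, [(0, 1)]⟩, ⟨1, [(26, 1)]⟩, ⟨1, [(26, 1)]⟩, ⟨1, [(26, 1)]⟩, ⟨1, []⟩, ⟨1, [(20, 1), (16, 1)]⟩, ⟨1, [(20, 1), (16, 1)]⟩, ⟨1, []⟩, ⟨1, [(20, 1), (16, 1)]⟩, ⟨1, []⟩, ⟨1, []⟩, ⟨1, []⟩, ⟨1, [(0, 1)]⟩, ⟨1, [(20, 1), (16, 1), (0, 1)]⟩,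 ⟨1, [(20, 2), (16, 2), (0, 1)]⟩, ⟨1, [(0, 1)]⟩, ⟨1, [(20, 2), (16, 2), (0, 1)]⟩, ⟨1, [(0, 1)]⟩, ⟨1, [(20, 1), (16, 1), (0, 1)]⟩, ⟨1, [(20, 2), (16, 2), (0, 1)]⟩, ⟨1, [(0, 1)]⟩, ⟨1, [(20, 1), (16, 1), (0, 1)]⟩, ⟨1, [(0, 1)]⟩, ⟨1, [(0, 1)]⟩, ⟨1, [(0, 1)]⟩, ⟨1, [(0, 1)]⟩, ⟨1, [(0, 1)]⟩]))))) (.cons (.ddet 1 [⟨1, [(4, 1)]⟩] (.ndet 3 [⟨1, [(19, 1), (15, 1)]⟩, ⟨1, [(19, 1), (15, 1)]⟩, ⟨1, [(1, 1)]⟩] (.ddet 1 [⟨1, []⟩] (.leaf 0 [⟨1, [(1, 1)]⟩, ⟨1, [(19, 1), (15, 1)]⟩, ⟨1, [(4, 1)]⟩, ⟨1, []⟩, ⟨1, [(1, 1)]⟩, ⟨1, [(1, 2)]⟩, ⟨1, []⟩, ⟨1, [(1, 2)]⟩, ⟨1, []⟩, ⟨1, [(1, 1)]⟩, ⟨1, [(1, 2)]⟩, ⟨1, [(4, 1)]⟩, ⟨1, []⟩, ⟨1, [(19, 1), (15, 1)]⟩, ⟨1, [(1, 1)]⟩, ⟨1, [(1, 1)]⟩,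 ⟨1, [(4, 1)]⟩, ⟨1, []⟩, ⟨1, [(1, 1)]⟩, ⟨1, [(4, 2)]⟩, ⟨1, [(4, 1)]⟩, ⟨1, []⟩, ⟨1, [(4, 2)]⟩, ⟨1, [(4, 1)]⟩, ⟨1, [(4, 2)]⟩, ⟨1, [(4, 1)]⟩, ⟨1, []⟩, ⟨1, []⟩])))) (.cons (.prune [(24, 1), (19, 1), (4, 1), (0, 2)]) .nil))))
def s29_5_t2 : Tree := .nbr (.cons (.prune [(16, 1), (3, 1), (2, 1), (0, 1)]) (.cons (.ddet 1 [⟨2, [(16, 1), (3, 1), (0, 1)]⟩] (.ndet 1 [⟨1, [(16, 1), (12, 1)]⟩, ⟨1, [(27, 1)]⟩, ⟨1, [(16, 1)]⟩] (.ddet 1 [⟨1, [(16, 1), (12, 1)]⟩] s29_5_t0))) (.cons (.prune [(16, 1), (8, 1), (1, 1), (0, 1)]) (.cons (.ddet 1 [⟨1, [(14, 1)]⟩] (.ndet 1 [⟨1, [(16, 1), (12, 1)]⟩, ⟨2, [(21, 1), (16, 1), (1, 1)]⟩, ⟨1, [(16, 1)]⟩] (.ddet 1 [⟨1, [(16, 1), (12, 1)]⟩]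 s29_5_t1))) .nil))))
def s29_5_n0 : Node := ⟨[⟨[1, 0, 0, -1], -200⟩, ⟨[1, 0, -1], -200⟩, ⟨[1, -1], -200⟩, ⟨[1, -1, -1, -1], -10323⟩, ⟨[1, 0, -1, -1], -5315⟩, ⟨[1, 1, -1, -1], -333⟩, ⟨[1, -1, 0, -1], -5306⟩, ⟨[1, 1, 0, -1], 4683⟩, ⟨[1, -1, 1, -1], -321⟩, ⟨[1, 0, 1, -1], 4687⟩, ⟨[1, 1, 1, -1], 9669⟩, ⟨[1, -1, -1], -5313⟩, ⟨[0, 0, -1], -5320⟩, ⟨[1, 0, -1], 239700⟩, ⟨[0, 1, -1], -340⟩, ⟨[0, 1], 4680⟩, ⟨[1, -1, 1], 4690⟩, ⟨[0, 0, 1], 4680⟩, ⟨[0, 1, 1], 9660⟩, ⟨[1, -1, -1, 1], -311⟩, ⟨[0, 0, -1, 1], -340⟩, ⟨[-1, 1, -1, 1], -2340⟩, ⟨[1, -1, 0, 1], 4692⟩, ⟨[0, 0, 0, 1], 4680⟩, ⟨[1, -1, 1, 1], 9689⟩, ⟨[0, 0, 1, 1], 9660⟩, ⟨[-1, 1, 1, 1], 7620⟩], [1], 0, none, s29_5_t2⟩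
def s29_5_t3 : Tree := .ddet 1 [⟨1, [(13, 1)]⟩] (.ndet 3 [⟨1, [(18, 1), (7, 1)]⟩, ⟨1, [(18, 1), (7, 1)]⟩, ⟨1, [(1, 1)]⟩] (.ddet 1 [⟨1, []⟩] (.nbr (.cons (.prune [(1, 1)]) (.cons (.ddet 1 [⟨2, [(21, 1), (10, 1), (0, 1)]⟩] (.leaf 1 [⟨1, [(21, 1), (10, 1)]⟩, ⟨1, [(16, 1)]⟩, ⟨1, [(21, 1), (10, 1)]⟩, ⟨1, [(16, 1)]⟩, ⟨1, [(16, 1)]⟩, ⟨1, [(16, 1)]⟩, ⟨1, []⟩, ⟨1, []⟩, ⟨1, [(21, 1), (10, 1)]⟩, ⟨1, [(21, 1), (10, 1)]⟩, ⟨2, [(21, 1), (10, 1), (0, 1)]⟩, ⟨2, [(21, 3), (10, 3), (0, 1)]⟩, ⟨1, [(16, 1)]⟩, ⟨1, [(16, 1)]⟩, ⟨1, []⟩, ⟨2, [(21, 1), (10, 1), (0, 1)]⟩, ⟨2, [(21, 3), (10, 3), (0, 1)]⟩, ⟨1, [(16, 1)]⟩, ⟨1, [(16, 1)]⟩, ⟨1, [(16, 1)]⟩, ⟨1, []⟩, ⟨1, []⟩, ⟨1, [(21,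 1), (10, 1)]⟩, ⟨2, [(21, 1), (10, 1), (0, 1)]⟩, ⟨2, [(21, 3), (10, 3), (0, 1)]⟩, ⟨1, []⟩])) (.cons (.prune [(21, 2), (13, 1), (7, 1), (1, 3), (0, 2)]) (.cons (.ddet 1 [⟨1, [(4, 1)]⟩] (.leaf 1 [⟨1, [(21, 1), (10, 1)]⟩, ⟨2, [(21, 1), (10, 1), (1, 1)]⟩, ⟨1, [(4, 2)]⟩, ⟨1, [(4, 1)]⟩, ⟨2, [(21, 1), (10, 1), (1, 1)]⟩, ⟨2, [(21, 1), (10, 1), (1, 3)]⟩, ⟨1, []⟩, ⟨1, [(1, 1)]⟩, ⟨1, [(4, 2)]⟩, ⟨1, [(21, 1), (10, 1)]⟩, ⟨1, [(4, 1)]⟩, ⟨1, [(4, 3)]⟩, ⟨1, [(4, 1)]⟩, ⟨2, [(21, 1), (10, 1), (1, 3)]⟩, ⟨1, [(1, 1)]⟩, ⟨1, [(4, 1)]⟩, ⟨1, [(4, 3)]⟩, ⟨1, [(4, 1)]⟩, ⟨2, [(21, 1), (10, 1), (1, 1)]⟩, ⟨2, [(21, 1), (10, 1), (1, 3)]⟩, ⟨1, []⟩, ⟨1, [(1, 1)]⟩, ⟨1, [(4, 2)]⟩, ⟨1, [(4,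 1)]⟩, ⟨1, [(4, 3)]⟩, ⟨1, []⟩])) .nil)))))))
def s29_5_t4 : Tree := .nbr (.cons (.prune [(18, 4), (10, 1), (6, 2), (3, 1), (1, 6)]) (.cons (.ddet 1 [⟨1, [(18, 1), (7, 1), (1, 1)]⟩] (.ndet 3 [⟨1, [(18, 1), (7, 1)]⟩, ⟨1, [(18, 1), (7, 1)]⟩, ⟨1, [(25, 1)]⟩] (.ddet 1 [⟨1, []⟩] (.ndet 3 [⟨1, [(18, 1), (7, 1), (1, 1)]⟩, ⟨1, [(18, 1), (7, 1), (1, 1)]⟩, ⟨1, [(18, 1), (7, 1), (1, 1)]⟩] (.ddet 1 [⟨1, []⟩] (.split [1, -1] (0) (.leaf 0 [⟨1, [(19, 1), (6, 1), (0, 2)]⟩, ⟨1, [(19, 1), (6, 1), (0, 2)]⟩, ⟨1, [(0, 1)]⟩, ⟨1, [(0, 1)]⟩, ⟨1, [(19, 1), (6, 1), (0, 2)]⟩, ⟨1, [(19, 2), (6, 2), (0, 3)]⟩, ⟨1, [(0, 1)]⟩, ⟨1, [(19, 2), (6, 2), (0, 3)]⟩, ⟨1, [(0, 1)]⟩, ⟨1, [(19, 1),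 (6, 1), (0, 2)]⟩, ⟨1, [(19, 2), (6, 2), (0, 3)]⟩, ⟨1, [(0, 1)]⟩, ⟨1, []⟩, ⟨1, [(19, 1), (6, 1), (0, 2)]⟩, ⟨1, [(19, 1), (6, 1), (0, 1)]⟩, ⟨1, [(19, 1), (6, 1), (0, 1)]⟩, ⟨1, [(0, 1)]⟩, ⟨1, []⟩, ⟨1, [(19, 1), (6, 1), (0, 1)]⟩, ⟨1, [(0, 1)]⟩, ⟨1, []⟩, ⟨1, [(26, 1)]⟩, ⟨1, [(0, 1)]⟩, ⟨1, []⟩, ⟨1, [(0, 1)]⟩, ⟨1, []⟩, ⟨1, [(26, 1)]⟩, ⟨1, [(0, 1)]⟩]) (.leaf 1 [⟨1, [(19, 1), (8, 1)]⟩, ⟨1, [(19, 1), (8, 1)]⟩, ⟨1, [(0, 1)]⟩, ⟨1, [(0, 1)]⟩, ⟨1, [(19, 1), (8, 1)]⟩, ⟨1, [(19, 2), (8, 2), (2, 1)]⟩, ⟨1, []⟩, ⟨1, [(19, 1), (8, 1), (2, 1)]⟩, ⟨1, [(0, 1)]⟩, ⟨1, [(19, 1), (8, 1)]⟩, ⟨1, []⟩, ⟨1, [(0, 1)]⟩, ⟨1, [(0, 1)]⟩, ⟨1, [(19, 2), (8, 2), (2, 1)]⟩, ⟨1, [(19, 1), (8, 1),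 (2, 1)]⟩, ⟨1, []⟩, ⟨1, [(0, 1)]⟩, ⟨1, [(0, 1)]⟩, ⟨1, [(19, 1), (8, 1)]⟩, ⟨1, [(19, 2), (8, 2), (2, 1)]⟩, ⟨1, []⟩, ⟨1, [(19, 1), (8, 1), (2, 1)]⟩, ⟨1, [(0, 1)]⟩, ⟨1, []⟩, ⟨1, [(0, 1)]⟩, ⟨1, []⟩]))))))) (.cons s29_5_t3 (.cons (.ddet 1 [⟨1, [(13, 1)]⟩] (.ndet 3 [⟨1, [(18, 1), (7, 1)]⟩, ⟨1, [(18, 1), (7, 1)]⟩, ⟨1, [(18, 1), (10, 1), (0, 1)]⟩] (.ddet 1 [⟨1, []⟩] (.ndet 1 [⟨1, [(18, 1), (10, 1), (0, 2)]⟩, ⟨1, [(18, 1), (10, 1), (0, 2)]⟩, ⟨1, [(18, 1), (15, 1), (10, 1), (0, 3)]⟩] (.ddet 1 [⟨1, [(18, 1), (10, 1), (0, 2)]⟩] (.split [1, 1, -1] (-5000) (.leaf 1 [⟨1, [(19, 1), (8, 1)]⟩, ⟨1, [(0, 1)]⟩, ⟨1, [(19, 1), (8, 1)]⟩, ⟨1, [(0, 1)]⟩, ⟨1, [(0, 1)]⟩, ⟨1, [(0, 1)]⟩,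 ⟨1, []⟩, ⟨1, []⟩, ⟨1, [(19, 1), (8, 1)]⟩, ⟨1, [(19, 1), (8, 1)]⟩, ⟨1, [(19, 1), (11, 1), (1, 2)]⟩, ⟨1, [(19, 2), (11, 1), (8, 1), (1, 2)]⟩, ⟨1, [(0, 1)]⟩, ⟨1, [(0, 1)]⟩, ⟨1, []⟩, ⟨1, [(19, 1), (11, 1), (1, 2)]⟩, ⟨1, [(19, 2), (11, 1), (8, 1), (1, 2)]⟩, ⟨1, [(0, 1)]⟩, ⟨1, [(0, 1)]⟩, ⟨1, [(0, 1)]⟩, ⟨1, []⟩, ⟨1, []⟩, ⟨1, [(19, 1), (8, 1)]⟩, ⟨1, [(19, 1), (11, 1), (1, 2)]⟩, ⟨1, [(19, 2), (11, 1), (8, 1), (1, 2)]⟩, ⟨1, []⟩]) (.leaf 2 [⟨1, [(19, 1), (9, 1), (0, 2)]⟩, ⟨1, [(0, 1)]⟩, ⟨1, [(19, 1), (9, 1), (0, 2)]⟩, ⟨1, [(0, 1)]⟩, ⟨1, [(0, 1)]⟩, ⟨1, [(0, 1)]⟩, ⟨1, [(19, 1), (9, 1), (0, 2)]⟩, ⟨1, [(19, 1), (9, 1), (0, 2)]⟩, ⟨1, [(19, 2), (9, 2), (0, 3)]⟩, ⟨1, [(19,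 2), (9, 2), (0, 3)]⟩, ⟨1, [(19, 2), (9, 2), (0, 3)]⟩, ⟨1, []⟩, ⟨1, []⟩, ⟨1, [(19, 1), (9, 1), (0, 1)]⟩, ⟨1, [(19, 1), (9, 1), (0, 1)]⟩, ⟨1, [(19, 1), (9, 1), (0, 1)]⟩, ⟨1, [(0, 1)]⟩, ⟨1, [(0, 1)]⟩, ⟨1, [(19, 1), (9, 1), (0, 2)]⟩, ⟨1, []⟩, ⟨1, []⟩, ⟨1, []⟩, ⟨1, [(0, 1)]⟩, ⟨1, [(0, 1)]⟩, ⟨1, [(0, 1)]⟩, ⟨1, [(0, 1)]⟩]))))))) .nil))))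
def s29_5_n1 : Node := ⟨[⟨[0, 1, 0, -1], -200⟩, ⟨[0, 1, -1], -200⟩, ⟨[-1, 1], -200⟩, ⟨[-1, 1, -1, -1], -10333⟩, ⟨[0, 1, -1, -1], -5313⟩, ⟨[1, 1, -1, -1], -319⟩, ⟨[0, 0, 0, -1], -5320⟩, ⟨[1, 0, 0, -1], -340⟩, ⟨[-1, 1, 0, -1], -5315⟩, ⟨[0, 1, 0, -1], 239700⟩, ⟨[0, 0, 1, -1], -340⟩, ⟨[-1, 1, 1, -1], -319⟩, ⟨[-1, 1, -1], -5318⟩, ⟨[1, 1, -1], 4698⟩, ⟨[1], 4680⟩, ⟨[0, 0, 1], 4680⟩, ⟨[-1, 1, 1], 4689⟩, ⟨[-1, 1, -1, 1], -334⟩, ⟨[0, 1, -1, 1], 4690⟩, ⟨[1, 1, -1, 1], 9690⟩, ⟨[0, 0, 0, 1], 4680⟩, ⟨[1, 0, 0, 1], 9660⟩, ⟨[-1, 1, 0, 1], 4684⟩, ⟨[0, 0, 1, 1], 9660⟩, ⟨[-1, 1, 1, 1], 9682⟩], [0, 1], 0, none, (.ndet 1 [⟨1, [(15, 1), (4, 1)]⟩, ⟨1, [(23, 1)]⟩, ⟨1, [(15, 1)]⟩]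 (.ddet 1 [⟨1, [(15, 1), (4, 1)]⟩] s29_5_t4))⟩
def s29_5_t5 : Tree := .ddet 1 [⟨1, [(15, 1), (9, 1), (1, 1)]⟩] (.ndet 3 [⟨1, [(15, 1), (9, 1)]⟩, ⟨1, [(9, 1)]⟩, ⟨1, [(26, 1)]⟩] (.ddet 1 [⟨1, [(15, 1)]⟩] (.ndet 3 [⟨1, [(15, 1), (9, 1), (1, 1)]⟩, ⟨1, [(15, 1), (9, 1), (1, 1)]⟩, ⟨1, [(9, 1), (1, 1)]⟩] (.ddet 1 [⟨1, []⟩] (.ndet 1 [⟨1, [(9, 1)]⟩, ⟨1, [(9, 1)]⟩, ⟨1, [(16, 1), (9, 1)]⟩] (.ddet 1 [⟨1, [(9, 1)]⟩] (.split [1, 1, -1] (-5000) (.leaf 1 [⟨1, [(10, 1), (0, 1)]⟩, ⟨1, [(0, 1)]⟩, ⟨1, [(10, 1), (0, 1)]⟩, ⟨1, [(0, 1)]⟩, ⟨1, [(0, 1)]⟩, ⟨1, [(0, 1)]⟩, ⟨1, []⟩, ⟨1, []⟩, ⟨1, [(10, 1), (0, 1)]⟩, ⟨1, [(10, 1), (0, 1)]⟩, ⟨1, [(10, 1)]⟩, ⟨1, [(10, 2), (0, 1)]⟩, ⟨1,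 [(0, 1)]⟩, ⟨1, [(0, 1)]⟩, ⟨1, []⟩, ⟨1, [(10, 1)]⟩, ⟨1, [(10, 2), (0, 1)]⟩, ⟨1, [(0, 1)]⟩, ⟨1, [(0, 1)]⟩, ⟨1, [(0, 1)]⟩, ⟨1, []⟩, ⟨1, []⟩, ⟨1, [(10, 1), (0, 1)]⟩, ⟨1, [(10, 1)]⟩, ⟨1, [(10, 2), (0, 1)]⟩, ⟨1, [(17, 1), (0, 1)]⟩]) (.leaf 2 [⟨1, [(10, 1)]⟩, ⟨1, [(0, 1)]⟩, ⟨1, [(10, 1)]⟩, ⟨1, [(0, 1)]⟩, ⟨1, [(0, 1)]⟩, ⟨1, [(0, 1)]⟩, ⟨1, [(10, 1)]⟩, ⟨1, [(10, 1)]⟩, ⟨1, [(16, 1), (10, 2), (2, 1)]⟩, ⟨1, [(16, 1), (10, 2), (2, 1)]⟩, ⟨1, [(16, 1), (10, 2), (2, 1)]⟩, ⟨1, []⟩, ⟨1, []⟩, ⟨1, [(16, 1), (10, 1), (2, 1)]⟩, ⟨1, [(16, 1), (10, 1), (2, 1)]⟩, ⟨1, [(16, 1), (10, 1), (2, 1)]⟩, ⟨1, [(0, 1)]⟩, ⟨1, [(0, 1)]⟩, ⟨1, [(10, 1)]⟩, ⟨1, []⟩, ⟨1, []⟩, ⟨1, []⟩, ⟨1, [(0, 1)]⟩,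 ⟨1, [(0, 1)]⟩, ⟨1, [(0, 1)]⟩, ⟨1, [(17, 1)]⟩]))))))))
def s29_5_t6 : Tree := .nbr (.cons (.prune [(20, 1), (12, 2), (9, 1), (2, 3), (0, 4)]) (.cons (.ddet 1 [⟨2, [(18, 1), (12, 1), (0, 1)]⟩] (.ndet 1 [⟨1, [(12, 1)]⟩, ⟨1, [(17, 1)]⟩, ⟨1, [(19, 1), (12, 1)]⟩] (.ddet 1 [⟨1, [(12, 1)]⟩] (.leaf 2 [⟨1, [(17, 1)]⟩, ⟨1, [(12, 1)]⟩, ⟨1, [(12, 1)]⟩, ⟨1, [(17, 1)]⟩, ⟨1, [(17, 1)]⟩, ⟨1, [(17, 1)]⟩, ⟨1, [(17, 1)]⟩, ⟨1, [(17, 1)]⟩, ⟨1, [(17, 1)]⟩, ⟨1, [(17, 1)]⟩, ⟨1, [(17, 1)]⟩, ⟨1, []⟩, ⟨1, []⟩, ⟨1, []⟩, ⟨1, []⟩, ⟨1, []⟩, ⟨1, [(12, 1)]⟩, ⟨1, [(12, 1)]⟩, ⟨1, [(12, 1)]⟩, ⟨2, [(18, 1), (12, 1), (0, 1)]⟩, ⟨2, [(18, 1), (12, 1), (0, 1)]⟩, ⟨2, [(18, 1), (12, 1), (0, 1)]⟩,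 ⟨2, [(18, 1), (12, 3), (0, 1)]⟩, ⟨2, [(18, 1), (12, 3), (0, 1)]⟩, ⟨2, [(18, 1), (12, 3), (0, 1)]⟩, ⟨1, [(19, 1)]⟩])))) (.cons (.prune [(19, 1), (12, 1), (1, 1), (0, 1)]) (.cons (.ddet 1 [⟨1, [(4, 1)]⟩] (.ndet 1 [⟨1, [(12, 1)]⟩, ⟨2, [(19, 1), (12, 1), (1, 1)]⟩, ⟨1, [(19, 1), (12, 1)]⟩] (.ddet 1 [⟨1, [(12, 1)]⟩] (.leaf 2 [⟨2, [(19, 1), (12, 1), (1, 1)]⟩, ⟨1, [(19, 1), (4, 2)]⟩, ⟨1, [(12, 1)]⟩, ⟨1, [(19, 1), (4, 1)]⟩, ⟨1, [(19, 1), (4, 1)]⟩, ⟨1, [(19, 1), (4, 1)]⟩, ⟨2, [(19, 1), (12, 1), (1, 1)]⟩, ⟨2, [(19, 1), (12, 1), (1, 1)]⟩, ⟨2, [(19, 1), (12, 1), (1, 3)]⟩, ⟨2, [(19, 1), (12, 1), (1, 3)]⟩, ⟨2, [(19, 1), (12, 1), (1, 3)]⟩, ⟨1, []⟩, ⟨1, []⟩, ⟨1, [(1, 1)]⟩,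 ⟨1, [(1, 1)]⟩, ⟨1, [(1, 1)]⟩, ⟨1, [(19, 1), (4, 2)]⟩, ⟨1, [(19, 1), (4, 2)]⟩, ⟨1, [(12, 1)]⟩, ⟨1, [(4, 1)]⟩, ⟨1, [(4, 1)]⟩, ⟨1, [(4, 1)]⟩, ⟨1, [(19, 1), (4, 3)]⟩, ⟨1, [(19, 1), (4, 3)]⟩, ⟨1, [(19, 1), (4, 3)]⟩, ⟨1, [(19, 1)]⟩])))) .nil))))
def s29_5_t7 : Tree := .ddet 1 [⟨1, [(13, 1)]⟩] (.ndet 3 [⟨1, [(15, 1), (9, 1)]⟩, ⟨1, [(9, 1)]⟩, ⟨1, [(22, 1), (9, 1), (0, 1)]⟩] (.ddet 1 [⟨1, [(15, 1)]⟩] (.ndet 1 [⟨1, [(22, 1), (9, 1), (0, 2)]⟩, ⟨1, [(23, 1), (9, 1), (0, 2)]⟩, ⟨1, [(23, 1), (22, 1), (9, 1), (0, 3)]⟩] (.ddet 1 [⟨1, [(22, 1), (9, 1), (0, 2)]⟩] (.ndet 1 [⟨1, [(9, 1)]⟩, ⟨1, [(19, 1)]⟩, ⟨1, [(16, 1), (9, 1)]⟩] (.ddet 1 [⟨1, [(9, 1)]⟩] (.split [-1, 1, 1,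 -1] (0) (.leaf 2 [⟨1, [(0, 1)]⟩, ⟨1, [(10, 1)]⟩, ⟨1, [(10, 1)]⟩, ⟨1, [(0, 1)]⟩, ⟨1, [(0, 1)]⟩, ⟨1, [(0, 1)]⟩, ⟨1, [(0, 1)]⟩, ⟨1, [(0, 1)]⟩, ⟨1, [(0, 1)]⟩, ⟨1, [(0, 1)]⟩, ⟨1, [(0, 1)]⟩, ⟨1, []⟩, ⟨1, []⟩, ⟨1, []⟩, ⟨1, []⟩, ⟨1, []⟩, ⟨1, [(10, 1)]⟩, ⟨1, [(10, 1)]⟩, ⟨1, [(10, 1)]⟩, ⟨1, [(23, 1), (10, 1), (1, 2)]⟩, ⟨1, [(23, 1), (10, 1), (1, 2)]⟩, ⟨1, [(23, 1), (10, 1), (1, 2)]⟩, ⟨1, [(23, 1), (10, 2), (1, 2)]⟩, ⟨1, [(23, 1), (10, 2), (1, 2)]⟩, ⟨1, [(23, 1), (10, 2), (1, 2)]⟩, ⟨1, [(17, 1)]⟩]) (.leaf 3 [⟨1, [(0, 1)]⟩, ⟨1, [(10, 1), (0, 1)]⟩, ⟨1, [(10, 1), (0, 1)]⟩, ⟨1, [(20, 1)]⟩, ⟨1, [(20, 1)]⟩, ⟨1, [(20, 1)]⟩, ⟨1, []⟩, ⟨1, []⟩, ⟨1, []⟩, ⟨1, []⟩, ⟨1, []⟩, ⟨1,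 [(10, 1)]⟩, ⟨1, [(10, 1)]⟩, ⟨1, [(10, 1)]⟩, ⟨1, [(0, 1)]⟩, ⟨1, [(0, 1)]⟩, ⟨1, [(0, 1)]⟩, ⟨1, [(0, 1)]⟩, ⟨1, [(0, 1)]⟩, ⟨1, [(0, 1)]⟩, ⟨1, [(0, 1)]⟩, ⟨1, [(0, 1)]⟩, ⟨1, [(10, 1), (0, 1)]⟩, ⟨1, [(10, 1), (0, 1)]⟩, ⟨1, [(10, 1), (0, 1)]⟩, ⟨1, [(10, 2), (0, 1)]⟩, ⟨1, [(10, 2), (0, 1)]⟩, ⟨1, [(10, 2), (0, 1)]⟩, ⟨1, [(17, 1), (0, 1)]⟩]))))))))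
def s29_5_n2 : Node := ⟨[⟨[0, 0, 1, -1], -200⟩, ⟨[0, -1, 1], -200⟩, ⟨[-1, 0, 1], -200⟩, ⟨[-1, -1, 1, -1], -10326⟩, ⟨[0, -1, 1, -1], -5318⟩, ⟨[1, -1, 1, -1], -335⟩, ⟨[-1, 0, 1, -1], -5307⟩, ⟨[1, 0, 1, -1], 4689⟩, ⟨[-1, 1, 1, -1], -303⟩, ⟨[0, 1, 1, -1], 4698⟩, ⟨[1, 1, 1, -1], 9683⟩, ⟨[-1], -5320⟩, ⟨[1], 4680⟩, ⟨[-1, 1], -340⟩, ⟨[0, 1], 4680⟩, ⟨[1, 1], 9660⟩, ⟨[-1, -1, 1], -5315⟩, ⟨[1, -1, 1], 4683⟩, ⟨[-1, 0, 1], 239700⟩, ⟨[-1, 0, 0, 1], -340⟩, ⟨[0, 0, 0, 1], 4680⟩, ⟨[1, 0, 0, 1], 9660⟩, ⟨[-1, -1, 1, 1], -330⟩, ⟨[0, -1, 1, 1], 4689⟩, ⟨[1, -1, 1, 1], 9690⟩], [0, 0, 1], 0, none, (.nbr (.cons (.prune [(22, 1), (12, 2), (9, 4), (3, 1), (1, 6)]) (.cons s29_5_t5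 (.cons (.ddet 1 [⟨1, [(13, 1)]⟩] (.ndet 3 [⟨1, [(15, 1), (9, 1)]⟩, ⟨1, [(9, 1)]⟩, ⟨1, [(1, 1)]⟩] (.ddet 1 [⟨1, [(15, 1)]⟩] s29_5_t6))) (.cons s29_5_t7 .nil)))))⟩
def s29_5_t8 : Tree := .ddet 1 [⟨1, [(7, 1)]⟩] (.nbr (.cons (.prune [(2, 1)]) (.cons (.prune [(10, 1), (1, 1)]) (.cons (.ddet 1 [⟨1, []⟩] (.leaf 3 [⟨1, [(10, 1)]⟩, ⟨1, [(10, 1)]⟩, ⟨1, []⟩, ⟨1, []⟩, ⟨1, []⟩, ⟨1, []⟩, ⟨1, []⟩, ⟨1, [(10, 1)]⟩, ⟨1, [(10, 1)]⟩, ⟨1, []⟩, ⟨1, [(10, 1)]⟩, ⟨1, []⟩, ⟨1, []⟩, ⟨1, []⟩, ⟨1, []⟩, ⟨1, [(10, 1)]⟩, ⟨1, [(10, 2)]⟩, ⟨1, []⟩, ⟨1, [(10, 2)]⟩, ⟨1, []⟩, ⟨1, [(10, 1)]⟩, ⟨1, [(10, 2)]⟩, ⟨1, []⟩, ⟨1, [(10, 1)]⟩, ⟨1, []⟩, ⟨1, []⟩, ⟨1, []⟩, ⟨1, []⟩, ⟨1, [(27, 1)]⟩])) (.cons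 (.ddet 1 [⟨1, []⟩] (.split [1, 1, 0, -1] (-5000) (.leaf 0 [⟨1, [(0, 1)]⟩, ⟨1, [(11, 1), (0, 1)]⟩, ⟨1, [(11, 1), (0, 1)]⟩, ⟨1, [(0, 1)]⟩, ⟨1, [(0, 1)]⟩, ⟨1, [(0, 1)]⟩, ⟨1, [(0, 1)]⟩, ⟨1, [(0, 1)]⟩, ⟨1, [(0, 1)]⟩, ⟨1, [(0, 1)]⟩, ⟨1, [(0, 1)]⟩, ⟨1, [(11, 1), (0, 1)]⟩, ⟨1, []⟩, ⟨1, [(11, 1), (0, 1)]⟩, ⟨1, []⟩, ⟨1, []⟩, ⟨1, [(11, 1), (0, 1)]⟩, ⟨1, []⟩, ⟨1, []⟩, ⟨1, [(11, 2), (0, 1)]⟩, ⟨1, [(11, 1)]⟩, ⟨1, [(12, 1)]⟩, ⟨1, [(11, 2), (0, 1)]⟩, ⟨1, [(11, 1)]⟩, ⟨1, [(11, 2), (0, 1)]⟩, ⟨1, [(11, 1)]⟩, ⟨1, [(12, 1)]⟩, ⟨1, [(28, 1), (0, 1)]⟩]) (.leaf 3 [⟨1, [(11, 1)]⟩, ⟨1, [(11, 1)]⟩, ⟨1, [(0, 1)]⟩, ⟨1, [(1, 1)]⟩, ⟨1, [(1, 1)]⟩, ⟨1, [(1, 1)]⟩, ⟨1, []⟩, ⟨1, [(11, 1),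 (1, 1)]⟩, ⟨1, [(11, 1), (1, 1)]⟩, ⟨1, []⟩, ⟨1, [(11, 1), (1, 1)]⟩, ⟨1, []⟩, ⟨1, []⟩, ⟨1, []⟩, ⟨1, [(0, 1)]⟩, ⟨1, [(11, 1)]⟩, ⟨1, [(11, 2), (1, 1)]⟩, ⟨1, [(0, 1)]⟩, ⟨1, [(11, 2), (1, 1)]⟩, ⟨1, [(0, 1)]⟩, ⟨1, [(11, 1)]⟩, ⟨1, [(11, 2), (1, 1)]⟩, ⟨1, [(0, 1)]⟩, ⟨1, [(11, 1)]⟩, ⟨1, [(0, 1)]⟩, ⟨1, [(0, 1)]⟩, ⟨1, [(0, 1)]⟩, ⟨1, [(0, 1)]⟩, ⟨1, [(28, 1)]⟩]))) .nil)))))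
def s29_5_t9 : Tree := .nbr (.cons (.prune [(10, 1), (1, 1)]) (.cons (.ddet 1 [⟨1, [(10, 1), (1, 1)]⟩] (.split [-1, 1, 1, -1] (0) (.leaf 2 [⟨1, [(0, 1)]⟩, ⟨1, [(11, 1), (0, 1)]⟩, ⟨1, [(11, 1), (0, 1)]⟩, ⟨1, [(0, 1)]⟩, ⟨1, [(0, 1)]⟩, ⟨1, [(0, 1)]⟩, ⟨1, [(0, 1)]⟩, ⟨1, [(0, 1)]⟩, ⟨1, [(0, 1)]⟩, ⟨1, [(0, 1)]⟩, ⟨1, [(0, 1)]⟩, ⟨1, []⟩, ⟨1, []⟩, ⟨1, []⟩, ⟨1, []⟩, ⟨1, []⟩, ⟨1, [(11, 1), (0, 1)]⟩, ⟨1, [(11, 1), (0, 1)]⟩, ⟨1, [(11, 1), (0, 1)]⟩, ⟨1, [(11, 1)]⟩, ⟨1, [(11, 1)]⟩, ⟨1, [(11, 1)]⟩, ⟨1, [(11, 2), (0, 1)]⟩, ⟨1, [(11, 2), (0, 1)]⟩, ⟨1, [(11, 2), (0, 1)]⟩, ⟨1, [(28, 1), (0, 1)]⟩]) (.leaf 3 [⟨1, [(0, 1)]⟩, ⟨1, [(11, 1)]⟩, ⟨1, [(11, 1)]⟩, ⟨1, [(2, 1)]⟩, ⟨1,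 [(2, 1)]⟩, ⟨1, [(2, 1)]⟩, ⟨1, []⟩, ⟨1, []⟩, ⟨1, []⟩, ⟨1, []⟩, ⟨1, []⟩, ⟨1, [(11, 1), (2, 1)]⟩, ⟨1, [(11, 1), (2, 1)]⟩, ⟨1, [(11, 1), (2, 1)]⟩, ⟨1, [(0, 1)]⟩, ⟨1, [(0, 1)]⟩, ⟨1, [(0, 1)]⟩, ⟨1, [(0, 1)]⟩, ⟨1, [(0, 1)]⟩, ⟨1, [(0, 1)]⟩, ⟨1, [(0, 1)]⟩, ⟨1, [(0, 1)]⟩, ⟨1, [(11, 1)]⟩, ⟨1, [(11, 1)]⟩, ⟨1, [(11, 1)]⟩, ⟨1, [(11, 2), (2, 1)]⟩, ⟨1, [(11, 2), (2, 1)]⟩, ⟨1, [(11, 2), (2, 1)]⟩, ⟨1, [(28, 1)]⟩]))) (.cons (.ddet 1 [⟨1, [(4, 1)]⟩] (.leaf 3 [⟨1, [(1, 1)]⟩, ⟨1, [(10, 1)]⟩, ⟨1, [(4, 1)]⟩, ⟨1, []⟩, ⟨1, []⟩, ⟨1, []⟩, ⟨1, []⟩, ⟨1, [(1, 1)]⟩, ⟨1, [(1, 1)]⟩, ⟨1, []⟩, ⟨1, [(1, 1)]⟩, ⟨1, [(4, 1)]⟩, ⟨1, [(4, 1)]⟩, ⟨1, [(4, 1)]⟩, ⟨1, []⟩, ⟨1, [(1, 1)]⟩, ⟨1, [(1, 2)]⟩,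 ⟨1, []⟩, ⟨1, [(1, 2)]⟩, ⟨1, []⟩, ⟨1, [(1, 1)]⟩, ⟨1, [(1, 2)]⟩, ⟨1, [(4, 1)]⟩, ⟨1, [(10, 1)]⟩, ⟨1, [(4, 1)]⟩, ⟨1, [(4, 2)]⟩, ⟨1, [(4, 2)]⟩, ⟨1, [(4, 2)]⟩, ⟨1, [(27, 1)]⟩])) (.cons (.prune [(19, 1), (10, 1), (4, 1), (0, 2)]) .nil))))
def s29_5_t10 : Tree := .nbr (.cons (.prune [(25, 1), (7, 1), (2, 1), (0, 1)]) (.cons (.ddet 1 [⟨2, [(25, 1), (7, 1), (0, 1)]⟩] (.ndet 1 [⟨1, [(7, 1)]⟩, ⟨1, [(8, 1)]⟩, ⟨1, [(24, 1), (7, 1)]⟩] s29_5_t8)) (.cons (.prune [(27, 1), (7, 1), (1, 1), (0, 1)]) (.cons (.ddet 1 [⟨1, [(22, 1)]⟩] (.ndet 1 [⟨1, [(7, 1)]⟩, ⟨2, [(16, 1), (7, 1), (1, 1)]⟩, ⟨1, [(24, 1), (7, 1)]⟩] (.ddet 1 [⟨1, [(7, 1)]⟩] s29_5_t9))) .nil))))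
def s29_5_n3 : Node := ⟨[⟨[0, 0, -1, 1], -200⟩, ⟨[0, -1, 0, 1], -200⟩, ⟨[-1, 0, 0, 1], -200⟩, ⟨[1, -1, 1, -1], -1340⟩, ⟨[1, 0, 1, -1], 3680⟩, ⟨[1, 1, 1, -1], 8660⟩, ⟨[0, -1], -5320⟩, ⟨[1, -1], -340⟩, ⟨[1], 4680⟩, ⟨[0, 1], 4680⟩, ⟨[1, 1], 9660⟩, ⟨[0, -1, 1], -340⟩, ⟨[0, 0, 1], 4680⟩, ⟨[0, 1, 1], 9660⟩, ⟨[-1, -1, -1, 1], -10331⟩, ⟨[0, -1, -1, 1], -5315⟩, ⟨[1, -1, -1, 1], -320⟩, ⟨[-1, 0, -1, 1], -5316⟩, ⟨[1, 0, -1, 1], 4692⟩, ⟨[-1, 1, -1, 1], -327⟩, ⟨[0, 1, -1, 1], 4683⟩, ⟨[1, 1, -1, 1], 9689⟩, ⟨[-1, -1, 0, 1], -5316⟩, ⟨[0, -1, 0, 1], 239700⟩, ⟨[-1, 1, 0, 1], 4694⟩, ⟨[-1, -1, 1, 1], -334⟩, ⟨[-1, 0, 1, 1], 4682⟩, ⟨[-1, 1, 1, 1], 9681⟩], [0, 0, 0, 1], 0, none,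 (.ndet 3 [⟨1, [(18, 1), (4, 1)]⟩, ⟨1, [(4, 1)]⟩, ⟨1, [(27, 1)]⟩] (.ddet 1 [⟨1, [(18, 1)]⟩] s29_5_t10))⟩
def s29_5 : Sys := ⟨[(0, -4000), (2, 3000), (3, 2000), (4, 4000)], [(0, 0), (2, -2000)], 4, [s29_5_n0, s29_5_n1, s29_5_n2, s29_5_n3], [5000, 5000, 2387415, 1465958], (.leaf 2 [⟨1, []⟩, ⟨1, []⟩, ⟨1, []⟩, ⟨1, []⟩, ⟨1, []⟩, ⟨1, []⟩, ⟨1, []⟩, ⟨1, []⟩, ⟨1, []⟩, ⟨1, []⟩, ⟨1, []⟩, ⟨1, []⟩, ⟨1, []⟩, ⟨1, []⟩, ⟨1, []⟩, ⟨1, []⟩, ⟨1, []⟩, ⟨1, []⟩, ⟨1, []⟩, ⟨1, []⟩, ⟨1, []⟩, ⟨1, []⟩, ⟨1, []⟩, ⟨1, []⟩, ⟨1, []⟩])⟩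

theorem s29_5_ok : s29_5.ok = true := by decide +kernel

def s29_12_n0 : Node := ⟨[⟨[0, 1], 232⟩, ⟨[0, 1, -1], 224⟩, ⟨[0, 1, 0, -1], 248⟩, ⟨[0, 1, -1], 208⟩, ⟨[-1, 1], 232⟩, ⟨[0, 1, -1], 232⟩, ⟨[-1, 1], 248⟩, ⟨[0, 1], 224⟩, ⟨[0, 1], 200⟩, ⟨[-1, 1], 224⟩, ⟨[-1], 8⟩], [0, 1], 0, none, (.ndet 1 [⟨1, [(10, 1)]⟩, ⟨1, [(5, 1)]⟩, ⟨1, [(8, 1)]⟩] (.ddet 0 [⟨1, [(5, 1)]⟩] (.ndet 2 [⟨1, [(10, 1)]⟩, ⟨1, [(4, 1)]⟩, ⟨1, [(5, 1)]⟩] (.ddet 1 [⟨1, [(4, 1)]⟩] (.ndet 3 [⟨1, [(10, 1)]⟩, ⟨1, [(10, 1)]⟩, ⟨1, [(4, 1)]⟩] (.ddet 0 [⟨1, [(0, 1)]⟩] (.ndet 0 [⟨1, []⟩, ⟨1, []⟩, ⟨1, [(0, 1)]⟩] (.ddet 0 [⟨1, []⟩] (.leaf 0 [⟨1, [(10, 1)]⟩, ⟨1, [(10, 1)]⟩, ⟨1, [(10, 1)]⟩, ⟨1, [(10, 1)]⟩,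 ⟨1, [(10, 1)]⟩, ⟨1, [(10, 1)]⟩, ⟨1, [(10, 1)]⟩, ⟨1, [(10, 1)]⟩, ⟨1, [(10, 1)]⟩, ⟨1, [(10, 1)]⟩, ⟨1, []⟩, ⟨1, []⟩])))))))))⟩
def s29_12 : Sys := ⟨[(0, 0), (2, -16), (3, -16), (4, 0)], [(2, 16), (3, -16)], 4, [s29_12_n0], [-16, 448, 0, -32], (.leaf 0 [⟨1, []⟩, ⟨1, []⟩, ⟨1, []⟩, ⟨1, []⟩, ⟨1, []⟩, ⟨1, []⟩, ⟨1, []⟩, ⟨1, []⟩, ⟨1, []⟩, ⟨1, []⟩, ⟨1, []⟩])⟩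

theorem s29_12_ok : s29_12.ok = true := by decide +kernel

def s31_4_n0 : Node := ⟨[⟨[0, 0, 1], 88⟩, ⟨[-1, 0, 1], 88⟩, ⟨[0, -1, 1], -8⟩, ⟨[0, 0, 1, -1], 80⟩, ⟨[0, 1], 96⟩, ⟨[-1, 0, 1], 80⟩, ⟨[0, -1, 1], 8⟩, ⟨[-1, 1], 80⟩, ⟨[-2, 0, 1], 88⟩, ⟨[-1, -1, 1], 0⟩, ⟨[-1, 1], 104⟩, ⟨[-2, 0, 1], 96⟩, ⟨[-1], -8⟩], [0, 1], 0, none, (.ndet 3 [⟨1, [(8, 1), (6, 1)]⟩, ⟨1, [(6, 1), (2, 1)]⟩, ⟨1, [(6, 1)]⟩, ⟨1, [(9, 1)]⟩] (.ddet 0 [] (.ndet 4 [⟨1, [(8, 1), (6, 1)]⟩, ⟨1, [(8, 1)]⟩, ⟨1, [(6, 1), (2, 1)]⟩, ⟨1, [(6, 1)]⟩] (.ddet 0 [] (.ndet 1 [⟨1, [(6, 1), (2, 1)]⟩, ⟨1, [(2, 1)]⟩, ⟨1, [(3, 1), (2, 1)]⟩, ⟨1, [(3, 1)]⟩] (.ddet 0 [] (.ndet 2 [⟨1, [(6, 1), (2, 1)]⟩, ⟨1, [(6, 1)]⟩,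 ⟨1, [(2, 1)]⟩, ⟨1, [(3, 1), (2, 1)]⟩] (.ddet 0 [] (.leaf 0 [⟨1, [(6, 1), (2, 1)]⟩, ⟨1, [(6, 1), (2, 1)]⟩, ⟨1, [(6, 1)]⟩, ⟨1, [(2, 1)]⟩, ⟨1, [(2, 1)]⟩, ⟨1, [(6, 1), (2, 1)]⟩, ⟨1, [(6, 1)]⟩, ⟨1, [(2, 1)]⟩, ⟨1, [(6, 1), (2, 1)]⟩, ⟨1, [(6, 1)]⟩, ⟨1, [(2, 1)]⟩, ⟨1, [(6, 1), (2, 1)]⟩, ⟨1, []⟩, ⟨1, [(0, 1)]⟩])))))))))⟩
def s31_4 : Sys := ⟨[(0, 0), (1, 0), (2, -16), (3, 16), (4, 16)], [(2, -16)], 4, [s31_4_n0], [0, 176, 192, 32], (.leaf 0 [⟨1, []⟩, ⟨1, []⟩, ⟨1, []⟩, ⟨1, []⟩, ⟨1, []⟩, ⟨1, []⟩, ⟨1, []⟩, ⟨1, []⟩, ⟨1, []⟩, ⟨1, []⟩, ⟨1, []⟩, ⟨1, []⟩, ⟨1, []⟩])⟩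

theorem s31_4_ok : s31_4.ok = true := by decide +kernel

end Pool.Agent.H81.RDE.Data
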