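import Pool.Agent.H81.RDE.System

/-! Data file (generated): certificates. -/

set_option maxRecDepth 100000

namespace Pool.Agent.H81.RDE.Data

def s3_8_t0 : Tree := .ddet 0 [] (.ndet 0 [⟨584, [(4, 772), (2, 41), (1, 43)]⟩] (.ddet 0 [] (.ndet 1 [⟨1, [(0, 1)]⟩] (.ddet 0 [] (.ndet 1 [⟨6, [(2, 1), (1, 1), (0, 6)]⟩] (.ddet 0 [] (.ndet 1 [⟨4068, [(2, 1187), (1, 1193), (0, 1752)]⟩] (.ddet 0 [] (.leaf 0 [⟨584, [(4, 772), (2, 41), (1, 43)]⟩, ⟨1, [(0, 1)]⟩, ⟨4068, [(2, 2993), (1, 4331), (0, 8304)]⟩, ⟨4068, [(2, 4129), (1, 2827), (0, 2208)]⟩, ⟨4068, [(2, 509), (1, 515), (0, 1752)]⟩])))))))))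
def s3_8_t1 : Tree := .ddet 0 [] (.ndet 1 [⟨6, [(3, 1), (2, 1), (0, 12)]⟩] (.ddet 0 [] (.ndet 1 [⟨4068, [(3, 1187), (2, 1193), (0, 5820)]⟩] (.ddet 0 [] (.split [-1, 0, 1] (-2000) (.leaf 0 [⟨4068, [(4, 509), (3, 515), (2, 2316)]⟩, ⟨1, [(0, 1)]⟩, ⟨4068, [(4, 2993), (3, 4331), (2, 654780)]⟩, ⟨4068, [(4, 4129), (3, 2827), (0, 689700)]⟩, ⟨4068, [(4, 509), (3, 515), (0, 5820)]⟩]) (.ndet 1 [⟨4068, [(4, 1187), (3, 1193), (1, 1752)]⟩] (.ddet 0 [] (.leaf 0 [⟨1, [(0, 1)]⟩, ⟨6, [(4, 1), (3, 1), (1, 12)]⟩, ⟨4068, [(4, 4495), (3, 3517), (1, 519888)]⟩, ⟨4068, [(4, 2627), (3, 3641), (0, 509376)]⟩, ⟨4068, [(4, 509), (3, 515), (1, 1752)]⟩]))))))))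
def s3_8_t2 : Tree := .nbr (.cons (.ddet 0 [] (.ndet 1 [⟨2316, [(4, 4068), (3, 217), (2, 223)]⟩] (.ddet 0 [] (.ndet 1 [⟨772, [(4, 584), (3, 201), (2, 203)]⟩] (.ddet 0 [] (.ndet 1 [⟨4068, [(3, 1187), (2, 1193), (0, 2316)]⟩] (.ddet 0 [] (.leaf 0 [⟨1, [(0, 1)]⟩, ⟨2316, [(4, 4068), (3, 217), (2, 223)]⟩, ⟨4068, [(3, 4495), (2, 3517), (0, 4884)]⟩, ⟨4068, [(3, 2627), (2, 3641), (0, 9012)]⟩, ⟨4068, [(3, 509), (2, 515), (0, 2316)]⟩])))))))) (.cons s3_8_t1 .nil))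
def s3_8_t3 : Tree := .nbr (.cons (.ddet 0 [] (.ndet 0 [⟨6, [(2, 1), (1, 1)]⟩] s3_8_t0)) (.cons (.ddet 0 [] (.ndet 0 [⟨2316, [(3, 4068), (2, 217), (1, 223)]⟩] (.ddet 0 [] (.ndet 0 [⟨4068, [(2, 509), (1, 515), (0, 2316)]⟩] (.ddet 0 [] s3_8_t2))))) .nil))
def s3_8_n0 : Node := ⟨[⟨[0, 1, -1], -200⟩, ⟨[-1, 1], -200⟩, ⟨[-292, 515, -386], 61645500⟩, ⟨[292, -509, 386], 53319730⟩], [0, 1], 0, none, (.ndet 1 [⟨584, [(3, 772), (1, 41), (0, 43)]⟩] (.ddet 0 [] s3_8_t3))⟩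
def s3_8 : Sys := ⟨[(0, -1000), (1, 0)], [(3, -1000)], 3, [s3_8_n0], [25902735, 36097069, 28265701, 0], (.leaf 0 [⟨1, []⟩, ⟨1, []⟩, ⟨1, []⟩, ⟨1, []⟩])⟩

theorem s3_8_ok : s3_8.ok = true := by decide +kernel

def s4_3_n0 : Node := ⟨[⟨[1], 16⟩, ⟨[1, -1], 80⟩], [1], 0, none, (.ndet 0 [] (.ddet 1 [⟨1, [(1, 1)]⟩] (.ndet 0 [] (.ddet 0 [⟨1, [(0, 1)]⟩] (.leaf 0 [⟨1, [(1, 1)]⟩, ⟨1, [(1, 1), (0, 1)]⟩, ⟨1, []⟩])))))⟩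
def s4_3 : Sys := ⟨[(2, -32)], [(0, -48), (1, 32)], 2, [s4_3_n0], [112, -32, 0, 0], (.leaf 0 [⟨1, []⟩, ⟨1, []⟩])⟩

theorem s4_3_ok : s4_3.ok = true := by decide +kernel

def s9_20_n0 : Node := ⟨[⟨[0, 0, -1], 16⟩, ⟨[0, 1, 0, -1], 56⟩, ⟨[0, 1], 32⟩, ⟨[-1, 0, 1], 0⟩, ⟨[-1], 24⟩, ⟨[0, 2], 64⟩, ⟨[0, 1], 40⟩, ⟨[-1, 1, -1], 80⟩], [0, 1], 0, none, (.ndet 0 [⟨1, [(7, 1)]⟩] (.ddet 0 [⟨1, [(6, 1)]⟩] (.ndet 1 [⟨1, [(1, 1)]⟩] (.ddet 1 [⟨1, [(4, 1)]⟩] (.ndet 0 [⟨1, [(3, 1)]⟩] (.ddet 1 [⟨1, [(1, 2)]⟩] (.leaf 0 [⟨1, [(1, 1)]⟩, ⟨1, [(0, 1)]⟩, ⟨1, [(7, 1), (1, 1)]⟩, ⟨1, []⟩, ⟨1, [(1, 1)]⟩, ⟨1, [(7, 2), (1, 2)]⟩, ⟨1, [(7, 1), (1, 1)]⟩, ⟨1, [(7, 1), (1,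 3)]⟩, ⟨1, [(7, 1)]⟩])))))))⟩
def s9_20 : Sys := ⟨[(0, 16), (3, 16)], [(2, 0), (4, 16)], 4, [s9_20_n0], [-48, 64, -32, -32], (.leaf 0 [⟨1, []⟩, ⟨1, []⟩, ⟨1, []⟩, ⟨1, []⟩, ⟨1, []⟩, ⟨1, []⟩, ⟨1, []⟩, ⟨1, []⟩])⟩

theorem s9_20_ok : s9_20.ok = true := by decide +kernel

def s12_2_n0 : Node := ⟨[⟨[0, 1, -1], 72⟩, ⟨[-1, 1], 288⟩, ⟨[-1], 72⟩], [0, 1], 0, none, (.ndet 0 [⟨1, [(2, 1)]⟩] (.ddet 0 [] (.ndet 1 [⟨1, [(1, 1)]⟩] (.ddet 0 [] (.leaf 0 [⟨1, [(1, 1), (0, 1)]⟩, ⟨1, [(1, 1), (0, 1)]⟩, ⟨1, [(0, 1)]⟩, ⟨1, [(0, 1)]⟩])))))⟩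
def s12_2 : Sys := ⟨[(2, 16), (3, -16)], [(1, 0)], 3, [s12_2_n0], [-160, 384, 208, 0], (.leaf 0 [⟨1, []⟩, ⟨1, []⟩, ⟨1, []⟩])⟩

theorem s12_2_ok : s12_2.ok = true := by decide +kernel

def s18_12_t0 : Tree := .ddet 1 [⟨3, [(9, 4), (6, 2), (3, 1), (1, 2)]⟩] (.ndet 1 [⟨1, [(9, 1), (6, 1), (3, 1), (0, 1)]⟩] (.ddet 1 [⟨3, [(9, 2), (6, 2), (3, 2), (0, 1)]⟩] (.ndet 1 [⟨1, [(0, 1)]⟩] (.ddet 0 [⟨1, [(9, 3), (6, 1), (1, 2)]⟩] (.ndet 0 [⟨1, [(9, 1), (6, 1), (3, 1), (0, 1)]⟩] (.ddet 0 [⟨3, [(9, 2), (6, 2), (3, 2), (0, 1)]⟩] (.ndet 0 [⟨3, [(9, 2), (6, 2), (3, 2), (0, 7)]⟩] (.ddet 0 [⟨3, [(9, 1), (6, 1), (3, 1), (0, 5)]⟩] (.leaf 1 [⟨1, []⟩, ⟨1, []⟩,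 ⟨1, []⟩, ⟨1, []⟩, ⟨1, [(9, 6), (6, 2), (1, 4)]⟩, ⟨3, [(9, 2), (6, 2), (3, 2), (0, 10)]⟩, ⟨1, [(9, 1), (6, 1), (3, 1), (0, 1)]⟩, ⟨1, [(9, 1), (6, 1), (0, 1)]⟩])))))))))
def s18_12_t1 : Tree := .ddet 1 [⟨3, [(9, 2), (4, 1), (1, 2)]⟩] (.ndet 1 [⟨1, [(9, 2), (4, 1)]⟩] (.ddet 1 [⟨3, [(9, 4), (4, 2), (1, 1)]⟩] (.ndet 1 [⟨1, [(0, 1)]⟩] (.ddet 0 [⟨1, [(1, 1)]⟩] (.ndet 0 [⟨1, [(9, 2), (4, 1)]⟩] (.ddet 0 [⟨3, [(9, 4), (4, 2), (1, 1)]⟩] (.ndet 0 [⟨3, [(9, 4), (4, 2), (0, 5)]⟩] (.ddet 0 [⟨3, [(9, 2), (4, 1), (0, 4)]⟩] (.leaf 1 [⟨1, []⟩, ⟨1, []⟩, ⟨1, []⟩, ⟨1, []⟩, ⟨1, [(1, 2)]⟩, ⟨3, [(9, 4), (4, 2), (0, 8)]⟩, ⟨1, [(9, 2), (4, 1)]⟩, ⟨1, [(9, 2)]⟩])))))))))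
def s18_12_t2 : Tree := .ndet 0 [⟨2, [(7, 4), (2, 1), (1, 3)]⟩] (.ddet 0 [⟨2, [(8, 2), (5, 2), (2, 1), (1, 1)]⟩] (.ndet 0 [⟨3, [(7, 4), (5, 1), (2, 2), (0, 2)]⟩] (.ddet 0 [⟨3, [(7, 2), (3, 1), (2, 1)]⟩] (.split [-1, 3, -2] (-124032) (.leaf 0 [⟨1, []⟩, ⟨1, []⟩, ⟨1, []⟩, ⟨1, []⟩, ⟨1, [(2, 1)]⟩, ⟨1, [(0, 1)]⟩, ⟨1, [(8, 2), (3, 1)]⟩, ⟨1, [(8, 2)]⟩]) (.split [1, -3, 2] (67992) (.leaf 1 [⟨1, []⟩, ⟨1, []⟩, ⟨1, []⟩, ⟨1, []⟩, ⟨1, [(0, 1)]⟩, ⟨3, [(9, 4), (5, 2), (4, 2)]⟩, ⟨1, [(9, 2), (4, 1), (0, 1)]⟩, ⟨1, [(9, 2), (0, 1)]⟩]) (.ndet 1 [⟨3, [(9, 4), (4, 2), (1, 4)]⟩] s18_12_t1))))))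
def s18_12_t3 : Tree := .dbr (.cons (.ndet 0 [⟨1, [(5, 1), (2, 1)]⟩] (.ddet 0 [⟨3, [(8, 5), (5, 4), (2, 2), (0, 1)]⟩] (.ndet 0 [⟨3, [(8, 11), (5, 6), (3, 5), (2, 2)]⟩] (.ddet 0 [⟨3, [(8, 7), (5, 3), (3, 4), (2, 1)]⟩] (.split [0, -3, 1, 1] (131990) (.leaf 1 [⟨1, []⟩, ⟨1, []⟩, ⟨1, []⟩, ⟨1, []⟩, ⟨1, [(0, 1)]⟩, ⟨3, [(9, 14), (6, 6), (4, 8), (3, 2)]⟩, ⟨1, [(9, 1), (6, 1), (3, 1)]⟩, ⟨1, [(9, 1), (6, 1)]⟩]) (.ndet 1 [⟨3, [(9, 8), (6, 4), (3, 2), (1, 4)]⟩] s18_12_t0)))))) (.cons s18_12_t2 .nil))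
def s18_12_t4 : Tree := .dbr (.cons (.ndet 1 [⟨1, [(7, 1), (4, 1), (1, 1), (0, 1)]⟩] (.ddet 1 [⟨2, [(6, 2), (3, 1), (1, 1)]⟩] (.ndet 1 [⟨2, [(1, 1), (0, 3)]⟩] (.ddet 1 [⟨2, [(7, 4), (4, 2), (1, 1), (0, 5)]⟩] (.ndet 0 [⟨2, [(6, 4), (3, 3), (1, 1)]⟩] (.ddet 0 [⟨2, [(7, 2), (4, 2), (1, 1), (0, 1)]⟩] (.ndet 0 [⟨1, [(4, 1), (1, 1), (0, 2)]⟩] (.ddet 0 [⟨2, [(6, 2), (1, 1), (0, 1)]⟩] (.leaf 0 [⟨1, []⟩, ⟨1, []⟩, ⟨1, []⟩, ⟨1, []⟩, ⟨1, [(3, 1)]⟩, ⟨2, [(6, 2), (1, 1), (0, 3)]⟩, ⟨1, [(6, 2), (1, 1)]⟩, ⟨1, [(6, 2)]⟩]))))))))) (.cons (.ndet 1 [⟨1, [(7, 1), (4, 1), (1, 1)]⟩] (.ddet 1 [⟨2, [(6, 2), (1, 1), (0, 1)]⟩] (.ndet 1 [⟨1, [(7, 1), (2, 1)]⟩] s18_12_t3)))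 .nil))
def s18_12_n0 : Node := ⟨[⟨[1, -1, 1], -1500⟩, ⟨[-1, 1, -1], -1500⟩, ⟨[1, 0, 0, 1], -1500⟩, ⟨[-1, 0, 0, -1], -1500⟩, ⟨[0, -1, 1], -4000⟩, ⟨[-1, 3, -2], 60000⟩, ⟨[0, 1, 1], 3840000⟩], [0, 1, 1], 0, none, (.ndet 1 [⟨1, [(5, 2), (4, 1), (2, 2)]⟩] s18_12_t4)⟩
def s18_12_t5 : Tree := .ddet 0 [⟨1, [(0, 1)]⟩] (.ndet 1 [⟨1, [(10, 2), (7, 2), (4, 1), (0, 1)]⟩] (.ddet 1 [⟨4, [(10, 4), (7, 4), (4, 2), (1, 1)]⟩] (.ndet 1 [⟨2, [(10, 2), (7, 2), (4, 1), (0, 3)]⟩] (.ddet 1 [⟨2, [(10, 2), (7, 2), (4, 1), (0, 5)]⟩] (.ndet 0 [⟨4, [(10, 4), (7, 4), (4, 2), (1, 3)]⟩] (.ddet 0 [⟨2, [(10, 2), (7, 2), (4, 1), (0, 1)]⟩] (.ndet 0 [⟨1, [(10, 2), (7, 2),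 (4, 1), (0, 2)]⟩] (.ddet 0 [⟨2, [(10, 2), (7, 2), (4, 1), (0, 1)]⟩] (.leaf 0 [⟨1, []⟩, ⟨1, []⟩, ⟨1, []⟩, ⟨1, []⟩, ⟨2, [(1, 1)]⟩, ⟨2, [(10, 2), (7, 2), (4, 1), (0, 3)]⟩, ⟨1, [(10, 2), (7, 2), (4, 1)]⟩, ⟨1, [(10, 2), (7, 2)]⟩])))))))))
def s18_12_t6 : Tree := .ndet 1 [⟨4, [(9, 4), (6, 4), (3, 2), (1, 3)]⟩] (.ddet 1 [⟨4, [(9, 4), (6, 4), (3, 2), (1, 1)]⟩] (.ndet 0 [⟨4, [(9, 4), (6, 4), (3, 2), (0, 3)]⟩] (.ddet 0 [⟨4, [(9, 4), (6, 4), (3, 2), (0, 3)]⟩] (.ndet 0 [⟨1, [(9, 2), (6, 2), (3, 1)]⟩] (.ddet 0 [⟨4, [(9, 4), (6, 4), (3, 2), (1, 1)]⟩] (.split [0, 0, -1, 1] (131952) (.leaf 0 [⟨1, []⟩, ⟨1, []⟩, ⟨1, []⟩, ⟨1, []⟩, ⟨1, [(0, 1)]⟩, ⟨4, [(10,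 4), (7, 4), (4, 2), (2, 3)]⟩, ⟨1, [(10, 2), (7, 2), (4, 1)]⟩, ⟨1, [(10, 2), (7, 2)]⟩]) (.ndet 1 [⟨1, [(1, 1)]⟩] s18_12_t5)))))))
def s18_12_t7 : Tree := .ddet 0 [⟨2, [(3, 1)]⟩] (.ndet 1 [⟨2, [(8, 4), (5, 4), (3, 1), (2, 2)]⟩] (.ddet 1 [⟨4, [(8, 4), (5, 4), (2, 2), (0, 1)]⟩] (.ndet 1 [⟨4, [(8, 4), (5, 4), (3, 3), (2, 2)]⟩] (.ddet 1 [⟨4, [(8, 4), (5, 4), (3, 5), (2, 2)]⟩] (.ndet 0 [⟨4, [(8, 4), (5, 4), (2, 2), (0, 3)]⟩] (.ddet 0 [⟨4, [(8, 4), (5, 4), (3, 1), (2, 2)]⟩] (.ndet 0 [⟨1, [(8, 2), (5, 2), (3, 1), (2, 1)]⟩] (.ddet 0 [⟨4, [(8, 4), (5, 4), (3, 1), (2, 2)]⟩] (.leaf 0 [⟨1, []⟩, ⟨1, []⟩, ⟨1, []⟩, ⟨1, []⟩, ⟨2, [(0, 1)]⟩, ⟨4, [(8, 4),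 (5, 4), (3, 3), (2, 2)]⟩, ⟨1, [(8, 2), (5, 2), (2, 1)]⟩, ⟨1, [(8, 2), (5, 2)]⟩])))))))))
def s18_12_t8 : Tree := .ndet 0 [⟨1, [(7, 1), (4, 2), (1, 1)]⟩] (.ddet 0 [⟨4, [(7, 4), (4, 4), (2, 1), (1, 2)]⟩] (.nbr (.cons (.ddet 0 [⟨2, [(0, 1)]⟩] (.split [0, 0, 2, -2] (-316016) (.leaf 1 [⟨1, []⟩, ⟨1, []⟩, ⟨1, []⟩, ⟨1, []⟩, ⟨1, [(8, 1), (7, 1), (2, 1)]⟩, ⟨1, [(0, 1)]⟩, ⟨1, [(9, 2), (6, 2), (3, 1)]⟩, ⟨1, [(9, 2), (6, 2)]⟩]) (.ndet 1 [⟨2, [(9, 4), (6, 4), (3, 2), (0, 1)]⟩] (.ddet 1 [⟨4, [(9, 4), (6, 4), (3, 2), (0, 1)]⟩] s18_12_t6)))) (.cons s18_12_t7 .nil))))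
def s18_12_t9 : Tree := .ddet 1 [⟨4, [(5, 4), (1, 1), (0, 2)]⟩] (.nbr (.cons (.ddet 0 [⟨1, [(6, 2), (5, 1), (0, 1)]⟩] s18_12_t8) (.cons (.ddet 0 [⟨1, [(6, 1), (3, 1)]⟩] (.ndet 0 [⟨1, [(7, 1), (4, 2), (1, 1), (0, 1)]⟩] (.ddet 0 [⟨3, [(7, 5), (4, 5), (1, 2), (0, 1)]⟩] (.ndet 0 [⟨3, [(7, 8), (4, 8), (1, 2), (0, 7)]⟩] (.ddet 0 [⟨3, [(7, 4), (4, 4), (1, 1), (0, 5)]⟩] (.leaf 1 [⟨1, []⟩, ⟨1, []⟩, ⟨1, []⟩, ⟨1, []⟩, ⟨1, [(7, 1), (4, 1), (3, 2)]⟩, ⟨3, [(7, 8), (4, 8), (1, 2), (0, 10)]⟩, ⟨1, [(7, 2), (4, 2), (1, 1), (0, 1)]⟩, ⟨1, [(7, 2), (4, 2), (0, 1)]⟩])))))) .nil)))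
def s18_12_n1 : Node := ⟨[⟨[1, -1, 1], -1500⟩, ⟨[-1, 1, -1], -1500⟩, ⟨[1, 0, 0, 1], -1500⟩, ⟨[-1, 0, 0, -1], -1500⟩, ⟨[0, -1, 0, 1], -4000⟩, ⟨[0, 0, 2, -2], 188000⟩, ⟨[0, 0, 1, 1], 3840000⟩], [0, 0, 1, 1], 0, none, (.ndet 1 [⟨3, [(5, 2), (3, 1), (2, 2), (0, 2)]⟩] (.ddet 1 [⟨3, [(6, 2), (3, 2), (2, 1), (0, 1)]⟩] (.ndet 1 [⟨4, [(1, 3), (0, 2)]⟩] s18_12_t9)))⟩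
def s18_12 : Sys := ⟨[(1, 0), (4, 64000)], [(2, 0), (3, 0)], 4, [s18_12_n0, s18_12_n1], [-3392000, 23936000, 27328000, 3392000], (.leaf 0 [⟨1, []⟩, ⟨1, []⟩, ⟨1, []⟩, ⟨1, []⟩, ⟨1, []⟩, ⟨1, []⟩, ⟨1, []⟩])⟩

theorem s18_12_ok : s18_12.ok = true := by decide +kernel

def s20_8_n0 : Node := ⟨[⟨[0, -1, 0, 1], 16⟩, ⟨[1, 0, -1], 24⟩, ⟨[0, -1], 40⟩, ⟨[0, 1, 1, -1], 24⟩, ⟨[0, 0, 1, -1], 64⟩], [1], 0, none, (.ndet 1 [⟨1, [(4, 1)]⟩] (.ddet 0 [] (.ndet 0 [⟨1, [(3, 1)]⟩] (.ddet 0 [] (.leaf 0 [⟨1, [(1, 1)]⟩, ⟨1, [(2, 1)]⟩, ⟨1, [(2, 1), (1, 1)]⟩, ⟨1, [(4, 1), (3, 1)]⟩, ⟨1, [(4, 1), (3, 1), (0, 1)]⟩, ⟨1, [(2, 1)]⟩])))))⟩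
def s20_8 : Sys := ⟨[(2, 0), (4, 0)], [(3, 0)], 4, [s20_8_n0], [128, -80, 80, -48], (.leaf 0 [⟨1, []⟩, ⟨1, []⟩, ⟨1, []⟩, ⟨1, []⟩, ⟨1, []⟩])⟩

theorem s20_8_ok : s20_8.ok = true := by decide +kernel

def s20_12_n0 : Node := ⟨[⟨[0, -1, 0, 1], 96⟩, ⟨[0, 1, -1], 320⟩, ⟨[-1, 0, 1], 96⟩, ⟨[-1, 1], 320⟩, ⟨[0, -2, 0, 1], 192⟩, ⟨[-1, -1, 0, 1], 608⟩, ⟨[-1, -1, 1], 256⟩, ⟨[0, 0, -1, 1], 256⟩, ⟨[0, -1], 32⟩], [0, 0, 0, 1], 0, none, (.ndet 1 [⟨1, [(8, 1)]⟩] (.ddet 0 [⟨1, [(7, 1)]⟩] (.ndet 1 [⟨1, [(6, 1)]⟩] (.ddet 1 [⟨1, [(7, 1), (6, 1)]⟩] (.ndet 0 [⟨1, [(4, 1)]⟩] (.ddet 0 [⟨1, [(8, 1), (7, 1), (2, 1)]⟩] (.ndet 0 [⟨1, [(2, 1)]⟩] (.ddet 1 [⟨1, [(8,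 1), (7, 1)]⟩] (.leaf 0 [⟨1, [(8, 1)]⟩, ⟨1, [(7, 1)]⟩, ⟨1, [(8, 1)]⟩, ⟨1, [(8, 1), (7, 1)]⟩, ⟨1, [(8, 1)]⟩, ⟨1, [(8, 2), (7, 1)]⟩, ⟨1, [(8, 1)]⟩, ⟨1, [(8, 1), (7, 1)]⟩, ⟨1, []⟩, ⟨1, [(0, 1)]⟩])))))))))⟩
def s20_12 : Sys := ⟨[(2, -128), (4, -64)], [(2, -64), (3, 64)], 4, [s20_12_n0], [-832, -64, -576, 192], (.leaf 0 [⟨1, []⟩, ⟨1, []⟩, ⟨1, []⟩, ⟨1, []⟩, ⟨1, []⟩, ⟨1, []⟩, ⟨1, []⟩, ⟨1, []⟩, ⟨1, []⟩])⟩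

theorem s20_12_ok : s20_12.ok = true := by decide +kernel

def s23_3_n0 : Node := ⟨[⟨[1], 24⟩, ⟨[1, -1], 50⟩, ⟨[1, 0, 0, -1], 34⟩, ⟨[1], 8⟩, ⟨[1, 0, -1], -16⟩], [1], 0, none, (.ndet 1 [⟨1, [(4, 1)]⟩, ⟨1, [(3, 1)]⟩, ⟨1, [(2, 1)]⟩] (.ddet 1 [⟨1, [(4, 1)]⟩] (.ndet 2 [⟨1, [(4, 1)]⟩, ⟨1, [(4, 1)]⟩, ⟨1, [(0, 1)]⟩] (.ddet 1 [⟨1, []⟩] (.leaf 0 [⟨1, [(4, 1)]⟩, ⟨1, [(4, 1)]⟩, ⟨1, [(3, 1)]⟩, ⟨1, [(4, 1)]⟩, ⟨1, []⟩, ⟨1, []⟩])))))⟩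
def s23_3 : Sys := ⟨[(0, 0), (1, 0), (2, 32), (4, -32)], [(0, -32), (1, 0)], 4, [s23_3_n0], [80, 0, 48, 0], (.leaf 0 [⟨1, []⟩, ⟨1, []⟩, ⟨1, []⟩, ⟨1, []⟩, ⟨1, []⟩])⟩

theorem s23_3_ok : s23_3.ok = true := by decide +kernel

def s24_23_n0 : Node := ⟨[⟨[0, 0, 1, -1], 24⟩, ⟨[-1], 24⟩, ⟨[0, -1], 8⟩, ⟨[0, 0, 0, -1], 8⟩, ⟨[0, -1, 1], 40⟩, ⟨[0, 0, 1], 16⟩, ⟨[-1, 0, 1], 40⟩, ⟨[-1, 1], 24⟩, ⟨[0, 0, 1], 8⟩, ⟨[0, -1, 1], 24⟩], [0, 0, 1], 0, none, (.ndet 0 [⟨1, [(9, 1)]⟩] (.ddet 0 [⟨1, [(7, 1), (2, 1)]⟩, ⟨1, [(7, 1)]⟩, ⟨1, [(6, 1)]⟩] (.ndet 1 [⟨1, [(5, 1)]⟩] (.ddet 1 [⟨1, [(4, 1)]⟩, ⟨1, [(5, 1), (2, 1)]⟩, ⟨1, []⟩] (.ndet 1 [⟨1, [(2, 1)]⟩] (.ddet 2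 [⟨1, [(4, 1)]⟩, ⟨1, [(4, 1)]⟩, ⟨1, [(5, 1)]⟩] (.leaf 0 [⟨1, [(5, 1), (2, 1)]⟩, ⟨1, [(5, 1)]⟩, ⟨1, []⟩, ⟨1, [(7, 1), (2, 1)]⟩, ⟨1, [(4, 1)]⟩, ⟨1, [(4, 1)]⟩, ⟨1, [(5, 1), (4, 1)]⟩, ⟨1, [(5, 1)]⟩, ⟨1, [(4, 1)]⟩, ⟨1, [(4, 1)]⟩, ⟨1, []⟩])))))))⟩
def s24_23 : Sys := ⟨[(3, 16), (4, 0)], [(0, 0), (1, 0), (2, 0), (4, 0)], 4, [s24_23_n0], [-48, -16, 48, -16], (.leaf 0 [⟨1, []⟩, ⟨1, []⟩, ⟨1, []⟩, ⟨1, []⟩, ⟨1, []⟩, ⟨1, []⟩, ⟨1, []⟩, ⟨1, []⟩, ⟨1, []⟩, ⟨1, []⟩])⟩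

theorem s24_23_ok : s24_23.ok = true := by decide +kernel

def s26_4_n0 : Node := ⟨[⟨[-1, 0, 1], 312⟩, ⟨[0, 0, 1, -1], 120⟩, ⟨[0, 1], 184⟩, ⟨[0, -1, 1], 136⟩, ⟨[-2, 0, 1], 432⟩, ⟨[-1, -1, 1], 184⟩, ⟨[-1, 2, -1], 208⟩, ⟨[-2, 1], 336⟩, ⟨[-1], 80⟩], [0, 1], 0, none, (.ndet 1 [⟨1, [(5, 2), (2, 1)]⟩, ⟨1, [(7, 1)]⟩] (.ddet 0 [] (.ndet 2 [⟨1, [(6, 1)]⟩, ⟨1, [(5, 1)]⟩] (.ddet 0 [] (.ndet 0 [⟨1, [(5, 2), (2, 1), (0, 1)]⟩, ⟨1, [(5, 1), (0, 1)]⟩] (.ddet 0 [] (.ndet 0 [⟨1, [(2, 1)]⟩, ⟨1, [(5, 1), (2, 1), (0, 1)]⟩] (.ddet 0 [] (.leaf 0 [⟨1, [(5, 3), (2, 1)]⟩, ⟨1, [(5, 1), (2, 1)]⟩, ⟨1, [(5, 1), (2, 1)]⟩, ⟨1, [(5, 1)]⟩, ⟨1, [(5, 4), (2, 1)]⟩, ⟨1,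 [(5, 2)]⟩, ⟨1, [(5, 1), (2, 1)]⟩, ⟨1, [(5, 3), (2, 1)]⟩, ⟨1, [(5, 1)]⟩, ⟨1, [(0, 1)]⟩])))))))))⟩
def s26_4 : Sys := ⟨[(1, 0), (3, 80), (4, 48)], [(2, -32)], 4, [s26_4_n0], [-160, 304, 544, 272], (.leaf 0 [⟨1, []⟩, ⟨1, []⟩, ⟨1, []⟩, ⟨1, []⟩, ⟨1, []⟩, ⟨1, []⟩, ⟨1, []⟩, ⟨1, []⟩, ⟨1, []⟩])⟩

theorem s26_4_ok : s26_4.ok = true := by decide +kernel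

def s27_2_n0 : Node := ⟨[⟨[0, 0, 0, 1], 56⟩, ⟨[-1, 0, 0, 1], -24⟩, ⟨[0, 0, -1, 1], -8⟩, ⟨[0, 1], 184⟩, ⟨[1, 1, 0, -1], 136⟩, ⟨[0, 1, -1], 184⟩, ⟨[-1, -1, 0, 1], -224⟩, ⟨[-1, 1], 128⟩, ⟨[-2, 0, 0, 1], 32⟩, ⟨[-2, -1, 0, 2], -160⟩], [0, 1], 0, none, (.ndet 3 [⟨1, [(9, 1)]⟩, ⟨2, [(9, 1), (1, 1)]⟩, ⟨1, [(7, 1)]⟩] (.ddet 0 [] (.ndet 2 [⟨1, [(6, 1)]⟩, ⟨1, [(5, 1)]⟩, ⟨1, [(4, 1)]⟩] (.ddet 0 [] (.leaf 0 [⟨1, [(6, 1)]⟩, ⟨2, [(9, 1), (1, 1)]⟩, ⟨1, [(5, 1), (1, 1)]⟩, ⟨2, [(9, 1), (1, 1)]⟩, ⟨1, []⟩, ⟨1, [(1, 1)]⟩, ⟨1, []⟩, ⟨1, [(0, 1)]⟩, ⟨1, [(0, 1)]⟩, ⟨2, [(9, 1), (1, 1)]⟩, ⟨1, [(3, 1)]⟩])))))⟩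
def s27_2 : Sys := ⟨[(0, -32), (1, -160), (3, 16), (4, 144)], [(1, -144)], 4, [s27_2_n0], [32, 416, 176, 288], (.leaf 0 [⟨1, []⟩, ⟨1, []⟩, ⟨1, []⟩, ⟨1, []⟩, ⟨1, []⟩, ⟨1, []⟩, ⟨1, []⟩, ⟨1, []⟩, ⟨1, []⟩, ⟨1, []⟩])⟩

theorem s27_2_ok : s27_2.ok = true := by decide +kernel

def s27_14_n0 : Node := ⟨[⟨[0, 0, 1], 320⟩, ⟨[-1, 0, 1], 320⟩, ⟨[0, 0, 1, -1], 320⟩, ⟨[0, -1, 1], 224⟩, ⟨[0, 0, 1], 192⟩, ⟨[0, 0, 1], 64⟩, ⟨[0, -1, 1], 96⟩, ⟨[-1], 96⟩, ⟨[0, -1], 32⟩, ⟨[-1, 0, 1], 160⟩, ⟨[0, 0, 1], 32⟩, ⟨[0, 0, 1], 96⟩], [0, 0, 1], 0, none, (.ndet 2 [⟨1, [(11, 1)]⟩, ⟨1, [(11, 1), (4, 1)]⟩, ⟨1, [(9, 1)]⟩] (.ddet 2 [⟨1, [(11, 1), (4, 1)]⟩, ⟨1, [(11, 1),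 (3, 1)]⟩] (.ndet 3 [⟨1, [(11, 1)]⟩, ⟨1, [(11, 1)]⟩, ⟨1, [(11, 1), (3, 1)]⟩] (.ddet 0 [⟨1, [(4, 1)]⟩, ⟨1, [(3, 1)]⟩] (.ndet 1 [⟨1, [(11, 1)]⟩, ⟨1, [(11, 1), (4, 1)]⟩, ⟨1, [(11, 1), (3, 1)]⟩] (.ddet 0 [⟨1, [(11, 1)]⟩, ⟨1, [(11, 1), (4, 1)]⟩] (.ndet 0 [⟨1, []⟩, ⟨1, []⟩, ⟨1, [(4, 1)]⟩] (.ddet 1 [⟨1, [(11, 1)]⟩, ⟨1, [(11, 1)]⟩] (.leaf 0 [⟨1, [(11, 1)]⟩, ⟨1, [(11, 2)]⟩, ⟨1, [(11, 1)]⟩, ⟨1, [(11, 1)]⟩, ⟨1, [(11, 1)]⟩, ⟨1, [(11, 1)]⟩, ⟨1, [(11, 1)]⟩, ⟨1, [(11, 1)]⟩, ⟨1, []⟩, ⟨1, [(11, 2)]⟩, ⟨1, [(11, 1)]⟩, ⟨1, [(11, 1)]⟩, ⟨1, []⟩])))))))))⟩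
def s27_14 : Sys := ⟨[(0, 128), (1, -64), (3, -128), (4, 128)], [(1, 0), (2, -64), (3, -64)], 4, [s27_14_n0], [-192, -64, 384, 0], (.leaf 0 [⟨1, []⟩, ⟨1, []⟩, ⟨1, []⟩, ⟨1, []⟩, ⟨1, []⟩, ⟨1, []⟩, ⟨1, []⟩, ⟨1, []⟩, ⟨1, []⟩, ⟨1, []⟩, ⟨1, []⟩, ⟨1, []⟩])⟩

theorem s27_14_ok : s27_14.ok = true := by decide +kernel

def s27_20_n0 : Node := ⟨[⟨[0, 0, 1], 136⟩, ⟨[-1, 0, 1], 168⟩, ⟨[0, 0, 1, -1], 192⟩, ⟨[0, 1, 0, -1], 96⟩, ⟨[0, 0, 1], 168⟩, ⟨[0, 1], 24⟩, ⟨[0, -1, 1], 152⟩, ⟨[-1, 0, 1], 240⟩, ⟨[-1], 96⟩, ⟨[0, -1], -48⟩, ⟨[0, -2, 1], 56⟩, ⟨[0, -1], -56⟩], [0, 0, 1], 0, none, (.ndet 2 [⟨1, [(6, 1), (5, 1)]⟩, ⟨1, [(6, 1), (5, 1), (3, 1)]⟩, ⟨1, [(8,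 1), (5, 1)]⟩] (.ddet 0 [⟨1, [(8, 1)]⟩] (.ndet 3 [⟨1, [(6, 1), (5, 1)]⟩, ⟨1, [(6, 1)]⟩, ⟨1, [(5, 1)]⟩] (.ddet 1 [⟨1, [(6, 1), (5, 1), (3, 1)]⟩] (.ndet 0 [⟨1, []⟩, ⟨1, [(3, 1)]⟩, ⟨1, [(2, 1)]⟩] (.ddet 0 [⟨1, [(5, 1), (2, 1)]⟩] (.leaf 0 [⟨1, [(5, 1)]⟩, ⟨1, [(5, 2)]⟩, ⟨1, [(5, 1), (3, 1)]⟩, ⟨1, [(3, 1)]⟩, ⟨1, [(5, 1)]⟩, ⟨1, []⟩, ⟨1, [(5, 1)]⟩, ⟨1, [(5, 2)]⟩, ⟨1, [(5, 1)]⟩, ⟨1, []⟩, ⟨1, [(5, 1)]⟩, ⟨1, []⟩, ⟨1, [(2, 1)]⟩])))))))⟩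
def s27_20 : Sys := ⟨[(0, 48), (1, -80), (3, 48), (4, -16)], [(2, -32), (4, -48)], 4, [s27_20_n0], [-192, 32, 272, -176], (.leaf 0 [⟨1, []⟩, ⟨1, []⟩, ⟨1, []⟩, ⟨1, []⟩, ⟨1, []⟩, ⟨1, []⟩, ⟨1, []⟩, ⟨1, []⟩, ⟨1, []⟩, ⟨1, []⟩, ⟨1, []⟩, ⟨1, []⟩])⟩

theorem s27_20_ok : s27_20.ok = true := by decide +kernel

def s28_23_n0 : Node := ⟨[⟨[0, 1, -1], 56⟩, ⟨[0, 1, 0, -1], 24⟩, ⟨[0, 1], 16⟩, ⟨[-1, 1], 40⟩, ⟨[0, 1, 0, -1], 0⟩, ⟨[-1, 1], 32⟩, ⟨[0, 1, -1], 16⟩, ⟨[-1], 32⟩, ⟨[0, 0, -1], -8⟩, ⟨[-1, 1], 72⟩, ⟨[0, 1], 8⟩], [0, 1], 0, none, (.ndet 0 [⟨1, [(10, 1)]⟩, ⟨1, [(9, 1)]⟩] (.ddet 2 [⟨1, [(8, 1)]⟩, ⟨1, [(1, 1)]⟩, ⟨1, [(9, 1)]⟩] (.ndet 1 [⟨1, [(1, 1)]⟩,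 ⟨1, [(10, 1)]⟩] (.ddet 0 [⟨1, []⟩, ⟨1, [(3, 1)]⟩, ⟨1, [(2, 1)]⟩] (.ndet 2 [⟨1, [(8, 1)]⟩, ⟨1, [(1, 1)]⟩] (.ddet 1 [⟨1, [(8, 1)]⟩, ⟨1, [(8, 1)]⟩, ⟨1, []⟩] (.leaf 0 [⟨1, [(8, 1)]⟩, ⟨1, [(1, 1)]⟩, ⟨1, [(8, 1)]⟩, ⟨1, [(8, 1)]⟩, ⟨1, [(1, 1)]⟩, ⟨1, [(8, 1)]⟩, ⟨1, [(8, 1)]⟩, ⟨1, []⟩, ⟨1, []⟩, ⟨1, [(8, 1)]⟩, ⟨1, [(8, 1)]⟩, ⟨1, []⟩])))))))⟩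
def s28_23 : Sys := ⟨[(2, 0), (3, 32), (4, -16)], [(0, 16), (1, 16), (2, 32), (4, -32)], 4, [s28_23_n0], [-48, 48, -32, -16], (.leaf 0 [⟨1, []⟩, ⟨1, []⟩, ⟨1, []⟩, ⟨1, []⟩, ⟨1, []⟩, ⟨1, []⟩, ⟨1, []⟩, ⟨1, []⟩, ⟨1, []⟩, ⟨1, []⟩, ⟨1, []⟩])⟩

theorem s28_23_ok : s28_23.ok = true := by decide +kernel

def s29_4_t0 : Tree := .nbr (.cons (.prune [(13, 1), (6, 1), (0, 2)]) (.cons (.prune [(2, 1)]) (.cons (.ddet 0 [] (.ndet 3 [⟨1, [(27, 1), (13, 1)]⟩, ⟨1, [(27, 1), (13, 1)]⟩, ⟨1, [(27, 1), (13, 1)]⟩] (.ddet 0 [] (.leaf 0 [⟨1, [(27, 1), (13, 1)]⟩, ⟨1, [(27, 1), (13, 1)]⟩, ⟨1, []⟩, ⟨1, []⟩, ⟨1, []⟩, ⟨1, [(27, 1), (13, 1)]⟩, ⟨1, [(27, 2), (13, 2)]⟩,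 ⟨1, []⟩, ⟨1, [(27, 1), (13, 1)]⟩, ⟨1, [(27, 1), (13, 1)]⟩, ⟨1, []⟩, ⟨1, [(27, 1), (13, 1)]⟩, ⟨1, [(27, 2), (13, 2)]⟩, ⟨1, []⟩, ⟨1, []⟩, ⟨1, []⟩, ⟨1, []⟩, ⟨1, [(27, 1), (13, 1)]⟩, ⟨1, []⟩, ⟨1, []⟩, ⟨1, [(27, 1), (13, 1)]⟩, ⟨1, []⟩, ⟨1, []⟩])))) (.cons (.ddet 0 [] (.ndet 3 [⟨1, [(27, 1), (13, 1)]⟩, ⟨1, [(27, 1), (13, 1)]⟩, ⟨1, [(27, 1), (13, 1)]⟩] (.ddet 0 [] (.leaf 0 [⟨1, [(27, 1), (13, 1)]⟩, ⟨1, [(27, 1), (13, 1)]⟩, ⟨1, [(4, 1)]⟩, ⟨1, [(4, 1)]⟩, ⟨1, [(4, 1)]⟩, ⟨1, [(27, 1), (13, 1)]⟩, ⟨1, [(27, 2), (13, 2), (0, 1)]⟩, ⟨1, [(4, 1)]⟩, ⟨1, [(27, 1), (13, 1), (0, 1)]⟩, ⟨1, [(27, 1), (13, 1), (0, 1)]⟩, ⟨1, []⟩, ⟨1, [(27, 1), (13, 1), (0, 1)]⟩,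 ⟨1, [(27, 2), (13, 2), (0, 1)]⟩, ⟨1, [(4, 1)]⟩, ⟨1, []⟩, ⟨1, [(0, 1)]⟩, ⟨1, []⟩, ⟨1, [(27, 1), (13, 1), (0, 1)]⟩, ⟨1, [(4, 1)]⟩, ⟨1, []⟩, ⟨1, [(27, 1), (13, 1)]⟩, ⟨1, [(0, 1)]⟩, ⟨1, []⟩])))) .nil))))
def s29_4_t1 : Tree := .nbr (.cons (.prune [(20, 1), (7, 1), (3, 1), (2, 2)]) (.cons (.ddet 0 [] s29_4_t0) (.cons (.ddet 0 [] (.ndet 3 [⟨1, [(24, 1), (10, 1), (1, 1)]⟩, ⟨1, [(24, 1), (10, 1), (1, 1)]⟩, ⟨1, [(1, 1)]⟩] (.ddet 0 [] (.ndet 3 [⟨1, [(24, 1), (10, 1)]⟩, ⟨2, [(24, 2), (20, 1), (10, 1), (7, 1)]⟩, ⟨1, [(24, 1), (10, 1)]⟩] (.ddet 0 [] (.split [2, -2] (-2000) (.leaf 0 [⟨2, [(25, 2), (21, 1), (11, 1), (8, 1)]⟩, ⟨1, [(25, 1), (21, 1),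 (8, 1)]⟩, ⟨1, [(0, 1)]⟩, ⟨1, [(0, 1)]⟩, ⟨2, [(0, 1)]⟩, ⟨1, [(25, 1), (11, 1)]⟩, ⟨1, [(25, 2), (11, 2), (2, 1)]⟩, ⟨2, [(0, 3)]⟩, ⟨1, [(25, 1), (11, 1)]⟩, ⟨1, [(25, 1), (11, 1), (2, 1)]⟩, ⟨1, [(2, 1)]⟩, ⟨1, [(25, 1), (11, 1), (2, 2)]⟩, ⟨1, [(25, 2), (11, 2), (2, 1)]⟩, ⟨2, [(0, 3)]⟩, ⟨2, [(0, 1)]⟩, ⟨1, [(2, 1)]⟩, ⟨1, []⟩, ⟨1, [(25, 1), (11, 1), (2, 1)]⟩, ⟨2, [(0, 1)]⟩, ⟨1, [(2, 1)]⟩, ⟨1, [(25, 1), (11, 1)]⟩, ⟨1, [(2, 3)]⟩, ⟨2, [(0, 1)]⟩]) (.leaf 1 [⟨2, [(25, 2), (21, 2), (8, 2), (0, 3)]⟩, ⟨1, [(25, 1), (21, 1), (8, 1), (0, 1)]⟩, ⟨1, [(0, 1)]⟩, ⟨2, [(0, 1)]⟩, ⟨2, [(25, 4), (21, 4), (8, 4), (0, 3)]⟩, ⟨1, []⟩, ⟨2, [(25, 2), (21, 2), (8, 2),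 (0, 1)]⟩, ⟨2, [(0, 1)]⟩, ⟨2, [(0, 1)]⟩, ⟨2, [(25, 4), (21, 4), (8, 4), (0, 3)]⟩, ⟨2, [(25, 2), (21, 2), (8, 2), (0, 1)]⟩, ⟨1, [(25, 2), (21, 2), (8, 2), (0, 2)]⟩, ⟨2, [(0, 1)]⟩, ⟨1, [(25, 1), (21, 1), (8, 1), (0, 1)]⟩, ⟨2, [(25, 4), (21, 4), (8, 4), (0, 3)]⟩, ⟨1, []⟩, ⟨2, [(25, 2), (21, 2), (8, 2), (0, 1)]⟩, ⟨2, [(25, 2), (21, 2), (8, 2), (0, 3)]⟩, ⟨2, [(0, 1)]⟩, ⟨1, [(25, 1), (21, 1), (8, 1), (0, 2)]⟩, ⟨2, [(25, 4), (21, 4), (8, 4), (0, 5)]⟩, ⟨2, [(0, 1)]⟩]))))))) (.cons (.prune [(24, 2), (12, 1), (10, 1), (1, 1)]) .nil))))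
def s29_4_t2 : Tree := .nbr (.cons (.prune [(20, 1), (15, 1), (1, 2)]) (.cons (.ddet 0 [] (.nbr (.cons (.prune [(23, 1), (18, 1), (0, 2)]) (.cons (.prune [(2, 1)]) (.cons (.ddet 0 [] (.leaf 0 [⟨1, []⟩, ⟨1, [(27, 1), (13, 1), (0, 1)]⟩, ⟨1, [(27, 1), (13, 1), (0, 1)]⟩, ⟨1, []⟩, ⟨1, []⟩, ⟨1, []⟩, ⟨1, []⟩, ⟨1, [(27, 1), (13, 1), (0, 1)]⟩, ⟨1, []⟩, ⟨1, []⟩, ⟨1, []⟩, ⟨1, []⟩, ⟨1, [(27, 1), (13, 1), (0, 1)]⟩, ⟨1, [(27, 2), (13, 2), (0, 2)]⟩, ⟨1, [(27, 1), (13, 1), (0, 1)]⟩, ⟨1, []⟩, ⟨1, [(27, 1), (13, 1), (0, 1)]⟩, ⟨1, [(27, 1), (13, 1), (0, 1)]⟩, ⟨1, [(27, 2), (13, 2), (0, 2)]⟩, ⟨1, [(27, 1), (13, 1), (0, 1)]⟩, ⟨1, [(27, 2), (13, 2), (0, 2)]⟩,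 ⟨1, []⟩, ⟨1, [(0, 1)]⟩])) (.cons (.ddet 0 [] (.leaf 0 [⟨1, [(0, 1)]⟩, ⟨1, [(27, 1), (13, 1)]⟩, ⟨1, [(27, 1), (13, 1)]⟩, ⟨1, [(0, 1)]⟩, ⟨1, [(0, 1)]⟩, ⟨1, [(0, 1)]⟩, ⟨1, [(0, 1)]⟩, ⟨1, [(27, 1), (13, 1)]⟩, ⟨1, []⟩, ⟨1, []⟩, ⟨1, []⟩, ⟨1, []⟩, ⟨1, [(27, 1), (13, 1)]⟩, ⟨1, [(27, 2), (13, 2), (4, 1)]⟩, ⟨1, [(27, 1), (13, 1), (4, 1)]⟩, ⟨1, [(4, 1)]⟩, ⟨1, [(27, 1), (13, 1), (4, 1)]⟩, ⟨1, [(27, 1), (13, 1), (4, 1)]⟩, ⟨1, [(27, 2), (13, 2), (4, 1)]⟩, ⟨1, [(27, 1), (13, 1), (4, 1)]⟩, ⟨1, [(27, 2), (13, 2), (4, 1)]⟩, ⟨1, [(4, 1)]⟩, ⟨1, []⟩])) .nil)))))) (.cons (.ddet 0 [] (.ndet 3 [⟨1, [(24, 1), (10, 1)]⟩, ⟨1, [(24, 1), (10, 1)]⟩, ⟨1, [(1, 1)]⟩]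 (.ddet 0 [] (.leaf 0 [⟨1, [(1, 1)]⟩, ⟨1, [(24, 1), (10, 1)]⟩, ⟨1, [(4, 1)]⟩, ⟨1, []⟩, ⟨1, []⟩, ⟨1, [(1, 1)]⟩, ⟨1, [(1, 2)]⟩, ⟨1, [(4, 1)]⟩, ⟨1, [(1, 1)]⟩, ⟨1, [(1, 1)]⟩, ⟨1, []⟩, ⟨1, [(1, 1)]⟩, ⟨1, [(24, 1), (10, 1), (1, 1)]⟩, ⟨1, [(4, 2)]⟩, ⟨1, [(4, 1)]⟩, ⟨1, []⟩, ⟨1, [(4, 1)]⟩, ⟨1, [(24, 1), (10, 1)]⟩, ⟨1, [(4, 2)]⟩, ⟨1, [(4, 1)]⟩, ⟨1, [(24, 1), (10, 1), (4, 1)]⟩, ⟨1, []⟩, ⟨1, []⟩])))) (.cons (.prune [(24, 2), (10, 1), (4, 1), (0, 2)]) .nil))))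
def s29_4_n0 : Node := ⟨[⟨[1, 0, 0, -1], -200⟩, ⟨[1, 0, -1], -200⟩, ⟨[1, -1], -200⟩, ⟨[1, -1, 0, -1], 5767⟩, ⟨[1, -1, 1, -1], 735⟩, ⟨[1, 0, 1, -1], -4320⟩, ⟨[1, 1, 1, -1], -10340⟩, ⟨[1, -1, -1], 4789⟩, ⟨[0, 1, -1], -3040⟩, ⟨[0, 1], -6320⟩, ⟨[0, 0, 1], -6320⟩, ⟨[0, 1, 1], -12340⟩, ⟨[1, 1, 1], 237000⟩, ⟨[1, -1, -1, 1], -1221⟩, ⟨[0, 0, -1, 1], -1278⟩, ⟨[-1, 1, -1, 1], -3340⟩, ⟨[0, 0, 0, 1], -6320⟩, ⟨[0, 1, 0, 1], 239700⟩, ⟨[1, -1, 1, 1], -11285⟩, ⟨[0, 0, 1, 1], -12340⟩, ⟨[1, 0, 1, 1], 237000⟩, ⟨[-1, 1, 1, 1], -15380⟩], [1], 0, none, (.nbr (.cons (.prune [(7, 1), (2, 1), (0, 1)]) (.cons (.ddet 0 [] s29_4_t1) (.cons (.prune [(17, 3), (9, 4),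 (4, 1), (1, 1), (0, 5)]) (.cons (.ddet 0 [] (.ndet 1 [⟨1, [(21, 1), (7, 1)]⟩, ⟨2, [(21, 2), (7, 1), (1, 1)]⟩, ⟨1, [(21, 2), (9, 1), (7, 1)]⟩] (.ddet 0 [] s29_4_t2))) .nil)))))⟩
def s29_4_t3 : Tree := .ddet 0 [] (.ndet 3 [⟨1, [(21, 1), (9, 1)]⟩, ⟨1, [(21, 1), (9, 1)]⟩, ⟨1, [(19, 1), (14, 1)]⟩] (.ddet 0 [] (.nbr (.cons (.prune [(26, 1), (22, 1), (12, 2), (2, 3), (0, 2)]) (.cons (.ddet 0 [] (.leaf 1 [⟨1, [(24, 1), (12, 1)]⟩, ⟨1, [(19, 1)]⟩, ⟨1, [(24, 1), (12, 1)]⟩, ⟨1, [(19, 1)]⟩, ⟨1, [(19, 1)]⟩, ⟨1, []⟩, ⟨1, []⟩, ⟨2, [(24, 1), (12, 1), (0, 1)]⟩, ⟨1, [(19, 1)]⟩, ⟨1, [(19, 1)]⟩, ⟨1, []⟩, ⟨1, [(24, 1), (12, 1)]⟩, ⟨1, [(19, 1)]⟩, ⟨1, [(19,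 1)]⟩, ⟨1, [(19, 1)]⟩, ⟨1, []⟩, ⟨1, []⟩, ⟨1, [(24, 1), (12, 1)]⟩, ⟨2, [(24, 1), (12, 1), (0, 1)]⟩, ⟨2, [(24, 3), (12, 3), (0, 1)]⟩, ⟨2, [(24, 3), (12, 3), (0, 1)]⟩, ⟨1, []⟩])) (.cons (.prune [(2, 1)]) (.cons (.ddet 0 [] (.leaf 1 [⟨1, [(24, 1), (12, 1)]⟩, ⟨2, [(24, 1), (12, 1), (1, 1)]⟩, ⟨1, [(22, 2), (17, 2)]⟩, ⟨1, [(22, 1), (17, 1)]⟩, ⟨2, [(24, 1), (12, 1), (1, 3)]⟩, ⟨1, []⟩, ⟨1, [(1, 1)]⟩, ⟨1, [(22, 1), (17, 1)]⟩, ⟨1, [(22, 1), (17, 1)]⟩, ⟨2, [(24, 1), (12, 1), (1, 3)]⟩, ⟨1, [(1, 1)]⟩, ⟨1, [(24, 1), (12, 1), (1, 1)]⟩, ⟨1, [(22, 1), (17, 1)]⟩, ⟨2, [(24, 1), (12, 1), (1, 1)]⟩, ⟨2, [(24, 1), (12, 1), (1, 3)]⟩, ⟨1, []⟩, ⟨1, [(1, 1)]⟩, ⟨1,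 [(24, 1), (12, 1)]⟩, ⟨1, [(22, 1), (17, 1)]⟩, ⟨1, [(26, 1), (10, 1)]⟩, ⟨2, [(24, 3), (12, 3), (1, 1)]⟩, ⟨1, []⟩])) .nil)))))))
def s29_4_t4 : Tree := .nbr (.cons (.prune [(23, 1), (6, 1), (1, 2)]) (.cons (.prune [(19, 1), (14, 1), (1, 1)]) (.cons s29_4_t3 (.cons (.ddet 0 [] (.ndet 3 [⟨1, [(21, 1), (9, 1)]⟩, ⟨1, [(21, 1), (9, 1)]⟩, ⟨1, [(23, 1), (9, 1), (0, 1)]⟩] (.ddet 0 [] (.ndet 1 [⟨1, [(23, 1), (9, 1), (0, 2)]⟩, ⟨1, [(23, 1), (9, 1), (0, 2)]⟩, ⟨1, [(23, 1), (18, 1), (9, 1), (0, 3)]⟩] (.ddet 0 [] (.leaf 1 [⟨1, [(21, 1), (9, 1)]⟩, ⟨1, [(16, 1), (4, 1)]⟩, ⟨1, [(21, 1), (9, 1)]⟩, ⟨1, [(16, 1), (4, 1)]⟩, ⟨1, [(16, 1), (4, 1)]⟩, ⟨1, []⟩,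 ⟨1, []⟩, ⟨1, [(23, 1), (9, 1), (0, 2)]⟩, ⟨1, [(16, 1), (4, 1)]⟩, ⟨1, [(16, 1), (4, 1)]⟩, ⟨1, []⟩, ⟨1, [(21, 1), (9, 1)]⟩, ⟨1, [(16, 1), (4, 1)]⟩, ⟨1, [(16, 1), (4, 1)]⟩, ⟨1, [(16, 1), (4, 1)]⟩, ⟨1, []⟩, ⟨1, []⟩, ⟨1, [(21, 1), (9, 1)]⟩, ⟨1, [(23, 1), (9, 1), (0, 2)]⟩, ⟨1, [(23, 1), (21, 1), (9, 2), (0, 2)]⟩, ⟨1, [(23, 1), (21, 1), (9, 2), (0, 2)]⟩, ⟨1, []⟩])))))) .nil))))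
def s29_4_t5 : Tree := .ndet 3 [⟨2, [(20, 1), (12, 1), (6, 1), (1, 1)]⟩, ⟨3, [(20, 2), (12, 2), (10, 1), (6, 1)]⟩, ⟨1, [(20, 1), (6, 1), (1, 1)]⟩] (.ddet 0 [] (.ndet 1 [⟨1, [(20, 1), (6, 1), (1, 2)]⟩, ⟨1, [(20, 1), (6, 1), (1, 1)]⟩, ⟨1, [(20, 1), (15, 1), (6, 1), (1, 3)]⟩] (.ddet 0 [] (.split [1, 2, -2] (4000) (.leaf 1 [⟨5, [(21, 4), (13, 1), (7, 4), (0, 3)]⟩, ⟨1, [(0, 1)]⟩, ⟨5, [(21, 3), (13, 2), (7, 3), (0, 1)]⟩, ⟨3, [(16, 1), (0, 4)]⟩, ⟨3, [(16, 1), (0, 4)]⟩, ⟨3, [(16, 1), (0, 1)]⟩, ⟨3, [(16, 1), (0, 1)]⟩, ⟨1, [(21, 1), (7, 1), (2, 1)]⟩, ⟨1, [(0, 1)]⟩, ⟨1, [(0, 1)]⟩, ⟨1, []⟩, ⟨5, [(21, 3), (13, 2), (7, 3), (0, 1)]⟩, ⟨2, [(14, 1), (0,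 1)]⟩, ⟨2, [(14, 1), (0, 1)]⟩, ⟨2, [(14, 1), (0, 1)]⟩, ⟨1, [(2, 1)]⟩, ⟨1, [(2, 1)]⟩, ⟨2, [(21, 1), (13, 1), (7, 1), (2, 1)]⟩, ⟨1, [(21, 1), (7, 1), (2, 3)]⟩, ⟨2, [(21, 3), (13, 1), (7, 3), (2, 5)]⟩, ⟨2, [(21, 3), (13, 1), (7, 3), (2, 5)]⟩, ⟨3, [(16, 1), (0, 1)]⟩]) (.leaf 2 [⟨5, [(21, 4), (13, 1), (7, 4), (0, 2)]⟩, ⟨1, [(0, 1)]⟩, ⟨5, [(21, 3), (13, 2), (7, 3), (0, 4)]⟩, ⟨3, [(16, 1), (0, 2)]⟩, ⟨5, [(21, 4), (13, 1), (7, 4), (0, 2)]⟩, ⟨5, [(21, 7), (13, 3), (7, 7), (0, 1)]⟩, ⟨5, [(21, 7), (13, 3), (7, 7), (0, 1)]⟩, ⟨5, [(21, 7), (13, 3), (7, 7), (0, 1)]⟩, ⟨1, []⟩, ⟨1, []⟩, ⟨3, [(21, 2), (13, 2), (11, 1), (7, 1)]⟩, ⟨3, [(21, 2), (13, 2),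 (11, 1), (7, 1)]⟩, ⟨3, [(21, 2), (13, 2), (11, 1), (7, 1)]⟩, ⟨5, [(21, 3), (13, 2), (7, 3), (0, 4)]⟩, ⟨5, [(21, 6), (13, 4), (7, 6), (0, 3)]⟩, ⟨2, [(14, 1), (0, 1)]⟩, ⟨2, [(14, 1), (0, 1)]⟩, ⟨2, [(14, 1), (0, 3)]⟩, ⟨2, [(14, 1), (0, 3)]⟩, ⟨5, [(21, 2), (13, 3), (7, 2), (0, 6)]⟩, ⟨1, [(21, 1), (13, 1), (7, 1), (0, 1)]⟩, ⟨3, [(16, 1), (0, 2)]⟩])))))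
def s29_4_n1 : Node := ⟨[⟨[0, 1, 0, -1], -200⟩, ⟨[0, 1, -1], -200⟩, ⟨[-1, 1], -200⟩, ⟨[-1, 1, -1, -1], 10081⟩, ⟨[1, 1, -1, -1], -1903⟩, ⟨[0, 0, 0, -1], 4032⟩, ⟨[1, 0, 0, -1], -1960⟩, ⟨[0, 0, 1, -1], 917⟩, ⟨[-1, 1, -1], 4960⟩, ⟨[1, 1, -1], -6235⟩, ⟨[1], -6320⟩, ⟨[1, 1], 239700⟩, ⟨[-1, 1, -1, 1], -1032⟩, ⟨[0, 1, -1, 1], -5275⟩, ⟨[1, 1, -1, 1], -11267⟩, ⟨[0, 0, 0, 1], -6320⟩, ⟨[1, 0, 0, 1], -12340⟩, ⟨[0, 1, 0, 1], 239700⟩, ⟨[0, 0, 1, 1], -11067⟩, ⟨[0, 1, 1, 1], 237000⟩, ⟨[1, 1, 1, 1], 239700⟩], [0, 1], 0, none, (.nbr (.cons (.prune [(20, 1), (3, 1), (2, 2)]) (.cons (.ddet 0 [] s29_4_t4) (.cons (.ddet 0 [] (.ndet 3 [⟨2, [(20, 1), (12, 1),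 (6, 1), (1, 3)]⟩, ⟨1, [(20, 1), (6, 1), (1, 2)]⟩, ⟨1, [(1, 1)]⟩] (.ddet 0 [] s29_4_t5))) (.cons (.prune [(20, 1), (16, 1), (12, 1), (1, 2)]) .nil)))))⟩
def s29_4_t6 : Tree := .nbr (.cons (.prune [(12, 1), (2, 1), (0, 2)]) (.cons (.ddet 0 [] (.nbr (.cons (.prune [(26, 1), (15, 1), (14, 1), (2, 2)]) (.cons (.ddet 0 [] (.leaf 2 [⟨1, [(1, 1)]⟩, ⟨1, [(21, 2), (16, 1)]⟩, ⟨1, [(21, 2), (16, 1)]⟩, ⟨1, [(1, 1)]⟩, ⟨1, [(1, 1)]⟩, ⟨1, [(1, 1)]⟩, ⟨1, [(1, 1)]⟩, ⟨1, [(1, 1)]⟩, ⟨1, []⟩, ⟨1, []⟩, ⟨1, []⟩, ⟨1, []⟩, ⟨1, []⟩, ⟨1, [(21, 2), (16, 1)]⟩, ⟨1, [(21, 2), (16, 1)]⟩, ⟨2, [(21, 1), (16, 1), (3, 1)]⟩, ⟨2, [(21, 1), (16, 1), (3, 1)]⟩, ⟨2, [(21, 5),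 (16, 3), (3, 1)]⟩, ⟨2, [(21, 5), (16, 3), (3, 1)]⟩, ⟨2, [(21, 5), (16, 3), (3, 1)]⟩, ⟨2, [(21, 5), (16, 3), (3, 1)]⟩, ⟨1, [(21, 1)]⟩])) (.cons (.ddet 0 [] (.leaf 2 [⟨1, [(19, 1)]⟩, ⟨1, [(21, 2), (15, 1), (1, 1)]⟩, ⟨1, [(21, 2), (15, 1)]⟩, ⟨1, [(19, 2)]⟩, ⟨1, []⟩, ⟨1, [(19, 2)]⟩, ⟨1, [(19, 1)]⟩, ⟨1, []⟩, ⟨1, [(19, 1)]⟩, ⟨1, [(1, 1)]⟩, ⟨1, [(19, 1)]⟩, ⟨1, []⟩, ⟨1, [(1, 1)]⟩, ⟨1, [(21, 2), (15, 1), (1, 2)]⟩, ⟨1, [(21, 2), (15, 1), (1, 1)]⟩, ⟨1, [(21, 2), (15, 1), (1, 1)]⟩, ⟨1, [(21, 2), (15, 1), (1, 3)]⟩, ⟨1, [(21, 4), (15, 2), (1, 2)]⟩, ⟨1, [(21, 4), (15, 2), (1, 3)]⟩, ⟨1, [(21, 4), (15, 2), (1, 4)]⟩, ⟨1, [(21, 4), (15, 2), (1, 4)]⟩, ⟨1,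 [(21, 1)]⟩])) (.cons (.prune [(21, 6), (15, 2), (3, 1), (1, 3)]) .nil)))))) (.cons (.prune [(18, 3), (12, 1), (1, 1), (0, 2)]) (.cons (.ddet 0 [] (.ndet 1 [⟨1, [(18, 2), (13, 1)]⟩, ⟨2, [(18, 3), (13, 1), (1, 1)]⟩, ⟨1, [(18, 3), (13, 1)]⟩] (.ddet 0 [] (.leaf 2 [⟨2, [(18, 3), (13, 1), (1, 1)]⟩, ⟨2, [(25, 2), (23, 1), (9, 1)]⟩, ⟨1, [(18, 2), (13, 1)]⟩, ⟨2, [(23, 1), (9, 1)]⟩, ⟨2, [(18, 3), (13, 1), (1, 1)]⟩, ⟨2, [(18, 3), (13, 1), (1, 3)]⟩, ⟨2, [(18, 3), (13, 1), (1, 3)]⟩, ⟨2, [(18, 3), (13, 1), (1, 3)]⟩, ⟨1, []⟩, ⟨1, []⟩, ⟨1, [(1, 1)]⟩, ⟨1, [(1, 1)]⟩, ⟨1, [(1, 1)]⟩, ⟨1, [(18, 2), (13, 1)]⟩, ⟨1, [(18, 2), (13, 1), (1, 1)]⟩, ⟨1, [(25, 1)]⟩,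 ⟨1, [(25, 1)]⟩, ⟨2, [(25, 4), (23, 1), (9, 1)]⟩, ⟨2, [(25, 4), (23, 1), (9, 1)]⟩, ⟨1, [(23, 1), (18, 1), (7, 1)]⟩, ⟨2, [(18, 5), (13, 3), (1, 1)]⟩, ⟨1, [(18, 1)]⟩])))) .nil))))
def s29_4_t7 : Tree := .nbr (.cons (.prune [(23, 2), (6, 1), (3, 2), (2, 1), (1, 1)]) (.cons (.ddet 0 [] (.leaf 2 [⟨1, [(1, 1)]⟩, ⟨1, [(18, 2), (13, 1)]⟩, ⟨1, [(18, 2), (13, 1)]⟩, ⟨1, [(1, 1)]⟩, ⟨1, [(1, 1)]⟩, ⟨1, [(1, 1)]⟩, ⟨1, [(1, 1)]⟩, ⟨1, [(1, 1)]⟩, ⟨1, []⟩, ⟨1, []⟩, ⟨1, []⟩, ⟨1, []⟩, ⟨1, []⟩, ⟨1, [(18, 2), (13, 1)]⟩, ⟨1, [(18, 2), (13, 1)]⟩, ⟨1, [(23, 1), (13, 1), (3, 2)]⟩, ⟨1, [(23, 1), (13, 1), (3, 2)]⟩, ⟨1, [(23, 1), (18, 2), (13, 2), (3, 2)]⟩, ⟨1, [(23,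 1), (18, 2), (13, 2), (3, 2)]⟩, ⟨1, [(23, 1), (18, 2), (13, 2), (3, 2)]⟩, ⟨1, [(23, 1), (18, 2), (13, 2), (3, 2)]⟩, ⟨1, [(18, 1)]⟩])) (.cons (.ddet 0 [] (.split [-1, 1, 1, -1] (0) (.leaf 2 [⟨1, [(0, 1)]⟩, ⟨2, [(24, 1), (19, 2), (13, 2), (2, 1)]⟩, ⟨2, [(24, 1), (19, 2), (13, 2), (0, 1)]⟩, ⟨1, [(0, 2)]⟩, ⟨1, []⟩, ⟨1, [(0, 2)]⟩, ⟨1, [(0, 1)]⟩, ⟨1, []⟩, ⟨1, [(0, 1)]⟩, ⟨1, [(2, 1)]⟩, ⟨1, [(0, 1)]⟩, ⟨1, []⟩, ⟨1, [(2, 1)]⟩, ⟨2, [(24, 1), (19, 2), (13, 2), (2, 3)]⟩, ⟨2, [(24, 1), (19, 2), (13, 2), (2, 1)]⟩, ⟨2, [(24, 1), (19, 2), (13, 2), (2, 1)]⟩, ⟨2, [(24, 1), (19, 2), (13, 2), (2, 5)]⟩, ⟨1, [(24, 1), (19, 2), (13, 2), (2, 1)]⟩, ⟨1, [(24, 1),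 (19, 2), (13, 2), (2, 2)]⟩, ⟨1, [(24, 1), (19, 2), (13, 2), (2, 3)]⟩, ⟨1, [(24, 1), (19, 2), (13, 2), (2, 3)]⟩, ⟨1, [(19, 1)]⟩]) (.leaf 3 [⟨1, [(0, 1)]⟩, ⟨2, [(24, 1), (19, 2), (13, 2), (0, 3)]⟩, ⟨2, [(24, 1), (19, 2), (13, 2), (0, 1)]⟩, ⟨1, []⟩, ⟨1, []⟩, ⟨1, []⟩, ⟨1, []⟩, ⟨1, []⟩, ⟨2, [(24, 1), (19, 2), (13, 2), (0, 3)]⟩, ⟨1, []⟩, ⟨1, []⟩, ⟨1, []⟩, ⟨1, [(24, 1), (19, 2), (13, 2), (0, 2)]⟩, ⟨1, [(19, 1), (0, 1)]⟩]))) (.cons (.prune [(23, 3), (12, 2), (3, 4), (1, 1), (0, 1)]) .nil))))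
def s29_4_t8 : Tree := .nbr (.cons (.prune [(18, 1), (10, 2), (6, 1), (1, 4)]) (.cons (.prune [(22, 1), (1, 1)]) (.cons (.ddet 0 [] (.ndet 3 [⟨1, [(15, 1), (10, 1)]⟩, ⟨1, [(15, 2), (10, 1)]⟩, ⟨1, [(22, 1)]⟩] (.ddet 0 [] s29_4_t6))) (.cons (.ddet 0 [] (.ndet 3 [⟨1, [(15, 1), (10, 1)]⟩, ⟨1, [(15, 2), (10, 1)]⟩, ⟨1, [(20, 1), (10, 1), (0, 1)]⟩] (.ddet 0 [] (.ndet 1 [⟨1, [(20, 1), (10, 1), (0, 2)]⟩, ⟨1, [(20, 1), (15, 1), (10, 1), (0, 2)]⟩, ⟨1, [(20, 2), (14, 1), (10, 1), (0, 3)]⟩] (.ddet 0 [] s29_4_t7))))) .nil))))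
def s29_4_n2 : Node := ⟨[⟨[0, 0, 1, -1], -200⟩, ⟨[0, -1, 1], -200⟩, ⟨[-1, 0, 1], -200⟩, ⟨[-1, -1, 1, -1], 9824⟩, ⟨[1, 0, 1, -1], -4318⟩, ⟨[-1, 1, 1, -1], -2160⟩, ⟨[0, 1, 1, -1], -6235⟩, ⟨[1, 1, 1, -1], -10328⟩, ⟨[-1], 3775⟩, ⟨[1], -6320⟩, ⟨[-1, 1], -2217⟩, ⟨[0, 1], -6320⟩, ⟨[1, 1], -12340⟩, ⟨[1, 0, 1], 239700⟩, ⟨[0, 1, 1], 239700⟩, ⟨[-1, 0, 0, 1], -1087⟩, ⟨[1, 0, 0, 1], -13063⟩, ⟨[-1, -1, 1, 1], 798⟩, ⟨[0, -1, 1, 1], -5190⟩, ⟨[1, 0, 1, 1], 237000⟩, ⟨[1, 1, 1, 1], 239700⟩], [0, 0, 1], 0, none, s29_4_t8⟩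
def s29_4_t9 : Tree := .nbr (.cons (.prune [(12, 1), (7, 2), (6, 1), (2, 2), (0, 2)]) (.cons (.ddet 0 [] (.ndet 1 [⟨1, [(9, 1), (7, 1), (6, 1)]⟩, ⟨1, [(13, 1), (9, 1)]⟩, ⟨1, [(9, 2), (7, 1), (6, 1)]⟩] (.ddet 0 [] (.ndet 2 [⟨1, [(9, 1), (7, 1), (6, 1)]⟩, ⟨1, [(9, 1), (7, 1), (6, 1)]⟩, ⟨1, [(13, 1), (9, 1)]⟩] (.ddet 0 [] (.leaf 0 [⟨1, []⟩, ⟨1, [(9, 1), (7, 1), (6, 1)]⟩, ⟨1, [(9, 1), (7, 1), (6, 1)]⟩, ⟨1, []⟩, ⟨1, []⟩, ⟨1, []⟩, ⟨1, []⟩, ⟨1, [(9, 1), (7, 1), (6, 1)]⟩, ⟨1, []⟩, ⟨1, []⟩, ⟨1, []⟩, ⟨1, []⟩, ⟨1, [(9, 1), (7, 1), (6, 1)]⟩, ⟨1, [(9, 2), (7, 2), (6, 2)]⟩, ⟨1, [(9, 1), (7, 1), (6, 1)]⟩, ⟨1, []⟩, ⟨1, [(9, 1), (7, 1), (6, 1)]⟩, ⟨1,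 [(9, 1), (7, 1), (6, 1)]⟩, ⟨1, [(9, 2), (7, 2), (6, 2)]⟩, ⟨1, [(9, 1), (7, 1), (6, 1)]⟩, ⟨1, [(9, 2), (7, 2), (6, 2)]⟩, ⟨1, []⟩, ⟨1, [(9, 1)]⟩])))))) (.cons (.prune [(12, 3), (7, 2), (6, 3), (1, 2), (0, 2)]) (.cons (.ddet 0 [] (.ndet 1 [⟨1, [(9, 1), (7, 1), (6, 1)]⟩, ⟨2, [(9, 1), (7, 1), (6, 2), (1, 1)]⟩, ⟨1, [(9, 2), (7, 1), (6, 1)]⟩] (.ddet 0 [] (.ndet 2 [⟨1, [(9, 1), (7, 1), (6, 1)]⟩, ⟨1, [(15, 2), (12, 1)]⟩, ⟨2, [(9, 1), (7, 1), (6, 2), (1, 1)]⟩] (.ddet 0 [] (.split [1, 0, -1] (-3000) (.leaf 0 [⟨1, [(0, 1)]⟩, ⟨1, [(10, 1), (8, 1), (7, 1), (0, 2)]⟩, ⟨1, [(10, 1), (8, 1), (7, 1), (0, 1)]⟩, ⟨1, [(0, 1)]⟩, ⟨1, []⟩, ⟨1, []⟩, ⟨1, []⟩, ⟨1,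 [(10, 1), (8, 1), (7, 1), (0, 2)]⟩, ⟨1, [(0, 1)]⟩, ⟨1, []⟩, ⟨1, [(2, 1)]⟩, ⟨1, [(2, 1)]⟩, ⟨1, [(10, 1), (8, 1), (7, 1)]⟩, ⟨1, [(10, 2), (8, 2), (7, 2), (0, 2)]⟩, ⟨1, [(10, 1), (8, 1), (7, 1), (0, 1)]⟩, ⟨1, []⟩, ⟨1, [(10, 1), (8, 1), (7, 1)]⟩, ⟨1, [(10, 1), (8, 1), (7, 1)]⟩, ⟨1, [(10, 2), (8, 2), (7, 2)]⟩, ⟨1, [(10, 1), (8, 1), (7, 1), (2, 1)]⟩, ⟨1, [(10, 2), (8, 2), (7, 2)]⟩, ⟨1, [(2, 2)]⟩, ⟨1, [(10, 1), (0, 1)]⟩]) (.leaf 3 [⟨1, [(16, 2), (13, 1)]⟩, ⟨1, [(10, 1), (8, 1), (7, 1)]⟩, ⟨1, [(0, 1)]⟩, ⟨1, []⟩, ⟨1, []⟩, ⟨1, []⟩, ⟨1, []⟩, ⟨1, []⟩, ⟨1, [(10, 1), (8, 1), (7, 1)]⟩, ⟨1, []⟩, ⟨1, []⟩, ⟨1, []⟩, ⟨1, [(10, 1), (8, 1), (7, 1), (0, 1)]⟩,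 ⟨1, [(10, 1)]⟩]))))))) .nil))))
def s29_4_n3 : Node := ⟨[⟨[0, 0, -1, 1], -200⟩, ⟨[0, -1, 0, 1], -200⟩, ⟨[-1, 0, 0, 1], -200⟩, ⟨[1, -1, 1, -1], 1667⟩, ⟨[1, 0, 1, -1], -4318⟩, ⟨[1, 1, 1, -1], -10323⟩, ⟨[0, -1], 5685⟩, ⟨[0, 1], -6320⟩, ⟨[1, 1, 1], 237000⟩, ⟨[-1, -1, -1, 1], 9691⟩, ⟨[-1, 0, -1, 1], 3687⟩, ⟨[-1, 1, -1, 1], -2333⟩, ⟨[0, 1, 1, 1], 239700⟩], [0, 0, 0, 1], 0, none, (.ndet 3 [⟨1, [(4, 1), (3, 1)]⟩, ⟨1, [(6, 1), (4, 1), (3, 1)]⟩, ⟨1, [(12, 1)]⟩] (.ddet 0 [] s29_4_t9))⟩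
def s29_4 : Sys := ⟨[(0, 3000), (2, -3000), (3, -1000), (4, 2000)], [(2, 3000)], 4, [s29_4_n0, s29_4_n1, s29_4_n2, s29_4_n3], [-6000, 247617, 244617, -6000], (.leaf 1 [⟨1, []⟩, ⟨1, []⟩, ⟨1, []⟩, ⟨1, []⟩, ⟨1, []⟩, ⟨1, []⟩, ⟨1, []⟩, ⟨1, []⟩, ⟨1, []⟩, ⟨1, []⟩, ⟨1, []⟩, ⟨1, []⟩, ⟨1, []⟩, ⟨1, []⟩, ⟨1, []⟩, ⟨1, []⟩, ⟨1, []⟩, ⟨1, []⟩, ⟨1, []⟩, ⟨1, []⟩, ⟨1, []⟩])⟩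

theorem s29_4_ok : s29_4.ok = true := by decide +kernel

def s29_8_n0 : Node := ⟨[⟨[0, 1], 29⟩, ⟨[0, 1, -1], 40⟩, ⟨[0, 1, 0, -1], 5⟩, ⟨[0, 1], 77⟩, ⟨[-1, 1], 149⟩, ⟨[0, 1, -1], 120⟩, ⟨[0, 0, -1], 10⟩, ⟨[-1], 24⟩], [0, 1], 0, none, (.ndet 1 [⟨1, [(4, 1)]⟩, ⟨1, [(2, 1)]⟩, ⟨1, [(5, 1)]⟩] (.ddet 0 [] (.ndet 2 [⟨1, [(4, 1)]⟩, ⟨1, [(3, 1)]⟩, ⟨1, [(2, 1)]⟩] (.ddet 0 [] (.leaf 0 [⟨1, [(2, 1)]⟩, ⟨1, [(3, 1), (1, 1)]⟩, ⟨1, [(1, 1)]⟩, ⟨1, [(2, 1)]⟩, ⟨1, [(2, 1)]⟩, ⟨1, [(3, 1), (1, 1)]⟩, ⟨1, [(0, 1)]⟩, ⟨1, []⟩, ⟨1, [(1, 1)]⟩])))))⟩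
def s29_8 : Sys := ⟨[(0, 0), (2, 80), (3, -16), (4, 48)], [(3, 64)], 4, [s29_8_n0], [-80, 128, -32, 112], (.leaf 0 [⟨1, []⟩, ⟨1, []⟩, ⟨1, []⟩, ⟨1, []⟩, ⟨1, []⟩, ⟨1, []⟩, ⟨1, []⟩, ⟨1, []⟩])⟩

theorem s29_8_ok : s29_8.ok = true := by decide +kernel

def s30_17_t0 : Tree := .ddet 0 [⟨1, [(12, 1)]⟩] (.ndet 2 [⟨1, []⟩, ⟨1, [(3, 1), (0, 1)]⟩, ⟨1, [(0, 1)]⟩] (.ddet 1 [⟨1, [(3, 1)]⟩] (.ndet 1 [⟨1, [(3, 1)]⟩, ⟨1, [(3, 1), (0, 1)]⟩, ⟨1, []⟩] (.ddet 1 [⟨1, [(3, 1), (0, 1)]⟩] (.ndet 2 [⟨1, [(3, 1), (0, 1)]⟩, ⟨1, [(3, 1)]⟩, ⟨1, [(3, 1), (0, 1)]⟩] (.ddet 0 [⟨1, []⟩] (.ndet 3 [⟨1, []⟩, ⟨1, [(3, 1), (0, 1)]⟩, ⟨1, [(3, 1)]⟩] (.ddet 1 [⟨1, [(3, 1), (0,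 1)]⟩] (.leaf 0 [⟨1, [(3, 1), (0, 1)]⟩, ⟨1, [(3, 1), (0, 1)]⟩, ⟨1, [(3, 1)]⟩, ⟨1, [(0, 1)]⟩, ⟨1, [(0, 1)]⟩, ⟨1, [(3, 1), (0, 1)]⟩, ⟨1, [(3, 1), (0, 1)]⟩, ⟨1, []⟩, ⟨1, []⟩, ⟨1, [(0, 1)]⟩, ⟨1, [(3, 1), (0, 1)]⟩, ⟨1, [(3, 1), (0, 1)]⟩, ⟨1, [(3, 1), (0, 1)]⟩, ⟨1, [(0, 1)]⟩, ⟨1, [(3, 1), (0, 1)]⟩, ⟨1, []⟩, ⟨1, [(3, 1), (0, 1)]⟩, ⟨1, [(0, 1)]⟩, ⟨1, [(3, 1)]⟩, ⟨1, [(3, 1)]⟩, ⟨1, [(3, 1), (0, 1)]⟩, ⟨1, [(3, 1), (0, 1)]⟩, ⟨1, [(3, 1), (0, 1)]⟩, ⟨1, [(3, 1), (0, 1)]⟩, ⟨1, [(3, 1)]⟩, ⟨1, [(3, 1), (0, 1)]⟩, ⟨1, []⟩, ⟨1, [(0, 1)]⟩, ⟨1, [(1, 1)]⟩])))))))))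
def s30_17_n0 : Node := ⟨[⟨[-1, 1], 224⟩, ⟨[0, 1, -1], 352⟩, ⟨[0, 1, 0, -1], 64⟩, ⟨[0, 0, 0, 1], 128⟩, ⟨[0, 0, 0, 1], -96⟩, ⟨[-1, 1], 416⟩, ⟨[0, 1, -1], 160⟩, ⟨[0, 0, 1], 0⟩, ⟨[0, 0, 1], -32⟩, ⟨[0, 0, 0, 1], 288⟩, ⟨[-1, 1], 608⟩, ⟨[0, 1], 320⟩, ⟨[0, 1, -1], -64⟩, ⟨[0, 0, -1, 1], 128⟩, ⟨[-1, 1, -1], 256⟩, ⟨[-1], 128⟩, ⟨[0, 1, -1], 128⟩, ⟨[0, 0, -1, 1], -64⟩, ⟨[0, 1, 0, -1], 160⟩, ⟨[0, 1, 0, -1], -32⟩, ⟨[0, 1, -1], 256⟩, ⟨[0, 1, -1], 32⟩, ⟨[0, 1, -1], -32⟩, ⟨[0, 1, -1], 416⟩, ⟨[0, 1, 0, -1], 352⟩, ⟨[0, 1, -1], 224⟩, ⟨[0, 0, -1], -160⟩, ⟨[0, 0, -1, 1], 192⟩], [0, 1], 0, none, (.ndet 1 [⟨1, [(18, 1), (12, 1), (3, 1)]⟩, ⟨1, [(3, 1), (0, 1)]⟩,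 ⟨1, [(3, 1)]⟩] (.ddet 1 [⟨1, [(18, 1)]⟩] (.ndet 2 [⟨1, [(18, 1)]⟩, ⟨1, [(18, 1), (12, 1), (3, 1)]⟩, ⟨1, [(3, 1), (0, 1)]⟩] (.ddet 1 [⟨1, [(20, 1)]⟩] (.ndet 3 [⟨1, [(20, 1)]⟩, ⟨1, [(18, 1)]⟩, ⟨1, [(18, 1), (12, 1), (3, 1)]⟩] (.ddet 1 [⟨1, [(18, 1), (3, 1)]⟩] (.ndet 1 [⟨1, [(3, 1), (0, 1)]⟩, ⟨1, [(0, 1)]⟩, ⟨1, [(12, 1), (3, 1), (0, 1)]⟩] s30_17_t0)))))))⟩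
def s30_17 : Sys := ⟨[(1, -256), (2, 192), (3, 256), (4, -64)], [(0, 128), (4, 192)], 4, [s30_17_n0], [-192, 704, 64, 320], (.leaf 0 [⟨1, []⟩, ⟨1, []⟩, ⟨1, []⟩, ⟨1, []⟩, ⟨1, []⟩, ⟨1, []⟩, ⟨1, []⟩, ⟨1, []⟩, ⟨1, []⟩, ⟨1, []⟩, ⟨1, []⟩, ⟨1, []⟩, ⟨1, []⟩, ⟨1, []⟩, ⟨1, []⟩, ⟨1, []⟩, ⟨1, []⟩, ⟨1, []⟩, ⟨1, []⟩, ⟨1, []⟩, ⟨1, []⟩, ⟨1, []⟩, ⟨1, []⟩, ⟨1, []⟩, ⟨1, []⟩, ⟨1, []⟩, ⟨1, []⟩, ⟨1, []⟩])⟩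

theorem s30_17_ok : s30_17.ok = true := by decide +kernel

def s31_5_n0 : Node := ⟨[⟨[0, 0, 1], 352⟩, ⟨[-1, 0, 1], 352⟩, ⟨[0, -1, 1], -8⟩, ⟨[0, 0, 1, -1], 344⟩, ⟨[0, 1], 336⟩, ⟨[0, 1], 360⟩, ⟨[-1, 0, 1], 344⟩, ⟨[0, -1, 1], 8⟩, ⟨[1], -16⟩, ⟨[-1, 1], 344⟩, ⟨[-2, 0, 1], 352⟩, ⟨[-1, -1, 1], 0⟩, ⟨[0, -1, 1], -24⟩, ⟨[-1, 1], 368⟩, ⟨[-2, 0, 1], 360⟩, ⟨[-1, 0, 1], 328⟩, ⟨[-1], -8⟩], [0, 1], 0, none, (.ndet 3 [⟨1, [(11, 1), (9, 1)]⟩, ⟨1, [(9, 1), (3, 1)]⟩, ⟨1, [(9, 1)]⟩, ⟨1, [(13, 1)]⟩] (.ddet 1 [⟨1, [(11, 1)]⟩] (.ndet 4 [⟨1, [(11, 1), (9, 1)]⟩, ⟨1, [(11, 1)]⟩, ⟨1, [(9, 1), (3, 1)]⟩, ⟨1, [(9, 1)]⟩] (.ddet 1 [⟨1, [(8, 1)]⟩] (.ndet 1 [⟨1, [(9,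 1), (3, 1)]⟩, ⟨1, [(3, 1)]⟩, ⟨1, [(5, 1), (3, 1)]⟩, ⟨1, [(5, 1)]⟩] (.ddet 1 [⟨1, [(9, 1)]⟩] (.ndet 2 [⟨1, [(9, 1), (3, 1)]⟩, ⟨1, [(9, 1)]⟩, ⟨1, [(3, 1)]⟩, ⟨1, [(5, 1), (3, 1)]⟩] (.ddet 1 [⟨1, [(9, 1), (3, 1)]⟩] (.leaf 0 [⟨1, [(9, 1), (3, 1)]⟩, ⟨1, [(9, 1), (3, 1)]⟩, ⟨1, [(9, 1)]⟩, ⟨1, [(3, 1)]⟩, ⟨1, [(3, 1)]⟩, ⟨1, [(3, 1)]⟩, ⟨1, [(9, 1), (3, 1)]⟩, ⟨1, [(9, 1)]⟩, ⟨1, []⟩, ⟨1, [(3, 1)]⟩, ⟨1, [(9, 1), (3, 1)]⟩, ⟨1, [(9, 1)]⟩, ⟨1, [(9, 1)]⟩, ⟨1, [(3, 1)]⟩, ⟨1, [(9, 1), (3, 1)]⟩, ⟨1, [(9, 1), (3, 1)]⟩, ⟨1, []⟩, ⟨1, [(0, 1)]⟩])))))))))⟩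
def s31_5 : Sys := ⟨[(0, 16), (1, 16), (2, 0), (3, 32), (4, 32)], [(0, -32), (2, 0)], 4, [s31_5_n0], [0, 704, 720, 32], (.leaf 0 [⟨1, []⟩, ⟨1, []⟩, ⟨1, []⟩, ⟨1, []⟩, ⟨1, []⟩, ⟨1, []⟩, ⟨1, []⟩, ⟨1, []⟩, ⟨1, []⟩, ⟨1, []⟩, ⟨1, []⟩, ⟨1, []⟩, ⟨1, []⟩, ⟨1, []⟩, ⟨1, []⟩, ⟨1, []⟩, ⟨1, []⟩])⟩

theorem s31_5_ok : s31_5.ok = true := by decide +kernel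

end Pool.Agent.H81.RDE.Data
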