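import Pool.Agent.H81.RDE.System

/-! Data file (generated): certificates. -/

set_option maxRecDepth 100000

namespace Pool.Agent.H81.RDE.Data

def s5_2_n0 : Node := ⟨[⟨[0, -1], 32⟩, ⟨[1], 80⟩], [1], 0, none, (.ndet 0 [⟨1, [(1, 1)]⟩] (.ddet 0 [] (.ndet 1 [⟨1, [(0, 1)]⟩] (.ddet 0 [] (.leaf 0 [⟨1, [(0, 1)]⟩, ⟨1, [(0, 2)]⟩, ⟨1, [(0, 1)]⟩])))))⟩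
def s5_2 : Sys := ⟨[(0, 32), (2, -16)], [(1, 32)], 2, [s5_2_n0], [112, -112, 0, 0], (.leaf 0 [⟨1, []⟩, ⟨1, []⟩])⟩

theorem s5_2_ok : s5_2.ok = true := by decide +kernel

def s8_4_t0 : Tree := .ddet 0 [] (.ndet 0 [] (.ddet 0 [] (.split [-1, 5, -3] (-6000) (.split [-1, 2, -1] (0) (.leaf 0 [⟨1, [(0, 1)]⟩, ⟨5, [(7, 1), (6, 7), (4, 8), (0, 13)]⟩, ⟨5, [(7, 3), (6, 16), (4, 19), (0, 9)]⟩, ⟨5, [(7, 2), (6, 9), (4, 11), (0, 11)]⟩, ⟨1, []⟩, ⟨1, []⟩, ⟨5, [(7, 1), (6, 7), (4, 8), (0, 8)]⟩, ⟨1, [(6, 1), (4, 1), (0, 3)]⟩, ⟨1, [(6, 1), (4, 1), (0, 1)]⟩, ⟨5, [(7, 1), (6, 2), (4, 3), (0, 8)]⟩]) (.leaf 3 [⟨13, [(7, 1), (6, 7),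 (4, 8), (1, 8)]⟩, ⟨13, [(7, 7), (6, 36), (4, 43), (1, 4)]⟩, ⟨1, [(0, 1)]⟩, ⟨1, []⟩, ⟨13, [(7, 4), (6, 15), (4, 19), (1, 6)]⟩, ⟨1, []⟩, ⟨13, [(7, 2), (6, 14), (4, 16), (1, 3)]⟩, ⟨13, [(7, 2), (6, 1), (4, 3), (1, 3)]⟩])) (.split [0, -3, 2] (6000) (.leaf 2 [⟨1, [(0, 1)]⟩, ⟨2, [(7, 1), (6, 5), (4, 6), (0, 1)]⟩, ⟨8, [(7, 1), (6, 7), (4, 8), (0, 13)]⟩, ⟨4, [(7, 1), (6, 3), (4, 4), (0, 5)]⟩, ⟨1, []⟩, ⟨8, [(7, 3), (6, 13), (4, 16), (0, 7)]⟩, ⟨1, []⟩, ⟨8, [(7, 1), (6, 7), (4, 8), (0, 5)]⟩, ⟨8, [(7, 1), (5, 1), (0, 5)]⟩]) (.leaf 3 [⟨1, [(0, 1)]⟩, ⟨2, [(7, 1), (6, 5), (4, 6), (0, 1)]⟩, ⟨13, [(7, 1), (6, 7), (4, 8), (1,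 5)]⟩, ⟨1, []⟩, ⟨4, [(7, 1), (6, 3), (4, 4), (0, 3)]⟩, ⟨1, []⟩, ⟨8, [(7, 1), (6, 7), (4, 8), (0, 3)]⟩, ⟨8, [(7, 1), (5, 1), (0, 3)]⟩])))))
def s8_4_t1 : Tree := .ndet 0 [] (.ddet 0 [] (.ndet 0 [] (.ddet 0 [] (.ndet 0 [] (.ddet 0 [] (.ndet 0 [] (.ddet 0 [] (.ndet 0 [] s8_4_t0))))))))
def s8_4_n0 : Node := ⟨[⟨[1, 0, 0, -1], -200⟩, ⟨[1, 0, -1], -200⟩, ⟨[1, -1], -200⟩, ⟨[1, -1, -1, -1], 239700⟩, ⟨[1, 0, 1, -1], 5680⟩, ⟨[-1, 0, -1, 1], -6320⟩, ⟨[0, 0, -1, 1], 239700⟩, ⟨[1, 1, -1, 1], 239700⟩, ⟨[1, 1, 1, 1], 239700⟩], [1], 0, none, s8_4_t1⟩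
def s8_4_t2 : Tree := .ddet 0 [] (.ndet 0 [] (.ddet 0 [] (.ndet 0 [] (.ddet 0 [] (.ndet 0 [] (.ddet 0 [] (.split [2, 3, -3] (-12000) (.leaf 0 [⟨2, [(5, 1), (3, 2), (1, 3)]⟩, ⟨7, [(4, 9), (3, 14), (1, 23), (0, 1)]⟩, ⟨1, [(0, 1)]⟩, ⟨7, [(4, 6), (3, 7), (1, 13), (0, 3)]⟩, ⟨1, []⟩, ⟨1, []⟩, ⟨7, [(4, 4), (3, 7), (1, 11), (0, 2)]⟩, ⟨2, [(5, 1), (4, 2), (3, 6), (1, 9)]⟩, ⟨7, [(4, 2), (3, 7), (1, 9), (0, 1)]⟩, ⟨7, [(4, 4), (1, 4), (0, 2)]⟩]) (.leaf 1 [⟨7, [(4, 5), (3, 7), (1, 12), (0, 8)]⟩, ⟨7, [(4, 9), (3, 14), (1, 23), (0, 6)]⟩, ⟨1, [(0, 1)]⟩, ⟨7, [(4, 6), (3, 7), (1, 13), (0, 11)]⟩, ⟨7, [(4, 10), (3, 14), (1, 24),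 (0, 9)]⟩, ⟨1, []⟩, ⟨1, []⟩, ⟨7, [(4, 4), (3, 7), (1, 11), (0, 5)]⟩, ⟨7, [(4, 4), (1, 4), (0, 5)]⟩]))))))))
def s8_4_n1 : Node := ⟨[⟨[0, 1, 0, -1], -200⟩, ⟨[0, 1, -1], -200⟩, ⟨[-1, 1], -200⟩, ⟨[-1, 1, -1, -1], 239700⟩, ⟨[0, 1, -1, -1], 239700⟩, ⟨[1, 0, 1, -1], 5680⟩, ⟨[-1, 0, -1, 1], -6320⟩, ⟨[-1, 1, -1, 1], 239700⟩], [0, 1], 0, none, (.ndet 0 [] (.ddet 0 [] (.ndet 0 [] (.ddet 0 [] (.ndet 0 [] s8_4_t2)))))⟩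
def s8_4_t3 : Tree := .ddet 0 [] (.ndet 0 [] (.ddet 0 [] (.ndet 0 [] (.ddet 0 [] (.ndet 0 [] (.ddet 0 [] (.split [-3, 2] (6000) (.leaf 1 [⟨7, [(5, 9), (4, 14), (1, 23), (0, 1)]⟩, ⟨1, [(0, 1)]⟩, ⟨1, [(7, 1), (4, 2), (3, 2), (1, 2)]⟩, ⟨1, [(5, 2), (4, 3), (1, 5)]⟩, ⟨7, [(5, 5), (4, 7), (1, 12), (0, 6)]⟩, ⟨1, []⟩, ⟨1, []⟩, ⟨7, [(5, 4), (4, 7), (1, 11), (0, 2)]⟩, ⟨7, [(5, 4), (1, 4), (0, 2)]⟩]) (.leaf 2 [⟨7, [(5, 9), (4, 14), (1, 23), (0, 6)]⟩, ⟨1, [(0, 1)]⟩, ⟨7, [(5, 13), (4, 21), (1, 34), (0, 11)]⟩, ⟨7, [(5, 10), (4, 14), (1, 24), (0, 9)]⟩, ⟨1, []⟩, ⟨7, [(5, 5), (4, 7), (1, 12), (0, 8)]⟩, ⟨1, []⟩, ⟨7, [(5, 4),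 (4, 7), (1, 11), (0, 5)]⟩, ⟨7, [(5, 4), (1, 4), (0, 5)]⟩]))))))))
def s8_4_n2 : Node := ⟨[⟨[0, 0, 1, -1], -200⟩, ⟨[0, -1, 1], -200⟩, ⟨[-1, 0, 1], -200⟩, ⟨[-1, -1, 0, -1], 239700⟩, ⟨[1, 0, 1, -1], 5680⟩, ⟨[-1, -1], 239700⟩, ⟨[-1, 0, -1, 1], -6320⟩, ⟨[-1, 0, 0, 1], 239700⟩], [0, 0, 1], 0, none, (.ndet 0 [] (.ddet 0 [] (.ndet 0 [] (.ddet 0 [] (.ndet 0 [] s8_4_t3)))))⟩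
def s8_4_t4 : Tree := .ddet 0 [] (.ndet 0 [] (.ddet 0 [] (.ndet 0 [] (.ddet 0 [] (.ndet 0 [] (.ddet 0 [] (.ndet 0 [] (.ddet 0 [] (.leaf 2 [⟨1, [(4, 5), (3, 5), (2, 3)]⟩, ⟨1, [(6, 1), (3, 3), (2, 2), (0, 2)]⟩, ⟨1, [(4, 7), (3, 8), (2, 5), (0, 1)]⟩, ⟨1, [(4, 5), (3, 6), (2, 4), (0, 1)]⟩, ⟨1, []⟩, ⟨1, [(4, 2), (3, 4), (2, 3), (0, 2)]⟩, ⟨1, []⟩, ⟨1, [(4, 2), (3, 3), (2, 2), (0, 1)]⟩, ⟨1, [(4, 2), (3, 3), (2, 2)]⟩])))))))))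
def s8_4_n3 : Node := ⟨[⟨[0, 0, -1, 1], -200⟩, ⟨[0, -1, 0, 1], -200⟩, ⟨[-1, 0, 0, 1], -200⟩, ⟨[1, 0, 1, -1], 5680⟩, ⟨[0, -1, -1], 239700⟩, ⟨[-1, 0, -1, 1], -6320⟩, ⟨[0, 0, 0, 1], 239700⟩], [0, 0, 0, 1], 0, none, (.ndet 0 [] (.ddet 0 [] (.ndet 0 [] s8_4_t4)))⟩
def s8_4 : Sys := ⟨[(3, 3000)], [(2, -3000)], 4, [s8_4_n0, s8_4_n1, s8_4_n2, s8_4_n3], [210843, 317756, -278882, -74039], (.leaf 1 [⟨1, []⟩, ⟨1, []⟩, ⟨1, []⟩, ⟨1, []⟩, ⟨1, []⟩, ⟨1, []⟩, ⟨1, []⟩, ⟨1, []⟩])⟩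

theorem s8_4_ok : s8_4.ok = true := by decide +kernel

def s12_6_n0 : Node := ⟨[⟨[0, 1, -1], 56⟩, ⟨[-1, 1], 96⟩, ⟨[-1], 184⟩, ⟨[0, 1], -80⟩, ⟨[0, 1], -72⟩], [0, 1], 0, none, (.ndet 0 [⟨1, [(4, 1)]⟩] (.ddet 1 [⟨1, [(2, 1), (0, 1)]⟩] (.ndet 1 [⟨1, [(2, 1), (0, 1)]⟩] (.ddet 0 [⟨1, [(2, 1)]⟩] (.ndet 0 [⟨1, [(2, 1)]⟩] (.ddet 0 [⟨1, [(0, 1)]⟩] (.leaf 0 [⟨1, [(0, 1)]⟩, ⟨1, [(0, 2)]⟩, ⟨1, [(0, 1)]⟩, ⟨1, [(0, 1)]⟩, ⟨1, [(0, 1)]⟩, ⟨1, []⟩])))))))⟩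
def s12_6 : Sys := ⟨[(2, -64), (3, -48)], [(1, 64), (2, 80)], 3, [s12_6_n0], [-208, 0, -96, 0], (.leaf 0 [⟨1, []⟩, ⟨1, []⟩, ⟨1, []⟩, ⟨1, []⟩, ⟨1, []⟩])⟩

theorem s12_6_ok : s12_6.ok = true := by decide +kernel

def s12_17_t0 : Tree := .ddet 1 [⟨1, [(2, 1), (0, 1)]⟩] (.ndet 0 [⟨1, [(3, 1), (2, 1)]⟩] (.ddet 1 [⟨1, [(0, 1)]⟩] (.ndet 1 [⟨1, [(2, 2), (0, 1)]⟩] (.ddet 1 [⟨1, [(6, 1)]⟩] (.ndet 0 [⟨1, [(2, 2)]⟩] (.ddet 1 [⟨1, [(2, 1), (0, 1)]⟩] (.ndet 0 [⟨1, [(3, 1)]⟩] (.ddet 0 [⟨1, [(2, 1)]⟩] (.leaf 0 [⟨1, [(3, 1), (2, 1), (0, 1)]⟩, ⟨1, [(2, 1)]⟩, ⟨1, [(3, 1), (2, 1), (0, 1)]⟩, ⟨1, [(3, 1), (2, 1)]⟩, ⟨1, [(2, 1)]⟩,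 ⟨1, [(0, 1)]⟩, ⟨1, [(3, 1)]⟩, ⟨1, [(3, 1), (2, 1)]⟩, ⟨1, [(3, 1)]⟩, ⟨1, [(3, 1), (2, 2)]⟩, ⟨1, []⟩, ⟨1, [(2, 2)]⟩, ⟨1, [(3, 1), (2, 1)]⟩, ⟨1, [(3, 1)]⟩, ⟨1, [(2, 1)]⟩, ⟨1, []⟩, ⟨1, [(3, 1)]⟩, ⟨1, [(1, 1)]⟩])))))))))
def s12_17_n0 : Node := ⟨[⟨[0, -1, 1], 112⟩, ⟨[0, 0, 0, 1], 216⟩, ⟨[1, -1], 160⟩, ⟨[0, 0, 1], 256⟩, ⟨[1, 0, -1, 1], 248⟩, ⟨[0, -1], -128⟩, ⟨[-1, 0, 2, -1], -8⟩, ⟨[1], 272⟩, ⟨[0, 0, 1, -1], 8⟩, ⟨[2, 0, -1, 1], 520⟩, ⟨[1, 0, -1], 0⟩, ⟨[2, 0, -2, 2], 528⟩, ⟨[1], 240⟩, ⟨[-1, 0, 2, -1], 8⟩, ⟨[1, 0, -1, 1], 296⟩, ⟨[-1, 0, 1], -80⟩, ⟨[0, 0, 1, -1], 40⟩], [1], 0, none, (.ndet 1 [⟨1, [(11, 1), (3, 1), (2,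 1)]⟩] (.ddet 1 [⟨1, [(15, 1)]⟩] (.ndet 0 [⟨1, [(11, 1), (2, 1), (0, 1)]⟩] (.ddet 1 [⟨1, [(3, 1), (2, 1)]⟩] (.ndet 1 [⟨1, [(2, 1)]⟩] (.ddet 0 [⟨1, [(11, 1)]⟩] (.ndet 1 [⟨1, [(3, 1)]⟩] s12_17_t0)))))))⟩
def s12_17 : Sys := ⟨[(2, 16), (3, 48)], [(0, -16), (4, -160)], 4, [s12_17_n0], [400, 112, 368, 288], (.leaf 0 [⟨1, []⟩, ⟨1, []⟩, ⟨1, []⟩, ⟨1, []⟩, ⟨1, []⟩, ⟨1, []⟩, ⟨1, []⟩, ⟨1, []⟩, ⟨1, []⟩, ⟨1, []⟩, ⟨1, []⟩, ⟨1, []⟩, ⟨1, []⟩, ⟨1, []⟩, ⟨1, []⟩, ⟨1, []⟩, ⟨1, []⟩])⟩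

theorem s12_17_ok : s12_17.ok = true := by decide +kernel

def s12_18_t0 : Tree := .ddet 0 [⟨4, [(5, 2), (1, 1)]⟩] (.ndet 0 [⟨1, [(5, 1)]⟩] (.ddet 1 [⟨2, [(5, 1), (0, 1)]⟩] (.ndet 1 [⟨2, [(5, 1), (0, 3)]⟩] (.ddet 0 [⟨2, [(5, 1), (0, 1)]⟩] (.ndet 1 [⟨1, [(1, 1)]⟩] (.ddet 0 [⟨2, [(1, 1)]⟩] (.ndet 0 [⟨4, [(5, 2), (1, 3)]⟩] (.ddet 1 [⟨4, [(5, 2), (1, 1)]⟩] (.leaf 1 [⟨1, []⟩, ⟨1, []⟩, ⟨1, []⟩, ⟨1, []⟩, ⟨2, [(5, 1), (0, 3)]⟩, ⟨1, [(1, 1)]⟩, ⟨1, [(5, 1)]⟩, ⟨1, []⟩])))))))))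
def s12_18_t1 : Tree := .ddet 0 [⟨3, [(4, 1), (0, 2)]⟩] (.ndet 0 [⟨1, [(4, 1), (0, 1)]⟩] (.ddet 1 [⟨3, [(4, 2), (0, 4)]⟩] (.ndet 1 [⟨1, [(4, 1), (0, 3)]⟩] (.ddet 0 [⟨3, [(4, 2), (0, 4)]⟩] (.ndet 0 [⟨3, [(4, 2), (0, 10)]⟩] (.ddet 1 [⟨3, [(4, 1), (0, 5)]⟩] (.ndet 0 [⟨1, [(5, 2)]⟩] (.ddet 1 [⟨1, [(5, 2)]⟩] (.leaf 0 [⟨1, []⟩, ⟨1, []⟩, ⟨1, []⟩, ⟨1, []⟩, ⟨3, [(4, 2), (0, 10)]⟩, ⟨1, [(5, 2)]⟩, ⟨1, [(4, 1), (0, 1)]⟩, ⟨1, [(0, 1)]⟩])))))))))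
def s12_18_t2 : Tree := .nbr (.cons (.ddet 1 [⟨1, [(0, 1)]⟩] (.split [2, 0, -2] (-63024) (.leaf 0 [⟨1, []⟩, ⟨1, []⟩, ⟨1, []⟩, ⟨1, []⟩, ⟨1, [(0, 1)]⟩, ⟨1, [(1, 1)]⟩, ⟨1, [(4, 1)]⟩, ⟨1, []⟩]) (.split [-1, 0, 1] (16388) (.leaf 1 [⟨2, [(4, 1)]⟩, ⟨1, [(0, 1)]⟩, ⟨1, []⟩, ⟨1, []⟩, ⟨4, [(5, 2), (4, 3)]⟩, ⟨1, [(0, 2)]⟩, ⟨1, [(5, 1)]⟩, ⟨1, []⟩]) (.ndet 1 [⟨2, [(5, 2), (1, 1)]⟩] s12_18_t0)))) (.cons (.ddet 1 [⟨1, [(4, 1)]⟩] (.split [-1, 0, 2] (388) (.leaf 0 [⟨1, []⟩, ⟨1, []⟩, ⟨1, [(0, 1)]⟩, ⟨1, [(1, 1)]⟩, ⟨3, [(4, 2), (1, 10)]⟩, ⟨1, [(0, 2)]⟩, ⟨1, [(4, 1), (1, 1)]⟩, ⟨1, [(1, 1)]⟩]) (.ndet 1 [⟨3, [(5, 2), (4, 2)]⟩] s12_18_t1)))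 .nil))
def s12_18_t3 : Tree := .nbr (.cons (.dbr (.cons (.ndet 0 [⟨2, [(2, 1), (0, 3)]⟩] (.ddet 1 [⟨2, [(2, 1), (0, 5)]⟩] (.leaf 1 [⟨1, [(1, 1)]⟩, ⟨1, [(0, 2)]⟩, ⟨1, []⟩, ⟨1, []⟩, ⟨4, [(2, 2), (1, 3)]⟩, ⟨1, [(0, 2)]⟩, ⟨1, [(2, 1)]⟩, ⟨1, []⟩]))) (.cons s12_18_t2 .nil))) (.cons (.dbr (.cons (.ndet 0 [⟨4, [(2, 2), (1, 3)]⟩] (.ddet 1 [⟨4, [(2, 2), (1, 1)]⟩] (.leaf 1 [⟨1, []⟩, ⟨1, []⟩, ⟨1, []⟩, ⟨1, []⟩, ⟨4, [(4, 3), (2, 2)]⟩, ⟨1, [(1, 1)]⟩, ⟨1, [(2, 1)]⟩, ⟨1, []⟩]))) (.cons (.ndet 0 [⟨4, [(2, 2), (1, 3)]⟩] (.ddet 1 [⟨2, [(2, 1), (0, 1)]⟩] (.leaf 1 [⟨2, [(1, 1)]⟩, ⟨1, [(0, 1)]⟩, ⟨1, []⟩, ⟨1, []⟩, ⟨2, [(2, 1), (0,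 3)]⟩, ⟨1, [(1, 1)]⟩, ⟨1, [(2, 1)]⟩, ⟨1, []⟩]))) .nil))) .nil))
def s12_18_n0 : Node := ⟨[⟨[0, 1, 1], 15600⟩, ⟨[0, -1, -1], -16400⟩, ⟨[-1, -1, 0, 1], -400⟩, ⟨[1, 1, 0, -1], -400⟩, ⟨[2, 0, -2], 31000⟩, ⟨[-1, 0, 2], -1000⟩, ⟨[1, 0, 1], 960000⟩], [1, 0, 1], 0, none, (.ndet 1 [⟨3, [(5, 3), (1, 2), (0, 2)]⟩] (.ddet 0 [⟨3, [(5, 3), (3, 3), (1, 1), (0, 1)]⟩] (.ndet 0 [⟨1, [(5, 1), (0, 1)]⟩] (.ddet 1 [⟨4, [(2, 1), (0, 2)]⟩] (.ndet 1 [⟨4, [(2, 3), (0, 2)]⟩] (.ddet 0 [⟨4, [(5, 4), (2, 1), (0, 2)]⟩] s12_18_t3))))))⟩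
def s12_18_t4 : Tree := .ddet 0 [⟨4, [(5, 1), (4, 2)]⟩] (.ndet 0 [⟨1, [(4, 1)]⟩] (.ddet 1 [⟨2, [(4, 1), (0, 1)]⟩] (.ndet 1 [⟨2, [(4, 1), (0, 3)]⟩] (.ddet 0 [⟨2, [(4, 1), (0, 1)]⟩] (.ndet 1 [⟨1, [(5, 1)]⟩] (.ddet 0 [⟨2, [(5, 1)]⟩] (.ndet 0 [⟨4, [(5, 3), (4, 2)]⟩] (.ddet 1 [⟨4, [(5, 1), (4, 2)]⟩] (.leaf 1 [⟨1, []⟩, ⟨1, []⟩, ⟨1, []⟩, ⟨1, []⟩, ⟨2, [(4, 1), (0, 3)]⟩, ⟨1, [(5, 1)]⟩, ⟨1, [(4, 1)]⟩, ⟨1, []⟩])))))))))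
def s12_18_t5 : Tree := .dbr (.cons (.ndet 0 [⟨2, [(3, 1), (0, 3)]⟩] (.ddet 1 [⟨2, [(3, 1), (0, 5)]⟩] (.leaf 1 [⟨1, [(1, 1)]⟩, ⟨1, [(0, 2)]⟩, ⟨1, []⟩, ⟨1, []⟩, ⟨4, [(3, 2), (1, 3)]⟩, ⟨1, [(0, 2)]⟩, ⟨1, [(3, 1)]⟩, ⟨1, []⟩]))) (.cons (.ndet 0 [⟨4, [(4, 3), (3, 2)]⟩] (.ddet 1 [⟨4, [(4, 3), (3, 2)]⟩] (.split [-1, 0, 1] (16388) (.leaf 1 [⟨2, [(2, 1)]⟩, ⟨1, [(0, 1)]⟩, ⟨1, []⟩, ⟨1, []⟩, ⟨4, [(4, 2), (2, 3)]⟩, ⟨1, [(0, 2)]⟩, ⟨1, [(4, 1)]⟩, ⟨1, []⟩]) (.ndet 1 [⟨2, [(5, 1), (4, 2)]⟩] s12_18_t4)))) .nil))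
def s12_18_t6 : Tree := .ddet 0 [⟨3, [(6, 1), (0, 1)]⟩] (.ndet 0 [⟨1, [(6, 1)]⟩] (.ddet 1 [⟨3, [(6, 2), (0, 2)]⟩] (.ndet 1 [⟨1, [(6, 1), (0, 2)]⟩] (.ddet 0 [⟨3, [(6, 2), (0, 2)]⟩] (.ndet 0 [⟨3, [(6, 2), (0, 8)]⟩] (.ddet 1 [⟨3, [(6, 1), (0, 4)]⟩] (.ndet 0 [⟨1, [(2, 2)]⟩] (.ddet 1 [⟨1, [(2, 2)]⟩] (.leaf 0 [⟨1, []⟩, ⟨1, []⟩, ⟨1, []⟩, ⟨1, []⟩, ⟨3, [(6, 2), (0, 8)]⟩, ⟨1, [(2, 2)]⟩, ⟨1, [(6, 1)]⟩, ⟨1, []⟩])))))))))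
def s12_18_t7 : Tree := .ndet 0 [⟨3, [(10, 2), (4, 2), (3, 2)]⟩] (.ddet 1 [⟨3, [(10, 1), (4, 1), (3, 1)]⟩] (.nbr (.cons (.ddet 1 [⟨1, [(0, 1)]⟩] (.leaf 0 [⟨1, []⟩, ⟨1, []⟩, ⟨1, []⟩, ⟨1, []⟩, ⟨3, [(11, 2), (5, 2), (4, 2)]⟩, ⟨1, [(0, 1)]⟩, ⟨1, [(5, 1), (0, 1)]⟩, ⟨1, [(0, 1)]⟩])) (.cons (.ddet 1 [⟨1, [(1, 1)]⟩] (.split [-2, 0, 1] (16360) (.leaf 0 [⟨1, []⟩, ⟨1, []⟩, ⟨1, [(0, 1)]⟩, ⟨1, [(1, 1)]⟩, ⟨3, [(6, 2), (1, 8)]⟩, ⟨1, [(0, 2)]⟩, ⟨1, [(6, 1)]⟩, ⟨1, []⟩]) (.ndet 1 [⟨3, [(6, 2), (2, 4)]⟩] s12_18_t6))) .nil))))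
def s12_18_t8 : Tree := .dbr (.cons (.ndet 0 [⟨4, [(3, 2), (1, 3)]⟩] (.ddet 1 [⟨4, [(3, 2), (1, 1)]⟩] (.split [2, 0, -1] (-31020) (.leaf 1 [⟨1, []⟩, ⟨1, []⟩, ⟨1, []⟩, ⟨1, []⟩, ⟨1, [(0, 1)]⟩, ⟨1, [(2, 1)]⟩, ⟨1, [(4, 1)]⟩, ⟨1, []⟩]) (.ndet 1 [⟨1, [(4, 1)]⟩] (.ddet 0 [⟨3, [(4, 2), (0, 1)]⟩] s12_18_t7))))) (.cons (.ndet 0 [⟨4, [(3, 2), (1, 3)]⟩] (.ddet 1 [⟨2, [(3, 1), (0, 1)]⟩] (.leaf 1 [⟨2, [(1, 1)]⟩, ⟨1, [(0, 1)]⟩, ⟨1, []⟩, ⟨1, []⟩, ⟨2, [(3, 1), (0, 3)]⟩, ⟨1, [(1, 1)]⟩, ⟨1, [(3, 1)]⟩, ⟨1, []⟩]))) .nil))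
def s12_18_t9 : Tree := .ddet 0 [⟨3, [(8, 1), (3, 1), (0, 2)]⟩] (.ndet 0 [⟨1, [(8, 1), (3, 1), (0, 1)]⟩] (.ddet 1 [⟨3, [(8, 2), (3, 2), (0, 4)]⟩] (.ndet 1 [⟨1, [(8, 1), (3, 1), (0, 3)]⟩] (.ddet 0 [⟨3, [(8, 2), (3, 2), (0, 4)]⟩] (.ndet 0 [⟨3, [(8, 2), (3, 2), (0, 10)]⟩] (.ddet 1 [⟨3, [(8, 1), (3, 1), (0, 5)]⟩] (.ndet 0 [⟨1, [(8, 2), (2, 4)]⟩] (.ddet 1 [⟨1, [(8, 2), (2, 4)]⟩] (.leaf 0 [⟨1, []⟩, ⟨1, []⟩, ⟨1, []⟩, ⟨1, []⟩, ⟨3, [(8, 2), (3, 2), (0, 10)]⟩, ⟨1, [(8, 2), (2, 4)]⟩, ⟨1, [(8, 1), (3, 1), (0, 1)]⟩, ⟨1, [(8, 1), (0, 1)]⟩])))))))))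
def s12_18_t10 : Tree := .ndet 0 [⟨3, [(6, 6), (3, 8), (1, 2)]⟩] (.ddet 1 [⟨3, [(6, 3), (3, 4), (1, 1)]⟩] (.nbr (.cons (.ddet 1 [⟨1, [(0, 1)]⟩] (.leaf 0 [⟨1, []⟩, ⟨1, []⟩, ⟨1, []⟩, ⟨1, []⟩, ⟨3, [(7, 6), (4, 8), (2, 2)]⟩, ⟨1, [(0, 1)]⟩, ⟨1, [(7, 1), (2, 1)]⟩, ⟨1, [(7, 1)]⟩])) (.cons (.ddet 1 [⟨1, [(7, 1), (1, 2)]⟩] (.split [-3, 1, 2] (16370) (.leaf 0 [⟨1, []⟩, ⟨1, []⟩, ⟨1, [(0, 1)]⟩, ⟨1, [(1, 1)]⟩, ⟨3, [(8, 2), (3, 2), (1, 10)]⟩, ⟨1, [(0, 2)]⟩, ⟨1, [(8, 1), (3, 1), (1, 1)]⟩, ⟨1, [(8, 1), (1, 1)]⟩]) (.ndet 1 [⟨3, [(8, 4), (3, 2), (2, 4)]⟩] s12_18_t9))) .nil))))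
def s12_18_t11 : Tree := .dbr (.cons (.nbr (.cons s12_18_t5 (.cons s12_18_t8 .nil))) (.cons (.ndet 1 [⟨3, [(6, 4), (1, 2), (0, 4)]⟩] (.ddet 0 [⟨3, [(6, 3), (3, 1), (1, 1)]⟩] (.ndet 0 [⟨1, [(6, 1), (1, 1)]⟩] (.ddet 1 [⟨3, [(6, 3), (3, 2), (1, 2)]⟩] (.ndet 1 [⟨1, [(6, 2), (3, 2), (1, 1)]⟩] (.ddet 0 [⟨3, [(6, 3), (3, 2), (1, 2)]⟩] s12_18_t10)))))) .nil))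
def s12_18_n1 : Node := ⟨[⟨[1, 1], 15600⟩, ⟨[-1, -1], -16400⟩, ⟨[-1, 0, 1, 1], 15600⟩, ⟨[1, 0, -1, -1], -16400⟩, ⟨[2, 0, -1], 15000⟩, ⟨[-2, 0, 2], -33000⟩, ⟨[1, 0, 1], 960000⟩], [1, 0, 1], 0, none, (.ndet 1 [⟨1, [(5, 1), (0, 1)]⟩] (.ddet 0 [⟨4, [(3, 4), (1, 1), (0, 2)]⟩] (.ndet 0 [⟨3, [(5, 3), (2, 2), (0, 2)]⟩] (.ddet 1 [⟨3, [(2, 1), (0, 1)]⟩] (.ndet 1 [⟨1, [(2, 1)]⟩] s12_18_t11)))))⟩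
def s12_18 : Sys := ⟨[(2, 0), (3, 16000)], [(1, 0), (4, 0)], 4, [s12_18_n0, s12_18_n1], [6720000, -4304000, 4320000, 2416000], (.leaf 0 [⟨1, []⟩, ⟨1, []⟩, ⟨1, []⟩, ⟨1, []⟩, ⟨1, []⟩, ⟨1, []⟩, ⟨1, []⟩])⟩

theorem s12_18_ok : s12_18.ok = true := by decide +kernel

def s14_2_n0 : Node := ⟨[⟨[-1, 1], 0⟩, ⟨[0, 1, -1], 0⟩, ⟨[-2, 1], 40⟩, ⟨[-1], -8⟩], [0, 1], 0, none, (.ndet 1 [⟨1, [(3, 1)]⟩, ⟨1, [(2, 1)]⟩] (.ddet 0 [] (.ndet 0 [⟨1, [(1, 1)]⟩, ⟨1, [(0, 1)]⟩] (.ddet 0 [] (.leaf 0 [⟨1, [(3, 1)]⟩, ⟨1, [(1, 1)]⟩, ⟨1, [(3, 1)]⟩, ⟨1, []⟩, ⟨1, [(0, 1)]⟩])))))⟩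
def s14_2 : Sys := ⟨[(1, -32), (2, 16), (3, -32)], [(1, -16)], 3, [s14_2_n0], [-16, 32, -16, 0], (.leaf 0 [⟨1, []⟩, ⟨1, []⟩, ⟨1, []⟩, ⟨1, []⟩])⟩

theorem s14_2_ok : s14_2.ok = true := by decide +kernel

def s15_6_n0 : Node := ⟨[⟨[1], 376⟩, ⟨[1, -1], 384⟩, ⟨[1, 0, -1], 392⟩, ⟨[1, -1], 392⟩, ⟨[1], 384⟩, ⟨[1, -1], 408⟩, ⟨[1], 368⟩, ⟨[1], 352⟩], [1], 0, none, (.ndet 1 [⟨1, [(3, 1)]⟩, ⟨1, [(2, 1)]⟩, ⟨1, [(5, 1)]⟩] (.ddet 0 [⟨1, [(2, 1)]⟩] (.ndet 2 [⟨1, [(3, 1)]⟩, ⟨1, [(3, 1)]⟩, ⟨1, [(2, 1)]⟩] (.ddet 1 [⟨1, [(3, 1)]⟩] (.ndet 3 [⟨1, [(3, 1)]⟩, ⟨1, [(3, 1)]⟩, ⟨1, [(3, 1)]⟩] (.ddet 1 [⟨1, []⟩] (.leaf 0 [⟨1, [(3, 1)]⟩,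 ⟨1, [(3, 1)]⟩, ⟨1, [(3, 1)]⟩, ⟨1, [(3, 1)]⟩, ⟨1, [(3, 1)]⟩, ⟨1, [(3, 1)]⟩, ⟨1, [(3, 1)]⟩, ⟨1, [(3, 1)]⟩, ⟨1, []⟩])))))))⟩
def s15_6 : Sys := ⟨[(0, 0), (1, 0), (2, -16), (3, 16)], [(1, 16), (2, 16)], 3, [s15_6_n0], [752, -32, -16, 0], (.leaf 0 [⟨1, []⟩, ⟨1, []⟩, ⟨1, []⟩, ⟨1, []⟩, ⟨1, []⟩, ⟨1, []⟩, ⟨1, []⟩, ⟨1, []⟩])⟩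

theorem s15_6_ok : s15_6.ok = true := by decide +kernel

def s17_15_n0 : Node := ⟨[⟨[0, 0, 0, 1], 24⟩, ⟨[-1], 48⟩, ⟨[0, -1], 56⟩, ⟨[0, 0, -1], 56⟩, ⟨[0, 0, -1], 64⟩, ⟨[0, 0, 0, 1], 16⟩, ⟨[-1, 0, 0, 1], 64⟩, ⟨[0, -1, 0, 1], 72⟩, ⟨[0, -1], 64⟩, ⟨[0, 0, 0, 2], 40⟩, ⟨[-1], 56⟩, ⟨[0, 0, 0, 1], 32⟩], [0, 0, 0, 1], 0, none, (.ndet 1 [⟨1, [(0, 1)]⟩] (.ddet 0 [⟨1, [(1, 1)]⟩, ⟨1, [(3, 1)]⟩, ⟨1, [(7, 1)]⟩] (.ndet 0 [⟨1, [(7, 1)]⟩] (.ddet 1 [⟨1, [(0, 1)]⟩, ⟨1, [(1, 1), (0, 1)]⟩, ⟨1, [(3, 1), (0, 1)]⟩] (.ndet 0 [⟨1, [(3, 1)]⟩] (.ddet 2 [⟨1, [(0, 1)]⟩, ⟨1, [(0, 2)]⟩, ⟨1, [(1, 1), (0, 1)]⟩] (.ndet 0 [⟨1, [(1, 1)]⟩] (.ddet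 3 [⟨1, [(0, 1)]⟩, ⟨1, [(0, 2)]⟩, ⟨1, [(0, 2)]⟩] (.leaf 0 [⟨1, [(0, 1)]⟩, ⟨1, [(0, 1)]⟩, ⟨1, [(0, 1)]⟩, ⟨1, [(0, 1)]⟩, ⟨1, [(0, 1)]⟩, ⟨1, [(0, 1)]⟩, ⟨1, [(0, 2)]⟩, ⟨1, [(0, 2)]⟩, ⟨1, [(0, 1)]⟩, ⟨1, [(0, 2)]⟩, ⟨1, [(0, 1)]⟩, ⟨1, [(0, 1)]⟩, ⟨1, []⟩])))))))))⟩
def s17_15 : Sys := ⟨[(0, -16), (4, 16)], [(0, -16), (1, 0), (2, 0), (3, 0)], 4, [s17_15_n0], [-80, -96, -96, 80], (.leaf 0 [⟨1, []⟩, ⟨1, []⟩, ⟨1, []⟩, ⟨1, []⟩, ⟨1, []⟩, ⟨1, []⟩, ⟨1, []⟩, ⟨1, []⟩, ⟨1, []⟩, ⟨1, []⟩, ⟨1, []⟩, ⟨1, []⟩])⟩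

theorem s17_15_ok : s17_15.ok = true := by decide +kernel

def s18_15_n0 : Node := ⟨[⟨[-1, 0, 0, 1], 224⟩, ⟨[-1], 128⟩, ⟨[0, -1], 88⟩, ⟨[0, 0, -1], -32⟩, ⟨[0, 0, -1, 1], 88⟩, ⟨[0, 0, 0, 1], 96⟩, ⟨[-1, 0, 0, 1], 232⟩, ⟨[0, -1, 0, 1], 160⟩, ⟨[0, 0, 0, 1], 88⟩, ⟨[-1, 0, 0, 1], 200⟩, ⟨[-1, 0, 0, -1], 48⟩, ⟨[0, 0, 0, 1], 112⟩, ⟨[0, 0, 0, 2], 200⟩, ⟨[0, 0, 0, 1], 120⟩, ⟨[0, 0, 0, 1], 128⟩], [0, 0, 0, 1], 0, none, (.ndet 1 [⟨1, [(4, 1), (0, 2)]⟩] (.ddet 0 [⟨1, [(4, 1), (0, 1)]⟩, ⟨1, [(12, 1)]⟩, ⟨1, [(11, 1)]⟩] (.ndet 0 [⟨1, [(11, 1), (0, 1)]⟩] (.ddet 1 [⟨1, [(0, 1)]⟩, ⟨1, [(4, 1), (0, 2)]⟩, ⟨1, [(12, 1), (0, 1)]⟩]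 (.ndet 0 [⟨1, [(12, 1)]⟩] (.ddet 2 [⟨1, [(0, 1)]⟩, ⟨1, [(0, 1)]⟩, ⟨1, [(4, 1), (0, 2)]⟩] (.ndet 0 [⟨1, [(4, 1)]⟩] (.ddet 3 [⟨1, [(0, 1)]⟩, ⟨1, [(0, 2)]⟩, ⟨1, [(0, 1)]⟩] (.leaf 0 [⟨1, [(0, 3)]⟩, ⟨1, [(0, 2)]⟩, ⟨1, [(0, 1)]⟩, ⟨1, []⟩, ⟨1, [(0, 1)]⟩, ⟨1, [(0, 1)]⟩, ⟨1, [(0, 3)]⟩, ⟨1, [(0, 2)]⟩, ⟨1, [(0, 1)]⟩, ⟨1, [(0, 3)]⟩, ⟨1, [(0, 1)]⟩, ⟨1, [(0, 1)]⟩, ⟨1, [(0, 2)]⟩, ⟨1, [(0, 1)]⟩, ⟨1, [(0, 1)]⟩, ⟨1, []⟩])))))))))⟩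
def s18_15 : Sys := ⟨[(1, 16), (4, 32)], [(0, 16), (1, 0), (2, 16), (3, -32)], 4, [s18_15_n0], [-272, -176, 16, 192], (.leaf 0 [⟨1, []⟩, ⟨1, []⟩, ⟨1, []⟩, ⟨1, []⟩, ⟨1, []⟩, ⟨1, []⟩, ⟨1, []⟩, ⟨1, []⟩, ⟨1, []⟩, ⟨1, []⟩, ⟨1, []⟩, ⟨1, []⟩, ⟨1, []⟩, ⟨1, []⟩, ⟨1, []⟩])⟩

theorem s18_15_ok : s18_15.ok = true := by decide +kernel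

def s21_9_n0 : Node := ⟨[⟨[0, 1], 96⟩, ⟨[0, 1, 0, -1], 16⟩, ⟨[0, 0, -1], 16⟩, ⟨[-1], 72⟩, ⟨[0, 0, -1], 40⟩, ⟨[0, 1], 120⟩, ⟨[0, 1], 136⟩], [0, 1], 0, none, (.ndet 1 [⟨1, [(0, 1)]⟩, ⟨1, [(5, 1)]⟩] (.ddet 0 [⟨1, [(2, 1)]⟩] (.ndet 0 [⟨1, [(3, 1)]⟩, ⟨1, [(2, 1)]⟩] (.ddet 1 [⟨1, [(0, 1)]⟩] (.leaf 0 [⟨1, [(0, 1)]⟩, ⟨1, []⟩, ⟨1, [(3, 1)]⟩, ⟨1, [(0, 1)]⟩, ⟨1, [(3, 1)]⟩, ⟨1, [(0, 1)]⟩, ⟨1, [(0, 1)]⟩, ⟨1, []⟩])))))⟩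
def s21_9 : Sys := ⟨[(0, 16), (2, 32), (4, 32)], [(0, 0), (3, -32)], 4, [s21_9_n0], [-128, 208, -64, 176], (.leaf 0 [⟨1, []⟩, ⟨1, []⟩, ⟨1, []⟩, ⟨1, []⟩, ⟨1, []⟩, ⟨1, []⟩, ⟨1, []⟩])⟩

theorem s21_9_ok : s21_9.ok = true := by decide +kernel

def s24_2_n0 : Node := ⟨[⟨[0, 0, -1, 1], 128⟩, ⟨[0, 1, -1], 224⟩, ⟨[-1, -1, 0, 1], 224⟩, ⟨[-1, 1], 320⟩, ⟨[-2, 0, 0, 1], 608⟩, ⟨[-2, -1, 0, 2], 480⟩, ⟨[-2, -1, 0, 2], 512⟩, ⟨[-1, 0, 0, 1], 192⟩, ⟨[-1, 0, 0, 1], 224⟩], [0, 1], 0, none, (.ndet 1 [⟨1, [(8, 1)]⟩] (.ddet 0 [] (.ndet 0 [⟨1, [(7, 1)]⟩] (.ddet 0 [] (.leaf 0 [⟨1, [(5, 1)]⟩, ⟨1, [(4, 1)]⟩, ⟨1, []⟩, ⟨1, [(2, 1)]⟩, ⟨1,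 [(2, 1)]⟩, ⟨1, [(0, 1)]⟩, ⟨1, [(0, 1)]⟩, ⟨1, [(0, 1)]⟩, ⟨1, [(0, 1)]⟩, ⟨1, [(6, 1)]⟩])))))⟩
def s24_2 : Sys := ⟨[(3, -64), (4, 0)], [(1, 192)], 4, [s24_2_n0], [-320, 384, 0, 320], (.leaf 0 [⟨1, []⟩, ⟨1, []⟩, ⟨1, []⟩, ⟨1, []⟩, ⟨1, []⟩, ⟨1, []⟩, ⟨1, []⟩, ⟨1, []⟩, ⟨1, []⟩])⟩

theorem s24_2_ok : s24_2.ok = true := by decide +kernel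

def s25_20_n0 : Node := ⟨[⟨[0, 0, 1], 96⟩, ⟨[0, 0, 1, -1], 104⟩, ⟨[0, 1, 0, -1], 32⟩, ⟨[0, 0, 1], 152⟩, ⟨[0, -1, 1], 176⟩, ⟨[-1, 0, 1], 240⟩, ⟨[-1], 136⟩, ⟨[0, -1], -32⟩, ⟨[0, -2, 1], 48⟩, ⟨[0, -1], -64⟩], [0, 0, 1], 0, none, (.ndet 1 [⟨1, [(6, 1)]⟩, ⟨1, [(7, 1), (5, 1)]⟩] (.ddet 0 [⟨1, [(7, 1)]⟩] (.ndet 2 [⟨1, [(6, 1)]⟩, ⟨1, [(5, 1)]⟩] (.ddet 1 [⟨1, [(6, 1), (3, 1)]⟩] (.ndet 0 [⟨1, [(3, 1)]⟩, ⟨1, [(2, 1)]⟩] (.ddet 0 [⟨1, [(5, 1), (2, 1)]⟩] (.leaf 0 [⟨1, [(5, 1)]⟩, ⟨1, [(5, 1), (3, 1)]⟩, ⟨1, [(3, 1)]⟩, ⟨1, [(5, 1)]⟩, ⟨1, [(5, 1)]⟩, ⟨1, [(5, 2)]⟩, ⟨1, [(5, 1)]⟩, ⟨1, []⟩, ⟨1, [(5, 1)]⟩, ⟨1, []⟩, ⟨1, [(2, 1)]⟩])))))))⟩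
def s25_20 : Sys := ⟨[(0, -16), (3, 48), (4, -64)], [(2, -64), (4, -80)], 4, [s25_20_n0], [-208, 16, 256, -64], (.leaf 0 [⟨1, []⟩, ⟨1, []⟩, ⟨1, []⟩, ⟨1, []⟩, ⟨1, []⟩, ⟨1, []⟩, ⟨1, []⟩, ⟨1, []⟩, ⟨1, []⟩, ⟨1, []⟩])⟩

theorem s25_20_ok : s25_20.ok = true := by decide +kernel

def s26_9_t0 : Tree := .nbr (.cons (.ddet 1 [⟨1, [(23, 1), (11, 1)]⟩] (.ndet 2 [⟨1, [(23, 1), (11, 1), (4, 1)]⟩, ⟨1, [(23, 1), (8, 1)]⟩] (.dbr (.cons (.leaf 0 [⟨1, [(24, 1), (9, 1)]⟩, ⟨1, [(5, 1)]⟩, ⟨1, [(24, 1), (12, 1), (5, 1)]⟩, ⟨1, [(5, 1)]⟩, ⟨1, []⟩, ⟨1, [(2, 1)]⟩, ⟨1, []⟩, ⟨1, [(2, 1)]⟩, ⟨1, [(2, 2)]⟩, ⟨1, [(2, 1)]⟩, ⟨1, [(24, 1), (9,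 1)]⟩, ⟨1, [(2, 2)]⟩, ⟨1, [(2, 3)]⟩, ⟨1, [(5, 2)]⟩, ⟨1, []⟩, ⟨1, [(5, 1)]⟩, ⟨1, [(2, 1)]⟩, ⟨1, []⟩, ⟨1, [(2, 1)]⟩, ⟨1, [(2, 2)]⟩, ⟨1, [(5, 3)]⟩, ⟨1, [(5, 2)]⟩, ⟨1, [(5, 1)]⟩, ⟨1, [(5, 2)]⟩, ⟨1, [(5, 1)]⟩, ⟨1, []⟩, ⟨1, [(5, 1)]⟩, ⟨1, []⟩, ⟨1, [(2, 1)]⟩, ⟨1, []⟩]) (.cons (.leaf 0 [⟨1, [(24, 1), (9, 1), (2, 1)]⟩, ⟨1, []⟩, ⟨1, [(24, 1), (9, 1), (0, 1)]⟩, ⟨1, []⟩, ⟨1, [(2, 1)]⟩, ⟨1, [(2, 2)]⟩, ⟨1, []⟩, ⟨1, [(2, 1)]⟩, ⟨1, [(2, 2)]⟩, ⟨1, []⟩, ⟨1, [(24, 1), (9, 1)]⟩, ⟨1, [(2, 1)]⟩, ⟨1, [(2, 2)]⟩, ⟨1, [(0, 1)]⟩, ⟨1, [(2, 1)]⟩, ⟨1, [(0, 1)]⟩, ⟨1, [(2, 1)]⟩, ⟨1, [(0, 1)]⟩, ⟨1, []⟩, ⟨1, [(2, 1)]⟩, ⟨1, [(0, 2)]⟩, ⟨1, [(0,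 1)]⟩, ⟨1, []⟩, ⟨1, [(0, 2)]⟩, ⟨1, [(0, 1)]⟩, ⟨1, []⟩, ⟨1, [(0, 2)]⟩, ⟨1, [(0, 1)]⟩, ⟨1, []⟩, ⟨1, [(2, 1)]⟩]) .nil))))) (.cons (.ddet 1 [⟨1, [(23, 1), (8, 1), (1, 1)]⟩] (.ndet 2 [⟨1, [(23, 1), (8, 1), (1, 1)]⟩, ⟨1, [(23, 1), (8, 1)]⟩] (.dbr (.cons (.leaf 0 [⟨1, [(24, 1), (9, 1)]⟩, ⟨1, [(2, 1)]⟩, ⟨1, [(24, 1), (9, 1), (2, 1)]⟩, ⟨1, []⟩, ⟨1, []⟩, ⟨1, []⟩, ⟨1, [(0, 1)]⟩, ⟨1, [(0, 1)]⟩, ⟨1, [(0, 1)]⟩, ⟨1, [(0, 2)]⟩, ⟨1, [(24, 1), (9, 1), (0, 1)]⟩, ⟨1, [(0, 2)]⟩, ⟨1, [(0, 2)]⟩, ⟨1, [(2, 1)]⟩, ⟨1, [(2, 1)]⟩, ⟨1, []⟩, ⟨1, []⟩, ⟨1, [(0, 1)]⟩, ⟨1, [(0, 1)]⟩, ⟨1, [(0, 1)]⟩, ⟨1, [(2, 2)]⟩, ⟨1, [(2, 2)]⟩, ⟨1, [(2, 2)]⟩,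 ⟨1, [(2, 1)]⟩, ⟨1, [(2, 1)]⟩, ⟨1, [(2, 1)]⟩, ⟨1, []⟩, ⟨1, []⟩, ⟨1, []⟩, ⟨1, []⟩]) (.cons (.leaf 0 [⟨1, [(24, 1), (6, 1)]⟩, ⟨1, []⟩, ⟨1, [(24, 1), (9, 1)]⟩, ⟨1, [(16, 1)]⟩, ⟨1, [(16, 1)]⟩, ⟨1, [(16, 1)]⟩, ⟨1, [(16, 1)]⟩, ⟨1, [(16, 1)]⟩, ⟨1, [(16, 1)]⟩, ⟨1, [(16, 1)]⟩, ⟨1, [(24, 1), (6, 1)]⟩, ⟨1, [(16, 1)]⟩, ⟨1, [(16, 1)]⟩, ⟨1, []⟩, ⟨1, []⟩, ⟨1, []⟩, ⟨1, []⟩, ⟨1, []⟩, ⟨1, []⟩, ⟨1, []⟩, ⟨1, [(2, 1)]⟩, ⟨1, [(2, 1)]⟩, ⟨1, [(2, 1)]⟩, ⟨1, [(2, 1)]⟩, ⟨1, [(2, 1)]⟩, ⟨1, [(2, 1)]⟩, ⟨1, [(2, 1)]⟩, ⟨1, [(2, 1)]⟩, ⟨1, [(2, 1)]⟩, ⟨1, [(16, 1)]⟩]) .nil))))) (.cons (.prune [(23, 2), (13, 1), (5, 1), (1, 2)]) .nil)))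
def s26_9_t1 : Tree := .dbr (.cons (.ndet 0 [⟨1, [(2, 1)]⟩, ⟨1, [(21, 1), (10, 1), (2, 1)]⟩] (.ddet 1 [⟨1, [(21, 1), (9, 1)]⟩] (.ndet 2 [⟨1, [(30, 1), (21, 1), (9, 1)]⟩, ⟨1, [(21, 1), (9, 1)]⟩] (.ddet 0 [⟨1, []⟩] (.leaf 2 [⟨1, [(21, 1), (9, 1), (2, 1)]⟩, ⟨1, [(21, 1), (9, 1)]⟩, ⟨1, [(2, 1)]⟩, ⟨1, [(30, 1)]⟩, ⟨1, []⟩, ⟨1, [(30, 1)]⟩, ⟨1, [(30, 1), (21, 1), (9, 1)]⟩, ⟨1, []⟩, ⟨1, []⟩, ⟨1, [(30, 1)]⟩, ⟨1, []⟩, ⟨1, [(30, 1)]⟩, ⟨1, []⟩, ⟨1, [(2, 1)]⟩]))))) (.cons (.ndet 0 [⟨1, [(18, 1), (2, 2)]⟩, ⟨1, [(21, 1), (11, 1), (2, 1)]⟩] (.ddet 1 [⟨1, [(21, 1), (10, 1), (0, 1)]⟩] (.ndet 2 [⟨1, [(30, 1), (21, 1), (10, 1),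 (0, 2)]⟩, ⟨1, [(21, 1), (10, 1), (0, 1)]⟩] (.ddet 0 [⟨1, []⟩] (.split [1, 1, -1] (-2000) (.leaf 0 [⟨1, [(22, 1), (11, 1), (1, 1)]⟩, ⟨1, [(0, 1)]⟩, ⟨1, [(22, 1), (11, 1), (1, 1), (0, 1)]⟩, ⟨1, [(0, 2)]⟩, ⟨1, [(0, 1)]⟩, ⟨1, []⟩, ⟨1, [(0, 1)]⟩, ⟨1, []⟩, ⟨1, [(19, 1), (3, 2)]⟩, ⟨1, []⟩, ⟨1, [(22, 1), (11, 1), (1, 1)]⟩, ⟨1, [(19, 1), (3, 2)]⟩, ⟨1, [(19, 2), (3, 4)]⟩, ⟨1, [(0, 2)]⟩, ⟨1, []⟩, ⟨1, [(0, 1)]⟩, ⟨1, [(19, 1), (3, 2)]⟩, ⟨1, []⟩, ⟨1, [(19, 1), (3, 2)]⟩, ⟨1, [(19, 2), (3, 4)]⟩, ⟨1, [(0, 2)]⟩, ⟨1, [(0, 1)]⟩, ⟨1, []⟩, ⟨1, [(0, 1)]⟩, ⟨1, []⟩, ⟨1, [(19, 1), (3, 2)]⟩, ⟨1, []⟩, ⟨1, [(19, 1), (3, 2)]⟩, ⟨1, [(19,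 2), (3, 4)]⟩, ⟨1, []⟩]) (.leaf 2 [⟨1, [(22, 1), (11, 1), (3, 1)]⟩, ⟨1, [(22, 1), (11, 1), (1, 1)]⟩, ⟨1, [(0, 1)]⟩, ⟨1, [(31, 1), (1, 1)]⟩, ⟨1, []⟩, ⟨1, [(31, 1), (1, 1)]⟩, ⟨1, [(31, 1), (22, 1), (11, 1), (1, 2)]⟩, ⟨1, []⟩, ⟨1, []⟩, ⟨1, [(31, 1), (1, 1)]⟩, ⟨1, []⟩, ⟨1, [(31, 1), (1, 1)]⟩, ⟨1, []⟩, ⟨1, [(0, 1)]⟩])))))) .nil))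
def s26_9_t2 : Tree := .nbr (.cons (.ddet 1 [⟨1, [(20, 1), (5, 1)]⟩] (.ndet 2 [⟨1, [(20, 1), (2, 1)]⟩, ⟨1, [(20, 1), (6, 1)]⟩] (.dbr (.cons s26_9_t0 (.cons (.ndet 0 [⟨1, [(14, 1)]⟩, ⟨1, [(21, 1), (8, 1)]⟩] (.ddet 1 [⟨1, [(21, 1), (10, 1), (0, 1)]⟩] (.ndet 2 [⟨1, [(21, 1), (10, 1), (2, 1), (0, 2)]⟩, ⟨1, [(21, 1), (7, 1), (0, 1)]⟩] (.ddet 0 [⟨1, [(14, 1), (0, 1)]⟩] (.leaf 0 [⟨1, [(21, 1), (7, 1), (0, 1)]⟩, ⟨1, [(2, 1), (0, 1)]⟩, ⟨1, [(21, 1), (10, 1), (2, 1), (0, 2)]⟩, ⟨1, [(2, 1), (0, 2)]⟩, ⟨1, [(0, 1)]⟩, ⟨1, [(14, 1), (0, 1)]⟩, ⟨1, [(0, 1)]⟩, ⟨1, [(14, 1), (0, 1)]⟩, ⟨1, [(14, 2), (0, 1)]⟩, ⟨1, [(14, 1), (0,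 1)]⟩, ⟨1, [(21, 1), (7, 1), (0, 1)]⟩, ⟨1, [(14, 2), (0, 1)]⟩, ⟨1, [(14, 3), (0, 1)]⟩, ⟨1, [(2, 2), (0, 2)]⟩, ⟨1, []⟩, ⟨1, [(2, 1), (0, 1)]⟩, ⟨1, [(14, 1)]⟩, ⟨1, []⟩, ⟨1, [(14, 1)]⟩, ⟨1, [(14, 2)]⟩, ⟨1, [(2, 3), (0, 2)]⟩, ⟨1, [(2, 2), (0, 1)]⟩, ⟨1, [(2, 1)]⟩, ⟨1, [(2, 2), (0, 1)]⟩, ⟨1, [(2, 1)]⟩, ⟨1, [(16, 1)]⟩, ⟨1, [(2, 1)]⟩, ⟨1, [(16, 1)]⟩, ⟨1, [(16, 1), (14, 1)]⟩, ⟨1, []⟩]))))) .nil))))) (.cons (.ddet 1 [⟨1, [(20, 1), (8, 1), (1, 1)]⟩] (.ndet 2 [⟨1, [(20, 1), (8, 1), (1, 1)]⟩, ⟨1, [(20, 1), (9, 1), (1, 1)]⟩] s26_9_t1)) (.cons (.prune [(25, 1), (20, 2), (8, 1), (1, 2)]) .nil)))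
def s26_9_n0 : Node := ⟨[⟨[1, 0, 0, -1], -200⟩, ⟨[1, 0, -1], -200⟩, ⟨[1, -1], -200⟩, ⟨[1, -1, -1, -1], -3353⟩, ⟨[1, 0, -1, -1], -1364⟩, ⟨[1, 1, -1, -1], -370⟩, ⟨[0, -1, 0, -1], -3360⟩, ⟨[0, 0, 0, -1], -2340⟩, ⟨[0, 1, 0, -1], -1341⟩, ⟨[-1, -1, 1, -1], -4359⟩, ⟨[0, -1, 1, -1], 179700⟩, ⟨[-1, 0, 1, -1], -3340⟩, ⟨[-1, 1, 1, -1], -2349⟩, ⟨[1, -1, -1], -2323⟩, ⟨[1, 1, -1], 1660⟩, ⟨[0, -1], -2324⟩, ⟨[0, 1], 680⟩, ⟨[-1, -1, 1], -2340⟩, ⟨[-1, 0, 1], -1331⟩, ⟨[-1, 1, 1], -344⟩, ⟨[1, -1, -1, 1], -1325⟩, ⟨[1, 0, -1, 1], 694⟩, ⟨[1, 1, -1, 1], 2660⟩, ⟨[0, -1, 0, 1], -1331⟩, ⟨[0, 0, 0, 1], 680⟩, ⟨[0, 1, 0, 1], 2640⟩, ⟨[-1,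 -1, 1, 1], -1360⟩, ⟨[-1, 0, 1, 1], 640⟩, ⟨[-1, 1, 1, 1], 1620⟩], [1], 0, none, s26_9_t2⟩
def s26_9_t3 : Tree := .dbr (.cons (.nbr (.cons (.ddet 1 [⟨1, [(13, 1), (10, 1)]⟩] (.leaf 1 [⟨1, [(1, 1)]⟩, ⟨1, [(21, 1), (10, 1), (1, 1)]⟩, ⟨1, [(13, 1), (10, 1)]⟩, ⟨1, [(1, 1)]⟩, ⟨1, [(1, 2)]⟩, ⟨1, [(1, 3)]⟩, ⟨1, []⟩, ⟨1, [(1, 2)]⟩, ⟨1, [(4, 1)]⟩, ⟨1, []⟩, ⟨1, [(1, 1)]⟩, ⟨1, []⟩, ⟨1, [(1, 1)]⟩, ⟨1, [(1, 2)]⟩, ⟨1, [(4, 1)]⟩, ⟨1, [(1, 1)]⟩, ⟨1, [(4, 2)]⟩, ⟨1, [(4, 1)]⟩, ⟨1, []⟩, ⟨1, []⟩, ⟨1, [(1, 1)]⟩, ⟨1, [(13, 1), (10, 1)]⟩, ⟨1, [(4, 1)]⟩, ⟨1, []⟩, ⟨1, [(4, 2)]⟩, ⟨1, [(4, 1)]⟩, ⟨1, []⟩])) (.cons (.ddet 1 [⟨1, [(21, 1),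 (10, 1), (1, 1)]⟩] (.leaf 3 [⟨1, [(21, 1), (10, 1)]⟩, ⟨1, [(1, 1)]⟩, ⟨1, [(21, 1), (10, 1), (1, 1)]⟩, ⟨1, [(31, 2)]⟩, ⟨1, [(31, 1)]⟩, ⟨1, []⟩, ⟨1, []⟩, ⟨1, []⟩, ⟨1, [(31, 1)]⟩, ⟨1, [(31, 1), (21, 1), (10, 1)]⟩, ⟨1, []⟩, ⟨1, []⟩, ⟨1, []⟩, ⟨1, []⟩, ⟨1, [(1, 1)]⟩])) (.cons (.prune [(23, 1), (21, 1), (10, 2), (1, 2)]) .nil)))) (.cons (.ndet 0 [⟨1, [(23, 1)]⟩, ⟨1, [(21, 1), (8, 1)]⟩] (.ddet 1 [⟨1, [(12, 1), (8, 1), (0, 1)]⟩] (.leaf 1 [⟨1, [(23, 1)]⟩, ⟨1, [(23, 1), (20, 1), (8, 1), (0, 1)]⟩, ⟨1, [(12, 1), (8, 1), (0, 1)]⟩, ⟨1, [(23, 1), (0, 1)]⟩, ⟨1, [(23, 2), (0, 1)]⟩, ⟨1, [(23, 3), (0, 1)]⟩, ⟨1, []⟩, ⟨1, [(23,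 2)]⟩, ⟨1, [(2, 1)]⟩, ⟨1, [(23, 1), (2, 1)]⟩, ⟨1, [(23, 2), (2, 1)]⟩, ⟨1, [(0, 1)]⟩, ⟨1, [(23, 1), (0, 1)]⟩, ⟨1, [(23, 2), (0, 1)]⟩, ⟨1, [(2, 1), (0, 1)]⟩, ⟨1, [(23, 1)]⟩, ⟨1, [(2, 2), (0, 1)]⟩, ⟨1, [(2, 1)]⟩, ⟨1, [(23, 1), (2, 1)]⟩, ⟨1, [(0, 1)]⟩, ⟨1, [(23, 1), (0, 1)]⟩, ⟨1, [(12, 1), (8, 1), (0, 2)]⟩, ⟨1, [(2, 1), (0, 1)]⟩, ⟨1, []⟩, ⟨1, [(2, 2), (0, 1)]⟩, ⟨1, [(2, 1)]⟩, ⟨1, [(23, 1), (2, 1)]⟩]))) .nil))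
def s26_9_t4 : Tree := .nbr (.cons (.ddet 1 [⟨1, [(18, 1), (7, 1)]⟩] (.ndet 2 [⟨1, [(28, 1), (18, 1), (7, 1)]⟩, ⟨1, [(19, 1), (7, 1)]⟩] s26_9_t3)) (.cons (.ddet 1 [⟨1, [(7, 1), (3, 1), (1, 2)]⟩] (.ndet 2 [⟨1, [(7, 1), (3, 1), (1, 2)]⟩, ⟨1, [(11, 1), (7, 1), (1, 1)]⟩] (.dbr (.cons (.ndet 0 [⟨1, [(2, 1)]⟩, ⟨1, [(12, 1), (8, 1), (2, 1)]⟩] (.ddet 1 [⟨1, [(8, 1), (4, 1), (2, 1)]⟩] (.leaf 1 [⟨1, [(2, 1)]⟩, ⟨1, [(8, 1), (4, 1), (2, 2)]⟩, ⟨1, [(8, 1), (4, 1), (2, 1)]⟩, ⟨1, []⟩, ⟨1, [(2, 1)]⟩, ⟨1, [(2, 2)]⟩, ⟨1, []⟩, ⟨1, [(2, 2)]⟩, ⟨1, []⟩, ⟨1, [(2, 1)]⟩, ⟨1, [(2, 2)]⟩, ⟨1, [(6, 1), (0, 1)]⟩, ⟨1, []⟩, ⟨1, [(2, 1)]⟩,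 ⟨1, [(6, 1), (0, 1)]⟩, ⟨1, [(2, 1)]⟩, ⟨1, [(6, 1), (0, 1)]⟩, ⟨1, []⟩, ⟨1, [(2, 1)]⟩, ⟨1, [(6, 1), (0, 1)]⟩, ⟨1, []⟩, ⟨1, [(8, 1), (4, 1)]⟩, ⟨1, [(6, 1), (0, 1)]⟩, ⟨1, []⟩, ⟨1, [(6, 1), (0, 1)]⟩, ⟨1, []⟩, ⟨1, []⟩]))) (.cons (.ndet 0 [⟨1, [(23, 1)]⟩, ⟨1, [(21, 1), (8, 1)]⟩] (.ddet 1 [⟨1, [(12, 1), (8, 1), (0, 1)]⟩] (.leaf 1 [⟨1, [(23, 1)]⟩, ⟨1, [(12, 1), (8, 1), (2, 1)]⟩, ⟨1, [(12, 1), (8, 1), (0, 1)]⟩, ⟨1, []⟩, ⟨1, [(23, 1)]⟩, ⟨1, [(23, 2)]⟩, ⟨1, []⟩, ⟨1, [(23, 2)]⟩, ⟨1, []⟩, ⟨1, [(23, 1)]⟩, ⟨1, [(23, 2)]⟩, ⟨1, [(6, 1)]⟩, ⟨1, []⟩, ⟨1, [(23, 1)]⟩, ⟨1, [(6, 1)]⟩, ⟨1, [(23, 1)]⟩, ⟨1, [(6, 1)]⟩, ⟨1, []⟩, ⟨1, [(23,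 1)]⟩, ⟨1, [(6, 1)]⟩, ⟨1, []⟩, ⟨1, [(8, 1), (4, 1), (0, 1)]⟩, ⟨1, [(6, 1)]⟩, ⟨1, []⟩, ⟨1, [(6, 1)]⟩, ⟨1, []⟩, ⟨1, [(15, 1)]⟩]))) .nil))))) (.cons (.prune [(23, 1), (18, 1), (7, 2), (0, 2)]) .nil)))
def s26_9_t5 : Tree := .ndet 0 [⟨1, [(7, 1)]⟩, ⟨1, [(13, 1), (5, 1)]⟩] (.ddet 1 [⟨1, [(19, 1), (5, 1), (0, 1)]⟩] (.ndet 2 [⟨1, [(26, 1), (19, 1), (5, 1), (0, 2)]⟩, ⟨1, [(26, 1), (5, 1), (0, 1)]⟩] (.ddet 0 [⟨1, [(15, 1), (0, 1)]⟩] (.nbr (.cons (.ddet 1 [⟨1, [(13, 1), (7, 1)]⟩] (.leaf 1 [⟨1, [(1, 1)]⟩, ⟨1, [(21, 1), (7, 1), (2, 1), (1, 1)]⟩, ⟨1, [(13, 1), (7, 1)]⟩, ⟨1, [(1, 1)]⟩, ⟨1, [(1, 2)]⟩, ⟨1, [(1, 3)]⟩, ⟨1, []⟩,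 ⟨1, [(1, 2)]⟩, ⟨1, [(9, 1)]⟩, ⟨1, []⟩, ⟨1, [(1, 1)]⟩, ⟨1, []⟩, ⟨1, [(1, 1)]⟩, ⟨1, [(1, 2)]⟩, ⟨1, [(9, 1)]⟩, ⟨1, [(1, 1)]⟩, ⟨1, [(9, 2)]⟩, ⟨1, [(9, 1)]⟩, ⟨1, []⟩, ⟨1, []⟩, ⟨1, [(1, 1)]⟩, ⟨1, [(13, 1), (7, 1)]⟩, ⟨1, [(9, 1)]⟩, ⟨1, []⟩, ⟨1, [(9, 2)]⟩, ⟨1, [(9, 1)]⟩, ⟨1, []⟩])) (.cons (.ddet 1 [⟨1, [(13, 1), (7, 1)]⟩] (.leaf 3 [⟨1, [(21, 1), (7, 1), (2, 1)]⟩, ⟨1, [(1, 1)]⟩, ⟨1, [(13, 1), (7, 1)]⟩, ⟨1, [(28, 2), (2, 2)]⟩, ⟨1, [(28, 1), (2, 1)]⟩, ⟨1, []⟩, ⟨1, []⟩, ⟨1, []⟩, ⟨1, [(28, 1), (2, 1)]⟩, ⟨1, [(28, 1), (21, 1), (7, 1), (2, 2)]⟩, ⟨1, []⟩, ⟨1, []⟩, ⟨1, []⟩, ⟨1, []⟩, ⟨1, [(1, 1)]⟩])) (.cons (.prune [(7, 1),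 (0, 1)]) .nil)))))))
def s26_9_n1 : Node := ⟨[⟨[0, 1, 0, -1], -200⟩, ⟨[0, 1, -1], -200⟩, ⟨[-1, 1], -200⟩, ⟨[-1, 1, -1, -1], -3340⟩, ⟨[0, 1, -1, -1], -2323⟩, ⟨[1, 1, -1, -1], -1330⟩, ⟨[-1, 1, 0, -1], -1320⟩, ⟨[1, 1, 0, -1], 686⟩, ⟨[-1, 1, 1, -1], -340⟩, ⟨[0, 1, 1, -1], 1660⟩, ⟨[1, 1, 1, -1], 2650⟩, ⟨[-1, 0, -1], -3360⟩, ⟨[0, 0, -1], -2324⟩, ⟨[1, 0, -1], -1331⟩, ⟨[-1], -2340⟩, ⟨[1], 685⟩, ⟨[-1, 0, 1], -1360⟩, ⟨[0, 0, 1], 680⟩, ⟨[1, 0, 1], 2640⟩, ⟨[0, -1, -1, 1], -2340⟩, ⟨[1, -1, -1, 1], -1333⟩, ⟨[-1, 0, -1, 1], 179700⟩, ⟨[0, -1, 0, 1], -1331⟩, ⟨[1, -1, 0, 1], 680⟩, ⟨[0, -1, 1, 1], -344⟩, ⟨[1, -1, 1, 1], 1660⟩],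 [0, 1], 0, none, (.ndet 2 [⟨1, [(8, 1), (4, 1)]⟩, ⟨1, [(10, 1), (4, 1)]⟩] (.dbr (.cons s26_9_t4 (.cons s26_9_t5 .nil))))⟩
def s26_9_t6 : Tree := .dbr (.cons (.ndet 0 [⟨1, [(13, 1)]⟩, ⟨1, [(13, 1), (9, 1), (3, 1)]⟩] (.ddet 1 [⟨1, [(13, 1), (9, 1), (5, 1)]⟩] (.ndet 2 [⟨1, [(9, 1), (5, 1)]⟩, ⟨1, [(13, 2), (9, 1), (5, 1)]⟩] (.ddet 0 [⟨1, [(13, 1)]⟩] (.leaf 0 [⟨1, [(13, 2), (9, 1), (5, 1)]⟩, ⟨1, [(2, 1)]⟩, ⟨1, [(9, 1), (5, 1)]⟩, ⟨1, [(2, 1)]⟩, ⟨1, []⟩, ⟨1, [(13, 1)]⟩, ⟨1, []⟩, ⟨1, [(13, 1)]⟩, ⟨1, [(13, 2)]⟩, ⟨1, [(13, 1)]⟩, ⟨1, [(13, 2), (9, 1), (5, 1)]⟩, ⟨1, [(13, 2)]⟩, ⟨1, [(13, 3)]⟩, ⟨1, [(2, 2)]⟩, ⟨1, []⟩, ⟨1,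 [(2, 1)]⟩, ⟨1, [(13, 1)]⟩, ⟨1, []⟩, ⟨1, [(13, 1)]⟩, ⟨1, [(13, 2)]⟩, ⟨1, [(2, 3)]⟩, ⟨1, [(2, 2)]⟩, ⟨1, [(2, 1)]⟩, ⟨1, [(2, 2)]⟩, ⟨1, [(2, 1)]⟩, ⟨1, []⟩, ⟨1, [(2, 1)]⟩, ⟨1, []⟩, ⟨1, [(13, 1)]⟩, ⟨1, [(2, 1)]⟩]))))) (.cons (.ndet 0 [⟨1, [(7, 1)]⟩, ⟨1, [(13, 1), (9, 1), (4, 1)]⟩] (.ddet 1 [⟨1, [(9, 1), (3, 1), (0, 1)]⟩] (.ndet 2 [⟨1, [(9, 1), (3, 1), (2, 1), (0, 2)]⟩, ⟨1, [(13, 1), (9, 1), (3, 1), (0, 1)]⟩] (.ddet 0 [⟨1, [(13, 1)]⟩] (.leaf 0 [⟨1, [(13, 1), (9, 1), (3, 1), (0, 1)]⟩, ⟨1, [(2, 1), (0, 1)]⟩, ⟨1, [(9, 1), (3, 1), (2, 1), (0, 2)]⟩, ⟨1, [(2, 1), (0, 2)]⟩, ⟨1, [(0, 1)]⟩, ⟨1, [(13, 1)]⟩, ⟨1, [(0, 1)]⟩, ⟨1,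 [(13, 1)]⟩, ⟨1, [(13, 1), (7, 1)]⟩, ⟨1, [(13, 1)]⟩, ⟨1, [(13, 1), (9, 1), (3, 1), (0, 1)]⟩, ⟨1, [(13, 1), (7, 1)]⟩, ⟨1, [(13, 1), (7, 2)]⟩, ⟨1, [(2, 2), (0, 2)]⟩, ⟨1, []⟩, ⟨1, [(2, 1), (0, 1)]⟩, ⟨1, [(7, 1)]⟩, ⟨1, []⟩, ⟨1, [(7, 1)]⟩, ⟨1, [(7, 2)]⟩, ⟨1, [(2, 3), (0, 2)]⟩, ⟨1, [(2, 2), (0, 1)]⟩, ⟨1, [(2, 1)]⟩, ⟨1, [(2, 2), (0, 1)]⟩, ⟨1, [(2, 1)]⟩, ⟨1, [(7, 1), (2, 1)]⟩, ⟨1, [(2, 1)]⟩, ⟨1, [(7, 1), (2, 1)]⟩, ⟨1, [(7, 2), (2, 1)]⟩, ⟨1, [(2, 1)]⟩]))))) .nil))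
def s26_9_t7 : Tree := .dbr (.cons (.ndet 0 [⟨1, [(2, 1)]⟩, ⟨1, [(9, 1), (3, 1), (2, 1)]⟩] (.ddet 1 [⟨1, [(9, 1), (5, 1), (2, 1)]⟩] (.ndet 2 [⟨1, [(9, 1), (5, 1)]⟩, ⟨1, [(9, 1), (5, 1), (2, 1)]⟩] (.ddet 0 [⟨1, []⟩] (.leaf 2 [⟨1, [(9, 1), (5, 1), (2, 2)]⟩, ⟨1, [(9, 1), (5, 1), (2, 1)]⟩, ⟨1, [(2, 1)]⟩, ⟨1, [(8, 1), (0, 1)]⟩, ⟨1, []⟩, ⟨1, [(8, 1), (0, 1)]⟩, ⟨1, [(9, 1), (5, 1)]⟩, ⟨1, []⟩, ⟨1, []⟩, ⟨1, [(8, 1), (0, 1)]⟩, ⟨1, []⟩, ⟨1, [(8, 1), (0, 1)]⟩, ⟨1, []⟩, ⟨1, []⟩]))))) (.cons (.ndet 0 [⟨1, [(7, 1)]⟩, ⟨1, [(9, 1), (4, 1), (2, 1)]⟩] (.ddet 1 [⟨1, [(9, 1), (3, 1), (0, 1)]⟩] (.ndet 2 [⟨1, [(9, 1), (6, 1), (0,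 2)]⟩, ⟨1, [(9, 1), (3, 1), (0, 1)]⟩] (.ddet 0 [⟨1, []⟩] (.split [1, 1, -1] (-2000) (.leaf 0 [⟨1, [(10, 1), (4, 1), (1, 1)]⟩, ⟨1, [(0, 1)]⟩, ⟨1, [(10, 1), (4, 1), (1, 1), (0, 1)]⟩, ⟨1, [(0, 2)]⟩, ⟨1, [(0, 1)]⟩, ⟨1, []⟩, ⟨1, [(0, 1)]⟩, ⟨1, []⟩, ⟨1, [(8, 1)]⟩, ⟨1, []⟩, ⟨1, [(10, 1), (4, 1), (1, 1)]⟩, ⟨1, [(8, 1)]⟩, ⟨1, [(8, 2)]⟩, ⟨1, [(0, 2)]⟩, ⟨1, []⟩, ⟨1, [(0, 1)]⟩, ⟨1, [(8, 1)]⟩, ⟨1, []⟩, ⟨1, [(8, 1)]⟩, ⟨1, [(8, 2)]⟩, ⟨1, [(0, 2)]⟩, ⟨1, [(0, 1)]⟩, ⟨1, []⟩, ⟨1, [(0, 1)]⟩, ⟨1, []⟩, ⟨1, [(8, 1)]⟩, ⟨1, []⟩, ⟨1, [(8, 1)]⟩, ⟨1, [(8, 2)]⟩, ⟨2, [(13, 1), (7, 1)]⟩]) (.leaf 2 [⟨1, [(10, 1), (4, 1), (3, 1)]⟩, ⟨1, [(10,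 1), (4, 1), (1, 1)]⟩, ⟨1, [(0, 1)]⟩, ⟨1, [(9, 1)]⟩, ⟨1, []⟩, ⟨1, [(9, 1)]⟩, ⟨1, [(10, 1), (7, 1), (1, 2)]⟩, ⟨1, []⟩, ⟨1, []⟩, ⟨1, [(9, 1)]⟩, ⟨1, []⟩, ⟨1, [(9, 1)]⟩, ⟨1, []⟩, ⟨2, [(11, 1), (7, 1), (0, 1)]⟩])))))) .nil))
def s26_9_n2 : Node := ⟨[⟨[0, 0, 1, -1], -200⟩, ⟨[0, -1, 1], -200⟩, ⟨[-1, 0, 1], -200⟩, ⟨[1, 0, -1, -1], -1360⟩, ⟨[1, 1, -1, -1], 600⟩, ⟨[0, -1, 0, -1], -3360⟩, ⟨[1, -1, 0, -1], 179700⟩, ⟨[1, 1, -1], 1660⟩, ⟨[-1, -1, 1], -2340⟩, ⟨[1, 0, -1, 1], 652⟩, ⟨[1, 1, -1, 1], 2640⟩, ⟨[0, -1, 0, 1], -1360⟩, ⟨[0, 0, 0, 1], 680⟩], [0, 0, 1], 0, none, (.nbr (.cons (.ddet 1 [⟨1, [(12, 2), (8, 1), (4, 1)]⟩]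 (.ndet 2 [⟨1, [(12, 3), (8, 1), (4, 1)]⟩, ⟨1, [(12, 1), (8, 1), (2, 1)]⟩] s26_9_t6)) (.cons (.ddet 1 [⟨1, [(8, 1), (4, 1), (1, 2)]⟩] (.ndet 2 [⟨1, [(8, 1), (4, 1), (1, 2)]⟩, ⟨1, [(8, 1), (2, 1), (1, 1)]⟩] s26_9_t7)) (.cons (.prune [(12, 2), (10, 1), (8, 2), (4, 1), (1, 2)]) .nil))))⟩
def s26_9_t8 : Tree := .ndet 0 [⟨1, [(13, 1)]⟩, ⟨1, [(13, 1), (5, 1), (3, 1)]⟩] (.ddet 1 [⟨1, [(13, 1), (7, 1), (5, 1)]⟩] (.ndet 2 [⟨1, [(7, 1), (5, 1)]⟩, ⟨1, [(13, 1), (8, 1), (5, 1)]⟩] (.ddet 0 [⟨1, [(4, 1)]⟩] (.nbr (.cons (.ddet 1 [⟨1, [(15, 2), (9, 1), (7, 1)]⟩] (.leaf 1 [⟨1, [(1, 1)]⟩, ⟨1, [(9, 1), (7, 1)]⟩, ⟨1, [(15, 2),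 (9, 1), (7, 1)]⟩, ⟨1, [(1, 1)]⟩, ⟨1, [(1, 2)]⟩, ⟨1, [(1, 3)]⟩, ⟨1, []⟩, ⟨1, [(1, 2)]⟩, ⟨1, [(15, 1)]⟩, ⟨1, []⟩, ⟨1, [(1, 1)]⟩, ⟨1, []⟩, ⟨1, [(1, 1)]⟩, ⟨1, [(1, 2)]⟩, ⟨1, [(15, 1)]⟩, ⟨1, [(1, 1)]⟩, ⟨1, [(15, 2)]⟩, ⟨1, [(15, 1)]⟩, ⟨1, []⟩, ⟨1, []⟩, ⟨1, [(1, 1)]⟩, ⟨1, [(15, 2), (9, 1), (7, 1)]⟩, ⟨1, [(15, 1)]⟩, ⟨1, []⟩, ⟨1, [(15, 2)]⟩, ⟨1, [(15, 1)]⟩, ⟨1, [(1, 1)]⟩])) (.cons (.ddet 1 [⟨1, [(9, 1), (7, 1), (1, 2)]⟩] (.leaf 3 [⟨1, [(9, 1), (7, 1), (1, 1)]⟩, ⟨1, [(1, 1)]⟩, ⟨1, [(9, 1), (7, 1), (1, 2)]⟩, ⟨1, [(10, 2), (2, 2)]⟩, ⟨1, [(10, 1), (2, 1)]⟩, ⟨1, []⟩, ⟨1, []⟩, ⟨1, []⟩, ⟨1, [(10, 1), (2, 1)]⟩, ⟨1, [(9, 1),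 (7, 1)]⟩, ⟨1, []⟩, ⟨1, []⟩, ⟨1, []⟩, ⟨1, []⟩, ⟨1, []⟩])) (.cons (.prune [(15, 2), (11, 1), (9, 1), (7, 2), (1, 2)]) .nil)))))))
def s26_9_t9 : Tree := .ndet 0 [⟨1, [(2, 1)]⟩, ⟨1, [(5, 1), (1, 1)]⟩] (.ddet 1 [⟨1, [(5, 1), (3, 1), (0, 1)]⟩] (.ndet 2 [⟨1, [(7, 1), (5, 1), (0, 1)]⟩, ⟨1, [(5, 1), (0, 1)]⟩] (.ddet 0 [⟨1, [(4, 1)]⟩] (.nbr (.cons (.ddet 1 [⟨1, [(7, 1), (3, 1), (2, 1)]⟩] (.leaf 1 [⟨1, [(1, 1)]⟩, ⟨1, [(7, 1), (5, 1), (2, 1), (1, 1)]⟩, ⟨1, [(7, 1), (3, 1), (2, 1)]⟩, ⟨1, [(1, 1)]⟩, ⟨1, [(1, 2)]⟩, ⟨1, [(1, 3)]⟩, ⟨1, []⟩, ⟨1, [(1, 2)]⟩, ⟨1, [(4, 1)]⟩, ⟨1, []⟩, ⟨1, [(1, 1)]⟩, ⟨1, []⟩, ⟨1, [(1, 1)]⟩, ⟨1, [(1,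 2)]⟩, ⟨1, [(4, 1)]⟩, ⟨1, [(1, 1)]⟩, ⟨1, [(4, 2)]⟩, ⟨1, [(4, 1)]⟩, ⟨1, []⟩, ⟨1, []⟩, ⟨1, [(1, 1)]⟩, ⟨1, [(7, 1), (3, 1), (2, 1)]⟩, ⟨1, [(4, 1)]⟩, ⟨1, []⟩, ⟨1, [(4, 2)]⟩, ⟨1, [(4, 1)]⟩, ⟨3, [(13, 1), (12, 1), (1, 1)]⟩])) (.cons (.ddet 1 [⟨1, [(7, 1), (5, 1), (2, 1), (1, 1)]⟩] (.leaf 3 [⟨1, [(7, 1), (5, 1), (2, 1)]⟩, ⟨1, [(1, 1)]⟩, ⟨1, [(7, 1), (5, 1), (2, 1), (1, 1)]⟩, ⟨1, [(10, 2)]⟩, ⟨1, [(10, 1)]⟩, ⟨1, []⟩, ⟨1, []⟩, ⟨1, []⟩, ⟨1, [(10, 1)]⟩, ⟨1, [(9, 1), (7, 1), (2, 1)]⟩, ⟨1, []⟩, ⟨1, []⟩, ⟨1, []⟩, ⟨1, []⟩, ⟨3, [(13, 1), (8, 1), (1, 1)]⟩])) (.cons (.prune [(15, 1), (7, 1), (0, 1)]) .nil)))))))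
def s26_9_n3 : Node := ⟨[⟨[0, 0, -1, 1], -200⟩, ⟨[0, -1, 0, 1], -200⟩, ⟨[-1, 0, 0, 1], -200⟩, ⟨[1, 1, -1, -1], -2074⟩, ⟨[-1, 1, 0, -1], -1359⟩, ⟨[-1, 1, 1, -1], 640⟩, ⟨[0, 1, 1, -1], 1660⟩, ⟨[1, 1, 1, -1], 2640⟩, ⟨[-1, 0, -1], -3360⟩, ⟨[-1, 1, -1], 179700⟩, ⟨[-1], -1320⟩, ⟨[1], 680⟩, ⟨[0, -1, -1, 1], -2340⟩, ⟨[1, -1, -1, 1], -1329⟩], [0, 0, 0, 1], 0, none, (.ndet 2 [⟨1, [(12, 2), (7, 1), (4, 1)]⟩, ⟨1, [(12, 1), (4, 1), (2, 1)]⟩] (.dbr (.cons s26_9_t8 (.cons s26_9_t9 .nil))))⟩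
def s26_9 : Sys := ⟨[(1, 0), (3, 0), (4, 2000)], [(0, 1000), (3, -1000)], 4, [s26_9_n0, s26_9_n1, s26_9_n2, s26_9_n3], [2000, 223493, 1000, 222493], (.leaf 1 [⟨1, []⟩, ⟨1, []⟩, ⟨1, []⟩, ⟨1, []⟩, ⟨1, []⟩, ⟨1, []⟩, ⟨1, []⟩, ⟨1, []⟩, ⟨1, []⟩, ⟨1, []⟩, ⟨1, []⟩, ⟨1, []⟩, ⟨1, []⟩, ⟨1, []⟩, ⟨1, []⟩, ⟨1, []⟩, ⟨1, []⟩, ⟨1, []⟩, ⟨1, []⟩, ⟨1, []⟩, ⟨1, []⟩, ⟨1, []⟩, ⟨1, []⟩, ⟨1, []⟩, ⟨1, []⟩, ⟨1, []⟩])⟩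

theorem s26_9_ok : s26_9.ok = true := by decide +kernel

def s27_22_n0 : Node := ⟨[⟨[1], 88⟩, ⟨[1, 0, -1], 80⟩, ⟨[1, 0, 0, -1], 8⟩, ⟨[1, -1], 128⟩, ⟨[1, 0, 0, -1], 0⟩, ⟨[0, -1], 48⟩, ⟨[0, 0, -1], -8⟩, ⟨[2], 176⟩, ⟨[1, -1], 136⟩, ⟨[1], 104⟩, ⟨[0, -1], 56⟩], [1], 0, none, (.ndet 1 [⟨1, [(1, 1)]⟩, ⟨1, [(4, 1), (1, 1)]⟩, ⟨1, [(8, 1)]⟩] (.ddet 0 [⟨1, [(1, 1), (0, 1)]⟩, ⟨1, [(8, 1)]⟩] (.ndet 0 [⟨1, []⟩, ⟨1, [(0, 1)]⟩, ⟨1, [(4, 1)]⟩] (.ddet 1 [⟨1, [(1, 1)]⟩, ⟨1, [(4, 1), (1, 1)]⟩] (.ndet 2 [⟨1, [(1, 1)]⟩, ⟨1, [(1, 2)]⟩, ⟨1, [(1, 1), (0, 1)]⟩] (.ddet 1 [⟨1, [(1, 1)]⟩, ⟨1, [(0, 1)]⟩] (.leaf 0 [⟨1, [(1, 1)]⟩, ⟨1, [(1,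 1)]⟩, ⟨1, []⟩, ⟨1, [(1, 2)]⟩, ⟨1, []⟩, ⟨1, [(1, 1)]⟩, ⟨1, []⟩, ⟨1, [(1, 2)]⟩, ⟨1, [(1, 2)]⟩, ⟨1, [(1, 1)]⟩, ⟨1, [(1, 1)]⟩, ⟨1, []⟩])))))))⟩
def s27_22 : Sys := ⟨[(0, 16), (1, 0), (3, 0), (4, 0)], [(1, 0), (2, -16), (4, -16)], 4, [s27_22_n0], [160, -112, 0, 144], (.leaf 0 [⟨1, []⟩, ⟨1, []⟩, ⟨1, []⟩, ⟨1, []⟩, ⟨1, []⟩, ⟨1, []⟩, ⟨1, []⟩, ⟨1, []⟩, ⟨1, []⟩, ⟨1, []⟩, ⟨1, []⟩])⟩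

theorem s27_22_ok : s27_22.ok = true := by decide +kernel

def s27_23_n0 : Node := ⟨[⟨[0, 0, 1], 136⟩, ⟨[-1, 0, 1], 256⟩, ⟨[0, 0, 1, -1], 168⟩, ⟨[-1], 176⟩, ⟨[0, -1], 24⟩, ⟨[0, 0, 0, -1], -56⟩, ⟨[0, -1, 1], 208⟩, ⟨[0, 0, 1], 80⟩, ⟨[-1, 0, 1], 216⟩, ⟨[-1], 184⟩, ⟨[0, 0, 1], 120⟩, ⟨[0, -1, 1], 56⟩, ⟨[0, 0, 1], 176⟩, ⟨[0, 0, 1], 184⟩], [0, 0, 1], 0, none, (.ndet 2 [⟨1, [(0, 1)]⟩, ⟨1, [(4, 1), (0, 1)]⟩, ⟨1, [(11, 1)]⟩] (.ddet 0 [⟨1, [(4, 1)]⟩, ⟨1, [(9, 1)]⟩, ⟨1, [(8, 1)]⟩] (.ndet 1 [⟨1, [(0, 1)]⟩, ⟨1, [(7, 1)]⟩, ⟨1, []⟩] (.ddet 1 [⟨1, [(0, 1)]⟩, ⟨1, [(4, 1), (0, 1)]⟩, ⟨1, []⟩] (.ndet 0 [⟨1, []⟩, ⟨1, [(4, 1)]⟩,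 ⟨1, [(9, 1)]⟩] (.ddet 2 [⟨1, [(0, 1)]⟩, ⟨1, [(0, 1)]⟩, ⟨1, [(7, 1)]⟩] (.leaf 0 [⟨1, [(0, 1)]⟩, ⟨1, [(0, 2)]⟩, ⟨1, [(4, 1), (0, 1)]⟩, ⟨1, [(0, 1)]⟩, ⟨1, []⟩, ⟨1, [(4, 1)]⟩, ⟨1, [(0, 1)]⟩, ⟨1, [(0, 1)]⟩, ⟨1, [(0, 2)]⟩, ⟨1, [(0, 1)]⟩, ⟨1, [(0, 1)]⟩, ⟨1, [(0, 1)]⟩, ⟨1, [(0, 1)]⟩, ⟨1, [(0, 1)]⟩, ⟨1, []⟩])))))))⟩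
def s27_23 : Sys := ⟨[(0, 96), (1, 48), (3, 176), (4, 80)], [(0, 48), (1, 112), (2, 32), (4, -144)], 4, [s27_23_n0], [-288, -64, 352, -80], (.leaf 0 [⟨1, []⟩, ⟨1, []⟩, ⟨1, []⟩, ⟨1, []⟩, ⟨1, []⟩, ⟨1, []⟩, ⟨1, []⟩, ⟨1, []⟩, ⟨1, []⟩, ⟨1, []⟩, ⟨1, []⟩, ⟨1, []⟩, ⟨1, []⟩, ⟨1, []⟩])⟩

theorem s27_23_ok : s27_23.ok = true := by decide +kernel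

def s29_13_n0 : Node := ⟨[⟨[0, 1], 64⟩, ⟨[0, 1, -1], 48⟩, ⟨[0, 1, 0, -1], 64⟩, ⟨[0, 1], 48⟩, ⟨[0, 1, -1], 32⟩, ⟨[0, 1], 56⟩, ⟨[-1, 1], 48⟩, ⟨[0, 1, -1], 40⟩, ⟨[-1, 1], 64⟩, ⟨[-1, 1], 56⟩, ⟨[-1], -8⟩, ⟨[0, 1], 72⟩], [0, 1], 0, none, (.ndet 1 [⟨1, [(0, 1)]⟩, ⟨1, [(10, 1)]⟩, ⟨1, [(9, 1)]⟩] (.ddet 1 [⟨1, [(0, 1)]⟩, ⟨1, [(10, 1)]⟩] (.ndet 2 [⟨1, [(0, 1)]⟩, ⟨1, [(3, 1)]⟩, ⟨1, [(10, 1)]⟩] (.ddet 2 [⟨1, [(0, 1)]⟩, ⟨1, [(3, 1)]⟩] (.ndet 3 [⟨1, [(0, 1)]⟩, ⟨1, [(0, 1)]⟩, ⟨1, [(3, 1)]⟩] (.ddet 1 [⟨1, []⟩, ⟨1, [(1, 1)]⟩] (.ndet 1 [⟨1, []⟩, ⟨1, []⟩, ⟨1, [(1, 1)]⟩] (.ddet 1 [⟨1, []⟩, ⟨1, []⟩] (.leaf 0 [⟨1, [(0, 1)]⟩, ⟨1,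 [(0, 1)]⟩, ⟨1, [(0, 1)]⟩, ⟨1, [(0, 1)]⟩, ⟨1, [(0, 1)]⟩, ⟨1, [(0, 1)]⟩, ⟨1, [(0, 1)]⟩, ⟨1, [(0, 1)]⟩, ⟨1, [(0, 1)]⟩, ⟨1, [(0, 1)]⟩, ⟨1, []⟩, ⟨1, [(0, 1)]⟩, ⟨1, []⟩])))))))))⟩
def s29_13 : Sys := ⟨[(0, 16), (2, 0), (3, 16), (4, 16)], [(0, -16), (2, 0), (3, -16)], 4, [s29_13_n0], [0, 112, 32, 0], (.leaf 0 [⟨1, []⟩, ⟨1, []⟩, ⟨1, []⟩, ⟨1, []⟩, ⟨1, []⟩, ⟨1, []⟩, ⟨1, []⟩, ⟨1, []⟩, ⟨1, []⟩, ⟨1, []⟩, ⟨1, []⟩, ⟨1, []⟩])⟩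

theorem s29_13_ok : s29_13.ok = true := by decide +kernel

def s31_11_n0 : Node := ⟨[⟨[1], 48⟩, ⟨[1, -1], 72⟩, ⟨[1, 0, -1], 8⟩, ⟨[1, 0, 0, -1], 72⟩, ⟨[1], 40⟩, ⟨[1, 0, -1], 0⟩, ⟨[1, -1], 56⟩, ⟨[0, -1], 8⟩], [1], 0, none, (.ndet 1 [⟨1, [(7, 1)]⟩, ⟨1, [(6, 1)]⟩, ⟨1, [(5, 1)]⟩, ⟨1, [(4, 1)]⟩] (.ddet 1 [⟨1, [(7, 1)]⟩, ⟨1, [(5, 1)]⟩] (.ndet 2 [⟨1, [(7, 1)]⟩, ⟨1, [(7, 1)]⟩, ⟨1, [(6, 1)]⟩, ⟨1, [(5, 1)]⟩] (.ddet 1 [⟨1, []⟩, ⟨1, [(0, 1)]⟩] (.leaf 0 [⟨1, [(7, 1)]⟩, ⟨1, [(7, 1)]⟩, ⟨1, []⟩, ⟨1, [(6, 1)]⟩, ⟨1, [(7, 1)]⟩, ⟨1, []⟩, ⟨1, [(7, 1)]⟩, ⟨1, []⟩, ⟨1, []⟩])))))⟩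
def s31_11 : Sys := ⟨[(0, -16), (1, 0), (2, 16), (3, 0), (4, 16)], [(0, -16), (1, 16), (3, 0)], 4, [s31_11_n0], [112, -16, 96, -16], (.leaf 0 [⟨1, []⟩, ⟨1, []⟩, ⟨1, []⟩, ⟨1, []⟩, ⟨1, []⟩, ⟨1, []⟩, ⟨1, []⟩, ⟨1, []⟩])⟩

theorem s31_11_ok : s31_11.ok = true := by decide +kernel

end Pool.Agent.H81.RDE.Data
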