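import Pool.Agent.H81.RDE.System

/-! Data file (generated): certificates. -/

set_option maxRecDepth 100000

namespace Pool.Agent.H81.RDE.Data

def s2_28_t0 : Tree := .ddet 2 [⟨4, [(1, 3), (0, 2)]⟩, ⟨4, [(1, 1), (0, 2)]⟩] (.ndet 0 [] (.ddet 2 [⟨1, [(1, 1)]⟩, ⟨2, [(1, 1)]⟩] (.ndet 0 [] (.ddet 2 [⟨1, [(1, 1)]⟩, ⟨2, [(1, 1)]⟩] (.ndet 0 [] (.ddet 2 [⟨2, [(5, 2), (1, 1)]⟩, ⟨2, [(1, 1)]⟩] (.ndet 0 [] (.ddet 0 [⟨4, [(1, 1), (0, 2)]⟩, ⟨1, [(0, 1)]⟩] (.leaf 0 [⟨4, [(1, 3), (0, 2)]⟩, ⟨1, [(1, 1), (0, 1)]⟩, ⟨1, [(5, 1), (1, 1)]⟩, ⟨1, [(1, 2)]⟩, ⟨1, [(5, 2)]⟩, ⟨1, [(5, 3), (1, 1)]⟩, ⟨4, [(1, 3), (0, 2)]⟩, ⟨1, [(1, 2)]⟩, ⟨1, [(5, 2), (1, 2)]⟩, ⟨4, [(1, 1), (0, 6)]⟩, ⟨2, [(1, 1)]⟩])))))))))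
def s2_28_t1 : Tree := .ndet 0 [] (.ddet 0 [⟨1, [(9, 1)]⟩, ⟨1, [(8, 1)]⟩] (.ndet 0 [] (.ddet 0 [⟨2, [(1, 1)]⟩, ⟨2, [(9, 2), (1, 1)]⟩] (.ndet 0 [] (.ddet 0 [⟨1, [(5, 1)]⟩, ⟨2, [(5, 2), (1, 1)]⟩] (.ndet 0 [] (.ddet 1 [⟨4, [(1, 1), (0, 2)]⟩, ⟨1, [(5, 1)]⟩] (.ndet 0 [] s2_28_t0))))))))
def s2_28_n0 : Node := ⟨[⟨[0, 1, -1], 1416⟩, ⟨[0, 1, 0, -1], 1880⟩, ⟨[1, -1], 2368⟩, ⟨[1, 0, -1], 3784⟩, ⟨[0, -1], 960⟩, ⟨[1, -2], 3328⟩, ⟨[1], 1408⟩, ⟨[2, -1], 3776⟩, ⟨[2, -2], 4736⟩, ⟨[1, 1], 448⟩], [1], 0, none, s2_28_t1⟩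
def s2_28 : Sys := ⟨[(1, 0)], [(2, -16), (3, -16), (4, -16)], 4, [s2_28_n0], [2800, -1936, -4768, -5696], (.leaf 0 [⟨1, []⟩, ⟨1, []⟩, ⟨1, []⟩, ⟨1, []⟩, ⟨1, []⟩, ⟨1, []⟩, ⟨1, []⟩, ⟨1, []⟩, ⟨1, []⟩, ⟨1, []⟩])⟩

theorem s2_28_ok : s2_28.ok = true := by decide +kernel

def s6_2_n0 : Node := ⟨[⟨[-1, 1], 0⟩, ⟨[-2, 1], 56⟩, ⟨[-1], 24⟩], [0, 1], 0, none, (.ndet 1 [⟨1, [(2, 1)]⟩] (.ddet 0 [] (.ndet 0 [⟨1, [(1, 1)]⟩] (.ddet 0 [] (.leaf 0 [⟨1, [(2, 1)]⟩, ⟨1, [(2, 1)]⟩, ⟨1, []⟩, ⟨1, [(0, 1)]⟩])))))⟩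
def s6_2 : Sys := ⟨[(1, -32), (2, 0)], [(1, 16)], 2, [s6_2_n0], [-32, 0, 0, 0], (.leaf 0 [⟨1, []⟩, ⟨1, []⟩, ⟨1, []⟩])⟩

theorem s6_2_ok : s6_2.ok = true := by decide +kernel

def s8_6_t0 : Tree := .ndet 0 [] (.ddet 1 [⟨1, [(7, 3), (6, 2), (4, 3), (0, 5)]⟩] (.ndet 0 [] (.dbr (.cons (.ndet 0 [] (.ddet 0 [⟨1, [(7, 8), (5, 5), (1, 8), (0, 3)]⟩] (.leaf 1 [⟨1, [(7, 8), (5, 5), (1, 8), (0, 4)]⟩, ⟨1, [(7, 8), (5, 5), (1, 8), (0, 3)]⟩, ⟨1, [(7, 13), (5, 8), (1, 13), (0, 6)]⟩, ⟨1, [(7, 1), (5, 1), (1, 1), (0, 1)]⟩, ⟨1, []⟩, ⟨1, [(7, 3), (5, 2), (1, 3), (0, 3)]⟩, ⟨1, [(4, 1)]⟩, ⟨1, [(4, 1)]⟩, ⟨1, []⟩, ⟨1, [(7, 2), (5, 1), (1, 2)]⟩, ⟨1, [(7, 2), (5, 1), (1, 2), (0, 1)]⟩, ⟨1, [(7, 3), (5, 2), (1, 3), (0, 1)]⟩]))) (.cons (.ndet 0 [] (.ddet 0 [⟨1,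 [(8, 4), (7, 4), (5, 5), (1, 8)]⟩] (.leaf 1 [⟨1, [(8, 5), (7, 3), (5, 5), (1, 8)]⟩, ⟨1, [(8, 4), (7, 4), (5, 5), (1, 8)]⟩, ⟨1, [(8, 8), (7, 5), (5, 8), (1, 13)]⟩, ⟨1, [(7, 1), (5, 1), (1, 1)]⟩, ⟨1, []⟩, ⟨1, [(8, 3), (5, 2), (1, 3)]⟩, ⟨1, [(0, 1)]⟩, ⟨1, [(0, 1)]⟩, ⟨1, []⟩, ⟨1, [(8, 1), (7, 1), (5, 1), (1, 2)]⟩, ⟨1, [(8, 2), (5, 1), (1, 2)]⟩, ⟨1, [(8, 2), (7, 1), (5, 2), (1, 3)]⟩]))) .nil)))))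
def s8_6_n0 : Node := ⟨[⟨[1, 0, 0, -1], -200⟩, ⟨[1, 0, -1], -200⟩, ⟨[1, -1], -200⟩, ⟨[0, 0, -1, -1], 239700⟩, ⟨[0, -1, 0, -1], 239700⟩, ⟨[1, 0, 1, -1], -160694⟩, ⟨[-1, -1, -1], 239700⟩, ⟨[0, -1, 1], -166674⟩, ⟨[0, 1, -1, 1], 239700⟩, ⟨[-1, -1, 0, 1], -6320⟩, ⟨[1, 1, 1, 1], 239700⟩], [1], 0, none, (.ndet 0 [] (.ddet 0 [⟨1, [(7, 1), (6, 2), (4, 2), (0, 3)]⟩] s8_6_t0))⟩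
def s8_6_t1 : Tree := .dbr (.cons (.ndet 0 [] (.ddet 0 [⟨1, [(8, 5), (7, 3), (2, 5), (1, 3)]⟩] (.ndet 0 [] (.ddet 1 [⟨1, [(8, 8), (7, 5), (2, 7), (1, 6)]⟩] (.leaf 2 [⟨1, [(8, 5), (7, 3), (2, 5), (1, 3)]⟩, ⟨1, [(8, 8), (7, 5), (2, 7), (1, 6)]⟩, ⟨1, [(8, 8), (7, 5), (2, 8), (1, 5)]⟩, ⟨1, [(8, 2), (7, 1), (2, 3)]⟩, ⟨1, []⟩, ⟨1, [(5, 1)]⟩, ⟨1, [(8, 2), (7, 1), (2, 1), (1, 2)]⟩, ⟨1, [(8, 2), (7, 1), (2, 2), (1, 1)]⟩, ⟨1, [(5, 1)]⟩, ⟨1, []⟩, ⟨1, [(8, 1), (7, 1), (1, 2)]⟩, ⟨1, [(8, 1), (7, 1), (2, 2)]⟩, ⟨1, [(8, 2), (7, 1), (2, 2), (1, 1)]⟩]))))) (.cons (.ndet 0 [] (.ddet 0 [⟨1, [(8, 5), (7, 3), (1, 8), (0, 4)]⟩] (.ndet 0 [] (.ddet 1 [⟨1, [(8, 8), (7, 5), (1, 13), (0, 5)]⟩] (.leaf 2 [⟨1, [(8, 5), (7, 3), (1, 8), (0, 4)]⟩, ⟨1, [(8, 8), (7,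 5), (1, 13), (0, 5)]⟩, ⟨1, [(8, 8), (7, 5), (1, 13), (0, 6)]⟩, ⟨1, [(8, 2), (7, 1), (1, 3), (0, 3)]⟩, ⟨1, []⟩, ⟨1, [(0, 1)]⟩, ⟨1, [(8, 2), (7, 1), (1, 3), (0, 1)]⟩, ⟨1, [(8, 2), (7, 1), (1, 3), (0, 2)]⟩, ⟨1, [(0, 1)]⟩, ⟨1, []⟩, ⟨1, [(6, 1), (1, 1)]⟩, ⟨1, [(8, 1), (7, 1), (1, 2), (0, 1)]⟩, ⟨1, [(8, 2), (7, 1), (1, 3), (0, 1)]⟩]))))) .nil))
def s8_6_n1 : Node := ⟨[⟨[0, 1, 0, -1], -200⟩, ⟨[0, 1, -1], -200⟩, ⟨[-1, 1], -200⟩, ⟨[0, -1, -1, -1], 239700⟩, ⟨[1, 1, 0, -1], 5680⟩, ⟨[-1, -1, 1, -1], 239700⟩, ⟨[1, 1, -1], -160654⟩, ⟨[0, 0, -1, 1], -166674⟩, ⟨[-1, -1, 0, 1], -6320⟩, ⟨[0, 1, 0, 1], 239700⟩, ⟨[-1, 0, 1, 1], 239700⟩], [0, 1], 0, none, (.ndet 0 [] (.ddet 1 [⟨1, [(7, 3), (6, 2), (1, 2), (0, 3)]⟩] (.ndet 0 [] s8_6_t1)))⟩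
def s8_6_t2 : Tree := .dbr (.cons (.ndet 0 [] (.ddet 0 [⟨1, [(8, 3), (5, 5), (1, 3), (0, 3)]⟩] (.ndet 0 [] (.ddet 1 [⟨1, [(8, 5), (5, 8), (1, 5), (0, 6)]⟩] (.ndet 0 [] (.dbr (.cons (.leaf 0 [⟨1, [(10, 3), (6, 2), (2, 3), (0, 6)]⟩, ⟨1, [(10, 8), (6, 5), (2, 8), (0, 17)]⟩, ⟨1, [(10, 8), (6, 5), (2, 8), (0, 16)]⟩, ⟨1, [(10, 1), (6, 1), (2, 1), (0, 3)]⟩, ⟨1, [(10, 1), (6, 1), (2, 1), (0, 2)]⟩, ⟨1, [(5, 1)]⟩, ⟨1, [(10, 1), (6, 1), (2, 1), (0, 3)]⟩, ⟨1, [(5, 1)]⟩, ⟨1, [(10, 2), (6, 1), (2, 2), (0, 5)]⟩, ⟨1, []⟩, ⟨1, [(10, 1), (2, 1), (0, 1)]⟩, ⟨1, [(10, 4), (6, 3), (2, 4), (0, 8)]⟩]) (.cons (.leaf 0 [⟨1, [(9, 3), (6, 5), (2, 3), (1, 4)]⟩, ⟨1, [(9, 8), (6, 13), (2, 8), (1, 10)]⟩, ⟨1, [(9, 8), (6, 13), (2, 8), (1, 9)]⟩, ⟨1, [(9, 1), (6,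 2), (2, 1), (1, 2)]⟩, ⟨1, [(9, 1), (6, 2), (2, 1), (1, 1)]⟩, ⟨1, []⟩, ⟨1, [(9, 1), (6, 2), (2, 1), (1, 1)]⟩, ⟨1, [(0, 1)]⟩, ⟨1, [(9, 2), (6, 3), (2, 2), (1, 3)]⟩, ⟨1, [(0, 1)]⟩, ⟨1, [(9, 1), (6, 1), (2, 1), (1, 1)]⟩, ⟨1, [(9, 4), (6, 7), (2, 4), (1, 5)]⟩]) .nil)))))))) (.cons (.ndet 0 [] (.ddet 0 [⟨1, [(8, 3), (6, 4), (5, 1), (1, 3)]⟩] (.ndet 0 [] (.ddet 1 [⟨1, [(8, 5), (6, 8), (1, 5)]⟩] (.ndet 0 [] (.ddet 1 [⟨1, [(0, 1)]⟩] (.leaf 0 [⟨1, [(8, 3), (6, 5), (1, 3)]⟩, ⟨1, [(8, 8), (6, 13), (1, 8)]⟩, ⟨1, [(8, 8), (6, 12), (5, 1), (1, 8)]⟩, ⟨1, [(8, 1), (6, 2), (1, 1)]⟩, ⟨1, [(8, 1), (6, 1), (5, 1), (1, 1)]⟩, ⟨1, []⟩, ⟨1, [(8, 1), (6, 1), (5, 1), (1, 1)]⟩, ⟨1, [(0, 1)]⟩, ⟨2, [(8, 4), (6, 6), (2, 1), (1, 3)]⟩, ⟨1, [(0, 1)]⟩, ⟨2, [(8, 2),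 (6, 2), (2, 1), (1, 1)]⟩, ⟨1, [(8, 4), (6, 7), (1, 4)]⟩]))))))) .nil))
def s8_6_n2 : Node := ⟨[⟨[0, 0, 1, -1], -200⟩, ⟨[0, -1, 1], -200⟩, ⟨[-1, 0, 1], -200⟩, ⟨[-1, 1, 0, -1], 239700⟩, ⟨[1, 0, 1, -1], 3680⟩, ⟨[0, 1, 1, -1], -160654⟩, ⟨[0, -1, -1], 239700⟩, ⟨[-1, 0, -1], 239700⟩, ⟨[-1, 1], -164634⟩, ⟨[-1, 0, -1, 1], -4320⟩, ⟨[1, -1, 1, 1], 239700⟩, ⟨[-1, 1, 1, 1], 239700⟩], [0, 0, 1], 0, none, (.ndet 0 [] s8_6_t2)⟩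
def s8_6 : Sys := ⟨[(3, 3000)], [(1, -3000), (2, -1000)], 4, [s8_6_n0, s8_6_n1, s8_6_n2], [-2454602, 1519113, -930295, -941489], (.leaf 1 [⟨1, []⟩, ⟨1, []⟩, ⟨1, []⟩, ⟨1, []⟩, ⟨1, []⟩, ⟨1, []⟩, ⟨1, []⟩, ⟨1, []⟩, ⟨1, []⟩, ⟨1, []⟩, ⟨1, []⟩])⟩

theorem s8_6_ok : s8_6.ok = true := by decide +kernel

def s12_9_n0 : Node := ⟨[⟨[0, 1, -1], 8⟩, ⟨[0, 0, -1], -16⟩, ⟨[-1, 1], 80⟩, ⟨[0, 1], 56⟩, ⟨[-1], -8⟩], [0, 1], 0, none, (.ndet 0 [⟨1, [(3, 1), (1, 1)]⟩] (.ddet 0 [⟨1, [(3, 1)]⟩] (.ndet 1 [⟨1, [(2, 1)]⟩] (.ddet 1 [⟨1, [(1, 1)]⟩] (.leaf 0 [⟨1, [(2, 1)]⟩, ⟨1, [(0, 1)]⟩, ⟨1, [(1, 1)]⟩, ⟨1, [(1, 1)]⟩, ⟨1, []⟩, ⟨1, []⟩])))))⟩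
def s12_9 : Sys := ⟨[(2, 32), (3, -32)], [(0, 16), (3, -16)], 3, [s12_9_n0], [-16, 80, 0, 0], (.leaf 0 [⟨1, []⟩, ⟨1, []⟩, ⟨1, []⟩, ⟨1, []⟩, ⟨1, []⟩])⟩

theorem s12_9_ok : s12_9.ok = true := by decide +kernel

def s13_8_n0 : Node := ⟨[⟨[0, 0, 1], 77⟩, ⟨[0, -1, 1], 93⟩, ⟨[1], 64⟩, ⟨[1, -1], 64⟩, ⟨[0, -1], -16⟩, ⟨[1], 80⟩, ⟨[1], 96⟩], [1], 0, none, (.ndet 2 [⟨1, [(6, 1)]⟩, ⟨1, [(5, 1)]⟩] (.ddet 0 [] (.ndet 1 [⟨1, [(0, 1)]⟩, ⟨1, [(2, 1), (0, 1)]⟩] (.ddet 0 [] (.leaf 0 [⟨1, [(0, 1)]⟩, ⟨1, [(0, 1)]⟩, ⟨1, [(2, 1), (0, 1)]⟩, ⟨1, [(2, 1), (0, 1)]⟩, ⟨1, []⟩, ⟨1, [(2, 1), (0, 1)]⟩, ⟨1, [(2, 1), (0, 1)]⟩, ⟨1, [(2, 1)]⟩])))))⟩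
def s13_8 : Sys := ⟨[(0, -32), (2, 0), (3, -32)], [(3, -32)], 3, [s13_8_n0], [128, 0, 176, 0], (.leaf 0 [⟨1, []⟩, ⟨1, []⟩, ⟨1, []⟩, ⟨1, []⟩, ⟨1, []⟩, ⟨1, []⟩, ⟨1, []⟩])⟩

theorem s13_8_ok : s13_8.ok = true := by decide +kernel

def s14_11_n0 : Node := ⟨[⟨[1, -1], 144⟩, ⟨[1, 0, -1], -32⟩, ⟨[1], -96⟩, ⟨[1, 0, -1], -8⟩, ⟨[1], -160⟩, ⟨[1, -1], 16⟩, ⟨[0, -1], 176⟩], [1], 0, none, (.ndet 0 [⟨1, [(6, 1)]⟩, ⟨1, [(3, 1)]⟩] (.ddet 1 [⟨1, [(4, 1)]⟩, ⟨1, [(3, 1)]⟩] (.ndet 1 [⟨1, [(4, 1)]⟩, ⟨1, [(6, 1)]⟩] (.ddet 0 [⟨1, []⟩, ⟨1, [(0, 1)]⟩] (.leaf 0 [⟨1, [(4, 1)]⟩, ⟨1, []⟩, ⟨1, [(4, 1)]⟩, ⟨1, []⟩, ⟨1, [(4, 1)]⟩, ⟨1, [(4, 1)]⟩, ⟨1, []⟩, ⟨1, []⟩])))))⟩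
def s14_11 : Sys := ⟨[(1, -48), (2, 32), (3, -144)], [(0, 0), (1, 176), (3, 128)], 3, [s14_11_n0], [-16, -224, -48, 0], (.leaf 0 [⟨1, []⟩, ⟨1, []⟩, ⟨1, []⟩, ⟨1, []⟩, ⟨1, []⟩, ⟨1, []⟩, ⟨1, []⟩])⟩

theorem s14_11_ok : s14_11.ok = true := by decide +kernel

def s15_10_n0 : Node := ⟨[⟨[0, 1], -8⟩, ⟨[-1, 1], 32⟩, ⟨[0, 1, -1], 48⟩, ⟨[1, 0, -1], -24⟩, ⟨[-1, 1], 40⟩, ⟨[-2, 1], 104⟩, ⟨[-1], 40⟩, ⟨[-1], 0⟩, ⟨[-1], 24⟩], [0, 1], 0, none, (.ndet 2 [⟨1, [(8, 1)]⟩, ⟨2, [(8, 1), (3, 1)]⟩, ⟨1, [(6, 1)]⟩] (.ddet 0 [⟨1, [(5, 1)]⟩] (.ndet 1 [⟨2, [(8, 1), (3, 1)]⟩, ⟨1, [(3, 1)]⟩, ⟨1, [(2, 1)]⟩] (.ddet 0 [⟨1, [(2, 1)]⟩] (.leaf 0 [⟨2, [(8, 1), (3, 1)]⟩, ⟨2, [(8, 1), (3, 1)]⟩, ⟨1, [(3, 1)]⟩, ⟨1, [(2, 1)]⟩, ⟨2, [(8, 1), (3, 1)]⟩, ⟨2, [(8, 1), (3, 1)]⟩,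 ⟨1, []⟩, ⟨1, []⟩, ⟨1, []⟩, ⟨1, [(2, 1)]⟩])))))⟩
def s15_10 : Sys := ⟨[(0, -80), (1, -48), (2, 0), (3, -16)], [(1, 0), (3, -48)], 3, [s15_10_n0], [-48, 64, -48, 0], (.leaf 0 [⟨1, []⟩, ⟨1, []⟩, ⟨1, []⟩, ⟨1, []⟩, ⟨1, []⟩, ⟨1, []⟩, ⟨1, []⟩, ⟨1, []⟩, ⟨1, []⟩])⟩

theorem s15_10_ok : s15_10.ok = true := by decide +kernel

def s16_12_t0 : Tree := .ddet 1 [⟨238753354, [(13, 8092452), (12, 727983725), (11, 8508686), (4, 716972925), (0, 573380606)]⟩] (.ndet 0 [] (.ddet 1 [⟨28894, [(11, 13151), (10, 604827273), (7, 2465677), (5, 182744), (1, 196583)]⟩] (.leaf 0 [⟨238753354, [(13, 8092452), (12, 727983725), (11, 8508686), (4, 716972925), (0, 573380606)]⟩, ⟨375622, [(11, 244275), (10, 11313321781), (7, 46120841), (5, 3416756), (1, 1319893)]⟩,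 ⟨375622, [(11, 212557), (10, 9855622549), (7, 40178281), (5, 2976318), (1, 1336867)]⟩, ⟨375622, [(11, 9759), (10, 409734823), (7, 1670227), (5, 124536), (1, 1412757)]⟩, ⟨19966, [(11, 5870), (10, 252582564), (7, 946611), (6, 82755), (5, 76200)]⟩, ⟨19966, [(11, 8062), (10, 434522866), (7, 1233595), (6, 536141), (5, 127308)]⟩, ⟨375622, [(11, 292897), (10, 13425967093), (7, 54733081), (5, 4057320), (1, 271387)]⟩, ⟨3590276, [(12, 25728759), (11, 1645352), (4, 25205847), (3, 822340), (0, 344520008)]⟩, ⟨1, []⟩, ⟨1, []⟩, ⟨375622, [(11, 1152009), (10, 56529742385), (7, 230459125), (5, 17017846), (1, 44280429)]⟩, ⟨375622, [(11, 39387), (10, 2015241127), (7, 8215987), (5, 605160), (1, 436897)]⟩, ⟨375622, [(11, 205529), (10, 9735845237), (7,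 39690521), (5, 2936400), (1, 791039)]⟩, ⟨375622, [(11, 241009), (10, 8809659779), (7, 35908015), (5, 2703508), (1, 1598567)]⟩, ⟨375622, [(11, 371671), (10, 17456449347), (7, 71165055), (5, 5267640), (1, 1145181)]⟩, ⟨375622, [(11, 407151), (10, 16530263889), (7, 67382549), (5, 5034748), (1, 1952709)]⟩, ⟨187811, [(11, 40551), (10, 1872638764), (7, 7633821), (5, 565166), (1, 93527)]⟩])))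
def s16_12_t1 : Tree := .ndet 0 [] (.ddet 1 [⟨375622, [(11, 83071), (10, 3860302055), (7, 15737267), (5, 1165620), (1, 177071)]⟩] (.ndet 0 [] (.ddet 1 [⟨375622, [(11, 41477), (10, 1867434055), (7, 7612787), (5, 564974), (1, 1395783)]⟩] (.ndet 0 [] (.ddet 0 [⟨9983, [(11, 754), (10, 33543789), (7, 128228), (6, 8487), (5, 10111)]⟩] (.ndet 0 [] (.ddet 0 [⟨187811, [(11, 64743), (10, 2997660247), (7, 12220507), (5, 905349), (1, 579898)]⟩] (.ndet 0 [] s16_12_t0))))))))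
def s16_12_t2 : Tree := .ddet 1 [⟨955013416, [(13, 134812352), (12, 10443667171), (11, 100013280), (4, 10287961099), (0, 5067362952)]⟩] (.leaf 0 [⟨79200180, [(13, 2989078), (12, 232289865), (11, 2149026), (4, 228763037), (2, 573380606)]⟩, ⟨955013416, [(13, 167182160), (12, 13355602071), (11, 134048024), (4, 13155852799), (0, 2773840528)]⟩, ⟨955013416, [(13, 148562968), (12, 11766724865), (11, 116592792), (4, 11590883753), (0, 2505490216)]⟩, ⟨136430488, [(13, 3104960), (12, 207332279), (11, 1479432), (4, 204291967), (0, 370438008)]⟩, ⟨955013416, [(13, 67000032), (12, 6211917705), (11, 74922632), (4, 6117641601), (0, 55316840)]⟩, ⟨955013416, [(13, 296085200), (12, 15286020309), (11, 31491640), (4, 15071074765), (0, 783078048)]⟩, ⟨955013416,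 [(13, 175209088), (12, 14938439411), (11, 163704168), (4, 14713512539), (0, 654404104)]⟩, ⟨3590276, [(12, 25728759), (11, 1645352), (4, 25205847), (3, 822340), (0, 57590904)]⟩, ⟨1, []⟩, ⟨1, []⟩, ⟨158400360, [(13, 244919512), (12, 15406032285), (11, 91800384), (4, 15180822053), (2, 4214838464)]⟩, ⟨50263864, [(13, 2168896), (12, 132347579), (11, 729416), (4, 130433123), (0, 28619496)]⟩, ⟨136430488, [(13, 21345440), (12, 1605875101), (11, 14662920), (4, 1582014325), (0, 163265384)]⟩, ⟨136430488, [(13, 4077424), (12, 1556220687), (11, 33550424), (4, 1530934007), (0, 144883392)]⟩, ⟨955013416, [(13, 257627136), (12, 19967647413), (11, 191421976), (4, 19669971213), (0, 1741944952)]⟩, ⟨955013416, [(13, 136751024), (12, 19620066515), (11,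 323634504), (4, 19312408987), (0, 1613271008)]⟩, ⟨119376677, [(13, 6763066), (12, 530485522), (11, 5548846), (4, 522319849), (0, 37442954)]⟩])
def s16_12_t3 : Tree := .ndet 0 [] (.ddet 1 [⟨955013416, [(13, 40353912), (12, 3040203159), (11, 27811256), (4, 2995012815), (0, 2861416368)]⟩] (.ndet 0 [] (.ddet 0 [⟨477506708, [(13, 9309596), (12, 794438603), (11, 8727616), (4, 782484523), (0, 134175156)]⟩] (.ndet 0 [] (.ddet 0 [⟨238753354, [(13, 23614610), (12, 1850866003), (11, 18050506), (4, 1823237071), (0, 551486646)]⟩] (.ndet 0 [] (.ddet 1 [⟨79200180, [(13, 2989078), (12, 232289865), (11, 2149026), (4, 228763037), (2, 573380606)]⟩] (.ndet 0 [] s16_12_t2))))))))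
def s16_12_t4 : Tree := .dbr (.cons (.ndet 0 [] (.ddet 0 [⟨9983, [(11, 754), (10, 33543789), (7, 128228), (6, 8487), (5, 10111)]⟩] (.ndet 0 [] (.ddet 0 [⟨375622, [(11, 46415), (10, 2135018439), (7, 8703747), (5, 645078), (1, 982725)]⟩] s16_12_t1)))) (.cons (.ndet 0 [] (.ddet 0 [⟨477506708, [(13, 9309596), (12, 794438603), (11, 8727616), (4, 782484523), (0, 134175156)]⟩] (.ndet 0 [] (.ddet 0 [⟨955013416, [(13, 40353912), (12, 3040203159), (11, 27811256), (4, 2995012815), (0, 1906402952)]⟩] (.ndet 0 [] (.ddet 1 [⟨955013416, [(13, 54104528), (12, 4363260853), (11, 44390768), (4, 4297935469), (0, 299543632)]⟩] s16_12_t3)))))) .nil))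
def s16_12_t5 : Tree := .ddet 1 [⟨187811, [(11, 36656), (10, 1725283616), (7, 7033520), (5, 520542), (1, 617843)]⟩] (.ndet 0 [] (.ddet 1 [⟨28894, [(11, 13151), (10, 604827273), (7, 2465677), (5, 182744), (0, 81007)]⟩] (.leaf 0 [⟨187811, [(11, 36656), (10, 1725283616), (7, 7033520), (5, 520542), (1, 617843)]⟩, ⟨375622, [(11, 244275), (10, 11313321781), (7, 46120841), (5, 3416756), (1, 182595)]⟩, ⟨375622, [(11, 212557), (10, 9855622549), (7, 40178281), (5, 2976318), (0, 210001)]⟩, ⟨375622, [(11, 9759), (10, 409734823), (7, 1670227), (5, 124536), (0, 1037135)]⟩, ⟨375622, [(11, 126755), (10, 5705362983), (7, 23258547), (5, 1726080), (1, 2712109)]⟩, ⟨375622, [(11, 257417), (10, 14352152551), (7, 58515587), (5, 4290212), (0, 23503667)]⟩,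 ⟨375622, [(11, 292897), (10, 13425967093), (7, 54733081), (5, 4057320), (1, 3109211)]⟩, ⟨187811, [(11, 379312), (10, 16128602440), (7, 65749008), (5, 4895707), (1, 47148682)]⟩, ⟨1, []⟩, ⟨1, []⟩, ⟨375622, [(11, 1152009), (10, 56529742385), (7, 230459125), (5, 17017846), (0, 89730691)]⟩, ⟨375622, [(11, 39387), (10, 2015241127), (7, 8215987), (5, 605160), (0, 2315007)]⟩, ⟨375622, [(11, 205529), (10, 9735845237), (7, 39690521), (5, 2936400), (0, 1917905)]⟩, ⟨375622, [(11, 241009), (10, 8809659779), (7, 35908015), (5, 2703508), (1, 24694973)]⟩, ⟨375622, [(11, 371671), (10, 17456449347), (7, 71165055), (5, 5267640), (0, 1520803)]⟩, ⟨375622, [(11, 407151), (10, 16530263889), (7, 67382549), (5, 5034748), (1, 25092075)]⟩, ⟨187811, [(11, 40551),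 (10, 1872638764), (7, 7633821), (5, 565166), (1, 94284)]⟩])))
def s16_12_t6 : Tree := .ndet 0 [] (.ddet 1 [⟨375622, [(11, 83071), (10, 3860302055), (7, 15737267), (5, 1165620), (1, 198551)]⟩] (.ndet 0 [] (.ddet 1 [⟨375622, [(11, 41477), (10, 1867434055), (7, 7612787), (5, 564974), (0, 644539)]⟩] (.ndet 0 [] (.ddet 0 [⟨187811, [(11, 15859), (10, 728849616), (7, 2971280), (5, 220219), (1, 196298)]⟩] (.ndet 0 [] (.ddet 0 [⟨187811, [(11, 64743), (10, 2997660247), (7, 12220507), (5, 905349), (0, 204276)]⟩] (.ndet 0 [] s16_12_t5))))))))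
def s16_12_t7 : Tree := .split [5, 3, -2, -3] (-37000) (.leaf 0 [⟨1, [(0, 1)]⟩, ⟨375622, [(11, 51353), (10, 2402602823), (7, 9794707), (5, 725182), (0, 181577)]⟩, ⟨375622, [(11, 46415), (10, 2135018439), (7, 8703747), (5, 645078), (0, 144141)]⟩, ⟨38856, [(15, 248455), (11, 716), (10, 32977266), (7, 133791), (5, 9530)]⟩, ⟨375622, [(11, 11789), (10, 839974059), (7, 3424343), (5, 249052), (0, 294225)]⟩, ⟨38856, [(15, 313561), (11, 13220), (10, 260315166), (7, 1060497), (5, 83486)]⟩, ⟨375622, [(11, 41183), (10, 2194612473), (7, 8946717), (5, 658332), (0, 548559)]⟩, ⟨118607, [(13, 61745), (10, 1073533), (8, 65078), (7, 11345), (0, 229833)]⟩, ⟨1, []⟩, ⟨1, []⟩, ⟨375622, [(11, 513131), (10, 13764077839), (7, 56077931), (5, 4346714), (0,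 2039807)]⟩, ⟨12952, [(15, 13297), (11, 564), (10, 15761502), (7, 64217), (5, 4902)]⟩, ⟨375622, [(11, 46999), (10, 1869302769), (7, 7620405), (5, 569508), (0, 214443)]⟩, ⟨330335, [(10, 614813813), (8, 49429), (7, 2503370), (5, 138367), (0, 916552)]⟩, ⟨375622, [(11, 76393), (10, 3223941183), (7, 13142779), (5, 978788), (0, 468777)]⟩, ⟨66067, [(10, 402631255), (8, 4007), (7, 1641038), (5, 112363), (0, 231638)]⟩, ⟨187811, [(11, 6364), (10, 281147340), (7, 1145781), (5, 84676), (0, 58592)]⟩]) (.ndet 0 [] (.ddet 0 [⟨187811, [(11, 2469), (10, 133792192), (7, 545480), (5, 40052), (1, 18718)]⟩] (.ndet 0 [] (.ddet 0 [⟨187811, [(11, 15859), (10, 728849616), (7, 2971280), (5, 220219), (1, 196298)]⟩] (.ndet 0 [] (.ddet 0 [⟨375622, [(11, 46415),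 (10, 2135018439), (7, 8703747), (5, 645078), (0, 607103)]⟩] s16_12_t6))))))
def s16_12_t8 : Tree := .ddet 0 [⟨9983, [(9, 754), (8, 33543789), (5, 128228), (4, 8487), (3, 10111)]⟩] (.ndet 0 [] (.dbr (.cons (.ndet 0 [] (.ddet 1 [⟨375622, [(10, 51353), (9, 2402602823), (6, 9794707), (4, 725182), (0, 194045)]⟩] (.ndet 0 [] s16_12_t4))) (.cons (.ndet 0 [] (.ddet 1 [⟨38856, [(14, 194045), (10, 4684), (9, 219570174), (6, 894621), (4, 65926)]⟩] s16_12_t7)) .nil))))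
def s16_12_t9 : Tree := .ndet 0 [] (.ddet 1 [⟨38856, [(12, 211019), (8, 1348), (7, 66245562), (4, 269523), (2, 19570)]⟩] (.split [-2, -1, 1, 1] (14000) (.leaf 0 [⟨59, [(16, 69), (12, 79), (11, 10), (10, 49), (7, 31149)]⟩, ⟨39600090, [(11, 958423), (10, 77374260), (9, 794391), (2, 76220042), (0, 68791729)]⟩, ⟨13200030, [(11, 251411), (10, 22140585), (9, 254397), (2, 21807679), (0, 24381293)]⟩, ⟨1, [(0, 1)]⟩, ⟨107190568, [(16, 474354816), (11, 2807224), (10, 111911711), (6, 629416), (2, 108240319)]⟩, ⟨79200180, [(10, 52216067), (9, 23554434), (2, 55322415), (1, 12032638), (0, 1883007326)]⟩, ⟨1888, [(16, 2632), (11, 272), (10, 6095), (7, 623336), (2, 3463)]⟩, ⟨107190568, [(16, 25305275896), (11, 59141784), (10, 625130785), (6, 11614784),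 (2, 542904593)]⟩, ⟨1, []⟩, ⟨1, []⟩, ⟨31680072, [(10, 103936519), (9, 17621124), (2, 98715015), (1, 14296868), (0, 2873867284)]⟩, ⟨244445, [(10, 42259), (9, 6353), (2, 42405), (1, 2971), (0, 596382)]⟩, ⟨26400060, [(11, 88108), (10, 40587435), (9, 1080636), (2, 40058507), (0, 89288944)]⟩, ⟨107190568, [(16, 6636360536), (11, 19082624), (10, 132823355), (6, 19314448), (2, 102457115)]⟩, ⟨13200030, [(11, 248542), (10, 38145015), (9, 737574), (2, 37608203), (0, 57084316)]⟩, ⟨107190568, [(16, 6337804280), (11, 20841424), (10, 288565095), (6, 18061696), (2, 256865751)]⟩, ⟨13200030, [(11, 102244), (10, 7275645), (9, 98628), (2, 7139471), (0, 6219922)]⟩]) (.ndet 0 [] (.ddet 0 [⟨7920018, [(11, 40838), (10, 2190501), (9, 6240), (2, 2159401),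 (0, 870430)]⟩] (.ndet 0 [] s16_12_t8)))))
def s16_12_t10 : Tree := .ddet 1 [⟨38856, [(12, 11095), (8, 1244), (7, 57747642), (4, 235383), (2, 17426)]⟩] (.ndet 0 [] (.ddet 1 [⟨8357, [(12, 21768), (7, 312412), (5, 14), (4, 1218), (2, 39)]⟩] (.ndet 0 [] (.ddet 0 [⟨1888, [(15, 520), (10, 48), (9, 791), (6, 125160), (1, 271)]⟩] (.ndet 0 [] (.ddet 0 [⟨12952, [(12, 36731), (8, 468), (7, 21425706), (4, 87251), (2, 6410)]⟩] (.ndet 0 [] (.ddet 1 [⟨59, [(15, 69), (11, 79), (10, 10), (9, 49), (6, 31149)]⟩] s16_12_t9))))))))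
def s16_12_n0 : Node := ⟨[⟨[0, 0, 0, -1, 1], -200⟩, ⟨[0, 0, -1, 0, 1], -200⟩, ⟨[0, -1, 0, 0, 1], -200⟩, ⟨[-1, 0, 0, 0, 1], -200⟩, ⟨[247, 20, -6, 256, -227], 16379439⟩, ⟨[-29, -256, 65, -155, -226], 44997682⟩, ⟨[247, 20, -6, 256, -225], 41191978⟩, ⟨[-51, 167, -256, -122, -168], 38332961⟩, ⟨[1, 0, 0, 1, -1], -2020⟩, ⟨[-1, 0, 0, -1, 1], -20⟩, ⟨[51, -167, 256, 122, 191], 61363200⟩, ⟨[-247, -20, 6, -256, 229], 8161879⟩, ⟨[-247, -20, 6, -256, 231], 33092039⟩, ⟨[29, 256, -65, 155, 232], 28699335⟩, ⟨[-247, -20, 6, -256, 233], 57904579⟩, ⟨[29, 256, -65, 155, 234], 53511875⟩], [0, 0, 0, 0, 1], 0, none, (.ndet 0 [] (.ddet 0 [⟨9983, [(8, 45), (7, 576407), (4, 1483), (3, 864), (2, 193)]⟩] (.ndet 0 [] (.ddet 0 [⟨1888, [(15, 520), (10, 48), (9,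 791), (6, 125160), (1, 271)]⟩] (.ndet 0 [] (.ddet 0 [⟨19428, [(12, 49549), (8, 80), (7, 3264738), (4, 13185), (2, 902)]⟩] (.ndet 0 [] s16_12_t10)))))))⟩
def s16_12 : Sys := ⟨[(4, 2000)], [(2, -2000), (3, 3000)], 5, [s16_12_n0], [-87099092, -106749591, 12724819, 53190206], (.ndet 0 [] (.ddet 1 [⟨1, []⟩] (.leaf 0 [⟨1, []⟩, ⟨1, []⟩, ⟨1, []⟩, ⟨1, []⟩, ⟨1, []⟩, ⟨1, []⟩, ⟨1, []⟩, ⟨1, []⟩, ⟨1, []⟩, ⟨1, []⟩, ⟨1, []⟩, ⟨1, []⟩, ⟨1, []⟩, ⟨1, []⟩, ⟨1, []⟩, ⟨1, []⟩])))⟩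

theorem s16_12_ok : s16_12.ok = true := by decide +kernel

def s17_6_t0 : Tree := .leaf 0 [⟨19712, [(46, 333), (30, 6622), (4, 179), (0, 39424)]⟩, ⟨19712, [(46, 333), (30, 6622), (4, 179), (0, 39424)]⟩, ⟨1, [(0, 1)]⟩, ⟨39424, [(46, 333), (30, 6622), (4, 179)]⟩, ⟨19712, [(46, 1665), (30, 33110), (4, 895), (1, 650496)]⟩, ⟨39424, [(46, 24975), (30, 496650), (4, 13425), (0, 13049344)]⟩, ⟨512, [(46, 333), (30, 6622), (4, 179), (0, 17408)]⟩, ⟨19712, [(46, 1665), (30, 33110), (4, 895), (1, 4849152)]⟩, ⟨9856, [(46, 1665), (30, 33110), (4, 895), (1, 2326016)]⟩, ⟨1, [(0, 1)]⟩, ⟨39424, [(46, 333), (30, 6622), (4, 179), (0, 39424)]⟩, ⟨19712, [(46, 333), (30, 6622), (4, 179), (0, 19712)]⟩, ⟨1, [(0, 1)]⟩, ⟨39424, [(46, 333), (30, 6622), (4, 179),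 (0, 39424)]⟩, ⟨1, []⟩, ⟨1, [(0, 1)]⟩, ⟨39424, [(46, 333), (30, 6622), (4, 179)]⟩, ⟨1, []⟩, ⟨1, [(1, 1)]⟩, ⟨1, []⟩, ⟨39424, [(46, 333), (30, 6622), (4, 179), (0, 39424)]⟩, ⟨39424, [(46, 999), (30, 19866), (4, 537), (0, 39424)]⟩, ⟨1, [(0, 1)]⟩, ⟨39424, [(46, 333), (30, 6622), (4, 179), (0, 39424)]⟩, ⟨1, []⟩, ⟨1, []⟩, ⟨1, [(1, 1)]⟩, ⟨39424, [(46, 333), (30, 6622), (4, 179), (1, 39424)]⟩, ⟨1, [(1, 1)]⟩, ⟨39424, [(46, 333), (30, 6622), (4, 179), (0, 39424)]⟩, ⟨39424, [(46, 999), (30, 19866), (4, 537), (0, 39424)]⟩, ⟨1, [(0, 1)]⟩, ⟨39424, [(46, 333), (30, 6622), (4, 179), (0, 39424)]⟩, ⟨19712, [(46, 333), (30, 6622), (4, 179), (0, 19712)]⟩, ⟨1, []⟩, ⟨1, []⟩, ⟨1, [(0, 1)]⟩, ⟨39424, [(46, 333), (30, 6622), (4, 179)]⟩, ⟨1, []⟩, ⟨1, [(0, 1)]⟩,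 ⟨1, [(1, 1)]⟩, ⟨1, [(0, 1)]⟩, ⟨39424, [(46, 333), (30, 6622), (4, 179), (1, 39424)]⟩, ⟨1, [(1, 1)]⟩, ⟨1, []⟩, ⟨512, [(46, 333), (30, 6622), (4, 179), (1, 91648)]⟩, ⟨39424, [(46, 333), (30, 6622), (4, 179), (0, 1734656)]⟩, ⟨9856, [(46, 1665), (30, 33110), (4, 895), (0, 620928)]⟩, ⟨512, [(46, 333), (30, 6622), (4, 179), (0, 61440)]⟩, ⟨1, [(35, 1), (0, 1)]⟩]
def s17_6_t1 : Tree := .leaf 0 [⟨19712, [(47, 333), (31, 6622), (5, 179), (3, 19712)]⟩, ⟨19712, [(47, 333), (31, 6622), (5, 179), (3, 39424)]⟩, ⟨1, [(3, 1)]⟩, ⟨39424, [(47, 333), (31, 6622), (5, 179)]⟩, ⟨19712, [(47, 1665), (31, 33110), (5, 895), (3, 197120)]⟩, ⟨39424, [(47, 24975), (31, 496650), (5, 13425), (3, 2996224)]⟩, ⟨512, [(47, 333), (31, 6622), (5, 179), (3, 39424)]⟩, ⟨19712,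 [(47, 1665), (31, 33110), (5, 895), (3, 197120)]⟩, ⟨9856, [(47, 1665), (31, 33110), (5, 895), (3, 197120)]⟩, ⟨1, []⟩, ⟨39424, [(47, 333), (31, 6622), (5, 179)]⟩, ⟨19712, [(47, 333), (31, 6622), (5, 179)]⟩, ⟨1, []⟩, ⟨39424, [(47, 333), (31, 6622), (5, 179)]⟩, ⟨1, []⟩, ⟨1, [(3, 1)]⟩, ⟨39424, [(47, 333), (31, 6622), (5, 179)]⟩, ⟨1, []⟩, ⟨1, []⟩, ⟨1, [(3, 1)]⟩, ⟨39424, [(47, 333), (31, 6622), (5, 179)]⟩, ⟨39424, [(47, 999), (31, 19866), (5, 537)]⟩, ⟨1, []⟩, ⟨39424, [(47, 333), (31, 6622), (5, 179)]⟩, ⟨1, []⟩, ⟨1, []⟩, ⟨1, []⟩, ⟨39424, [(47, 333), (31, 6622), (5, 179)]⟩, ⟨1, []⟩, ⟨39424, [(47, 333), (31, 6622), (5, 179)]⟩, ⟨39424, [(47, 999), (31, 19866), (5, 537)]⟩, ⟨1, []⟩, ⟨39424, [(47, 333), (31, 6622), (5, 179)]⟩, ⟨19712, [(47, 333),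 (31, 6622), (5, 179)]⟩, ⟨1, []⟩, ⟨1, []⟩, ⟨1, [(3, 1)]⟩, ⟨39424, [(47, 333), (31, 6622), (5, 179)]⟩, ⟨1, [(3, 1)]⟩, ⟨1, [(3, 2)]⟩, ⟨1, []⟩, ⟨1, [(3, 2)]⟩, ⟨39424, [(47, 333), (31, 6622), (5, 179)]⟩, ⟨1, []⟩, ⟨1, [(3, 1)]⟩, ⟨512, [(47, 333), (31, 6622), (5, 179), (3, 39424)]⟩, ⟨39424, [(47, 333), (31, 6622), (5, 179), (3, 39424)]⟩, ⟨9856, [(47, 1665), (31, 33110), (5, 895), (3, 197120)]⟩, ⟨512, [(47, 333), (31, 6622), (5, 179), (3, 39424)]⟩, ⟨1, [(36, 1), (3, 1)]⟩]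
def s17_6_t2 : Tree := .leaf 0 [⟨19712, [(47, 333), (31, 6622), (5, 179), (3, 19712)]⟩, ⟨19712, [(47, 333), (31, 6622), (5, 179), (3, 39424)]⟩, ⟨1, [(3, 2)]⟩, ⟨39424, [(47, 333), (31, 6622), (5, 179), (0, 39424)]⟩, ⟨19712, [(47, 1665), (31, 33110), (5, 895), (0, 650496)]⟩, ⟨39424, [(47, 24975), (31, 496650), (5, 13425), (3, 13088768)]⟩, ⟨512, [(47, 333), (31, 6622), (5, 179), (3, 17408)]⟩, ⟨19712, [(47, 1665), (31, 33110), (5, 895), (0, 4849152)]⟩, ⟨9856, [(47, 1665), (31, 33110), (5, 895), (0, 2326016)]⟩, ⟨1, [(3, 1)]⟩, ⟨39424, [(47, 333), (31, 6622), (5, 179)]⟩, ⟨19712, [(47, 333), (31, 6622), (5, 179), (0, 19712)]⟩, ⟨1, [(3, 1)]⟩, ⟨39424, [(47, 333), (31, 6622), (5, 179)]⟩, ⟨1, []⟩, ⟨1, [(3, 2)]⟩, ⟨39424, [(47, 333), (31, 6622),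 (5, 179), (0, 39424)]⟩, ⟨1, []⟩, ⟨1, [(0, 1)]⟩, ⟨1, [(3, 1)]⟩, ⟨39424, [(47, 333), (31, 6622), (5, 179)]⟩, ⟨39424, [(47, 999), (31, 19866), (5, 537), (0, 78848)]⟩, ⟨1, [(3, 1)]⟩, ⟨39424, [(47, 333), (31, 6622), (5, 179)]⟩, ⟨1, []⟩, ⟨1, []⟩, ⟨1, [(0, 1)]⟩, ⟨39424, [(47, 333), (31, 6622), (5, 179), (0, 78848)]⟩, ⟨1, [(0, 1)]⟩, ⟨39424, [(47, 333), (31, 6622), (5, 179)]⟩, ⟨39424, [(47, 999), (31, 19866), (5, 537), (0, 78848)]⟩, ⟨1, [(3, 1)]⟩, ⟨39424, [(47, 333), (31, 6622), (5, 179)]⟩, ⟨19712, [(47, 333), (31, 6622), (5, 179), (0, 19712)]⟩, ⟨1, []⟩, ⟨1, []⟩, ⟨1, [(3, 2)]⟩, ⟨39424, [(47, 333), (31, 6622), (5, 179), (0, 39424)]⟩, ⟨1, [(3, 1)]⟩, ⟨1, [(3, 3)]⟩, ⟨1, [(0, 1)]⟩, ⟨1, [(3, 3)]⟩, ⟨39424, [(47, 333), (31, 6622), (5, 179), (0, 78848)]⟩,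 ⟨1, [(0, 1)]⟩, ⟨1, [(3, 1)]⟩, ⟨512, [(47, 333), (31, 6622), (5, 179), (0, 91648)]⟩, ⟨39424, [(47, 333), (31, 6622), (5, 179), (3, 1734656)]⟩, ⟨9856, [(47, 1665), (31, 33110), (5, 895), (3, 620928)]⟩, ⟨512, [(47, 333), (31, 6622), (5, 179), (3, 61440)]⟩, ⟨1, [(36, 1), (3, 1)]⟩]
def s17_6_t3 : Tree := .ddet 1 [⟨19712, [(46, 333), (30, 6622), (4, 179), (2, 19712)]⟩] (.nbr (.cons (.ddet 1 [⟨1, [(3, 1)]⟩] (.ndet 1 [⟨39424, [(47, 333), (31, 6622), (5, 179), (3, 39424)]⟩] (.ddet 0 [⟨19712, [(47, 333), (31, 6622), (5, 179), (3, 19712)]⟩] s17_6_t1))) (.cons (.ddet 1 [⟨1, [(3, 1)]⟩] (.ndet 1 [⟨39424, [(47, 333), (31, 6622), (5, 179), (3, 39424)]⟩] (.ddet 0 [⟨19712, [(47, 333), (31, 6622), (5, 179)]⟩] s17_6_t2))) .nil)))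
def s17_6_t4 : Tree := .ndet 0 [⟨39424, [(46, 333), (30, 6622), (4, 179), (2, 39424)]⟩] (.ddet 1 [⟨39424, [(46, 333), (30, 6622), (4, 179), (0, 39424)]⟩] (.ndet 0 [⟨39424, [(46, 333), (30, 6622), (4, 179), (2, 39424)]⟩] (.ddet 1 [⟨39424, [(46, 333), (30, 6622), (4, 179), (2, 39424)]⟩] (.ndet 1 [⟨39424, [(46, 333), (30, 6622), (4, 179)]⟩] (.ddet 0 [⟨39424, [(46, 333), (30, 6622), (4, 179), (0, 39424)]⟩] (.ndet 1 [⟨1, [(2, 1)]⟩] (.ddet 0 [⟨39424, [(46, 333), (30, 6622), (4, 179), (2, 78848)]⟩] (.ndet 0 [⟨39424, [(46, 333), (30, 6622), (4, 179)]⟩] s17_6_t3))))))))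
def s17_6_t5 : Tree := .ddet 0 [⟨39424, [(45, 333), (29, 6622), (3, 179), (1, 78848)]⟩] (.ndet 0 [⟨39424, [(45, 333), (29, 6622), (3, 179)]⟩] (.ddet 1 [⟨19712, [(45, 333), (29, 6622), (3, 179), (1, 39424)]⟩] (.ndet 1 [⟨1, [(0, 1)]⟩] (.ddet 1 [⟨1, []⟩] (.ndet 1 [⟨39424, [(45, 333), (29, 6622), (3, 179), (1, 39424)]⟩] (.ddet 0 [⟨19712, [(45, 333), (29, 6622), (3, 179), (1, 19712)]⟩] (.split [0, -1] (2000) s17_6_t0 s17_6_t4)))))))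
def s17_6_t6 : Tree := .leaf 0 [⟨19712, [(46, 333), (29, 6622), (4, 179), (0, 26334)]⟩, ⟨19712, [(46, 333), (29, 6622), (4, 179), (0, 46046)]⟩, ⟨1, [(0, 1)]⟩, ⟨39424, [(46, 333), (29, 6622), (4, 179), (0, 6622)]⟩, ⟨19712, [(46, 1665), (29, 33110), (4, 895), (0, 230230)]⟩, ⟨39424, [(46, 24975), (29, 496650), (4, 13425), (0, 3492874)]⟩, ⟨512, [(46, 333), (29, 6622), (4, 179), (0, 46046)]⟩, ⟨19712, [(46, 1665), (29, 33110), (4, 895), (0, 230230)]⟩, ⟨9856, [(46, 1665), (29, 33110), (4, 895), (0, 230230)]⟩, ⟨1, []⟩, ⟨39424, [(46, 333), (29, 6622), (4, 179), (0, 6622)]⟩, ⟨19712, [(46, 333), (29, 6622), (4, 179), (0, 6622)]⟩, ⟨1, []⟩, ⟨39424, [(46, 333), (29, 6622), (4, 179), (0, 6622)]⟩, ⟨1, []⟩, ⟨1, [(0, 1)]⟩, ⟨39424, [(46, 333), (29,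 6622), (4, 179), (0, 6622)]⟩, ⟨1, []⟩, ⟨1, []⟩, ⟨1, [(0, 1)]⟩, ⟨39424, [(46, 333), (29, 6622), (4, 179), (0, 6622)]⟩, ⟨39424, [(46, 999), (29, 19866), (4, 537), (0, 19866)]⟩, ⟨1, []⟩, ⟨39424, [(46, 333), (29, 6622), (4, 179), (0, 6622)]⟩, ⟨1, []⟩, ⟨1, []⟩, ⟨1, []⟩, ⟨39424, [(46, 333), (29, 6622), (4, 179), (0, 6622)]⟩, ⟨1, []⟩, ⟨39424, [(46, 333), (29, 6622), (4, 179), (0, 6622)]⟩, ⟨39424, [(46, 999), (29, 19866), (4, 537), (0, 19866)]⟩, ⟨1, []⟩, ⟨39424, [(46, 333), (29, 6622), (4, 179), (0, 6622)]⟩, ⟨19712, [(46, 333), (29, 6622), (4, 179), (0, 6622)]⟩, ⟨1, []⟩, ⟨1, []⟩, ⟨1, [(0, 1)]⟩, ⟨39424, [(46, 333), (29, 6622), (4, 179), (0, 6622)]⟩, ⟨1, [(0, 1)]⟩, ⟨1, [(0, 2)]⟩, ⟨1, []⟩, ⟨1, [(0, 2)]⟩, ⟨39424, [(46, 333), (29, 6622), (4,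 179), (0, 6622)]⟩, ⟨1, []⟩, ⟨1, [(0, 1)]⟩, ⟨512, [(46, 333), (29, 6622), (4, 179), (0, 46046)]⟩, ⟨39424, [(46, 333), (29, 6622), (4, 179), (0, 46046)]⟩, ⟨9856, [(46, 1665), (29, 33110), (4, 895), (0, 230230)]⟩, ⟨512, [(46, 333), (29, 6622), (4, 179), (0, 46046)]⟩, ⟨1, [(35, 1), (0, 1)]⟩]
def s17_6_t7 : Tree := .leaf 0 [⟨19712, [(46, 333), (30, 6622), (4, 179), (1, 19712)]⟩, ⟨19712, [(46, 333), (30, 6622), (4, 179), (1, 39424)]⟩, ⟨1, [(1, 2)]⟩, ⟨39424, [(46, 333), (29, 6622), (4, 179), (0, 32802)]⟩, ⟨19712, [(46, 1665), (29, 33110), (4, 895), (0, 617386)]⟩, ⟨39424, [(46, 24975), (30, 496650), (4, 13425), (1, 13088768)]⟩, ⟨512, [(46, 333), (30, 6622), (4, 179), (1, 17408)]⟩, ⟨19712, [(46, 1665), (29, 33110), (4, 895), (0, 4816042)]⟩,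 ⟨9856, [(46, 1665), (29, 33110), (4, 895), (0, 2292906)]⟩, ⟨1, [(1, 1)]⟩, ⟨39424, [(46, 333), (30, 6622), (4, 179)]⟩, ⟨19712, [(46, 333), (29, 6622), (4, 179), (0, 13090)]⟩, ⟨1, [(1, 1)]⟩, ⟨39424, [(46, 333), (30, 6622), (4, 179)]⟩, ⟨1, []⟩, ⟨1, [(1, 2)]⟩, ⟨39424, [(46, 333), (29, 6622), (4, 179), (0, 32802)]⟩, ⟨1, []⟩, ⟨1, [(0, 1)]⟩, ⟨1, [(1, 1)]⟩, ⟨39424, [(46, 333), (30, 6622), (4, 179)]⟩, ⟨39424, [(46, 999), (29, 19866), (4, 537), (0, 58982)]⟩, ⟨1, [(1, 1)]⟩, ⟨39424, [(46, 333), (30, 6622), (4, 179)]⟩, ⟨1, []⟩, ⟨1, []⟩, ⟨1, [(0, 1)]⟩, ⟨39424, [(46, 333), (29, 6622), (4, 179), (0, 72226)]⟩, ⟨1, [(0, 1)]⟩, ⟨39424, [(46, 333), (30, 6622), (4, 179)]⟩, ⟨39424, [(46, 999), (29, 19866), (4, 537), (0, 58982)]⟩, ⟨1, [(1, 1)]⟩, ⟨39424,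 [(46, 333), (30, 6622), (4, 179)]⟩, ⟨19712, [(46, 333), (29, 6622), (4, 179), (0, 13090)]⟩, ⟨1, []⟩, ⟨1, []⟩, ⟨1, [(1, 2)]⟩, ⟨39424, [(46, 333), (29, 6622), (4, 179), (0, 32802)]⟩, ⟨1, [(1, 1)]⟩, ⟨1, [(1, 3)]⟩, ⟨1, [(0, 1)]⟩, ⟨1, [(1, 3)]⟩, ⟨39424, [(46, 333), (29, 6622), (4, 179), (0, 72226)]⟩, ⟨1, [(0, 1)]⟩, ⟨1, [(1, 1)]⟩, ⟨512, [(46, 333), (29, 6622), (4, 179), (0, 85026)]⟩, ⟨39424, [(46, 333), (30, 6622), (4, 179), (1, 1734656)]⟩, ⟨9856, [(46, 1665), (30, 33110), (4, 895), (1, 620928)]⟩, ⟨512, [(46, 333), (30, 6622), (4, 179), (1, 61440)]⟩, ⟨1, [(35, 1), (1, 1)]⟩]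
def s17_6_t8 : Tree := .ddet 1 [⟨19712, [(45, 333), (29, 6622), (3, 179), (0, 19712)]⟩] (.nbr (.cons (.ddet 1 [⟨1, [(0, 1)]⟩] (.ndet 1 [⟨39424, [(46, 333), (29, 6622), (4, 179), (0, 46046)]⟩] (.ddet 0 [⟨19712, [(46, 333), (29, 6622), (4, 179), (0, 26334)]⟩] s17_6_t6))) (.cons (.ddet 1 [⟨1, [(1, 1)]⟩] (.ndet 1 [⟨39424, [(46, 333), (30, 6622), (4, 179), (1, 39424)]⟩] (.ddet 0 [⟨19712, [(46, 333), (30, 6622), (4, 179)]⟩] s17_6_t7))) .nil)))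
def s17_6_t9 : Tree := .split [0, 1] (-4000) (.leaf 0 [⟨39424, [(44, 333), (28, 6622), (2, 179), (0, 39424)]⟩, ⟨19712, [(44, 333), (28, 6622), (2, 179)]⟩, ⟨78848, [(44, 333), (28, 6622), (2, 179), (1, 39424)]⟩, ⟨1, [(0, 1)]⟩, ⟨19712, [(44, 1665), (28, 33110), (2, 895)]⟩, ⟨78848, [(44, 50283), (28, 999922), (2, 27029), (1, 39424)]⟩, ⟨512, [(44, 333), (28, 6622), (2, 179)]⟩, ⟨19712, [(44, 1665), (28, 33110), (2, 895)]⟩, ⟨9856, [(44, 1665), (28, 33110), (2, 895)]⟩, ⟨1, []⟩, ⟨1, [(0, 1)]⟩, ⟨1, [(0, 2)]⟩, ⟨1, []⟩, ⟨1, [(0, 1)]⟩, ⟨1, []⟩, ⟨78848, [(44, 333), (28, 6622), (2, 179), (1, 39424)]⟩, ⟨1, [(0, 1)]⟩, ⟨1, []⟩, ⟨1, []⟩, ⟨78848, [(44, 333), (28, 6622), (2, 179), (1, 39424)]⟩, ⟨1, [(0, 1)]⟩, ⟨1, [(0, 3)]⟩, ⟨1, []⟩, ⟨1, [(0, 1)]⟩, ⟨1,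 []⟩, ⟨1, []⟩, ⟨1, []⟩, ⟨1, [(0, 1)]⟩, ⟨1, []⟩, ⟨1, [(0, 1)]⟩, ⟨1, [(0, 3)]⟩, ⟨1, []⟩, ⟨1, [(0, 1)]⟩, ⟨1, [(0, 2)]⟩, ⟨1, []⟩, ⟨1, []⟩, ⟨78848, [(44, 333), (28, 6622), (2, 179), (1, 39424)]⟩, ⟨1, [(0, 1)]⟩, ⟨78848, [(44, 333), (28, 6622), (2, 179), (1, 39424)]⟩, ⟨39424, [(44, 333), (28, 6622), (2, 179), (1, 39424)]⟩, ⟨1, []⟩, ⟨39424, [(44, 333), (28, 6622), (2, 179), (1, 39424)]⟩, ⟨1, [(0, 1)]⟩, ⟨1, []⟩, ⟨78848, [(44, 333), (28, 6622), (2, 179), (1, 39424)]⟩, ⟨512, [(44, 333), (28, 6622), (2, 179)]⟩, ⟨39424, [(44, 333), (28, 6622), (2, 179)]⟩, ⟨9856, [(44, 1665), (28, 33110), (2, 895)]⟩, ⟨512, [(44, 333), (28, 6622), (2, 179)]⟩, ⟨1, [(33, 1)]⟩]) (.nbr (.cons s17_6_t5 (.cons (.ddet 0 [⟨39424, [(45, 333), (29, 6622), (3, 179), (0, 78848)]⟩]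 (.ndet 0 [⟨39424, [(45, 333), (29, 6622), (3, 179)]⟩] s17_6_t8)) .nil)))
def s17_6_t10 : Tree := .ddet 1 [⟨1, []⟩] (.ndet 1 [⟨78848, [(43, 333), (27, 6622), (1, 179), (0, 39424)]⟩] (.ddet 0 [⟨78848, [(43, 999), (27, 19866), (1, 537), (0, 39424)]⟩] (.ndet 0 [⟨78848, [(43, 333), (27, 6622), (1, 179), (0, 39424)]⟩] (.ddet 1 [⟨9794554, [(43, 86547), (16, 4897277), (4, 9779), (1, 30876)]⟩] (.ndet 0 [⟨78848, [(43, 333), (27, 6622), (1, 179), (0, 39424)]⟩] (.ddet 1 [⟨78848, [(43, 333), (27, 6622), (1, 179), (0, 39424)]⟩] (.ndet 1 [⟨39424, [(43, 333), (27, 6622), (1, 179)]⟩] (.ddet 0 [⟨9794554, [(43, 86547), (16, 4897277), (4, 9779), (1, 30876)]⟩] s17_6_t9))))))))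
def s17_6_t11 : Tree := .leaf 0 [⟨78848, [(44, 999), (28, 19866), (2, 537), (0, 39424)]⟩, ⟨19712, [(44, 333), (28, 6622), (2, 179)]⟩, ⟨2, [(38, 1), (9, 1)]⟩, ⟨78848, [(44, 333), (28, 6622), (2, 179), (0, 39424)]⟩, ⟨19712, [(44, 1665), (28, 33110), (2, 895)]⟩, ⟨19712, [(44, 12449), (31, 19712), (28, 264726), (2, 6751)]⟩, ⟨512, [(44, 333), (28, 6622), (2, 179)]⟩, ⟨19712, [(44, 1665), (28, 33110), (2, 895)]⟩, ⟨9856, [(44, 1665), (28, 33110), (2, 895)]⟩, ⟨1, []⟩, ⟨78848, [(44, 333), (28, 6622), (2, 179), (0, 39424)]⟩, ⟨39424, [(44, 333), (28, 6622), (2, 179), (0, 39424)]⟩, ⟨1, []⟩, ⟨78848, [(44, 333), (28, 6622), (2, 179), (0, 39424)]⟩, ⟨1, []⟩, ⟨2, [(38, 1), (9, 1)]⟩, ⟨78848, [(44, 333), (28, 6622), (2, 179), (0, 39424)]⟩, ⟨1, []⟩,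 ⟨1, []⟩, ⟨2, [(38, 1), (9, 1)]⟩, ⟨78848, [(44, 333), (28, 6622), (2, 179), (0, 39424)]⟩, ⟨78848, [(44, 999), (28, 19866), (2, 537), (0, 118272)]⟩, ⟨1, []⟩, ⟨78848, [(44, 333), (28, 6622), (2, 179), (0, 39424)]⟩, ⟨1, []⟩, ⟨1, []⟩, ⟨1, []⟩, ⟨78848, [(44, 333), (28, 6622), (2, 179), (0, 39424)]⟩, ⟨1, []⟩, ⟨78848, [(44, 333), (28, 6622), (2, 179), (0, 39424)]⟩, ⟨78848, [(44, 999), (28, 19866), (2, 537), (0, 118272)]⟩, ⟨1, []⟩, ⟨78848, [(44, 333), (28, 6622), (2, 179), (0, 39424)]⟩, ⟨39424, [(44, 333), (28, 6622), (2, 179), (0, 39424)]⟩, ⟨1, []⟩, ⟨1, []⟩, ⟨2, [(38, 1), (9, 1)]⟩, ⟨78848, [(44, 333), (28, 6622), (2, 179), (0, 39424)]⟩, ⟨2, [(38, 1), (9, 1)]⟩, ⟨1, [(38, 1), (9, 1)]⟩, ⟨1, []⟩, ⟨1, [(38, 1), (9, 1)]⟩, ⟨78848, [(44, 333), (28,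 6622), (2, 179), (0, 39424)]⟩, ⟨1, []⟩, ⟨2, [(38, 1), (9, 1)]⟩, ⟨512, [(44, 333), (28, 6622), (2, 179)]⟩, ⟨39424, [(44, 333), (28, 6622), (2, 179)]⟩, ⟨9856, [(44, 1665), (28, 33110), (2, 895)]⟩, ⟨512, [(44, 333), (28, 6622), (2, 179)]⟩, ⟨1, [(33, 1)]⟩]
def s17_6_t12 : Tree := .leaf 0 [⟨78848, [(44, 999), (28, 19866), (2, 537), (1, 197120)]⟩, ⟨19712, [(44, 333), (28, 6622), (2, 179), (1, 39424)]⟩, ⟨78848, [(44, 333), (28, 6622), (2, 179), (0, 39424)]⟩, ⟨78848, [(44, 333), (28, 6622), (2, 179), (1, 118272)]⟩, ⟨19712, [(44, 1665), (28, 33110), (2, 895), (1, 197120)]⟩, ⟨78848, [(44, 50283), (28, 999922), (2, 27029), (1, 5874176)]⟩, ⟨512, [(44, 333), (28, 6622), (2, 179), (1, 39424)]⟩, ⟨19712, [(44, 1665), (28, 33110), (2, 895), (1, 197120)]⟩,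 ⟨9856, [(44, 1665), (28, 33110), (2, 895), (1, 197120)]⟩, ⟨1, []⟩, ⟨78848, [(44, 333), (28, 6622), (2, 179), (1, 118272)]⟩, ⟨39424, [(44, 333), (28, 6622), (2, 179), (1, 118272)]⟩, ⟨1, []⟩, ⟨78848, [(44, 333), (28, 6622), (2, 179), (1, 118272)]⟩, ⟨1, []⟩, ⟨78848, [(44, 333), (28, 6622), (2, 179), (0, 39424)]⟩, ⟨78848, [(44, 333), (28, 6622), (2, 179), (1, 118272)]⟩, ⟨1, []⟩, ⟨1, []⟩, ⟨78848, [(44, 333), (28, 6622), (2, 179), (0, 39424)]⟩, ⟨78848, [(44, 333), (28, 6622), (2, 179), (1, 118272)]⟩, ⟨78848, [(44, 999), (28, 19866), (2, 537), (1, 354816)]⟩, ⟨1, []⟩, ⟨78848, [(44, 333), (28, 6622), (2, 179), (1, 118272)]⟩, ⟨1, []⟩, ⟨1, []⟩, ⟨1, []⟩, ⟨78848, [(44, 333), (28, 6622), (2, 179), (1, 118272)]⟩, ⟨1, []⟩, ⟨78848, [(44, 333), (28,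 6622), (2, 179), (1, 118272)]⟩, ⟨78848, [(44, 999), (28, 19866), (2, 537), (1, 354816)]⟩, ⟨1, []⟩, ⟨78848, [(44, 333), (28, 6622), (2, 179), (1, 118272)]⟩, ⟨39424, [(44, 333), (28, 6622), (2, 179), (1, 118272)]⟩, ⟨1, []⟩, ⟨1, []⟩, ⟨78848, [(44, 333), (28, 6622), (2, 179), (0, 39424)]⟩, ⟨78848, [(44, 333), (28, 6622), (2, 179), (1, 118272)]⟩, ⟨78848, [(44, 333), (28, 6622), (2, 179), (0, 39424)]⟩, ⟨39424, [(44, 333), (28, 6622), (2, 179), (0, 39424)]⟩, ⟨1, []⟩, ⟨39424, [(44, 333), (28, 6622), (2, 179), (0, 39424)]⟩, ⟨78848, [(44, 333), (28, 6622), (2, 179), (1, 118272)]⟩, ⟨1, []⟩, ⟨78848, [(44, 333), (28, 6622), (2, 179), (0, 39424)]⟩, ⟨512, [(44, 333), (28, 6622), (2, 179), (1, 39424)]⟩, ⟨39424, [(44, 333), (28, 6622), (2, 179),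 (1, 39424)]⟩, ⟨9856, [(44, 1665), (28, 33110), (2, 895), (1, 197120)]⟩, ⟨512, [(44, 333), (28, 6622), (2, 179), (1, 39424)]⟩, ⟨1, [(33, 1), (1, 1)]⟩]
def s17_6_t13 : Tree := .dbr (.cons (.ndet 1 [⟨2, [(38, 1), (9, 1)]⟩] (.ddet 0 [⟨154, [(44, 1), (31, 154), (28, 154), (2, 1)]⟩] (.ndet 0 [⟨78848, [(44, 333), (28, 6622), (2, 179), (0, 39424)]⟩] (.ddet 1 [⟨78848, [(44, 999), (28, 19866), (2, 537), (0, 39424)]⟩] (.ndet 0 [⟨2, [(38, 1), (9, 1)]⟩] (.ddet 1 [⟨2, [(38, 1), (9, 1)]⟩] (.ndet 1 [⟨39424, [(44, 333), (28, 6622), (2, 179)]⟩] (.ddet 0 [⟨78848, [(44, 999), (28, 19866), (2, 537), (0, 39424)]⟩] s17_6_t11)))))))) (.cons (.ndet 1 [⟨78848, [(44, 333), (28, 6622), (2, 179), (0, 39424)]⟩] (.ddet 0 [⟨78848, [(44, 999), (28, 19866), (2, 537),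 (1, 39424)]⟩] (.ndet 0 [⟨78848, [(44, 333), (28, 6622), (2, 179), (1, 39424)]⟩] (.ddet 1 [⟨78848, [(44, 999), (28, 19866), (2, 537), (1, 197120)]⟩] (.ndet 0 [⟨78848, [(44, 333), (28, 6622), (2, 179), (0, 39424)]⟩] (.ddet 1 [⟨78848, [(44, 333), (28, 6622), (2, 179), (0, 39424)]⟩] (.ndet 1 [⟨39424, [(44, 333), (28, 6622), (2, 179), (1, 39424)]⟩] (.ddet 0 [⟨78848, [(44, 999), (28, 19866), (2, 537), (1, 197120)]⟩] s17_6_t12)))))))) .nil))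
def s17_6_t14 : Tree := .ndet 0 [⟨2, [(28, 1), (25, 1)]⟩] (.dbr (.cons (.ndet 0 [⟨154, [(43, 1), (35, 154), (1, 1)]⟩] (.ddet 1 [⟨39424, [(43, 333), (27, 6622), (1, 179), (0, 39424)]⟩] (.ndet 1 [⟨3, [(33, 1), (26, 1), (7, 1)]⟩] s17_6_t10))) (.cons (.ndet 0 [⟨154, [(43, 1), (35, 154), (1, 1)]⟩] (.ddet 1 [⟨39424, [(43, 333), (27, 6622), (1, 179)]⟩] (.ndet 1 [⟨78848, [(43, 333), (27, 6622), (1, 179), (0, 39424)]⟩] s17_6_t13))) .nil)))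
def s17_6_n0 : Node := ⟨[⟨[0, 0, 0, -1, 1], -200⟩, ⟨[0, 0, -1, 0, 1], -200⟩, ⟨[0, -1, 0, 0, 1], -200⟩, ⟨[-1, 0, 0, 0, 1], -200⟩, ⟨[213, 256, -43, 43, -246], 6536442⟩, ⟨[0, -256, -255, -255, -179], 52086153⟩, ⟨[213, 256, -43, 43, -179], 50862180⟩, ⟨[-211, 45, -256, 256, -35], 6545974⟩, ⟨[-211, 45, -256, 256, -25], 13169224⟩, ⟨[0, -1, -1, -1, -1], 9760⟩, ⟨[0, 0, -1, -1, -1], 11708⟩, ⟨[0, 1, -1, -1, -1], 11702⟩, ⟨[1, 0, 0, -1, -1], 3760⟩, ⟨[1, 1, 0, -1, -1], 5673⟩, ⟨[0, 0, -1, 0, -1], 5680⟩, ⟨[1, 0, -1, 0, -1], 5840⟩, ⟨[0, 1, -1, 0, -1], 5711⟩, ⟨[1, 1, 0, 0, -1], -1020⟩, ⟨[0, 1, -1, 1, -1], -1040⟩, ⟨[1, 1, -1, 1, -1], 1800⟩, ⟨[-1, -1, -1, -1], 11727⟩, ⟨[-1, 1, -1, -1], 11715⟩, ⟨[1, 0, 1, -1], -2260⟩, ⟨[1, 1, 1, -1], -343⟩, ⟨[-1, -1,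 -1], 4960⟩, ⟨[1, 1, 1], -7040⟩, ⟨[-1, 0, -1, 1], -1060⟩, ⟨[-1, 1, -1, 1], -269⟩, ⟨[0, 1, 0, 1], -7020⟩, ⟨[-1, -1, 0, -1, 1], 5710⟩, ⟨[-1, 1, 0, -1, 1], 5698⟩, ⟨[0, -1, 1, -1, 1], -2280⟩, ⟨[0, 0, 1, -1, 1], -325⟩, ⟨[0, 1, 1, -1, 1], -331⟩, ⟨[-1, -1, 0, 0, 1], -1020⟩, ⟨[0, 0, 1, 0, 1], -6320⟩, ⟨[1, 0, 1, 0, 1], -6200⟩, ⟨[0, 1, 1, 0, 1], -6323⟩, ⟨[-1, -1, -1, 1, 1], 1760⟩, ⟨[0, -1, -1, 1, 1], 1880⟩, ⟨[-1, 0, 0, 1, 1], -7040⟩, ⟨[1, 0, 0, 1, 1], -4120⟩, ⟨[-1, 1, 0, 1, 1], -6285⟩, ⟨[0, 1, 1, 1, 1], -13040⟩, ⟨[1, 1, 1, 1, 1], -10240⟩, ⟨[-211, 45, -256, 256, 32], 50879180⟩, ⟨[-213, -256, 43, -43, 257], 401439⟩, ⟨[-213, -256, 43, -43, 276], 13151304⟩, ⟨[-213, -256, 43, -43, 333], 50844160⟩], [0, 0, 0, 0, 1], 0, none, s17_6_t14⟩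
def s17_6 : Sys := ⟨[(0, -2000), (4, 2000)], [(1, 2000), (2, 4000)], 5, [s17_6_n0], [1465958, -2395415, -1471958, 2389415], (.ndet 1 [⟨1, []⟩] (.ddet 0 [⟨1, []⟩] (.leaf 0 [⟨1, []⟩, ⟨1, []⟩, ⟨1, []⟩, ⟨1, []⟩, ⟨1, []⟩, ⟨1, []⟩, ⟨1, []⟩, ⟨1, []⟩, ⟨1, []⟩, ⟨1, []⟩, ⟨1, []⟩, ⟨1, []⟩, ⟨1, []⟩, ⟨1, []⟩, ⟨1, []⟩, ⟨1, []⟩, ⟨1, []⟩, ⟨1, []⟩, ⟨1, []⟩, ⟨1, []⟩, ⟨1, []⟩, ⟨1, []⟩, ⟨1, []⟩, ⟨1, []⟩, ⟨1, []⟩, ⟨1, []⟩, ⟨1, []⟩, ⟨1, []⟩, ⟨1, []⟩, ⟨1, []⟩, ⟨1, []⟩, ⟨1, []⟩, ⟨1, []⟩, ⟨1, []⟩, ⟨1, []⟩, ⟨1, []⟩, ⟨1, []⟩, ⟨1, []⟩, ⟨1, []⟩, ⟨1, []⟩, ⟨1, []⟩, ⟨1, []⟩, ⟨1, []⟩, ⟨1, []⟩, ⟨1, []⟩, ⟨1, []⟩, ⟨1, []⟩, ⟨1, []⟩, ⟨1, []⟩])))⟩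

theorem s17_6_ok : s17_6.ok = true := by decide +kernel

def s18_14_n0 : Node := ⟨[⟨[-1, 0, 0, 1], 672⟩, ⟨[-1, 0, 1], 480⟩, ⟨[0, -1, 1], 256⟩, ⟨[0, 0, -2, 1], 256⟩, ⟨[-1, 0, -1, 1], 640⟩, ⟨[0, -1, -1, 1], 416⟩, ⟨[0, -1], 288⟩, ⟨[0, 0, -1, 1], 224⟩, ⟨[-1, 0, 1, -1], 256⟩, ⟨[0, 0, -2, 2], 480⟩, ⟨[0, 0, -1], 0⟩, ⟨[0, 0, -2, 2], 544⟩, ⟨[0, 0, -1, 1], 256⟩, ⟨[0, 0, -1, 1], 320⟩], [0, 0, 0, 1], 0, none, (.ndet 1 [⟨1, [(12, 1), (0, 1)]⟩] (.ddet 2 [⟨1, [(12, 1)]⟩, ⟨1, [(11, 1)]⟩] (.ndet 0 [⟨1, [(3, 1), (0, 1)]⟩] (.ddet 0 [⟨1, [(5, 1), (0, 2)]⟩, ⟨1, [(7, 1), (0, 1)]⟩] (.ndet 0 [⟨1, [(7, 1)]⟩] (.ddet 1 [⟨1, [(0, 1)]⟩, ⟨1, [(5, 1), (0, 2)]⟩] (.ndet 0 [⟨1, [(5, 1)]⟩] (.ddet 2 [⟨1, [(0, 2)]⟩, ⟨1, [(0, 1)]⟩] (.leaf 0 [⟨1, [(0, 3)]⟩, ⟨1, [(0,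 2)]⟩, ⟨1, [(0, 1)]⟩, ⟨1, [(0, 1)]⟩, ⟨1, [(0, 3)]⟩, ⟨1, [(0, 2)]⟩, ⟨1, [(0, 1)]⟩, ⟨1, [(0, 1)]⟩, ⟨1, [(0, 1)]⟩, ⟨1, [(0, 2)]⟩, ⟨1, []⟩, ⟨1, [(0, 2)]⟩, ⟨1, [(0, 1)]⟩, ⟨1, [(0, 1)]⟩, ⟨1, [(3, 1)]⟩])))))))))⟩
def s18_14 : Sys := ⟨[(1, 0), (4, 0)], [(1, 64), (2, 0), (3, -64)], 4, [s18_14_n0], [-896, -512, -64, 448], (.leaf 0 [⟨1, []⟩, ⟨1, []⟩, ⟨1, []⟩, ⟨1, []⟩, ⟨1, []⟩, ⟨1, []⟩, ⟨1, []⟩, ⟨1, []⟩, ⟨1, []⟩, ⟨1, []⟩, ⟨1, []⟩, ⟨1, []⟩, ⟨1, []⟩, ⟨1, []⟩])⟩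

theorem s18_14_ok : s18_14.ok = true := by decide +kernel

def s20_4_n0 : Node := ⟨[⟨[0, -1, 0, 1], -8⟩, ⟨[-1, 0, 1], -16⟩, ⟨[0, -2, 0, 1], 0⟩, ⟨[-2, 0, 1], 0⟩, ⟨[0, -1], -40⟩], [0, 0, 0, 1], 0, none, (.ndet 1 [⟨1, [(4, 1)]⟩] (.ddet 0 [] (.ndet 1 [⟨1, [(3, 1)]⟩] (.ddet 0 [] (.ndet 0 [⟨1, [(2, 1)]⟩] (.ddet 0 [] (.ndet 0 [⟨1, [(1, 1)]⟩] (.ddet 0 [] (.leaf 0 [⟨1, [(4, 1)]⟩, ⟨1, [(3, 1)]⟩, ⟨1, [(4, 1)]⟩, ⟨1, [(3, 1)]⟩, ⟨1, []⟩, ⟨1, [(0, 1)]⟩])))))))))⟩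
def s20_4 : Sys := ⟨[(2, -16), (4, 32)], [(2, -32)], 4, [s20_4_n0], [0, 16, 16, 48], (.leaf 0 [⟨1, []⟩, ⟨1, []⟩, ⟨1, []⟩, ⟨1, []⟩, ⟨1, []⟩])⟩

theorem s20_4_ok : s20_4.ok = true := by decide +kernel

def s21_8_n0 : Node := ⟨[⟨[0, 1], 621⟩, ⟨[0, 1, 0, -1], 249⟩, ⟨[-1], 344⟩, ⟨[0, 0, -1], 217⟩, ⟨[0, 0, -1], 193⟩, ⟨[0, 1], 645⟩], [0, 1], 0, none, (.ndet 1 [⟨1, [(0, 1)]⟩, ⟨1, [(4, 1)]⟩] (.ddet 0 [] (.ndet 0 [⟨1, [(3, 1)]⟩, ⟨1, [(2, 1)]⟩] (.ddet 0 [] (.leaf 0 [⟨1, [(2, 1), (0, 1)]⟩, ⟨1, [(2, 1)]⟩, ⟨1, [(0, 1)]⟩, ⟨1, [(3, 1)]⟩, ⟨1, [(3, 1)]⟩, ⟨1, [(2, 1), (0, 1)]⟩, ⟨1, [(2, 1)]⟩])))))⟩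
def s21_8 : Sys := ⟨[(0, 80), (2, 48), (4, 48)], [(3, -32)], 4, [s21_8_n0], [-704, 1184, -480, 816], (.leaf 0 [⟨1, []⟩, ⟨1, []⟩, ⟨1, []⟩, ⟨1, []⟩, ⟨1, []⟩, ⟨1, []⟩])⟩

theorem s21_8_ok : s21_8.ok = true := by decide +kernel

def s23_15_n0 : Node := ⟨[⟨[0, 0, 0, 1], 376⟩, ⟨[-1, 0, 0, 1], 488⟩, ⟨[0, -1, 0, 1], 376⟩, ⟨[-1], 120⟩, ⟨[0, -1], 8⟩, ⟨[0, 0, -1], 8⟩, ⟨[0, 0, 0, 1], 384⟩, ⟨[-1, 0, 0, 1], 496⟩, ⟨[0, 0, -1, 1], 400⟩, ⟨[0, -1, 0, 1], 384⟩, ⟨[0, 0, 0, 1], 368⟩, ⟨[0, -1, 0, 1], 400⟩, ⟨[-1], 128⟩], [0, 0, 0, 1], 0, none, (.ndet 3 [⟨1, [(6, 1)]⟩, ⟨1, [(6, 1), (0, 1)]⟩, ⟨1, [(1, 1)]⟩] (.ddet 0 [⟨1, [(0, 1)]⟩, ⟨1, [(8, 1)]⟩, ⟨1, [(7, 1)]⟩] (.ndet 1 [⟨1, [(6, 1)]⟩, ⟨1, [(6, 1), (0, 1)]⟩, ⟨1, [(4, 1)]⟩] (.ddet 1 [⟨1, [(6, 1)]⟩, ⟨1, [(6,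 1), (0, 1)]⟩, ⟨1, [(1, 1)]⟩] (.ndet 2 [⟨1, [(6, 1)]⟩, ⟨1, [(6, 1)]⟩, ⟨1, [(1, 1)]⟩] (.ddet 2 [⟨1, [(6, 1)]⟩, ⟨1, [(6, 1)]⟩, ⟨1, [(6, 1), (0, 1)]⟩] (.ndet 0 [⟨1, []⟩, ⟨1, []⟩, ⟨1, [(0, 1)]⟩] (.ddet 3 [⟨1, [(6, 1)]⟩, ⟨1, [(6, 1)]⟩, ⟨1, [(6, 1)]⟩] (.leaf 0 [⟨1, [(6, 1)]⟩, ⟨1, [(6, 2)]⟩, ⟨1, [(6, 1)]⟩, ⟨1, [(6, 1)]⟩, ⟨1, []⟩, ⟨1, []⟩, ⟨1, [(6, 1)]⟩, ⟨1, [(6, 2)]⟩, ⟨1, [(6, 1)]⟩, ⟨1, [(6, 1)]⟩, ⟨1, [(6, 1)]⟩, ⟨1, [(6, 1)]⟩, ⟨1, [(6, 1)]⟩, ⟨1, []⟩])))))))))⟩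
def s23_15 : Sys := ⟨[(0, 0), (1, -16), (2, -16), (4, 16)], [(0, 0), (1, 0), (2, 0), (3, 0)], 4, [s23_15_n0], [-240, -16, -16, 768], (.leaf 0 [⟨1, []⟩, ⟨1, []⟩, ⟨1, []⟩, ⟨1, []⟩, ⟨1, []⟩, ⟨1, []⟩, ⟨1, []⟩, ⟨1, []⟩, ⟨1, []⟩, ⟨1, []⟩, ⟨1, []⟩, ⟨1, []⟩, ⟨1, []⟩])⟩

theorem s23_15_ok : s23_15.ok = true := by decide +kernel

def s28_20_n0 : Node := ⟨[⟨[0, -1, 0, 1], 8⟩, ⟨[0, 0, -1, 1], 56⟩, ⟨[0, -1, 0, 1], 16⟩, ⟨[1, -1], 168⟩, ⟨[1, 0, -1], 160⟩, ⟨[1, 0, -1], 152⟩, ⟨[1], 96⟩, ⟨[1, -1], 112⟩, ⟨[0, 1], -8⟩, ⟨[0, -1], -40⟩], [1], 0, none, (.ndet 2 [⟨1, [(7, 1)]⟩, ⟨1, [(8, 1)]⟩] (.ddet 1 [⟨1, [(7, 1)]⟩] (.ndet 0 [⟨1, [(6, 1)]⟩, ⟨1, [(5, 1)]⟩] (.ddet 0 [⟨1, [(5, 1)]⟩] (.ndet 1 [⟨1, [(6, 1), (1, 1)]⟩, ⟨1, [(6, 1)]⟩] (.ddet 1 [⟨1, [(1, 1)]⟩]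 (.leaf 0 [⟨1, [(6, 1), (1, 1)]⟩, ⟨1, [(6, 1), (1, 1)]⟩, ⟨1, [(6, 1), (1, 1)]⟩, ⟨1, [(6, 1)]⟩, ⟨1, [(6, 1)]⟩, ⟨1, [(6, 1)]⟩, ⟨1, [(6, 1)]⟩, ⟨1, [(6, 1)]⟩, ⟨1, []⟩, ⟨1, []⟩, ⟨1, [(0, 1)]⟩])))))))⟩
def s28_20 : Sys := ⟨[(2, -48), (3, 64), (4, 64)], [(2, -80), (4, 16)], 4, [s28_20_n0], [256, 32, 48, 160], (.leaf 0 [⟨1, []⟩, ⟨1, []⟩, ⟨1, []⟩, ⟨1, []⟩, ⟨1, []⟩, ⟨1, []⟩, ⟨1, []⟩, ⟨1, []⟩, ⟨1, []⟩, ⟨1, []⟩])⟩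

theorem s28_20_ok : s28_20.ok = true := by decide +kernel

def s29_21_n0 : Node := ⟨[⟨[0, 0, 0, 1], 8⟩, ⟨[0, -1, 0, 1], 32⟩, ⟨[0, 0, -1, 1], 48⟩, ⟨[0, 0, 0, 1], -24⟩, ⟨[0, -1, 0, 1], 40⟩, ⟨[1], 32⟩, ⟨[1, -1], 80⟩, ⟨[1, 0, -1], 56⟩, ⟨[1], -8⟩, ⟨[1, 0, -1], 48⟩, ⟨[1], 8⟩, ⟨[1], -24⟩, ⟨[1, -1], 40⟩, ⟨[0, -1], 56⟩], [1], 0, none, (.ndet 3 [⟨1, [(13, 1)]⟩, ⟨1, [(13, 1), (0, 1)]⟩, ⟨1, [(11, 1)]⟩] (.ddet 2 [⟨1, [(13, 1)]⟩, ⟨1, [(13, 1), (0, 1)]⟩] (.ndet 1 [⟨1, [(8, 1)]⟩, ⟨1, [(8, 1), (0, 1)]⟩, ⟨1, [(6, 1)]⟩] (.ddet 1 [⟨1, [(8, 1)]⟩, ⟨1, [(6, 1)]⟩] (.ndet 2 [⟨1, [(8, 1)]⟩, ⟨1, [(8, 1)]⟩, ⟨1, [(8, 1), (0, 1)]⟩] (.ddet 1 [⟨1, []⟩, ⟨1, [(0, 1)]⟩] (.leaf 0 [⟨1, [(8, 1)]⟩, ⟨1, [(8, 1)]⟩, ⟨1, [(8, 1)]⟩, ⟨1, [(8, 1)]⟩, ⟨1, [(8, 1)]⟩, ⟨1, [(8,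 1)]⟩, ⟨1, [(8, 1)]⟩, ⟨1, [(8, 1)]⟩, ⟨1, [(8, 1)]⟩, ⟨1, [(8, 1)]⟩, ⟨1, [(8, 1)]⟩, ⟨1, [(8, 1)]⟩, ⟨1, [(8, 1)]⟩, ⟨1, []⟩, ⟨1, []⟩])))))))⟩
def s29_21 : Sys := ⟨[(0, -16), (2, -32), (3, 16), (4, -16)], [(0, -32), (2, 32), (4, 32)], 4, [s29_21_n0], [48, -64, -48, 16], (.leaf 0 [⟨1, []⟩, ⟨1, []⟩, ⟨1, []⟩, ⟨1, []⟩, ⟨1, []⟩, ⟨1, []⟩, ⟨1, []⟩, ⟨1, []⟩, ⟨1, []⟩, ⟨1, []⟩, ⟨1, []⟩, ⟨1, []⟩, ⟨1, []⟩, ⟨1, []⟩])⟩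

theorem s29_21_ok : s29_21.ok = true := by decide +kernel

def s30_21_n0 : Node := ⟨[⟨[-1, 1], 24⟩, ⟨[0, 1, -1], 88⟩, ⟨[0, 1, 0, -1], 56⟩, ⟨[0, 1], 24⟩, ⟨[0, 1, 0, -1], 64⟩, ⟨[0, 1], -32⟩, ⟨[-1, 1], 0⟩, ⟨[0, 1, -1], 24⟩, ⟨[0, 0, 1], -48⟩, ⟨[-1, 0, 1], -32⟩, ⟨[0, 0, 1], -40⟩, ⟨[0, 1], 8⟩, ⟨[-1, 1], 64⟩, ⟨[0, 1], 0⟩, ⟨[-1, 0, -1], 32⟩], [1, 1], 0, none, (.ndet 1 [⟨1, [(2, 1)]⟩, ⟨1, [(13, 1)]⟩, ⟨1, [(10, 1)]⟩] (.ddet 1 [⟨1, [(13, 1), (4, 1)]⟩, ⟨1, [(10, 1)]⟩] (.ndet 2 [⟨1, [(13, 1), (4, 1)]⟩, ⟨1, [(2, 1)]⟩, ⟨1, [(13, 1)]⟩] (.ddet 2 [⟨1, [(4, 1)]⟩, ⟨1, [(5, 1)]⟩] (.ndet 3 [⟨1, [(4, 1)]⟩, ⟨1, [(13, 1), (4, 1)]⟩, ⟨1, [(2, 1)]⟩] (.ddet 2 [⟨1, [(13, 1), (4, 1)]⟩, ⟨1, [(13, 1), (4, 1)]⟩] (.leaf 0 [⟨1, [(13, 1)]⟩, ⟨1, [(13, 1)]⟩, ⟨2, [(13,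 1), (2, 1), (0, 1)]⟩, ⟨1, [(13, 1)]⟩, ⟨2, [(13, 1), (2, 1), (0, 1)]⟩, ⟨1, [(13, 1)]⟩, ⟨1, [(13, 1)]⟩, ⟨1, [(13, 1)]⟩, ⟨1, []⟩, ⟨1, []⟩, ⟨1, []⟩, ⟨1, [(13, 1)]⟩, ⟨1, [(13, 1)]⟩, ⟨1, [(13, 1)]⟩, ⟨1, []⟩, ⟨1, [(0, 1)]⟩])))))))⟩
def s30_21 : Sys := ⟨[(1, -48), (2, -16), (3, 64), (4, 16)], [(0, -16), (2, 0), (4, 48)], 4, [s30_21_n0], [-16, 64, -32, -16], (.leaf 0 [⟨1, []⟩, ⟨1, []⟩, ⟨1, []⟩, ⟨1, []⟩, ⟨1, []⟩, ⟨1, []⟩, ⟨1, []⟩, ⟨1, []⟩, ⟨1, []⟩, ⟨1, []⟩, ⟨1, []⟩, ⟨1, []⟩, ⟨1, []⟩, ⟨1, []⟩, ⟨1, []⟩])⟩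

theorem s30_21_ok : s30_21.ok = true := by decide +kernel

def s31_7_n0 : Node := ⟨[⟨[0, 0, 1], 0⟩, ⟨[-1, 0, 1], 8⟩, ⟨[0, -1, 1], 8⟩, ⟨[0, 0, 1, -1], 0⟩, ⟨[-1], 8⟩, ⟨[0, -1], 8⟩, ⟨[0, 0, 1], 8⟩, ⟨[-1, 0, 1], 16⟩, ⟨[0, -1, 1], 32⟩, ⟨[-1, 0, 1], 32⟩, ⟨[0, -1, 1], 16⟩], [0, 0, 1], 0, none, (.ndet 3 [⟨1, [(4, 1)]⟩, ⟨1, [(1, 1)]⟩, ⟨1, [(2, 1)]⟩, ⟨1, [(7, 1)]⟩] (.ddet 0 [⟨1, [(6, 1)]⟩, ⟨1, [(5, 1)]⟩] (.ndet 1 [⟨1, [(4, 1)]⟩, ⟨1, [(1, 1)]⟩, ⟨1, [(2, 1)]⟩, ⟨1, []⟩] (.ddet 1 [⟨1, [(4, 1)]⟩, ⟨1, [(1, 1)]⟩] (.ndet 2 [⟨1, [(4, 1)]⟩, ⟨1, [(4, 1)]⟩, ⟨1, [(1, 1)]⟩, ⟨1, [(2, 1)]⟩] (.ddet 2 [⟨1, [(4, 1)]⟩, ⟨1, [(4, 1)]⟩] (.leaf 0 [⟨1, [(4, 1)]⟩, ⟨1, [(4, 1)]⟩, ⟨1, [(4, 1)]⟩, ⟨1, [(1, 1)]⟩, ⟨1, []⟩, ⟨1, []⟩, ⟨1, [(4, 1)]⟩, ⟨1, [(4, 1)]⟩, ⟨1, [(4,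 1)]⟩, ⟨1, [(4, 1)]⟩, ⟨1, [(4, 1)]⟩, ⟨1, []⟩])))))))⟩
def s31_7 : Sys := ⟨[(0, -16), (1, -16), (2, -16), (3, 16), (4, -16)], [(0, 0), (1, 0), (2, 0)], 4, [s31_7_n0], [-16, -16, 32, 0], (.leaf 0 [⟨1, []⟩, ⟨1, []⟩, ⟨1, []⟩, ⟨1, []⟩, ⟨1, []⟩, ⟨1, []⟩, ⟨1, []⟩, ⟨1, []⟩, ⟨1, []⟩, ⟨1, []⟩, ⟨1, []⟩])⟩

theorem s31_7_ok : s31_7.ok = true := by decide +kernel

end Pool.Agent.H81.RDE.Data
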