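import Pool.Agent.H81.RDE.System

/-! Data file (generated): certificates. -/

set_option maxRecDepth 100000

namespace Pool.Agent.H81.RDE.Data

def s7_8_t0 : Tree := .ddet 0 [] (.ndet 2 [⟨1, [(8, 1)]⟩, ⟨1, [(9, 1)]⟩] (.ddet 0 [] (.ndet 1 [⟨1, [(4, 1)]⟩, ⟨1, [(11, 1)]⟩] (.ddet 0 [] (.ndet 2 [⟨1, [(4, 1)]⟩, ⟨1, [(8, 1)]⟩] (.ddet 0 [] (.ndet 1 [⟨1, [(11, 1)]⟩, ⟨1, [(9, 1)]⟩] (.ddet 0 [] (.leaf 0 [⟨1, [(11, 1)]⟩, ⟨1, [(4, 1)]⟩, ⟨1, [(9, 1)]⟩, ⟨1, [(8, 1)]⟩, ⟨1, [(9, 1)]⟩, ⟨1, [(11, 1)]⟩, ⟨1, [(8, 1)]⟩, ⟨1, [(4, 1)]⟩, ⟨1, [(8, 1)]⟩, ⟨1, [(9, 1)]⟩, ⟨1, [(4, 1)]⟩, ⟨1, [(8, 1)]⟩, ⟨1, []⟩])))))))))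
def s7_8_n0 : Node := ⟨[⟨[0, 1], 32⟩, ⟨[-1, 1], 32⟩, ⟨[0, 1, -1], 128⟩, ⟨[-1, 1, -1], 160⟩, ⟨[0, 1, -1], 96⟩, ⟨[0, 1], 0⟩, ⟨[-1, 1, -1], 128⟩, ⟨[-1, 1], 64⟩, ⟨[-1, 1, -1], 96⟩, ⟨[0, 1, -1], 64⟩, ⟨[-1, 1], 0⟩, ⟨[-1, 1, -1], 64⟩], [0, 1], 0, none, (.ndet 2 [⟨1, [(11, 1)]⟩, ⟨1, [(4, 1)]⟩] (.ddet 0 [] (.ndet 1 [⟨1, [(9, 1)]⟩, ⟨1, [(8, 1)]⟩] (.ddet 0 [] (.ndet 2 [⟨1, [(9, 1)]⟩, ⟨1, [(11, 1)]⟩] (.ddet 0 [] (.ndet 1 [⟨1, [(8, 1)]⟩, ⟨1, [(4, 1)]⟩] s7_8_t0)))))))⟩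
def s7_8 : Sys := ⟨[(0, -64), (1, -128), (2, -64)], [(3, -128)], 3, [s7_8_n0], [-64, 64, -192, 0], (.leaf 0 [⟨1, []⟩, ⟨1, []⟩, ⟨1, []⟩, ⟨1, []⟩, ⟨1, []⟩, ⟨1, []⟩, ⟨1, []⟩, ⟨1, []⟩, ⟨1, []⟩, ⟨1, []⟩, ⟨1, []⟩, ⟨1, []⟩])⟩

theorem s7_8_ok : s7_8.ok = true := by decide +kernel

def s9_22_n0 : Node := ⟨[⟨[0, 0, -1], 24⟩, ⟨[1, -1], 72⟩, ⟨[1, 0, 0, -1], 16⟩, ⟨[0, -1], 24⟩, ⟨[2], 96⟩, ⟨[1, 0, -1], 64⟩, ⟨[1], 48⟩, ⟨[1, 1], 32⟩, ⟨[0, -1], 16⟩], [1], 0, none, (.ndet 0 [⟨1, [(8, 1)]⟩] (.ddet 0 [⟨1, [(5, 2), (1, 1)]⟩, ⟨1, [(6, 1)]⟩] (.ndet 0 [⟨1, [(5, 1)]⟩] (.ddet 1 [⟨1, [(5, 2), (1, 2)]⟩, ⟨1, [(8, 1), (5, 1), (1, 1)]⟩] (.ndet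 1 [⟨1, [(5, 1), (1, 1)]⟩] (.ddet 2 [⟨1, [(1, 1)]⟩, ⟨1, [(1, 1)]⟩] (.leaf 0 [⟨1, [(5, 1), (1, 1)]⟩, ⟨1, [(5, 3), (1, 2)]⟩, ⟨1, [(5, 1)]⟩, ⟨1, [(5, 1), (1, 1)]⟩, ⟨1, [(5, 4), (1, 2)]⟩, ⟨1, [(5, 3), (1, 2)]⟩, ⟨1, [(5, 2), (1, 1)]⟩, ⟨1, [(5, 1)]⟩, ⟨1, [(5, 1), (1, 1)]⟩, ⟨1, [(5, 1)]⟩])))))))⟩
def s9_22 : Sys := ⟨[(0, 16), (3, 16)], [(1, 16), (2, 16), (4, 0)], 4, [s9_22_n0], [96, -48, -48, 48], (.leaf 0 [⟨1, []⟩, ⟨1, []⟩, ⟨1, []⟩, ⟨1, []⟩, ⟨1, []⟩, ⟨1, []⟩, ⟨1, []⟩, ⟨1, []⟩, ⟨1, []⟩])⟩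

theorem s9_22_ok : s9_22.ok = true := by decide +kernel

def s11_21_n0 : Node := ⟨[⟨[-1], -16⟩, ⟨[0, 0, -1], 224⟩, ⟨[0, 1], 240⟩, ⟨[0, 1, 0, -1], 248⟩, ⟨[0, 2], 464⟩, ⟨[-1], 8⟩, ⟨[0, 1], 256⟩, ⟨[-1, 1], 264⟩, ⟨[0, 2], 488⟩], [0, 1], 0, none, (.ndet 0 [⟨1, [(3, 1)]⟩, ⟨1, [(7, 1)]⟩] (.ddet 1 [⟨1, [(2, 1)]⟩, ⟨1, [(5, 1)]⟩] (.ndet 2 [⟨1, [(2, 1)]⟩, ⟨1, [(2, 2)]⟩] (.ddet 0 [⟨1, [(3, 1)]⟩, ⟨1, [(7, 1)]⟩] (.ndet 1 [⟨1, [(2, 1)]⟩, ⟨1, [(1, 1)]⟩] (.ddet 2 [⟨1, [(2, 1)]⟩, ⟨1, [(2, 2)]⟩] (.leaf 0 [⟨1, []⟩, ⟨1, [(2, 1)]⟩, ⟨1, [(2, 1)]⟩, ⟨1, [(1, 1)]⟩, ⟨1, [(2, 2)]⟩, ⟨1, []⟩, ⟨1, [(2, 1)]⟩, ⟨1, [(2, 1)]⟩, ⟨1, [(2, 2)]⟩, ⟨1, []⟩])))))))⟩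
def s11_21 : Sys := ⟨[(0, 32), (1, -16), (3, 32)], [(0, 16), (2, 16), (4, 16)], 4, [s11_21_n0], [-16, 480, -448, -16], (.leaf 0 [⟨1, []⟩, ⟨1, []⟩, ⟨1, []⟩, ⟨1, []⟩, ⟨1, []⟩, ⟨1, []⟩, ⟨1, []⟩, ⟨1, []⟩, ⟨1, []⟩])⟩

theorem s11_21_ok : s11_21.ok = true := by decide +kernel

def s12_23_n0 : Node := ⟨[⟨[0, 1, -1], 48⟩, ⟨[0, 1], 8⟩, ⟨[-1, 1], 48⟩, ⟨[0, 1, 0, -1], 40⟩, ⟨[-1, 1], 40⟩, ⟨[-1], 48⟩, ⟨[0, 0, -1], 16⟩, ⟨[-1], 72⟩, ⟨[0, 1], 0⟩, ⟨[0, 1], 16⟩], [0, 1], 0, none, (.ndet 0 [⟨1, [(9, 1)]⟩] (.ddet 2 [⟨1, [(0, 1)]⟩, ⟨1, [(2, 1), (0, 1)]⟩, ⟨1, [(6, 1)]⟩] (.ndet 1 [⟨1, [(2, 1), (0, 1)]⟩] (.ddet 0 [⟨1, []⟩, ⟨1, [(2, 1)]⟩,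 ⟨1, [(3, 1)]⟩] (.ndet 0 [⟨1, [(2, 1)]⟩] (.ddet 1 [⟨1, [(0, 1)]⟩, ⟨1, [(0, 1)]⟩, ⟨1, []⟩] (.leaf 0 [⟨1, [(0, 1)]⟩, ⟨1, [(0, 1)]⟩, ⟨1, [(0, 2)]⟩, ⟨1, [(2, 1), (0, 1)]⟩, ⟨1, [(0, 2)]⟩, ⟨1, [(0, 1)]⟩, ⟨1, []⟩, ⟨1, [(0, 1)]⟩, ⟨1, [(0, 1)]⟩, ⟨1, [(0, 1)]⟩, ⟨1, []⟩])))))))⟩
def s12_23 : Sys := ⟨[(2, -16), (3, 16)], [(0, 0), (1, 0), (2, 16), (4, 0)], 4, [s12_23_n0], [-80, 32, -32, -64], (.leaf 0 [⟨1, []⟩, ⟨1, []⟩, ⟨1, []⟩, ⟨1, []⟩, ⟨1, []⟩, ⟨1, []⟩, ⟨1, []⟩, ⟨1, []⟩, ⟨1, []⟩, ⟨1, []⟩])⟩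

theorem s12_23_ok : s12_23.ok = true := by decide +kernel

def s14_8_n0 : Node := ⟨[⟨[-1, 0, 1], -40⟩, ⟨[0, -1, 1], 24⟩, ⟨[1], -16⟩, ⟨[1, -1], 24⟩, ⟨[0, -1], 8⟩, ⟨[0, 1], -32⟩, ⟨[1], 24⟩], [1], 0, none, (.ndet 2 [⟨1, [(6, 1)]⟩, ⟨1, [(5, 1)]⟩] (.ddet 0 [] (.ndet 1 [⟨1, [(0, 1)]⟩, ⟨1, [(2, 1), (0, 1)]⟩] (.ddet 0 [] (.leaf 0 [⟨1, [(1, 1)]⟩, ⟨1, [(0, 1)]⟩, ⟨1, [(2, 1), (0, 1)]⟩, ⟨1, [(2, 1), (0, 1)]⟩, ⟨1, []⟩, ⟨1, []⟩, ⟨1, [(2, 1), (0, 1)]⟩, ⟨1, [(2, 1)]⟩])))))⟩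
def s14_8 : Sys := ⟨[(1, -32), (2, 32), (3, 16)], [(3, 32)], 3, [s14_8_n0], [48, -16, 16, 0], (.leaf 0 [⟨1, []⟩, ⟨1, []⟩, ⟨1, []⟩, ⟨1, []⟩, ⟨1, []⟩, ⟨1, []⟩, ⟨1, []⟩])⟩

theorem s14_8_ok : s14_8.ok = true := by decide +kernel

def s16_9_n0 : Node := ⟨[⟨[0, 0, 1], 24⟩, ⟨[0, -1], 108⟩, ⟨[1], 36⟩, ⟨[0, 0, 1, -1], 120⟩, ⟨[1, -1], 168⟩], [1, 0, 1], 0, none, (.ndet 0 [] (.ddet 1 [⟨1, [(4, 1)]⟩] (.ndet 0 [] (.ddet 0 [⟨1, [(3, 1)]⟩] (.leaf 0 [⟨1, [(2, 1)]⟩, ⟨1, [(1, 1)]⟩, ⟨1, [(4, 1)]⟩, ⟨1, [(0, 1)]⟩, ⟨1, [(4, 1), (1, 1)]⟩, ⟨1, []⟩])))))⟩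
def s16_9 : Sys := ⟨[(4, 32)], [(0, -16), (3, 32)], 4, [s16_9_n0], [192, -256, 48, -80], (.leaf 0 [⟨1, []⟩, ⟨1, []⟩, ⟨1, []⟩, ⟨1, []⟩, ⟨1, []⟩])⟩

theorem s16_9_ok : s16_9.ok = true := by decide +kernel

def s18_6_n0 : Node := ⟨[⟨[1, 0, 0, -1], 160⟩, ⟨[1, -1], 280⟩, ⟨[0, 0, -1], -24⟩, ⟨[1], 256⟩, ⟨[1, 1], 304⟩, ⟨[1], 216⟩, ⟨[1, -1], 200⟩, ⟨[1, 1], 384⟩, ⟨[0, -1], -96⟩], [1], 0, none, (.ndet 0 [⟨1, [(8, 1)]⟩] (.ddet 0 [⟨1, [(7, 1)]⟩] (.ndet 0 [⟨1, [(6, 1)]⟩] (.ddet 1 [⟨2, [(7, 1), (1, 1)]⟩] (.ndet 1 [⟨1, [(1, 1)]⟩] (.ddet 1 [⟨2, [(7, 1), (1, 1)]⟩] (.ndet 1 [⟨1, [(7, 1)]⟩] (.ddet 0 [⟨1, [(1, 1)]⟩] (.leaf 0 [⟨1, [(7,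 1)]⟩, ⟨1, [(7, 1), (0, 1)]⟩, ⟨2, [(7, 1), (1, 1)]⟩, ⟨1, [(7, 1)]⟩, ⟨2, [(7, 1), (1, 1)]⟩, ⟨1, [(7, 1)]⟩, ⟨1, [(7, 1), (0, 1)]⟩, ⟨2, [(7, 1), (1, 1)]⟩, ⟨1, [(0, 1)]⟩, ⟨1, [(0, 1)]⟩])))))))))⟩
def s18_6 : Sys := ⟨[(1, 64), (4, 80)], [(1, -80), (2, 0)], 4, [s18_6_n0], [448, -32, -80, 144], (.leaf 0 [⟨1, []⟩, ⟨1, []⟩, ⟨1, []⟩, ⟨1, []⟩, ⟨1, []⟩, ⟨1, []⟩, ⟨1, []⟩, ⟨1, []⟩, ⟨1, []⟩])⟩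

theorem s18_6_ok : s18_6.ok = true := by decide +kernel

def s18_10_n0 : Node := ⟨[⟨[1, 0, 0, -1], 128⟩, ⟨[1, 0, -1], 96⟩, ⟨[0, 0, -1], -288⟩, ⟨[0, -1], -256⟩, ⟨[0, -1], -224⟩, ⟨[1], 480⟩, ⟨[2], 928⟩, ⟨[1], 544⟩], [1], 0, none, (.ndet 0 [⟨1, [(7, 1)]⟩] (.ddet 0 [⟨1, [(5, 1), (0, 1)]⟩] (.ndet 0 [⟨1, [(5, 1)]⟩] (.ddet 0 [⟨1, [(3, 1)]⟩] (.ndet 0 [⟨1, [(3, 1)]⟩] (.ddet 1 [⟨1, [(0, 1)]⟩] (.ndet 1 [⟨1, [(0, 2)]⟩] (.ddet 1 [⟨1, [(0, 1)]⟩] (.leaf 0 [⟨1, [(0, 1)]⟩, ⟨1, [(0, 1)]⟩, ⟨1, []⟩, ⟨1, [(0, 1)]⟩, ⟨1, [(0, 1)]⟩, ⟨1, [(0, 1)]⟩, ⟨1, [(0, 2)]⟩, ⟨1, [(0, 1)]⟩, ⟨1, []⟩])))))))))⟩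
def s18_10 : Sys := ⟨[(1, 320), (4, 256)], [(1, 64), (3, -64)], 4, [s18_10_n0], [576, 128, 256, 256], (.leaf 0 [⟨1, []⟩, ⟨1, []⟩, ⟨1, []⟩, ⟨1, []⟩, ⟨1, []⟩, ⟨1, []⟩, ⟨1, []⟩, ⟨1, []⟩])⟩

theorem s18_10_ok : s18_10.ok = true := by decide +kernel

def s19_10_n0 : Node := ⟨[⟨[1], 88⟩, ⟨[1, 0, 0, -1], 104⟩, ⟨[1, 0, -1], 48⟩, ⟨[0, 0, 1], 16⟩, ⟨[0, 0, 1], -8⟩, ⟨[0, -1], 24⟩, ⟨[0, -1, 1], 40⟩, ⟨[1, 0, -1], 80⟩, ⟨[1], 72⟩, ⟨[2, 0, -1], 128⟩, ⟨[1, 0, -1], 88⟩], [1], 0, none, (.ndet 1 [⟨1, [(7, 1), (0, 1)]⟩, ⟨1, [(9, 1)]⟩] (.ddet 0 [⟨1, [(0, 1)]⟩] (.ndet 2 [⟨1, [(7, 1)]⟩, ⟨1, [(7, 1)]⟩] (.ddet 0 [⟨1, [(5, 1)]⟩] (.ndet 1 [⟨1,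 [(7, 1)]⟩, ⟨1, [(4, 1)]⟩] (.ddet 1 [⟨1, [(0, 1)]⟩] (.ndet 2 [⟨1, [(7, 1), (0, 1)]⟩, ⟨1, [(7, 1), (0, 2)]⟩] (.ddet 1 [⟨1, [(0, 1)]⟩] (.leaf 0 [⟨1, [(7, 1), (0, 1)]⟩, ⟨1, [(7, 1), (0, 1)]⟩, ⟨1, [(0, 1)]⟩, ⟨1, [(7, 1)]⟩, ⟨1, [(7, 1)]⟩, ⟨1, [(0, 1)]⟩, ⟨1, [(7, 1), (0, 1)]⟩, ⟨1, [(0, 1)]⟩, ⟨1, [(7, 1), (0, 1)]⟩, ⟨1, [(7, 1), (0, 2)]⟩, ⟨1, [(0, 1)]⟩, ⟨1, []⟩])))))))))⟩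
def s19_10 : Sys := ⟨[(0, 16), (1, -16), (4, 16)], [(1, 0), (3, -16)], 4, [s19_10_n0], [144, -48, 32, -32], (.leaf 0 [⟨1, []⟩, ⟨1, []⟩, ⟨1, []⟩, ⟨1, []⟩, ⟨1, []⟩, ⟨1, []⟩, ⟨1, []⟩, ⟨1, []⟩, ⟨1, []⟩, ⟨1, []⟩, ⟨1, []⟩])⟩

theorem s19_10_ok : s19_10.ok = true := by decide +kernel

def s22_4_t0 : Tree := .nbr (.cons (.prune [(6, 1), (4, 1), (2, 1), (1, 2), (0, 2)]) (.cons (.ddet 0 [] (.ndet 2 [⟨1, [(9, 1), (6, 1)]⟩, ⟨1, [(9, 1), (6, 1)]⟩] (.ddet 0 [] (.leaf 0 [⟨1, [(7, 1)]⟩, ⟨1, [(9, 1), (6, 1)]⟩, ⟨1, [(9, 1), (6, 1)]⟩, ⟨1, []⟩, ⟨1, [(9, 1), (6, 1)]⟩, ⟨1, []⟩, ⟨1, []⟩, ⟨1, []⟩, ⟨1, []⟩, ⟨2, [(9, 3), (6, 3), (0, 1)]⟩,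 ⟨1, []⟩])))) (.cons (.ddet 0 [] (.ndet 2 [⟨1, [(3, 2)]⟩, ⟨1, [(9, 1), (6, 1)]⟩] (.ddet 0 [] (.leaf 0 [⟨2, [(9, 1), (6, 1), (0, 1)]⟩, ⟨1, [(9, 1), (6, 1)]⟩, ⟨1, [(3, 2)]⟩, ⟨1, []⟩, ⟨1, [(9, 1), (6, 1)]⟩, ⟨1, [(0, 1)]⟩, ⟨1, [(0, 1)]⟩, ⟨1, []⟩, ⟨1, [(0, 1)]⟩, ⟨1, [(9, 1), (6, 1), (3, 1)]⟩, ⟨1, []⟩])))) .nil)))
def s22_4_t1 : Tree := .ddet 0 [] (.ndet 1 [⟨1, [(7, 1), (4, 1)]⟩, ⟨1, [(7, 1)]⟩] (.ddet 0 [] (.ndet 2 [⟨1, [(7, 1), (4, 1), (1, 1)]⟩, ⟨1, [(7, 1), (4, 1), (1, 1)]⟩] (.ddet 0 [] (.ndet 2 [⟨1, [(9, 1)]⟩, ⟨1, [(7, 1), (4, 1)]⟩] (.ddet 0 [] (.split [1, -1] (0) (.leaf 0 [⟨1, [(8, 1), (5, 1)]⟩, ⟨1, [(8, 1), (5, 1)]⟩,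 ⟨1, [(0, 1)]⟩, ⟨1, []⟩, ⟨1, [(8, 1), (5, 1)]⟩, ⟨1, [(8, 1), (5, 1), (2, 1)]⟩, ⟨1, [(8, 1), (5, 1), (2, 1)]⟩, ⟨1, []⟩, ⟨1, [(8, 1), (5, 1), (2, 1)]⟩, ⟨1, [(8, 1), (5, 1)]⟩, ⟨1, []⟩]) (.leaf 1 [⟨1, [(8, 1), (5, 1), (0, 1)]⟩, ⟨1, [(8, 1), (5, 1), (0, 1)]⟩, ⟨1, [(0, 1)]⟩, ⟨1, []⟩, ⟨1, [(8, 1), (5, 1), (0, 1)]⟩, ⟨1, [(8, 2), (5, 2), (0, 1)]⟩, ⟨1, [(10, 1)]⟩, ⟨1, []⟩, ⟨1, [(8, 1), (5, 1)]⟩, ⟨1, [(10, 1)]⟩, ⟨1, []⟩, ⟨1, []⟩, ⟨1, [(10, 1)]⟩, ⟨1, []⟩, ⟨1, [(0, 1)]⟩]))))))))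
def s22_4_t2 : Tree := .nbr (.cons (.prune [(5, 1), (4, 1), (3, 1), (1, 2), (0, 3)]) (.cons (.ddet 0 [] (.ndet 2 [⟨1, [(9, 1), (6, 1)]⟩, ⟨1, [(9, 1), (6, 1)]⟩] (.ddet 0 [] (.split [1, 1, 0, -1] (-80000) (.leaf 0 [⟨1, [(0, 1)]⟩, ⟨1, [(10, 1), (7, 1)]⟩, ⟨1, [(10, 1), (7, 1)]⟩, ⟨1, []⟩, ⟨1, [(10, 1), (7, 1)]⟩, ⟨1, []⟩, ⟨1, []⟩, ⟨1, []⟩, ⟨1, []⟩, ⟨2, [(10, 3), (7, 3), (4, 1), (1, 1)]⟩, ⟨1, []⟩]) (.leaf 3 [⟨1, [(10, 1), (7, 1), (0, 1)]⟩, ⟨1, [(10, 1), (7, 1), (0, 1)]⟩, ⟨1, [(0, 1)]⟩, ⟨1, []⟩, ⟨1, [(10, 1), (7, 1)]⟩, ⟨1, [(10, 1), (7, 1)]⟩, ⟨1, []⟩, ⟨1, [(10, 1), (7, 1)]⟩, ⟨1, [(10, 1), (7, 1), (0, 1)]⟩, ⟨1, [(10, 1), (7,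 1), (0, 1)]⟩, ⟨1, [(0, 1)]⟩]))))) (.cons (.ddet 0 [] (.ndet 2 [⟨1, [(11, 1), (2, 1)]⟩, ⟨1, [(9, 1), (6, 1)]⟩] (.ddet 0 [] (.split [1, -2, 0, 1] (16000) (.leaf 0 [⟨2, [(14, 1), (10, 1), (7, 1), (1, 1)]⟩, ⟨1, [(10, 1), (7, 1)]⟩, ⟨1, [(0, 1)]⟩, ⟨1, []⟩, ⟨1, [(10, 1), (7, 1)]⟩, ⟨1, [(1, 1)]⟩, ⟨1, [(1, 1)]⟩, ⟨1, []⟩, ⟨1, [(1, 1)]⟩, ⟨1, [(10, 1), (7, 1), (3, 1)]⟩, ⟨1, []⟩]) (.leaf 1 [⟨1, [(12, 1), (10, 1), (7, 1), (0, 2)]⟩, ⟨1, [(10, 1), (7, 1), (0, 1)]⟩, ⟨1, [(0, 1)]⟩, ⟨1, [(12, 1), (0, 1)]⟩, ⟨1, [(12, 1), (10, 1), (7, 1), (0, 2)]⟩, ⟨1, [(12, 1), (10, 2), (7, 2), (0, 2)]⟩, ⟨1, [(12, 1)]⟩, ⟨1, [(12, 1), (0, 1)]⟩, ⟨1, [(12,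 1), (10, 1), (7, 1), (0, 1)]⟩, ⟨1, [(12, 1), (3, 1)]⟩, ⟨1, []⟩, ⟨1, [(3, 1)]⟩, ⟨1, [(12, 1), (3, 2)]⟩, ⟨1, [(3, 1)]⟩, ⟨1, [(0, 1)]⟩]))))) .nil)))
def s22_4_t3 : Tree := .nbr (.cons (.ddet 0 [] (.ndet 1 [⟨1, [(5, 1)]⟩, ⟨1, [(7, 1)]⟩] (.ddet 0 [] s22_4_t0))) (.cons s22_4_t1 (.cons (.ddet 0 [] (.ndet 1 [⟨1, [(11, 1), (5, 1)]⟩, ⟨1, [(7, 1)]⟩] (.ddet 0 [] s22_4_t2))) .nil)))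
def s22_4_n0 : Node := ⟨[⟨[1, 0, 0, -1], -200⟩, ⟨[1, 0, -1], -200⟩, ⟨[1, -1], -200⟩, ⟨[0, 0, -1], -96320⟩, ⟨[1, 0, -1], 3835200⟩, ⟨[0, 1, -1], -5440⟩, ⟨[0, 1], 74880⟩, ⟨[0, 0, 1], 74880⟩, ⟨[0, 1, 1], 154560⟩, ⟨[1, 0, -1, 1], 3835200⟩], [1], 0, none, s22_4_t3⟩
def s22_4_t4 : Tree := .ndet 2 [⟨1, [(11, 1), (4, 1)]⟩, ⟨1, [(11, 1), (4, 1)]⟩] (.ddet 0 [] (.nbr (.cons (.ddet 0 [] (.leaf 1 [⟨1, [(13, 1), (6, 1)]⟩, ⟨1, [(13, 1), (6, 1)]⟩, ⟨1, []⟩, ⟨1, []⟩, ⟨1, [(13, 1), (6, 1)]⟩, ⟨1, [(13, 2), (6, 2)]⟩, ⟨1, []⟩, ⟨1, []⟩, ⟨1, [(13, 1), (6, 1)]⟩, ⟨1, []⟩, ⟨1, []⟩, ⟨1, []⟩, ⟨1, []⟩, ⟨1, []⟩, ⟨1, []⟩])) (.cons (.prune [(13, 1),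 (6, 1), (1, 1)]) (.cons (.ddet 0 [] (.split [1, -1] (0) (.leaf 0 [⟨1, [(14, 1), (7, 1), (0, 1)]⟩, ⟨1, [(14, 1), (7, 1), (0, 1)]⟩, ⟨1, [(0, 1)]⟩, ⟨1, []⟩, ⟨1, [(14, 1), (7, 1), (0, 1)]⟩, ⟨1, [(14, 1), (7, 1)]⟩, ⟨1, [(14, 1), (7, 1)]⟩, ⟨1, []⟩, ⟨1, [(14, 1), (7, 1)]⟩, ⟨1, [(14, 1), (7, 1), (0, 1)]⟩, ⟨1, [(0, 1)]⟩]) (.leaf 1 [⟨1, [(14, 1), (7, 1)]⟩, ⟨1, [(14, 1), (7, 1)]⟩, ⟨1, [(0, 1)]⟩, ⟨1, []⟩, ⟨1, [(14, 1), (7, 1)]⟩, ⟨1, [(14, 2), (7, 2), (2, 1)]⟩, ⟨1, [(2, 1)]⟩, ⟨1, []⟩, ⟨1, [(14, 1), (7, 1), (2, 1)]⟩, ⟨1, [(2, 1)]⟩, ⟨1, []⟩, ⟨1, []⟩, ⟨1, [(2, 1)]⟩, ⟨1, []⟩, ⟨1, []⟩]))) .nil)))))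
def s22_4_t5 : Tree := .nbr (.cons (.ddet 0 [] (.leaf 1 [⟨1, [(15, 1), (8, 1)]⟩, ⟨1, [(1, 1)]⟩, ⟨1, [(4, 1)]⟩, ⟨1, []⟩, ⟨1, [(15, 1), (8, 1)]⟩, ⟨1, [(15, 1), (8, 1), (1, 1)]⟩, ⟨1, []⟩, ⟨1, [(4, 1)]⟩, ⟨1, [(15, 1), (8, 1)]⟩, ⟨1, []⟩, ⟨1, [(4, 1)]⟩, ⟨1, []⟩, ⟨1, []⟩, ⟨1, [(4, 1)]⟩, ⟨1, []⟩])) (.cons (.ddet 0 [] (.split [1, 1, -1] (-80000) (.leaf 1 [⟨1, [(16, 1), (9, 1)]⟩, ⟨1, [(0, 1)]⟩, ⟨1, [(16, 1), (9, 1)]⟩, ⟨1, []⟩, ⟨1, [(16, 1), (9, 1)]⟩, ⟨1, [(16, 1), (9, 1)]⟩, ⟨1, [(2, 1)]⟩, ⟨1, [(16, 1), (9, 1), (2, 1)]⟩, ⟨1, [(16, 1), (9, 1), (2, 1)]⟩, ⟨1, [(2, 1)]⟩, ⟨1, [(16, 1), (9, 1), (2, 1)]⟩, ⟨1, []⟩, ⟨1, [(2, 1)]⟩, ⟨1,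 [(16, 1), (9, 1), (2, 1)]⟩, ⟨1, []⟩]) (.leaf 2 [⟨1, [(16, 1), (9, 1), (0, 1)]⟩, ⟨1, [(0, 1)]⟩, ⟨1, [(16, 1), (9, 1), (0, 1)]⟩, ⟨1, []⟩, ⟨1, []⟩, ⟨1, [(16, 1), (9, 1), (0, 1)]⟩, ⟨1, [(16, 2), (9, 2), (0, 1)]⟩, ⟨1, [(4, 1)]⟩, ⟨1, [(4, 1)]⟩, ⟨1, [(4, 1)]⟩, ⟨1, []⟩, ⟨1, []⟩, ⟨1, []⟩, ⟨1, [(16, 1), (9, 1)]⟩, ⟨1, [(0, 1)]⟩]))) (.cons (.ddet 0 [] (.split [2, -1, -1] (-16000) (.leaf 0 [⟨1, [(16, 1), (9, 1), (0, 1)]⟩, ⟨1, [(18, 1), (16, 1), (9, 1), (0, 2)]⟩, ⟨1, [(0, 1)]⟩, ⟨1, [(18, 1), (0, 1)]⟩, ⟨1, [(18, 1), (16, 1), (9, 1), (0, 2)]⟩, ⟨1, [(18, 1), (16, 1), (9, 1), (0, 1)]⟩, ⟨1, [(16, 1), (9, 1)]⟩, ⟨1, [(5, 1)]⟩, ⟨1, [(16,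 1), (9, 1), (5, 1)]⟩, ⟨1, [(18, 1), (16, 1), (9, 1), (0, 2)]⟩, ⟨1, [(0, 1)]⟩]) (.leaf 1 [⟨1, [(16, 1), (9, 1)]⟩, ⟨1, [(19, 1), (16, 1), (9, 1), (2, 1)]⟩, ⟨1, [(0, 1)]⟩, ⟨1, []⟩, ⟨1, [(16, 1), (9, 1)]⟩, ⟨1, [(19, 1), (16, 2), (9, 2), (2, 2)]⟩, ⟨1, [(2, 1)]⟩, ⟨1, [(5, 1)]⟩, ⟨1, [(16, 1), (9, 1), (2, 1)]⟩, ⟨1, [(2, 1)]⟩, ⟨1, [(5, 1)]⟩, ⟨1, []⟩, ⟨1, [(2, 1)]⟩, ⟨1, [(5, 1)]⟩, ⟨1, []⟩]))) .nil)))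
def s22_4_t6 : Tree := .nbr (.cons (.prune [(10, 1), (3, 1), (1, 2), (0, 1)]) (.cons (.ddet 0 [] s22_4_t4) (.cons (.ddet 0 [] (.nbr (.cons (.ddet 0 [] (.ndet 1 [⟨1, []⟩, ⟨1, [(16, 2), (12, 1), (6, 1), (0, 3)]⟩] (.ddet 0 [] (.leaf 2 [⟨1, [(16, 1), (12, 1), (6, 1), (0, 2)]⟩, ⟨1, []⟩, ⟨1, [(16, 1), (12, 1), (6, 1), (0, 2)]⟩, ⟨1, []⟩, ⟨1, []⟩, ⟨1, [(16, 1), (12, 1), (6, 1), (0, 2)]⟩, ⟨1, [(16, 2), (12, 2), (6, 2), (0, 4)]⟩, ⟨1, []⟩, ⟨1, []⟩, ⟨1, []⟩, ⟨1, []⟩, ⟨1, []⟩, ⟨1, []⟩, ⟨1, [(16, 1), (12, 1), (6, 1), (0, 2)]⟩, ⟨1, [(0, 1)]⟩])))) (.cons (.prune [(13, 1), (6, 1), (0, 1)]) (.cons (.ddet 0 [] s22_4_t5) .nil))))) .nil)))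
def s22_4_n1 : Node := ⟨[⟨[0, 1, 0, -1], -200⟩, ⟨[0, 1, -1], -200⟩, ⟨[-1, 1], -200⟩, ⟨[0, 0, 0, -1], -96320⟩, ⟨[0, 1, 0, -1], 3835200⟩, ⟨[1, 1, 0, -1], 3835200⟩, ⟨[1, -1, 1, -1], -101440⟩, ⟨[0, 0, 1, -1], -5440⟩, ⟨[1, 0, 1, -1], 3824000⟩, ⟨[1, -1, 1], -21120⟩, ⟨[0, 0, 1], 74880⟩, ⟨[0, 0, 0, 1], 74880⟩, ⟨[1, -1, 1, 1], 58560⟩, ⟨[0, 0, 1, 1], 154560⟩], [0, 1], 0, none, (.ndet 1 [⟨1, [(11, 1)]⟩, ⟨1, [(9, 1)]⟩] (.ddet 0 [] s22_4_t6))⟩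
def s22_4_t7 : Tree := .nbr (.cons (.ddet 0 [] (.ndet 1 [⟨1, []⟩, ⟨1, [(14, 1), (12, 1)]⟩] (.ddet 0 [] (.leaf 2 [⟨1, [(12, 1)]⟩, ⟨1, []⟩, ⟨1, [(12, 1)]⟩, ⟨1, []⟩, ⟨1, []⟩, ⟨1, [(12, 1)]⟩, ⟨1, [(12, 2)]⟩, ⟨1, []⟩, ⟨1, []⟩, ⟨1, []⟩, ⟨1, []⟩, ⟨1, []⟩, ⟨1, []⟩, ⟨1, [(12, 1)]⟩, ⟨1, [(14, 1)]⟩])))) (.cons (.prune [(12, 1), (1, 1)]) (.cons (.ddet 0 [] (.ndet 1 [⟨1, [(16, 1), (14, 1)]⟩, ⟨1, [(14, 1), (12, 1)]⟩] (.ddet 0 [] (.split [1, 1, -1] (-80000) (.leaf 1 [⟨1, [(13, 1), (0, 1)]⟩, ⟨1, [(0, 1)]⟩, ⟨1, [(13, 1), (0, 1)]⟩, ⟨1, []⟩, ⟨1, [(13, 1), (0, 1)]⟩, ⟨1, [(13, 1), (0, 1)]⟩, ⟨1, [(17, 1), (15, 1)]⟩, ⟨1, [(13, 1)]⟩, ⟨1,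 [(13, 1)]⟩, ⟨1, [(17, 1), (15, 1)]⟩, ⟨1, [(13, 1)]⟩, ⟨1, []⟩, ⟨1, [(17, 1), (15, 1)]⟩, ⟨1, [(13, 1)]⟩, ⟨1, [(15, 1), (0, 1)]⟩]) (.leaf 2 [⟨1, [(13, 1)]⟩, ⟨1, [(0, 1)]⟩, ⟨1, [(13, 1)]⟩, ⟨1, []⟩, ⟨1, []⟩, ⟨1, [(13, 1)]⟩, ⟨1, [(13, 2), (2, 1)]⟩, ⟨1, [(2, 1)]⟩, ⟨1, [(2, 1)]⟩, ⟨1, [(2, 1)]⟩, ⟨1, []⟩, ⟨1, []⟩, ⟨1, []⟩, ⟨1, [(13, 1), (2, 1)]⟩, ⟨1, [(15, 1)]⟩]))))) .nil)))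
def s22_4_t8 : Tree := .nbr (.cons (.ddet 0 [] (.ndet 1 [⟨1, [(4, 1)]⟩, ⟨1, [(16, 1), (14, 1)]⟩] (.ddet 0 [] (.leaf 2 [⟨1, [(1, 1)]⟩, ⟨1, [(4, 1)]⟩, ⟨1, [(14, 1)]⟩, ⟨1, []⟩, ⟨1, []⟩, ⟨1, [(14, 1)]⟩, ⟨1, [(14, 1), (1, 1)]⟩, ⟨1, []⟩, ⟨1, []⟩, ⟨1, []⟩, ⟨1, [(4, 1)]⟩, ⟨1, [(4, 1)]⟩, ⟨1, [(4, 1)]⟩, ⟨1, [(14, 1)]⟩, ⟨1, [(16, 1)]⟩])))) (.cons (.ddet 0 [] (.ndet 1 [⟨1, [(14, 1)]⟩, ⟨1, [(16, 1), (14, 1)]⟩] (.ddet 0 [] (.split [-1, 1, 1, -1] (0) (.leaf 2 [⟨1, [(0, 1)]⟩, ⟨1, [(15, 1)]⟩, ⟨1, [(15, 1)]⟩, ⟨1, []⟩, ⟨1, []⟩, ⟨1, [(15, 1)]⟩, ⟨1, [(15, 1)]⟩, ⟨1, [(2, 1)]⟩, ⟨1, [(2, 1)]⟩, ⟨1, [(2, 1)]⟩, ⟨1, [(15, 1), (2, 1)]⟩, ⟨1, [(15,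 1), (2, 1)]⟩, ⟨1, [(15, 1), (2, 1)]⟩, ⟨1, [(15, 1), (2, 1)]⟩, ⟨1, [(17, 1)]⟩]) (.leaf 3 [⟨1, [(0, 1)]⟩, ⟨1, [(15, 1), (0, 1)]⟩, ⟨1, [(15, 1), (0, 1)]⟩, ⟨1, []⟩, ⟨1, []⟩, ⟨1, []⟩, ⟨1, []⟩, ⟨1, []⟩, ⟨1, [(15, 1), (0, 1)]⟩, ⟨1, [(15, 2), (0, 1)]⟩, ⟨1, [(17, 1), (0, 1)]⟩]))))) (.cons (.ddet 0 [] (.ndet 1 [⟨1, [(18, 1), (16, 1), (4, 1)]⟩, ⟨1, [(16, 1), (14, 1)]⟩] (.ddet 0 [] (.split [1, 2, -1, -1] (-96000) (.leaf 1 [⟨1, [(19, 1), (17, 1), (15, 1), (0, 2)]⟩, ⟨1, [(0, 1)]⟩, ⟨1, [(15, 1), (0, 1)]⟩, ⟨1, [(19, 1), (17, 1), (0, 1)]⟩, ⟨1, [(19, 1), (17, 1), (15, 1), (0, 2)]⟩, ⟨1, [(19, 1), (17, 1), (15, 1), (0, 2)]⟩, ⟨1, [(19,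 1), (17, 1)]⟩, ⟨1, [(19, 1), (17, 1), (15, 1), (0, 1)]⟩, ⟨1, [(19, 1), (17, 1), (15, 1), (0, 1)]⟩, ⟨1, [(19, 1), (17, 1), (5, 1)]⟩, ⟨1, [(15, 1)]⟩, ⟨1, [(5, 1)]⟩, ⟨1, [(19, 1), (17, 1), (5, 2)]⟩, ⟨1, [(15, 1), (5, 1)]⟩, ⟨1, [(17, 1), (0, 1)]⟩]) (.leaf 2 [⟨1, [(20, 1), (17, 1), (15, 1), (2, 1)]⟩, ⟨1, [(0, 1)]⟩, ⟨1, [(15, 1)]⟩, ⟨1, []⟩, ⟨1, []⟩, ⟨1, [(15, 1)]⟩, ⟨1, [(20, 1), (17, 1), (15, 2), (2, 2)]⟩, ⟨1, [(2, 1)]⟩, ⟨1, [(2, 1)]⟩, ⟨1, [(2, 1)]⟩, ⟨1, [(5, 1)]⟩, ⟨1, [(5, 1)]⟩, ⟨1, [(5, 1)]⟩, ⟨1, [(15, 1), (2, 1)]⟩, ⟨1, [(17, 1)]⟩]))))) .nil)))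
def s22_4_t9 : Tree := .nbr (.cons (.ddet 0 [] (.ndet 1 [⟨1, [(13, 1)]⟩, ⟨1, [(17, 2), (13, 1), (11, 1), (0, 3)]⟩] (.ddet 0 [] (.ndet 1 [⟨1, [(17, 1), (11, 1), (0, 2)]⟩, ⟨1, [(17, 1), (14, 1), (11, 1), (0, 2)]⟩] (.ddet 0 [] (.leaf 3 [⟨1, [(13, 1)]⟩, ⟨1, [(17, 1), (13, 1), (11, 1), (0, 2)]⟩, ⟨1, [(17, 1), (13, 1), (11, 1), (0, 2)]⟩, ⟨1, []⟩, ⟨1, []⟩, ⟨1, []⟩, ⟨1, []⟩, ⟨1, []⟩, ⟨1, [(17, 1), (13, 1), (11, 1), (0, 2)]⟩, ⟨1, [(17, 2), (13, 1), (11, 2), (0, 4)]⟩, ⟨1, [(0, 1)]⟩])))))) (.cons (.prune [(12, 1), (0, 1)]) (.cons (.ddet 0 [] s22_4_t8) .nil)))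
def s22_4_n2 : Node := ⟨[⟨[0, 0, 1, -1], -200⟩, ⟨[0, -1, 1], -200⟩, ⟨[-1, 0, 1], -200⟩, ⟨[-1], -85120⟩, ⟨[1], 74880⟩, ⟨[-1, 0, 1], 3835200⟩, ⟨[-1, 1, 1], 3835200⟩, ⟨[-1, 1, -1, 1], -101440⟩, ⟨[0, 1, -1, 1], -21120⟩, ⟨[1, 1, -1, 1], 58560⟩, ⟨[-1, 0, 0, 1], -5440⟩, ⟨[0, 0, 0, 1], 74880⟩, ⟨[1, 0, 0, 1], 154560⟩, ⟨[-1, 1, 0, 1], 3824000⟩], [0, 0, 1], 0, none, (.nbr (.cons (.prune [(12, 1), (9, 1), (8, 1), (1, 2), (0, 1)]) (.cons (.ddet 0 [] (.ndet 2 [⟨1, [(11, 1), (10, 1)]⟩, ⟨1, [(10, 1)]⟩] (.ddet 0 [] s22_4_t7))) (.cons (.ddet 0 [] s22_4_t9) .nil))))⟩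
def s22_4_t10 : Tree := .nbr (.cons (.prune [(4, 1), (3, 1), (1, 2), (0, 2)]) (.cons (.ddet 0 [] (.split [-1, 1, 1, -1] (0) (.leaf 2 [⟨1, [(0, 1)]⟩, ⟨1, [(6, 1), (0, 1)]⟩, ⟨1, [(6, 1), (0, 1)]⟩, ⟨1, []⟩, ⟨1, []⟩, ⟨1, [(6, 1), (0, 1)]⟩, ⟨1, [(6, 1), (0, 1)]⟩, ⟨1, [(14, 1), (10, 1)]⟩, ⟨1, [(14, 1), (10, 1)]⟩, ⟨1, [(14, 1), (10, 1)]⟩, ⟨1, [(6, 1)]⟩, ⟨1, [(6, 1)]⟩, ⟨1, [(6, 1)]⟩, ⟨1, [(6, 1)]⟩, ⟨1, [(11, 1), (0, 1)]⟩]) (.leaf 3 [⟨1, [(0, 1)]⟩, ⟨1, [(6, 1)]⟩, ⟨1, [(6, 1)]⟩, ⟨1, []⟩, ⟨1, []⟩, ⟨1, []⟩, ⟨1, []⟩, ⟨1, []⟩, ⟨1, [(6, 1)]⟩, ⟨2, [(6, 3), (4, 1), (1, 1)]⟩, ⟨1, [(11, 1)]⟩]))) (.cons (.ddet 0 [] (.split [2, 1, -1,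 -1] (-96000) (.leaf 0 [⟨1, [(0, 1)]⟩, ⟨1, [(12, 1), (11, 1), (6, 1), (0, 2)]⟩, ⟨1, [(6, 1), (0, 1)]⟩, ⟨1, [(12, 1), (11, 1), (0, 1)]⟩, ⟨1, [(12, 1), (11, 1), (6, 1), (0, 2)]⟩, ⟨1, [(12, 1), (11, 1), (0, 1)]⟩, ⟨1, []⟩, ⟨1, [(3, 1)]⟩, ⟨1, [(3, 1)]⟩, ⟨1, [(12, 1), (11, 1), (6, 2), (0, 2)]⟩, ⟨1, [(11, 1), (0, 1)]⟩]) (.leaf 3 [⟨2, [(14, 1), (11, 1), (6, 1), (1, 1)]⟩, ⟨1, [(6, 1)]⟩, ⟨1, [(0, 1)]⟩, ⟨1, []⟩, ⟨1, [(1, 1)]⟩, ⟨1, [(1, 1)]⟩, ⟨1, []⟩, ⟨1, [(1, 1)]⟩, ⟨1, [(6, 1)]⟩, ⟨1, [(6, 1), (3, 1)]⟩, ⟨1, [(11, 1)]⟩]))) .nil)))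
def s22_4_t11 : Tree := .nbr (.cons (.ddet 0 [] (.ndet 1 [⟨1, [(6, 1)]⟩, ⟨1, [(8, 1), (3, 1)]⟩] (.ddet 0 [] (.nbr (.cons (.prune [(5, 1), (1, 1), (0, 1)]) (.cons (.ddet 0 [] (.leaf 3 [⟨1, [(8, 1)]⟩, ⟨1, [(5, 1)]⟩, ⟨1, [(5, 1)]⟩, ⟨1, []⟩, ⟨1, []⟩, ⟨1, []⟩, ⟨1, []⟩, ⟨1, []⟩, ⟨1, [(5, 1)]⟩, ⟨2, [(5, 3), (0, 1)]⟩, ⟨1, [(10, 1)]⟩])) (.cons (.ddet 0 [] (.leaf 3 [⟨2, [(5, 1), (0, 1)]⟩, ⟨1, [(5, 1)]⟩, ⟨1, [(3, 2)]⟩, ⟨1, []⟩, ⟨1, [(0, 1)]⟩, ⟨1, [(0, 1)]⟩, ⟨1, []⟩, ⟨1, [(0, 1)]⟩, ⟨1, [(5, 1)]⟩, ⟨1, [(5, 1), (3, 1)]⟩, ⟨1, [(10, 1)]⟩])) .nil))))))) (.cons (.ddet 0 [] (.ndet 1 [⟨1, [(3, 1)]⟩, ⟨1, [(8, 1), (3, 1)]⟩] (.ddet 0 []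 (.ndet 2 [⟨1, [(3, 1), (1, 1)]⟩, ⟨1, [(3, 1), (1, 1)]⟩] (.ddet 0 [] (.split [1, 1, 0, -1] (-80000) (.leaf 0 [⟨1, [(0, 1)]⟩, ⟨1, [(4, 1), (0, 1)]⟩, ⟨1, [(4, 1), (0, 1)]⟩, ⟨1, []⟩, ⟨1, [(4, 1), (0, 1)]⟩, ⟨1, []⟩, ⟨1, []⟩, ⟨1, []⟩, ⟨1, []⟩, ⟨1, [(4, 2), (0, 1)]⟩, ⟨1, [(9, 1), (0, 1)]⟩]) (.leaf 3 [⟨1, [(4, 1)]⟩, ⟨1, [(4, 1)]⟩, ⟨1, [(0, 1)]⟩, ⟨1, []⟩, ⟨1, [(4, 1), (2, 1)]⟩, ⟨1, [(4, 1), (2, 1)]⟩, ⟨1, []⟩, ⟨1, [(4, 1), (2, 1)]⟩, ⟨1, [(4, 1)]⟩, ⟨1, [(4, 1)]⟩, ⟨1, [(9, 1)]⟩]))))))) (.cons (.ddet 0 [] (.ndet 1 [⟨1, [(11, 1), (7, 1)]⟩, ⟨1, [(8, 1), (3, 1)]⟩] (.ddet 0 [] s22_4_t10))) .nil)))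
def s22_4_n3 : Node := ⟨[⟨[0, 0, -1, 1], -200⟩, ⟨[0, -1, 0, 1], -200⟩, ⟨[-1, 0, 0, 1], -200⟩, ⟨[0, -1], -85120⟩, ⟨[1, -1], -5440⟩, ⟨[1], 74880⟩, ⟨[0, 1], 74880⟩, ⟨[1, 1], 154560⟩, ⟨[0, -1, 0, 1], 3835200⟩, ⟨[0, -1, 1, 1], 3835200⟩], [0, 0, 0, 1], 0, none, (.ndet 2 [⟨1, [(7, 1)]⟩, ⟨1, [(1, 1)]⟩] (.ddet 0 [] s22_4_t11))⟩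
def s22_4 : Sys := ⟨[(1, -64000), (2, 32000), (4, 48000)], [(2, -48000)], 4, [s22_4_n0, s22_4_n1, s22_4_n2, s22_4_n3], [80000, 15375639, 38846967, 23455328], (.leaf 2 [⟨1, []⟩, ⟨1, []⟩, ⟨1, []⟩, ⟨1, []⟩, ⟨1, []⟩, ⟨1, []⟩, ⟨1, []⟩, ⟨1, []⟩, ⟨1, []⟩, ⟨1, []⟩, ⟨1, []⟩, ⟨1, []⟩, ⟨1, []⟩, ⟨1, []⟩])⟩

theorem s22_4_ok : s22_4.ok = true := by decide +kernel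

def s24_3_n0 : Node := ⟨[⟨[0, 0, 1, -1], 152⟩, ⟨[1], 104⟩, ⟨[0, -1, 1], 8⟩, ⟨[-1, 0, 1], -120⟩, ⟨[1, -1], 176⟩, ⟨[2, 0, -1], 168⟩, ⟨[2, 0, -1], 224⟩], [1], 0, none, (.ndet 0 [⟨1, [(6, 1)]⟩] (.ddet 1 [⟨1, [(5, 1)]⟩] (.ndet 1 [⟨1, [(3, 1), (2, 1)]⟩] (.ddet 1 [⟨1, [(3, 1)]⟩] (.leaf 0 [⟨1, [(2, 1)]⟩, ⟨1, [(5, 1)]⟩, ⟨1, [(0, 1)]⟩, ⟨1, []⟩, ⟨1, [(0, 1)]⟩, ⟨1, [(5, 1)]⟩, ⟨1, [(5, 1)]⟩, ⟨1, []⟩])))))⟩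
def s24_3 : Sys := ⟨[(3, 80), (4, 192)], [(0, -48), (1, -64)], 4, [s24_3_n0], [192, -48, 80, -112], (.leaf 0 [⟨1, []⟩, ⟨1, []⟩, ⟨1, []⟩, ⟨1, []⟩, ⟨1, []⟩, ⟨1, []⟩, ⟨1, []⟩])⟩

theorem s24_3_ok : s24_3.ok = true := by decide +kernel

def s26_3_n0 : Node := ⟨[⟨[-1, 0, 1], -24⟩, ⟨[0, 0, 1, -1], 72⟩, ⟨[1], 48⟩, ⟨[1], 40⟩, ⟨[0, -1, 1], 56⟩, ⟨[1, -1], 80⟩, ⟨[2, 0, -1], 64⟩, ⟨[2, 0, -1], 72⟩], [1], 0, none, (.ndet 1 [⟨1, [(7, 1)]⟩, ⟨1, [(6, 1)]⟩] (.ddet 1 [⟨1, [(5, 1)]⟩] (.ndet 2 [⟨1, [(5, 1)]⟩, ⟨1, [(3, 1)]⟩] (.ddet 1 [⟨1, [(7, 1)]⟩] (.leaf 0 [⟨1, []⟩, ⟨1, [(2, 1)]⟩, ⟨1, [(5, 1)]⟩, ⟨1, [(5, 1)]⟩, ⟨1, [(0, 1)]⟩, ⟨1, [(0,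 1)]⟩, ⟨1, [(5, 1)]⟩, ⟨1, [(5, 1)]⟩, ⟨1, []⟩])))))⟩
def s26_3 : Sys := ⟨[(1, -32), (3, 0), (4, 16)], [(0, -32), (1, 0)], 4, [s26_3_n0], [128, -16, 112, -16], (.leaf 0 [⟨1, []⟩, ⟨1, []⟩, ⟨1, []⟩, ⟨1, []⟩, ⟨1, []⟩, ⟨1, []⟩, ⟨1, []⟩, ⟨1, []⟩])⟩

theorem s26_3_ok : s26_3.ok = true := by decide +kernel

def s27_3_n0 : Node := ⟨[⟨[0, 0, 1], 56⟩, ⟨[-1, 0, 1], -24⟩, ⟨[0, 0, 1, -1], 64⟩, ⟨[1], 72⟩, ⟨[0, 0, 1], 48⟩, ⟨[1], 64⟩, ⟨[0, -1, 1], 64⟩, ⟨[1, -1], 88⟩, ⟨[2, 0, -1], 88⟩, ⟨[2, 0, -1], 96⟩], [1], 0, none, (.ndet 2 [⟨1, [(9, 1)]⟩, ⟨1, [(8, 1)]⟩, ⟨1, [(7, 1)]⟩] (.ddet 1 [⟨2, [(9, 1), (0, 1)]⟩] (.ndet 3 [⟨1, [(9, 1)]⟩, ⟨2,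 [(9, 1), (0, 1)]⟩, ⟨1, [(3, 1)]⟩] (.ddet 1 [⟨1, [(8, 1)]⟩] (.leaf 0 [⟨2, [(9, 1), (0, 1)]⟩, ⟨1, []⟩, ⟨1, [(2, 1)]⟩, ⟨2, [(9, 1), (0, 1)]⟩, ⟨2, [(9, 1), (0, 1)]⟩, ⟨2, [(9, 1), (0, 1)]⟩, ⟨1, [(0, 1)]⟩, ⟨1, [(0, 1)]⟩, ⟨2, [(9, 1), (0, 1)]⟩, ⟨2, [(9, 1), (0, 1)]⟩, ⟨1, []⟩])))))⟩
def s27_3 : Sys := ⟨[(0, -32), (1, -32), (3, 0), (4, 16)], [(0, -32), (1, -16)], 4, [s27_3_n0], [160, 0, 144, 32], (.leaf 0 [⟨1, []⟩, ⟨1, []⟩, ⟨1, []⟩, ⟨1, []⟩, ⟨1, []⟩, ⟨1, []⟩, ⟨1, []⟩, ⟨1, []⟩, ⟨1, []⟩, ⟨1, []⟩])⟩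

theorem s27_3_ok : s27_3.ok = true := by decide +kernel

def s27_8_t0 : Tree := .nbr (.cons (.prune [(25, 4), (20, 1), (12, 2), (6, 3), (1, 3)]) (.cons (.ddet 0 [] (.ndet 3 [⟨1, [(25, 1), (18, 1), (6, 1), (1, 1)]⟩, ⟨1, [(25, 1), (18, 1), (6, 1)]⟩, ⟨1, [(25, 1), (18, 1), (6, 1), (1, 1)]⟩] (.ddet 0 [] (.leaf 0 [⟨1, [(25, 1), (18, 1), (6, 1), (1, 1)]⟩, ⟨2, [(24, 1), (13, 1)]⟩, ⟨1, [(25, 1), (18, 1), (6, 1)]⟩, ⟨2, [(24, 1), (13, 1)]⟩, ⟨1, []⟩, ⟨2, [(24, 1), (13, 1)]⟩, ⟨1, []⟩, ⟨1, [(1, 1)]⟩, ⟨1, []⟩, ⟨1, [(1, 2)]⟩, ⟨2, [(24, 1), (13, 1)]⟩, ⟨1, [(1, 1)]⟩, ⟨1, []⟩, ⟨1, [(1, 1)]⟩, ⟨1, [(1, 2)]⟩, ⟨1, []⟩, ⟨2, [(24, 1), (13,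 1)]⟩, ⟨1, []⟩, ⟨1, [(1, 1)]⟩, ⟨1, []⟩, ⟨1, [(1, 1)]⟩, ⟨1, [(1, 2)]⟩, ⟨1, [(25, 1), (18, 1), (6, 1), (1, 3)]⟩, ⟨1, []⟩])))) (.cons (.ddet 0 [] (.ndet 3 [⟨2, [(25, 2), (23, 1), (12, 1), (6, 2)]⟩, ⟨2, [(25, 2), (23, 1), (12, 1), (6, 2)]⟩, ⟨2, [(25, 2), (23, 1), (12, 1), (6, 2)]⟩] (.ddet 0 [] (.leaf 0 [⟨2, [(25, 2), (23, 1), (12, 1), (6, 2)]⟩, ⟨1, [(1, 1)]⟩, ⟨2, [(25, 2), (23, 1), (12, 1), (6, 2)]⟩, ⟨1, [(1, 1)]⟩, ⟨1, [(1, 1)]⟩, ⟨1, []⟩, ⟨1, []⟩, ⟨1, []⟩, ⟨2, [(23, 1), (12, 1), (4, 2)]⟩, ⟨2, [(23, 1), (12, 1), (4, 2)]⟩, ⟨1, [(1, 1)]⟩, ⟨1, []⟩, ⟨2, [(23, 1), (12, 1), (4, 2)]⟩, ⟨2, [(23, 1), (12, 1), (4, 2)]⟩, ⟨2, [(23,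 1), (12, 1), (4, 2)]⟩, ⟨1, [(1, 1)]⟩, ⟨1, []⟩, ⟨1, []⟩, ⟨1, []⟩, ⟨2, [(23, 1), (12, 1), (4, 2)]⟩, ⟨2, [(23, 1), (12, 1), (4, 2)]⟩, ⟨2, [(23, 1), (12, 1), (4, 2)]⟩, ⟨2, [(23, 3), (12, 1), (6, 2)]⟩, ⟨1, []⟩])))) (.cons (.prune [(25, 5), (20, 2), (12, 4), (6, 3), (0, 3)]) .nil))))
def s27_8_t1 : Tree := .nbr (.cons (.prune [(23, 2), (21, 1), (17, 3), (3, 4), (1, 6)]) (.cons (.ddet 0 [] (.ndet 3 [⟨1, [(20, 1), (3, 1)]⟩, ⟨1, [(17, 1), (3, 1)]⟩, ⟨2, [(20, 3), (9, 1), (3, 2)]⟩] (.ddet 0 [] (.ndet 2 [⟨1, [(20, 1), (3, 1), (1, 1)]⟩, ⟨1, [(14, 1), (1, 1)]⟩, ⟨2, [(20, 3), (9, 1), (3, 2), (1, 2)]⟩] (.ddet 0 [] (.ndet 3 [⟨1, [(20,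 1), (3, 1), (1, 1)]⟩, ⟨1, [(20, 1), (3, 1), (1, 1)]⟩, ⟨1, [(20, 1), (3, 1)]⟩] (.ddet 0 [] (.leaf 0 [⟨1, [(17, 1), (3, 1)]⟩, ⟨1, [(14, 1)]⟩, ⟨1, [(20, 1), (3, 1)]⟩, ⟨1, [(11, 1)]⟩, ⟨1, [(11, 1)]⟩, ⟨1, [(12, 1)]⟩, ⟨1, [(12, 1)]⟩, ⟨1, [(12, 1)]⟩, ⟨1, [(13, 1)]⟩, ⟨1, [(13, 1)]⟩, ⟨1, [(14, 1)]⟩, ⟨1, []⟩, ⟨2, [(20, 1), (9, 1)]⟩, ⟨2, [(20, 1), (9, 1)]⟩, ⟨2, [(20, 1), (9, 1)]⟩, ⟨1, [(14, 1), (1, 1)]⟩, ⟨1, [(1, 1)]⟩, ⟨1, [(1, 1)]⟩, ⟨1, [(1, 1)]⟩, ⟨2, [(20, 1), (9, 1), (1, 2)]⟩, ⟨2, [(20, 1), (9, 1), (1, 2)]⟩, ⟨2, [(20, 1), (9, 1), (1, 2)]⟩, ⟨2, [(20, 3), (9, 1), (3, 2), (1, 2)]⟩, ⟨1, [(12, 1)]⟩])))))))) (.cons (.ddet 0 []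 (.ndet 3 [⟨1, [(20, 1), (3, 1)]⟩, ⟨1, [(20, 1), (3, 1)]⟩, ⟨2, [(20, 3), (9, 1), (3, 2)]⟩] (.ddet 0 [] s27_8_t0))) (.cons (.prune [(21, 1), (20, 6), (16, 1), (3, 4), (0, 4)]) .nil))))
def s27_8_n0 : Node := ⟨[⟨[1, 0, 0, -1], -200⟩, ⟨[1, 0, -1], -200⟩, ⟨[1, -1], -200⟩, ⟨[1, 0, -1, -1], 4600⟩, ⟨[1, 1, -1, -1], 620⟩, ⟨[0, -1, 0, -1], 6920⟩, ⟨[0, 0, 0, -1], 2936⟩, ⟨[0, 1, 0, -1], -1083⟩, ⟨[-1, -1, 1, -1], 4913⟩, ⟨[-1, 1, 1, -1], -3097⟩, ⟨[1, 0, -1], 620⟩, ⟨[0, 1], -4320⟩, ⟨[-1, -1, 1], 939⟩, ⟨[-1, 0, 1], -3049⟩, ⟨[-1, 1, 1], -7066⟩, ⟨[1, 1, -1, 1], -7340⟩, ⟨[0, -1, 0, 1], -380⟩, ⟨[0, 0, 0, 1], -4320⟩, ⟨[0, 1, 0, 1], -8340⟩,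 ⟨[-1, -1, 1, 1], -3080⟩, ⟨[-1, 0, 1, 1], -7065⟩, ⟨[-1, 1, 1, 1], -11085⟩, ⟨[0, 1, 1, 1], 239700⟩], [1], 0, none, s27_8_t1⟩
def s27_8_t2 : Tree := .ddet 0 [] (.ndet 3 [⟨1, [(23, 1), (3, 1)]⟩, ⟨1, [(23, 1), (3, 1)]⟩, ⟨1, [(20, 1), (17, 1), (3, 1)]⟩] (.ddet 0 [] (.nbr (.cons (.prune [(26, 1), (12, 1), (6, 1), (1, 1)]) (.cons (.ddet 0 [] (.leaf 1 [⟨1, [(1, 1)]⟩, ⟨1, [(20, 1), (19, 1), (6, 1), (1, 1)]⟩, ⟨1, [(20, 1), (19, 1), (6, 1)]⟩, ⟨1, []⟩, ⟨1, [(1, 1)]⟩, ⟨1, [(1, 2)]⟩, ⟨1, []⟩, ⟨1, []⟩, ⟨1, [(1, 2)]⟩, ⟨1, [(11, 1)]⟩, ⟨1, []⟩, ⟨1, [(1, 1)]⟩, ⟨1, [(11, 1)]⟩, ⟨1, [(1, 1)]⟩, ⟨1, [(11, 1)]⟩, ⟨1, []⟩, ⟨1, [(1, 1)]⟩, ⟨1,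 [(11, 1)]⟩, ⟨1, []⟩, ⟨1, [(11, 1)]⟩, ⟨1, []⟩, ⟨1, [(11, 1)]⟩, ⟨1, []⟩, ⟨1, [(20, 1), (19, 1), (6, 1), (1, 1)]⟩, ⟨1, [(17, 1)]⟩])) (.cons (.ddet 0 [] (.leaf 1 [⟨1, [(17, 1), (4, 1)]⟩, ⟨1, [(23, 1), (20, 1), (6, 1)]⟩, ⟨1, [(23, 1), (20, 1), (6, 1)]⟩, ⟨1, [(17, 1), (4, 1)]⟩, ⟨1, [(17, 1), (4, 1)]⟩, ⟨1, [(17, 1), (4, 1)]⟩, ⟨1, [(17, 1), (4, 1)]⟩, ⟨1, [(17, 1), (4, 1)]⟩, ⟨1, [(17, 1), (4, 1)]⟩, ⟨1, []⟩, ⟨1, []⟩, ⟨1, []⟩, ⟨1, []⟩, ⟨1, []⟩, ⟨1, []⟩, ⟨1, []⟩, ⟨1, []⟩, ⟨1, [(1, 1)]⟩, ⟨1, [(1, 1)]⟩, ⟨1, [(1, 1)]⟩, ⟨1, [(1, 1)]⟩, ⟨1, [(1, 1)]⟩, ⟨1, [(1, 1)]⟩, ⟨1, [(20, 1), (19, 1), (6, 1)]⟩, ⟨1, [(17, 1)]⟩])) (.cons (.prune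 [(26, 1), (17, 1), (12, 1), (6, 1), (0, 1)]) .nil)))))))
def s27_8_t3 : Tree := .nbr (.cons (.prune [(23, 1), (3, 1), (1, 1)]) (.cons (.ddet 0 [] (.ndet 3 [⟨3, [(21, 1), (20, 4), (3, 3), (1, 2)]⟩, ⟨4, [(21, 1), (20, 6), (18, 1), (3, 4)]⟩, ⟨1, [(20, 2), (3, 1), (1, 1)]⟩] (.ddet 0 [] (.ndet 2 [⟨3, [(21, 1), (20, 4), (3, 3), (1, 5)]⟩, ⟨1, [(13, 1), (1, 1)]⟩, ⟨1, [(20, 2), (3, 1), (1, 2)]⟩] (.ddet 0 [] (.leaf 1 [⟨1, [(19, 1)]⟩, ⟨1, [(20, 2), (3, 1)]⟩, ⟨1, [(20, 2), (3, 1), (1, 1)]⟩, ⟨2, [(19, 3), (18, 1)]⟩, ⟨2, [(19, 3), (18, 1)]⟩, ⟨2, [(19, 3), (18, 1)]⟩, ⟨1, [(19, 1)]⟩, ⟨1, [(14, 1)]⟩, ⟨1, [(14, 1)]⟩, ⟨2, [(19, 1),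 (18, 1)]⟩, ⟨2, [(19, 1), (18, 1)]⟩, ⟨2, [(19, 1), (18, 1)]⟩, ⟨1, []⟩, ⟨1, []⟩, ⟨1, [(1, 1)]⟩, ⟨1, [(1, 1)]⟩, ⟨1, [(1, 1)]⟩, ⟨1, [(13, 1)]⟩, ⟨1, [(13, 1)]⟩, ⟨1, [(13, 1), (1, 1)]⟩, ⟨1, [(13, 1), (1, 1)]⟩, ⟨1, [(13, 1), (1, 2)]⟩, ⟨1, [(13, 1), (1, 2)]⟩, ⟨3, [(21, 1), (20, 4), (3, 3), (1, 8)]⟩, ⟨1, [(14, 1)]⟩])))))) (.cons s27_8_t2 (.cons (.prune [(23, 5), (21, 1), (9, 2), (3, 4), (0, 4)]) .nil))))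
def s27_8_n1 : Node := ⟨[⟨[0, 1, 0, -1], -200⟩, ⟨[0, 1, -1], -200⟩, ⟨[-1, 1], -200⟩, ⟨[-1, 1, -1, -1], 7840⟩, ⟨[0, 1, -1, -1], 3860⟩, ⟨[1, 1, -1, -1], -127⟩, ⟨[-1, 1, 0, -1], 4600⟩, ⟨[-1, 1, 1, -1], 620⟩, ⟨[1, 1, 1, -1], -7380⟩, ⟨[-1, 0, -1], 6920⟩, ⟨[0, 0, -1], 2936⟩, ⟨[1, 0, -1], -1083⟩, ⟨[-1], 3636⟩, ⟨[1], -4320⟩, ⟨[-1, 0, 1], -380⟩, ⟨[0, 0, 1], -4320⟩, ⟨[1, 0, 1], -8340⟩, ⟨[0, -1, -1, 1], 1639⟩, ⟨[1, -1, -1, 1], -2340⟩, ⟨[0, -1, 0, 1], -2349⟩, ⟨[1, -1, 0, 1], -6320⟩, ⟨[0, -1, 1, 1], -6366⟩, ⟨[1, -1, 1, 1], -10340⟩, ⟨[1, 0, 1, 1], 239700⟩], [0, 1], 0, none, (.ndet 3 [⟨1, [(14, 1), (0, 1)]⟩, ⟨1, [(14, 1), (11, 1),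 (0, 1)]⟩, ⟨1, [(14, 1), (13, 1), (0, 1)]⟩] (.ddet 0 [] s27_8_t3))⟩
def s27_8 : Sys := ⟨[(0, 3000), (1, -3000), (3, -1000), (4, 2000)], [(3, 3000)], 4, [s27_8_n0, s27_8_n1], [250437, -4000, 248437, -4000], (.leaf 0 [⟨1, []⟩, ⟨1, []⟩, ⟨1, []⟩, ⟨1, []⟩, ⟨1, []⟩, ⟨1, []⟩, ⟨1, []⟩, ⟨1, []⟩, ⟨1, []⟩, ⟨1, []⟩, ⟨1, []⟩, ⟨1, []⟩, ⟨1, []⟩, ⟨1, []⟩, ⟨1, []⟩, ⟨1, []⟩, ⟨1, []⟩, ⟨1, []⟩, ⟨1, []⟩, ⟨1, []⟩, ⟨1, []⟩, ⟨1, []⟩, ⟨1, []⟩])⟩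

theorem s27_8_ok : s27_8.ok = true := by decide +kernel

def s27_10_n0 : Node := ⟨[⟨[0, 0, 1], 256⟩, ⟨[-1, 0, 1], 128⟩, ⟨[0, 0, 1, -1], 352⟩, ⟨[-1, 0, 1], 224⟩, ⟨[0, 0, 1], 192⟩, ⟨[0, 0, 1], 320⟩, ⟨[0, -1, 1], 320⟩, ⟨[0, -1], -96⟩, ⟨[0, 0, 1], 288⟩, ⟨[-1, 0, 1], 320⟩, ⟨[0, -1, 1], 480⟩, ⟨[1], -96⟩, ⟨[1], -64⟩, ⟨[1], 192⟩], [1], 0, none, (.ndet 2 [⟨1, [(4, 1), (0, 1)]⟩, ⟨1, [(4, 1)]⟩, ⟨1, [(11, 1)]⟩] (.ddet 1 [⟨1, [(4, 1)]⟩] (.ndet 3 [⟨1, [(4, 1), (0, 1)]⟩, ⟨1, [(4, 1), (0, 1)]⟩, ⟨1, [(3, 1)]⟩] (.ddet 0 [⟨1, [(6, 1)]⟩] (.ndet 1 [⟨1, [(4, 1), (0, 1)]⟩, ⟨1, [(4, 1)]⟩, ⟨1, [(3, 1)]⟩] (.ddet 0 [⟨1, [(4, 1)]⟩] (.ndet 3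 [⟨1, [(0, 1)]⟩, ⟨1, [(0, 1)]⟩, ⟨1, [(0, 1)]⟩] (.ddet 1 [⟨1, []⟩] (.leaf 0 [⟨1, [(4, 1), (0, 1)]⟩, ⟨1, [(4, 1)]⟩, ⟨1, [(4, 1), (0, 1)]⟩, ⟨1, [(4, 1)]⟩, ⟨1, [(4, 1), (0, 1)]⟩, ⟨1, [(4, 1), (0, 1)]⟩, ⟨1, [(4, 1), (0, 1)]⟩, ⟨1, []⟩, ⟨1, [(4, 1), (0, 1)]⟩, ⟨1, [(4, 1)]⟩, ⟨1, [(4, 1), (0, 1)]⟩, ⟨1, [(0, 1)]⟩, ⟨1, [(0, 1)]⟩, ⟨1, [(0, 1)]⟩, ⟨1, []⟩])))))))))⟩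
def s27_10 : Sys := ⟨[(0, -128), (1, -128), (3, 192), (4, 320)], [(1, -192), (3, -64)], 4, [s27_10_n0], [256, 64, 832, 256], (.leaf 0 [⟨1, []⟩, ⟨1, []⟩, ⟨1, []⟩, ⟨1, []⟩, ⟨1, []⟩, ⟨1, []⟩, ⟨1, []⟩, ⟨1, []⟩, ⟨1, []⟩, ⟨1, []⟩, ⟨1, []⟩, ⟨1, []⟩, ⟨1, []⟩, ⟨1, []⟩])⟩

theorem s27_10_ok : s27_10.ok = true := by decide +kernel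

def s31_1_n0 : Node := ⟨[⟨[1], 16⟩, ⟨[1, -1], 8⟩, ⟨[1, 0, -1], 8⟩, ⟨[1, 0, 0, -1], 16⟩], [1], 0, none, (.ndet 1 [⟨1, [(3, 1)]⟩, ⟨1, [(2, 1)]⟩, ⟨1, [(1, 1)]⟩, ⟨1, [(0, 1)]⟩] (.ddet 0 [] (.leaf 0 [⟨1, [(3, 1)]⟩, ⟨1, []⟩, ⟨1, [(2, 1)]⟩, ⟨1, [(1, 1)]⟩, ⟨1, []⟩])))⟩
def s31_1 : Sys := ⟨[(0, -16), (1, 0), (2, 0), (3, -16), (4, -16)], [(0, -16)], 4, [s31_1_n0], [48, 32, 16, 0], (.leaf 0 [⟨1, []⟩, ⟨1, []⟩, ⟨1, []⟩, ⟨1, []⟩])⟩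

theorem s31_1_ok : s31_1.ok = true := by decide +kernel

def s31_8_t0 : Tree := .ddet 0 [] (.ndet 4 [⟨2, [(24, 1), (4, 1)]⟩, ⟨2, [(24, 1), (4, 1)]⟩, ⟨1, [(2, 1)]⟩, ⟨2, [(24, 1), (7, 1)]⟩] (.ddet 0 [] (.ndet 3 [⟨2, [(32, 2), (24, 1), (4, 1)]⟩, ⟨1, [(20, 1)]⟩, ⟨2, [(32, 2), (24, 1), (4, 1)]⟩, ⟨2, [(32, 2), (24, 1), (7, 1)]⟩] (.ddet 0 [] (.ndet 4 [⟨2, [(32, 2), (24, 1), (4, 1)]⟩, ⟨2, [(32, 2), (24, 1), (4, 1)]⟩, ⟨1, [(20, 1)]⟩, ⟨2, [(32, 2), (24, 1), (4, 1)]⟩] (.ddet 0 [] (.split [1, 1, -1] (0) (.leaf 0 [⟨2, [(25, 1), (8, 1), (0, 2)]⟩, ⟨1, [(0, 1)]⟩, ⟨2, [(25, 1), (8, 1), (0, 2)]⟩, ⟨1, [(0, 1)]⟩, ⟨1, [(0, 1)]⟩, ⟨1,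 [(0, 1)]⟩, ⟨1, []⟩, ⟨1, []⟩, ⟨1, [(20, 1), (3, 1)]⟩, ⟨2, [(25, 1), (8, 1)]⟩, ⟨1, [(20, 1), (3, 1)]⟩, ⟨2, [(25, 1), (8, 1)]⟩, ⟨1, [(0, 1)]⟩, ⟨1, [(0, 1)]⟩, ⟨1, []⟩, ⟨1, []⟩, ⟨1, [(20, 1), (3, 1)]⟩, ⟨1, [(20, 1), (3, 1)]⟩, ⟨1, [(20, 1), (3, 1)]⟩, ⟨1, [(0, 1)]⟩, ⟨1, [(0, 1)]⟩, ⟨1, [(0, 1)]⟩, ⟨1, []⟩, ⟨1, []⟩, ⟨1, []⟩, ⟨1, [(20, 1), (3, 1)]⟩, ⟨2, [(25, 1), (8, 1)]⟩, ⟨1, [(20, 1), (3, 1)]⟩, ⟨1, [(20, 1), (3, 1)]⟩, ⟨2, [(25, 1), (8, 1)]⟩, ⟨1, []⟩]) (.leaf 2 [⟨2, [(25, 1), (8, 1)]⟩, ⟨2, [(25, 1), (8, 1)]⟩, ⟨1, [(0, 1)]⟩, ⟨1, [(21, 1)]⟩, ⟨1, [(21, 1)]⟩, ⟨1, []⟩, ⟨2, [(33, 2), (25, 1), (5, 1)]⟩, ⟨1, []⟩, ⟨1, []⟩, ⟨2, [(33,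 2), (25, 1), (5, 1)]⟩, ⟨1, [(0, 1)]⟩, ⟨1, [(0, 1)]⟩, ⟨1, [(0, 1)]⟩, ⟨1, []⟩, ⟨1, []⟩, ⟨1, [(0, 1)]⟩, ⟨1, [(0, 1)]⟩, ⟨1, [(21, 1)]⟩, ⟨1, [(21, 1)]⟩, ⟨1, []⟩, ⟨2, [(33, 2), (25, 1), (5, 1)]⟩, ⟨1, []⟩, ⟨1, []⟩, ⟨2, [(33, 2), (25, 1), (5, 1)]⟩, ⟨1, [(0, 1)]⟩, ⟨1, [(0, 1)]⟩, ⟨1, [(0, 1)]⟩, ⟨1, [(0, 1)]⟩]))))))))
def s31_8_t1 : Tree := .nbr (.cons (.prune [(24, 1), (4, 1), (1, 2)]) (.cons (.ddet 0 [] (.ndet 4 [⟨2, [(24, 1), (4, 1)]⟩, ⟨2, [(22, 1), (17, 2), (4, 1)]⟩, ⟨1, [(16, 1)]⟩, ⟨2, [(24, 1), (7, 1)]⟩] (.ddet 0 [] (.ndet 3 [⟨2, [(24, 1), (4, 1), (1, 2)]⟩, ⟨1, [(18, 1), (1, 1)]⟩, ⟨2, [(24, 1), (4, 1)]⟩, ⟨2, [(24, 1),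 (7, 1), (1, 2)]⟩] (.ddet 0 [] (.ndet 4 [⟨2, [(24, 1), (4, 1), (1, 2)]⟩, ⟨2, [(24, 1), (4, 1), (1, 2)]⟩, ⟨1, [(18, 1), (1, 1)]⟩, ⟨2, [(24, 1), (4, 1)]⟩] (.ddet 0 [] (.leaf 0 [⟨2, [(22, 1), (17, 2), (4, 1)]⟩, ⟨1, [(18, 1)]⟩, ⟨2, [(24, 1), (4, 1)]⟩, ⟨1, [(15, 1)]⟩, ⟨1, [(15, 1)]⟩, ⟨1, [(15, 1)]⟩, ⟨1, [(16, 1)]⟩, ⟨1, [(16, 1)]⟩, ⟨1, [(17, 1)]⟩, ⟨2, [(22, 1), (17, 2), (7, 1)]⟩, ⟨1, [(17, 1)]⟩, ⟨2, [(22, 1), (17, 2), (7, 1)]⟩, ⟨1, [(18, 1)]⟩, ⟨1, [(18, 1)]⟩, ⟨1, []⟩, ⟨1, []⟩, ⟨1, [(19, 1)]⟩, ⟨1, [(19, 1)]⟩, ⟨1, [(19, 1)]⟩, ⟨1, [(18, 1), (1, 1)]⟩, ⟨1, [(18, 1), (1, 1)]⟩, ⟨1, [(18, 1), (1, 1)]⟩, ⟨1, [(1, 1)]⟩, ⟨1, [(1, 1)]⟩,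 ⟨1, [(1, 1)]⟩, ⟨1, [(19, 1), (1, 1)]⟩, ⟨2, [(24, 1), (7, 1), (1, 2)]⟩, ⟨1, [(19, 1), (1, 1)]⟩, ⟨1, [(19, 1), (1, 1)]⟩, ⟨2, [(24, 1), (7, 1), (1, 2)]⟩, ⟨1, [(16, 1)]⟩])))))))) (.cons (.prune [(28, 1), (24, 3), (14, 3), (4, 1), (2, 4)]) (.cons s31_8_t0 (.cons (.prune [(29, 2), (24, 1), (4, 1), (2, 2)]) .nil)))))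
def s31_8_n0 : Node := ⟨[⟨[1, 0, 0, -1], -200⟩, ⟨[1, 0, -1], -200⟩, ⟨[1, -1], -200⟩, ⟨[1, -1, -1, -1], -314⟩, ⟨[1, 0, -1, -1], -306⟩, ⟨[1, 1, -1, -1], -325⟩, ⟨[0, -1, 0, -1], -380⟩, ⟨[0, 1, 0, -1], -376⟩, ⟨[-1, -1, 1, -1], -2382⟩, ⟨[0, -1, 1, -1], 179700⟩, ⟨[-1, 1, 1, -1], -2404⟩, ⟨[0, 1, 1, -1], 179700⟩, ⟨[1, -1, -1], -312⟩, ⟨[1, 1, -1], -305⟩, ⟨[0, -1], -320⟩, ⟨[0, 1], -320⟩, ⟨[-1, -1, 1], -2360⟩, ⟨[-1, 0, 1], -2364⟩, ⟨[-1, 1, 1], -2371⟩, ⟨[1, -1, -1, 1], -326⟩, ⟨[1, 0, -1, 1], -317⟩, ⟨[1, 1, -1, 1], -323⟩, ⟨[0, -1, 0, 1], -340⟩, ⟨[0, 0, 0, 1], -320⟩, ⟨[0, 1, 0, 1], -340⟩, ⟨[-1, -1, 1, 1], -2380⟩, ⟨[0, -1, 1, 1],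 179700⟩, ⟨[-1, 0, 1, 1], -2367⟩, ⟨[-1, 1, 1, 1], -2380⟩, ⟨[0, 1, 1, 1], 179700⟩], [1], 0, none, s31_8_t1⟩
def s31_8_t2 : Tree := .nbr (.cons (.prune [(27, 1), (11, 3), (4, 1), (3, 1), (1, 3)]) (.cons (.ddet 0 [] (.leaf 1 [⟨1, [(1, 1)]⟩, ⟨2, [(11, 1), (10, 1), (1, 2)]⟩, ⟨2, [(11, 1), (10, 1)]⟩, ⟨1, []⟩, ⟨1, [(1, 1)]⟩, ⟨1, [(1, 2)]⟩, ⟨1, []⟩, ⟨1, [(1, 2)]⟩, ⟨1, []⟩, ⟨1, [(1, 1)]⟩, ⟨1, [(1, 2)]⟩, ⟨1, [(12, 1)]⟩, ⟨1, []⟩, ⟨1, [(1, 1)]⟩, ⟨1, [(12, 1)]⟩, ⟨1, [(1, 1)]⟩, ⟨1, [(12, 1)]⟩, ⟨1, []⟩, ⟨1, [(1, 1)]⟩, ⟨1, [(12, 1)]⟩, ⟨1, []⟩, ⟨2, [(12, 2), (11, 1), (10, 1)]⟩, ⟨2, [(11, 1), (10, 1), (1, 2)]⟩, ⟨1, [(12, 1)]⟩, ⟨1, []⟩,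 ⟨1, [(12, 1)]⟩, ⟨1, []⟩, ⟨2, [(12, 2), (11, 1), (10, 1)]⟩, ⟨2, [(11, 1), (10, 1), (1, 2)]⟩, ⟨1, [(13, 1), (1, 1)]⟩])) (.cons (.prune [(3, 1)]) (.cons (.ddet 0 [] (.split [-1, 1, 1, -1] (0) (.leaf 1 [⟨1, [(0, 1)]⟩, ⟨2, [(12, 1), (11, 1), (0, 2)]⟩, ⟨2, [(12, 1), (11, 1), (0, 2)]⟩, ⟨1, [(0, 1)]⟩, ⟨1, [(0, 1)]⟩, ⟨1, [(0, 1)]⟩, ⟨1, [(0, 1)]⟩, ⟨1, [(0, 1)]⟩, ⟨1, [(0, 1)]⟩, ⟨1, [(0, 1)]⟩, ⟨1, [(0, 1)]⟩, ⟨1, []⟩, ⟨1, []⟩, ⟨1, []⟩, ⟨1, []⟩, ⟨1, []⟩, ⟨1, []⟩, ⟨1, []⟩, ⟨1, []⟩, ⟨1, [(3, 1)]⟩, ⟨1, [(3, 1)]⟩, ⟨2, [(12, 1), (11, 1)]⟩, ⟨2, [(12, 1), (11, 1)]⟩, ⟨1, [(3, 1)]⟩, ⟨1, [(3, 1)]⟩, ⟨1, [(3, 1)]⟩, ⟨1, [(3, 1)]⟩, ⟨2, [(12,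 1), (11, 1)]⟩, ⟨2, [(12, 1), (11, 1)]⟩, ⟨1, [(19, 1)]⟩]) (.leaf 3 [⟨2, [(12, 1), (11, 1)]⟩, ⟨1, [(0, 1)]⟩, ⟨2, [(12, 1), (11, 1)]⟩, ⟨1, [(25, 1)]⟩, ⟨1, [(25, 1)]⟩, ⟨1, [(25, 1)]⟩, ⟨1, [(25, 1)]⟩, ⟨1, [(25, 1)]⟩, ⟨1, [(25, 1)]⟩, ⟨1, []⟩, ⟨1, []⟩, ⟨1, []⟩, ⟨2, [(33, 2), (12, 1), (6, 1)]⟩, ⟨2, [(33, 2), (12, 1), (6, 1)]⟩, ⟨1, []⟩, ⟨1, []⟩, ⟨1, []⟩, ⟨1, []⟩, ⟨1, []⟩, ⟨2, [(33, 2), (12, 1), (6, 1)]⟩, ⟨2, [(33, 2), (12, 1), (6, 1)]⟩, ⟨1, [(0, 1)]⟩, ⟨1, [(0, 1)]⟩, ⟨1, [(0, 1)]⟩, ⟨1, [(0, 1)]⟩, ⟨1, [(0, 1)]⟩, ⟨1, [(0, 1)]⟩, ⟨1, [(0, 1)]⟩, ⟨1, [(0, 1)]⟩, ⟨1, [(19, 1), (0, 1)]⟩]))) (.cons (.prune [(11, 1), (0, 1)]) .nil)))))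
def s31_8_n1 : Node := ⟨[⟨[0, 1, 0, -1], -200⟩, ⟨[0, 1, -1], -200⟩, ⟨[-1, 1], -200⟩, ⟨[-1, 1, -1, -1], -320⟩, ⟨[0, 1, -1, -1], -312⟩, ⟨[1, 1, -1, -1], -328⟩, ⟨[-1, 1, 0, -1], -317⟩, ⟨[1, 1, 0, -1], -311⟩, ⟨[-1, 1, 1, -1], -320⟩, ⟨[0, 1, 1, -1], -305⟩, ⟨[1, 1, 1, -1], -322⟩, ⟨[-1, 0, -1], -380⟩, ⟨[0, 0, -1], -320⟩, ⟨[1, 0, -1], -340⟩, ⟨[-1], -366⟩, ⟨[1], -320⟩, ⟨[-1, 0, 1], -382⟩, ⟨[0, 0, 1], -320⟩, ⟨[1, 0, 1], -340⟩, ⟨[0, -1, -1, 1], -2360⟩, ⟨[1, -1, -1, 1], -2340⟩, ⟨[-1, 0, -1, 1], 179700⟩, ⟨[1, 0, -1, 1], 179700⟩, ⟨[0, -1, 0, 1], -2364⟩, ⟨[1, -1, 0, 1], -2320⟩, ⟨[0, -1, 1, 1], -2371⟩, ⟨[1, -1, 1, 1], -2340⟩, ⟨[-1,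 0, 1, 1], 179700⟩, ⟨[1, 0, 1, 1], 179700⟩], [0, 1], 0, none, (.ndet 4 [⟨2, [(7, 1), (0, 1)]⟩, ⟨2, [(7, 1), (1, 1)]⟩, ⟨1, [(5, 1)]⟩, ⟨2, [(7, 1), (6, 1)]⟩] (.ddet 0 [] (.ndet 3 [⟨2, [(28, 2), (7, 1), (0, 1)]⟩, ⟨1, [(19, 1)]⟩, ⟨2, [(28, 2), (7, 1), (1, 1)]⟩, ⟨2, [(28, 2), (7, 1), (6, 1)]⟩] (.ddet 0 [] (.ndet 4 [⟨2, [(28, 2), (7, 1), (0, 1)]⟩, ⟨2, [(28, 2), (7, 1), (0, 1)]⟩, ⟨1, [(19, 1)]⟩, ⟨2, [(28, 2), (7, 1), (1, 1)]⟩] (.ddet 0 [] s31_8_t2))))))⟩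
def s31_8_t3 : Tree := .nbr (.cons (.prune [(21, 1), (10, 1), (1, 2)]) (.cons (.ddet 0 [] (.ndet 4 [⟨2, [(24, 1), (7, 1)]⟩, ⟨2, [(24, 1), (21, 1), (12, 2)]⟩, ⟨2, [(26, 1), (12, 1)]⟩, ⟨2, [(24, 1), (7, 1)]⟩] (.ddet 0 [] (.leaf 2 [⟨2, [(21, 1), (10, 1), (1, 2)]⟩, ⟨2, [(24, 1), (7, 1)]⟩, ⟨1, [(1, 1)]⟩, ⟨2, [(26, 1), (12, 1)]⟩, ⟨1, []⟩, ⟨2, [(26, 1), (12, 1)]⟩, ⟨2, [(24, 1), (21, 1), (12, 2)]⟩, ⟨1, []⟩, ⟨1, [(1, 1)]⟩, ⟨2, [(21, 1), (10, 1), (1, 2)]⟩, ⟨1, []⟩, ⟨1, [(1, 1)]⟩, ⟨1, [(1, 2)]⟩, ⟨2, [(26, 1), (12, 1)]⟩, ⟨1, [(1, 1)]⟩, ⟨1, []⟩, ⟨1, [(1, 2)]⟩, ⟨2, [(26, 1), (12, 1)]⟩, ⟨1, []⟩, ⟨2, [(26, 1), (12, 1)]⟩, ⟨2, [(24,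 1), (21, 1), (12, 2)]⟩, ⟨1, []⟩, ⟨1, [(1, 1)]⟩, ⟨2, [(21, 1), (10, 1), (1, 2)]⟩, ⟨1, []⟩, ⟨1, [(1, 1)]⟩, ⟨1, [(1, 2)]⟩, ⟨1, [(17, 1)]⟩])))) (.cons (.prune [(3, 1)]) (.cons (.ddet 0 [] (.ndet 4 [⟨2, [(24, 1), (7, 1)]⟩, ⟨2, [(24, 1), (7, 1)]⟩, ⟨1, [(2, 1)]⟩, ⟨2, [(24, 1), (7, 1)]⟩] (.ddet 0 [] (.split [1, 1, -1] (0) (.leaf 0 [⟨2, [(25, 1), (8, 1)]⟩, ⟨1, [(0, 1)]⟩, ⟨2, [(25, 1), (8, 1)]⟩, ⟨1, [(0, 1)]⟩, ⟨1, [(0, 1)]⟩, ⟨1, [(0, 1)]⟩, ⟨1, []⟩, ⟨1, []⟩, ⟨1, [(16, 1)]⟩, ⟨2, [(29, 2), (25, 1), (11, 1)]⟩, ⟨1, [(16, 1)]⟩, ⟨2, [(29, 2), (25, 1), (11, 1)]⟩, ⟨1, [(0, 1)]⟩, ⟨1, [(0, 1)]⟩, ⟨1, []⟩, ⟨1, []⟩, ⟨1, [(16, 1)]⟩, ⟨1, [(16,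 1)]⟩, ⟨1, [(16, 1)]⟩, ⟨1, [(0, 1)]⟩, ⟨1, [(0, 1)]⟩, ⟨1, [(0, 1)]⟩, ⟨1, []⟩, ⟨1, []⟩, ⟨1, []⟩, ⟨1, [(16, 1)]⟩, ⟨2, [(29, 2), (25, 1), (11, 1)]⟩, ⟨1, [(16, 1)]⟩, ⟨1, [(16, 1)]⟩, ⟨2, [(29, 2), (25, 1), (11, 1)]⟩, ⟨1, [(18, 1), (0, 1)]⟩]) (.leaf 2 [⟨2, [(22, 1), (11, 1), (0, 2)]⟩, ⟨2, [(22, 1), (11, 1), (0, 2)]⟩, ⟨1, [(0, 1)]⟩, ⟨1, [(3, 1)]⟩, ⟨1, [(3, 1)]⟩, ⟨1, []⟩, ⟨2, [(25, 1), (8, 1)]⟩, ⟨1, []⟩, ⟨1, []⟩, ⟨2, [(25, 1), (8, 1)]⟩, ⟨1, [(0, 1)]⟩, ⟨1, [(0, 1)]⟩, ⟨1, [(0, 1)]⟩, ⟨1, []⟩, ⟨1, []⟩, ⟨1, [(0, 1)]⟩, ⟨1, [(0, 1)]⟩, ⟨1, [(3, 1)]⟩, ⟨1, [(3, 1)]⟩, ⟨1, []⟩, ⟨2, [(25, 1), (8, 1)]⟩, ⟨1, []⟩, ⟨1, []⟩, ⟨2, [(25, 1), (8,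 1)]⟩, ⟨1, [(0, 1)]⟩, ⟨1, [(0, 1)]⟩, ⟨1, [(0, 1)]⟩, ⟨1, [(18, 1)]⟩]))))) (.cons (.prune [(24, 1), (10, 1), (0, 2)]) .nil)))))
def s31_8_n2 : Node := ⟨[⟨[0, 0, 1, -1], -200⟩, ⟨[0, -1, 1], -200⟩, ⟨[-1, 0, 1], -200⟩, ⟨[1, 0, -1, -1], -1371⟩, ⟨[1, 1, -1, -1], -1380⟩, ⟨[0, -1, 0, -1], -380⟩, ⟨[1, -1, 0, -1], 179700⟩, ⟨[0, 0, 0, -1], -320⟩, ⟨[0, 1, 0, -1], -340⟩, ⟨[1, 1, 0, -1], 179700⟩, ⟨[-1, -1, 1, -1], -336⟩, ⟨[-1, 0, 1, -1], -316⟩, ⟨[-1, 1, 1, -1], -333⟩, ⟨[0, -1], -366⟩, ⟨[0, 1], -320⟩, ⟨[-1, -1, 1], -316⟩, ⟨[-1, 1, 1], -316⟩, ⟨[1, 0, -1, 1], -1383⟩, ⟨[1, 1, -1, 1], -1340⟩, ⟨[0, -1, 0, 1], -382⟩, ⟨[1, -1, 0, 1], 179700⟩,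 ⟨[0, 0, 0, 1], -320⟩, ⟨[0, 1, 0, 1], -340⟩, ⟨[1, 1, 0, 1], 179700⟩, ⟨[-1, -1, 1, 1], -316⟩, ⟨[-1, 0, 1, 1], -308⟩, ⟨[-1, 1, 1, 1], -319⟩], [0, 0, 1], 0, none, (.ndet 3 [⟨2, [(24, 2), (20, 1), (3, 1)]⟩, ⟨1, [(24, 1)]⟩, ⟨2, [(24, 2), (20, 1), (6, 1)]⟩, ⟨2, [(24, 2), (20, 1), (17, 1)]⟩] (.ddet 0 [] (.ndet 4 [⟨2, [(24, 2), (20, 1), (3, 1)]⟩, ⟨2, [(24, 2), (20, 1), (3, 1)]⟩, ⟨1, [(24, 1)]⟩, ⟨2, [(24, 2), (20, 1), (6, 1)]⟩] (.ddet 0 [] s31_8_t3))))⟩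
def s31_8_t4 : Tree := .nbr (.cons (.prune [(20, 1), (12, 1), (1, 2)]) (.cons (.ddet 0 [] (.ndet 4 [⟨2, [(20, 1), (12, 1)]⟩, ⟨2, [(26, 2), (19, 1), (12, 1)]⟩, ⟨1, [(25, 1)]⟩, ⟨2, [(20, 1), (13, 1)]⟩] (.ddet 0 [] (.ndet 3 [⟨2, [(19, 1), (13, 1), (1, 2)]⟩, ⟨1, [(17, 1), (1, 1)]⟩, ⟨2, [(20, 1), (12, 1)]⟩, ⟨2, [(20, 1), (13, 1), (1, 2)]⟩] (.ddet 0 [] (.leaf 3 [⟨2, [(20, 1), (12, 1)]⟩, ⟨1, [(17, 1), (1, 1)]⟩, ⟨2, [(19, 1), (13, 1), (1, 2)]⟩, ⟨1, [(26, 1)]⟩, ⟨1, [(26, 1)]⟩, ⟨1, [(26, 1)]⟩, ⟨1, [(18, 1)]⟩, ⟨1, [(18, 1)]⟩, ⟨1, [(18, 1)]⟩, ⟨1, [(25, 1)]⟩, ⟨1, [(25, 1)]⟩, ⟨1, [(25, 1)]⟩, ⟨2, [(26, 2), (20, 1), (12, 1)]⟩, ⟨2,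 [(26, 2), (20, 1), (12, 1)]⟩, ⟨1, []⟩, ⟨1, []⟩, ⟨1, [(1, 1)]⟩, ⟨1, [(1, 1)]⟩, ⟨1, [(1, 1)]⟩, ⟨2, [(20, 1), (13, 1), (1, 2)]⟩, ⟨2, [(20, 1), (13, 1), (1, 2)]⟩, ⟨1, [(17, 1)]⟩, ⟨1, [(17, 1)]⟩, ⟨1, [(17, 1)]⟩, ⟨1, [(17, 1), (1, 1)]⟩, ⟨1, [(17, 1), (1, 1)]⟩, ⟨1, [(17, 1), (1, 2)]⟩, ⟨1, [(17, 1), (1, 2)]⟩, ⟨1, [(17, 1), (1, 2)]⟩, ⟨1, [(22, 1)]⟩])))))) (.cons (.prune [(23, 2), (19, 1), (13, 3), (1, 4)]) (.cons (.ddet 0 [] (.ndet 4 [⟨2, [(20, 1), (12, 1)]⟩, ⟨2, [(20, 1), (12, 1)]⟩, ⟨1, [(2, 1)]⟩, ⟨2, [(20, 1), (13, 1)]⟩] (.ddet 0 [] (.ndet 3 [⟨2, [(31, 2), (20, 1), (19, 1)]⟩, ⟨1, [(9, 1)]⟩, ⟨2, [(31, 2), (20, 1), (19, 1)]⟩,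 ⟨1, [(31, 1), (20, 1)]⟩] (.ddet 0 [] (.split [-1, 1, 1, -1] (0) (.leaf 1 [⟨1, [(0, 1)]⟩, ⟨2, [(21, 1), (14, 1)]⟩, ⟨2, [(21, 1), (14, 1)]⟩, ⟨1, [(0, 1)]⟩, ⟨1, [(0, 1)]⟩, ⟨1, [(0, 1)]⟩, ⟨1, [(0, 1)]⟩, ⟨1, [(0, 1)]⟩, ⟨1, [(0, 1)]⟩, ⟨1, [(0, 1)]⟩, ⟨1, [(0, 1)]⟩, ⟨1, []⟩, ⟨1, []⟩, ⟨1, []⟩, ⟨1, []⟩, ⟨1, []⟩, ⟨1, []⟩, ⟨1, []⟩, ⟨1, []⟩, ⟨1, [(10, 1)]⟩, ⟨1, [(10, 1)]⟩, ⟨2, [(32, 2), (21, 1), (20, 1)]⟩, ⟨2, [(32, 2), (21, 1), (20, 1)]⟩, ⟨1, [(10, 1)]⟩, ⟨1, [(10, 1)]⟩, ⟨1, [(10, 1)]⟩, ⟨1, [(10, 1)]⟩, ⟨2, [(32, 2), (21, 1), (20, 1)]⟩, ⟨2, [(32, 2), (21, 1), (20, 1)]⟩, ⟨1, [(23, 1), (0, 1)]⟩]) (.leaf 3 [⟨2, [(21, 1), (14, 1),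 (0, 2)]⟩, ⟨1, [(0, 1)]⟩, ⟨2, [(21, 1), (14, 1), (0, 2)]⟩, ⟨1, [(19, 1), (3, 1)]⟩, ⟨1, [(19, 1), (3, 1)]⟩, ⟨1, [(19, 1), (3, 1)]⟩, ⟨1, [(19, 1), (3, 1)]⟩, ⟨1, [(19, 1), (3, 1)]⟩, ⟨1, [(19, 1), (3, 1)]⟩, ⟨1, []⟩, ⟨1, []⟩, ⟨1, []⟩, ⟨2, [(21, 1), (14, 1)]⟩, ⟨2, [(21, 1), (14, 1)]⟩, ⟨1, []⟩, ⟨1, []⟩, ⟨1, []⟩, ⟨1, []⟩, ⟨1, []⟩, ⟨2, [(21, 1), (14, 1)]⟩, ⟨2, [(21, 1), (14, 1)]⟩, ⟨1, [(0, 1)]⟩, ⟨1, [(0, 1)]⟩, ⟨1, [(0, 1)]⟩, ⟨1, [(0, 1)]⟩, ⟨1, [(0, 1)]⟩, ⟨1, [(0, 1)]⟩, ⟨1, [(0, 1)]⟩, ⟨1, [(0, 1)]⟩, ⟨1, [(23, 1)]⟩]))))))) (.cons (.prune [(27, 2), (20, 5), (12, 1), (9, 2), (0, 6)]) .nil)))))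
def s31_8_n3 : Node := ⟨[⟨[0, 0, -1, 1], -200⟩, ⟨[0, -1, 0, 1], -200⟩, ⟨[-1, 0, 0, 1], -200⟩, ⟨[-1, 1, 0, -1], -1370⟩, ⟨[0, 1, 0, -1], -1377⟩, ⟨[1, 1, 0, -1], -1388⟩, ⟨[-1, 1, 1, -1], -1355⟩, ⟨[0, 1, 1, -1], -1360⟩, ⟨[1, 1, 1, -1], -1380⟩, ⟨[-1, 0, -1], -380⟩, ⟨[0, 0, -1], -366⟩, ⟨[1, 0, -1], -376⟩, ⟨[-1, 1, -1], 179700⟩, ⟨[1, 1, -1], 179700⟩, ⟨[-1], -320⟩, ⟨[1], -320⟩, ⟨[-1, 0, 1], -340⟩, ⟨[0, 0, 1], -320⟩, ⟨[1, 0, 1], -340⟩, ⟨[-1, 1, 1], 179700⟩, ⟨[1, 1, 1], 179700⟩, ⟨[-1, -1, -1, 1], -333⟩, ⟨[0, -1, -1, 1], -316⟩, ⟨[1, -1, -1, 1], -336⟩, ⟨[-1, -1, 0, 1], -313⟩, ⟨[1, -1, 0, 1], -318⟩, ⟨[-1, -1, 1, 1], -311⟩, ⟨[0,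 -1, 1, 1], -316⟩, ⟨[1, -1, 1, 1], -326⟩], [0, 0, 0, 1], 0, none, (.ndet 4 [⟨2, [(27, 2), (16, 1), (8, 1)]⟩, ⟨2, [(27, 2), (16, 1), (9, 1)]⟩, ⟨1, [(27, 1)]⟩, ⟨2, [(27, 2), (16, 1), (15, 1)]⟩] (.ddet 0 [] s31_8_t4))⟩
def s31_8 : Sys := ⟨[(0, -1000), (1, -3000), (2, -3000), (3, -1000), (4, 0)], [(3, -1000)], 4, [s31_8_n0, s31_8_n1, s31_8_n2, s31_8_n3], [0, 1503988, 0, 1502755], (.leaf 1 [⟨1, []⟩, ⟨1, []⟩, ⟨1, []⟩, ⟨1, []⟩, ⟨1, []⟩, ⟨1, []⟩, ⟨1, []⟩, ⟨1, []⟩, ⟨1, []⟩, ⟨1, []⟩, ⟨1, []⟩, ⟨1, []⟩, ⟨1, []⟩, ⟨1, []⟩, ⟨1, []⟩, ⟨1, []⟩, ⟨1, []⟩, ⟨1, []⟩, ⟨1, []⟩, ⟨1, []⟩, ⟨1, []⟩, ⟨1, []⟩, ⟨1, []⟩, ⟨1, []⟩, ⟨1, []⟩, ⟨1, []⟩,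 ⟨1, []⟩, ⟨1, []⟩, ⟨1, []⟩])⟩

theorem s31_8_ok : s31_8.ok = true := by decide +kernel

end Pool.Agent.H81.RDE.Data
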