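import Pool.Agent.H81.RDE.System

/-! Data file (generated): certificates. -/

set_option maxRecDepth 100000

namespace Pool.Agent.H81.RDE.Data

def s6_24_t0 : Tree := .dbr (.cons (.ndet 0 [⟨937, [(7, 2), (6, 82418), (3, 163), (2, 1187)]⟩] (.ddet 0 [⟨656, [(7, 1), (6, 73084), (3, 144), (0, 531)]⟩] (.split [-1, 0, 1] (-4000) (.leaf 0 [⟨937, [(8, 1), (7, 280144), (4, 550), (3, 1062)]⟩, ⟨937, [(8, 2), (7, 82418), (4, 163), (3, 1187)]⟩, ⟨1, [(0, 1)]⟩, ⟨2261, [(7, 2938496), (5, 736), (4, 5248), (0, 3041)]⟩, ⟨1, []⟩, ⟨1, []⟩, ⟨2249, [(8, 730), (7, 998800), (4, 2468), (0, 3853)]⟩, ⟨2261, [(7, 2071514), (5, 4), (4, 4059), (0, 2511)]⟩, ⟨2249, [(8, 1),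 (7, 343894), (4, 675), (0, 1062)]⟩]) (.nbr (.cons (.ddet 0 [⟨1318, [(8, 261476), (6, 1), (5, 512), (2, 125)]⟩] (.leaf 0 [⟨2249, [(9, 1), (8, 343894), (5, 675), (0, 3436)]⟩, ⟨1, [(0, 1)]⟩, ⟨656, [(9, 1), (8, 73084), (5, 144), (2, 1187)]⟩, ⟨2249, [(9, 550), (8, 2182330), (5, 4663), (0, 5138)]⟩, ⟨1, []⟩, ⟨1, []⟩, ⟨2261, [(8, 1969166), (6, 556), (5, 3473), (0, 1426)]⟩, ⟨2261, [(8, 1959266), (6, 1), (5, 3841), (0, 3329)]⟩, ⟨2249, [(9, 1), (8, 343894), (5, 675), (0, 1187)]⟩])) (.cons (.ddet 0 [⟨2261, [(8, 459202), (6, 2), (5, 899), (0, 125)]⟩] (.leaf 0 [⟨2249, [(9, 1), (8, 343894), (5, 675), (1, 3436)]⟩, ⟨1, [(1, 1)]⟩, ⟨2261, [(8, 459202), (6, 2),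 (5, 899), (0, 125)]⟩, ⟨2249, [(9, 550), (8, 2182330), (5, 4663), (0, 64581)]⟩, ⟨1, [(1, 1)]⟩, ⟨1, [(0, 1)]⟩, ⟨2261, [(8, 1969166), (6, 556), (5, 3473), (1, 71517)]⟩, ⟨2261, [(8, 1959266), (6, 1), (5, 3841), (0, 1152042)]⟩, ⟨2249, [(9, 1), (8, 343894), (5, 675), (1, 1187)]⟩])) .nil)))))) (.cons (.ndet 0 [⟨1318, [(6, 261476), (4, 1), (3, 512), (1, 125)]⟩] (.ddet 0 [⟨656, [(7, 1), (6, 73084), (3, 144), (1, 531)]⟩] (.ndet 0 [⟨1318, [(6, 112248), (4, 3), (3, 218), (0, 2261)]⟩] (.ddet 0 [⟨1318, [(6, 261476), (4, 1), (3, 512), (1, 125)]⟩] (.leaf 0 [⟨659, [(6, 186862), (4, 2), (3, 365), (0, 1068)]⟩, ⟨1318, [(6, 112248), (4, 3), (3, 218), (0, 2261)]⟩,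 ⟨656, [(7, 1), (6, 73084), (3, 144), (1, 1187)]⟩, ⟨656, [(7, 157), (6, 768268), (3, 1616), (1, 144375)]⟩, ⟨1, []⟩, ⟨1, []⟩, ⟨659, [(6, 609338), (4, 163), (3, 1081), (0, 144375)]⟩, ⟨1318, [(6, 1307380), (4, 5), (3, 2560), (1, 625)]⟩, ⟨1318, [(6, 261476), (4, 1), (3, 512), (1, 125)]⟩]))))) .nil))
def s6_24_t1 : Tree := .ddet 1 [⟨1318, [(5, 112248), (3, 3), (2, 218), (0, 943)]⟩] (.ndet 0 [⟨656, [(6, 1), (5, 73084), (2, 144), (0, 125)]⟩] (.ddet 1 [⟨1, []⟩] (.ndet 0 [⟨1318, [(7, 125), (5, 261476), (3, 1), (2, 512)]⟩] (.ddet 1 [⟨1, [(0, 1)]⟩] (.ndet 0 [⟨1318, [(7, 125), (5, 261476), (3, 1), (2, 512)]⟩] (.ddet 0 [⟨656, [(6, 1), (5, 73084), (2, 144),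 (0, 125)]⟩] (.ndet 0 [⟨1318, [(5, 112248), (3, 3), (2, 218), (0, 943)]⟩] (.ddet 0 [⟨1318, [(7, 125), (5, 261476), (3, 1), (2, 512)]⟩] (.leaf 0 [⟨659, [(5, 186862), (3, 2), (2, 365), (0, 409)]⟩, ⟨1318, [(5, 112248), (3, 3), (2, 218), (0, 943)]⟩, ⟨656, [(7, 531), (6, 1), (5, 73084), (2, 144)]⟩, ⟨656, [(7, 62375), (6, 157), (5, 768268), (2, 1616)]⟩, ⟨1, []⟩, ⟨1, []⟩, ⟨659, [(5, 609338), (3, 163), (2, 1081), (0, 62000)]⟩, ⟨1318, [(7, 625), (5, 1307380), (3, 5), (2, 2560)]⟩, ⟨1318, [(7, 125), (5, 261476), (3, 1), (2, 512)]⟩])))))))))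
def s6_24_t2 : Tree := .ddet 1 [⟨1318, [(6, 375), (4, 112248), (2, 3), (1, 218)]⟩] (.ndet 1 [⟨1, []⟩] (.ddet 1 [⟨937, [(5, 2), (4, 82418), (1, 163), (0, 250)]⟩] (.nbr (.cons (.ddet 1 [⟨1, [(1, 1)]⟩] (.ndet 0 [⟨656, [(6, 1), (5, 73084), (2, 144), (0, 531)]⟩] (.ddet 1 [⟨1, []⟩] (.ndet 0 [⟨1318, [(5, 261476), (3, 1), (2, 512), (0, 125)]⟩] s6_24_t0)))) (.cons s6_24_t1 .nil)))))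
def s6_24_t3 : Tree := .ddet 1 [⟨937, [(7, 1187), (5, 2), (4, 82418), (1, 163)]⟩] (.ndet 0 [⟨943, [(4, 112248), (2, 3), (1, 218), (0, 1318)]⟩] (.ddet 1 [⟨1, []⟩] (.ndet 0 [⟨943, [(4, 197726), (2, 1), (1, 387), (0, 1068)]⟩] (.ddet 1 [⟨1, [(7, 1)]⟩] (.ndet 0 [⟨943, [(4, 197726), (2, 1), (1, 387), (0, 1068)]⟩] (.ddet 0 [⟨943, [(4, 112248), (2, 3), (1, 218), (0, 1318)]⟩] (.ndet 0 [⟨937, [(7, 1187), (5, 2), (4, 82418), (1, 163)]⟩] (.ddet 0 [⟨943, [(4, 197726), (2, 1), (1, 387), (0, 1068)]⟩] (.leaf 0 [⟨937, [(7, 125), (5, 1), (4, 280144), (1, 550)]⟩, ⟨937, [(7, 1187), (5, 2), (4, 82418), (1, 163)]⟩, ⟨943, [(4, 112248), (2, 3), (1, 218), (0, 2261)]⟩,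 ⟨943, [(4, 1376536), (2, 311), (1, 2482), (0, 214273)]⟩, ⟨1, []⟩, ⟨1, []⟩, ⟨937, [(7, 200413), (5, 299), (4, 613676), (1, 1412)]⟩, ⟨943, [(4, 988630), (2, 5), (1, 1935), (0, 5340)]⟩, ⟨943, [(4, 197726), (2, 1), (1, 387), (0, 2011)]⟩])))))))))
def s6_24_t4 : Tree := .dbr (.cons (.ndet 1 [⟨1318, [(6, 375), (4, 112248), (2, 3), (1, 218)]⟩] (.ddet 1 [⟨1, [(6, 1)]⟩] (.ndet 1 [⟨937, [(5, 2), (4, 82418), (1, 163), (0, 250)]⟩] (.ddet 1 [⟨937, [(5, 2), (4, 82418), (1, 163), (0, 250)]⟩] (.ndet 1 [⟨1, [(0, 1)]⟩] s6_24_t2))))) (.cons (.ndet 1 [⟨943, [(4, 112248), (2, 3), (1, 218), (0, 1318)]⟩] (.ddet 1 [⟨943, [(4, 112248), (2, 3), (1, 218), (0, 1318)]⟩]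 (.ndet 1 [⟨937, [(7, 1187), (5, 2), (4, 82418), (1, 163)]⟩] (.ddet 1 [⟨937, [(7, 250), (5, 2), (4, 82418), (1, 163)]⟩] (.ndet 1 [⟨1, []⟩] (.ddet 1 [⟨943, [(4, 112248), (2, 3), (1, 218), (0, 1318)]⟩] (.ndet 1 [⟨1, [(7, 1)]⟩] s6_24_t3))))))) .nil))
def s6_24_n0 : Node := ⟨[⟨[0, 1, 0, -1], -200⟩, ⟨[0, 1, -1], -200⟩, ⟨[-1, 1], -200⟩, ⟨[31, -319, 512, -356], 61286400⟩, ⟨[-1, 1, 0, -1], -3020⟩, ⟨[1, -1, 0, 1], -3020⟩, ⟨[-31, 325, -512, 356], 50714448⟩, ⟨[511, -509, 1, 510], 55947456⟩], [0, 1], 0, none, (.ndet 1 [⟨1, [(5, 1)]⟩] (.ddet 0 [⟨937, [(6, 250), (4, 2), (3, 83355), (0, 163)]⟩] (.ndet 1 [⟨937, [(6, 250), (4, 2), (3, 82418), (0, 163)]⟩] s6_24_t4)))⟩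
def s6_24 : Sys := ⟨[(1, -1000), (2, 0)], [(3, -1000), (4, 1000)], 4, [s6_24_n0], [32187265, 36665688, 24273439, 4478423], (.leaf 0 [⟨1, []⟩, ⟨1, []⟩, ⟨1, []⟩, ⟨1, []⟩, ⟨1, []⟩, ⟨1, []⟩, ⟨1, []⟩, ⟨1, []⟩])⟩

theorem s6_24_ok : s6_24.ok = true := by decide +kernel

def s9_6_n0 : Node := ⟨[⟨[0, 0, -1], 232⟩, ⟨[1, -1], 656⟩, ⟨[0, -1], 300⟩, ⟨[2], 744⟩, ⟨[1], 364⟩, ⟨[1], 372⟩, ⟨[1], 380⟩], [1], 0, none, (.ndet 0 [⟨1, [(6, 1)]⟩] (.ddet 0 [⟨1, [(4, 1), (0, 1)]⟩] (.ndet 0 [⟨1, [(4, 1)]⟩] (.ddet 1 [⟨1, [(0, 2)]⟩] (.ndet 1 [⟨1, [(0, 1)]⟩] (.ddet 0 [⟨1, []⟩] (.leaf 0 [⟨1, [(0, 1)]⟩, ⟨1, [(0, 3)]⟩, ⟨1, [(0, 1)]⟩, ⟨1, [(0, 4)]⟩, ⟨1, [(0, 2)]⟩, ⟨1, [(0,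 2)]⟩, ⟨1, [(0, 2)]⟩, ⟨1, [(0, 1)]⟩])))))))⟩
def s9_6 : Sys := ⟨[(0, 0), (3, 16)], [(1, 16), (2, 0)], 3, [s9_6_n0], [496, -672, -384, 0], (.leaf 0 [⟨1, []⟩, ⟨1, []⟩, ⟨1, []⟩, ⟨1, []⟩, ⟨1, []⟩, ⟨1, []⟩, ⟨1, []⟩])⟩

theorem s9_6_ok : s9_6.ok = true := by decide +kernel

def s10_20_n0 : Node := ⟨[⟨[1, 0, -1], 224⟩, ⟨[0, -1, 0, 1], 368⟩, ⟨[1, -1, 0, -1], 256⟩, ⟨[1, 0, -1], 128⟩, ⟨[1, 0, 0, 1], 240⟩, ⟨[1, -1, 0, -1], 160⟩, ⟨[-1, 0, 0, 2], 176⟩, ⟨[1, 0, 0, 1], 336⟩, ⟨[-1, 0, 0, 2], 144⟩, ⟨[-1, 0, 0, 2], 80⟩, ⟨[-1, 0, 0, 2], 48⟩, ⟨[2, 0, 0, -1], 256⟩, ⟨[2, 0, 0, -1], 224⟩, ⟨[2, 0, 0, -1], 160⟩, ⟨[2, 0, 0, -1], 128⟩], [1, 0, 0, 1], 0, none, (.ndet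 0 [⟨1, [(14, 1)]⟩] (.ddet 1 [⟨1, [(12, 1), (8, 1)]⟩] (.ndet 0 [⟨1, [(12, 1)]⟩] (.ddet 0 [⟨1, [(14, 1)]⟩] (.ndet 1 [⟨1, [(8, 1), (3, 1)]⟩] (.ddet 0 [⟨1, [(12, 1)]⟩] (.leaf 0 [⟨1, [(8, 1)]⟩, ⟨1, [(8, 1), (3, 1)]⟩, ⟨1, [(8, 1)]⟩, ⟨1, [(8, 1)]⟩, ⟨1, [(8, 1), (3, 1)]⟩, ⟨1, [(8, 1)]⟩, ⟨1, [(3, 1)]⟩, ⟨1, [(8, 1), (3, 1)]⟩, ⟨1, [(3, 1)]⟩, ⟨1, [(3, 1)]⟩, ⟨1, [(3, 1)]⟩, ⟨1, [(8, 1)]⟩, ⟨1, [(8, 1)]⟩, ⟨1, [(8, 1)]⟩, ⟨1, [(8, 1)]⟩, ⟨1, []⟩])))))))⟩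
def s10_20 : Sys := ⟨[(1, -64), (3, 64)], [(2, 0), (4, -64)], 4, [s10_20_n0], [448, -448, -64, 320], (.leaf 0 [⟨1, []⟩, ⟨1, []⟩, ⟨1, []⟩, ⟨1, []⟩, ⟨1, []⟩, ⟨1, []⟩, ⟨1, []⟩, ⟨1, []⟩, ⟨1, []⟩, ⟨1, []⟩, ⟨1, []⟩, ⟨1, []⟩, ⟨1, []⟩, ⟨1, []⟩, ⟨1, []⟩])⟩

theorem s10_20_ok : s10_20.ok = true := by decide +kernel

def s13_10_n0 : Node := ⟨[⟨[0, 1], 40⟩, ⟨[0, 1, -1], 64⟩, ⟨[1, 0, -1], -24⟩, ⟨[0, 1], 48⟩, ⟨[-1, 1], 88⟩, ⟨[-1], 16⟩, ⟨[-1], 32⟩], [0, 1], 0, none, (.ndet 1 [⟨1, [(3, 1)]⟩, ⟨1, [(5, 1)]⟩] (.ddet 0 [⟨1, [(4, 1)]⟩] (.ndet 2 [⟨1, [(3, 1)]⟩, ⟨1, [(2, 1)]⟩] (.ddet 0 [⟨1, [(0, 1)]⟩] (.leaf 0 [⟨1, [(2, 1)]⟩, ⟨1, [(2, 1), (0, 1)]⟩, ⟨1, []⟩, ⟨1,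 [(2, 1)]⟩, ⟨1, [(2, 1), (0, 1)]⟩, ⟨1, [(0, 1)]⟩, ⟨1, [(0, 1)]⟩, ⟨1, [(0, 1)]⟩])))))⟩
def s13_10 : Sys := ⟨[(0, 0), (2, 16), (3, 0)], [(1, 16), (3, -16)], 3, [s13_10_n0], [-64, 96, -48, 0], (.leaf 0 [⟨1, []⟩, ⟨1, []⟩, ⟨1, []⟩, ⟨1, []⟩, ⟨1, []⟩, ⟨1, []⟩, ⟨1, []⟩])⟩

theorem s13_10_ok : s13_10.ok = true := by decide +kernel

def s17_12_t0 : Tree := .ddet 0 [⟨2, [(4, 1), (1, 4)]⟩] (.ndet 0 [⟨2, [(4, 1), (1, 2)]⟩] (.ddet 0 [⟨1, [(4, 1)]⟩] (.ndet 1 [⟨1, [(1, 1)]⟩] (.ddet 1 [⟨1, [(4, 1), (1, 2)]⟩] (.ndet 1 [⟨1, [(4, 1), (1, 1)]⟩] (.ddet 1 [⟨1, [(4, 1)]⟩] (.ndet 0 [⟨1, [(1, 1)]⟩] (.ddet 0 [⟨1, [(1, 1)]⟩] (.leaf 0 [⟨1, [(4, 1), (1, 1)]⟩, ⟨1, [(4, 2),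 (1, 2)]⟩, ⟨1, [(4, 1)]⟩, ⟨1, [(1, 2)]⟩, ⟨1, [(4, 1), (1, 2)]⟩, ⟨1, [(4, 2), (1, 2)]⟩, ⟨1, [(4, 1)]⟩, ⟨1, [(4, 1), (1, 2)]⟩, ⟨1, [(4, 1), (1, 4)]⟩, ⟨1, [(4, 1), (1, 2)]⟩, ⟨1, [(4, 2)]⟩, ⟨1, [(4, 2), (1, 4)]⟩, ⟨1, [(4, 2)]⟩, ⟨1, [(1, 2)]⟩, ⟨1, [(4, 1)]⟩, ⟨2, [(4, 1)]⟩])))))))))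
def s17_12_t1 : Tree := .ndet 0 [⟨1, [(14, 1)]⟩] (.ddet 0 [⟨2, [(12, 2), (4, 1), (1, 2)]⟩] (.ndet 0 [⟨1, [(12, 1)]⟩] (.ddet 1 [⟨1, [(1, 1)]⟩] (.ndet 1 [⟨2, [(4, 1), (1, 2)]⟩] (.ddet 1 [⟨1, [(4, 1), (1, 1)]⟩] (.ndet 1 [⟨2, [(4, 1)]⟩] (.ddet 1 [⟨1, []⟩] (.ndet 0 [⟨2, [(4, 1), (1, 2)]⟩] s17_12_t0))))))))
def s17_12_n0 : Node := ⟨[⟨[0, 0, 0, -1], 208⟩, ⟨[0, 1, -1], 432⟩, ⟨[0, 0, -1], 192⟩, ⟨[-1, 1], 16⟩, ⟨[0, 1], 224⟩, ⟨[1, 1], 432⟩, ⟨[1], 192⟩, ⟨[0, 1], 256⟩, ⟨[-1, 2], 272⟩, ⟨[0, 1], 240⟩, ⟨[2], 432⟩, ⟨[0, 2], 464⟩, ⟨[2], 400⟩, ⟨[-1, 1], 48⟩, ⟨[1], 208⟩], [1], 0, none, s17_12_t1⟩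
def s17_12 : Sys := ⟨[(0, 16), (4, 32)], [(2, -16), (3, 16)], 4, [s17_12_n0], [400, 464, -368, -400], (.leaf 0 [⟨1, []⟩, ⟨1, []⟩, ⟨1, []⟩, ⟨1, []⟩, ⟨1, []⟩, ⟨1, []⟩, ⟨1, []⟩, ⟨1, []⟩, ⟨1, []⟩, ⟨1, []⟩, ⟨1, []⟩, ⟨1, []⟩, ⟨1, []⟩, ⟨1, []⟩, ⟨1, []⟩])⟩

theorem s17_12_ok : s17_12.ok = true := by decide +kernel

def s18_3_n0 : Node := ⟨[⟨[1, 0, 0, -1], 112⟩, ⟨[1], 88⟩, ⟨[0, 0, 1], 24⟩, ⟨[0, -1, 1], 80⟩, ⟨[0, 0, 1], 56⟩], [1, 0, 1], 0, none, (.ndet 0 [⟨1, [(4, 1)]⟩] (.ddet 1 [⟨1, [(3, 1)]⟩] (.ndet 1 [⟨1, [(0, 1)]⟩] (.ddet 0 [⟨1, []⟩] (.leaf 0 [⟨1, [(1, 1)]⟩, ⟨1, [(0, 1)]⟩, ⟨1, [(3, 1)]⟩, ⟨1, [(3, 1)]⟩, ⟨1, [(3, 1)]⟩, ⟨1, []⟩])))))⟩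
def s18_3 : Sys := ⟨[(1, -64), (4, 16)], [(0, -32), (1, -64)], 4, [s18_3_n0], [144, 0, 128, 0], (.leaf 0 [⟨1, []⟩, ⟨1, []⟩, ⟨1, []⟩, ⟨1, []⟩, ⟨1, []⟩])⟩

theorem s18_3_ok : s18_3.ok = true := by decide +kernel

def s19_12_t0 : Tree := .ddet 1 [⟨3, [(9, 4), (6, 2), (3, 1), (1, 2)]⟩] (.ndet 2 [⟨3, [(9, 2), (6, 2), (3, 2), (0, 1)]⟩, ⟨1, [(9, 1), (6, 1), (3, 1), (0, 1)]⟩] (.ddet 1 [⟨3, [(9, 2), (6, 2), (3, 2), (0, 1)]⟩] (.ndet 2 [⟨3, [(9, 1), (6, 1), (3, 1), (0, 2)]⟩, ⟨1, [(0, 1)]⟩] (.ddet 0 [⟨1, [(9, 3), (6, 1), (1, 2)]⟩] (.ndet 1 [⟨3, [(9, 2), (6, 2), (3, 2), (0, 4)]⟩, ⟨1, [(9, 1), (6, 1), (3, 1), (0, 1)]⟩] (.ddet 0 [⟨3, [(9, 2), (6, 2), (3,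 2), (0, 1)]⟩] (.ndet 1 [⟨3, [(9, 1), (6, 1), (3, 1), (0, 5)]⟩, ⟨3, [(9, 2), (6, 2), (3, 2), (0, 7)]⟩] (.ddet 0 [⟨3, [(9, 1), (6, 1), (3, 1), (0, 5)]⟩] (.leaf 1 [⟨1, []⟩, ⟨1, []⟩, ⟨1, []⟩, ⟨1, []⟩, ⟨1, [(9, 6), (6, 2), (1, 4)]⟩, ⟨3, [(9, 2), (6, 2), (3, 2), (0, 10)]⟩, ⟨1, [(9, 1), (6, 1), (3, 1), (0, 1)]⟩, ⟨1, [(9, 1), (6, 1), (0, 1)]⟩])))))))))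
def s19_12_t1 : Tree := .ddet 1 [⟨3, [(9, 2), (4, 1), (1, 2)]⟩] (.ndet 2 [⟨3, [(9, 4), (4, 2), (1, 1)]⟩, ⟨1, [(9, 2), (4, 1)]⟩] (.ddet 1 [⟨3, [(9, 4), (4, 2), (1, 1)]⟩] (.ndet 2 [⟨3, [(9, 2), (4, 1), (0, 1)]⟩, ⟨1, [(0, 1)]⟩] (.ddet 0 [⟨1, [(1, 1)]⟩] (.ndet 1 [⟨3, [(9, 4), (4, 2), (0, 2)]⟩, ⟨1, [(9, 2), (4, 1)]⟩] (.ddet 0 [⟨3, [(9, 4), (4, 2), (1, 1)]⟩] (.ndet 1 [⟨3, [(9, 2), (4, 1), (0, 4)]⟩, ⟨3, [(9, 4), (4, 2), (0, 5)]⟩] (.ddet 0 [⟨3, [(9, 2), (4, 1), (0, 4)]⟩] (.leaf 1 [⟨1, []⟩, ⟨1, []⟩, ⟨1, []⟩, ⟨1, []⟩, ⟨1, [(1, 2)]⟩, ⟨3, [(9, 4), (4, 2), (0, 8)]⟩, ⟨1, [(9, 2), (4, 1)]⟩, ⟨1, [(9, 2)]⟩])))))))))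
def s19_12_t2 : Tree := .ndet 1 [⟨2, [(7, 2), (2, 1), (1, 1)]⟩, ⟨2, [(7, 4), (2, 1), (1, 3)]⟩] (.ddet 0 [⟨2, [(8, 2), (5, 2), (2, 1), (1, 1)]⟩] (.ndet 1 [⟨3, [(7, 2), (3, 1), (2, 1)]⟩, ⟨3, [(7, 4), (5, 1), (2, 2), (0, 2)]⟩] (.ddet 0 [⟨3, [(7, 2), (3, 1), (2, 1)]⟩] (.split [-1, 3, -2] (-124032) (.leaf 0 [⟨1, []⟩, ⟨1, []⟩, ⟨1, []⟩, ⟨1, []⟩, ⟨1, [(2, 1)]⟩, ⟨1, [(0, 1)]⟩, ⟨1, [(8, 2), (3, 1)]⟩, ⟨1, [(8, 2)]⟩]) (.split [1, -3, 2] (67992) (.leaf 1 [⟨1, []⟩, ⟨1, []⟩, ⟨1, []⟩, ⟨1, []⟩, ⟨1, [(0, 1)]⟩, ⟨3, [(9, 4), (5, 2), (4, 2)]⟩, ⟨1, [(9, 2), (4, 1), (0, 1)]⟩, ⟨1, [(9, 2), (0, 1)]⟩]) (.ndet 2 [⟨3, [(9, 2), (4, 1), (1, 2)]⟩, ⟨3, [(9, 4), (4, 2), (1,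 4)]⟩] s19_12_t1))))))
def s19_12_t3 : Tree := .dbr (.cons (.ndet 1 [⟨3, [(8, 5), (5, 3), (3, 2), (2, 2)]⟩, ⟨1, [(5, 1), (2, 1)]⟩] (.ddet 0 [⟨3, [(8, 5), (5, 4), (2, 2), (0, 1)]⟩] (.ndet 1 [⟨3, [(8, 7), (5, 3), (3, 4), (2, 1)]⟩, ⟨3, [(8, 11), (5, 6), (3, 5), (2, 2)]⟩] (.ddet 0 [⟨3, [(8, 7), (5, 3), (3, 4), (2, 1)]⟩] (.split [0, -3, 1, 1] (131990) (.leaf 1 [⟨1, []⟩, ⟨1, []⟩, ⟨1, []⟩, ⟨1, []⟩, ⟨1, [(0, 1)]⟩, ⟨3, [(9, 14), (6, 6), (4, 8), (3, 2)]⟩, ⟨1, [(9, 1), (6, 1), (3, 1)]⟩, ⟨1, [(9, 1), (6, 1)]⟩]) (.ndet 2 [⟨3, [(9, 4), (6, 2), (3, 1), (1, 2)]⟩, ⟨3, [(9, 8), (6, 4), (3, 2), (1, 4)]⟩] s19_12_t0)))))) (.cons s19_12_t2 .nil))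
def s19_12_t4 : Tree := .dbr (.cons (.ndet 2 [⟨2, [(3, 1), (1, 1)]⟩, ⟨1, [(7, 1), (4, 1), (1, 1), (0, 1)]⟩] (.ddet 1 [⟨2, [(6, 2), (3, 1), (1, 1)]⟩] (.ndet 2 [⟨2, [(1, 1), (0, 1)]⟩, ⟨2, [(1, 1), (0, 3)]⟩] (.ddet 1 [⟨2, [(7, 4), (4, 2), (1, 1), (0, 5)]⟩] (.ndet 1 [⟨2, [(6, 2), (3, 1), (1, 1)]⟩, ⟨2, [(6, 4), (3, 3), (1, 1)]⟩] (.ddet 0 [⟨2, [(7, 2), (4, 2), (1, 1), (0, 1)]⟩] (.ndet 1 [⟨2, [(6, 2), (1, 1), (0, 1)]⟩, ⟨1, [(4, 1), (1, 1), (0, 2)]⟩] (.ddet 0 [⟨2, [(6, 2), (1, 1), (0, 1)]⟩] (.leaf 0 [⟨1, []⟩, ⟨1, []⟩, ⟨1, []⟩, ⟨1, []⟩, ⟨1, [(3, 1)]⟩, ⟨2, [(6, 2), (1, 1), (0, 3)]⟩, ⟨1, [(6, 2), (1, 1)]⟩, ⟨1, [(6, 2)]⟩]))))))))) (.cons (.ndet 2 [⟨2,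 [(1, 1), (0, 1)]⟩, ⟨1, [(7, 1), (4, 1), (1, 1)]⟩] (.ddet 1 [⟨2, [(6, 2), (1, 1), (0, 1)]⟩] (.ndet 2 [⟨3, [(7, 1), (2, 1), (1, 1)]⟩, ⟨1, [(7, 1), (2, 1)]⟩] s19_12_t3))) .nil))
def s19_12_n0 : Node := ⟨[⟨[1, -1, 1], -1500⟩, ⟨[-1, 1, -1], -1500⟩, ⟨[1, 0, 0, 1], -1500⟩, ⟨[-1, 0, 0, -1], -1500⟩, ⟨[0, -1, 1], -4000⟩, ⟨[-1, 3, -2], 60000⟩, ⟨[0, 1, 1], 3840000⟩], [0, 1, 1], 0, none, (.ndet 2 [⟨1, [(5, 1), (4, 1), (2, 1)]⟩, ⟨1, [(5, 2), (4, 1), (2, 2)]⟩] s19_12_t4)⟩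
def s19_12_t5 : Tree := .ddet 0 [⟨1, [(0, 1)]⟩] (.ndet 2 [⟨4, [(12, 4), (9, 4), (6, 2), (1, 1)]⟩, ⟨1, [(12, 2), (9, 2), (6, 1), (0, 1)]⟩] (.ddet 1 [⟨4, [(12, 4), (9, 4), (6, 2), (1, 1)]⟩] (.ndet 2 [⟨2, [(12, 2), (9, 2), (6, 1), (0, 1)]⟩, ⟨2, [(12, 2), (9, 2), (6, 1), (0, 3)]⟩] (.ddet 1 [⟨2, [(12, 2), (9, 2), (6, 1), (0, 5)]⟩] (.ndet 1 [⟨4, [(12, 4), (9, 4), (6, 2), (1, 1)]⟩, ⟨4, [(12, 4), (9, 4), (6, 2), (1, 3)]⟩] (.ddet 0 [⟨2, [(12, 2), (9, 2), (6, 1), (0, 1)]⟩] (.ndet 1 [⟨2, [(12, 2), (9, 2), (6, 1), (0, 1)]⟩, ⟨1, [(12, 2), (9, 2), (6, 1), (0, 2)]⟩] (.ddet 0 [⟨2, [(12, 2), (9, 2), (6, 1), (0, 1)]⟩] (.leaf 0 [⟨1, []⟩, ⟨1, []⟩, ⟨1, []⟩, ⟨1,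 []⟩, ⟨2, [(1, 1)]⟩, ⟨2, [(12, 2), (9, 2), (6, 1), (0, 3)]⟩, ⟨1, [(12, 2), (9, 2), (6, 1)]⟩, ⟨1, [(12, 2), (9, 2)]⟩])))))))))
def s19_12_t6 : Tree := .ndet 2 [⟨4, [(11, 4), (8, 4), (5, 2), (1, 1)]⟩, ⟨4, [(11, 4), (8, 4), (5, 2), (1, 3)]⟩] (.ddet 1 [⟨4, [(11, 4), (8, 4), (5, 2), (1, 1)]⟩] (.ndet 1 [⟨4, [(11, 4), (8, 4), (5, 2), (0, 1)]⟩, ⟨4, [(11, 4), (8, 4), (5, 2), (0, 3)]⟩] (.ddet 0 [⟨4, [(11, 4), (8, 4), (5, 2), (0, 3)]⟩] (.ndet 1 [⟨4, [(11, 4), (8, 4), (5, 2), (1, 1)]⟩, ⟨1, [(11, 2), (8, 2), (5, 1)]⟩] (.ddet 0 [⟨4, [(11, 4), (8, 4), (5, 2), (1, 1)]⟩] (.split [0, 0, -1, 1] (131952) (.leaf 0 [⟨1, []⟩, ⟨1, []⟩, ⟨1, []⟩, ⟨1, []⟩, ⟨1, [(0, 1)]⟩,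 ⟨4, [(12, 4), (9, 4), (6, 2), (2, 3)]⟩, ⟨1, [(12, 2), (9, 2), (6, 1)]⟩, ⟨1, [(12, 2), (9, 2)]⟩]) (.ndet 2 [⟨2, [(1, 1)]⟩, ⟨1, [(1, 1)]⟩] s19_12_t5)))))))
def s19_12_t7 : Tree := .ddet 0 [⟨2, [(5, 1)]⟩] (.ndet 2 [⟨4, [(10, 4), (7, 4), (4, 2), (0, 1)]⟩, ⟨2, [(10, 4), (7, 4), (5, 1), (4, 2)]⟩] (.ddet 1 [⟨4, [(10, 4), (7, 4), (4, 2), (0, 1)]⟩] (.ndet 2 [⟨4, [(10, 4), (7, 4), (5, 1), (4, 2)]⟩, ⟨4, [(10, 4), (7, 4), (5, 3), (4, 2)]⟩] (.ddet 1 [⟨4, [(10, 4), (7, 4), (5, 5), (4, 2)]⟩] (.ndet 1 [⟨4, [(10, 4), (7, 4), (4, 2), (0, 1)]⟩, ⟨4, [(10, 4), (7, 4), (4, 2), (0, 3)]⟩] (.ddet 0 [⟨4, [(10, 4), (7, 4), (5, 1), (4, 2)]⟩] (.ndet 1 [⟨4, [(10, 4), (7,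 4), (5, 1), (4, 2)]⟩, ⟨1, [(10, 2), (7, 2), (5, 1), (4, 1)]⟩] (.ddet 0 [⟨4, [(10, 4), (7, 4), (5, 1), (4, 2)]⟩] (.leaf 0 [⟨1, []⟩, ⟨1, []⟩, ⟨1, []⟩, ⟨1, []⟩, ⟨2, [(0, 1)]⟩, ⟨4, [(10, 4), (7, 4), (5, 3), (4, 2)]⟩, ⟨1, [(10, 2), (7, 2), (4, 1)]⟩, ⟨1, [(10, 2), (7, 2)]⟩])))))))))
def s19_12_t8 : Tree := .ddet 0 [⟨4, [(8, 4), (5, 4), (3, 1), (2, 2)]⟩] (.nbr (.cons (.prune [(1, 1), (0, 1)]) (.cons (.ddet 0 [⟨2, [(0, 1)]⟩] (.split [0, 0, 2, -2] (-316016) (.leaf 1 [⟨1, []⟩, ⟨1, []⟩, ⟨1, []⟩, ⟨1, []⟩, ⟨1, [(10, 1), (9, 1), (3, 1)]⟩, ⟨1, [(0, 1)]⟩, ⟨1, [(11, 2), (8, 2), (5, 1)]⟩, ⟨1, [(11, 2), (8, 2)]⟩]) (.ndet 2 [⟨4, [(11, 4), (8, 4), (5, 2), (0,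 1)]⟩, ⟨2, [(11, 4), (8, 4), (5, 2), (0, 1)]⟩] (.ddet 1 [⟨4, [(11, 4), (8, 4), (5, 2), (0, 1)]⟩] s19_12_t6)))) (.cons s19_12_t7 .nil))))
def s19_12_t9 : Tree := .nbr (.cons (.prune [(3, 1), (2, 2), (1, 4), (0, 4)]) (.cons (.ddet 0 [⟨1, [(7, 2), (6, 1), (0, 1)]⟩] (.ndet 1 [⟨4, [(8, 4), (5, 4), (3, 1), (2, 2)]⟩, ⟨1, [(8, 1), (5, 2), (2, 1)]⟩] s19_12_t8)) (.cons (.ddet 0 [⟨1, [(7, 1), (4, 1)]⟩] (.ndet 1 [⟨3, [(8, 5), (5, 5), (2, 2), (0, 4)]⟩, ⟨1, [(8, 1), (5, 2), (2, 1), (0, 1)]⟩] (.ddet 0 [⟨3, [(8, 5), (5, 5), (2, 2), (0, 1)]⟩] (.ndet 1 [⟨3, [(8, 4), (5, 4), (2, 1), (0, 5)]⟩, ⟨3, [(8, 8), (5, 8), (2, 2), (0, 7)]⟩] (.ddet 0 [⟨3, [(8, 4), (5, 4),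 (2, 1), (0, 5)]⟩] (.leaf 1 [⟨1, []⟩, ⟨1, []⟩, ⟨1, []⟩, ⟨1, []⟩, ⟨1, [(8, 1), (5, 1), (4, 2)]⟩, ⟨3, [(8, 8), (5, 8), (2, 2), (0, 10)]⟩, ⟨1, [(8, 2), (5, 2), (2, 1), (0, 1)]⟩, ⟨1, [(8, 2), (5, 2), (0, 1)]⟩])))))) .nil)))
def s19_12_n1 : Node := ⟨[⟨[1, -1, 1], -1500⟩, ⟨[-1, 1, -1], -1500⟩, ⟨[1, 0, 0, 1], -1500⟩, ⟨[-1, 0, 0, -1], -1500⟩, ⟨[0, -1, 0, 1], -4000⟩, ⟨[0, 0, 2, -2], 188000⟩, ⟨[0, 0, 1, 1], 3840000⟩], [0, 0, 1, 1], 0, none, (.ndet 2 [⟨3, [(5, 1), (4, 1), (2, 1), (0, 1)]⟩, ⟨3, [(5, 2), (3, 1), (2, 2), (0, 2)]⟩] (.ddet 1 [⟨3, [(6, 2), (3, 2), (2, 1), (0, 1)]⟩] (.ndet 2 [⟨4, [(1, 1), (0, 2)]⟩, ⟨4, [(1, 3), (0, 2)]⟩] (.ddet 1 [⟨4, [(5, 4),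 (1, 1), (0, 2)]⟩] s19_12_t9))))⟩
def s19_12 : Sys := ⟨[(0, 0), (1, 0), (4, 64000)], [(2, 0), (3, 0)], 4, [s19_12_n0, s19_12_n1], [-3392000, 23936000, 27328000, 3392000], (.leaf 0 [⟨1, []⟩, ⟨1, []⟩, ⟨1, []⟩, ⟨1, []⟩, ⟨1, []⟩, ⟨1, []⟩, ⟨1, []⟩])⟩

theorem s19_12_ok : s19_12.ok = true := by decide +kernel

def s20_15_n0 : Node := ⟨[⟨[0, 1, 0, -1], 384⟩, ⟨[0, 1], 0⟩, ⟨[-1, 1], 800⟩, ⟨[0, 1, -1], 448⟩, ⟨[-1, 0, 1], 224⟩, ⟨[-1, 1], 768⟩, ⟨[0, 1], -128⟩, ⟨[0, 1, -1], 544⟩, ⟨[-1], 768⟩, ⟨[-1, -1, 1], 352⟩, ⟨[0, 1], -96⟩, ⟨[0, 2, -1], 416⟩], [0, 1], 0, none, (.ndet 0 [⟨1, [(11, 1)]⟩] (.ddet 2 [⟨1, [(10, 1)]⟩, ⟨1, [(10, 1), (4, 1), (2, 1)]⟩, ⟨1, [(4,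 1)]⟩] (.ndet 1 [⟨1, [(10, 1), (2, 1)]⟩] (.ddet 3 [⟨1, [(10, 1)]⟩, ⟨1, [(10, 1)]⟩, ⟨1, [(10, 1), (4, 1), (2, 1)]⟩] (.ndet 1 [⟨1, [(10, 1)]⟩] (.ddet 0 [⟨1, [(4, 1)]⟩, ⟨1, []⟩, ⟨1, [(4, 1), (2, 1)]⟩] (.ndet 0 [⟨1, [(2, 1)]⟩] (.ddet 1 [⟨1, [(10, 1)]⟩, ⟨1, [(10, 1), (4, 1)]⟩, ⟨1, [(10, 1)]⟩] (.leaf 0 [⟨1, [(10, 1)]⟩, ⟨1, [(10, 1)]⟩, ⟨1, [(10, 2), (4, 1)]⟩, ⟨1, [(10, 1), (4, 1)]⟩, ⟨1, [(10, 1)]⟩, ⟨1, [(10, 2), (4, 1)]⟩, ⟨1, [(10, 1)]⟩, ⟨1, [(10, 1), (4, 1)]⟩, ⟨1, [(10, 1), (4, 1)]⟩, ⟨1, []⟩, ⟨1, [(10, 1)]⟩, ⟨1, [(10, 2), (4, 1)]⟩, ⟨1, []⟩])))))))))⟩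
def s20_15 : Sys := ⟨[(2, -64), (4, 128)], [(0, 0), (1, 320), (2, 256), (3, 256)], 4, [s20_15_n0], [-1280, 256, -640, -320], (.leaf 0 [⟨1, []⟩, ⟨1, []⟩, ⟨1, []⟩, ⟨1, []⟩, ⟨1, []⟩, ⟨1, []⟩, ⟨1, []⟩, ⟨1, []⟩, ⟨1, []⟩, ⟨1, []⟩, ⟨1, []⟩, ⟨1, []⟩])⟩

theorem s20_15_ok : s20_15.ok = true := by decide +kernel

def s21_4_n0 : Node := ⟨[⟨[0, 1], 104⟩, ⟨[0, 1, 0, -1], 144⟩, ⟨[0, 0, 1], 40⟩, ⟨[-1, 0, 1], -8⟩, ⟨[0, 1], 40⟩, ⟨[0, 1], 0⟩, ⟨[-1, 0, 1], 32⟩, ⟨[-2, 0, 1], 48⟩], [0, 1], 0, none, (.ndet 1 [⟨1, [(7, 1)]⟩, ⟨1, [(6, 1)]⟩] (.ddet 0 [] (.ndet 2 [⟨1, [(5, 1)]⟩, ⟨2, [(5, 1), (0, 1)]⟩] (.ddet 0 [] (.ndet 2 [⟨1, [(7, 1)]⟩, ⟨1, [(7, 1)]⟩] (.ddet 0 []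 (.ndet 1 [⟨2, [(5, 1), (0, 1)]⟩, ⟨1, [(0, 1)]⟩] (.ddet 0 [] (.leaf 0 [⟨1, [(7, 1)]⟩, ⟨1, [(7, 1)]⟩, ⟨2, [(5, 1), (0, 1)]⟩, ⟨2, [(5, 1), (0, 1)]⟩, ⟨1, [(7, 1)]⟩, ⟨1, [(7, 1)]⟩, ⟨2, [(5, 1), (0, 1)]⟩, ⟨2, [(5, 1), (0, 1)]⟩, ⟨1, []⟩])))))))))⟩
def s21_4 : Sys := ⟨[(0, 16), (2, -64), (4, 64)], [(2, -64)], 4, [s21_4_n0], [16, 128, 128, -32], (.leaf 0 [⟨1, []⟩, ⟨1, []⟩, ⟨1, []⟩, ⟨1, []⟩, ⟨1, []⟩, ⟨1, []⟩, ⟨1, []⟩, ⟨1, []⟩])⟩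

theorem s21_4_ok : s21_4.ok = true := by decide +kernel

def s23_1_n0 : Node := ⟨[⟨[1], -8⟩, ⟨[1, -1], -12⟩, ⟨[1, 0, 0, -1], -12⟩, ⟨[1, 0, -1], -28⟩], [1], 0, none, (.ndet 1 [⟨1, [(3, 1)]⟩, ⟨1, [(2, 1)]⟩, ⟨1, [(1, 1)]⟩] (.ddet 0 [] (.leaf 0 [⟨1, [(3, 1)]⟩, ⟨1, []⟩, ⟨1, [(0, 1)]⟩, ⟨1, [(2, 1)]⟩, ⟨1, []⟩])))⟩
def s23_1 : Sys := ⟨[(0, -16), (1, 32), (2, 0), (4, -16)], [(0, 0)], 4, [s23_1_n0], [48, 16, 32, -16], (.leaf 0 [⟨1, []⟩, ⟨1, []⟩, ⟨1, []⟩, ⟨1, []⟩])⟩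

theorem s23_1_ok : s23_1.ok = true := by decide +kernel

def s24_9_n0 : Node := ⟨[⟨[0, 0, 1, -1], 64⟩, ⟨[0, 0, 1], 76⟩, ⟨[0, -1, 1], 36⟩, ⟨[0, -1], -24⟩, ⟨[1, -1], 72⟩, ⟨[1], 80⟩, ⟨[1], 56⟩], [1, 0, 1], 0, none, (.ndet 0 [⟨1, [(6, 1)]⟩] (.ddet 1 [⟨1, [(5, 1)]⟩] (.ndet 1 [⟨1, [(5, 1), (3, 1)]⟩] (.ddet 0 [⟨1, [(3, 1)]⟩] (.leaf 0 [⟨1, [(2, 1)]⟩, ⟨1, [(1, 1)]⟩, ⟨1, [(1, 1)]⟩, ⟨1, []⟩, ⟨1, [(5, 1)]⟩, ⟨1, [(5, 1)]⟩, ⟨1, [(5, 1)]⟩, ⟨1, []⟩])))))⟩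
def s24_9 : Sys := ⟨[(3, 0), (4, 32)], [(0, 16), (3, -16)], 4, [s24_9_n0], [144, 16, 96, 32], (.leaf 0 [⟨1, []⟩, ⟨1, []⟩, ⟨1, []⟩, ⟨1, []⟩, ⟨1, []⟩, ⟨1, []⟩, ⟨1, []⟩])⟩

theorem s24_9_ok : s24_9.ok = true := by decide +kernel

def s26_15_n0 : Node := ⟨[⟨[-1, 0, 1], 192⟩, ⟨[0, 0, 1, -1], 160⟩, ⟨[0, 0, 1], 32⟩, ⟨[-1, 0, 1], 224⟩, ⟨[0, -1, 1], 128⟩, ⟨[0, 0, 1], 0⟩, ⟨[-1], 128⟩, ⟨[0, -1], 96⟩, ⟨[0, -1, 1], 192⟩, ⟨[-1], 192⟩, ⟨[0, 0, 1], 64⟩, ⟨[0, 0, 1], 96⟩], [0, 0, 1], 0, none, (.ndet 1 [⟨1, [(2, 1), (0, 1)]⟩, ⟨1, [(10, 1)]⟩] (.ddet 3 [⟨1, [(0, 1)]⟩, ⟨1, [(2, 1), (0, 1)]⟩, ⟨1, [(3, 1)]⟩] (.ndet 2 [⟨1, [(0, 1)]⟩, ⟨1, [(3, 1)]⟩] (.ddet 1 [⟨1, []⟩,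 ⟨1, [(2, 1)]⟩, ⟨1, [(4, 1)]⟩] (.ndet 0 [⟨1, [(2, 1), (0, 1)]⟩, ⟨1, [(3, 1)]⟩] (.ddet 1 [⟨1, [(0, 1)]⟩, ⟨1, [(0, 1)]⟩, ⟨1, [(2, 1), (0, 1)]⟩] (.ndet 1 [⟨1, []⟩, ⟨1, [(2, 1)]⟩] (.ddet 2 [⟨1, [(0, 1)]⟩, ⟨1, [(0, 1)]⟩, ⟨1, [(0, 1)]⟩] (.leaf 0 [⟨1, [(0, 2)]⟩, ⟨1, [(0, 1)]⟩, ⟨1, [(0, 1)]⟩, ⟨1, [(0, 2)]⟩, ⟨1, [(0, 1)]⟩, ⟨1, [(0, 1)]⟩, ⟨1, [(0, 1)]⟩, ⟨1, []⟩, ⟨1, [(0, 1)]⟩, ⟨1, [(0, 1)]⟩, ⟨1, [(0, 1)]⟩, ⟨1, [(0, 1)]⟩, ⟨1, []⟩])))))))))⟩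
def s26_15 : Sys := ⟨[(1, -64), (3, 0), (4, 64)], [(0, -64), (1, 64), (2, 0), (3, 64)], 4, [s26_15_n0], [-256, -128, 192, -64], (.leaf 0 [⟨1, []⟩, ⟨1, []⟩, ⟨1, []⟩, ⟨1, []⟩, ⟨1, []⟩, ⟨1, []⟩, ⟨1, []⟩, ⟨1, []⟩, ⟨1, []⟩, ⟨1, []⟩, ⟨1, []⟩, ⟨1, []⟩])⟩

theorem s26_15_ok : s26_15.ok = true := by decide +kernel

def s28_2_n0 : Node := ⟨[⟨[0, 1, -1], 136⟩, ⟨[0, 1, 0, -1], 32⟩, ⟨[-1, 1], 184⟩, ⟨[0, 1, -1], 152⟩, ⟨[-1], 48⟩], [0, 1], 0, none, (.ndet 0 [⟨1, [(1, 1)]⟩, ⟨1, [(3, 1)]⟩] (.ddet 0 [] (.ndet 1 [⟨1, [(2, 1)]⟩, ⟨1, [(1, 1)]⟩] (.ddet 0 [] (.leaf 0 [⟨1, [(2, 1), (0, 1)]⟩, ⟨1, [(0, 1)]⟩, ⟨1, [(2, 1), (0, 1)]⟩, ⟨1, [(2, 1), (0, 1)]⟩, ⟨1, [(0, 1)]⟩,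 ⟨1, [(0, 1)]⟩])))))⟩
def s28_2 : Sys := ⟨[(2, 16), (3, -16), (4, -16)], [(1, 0)], 4, [s28_2_n0], [-112, 224, -80, 128], (.leaf 0 [⟨1, []⟩, ⟨1, []⟩, ⟨1, []⟩, ⟨1, []⟩, ⟨1, []⟩])⟩

theorem s28_2_ok : s28_2.ok = true := by decide +kernel

def s28_4_t0 : Tree := .nbr (.cons (.prune [(18, 1), (16, 1), (14, 2), (7, 2), (1, 6)]) (.cons (.ddet 0 [] (.ndet 2 [⟨1, [(15, 1), (12, 1)]⟩, ⟨1, [(15, 1), (12, 1)]⟩] (.ddet 0 [] (.leaf 0 [⟨1, [(15, 1), (12, 1)]⟩, ⟨1, [(15, 1), (12, 1)]⟩, ⟨1, []⟩, ⟨1, []⟩, ⟨1, []⟩, ⟨1, []⟩, ⟨1, []⟩, ⟨1, [(15, 2), (12, 2)]⟩, ⟨1, []⟩, ⟨1, [(15, 1), (12, 1)]⟩, ⟨1, []⟩, ⟨1, []⟩, ⟨1, [(15, 1), (12, 1)]⟩, ⟨1, []⟩, ⟨1, [(15, 1), (12,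 1)]⟩, ⟨1, [(15, 1), (12, 1)]⟩, ⟨1, []⟩, ⟨1, []⟩, ⟨1, []⟩])))) (.cons (.ddet 0 [] (.ndet 2 [⟨1, [(15, 1), (12, 1)]⟩, ⟨1, [(15, 1), (12, 1)]⟩] (.ddet 0 [] (.split [1, -1] (0) (.leaf 0 [⟨1, [(16, 1), (13, 1)]⟩, ⟨1, [(16, 1), (13, 1)]⟩, ⟨1, [(0, 1)]⟩, ⟨1, [(0, 1)]⟩, ⟨1, [(0, 1)]⟩, ⟨1, [(0, 1)]⟩, ⟨1, []⟩, ⟨1, [(16, 2), (13, 2), (1, 1)]⟩, ⟨1, []⟩, ⟨1, [(16, 1), (13, 1)]⟩, ⟨1, []⟩, ⟨1, [(1, 1)]⟩, ⟨1, [(16, 1), (13, 1), (1, 1)]⟩, ⟨1, []⟩, ⟨1, [(16, 1), (13, 1)]⟩, ⟨1, [(16, 1), (13, 1), (1, 1)]⟩, ⟨1, []⟩, ⟨1, [(1, 1)]⟩, ⟨1, []⟩]) (.leaf 1 [⟨1, [(16, 1), (13, 1), (0, 1)]⟩, ⟨1, [(16, 1), (13, 1), (0, 1)]⟩, ⟨1, [(0, 1)]⟩, ⟨1, [(0, 1)]⟩, ⟨1, []⟩, ⟨1, [(16,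 1), (13, 1)]⟩, ⟨1, [(0, 1)]⟩, ⟨1, [(16, 1), (13, 1)]⟩, ⟨1, [(16, 2), (13, 2), (0, 1)]⟩, ⟨1, [(16, 1), (13, 1), (0, 1)]⟩, ⟨1, [(0, 1)]⟩, ⟨1, []⟩, ⟨1, [(16, 1), (13, 1)]⟩, ⟨1, [(16, 1), (13, 1), (0, 1)]⟩, ⟨1, [(16, 2), (13, 2), (0, 1)]⟩, ⟨1, [(0, 1)]⟩]))))) .nil)))
def s28_4_t1 : Tree := .nbr (.cons (.ddet 0 [] (.nbr (.cons (.prune [(20, 1), (18, 1), (16, 6), (2, 2), (0, 8)]) (.cons (.ddet 0 [] (.leaf 3 [⟨1, [(23, 1), (16, 1), (0, 2)]⟩, ⟨1, [(23, 1), (16, 1), (0, 2)]⟩, ⟨1, []⟩, ⟨1, []⟩, ⟨1, []⟩, ⟨1, []⟩, ⟨1, []⟩, ⟨1, []⟩, ⟨1, []⟩, ⟨1, [(23, 1), (16, 1), (0, 2)]⟩, ⟨1, []⟩, ⟨1, []⟩, ⟨1, []⟩, ⟨1, []⟩, ⟨1, []⟩, ⟨1, [(23, 2), (16, 2), (0, 4)]⟩, ⟨1,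 [(23, 1), (16, 1), (0, 2)]⟩, ⟨1, [(23, 1), (16, 1), (0, 2)]⟩, ⟨1, [(0, 1)]⟩])) (.cons (.ddet 0 [] (.split [1, 1, 0, -1] (2000) (.leaf 0 [⟨1, [(0, 1)]⟩, ⟨1, [(18, 1), (15, 1)]⟩, ⟨1, [(18, 1), (15, 1)]⟩, ⟨1, [(0, 1)]⟩, ⟨1, [(0, 1)]⟩, ⟨1, [(0, 1)]⟩, ⟨1, []⟩, ⟨1, [(18, 1), (15, 1)]⟩, ⟨1, []⟩, ⟨1, [(18, 1), (15, 1)]⟩, ⟨1, [(18, 1), (15, 1), (4, 1)]⟩, ⟨1, [(4, 1)]⟩, ⟨1, [(18, 1), (15, 1), (4, 1)]⟩, ⟨1, [(18, 1), (15, 1), (4, 1)]⟩, ⟨1, [(18, 2), (15, 2), (4, 1)]⟩, ⟨1, [(18, 1), (15, 1), (4, 1)]⟩, ⟨1, [(18, 1), (15, 1), (4, 1)]⟩, ⟨1, [(4, 1)]⟩, ⟨1, []⟩]) (.leaf 3 [⟨1, [(24, 1), (17, 1), (0, 2)]⟩, ⟨1, [(24, 1), (17, 1), (0, 2)]⟩, ⟨1, [(0, 1)]⟩, ⟨1,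 [(1, 1)]⟩, ⟨1, [(1, 1)]⟩, ⟨1, [(1, 1)]⟩, ⟨1, []⟩, ⟨1, []⟩, ⟨1, []⟩, ⟨1, [(24, 1), (17, 1), (0, 1)]⟩, ⟨1, []⟩, ⟨1, []⟩, ⟨1, [(0, 1)]⟩, ⟨1, [(0, 1)]⟩, ⟨1, [(0, 1)]⟩, ⟨1, [(24, 2), (17, 2), (0, 3)]⟩, ⟨1, [(24, 1), (17, 1), (0, 2)]⟩, ⟨1, [(24, 1), (17, 1), (0, 2)]⟩, ⟨1, [(0, 1)]⟩]))) .nil))))) (.cons (.ddet 0 [] (.ndet 2 [⟨1, [(15, 1), (12, 1)]⟩, ⟨1, [(1, 1)]⟩] (.ddet 0 [] (.leaf 0 [⟨1, [(1, 1)]⟩, ⟨1, [(15, 1), (12, 1)]⟩, ⟨1, [(3, 1)]⟩, ⟨1, []⟩, ⟨1, []⟩, ⟨1, []⟩, ⟨1, []⟩, ⟨1, [(15, 1), (12, 1), (1, 1)]⟩, ⟨1, []⟩, ⟨1, [(15, 1), (12, 1)]⟩, ⟨1, [(3, 1)]⟩, ⟨1, []⟩, ⟨1, [(15, 1), (12, 1)]⟩, ⟨1, [(3, 1)]⟩, ⟨1, [(15, 1), (12, 1), (3, 1)]⟩, ⟨1, [(15,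 1), (12, 1)]⟩, ⟨1, [(3, 1)]⟩, ⟨1, []⟩, ⟨1, []⟩])))) (.cons (.prune [(18, 1), (12, 1), (3, 1), (0, 2)]) .nil)))
def s28_4_t2 : Tree := .nbr (.cons (.ddet 0 [] (.ndet 0 [⟨1, [(17, 1)]⟩, ⟨1, [(13, 2), (10, 1)]⟩] (.ddet 0 [] s28_4_t0))) (.cons (.prune [(16, 1), (8, 1), (7, 2), (1, 2), (0, 2)]) (.cons (.ddet 0 [] (.ndet 0 [⟨2, [(16, 1), (10, 1), (1, 1)]⟩, ⟨1, [(13, 2), (10, 1)]⟩] (.ddet 0 [] s28_4_t1))) .nil)))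
def s28_4_n0 : Node := ⟨[⟨[1, 0, 0, -1], -200⟩, ⟨[1, 0, -1], -200⟩, ⟨[1, -1], -200⟩, ⟨[1, -1, -1, -1], 3091⟩, ⟨[1, -1, 0, -1], 1110⟩, ⟨[1, -1, 1, -1], -896⟩, ⟨[0, 0, -1], 1680⟩, ⟨[1, 1], 119700⟩, ⟨[0, 0, 1], -2320⟩, ⟨[1, 0, 1], 119700⟩, ⟨[0, 0, -1, 1], -340⟩, ⟨[-1, 1, -1, 1], -3340⟩, ⟨[0, 1, -1, 1], 119000⟩, ⟨[0, 0, 0, 1], -2320⟩, ⟨[1, 0, 0, 1], 119700⟩, ⟨[0, 1, 0, 1], 117000⟩, ⟨[0, 0, 1, 1], -4340⟩, ⟨[-1, 1, 1, 1], -7380⟩], [1], 0, none, s28_4_t2⟩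
def s28_4_t3 : Tree := .nbr (.cons (.ddet 0 [] (.ndet 2 [⟨1, [(12, 1), (3, 1)]⟩, ⟨1, [(14, 1)]⟩] (.ddet 0 [] (.ndet 2 [⟨1, [(12, 1), (3, 1), (1, 1)]⟩, ⟨1, [(12, 1), (3, 1), (1, 1)]⟩] (.ddet 0 [] (.split [1, -1] (0) (.leaf 0 [⟨1, [(13, 1), (4, 1), (0, 1)]⟩, ⟨1, [(13, 1), (4, 1), (0, 1)]⟩, ⟨1, [(0, 1)]⟩, ⟨1, [(0, 1)]⟩, ⟨1, [(0, 1)]⟩, ⟨1, [(0, 1)]⟩, ⟨1, []⟩, ⟨1, [(13, 2), (4, 2), (0, 1)]⟩, ⟨1, []⟩, ⟨1, [(13, 1), (4, 1), (0, 1)]⟩, ⟨1, []⟩, ⟨1, [(15, 1)]⟩, ⟨1, [(13, 1), (4, 1)]⟩, ⟨1, []⟩, ⟨1, [(13, 1), (4, 1), (0, 1)]⟩, ⟨1, [(13, 1), (4, 1)]⟩, ⟨1, []⟩, ⟨1, [(15, 1)]⟩, ⟨1, [(0, 1)]⟩]) (.leaf 1 [⟨1, [(13, 1), (4, 1)]⟩, ⟨1, [(13, 1), (4, 1)]⟩, ⟨1,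 [(0, 1)]⟩, ⟨1, [(0, 1)]⟩, ⟨1, []⟩, ⟨1, [(13, 1), (4, 1), (2, 1)]⟩, ⟨1, [(0, 1)]⟩, ⟨1, [(13, 1), (4, 1), (2, 1)]⟩, ⟨1, [(13, 2), (4, 2), (2, 1)]⟩, ⟨1, [(13, 1), (4, 1)]⟩, ⟨1, [(0, 1)]⟩, ⟨1, []⟩, ⟨1, [(13, 1), (4, 1), (2, 1)]⟩, ⟨1, [(13, 1), (4, 1)]⟩, ⟨1, [(13, 2), (4, 2), (2, 1)]⟩, ⟨1, []⟩]))))))) (.cons (.ddet 0 [] (.ndet 2 [⟨1, [(12, 1), (3, 1)]⟩, ⟨1, [(1, 1)]⟩] (.ddet 0 [] (.nbr (.cons (.ddet 0 [] (.leaf 1 [⟨1, [(14, 1), (5, 1)]⟩, ⟨1, [(11, 1)]⟩, ⟨1, [(14, 1), (5, 1)]⟩, ⟨1, [(11, 1)]⟩, ⟨1, []⟩, ⟨1, []⟩, ⟨1, [(11, 1)]⟩, ⟨1, []⟩, ⟨1, [(14, 1), (5, 1)]⟩, ⟨2, [(14, 3), (5, 3), (0, 1)]⟩, ⟨1, [(11, 1)]⟩, ⟨1, []⟩, ⟨1, []⟩, ⟨1, [(14, 1), (5, 1)]⟩,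 ⟨2, [(14, 3), (5, 3), (0, 1)]⟩, ⟨1, []⟩])) (.cons (.prune [(9, 1), (2, 1), (1, 2), (0, 2)]) (.cons (.ddet 0 [] (.leaf 1 [⟨1, [(14, 1), (5, 1)]⟩, ⟨2, [(14, 1), (5, 1), (1, 1)]⟩, ⟨1, [(3, 2)]⟩, ⟨1, [(3, 1)]⟩, ⟨1, []⟩, ⟨1, [(1, 1)]⟩, ⟨1, [(3, 1)]⟩, ⟨1, [(1, 1)]⟩, ⟨1, [(14, 1), (5, 1), (1, 1)]⟩, ⟨1, [(14, 1), (5, 1), (3, 1)]⟩, ⟨1, [(3, 1)]⟩, ⟨1, []⟩, ⟨1, [(1, 1)]⟩, ⟨1, [(14, 1), (5, 1)]⟩, ⟨2, [(14, 3), (5, 3), (1, 1)]⟩, ⟨1, []⟩])) .nil))))))) (.cons (.ddet 0 [] (.ndet 2 [⟨1, [(12, 1), (3, 1)]⟩, ⟨1, [(13, 1), (3, 1), (0, 1)]⟩] (.ddet 0 [] (.ndet 0 [⟨1, [(13, 1), (3, 1), (0, 2)]⟩, ⟨1, [(13, 1), (10, 1), (3, 1), (0, 3)]⟩] (.ddet 0 [] (.split [1,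 1, -1] (2000) (.leaf 1 [⟨1, [(13, 1), (4, 1)]⟩, ⟨1, [(0, 1)]⟩, ⟨1, [(13, 1), (4, 1)]⟩, ⟨1, [(0, 1)]⟩, ⟨1, []⟩, ⟨1, []⟩, ⟨1, [(0, 1)]⟩, ⟨1, []⟩, ⟨1, [(13, 1), (4, 1)]⟩, ⟨1, [(14, 1), (13, 1), (4, 2), (1, 2)]⟩, ⟨1, [(0, 1)]⟩, ⟨1, []⟩, ⟨1, []⟩, ⟨1, [(13, 1), (4, 1)]⟩, ⟨1, [(14, 1), (13, 1), (4, 2), (1, 2)]⟩, ⟨1, []⟩]) (.leaf 2 [⟨1, [(16, 1), (9, 1), (0, 2)]⟩, ⟨1, [(0, 1)]⟩, ⟨1, [(16, 1), (9, 1), (0, 2)]⟩, ⟨1, [(0, 1)]⟩, ⟨1, [(0, 1)]⟩, ⟨1, [(0, 1)]⟩, ⟨1, []⟩, ⟨1, []⟩, ⟨1, [(16, 1), (9, 1), (0, 1)]⟩, ⟨1, [(16, 1), (9, 1), (0, 1)]⟩, ⟨1, [(16, 1), (9, 1), (0, 1)]⟩, ⟨1, [(16, 1), (9, 1), (0, 2)]⟩, ⟨1, [(16, 2), (9, 2), (0, 3)]⟩, ⟨1, [(16, 1), (9,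 1), (0, 2)]⟩, ⟨1, [(16, 2), (9, 2), (0, 3)]⟩, ⟨1, [(0, 1)]⟩]))))))) .nil)))
def s28_4_n1 : Node := ⟨[⟨[0, 1, 0, -1], -200⟩, ⟨[0, 1, -1], -200⟩, ⟨[-1, 1], -200⟩, ⟨[-1, 1, -1, -1], 3098⟩, ⟨[0, 0, 0, -1], 1680⟩, ⟨[1, 0, 0, -1], -340⟩, ⟨[-1, 1, -1], 1103⟩, ⟨[1], -2320⟩, ⟨[1, 1], 119700⟩, ⟨[0, 1, 1], 119700⟩, ⟨[-1, 1, -1, 1], -901⟩, ⟨[0, 0, 0, 1], -2320⟩, ⟨[1, 0, 0, 1], -4340⟩, ⟨[0, 1, 0, 1], 119700⟩, ⟨[1, 1, 1, 1], 119700⟩], [0, 1], 0, none, (.ndet 0 [⟨1, [(13, 1)]⟩, ⟨1, [(10, 2), (1, 1)]⟩] (.ddet 0 [] s28_4_t3))⟩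
def s28_4_t4 : Tree := .ddet 0 [] (.ndet 2 [⟨1, [(10, 2), (5, 1)]⟩, ⟨1, [(15, 1)]⟩] (.ddet 0 [] (.ndet 2 [⟨1, [(10, 1), (5, 1), (1, 1)]⟩, ⟨1, [(10, 2), (5, 1), (1, 1)]⟩] (.ddet 0 [] (.ndet 0 [⟨1, [(10, 2), (5, 1)]⟩, ⟨1, [(10, 3), (5, 1)]⟩] (.ddet 0 [] (.split [1, 1, -1] (2000) (.leaf 1 [⟨1, [(11, 2), (6, 1), (0, 1)]⟩, ⟨1, [(0, 1)]⟩, ⟨1, [(11, 2), (6, 1), (0, 1)]⟩, ⟨1, [(0, 1)]⟩, ⟨1, []⟩, ⟨1, []⟩, ⟨1, [(0, 1)]⟩, ⟨1, []⟩, ⟨1, [(11, 2), (6, 1), (0, 1)]⟩, ⟨1, [(11, 4), (6, 2), (0, 1)]⟩, ⟨1, [(0, 1)]⟩, ⟨1, []⟩, ⟨1, []⟩, ⟨1, [(11, 2), (6, 1), (0, 1)]⟩, ⟨1, [(11, 4), (6, 2), (0, 1)]⟩, ⟨1, [(11, 1), (0, 1)]⟩]) (.leaf 2 [⟨1, [(11, 2), (6, 1)]⟩, ⟨1,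 [(0, 1)]⟩, ⟨1, [(11, 2), (6, 1)]⟩, ⟨1, [(0, 1)]⟩, ⟨1, [(0, 1)]⟩, ⟨1, [(0, 1)]⟩, ⟨1, []⟩, ⟨1, []⟩, ⟨1, [(11, 1), (6, 1), (2, 1)]⟩, ⟨1, [(11, 1), (6, 1), (2, 1)]⟩, ⟨1, [(11, 1), (6, 1), (2, 1)]⟩, ⟨1, [(11, 2), (6, 1)]⟩, ⟨1, [(11, 3), (6, 2), (2, 1)]⟩, ⟨1, [(11, 2), (6, 1)]⟩, ⟨1, [(11, 3), (6, 2), (2, 1)]⟩, ⟨1, [(11, 1)]⟩]))))))))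
def s28_4_t5 : Tree := .nbr (.cons (.ddet 0 [] (.ndet 0 [⟨1, [(10, 1)]⟩, ⟨1, [(12, 3), (7, 1)]⟩] (.ddet 0 [] (.leaf 2 [⟨1, [(10, 1)]⟩, ⟨1, [(12, 2), (7, 1)]⟩, ⟨1, [(12, 2), (7, 1)]⟩, ⟨1, [(10, 1)]⟩, ⟨1, [(10, 1)]⟩, ⟨1, [(10, 1)]⟩, ⟨1, []⟩, ⟨1, []⟩, ⟨1, []⟩, ⟨1, []⟩, ⟨1, []⟩, ⟨1, [(12, 2), (7, 1)]⟩, ⟨1, [(12, 2), (7, 1)]⟩, ⟨2, [(12, 5), (7, 3), (0, 1)]⟩, ⟨2, [(12, 5), (7, 3), (0, 1)]⟩, ⟨1, [(12, 1)]⟩])))) (.cons (.prune [(12, 4), (5, 1), (2, 1), (1, 2), (0, 2)]) (.cons (.ddet 0 [] (.ndet 0 [⟨2, [(12, 3), (7, 1), (1, 1)]⟩, ⟨1, [(12, 3), (7, 1)]⟩] (.ddet 0 [] (.leaf 2 [⟨2, [(12, 3), (7, 1), (1, 1)]⟩, ⟨1, [(12, 1), (3, 2)]⟩, ⟨1, [(12, 2), (7,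 1)]⟩, ⟨1, [(12, 1), (3, 1)]⟩, ⟨1, [(12, 1), (3, 1)]⟩, ⟨1, [(12, 1), (3, 1)]⟩, ⟨1, []⟩, ⟨1, []⟩, ⟨1, [(1, 1)]⟩, ⟨1, [(1, 1)]⟩, ⟨1, [(1, 1)]⟩, ⟨1, [(12, 2), (7, 1)]⟩, ⟨1, [(12, 2), (7, 1), (1, 1)]⟩, ⟨1, [(12, 2), (7, 1), (3, 1)]⟩, ⟨2, [(12, 5), (7, 3), (1, 1)]⟩, ⟨1, [(12, 1)]⟩])))) .nil)))
def s28_4_t6 : Tree := .ddet 0 [] (.ndet 2 [⟨1, [(10, 2), (5, 1)]⟩, ⟨1, [(13, 1), (5, 1), (0, 1)]⟩] (.ddet 0 [] (.ndet 0 [⟨1, [(13, 1), (10, 1), (5, 1), (0, 2)]⟩, ⟨1, [(13, 1), (12, 1), (5, 1), (0, 3)]⟩] (.ddet 0 [] (.ndet 0 [⟨1, [(16, 1), (8, 1)]⟩, ⟨1, [(10, 3), (5, 1)]⟩] (.ddet 0 [] (.split [-1, 1, 1, -1] (0) (.leaf 2 [⟨1, [(0, 1)]⟩, ⟨1, [(11, 2), (6, 1)]⟩,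 ⟨1, [(11, 2), (6, 1)]⟩, ⟨1, [(0, 1)]⟩, ⟨1, [(0, 1)]⟩, ⟨1, [(0, 1)]⟩, ⟨1, []⟩, ⟨1, []⟩, ⟨1, []⟩, ⟨1, []⟩, ⟨1, []⟩, ⟨1, [(11, 2), (6, 1)]⟩, ⟨1, [(11, 2), (6, 1)]⟩, ⟨1, [(14, 1), (11, 2), (6, 2), (1, 2)]⟩, ⟨1, [(14, 1), (11, 2), (6, 2), (1, 2)]⟩, ⟨1, [(11, 1)]⟩]) (.leaf 3 [⟨1, [(0, 1)]⟩, ⟨1, [(11, 2), (6, 1), (0, 1)]⟩, ⟨1, [(11, 2), (6, 1), (0, 1)]⟩, ⟨1, [(17, 1), (9, 1)]⟩, ⟨1, [(17, 1), (9, 1)]⟩, ⟨1, [(17, 1), (9, 1)]⟩, ⟨1, []⟩, ⟨1, []⟩, ⟨1, [(11, 2), (6, 1)]⟩, ⟨1, [(11, 2), (6, 1)]⟩, ⟨1, [(11, 2), (6, 1)]⟩, ⟨1, [(11, 2), (6, 1)]⟩, ⟨1, [(0, 1)]⟩, ⟨1, [(0, 1)]⟩, ⟨1, [(0, 1)]⟩, ⟨1, [(11, 2), (6, 1), (0, 1)]⟩, ⟨1, [(11, 2), (6, 1), (0, 1)]⟩, ⟨1,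 [(11, 4), (6, 2), (0, 1)]⟩, ⟨1, [(11, 1), (0, 1)]⟩]))))))))
def s28_4_n2 : Node := ⟨[⟨[0, 0, 1, -1], -200⟩, ⟨[0, -1, 1], -200⟩, ⟨[-1, 0, 1], -200⟩, ⟨[-1, -1, 1, -1], 3084⟩, ⟨[0, -1, 1, -1], 1103⟩, ⟨[1, -1, 1, -1], -901⟩, ⟨[-1], 1680⟩, ⟨[1], -2320⟩, ⟨[-1, 1], -340⟩, ⟨[0, 1], -2320⟩, ⟨[1, 1], -4340⟩, ⟨[1, 0, 1], 119700⟩, ⟨[0, 1, 1], 119700⟩, ⟨[0, 0, 1, 1], 119700⟩, ⟨[1, 1, 1, 1], 119700⟩], [0, 0, 1], 0, none, (.nbr (.cons s28_4_t4 (.cons (.ddet 0 [] (.ndet 2 [⟨1, [(10, 2), (5, 1)]⟩, ⟨1, [(1, 1)]⟩] (.ddet 0 [] s28_4_t5))) (.cons s28_4_t6 .nil))))⟩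
def s28_4_t7 : Tree := .ndet 0 [⟨1, [(17, 1), (13, 1)]⟩, ⟨1, [(13, 3), (3, 1)]⟩] (.ddet 0 [] (.nbr (.cons (.prune [(12, 2), (9, 2), (5, 1), (1, 3)]) (.cons (.ddet 0 [] (.leaf 3 [⟨1, [(15, 2), (5, 1)]⟩, ⟨1, [(15, 2), (5, 1)]⟩, ⟨1, []⟩, ⟨1, []⟩, ⟨1, []⟩, ⟨1, []⟩, ⟨1, []⟩, ⟨1, []⟩, ⟨1, []⟩, ⟨1, [(15, 2), (5, 1)]⟩, ⟨1, []⟩, ⟨1, []⟩, ⟨1, []⟩, ⟨1, []⟩, ⟨1, []⟩, ⟨1, [(15, 4), (5, 2)]⟩, ⟨1, [(15, 2), (5, 1)]⟩, ⟨1, [(15, 2), (5, 1)]⟩, ⟨1, [(15, 1)]⟩])) (.cons (.ddet 0 [] (.split [1, 1, 0, -1] (2000) (.leaf 0 [⟨1, [(0, 1)]⟩, ⟨1, [(16, 2), (6, 1), (0, 1)]⟩, ⟨1, [(16, 2), (6, 1), (0, 1)]⟩, ⟨1, [(0, 1)]⟩, ⟨1, [(0, 1)]⟩, ⟨1, [(0, 1)]⟩, ⟨1, []⟩, ⟨1, [(16,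 2), (6, 1), (0, 1)]⟩, ⟨1, []⟩, ⟨1, [(16, 2), (6, 1), (0, 1)]⟩, ⟨1, [(16, 2), (6, 1)]⟩, ⟨1, [(20, 1), (16, 1)]⟩, ⟨1, [(16, 2), (6, 1)]⟩, ⟨1, [(16, 2), (6, 1)]⟩, ⟨1, [(16, 4), (6, 2), (0, 1)]⟩, ⟨1, [(16, 2), (6, 1)]⟩, ⟨1, [(16, 2), (6, 1)]⟩, ⟨1, [(20, 1), (16, 1)]⟩, ⟨1, [(16, 1), (0, 1)]⟩]) (.leaf 3 [⟨1, [(16, 2), (6, 1)]⟩, ⟨1, [(16, 2), (6, 1)]⟩, ⟨1, [(0, 1)]⟩, ⟨1, [(1, 1)]⟩, ⟨1, [(1, 1)]⟩, ⟨1, [(1, 1)]⟩, ⟨1, []⟩, ⟨1, []⟩, ⟨1, []⟩, ⟨1, [(16, 2), (6, 1), (1, 1)]⟩, ⟨1, []⟩, ⟨1, []⟩, ⟨1, [(0, 1)]⟩, ⟨1, [(0, 1)]⟩, ⟨1, [(0, 1)]⟩, ⟨1, [(16, 4), (6, 2), (1, 1)]⟩, ⟨1, [(16, 2), (6, 1)]⟩, ⟨1, [(16, 2), (6, 1)]⟩, ⟨1, [(16, 1)]⟩]))) .nil)))))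
def s28_4_t8 : Tree := .ndet 0 [⟨2, [(13, 2), (7, 1), (3, 1), (1, 1)]⟩, ⟨1, [(13, 3), (3, 1)]⟩] (.ddet 0 [] (.nbr (.cons (.ddet 0 [] (.split [-1, 1, 1, -1] (0) (.leaf 2 [⟨1, [(0, 1)]⟩, ⟨1, [(16, 2), (6, 1), (0, 1)]⟩, ⟨1, [(16, 2), (6, 1), (0, 1)]⟩, ⟨1, [(0, 1)]⟩, ⟨1, [(0, 1)]⟩, ⟨1, [(0, 1)]⟩, ⟨1, []⟩, ⟨1, []⟩, ⟨1, []⟩, ⟨1, []⟩, ⟨1, []⟩, ⟨1, [(16, 2), (6, 1), (0, 1)]⟩, ⟨1, [(16, 2), (6, 1), (0, 1)]⟩, ⟨1, [(16, 4), (6, 2), (0, 1)]⟩, ⟨1, [(16, 4), (6, 2), (0, 1)]⟩, ⟨1, [(16, 1), (0, 1)]⟩]) (.leaf 3 [⟨1, [(0, 1)]⟩, ⟨1, [(16, 2), (6, 1)]⟩, ⟨1, [(16, 2), (6, 1)]⟩, ⟨1, [(2, 1)]⟩, ⟨1, [(2, 1)]⟩, ⟨1, [(2, 1)]⟩, ⟨1, []⟩, ⟨1, []⟩, ⟨1, [(16, 2), (6, 1),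 (2, 1)]⟩, ⟨1, [(16, 2), (6, 1), (2, 1)]⟩, ⟨1, [(16, 2), (6, 1), (2, 1)]⟩, ⟨1, [(16, 2), (6, 1), (2, 1)]⟩, ⟨1, [(0, 1)]⟩, ⟨1, [(0, 1)]⟩, ⟨1, [(0, 1)]⟩, ⟨1, [(16, 2), (6, 1)]⟩, ⟨1, [(16, 2), (6, 1)]⟩, ⟨1, [(16, 4), (6, 2), (2, 1)]⟩, ⟨1, [(16, 1)]⟩]))) (.cons (.ddet 0 [] (.leaf 3 [⟨1, [(1, 1)]⟩, ⟨1, [(15, 2), (5, 1)]⟩, ⟨1, [(3, 1)]⟩, ⟨1, []⟩, ⟨1, []⟩, ⟨1, []⟩, ⟨1, []⟩, ⟨1, []⟩, ⟨1, [(3, 1)]⟩, ⟨1, [(15, 2), (5, 1)]⟩, ⟨1, [(3, 1)]⟩, ⟨1, [(3, 1)]⟩, ⟨1, []⟩, ⟨1, []⟩, ⟨1, []⟩, ⟨1, [(15, 2), (5, 1), (1, 1)]⟩, ⟨1, [(15, 2), (5, 1)]⟩, ⟨1, [(15, 2), (5, 1), (3, 1)]⟩, ⟨1, [(15, 1)]⟩])) (.cons (.prune [(12, 2), (9, 5), (5, 1), (3, 3), (0, 6)]) .nil)))))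
def s28_4_n3 : Node := ⟨[⟨[0, 0, -1, 1], -200⟩, ⟨[0, -1, 0, 1], -200⟩, ⟨[-1, 0, 0, 1], -200⟩, ⟨[1, -1, 1, -1], -2340⟩, ⟨[1, 0, 1, -1], -4320⟩, ⟨[1, 1, 1, -1], -6340⟩, ⟨[0, -1], 1680⟩, ⟨[0, 1], -2320⟩, ⟨[0, -1, 1], -340⟩, ⟨[1, -1, 1], 119700⟩, ⟨[0, 0, 1], -2320⟩, ⟨[0, 1, 1], -4340⟩, ⟨[-1, -1, -1, 1], 2108⟩, ⟨[-1, 0, -1, 1], 123⟩, ⟨[-1, 1, -1, 1], -1890⟩, ⟨[1, 0, 0, 1], 119700⟩, ⟨[0, 1, 0, 1], 119700⟩, ⟨[0, 0, 1, 1], 119700⟩], [0, 0, 0, 1], 0, none, (.ndet 2 [⟨1, [(11, 2), (1, 1)]⟩, ⟨1, [(17, 1)]⟩] (.ddet 0 [] (.nbr (.cons (.ddet 0 [] s28_4_t7) (.cons (.prune [(16, 1), (10, 2), (7, 1), (1, 2), (0, 2)]) (.cons (.ddet 0 [] s28_4_t8) .nil))))))⟩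
def s28_4 : Sys := ⟨[(2, 0), (3, -2000), (4, 1000)], [(2, 2000)], 4, [s28_4_n0, s28_4_n1, s28_4_n2, s28_4_n3], [-2000, -2000, 1209967, 732979], (.leaf 2 [⟨1, []⟩, ⟨1, []⟩, ⟨1, []⟩, ⟨1, []⟩, ⟨1, []⟩, ⟨1, []⟩, ⟨1, []⟩, ⟨1, []⟩, ⟨1, []⟩, ⟨1, []⟩, ⟨1, []⟩, ⟨1, []⟩, ⟨1, []⟩, ⟨1, []⟩, ⟨1, []⟩])⟩

theorem s28_4_ok : s28_4.ok = true := by decide +kernel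

def s28_7_n0 : Node := ⟨[⟨[0, 1, -1], 136⟩, ⟨[0, 1, 0, -1], 64⟩, ⟨[0, 1], 120⟩, ⟨[-1, 1], 72⟩, ⟨[-1, 1], 64⟩, ⟨[0, 1, -1], 40⟩, ⟨[-1], -16⟩, ⟨[0, 1], 128⟩, ⟨[-1, 1], 160⟩, ⟨[0, 1], 112⟩], [0, 1], 0, none, (.ndet 0 [⟨1, [(9, 1)]⟩, ⟨1, [(8, 1)]⟩] (.ddet 2 [⟨1, [(2, 1)]⟩, ⟨1, [(1, 1)]⟩] (.ndet 1 [⟨1, [(1, 1)]⟩, ⟨1, [(9, 1)]⟩] (.ddet 0 [⟨1, []⟩, ⟨1, [(3, 1)]⟩] (.ndet 2 [⟨1, [(2, 1)]⟩, ⟨1, [(1, 1)]⟩] (.ddet 1 [⟨1, [(2, 1)]⟩, ⟨1, [(2, 1)]⟩] (.leaf 0 [⟨1, [(2, 1)]⟩, ⟨1, [(1, 1)]⟩, ⟨1, [(2, 1)]⟩, ⟨1, [(2, 1)]⟩, ⟨1, [(2, 1)]⟩, ⟨1, [(2, 1)]⟩, ⟨1, []⟩, ⟨1, [(2, 1)]⟩, ⟨1, [(2, 1)]⟩, ⟨1, [(2, 1)]⟩, ⟨1, []⟩])))))))⟩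
def s28_7 : Sys := ⟨[(2, 0), (3, 80), (4, -32)], [(0, 16), (1, -80), (2, -16)], 4, [s28_7_n0], [0, 208, 16, 48], (.leaf 0 [⟨1, []⟩, ⟨1, []⟩, ⟨1, []⟩, ⟨1, []⟩, ⟨1, []⟩, ⟨1, []⟩, ⟨1, []⟩, ⟨1, []⟩, ⟨1, []⟩, ⟨1, []⟩])⟩

theorem s28_7_ok : s28_7.ok = true := by decide +kernel

def s28_13_n0 : Node := ⟨[⟨[0, 1, -1], 360⟩, ⟨[0, 1, 0, -1], 352⟩, ⟨[0, 1], 312⟩, ⟨[0, 1, -1], 432⟩, ⟨[-1, 1], 472⟩, ⟨[0, 1, -1], 480⟩, ⟨[0, 1], 296⟩, ⟨[-1, 1], 400⟩, ⟨[0, 1], 352⟩, ⟨[-1, 1], 352⟩, ⟨[-1], 72⟩, ⟨[-1], 120⟩, ⟨[0, 1], 360⟩], [0, 1], 0, none, (.ndet 0 [⟨1, [(7, 1)]⟩, ⟨1, [(11, 1)]⟩] (.ddet 1 [⟨1, [(0, 1)]⟩, ⟨1, [(7, 1)]⟩] (.ndet 1 [⟨1, [(1, 1), (0, 1)]⟩, ⟨1,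 [(7, 1)]⟩] (.ddet 2 [⟨1, [(0, 1)]⟩, ⟨1, [(1, 1), (0, 1)]⟩] (.ndet 2 [⟨1, [(0, 1)]⟩, ⟨1, [(1, 1), (0, 1)]⟩] (.ddet 1 [⟨1, []⟩, ⟨1, [(1, 1)]⟩] (.ndet 1 [⟨1, []⟩, ⟨1, [(1, 1)]⟩] (.ddet 2 [⟨1, []⟩, ⟨1, []⟩] (.leaf 0 [⟨1, [(0, 1)]⟩, ⟨1, [(0, 1)]⟩, ⟨1, [(0, 1)]⟩, ⟨1, [(0, 1)]⟩, ⟨1, [(0, 1)]⟩, ⟨1, [(0, 1)]⟩, ⟨1, [(0, 1)]⟩, ⟨1, [(0, 1)]⟩, ⟨1, [(0, 1)]⟩, ⟨1, [(0, 1)]⟩, ⟨1, []⟩, ⟨1, []⟩, ⟨1, [(0, 1)]⟩, ⟨1, []⟩])))))))))⟩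
def s28_13 : Sys := ⟨[(2, 64), (3, -48), (4, 80)], [(0, -32), (2, 48), (3, 80)], 4, [s28_13_n0], [-128, 704, -128, 16], (.leaf 0 [⟨1, []⟩, ⟨1, []⟩, ⟨1, []⟩, ⟨1, []⟩, ⟨1, []⟩, ⟨1, []⟩, ⟨1, []⟩, ⟨1, []⟩, ⟨1, []⟩, ⟨1, []⟩, ⟨1, []⟩, ⟨1, []⟩, ⟨1, []⟩])⟩

theorem s28_13_ok : s28_13.ok = true := by decide +kernel

def s31_6_n0 : Node := ⟨[⟨[0, 1], 384⟩, ⟨[-1, 1], 448⟩, ⟨[0, 1, -1], 480⟩, ⟨[0, 1, 0, -1], 416⟩, ⟨[0, 1], 320⟩, ⟨[-1, 1], 352⟩, ⟨[0, 1, -1], 352⟩, ⟨[-1], 32⟩, ⟨[0, 1], 288⟩, ⟨[-1, 1], 416⟩], [0, 1], 0, none, (.ndet 2 [⟨1, [(9, 1)]⟩, ⟨1, [(8, 1)]⟩, ⟨1, [(7, 1)]⟩, ⟨1, [(6, 1)]⟩] (.ddet 1 [⟨1, [(8, 1)]⟩] (.ndet 3 [⟨1, [(9, 1)]⟩, ⟨1, [(9, 1)]⟩,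 ⟨1, [(8, 1)]⟩, ⟨1, [(7, 1)]⟩] (.ddet 0 [⟨1, [(2, 1)]⟩] (.ndet 1 [⟨1, [(9, 1)]⟩, ⟨1, [(9, 1)]⟩, ⟨1, [(8, 1)]⟩, ⟨1, []⟩] (.ddet 0 [⟨1, [(9, 1)]⟩] (.leaf 0 [⟨1, [(9, 1)]⟩, ⟨1, [(9, 1)]⟩, ⟨1, [(9, 1)]⟩, ⟨1, [(8, 1)]⟩, ⟨1, [(9, 1)]⟩, ⟨1, [(9, 1)]⟩, ⟨1, [(9, 1)]⟩, ⟨1, []⟩, ⟨1, [(9, 1)]⟩, ⟨1, [(9, 1)]⟩, ⟨1, []⟩])))))))⟩
def s31_6 : Sys := ⟨[(0, -64), (1, 0), (2, -64), (3, 64), (4, -64)], [(1, 64), (2, 0)], 4, [s31_6_n0], [-64, 768, -64, -64], (.leaf 0 [⟨1, []⟩, ⟨1, []⟩, ⟨1, []⟩, ⟨1, []⟩, ⟨1, []⟩, ⟨1, []⟩, ⟨1, []⟩, ⟨1, []⟩, ⟨1, []⟩, ⟨1, []⟩])⟩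

theorem s31_6_ok : s31_6.ok = true := by decide +kernel

end Pool.Agent.H81.RDE.Data
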