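import Pool.Agent.H81.RDE.System

/-! Data file (generated): certificates. -/

set_option maxRecDepth 100000

namespace Pool.Agent.H81.RDE.Data

def s2_8_t0 : Tree := .ndet 0 [] (.ddet 0 [] (.ndet 0 [] (.ddet 0 [] (.split [2, -1, -2] (4000) (.leaf 0 [⟨1, [(26, 2), (21, 1), (5, 1), (1, 2)]⟩, ⟨1, [(21, 3), (20, 4), (17, 1), (8, 4), (3, 5), (1, 3)]⟩, ⟨1, [(20, 6), (17, 3), (8, 3), (6, 1), (3, 4), (1, 4)]⟩, ⟨4, [(17, 13), (10, 1), (8, 12), (6, 12), (3, 1), (0, 1)]⟩, ⟨1, [(0, 1)]⟩, ⟨1, [(21, 3), (20, 1), (8, 3), (3, 3), (1, 1)]⟩, ⟨1, [(20, 3), (17, 1), (8, 1), (3, 2), (1, 2)]⟩, ⟨1, []⟩, ⟨1, []⟩, ⟨1, [(17, 1), (8, 1), (6, 1)]⟩, ⟨1, []⟩, ⟨1,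 []⟩, ⟨1, [(21, 2), (20, 1), (8, 2), (3, 2), (1, 1)]⟩, ⟨1, []⟩, ⟨1, []⟩, ⟨1, []⟩, ⟨1, []⟩, ⟨1, []⟩, ⟨1, []⟩, ⟨4, [(17, 9), (10, 1), (8, 8), (6, 8), (3, 1), (0, 5)]⟩, ⟨4, [(17, 9), (10, 1), (8, 8), (6, 8), (3, 1), (0, 1)]⟩, ⟨1, [(21, 4), (20, 1), (8, 4), (3, 4), (1, 1)]⟩, ⟨1, []⟩, ⟨1, []⟩, ⟨1, []⟩, ⟨1, []⟩, ⟨1, [(21, 2), (20, 1), (8, 2), (3, 2), (1, 1)]⟩]) (.leaf 1 [⟨4, [(17, 47), (10, 6), (8, 41), (6, 44), (1, 3), (0, 21)]⟩, ⟨4, [(17, 43), (10, 6), (8, 37), (6, 40), (1, 3), (0, 17)]⟩, ⟨2, [(17, 15), (10, 1), (8, 14), (6, 14), (3, 1), (0, 5)]⟩, ⟨4, [(17, 13), (10, 1), (8, 12), (6, 12), (3, 1), (0, 3)]⟩, ⟨1, [(0, 1)]⟩, ⟨4, [(17, 47), (10,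 3), (8, 44), (6, 44), (3, 3), (0, 13)]⟩, ⟨1, []⟩, ⟨1, []⟩, ⟨1, [(17, 1), (8, 1), (6, 1), (0, 1)]⟩, ⟨1, []⟩, ⟨1, []⟩, ⟨4, [(17, 21), (10, 1), (8, 20), (6, 20), (3, 1), (0, 7)]⟩, ⟨1, []⟩, ⟨1, []⟩, ⟨1, []⟩, ⟨1, []⟩, ⟨1, []⟩, ⟨1, []⟩, ⟨4, [(17, 9), (10, 2), (8, 7), (6, 8), (1, 1), (0, 3)]⟩, ⟨1, []⟩, ⟨1, []⟩, ⟨1, []⟩, ⟨1, []⟩, ⟨4, [(17, 21), (10, 2), (8, 19), (6, 20), (1, 1), (0, 11)]⟩])))))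
def s2_8_t1 : Tree := .ddet 0 [] (.ndet 0 [] (.ddet 0 [] (.ndet 0 [] (.ddet 0 [] (.ndet 0 [] (.ddet 0 [] (.ndet 0 [] (.ddet 0 [] s2_8_t0))))))))
def s2_8_n0 : Node := ⟨[⟨[1, 0, 0, 0, 0, -1], -200⟩, ⟨[1, 0, 0, 0, -1], -200⟩, ⟨[1, 0, 0, -1], -200⟩, ⟨[1, 0, -1], -200⟩, ⟨[1, -1], -200⟩, ⟨[-1, 1, 0, -1, -1, -1], 239700⟩, ⟨[-1, 1, -1, 0, -1, -1], 239700⟩, ⟨[-1, 0, 0, 0, -1, -1], -12360⟩, ⟨[0, -1, 0, 1, -1, -1], -8340⟩, ⟨[0, -1, 1, -1, 0, -1], 239700⟩, ⟨[-1, 1, -1, 0, 0, -1], -8340⟩, ⟨[0, 0, -1, 1, 0, -1], -4320⟩, ⟨[1, -1, 1, -1, 1, -1], 239700⟩, ⟨[-1, 0, 1, -1, -1], -8340⟩, ⟨[0, -1, 1, 0, -1], -4320⟩, ⟨[-1, 1, 0, -1], -4320⟩, ⟨[1, -1, 0,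 1], 3680⟩, ⟨[0, 1, -1, 0, 1], 3680⟩, ⟨[1, 0, -1, 1, 1], 7660⟩, ⟨[0, 1, -1, -1, -1, 1], 239700⟩, ⟨[0, 1, -1, 0, -1, 1], 239700⟩, ⟨[1, 1, -1, 1, -1, 1], 239700⟩, ⟨[0, 0, 1, -1, 0, 1], 3680⟩, ⟨[1, -1, 1, 0, 0, 1], 7660⟩, ⟨[0, 1, 0, -1, 1, 1], 7660⟩, ⟨[1, 0, 0, 0, 1, 1], 11640⟩], [1], 0, none, (.ndet 0 [] (.ddet 0 [] (.ndet 0 [] (.ddet 0 [] (.ndet 0 [] s2_8_t1)))))⟩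
def s2_8_t2 : Tree := .ddet 0 [] (.ndet 0 [] (.ddet 0 [] (.ndet 0 [] (.ddet 0 [] (.ndet 0 [] (.ddet 0 [] (.split [2, 0, -1] (-4000) (.leaf 1 [⟨2, [(15, 13), (12, 7), (8, 2), (6, 3), (5, 15), (1, 5)]⟩, ⟨1, [(15, 3), (12, 4), (6, 1), (5, 6), (1, 1)]⟩, ⟨4, [(14, 1), (12, 12), (9, 1), (7, 1), (5, 13), (0, 1)]⟩, ⟨1, [(0, 1)]⟩, ⟨1, [(19, 3), (15, 1), (8, 1), (3, 1)]⟩, ⟨4, [(14, 1), (12, 8), (9, 1), (7, 1), (5, 9), (0, 9)]⟩, ⟨1, []⟩, ⟨1, []⟩, ⟨1, [(19, 1), (15, 2), (8, 1), (5, 1), (1, 1)]⟩, ⟨1, []⟩, ⟨1, []⟩, ⟨4, [(14, 1), (12, 8), (9, 1), (7, 1), (5, 9), (0, 1)]⟩, ⟨1, []⟩, ⟨1, []⟩, ⟨1, []⟩, ⟨1, []⟩, ⟨1, []⟩, ⟨1, []⟩, ⟨1, [(12, 1), (5, 1)]⟩,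 ⟨1, []⟩, ⟨1, []⟩, ⟨1, []⟩, ⟨1, []⟩, ⟨2, [(15, 7), (12, 3), (8, 2), (6, 1), (5, 7), (1, 3)]⟩]) (.leaf 2 [⟨4, [(14, 3), (12, 40), (9, 3), (7, 3), (5, 43), (0, 17)]⟩, ⟨2, [(14, 1), (12, 14), (9, 1), (7, 1), (5, 15), (0, 5)]⟩, ⟨4, [(14, 1), (12, 12), (9, 1), (7, 1), (5, 13), (0, 3)]⟩, ⟨1, [(0, 1)]⟩, ⟨4, [(14, 1), (12, 16), (9, 1), (7, 1), (5, 17), (0, 15)]⟩, ⟨1, []⟩, ⟨4, [(14, 1), (12, 16), (9, 1), (7, 1), (5, 17), (0, 7)]⟩, ⟨1, []⟩, ⟨4, [(14, 5), (12, 68), (9, 5), (7, 5), (5, 73), (0, 19)]⟩, ⟨4, [(14, 1), (12, 12), (9, 1), (7, 1), (5, 13), (0, 7)]⟩, ⟨1, []⟩, ⟨1, []⟩, ⟨1, []⟩, ⟨1, []⟩, ⟨1, [(12, 1), (5, 1), (0, 1)]⟩, ⟨1, []⟩, ⟨1, []⟩, ⟨1,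 []⟩, ⟨1, []⟩, ⟨4, [(14, 3), (12, 44), (9, 3), (7, 3), (5, 47), (0, 13)]⟩, ⟨1, []⟩, ⟨1, []⟩, ⟨1, []⟩, ⟨1, []⟩, ⟨4, [(14, 1), (12, 20), (9, 1), (7, 1), (5, 21), (0, 11)]⟩]))))))))
def s2_8_t3 : Tree := .ndet 0 [] (.ddet 0 [] (.ndet 0 [] (.ddet 0 [] (.ndet 0 [] (.ddet 0 [] (.ndet 0 [] (.ddet 0 [] (.ndet 0 [] s2_8_t2))))))))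
def s2_8_n1 : Node := ⟨[⟨[0, 1, 0, 0, 0, -1], -200⟩, ⟨[0, 1, 0, 0, -1], -200⟩, ⟨[0, 1, 0, -1], -200⟩, ⟨[0, 1, -1], -200⟩, ⟨[-1, 1], -200⟩, ⟨[1, -1, 1, -1, -1, -1], 239700⟩, ⟨[-1, 0, 0, 0, -1, -1], -12360⟩, ⟨[0, -1, 0, 1, -1, -1], -8340⟩, ⟨[-1, 0, 1, -1, 0, -1], 239700⟩, ⟨[-1, 1, -1, 0, 0, -1], -8340⟩, ⟨[0, 0, -1, 1, 0, -1], -4320⟩, ⟨[1, -1, 1, -1, 1, -1], 239700⟩, ⟨[-1, 0, 1, -1, -1], -8340⟩, ⟨[0, -1, 1, 0, -1], -4320⟩, ⟨[-1, 1, 0, -1], -4320⟩, ⟨[1, -1, 0, 1], 3680⟩, ⟨[0, 1, -1, 0, 1], 3680⟩, ⟨[1, 0, -1, 1, 1], 7660⟩, ⟨[0, 1, -1, 1, -1, 1], 239700⟩, ⟨[0, 0, 1, -1, 0, 1], 3680⟩, ⟨[1, -1, 1, 0, 0, 1], 7660⟩, ⟨[0, 1, 0, -1, 1, 1], 7660⟩,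 ⟨[1, 0, 0, 0, 1, 1], 11640⟩], [0, 1], 0, none, (.ndet 0 [] (.ddet 0 [] s2_8_t3))⟩
def s2_8_t4 : Tree := .ddet 0 [] (.ndet 0 [] (.ddet 0 [] (.ndet 0 [] (.ddet 0 [] (.ndet 0 [] (.ddet 0 [] (.split [1, 1] (-8000) (.leaf 2 [⟨1, [(18, 4), (15, 3), (3, 3), (2, 1), (1, 3), (0, 1)]⟩, ⟨3, [(18, 5), (15, 4), (3, 4), (2, 1), (1, 4), (0, 4)]⟩, ⟨1, [(0, 1)]⟩, ⟨1, [(21, 3), (10, 1), (9, 1), (7, 1)]⟩, ⟨1, [(21, 3), (15, 4), (10, 4), (1, 4)]⟩, ⟨1, []⟩, ⟨3, [(18, 5), (15, 4), (3, 4), (2, 1), (1, 4), (0, 1)]⟩, ⟨1, []⟩, ⟨1, [(18, 1), (15, 1), (3, 1), (1, 1), (0, 5)]⟩, ⟨1, [(18, 1), (15, 2), (10, 1), (3, 1), (1, 2)]⟩, ⟨1, []⟩, ⟨1, []⟩, ⟨1, []⟩, ⟨1, []⟩,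 ⟨1, [(21, 1), (15, 1), (10, 1), (1, 1)]⟩, ⟨1, []⟩, ⟨1, []⟩, ⟨1, []⟩, ⟨1, []⟩, ⟨1, [(18, 1), (15, 1), (3, 1), (1, 1), (0, 3)]⟩, ⟨1, []⟩, ⟨1, []⟩, ⟨1, []⟩, ⟨1, []⟩, ⟨1, [(18, 3), (15, 2), (3, 2), (2, 1), (1, 2)]⟩]) (.leaf 3 [⟨1, [(18, 4), (15, 3), (3, 3), (2, 1), (1, 3)]⟩, ⟨1, [(22, 1), (18, 2), (15, 1), (3, 1), (1, 2)]⟩, ⟨1, [(0, 1)]⟩, ⟨3, [(18, 7), (15, 5), (3, 5), (2, 2), (1, 5), (0, 7)]⟩, ⟨3, [(18, 19), (15, 14), (3, 14), (2, 5), (1, 14), (0, 10)]⟩, ⟨1, []⟩, ⟨1, []⟩, ⟨3, [(18, 7), (15, 5), (3, 5), (2, 2), (1, 5), (0, 1)]⟩, ⟨1, []⟩, ⟨1, []⟩, ⟨3, [(18, 2), (15, 1), (3, 1), (2, 1), (1, 1), (0, 5)]⟩, ⟨3, [(18, 2), (15, 1), (3, 1), (2,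 1), (1, 1), (0, 2)]⟩, ⟨1, [(22, 3), (18, 9), (15, 5), (3, 5), (2, 1), (1, 8)]⟩, ⟨1, []⟩, ⟨1, []⟩, ⟨3, [(18, 5), (15, 4), (3, 4), (2, 1), (1, 4), (0, 2)]⟩, ⟨1, []⟩, ⟨1, []⟩, ⟨1, []⟩, ⟨1, []⟩, ⟨1, []⟩, ⟨1, []⟩, ⟨1, []⟩, ⟨1, []⟩, ⟨1, [(18, 3), (15, 2), (3, 2), (2, 1), (1, 2), (0, 1)]⟩]))))))))
def s2_8_t5 : Tree := .ndet 0 [] (.ddet 0 [] (.ndet 0 [] (.ddet 0 [] (.ndet 0 [] (.ddet 0 [] (.ndet 0 [] (.ddet 0 [] (.ndet 0 [] s2_8_t4))))))))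
def s2_8_n2 : Node := ⟨[⟨[0, 0, 1, 0, 0, -1], -200⟩, ⟨[0, 0, 1, 0, -1], -200⟩, ⟨[0, 0, 1, -1], -200⟩, ⟨[0, -1, 1], -200⟩, ⟨[-1, 0, 1], -200⟩, ⟨[-1, 0, 0, 0, -1, -1], -12360⟩, ⟨[-1, 1, -1, 1, -1, -1], 239700⟩, ⟨[0, -1, 0, 1, -1, -1], -8340⟩, ⟨[1, 1, 0, 1, -1, -1], 239700⟩, ⟨[-1, 0, 1, -1, 0, -1], 239700⟩, ⟨[-1, 1, -1, 0, 0, -1], -8340⟩, ⟨[0, 0, -1, 1, 0, -1], -4320⟩, ⟨[-1, 0, 1, -1, -1], -8340⟩, ⟨[0, -1, 1, 0, -1], -4320⟩, ⟨[-1, 1, -1, 1, -1], 239700⟩, ⟨[-1, 1, 0, -1], -4320⟩, ⟨[1, -1, 0, 1], 3680⟩, ⟨[0, 1, -1, 0, 1], 3680⟩, ⟨[1, 0, -1, 1, 1], 7660⟩, ⟨[1, 1, 0, 1, -1, 1], 239700⟩, ⟨[0, 0, 1, -1, 0, 1], 3680⟩, ⟨[1, -1, 1, 0, 0, 1], 7660⟩,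 ⟨[0, 1, 0, -1, 1, 1], 7660⟩, ⟨[1, 0, 0, 0, 1, 1], 11640⟩], [0, 0, 1], 0, none, (.ndet 0 [] (.ddet 0 [] s2_8_t5))⟩
def s2_8_t6 : Tree := .ndet 0 [] (.ddet 0 [] (.ndet 0 [] (.ddet 0 [] (.ndet 0 [] (.ddet 0 [] (.split [0, 1, 1] (-8000) (.leaf 3 [⟨1, [(23, 4), (17, 3), (5, 1), (2, 2), (1, 1)]⟩, ⟨1, [(0, 1)]⟩, ⟨1, [(22, 2), (14, 1), (10, 1), (4, 1)]⟩, ⟨1, [(14, 3), (13, 1), (9, 4), (3, 4)]⟩, ⟨1, [(17, 1), (13, 7), (9, 10), (3, 5), (2, 2), (1, 1)]⟩, ⟨1, []⟩, ⟨1, []⟩, ⟨1, [(23, 1), (17, 2), (9, 1), (1, 2)]⟩, ⟨1, []⟩, ⟨1, []⟩, ⟨1, [(22, 2), (14, 2), (10, 1), (9, 1), (4, 1), (3, 1)]⟩, ⟨1, [(14, 1), (9, 1), (3, 1)]⟩, ⟨1, [(23, 3), (17, 2), (5,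 1), (2, 2), (0, 3)]⟩, ⟨1, []⟩, ⟨1, []⟩, ⟨1, [(17, 1), (13, 1), (9, 2), (3, 1), (1, 1)]⟩, ⟨1, []⟩, ⟨1, []⟩, ⟨1, []⟩, ⟨1, []⟩, ⟨1, []⟩, ⟨1, []⟩, ⟨1, []⟩, ⟨1, []⟩, ⟨1, [(17, 3), (9, 2), (3, 1), (1, 2)]⟩]) (.leaf 4 [⟨1, [(23, 4), (17, 3), (5, 1), (2, 2), (1, 1), (0, 1)]⟩, ⟨1, [(0, 1)]⟩, ⟨1, [(23, 5), (17, 4), (5, 1), (2, 2), (1, 2), (0, 4)]⟩, ⟨1, [(23, 14), (17, 11), (5, 3), (2, 6), (1, 5), (0, 8)]⟩, ⟨1, [(23, 23), (17, 18), (5, 5), (2, 10), (1, 8), (0, 11)]⟩, ⟨1, []⟩, ⟨1, []⟩, ⟨1, [(23, 9), (17, 7), (5, 2), (2, 4), (1, 3), (0, 3)]⟩, ⟨1, []⟩, ⟨1, []⟩, ⟨1, [(23, 4), (17, 3), (5, 1), (2, 2), (1, 1), (0, 2)]⟩, ⟨1, []⟩, ⟨1, []⟩, ⟨1, [(23, 1),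 (17, 1), (1, 1), (0, 3)]⟩, ⟨1, [(23, 5), (17, 4), (5, 1), (2, 2), (1, 2), (0, 2)]⟩, ⟨1, []⟩, ⟨1, []⟩, ⟨1, []⟩, ⟨1, []⟩, ⟨1, [(23, 1), (17, 1), (1, 1), (0, 3)]⟩, ⟨1, [(23, 1), (17, 1), (1, 1), (0, 2)]⟩, ⟨1, [(23, 18), (17, 14), (5, 4), (2, 8), (1, 6), (0, 5)]⟩, ⟨1, []⟩, ⟨1, []⟩, ⟨1, []⟩, ⟨1, []⟩, ⟨1, [(23, 6), (17, 5), (5, 1), (2, 3), (1, 2), (0, 3)]⟩])))))))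
def s2_8_t7 : Tree := .ddet 0 [] (.ndet 0 [] (.ddet 0 [] (.ndet 0 [] (.ddet 0 [] (.ndet 0 [] (.ddet 0 [] (.ndet 0 [] (.ddet 0 [] s2_8_t6))))))))
def s2_8_n3 : Node := ⟨[⟨[0, 0, 0, 1, 0, -1], -200⟩, ⟨[0, 0, 0, 1, -1], -200⟩, ⟨[0, 0, -1, 1], -200⟩, ⟨[0, -1, 0, 1], -200⟩, ⟨[-1, 0, 0, 1], -200⟩, ⟨[-1, 0, 0, 0, -1, -1], -12360⟩, ⟨[0, -1, 0, 1, -1, -1], -8340⟩, ⟨[-1, 0, 1, -1, 0, -1], 239700⟩, ⟨[-1, 1, -1, 0, 0, -1], -8340⟩, ⟨[0, 0, -1, 1, 0, -1], -4320⟩, ⟨[-1, 0, 0, -1, 1, -1], 239000⟩, ⟨[0, -1, 1, -1, 1, -1], 239700⟩, ⟨[0, 1, 1, 0, 1, -1], 239700⟩, ⟨[-1, 0, 1, -1, -1], -8340⟩, ⟨[0, -1, 1, 0, -1], -4320⟩, ⟨[-1, 1, -1, 1, -1], 239700⟩, ⟨[-1,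 1, 0, -1], -4320⟩, ⟨[1, -1, 0, 1], 3680⟩, ⟨[0, 1, -1, 0, 1], 3680⟩, ⟨[1, 0, -1, 1, 1], 7660⟩, ⟨[0, 0, 1, -1, 0, 1], 3680⟩, ⟨[1, -1, 1, 0, 0, 1], 7660⟩, ⟨[0, 1, 0, -1, 1, 1], 7660⟩, ⟨[1, 0, 0, 0, 1, 1], 11640⟩], [0, 0, 0, 1], 0, none, (.ndet 0 [] (.ddet 0 [] (.ndet 0 [] s2_8_t7)))⟩
def s2_8_t8 : Tree := .ddet 0 [] (.ndet 0 [] (.ddet 0 [] (.split [-1, 1, 1] (-4000) (.leaf 4 [⟨1, [(0, 1)]⟩, ⟨1, [(25, 1), (13, 1)]⟩, ⟨2, [(16, 7), (12, 1), (10, 5), (8, 1), (6, 7)]⟩, ⟨2, [(16, 13), (12, 9), (10, 4), (6, 7), (3, 3), (1, 3)]⟩, ⟨2, [(16, 17), (12, 19), (6, 3), (3, 9), (2, 2), (1, 3)]⟩, ⟨1, []⟩, ⟨1, []⟩, ⟨1, [(26, 1), (19, 3), (4, 1), (3, 1),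 (2, 2)]⟩, ⟨1, []⟩, ⟨1, []⟩, ⟨2, [(16, 3), (12, 3), (6, 1), (3, 1), (1, 1)]⟩, ⟨1, []⟩, ⟨1, []⟩, ⟨1, [(25, 1), (16, 1), (13, 2), (8, 1), (7, 1)]⟩, ⟨1, [(19, 1), (16, 1), (12, 1), (3, 1), (2, 1)]⟩, ⟨1, []⟩, ⟨1, []⟩, ⟨1, []⟩, ⟨1, []⟩, ⟨1, [(25, 1), (16, 1), (13, 2), (8, 1), (7, 1)]⟩, ⟨1, [(16, 1), (13, 1), (8, 1), (7, 1)]⟩, ⟨1, [(26, 1), (19, 2), (4, 1), (3, 1), (2, 1), (0, 3)]⟩, ⟨1, []⟩, ⟨1, []⟩, ⟨1, []⟩, ⟨1, []⟩, ⟨1, [(16, 2), (12, 3), (4, 1), (3, 1)]⟩]) (.leaf 5 [⟨1, [(0, 1)]⟩, ⟨1, [(26, 1), (19, 4), (4, 2), (2, 2), (1, 1), (0, 4)]⟩, ⟨1, [(26, 3), (19, 11), (4, 3), (3, 3), (2, 8), (0, 8)]⟩, ⟨1, [(26, 5), (19, 18), (4, 10), (2, 8), (1,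 5), (0, 11)]⟩, ⟨1, [(26, 6), (19, 21), (4, 6), (3, 6), (2, 15), (0, 11)]⟩, ⟨1, [(26, 1), (19, 4), (4, 1), (3, 1), (2, 3), (0, 3)]⟩, ⟨1, [(26, 1), (19, 4), (4, 2), (2, 2), (1, 1), (0, 4)]⟩, ⟨1, []⟩, ⟨1, [(26, 2), (19, 7), (4, 4), (2, 3), (1, 2), (0, 4)]⟩, ⟨1, []⟩, ⟨1, [(26, 3), (19, 11), (4, 6), (2, 5), (1, 3), (0, 6)]⟩, ⟨1, []⟩, ⟨1, []⟩, ⟨1, [(19, 1), (2, 1), (0, 3)]⟩, ⟨1, []⟩, ⟨1, []⟩, ⟨1, []⟩, ⟨1, []⟩, ⟨1, []⟩, ⟨1, []⟩, ⟨1, []⟩, ⟨1, []⟩, ⟨1, []⟩, ⟨1, []⟩, ⟨1, [(26, 1), (19, 5), (4, 2), (3, 1), (2, 3), (0, 3)]⟩]))))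
def s2_8_t9 : Tree := .ndet 0 [] (.ddet 0 [] (.ndet 0 [] (.ddet 0 [] (.ndet 0 [] (.ddet 0 [] (.ndet 0 [] (.ddet 0 [] (.ndet 0 [] s2_8_t8))))))))
def s2_8_n4 : Node := ⟨[⟨[0, 0, 0, 0, 1, -1], -200⟩, ⟨[0, 0, 0, -1, 1], -200⟩, ⟨[0, 0, -1, 0, 1], -200⟩, ⟨[0, -1, 0, 0, 1], -200⟩, ⟨[-1, 0, 0, 0, 1], -200⟩, ⟨[-1, 0, 0, 0, -1, -1], -12360⟩, ⟨[0, -1, 0, 1, -1, -1], -8340⟩, ⟨[-1, 0, 0, 1, -1, -1], 239700⟩, ⟨[-1, 1, -1, 0, 0, -1], -8340⟩, ⟨[0, 0, -1, 1, 0, -1], -4320⟩, ⟨[0, -1, 1, -1, 1, -1], 239700⟩, ⟨[-1, 0, 1, -1, -1], -8340⟩, ⟨[0, -1, 1, 0, -1], -4320⟩, ⟨[0, -1, -1, 1, -1], 239000⟩, ⟨[-1, 1, -1, 1, -1], 239700⟩, ⟨[-1, 1, 0, -1], -4320⟩, ⟨[1,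 -1, 0, 1], 3680⟩, ⟨[0, 1, -1, 0, 1], 3680⟩, ⟨[1, 0, -1, 1, 1], 7660⟩, ⟨[-1, 0, 0, -1, -1, 1], 239000⟩, ⟨[-1, 1, -1, 0, -1, 1], 239700⟩, ⟨[-1, 1, 1, 1, -1, 1], 239700⟩, ⟨[0, 0, 1, -1, 0, 1], 3680⟩, ⟨[1, -1, 1, 0, 0, 1], 7660⟩, ⟨[0, 1, 0, -1, 1, 1], 7660⟩, ⟨[1, 0, 0, 0, 1, 1], 11640⟩], [0, 0, 0, 0, 1], 0, none, (.ndet 0 [] (.ddet 0 [] (.ndet 0 [] (.ddet 0 [] (.ndet 0 [] (.ddet 0 [] s2_8_t9))))))⟩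
def s2_8_t10 : Tree := .ndet 0 [] (.ddet 0 [] (.ndet 0 [] (.ddet 0 [] (.split [4, 2, -1] (-20000) (.leaf 0 [⟨1, [(0, 1)]⟩, ⟨1, [(16, 6), (14, 3), (4, 3), (1, 6), (0, 2)]⟩, ⟨4, [(16, 47), (14, 23), (4, 23), (2, 1), (1, 46), (0, 11)]⟩, ⟨4, [(16, 55), (14, 27), (3, 27), (2, 28), (1, 27), (0, 11)]⟩, ⟨4, [(16, 39), (14, 19), (3, 19), (2, 20), (1, 19), (0, 7)]⟩, ⟨1, [(16, 2), (14, 1), (4, 1), (1, 2), (0, 1)]⟩, ⟨1, [(16, 4), (14, 2), (4, 2), (1, 4), (0, 1)]⟩, ⟨1, []⟩, ⟨1, []⟩, ⟨4, [(16, 15), (14, 7), (4, 7), (2, 1), (1, 14), (0, 3)]⟩, ⟨1, []⟩, ⟨1, []⟩, ⟨4, [(16, 7), (14, 3), (4, 3), (2, 1), (1, 6), (0, 3)]⟩, ⟨1, []⟩, ⟨1, []⟩, ⟨1, []⟩, ⟨1,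 []⟩, ⟨1, []⟩, ⟨1, []⟩, ⟨4, [(16, 79), (14, 39), (3, 39), (2, 40), (1, 39), (0, 15)]⟩, ⟨1, [(16, 10), (14, 5), (3, 5), (2, 5), (1, 5), (0, 2)]⟩, ⟨4, [(16, 9), (14, 5), (4, 4), (3, 1), (1, 9), (0, 5)]⟩, ⟨1, []⟩, ⟨1, []⟩, ⟨1, []⟩, ⟨1, []⟩, ⟨1, [(16, 1), (14, 1), (1, 1), (0, 1)]⟩]) (.leaf 5 [⟨1, [(24, 1), (11, 1), (7, 1)]⟩, ⟨1, [(19, 1), (18, 3), (7, 1), (1, 4)]⟩, ⟨1, [(19, 3), (18, 2), (16, 3), (1, 8)]⟩, ⟨1, [(19, 3), (16, 6), (14, 1), (3, 1), (2, 2), (1, 7)]⟩, ⟨1, [(0, 1)]⟩, ⟨1, [(19, 1), (18, 1), (16, 1), (1, 3)]⟩, ⟨1, [(19, 1), (18, 3), (7, 1), (1, 4)]⟩, ⟨1, []⟩, ⟨1, [(16, 2), (14, 1), (3, 1), (2, 1), (1, 1)]⟩, ⟨1, []⟩, ⟨4, [(16, 7),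 (14, 3), (3, 3), (2, 4), (1, 3), (0, 1)]⟩, ⟨1, []⟩, ⟨1, []⟩, ⟨1, [(24, 2), (18, 1), (11, 2), (7, 1), (5, 1), (3, 1)]⟩, ⟨1, []⟩, ⟨1, []⟩, ⟨1, []⟩, ⟨1, []⟩, ⟨1, []⟩, ⟨1, []⟩, ⟨1, []⟩, ⟨1, []⟩, ⟨1, []⟩, ⟨1, []⟩, ⟨1, [(16, 1), (14, 1), (1, 1)]⟩])))))
def s2_8_t11 : Tree := .ddet 0 [] (.ndet 0 [] (.ddet 0 [] (.ndet 0 [] (.ddet 0 [] (.ndet 0 [] (.ddet 0 [] (.ndet 0 [] (.ddet 0 [] s2_8_t10))))))))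
def s2_8_n5 : Node := ⟨[⟨[0, 0, 0, 0, -1, 1], -200⟩, ⟨[0, 0, 0, -1, 0, 1], -200⟩, ⟨[0, 0, -1, 0, 0, 1], -200⟩, ⟨[0, -1, 0, 0, 0, 1], -200⟩, ⟨[-1, 0, 0, 0, 0, 1], -200⟩, ⟨[-1, -1, 1, -1, -1, -1], 239700⟩, ⟨[-1, 0, -1, 0, -1, -1], 239700⟩, ⟨[-1, 0, 0, 0, -1, -1], -12360⟩, ⟨[-1, 0, -1, 1, -1, -1], 239700⟩, ⟨[0, -1, 0, 1, -1, -1], -8340⟩, ⟨[-1, -1, 1, -1, 0, -1], 239700⟩, ⟨[-1, 1, -1, 0, 0, -1], -8340⟩, ⟨[0, 0, -1, 1, 0, -1], -4320⟩, ⟨[0, 0, -1, -1, 1, -1], 239000⟩, ⟨[-1, 0, 1, -1, -1], -8340⟩, ⟨[0, -1, 1, 0, -1], -4320⟩, ⟨[-1, 1, 0, -1], -4320⟩, ⟨[1, -1, 0, 1], 3680⟩, ⟨[0, 1, -1, 0, 1], 3680⟩, ⟨[1, 0, -1, 1, 1], 7660⟩, ⟨[0, 0, 1, -1, 0,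 1], 3680⟩, ⟨[1, -1, 1, 0, 0, 1], 7660⟩, ⟨[0, 1, 0, -1, 1, 1], 7660⟩, ⟨[1, 0, 0, 0, 1, 1], 11640⟩], [0, 0, 0, 0, 0, 1], 0, none, (.ndet 0 [] (.ddet 0 [] (.ndet 0 [] (.ddet 0 [] (.ndet 0 [] s2_8_t11)))))⟩
def s2_8 : Sys := ⟨[(1, 2000)], [(3, -2000)], 6, [s2_8_n0, s2_8_n1, s2_8_n2, s2_8_n3, s2_8_n4, s2_8_n5], [-469577, -107797, 213416, 365780], (.ndet 0 [] (.ddet 0 [] (.ndet 0 [] (.ddet 0 [] (.leaf 5 [⟨1, []⟩, ⟨1, []⟩, ⟨1, []⟩, ⟨1, []⟩, ⟨1, []⟩, ⟨1, []⟩, ⟨1, []⟩, ⟨1, []⟩, ⟨1, []⟩, ⟨1, []⟩, ⟨1, []⟩, ⟨1, []⟩, ⟨1, []⟩, ⟨1, []⟩, ⟨1, []⟩, ⟨1, []⟩, ⟨1, []⟩, ⟨1, []⟩, ⟨1, []⟩, ⟨1, []⟩, ⟨1, []⟩, ⟨1, []⟩, ⟨1, []⟩, ⟨1, []⟩])))))⟩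

theorem s2_8_ok : s2_8.ok = true := by decide +kernel

def s4_2_n0 : Node := ⟨[⟨[1, 0, 0, -1], -200⟩, ⟨[1, 0, -1], -200⟩, ⟨[1, -1], -200⟩, ⟨[-1, -1, 1, -1], 239700⟩, ⟨[0, 1, 1, -1], 5680⟩, ⟨[0, -1, -1], 239700⟩, ⟨[1, 1, -1], 5680⟩, ⟨[-1, -1, 1], -6320⟩, ⟨[0, -1, -1, 1], -6320⟩, ⟨[0, 0, 1, 1], 239700⟩], [1], 0, none, (.ndet 0 [] (.ddet 0 [] (.ndet 0 [] (.ddet 0 [] (.ndet 0 [] (.ddet 0 [] (.ndet 0 [] (.ddet 0 [] (.leaf 0 [⟨1, [(6, 16), (4, 10), (3, 22), (0, 16)]⟩, ⟨1, [(6, 8), (4, 5), (3, 11), (0, 8)]⟩, ⟨1, [(6, 21), (4, 13), (3, 29), (0, 21)]⟩, ⟨1, [(6, 3), (4, 2), (3, 4), (0, 3)]⟩, ⟨1, []⟩, ⟨1, [(6, 3), (4, 2), (3, 4), (0, 3)]⟩, ⟨1,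 []⟩, ⟨1, []⟩, ⟨1, []⟩, ⟨1, [(6, 2), (4, 1), (3, 3), (0, 2)]⟩, ⟨1, [(6, 11), (4, 7), (3, 15), (0, 11)]⟩])))))))))⟩
def s4_2_n1 : Node := ⟨[⟨[0, 1, 0, -1], -200⟩, ⟨[0, 1, -1], -200⟩, ⟨[-1, 1], -200⟩, ⟨[-1, -1, 0, -1], 239700⟩, ⟨[0, 1, 1, -1], 5680⟩, ⟨[1, 1, -1], 5680⟩, ⟨[-1, -1, 1], -6320⟩, ⟨[0, -1, -1, 1], -6320⟩, ⟨[-1, -1, 1, 1], 239700⟩], [0, 1], 0, none, (.ndet 0 [] (.ddet 0 [] (.ndet 0 [] (.ddet 0 [] (.ndet 0 [] (.ddet 0 [] (.ndet 0 [] (.ddet 0 [] (.leaf 1 [⟨1, [(5, 5), (4, 3), (3, 11), (0, 8)]⟩, ⟨1, [(5, 13), (4, 8), (3, 29), (0, 21)]⟩, ⟨1, [(5, 21), (4, 13), (3, 47), (0, 34)]⟩, ⟨1, [(5, 2), (4, 1), (3, 4), (0, 3)]⟩, ⟨1, []⟩, ⟨1,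 []⟩, ⟨1, []⟩, ⟨1, []⟩, ⟨1, [(5, 3), (4, 2), (3, 7), (0, 5)]⟩, ⟨1, [(5, 7), (4, 4), (3, 15), (0, 11)]⟩])))))))))⟩
def s4_2 : Sys := ⟨[(2, 3000)], [(1, -3000)], 4, [s4_2_n0, s4_2_n1], [1673128, -1024233, 642895, -387338], (.leaf 0 [⟨1, []⟩, ⟨1, []⟩, ⟨1, []⟩, ⟨1, []⟩, ⟨1, []⟩, ⟨1, []⟩, ⟨1, []⟩, ⟨1, []⟩, ⟨1, []⟩, ⟨1, []⟩])⟩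

theorem s4_2_ok : s4_2.ok = true := by decide +kernel

def s7_11_n0 : Node := ⟨[⟨[1], 32⟩, ⟨[1, -1], 64⟩, ⟨[1], 16⟩, ⟨[1, 0, -1], 0⟩, ⟨[0, -1], 0⟩], [1], 0, none, (.ndet 1 [⟨1, [(4, 1)]⟩, ⟨1, [(3, 1)]⟩] (.ddet 1 [⟨1, [(4, 1)]⟩, ⟨1, [(1, 1)]⟩] (.ndet 2 [⟨1, [(4, 1)]⟩, ⟨1, [(4, 1)]⟩] (.ddet 1 [⟨1, []⟩, ⟨1, [(0, 1)]⟩] (.leaf 0 [⟨1, [(4, 1)]⟩, ⟨1, [(4, 1)]⟩, ⟨1, [(4, 1)]⟩, ⟨1, []⟩, ⟨1, []⟩, ⟨1, []⟩])))))⟩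
def s7_11 : Sys := ⟨[(0, -16), (1, 0), (2, 32)], [(0, -32), (1, 16), (3, -16)], 3, [s7_11_n0], [80, -16, 48, 0], (.leaf 0 [⟨1, []⟩, ⟨1, []⟩, ⟨1, []⟩, ⟨1, []⟩, ⟨1, []⟩])⟩

theorem s7_11_ok : s7_11.ok = true := by decide +kernel

def s8_21_n0 : Node := ⟨[⟨[0, 1], 40⟩, ⟨[0, 1, 0, -1], 40⟩, ⟨[-1], 8⟩, ⟨[0, 0, -1], 8⟩, ⟨[0, 2, -1], 96⟩, ⟨[-1, 1], 56⟩, ⟨[0, 1, -1], 56⟩], [0, 1], 0, none, (.ndet 0 [] (.ddet 1 [⟨1, [(6, 1)]⟩, ⟨1, [(5, 1)]⟩] (.ndet 0 [] (.ddet 0 [⟨1, [(4, 1)]⟩, ⟨1, [(3, 1)]⟩] (.ndet 0 [] (.ddet 2 [⟨1, [(6, 1)]⟩, ⟨1, [(2, 1)]⟩] (.leaf 0 [⟨1, [(6, 1)]⟩, ⟨1, [(1, 1)]⟩, ⟨1, [(1, 1)]⟩, ⟨1, [(0, 1)]⟩, ⟨1, [(6, 1), (2, 1)]⟩, ⟨1, [(6,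 1), (1, 1)]⟩, ⟨1, [(2, 1)]⟩, ⟨1, []⟩])))))))⟩
def s8_21 : Sys := ⟨[(3, 16)], [(0, 0), (2, -16), (4, -16)], 4, [s8_21_n0], [-32, 64, -32, -16], (.leaf 0 [⟨1, []⟩, ⟨1, []⟩, ⟨1, []⟩, ⟨1, []⟩, ⟨1, []⟩, ⟨1, []⟩, ⟨1, []⟩])⟩

theorem s8_21_ok : s8_21.ok = true := by decide +kernel

def s9_23_n0 : Node := ⟨[⟨[0, 0, -1], 32⟩, ⟨[1], -8⟩, ⟨[1, -1], 24⟩, ⟨[1, 0, 0, -1], 0⟩, ⟨[0, -1], 24⟩, ⟨[2], 0⟩, ⟨[1, 0, -1], 24⟩, ⟨[1], 0⟩, ⟨[1], 8⟩], [1], 0, none, (.ndet 0 [⟨1, [(8, 1)]⟩] (.ddet 1 [⟨1, [(0, 1)]⟩, ⟨1, [(4, 1), (0, 1)]⟩, ⟨1, [(5, 1)]⟩] (.ndet 0 [⟨1, [(4, 1)]⟩] (.ddet 2 [⟨1, [(0, 1)]⟩, ⟨1, [(0, 2)]⟩, ⟨1, [(8, 1), (0, 1)]⟩] (.ndet 1 [⟨1, [(0, 1)]⟩]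 (.ddet 0 [⟨1, [(0, 1)]⟩, ⟨1, [(0, 1)]⟩, ⟨1, [(4, 1)]⟩] (.leaf 0 [⟨1, [(0, 1)]⟩, ⟨1, [(0, 1)]⟩, ⟨1, [(0, 2)]⟩, ⟨1, []⟩, ⟨1, [(0, 1)]⟩, ⟨1, [(0, 2)]⟩, ⟨1, [(0, 2)]⟩, ⟨1, [(0, 1)]⟩, ⟨1, [(0, 1)]⟩, ⟨1, []⟩])))))))⟩
def s9_23 : Sys := ⟨[(0, -16), (3, 0)], [(0, -16), (1, 16), (2, 16), (4, 0)], 4, [s9_23_n0], [16, -32, -48, 0], (.leaf 0 [⟨1, []⟩, ⟨1, []⟩, ⟨1, []⟩, ⟨1, []⟩, ⟨1, []⟩, ⟨1, []⟩, ⟨1, []⟩, ⟨1, []⟩, ⟨1, []⟩])⟩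

theorem s9_23_ok : s9_23.ok = true := by decide +kernel

def s12_11_n0 : Node := ⟨[⟨[0, 1, -1], 16⟩, ⟨[-1], 24⟩, ⟨[0, 0, -1], 8⟩, ⟨[-1, 1], 72⟩, ⟨[0, 1], 8⟩], [0, 1], 0, none, (.ndet 0 [⟨1, [(4, 1)]⟩] (.ddet 0 [⟨1, [(3, 1)]⟩, ⟨1, [(2, 1)]⟩] (.ndet 1 [⟨1, [(1, 1)]⟩] (.ddet 1 [⟨1, [(0, 1)]⟩, ⟨1, []⟩] (.leaf 0 [⟨1, [(1, 1)]⟩, ⟨1, []⟩, ⟨1, [(3, 1)]⟩, ⟨1, [(0, 1)]⟩, ⟨1, [(0, 1)]⟩, ⟨1, []⟩])))))⟩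
def s12_11 : Sys := ⟨[(2, 32), (3, -16)], [(0, 0), (1, 0), (3, -16)], 3, [s12_11_n0], [-48, 48, -32, 0], (.leaf 0 [⟨1, []⟩, ⟨1, []⟩, ⟨1, []⟩, ⟨1, []⟩, ⟨1, []⟩])⟩

theorem s12_11_ok : s12_11.ok = true := by decide +kernel

def s13_18_t0 : Tree := .ddet 0 [⟨4, [(7, 2), (1, 1)]⟩] (.ndet 1 [⟨2, [(7, 1), (0, 1)]⟩, ⟨1, [(7, 1)]⟩] (.ddet 1 [⟨2, [(7, 1), (0, 1)]⟩] (.ndet 2 [⟨2, [(7, 1), (0, 1)]⟩, ⟨2, [(7, 1), (0, 3)]⟩] (.ddet 0 [⟨2, [(7, 1), (0, 1)]⟩] (.ndet 2 [⟨2, [(1, 1)]⟩, ⟨1, [(1, 1)]⟩] (.ddet 0 [⟨2, [(1, 1)]⟩] (.ndet 1 [⟨4, [(7, 2), (1, 1)]⟩, ⟨4, [(7, 2), (1, 3)]⟩] (.ddet 1 [⟨4, [(7, 2), (1, 1)]⟩] (.leaf 1 [⟨1, []⟩, ⟨1, []⟩, ⟨1, []⟩, ⟨1,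 []⟩, ⟨2, [(7, 1), (0, 3)]⟩, ⟨1, [(1, 1)]⟩, ⟨1, [(7, 1)]⟩, ⟨1, []⟩])))))))))
def s13_18_t1 : Tree := .ddet 0 [⟨3, [(6, 1), (0, 2)]⟩] (.ndet 1 [⟨3, [(6, 2), (0, 4)]⟩, ⟨1, [(6, 1), (0, 1)]⟩] (.ddet 1 [⟨3, [(6, 2), (0, 4)]⟩] (.ndet 2 [⟨3, [(6, 2), (0, 4)]⟩, ⟨1, [(6, 1), (0, 3)]⟩] (.ddet 0 [⟨3, [(6, 2), (0, 4)]⟩] (.ndet 1 [⟨3, [(6, 1), (0, 5)]⟩, ⟨3, [(6, 2), (0, 10)]⟩] (.ddet 1 [⟨3, [(6, 1), (0, 5)]⟩] (.ndet 1 [⟨3, [(7, 1), (6, 1)]⟩, ⟨1, [(7, 2)]⟩] (.ddet 1 [⟨1, [(7, 2)]⟩] (.leaf 0 [⟨1, []⟩, ⟨1, []⟩, ⟨1, []⟩, ⟨1, []⟩, ⟨3, [(6, 2), (0, 10)]⟩, ⟨1, [(7, 2)]⟩, ⟨1, [(6, 1), (0, 1)]⟩, ⟨1, [(0, 1)]⟩])))))))))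
def s13_18_t2 : Tree := .nbr (.cons (.prune [(5, 1), (1, 2), (0, 1)]) (.cons (.ddet 1 [⟨1, [(0, 1)]⟩] (.split [2, 0, -2] (-63024) (.leaf 0 [⟨1, []⟩, ⟨1, []⟩, ⟨1, []⟩, ⟨1, []⟩, ⟨1, [(0, 1)]⟩, ⟨1, [(1, 1)]⟩, ⟨1, [(6, 1)]⟩, ⟨1, []⟩]) (.split [-1, 0, 1] (16388) (.leaf 1 [⟨2, [(5, 1)]⟩, ⟨1, [(0, 1)]⟩, ⟨1, []⟩, ⟨1, []⟩, ⟨4, [(7, 2), (5, 3)]⟩, ⟨1, [(0, 2)]⟩, ⟨1, [(7, 1)]⟩, ⟨1, []⟩]) (.ndet 2 [⟨4, [(7, 2), (1, 1)]⟩, ⟨2, [(7, 2), (1, 1)]⟩] s13_18_t0)))) (.cons (.ddet 1 [⟨1, [(6, 1)]⟩] (.split [-1, 0, 2] (388) (.leaf 0 [⟨1, []⟩, ⟨1, []⟩, ⟨1, [(0, 1)]⟩, ⟨1, [(1, 1)]⟩, ⟨3, [(6, 2), (1, 10)]⟩, ⟨1, [(0, 2)]⟩, ⟨1, [(6, 1), (1, 1)]⟩, ⟨1, [(1, 1)]⟩])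 (.ndet 2 [⟨3, [(7, 1), (6, 1)]⟩, ⟨3, [(7, 2), (6, 2)]⟩] s13_18_t1))) .nil)))
def s13_18_t3 : Tree := .nbr (.cons (.prune [(1, 1), (0, 1)]) (.cons (.dbr (.cons (.ndet 1 [⟨2, [(3, 1), (0, 1)]⟩, ⟨2, [(3, 1), (0, 3)]⟩] (.ddet 1 [⟨2, [(3, 1), (0, 5)]⟩] (.leaf 1 [⟨1, [(1, 1)]⟩, ⟨1, [(0, 2)]⟩, ⟨1, []⟩, ⟨1, []⟩, ⟨4, [(3, 2), (1, 3)]⟩, ⟨1, [(0, 2)]⟩, ⟨1, [(3, 1)]⟩, ⟨1, []⟩]))) (.cons s13_18_t2 .nil))) (.cons (.dbr (.cons (.ndet 1 [⟨4, [(3, 2), (1, 1)]⟩, ⟨4, [(3, 2), (1, 3)]⟩] (.ddet 1 [⟨4, [(3, 2), (1, 1)]⟩] (.leaf 1 [⟨1, []⟩, ⟨1, []⟩, ⟨1, []⟩, ⟨1, []⟩, ⟨4, [(5, 3), (3, 2)]⟩, ⟨1, [(1, 1)]⟩, ⟨1, [(3, 1)]⟩, ⟨1, []⟩]))) (.cons (.ndet 1 [⟨4, [(3,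 2), (1, 1)]⟩, ⟨4, [(3, 2), (1, 3)]⟩] (.ddet 1 [⟨2, [(3, 1), (0, 1)]⟩] (.leaf 1 [⟨2, [(1, 1)]⟩, ⟨1, [(0, 1)]⟩, ⟨1, []⟩, ⟨1, []⟩, ⟨2, [(3, 1), (0, 3)]⟩, ⟨1, [(1, 1)]⟩, ⟨1, [(3, 1)]⟩, ⟨1, []⟩]))) .nil))) .nil)))
def s13_18_n0 : Node := ⟨[⟨[0, 1, 1], 15600⟩, ⟨[0, -1, -1], -16400⟩, ⟨[-1, -1, 0, 1], -400⟩, ⟨[1, 1, 0, -1], -400⟩, ⟨[2, 0, -2], 31000⟩, ⟨[-1, 0, 2], -1000⟩, ⟨[1, 0, 1], 960000⟩], [1, 0, 1], 0, none, (.ndet 2 [⟨3, [(1, 1), (0, 1)]⟩, ⟨3, [(5, 3), (1, 2), (0, 2)]⟩] (.ddet 0 [⟨3, [(5, 3), (3, 3), (1, 1), (0, 1)]⟩] (.ndet 1 [⟨4, [(2, 1), (0, 2)]⟩, ⟨1, [(5, 1), (0, 1)]⟩] (.ddet 1 [⟨4, [(2, 1), (0, 2)]⟩] (.ndet 2 [⟨4, [(2, 1), (0, 2)]⟩,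 ⟨4, [(2, 3), (0, 2)]⟩] (.ddet 0 [⟨4, [(5, 4), (2, 1), (0, 2)]⟩] s13_18_t3))))))⟩
def s13_18_t4 : Tree := .ddet 0 [⟨4, [(6, 1), (5, 2)]⟩] (.ndet 1 [⟨2, [(5, 1), (0, 1)]⟩, ⟨1, [(5, 1)]⟩] (.ddet 1 [⟨2, [(5, 1), (0, 1)]⟩] (.ndet 2 [⟨2, [(5, 1), (0, 1)]⟩, ⟨2, [(5, 1), (0, 3)]⟩] (.ddet 0 [⟨2, [(5, 1), (0, 1)]⟩] (.ndet 2 [⟨2, [(6, 1)]⟩, ⟨1, [(6, 1)]⟩] (.ddet 0 [⟨2, [(6, 1)]⟩] (.ndet 1 [⟨4, [(6, 1), (5, 2)]⟩, ⟨4, [(6, 3), (5, 2)]⟩] (.ddet 1 [⟨4, [(6, 1), (5, 2)]⟩] (.leaf 1 [⟨1, []⟩, ⟨1, []⟩, ⟨1, []⟩, ⟨1, []⟩, ⟨2, [(5, 1), (0, 3)]⟩, ⟨1, [(6, 1)]⟩, ⟨1, [(5, 1)]⟩, ⟨1, []⟩])))))))))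
def s13_18_t5 : Tree := .dbr (.cons (.ndet 1 [⟨2, [(4, 1), (0, 1)]⟩, ⟨2, [(4, 1), (0, 3)]⟩] (.ddet 1 [⟨2, [(4, 1), (0, 5)]⟩] (.leaf 1 [⟨1, [(1, 1)]⟩, ⟨1, [(0, 2)]⟩, ⟨1, []⟩, ⟨1, []⟩, ⟨4, [(4, 2), (1, 3)]⟩, ⟨1, [(0, 2)]⟩, ⟨1, [(4, 1)]⟩, ⟨1, []⟩]))) (.cons (.ndet 1 [⟨4, [(5, 1), (4, 2)]⟩, ⟨4, [(5, 3), (4, 2)]⟩] (.ddet 1 [⟨4, [(5, 3), (4, 2)]⟩] (.split [-1, 0, 1] (16388) (.leaf 1 [⟨2, [(2, 1)]⟩, ⟨1, [(0, 1)]⟩, ⟨1, []⟩, ⟨1, []⟩, ⟨4, [(5, 2), (2, 3)]⟩, ⟨1, [(0, 2)]⟩, ⟨1, [(5, 1)]⟩, ⟨1, []⟩]) (.ndet 2 [⟨4, [(6, 1), (5, 2)]⟩, ⟨2, [(6, 1), (5, 2)]⟩] s13_18_t4)))) .nil))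
def s13_18_t6 : Tree := .ddet 0 [⟨3, [(8, 1), (0, 1)]⟩] (.ndet 1 [⟨3, [(8, 2), (0, 2)]⟩, ⟨1, [(8, 1)]⟩] (.ddet 1 [⟨3, [(8, 2), (0, 2)]⟩] (.ndet 2 [⟨3, [(8, 2), (0, 2)]⟩, ⟨1, [(8, 1), (0, 2)]⟩] (.ddet 0 [⟨3, [(8, 2), (0, 2)]⟩] (.ndet 1 [⟨3, [(8, 1), (0, 4)]⟩, ⟨3, [(8, 2), (0, 8)]⟩] (.ddet 1 [⟨3, [(8, 1), (0, 4)]⟩] (.ndet 1 [⟨3, [(8, 1), (3, 2)]⟩, ⟨1, [(3, 2)]⟩] (.ddet 1 [⟨1, [(3, 2)]⟩] (.leaf 0 [⟨1, []⟩, ⟨1, []⟩, ⟨1, []⟩, ⟨1, []⟩, ⟨3, [(8, 2), (0, 8)]⟩, ⟨1, [(3, 2)]⟩, ⟨1, [(8, 1)]⟩, ⟨1, []⟩])))))))))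
def s13_18_t7 : Tree := .ddet 1 [⟨3, [(11, 1), (5, 1), (4, 1)]⟩] (.nbr (.cons (.prune [(7, 1), (1, 1), (0, 2)]) (.cons (.ddet 1 [⟨1, [(0, 1)]⟩] (.leaf 0 [⟨1, []⟩, ⟨1, []⟩, ⟨1, []⟩, ⟨1, []⟩, ⟨3, [(13, 2), (7, 2), (6, 2)]⟩, ⟨1, [(0, 1)]⟩, ⟨1, [(7, 1), (0, 1)]⟩, ⟨1, [(0, 1)]⟩])) (.cons (.ddet 1 [⟨1, [(2, 1)]⟩] (.split [-2, 0, 1] (16360) (.leaf 0 [⟨1, []⟩, ⟨1, []⟩, ⟨1, [(0, 1)]⟩, ⟨1, [(1, 1)]⟩, ⟨3, [(8, 2), (1, 8)]⟩, ⟨1, [(0, 2)]⟩, ⟨1, [(8, 1)]⟩, ⟨1, []⟩]) (.ndet 2 [⟨3, [(8, 1), (3, 2)]⟩, ⟨3, [(8, 2), (3, 4)]⟩] s13_18_t6))) .nil))))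
def s13_18_t8 : Tree := .dbr (.cons (.ndet 1 [⟨4, [(4, 2), (1, 1)]⟩, ⟨4, [(4, 2), (1, 3)]⟩] (.ddet 1 [⟨4, [(4, 2), (1, 1)]⟩] (.split [2, 0, -1] (-31020) (.leaf 1 [⟨1, []⟩, ⟨1, []⟩, ⟨1, []⟩, ⟨1, []⟩, ⟨1, [(0, 1)]⟩, ⟨1, [(2, 1)]⟩, ⟨1, [(5, 1)]⟩, ⟨1, []⟩]) (.ndet 2 [⟨3, [(5, 2), (0, 1)]⟩, ⟨1, [(5, 1)]⟩] (.ddet 0 [⟨3, [(5, 2), (0, 1)]⟩] (.ndet 1 [⟨3, [(11, 1), (5, 1), (4, 1)]⟩, ⟨3, [(11, 2), (5, 2), (4, 2)]⟩] s13_18_t7)))))) (.cons (.ndet 1 [⟨4, [(4, 2), (1, 1)]⟩, ⟨4, [(4, 2), (1, 3)]⟩] (.ddet 1 [⟨2, [(4, 1), (0, 1)]⟩] (.leaf 1 [⟨2, [(1, 1)]⟩, ⟨1, [(0, 1)]⟩, ⟨1, []⟩, ⟨1, []⟩, ⟨2, [(4, 1), (0, 3)]⟩, ⟨1, [(1, 1)]⟩, ⟨1, [(4, 1)]⟩, ⟨1, []⟩])))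 .nil))
def s13_18_t9 : Tree := .ddet 0 [⟨3, [(9, 1), (4, 1), (0, 2)]⟩] (.ndet 1 [⟨3, [(9, 2), (4, 2), (0, 4)]⟩, ⟨1, [(9, 1), (4, 1), (0, 1)]⟩] (.ddet 1 [⟨3, [(9, 2), (4, 2), (0, 4)]⟩] (.ndet 2 [⟨3, [(9, 2), (4, 2), (0, 4)]⟩, ⟨1, [(9, 1), (4, 1), (0, 3)]⟩] (.ddet 0 [⟨3, [(9, 2), (4, 2), (0, 4)]⟩] (.ndet 1 [⟨3, [(9, 1), (4, 1), (0, 5)]⟩, ⟨3, [(9, 2), (4, 2), (0, 10)]⟩] (.ddet 1 [⟨3, [(9, 1), (4, 1), (0, 5)]⟩] (.ndet 1 [⟨3, [(9, 2), (4, 1), (3, 2)]⟩, ⟨1, [(9, 2), (3, 4)]⟩] (.ddet 1 [⟨1, [(9, 2), (3, 4)]⟩] (.leaf 0 [⟨1, []⟩, ⟨1, []⟩, ⟨1, []⟩, ⟨1, []⟩, ⟨3, [(9, 2), (4, 2), (0, 10)]⟩, ⟨1, [(9, 2), (3, 4)]⟩, ⟨1, [(9, 1), (4, 1), (0, 1)]⟩,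 ⟨1, [(9, 1), (0, 1)]⟩])))))))))
def s13_18_t10 : Tree := .ddet 1 [⟨3, [(6, 3), (3, 4), (1, 1)]⟩] (.nbr (.cons (.prune [(8, 1), (3, 1), (1, 2), (0, 1)]) (.cons (.ddet 1 [⟨1, [(0, 1)]⟩] (.leaf 0 [⟨1, []⟩, ⟨1, []⟩, ⟨1, []⟩, ⟨1, []⟩, ⟨3, [(8, 6), (5, 8), (3, 2)]⟩, ⟨1, [(0, 1)]⟩, ⟨1, [(8, 1), (3, 1)]⟩, ⟨1, [(8, 1)]⟩])) (.cons (.ddet 1 [⟨1, [(8, 1), (2, 2)]⟩] (.split [-3, 1, 2] (16370) (.leaf 0 [⟨1, []⟩, ⟨1, []⟩, ⟨1, [(0, 1)]⟩, ⟨1, [(1, 1)]⟩, ⟨3, [(9, 2), (4, 2), (1, 10)]⟩, ⟨1, [(0, 2)]⟩, ⟨1, [(9, 1), (4, 1), (1, 1)]⟩, ⟨1, [(9, 1), (1, 1)]⟩]) (.ndet 2 [⟨3, [(9, 2), (4, 1), (3, 2)]⟩, ⟨3, [(9, 4), (4, 2), (3, 4)]⟩] s13_18_t9))) .nil))))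
def s13_18_t11 : Tree := .dbr (.cons (.nbr (.cons (.prune [(1, 1), (0, 1)]) (.cons s13_18_t5 (.cons s13_18_t8 .nil)))) (.cons (.ndet 2 [⟨3, [(6, 2), (1, 1), (0, 2)]⟩, ⟨3, [(6, 4), (1, 2), (0, 4)]⟩] (.ddet 0 [⟨3, [(6, 3), (3, 1), (1, 1)]⟩] (.ndet 1 [⟨3, [(6, 3), (3, 2), (1, 2)]⟩, ⟨1, [(6, 1), (1, 1)]⟩] (.ddet 1 [⟨3, [(6, 3), (3, 2), (1, 2)]⟩] (.ndet 2 [⟨3, [(6, 3), (3, 2), (1, 2)]⟩, ⟨1, [(6, 2), (3, 2), (1, 1)]⟩] (.ddet 0 [⟨3, [(6, 3), (3, 2), (1, 2)]⟩] (.ndet 1 [⟨3, [(6, 3), (3, 4), (1, 1)]⟩, ⟨3, [(6, 6), (3, 8), (1, 2)]⟩] s13_18_t10))))))) .nil))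
def s13_18_n1 : Node := ⟨[⟨[1, 1], 15600⟩, ⟨[-1, -1], -16400⟩, ⟨[-1, 0, 1, 1], 15600⟩, ⟨[1, 0, -1, -1], -16400⟩, ⟨[2, 0, -1], 15000⟩, ⟨[-2, 0, 2], -33000⟩, ⟨[1, 0, 1], 960000⟩], [1, 0, 1], 0, none, (.ndet 2 [⟨4, [(1, 1), (0, 2)]⟩, ⟨1, [(5, 1), (0, 1)]⟩] (.ddet 0 [⟨4, [(3, 4), (1, 1), (0, 2)]⟩] (.ndet 1 [⟨3, [(2, 1), (0, 1)]⟩, ⟨3, [(5, 3), (2, 2), (0, 2)]⟩] (.ddet 1 [⟨3, [(2, 1), (0, 1)]⟩] (.ndet 2 [⟨3, [(2, 1), (0, 1)]⟩, ⟨1, [(2, 1)]⟩] s13_18_t11)))))⟩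
def s13_18 : Sys := ⟨[(0, 0), (2, 0), (3, 16000)], [(1, 0), (4, 0)], 4, [s13_18_n0, s13_18_n1], [6720000, -4304000, 4320000, 2416000], (.leaf 0 [⟨1, []⟩, ⟨1, []⟩, ⟨1, []⟩, ⟨1, []⟩, ⟨1, []⟩, ⟨1, []⟩, ⟨1, []⟩])⟩

theorem s13_18_ok : s13_18.ok = true := by decide +kernel

def s15_8_t0 : Tree := .nbr (.cons (.prune [(22, 1), (12, 1), (0, 1)]) (.cons (.ddet 0 [] (.ndet 2 [⟨1, [(22, 1), (13, 1)]⟩, ⟨1, [(22, 1), (12, 1)]⟩, ⟨1, [(22, 1), (10, 1)]⟩] (.ddet 0 [] (.leaf 0 [⟨1, [(22, 1), (7, 1)]⟩, ⟨2, [(21, 1), (7, 1)]⟩, ⟨1, [(22, 1), (9, 1)]⟩, ⟨2, [(20, 1), (6, 1)]⟩, ⟨2, [(21, 1), (7, 1)]⟩, ⟨2, [(21, 1), (7, 1), (0, 2)]⟩, ⟨1, [(15, 1)]⟩, ⟨1, [(22,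 1), (9, 1)]⟩, ⟨1, []⟩, ⟨1, [(0, 1)]⟩, ⟨2, [(20, 1), (6, 1)]⟩, ⟨2, [(21, 1), (7, 1)]⟩, ⟨2, [(21, 1), (7, 1), (0, 2)]⟩, ⟨1, [(15, 1)]⟩, ⟨1, [(0, 1)]⟩, ⟨1, [(15, 1)]⟩, ⟨1, []⟩, ⟨1, [(0, 1)]⟩, ⟨1, [(15, 1), (3, 1)]⟩, ⟨1, [(3, 1)]⟩, ⟨1, [(3, 1), (0, 1)]⟩, ⟨1, [(15, 1), (3, 2)]⟩, ⟨1, [(3, 2)]⟩, ⟨1, [(3, 2), (0, 1)]⟩, ⟨2, [(21, 1), (7, 1), (0, 2)]⟩])))) (.cons (.prune [(22, 2), (12, 1), (6, 1), (0, 2)]) (.cons (.ddet 0 [] (.ndet 2 [⟨1, [(22, 1), (13, 1)]⟩, ⟨1, [(22, 1), (13, 1)]⟩, ⟨1, [(22, 1), (10, 1)]⟩] (.ddet 0 [] (.leaf 0 [⟨1, [(22, 1), (7, 1)]⟩, ⟨2, [(21, 1), (7, 1)]⟩, ⟨1, [(22, 1), (10, 1)]⟩, ⟨2, [(21, 1), (7, 1)]⟩, ⟨2, [(21, 1), (7,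 1)]⟩, ⟨2, [(21, 1), (7, 1)]⟩, ⟨1, []⟩, ⟨1, [(22, 1), (10, 1)]⟩, ⟨1, []⟩, ⟨1, []⟩, ⟨2, [(21, 1), (7, 1)]⟩, ⟨2, [(21, 1), (7, 1)]⟩, ⟨2, [(21, 1), (7, 1)]⟩, ⟨1, []⟩, ⟨1, []⟩, ⟨1, []⟩, ⟨1, []⟩, ⟨1, []⟩, ⟨1, [(3, 1)]⟩, ⟨1, [(3, 1)]⟩, ⟨1, [(3, 1)]⟩, ⟨1, [(3, 2)]⟩, ⟨1, [(3, 2)]⟩, ⟨1, [(3, 2)]⟩, ⟨2, [(23, 1), (8, 1)]⟩])))) .nil))))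
def s15_8_t1 : Tree := .nbr (.cons (.prune [(1, 1)]) (.cons (.ddet 0 [] (.ndet 2 [⟨1, [(22, 1), (13, 1)]⟩, ⟨1, [(22, 1), (12, 1)]⟩, ⟨1, [(22, 1), (13, 1)]⟩] (.ddet 0 [] (.leaf 0 [⟨1, [(22, 1), (13, 1)]⟩, ⟨1, []⟩, ⟨1, [(22, 1), (12, 1)]⟩, ⟨1, [(15, 1)]⟩, ⟨1, []⟩, ⟨1, [(0, 1)]⟩, ⟨1, [(15, 1)]⟩, ⟨1, [(22, 1), (12, 1)]⟩, ⟨1, []⟩, ⟨1, [(0, 1)]⟩, ⟨1, [(15, 1)]⟩, ⟨1, []⟩, ⟨1, [(0, 1)]⟩, ⟨1, [(15, 1)]⟩, ⟨1, [(0, 1)]⟩, ⟨1, [(15, 1)]⟩, ⟨1, []⟩, ⟨1, [(0, 1)]⟩, ⟨1, [(15, 1)]⟩, ⟨1, []⟩, ⟨1, [(0, 1)]⟩, ⟨1, [(15, 1)]⟩, ⟨1, []⟩, ⟨1, [(0, 1)]⟩, ⟨1, [(0, 1)]⟩])))) (.cons (.prune [(22, 1), (12, 1), (0, 1)]) (.cons (.ddet 0 [] (.ndet 2 [⟨1, [(22, 1), (13,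 1)]⟩, ⟨1, [(22, 1), (13, 1)]⟩, ⟨1, [(22, 1), (13, 1)]⟩] (.ddet 0 [] (.leaf 0 [⟨1, [(22, 1), (13, 1)]⟩, ⟨1, []⟩, ⟨1, [(22, 1), (13, 1)]⟩, ⟨1, []⟩, ⟨1, []⟩, ⟨1, []⟩, ⟨1, []⟩, ⟨1, [(22, 1), (13, 1)]⟩, ⟨1, []⟩, ⟨1, []⟩, ⟨1, []⟩, ⟨1, []⟩, ⟨1, []⟩, ⟨1, []⟩, ⟨1, []⟩, ⟨1, []⟩, ⟨1, []⟩, ⟨1, []⟩, ⟨1, []⟩, ⟨1, []⟩, ⟨1, []⟩, ⟨1, []⟩, ⟨1, []⟩, ⟨1, []⟩, ⟨1, [(16, 1)]⟩])))) .nil))))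
def s15_8_t2 : Tree := .nbr (.cons (.prune [(19, 1), (9, 1), (2, 1)]) (.cons (.ddet 0 [] (.ndet 2 [⟨1, [(19, 1), (9, 1)]⟩, ⟨1, [(19, 1), (6, 1)]⟩, ⟨1, [(19, 1), (10, 1)]⟩] (.ddet 0 [] s15_8_t0))) (.cons (.prune [(19, 2), (11, 1), (9, 1), (1, 2)]) (.cons (.ddet 0 [] (.ndet 2 [⟨1, [(19, 1), (9, 1)]⟩, ⟨1, [(19, 1), (9, 1)]⟩, ⟨1, [(19, 1), (10, 1)]⟩] (.ddet 0 [] s15_8_t1))) .nil))))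
def s15_8_n0 : Node := ⟨[⟨[1, 0, 0, -1], -200⟩, ⟨[1, 0, -1], -200⟩, ⟨[1, -1], -200⟩, ⟨[0, -1, 0, -1], -4420⟩, ⟨[0, 0, 0, -1], -2360⟩, ⟨[0, 1, 0, -1], -380⟩, ⟨[-1, -1, 1, -1], -5380⟩, ⟨[0, -1, 1, -1], 179700⟩, ⟨[-1, 0, 1, -1], -3320⟩, ⟨[-1, 1, 1, -1], -1340⟩, ⟨[1, -1, -1], -1400⟩, ⟨[1, 0, -1], 620⟩, ⟨[1, 1, -1], 2600⟩, ⟨[0, -1], -2360⟩, ⟨[0, 1], 1680⟩, ⟨[1, -1, -1, 1], 620⟩, ⟨[1, 0, -1, 1], 2680⟩, ⟨[1, 1, -1, 1], 4660⟩, ⟨[0, -1, 0, 1], -380⟩, ⟨[0, 0, 0, 1], 1680⟩, ⟨[0, 1, 0, 1], 3660⟩, ⟨[-1, -1, 1, 1], -1420⟩, ⟨[-1, 0, 1, 1], 640⟩, ⟨[-1, 1, 1, 1], 2620⟩], [1], 0, none, s15_8_t2⟩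
def s15_8_t3 : Tree := .ddet 0 [] (.ndet 2 [⟨1, [(21, 1), (7, 1)]⟩, ⟨1, [(18, 1), (7, 1)]⟩, ⟨1, [(22, 1), (7, 1)]⟩] (.ddet 0 [] (.nbr (.cons (.prune [(28, 2), (23, 1), (21, 1), (10, 4), (2, 4)]) (.cons (.ddet 0 [] (.leaf 1 [⟨1, [(0, 1)]⟩, ⟨1, [(22, 1), (10, 1)]⟩, ⟨1, [(24, 1), (10, 1)]⟩, ⟨1, [(14, 1)]⟩, ⟨1, [(14, 1), (0, 1)]⟩, ⟨1, [(14, 1), (0, 2)]⟩, ⟨1, []⟩, ⟨1, [(0, 1)]⟩, ⟨1, [(0, 2)]⟩, ⟨1, [(3, 1)]⟩, ⟨1, [(3, 1), (0, 1)]⟩, ⟨1, [(3, 1), (0, 2)]⟩, ⟨1, [(13, 1)]⟩, ⟨1, [(14, 1)]⟩, ⟨1, [(14, 1), (0, 1)]⟩, ⟨1, [(16, 1)]⟩, ⟨1, [(0, 1)]⟩, ⟨1, [(16, 1), (3, 1)]⟩, ⟨1, [(3, 1)]⟩, ⟨1, [(3, 1), (0, 1)]⟩, ⟨1, [(13, 1)]⟩, ⟨1, [(14, 1)]⟩, ⟨1, [(21,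 1), (16, 1), (10, 1)]⟩, ⟨1, [(16, 1)]⟩, ⟨1, []⟩, ⟨1, [(16, 1), (3, 1)]⟩, ⟨1, [(3, 1)]⟩, ⟨1, [(3, 1), (0, 1)]⟩])) (.cons (.prune [(23, 1), (21, 1), (10, 2), (1, 2)]) (.cons (.ddet 0 [] (.leaf 1 [⟨1, [(17, 1)]⟩, ⟨1, [(23, 1), (10, 1), (1, 1)]⟩, ⟨1, [(25, 1), (10, 1)]⟩, ⟨1, [(15, 1)]⟩, ⟨1, [(15, 1)]⟩, ⟨1, [(15, 1)]⟩, ⟨1, [(17, 1)]⟩, ⟨1, [(17, 1)]⟩, ⟨1, [(17, 1)]⟩, ⟨1, [(17, 1), (3, 1)]⟩, ⟨1, [(17, 1), (3, 1)]⟩, ⟨1, [(17, 1), (3, 1)]⟩, ⟨1, [(14, 1)]⟩, ⟨1, [(14, 1)]⟩, ⟨1, [(14, 1)]⟩, ⟨1, []⟩, ⟨1, []⟩, ⟨1, [(3, 1)]⟩, ⟨1, [(3, 1)]⟩, ⟨1, [(3, 1)]⟩, ⟨1, [(14, 1), (1, 1)]⟩, ⟨1, [(14, 1), (1, 1)]⟩, ⟨1, [(23, 1), (10, 1), (1, 2)]⟩, ⟨1, [(1, 1)]⟩,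 ⟨1, [(1, 1)]⟩, ⟨1, [(3, 1), (1, 1)]⟩, ⟨1, [(3, 1), (1, 1)]⟩, ⟨1, [(17, 1), (3, 1)]⟩])) .nil)))))))
def s15_8_t4 : Tree := .ddet 0 [] (.ndet 2 [⟨1, [(21, 1), (7, 1)]⟩, ⟨1, [(21, 1), (7, 1)]⟩, ⟨1, [(22, 1), (7, 1)]⟩] (.ddet 0 [] (.nbr (.cons (.prune [(1, 1)]) (.cons (.ddet 0 [] (.leaf 1 [⟨1, [(0, 1)]⟩, ⟨1, [(25, 1), (10, 1)]⟩, ⟨1, [(24, 1), (10, 1)]⟩, ⟨1, []⟩, ⟨1, [(0, 1)]⟩, ⟨1, [(0, 2)]⟩, ⟨1, []⟩, ⟨1, [(0, 1)]⟩, ⟨1, [(0, 2)]⟩, ⟨1, []⟩, ⟨1, [(0, 1)]⟩, ⟨1, [(0, 2)]⟩, ⟨1, [(16, 1)]⟩, ⟨1, []⟩, ⟨1, [(0, 1)]⟩, ⟨1, [(16, 1)]⟩, ⟨1, [(0, 1)]⟩, ⟨1, [(16, 1)]⟩, ⟨1, []⟩, ⟨1, [(0, 1)]⟩, ⟨1, [(16, 1)]⟩, ⟨1, []⟩, ⟨1, [(24, 1), (16, 1), (10, 1)]⟩, ⟨1,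 [(16, 1)]⟩, ⟨1, []⟩, ⟨1, [(16, 1)]⟩, ⟨1, []⟩, ⟨1, [(19, 1), (0, 1)]⟩])) (.cons (.prune [(28, 2), (23, 1), (21, 1), (10, 4), (1, 4)]) (.cons (.ddet 0 [] (.leaf 1 [⟨1, [(17, 1)]⟩, ⟨1, [(25, 1), (10, 1)]⟩, ⟨1, [(25, 1), (10, 1)]⟩, ⟨1, [(17, 1)]⟩, ⟨1, [(17, 1)]⟩, ⟨1, [(17, 1)]⟩, ⟨1, [(17, 1)]⟩, ⟨1, [(17, 1)]⟩, ⟨1, [(17, 1)]⟩, ⟨1, [(17, 1)]⟩, ⟨1, [(17, 1)]⟩, ⟨1, [(17, 1)]⟩, ⟨1, []⟩, ⟨1, []⟩, ⟨1, []⟩, ⟨1, []⟩, ⟨1, []⟩, ⟨1, []⟩, ⟨1, []⟩, ⟨1, []⟩, ⟨1, [(1, 1)]⟩, ⟨1, [(1, 1)]⟩, ⟨1, [(25, 1), (10, 1), (1, 1)]⟩, ⟨1, [(1, 1)]⟩, ⟨1, [(1, 1)]⟩, ⟨1, [(1, 1)]⟩, ⟨1, [(1, 1)]⟩, ⟨1, [(20, 1)]⟩])) .nil)))))))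
def s15_8_n1 : Node := ⟨[⟨[0, 1, 0, -1], -200⟩, ⟨[0, 1, -1], -200⟩, ⟨[-1, 1], -200⟩, ⟨[-1, 1, -1, -1], -3420⟩, ⟨[0, 1, -1, -1], -1400⟩, ⟨[1, 1, -1, -1], 580⟩, ⟨[-1, 1, 0, -1], -1400⟩, ⟨[0, 1, 0, -1], 620⟩, ⟨[1, 1, 0, -1], 2600⟩, ⟨[-1, 1, 1, -1], 617⟩, ⟨[0, 1, 1, -1], 2600⟩, ⟨[1, 1, 1, -1], 4580⟩, ⟨[-1, 0, -1], -4420⟩, ⟨[0, 0, -1], -2360⟩, ⟨[1, 0, -1], -380⟩, ⟨[-1], -2360⟩, ⟨[1], 1680⟩, ⟨[-1, 0, 1], -380⟩, ⟨[0, 0, 1], 1680⟩, ⟨[1, 0, 1], 3660⟩, ⟨[0, -1, -1, 1], -3400⟩, ⟨[1, -1, -1, 1], -1369⟩, ⟨[-1, 0, -1, 1], 179700⟩, ⟨[0, -1, 0, 1], -1340⟩, ⟨[1, -1, 0, 1], 680⟩, ⟨[0, -1, 1, 1], 640⟩, ⟨[1, -1, 1, 1], 2660⟩], [0, 1], 0, none, (.ndet 2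 [⟨1, [(15, 1), (4, 1)]⟩, ⟨1, [(16, 1), (4, 1)]⟩, ⟨1, [(18, 1), (4, 1)]⟩] (.ddet 0 [] (.nbr (.cons (.prune [(24, 1), (18, 1), (7, 2), (2, 2)]) (.cons s15_8_t3 (.cons (.prune [(25, 2), (20, 1), (18, 1), (7, 4), (1, 4)]) (.cons s15_8_t4 .nil)))))))⟩
def s15_8 : Sys := ⟨[(0, 0), (1, 0), (2, 2000), (3, 1000)], [(3, -1000)], 4, [s15_8_n0, s15_8_n1], [185000, 2000, 184000, 2000], (.leaf 0 [⟨1, []⟩, ⟨1, []⟩, ⟨1, []⟩, ⟨1, []⟩, ⟨1, []⟩, ⟨1, []⟩, ⟨1, []⟩, ⟨1, []⟩, ⟨1, []⟩, ⟨1, []⟩, ⟨1, []⟩, ⟨1, []⟩, ⟨1, []⟩, ⟨1, []⟩, ⟨1, []⟩, ⟨1, []⟩, ⟨1, []⟩, ⟨1, []⟩, ⟨1, []⟩, ⟨1, []⟩, ⟨1, []⟩, ⟨1, []⟩, ⟨1, []⟩, ⟨1, []⟩])⟩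

theorem s15_8_ok : s15_8.ok = true := by decide +kernel

def s15_9_n0 : Node := ⟨[⟨[0, 1], 72⟩, ⟨[-1, 1], 24⟩, ⟨[0, 1, -1], -24⟩, ⟨[0, 0, -1], -304⟩, ⟨[0, 1], 192⟩, ⟨[-1, 1], 280⟩, ⟨[0, 1], 424⟩, ⟨[-1], -264⟩], [0, 1], 0, none, (.ndet 2 [⟨1, [(1, 1)]⟩, ⟨1, [(2, 1)]⟩, ⟨1, [(4, 1), (1, 1)]⟩] (.ddet 0 [⟨1, [(4, 1)]⟩] (.ndet 1 [⟨1, [(1, 1)]⟩, ⟨1, [(2, 1)]⟩, ⟨1, []⟩] (.ddet 1 [⟨1, [(1, 1)]⟩] (.leaf 0 [⟨1, [(1, 1)]⟩, ⟨1, [(1, 1)]⟩, ⟨1, [(2, 1)]⟩, ⟨1, [(0, 1)]⟩, ⟨1, [(1, 1)]⟩, ⟨1, [(1, 1)]⟩, ⟨1, [(1, 1)]⟩, ⟨1, []⟩, ⟨1, []⟩])))))⟩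
def s15_9 : Sys := ⟨[(0, -160), (1, -80), (2, 192), (3, -96)], [(0, 160), (3, -192)], 3, [s15_9_n0], [176, 496, 256, 0], (.leaf 0 [⟨1, []⟩, ⟨1, []⟩, ⟨1, []⟩, ⟨1, []⟩, ⟨1, []⟩, ⟨1, []⟩, ⟨1, []⟩, ⟨1, []⟩])⟩

theorem s15_9_ok : s15_9.ok = true := by decide +kernel

def s16_5_n0 : Node := ⟨[⟨[0, 1], -40⟩, ⟨[1], 40⟩, ⟨[0, 1, 0, -1], 56⟩, ⟨[1, 0, -1], 112⟩], [1], 0, none, (.ndet 0 [] (.ddet 1 [⟨1, [(3, 1)]⟩] (.ndet 0 [] (.ddet 1 [⟨1, [(2, 1)]⟩] (.ndet 0 [] (.ddet 0 [⟨1, [(1, 1)]⟩] (.ndet 0 [] (.ddet 0 [⟨1, [(0, 1)]⟩] (.leaf 0 [⟨1, [(3, 1)]⟩, ⟨1, [(2, 1)]⟩, ⟨1, [(3, 1), (1, 1)]⟩, ⟨1, [(2, 1), (0, 1)]⟩, ⟨1, []⟩])))))))))⟩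
def s16_5 : Sys := ⟨[(4, 48)], [(0, 0), (2, 48)], 4, [s16_5_n0], [128, -32, -48, -96], (.leaf 0 [⟨1, []⟩, ⟨1, []⟩, ⟨1, []⟩, ⟨1, []⟩])⟩

theorem s16_5_ok : s16_5.ok = true := by decide +kernel

def s16_14_n0 : Node := ⟨[⟨[1, -1], 40⟩, ⟨[1, 0, -1], 0⟩, ⟨[2, 0, 0, -1], 0⟩, ⟨[1, -1], 144⟩, ⟨[2, 0, -1], 40⟩, ⟨[2, 0, 0, -1], -104⟩, ⟨[0, -1, 1], 104⟩, ⟨[0, 0, 1, -1], -40⟩, ⟨[1, 0, -1], 24⟩], [1], 0, none, (.ndet 0 [] (.ddet 0 [⟨1, [(5, 1)]⟩, ⟨1, [(0, 1)]⟩] (.ndet 0 [] (.ddet 1 [⟨1, [(6, 1)]⟩, ⟨1, [(5, 1)]⟩] (.ndet 0 [] (.ddet 2 [⟨1, [(4, 1)]⟩, ⟨1, [(6, 1)]⟩] (.ndet 0 [] (.ddet 1 [⟨1, [(2, 1)]⟩, ⟨1, [(1, 1)]⟩] (.leaf 0 [⟨1, [(5, 1), (4, 1)]⟩,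 ⟨1, [(4, 1), (0, 1)]⟩, ⟨1, [(6, 1), (4, 1), (0, 1)]⟩, ⟨1, [(5, 1), (4, 1)]⟩, ⟨1, [(4, 2), (0, 1)]⟩, ⟨1, [(6, 1), (4, 1), (0, 1)]⟩, ⟨1, [(2, 1)]⟩, ⟨1, [(1, 1)]⟩, ⟨1, [(4, 1), (0, 1)]⟩, ⟨1, [(0, 1)]⟩])))))))))⟩
def s16_14 : Sys := ⟨[(4, 16)], [(1, 176), (2, 48), (3, 128)], 4, [s16_14_n0], [16, -192, -32, 0], (.leaf 0 [⟨1, []⟩, ⟨1, []⟩, ⟨1, []⟩, ⟨1, []⟩, ⟨1, []⟩, ⟨1, []⟩, ⟨1, []⟩, ⟨1, []⟩, ⟨1, []⟩])⟩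

theorem s16_14_ok : s16_14.ok = true := by decide +kernel

def s18_8_t0 : Tree := .ddet 0 [] (.ndet 1 [⟨1, [(1, 1)]⟩] (.ddet 0 [] (.ndet 0 [⟨1, [(3, 1)]⟩] (.ddet 0 [] (.ndet 1 [⟨1, [(0, 1)]⟩] (.ddet 0 [] (.ndet 0 [⟨1, [(1, 1)]⟩] (.ddet 0 [] (.leaf 0 [⟨1, [(3, 1)]⟩, ⟨1, [(0, 1)]⟩, ⟨1, [(1, 1)]⟩, ⟨1, [(3, 1)]⟩, ⟨1, [(0, 1)]⟩, ⟨1, [(1, 1)]⟩, ⟨1, [(0, 1)]⟩, ⟨1, []⟩])))))))))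
def s18_8_n0 : Node := ⟨[⟨[-1, 0, 0, 1], 0⟩, ⟨[0, 0, -2, 1], 256⟩, ⟨[0, 2, 1, -1], -64⟩, ⟨[-2, 1], 96⟩, ⟨[1, -1, -2, 2], 128⟩, ⟨[0, 2, 1, -1], -32⟩, ⟨[1, -1, -2, 2], 160⟩], [0, 1], 0, none, (.ndet 1 [⟨1, [(6, 1)]⟩] (.ddet 0 [] (.ndet 0 [⟨1, [(5, 1)]⟩] s18_8_t0)))⟩
def s18_8 : Sys := ⟨[(1, 0), (4, 64)], [(3, 64)], 4, [s18_8_n0], [0, 128, -192, 64], (.leaf 0 [⟨1, []⟩, ⟨1, []⟩, ⟨1, []⟩, ⟨1, []⟩, ⟨1, []⟩, ⟨1, []⟩, ⟨1, []⟩])⟩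

theorem s18_8_ok : s18_8.ok = true := by decide +kernel

def s19_7_n0 : Node := ⟨[⟨[1], 40⟩, ⟨[1, 0, 0, -1], 32⟩, ⟨[1], 56⟩, ⟨[1, -1], 104⟩, ⟨[0, 0, -1], 8⟩, ⟨[1], 88⟩, ⟨[0, -1], 40⟩, ⟨[1], 48⟩, ⟨[1], 32⟩], [1], 0, none, (.ndet 1 [⟨1, [(3, 1)]⟩, ⟨1, [(7, 1)]⟩] (.ddet 1 [⟨1, [(3, 1)]⟩, ⟨1, [(3, 1), (2, 1)]⟩] (.ndet 1 [⟨1, []⟩, ⟨1, [(4, 1)]⟩] (.ddet 2 [⟨1, [(3, 1)]⟩, ⟨1, [(3, 1)]⟩] (.ndet 0 [⟨1, [(3, 1)]⟩, ⟨1, [(2, 1)]⟩] (.ddet 2 [⟨1, []⟩, ⟨1, [(3, 1)]⟩] (.ndet 2 [⟨1, [(3, 1)]⟩, ⟨1, [(3, 1)]⟩] (.ddet 0 [⟨1, []⟩, ⟨1, [(3, 1)]⟩] (.leaf 0 [⟨1, [(3, 1)]⟩, ⟨1, [(3, 1)]⟩, ⟨1, [(3, 1)]⟩, ⟨1, [(3, 1)]⟩, ⟨1, [(3, 1)]⟩, ⟨1, [(3, 1)]⟩, ⟨1, []⟩,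 ⟨1, [(3, 1)]⟩, ⟨1, [(3, 1)]⟩, ⟨1, []⟩])))))))))⟩
def s19_7 : Sys := ⟨[(0, -16), (1, 16), (4, 0)], [(0, -16), (1, -16), (2, 16)], 4, [s19_7_n0], [112, -64, -64, 32], (.leaf 0 [⟨1, []⟩, ⟨1, []⟩, ⟨1, []⟩, ⟨1, []⟩, ⟨1, []⟩, ⟨1, []⟩, ⟨1, []⟩, ⟨1, []⟩, ⟨1, []⟩])⟩

theorem s19_7_ok : s19_7.ok = true := by decide +kernel

def s25_12_n0 : Node := ⟨[⟨[0, 0, -1], 24⟩, ⟨[0, 0, 0, -1], 8⟩, ⟨[0, 1, -1], 16⟩, ⟨[0, 1], 8⟩, ⟨[0, 1, -1], 32⟩, ⟨[1, -1], 16⟩, ⟨[1], 40⟩, ⟨[1, -1], 32⟩, ⟨[1, 1], 56⟩, ⟨[1, 1], 40⟩, ⟨[1, -2], 40⟩, ⟨[0, 1], -8⟩], [1], 0, none, (.ndet 0 [⟨1, [(11, 1)]⟩, ⟨1, [(10, 1)]⟩] (.ddet 0 [⟨1, [(11, 1), (8, 1)]⟩] (.ndet 1 [⟨1, [(8, 1)]⟩,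 ⟨1, [(11, 1), (8, 1)]⟩] (.ddet 0 [⟨1, [(8, 1), (1, 1)]⟩] (.ndet 1 [⟨1, [(8, 2), (1, 1)]⟩, ⟨1, [(8, 1), (1, 1)]⟩] (.ddet 1 [⟨1, [(8, 3), (1, 1)]⟩] (.ndet 2 [⟨1, [(8, 2), (1, 1)]⟩, ⟨1, [(8, 3), (1, 1)]⟩] (.ddet 1 [⟨1, [(1, 1)]⟩] (.leaf 0 [⟨1, [(8, 1), (1, 1)]⟩, ⟨1, [(8, 1)]⟩, ⟨1, [(8, 1), (1, 1)]⟩, ⟨1, []⟩, ⟨1, [(8, 1), (1, 1)]⟩, ⟨1, [(8, 3), (1, 1)]⟩, ⟨1, [(8, 3), (1, 1)]⟩, ⟨1, [(8, 3), (1, 1)]⟩, ⟨1, [(8, 3), (1, 1)]⟩, ⟨1, [(8, 3), (1, 1)]⟩, ⟨1, [(8, 3), (1, 1)]⟩, ⟨1, []⟩, ⟨1, [(8, 1)]⟩])))))))))⟩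
def s25_12 : Sys := ⟨[(0, 0), (3, 0), (4, 0)], [(2, 16), (3, -16)], 4, [s25_12_n0], [80, 16, -48, -16], (.leaf 0 [⟨1, []⟩, ⟨1, []⟩, ⟨1, []⟩, ⟨1, []⟩, ⟨1, []⟩, ⟨1, []⟩, ⟨1, []⟩, ⟨1, []⟩, ⟨1, []⟩, ⟨1, []⟩, ⟨1, []⟩, ⟨1, []⟩])⟩

theorem s25_12_ok : s25_12.ok = true := by decide +kernel

def s27_1_n0 : Node := ⟨[⟨[1], 0⟩, ⟨[1, 0, -1], -56⟩, ⟨[1, 0, 0, -1], -48⟩, ⟨[1, -1], -88⟩], [1], 0, none, (.ndet 1 [⟨1, [(3, 1)]⟩, ⟨1, [(2, 1)]⟩, ⟨1, [(1, 1)]⟩] (.ddet 0 [] (.leaf 0 [⟨1, [(3, 1)]⟩, ⟨1, [(0, 1)]⟩, ⟨1, [(2, 1)]⟩, ⟨1, []⟩, ⟨1, []⟩])))⟩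
def s27_1 : Sys := ⟨[(0, 64), (1, 80), (3, -16), (4, -64)], [(0, 16)], 4, [s27_1_n0], [16, 32, 32, -32], (.leaf 0 [⟨1, []⟩, ⟨1, []⟩, ⟨1, []⟩, ⟨1, []⟩])⟩

theorem s27_1_ok : s27_1.ok = true := by decide +kernel

def s28_3_n0 : Node := ⟨[⟨[0, -1, 1], 48⟩, ⟨[0, 0, 1, -1], 40⟩, ⟨[1], 16⟩, ⟨[1, -1], 40⟩, ⟨[1, 0, -1], 8⟩, ⟨[2, 0, -1], 32⟩], [1], 0, none, (.ndet 1 [⟨1, [(5, 1)]⟩, ⟨1, [(4, 1)]⟩] (.ddet 1 [⟨1, [(3, 1)]⟩] (.ndet 0 [⟨1, [(5, 1), (1, 1)]⟩, ⟨1, [(1, 1)]⟩] (.ddet 0 [⟨1, [(1, 1)]⟩] (.leaf 0 [⟨1, [(0, 1)]⟩, ⟨1, [(5, 1), (1, 1)]⟩, ⟨1, [(3, 1)]⟩, ⟨1, [(0, 1)]⟩, ⟨1, []⟩, ⟨1, [(3, 1)]⟩, ⟨1, []⟩])))))⟩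
def s28_3 : Sys := ⟨[(2, 0), (3, -16), (4, 0)], [(0, -16), (1, 16)], 4, [s28_3_n0], [64, -32, 48, -16], (.leaf 0 [⟨1, []⟩, ⟨1, []⟩, ⟨1, []⟩, ⟨1, []⟩, ⟨1, []⟩, ⟨1, []⟩])⟩

theorem s28_3_ok : s28_3.ok = true := by decide +kernel

def s30_20_n0 : Node := ⟨[⟨[-1, 1], 112⟩, ⟨[0, 1, -1], 152⟩, ⟨[0, 1, 0, -1], 144⟩, ⟨[0, 1, 0, -1], 168⟩, ⟨[0, 1], 8⟩, ⟨[0, 1, -1], 88⟩, ⟨[-1, 0, 1], 0⟩, ⟨[0, 0, 1], -72⟩, ⟨[0, 1], 72⟩, ⟨[-1, 1], 176⟩, ⟨[0, 1], 48⟩, ⟨[0, 0, -1], 40⟩], [0, 1], 0, none, (.ndet 1 [⟨1, [(2, 1)]⟩, ⟨1, [(10, 1)]⟩, ⟨1, [(8, 1)]⟩] (.ddet 0 [⟨1, [(8, 1)]⟩] (.ndet 2 [⟨1, [(10, 1), (4, 1)]⟩, ⟨1, [(2, 1)]⟩, ⟨1, [(10, 1)]⟩] (.ddet 1 [⟨1, [(5,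 1)]⟩] (.ndet 3 [⟨1, [(4, 1)]⟩, ⟨1, [(10, 1), (4, 1)]⟩, ⟨1, [(2, 1)]⟩] (.ddet 1 [⟨1, [(10, 1), (4, 1)]⟩] (.leaf 0 [⟨1, [(10, 1)]⟩, ⟨1, [(10, 1)]⟩, ⟨1, [(2, 1), (0, 1)]⟩, ⟨1, [(2, 1), (0, 1)]⟩, ⟨1, [(10, 1)]⟩, ⟨1, [(10, 1)]⟩, ⟨1, []⟩, ⟨1, []⟩, ⟨1, [(10, 1)]⟩, ⟨1, [(10, 1)]⟩, ⟨1, [(10, 1)]⟩, ⟨1, []⟩, ⟨1, [(0, 1)]⟩])))))))⟩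
def s30_20 : Sys := ⟨[(1, -80), (2, -16), (3, 48), (4, -16)], [(2, 32), (4, 80)], 4, [s30_20_n0], [-96, 192, -48, -96], (.leaf 0 [⟨1, []⟩, ⟨1, []⟩, ⟨1, []⟩, ⟨1, []⟩, ⟨1, []⟩, ⟨1, []⟩, ⟨1, []⟩, ⟨1, []⟩, ⟨1, []⟩, ⟨1, []⟩, ⟨1, []⟩, ⟨1, []⟩])⟩

theorem s30_20_ok : s30_20.ok = true := by decide +kernel

end Pool.Agent.H81.RDE.Data
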