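import Pool.Agent.H81.RDE.System

/-! Data file (generated): certificates. -/

set_option maxRecDepth 100000

namespace Pool.Agent.H81.RDE.Data

def s6_1_n0 : Node := ⟨[⟨[1, -1], 0⟩], [1], 0, none, (.ndet 0 [⟨1, [(0, 1)]⟩] (.ddet 0 [] (.leaf 0 [⟨1, []⟩, ⟨1, []⟩])))⟩
def s6_1 : Sys := ⟨[(1, -16), (2, -32)], [(0, -32)], 2, [s6_1_n0], [32, 16, 0, 0], (.leaf 0 [⟨1, []⟩])⟩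

theorem s6_1_ok : s6_1.ok = true := by decide +kernel

def s8_2_t0 : Tree := .ddet 0 [] (.ndet 0 [] (.ddet 0 [] (.ndet 0 [] (.ddet 0 [] (.ndet 0 [] (.ddet 0 [] (.split [2, 1, -2] (0) (.leaf 1 [⟨1, [(0, 1)]⟩, ⟨1, [(9, 1), (6, 2), (4, 1)]⟩, ⟨1, [(9, 1), (7, 1), (1, 1), (0, 1)]⟩, ⟨4, [(9, 1), (7, 2), (1, 1), (0, 1)]⟩, ⟨1, []⟩, ⟨4, [(9, 1), (7, 2), (1, 1), (0, 1)]⟩, ⟨1, [(9, 1), (7, 1), (1, 1)]⟩, ⟨1, []⟩, ⟨1, [(9, 1), (7, 1), (1, 1)]⟩, ⟨4, [(9, 3), (7, 2), (1, 3), (0, 3)]⟩, ⟨4, [(9, 1), (7, 2), (1, 1), (0, 1)]⟩]) (.leaf 3 [⟨4, [(9, 9), (7, 10), (1, 9), (0, 7)]⟩, ⟨1, [(0, 1)]⟩, ⟨1, [(9, 1), (7, 1), (1, 1)]⟩, ⟨4, [(9,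 1), (7, 2), (1, 1), (0, 3)]⟩, ⟨4, [(9, 5), (7, 6), (1, 5), (0, 3)]⟩, ⟨1, []⟩, ⟨4, [(9, 1), (7, 2), (1, 1), (0, 3)]⟩, ⟨4, [(9, 5), (7, 6), (1, 5), (0, 3)]⟩, ⟨1, []⟩, ⟨4, [(9, 3), (7, 2), (1, 3), (0, 5)]⟩, ⟨4, [(9, 1), (7, 2), (1, 1), (0, 3)]⟩]))))))))
def s8_2_n0 : Node := ⟨[⟨[1, 0, 0, -1], -200⟩, ⟨[1, 0, -1], -200⟩, ⟨[1, -1], -200⟩, ⟨[1, -1, -1, -1], 59700⟩, ⟨[1, 0, -1, -1], 57000⟩, ⟨[1, 1, 0, -1], -320⟩, ⟨[0, -1, -1], 57000⟩, ⟨[1], 59700⟩, ⟨[-1, -1, 0, 1], -320⟩, ⟨[0, -1, 0, 1], 59700⟩, ⟨[1, -1, 1, 1], 59700⟩, ⟨[1, 0, 1, 1], 59700⟩, ⟨[1, 1, 1, 1], 59000⟩], [1], 0, none, (.ndet 0 [] (.ddet 0 [] (.ndet 0 [] (.ddet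 0 [] (.ndet 0 [] s8_2_t0)))))⟩
def s8_2_t1 : Tree := .ddet 0 [] (.ndet 0 [] (.ddet 0 [] (.split [-4, -1, 3] (0) (.split [-1, -2, 2] (0) (.leaf 0 [⟨1, [(6, 1), (5, 3), (0, 1)]⟩, ⟨1, [(0, 1)]⟩, ⟨3, [(6, 5), (5, 16), (0, 7)]⟩, ⟨3, [(6, 4), (5, 11), (0, 5)]⟩, ⟨3, [(6, 1), (5, 2), (0, 2)]⟩, ⟨1, []⟩, ⟨3, [(6, 1), (5, 2), (0, 2)]⟩, ⟨3, [(6, 2), (5, 7), (0, 4)]⟩, ⟨1, []⟩, ⟨3, [(6, 2), (5, 7), (0, 4)]⟩, ⟨1, [(6, 2), (5, 7), (0, 3)]⟩, ⟨1, [(6, 1), (5, 4), (0, 2)]⟩, ⟨1, [(5, 1), (0, 1)]⟩, ⟨3, [(6, 2), (5, 4), (0, 4)]⟩]) (.leaf 2 [⟨1, [(6, 1), (5, 3)]⟩, ⟨7, [(6, 5), (5, 16), (1, 4)]⟩, ⟨1, [(0, 1)]⟩, ⟨7, [(6, 6), (5, 15), (1,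 2)]⟩, ⟨3, [(6, 1), (5, 2), (0, 1)]⟩, ⟨1, []⟩, ⟨7, [(6, 3), (5, 11), (1, 1)]⟩, ⟨3, [(6, 1), (5, 2), (0, 1)]⟩, ⟨1, []⟩, ⟨7, [(6, 3), (5, 11), (1, 1)]⟩, ⟨7, [(6, 3), (5, 4), (1, 1)]⟩])) (.split [3, -1, -1] (0) (.leaf 1 [⟨4, [(8, 12), (6, 1), (2, 12), (0, 7)]⟩, ⟨1, [(0, 1)]⟩, ⟨4, [(8, 16), (6, 1), (2, 16), (0, 11)]⟩, ⟨4, [(8, 4), (6, 1), (2, 4), (0, 3)]⟩, ⟨1, []⟩, ⟨4, [(8, 4), (6, 1), (2, 4), (0, 3)]⟩, ⟨1, [(8, 1), (2, 1), (0, 1)]⟩, ⟨1, []⟩, ⟨1, [(8, 1), (2, 1), (0, 1)]⟩, ⟨1, [(8, 3), (2, 3), (0, 2)]⟩, ⟨4, [(6, 1), (0, 3)]⟩]) (.leaf 2 [⟨1, [(6, 1), (5, 3)]⟩, ⟨1, [(0, 1)]⟩, ⟨7, [(6, 5), (5, 16), (1, 3)]⟩, ⟨4, [(8, 4),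 (6, 1), (2, 4), (0, 1)]⟩, ⟨7, [(6, 4), (5, 10), (1, 1)]⟩, ⟨1, []⟩, ⟨1, [(8, 1), (2, 1)]⟩, ⟨7, [(6, 4), (5, 10), (1, 1)]⟩, ⟨1, []⟩, ⟨1, [(8, 1), (2, 1)]⟩, ⟨4, [(6, 1), (0, 1)]⟩])))))
def s8_2_t2 : Tree := .ndet 0 [] (.ddet 0 [] (.ndet 0 [] (.ddet 0 [] (.ndet 0 [] (.ddet 0 [] (.ndet 0 [] (.ddet 0 [] (.ndet 0 [] s8_2_t1))))))))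
def s8_2_n1 : Node := ⟨[⟨[0, 1, 0, -1], -200⟩, ⟨[0, 1, -1], -200⟩, ⟨[-1, 1], -200⟩, ⟨[0, 0, -1, -1], 57000⟩, ⟨[1, 1, 0, -1], -320⟩, ⟨[-1, -1, -1], 57000⟩, ⟨[0, 1], 59700⟩, ⟨[-1, -1, 0, 1], -320⟩, ⟨[-1, 0, 0, 1], 59700⟩, ⟨[-1, 1, 1, 1], 59700⟩], [0, 1], 0, none, s8_2_t2⟩
def s8_2_t3 : Tree := .ddet 0 [] (.ndet 0 [] (.ddet 0 [] (.ndet 0 [] (.ddet 0 [] (.ndet 0 [] (.ddet 0 [] (.split [-2, 0, 1] (0) (.leaf 0 [⟨1, [(0, 1)]⟩, ⟨2, [(7, 2), (4, 1), (1, 3)]⟩, ⟨4, [(6, 4), (4, 1), (1, 5), (0, 6)]⟩, ⟨1, [(6, 1), (1, 1), (0, 1)]⟩, ⟨1, [(6, 1), (1, 1)]⟩, ⟨1, []⟩, ⟨1, [(6, 1), (1, 1)]⟩, ⟨4, [(6, 4), (4, 1), (1, 5), (0, 2)]⟩,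 ⟨1, []⟩, ⟨4, [(6, 4), (4, 1), (1, 5), (0, 2)]⟩, ⟨2, [(6, 2), (4, 1), (1, 3), (0, 4)]⟩, ⟨2, [(6, 2), (4, 1), (1, 3), (0, 2)]⟩, ⟨2, [(6, 2), (4, 1), (1, 3)]⟩, ⟨4, [(4, 1), (3, 4), (1, 1), (0, 2)]⟩]) (.leaf 3 [⟨4, [(6, 8), (4, 1), (1, 9), (0, 6)]⟩, ⟨2, [(8, 2), (4, 1), (3, 2), (1, 1)]⟩, ⟨1, [(0, 1)]⟩, ⟨2, [(4, 1), (3, 2), (1, 1)]⟩, ⟨1, [(6, 1), (1, 1), (0, 1)]⟩, ⟨1, []⟩, ⟨2, [(4, 1), (3, 2), (1, 1)]⟩, ⟨1, [(6, 1), (1, 1), (0, 1)]⟩, ⟨1, []⟩, ⟨2, [(6, 2), (4, 1), (1, 3)]⟩, ⟨4, [(4, 1), (3, 4), (1, 1), (0, 2)]⟩]))))))))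
def s8_2_n2 : Node := ⟨[⟨[0, 0, 1, -1], -200⟩, ⟨[0, -1, 1], -200⟩, ⟨[-1, 0, 1], -200⟩, ⟨[0, -1, 0, -1], 59700⟩, ⟨[0, 0, 0, -1], 57000⟩, ⟨[1, 1, 0, -1], -320⟩, ⟨[1, 1, 1, -1], 59700⟩, ⟨[-1, -1], 57000⟩, ⟨[-1, -1, 0, 1], -320⟩, ⟨[-1, -1, 1, 1], 59700⟩], [0, 0, 1], 0, none, (.ndet 0 [] (.ddet 0 [] (.ndet 0 [] (.ddet 0 [] (.ndet 0 [] s8_2_t3)))))⟩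
def s8_2_t4 : Tree := .ddet 0 [] (.ndet 0 [] (.ddet 0 [] (.ndet 0 [] (.ddet 0 [] (.ndet 0 [] (.ddet 0 [] (.ndet 0 [] (.ddet 0 [] (.leaf 1 [⟨2, [(5, 3), (3, 2), (2, 1), (0, 2)]⟩, ⟨1, [(8, 3), (6, 1), (4, 2)]⟩, ⟨1, [(5, 2), (3, 3), (0, 2)]⟩, ⟨2, [(5, 1), (3, 2), (0, 1)]⟩, ⟨1, []⟩, ⟨2, [(5, 1), (3, 2), (0, 1)]⟩, ⟨1, [(6, 1), (3, 1), (0, 1)]⟩, ⟨1, []⟩, ⟨1, [(6, 1), (3, 1), (0, 1)]⟩, ⟨2, [(5, 3), (3, 4), (0, 3)]⟩, ⟨1, [(8, 1), (6, 1), (4, 1)]⟩])))))))))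
def s8_2_n3 : Node := ⟨[⟨[0, 0, -1, 1], -200⟩, ⟨[0, -1, 0, 1], -200⟩, ⟨[-1, 0, 0, 1], -200⟩, ⟨[1, 0, -1, -1], 57000⟩, ⟨[1, 1, -1, -1], 59700⟩, ⟨[1, 1, 0, -1], -320⟩, ⟨[0, -1, -1], 57000⟩, ⟨[-1, -1, -1, 1], 59700⟩, ⟨[-1, -1, 0, 1], -320⟩, ⟨[1, 1, 1, 1], 59700⟩], [0, 0, 0, 1], 0, none, (.ndet 0 [] (.ddet 0 [] (.ndet 0 [] s8_2_t4)))⟩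
def s8_2 : Sys := ⟨[(3, 1000)], [(1, 1000)], 4, [s8_2_n0, s8_2_n1, s8_2_n2, s8_2_n3], [121014, -103783, 46098, 17231], (.leaf 0 [⟨1, []⟩, ⟨1, []⟩, ⟨1, []⟩, ⟨1, []⟩, ⟨1, []⟩, ⟨1, []⟩, ⟨1, []⟩, ⟨1, []⟩, ⟨1, []⟩, ⟨1, []⟩, ⟨1, []⟩, ⟨1, []⟩, ⟨1, []⟩])⟩

theorem s8_2_ok : s8_2.ok = true := by decide +kernel

def s12_21_n0 : Node := ⟨[⟨[0, 1, -1], 304⟩, ⟨[0, 1], 96⟩, ⟨[0, 1, 0, -1], 248⟩, ⟨[-1, 1], 288⟩, ⟨[-1], 264⟩, ⟨[0, 0, -1], 112⟩, ⟨[-1], 360⟩, ⟨[0, 1], 120⟩, ⟨[0, 1], 168⟩], [0, 1], 0, none, (.ndet 0 [⟨1, [(8, 1)]⟩] (.ddet 1 [⟨1, [(0, 1)]⟩, ⟨1, [(6, 1)]⟩] (.ndet 1 [⟨1, [(2, 1), (0, 1)]⟩] (.ddet 0 [⟨1, [(2, 1)]⟩, ⟨1,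 [(3, 1)]⟩] (.ndet 0 [⟨1, [(2, 1)]⟩] (.ddet 2 [⟨1, [(0, 1)]⟩, ⟨1, [(0, 1)]⟩] (.leaf 0 [⟨1, [(0, 1)]⟩, ⟨1, [(0, 1)]⟩, ⟨1, [(2, 1), (0, 1)]⟩, ⟨1, [(0, 2)]⟩, ⟨1, [(0, 1)]⟩, ⟨1, []⟩, ⟨1, [(0, 1)]⟩, ⟨1, [(0, 1)]⟩, ⟨1, [(0, 1)]⟩, ⟨1, []⟩])))))))⟩
def s12_21 : Sys := ⟨[(2, -80), (3, 64)], [(0, -32), (2, 80), (4, 32)], 4, [s12_21_n0], [-416, 304, -160, -240], (.leaf 0 [⟨1, []⟩, ⟨1, []⟩, ⟨1, []⟩, ⟨1, []⟩, ⟨1, []⟩, ⟨1, []⟩, ⟨1, []⟩, ⟨1, []⟩, ⟨1, []⟩])⟩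

theorem s12_21_ok : s12_21.ok = true := by decide +kernel

def s13_3_n0 : Node := ⟨[⟨[0, 1], 8⟩, ⟨[0, 1, -1], 0⟩, ⟨[-1], 8⟩, ⟨[0, 1], 24⟩, ⟨[-1, 1], 40⟩], [0, 1], 0, none, (.ndet 1 [⟨1, [(1, 1)]⟩, ⟨1, [(3, 1)]⟩] (.ddet 0 [⟨1, [(2, 1)]⟩] (.ndet 2 [⟨1, [(1, 1)]⟩, ⟨1, [(0, 1)]⟩] (.ddet 1 [⟨1, [(1, 1)]⟩] (.leaf 0 [⟨1, [(1, 1)]⟩, ⟨1, [(0, 1)]⟩, ⟨1, []⟩, ⟨1, [(1, 1)]⟩, ⟨1, [(1, 1)]⟩, ⟨1, []⟩])))))⟩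
def s13_3 : Sys := ⟨[(0, 0), (2, 16), (3, -16)], [(0, 0), (1, 0)], 3, [s13_3_n0], [-16, 32, 0, 0], (.leaf 0 [⟨1, []⟩, ⟨1, []⟩, ⟨1, []⟩, ⟨1, []⟩, ⟨1, []⟩])⟩

theorem s13_3_ok : s13_3.ok = true := by decide +kernel

def s13_22_n0 : Node := ⟨[⟨[0, 1], 168⟩, ⟨[0, 1, -1], 160⟩, ⟨[-1, 1], 296⟩, ⟨[0, 1, 0, -1], 280⟩, ⟨[0, 1], 152⟩, ⟨[-1, 1], 272⟩, ⟨[-1], 120⟩, ⟨[0, 0, -1], -24⟩, ⟨[-1], 136⟩, ⟨[0, 1], 144⟩], [0, 1], 0, none, (.ndet 1 [⟨1, [(9, 1)]⟩, ⟨1, [(8, 1)]⟩] (.ddet 1 [⟨1, [(9, 1), (1, 1)]⟩, ⟨1, [(6, 1)]⟩] (.ndet 2 [⟨1, [(9, 1)]⟩, ⟨1, [(9, 1), (1, 1)]⟩] (.ddet 0 [⟨1, [(1, 1)]⟩, ⟨1, [(2, 1)]⟩] (.ndet 0 [⟨1, []⟩, ⟨1,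 [(1, 1)]⟩] (.ddet 0 [⟨1, [(9, 1)]⟩, ⟨1, []⟩] (.leaf 0 [⟨1, [(9, 1)]⟩, ⟨1, [(9, 1)]⟩, ⟨1, [(9, 2)]⟩, ⟨1, [(9, 1), (1, 1)]⟩, ⟨1, [(9, 1)]⟩, ⟨1, [(9, 2)]⟩, ⟨1, [(9, 1)]⟩, ⟨1, []⟩, ⟨1, [(9, 1)]⟩, ⟨1, [(9, 1)]⟩, ⟨1, []⟩])))))))⟩
def s13_22 : Sys := ⟨[(0, 32), (2, 0), (3, 32)], [(1, 0), (2, -16), (4, -16)], 4, [s13_22_n0], [-272, 304, 16, -256], (.leaf 0 [⟨1, []⟩, ⟨1, []⟩, ⟨1, []⟩, ⟨1, []⟩, ⟨1, []⟩, ⟨1, []⟩, ⟨1, []⟩, ⟨1, []⟩, ⟨1, []⟩, ⟨1, []⟩])⟩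

theorem s13_22_ok : s13_22.ok = true := by decide +kernel

def s13_23_n0 : Node := ⟨[⟨[0, 1], 56⟩, ⟨[0, 1, -1], 72⟩, ⟨[0, 1], 40⟩, ⟨[-1, 1], 56⟩, ⟨[0, 1, 0, -1], 72⟩, ⟨[0, 1], 32⟩, ⟨[-1, 1], 40⟩, ⟨[-1], 24⟩, ⟨[0, 0, -1], 8⟩, ⟨[-1], 32⟩, ⟨[0, 1], 24⟩], [0, 1], 0, none, (.ndet 1 [⟨1, [(10, 1)]⟩, ⟨1, [(9, 1)]⟩] (.ddet 2 [⟨1, [(10, 1)]⟩, ⟨1, [(10, 1), (1, 1)]⟩, ⟨1, [(6, 1)]⟩] (.ndet 2 [⟨1, [(10, 1)]⟩, ⟨1, [(10, 1), (1, 1)]⟩] (.ddet 0 [⟨1, []⟩, ⟨1, [(1, 1)]⟩, ⟨1, [(2, 1)]⟩] (.ndet 0 [⟨1, []⟩, ⟨1, [(1, 1)]⟩] (.ddet 1 [⟨1, [(10, 1)]⟩, ⟨1, [(10, 1)]⟩, ⟨1, []⟩] (.leaf 0 [⟨1, [(10, 1)]⟩, ⟨1, [(10, 1)]⟩, ⟨1, [(10, 1)]⟩, ⟨1,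 [(10, 2)]⟩, ⟨1, [(10, 1), (1, 1)]⟩, ⟨1, [(10, 1)]⟩, ⟨1, [(10, 2)]⟩, ⟨1, [(10, 1)]⟩, ⟨1, []⟩, ⟨1, [(10, 1)]⟩, ⟨1, [(10, 1)]⟩, ⟨1, []⟩])))))))⟩
def s13_23 : Sys := ⟨[(0, 0), (2, -32), (3, 16)], [(0, -16), (1, -32), (2, -16), (4, -16)], 4, [s13_23_n0], [-48, 80, -16, -64], (.leaf 0 [⟨1, []⟩, ⟨1, []⟩, ⟨1, []⟩, ⟨1, []⟩, ⟨1, []⟩, ⟨1, []⟩, ⟨1, []⟩, ⟨1, []⟩, ⟨1, []⟩, ⟨1, []⟩, ⟨1, []⟩])⟩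

theorem s13_23_ok : s13_23.ok = true := by decide +kernel

def s14_3_n0 : Node := ⟨[⟨[-1, 1], 16⟩, ⟨[0, 1, -1], 0⟩, ⟨[-1], 32⟩, ⟨[-1, 1], 56⟩, ⟨[0, 1], 0⟩], [0, 1], 0, none, (.ndet 1 [⟨1, [(1, 1)]⟩, ⟨1, [(3, 1)]⟩] (.ddet 0 [⟨1, [(2, 1)]⟩] (.ndet 0 [⟨1, [(1, 1)]⟩, ⟨1, []⟩] (.ddet 1 [⟨1, [(0, 1)]⟩] (.leaf 0 [⟨1, [(0, 1)]⟩, ⟨1, [(1, 1)]⟩, ⟨1, []⟩, ⟨1, [(0, 1)]⟩, ⟨1, [(0, 1)]⟩, ⟨1, []⟩])))))⟩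
def s14_3 : Sys := ⟨[(1, -112), (2, -64), (3, -112)], [(0, -80), (1, -64)], 3, [s14_3_n0], [-48, 32, -16, 0], (.leaf 0 [⟨1, []⟩, ⟨1, []⟩, ⟨1, []⟩, ⟨1, []⟩, ⟨1, []⟩])⟩

theorem s14_3_ok : s14_3.ok = true := by decide +kernel

def s14_6_n0 : Node := ⟨[⟨[1, -1], 48⟩, ⟨[1, 0, -1], 56⟩, ⟨[1], 16⟩, ⟨[1], 8⟩, ⟨[1], 24⟩, ⟨[1], 32⟩], [1], 0, none, (.ndet 0 [⟨1, [(5, 1)]⟩, ⟨1, [(4, 1)]⟩] (.ddet 0 [⟨1, [(5, 1)]⟩] (.ndet 1 [⟨1, [(0, 1)]⟩, ⟨1, [(5, 1)]⟩] (.ddet 1 [⟨1, [(0, 1)]⟩] (.ndet 2 [⟨1, [(0, 1)]⟩, ⟨1, [(0, 1)]⟩] (.ddet 1 [⟨1, []⟩] (.leaf 0 [⟨1, [(0, 1)]⟩, ⟨1, [(0, 1)]⟩, ⟨1, [(0, 1)]⟩, ⟨1, [(0, 1)]⟩, ⟨1, [(0, 1)]⟩, ⟨1,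 [(0, 1)]⟩, ⟨1, []⟩])))))))⟩
def s14_6 : Sys := ⟨[(1, -16), (2, 0), (3, 16)], [(1, 0), (2, 16)], 3, [s14_6_n0], [64, -16, -16, 0], (.leaf 0 [⟨1, []⟩, ⟨1, []⟩, ⟨1, []⟩, ⟨1, []⟩, ⟨1, []⟩, ⟨1, []⟩])⟩

theorem s14_6_ok : s14_6.ok = true := by decide +kernel

def s15_1_n0 : Node := ⟨[⟨[1], 16⟩, ⟨[1, -1], 16⟩, ⟨[1, 0, -1], 16⟩], [1], 0, none, (.ndet 1 [⟨1, [(2, 1)]⟩, ⟨1, [(1, 1)]⟩, ⟨1, [(0, 1)]⟩] (.ddet 0 [] (.leaf 0 [⟨1, [(2, 1)]⟩, ⟨1, []⟩, ⟨1, [(1, 1)]⟩, ⟨1, []⟩])))⟩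
def s15_1 : Sys := ⟨[(0, 16), (1, 16), (2, 16), (3, 16)], [(0, -16)], 3, [s15_1_n0], [32, 0, 0, 0], (.leaf 0 [⟨1, []⟩, ⟨1, []⟩, ⟨1, []⟩])⟩

theorem s15_1_ok : s15_1.ok = true := by decide +kernel

def s16_8_n0 : Node := ⟨[⟨[1, 0, 0, -1], -200⟩, ⟨[1, 0, -1], -200⟩, ⟨[1, -1], -200⟩, ⟨[-1, 0, 1, -1], 239700⟩, ⟨[0, -1, -1], 239700⟩, ⟨[1, 1], 239700⟩, ⟨[0, 0, 1, 1], 239700⟩], [1], 0, none, (.ndet 0 [] (.ddet 0 [] (.ndet 0 [] (.ddet 0 [] (.ndet 0 [] (.ddet 0 [] (.ndet 0 [] (.ddet 0 [] (.leaf 0 [⟨1, [(3, 5), (2, 6), (1, 6), (0, 3)]⟩, ⟨1, [(3, 1), (2, 1), (1, 2)]⟩, ⟨1, [(3, 5), (2, 8), (1, 7), (0, 4)]⟩, ⟨1, [(3, 1), (2,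 1), (0, 1)]⟩, ⟨1, [(2, 1), (1, 1)]⟩, ⟨1, [(3, 1), (1, 1)]⟩, ⟨1, [(2, 1), (0, 1)]⟩, ⟨1, [(3, 2), (2, 2), (1, 2), (0, 1)]⟩])))))))))⟩
def s16_8_n1 : Node := ⟨[⟨[0, 1, 0, -1], -200⟩, ⟨[0, 1, -1], -200⟩, ⟨[-1, 1], -200⟩, ⟨[0, 0, -1, -1], 239700⟩, ⟨[-1, -1], 239700⟩, ⟨[0, 1, 1], 239700⟩, ⟨[1, 0, -1, 1], 239700⟩], [0, 1], 0, none, (.ndet 0 [] (.ddet 0 [] (.ndet 0 [] (.ddet 0 [] (.ndet 0 [] (.ddet 0 [] (.ndet 0 [] (.ddet 0 [] (.leaf 1 [⟨1, [(3, 1), (2, 1), (1, 2)]⟩, ⟨1, [(3, 4), (2, 5), (1, 7), (0, 4)]⟩, ⟨1, [(3, 4), (2, 7), (1, 8), (0, 5)]⟩, ⟨1, [(3, 1), (1, 1)]⟩, ⟨1, [(2, 1), (0, 1)]⟩, ⟨1, [(2, 1), (1, 1)]⟩, ⟨1, [(3,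 1), (1, 1), (0, 1)]⟩, ⟨1, [(3, 1), (2, 2), (1, 2), (0, 1)]⟩])))))))))⟩
def s16_8 : Sys := ⟨[(4, 3000)], [(3, -3000)], 4, [s16_8_n0, s16_8_n1], [2447502, -2122855, 1729525, -1300853], (.leaf 0 [⟨1, []⟩, ⟨1, []⟩, ⟨1, []⟩, ⟨1, []⟩, ⟨1, []⟩, ⟨1, []⟩, ⟨1, []⟩])⟩

theorem s16_8_ok : s16_8.ok = true := by decide +kernel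

def s16_15_n0 : Node := ⟨[⟨[1], 8⟩, ⟨[1, -1], 72⟩, ⟨[1, 0, -1], 56⟩, ⟨[2, 0, 0, -1], 72⟩, ⟨[2, 0, -1], 88⟩, ⟨[1, -1], 96⟩, ⟨[1, 0, -1], 80⟩, ⟨[1, 0, 0, -1], 64⟩], [1], 0, none, (.ndet 0 [] (.ddet 1 [⟨1, [(7, 1)]⟩, ⟨1, [(2, 1)]⟩, ⟨1, [(1, 1)]⟩] (.ndet 0 [] (.ddet 2 [⟨1, [(7, 1)]⟩, ⟨1, [(4, 1)]⟩, ⟨1, [(2, 1)]⟩] (.ndet 0 [] (.ddet 3 [⟨1, [(7, 1)]⟩, ⟨1, [(3, 1)]⟩, ⟨1, [(4, 1)]⟩] (.ndet 0 [] (.ddet 0 [⟨1, [(2, 1)]⟩, ⟨1, [(1, 1)]⟩, ⟨1, [(0, 1)]⟩] (.leaf 0 [⟨1, [(7, 1)]⟩, ⟨1, [(7, 1), (2, 1)]⟩, ⟨1, [(3, 1)]⟩, ⟨1, [(7, 1), (4, 1)]⟩, ⟨1, [(7, 1), (3, 1)]⟩, ⟨1, [(7, 1), (2, 1)]⟩, ⟨1, [(3, 1)]⟩, ⟨1, [(4, 1)]⟩, ⟨1, []⟩])))))))))⟩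
def s16_15 : Sys := ⟨[(4, -32)], [(0, -80), (1, -32), (2, -32), (3, -32)], 4, [s16_15_n0], [64, -80, -48, -16], (.leaf 0 [⟨1, []⟩, ⟨1, []⟩, ⟨1, []⟩, ⟨1, []⟩, ⟨1, []⟩, ⟨1, []⟩, ⟨1, []⟩, ⟨1, []⟩])⟩

theorem s16_15_ok : s16_15.ok = true := by decide +kernel

def s19_9_t0 : Tree := .dbr (.cons (.split [1, 0, -1] (0) (.leaf 0 [⟨3, [(21, 1), (19, 1), (15, 2), (3, 1)]⟩, ⟨1, [(0, 1)]⟩, ⟨1, [(19, 1), (15, 1), (0, 1)]⟩, ⟨1, [(0, 1)]⟩, ⟨1, []⟩, ⟨1, []⟩, ⟨1, [(19, 1), (15, 1)]⟩, ⟨1, [(1, 1)]⟩, ⟨1, [(1, 1)]⟩, ⟨1, [(1, 2)]⟩, ⟨2, [(21, 1), (15, 1), (3, 1), (1, 1)]⟩, ⟨1, [(0, 2)]⟩, ⟨1, []⟩, ⟨1, [(0, 1)]⟩, ⟨1, [(1, 1)]⟩, ⟨1, []⟩,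 ⟨1, [(19, 1), (15, 1)]⟩, ⟨1, [(1, 1)]⟩, ⟨1, [(1, 2)]⟩, ⟨1, [(0, 3)]⟩, ⟨1, [(0, 2)]⟩, ⟨1, [(0, 1)]⟩, ⟨1, [(0, 2)]⟩, ⟨1, [(0, 1)]⟩, ⟨1, []⟩, ⟨1, [(0, 1)]⟩, ⟨1, [(19, 1), (15, 1), (0, 1)]⟩, ⟨1, []⟩, ⟨1, [(1, 1)]⟩, ⟨1, []⟩]) (.leaf 2 [⟨1, [(19, 1), (15, 1), (0, 2)]⟩, ⟨1, [(19, 1), (15, 1)]⟩, ⟨1, [(0, 1)]⟩, ⟨1, [(30, 1)]⟩, ⟨1, []⟩, ⟨1, [(0, 1)]⟩, ⟨1, []⟩, ⟨1, [(19, 1), (15, 1)]⟩, ⟨1, []⟩, ⟨1, [(30, 1), (19, 1), (15, 1)]⟩, ⟨1, []⟩, ⟨1, [(30, 2)]⟩, ⟨1, [(30, 1)]⟩, ⟨1, [(30, 2)]⟩, ⟨1, [(30, 2), (19, 1), (15, 1)]⟩, ⟨1, [(30, 1)]⟩, ⟨1, []⟩, ⟨1, [(30, 1)]⟩, ⟨1, []⟩, ⟨1, [(0, 1)]⟩])) (.cons (.leaf 0 [⟨3, [(20, 2), (15, 1),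 (14, 1), (2, 2)]⟩, ⟨1, []⟩, ⟨2, [(20, 1), (14, 1), (2, 1), (0, 3)]⟩, ⟨1, []⟩, ⟨1, [(13, 1)]⟩, ⟨1, []⟩, ⟨2, [(20, 1), (14, 1), (2, 1), (0, 1)]⟩, ⟨1, [(13, 1)]⟩, ⟨1, []⟩, ⟨1, [(13, 1)]⟩, ⟨3, [(20, 2), (15, 1), (14, 1), (2, 2)]⟩, ⟨1, [(0, 1)]⟩, ⟨1, [(13, 1)]⟩, ⟨1, [(0, 1)]⟩, ⟨1, [(13, 1)]⟩, ⟨1, [(0, 1)]⟩, ⟨2, [(20, 1), (14, 1), (2, 1), (0, 3)]⟩, ⟨1, []⟩, ⟨1, [(13, 1)]⟩, ⟨1, [(0, 2)]⟩, ⟨1, [(0, 1)]⟩, ⟨1, []⟩, ⟨1, [(0, 2)]⟩, ⟨1, [(0, 1)]⟩, ⟨1, []⟩, ⟨1, [(0, 2)]⟩, ⟨2, [(20, 1), (14, 1), (2, 1), (0, 5)]⟩, ⟨1, [(0, 1)]⟩, ⟨1, []⟩, ⟨1, [(13, 1)]⟩]) .nil))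
def s19_9_t1 : Tree := .dbr (.cons (.ndet 1 [⟨3, [(19, 1), (17, 1), (13, 2), (1, 1)]⟩, ⟨1, [(13, 1)]⟩] (.ddet 1 [⟨1, [(17, 1), (13, 1)]⟩] (.ndet 2 [⟨1, [(17, 1), (13, 1)]⟩, ⟨1, [(28, 1), (17, 1), (13, 1)]⟩] s19_9_t0))) (.cons (.ndet 1 [⟨1, [(13, 1)]⟩, ⟨1, [(16, 1), (13, 1)]⟩] (.ddet 1 [⟨1, [(28, 1), (13, 1), (0, 1)]⟩] (.ndet 2 [⟨1, [(28, 1), (13, 1), (0, 1)]⟩, ⟨1, [(28, 2), (13, 1), (0, 2)]⟩] (.ddet 0 [⟨1, [(14, 1), (0, 1)]⟩] (.split [1, 1, -1] (-2000) (.leaf 0 [⟨1, [(14, 1), (1, 1)]⟩, ⟨1, [(0, 1)]⟩, ⟨1, [(14, 1), (0, 2)]⟩, ⟨1, [(1, 1), (0, 1)]⟩, ⟨1, [(1, 1)]⟩, ⟨1, [(1, 1)]⟩, ⟨1, [(14, 1), (1, 1), (0, 1)]⟩, ⟨1,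 [(15, 1), (1, 1)]⟩, ⟨1, [(15, 1), (1, 1)]⟩, ⟨1, [(15, 2), (1, 1)]⟩, ⟨1, [(15, 1), (14, 1), (1, 1)]⟩, ⟨1, [(0, 2)]⟩, ⟨1, []⟩, ⟨1, [(0, 1)]⟩, ⟨1, [(15, 1)]⟩, ⟨1, []⟩, ⟨1, [(14, 1), (0, 1)]⟩, ⟨1, [(15, 1)]⟩, ⟨1, [(15, 2)]⟩, ⟨2, [(19, 1), (0, 5)]⟩, ⟨2, [(19, 1), (0, 3)]⟩, ⟨2, [(19, 1), (0, 1)]⟩, ⟨2, [(19, 1), (0, 3)]⟩, ⟨2, [(19, 1), (0, 1)]⟩, ⟨1, [(17, 1)]⟩, ⟨2, [(19, 1), (0, 1)]⟩, ⟨2, [(19, 1), (14, 2), (0, 3)]⟩, ⟨1, [(17, 1)]⟩, ⟨1, [(17, 1), (15, 1)]⟩, ⟨1, []⟩]) (.leaf 2 [⟨1, [(14, 1), (1, 1), (0, 1)]⟩, ⟨1, [(29, 1), (14, 1), (1, 1)]⟩, ⟨1, [(0, 1)]⟩, ⟨1, [(29, 1), (1, 2)]⟩, ⟨1, [(1, 1)]⟩, ⟨1, [(1, 1), (0, 1)]⟩, ⟨1,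 [(1, 1)]⟩, ⟨1, [(29, 1), (14, 1), (1, 2)]⟩, ⟨1, []⟩, ⟨1, [(29, 2), (14, 1), (1, 2)]⟩, ⟨1, []⟩, ⟨1, [(29, 2), (1, 1)]⟩, ⟨1, [(29, 1)]⟩, ⟨1, [(29, 2), (1, 1)]⟩, ⟨1, [(29, 3), (14, 1), (1, 2)]⟩, ⟨1, [(29, 1)]⟩, ⟨2, [(19, 1), (0, 1)]⟩, ⟨1, [(29, 1)]⟩, ⟨2, [(19, 1), (0, 1)]⟩, ⟨1, [(0, 1)]⟩])))))) .nil))
def s19_9_n0 : Node := ⟨[⟨[1, 0, 0, -1], -200⟩, ⟨[1, 0, -1], -200⟩, ⟨[1, -1], -200⟩, ⟨[1, -1, -1, -1], -3353⟩, ⟨[1, 0, -1, -1], -1364⟩, ⟨[0, -1, 0, -1], -3360⟩, ⟨[1, -1, 0, -1], 179000⟩, ⟨[0, 0, 0, -1], -2340⟩, ⟨[-1, -1, 1, -1], -4340⟩, ⟨[-1, 0, 1, -1], -3340⟩, ⟨[0, 0, 1, -1], 179700⟩, ⟨[1, -1, -1], -2323⟩, ⟨[1, 1, -1],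 1653⟩, ⟨[0, -1], -2324⟩, ⟨[0, 1], 655⟩, ⟨[-1, -1, 1], -2340⟩, ⟨[0, -1, 1], 179700⟩, ⟨[-1, 0, 1], -1331⟩, ⟨[-1, 1, 1], -371⟩, ⟨[1, -1, -1, 1], -2030⟩, ⟨[1, 0, -1, 1], -13⟩, ⟨[1, 1, -1, 1], 1960⟩, ⟨[0, -1, 0, 1], -2035⟩, ⟨[0, 0, 0, 1], -25⟩, ⟨[0, 1, 0, 1], 1940⟩, ⟨[-1, -1, 1, 1], -2060⟩, ⟨[0, -1, 1, 1], 179700⟩, ⟨[-1, 0, 1, 1], -60⟩, ⟨[-1, 1, 1, 1], 1620⟩], [1], 0, none, (.ndet 1 [⟨1, [(16, 1), (12, 1)]⟩, ⟨2, [(22, 1), (18, 1), (16, 1)]⟩] (.ddet 1 [⟨3, [(18, 1), (16, 1), (12, 2), (0, 1)]⟩] (.ndet 2 [⟨3, [(18, 1), (16, 1), (12, 2), (0, 1)]⟩, ⟨3, [(18, 2), (13, 1), (12, 1), (0, 2)]⟩] s19_9_t1)))⟩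
def s19_9_t2 : Tree := .ndet 2 [⟨1, [(15, 1), (4, 1)]⟩, ⟨1, [(24, 1), (15, 1), (4, 1)]⟩] (.dbr (.cons (.ndet 1 [⟨1, [(16, 1), (5, 1)]⟩, ⟨1, [(19, 1), (9, 1), (5, 1)]⟩] (.ddet 1 [⟨1, [(9, 1), (5, 1)]⟩] (.split [0, 1, 0, -1] (0) (.leaf 1 [⟨1, [(0, 1)]⟩, ⟨1, [(17, 1), (6, 1), (0, 1)]⟩, ⟨1, [(10, 1), (6, 1)]⟩, ⟨1, [(0, 1)]⟩, ⟨1, [(0, 2)]⟩, ⟨1, [(0, 3)]⟩, ⟨1, []⟩, ⟨1, [(0, 2)]⟩, ⟨1, [(4, 1), (1, 1)]⟩, ⟨1, [(0, 1)]⟩, ⟨1, []⟩, ⟨1, [(0, 1)]⟩, ⟨1, [(0, 2)]⟩, ⟨1, [(4, 1), (1, 1)]⟩, ⟨1, [(0, 1)]⟩, ⟨1, [(4, 1), (1, 1)]⟩, ⟨1, []⟩, ⟨1, [(4, 1), (1, 1)]⟩, ⟨1, []⟩, ⟨1, [(0, 1)]⟩, ⟨1, [(10, 1), (6, 1)]⟩, ⟨1, [(4, 1), (1, 1)]⟩, ⟨1,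 []⟩, ⟨1, [(4, 1), (1, 1)]⟩, ⟨1, []⟩]) (.leaf 3 [⟨1, [(17, 1), (6, 1)]⟩, ⟨1, [(0, 1)]⟩, ⟨1, [(17, 1), (6, 1), (0, 2)]⟩, ⟨1, [(26, 1)]⟩, ⟨1, [(26, 3)]⟩, ⟨1, []⟩, ⟨1, [(0, 1)]⟩, ⟨1, []⟩, ⟨1, [(26, 1)]⟩, ⟨1, [(17, 1), (6, 1)]⟩, ⟨1, []⟩, ⟨1, []⟩, ⟨1, []⟩, ⟨1, [(0, 1)]⟩])))) (.cons (.ndet 1 [⟨1, [(17, 1), (5, 1), (0, 1)]⟩, ⟨1, [(17, 1), (5, 1)]⟩] (.ddet 1 [⟨1, [(10, 1), (5, 1), (0, 1)]⟩] (.leaf 1 [⟨1, [(19, 1)]⟩, ⟨1, [(19, 1), (17, 1), (5, 1), (0, 2)]⟩, ⟨1, [(10, 1), (5, 1), (0, 1)]⟩, ⟨1, [(19, 1), (0, 1)]⟩, ⟨1, [(19, 2), (0, 1)]⟩, ⟨1, [(19, 3), (0, 1)]⟩, ⟨1, []⟩, ⟨1, [(19, 2)]⟩, ⟨1, [(4, 1)]⟩, ⟨1, [(19, 1), (12, 1)]⟩,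 ⟨1, [(0, 1)]⟩, ⟨1, [(19, 1), (0, 1)]⟩, ⟨1, [(19, 2), (0, 1)]⟩, ⟨1, [(3, 1)]⟩, ⟨1, [(19, 1)]⟩, ⟨1, [(4, 1)]⟩, ⟨1, [(12, 1)]⟩, ⟨1, [(3, 1), (0, 1)]⟩, ⟨1, [(0, 1)]⟩, ⟨1, [(19, 1), (0, 1)]⟩, ⟨1, [(10, 1), (5, 1), (0, 2)]⟩, ⟨1, [(3, 1)]⟩, ⟨1, []⟩, ⟨1, [(4, 1)]⟩, ⟨1, [(12, 1)]⟩]))) .nil)))
def s19_9_t3 : Tree := .dbr (.cons (.ndet 1 [⟨1, [(8, 1), (4, 1)]⟩, ⟨1, [(10, 1), (4, 1)]⟩] (.ddet 1 [⟨1, [(15, 1), (4, 1)]⟩] s19_9_t2)) (.cons (.ndet 1 [⟨1, [(10, 1), (4, 1)]⟩, ⟨1, [(12, 1), (4, 1)]⟩] (.ddet 1 [⟨1, [(17, 1), (4, 1), (0, 1)]⟩] (.ndet 2 [⟨1, [(17, 1), (4, 1), (0, 1)]⟩, ⟨1, [(24, 1), (17, 1), (4, 1), (0, 2)]⟩] (.ddet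 0 [⟨1, [(14, 1), (0, 1)]⟩] (.ndet 1 [⟨1, [(17, 1), (4, 1), (0, 1)]⟩, ⟨1, [(24, 1), (4, 1), (0, 1)]⟩] (.ddet 1 [⟨1, [(10, 1), (4, 1)]⟩] (.split [0, 1, 1, -1] (-2000) (.leaf 1 [⟨1, [(0, 1)]⟩, ⟨1, [(18, 1), (5, 1), (1, 1), (0, 1)]⟩, ⟨1, [(11, 1), (5, 1)]⟩, ⟨1, [(0, 1)]⟩, ⟨1, [(0, 2)]⟩, ⟨1, [(0, 3)]⟩, ⟨1, []⟩, ⟨1, [(0, 2)]⟩, ⟨1, [(7, 1)]⟩, ⟨1, [(0, 1)]⟩, ⟨1, []⟩, ⟨1, [(0, 1)]⟩, ⟨1, [(0, 2)]⟩, ⟨1, [(7, 1)]⟩, ⟨1, [(0, 1)]⟩, ⟨1, [(7, 1)]⟩, ⟨1, []⟩, ⟨1, [(7, 1)]⟩, ⟨1, []⟩, ⟨1, [(0, 1)]⟩, ⟨1, [(11, 1), (5, 1)]⟩, ⟨1, [(7, 1)]⟩, ⟨1, []⟩, ⟨1, [(7, 1)]⟩, ⟨1, []⟩]) (.leaf 3 [⟨1, [(18, 1), (5, 1), (1, 1)]⟩, ⟨1, [(0, 1)]⟩, ⟨1,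 [(18, 1), (5, 1), (1, 1), (0, 2)]⟩, ⟨1, [(25, 1), (1, 1)]⟩, ⟨1, [(25, 3), (1, 3)]⟩, ⟨1, []⟩, ⟨1, [(0, 1)]⟩, ⟨1, []⟩, ⟨1, [(25, 1), (1, 1)]⟩, ⟨1, [(18, 1), (5, 1), (1, 1)]⟩, ⟨1, []⟩, ⟨1, []⟩, ⟨1, []⟩, ⟨1, [(0, 1)]⟩])))))))) .nil))
def s19_9_n1 : Node := ⟨[⟨[0, 1, 0, -1], -200⟩, ⟨[0, 1, -1], -200⟩, ⟨[-1, 1], -200⟩, ⟨[-1, 1, -1, -1], -3340⟩, ⟨[0, 1, -1, -1], -2323⟩, ⟨[1, 1, -1, -1], -1330⟩, ⟨[-1, 1, 0, -1], -1320⟩, ⟨[1, 1, 0, -1], 686⟩, ⟨[-1, 1, 1, -1], -349⟩, ⟨[1, 1, 1, -1], 2650⟩, ⟨[-1, 0, -1], -3360⟩, ⟨[0, 0, -1], -2324⟩, ⟨[1, 0, -1], -1331⟩, ⟨[-1], -2340⟩, ⟨[1], 685⟩, ⟨[0, 0, 1], 655⟩, ⟨[1, 0, 1], 2640⟩, ⟨[-1,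 -1, -1, 1], -4380⟩, ⟨[0, -1, -1, 1], -2340⟩, ⟨[1, -1, -1, 1], -1333⟩, ⟨[-1, 0, -1, 1], 179700⟩, ⟨[0, -1, 0, 1], -1331⟩, ⟨[1, -1, 0, 1], 680⟩, ⟨[1, -1, 1, 1], 1640⟩], [0, 1], 0, none, (.ndet 2 [⟨1, [(7, 1), (3, 1)]⟩, ⟨1, [(8, 1), (3, 1)]⟩] s19_9_t3)⟩
def s19_9_t4 : Tree := .dbr (.cons (.ndet 1 [⟨1, [(17, 2), (11, 1), (10, 1)]⟩, ⟨1, [(17, 1), (10, 1)]⟩] (.ddet 1 [⟨1, [(17, 1), (11, 1), (10, 1)]⟩] (.ndet 2 [⟨1, [(17, 1), (11, 1), (10, 1)]⟩, ⟨1, [(11, 1), (10, 1)]⟩] (.ddet 0 [⟨1, [(17, 1)]⟩] (.split [1, 0, -1] (0) (.leaf 0 [⟨1, [(18, 2), (12, 1), (11, 1)]⟩, ⟨1, [(0, 1)]⟩, ⟨1, [(12, 1), (11, 1)]⟩, ⟨1, [(0, 1)]⟩, ⟨1,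 []⟩, ⟨1, []⟩, ⟨1, [(18, 1), (12, 1), (11, 1)]⟩, ⟨1, [(18, 1)]⟩, ⟨1, [(18, 1)]⟩, ⟨1, [(18, 2)]⟩, ⟨1, [(18, 3), (12, 1), (11, 1)]⟩, ⟨1, [(0, 2)]⟩, ⟨1, []⟩, ⟨1, [(0, 1)]⟩, ⟨1, [(18, 1)]⟩, ⟨1, []⟩, ⟨1, [(18, 1), (12, 1), (11, 1)]⟩, ⟨1, [(18, 1)]⟩, ⟨1, [(18, 2)]⟩, ⟨1, [(0, 3)]⟩, ⟨1, [(0, 2)]⟩, ⟨1, [(0, 1)]⟩, ⟨1, [(0, 2)]⟩, ⟨1, [(0, 1)]⟩, ⟨1, []⟩, ⟨1, [(0, 1)]⟩, ⟨1, [(12, 1), (11, 1)]⟩, ⟨1, []⟩, ⟨1, [(18, 1)]⟩, ⟨1, [(0, 1)]⟩]) (.leaf 2 [⟨1, [(12, 1), (11, 1), (0, 3)]⟩, ⟨1, [(12, 1), (11, 1), (0, 1)]⟩, ⟨1, [(0, 1)]⟩, ⟨1, [(12, 1), (1, 1)]⟩, ⟨1, []⟩, ⟨1, [(0, 1)]⟩, ⟨1, []⟩, ⟨1, [(12, 1), (11, 1), (0, 1)]⟩, ⟨1, []⟩, ⟨1,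 [(12, 1), (11, 1)]⟩, ⟨1, []⟩, ⟨1, [(12, 2), (1, 2)]⟩, ⟨1, [(12, 1), (1, 1)]⟩, ⟨1, [(12, 2), (1, 2)]⟩, ⟨1, [(12, 2), (11, 1), (1, 1)]⟩, ⟨1, [(12, 1), (1, 1)]⟩, ⟨1, []⟩, ⟨1, [(12, 1), (1, 1)]⟩, ⟨1, []⟩, ⟨1, []⟩])))))) (.cons (.ndet 1 [⟨1, [(17, 1), (10, 1)]⟩, ⟨1, [(10, 1), (9, 1)]⟩] (.ddet 1 [⟨1, [(10, 1), (0, 1)]⟩] (.ndet 2 [⟨1, [(10, 1), (0, 1)]⟩, ⟨1, [(11, 1), (10, 1), (0, 1)]⟩] (.ddet 0 [⟨1, [(17, 1)]⟩] (.split [1, 1, -1] (-2000) (.leaf 0 [⟨1, [(18, 1), (11, 1), (1, 1)]⟩, ⟨1, [(0, 1)]⟩, ⟨1, [(11, 1), (1, 1), (0, 1)]⟩, ⟨1, [(1, 1), (0, 1)]⟩, ⟨1, [(1, 1)]⟩, ⟨1, [(1, 1)]⟩, ⟨1, [(11, 1), (1, 2)]⟩, ⟨1, [(18, 1)]⟩,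 ⟨1, [(18, 1)]⟩, ⟨1, [(18, 1), (10, 1)]⟩, ⟨1, [(18, 2), (11, 1)]⟩, ⟨1, [(0, 2)]⟩, ⟨1, []⟩, ⟨1, [(0, 1)]⟩, ⟨1, [(10, 1)]⟩, ⟨1, []⟩, ⟨1, [(11, 1), (1, 1)]⟩, ⟨1, [(10, 1)]⟩, ⟨1, [(10, 2)]⟩, ⟨3, [(17, 1), (7, 1), (0, 8)]⟩, ⟨3, [(17, 1), (7, 1), (0, 5)]⟩, ⟨3, [(17, 1), (7, 1), (0, 2)]⟩, ⟨3, [(17, 1), (7, 1), (0, 5)]⟩, ⟨3, [(17, 1), (7, 1), (0, 2)]⟩, ⟨3, [(17, 1), (10, 1), (7, 1)]⟩, ⟨3, [(17, 1), (7, 1), (0, 2)]⟩, ⟨1, [(11, 1), (0, 1)]⟩, ⟨3, [(17, 1), (10, 1), (7, 1)]⟩, ⟨3, [(17, 1), (10, 4), (7, 1)]⟩, ⟨3, [(17, 1), (7, 1), (0, 2)]⟩]) (.leaf 2 [⟨1, [(11, 1), (1, 2), (0, 2)]⟩, ⟨1, [(11, 1), (1, 1)]⟩, ⟨1, [(0, 1)]⟩, ⟨1,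 [(12, 1), (1, 1)]⟩, ⟨1, [(1, 1)]⟩, ⟨1, [(1, 1), (0, 1)]⟩, ⟨1, [(1, 1)]⟩, ⟨1, [(11, 1), (1, 2)]⟩, ⟨1, []⟩, ⟨1, [(12, 1), (11, 1), (1, 1)]⟩, ⟨1, []⟩, ⟨3, [(17, 1), (12, 4), (9, 1)]⟩, ⟨3, [(17, 1), (12, 1), (9, 1)]⟩, ⟨3, [(17, 1), (12, 4), (9, 1)]⟩, ⟨1, [(12, 2), (11, 1)]⟩, ⟨3, [(17, 1), (12, 1), (9, 1)]⟩, ⟨3, [(17, 1), (7, 1), (0, 1)]⟩, ⟨3, [(17, 1), (12, 1), (9, 1)]⟩, ⟨3, [(17, 1), (7, 1), (0, 1)]⟩, ⟨3, [(17, 1), (7, 1), (0, 1)]⟩])))))) .nil))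
def s19_9_n2 : Node := ⟨[⟨[0, 0, 1, -1], -200⟩, ⟨[0, -1, 1], -200⟩, ⟨[-1, 0, 1], -200⟩, ⟨[1, -1, -1, -1], -3375⟩, ⟨[1, 0, -1, -1], -1360⟩, ⟨[1, 1, -1, -1], 600⟩, ⟨[0, -1, 0, -1], -3360⟩, ⟨[1, -1, 0, -1], 179000⟩, ⟨[1, 1, -1], 1660⟩, ⟨[1, -1], 179700⟩, ⟨[-1, -1, 1], -2340⟩, ⟨[1, 0, -1, 1], -81⟩, ⟨[1, 1, -1, 1], 1920⟩, ⟨[0, -1, 0, 1], -2069⟩, ⟨[1, -1, 0, 1], 179700⟩, ⟨[0, 0, 0, 1], -45⟩, ⟨[0, 1, 0, 1], 1940⟩, ⟨[-1, -1, 1, 1], -2060⟩, ⟨[-1, 0, 1, 1], -30⟩], [0, 0, 1], 0, none, (.ndet 1 [⟨1, [(16, 1), (10, 1), (9, 1)]⟩, ⟨1, [(16, 1), (11, 1), (10, 1)]⟩] (.ddet 1 [⟨1, [(16, 2), (10, 1), (9, 1)]⟩] (.ndet 2 [⟨1, [(16,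 2), (10, 1), (9, 1)]⟩, ⟨1, [(16, 3), (10, 1), (9, 1)]⟩] s19_9_t4)))⟩
def s19_9_t5 : Tree := .dbr (.cons (.ndet 1 [⟨1, [(12, 1), (4, 1), (3, 1)]⟩, ⟨1, [(4, 1), (1, 1)]⟩] (.ddet 1 [⟨1, [(4, 1), (3, 1)]⟩] (.ndet 2 [⟨1, [(4, 1), (3, 1)]⟩, ⟨1, [(5, 1), (4, 1)]⟩] (.ddet 0 [⟨1, [(12, 1), (8, 1)]⟩] (.ndet 1 [⟨1, [(4, 1), (3, 1)]⟩, ⟨2, [(12, 1), (7, 1), (4, 2), (3, 1)]⟩] (.ddet 1 [⟨1, [(12, 1), (4, 1), (3, 1)]⟩] (.split [0, 1, 0, -1] (0) (.leaf 1 [⟨1, [(0, 1)]⟩, ⟨1, [(5, 1), (4, 1), (0, 1)]⟩, ⟨1, [(13, 1), (5, 1), (4, 1)]⟩, ⟨1, [(0, 1)]⟩, ⟨1, [(0, 2)]⟩, ⟨1, [(0, 3)]⟩, ⟨1, []⟩, ⟨1, [(0, 2)]⟩, ⟨1, [(13, 1)]⟩, ⟨1, [(0, 1)]⟩,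 ⟨1, []⟩, ⟨1, [(0, 1)]⟩, ⟨1, [(0, 2)]⟩, ⟨1, [(13, 1)]⟩, ⟨1, [(0, 1)]⟩, ⟨1, [(13, 1)]⟩, ⟨1, []⟩, ⟨1, [(13, 1)]⟩, ⟨1, []⟩, ⟨1, [(0, 1)]⟩, ⟨1, [(13, 1), (5, 1), (4, 1)]⟩, ⟨1, [(13, 1)]⟩, ⟨1, []⟩, ⟨1, [(13, 1)]⟩, ⟨1, [(0, 1)]⟩]) (.leaf 3 [⟨1, [(5, 1), (4, 1)]⟩, ⟨1, [(0, 1)]⟩, ⟨1, [(5, 1), (4, 1), (0, 2)]⟩, ⟨1, [(7, 1), (1, 1)]⟩, ⟨1, [(7, 3), (1, 3)]⟩, ⟨1, []⟩, ⟨1, [(0, 1)]⟩, ⟨1, []⟩, ⟨1, [(7, 1), (1, 1)]⟩, ⟨1, [(5, 1), (4, 1)]⟩, ⟨1, []⟩, ⟨1, []⟩, ⟨1, []⟩, ⟨1, []⟩])))))))) (.cons (.ndet 1 [⟨1, [(4, 1), (1, 1)]⟩, ⟨3, [(9, 1), (4, 3), (2, 2), (1, 2)]⟩] (.ddet 1 [⟨2, [(5, 1), (4, 2), (1, 1), (0, 1)]⟩] (.ndet 2 [⟨2, [(5,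 1), (4, 2), (1, 1), (0, 1)]⟩, ⟨1, [(5, 1), (4, 1), (0, 1)]⟩] (.ddet 0 [⟨1, [(12, 1), (8, 1)]⟩] (.ndet 1 [⟨2, [(5, 1), (4, 2), (1, 1), (0, 1)]⟩, ⟨1, [(4, 1), (0, 1)]⟩] (.ddet 1 [⟨1, [(4, 1), (1, 1)]⟩] (.split [0, 1, 1, -1] (-2000) (.leaf 1 [⟨1, [(0, 1)]⟩, ⟨1, [(5, 1), (2, 1), (0, 2)]⟩, ⟨1, [(5, 1), (2, 1)]⟩, ⟨1, [(0, 1)]⟩, ⟨1, [(0, 2)]⟩, ⟨1, [(0, 3)]⟩, ⟨1, []⟩, ⟨1, [(0, 2)]⟩, ⟨1, [(3, 1)]⟩, ⟨1, [(0, 1)]⟩, ⟨1, []⟩, ⟨1, [(0, 1)]⟩, ⟨1, [(0, 2)]⟩, ⟨1, [(3, 1)]⟩, ⟨1, [(0, 1)]⟩, ⟨1, [(3, 1)]⟩, ⟨1, []⟩, ⟨1, [(3, 1)]⟩, ⟨1, []⟩, ⟨1, [(0, 1)]⟩, ⟨1, [(5, 1), (2, 1)]⟩, ⟨1, [(3, 1)]⟩, ⟨1, []⟩, ⟨1, [(3, 1)]⟩, ⟨4, [(11, 1), (10,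 1), (0, 2)]⟩]) (.leaf 3 [⟨2, [(6, 1), (5, 2), (2, 1), (1, 1)]⟩, ⟨1, [(0, 1)]⟩, ⟨1, [(5, 1), (2, 1), (0, 1)]⟩, ⟨1, [(7, 1)]⟩, ⟨1, [(7, 3)]⟩, ⟨1, []⟩, ⟨1, [(0, 1)]⟩, ⟨1, []⟩, ⟨1, [(7, 1)]⟩, ⟨2, [(6, 1), (5, 2), (2, 1), (1, 1)]⟩, ⟨1, []⟩, ⟨1, []⟩, ⟨1, []⟩, ⟨4, [(11, 1), (10, 1), (0, 2)]⟩])))))))) .nil))
def s19_9_n3 : Node := ⟨[⟨[0, 0, -1, 1], -200⟩, ⟨[0, -1, 0, 1], -200⟩, ⟨[-1, 0, 0, 1], -200⟩, ⟨[-1, 1, -1, -1], -3360⟩, ⟨[1, 1, -1, -1], -2115⟩, ⟨[-1, 1, 0, -1], -1320⟩, ⟨[-1, 1, 1, -1], 640⟩, ⟨[0, 1, 1, -1], 1660⟩, ⟨[1, 1, 1, -1], 2620⟩, ⟨[-1, 1, -1], 179700⟩, ⟨[1, 0, 1], 2640⟩, ⟨[0, -1, -1, 1], -2340⟩, ⟨[1, -1, 0,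 1], 680⟩], [0, 0, 0, 1], 0, none, (.ndet 2 [⟨1, [(11, 1), (3, 1), (2, 1)]⟩, ⟨2, [(11, 3), (6, 1), (3, 2), (2, 1)]⟩] s19_9_t5)⟩
def s19_9 : Sys := ⟨[(0, 0), (1, 0), (4, 2000)], [(0, 1000), (3, -1000)], 4, [s19_9_n0, s19_9_n1, s19_9_n2, s19_9_n3], [1000, 223493, 2000, 223493], (.leaf 1 [⟨1, []⟩, ⟨1, []⟩, ⟨1, []⟩, ⟨1, []⟩, ⟨1, []⟩, ⟨1, []⟩, ⟨1, []⟩, ⟨1, []⟩, ⟨1, []⟩, ⟨1, []⟩, ⟨1, []⟩, ⟨1, []⟩, ⟨1, []⟩, ⟨1, []⟩, ⟨1, []⟩, ⟨1, []⟩, ⟨1, []⟩, ⟨1, []⟩, ⟨1, []⟩, ⟨1, []⟩, ⟨1, []⟩, ⟨1, []⟩, ⟨1, []⟩, ⟨1, []⟩])⟩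

theorem s19_9_ok : s19_9.ok = true := by decide +kernel

def s20_13_n0 : Node := ⟨[⟨[0, -1, 0, 1], 200⟩, ⟨[0, 0, 1], -168⟩, ⟨[0, -1, 1], 280⟩, ⟨[1, 0, -1], 336⟩, ⟨[1], 176⟩, ⟨[1, -1], 712⟩, ⟨[0, -1, -1, 1], 464⟩, ⟨[1], 88⟩, ⟨[1, 0, 1, -1], 152⟩, ⟨[1], 80⟩, ⟨[0, 0, 1, -1], 152⟩], [1], 0, none, (.ndet 1 [⟨1, [(9, 1), (4, 1)]⟩] (.ddet 2 [⟨1, [(9, 1)]⟩, ⟨1, [(9, 1), (4, 1), (0, 1)]⟩] (.ndet 0 [⟨1, [(7, 1)]⟩] (.ddet 1 [⟨1, [(6, 1)]⟩, ⟨1, [(6, 1), (4, 1), (0, 1)]⟩] (.ndet 0 [⟨1, [(4, 1)]⟩] (.ddet 2 [⟨1, [(6, 1)]⟩, ⟨1, [(6, 1), (0, 1)]⟩] (.ndet 1 [⟨1, [(6, 1)]⟩] (.ddet 0 [⟨1, []⟩, ⟨1, [(0, 1)]⟩] (.leaf 0 [⟨1, [(6, 1)]⟩,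 ⟨1, []⟩, ⟨1, [(6, 1), (0, 1)]⟩, ⟨1, [(6, 1)]⟩, ⟨1, [(6, 1)]⟩, ⟨1, [(6, 2), (0, 1)]⟩, ⟨1, [(6, 1)]⟩, ⟨1, [(6, 1)]⟩, ⟨1, [(6, 1), (0, 1)]⟩, ⟨1, [(6, 1)]⟩, ⟨1, [(0, 1)]⟩, ⟨1, []⟩])))))))))⟩
def s20_13 : Sys := ⟨[(2, -80), (4, 80)], [(0, -48), (2, 16), (3, 192)], 4, [s20_13_n0], [416, -832, -96, -272], (.leaf 0 [⟨1, []⟩, ⟨1, []⟩, ⟨1, []⟩, ⟨1, []⟩, ⟨1, []⟩, ⟨1, []⟩, ⟨1, []⟩, ⟨1, []⟩, ⟨1, []⟩, ⟨1, []⟩, ⟨1, []⟩])⟩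

theorem s20_13_ok : s20_13.ok = true := by decide +kernel

def s21_15_n0 : Node := ⟨[⟨[0, -1], 72⟩, ⟨[0, 0, 0, -1], 72⟩, ⟨[0, 0, 1], 88⟩, ⟨[-1, 0, 1], 80⟩, ⟨[0, -1, 1], 144⟩, ⟨[0, 0, 1], 40⟩, ⟨[-1, 0, 1], 40⟩, ⟨[0, 0, 1], 64⟩, ⟨[-1], -16⟩, ⟨[0, -1], 48⟩, ⟨[0, 0, 1], 72⟩, ⟨[0, -1], 96⟩, ⟨[0, 0, 2], 120⟩, ⟨[0, 0, 1], 56⟩, ⟨[0, 0, 2], 112⟩, ⟨[0, 0, 1], 96⟩], [0, 0, 1], 0, none, (.ndet 0 [⟨1, [(4, 1)]⟩, ⟨1, [(14, 1)]⟩] (.ddet 3 [⟨1, [(0, 1)]⟩, ⟨1, [(12, 1)]⟩, ⟨1, [(4, 1), (0, 1)]⟩] (.ndet 2 [⟨1, [(0, 1)]⟩, ⟨1, [(12, 1)]⟩] (.ddet 0 [⟨1, [(0, 1)]⟩, ⟨1, [(7, 1)]⟩, ⟨1, [(4, 1)]⟩] (.ndet 0 [⟨1, [(0, 1)]⟩, ⟨1, [(4, 1)]⟩]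 (.ddet 1 [⟨1, [(0, 1)]⟩, ⟨1, [(0, 2)]⟩, ⟨1, [(12, 1)]⟩] (.ndet 1 [⟨1, [(0, 1)]⟩, ⟨1, [(12, 1)]⟩] (.ddet 2 [⟨1, [(0, 1)]⟩, ⟨1, [(0, 2)]⟩, ⟨1, [(0, 2)]⟩] (.leaf 0 [⟨1, [(0, 1)]⟩, ⟨1, [(0, 1)]⟩, ⟨1, [(0, 1)]⟩, ⟨1, [(0, 1)]⟩, ⟨1, [(0, 2)]⟩, ⟨1, [(0, 1)]⟩, ⟨1, [(0, 1)]⟩, ⟨1, [(0, 1)]⟩, ⟨1, []⟩, ⟨1, [(0, 1)]⟩, ⟨1, [(0, 1)]⟩, ⟨1, [(0, 1)]⟩, ⟨1, [(0, 2)]⟩, ⟨1, [(0, 1)]⟩, ⟨1, [(0, 2)]⟩, ⟨1, [(0, 1)]⟩, ⟨1, []⟩])))))))))⟩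
def s21_15 : Sys := ⟨[(0, -16), (2, -16), (4, 32)], [(0, 16), (1, 0), (2, -16), (3, -32)], 4, [s21_15_n0], [0, -144, 128, -96], (.leaf 0 [⟨1, []⟩, ⟨1, []⟩, ⟨1, []⟩, ⟨1, []⟩, ⟨1, []⟩, ⟨1, []⟩, ⟨1, []⟩, ⟨1, []⟩, ⟨1, []⟩, ⟨1, []⟩, ⟨1, []⟩, ⟨1, []⟩, ⟨1, []⟩, ⟨1, []⟩, ⟨1, []⟩, ⟨1, []⟩])⟩

theorem s21_15_ok : s21_15.ok = true := by decide +kernel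

def s23_9_n0 : Node := ⟨[⟨[0, 1], -32⟩, ⟨[-1, 1], 0⟩, ⟨[0, 1, 0, -1], -16⟩, ⟨[0, 0, -1], -8⟩, ⟨[0, 1], 0⟩, ⟨[-1, 1], 72⟩, ⟨[0, 1, -1], 40⟩, ⟨[0, 1], 40⟩, ⟨[-1], 0⟩], [0, 1], 0, none, (.ndet 2 [⟨1, [(1, 1)]⟩, ⟨1, [(3, 1)]⟩, ⟨1, [(6, 1)]⟩] (.ddet 0 [⟨1, [(5, 1)]⟩] (.ndet 1 [⟨1, [(1, 1)]⟩, ⟨1, [(3, 1)]⟩, ⟨1, [(2, 1)]⟩] (.ddet 1 [⟨1, [(1, 1)]⟩] (.leaf 0 [⟨1, [(1, 1)]⟩, ⟨1, [(1, 1)]⟩, ⟨1, []⟩, ⟨1, [(0, 1)]⟩, ⟨1, [(1, 1)]⟩, ⟨1, [(1, 1)]⟩, ⟨1, [(3, 1)]⟩, ⟨1, [(1, 1)]⟩, ⟨1, []⟩, ⟨1, []⟩])))))⟩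
def s23_9 : Sys := ⟨[(0, -80), (1, -32), (2, 48), (4, 0)], [(0, 32), (3, 16)], 4, [s23_9_n0], [-16, 64, 0, 48], (.leaf 0 [⟨1, []⟩, ⟨1, []⟩, ⟨1, []⟩, ⟨1, []⟩, ⟨1, []⟩, ⟨1, []⟩, ⟨1, []⟩, ⟨1, []⟩, ⟨1, []⟩])⟩

theorem s23_9_ok : s23_9.ok = true := by decide +kernel

def s27_9_t0 : Tree := .nbr (.cons (.prune [(29, 1), (25, 1), (16, 1), (6, 1), (1, 2)]) (.cons (.ddet 1 [⟨2, [(33, 2), (25, 1), (6, 1)]⟩] (.ndet 3 [⟨2, [(33, 2), (25, 1), (6, 1)]⟩, ⟨2, [(33, 4), (24, 1), (9, 1)]⟩, ⟨2, [(33, 2), (25, 1), (6, 1)]⟩] (.ddet 0 [⟨1, []⟩] (.leaf 2 [⟨2, [(25, 1), (6, 1)]⟩, ⟨2, [(33, 2), (25, 1), (6, 1)]⟩, ⟨1, [(1, 1)]⟩, ⟨1, [(33,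 1)]⟩, ⟨1, []⟩, ⟨1, [(33, 1)]⟩, ⟨2, [(33, 4), (24, 1), (9, 1)]⟩, ⟨1, []⟩, ⟨1, [(1, 1)]⟩, ⟨2, [(25, 1), (6, 1)]⟩, ⟨1, []⟩, ⟨1, [(1, 1)]⟩, ⟨1, [(1, 2)]⟩, ⟨1, []⟩, ⟨1, [(1, 1)]⟩, ⟨1, []⟩, ⟨1, [(1, 2)]⟩, ⟨1, [(33, 1)]⟩, ⟨1, []⟩, ⟨1, [(33, 1)]⟩, ⟨2, [(33, 4), (24, 1), (9, 1)]⟩, ⟨1, []⟩, ⟨1, [(1, 1)]⟩, ⟨2, [(25, 1), (6, 1)]⟩, ⟨1, []⟩, ⟨1, [(1, 1)]⟩, ⟨1, [(1, 2)]⟩, ⟨1, [(1, 1)]⟩])))) (.cons (.ddet 1 [⟨2, [(25, 1), (6, 1), (1, 2)]⟩] (.ndet 3 [⟨2, [(25, 1), (6, 1), (1, 2)]⟩, ⟨2, [(25, 1), (6, 1), (1, 2)]⟩, ⟨2, [(25, 1), (6, 1), (1, 2)]⟩] (.ddet 0 [⟨1, []⟩] (.leaf 0 [⟨2, [(25, 1), (6, 1), (1, 2)]⟩, ⟨1, [(1, 1)]⟩, ⟨2, [(25,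 1), (6, 1), (1, 2)]⟩, ⟨1, [(1, 1)]⟩, ⟨1, [(1, 1)]⟩, ⟨1, [(1, 1)]⟩, ⟨1, []⟩, ⟨1, []⟩, ⟨1, [(4, 1)]⟩, ⟨2, [(25, 1), (6, 1)]⟩, ⟨2, [(25, 1), (6, 1)]⟩, ⟨1, [(1, 1)]⟩, ⟨1, [(1, 1)]⟩, ⟨1, []⟩, ⟨1, []⟩, ⟨1, [(4, 1)]⟩, ⟨1, [(4, 1)]⟩, ⟨1, [(4, 1)]⟩, ⟨1, [(1, 1)]⟩, ⟨1, [(1, 1)]⟩, ⟨1, [(1, 1)]⟩, ⟨1, []⟩, ⟨1, []⟩, ⟨1, []⟩, ⟨1, [(4, 1)]⟩, ⟨2, [(25, 1), (6, 1)]⟩, ⟨1, [(4, 1)]⟩, ⟨1, [(4, 1)]⟩, ⟨2, [(25, 1), (6, 1)]⟩, ⟨1, []⟩])))) (.cons (.prune [(25, 3), (16, 1), (10, 1), (6, 1), (1, 4)]) .nil))))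
def s27_9_t1 : Tree := .nbr (.cons (.prune [(22, 1), (3, 1), (1, 2)]) (.cons (.ddet 1 [⟨2, [(22, 1), (3, 1)]⟩] (.ndet 3 [⟨2, [(22, 1), (3, 1)]⟩, ⟨2, [(22, 1), (21, 1), (5, 2)]⟩, ⟨2, [(22, 1), (6, 1)]⟩] (.ddet 0 [⟨1, [(18, 1)]⟩] (.ndet 2 [⟨2, [(22, 1), (3, 1), (1, 2)]⟩, ⟨1, [(1, 1)]⟩, ⟨2, [(22, 1), (6, 1), (1, 2)]⟩] (.ddet 1 [⟨2, [(22, 1), (3, 1), (1, 2)]⟩] (.ndet 3 [⟨2, [(22, 1), (3, 1), (1, 2)]⟩, ⟨2, [(22, 1), (3, 1), (1, 2)]⟩, ⟨2, [(22, 1), (3, 1)]⟩] (.dbr (.cons (.leaf 0 [⟨2, [(23, 1), (4, 1)]⟩, ⟨1, [(2, 1)]⟩, ⟨2, [(23, 1), (4, 1), (2, 2)]⟩, ⟨1, []⟩, ⟨1, []⟩, ⟨1, []⟩, ⟨1, [(0, 1)]⟩, ⟨1, [(0, 1)]⟩, ⟨1, [(0, 2)]⟩,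 ⟨2, [(23, 1), (22, 1), (6, 2)]⟩, ⟨2, [(23, 1), (22, 1), (6, 2)]⟩, ⟨1, [(2, 1)]⟩, ⟨1, [(2, 1)]⟩, ⟨1, []⟩, ⟨1, []⟩, ⟨1, [(0, 1)]⟩, ⟨1, [(0, 1)]⟩, ⟨1, [(0, 1)]⟩, ⟨1, [(2, 2)]⟩, ⟨1, [(2, 2)]⟩, ⟨1, [(2, 2)]⟩, ⟨1, [(2, 1)]⟩, ⟨1, [(2, 1)]⟩, ⟨1, [(2, 1)]⟩, ⟨1, []⟩, ⟨2, [(23, 1), (4, 1), (2, 2)]⟩, ⟨1, []⟩, ⟨1, []⟩, ⟨2, [(23, 1), (4, 1), (2, 2)]⟩, ⟨1, []⟩]) (.cons (.leaf 0 [⟨2, [(23, 1), (22, 1), (6, 2)]⟩, ⟨1, []⟩, ⟨2, [(23, 1), (22, 1), (6, 2), (0, 2)]⟩, ⟨1, [(16, 1)]⟩, ⟨1, [(16, 1)]⟩, ⟨1, [(16, 1)]⟩, ⟨1, [(16, 1)]⟩, ⟨1, [(16, 1)]⟩, ⟨1, [(16, 1)]⟩, ⟨2, [(23, 1), (22, 1), (6, 2)]⟩, ⟨2, [(23, 1), (22, 1), (6, 2)]⟩, ⟨1, []⟩,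 ⟨1, []⟩, ⟨1, []⟩, ⟨1, []⟩, ⟨1, []⟩, ⟨1, []⟩, ⟨1, []⟩, ⟨1, [(0, 1)]⟩, ⟨1, [(0, 1)]⟩, ⟨1, [(0, 1)]⟩, ⟨1, [(0, 1)]⟩, ⟨1, [(0, 1)]⟩, ⟨1, [(0, 1)]⟩, ⟨1, [(0, 1)]⟩, ⟨2, [(23, 1), (22, 1), (6, 2), (0, 4)]⟩, ⟨1, [(0, 1)]⟩, ⟨1, [(0, 1)]⟩, ⟨2, [(23, 1), (22, 1), (6, 2), (0, 4)]⟩, ⟨1, [(16, 1)]⟩]) .nil))))))))) (.cons (.ddet 1 [⟨2, [(22, 1), (3, 1)]⟩] (.ndet 3 [⟨2, [(22, 1), (3, 1)]⟩, ⟨2, [(22, 1), (3, 1)]⟩, ⟨2, [(22, 1), (6, 1)]⟩] (.ddet 0 [⟨1, [(18, 1)]⟩] s27_9_t0))) (.cons (.prune [(27, 2), (22, 1), (3, 1), (1, 2)]) .nil))))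
def s27_9_n0 : Node := ⟨[⟨[1, 0, 0, -1], -200⟩, ⟨[1, 0, -1], -200⟩, ⟨[1, -1], -200⟩, ⟨[1, -1, -1, -1], -344⟩, ⟨[1, 0, -1, -1], -311⟩, ⟨[1, 1, -1, -1], -320⟩, ⟨[0, -1, 0, -1], -1360⟩, ⟨[0, 0, 0, -1], -1340⟩, ⟨[-1, -1, 1, -1], -3357⟩, ⟨[0, -1, 1, -1], 119700⟩, ⟨[0, 1, 1, -1], 119700⟩, ⟨[1, -1, -1], -334⟩, ⟨[1, 1, -1], -309⟩, ⟨[0, -1], -335⟩, ⟨[0, 1], -320⟩, ⟨[-1, -1, 1], -2347⟩, ⟨[-1, 0, 1], -2329⟩, ⟨[-1, 1, 1], -2342⟩, ⟨[1, -1, -1, 1], -328⟩, ⟨[1, 0, -1, 1], -315⟩, ⟨[1, 1, -1, 1], -327⟩, ⟨[0, -1, 0, 1], -339⟩, ⟨[0, 0, 0, 1], -320⟩, ⟨[0, 1, 0, 1], -340⟩, ⟨[-1, -1, 1, 1], -1380⟩, ⟨[0, -1, 1, 1], 119700⟩, ⟨[-1, 0, 1,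 1], -1360⟩, ⟨[-1, 1, 1, 1], -1380⟩, ⟨[0, 1, 1, 1], 119700⟩], [1], 0, none, s27_9_t1⟩
def s27_9_t2 : Tree := .dbr (.cons (.nbr (.cons (.prune [(14, 1), (7, 1), (1, 2)]) (.cons (.ddet 1 [⟨2, [(14, 1), (7, 1)]⟩] (.leaf 1 [⟨1, [(1, 1)]⟩, ⟨2, [(14, 1), (7, 1), (1, 2)]⟩, ⟨2, [(14, 1), (7, 1)]⟩, ⟨1, []⟩, ⟨1, [(1, 1)]⟩, ⟨1, [(1, 2)]⟩, ⟨1, []⟩, ⟨1, [(1, 2)]⟩, ⟨1, []⟩, ⟨1, [(1, 1)]⟩, ⟨1, [(1, 2)]⟩, ⟨1, [(11, 1), (3, 1)]⟩, ⟨1, []⟩, ⟨1, [(1, 1)]⟩, ⟨1, [(11, 1), (3, 1)]⟩, ⟨1, [(1, 1)]⟩, ⟨1, [(11, 1), (3, 1)]⟩, ⟨1, []⟩, ⟨1, [(1, 1)]⟩, ⟨1, [(11, 1), (3, 1)]⟩, ⟨1, []⟩, ⟨2, [(14, 1), (11, 2), (8, 1)]⟩, ⟨2, [(14, 1), (7, 1), (1,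 2)]⟩, ⟨1, [(11, 1), (3, 1)]⟩, ⟨1, []⟩, ⟨1, [(11, 1), (3, 1)]⟩, ⟨1, []⟩, ⟨2, [(14, 1), (11, 2), (8, 1)]⟩, ⟨2, [(14, 1), (7, 1), (1, 2)]⟩, ⟨1, []⟩])) (.cons (.ddet 1 [⟨2, [(14, 1), (7, 1)]⟩] (.leaf 1 [⟨1, [(5, 1)]⟩, ⟨2, [(14, 1), (7, 1), (5, 2)]⟩, ⟨2, [(14, 1), (7, 1), (5, 2)]⟩, ⟨1, [(5, 1)]⟩, ⟨1, [(5, 1)]⟩, ⟨1, [(5, 1)]⟩, ⟨1, [(5, 1)]⟩, ⟨1, [(5, 1)]⟩, ⟨1, [(5, 1)]⟩, ⟨1, [(5, 1)]⟩, ⟨1, [(5, 1)]⟩, ⟨1, []⟩, ⟨1, []⟩, ⟨1, []⟩, ⟨1, []⟩, ⟨1, []⟩, ⟨1, []⟩, ⟨1, []⟩, ⟨1, []⟩, ⟨1, [(1, 1)]⟩, ⟨1, [(1, 1)]⟩, ⟨2, [(14, 1), (7, 1)]⟩, ⟨2, [(14, 1), (7, 1)]⟩, ⟨1, [(1, 1)]⟩, ⟨1, [(1, 1)]⟩, ⟨1, [(1, 1)]⟩, ⟨1, [(1, 1)]⟩, ⟨2, [(14, 1),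 (7, 1)]⟩, ⟨2, [(14, 1), (7, 1)]⟩, ⟨1, []⟩])) (.cons (.prune [(14, 1), (8, 1), (0, 2)]) .nil))))) (.cons (.nbr (.cons (.prune [(14, 1), (7, 1), (1, 2)]) (.cons (.ddet 1 [⟨2, [(14, 1), (8, 1), (3, 2)]⟩] (.leaf 1 [⟨1, [(1, 1)]⟩, ⟨2, [(14, 1), (8, 1), (3, 2), (1, 2)]⟩, ⟨2, [(14, 1), (8, 1), (3, 2)]⟩, ⟨1, []⟩, ⟨1, [(1, 1)]⟩, ⟨1, [(1, 2)]⟩, ⟨1, []⟩, ⟨1, [(1, 2)]⟩, ⟨1, []⟩, ⟨1, [(1, 1)]⟩, ⟨1, [(1, 2)]⟩, ⟨1, [(11, 1)]⟩, ⟨1, []⟩, ⟨1, [(1, 1)]⟩, ⟨1, [(11, 1)]⟩, ⟨1, [(1, 1)]⟩, ⟨1, [(11, 1)]⟩, ⟨1, []⟩, ⟨1, [(1, 1)]⟩, ⟨1, [(11, 1)]⟩, ⟨1, []⟩, ⟨2, [(14, 1), (11, 2), (8, 1), (3, 2)]⟩, ⟨2, [(14, 1), (8, 1), (3, 2), (1, 2)]⟩, ⟨1,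 [(11, 1)]⟩, ⟨1, []⟩, ⟨1, [(11, 1)]⟩, ⟨1, []⟩, ⟨2, [(14, 1), (11, 2), (8, 1), (3, 2)]⟩, ⟨2, [(14, 1), (8, 1), (3, 2), (1, 2)]⟩, ⟨1, [(21, 1)]⟩])) (.cons (.ddet 1 [⟨2, [(14, 1), (8, 1), (3, 2)]⟩] (.leaf 1 [⟨1, [(29, 1)]⟩, ⟨2, [(29, 2), (14, 1), (8, 1), (3, 2)]⟩, ⟨2, [(29, 2), (14, 1), (8, 1), (3, 2)]⟩, ⟨1, [(29, 1)]⟩, ⟨1, [(29, 1)]⟩, ⟨1, [(29, 1)]⟩, ⟨1, [(29, 1)]⟩, ⟨1, [(29, 1)]⟩, ⟨1, [(29, 1)]⟩, ⟨1, [(29, 1)]⟩, ⟨1, [(29, 1)]⟩, ⟨1, []⟩, ⟨1, []⟩, ⟨1, []⟩, ⟨1, []⟩, ⟨1, []⟩, ⟨1, []⟩, ⟨1, []⟩, ⟨1, []⟩, ⟨1, [(1, 1)]⟩, ⟨1, [(1, 1)]⟩, ⟨2, [(14, 1), (8, 1), (3, 2)]⟩, ⟨2, [(14, 1), (8, 1), (3, 2)]⟩, ⟨1, [(1, 1)]⟩, ⟨1, [(1,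 1)]⟩, ⟨1, [(1, 1)]⟩, ⟨1, [(1, 1)]⟩, ⟨2, [(14, 1), (8, 1), (3, 2)]⟩, ⟨2, [(14, 1), (8, 1), (3, 2)]⟩, ⟨1, [(21, 1)]⟩])) (.cons (.prune [(14, 1), (8, 1), (0, 2)]) .nil))))) .nil))
def s27_9_t3 : Tree := .nbr (.cons (.prune [(10, 1), (3, 1), (2, 2)]) (.cons (.ddet 1 [⟨2, [(31, 2), (10, 1), (3, 1)]⟩] (.ndet 3 [⟨2, [(31, 2), (10, 1), (3, 1)]⟩, ⟨2, [(31, 4), (9, 1), (4, 1)]⟩, ⟨2, [(31, 2), (10, 1), (4, 1)]⟩] (.ddet 0 [⟨1, [(25, 1), (1, 1)]⟩] (.ndet 2 [⟨2, [(10, 1), (3, 1)]⟩, ⟨1, [(1, 1)]⟩, ⟨2, [(10, 1), (4, 1)]⟩] (.ddet 1 [⟨2, [(10, 1), (3, 1)]⟩] (.leaf 3 [⟨2, [(31, 2), (10, 1), (3, 1)]⟩, ⟨1, [(1, 1)]⟩, ⟨2, [(10, 1), (3,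 1)]⟩, ⟨1, [(31, 2)]⟩, ⟨1, []⟩, ⟨1, []⟩, ⟨1, []⟩, ⟨1, [(31, 1)]⟩, ⟨2, [(31, 4), (9, 1), (4, 1)]⟩, ⟨2, [(31, 4), (9, 1), (4, 1)]⟩, ⟨1, []⟩, ⟨1, []⟩, ⟨1, [(1, 1)]⟩, ⟨1, [(1, 1)]⟩, ⟨1, [(1, 1)]⟩, ⟨2, [(10, 1), (3, 1)]⟩, ⟨2, [(10, 1), (3, 1)]⟩, ⟨1, []⟩, ⟨1, []⟩, ⟨1, []⟩, ⟨1, [(1, 1)]⟩, ⟨1, [(1, 1)]⟩, ⟨1, [(1, 2)]⟩, ⟨1, [(1, 2)]⟩, ⟨1, [(1, 2)]⟩, ⟨1, [(1, 1)]⟩])))))) (.cons (.ddet 1 [⟨2, [(10, 1), (3, 1), (1, 2)]⟩] (.ndet 3 [⟨2, [(10, 1), (3, 1), (1, 2)]⟩, ⟨2, [(10, 1), (3, 1), (1, 2)]⟩, ⟨2, [(10, 1), (4, 1), (1, 2)]⟩] s27_9_t2)) (.cons (.prune [(10, 1), (9, 1), (1, 2)]) .nil))))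
def s27_9_n1 : Node := ⟨[⟨[0, 1, 0, -1], -200⟩, ⟨[0, 1, -1], -200⟩, ⟨[-1, 1], -200⟩, ⟨[-1, 1, -1, -1], -332⟩, ⟨[0, 1, -1, -1], -334⟩, ⟨[1, 1, -1, -1], -348⟩, ⟨[-1, 1, 0, -1], -316⟩, ⟨[1, 1, 0, -1], -317⟩, ⟨[-1, 1, 1, -1], -325⟩, ⟨[0, 1, 1, -1], -309⟩, ⟨[1, 1, 1, -1], -319⟩, ⟨[-1, 0, -1], -1360⟩, ⟨[0, 0, -1], -335⟩, ⟨[1, 0, -1], -349⟩, ⟨[-1], -1340⟩, ⟨[1], -320⟩, ⟨[-1, 0, 1], -1360⟩, ⟨[0, 0, 1], -320⟩, ⟨[1, 0, 1], -340⟩, ⟨[0, -1, -1, 1], -2347⟩, ⟨[1, -1, -1, 1], -1340⟩, ⟨[-1, 0, -1, 1], 119700⟩, ⟨[1, 0, -1, 1], 119700⟩, ⟨[0, -1, 0, 1], -2329⟩, ⟨[1, -1, 0, 1], -1320⟩, ⟨[0, -1, 1, 1], -2342⟩, ⟨[1, -1, 1, 1], -1340⟩,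 ⟨[-1, 0, 1, 1], 119700⟩, ⟨[1, 0, 1, 1], 119700⟩], [0, 1], 0, none, (.ndet 3 [⟨2, [(7, 1), (0, 1)]⟩, ⟨2, [(7, 1), (1, 1)]⟩, ⟨2, [(7, 1), (6, 1)]⟩] (.ddet 0 [⟨1, [(16, 1)]⟩] s27_9_t3))⟩
def s27_9_t4 : Tree := .nbr (.cons (.prune [(21, 1), (19, 2), (10, 2), (4, 1), (2, 3)]) (.cons (.ddet 1 [⟨2, [(24, 1), (7, 1)]⟩] (.ndet 3 [⟨2, [(24, 1), (7, 1)]⟩, ⟨2, [(24, 1), (17, 2), (10, 1)]⟩, ⟨2, [(24, 1), (7, 1)]⟩] (.ddet 0 [⟨1, []⟩] (.leaf 2 [⟨2, [(24, 1), (7, 1), (1, 2)]⟩, ⟨2, [(24, 1), (7, 1)]⟩, ⟨1, [(1, 1)]⟩, ⟨1, [(17, 1), (3, 1)]⟩, ⟨1, []⟩, ⟨1, [(17, 1), (3, 1)]⟩, ⟨2, [(24, 1), (17, 2), (10, 1)]⟩, ⟨1, []⟩, ⟨1, [(1, 1)]⟩,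 ⟨2, [(24, 1), (7, 1), (1, 2)]⟩, ⟨1, []⟩, ⟨1, [(1, 1)]⟩, ⟨1, [(1, 2)]⟩, ⟨1, []⟩, ⟨1, [(1, 1)]⟩, ⟨1, []⟩, ⟨1, [(1, 2)]⟩, ⟨1, [(17, 1), (3, 1)]⟩, ⟨1, []⟩, ⟨1, [(17, 1), (3, 1)]⟩, ⟨2, [(24, 1), (17, 2), (10, 1)]⟩, ⟨1, []⟩, ⟨1, [(1, 1)]⟩, ⟨2, [(24, 1), (7, 1), (1, 2)]⟩, ⟨1, []⟩, ⟨1, [(1, 1)]⟩, ⟨1, [(1, 2)]⟩, ⟨1, []⟩])))) (.cons (.ddet 1 [⟨2, [(24, 1), (7, 1)]⟩] (.ndet 3 [⟨2, [(24, 1), (7, 1)]⟩, ⟨2, [(24, 1), (7, 1)]⟩, ⟨2, [(24, 1), (7, 1)]⟩] (.ddet 0 [⟨1, []⟩] (.leaf 0 [⟨2, [(24, 1), (7, 1)]⟩, ⟨1, [(1, 1)]⟩, ⟨2, [(24, 1), (7, 1)]⟩, ⟨1, [(1, 1)]⟩, ⟨1, [(1, 1)]⟩, ⟨1, [(1, 1)]⟩, ⟨1, []⟩, ⟨1, []⟩, ⟨1, [(28, 1)]⟩, ⟨2, [(28,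 2), (24, 1), (7, 1)]⟩, ⟨2, [(28, 2), (24, 1), (7, 1)]⟩, ⟨1, [(1, 1)]⟩, ⟨1, [(1, 1)]⟩, ⟨1, []⟩, ⟨1, []⟩, ⟨1, [(28, 1)]⟩, ⟨1, [(28, 1)]⟩, ⟨1, [(28, 1)]⟩, ⟨1, [(1, 1)]⟩, ⟨1, [(1, 1)]⟩, ⟨1, [(1, 1)]⟩, ⟨1, []⟩, ⟨1, []⟩, ⟨1, []⟩, ⟨1, [(28, 1)]⟩, ⟨2, [(28, 2), (24, 1), (7, 1)]⟩, ⟨1, [(28, 1)]⟩, ⟨1, [(28, 1)]⟩, ⟨2, [(28, 2), (24, 1), (7, 1)]⟩, ⟨1, [(1, 1)]⟩])))) (.cons (.prune [(19, 1), (10, 1), (1, 1)]) .nil))))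
def s27_9_t5 : Tree := .ndet 2 [⟨2, [(24, 2), (20, 1), (3, 1)]⟩, ⟨1, [(24, 1)]⟩, ⟨2, [(24, 2), (20, 1), (17, 1)]⟩] (.ddet 1 [⟨2, [(24, 2), (20, 1), (3, 1)]⟩] (.ndet 3 [⟨2, [(24, 2), (20, 1), (3, 1)]⟩, ⟨2, [(24, 2), (20, 1), (3, 1)]⟩, ⟨2, [(24, 2), (20, 1), (6, 1)]⟩] (.dbr (.cons s27_9_t4 (.cons (.ndet 1 [⟨2, [(21, 1), (12, 2), (7, 1), (0, 2)]⟩, ⟨1, [(12, 1)]⟩, ⟨2, [(21, 1), (12, 2), (7, 1)]⟩] (.ddet 1 [⟨2, [(21, 1), (7, 1), (0, 2)]⟩] (.ndet 3 [⟨2, [(21, 1), (7, 1), (0, 2)]⟩, ⟨2, [(21, 1), (14, 2), (7, 1), (0, 2)]⟩, ⟨2, [(21, 1), (7, 1), (0, 2)]⟩] (.ddet 0 [⟨1, []⟩] (.leaf 2 [⟨2, [(21, 1), (12, 2), (7, 1), (0, 2)]⟩,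 ⟨2, [(21, 1), (7, 1), (0, 2)]⟩, ⟨1, [(12, 1)]⟩, ⟨1, [(14, 1)]⟩, ⟨1, []⟩, ⟨1, [(14, 1)]⟩, ⟨2, [(21, 1), (14, 2), (7, 1), (0, 2)]⟩, ⟨1, []⟩, ⟨1, [(12, 1)]⟩, ⟨2, [(21, 1), (12, 2), (7, 1), (0, 2)]⟩, ⟨1, []⟩, ⟨1, [(12, 1)]⟩, ⟨1, [(12, 2)]⟩, ⟨1, []⟩, ⟨1, [(12, 1)]⟩, ⟨1, []⟩, ⟨1, [(12, 2)]⟩, ⟨1, [(14, 1)]⟩, ⟨1, []⟩, ⟨1, [(14, 1)]⟩, ⟨2, [(21, 1), (14, 2), (7, 1), (0, 2)]⟩, ⟨1, []⟩, ⟨1, [(12, 1)]⟩, ⟨2, [(21, 1), (12, 2), (7, 1), (0, 2)]⟩, ⟨1, []⟩, ⟨1, [(12, 1)]⟩, ⟨1, [(12, 2)]⟩, ⟨2, [(22, 1), (8, 1)]⟩]))))) .nil)))))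
def s27_9_n2 : Node := ⟨[⟨[0, 0, 1, -1], -200⟩, ⟨[0, -1, 1], -200⟩, ⟨[-1, 0, 1], -200⟩, ⟨[1, 0, -1, -1], -1356⟩, ⟨[1, 1, -1, -1], -360⟩, ⟨[0, -1, 0, -1], -1360⟩, ⟨[1, -1, 0, -1], 119700⟩, ⟨[0, 0, 0, -1], -320⟩, ⟨[0, 1, 0, -1], -333⟩, ⟨[1, 1, 0, -1], 119700⟩, ⟨[-1, -1, 1, -1], -360⟩, ⟨[-1, 0, 1, -1], -317⟩, ⟨[-1, 1, 1, -1], -330⟩, ⟨[1, 1, -1], -340⟩, ⟨[0, 1], -319⟩, ⟨[-1, -1, 1], -340⟩, ⟨[-1, 1, 1], -316⟩, ⟨[1, 0, -1, 1], -1349⟩, ⟨[1, 1, -1, 1], -360⟩, ⟨[0, -1, 0, 1], -1360⟩, ⟨[1, -1, 0, 1], 119700⟩, ⟨[0, 0, 0, 1], -320⟩, ⟨[0, 1, 0, 1], -335⟩, ⟨[1, 1, 0, 1], 119700⟩, ⟨[-1, -1, 1, 1], -360⟩, ⟨[-1, 0, 1, 1], -314⟩,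 ⟨[-1, 1, 1, 1], -332⟩], [0, 0, 1], 0, none, s27_9_t5⟩
def s27_9_t6 : Tree := .nbr (.cons (.prune [(20, 1), (12, 1), (1, 2)]) (.cons (.ddet 1 [⟨2, [(20, 1), (12, 1)]⟩] (.ndet 3 [⟨2, [(20, 1), (12, 1)]⟩, ⟨2, [(23, 2), (20, 1), (19, 1)]⟩, ⟨2, [(20, 1), (13, 1)]⟩] (.ddet 0 [⟨1, [(18, 1)]⟩] (.ndet 2 [⟨2, [(20, 1), (12, 1), (1, 2)]⟩, ⟨1, [(1, 1)]⟩, ⟨2, [(20, 1), (13, 1), (1, 2)]⟩] (.ddet 1 [⟨2, [(20, 1), (12, 1), (1, 2)]⟩] (.leaf 3 [⟨2, [(20, 1), (12, 1)]⟩, ⟨1, [(1, 1)]⟩, ⟨2, [(20, 1), (12, 1), (1, 2)]⟩, ⟨1, [(23, 2), (3, 2)]⟩, ⟨1, []⟩, ⟨1, []⟩, ⟨1, []⟩, ⟨1, [(23, 1), (3, 1)]⟩, ⟨2, [(23, 2), (20, 1), (19, 1)]⟩, ⟨2, [(23,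 2), (20, 1), (19, 1)]⟩, ⟨1, []⟩, ⟨1, []⟩, ⟨1, [(1, 1)]⟩, ⟨1, [(1, 1)]⟩, ⟨1, [(1, 1)]⟩, ⟨2, [(20, 1), (12, 1), (1, 2)]⟩, ⟨2, [(20, 1), (12, 1), (1, 2)]⟩, ⟨1, []⟩, ⟨1, []⟩, ⟨1, []⟩, ⟨1, [(1, 1)]⟩, ⟨1, [(1, 1)]⟩, ⟨1, [(1, 2)]⟩, ⟨1, [(1, 2)]⟩, ⟨1, [(1, 2)]⟩, ⟨1, []⟩])))))) (.cons (.ddet 1 [⟨2, [(20, 1), (12, 1)]⟩] (.ndet 3 [⟨2, [(20, 1), (12, 1)]⟩, ⟨2, [(20, 1), (12, 1)]⟩, ⟨2, [(20, 1), (13, 1)]⟩] (.ddet 0 [⟨1, [(8, 1), (1, 1)]⟩] (.ndet 2 [⟨2, [(27, 2), (20, 1), (12, 1)]⟩, ⟨1, [(27, 1)]⟩, ⟨2, [(27, 2), (20, 1), (13, 1)]⟩] (.ddet 1 [⟨2, [(27, 2), (20, 1), (12, 1)]⟩] (.leaf 1 [⟨1, [(1, 1)]⟩, ⟨2, [(20, 1), (12, 1)]⟩, ⟨2,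 [(20, 1), (12, 1)]⟩, ⟨1, [(1, 1)]⟩, ⟨1, [(1, 1)]⟩, ⟨1, [(1, 1)]⟩, ⟨1, [(1, 1)]⟩, ⟨1, [(1, 1)]⟩, ⟨1, [(1, 1)]⟩, ⟨1, [(1, 1)]⟩, ⟨1, [(1, 1)]⟩, ⟨1, []⟩, ⟨1, []⟩, ⟨1, []⟩, ⟨1, []⟩, ⟨1, []⟩, ⟨1, []⟩, ⟨1, []⟩, ⟨1, []⟩, ⟨1, [(27, 1)]⟩, ⟨1, [(27, 1)]⟩, ⟨2, [(27, 2), (20, 1), (12, 1)]⟩, ⟨2, [(27, 2), (20, 1), (12, 1)]⟩, ⟨1, [(27, 1)]⟩, ⟨1, [(27, 1)]⟩, ⟨1, [(27, 1)]⟩, ⟨1, [(27, 1)]⟩, ⟨2, [(27, 2), (20, 1), (12, 1)]⟩, ⟨2, [(27, 2), (20, 1), (12, 1)]⟩, ⟨1, [(1, 1)]⟩])))))) (.cons (.prune [(25, 1), (20, 3), (12, 1), (9, 1), (0, 4)]) .nil))))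
def s27_9_t7 : Tree := .ndet 3 [⟨2, [(23, 2), (16, 1), (8, 1)]⟩, ⟨2, [(23, 2), (16, 1), (9, 1)]⟩, ⟨2, [(23, 2), (16, 1), (15, 1)]⟩] (.dbr (.cons s27_9_t6 (.cons (.ndet 1 [⟨2, [(17, 1), (16, 1), (7, 2), (0, 2)]⟩, ⟨1, [(7, 1)]⟩, ⟨2, [(17, 1), (16, 1), (7, 2)]⟩] (.ddet 1 [⟨2, [(17, 1), (16, 1), (0, 2)]⟩] (.ndet 3 [⟨2, [(17, 1), (16, 1), (0, 2)]⟩, ⟨2, [(20, 2), (17, 1), (16, 1), (0, 2)]⟩, ⟨1, [(17, 1), (0, 1)]⟩] (.ddet 0 [⟨1, [(15, 1)]⟩] (.ndet 2 [⟨2, [(17, 1), (16, 1), (7, 2), (0, 2)]⟩, ⟨1, [(7, 1)]⟩, ⟨1, [(17, 1), (7, 1), (0, 1)]⟩] (.ddet 1 [⟨2, [(17, 1), (16, 1), (7, 2), (0, 2)]⟩] (.leaf 3 [⟨2, [(17, 1), (16, 1),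 (0, 2)]⟩, ⟨1, [(7, 1)]⟩, ⟨2, [(17, 1), (16, 1), (7, 2), (0, 2)]⟩, ⟨1, [(20, 2)]⟩, ⟨1, []⟩, ⟨1, []⟩, ⟨1, []⟩, ⟨1, [(20, 1)]⟩, ⟨2, [(20, 2), (17, 1), (16, 1), (0, 2)]⟩, ⟨2, [(20, 2), (17, 1), (16, 1), (0, 2)]⟩, ⟨1, []⟩, ⟨1, []⟩, ⟨1, [(7, 1)]⟩, ⟨1, [(7, 1)]⟩, ⟨1, [(7, 1)]⟩, ⟨2, [(17, 1), (16, 1), (7, 2), (0, 2)]⟩, ⟨2, [(17, 1), (16, 1), (7, 2), (0, 2)]⟩, ⟨1, []⟩, ⟨1, []⟩, ⟨1, []⟩, ⟨1, [(7, 1)]⟩, ⟨1, [(7, 1)]⟩, ⟨1, [(7, 2)]⟩, ⟨1, [(7, 2)]⟩, ⟨1, [(7, 2)]⟩, ⟨4, [(22, 1), (18, 2), (6, 1)]⟩]))))))) .nil)))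
def s27_9_n3 : Node := ⟨[⟨[0, 0, -1, 1], -200⟩, ⟨[0, -1, 0, 1], -200⟩, ⟨[-1, 0, 0, 1], -200⟩, ⟨[1, 1, -1, -1], -3048⟩, ⟨[-1, 1, 1, -1], -360⟩, ⟨[0, 1, 1, -1], -340⟩, ⟨[1, 1, 1, -1], -360⟩, ⟨[-1, 0, -1], -1360⟩, ⟨[-1, 1, -1], 119700⟩, ⟨[1, 1, -1], 119700⟩, ⟨[-1], -320⟩, ⟨[1], -320⟩, ⟨[-1, 0, 1], -332⟩, ⟨[0, 0, 1], -319⟩, ⟨[1, 0, 1], -335⟩, ⟨[-1, 1, 1], 119700⟩, ⟨[1, 1, 1], 119700⟩, ⟨[-1, -1, -1, 1], -360⟩, ⟨[0, -1, -1, 1], -340⟩, ⟨[1, -1, -1, 1], -360⟩, ⟨[-1, -1, 0, 1], -314⟩, ⟨[1, -1, 0, 1], -319⟩, ⟨[-1, -1, 1, 1], -328⟩, ⟨[0, -1, 1, 1], -316⟩, ⟨[1, -1, 1, 1], -332⟩], [0, 0, 0, 1], 0, none, s27_9_t7⟩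
def s27_9 : Sys := ⟨[(0, 2000), (1, -2000), (3, -1000), (4, 1000)], [(0, 0), (3, -1000)], 4, [s27_9_n0, s27_9_n1, s27_9_n2, s27_9_n3], [121419, 1000, 122419, 0], (.leaf 2 [⟨1, []⟩, ⟨1, []⟩, ⟨1, []⟩, ⟨1, []⟩, ⟨1, []⟩, ⟨1, []⟩, ⟨1, []⟩, ⟨1, []⟩, ⟨1, []⟩, ⟨1, []⟩, ⟨1, []⟩, ⟨1, []⟩, ⟨1, []⟩, ⟨1, []⟩, ⟨1, []⟩, ⟨1, []⟩, ⟨1, []⟩, ⟨1, []⟩, ⟨1, []⟩, ⟨1, []⟩, ⟨1, []⟩, ⟨1, []⟩, ⟨1, []⟩, ⟨1, []⟩, ⟨1, []⟩, ⟨1, []⟩, ⟨1, []⟩])⟩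

theorem s27_9_ok : s27_9.ok = true := by decide +kernel

def s28_9_n0 : Node := ⟨[⟨[0, -1, 1], 120⟩, ⟨[0, 0, 1, -1], 120⟩, ⟨[0, 0, 1], 80⟩, ⟨[1, -1], 96⟩, ⟨[1, 0, -1], 8⟩, ⟨[0, -1], 24⟩, ⟨[1], 96⟩], [1], 0, none, (.ndet 1 [⟨1, [(6, 1)]⟩, ⟨1, [(5, 1)]⟩] (.ddet 1 [⟨1, [(4, 1)]⟩] (.ndet 0 [⟨1, [(6, 1), (2, 1)]⟩, ⟨1, [(2, 1)]⟩] (.ddet 0 [⟨1, [(1, 1)]⟩] (.leaf 0 [⟨1, [(0, 1)]⟩, ⟨1, [(6, 1), (2, 1)]⟩, ⟨1, [(0, 1)]⟩, ⟨1, [(0, 1)]⟩, ⟨1, []⟩, ⟨1, []⟩, ⟨1, [(0, 1)]⟩, ⟨1, []⟩])))))⟩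
def s28_9 : Sys := ⟨[(2, 16), (3, -16), (4, 16)], [(0, 0), (3, 16)], 4, [s28_9_n0], [192, -32, 176, -32], (.leaf 0 [⟨1, []⟩, ⟨1, []⟩, ⟨1, []⟩, ⟨1, []⟩, ⟨1, []⟩, ⟨1, []⟩, ⟨1, []⟩])⟩

theorem s28_9_ok : s28_9.ok = true := by decide +kernel

def s29_23_n0 : Node := ⟨[⟨[0, 1], 16⟩, ⟨[0, 1, -1], 40⟩, ⟨[0, 1, 0, -1], 32⟩, ⟨[0, 1], 8⟩, ⟨[-1, 1], 24⟩, ⟨[0, 1, 0, -1], 40⟩, ⟨[-1, 1], 32⟩, ⟨[0, 1, -1], 16⟩, ⟨[0, 0, 1], -24⟩, ⟨[0, 0, 1], -32⟩, ⟨[-1, 0, 1], 8⟩, ⟨[0, 1], 24⟩, ⟨[-1, 1], 56⟩, ⟨[0, 0, -1], 8⟩], [0, 1], 0, none, (.ndet 1 [⟨1, [(2, 1)]⟩, ⟨1, [(12, 1)]⟩, ⟨1, [(8, 1)]⟩] (.ddet 2 [⟨1, [(2, 1)]⟩, ⟨1, [(1, 1)]⟩, ⟨1, [(8,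 1)]⟩] (.ndet 2 [⟨1, [(2, 1)]⟩, ⟨1, [(1, 1)]⟩, ⟨1, [(12, 1)]⟩] (.ddet 3 [⟨1, [(5, 1)]⟩, ⟨1, [(5, 1)]⟩, ⟨1, [(3, 1)]⟩] (.ndet 3 [⟨1, [(2, 1)]⟩, ⟨1, [(2, 1)]⟩, ⟨1, [(1, 1)]⟩] (.ddet 3 [⟨1, [(2, 1)]⟩, ⟨1, [(5, 1)]⟩, ⟨1, [(2, 1)]⟩] (.leaf 0 [⟨1, [(12, 1)]⟩, ⟨1, [(12, 1)]⟩, ⟨1, [(1, 1), (0, 1)]⟩, ⟨1, [(12, 1)]⟩, ⟨1, [(12, 1)]⟩, ⟨1, [(1, 1), (0, 1)]⟩, ⟨1, [(12, 1)]⟩, ⟨1, [(12, 1)]⟩, ⟨1, []⟩, ⟨1, []⟩, ⟨1, []⟩, ⟨1, [(12, 1)]⟩, ⟨1, [(12, 1)]⟩, ⟨1, []⟩, ⟨1, [(0, 1)]⟩])))))))⟩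
def s29_23 : Sys := ⟨[(0, -16), (2, 0), (3, 16), (4, -16)], [(0, -16), (1, -16), (2, 16), (4, 16)], 4, [s29_23_n0], [-32, 48, -16, -32], (.leaf 0 [⟨1, []⟩, ⟨1, []⟩, ⟨1, []⟩, ⟨1, []⟩, ⟨1, []⟩, ⟨1, []⟩, ⟨1, []⟩, ⟨1, []⟩, ⟨1, []⟩, ⟨1, []⟩, ⟨1, []⟩, ⟨1, []⟩, ⟨1, []⟩, ⟨1, []⟩])⟩

theorem s29_23_ok : s29_23.ok = true := by decide +kernel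

end Pool.Agent.H81.RDE.Data
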