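import Pool.Agent.H81.RDE.System

/-! Data file (generated): certificates. -/

set_option maxRecDepth 100000

namespace Pool.Agent.H81.RDE.Data

def s2_1_n0 : Node := ⟨[], [1], 0, none, (.ndet 0 [] (.ddet 0 [] (.leaf 0 [⟨1, []⟩])))⟩
def s2_1 : Sys := ⟨[(1, -16)], [(0, -32)], 1, [s2_1_n0], [-16, 0, 0, 0], (.leaf 0 [])⟩

theorem s2_1_ok : s2_1.ok = true := by decide +kernel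

def s6_20_t0 : Tree := .ddet 1 [⟨2, [(10, 2), (3, 1)]⟩] (.ndet 0 [⟨2, [(3, 1)]⟩] (.ddet 1 [⟨2, [(10, 2), (3, 1)]⟩] (.ndet 0 [⟨2, [(3, 1)]⟩] (.ddet 1 [⟨2, [(10, 2), (3, 1)]⟩] (.ndet 0 [⟨1, []⟩] (.ddet 0 [⟨1, [(3, 1)]⟩] (.ndet 0 [⟨1, [(10, 1)]⟩] (.ddet 0 [⟨2, [(3, 1)]⟩] (.leaf 0 [⟨1, [(10, 1)]⟩, ⟨1, [(10, 1)]⟩, ⟨1, []⟩, ⟨1, [(10, 2)]⟩, ⟨1, [(10, 1)]⟩, ⟨1, [(10, 1)]⟩, ⟨1, []⟩, ⟨1, [(10, 1)]⟩, ⟨1, [(10, 1)]⟩, ⟨1, [(10, 1)]⟩, ⟨1, [(10, 1)]⟩, ⟨1, []⟩, ⟨1, []⟩, ⟨1, [(10, 1)]⟩, ⟨1, []⟩, ⟨1, []⟩, ⟨1, [(13, 2)]⟩])))))))))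
def s6_20_t1 : Tree := .ndet 0 [⟨2, [(10, 2), (3, 1)]⟩] (.ddet 0 [⟨1, [(14, 1)]⟩] (.ndet 0 [⟨1, [(13, 1)]⟩] (.ddet 0 [⟨1, [(12, 1)]⟩] (.ndet 1 [⟨1, [(10, 1), (3, 1)]⟩] (.ddet 0 [⟨1, [(10, 1)]⟩] (.ndet 0 [⟨2, [(3, 1)]⟩] (.ddet 1 [⟨2, [(10, 2), (3, 3)]⟩] (.ndet 1 [⟨1, [(10, 1), (3, 1)]⟩] s6_20_t0))))))))
def s6_20_n0 : Node := ⟨[⟨[1, -1], 3584⟩, ⟨[0, 1, 0, -1], 12288⟩, ⟨[0, -1], -7680⟩, ⟨[1, 0, -1], 16384⟩, ⟨[1], 14336⟩, ⟨[1, -2], 2560⟩, ⟨[0, 1], 4608⟩, ⟨[1, 1], 15360⟩, ⟨[1], 13824⟩, ⟨[1, -1], 3072⟩, ⟨[1, -1], 2560⟩, ⟨[0, 1], 2048⟩, ⟨[0, 2], 13312⟩, ⟨[1, -2], -8192⟩, ⟨[0, 1], 3072⟩, ⟨[0, -2], -16384⟩], [1], 0, none, s6_20_t1⟩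
def s6_20 : Sys := ⟨[(1, 3072), (2, -3072)], [(2, 1024), (4, 2048)], 4, [s6_20_n0], [20480, 7168, -11264, -16384], (.leaf 0 [⟨1, []⟩, ⟨1, []⟩, ⟨1, []⟩, ⟨1, []⟩, ⟨1, []⟩, ⟨1, []⟩, ⟨1, []⟩, ⟨1, []⟩, ⟨1, []⟩, ⟨1, []⟩, ⟨1, []⟩, ⟨1, []⟩, ⟨1, []⟩, ⟨1, []⟩, ⟨1, []⟩, ⟨1, []⟩])⟩

theorem s6_20_ok : s6_20.ok = true := by decide +kernel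

def s11_20_t0 : Tree := .ddet 0 [⟨1, [(11, 3), (4, 1), (2, 1)]⟩] (.ndet 1 [⟨1, [(11, 2), (4, 1), (3, 1), (2, 1)]⟩, ⟨1, [(11, 1), (4, 1), (3, 1), (2, 1)]⟩] (.ddet 1 [⟨1, [(11, 6), (4, 2), (3, 2), (2, 2)]⟩] (.ndet 0 [⟨1, [(11, 1)]⟩, ⟨1, [(11, 3), (4, 1), (3, 1), (2, 1)]⟩] (.ddet 0 [⟨1, [(11, 1), (4, 1), (3, 1), (2, 1)]⟩] (.ndet 2 [⟨1, [(11, 2), (4, 1), (3, 1), (2, 1)]⟩, ⟨1, [(11, 4), (4, 2), (3, 2), (2, 2)]⟩] (.ddet 0 [⟨1, [(11, 2), (4, 1), (3, 1), (2, 1)]⟩] (.split [1, 0, 0, -1] (0) (.leaf 0 [⟨1, [(0, 1)]⟩, ⟨1, [(5, 1), (4, 1), (3, 1), (0, 4)]⟩, ⟨1, [(5, 2), (4, 2), (3, 2), (0, 5)]⟩, ⟨1, []⟩, ⟨1, []⟩, ⟨1, []⟩, ⟨1, []⟩, ⟨1, []⟩, ⟨1,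 []⟩, ⟨1, [(5, 1), (4, 1), (3, 1)]⟩, ⟨1, []⟩]) (.leaf 3 [⟨1, [(12, 3), (5, 1), (4, 1), (3, 1)]⟩, ⟨1, [(12, 4), (5, 2), (4, 2), (3, 2)]⟩, ⟨1, [(0, 1)]⟩, ⟨1, [(12, 4), (5, 1), (4, 1), (3, 1)]⟩, ⟨1, [(12, 2), (5, 1), (4, 1), (3, 1)]⟩, ⟨1, []⟩, ⟨1, [(12, 1)]⟩, ⟨1, []⟩, ⟨1, [(12, 1)]⟩, ⟨1, [(12, 4), (5, 1), (4, 1), (3, 1)]⟩, ⟨1, [(12, 2), (5, 1), (4, 1), (3, 1)]⟩, ⟨1, [(0, 1)]⟩]))))))))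
def s11_20_t1 : Tree := .ddet 0 [⟨1, [(4, 2), (3, 1), (2, 1), (1, 4)]⟩] (.ndet 2 [⟨1, [(4, 1), (3, 1), (2, 1), (1, 3)]⟩, ⟨1, [(4, 2), (3, 2), (2, 2), (1, 5)]⟩] (.ddet 0 [⟨1, [(4, 1), (2, 1), (1, 3)]⟩] (.ndet 1 [⟨1, [(4, 1), (3, 1), (2, 1), (1, 2)]⟩, ⟨1, [(4, 1), (3, 1), (2, 1), (1, 1)]⟩] (.ddet 1 [⟨1, [(4, 2), (3, 2), (2, 2), (1, 5)]⟩] (.ndet 0 [⟨1, [(1, 1)]⟩, ⟨1, [(4, 1), (3, 1), (2, 1), (1, 2)]⟩] (.ddet 0 [⟨1, [(4, 1), (3, 1), (2, 1), (1, 1)]⟩] (.ndet 2 [⟨1, [(4, 1), (3, 1), (2, 1), (1, 2)]⟩, ⟨1, [(4, 2), (3, 2), (2, 2), (1, 4)]⟩] (.ddet 0 [⟨1, [(4, 1), (3, 1), (2, 1), (1, 1)]⟩] (.leaf 0 [⟨1, [(1, 1)]⟩, ⟨1, [(4, 1), (3, 1), (2, 1),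 (1, 4)]⟩, ⟨1, [(4, 2), (3, 2), (2, 2), (1, 5)]⟩, ⟨1, []⟩, ⟨1, []⟩, ⟨1, []⟩, ⟨1, []⟩, ⟨1, []⟩, ⟨1, []⟩, ⟨1, [(4, 1), (3, 1), (2, 1)]⟩, ⟨1, []⟩])))))))))
def s11_20_n0 : Node := ⟨[⟨[1, 0, 0, -1], -200⟩, ⟨[1, 0, -1], -200⟩, ⟨[1, -1], -200⟩, ⟨[0, -1, 0, -1], -1320⟩, ⟨[1, 0, 1, -1], -3320⟩, ⟨[-1, -1, -1], 1660⟩, ⟨[1, 1, 1], -2340⟩, ⟨[-1, 0, -1, 1], 2680⟩, ⟨[0, 1, 0, 1], 680⟩, ⟨[-1, -1, 1, 1], 239700⟩], [1], 0, none, (.ndet 1 [⟨1, [(9, 3), (2, 1), (1, 1), (0, 1)]⟩, ⟨1, [(9, 4), (2, 2), (1, 1), (0, 1)]⟩] (.ddet 1 [⟨1, [(9, 4), (2, 2), (1, 1), (0, 2)]⟩] (.nbr (.cons (.ddet 0 [⟨1, [(11, 4), (4, 2), (3, 1), (2, 1)]⟩] (.ndet 2 [⟨1, [(11, 3),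 (4, 1), (3, 1), (2, 1)]⟩, ⟨1, [(11, 6), (4, 2), (3, 2), (2, 2)]⟩] s11_20_t0)) (.cons s11_20_t1 (.cons (.prune [(11, 2), (10, 1), (6, 1), (2, 2), (1, 3)]) .nil))))))⟩
def s11_20_t2 : Tree := .nbr (.cons (.ddet 0 [⟨2, [(14, 2), (11, 2), (9, 1), (8, 1)]⟩] (.ndet 2 [⟨1, [(14, 1), (11, 1), (8, 1)]⟩, ⟨1, [(14, 2), (11, 2), (8, 2)]⟩] (.ddet 0 [⟨1, [(14, 1), (11, 1), (8, 1)]⟩] (.ndet 1 [⟨1, [(14, 1), (6, 1)]⟩, ⟨2, [(13, 1), (6, 1)]⟩] (.ddet 1 [⟨1, [(14, 2), (11, 2), (8, 2)]⟩] (.leaf 1 [⟨2, [(13, 1), (6, 1)]⟩, ⟨1, [(14, 2), (11, 1), (8, 1), (6, 1)]⟩, ⟨1, [(14, 1), (11, 1), (8, 1)]⟩, ⟨2, [(13, 1), (6, 1)]⟩, ⟨1, []⟩, ⟨1, [(13, 1), (7, 1)]⟩, ⟨1,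 [(1, 1)]⟩, ⟨1, []⟩, ⟨1, [(1, 1)]⟩, ⟨1, [(14, 1), (11, 1), (9, 1)]⟩, ⟨1, [(14, 1), (11, 1), (8, 1)]⟩, ⟨1, []⟩, ⟨1, [(14, 1), (6, 1)]⟩, ⟨1, []⟩, ⟨1, [(1, 1)]⟩, ⟨1, []⟩])))))) (.cons (.ddet 0 [⟨1, [(13, 1), (7, 1), (1, 4)]⟩] (.ndet 2 [⟨1, [(13, 1), (7, 1), (1, 3)]⟩, ⟨1, [(13, 2), (7, 2), (1, 5)]⟩] (.ddet 0 [⟨1, [(13, 1), (7, 1), (1, 3)]⟩] (.ndet 1 [⟨1, [(13, 1), (7, 1), (1, 2)]⟩, ⟨1, [(13, 1), (7, 1), (1, 1)]⟩] (.ddet 1 [⟨1, [(13, 2), (7, 2), (1, 5)]⟩] (.leaf 1 [⟨1, [(13, 1), (7, 1), (1, 1)]⟩, ⟨1, [(13, 2), (7, 2), (1, 4)]⟩, ⟨1, [(13, 1), (7, 1), (1, 3)]⟩, ⟨1, [(13, 1), (7, 1)]⟩, ⟨1, []⟩, ⟨1, [(13, 1), (7, 1)]⟩, ⟨1, []⟩, ⟨1, [(1, 1)]⟩,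 ⟨1, []⟩, ⟨1, [(13, 1), (7, 1), (1, 4)]⟩, ⟨1, [(13, 1), (7, 1), (1, 2)]⟩, ⟨1, []⟩, ⟨1, [(13, 1), (7, 1), (1, 2)]⟩, ⟨1, [(1, 1)]⟩, ⟨1, []⟩, ⟨1, []⟩])))))) (.cons (.prune [(13, 4), (11, 2), (9, 3), (4, 1), (1, 7)]) .nil)))
def s11_20_t3 : Tree := .ddet 0 [⟨1, [(12, 1), (7, 1), (1, 3)]⟩] (.ndet 1 [⟨1, [(12, 1), (9, 1), (7, 1), (1, 2)]⟩, ⟨1, [(12, 1), (9, 1), (7, 1), (1, 1)]⟩] (.ddet 1 [⟨1, [(12, 2), (9, 2), (7, 2), (1, 5)]⟩] (.ndet 0 [⟨1, [(1, 1)]⟩, ⟨1, [(12, 1), (9, 1), (7, 1), (1, 2)]⟩] (.ddet 0 [⟨1, [(12, 1), (9, 1), (7, 1), (1, 1)]⟩] (.ndet 2 [⟨1, [(12, 1), (9, 1), (7, 1), (1, 2)]⟩, ⟨1, [(12, 2), (9, 2), (7, 2), (1, 4)]⟩] (.ddet 0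 [⟨1, [(12, 1), (9, 1), (7, 1), (1, 1)]⟩] (.ndet 1 [⟨1, [(12, 1), (9, 1), (7, 1), (1, 3)]⟩, ⟨1, [(12, 1), (9, 1), (7, 1), (1, 4)]⟩] (.ddet 1 [⟨1, [(12, 2), (9, 2), (7, 2), (1, 4)]⟩] (.leaf 1 [⟨1, [(12, 1), (9, 1), (7, 1), (1, 4)]⟩, ⟨1, [(12, 2), (9, 2), (7, 2), (1, 5)]⟩, ⟨1, [(12, 1), (9, 1), (7, 1), (1, 2)]⟩, ⟨1, [(12, 1), (9, 1), (7, 1), (1, 4)]⟩, ⟨1, []⟩, ⟨1, [(12, 1), (9, 1), (7, 1), (1, 5)]⟩, ⟨1, [(1, 1)]⟩, ⟨1, []⟩, ⟨1, [(1, 1)]⟩, ⟨1, [(12, 1), (9, 1), (7, 1)]⟩, ⟨1, [(12, 1), (9, 1), (7, 1), (1, 2)]⟩, ⟨1, []⟩, ⟨1, [(12, 1), (9, 1), (7, 1), (1, 3)]⟩, ⟨1, []⟩, ⟨1, [(1, 1)]⟩, ⟨1, []⟩])))))))))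
def s11_20_t4 : Tree := .nbr (.cons (.ddet 0 [⟨2, [(12, 2), (11, 1), (4, 1)]⟩] (.ndet 2 [⟨1, [(12, 1), (4, 1)]⟩, ⟨1, [(12, 2), (4, 2)]⟩] (.ddet 0 [⟨2, [(13, 1), (6, 1)]⟩] (.ndet 1 [⟨1, [(12, 1), (9, 1), (6, 1)]⟩, ⟨2, [(12, 2), (9, 2), (7, 1), (6, 1)]⟩] (.ddet 1 [⟨1, [(12, 2), (4, 2)]⟩] s11_20_t2))))) (.cons (.ddet 0 [⟨1, [(12, 2), (9, 1), (7, 1), (1, 4)]⟩] (.ndet 2 [⟨1, [(12, 1), (9, 1), (7, 1), (1, 3)]⟩, ⟨1, [(12, 2), (9, 2), (7, 2), (1, 5)]⟩] s11_20_t3)) (.cons (.prune [(13, 3), (7, 1), (5, 2), (0, 4)]) .nil)))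
def s11_20_n1 : Node := ⟨[⟨[0, 1, 0, -1], -200⟩, ⟨[0, 1, -1], -200⟩, ⟨[-1, 1], -200⟩, ⟨[1, 0, -1, -1], 239700⟩, ⟨[-1, 0, 0, -1], 8660⟩, ⟨[1, 1, 0, -1], 239700⟩, ⟨[-1, 1, 1, -1], 660⟩, ⟨[-1, 1, 1], 6660⟩, ⟨[0, 1, 1], -8340⟩, ⟨[-1, 0, -1, 1], 239700⟩, ⟨[1, 0, -1, 1], 239700⟩, ⟨[1, 0, 0, 1], -9340⟩, ⟨[1, 1, 0, 1], 239700⟩, ⟨[0, 1, 1, 1], -2340⟩, ⟨[1, 1, 1, 1], -17380⟩], [0, 1], 0, none, s11_20_t4⟩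
def s11_20_t5 : Tree := .ndet 2 [⟨2, [(10, 1), (9, 1), (5, 2), (3, 2)]⟩, ⟨1, [(10, 1), (9, 1), (5, 2), (3, 2)]⟩] (.ddet 0 [⟨2, [(10, 1), (9, 1), (3, 2)]⟩] (.ndet 1 [⟨1, [(9, 1), (5, 1), (3, 1)]⟩, ⟨1, [(7, 1), (5, 1)]⟩] (.ddet 1 [⟨1, [(10, 1), (9, 1), (5, 2), (3, 2)]⟩] (.nbr (.cons (.ddet 0 [⟨1, [(9, 1), (7, 1)]⟩] (.leaf 2 [⟨2, [(12, 1), (11, 3), (7, 4), (5, 4)]⟩, ⟨2, [(12, 1), (11, 1), (7, 2), (5, 2)]⟩, ⟨1, [(11, 2), (7, 2), (5, 2)]⟩, ⟨1, [(12, 1), (7, 1), (5, 1)]⟩, ⟨1, [(11, 1), (7, 1), (5, 1)]⟩, ⟨1, [(1, 1)]⟩, ⟨1, [(9, 1), (7, 1)]⟩, ⟨1, [(1, 1)]⟩, ⟨1, []⟩, ⟨1, [(3, 1)]⟩, ⟨1, []⟩, ⟨1, [(3, 1)]⟩, ⟨1, []⟩])) (.cons (.ddet 0 [⟨1, [(12,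 1), (7, 1), (5, 1), (1, 3)]⟩] (.leaf 2 [⟨1, [(12, 2), (7, 2), (5, 2), (1, 3)]⟩, ⟨1, [(12, 1), (7, 1), (5, 1), (1, 1)]⟩, ⟨1, [(12, 2), (7, 2), (5, 2), (1, 3)]⟩, ⟨1, [(12, 1), (8, 1), (5, 1)]⟩, ⟨1, [(12, 1), (7, 1), (5, 1), (1, 1)]⟩, ⟨1, []⟩, ⟨1, [(12, 1), (7, 1), (5, 1), (1, 2)]⟩, ⟨1, []⟩, ⟨1, [(1, 1)]⟩, ⟨1, []⟩, ⟨1, []⟩, ⟨1, [(1, 1)]⟩, ⟨1, []⟩])) (.cons (.prune [(12, 1), (7, 2), (6, 1), (1, 1)]) .nil)))))))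
def s11_20_t6 : Tree := .nbr (.cons (.ddet 0 [⟨1, [(10, 1), (5, 1), (3, 1)]⟩] s11_20_t5) (.cons (.ddet 0 [⟨1, [(7, 1), (5, 1), (1, 3)]⟩] (.ndet 2 [⟨1, [(7, 1), (5, 1), (1, 2)]⟩, ⟨1, [(7, 2), (5, 2), (1, 3)]⟩] (.ddet 0 [⟨1, [(7, 1), (1, 2)]⟩] (.ndet 1 [⟨1, [(7, 1), (5, 1), (1, 1)]⟩, ⟨1, [(7, 1), (5, 1)]⟩] (.ddet 1 [⟨1, [(7, 2), (5, 2), (1, 3)]⟩] (.ndet 0 [⟨1, [(1, 1)]⟩, ⟨1, [(7, 1), (5, 1), (1, 1)]⟩] (.ddet 0 [⟨1, [(7, 1), (5, 1)]⟩] (.leaf 2 [⟨1, [(7, 2), (5, 2), (1, 2)]⟩, ⟨1, [(7, 1), (5, 1), (1, 2)]⟩, ⟨1, [(7, 2), (5, 2), (1, 2)]⟩, ⟨1, [(7, 1), (5, 1), (1, 2)]⟩, ⟨1, [(7, 1), (5, 1)]⟩, ⟨1, []⟩, ⟨1, [(7, 1), (5, 1)]⟩, ⟨1, [(1, 1)]⟩,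 ⟨1, []⟩, ⟨1, []⟩, ⟨1, [(1, 1)]⟩, ⟨1, []⟩, ⟨1, []⟩])))))))) (.cons (.prune [(10, 2), (7, 1), (6, 2), (4, 2), (0, 3)]) .nil)))
def s11_20_n2 : Node := ⟨[⟨[0, 0, 1, -1], -200⟩, ⟨[0, -1, 1], -200⟩, ⟨[-1, 0, 1], -200⟩, ⟨[-1, -1, -1, -1], 239700⟩, ⟨[-1, 1, -1, -1], 239700⟩, ⟨[1, 0, 0, -1], -12360⟩, ⟨[-1, 1], 239700⟩, ⟨[1, -1, 1], -5320⟩, ⟨[1, 0, 1], 680⟩, ⟨[-1, 0, 0, 1], -9360⟩, ⟨[0, -1, 1, 1], 6660⟩, ⟨[0, 0, 1, 1], -8340⟩], [0, 0, 1], 0, none, (.ndet 2 [⟨1, [(7, 1), (3, 1), (1, 1)]⟩, ⟨1, [(7, 2), (3, 1), (1, 2)]⟩] (.ddet 0 [⟨1, [(7, 1), (3, 1)]⟩] (.ndet 1 [⟨2, [(8, 1), (7, 1), (3, 2), (1, 2)]⟩, ⟨1, [(8, 1), (3, 1), (1, 1)]⟩] (.ddet 1 [⟨1,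 [(7, 2), (3, 1), (1, 2)]⟩] s11_20_t6))))⟩
def s11_20_t7 : Tree := .nbr (.cons (.ddet 0 [⟨2, [(10, 2), (8, 1), (5, 2), (2, 1)]⟩] (.ndet 2 [⟨2, [(8, 1), (5, 2), (2, 1)]⟩, ⟨1, [(8, 1), (5, 2), (2, 1)]⟩] (.ddet 0 [⟨2, [(8, 1), (5, 2), (2, 1)]⟩] (.split [1, 0, 0, -1] (0) (.leaf 0 [⟨1, [(0, 1)]⟩, ⟨2, [(9, 1), (6, 2), (3, 1), (0, 4)]⟩, ⟨1, [(9, 1), (6, 2), (3, 1), (0, 1)]⟩, ⟨1, []⟩, ⟨1, []⟩, ⟨1, []⟩, ⟨1, []⟩, ⟨1, []⟩, ⟨1, []⟩, ⟨2, [(11, 4), (9, 1), (6, 2), (3, 1)]⟩, ⟨1, [(0, 1)]⟩]) (.leaf 3 [⟨2, [(10, 1), (3, 1)]⟩, ⟨1, [(9, 1), (6, 2), (3, 1)]⟩, ⟨1, [(0, 1)]⟩, ⟨2, [(10, 1), (8, 2), (4, 1)]⟩, ⟨2, [(9, 1), (6, 2), (3, 1)]⟩, ⟨1, []⟩, ⟨1, [(2,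 1)]⟩, ⟨1, []⟩, ⟨1, [(2, 1)]⟩, ⟨2, [(10, 1), (8, 2), (4, 1)]⟩, ⟨2, [(9, 1), (6, 2), (3, 1)]⟩, ⟨1, []⟩]))))) (.cons (.ddet 0 [⟨1, [(9, 1), (7, 1), (6, 1), (1, 4)]⟩] (.ndet 2 [⟨1, [(9, 1), (7, 1), (6, 1), (1, 3)]⟩, ⟨1, [(9, 2), (7, 2), (6, 2), (1, 5)]⟩] (.ddet 0 [⟨1, [(9, 1), (7, 1), (6, 1), (1, 3)]⟩] (.leaf 3 [⟨1, [(9, 1), (7, 1), (6, 1), (1, 2)]⟩, ⟨1, [(9, 2), (7, 2), (6, 2), (1, 5)]⟩, ⟨1, [(1, 1)]⟩, ⟨1, [(9, 1), (7, 1), (6, 1)]⟩, ⟨1, [(9, 1), (7, 1), (6, 1), (1, 2)]⟩, ⟨1, []⟩, ⟨1, []⟩, ⟨1, []⟩, ⟨1, []⟩, ⟨1, [(9, 1), (7, 1), (6, 1), (1, 2)]⟩, ⟨1, [(9, 1), (7, 1), (6, 1), (1, 4)]⟩, ⟨1, []⟩])))) (.cons (.prune [(9, 1), (2, 1), (1, 2)])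 .nil)))
def s11_20_n3 : Node := ⟨[⟨[0, 0, -1, 1], -200⟩, ⟨[0, -1, 0, 1], -200⟩, ⟨[-1, 0, 0, 1], -200⟩, ⟨[1, -1, -1, -1], 239700⟩, ⟨[1, -1, 1, -1], 239700⟩, ⟨[1, 0, 1, -1], -3320⟩, ⟨[1, 1], -8340⟩, ⟨[-1, 0, -1, 1], 2680⟩, ⟨[0, 1, -1, 1], -5320⟩, ⟨[1, 1, -1, 1], 239700⟩, ⟨[1, 1, 1, 1], 239700⟩], [0, 0, 0, 1], 0, none, (.ndet 1 [⟨2, [(7, 1), (0, 1)]⟩, ⟨2, [(7, 1), (1, 1)]⟩] (.ddet 1 [⟨2, [(6, 3), (3, 4), (0, 1)]⟩] (.ndet 0 [⟨1, [(8, 1)]⟩, ⟨1, [(6, 1), (3, 1)]⟩] (.ddet 0 [⟨2, [(7, 1), (1, 1)]⟩] (.ndet 2 [⟨2, [(7, 1), (0, 1)]⟩, ⟨1, [(7, 1), (0, 1)]⟩] (.ddet 0 [⟨2, [(7, 1), (6, 1)]⟩] (.ndet 1 [⟨2, [(6, 1), (3, 2), (0, 1)]⟩, ⟨2, [(8, 2),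 (6, 1), (3, 2), (0, 1)]⟩] (.ddet 1 [⟨1, [(7, 1), (0, 1)]⟩] s11_20_t7))))))))⟩
def s11_20 : Sys := ⟨[(0, 3000), (1, -3000), (3, -1000)], [(2, 2000), (4, 3000)], 4, [s11_20_n0, s11_20_n1, s11_20_n2, s11_20_n3], [-1370890, 445161, 1811051, -1358890], (.leaf 2 [⟨1, []⟩, ⟨1, []⟩, ⟨1, []⟩, ⟨1, []⟩, ⟨1, []⟩, ⟨1, []⟩, ⟨1, []⟩, ⟨1, []⟩, ⟨1, []⟩, ⟨1, []⟩, ⟨1, []⟩, ⟨1, []⟩])⟩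

theorem s11_20_ok : s11_20.ok = true := by decide +kernel

def s12_22_n0 : Node := ⟨[⟨[0, 1, -1], 56⟩, ⟨[-1, 1], 80⟩, ⟨[0, 1, 0, -1], 48⟩, ⟨[-1, 1], 96⟩, ⟨[-1], 72⟩, ⟨[0, 0, -1], 0⟩, ⟨[-1], 56⟩, ⟨[0, 1], 40⟩, ⟨[0, 1], 56⟩], [0, 1], 0, none, (.ndet 0 [⟨1, [(8, 1)]⟩] (.ddet 1 [⟨1, [(4, 1), (0, 1)]⟩, ⟨1, [(6, 1)]⟩] (.ndet 1 [⟨1, [(4, 1), (0, 1)]⟩] (.ddet 0 [⟨1, [(4, 1)]⟩, ⟨1, [(3, 1)]⟩] (.ndet 0 [⟨1, [(4, 1)]⟩] (.ddet 0 [⟨1, [(0, 1)]⟩, ⟨1, []⟩] (.leaf 0 [⟨1, [(0, 1)]⟩, ⟨1, [(0, 2)]⟩, ⟨1, [(4, 1), (0, 1)]⟩, ⟨1, [(0, 2)]⟩, ⟨1, [(0, 1)]⟩, ⟨1, []⟩, ⟨1, [(0, 1)]⟩, ⟨1, [(0, 1)]⟩, ⟨1, [(0, 1)]⟩, ⟨1, []⟩])))))))⟩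
def s12_22 : Sys := ⟨[(2, 16), (3, 16)], [(1, 0), (2, 32), (4, -32)], 4, [s12_22_n0], [-96, 96, -16, -64], (.leaf 0 [⟨1, []⟩, ⟨1, []⟩, ⟨1, []⟩, ⟨1, []⟩, ⟨1, []⟩, ⟨1, []⟩, ⟨1, []⟩, ⟨1, []⟩, ⟨1, []⟩])⟩

theorem s12_22_ok : s12_22.ok = true := by decide +kernel

def s15_2_n0 : Node := ⟨[⟨[1], 784⟩, ⟨[1, -1], 776⟩, ⟨[1, 0, -1], 0⟩, ⟨[1], 776⟩, ⟨[1, -1], 752⟩], [1], 0, none, (.ndet 1 [⟨1, [(4, 1)]⟩, ⟨1, [(3, 1)]⟩, ⟨1, [(2, 1)]⟩] (.ddet 0 [] (.ndet 2 [⟨1, [(4, 1)]⟩, ⟨1, [(4, 1)]⟩, ⟨1, [(3, 1)]⟩] (.ddet 0 [] (.leaf 0 [⟨1, [(4, 1)]⟩, ⟨1, [(4, 1)]⟩, ⟨1, []⟩, ⟨1, [(4, 1)]⟩, ⟨1, [(4, 1)]⟩, ⟨1, []⟩])))))⟩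
def s15_2 : Sys := ⟨[(0, 16), (1, 0), (2, 16), (3, -16)], [(1, -16)], 3, [s15_2_n0], [1552, 16, 1536, 0], (.leaf 0 [⟨1, []⟩, ⟨1, []⟩, ⟨1, []⟩, ⟨1, []⟩, ⟨1, []⟩])⟩

theorem s15_2_ok : s15_2.ok = true := by decide +kernel

def s15_22_n0 : Node := ⟨[⟨[0, 1], 672⟩, ⟨[-1, 1], 736⟩, ⟨[0, 1, -1], 768⟩, ⟨[0, 1, 0, -1], 704⟩, ⟨[0, 1], 608⟩, ⟨[-1, 1], 640⟩, ⟨[-1], 32⟩, ⟨[0, 0, -1], 32⟩, ⟨[0, 1], 576⟩, ⟨[-1, 1], 704⟩], [0, 1], 0, none, (.ndet 2 [⟨1, [(9, 1)]⟩, ⟨1, [(8, 1)]⟩, ⟨1, [(7, 1)]⟩] (.ddet 1 [⟨1, [(8, 1)]⟩, ⟨1, [(6, 1)]⟩] (.ndet 3 [⟨1, [(9, 1)]⟩, ⟨1, [(9, 1)]⟩, ⟨1, [(8, 1)]⟩] (.ddet 0 [⟨1, [(3, 1)]⟩, ⟨1, [(2, 1)]⟩] (.ndet 1 [⟨1, [(9, 1)]⟩,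 ⟨1, [(9, 1)]⟩, ⟨1, [(8, 1)]⟩] (.ddet 0 [⟨1, [(9, 1)]⟩, ⟨1, []⟩] (.leaf 0 [⟨1, [(9, 1)]⟩, ⟨1, [(9, 1)]⟩, ⟨1, [(9, 1)]⟩, ⟨1, [(8, 1)]⟩, ⟨1, [(9, 1)]⟩, ⟨1, [(9, 1)]⟩, ⟨1, []⟩, ⟨1, []⟩, ⟨1, [(9, 1)]⟩, ⟨1, [(9, 1)]⟩, ⟨1, []⟩])))))))⟩
def s15_22 : Sys := ⟨[(0, -64), (1, 0), (2, -64), (3, 64)], [(1, 64), (2, 0), (4, 0)], 4, [s15_22_n0], [-64, 1344, -64, -64], (.leaf 0 [⟨1, []⟩, ⟨1, []⟩, ⟨1, []⟩, ⟨1, []⟩, ⟨1, []⟩, ⟨1, []⟩, ⟨1, []⟩, ⟨1, []⟩, ⟨1, []⟩, ⟨1, []⟩])⟩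

theorem s15_22_ok : s15_22.ok = true := by decide +kernel

def s16_10_n0 : Node := ⟨[⟨[-1, 0, 1], 144⟩, ⟨[0, -1, -1, 1], 76⟩, ⟨[1, 0, -2, 1], 148⟩, ⟨[-1, 1, 1, -1], 232⟩], [0, 1], 0, none, (.ndet 0 [] (.ddet 1 [⟨1, [(3, 1)]⟩] (.ndet 0 [] (.ddet 0 [⟨1, [(2, 1)]⟩] (.leaf 0 [⟨1, [(1, 1)]⟩, ⟨1, [(0, 1)]⟩, ⟨1, [(3, 1), (0, 1)]⟩, ⟨1, [(2, 1), (1, 1)]⟩, ⟨1, [(2, 1)]⟩])))))⟩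
def s16_10 : Sys := ⟨[(4, 0)], [(1, -16), (3, -16)], 4, [s16_10_n0], [-6352, 3952, -2496, 1568], (.leaf 0 [⟨1, []⟩, ⟨1, []⟩, ⟨1, []⟩, ⟨1, []⟩])⟩

theorem s16_10_ok : s16_10.ok = true := by decide +kernel

def s17_1_n0 : Node := ⟨[⟨[0, 0, 0, 1], -22⟩, ⟨[0, 0, 1], -14⟩, ⟨[0, 1], -8⟩, ⟨[1], -6⟩], [1, 1, 1, 1], 0, none, (.ndet 1 [⟨1, [(3, 1)]⟩] (.ddet 0 [] (.leaf 0 [⟨1, [(2, 1)]⟩, ⟨1, [(1, 1)]⟩, ⟨1, [(0, 1)]⟩, ⟨1, [(3, 1)]⟩, ⟨1, []⟩])))⟩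
def s17_1 : Sys := ⟨[(0, 96), (4, 128)], [(0, 96)], 4, [s17_1_n0], [16, 32, 0, -16], (.leaf 0 [⟨1, []⟩, ⟨1, []⟩, ⟨1, []⟩, ⟨1, []⟩])⟩

theorem s17_1_ok : s17_1.ok = true := by decide +kernel

def s18_7_n0 : Node := ⟨[⟨[1, 0, 0, -1], 128⟩, ⟨[1], 128⟩, ⟨[1, -1], 152⟩, ⟨[0, 0, -1], 104⟩, ⟨[1], 120⟩, ⟨[1], 136⟩, ⟨[1, 1], 136⟩, ⟨[1, -1], 136⟩, ⟨[0, -1], 8⟩, ⟨[1], 160⟩], [1], 0, none, (.ndet 0 [⟨1, [(9, 1)]⟩] (.ddet 1 [⟨1, [(0, 1)]⟩, ⟨1, [(1, 1), (0, 1)]⟩] (.ndet 0 [⟨1, [(6, 1)]⟩] (.ddet 2 [⟨1, [(0, 1)]⟩, ⟨1, [(0, 1)]⟩] (.ndet 1 [⟨1, [(3, 1)]⟩] (.ddet 2 [⟨1, []⟩, ⟨1, [(0, 1)]⟩] (.ndet 1 [⟨1, [(1, 1), (0, 1)]⟩] (.ddet 0 [⟨1, [(1, 1)]⟩, ⟨1,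 [(0, 1)]⟩] (.leaf 0 [⟨1, [(0, 1)]⟩, ⟨1, [(0, 1)]⟩, ⟨1, [(1, 1), (0, 1)]⟩, ⟨1, [(0, 1)]⟩, ⟨1, [(0, 1)]⟩, ⟨1, [(0, 1)]⟩, ⟨1, [(3, 1)]⟩, ⟨1, [(1, 1), (0, 1)]⟩, ⟨1, [(1, 1)]⟩, ⟨1, [(0, 1)]⟩, ⟨1, []⟩])))))))))⟩
def s18_7 : Sys := ⟨[(1, 16), (4, 16)], [(0, -16), (1, 0), (2, 16)], 4, [s18_7_n0], [272, -16, -224, 16], (.leaf 0 [⟨1, []⟩, ⟨1, []⟩, ⟨1, []⟩, ⟨1, []⟩, ⟨1, []⟩, ⟨1, []⟩, ⟨1, []⟩, ⟨1, []⟩, ⟨1, []⟩, ⟨1, []⟩])⟩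

theorem s18_7_ok : s18_7.ok = true := by decide +kernel

def s21_6_n0 : Node := ⟨[⟨[0, -1], 24⟩, ⟨[0, 0, 0, -1], 104⟩, ⟨[1, -1], 48⟩, ⟨[1], 96⟩, ⟨[1, 0, -1], 88⟩, ⟨[2], 176⟩, ⟨[1], 8⟩, ⟨[0, -1], 48⟩, ⟨[1], -48⟩, ⟨[1], 72⟩, ⟨[1], 56⟩], [1], 0, none, (.ndet 0 [⟨1, [(3, 1)]⟩, ⟨1, [(9, 1)]⟩] (.ddet 0 [⟨1, [(7, 1), (3, 1)]⟩] (.ndet 1 [⟨1, [(7, 1)]⟩, ⟨1, [(6, 1)]⟩] (.ddet 1 [⟨1, [(7, 2)]⟩] (.ndet 0 [⟨1, [(7, 1)]⟩, ⟨1, [(3, 1)]⟩] (.ddet 0 [⟨1, [(7, 1)]⟩] (.ndet 2 [⟨1, [(7, 1)]⟩, ⟨1, [(7, 1)]⟩] (.ddet 0 [⟨1, []⟩] (.leaf 0 [⟨1, []⟩, ⟨1, [(7, 1)]⟩, ⟨1, [(7, 1)]⟩, ⟨1, [(7, 1)]⟩, ⟨1, [(7, 1)]⟩, ⟨1, [(7, 2)]⟩, ⟨1, [(7, 1)]⟩, ⟨1, []⟩, ⟨1, [(7,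 1)]⟩, ⟨1, [(7, 1)]⟩, ⟨1, [(7, 1)]⟩, ⟨1, []⟩])))))))))⟩
def s21_6 : Sys := ⟨[(0, 0), (2, -48), (4, 0)], [(1, 80), (2, -64)], 4, [s21_6_n0], [144, -96, 16, -208], (.leaf 0 [⟨1, []⟩, ⟨1, []⟩, ⟨1, []⟩, ⟨1, []⟩, ⟨1, []⟩, ⟨1, []⟩, ⟨1, []⟩, ⟨1, []⟩, ⟨1, []⟩, ⟨1, []⟩, ⟨1, []⟩])⟩

theorem s21_6_ok : s21_6.ok = true := by decide +kernel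

def s23_11_n0 : Node := ⟨[⟨[1], 72⟩, ⟨[1, -1], 104⟩, ⟨[1, 0, 0, -1], 32⟩, ⟨[1], -8⟩, ⟨[1, 0, -1], 24⟩, ⟨[1], 24⟩, ⟨[1], -24⟩, ⟨[1, 0, -1], -8⟩, ⟨[0, -1], 16⟩], [1], 0, none, (.ndet 1 [⟨1, [(8, 1)]⟩, ⟨1, [(7, 1)]⟩, ⟨1, [(6, 1)]⟩] (.ddet 1 [⟨1, [(8, 1)]⟩, ⟨1, [(4, 1)]⟩] (.ndet 2 [⟨1, [(8, 1)]⟩, ⟨1, [(8, 1)]⟩, ⟨1, [(4, 1)]⟩] (.ddet 1 [⟨1, []⟩, ⟨1, [(0, 1)]⟩] (.leaf 0 [⟨1, [(8, 1)]⟩, ⟨1, [(8, 1)]⟩, ⟨1, [(7, 1)]⟩, ⟨1, [(8, 1)]⟩, ⟨1, []⟩, ⟨1, [(8, 1)]⟩, ⟨1, [(8, 1)]⟩, ⟨1, []⟩, ⟨1, []⟩, ⟨1, []⟩])))))⟩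
def s23_11 : Sys := ⟨[(0, 48), (1, -16), (2, 80), (4, -16)], [(0, -80), (1, 16), (3, -16)], 4, [s23_11_n0], [80, -32, 0, 16], (.leaf 0 [⟨1, []⟩, ⟨1, []⟩, ⟨1, []⟩, ⟨1, []⟩, ⟨1, []⟩, ⟨1, []⟩, ⟨1, []⟩, ⟨1, []⟩, ⟨1, []⟩])⟩

theorem s23_11_ok : s23_11.ok = true := by decide +kernel

def s24_4_t0 : Tree := .nbr (.cons (.ddet 0 [] (.ndet 0 [⟨1, [(10, 1)]⟩] (.ddet 0 [] (.ndet 1 [⟨2, [(9, 1), (2, 1), (0, 2)]⟩] (.ddet 0 [] (.split [1, -2, 1] (-6000) (.leaf 0 [⟨2, [(10, 2), (5, 1), (3, 1)]⟩, ⟨2, [(10, 2), (7, 1), (4, 2), (0, 1)]⟩, ⟨1, [(0, 1)]⟩, ⟨3, [(10, 2), (4, 2), (0, 2)]⟩, ⟨1, []⟩, ⟨2, [(10, 1), (3, 1), (1, 2)]⟩, ⟨2, [(10, 1), (3, 1)]⟩, ⟨6,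 [(10, 4), (7, 3), (4, 4), (0, 7)]⟩, ⟨3, [(10, 4), (7, 3), (4, 4), (0, 1)]⟩, ⟨6, [(10, 2), (7, 3), (4, 2), (0, 5)]⟩, ⟨1, [(10, 1), (3, 1)]⟩, ⟨3, [(10, 1), (4, 1), (0, 1)]⟩]) (.leaf 1 [⟨2, [(10, 2), (7, 1), (4, 2), (0, 3)]⟩, ⟨2, [(10, 2), (7, 1), (4, 2), (0, 1)]⟩, ⟨1, [(0, 1)]⟩, ⟨3, [(10, 2), (4, 2), (0, 4)]⟩, ⟨6, [(10, 4), (7, 3), (4, 4), (0, 11)]⟩, ⟨3, [(10, 4), (7, 3), (4, 4), (0, 5)]⟩, ⟨6, [(10, 4), (7, 3), (4, 4), (0, 5)]⟩, ⟨6, [(10, 2), (7, 3), (4, 2), (0, 7)]⟩, ⟨1, [(10, 1), (7, 1), (4, 1), (0, 1)]⟩, ⟨1, []⟩, ⟨6, [(10, 2), (7, 3), (4, 2), (0, 1)]⟩, ⟨3, [(10, 1), (4, 1), (0, 2)]⟩]))))))) (.cons (.ddet 0 [] (.ndet 0 [⟨2, [(9, 1),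 (4, 1), (0, 2)]⟩] (.ddet 0 [] (.nbr (.cons (.ddet 0 [] (.leaf 0 [⟨2, [(10, 1), (5, 1)]⟩, ⟨2, [(10, 3), (5, 5), (2, 2), (0, 4)]⟩, ⟨1, [(10, 1), (5, 2), (2, 1), (0, 3)]⟩, ⟨1, [(10, 1), (5, 1), (0, 1)]⟩, ⟨1, [(0, 1)]⟩, ⟨1, []⟩, ⟨2, [(10, 1), (5, 3), (2, 2), (0, 4)]⟩, ⟨1, [(10, 2), (5, 4), (2, 2), (0, 4)]⟩, ⟨1, [(10, 2), (5, 4), (2, 2), (0, 3)]⟩, ⟨2, [(10, 3), (5, 7), (2, 4), (0, 8)]⟩, ⟨1, [(10, 1), (5, 3), (2, 2), (0, 3)]⟩, ⟨2, [(10, 1), (5, 1), (0, 2)]⟩])) (.cons (.ddet 0 [] (.leaf 0 [⟨2, [(10, 1), (5, 1), (0, 2)]⟩, ⟨2, [(10, 3), (5, 2), (3, 1)]⟩, ⟨2, [(10, 1), (5, 1), (1, 2)]⟩, ⟨1, [(10, 1), (5, 1)]⟩, ⟨1, []⟩, ⟨1, [(0, 1)]⟩, ⟨2, [(10,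 1), (3, 1)]⟩, ⟨2, [(10, 3), (5, 2), (3, 1), (1, 2)]⟩, ⟨1, [(10, 2), (5, 1), (3, 1)]⟩, ⟨2, [(10, 2), (5, 1), (3, 1), (1, 2)]⟩, ⟨1, [(10, 1), (3, 1)]⟩, ⟨2, [(10, 1), (5, 1)]⟩])) .nil)))))) .nil))
def s24_4_t1 : Tree := .ddet 0 [] (.ndet 0 [⟨1, [(10, 1)]⟩] (.ddet 0 [] (.nbr (.cons (.ddet 0 [] (.leaf 0 [⟨3, [(10, 2), (7, 3), (1, 1), (0, 2)]⟩, ⟨3, [(10, 5), (7, 9), (1, 4), (0, 8)]⟩, ⟨1, [(10, 1), (7, 2), (1, 1), (0, 3)]⟩, ⟨3, [(10, 4), (7, 6), (1, 2), (0, 7)]⟩, ⟨1, [(0, 1)]⟩, ⟨1, []⟩, ⟨3, [(10, 1), (7, 3), (1, 2), (0, 4)]⟩, ⟨1, [(10, 2), (7, 4), (1, 2), (0, 4)]⟩, ⟨1, [(10, 2), (7, 4), (1, 2), (0, 3)]⟩, ⟨3, [(10, 4), (7, 9), (1, 5), (0,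 10)]⟩, ⟨3, [(10, 2), (7, 6), (1, 4), (0, 5)]⟩, ⟨3, [(10, 2), (7, 3), (1, 1), (0, 5)]⟩])) (.cons (.ddet 0 [] (.split [1, -2, 0, 1] (-12000) (.leaf 0 [⟨3, [(11, 2), (8, 3), (2, 1), (1, 1)]⟩, ⟨2, [(11, 2), (8, 3), (3, 1), (0, 1)]⟩, ⟨1, [(0, 1)]⟩, ⟨3, [(11, 2), (8, 2), (0, 2)]⟩, ⟨1, []⟩, ⟨1, [(1, 1)]⟩, ⟨2, [(11, 1), (4, 1)]⟩, ⟨6, [(11, 4), (8, 7), (3, 3), (0, 7)]⟩, ⟨3, [(11, 4), (8, 7), (3, 3), (0, 1)]⟩, ⟨6, [(11, 2), (8, 5), (3, 3), (0, 5)]⟩, ⟨1, [(11, 1), (4, 1)]⟩, ⟨3, [(11, 1), (8, 1), (0, 1)]⟩]) (.leaf 1 [⟨2, [(11, 2), (8, 3), (3, 1), (0, 3)]⟩, ⟨2, [(11, 2), (8, 3), (3, 1), (0, 1)]⟩, ⟨1, [(0, 1)]⟩, ⟨3, [(11, 2), (8, 2), (0, 4)]⟩, ⟨6,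 [(11, 4), (8, 7), (3, 3), (0, 11)]⟩, ⟨3, [(11, 4), (8, 7), (3, 3), (0, 5)]⟩, ⟨6, [(11, 4), (8, 7), (3, 3), (0, 5)]⟩, ⟨6, [(11, 2), (8, 5), (3, 3), (0, 7)]⟩, ⟨1, [(11, 1), (8, 2), (3, 1), (0, 1)]⟩, ⟨1, []⟩, ⟨6, [(11, 2), (8, 5), (3, 3), (0, 1)]⟩, ⟨3, [(11, 1), (8, 1), (0, 2)]⟩]))) .nil)))))
def s24_4_t2 : Tree := .nbr (.cons s24_4_t1 (.cons (.ddet 0 [] (.ndet 0 [⟨3, [(9, 2), (2, 1), (1, 1), (0, 2)]⟩] (.ddet 0 [] (.nbr (.cons (.ddet 0 [] (.leaf 0 [⟨2, [(10, 1), (5, 1)]⟩, ⟨2, [(10, 3), (5, 2), (3, 1), (0, 2)]⟩, ⟨2, [(10, 2), (5, 1), (3, 1), (0, 4)]⟩, ⟨1, [(10, 1), (5, 1), (0, 1)]⟩, ⟨1, [(0, 1)]⟩, ⟨1, []⟩, ⟨2, [(10, 1), (3, 1), (0, 2)]⟩,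 ⟨1, [(10, 2), (5, 1), (3, 1), (0, 2)]⟩, ⟨1, [(10, 2), (5, 1), (3, 1), (0, 1)]⟩, ⟨2, [(10, 3), (5, 1), (3, 2), (0, 4)]⟩, ⟨1, [(10, 1), (3, 1), (0, 1)]⟩, ⟨2, [(10, 1), (5, 1), (0, 2)]⟩])) (.cons (.ddet 0 [] (.leaf 0 [⟨2, [(10, 1), (5, 1), (0, 2)]⟩, ⟨2, [(10, 3), (5, 2), (3, 1)]⟩, ⟨3, [(10, 2), (3, 1), (2, 4), (1, 2)]⟩, ⟨1, [(10, 1), (5, 1)]⟩, ⟨1, []⟩, ⟨1, [(0, 1)]⟩, ⟨2, [(10, 1), (3, 1)]⟩, ⟨6, [(10, 11), (3, 7), (2, 10), (1, 2)]⟩, ⟨1, [(10, 2), (5, 1), (3, 1)]⟩, ⟨6, [(10, 7), (3, 5), (2, 8), (1, 4)]⟩, ⟨1, [(10, 1), (3, 1)]⟩, ⟨2, [(10, 1), (5, 1)]⟩])) .nil)))))) .nil))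
def s24_4_n0 : Node := ⟨[⟨[1, 0, 0, -1], -200⟩, ⟨[1, 0, -1], -200⟩, ⟨[1, -1], -200⟩, ⟨[1, -1, -1, -1], 239700⟩, ⟨[1, -1, 1, -1], -6340⟩, ⟨[1, 0, 1, -1], 3680⟩, ⟨[1, 0, 1], 237000⟩, ⟨[1, 0, -1, 1], 239700⟩, ⟨[1, 1, -1, 1], 239700⟩, ⟨[1, 0, 0, 1], 239700⟩, ⟨[1, 1, 1, 1], 239700⟩], [1], 0, none, (.nbr (.cons (.ddet 0 [] s24_4_t0) (.cons (.ddet 0 [] s24_4_t2) .nil)))⟩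
def s24_4_t3 : Tree := .nbr (.cons (.ddet 0 [] (.ndet 1 [⟨2, [(9, 3), (5, 4), (3, 3), (0, 8)]⟩] (.ddet 0 [] (.leaf 1 [⟨2, [(9, 5), (5, 6), (3, 5), (0, 12)]⟩, ⟨2, [(9, 3), (5, 4), (3, 3), (0, 10)]⟩, ⟨1, [(9, 1), (5, 1), (3, 1), (0, 1)]⟩, ⟨1, [(9, 2), (5, 2), (3, 2), (0, 4)]⟩, ⟨2, [(9, 5), (5, 6), (3, 5), (0, 10)]⟩, ⟨1, [(9, 3), (5, 4), (3, 3), (0, 8)]⟩, ⟨2, [(9, 3), (5, 4), (3, 3), (0, 8)]⟩, ⟨2, [(9, 3), (5, 4), (3, 3), (0, 6)]⟩, ⟨1, [(9, 2), (5, 3), (3, 2), (0, 6)]⟩, ⟨1, []⟩, ⟨2, [(9, 1), (5, 2), (3, 1), (0, 4)]⟩, ⟨1, [(9, 1), (5, 1), (3, 1), (0, 3)]⟩])))) (.cons (.ddet 0 [] (.nbr (.cons (.ddet 0 [] (.leaf 2 [⟨1, [(10, 1), (3, 1)]⟩,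 ⟨1, [(0, 1)]⟩, ⟨2, [(10, 3), (7, 1), (3, 3), (0, 1)]⟩, ⟨4, [(10, 5), (4, 1), (3, 4), (0, 2)]⟩, ⟨1, []⟩, ⟨1, []⟩, ⟨2, [(10, 1), (7, 1), (3, 1), (0, 1)]⟩, ⟨1, [(7, 1), (0, 1)]⟩, ⟨2, [(10, 3), (7, 3), (3, 3), (0, 1)]⟩, ⟨2, [(10, 1), (7, 3), (3, 1), (0, 1)]⟩, ⟨4, [(10, 1), (4, 1), (0, 2)]⟩])) (.cons (.ddet 0 [] (.leaf 1 [⟨1, [(10, 1), (3, 1), (0, 1)]⟩, ⟨1, [(0, 1)]⟩, ⟨1, [(10, 1), (6, 1), (4, 1)]⟩, ⟨4, [(10, 5), (4, 1), (3, 4), (0, 2)]⟩, ⟨2, [(10, 3), (7, 1), (3, 3), (0, 1)]⟩, ⟨2, [(10, 1), (7, 1), (3, 1), (0, 3)]⟩, ⟨2, [(10, 1), (7, 1), (3, 1), (0, 1)]⟩, ⟨1, [(10, 1), (7, 1), (3, 1)]⟩, ⟨1, [(7, 1), (0, 1)]⟩, ⟨1, [(1, 1)]⟩, ⟨1, [(7, 1)]⟩,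 ⟨4, [(10, 1), (4, 1), (0, 2)]⟩])) .nil)))) .nil))
def s24_4_t4 : Tree := .nbr (.cons (.ddet 0 [] (.ndet 1 [⟨2, [(9, 3), (5, 4), (1, 1), (0, 5)]⟩] (.ddet 0 [] (.leaf 1 [⟨2, [(9, 5), (5, 6), (1, 1), (0, 7)]⟩, ⟨2, [(9, 3), (5, 4), (1, 1), (0, 7)]⟩, ⟨1, [(9, 1), (5, 1)]⟩, ⟨1, [(9, 2), (5, 2), (0, 2)]⟩, ⟨2, [(9, 5), (5, 6), (1, 1), (0, 5)]⟩, ⟨1, [(9, 3), (5, 4), (1, 1), (0, 5)]⟩, ⟨2, [(9, 3), (5, 4), (1, 1), (0, 5)]⟩, ⟨2, [(9, 3), (5, 4), (1, 1), (0, 3)]⟩, ⟨1, [(9, 2), (5, 3), (1, 1), (0, 4)]⟩, ⟨1, []⟩, ⟨2, [(9, 1), (5, 2), (1, 1), (0, 3)]⟩, ⟨1, [(9, 1), (5, 1), (0, 2)]⟩])))) (.cons (.ddet 0 [] (.nbr (.cons (.ddet 0 [] (.leaf 2 [⟨2, [(10,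 3), (8, 5), (2, 2), (0, 4)]⟩, ⟨1, [(0, 1)]⟩, ⟨2, [(10, 5), (8, 9), (2, 4), (0, 8)]⟩, ⟨1, [(10, 2), (8, 3), (2, 1), (0, 3)]⟩, ⟨1, []⟩, ⟨1, []⟩, ⟨1, [(10, 1), (8, 2), (2, 1), (0, 2)]⟩, ⟨2, [(10, 1), (8, 3), (2, 2), (0, 4)]⟩, ⟨1, [(10, 3), (8, 6), (2, 3), (0, 5)]⟩, ⟨2, [(10, 3), (8, 7), (2, 4), (0, 6)]⟩, ⟨2, [(10, 1), (8, 1), (0, 2)]⟩])) (.cons (.ddet 0 [] (.leaf 1 [⟨1, [(10, 1), (9, 1), (8, 1), (2, 1)]⟩, ⟨1, [(0, 1)]⟩, ⟨1, [(10, 1), (6, 1), (1, 1)]⟩, ⟨1, [(10, 1), (9, 2), (2, 1)]⟩, ⟨1, [(10, 1), (9, 3), (2, 2)]⟩, ⟨1, [(10, 1), (8, 2), (2, 1)]⟩, ⟨2, [(10, 1), (9, 2), (8, 1), (2, 2)]⟩, ⟨1, [(10, 1), (9, 1), (6, 1), (2, 1)]⟩, ⟨2, [(10,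 1), (8, 3), (2, 2)]⟩, ⟨1, [(1, 1)]⟩, ⟨1, [(9, 1), (2, 1)]⟩, ⟨2, [(10, 1), (8, 1)]⟩])) .nil)))) .nil))
def s24_4_n1 : Node := ⟨[⟨[0, 1, 0, -1], -200⟩, ⟨[0, 1, -1], -200⟩, ⟨[-1, 1], -200⟩, ⟨[-1, 1, -1, -1], 239700⟩, ⟨[0, 1, 1, -1], 239700⟩, ⟨[1, 1, 1, -1], 239700⟩, ⟨[0, 1], 239700⟩, ⟨[0, 1, 1], 239700⟩, ⟨[1, 1, 1], 239700⟩, ⟨[-1, 1, -1, 1], 5660⟩, ⟨[0, 1, 0, 1], 237000⟩], [0, 1], 0, none, (.nbr (.cons (.ddet 0 [] (.ndet 0 [⟨1, [(10, 1)]⟩] (.ddet 0 [] s24_4_t3))) (.cons (.ddet 0 [] (.ndet 0 [⟨2, [(8, 1), (6, 1), (0, 2)]⟩] (.ddet 0 [] s24_4_t4))) .nil)))⟩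
def s24_4_t5 : Tree := .ddet 0 [] (.nbr (.cons (.ddet 0 [] (.ndet 0 [⟨3, [(8, 2), (7, 1), (5, 3), (0, 1)]⟩] (.ddet 0 [] (.leaf 3 [⟨1, [(0, 1)]⟩, ⟨1, [(8, 1), (7, 1), (5, 2), (0, 1)]⟩, ⟨2, [(8, 1), (3, 1)]⟩, ⟨1, []⟩, ⟨3, [(8, 2), (7, 1), (5, 3), (0, 1)]⟩, ⟨1, []⟩, ⟨1, [(7, 1), (5, 1), (0, 1)]⟩, ⟨3, [(8, 1), (6, 1), (0, 2)]⟩])))) (.cons (.ddet 0 [] (.ndet 0 [⟨2, [(8, 1), (5, 1), (1, 1)]⟩] (.ddet 0 [] (.leaf 2 [⟨1, [(0, 1)]⟩, ⟨2, [(8, 1), (5, 1), (1, 3)]⟩, ⟨3, [(8, 1), (7, 2), (5, 3), (0, 4)]⟩, ⟨3, [(8, 2), (7, 1), (5, 3), (0, 2)]⟩, ⟨1, []⟩, ⟨1, []⟩, ⟨3, [(8, 1), (7, 2), (5, 3), (0, 1)]⟩, ⟨2, [(8, 1), (7, 2), (5, 3), (1, 1)]⟩, ⟨1, [(7,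 1), (5, 1), (0, 2)]⟩, ⟨1, [(7, 1), (5, 1), (0, 1)]⟩, ⟨3, [(8, 1), (6, 1), (0, 1)]⟩])))) .nil)))
def s24_4_t6 : Tree := .ndet 0 [⟨1, [(9, 1)]⟩] (.ddet 0 [] (.nbr (.cons (.ddet 0 [] (.ndet 1 [⟨2, [(7, 1), (6, 2), (4, 3), (0, 3)]⟩] (.ddet 0 [] (.ndet 0 [⟨2, [(9, 1), (7, 1), (4, 1)]⟩] (.ddet 0 [] (.leaf 2 [⟨2, [(7, 1), (6, 2), (4, 3), (0, 5)]⟩, ⟨2, [(9, 1), (7, 1), (4, 1)]⟩, ⟨1, [(7, 1), (6, 2), (4, 3), (0, 4)]⟩, ⟨1, [(7, 1), (6, 1), (4, 2), (0, 3)]⟩, ⟨1, []⟩, ⟨1, []⟩, ⟨2, [(7, 1), (6, 2), (4, 3), (0, 3)]⟩, ⟨2, [(7, 1), (6, 2), (4, 3), (0, 1)]⟩, ⟨1, [(7, 1), (6, 3), (4, 4), (0, 5)]⟩, ⟨2, [(7, 1), (6, 4), (4, 5), (0, 5)]⟩, ⟨2, [(7, 1),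 (4, 1), (0, 3)]⟩])))))) (.cons s24_4_t5 .nil))))
def s24_4_n2 : Node := ⟨[⟨[0, 0, 1, -1], -200⟩, ⟨[0, -1, 1], -200⟩, ⟨[-1, 0, 1], -200⟩, ⟨[-1, -1, 1, -1], 239700⟩, ⟨[1, 0, 1, -1], 3680⟩, ⟨[-1, 0, -1, 1], -4320⟩, ⟨[-1, 0, 0, 1], 239700⟩, ⟨[0, 0, 1, 1], 237000⟩, ⟨[-1, 1, 1, 1], 239700⟩, ⟨[0, 1, 1, 1], 239700⟩], [0, 0, 1], 0, none, s24_4_t6⟩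
def s24_4_t7 : Tree := .ddet 0 [] (.ndet 1 [⟨1, [(5, 1), (4, 2), (3, 1)]⟩] (.ddet 0 [] (.ndet 0 [⟨1, [(4, 2), (3, 1), (0, 1)]⟩] (.ddet 0 [] (.ndet 0 [⟨1, [(5, 1), (4, 1), (3, 1)]⟩] (.ddet 0 [] (.split [1, 0, -1] (6000) (.leaf 0 [⟨1, [(0, 1)]⟩, ⟨2, [(5, 2), (4, 3), (2, 1), (0, 4)]⟩, ⟨4, [(5, 6), (4, 11), (2, 3), (0, 2)]⟩, ⟨4, [(5, 2), (4, 5), (2, 1), (0, 6)]⟩, ⟨1, [(6, 1), (5, 1), (4, 1)]⟩, ⟨1, []⟩, ⟨2, [(5, 2), (4, 3), (2, 1)]⟩, ⟨1, [(5, 2), (4, 3), (2, 1), (0, 2)]⟩, ⟨4, [(5, 6), (4, 7), (2, 3), (0, 10)]⟩, ⟨1, [(5, 2), (4, 3), (2, 1), (0, 1)]⟩, ⟨4, [(5, 6), (4, 7), (2, 3), (0, 2)]⟩, ⟨1, [(5, 1), (4, 1), (0, 1)]⟩]) (.leaf 3 [⟨1, [(5,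 2), (4, 1), (1, 2)]⟩, ⟨4, [(5, 6), (4, 11), (2, 3), (0, 2)]⟩, ⟨1, [(0, 1)]⟩, ⟨1, []⟩, ⟨4, [(5, 2), (4, 5), (2, 1), (0, 2)]⟩, ⟨1, []⟩, ⟨2, [(5, 4), (4, 3), (2, 1), (1, 2)]⟩, ⟨1, [(5, 1), (4, 1)]⟩]))))))))
def s24_4_t8 : Tree := .nbr (.cons (.ddet 0 [] (.ndet 1 [⟨2, [(4, 2), (3, 3), (1, 1), (0, 2)]⟩] (.ddet 0 [] (.ndet 0 [⟨1, [(7, 1), (4, 2), (3, 1)]⟩] (.ddet 0 [] (.ndet 0 [⟨2, [(3, 3), (1, 1), (0, 4)]⟩] (.ddet 0 [] (.leaf 3 [⟨1, [(7, 1), (4, 2), (3, 1)]⟩, ⟨1, [(4, 1), (3, 3), (1, 1), (0, 3)]⟩, ⟨2, [(3, 1), (2, 2), (1, 1), (0, 4)]⟩, ⟨1, []⟩, ⟨2, [(3, 3), (1, 1), (0, 4)]⟩, ⟨1, []⟩, ⟨2, [(4, 4), (3, 3), (1, 1)]⟩, ⟨1, [(4, 1), (3, 1), (0,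 1)]⟩])))))))) (.cons s24_4_t7 .nil))
def s24_4_n3 : Node := ⟨[⟨[0, 0, -1, 1], -200⟩, ⟨[0, -1, 0, 1], -200⟩, ⟨[-1, 0, 0, 1], -200⟩, ⟨[1, 0, 1, -1], 3680⟩, ⟨[-1, -1, -1, 1], 239700⟩, ⟨[-1, 0, -1, 1], -4320⟩, ⟨[1, 1, 1, 1], 239700⟩], [0, 0, 0, 1], 0, none, s24_4_t8⟩
def s24_4 : Sys := ⟨[(3, 3000), (4, -3000)], [(2, -1000)], 4, [s24_4_n0, s24_4_n1, s24_4_n2, s24_4_n3], [-379677, 224534, 339726, -43951], (.leaf 2 [⟨1, []⟩, ⟨1, []⟩, ⟨1, []⟩, ⟨1, []⟩, ⟨1, []⟩, ⟨1, []⟩, ⟨1, []⟩, ⟨1, []⟩, ⟨1, []⟩, ⟨1, []⟩])⟩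

theorem s24_4_ok : s24_4.ok = true := by decide +kernel

def s24_6_n0 : Node := ⟨[⟨[0, 0, 1, -1], 1968⟩, ⟨[-1, 1], 1072⟩, ⟨[0, -1, 1], 1832⟩, ⟨[-1, -1, 1], 3088⟩, ⟨[-1, 1], 1056⟩, ⟨[0, -2, 1], 2128⟩, ⟨[0, -1], 456⟩, ⟨[0, -1, 1], 1944⟩, ⟨[0, -1, 1], 1928⟩], [0, 0, 1], 0, none, (.ndet 0 [⟨1, [(8, 1)]⟩] (.ddet 1 [⟨1, [(7, 1)]⟩] (.ndet 1 [⟨1, [(1, 1)]⟩] (.ddet 0 [⟨1, [(7, 1), (2, 1), (1, 1)]⟩] (.ndet 1 [⟨1, [(7, 1)]⟩] (.ddet 1 [⟨1, [(2, 1), (1, 1)]⟩] (.leaf 0 [⟨1, [(7, 1), (2, 1), (1, 1)]⟩, ⟨1, [(1, 1)]⟩, ⟨1, [(2, 1), (1, 1)]⟩, ⟨1, [(2, 2), (1, 2)]⟩, ⟨1, [(1, 1)]⟩, ⟨1, [(2, 2), (1, 1)]⟩, ⟨1, [(2, 1)]⟩, ⟨1, [(2, 1), (1, 1)]⟩, ⟨1, [(2,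 1), (1, 1)]⟩, ⟨1, [(2, 1)]⟩])))))))⟩
def s24_6 : Sys := ⟨[(3, 32), (4, -128)], [(1, 0), (2, -192)], 4, [s24_6_n0], [-3088, -1136, 2368, -1728], (.leaf 0 [⟨1, []⟩, ⟨1, []⟩, ⟨1, []⟩, ⟨1, []⟩, ⟨1, []⟩, ⟨1, []⟩, ⟨1, []⟩, ⟨1, []⟩, ⟨1, []⟩])⟩

theorem s24_6_ok : s24_6.ok = true := by decide +kernel

def s25_10_n0 : Node := ⟨[⟨[0, 0, 0, 1], 136⟩, ⟨[0, 0, -1, 1], 152⟩, ⟨[1, 0, -1], -176⟩, ⟨[0, 1], 284⟩, ⟨[0, 1, -1], 396⟩, ⟨[-1, -1, 0, 1], 52⟩, ⟨[-1, -1, 0, 1], 180⟩, ⟨[-1, 1], 252⟩, ⟨[0, 1, 0, -1], 20⟩, ⟨[-2, 0, 0, 1], 624⟩], [0, 1], 0, none, (.ndet 2 [⟨1, [(9, 1)]⟩, ⟨1, [(7, 1), (6, 1), (3, 1)]⟩] (.ddet 0 [⟨1, [(7, 1)]⟩] (.ndet 1 [⟨1, [(6,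 1)]⟩, ⟨1, [(5, 1)]⟩] (.ddet 0 [⟨1, [(3, 1)]⟩] (.leaf 0 [⟨1, [(6, 1)]⟩, ⟨1, [(6, 1), (3, 1), (1, 1)]⟩, ⟨1, [(1, 1)]⟩, ⟨1, [(6, 1), (3, 1)]⟩, ⟨1, [(6, 1), (3, 2), (1, 1)]⟩, ⟨1, []⟩, ⟨1, []⟩, ⟨1, [(6, 1), (3, 2)]⟩, ⟨1, [(3, 1)]⟩, ⟨1, [(6, 1), (3, 2)]⟩, ⟨1, [(3, 1)]⟩])))))⟩
def s25_10 : Sys := ⟨[(0, 80), (3, -160), (4, 32)], [(1, 128), (3, -128)], 4, [s25_10_n0], [-432, 400, -304, 256], (.leaf 0 [⟨1, []⟩, ⟨1, []⟩, ⟨1, []⟩, ⟨1, []⟩, ⟨1, []⟩, ⟨1, []⟩, ⟨1, []⟩, ⟨1, []⟩, ⟨1, []⟩, ⟨1, []⟩])⟩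

theorem s25_10_ok : s25_10.ok = true := by decide +kernel

def s25_14_n0 : Node := ⟨[⟨[0, 0, -1], 520⟩, ⟨[0, 0, 0, -1], 512⟩, ⟨[1, -1], 600⟩, ⟨[1, 0, -1], 1120⟩, ⟨[0, -1], 0⟩, ⟨[2], 1120⟩, ⟨[1, -1], 592⟩, ⟨[1], 592⟩, ⟨[2], 1112⟩, ⟨[2], 1128⟩, ⟨[1], 600⟩, ⟨[1], 608⟩], [1], 0, none, (.ndet 0 [⟨1, [(11, 1)]⟩, ⟨1, [(10, 1)]⟩] (.ddet 0 [⟨1, [(7, 1), (0, 1)]⟩, ⟨1, [(11, 1), (0, 1)]⟩] (.ndet 0 [⟨1, [(7, 1)]⟩, ⟨1, [(11, 1)]⟩] (.ddet 1 [⟨1, [(0, 2)]⟩, ⟨1, [(7, 1), (0, 1)]⟩] (.ndet 1 [⟨1, [(0, 1)]⟩, ⟨1, [(7, 1), (0, 1)]⟩] (.ddet 2 [⟨1, [(0, 2)]⟩, ⟨1, [(0, 2)]⟩] (.ndet 2 [⟨1, [(0, 1)]⟩, ⟨1, [(0, 2)]⟩] (.ddet 0 [⟨1, [(0, 1)]⟩, ⟨1, [(0, 1)]⟩]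 (.leaf 0 [⟨1, [(0, 1)]⟩, ⟨1, [(0, 1)]⟩, ⟨1, [(0, 1)]⟩, ⟨1, [(0, 2)]⟩, ⟨1, []⟩, ⟨1, [(0, 2)]⟩, ⟨1, [(0, 1)]⟩, ⟨1, [(0, 1)]⟩, ⟨1, [(0, 2)]⟩, ⟨1, [(0, 2)]⟩, ⟨1, [(0, 1)]⟩, ⟨1, [(0, 1)]⟩, ⟨1, []⟩])))))))))⟩
def s25_14 : Sys := ⟨[(0, 32), (3, -32), (4, -32)], [(1, 16), (2, 32), (3, 32)], 4, [s25_14_n0], [1120, -64, -1104, -1088], (.leaf 0 [⟨1, []⟩, ⟨1, []⟩, ⟨1, []⟩, ⟨1, []⟩, ⟨1, []⟩, ⟨1, []⟩, ⟨1, []⟩, ⟨1, []⟩, ⟨1, []⟩, ⟨1, []⟩, ⟨1, []⟩, ⟨1, []⟩])⟩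

theorem s25_14_ok : s25_14.ok = true := by decide +kernel

def s25_15_n0 : Node := ⟨[⟨[0, 0, 1], 128⟩, ⟨[0, 0, 1, -1], 128⟩, ⟨[0, 0, 1], 64⟩, ⟨[-1, 0, 1], 144⟩, ⟨[0, -1, 1], 176⟩, ⟨[0, 0, 1], 72⟩, ⟨[0, -1, 1], 128⟩, ⟨[-1], 104⟩, ⟨[0, -1], 120⟩, ⟨[-1], 48⟩, ⟨[0, -1], 112⟩, ⟨[0, 0, 1], 32⟩, ⟨[0, 0, 1], 8⟩, ⟨[0, 0, 2], 80⟩, ⟨[0, 0, 1], 16⟩], [0, 0, 1], 0, none, (.ndet 1 [⟨1, [(14, 1)]⟩, ⟨1, [(13, 1)]⟩] (.ddet 3 [⟨1, [(14, 1)]⟩, ⟨1, [(14, 1), (7, 1)]⟩, ⟨1, [(14, 1), (6, 1)]⟩] (.ndet 2 [⟨1, [(14, 1)]⟩, ⟨1, [(14, 1), (6, 1)]⟩] (.ddet 0 [⟨1, []⟩, ⟨1, [(7, 1)]⟩, ⟨1, [(6, 1)]⟩] (.ndet 0 [⟨1, [(7, 1)]⟩, ⟨1, [(6, 1)]⟩] (.ddet 1 [⟨1, [(14, 1)]⟩,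 ⟨1, [(14, 1)]⟩, ⟨1, [(14, 1), (7, 1)]⟩] (.ndet 0 [⟨1, []⟩, ⟨1, [(7, 1)]⟩] (.ddet 2 [⟨1, [(14, 1)]⟩, ⟨1, [(14, 2)]⟩, ⟨1, [(14, 1)]⟩] (.leaf 0 [⟨1, [(14, 1)]⟩, ⟨1, [(14, 1)]⟩, ⟨1, [(14, 1)]⟩, ⟨1, [(14, 2)]⟩, ⟨1, [(14, 2)]⟩, ⟨1, [(14, 1)]⟩, ⟨1, [(14, 2)]⟩, ⟨1, [(14, 1)]⟩, ⟨1, [(14, 1)]⟩, ⟨1, [(14, 1)]⟩, ⟨1, [(14, 1)]⟩, ⟨1, [(14, 1)]⟩, ⟨1, [(14, 1)]⟩, ⟨1, [(14, 2)]⟩, ⟨1, [(14, 1)]⟩, ⟨1, []⟩])))))))))⟩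
def s25_15 : Sys := ⟨[(0, 0), (3, -48), (4, 64)], [(0, -64), (1, -48), (2, 0), (3, 16)], 4, [s25_15_n0], [-144, -160, 208, 64], (.leaf 0 [⟨1, []⟩, ⟨1, []⟩, ⟨1, []⟩, ⟨1, []⟩, ⟨1, []⟩, ⟨1, []⟩, ⟨1, []⟩, ⟨1, []⟩, ⟨1, []⟩, ⟨1, []⟩, ⟨1, []⟩, ⟨1, []⟩, ⟨1, []⟩, ⟨1, []⟩, ⟨1, []⟩])⟩

theorem s25_15_ok : s25_15.ok = true := by decide +kernel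

def s26_8_t0 : Tree := .nbr (.cons (.ddet 0 [] (.ndet 2 [⟨1, [(20, 1), (4, 1), (3, 2)]⟩, ⟨1, [(20, 1), (4, 1), (3, 1), (1, 1)]⟩] (.ddet 0 [] (.leaf 0 [⟨1, [(20, 1), (4, 1), (1, 1)]⟩, ⟨1, [(12, 1)]⟩, ⟨1, [(20, 1), (4, 1), (3, 1)]⟩, ⟨1, [(12, 2)]⟩, ⟨1, [(12, 2), (1, 1)]⟩, ⟨1, [(12, 2), (1, 2)]⟩, ⟨1, [(12, 1)]⟩, ⟨1, [(12, 1), (1, 1)]⟩, ⟨1, [(12, 1), (1, 2)]⟩, ⟨1, []⟩, ⟨1, [(1, 1)]⟩, ⟨1, [(1, 2)]⟩, ⟨1, [(12, 1)]⟩, ⟨1, [(12, 1), (1, 1)]⟩, ⟨1, [(12, 1), (3, 1)]⟩, ⟨1, [(1, 1)]⟩, ⟨1, []⟩, ⟨1, [(12, 1), (3, 2)]⟩, ⟨1, [(3, 1)]⟩, ⟨1, [(3, 1), (1, 1)]⟩, ⟨1, [(3, 2)]⟩, ⟨1, [(3, 2), (1, 1)]⟩, ⟨1, [(3, 2), (1, 2)]⟩, ⟨1, [(20, 1), (4, 1), (3, 3),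 (1, 3)]⟩, ⟨1, [(12, 1), (1, 1)]⟩])))) (.cons (.ddet 0 [] (.ndet 2 [⟨1, [(21, 1), (4, 1), (3, 1)]⟩, ⟨1, [(21, 1), (4, 1)]⟩] (.ddet 0 [] (.leaf 0 [⟨1, [(18, 1), (4, 1)]⟩, ⟨1, [(12, 1)]⟩, ⟨1, [(21, 1), (4, 1)]⟩, ⟨2, [(16, 1), (5, 1)]⟩, ⟨2, [(16, 1), (5, 1)]⟩, ⟨2, [(16, 1), (5, 1)]⟩, ⟨2, [(17, 1), (6, 1)]⟩, ⟨2, [(17, 1), (6, 1)]⟩, ⟨2, [(17, 1), (6, 1)]⟩, ⟨2, [(18, 1), (7, 1)]⟩, ⟨2, [(18, 1), (7, 1)]⟩, ⟨2, [(18, 1), (7, 1)]⟩, ⟨1, [(12, 1)]⟩, ⟨1, [(12, 1)]⟩, ⟨1, []⟩, ⟨1, []⟩, ⟨1, [(1, 1)]⟩, ⟨1, [(3, 1)]⟩, ⟨1, [(3, 1)]⟩, ⟨1, [(3, 1)]⟩, ⟨1, [(13, 1), (3, 1)]⟩, ⟨1, [(13, 1), (3, 1)]⟩, ⟨1, [(13, 1), (3, 1)]⟩, ⟨1, [(21, 1), (13, 1), (4, 1), (3,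 1)]⟩, ⟨2, [(17, 1), (6, 1)]⟩])))) (.cons (.prune [(24, 3), (7, 1), (4, 2), (0, 2)]) .nil)))
def s26_8_t1 : Tree := .nbr (.cons (.ddet 0 [] (.ndet 2 [⟨1, [(23, 1), (15, 1), (4, 1)]⟩, ⟨1, [(24, 1), (4, 1)]⟩] (.ddet 0 [] (.leaf 0 [⟨1, [(24, 1), (4, 1)]⟩, ⟨1, [(14, 1)]⟩, ⟨1, [(23, 1), (15, 1), (4, 1)]⟩, ⟨1, [(14, 2)]⟩, ⟨1, [(14, 1)]⟩, ⟨1, []⟩, ⟨1, [(14, 1)]⟩, ⟨1, []⟩, ⟨1, [(1, 1)]⟩, ⟨1, []⟩, ⟨1, [(1, 1)]⟩, ⟨1, [(1, 2)]⟩, ⟨1, [(14, 1)]⟩, ⟨1, []⟩, ⟨1, [(14, 1)]⟩, ⟨1, [(1, 1)]⟩, ⟨1, []⟩, ⟨1, [(14, 1)]⟩, ⟨1, []⟩, ⟨1, [(1, 1)]⟩, ⟨1, []⟩, ⟨1, [(1, 1)]⟩, ⟨1, [(1, 2)]⟩, ⟨1, [(24, 1), (4, 1), (1, 2)]⟩, ⟨1, []⟩])))) (.cons (.ddet 0 [] (.ndet 2 [⟨1,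 [(24, 1), (4, 1)]⟩, ⟨1, [(24, 1), (4, 1)]⟩] (.ddet 0 [] (.leaf 0 [⟨1, [(24, 1), (4, 1)]⟩, ⟨1, [(1, 1)]⟩, ⟨1, [(24, 1), (4, 1)]⟩, ⟨1, [(1, 1)]⟩, ⟨1, [(1, 1)]⟩, ⟨1, [(1, 1)]⟩, ⟨1, []⟩, ⟨1, []⟩, ⟨1, []⟩, ⟨1, [(13, 1), (3, 1)]⟩, ⟨1, [(13, 1), (3, 1)]⟩, ⟨1, [(13, 1), (3, 1)]⟩, ⟨1, [(1, 1)]⟩, ⟨1, [(1, 1)]⟩, ⟨1, []⟩, ⟨1, []⟩, ⟨1, [(1, 1)]⟩, ⟨1, []⟩, ⟨1, []⟩, ⟨1, []⟩, ⟨1, [(13, 1), (3, 1)]⟩, ⟨1, [(13, 1), (3, 1)]⟩, ⟨1, [(13, 1), (3, 1)]⟩, ⟨1, [(21, 1), (13, 1), (4, 1)]⟩, ⟨1, []⟩])))) (.cons (.prune [(24, 3), (7, 1), (4, 2), (0, 2)]) .nil)))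
def s26_8_t2 : Tree := .nbr (.cons (.ddet 0 [] (.ndet 2 [⟨1, [(16, 1), (2, 1)]⟩, ⟨1, [(19, 1), (11, 1), (2, 1)]⟩] (.ddet 0 [] s26_8_t0))) (.cons (.ddet 0 [] (.ndet 2 [⟨1, [(19, 1), (2, 1)]⟩, ⟨1, [(19, 1), (11, 1), (2, 1)]⟩] (.ddet 0 [] s26_8_t1))) (.cons (.prune [(22, 3), (17, 2), (16, 3), (2, 4), (0, 4)]) .nil)))
def s26_8_n0 : Node := ⟨[⟨[1, 0, 0, -1], -200⟩, ⟨[1, 0, -1], -200⟩, ⟨[1, -1], -200⟩, ⟨[1, -1, -1, -1], 8819⟩, ⟨[1, 0, -1, -1], 4871⟩, ⟨[1, 1, -1, -1], 864⟩, ⟨[0, -1, 0, -1], 6901⟩, ⟨[0, 0, 0, -1], 2911⟩, ⟨[0, 1, 0, -1], -1102⟩, ⟨[-1, -1, 1, -1], 4883⟩, ⟨[-1, 0, 1, -1], 890⟩, ⟨[-1, 1, 1, -1], -3113⟩, ⟨[1, 0, -1], 1602⟩, ⟨[1,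 1, -1], -2380⟩, ⟨[0, -1], 3611⟩, ⟨[0, 1], -4320⟩, ⟨[1, 1, -1, 1], -6340⟩, ⟨[0, -1, 0, 1], -396⟩, ⟨[0, 0, 0, 1], -4320⟩, ⟨[0, 1, 0, 1], -8340⟩, ⟨[-1, -1, 1, 1], -2405⟩, ⟨[-1, 0, 1, 1], -6401⟩, ⟨[-1, 1, 1, 1], -10404⟩, ⟨[0, 1, 1, 1], 239700⟩], [1], 0, none, s26_8_t2⟩
def s26_8_t3 : Tree := .nbr (.cons (.ddet 0 [] (.ndet 2 [⟨1, [(22, 1), (21, 1), (2, 1)]⟩, ⟨1, [(22, 1), (16, 1), (2, 1)]⟩] (.ddet 0 [] (.nbr (.cons (.ddet 0 [] (.leaf 1 [⟨1, [(1, 1)]⟩, ⟨1, [(17, 2), (4, 1), (1, 2)]⟩, ⟨1, [(17, 2), (4, 1), (3, 1), (1, 1)]⟩, ⟨1, []⟩, ⟨1, [(1, 1)]⟩, ⟨1, [(1, 2)]⟩, ⟨1, [(3, 1)]⟩, ⟨1, [(3, 1), (1, 1)]⟩, ⟨1, [(3, 1), (1, 2)]⟩, ⟨1, [(14, 1)]⟩,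 ⟨1, [(14, 1), (1, 1)]⟩, ⟨1, [(14, 1), (1, 2)]⟩, ⟨1, [(14, 1), (3, 1)]⟩, ⟨1, [(1, 1)]⟩, ⟨1, [(14, 1), (3, 2)]⟩, ⟨1, [(3, 1)]⟩, ⟨1, [(3, 1), (1, 1)]⟩, ⟨1, [(14, 1)]⟩, ⟨1, [(14, 1), (1, 1)]⟩, ⟨1, [(14, 1), (3, 1)]⟩, ⟨1, []⟩, ⟨1, [(14, 1), (3, 2)]⟩, ⟨1, [(3, 1)]⟩, ⟨1, [(17, 2), (4, 1), (3, 2), (1, 2)]⟩, ⟨1, [(3, 1), (1, 1)]⟩])) (.cons (.ddet 0 [] (.leaf 1 [⟨1, [(21, 1)]⟩, ⟨1, [(24, 2), (4, 1)]⟩, ⟨1, [(24, 1), (18, 1), (4, 1)]⟩, ⟨1, [(21, 1)]⟩, ⟨1, [(21, 1)]⟩, ⟨1, [(21, 1)]⟩, ⟨1, [(15, 1)]⟩, ⟨1, [(15, 1)]⟩, ⟨1, [(15, 1)]⟩, ⟨1, [(20, 1)]⟩, ⟨1, [(20, 1)]⟩, ⟨1, [(20, 1)]⟩, ⟨1, []⟩, ⟨1, []⟩, ⟨1, [(3, 1)]⟩, ⟨1, [(3, 1)]⟩, ⟨1, [(3, 1)]⟩, ⟨1,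 [(14, 1)]⟩, ⟨1, [(14, 1)]⟩, ⟨1, [(1, 1)]⟩, ⟨1, [(1, 1)]⟩, ⟨1, [(3, 1), (1, 1)]⟩, ⟨1, [(3, 1), (1, 1)]⟩, ⟨1, [(18, 1), (17, 1), (4, 1), (3, 1)]⟩, ⟨1, [(15, 1)]⟩])) (.cons (.prune [(18, 2), (4, 1), (0, 1)]) .nil))))))) (.cons (.ddet 0 [] (.ndet 2 [⟨1, [(16, 1), (15, 1), (2, 1), (1, 1)]⟩, ⟨1, [(16, 2), (2, 1), (1, 1)]⟩] (.ddet 0 [] (.nbr (.cons (.ddet 0 [] (.leaf 1 [⟨1, [(1, 1)]⟩, ⟨1, [(18, 1), (17, 1), (4, 1), (1, 1)]⟩, ⟨1, [(18, 1), (17, 1), (4, 1)]⟩, ⟨1, []⟩, ⟨1, [(1, 1)]⟩, ⟨1, [(1, 2)]⟩, ⟨1, []⟩, ⟨1, [(1, 1)]⟩, ⟨1, [(1, 2)]⟩, ⟨1, [(9, 1)]⟩, ⟨1, []⟩, ⟨1, [(1, 1)]⟩, ⟨1, [(9, 1)]⟩, ⟨1, [(1, 1)]⟩, ⟨1, [(9, 1)]⟩, ⟨1, []⟩, ⟨1, [(1, 1)]⟩,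 ⟨1, [(9, 1)]⟩, ⟨1, []⟩, ⟨1, [(9, 1)]⟩, ⟨1, []⟩, ⟨1, [(9, 1)]⟩, ⟨1, []⟩, ⟨1, [(18, 1), (17, 1), (4, 1), (1, 1)]⟩, ⟨1, [(15, 1)]⟩])) (.cons (.ddet 0 [] (.leaf 1 [⟨1, [(15, 1), (3, 1)]⟩, ⟨1, [(18, 2), (4, 1), (3, 1)]⟩, ⟨1, [(18, 2), (4, 1), (3, 1)]⟩, ⟨1, [(15, 1), (3, 1)]⟩, ⟨1, [(15, 1), (3, 1)]⟩, ⟨1, [(15, 1), (3, 1)]⟩, ⟨1, [(15, 1), (3, 1)]⟩, ⟨1, [(15, 1), (3, 1)]⟩, ⟨1, [(15, 1), (3, 1)]⟩, ⟨1, []⟩, ⟨1, []⟩, ⟨1, []⟩, ⟨1, []⟩, ⟨1, []⟩, ⟨1, []⟩, ⟨1, []⟩, ⟨1, []⟩, ⟨1, [(1, 1)]⟩, ⟨1, [(1, 1)]⟩, ⟨1, [(1, 1)]⟩, ⟨1, [(1, 1)]⟩, ⟨1, [(1, 1)]⟩, ⟨1, [(1, 1)]⟩, ⟨1, [(18, 1), (17, 1), (4, 1)]⟩, ⟨1, [(15, 1)]⟩])) (.cons (.prune [(15, 6), (4, 1), (2,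 2), (1, 2), (0, 1)]) .nil))))))) (.cons (.prune [(21, 2), (16, 3), (14, 1), (2, 2), (0, 2)]) .nil)))
def s26_8_n1 : Node := ⟨[⟨[0, 1, 0, -1], -200⟩, ⟨[0, 1, -1], -200⟩, ⟨[-1, 1], -200⟩, ⟨[-1, 1, 0, -1], 4892⟩, ⟨[0, 1, 0, -1], 902⟩, ⟨[1, 1, 0, -1], -3109⟩, ⟨[-1, 1, 1, -1], 915⟩, ⟨[0, 1, 1, -1], -3080⟩, ⟨[1, 1, 1, -1], -7100⟩, ⟨[-1, 0, -1], 6901⟩, ⟨[0, 0, -1], 2911⟩, ⟨[1, 0, -1], -1102⟩, ⟨[-1], 3611⟩, ⟨[1], -4320⟩, ⟨[-1, 0, 1], -396⟩, ⟨[0, 0, 1], -4320⟩, ⟨[1, 0, 1], -8340⟩, ⟨[0, -1, -1, 1], 1611⟩, ⟨[1, -1, -1, 1], -2364⟩, ⟨[0, -1, 0, 1], -2386⟩, ⟨[1, -1, 0, 1], -6320⟩, ⟨[0, -1, 1, 1], -6392⟩, ⟨[1, -1, 1, 1], -10340⟩, ⟨[1, 0, 1, 1], 239700⟩],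 [0, 1], 0, none, (.ndet 2 [⟨1, [(14, 1), (11, 1), (0, 1)]⟩, ⟨1, [(14, 1), (13, 1), (0, 1)]⟩] (.ddet 0 [] s26_8_t3))⟩
def s26_8 : Sys := ⟨[(1, -2000), (3, 0), (4, 4000)], [(3, 4000)], 4, [s26_8_n0, s26_8_n1], [251432, -4000, 249432, -4000], (.leaf 0 [⟨1, []⟩, ⟨1, []⟩, ⟨1, []⟩, ⟨1, []⟩, ⟨1, []⟩, ⟨1, []⟩, ⟨1, []⟩, ⟨1, []⟩, ⟨1, []⟩, ⟨1, []⟩, ⟨1, []⟩, ⟨1, []⟩, ⟨1, []⟩, ⟨1, []⟩, ⟨1, []⟩, ⟨1, []⟩, ⟨1, []⟩, ⟨1, []⟩, ⟨1, []⟩, ⟨1, []⟩, ⟨1, []⟩, ⟨1, []⟩, ⟨1, []⟩, ⟨1, []⟩])⟩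

theorem s26_8_ok : s26_8.ok = true := by decide +kernel

def s29_3_n0 : Node := ⟨[⟨[0, 1], 64⟩, ⟨[0, 1, -1], 72⟩, ⟨[0, 1, 0, -1], -8⟩, ⟨[-1], 24⟩, ⟨[0, 1], 88⟩, ⟨[-1, 1], 120⟩, ⟨[0, 1, -1], 104⟩], [0, 1], 0, none, (.ndet 1 [⟨1, [(2, 1)]⟩, ⟨1, [(0, 1)]⟩, ⟨1, [(4, 1)]⟩] (.ddet 0 [⟨1, [(3, 1)]⟩] (.ndet 2 [⟨1, [(2, 1)]⟩, ⟨1, [(1, 1)]⟩, ⟨1, [(0, 1)]⟩] (.ddet 1 [⟨1, [(2, 1)]⟩] (.leaf 0 [⟨1, [(2, 1)]⟩, ⟨1, [(1, 1)]⟩, ⟨1, []⟩, ⟨1, []⟩, ⟨1, [(2, 1)]⟩, ⟨1, [(2, 1)]⟩, ⟨1, [(1, 1)]⟩, ⟨1, []⟩])))))⟩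
def s29_3 : Sys := ⟨[(0, 16), (2, 32), (3, -16), (4, 0)], [(0, 16), (1, 16)], 4, [s29_3_n0], [-48, 144, -48, 128], (.leaf 0 [⟨1, []⟩, ⟨1, []⟩, ⟨1, []⟩, ⟨1, []⟩, ⟨1, []⟩, ⟨1, []⟩, ⟨1, []⟩])⟩

theorem s29_3_ok : s29_3.ok = true := by decide +kernel

end Pool.Agent.H81.RDE.Data
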