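import Pool.Agent.H81.RDE.System

/-! Data file (generated): certificates. -/

set_option maxRecDepth 100000

namespace Pool.Agent.H81.RDE.Data

def s2_16_t0 : Tree := .ddet 0 [] (.ndet 0 [] (.ddet 0 [] (.ndet 0 [] (.ddet 0 [] (.split [-3, 0, 1, 2] (0) (.leaf 0 [⟨440808, [(6, 2052636), (3, 308975), (2, 303413), (1, 1146)]⟩, ⟨146936, [(6, 625236), (3, 38225), (2, 36883), (1, 118)]⟩, ⟨1, [(0, 1)]⟩, ⟨1787244, [(4, 197232), (3, 2781545), (2, 2673551), (0, 1096530)]⟩, ⟨1787244, [(3, 5941991), (2, 5651585), (1, 284256), (0, 3335334)]⟩, ⟨1787244, [(4, 225900), (3, 6591961), (2, 6813355), (0, 4473354)]⟩, ⟨893622, [(3,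 1721645), (2, 1758389), (1, 113205), (0, 1403907)]⟩, ⟨1787244, [(3, 1809943), (2, 1798441), (1, 9726), (0, 1301448)]⟩]) (.ndet 0 [] (.ddet 0 [] (.leaf 0 [⟨297874, [(3, 91114), (2, 90704), (1, 269), (0, 454183)]⟩, ⟨1, [(0, 1)]⟩, ⟨88248, [(5, 665076), (3, 8437), (2, 7615), (1, 1458)]⟩, ⟨595748, [(4, 2186), (3, 807645), (2, 850841), (0, 486010)]⟩, ⟨105132, [(4, 21762), (3, 332791), (2, 334303), (0, 100254)]⟩, ⟨893622, [(3, 3402239), (2, 3354881), (1, 214155), (0, 605229)]⟩, ⟨617736, [(5, 1284), (3, 1346969), (2, 1290251), (1, 12354)]⟩, ⟨1787244, [(3, 1809943), (2, 1798441), (1, 9726), (0, 485796)]⟩]))))))))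
def s2_16_t1 : Tree := .ndet 0 [] (.ddet 0 [] (.ndet 0 [] (.ddet 0 [] (.ndet 0 [] (.ddet 0 [] (.ndet 0 [] (.ddet 0 [] (.ndet 0 [] s2_16_t0))))))))
def s2_16_n0 : Node := ⟨[⟨[0, 1, 0, -1], -200⟩, ⟨[0, 1, -1], -200⟩, ⟨[-1, 1], -200⟩, ⟨[-159, 143, 149, -256], 30643200⟩, ⟨[205, -509, 479, -132], 60927300⟩, ⟨[-205, 515, -479, 132], 61645500⟩, ⟨[159, -140, -149, 256], 30643200⟩], [0, 1], 0, none, (.ndet 0 [] (.ddet 0 [] (.ndet 0 [] (.ddet 0 [] (.ndet 0 [] (.ddet 0 [] (.ndet 0 [] (.ddet 0 [] s2_16_t1))))))))⟩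
def s2_16 : Sys := ⟨[(1, -1000)], [(4, 0)], 4, [s2_16_n0], [53023871, 80648581, 79444816, 57980140], (.leaf 0 [⟨1, []⟩, ⟨1, []⟩, ⟨1, []⟩, ⟨1, []⟩, ⟨1, []⟩, ⟨1, []⟩, ⟨1, []⟩])⟩

theorem s2_16_ok : s2_16.ok = true := by decide +kernel

def s5_3_n0 : Node := ⟨[⟨[0, 1], -8⟩, ⟨[-1], 72⟩, ⟨[0, 1], -24⟩], [0, 1], 0, none, (.ndet 1 [⟨1, [(2, 1)]⟩] (.ddet 0 [⟨1, [(1, 1)]⟩] (.ndet 0 [⟨1, [(1, 1)]⟩] (.ddet 1 [⟨1, [(2, 1)]⟩] (.leaf 0 [⟨1, [(2, 1)]⟩, ⟨1, [(2, 1)]⟩, ⟨1, [(2, 1)]⟩, ⟨1, []⟩])))))⟩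
def s5_3 : Sys := ⟨[(0, -32), (2, 16)], [(0, -16), (1, 32)], 2, [s5_3_n0], [-96, 32, 0, 0], (.leaf 0 [⟨1, []⟩, ⟨1, []⟩, ⟨1, []⟩])⟩

theorem s5_3_ok : s5_3.ok = true := by decide +kernel

def s5_11_n0 : Node := ⟨[⟨[0, -1], 56⟩, ⟨[1], 40⟩, ⟨[1, 0, -1], 8⟩, ⟨[1], 48⟩], [1], 0, none, (.ndet 0 [⟨1, [(3, 1)]⟩] (.ddet 1 [⟨1, [(0, 1)]⟩, ⟨1, [(1, 1)]⟩] (.ndet 1 [⟨1, [(0, 1)]⟩] (.ddet 0 [⟨1, [(0, 1)]⟩, ⟨1, [(3, 1)]⟩] (.leaf 0 [⟨1, [(0, 1)]⟩, ⟨1, [(0, 1)]⟩, ⟨1, []⟩, ⟨1, [(0, 1)]⟩, ⟨1, []⟩])))))⟩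
def s5_11 : Sys := ⟨[(0, 0), (2, 16)], [(0, 0), (1, 16), (3, 16)], 3, [s5_11_n0], [96, -96, 80, 0], (.leaf 0 [⟨1, []⟩, ⟨1, []⟩, ⟨1, []⟩, ⟨1, []⟩])⟩

theorem s5_11_ok : s5_11.ok = true := by decide +kernel

def s7_1_n0 : Node := ⟨[⟨[1], 80⟩, ⟨[1, -1], 0⟩], [1], 0, none, (.ndet 1 [⟨1, [(1, 1)]⟩, ⟨1, [(0, 1)]⟩] (.ddet 0 [] (.leaf 0 [⟨1, [(1, 1)]⟩, ⟨1, []⟩, ⟨1, []⟩])))⟩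
def s7_1 : Sys := ⟨[(0, 0), (1, 16), (2, 0)], [(0, 0)], 2, [s7_1_n0], [176, 160, 0, 0], (.leaf 0 [⟨1, []⟩, ⟨1, []⟩])⟩

theorem s7_1_ok : s7_1.ok = true := by decide +kernel

def s12_20_n0 : Node := ⟨[⟨[0, 1, -1], 64⟩, ⟨[0, 1, 0, -1], 72⟩, ⟨[-1, 1], 80⟩, ⟨[-1, 0, 1], 40⟩, ⟨[-1], 80⟩, ⟨[0, 1], 24⟩, ⟨[0, 0, -1], 8⟩, ⟨[0, 1], 40⟩], [0, 1], 0, none, (.ndet 0 [⟨1, [(7, 1)]⟩] (.ddet 0 [⟨1, [(6, 1)]⟩] (.ndet 1 [⟨1, [(3, 1), (0, 1)]⟩] (.ddet 1 [⟨1, [(4, 1)]⟩] (.ndet 0 [⟨1, [(3, 1)]⟩] (.ddet 1 [⟨1, [(0, 1)]⟩] (.leaf 0 [⟨1, [(7, 1)]⟩, ⟨1, [(7, 1), (3, 1)]⟩, ⟨1, [(7, 1), (0, 1)]⟩, ⟨1, [(0, 1)]⟩, ⟨1, [(0, 1)]⟩, ⟨1, [(7,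 1)]⟩, ⟨1, []⟩, ⟨1, [(7, 1)]⟩, ⟨1, [(1, 1)]⟩])))))))⟩
def s12_20 : Sys := ⟨[(2, -16), (3, 16)], [(2, 0), (4, 16)], 4, [s12_20_n0], [-112, 80, -16, -48], (.leaf 0 [⟨1, []⟩, ⟨1, []⟩, ⟨1, []⟩, ⟨1, []⟩, ⟨1, []⟩, ⟨1, []⟩, ⟨1, []⟩, ⟨1, []⟩])⟩

theorem s12_20_ok : s12_20.ok = true := by decide +kernel

def s14_17_t0 : Tree := .ddet 0 [⟨1, [(10, 1)]⟩] (.ndet 0 [⟨1, [(8, 1), (2, 1)]⟩, ⟨1, [(8, 1)]⟩] (.ddet 1 [⟨1, [(8, 1), (2, 1)]⟩] (.ndet 1 [⟨1, [(8, 1), (2, 1)]⟩, ⟨1, [(8, 1), (2, 1)]⟩] (.ddet 1 [⟨1, [(2, 1)]⟩] (.ndet 2 [⟨1, [(2, 1)]⟩, ⟨1, [(8, 1), (2, 1)]⟩] (.ddet 1 [⟨1, []⟩] (.ndet 0 [⟨1, [(2, 1)]⟩, ⟨1, [(8, 1), (2,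 1)]⟩] (.ddet 1 [⟨1, [(8, 1), (2, 1)]⟩] (.leaf 0 [⟨1, [(8, 1), (2, 1)]⟩, ⟨1, [(2, 1)]⟩, ⟨1, []⟩, ⟨1, [(8, 1), (2, 1)]⟩, ⟨1, [(8, 1)]⟩, ⟨1, [(8, 1)]⟩, ⟨1, [(8, 1), (2, 1)]⟩, ⟨1, [(8, 1), (2, 1)]⟩, ⟨1, [(8, 1), (2, 1)]⟩, ⟨1, []⟩, ⟨1, [(8, 1), (2, 1)]⟩, ⟨1, [(8, 1)]⟩, ⟨1, [(8, 1), (2, 1)]⟩, ⟨1, [(8, 1), (2, 1)]⟩, ⟨1, [(2, 1)]⟩, ⟨1, [(2, 1)]⟩, ⟨1, [(8, 1), (2, 1)]⟩, ⟨1, [(2, 1)]⟩, ⟨1, [(8, 1), (2, 1)]⟩, ⟨1, [(8, 1), (2, 1)]⟩, ⟨1, []⟩])))))))))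
def s14_17_n0 : Node := ⟨[⟨[-1, 1], 576⟩, ⟨[0, 1, -1], 224⟩, ⟨[0, 0, 0, -1], -160⟩, ⟨[-1, 1], 736⟩, ⟨[0, 0, 1], 672⟩, ⟨[0, 0, 1], 512⟩, ⟨[-1, 1], 768⟩, ⟨[0, 1], 864⟩, ⟨[0, 1], 672⟩, ⟨[-1], -96⟩, ⟨[0, 1], 1024⟩, ⟨[0, 0, 1], 864⟩, ⟨[0, 1], 832⟩, ⟨[0, 1], 480⟩, ⟨[0, 1, -1], 128⟩, ⟨[0, 1, -1], -64⟩, ⟨[0, 1], 640⟩, ⟨[0, 1, -1], 352⟩, ⟨[0, 1], 896⟩, ⟨[0, 1], 768⟩], [0, 1], 0, none, (.ndet 1 [⟨1, [(10, 1), (8, 1), (2, 1)]⟩, ⟨1, [(2, 1)]⟩] (.ddet 0 [⟨1, [(17, 1)]⟩] (.ndet 2 [⟨1, []⟩, ⟨1, [(10, 1), (8, 1), (2, 1)]⟩] (.ddet 1 [⟨1, [(8, 1)]⟩] (.ndet 1 [⟨1, [(8, 1)]⟩, ⟨1, [(10, 1), (8, 1), (2, 1)]⟩] (.ddet 1 [⟨1, [(8,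 1), (2, 1)]⟩] (.ndet 2 [⟨1, [(8, 1), (2, 1)]⟩, ⟨1, [(8, 1)]⟩] s14_17_t0)))))))⟩
def s14_17 : Sys := ⟨[(1, -320), (2, 64), (3, 128)], [(0, 0), (4, -256)], 4, [s14_17_n0], [-64, 1472, 1088, 64], (.leaf 0 [⟨1, []⟩, ⟨1, []⟩, ⟨1, []⟩, ⟨1, []⟩, ⟨1, []⟩, ⟨1, []⟩, ⟨1, []⟩, ⟨1, []⟩, ⟨1, []⟩, ⟨1, []⟩, ⟨1, []⟩, ⟨1, []⟩, ⟨1, []⟩, ⟨1, []⟩, ⟨1, []⟩, ⟨1, []⟩, ⟨1, []⟩, ⟨1, []⟩, ⟨1, []⟩, ⟨1, []⟩])⟩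

theorem s14_17_ok : s14_17.ok = true := by decide +kernel

def s17_11_t0 : Tree := .dbr (.cons (.prune [(7, 1), (6, 1), (1, 1)]) (.cons (.ndet 1 [⟨1, [(12, 1), (7, 1), (4, 1)]⟩] (.ddet 0 [⟨1, [(12, 1), (7, 1), (4, 1), (0, 1)]⟩, ⟨1, [(12, 1), (7, 1), (4, 1), (0, 1)]⟩] (.split [1, 0, -1] (0) (.leaf 0 [⟨1, [(13, 2), (8, 2), (5, 2), (1, 1)]⟩, ⟨1, [(0, 1)]⟩, ⟨1, [(13, 2), (8, 2), (5, 2), (1, 1)]⟩, ⟨1, [(13, 1), (8, 1), (5, 1), (1, 2)]⟩, ⟨1, [(1, 1)]⟩, ⟨1, []⟩, ⟨1, [(13, 1), (8, 1), (5, 1), (1, 2)]⟩, ⟨1, [(1, 1)]⟩, ⟨1, [(0, 1)]⟩, ⟨1, [(13, 1), (8, 1), (5, 1), (1, 2)]⟩, ⟨1, []⟩, ⟨1, [(0, 1)]⟩, ⟨1, []⟩]) (.leaf 2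 [⟨1, [(13, 2), (8, 2), (5, 2), (0, 2)]⟩, ⟨1, [(13, 2), (8, 2), (5, 2), (0, 2)]⟩, ⟨1, [(0, 1)]⟩, ⟨1, [(13, 1), (8, 1), (5, 1), (0, 1)]⟩, ⟨1, []⟩, ⟨1, [(13, 1), (8, 1), (5, 1)]⟩, ⟨1, []⟩, ⟨1, []⟩, ⟨1, []⟩, ⟨1, []⟩, ⟨1, []⟩, ⟨1, [(0, 1)]⟩])))) (.cons (.ndet 1 [⟨1, [(12, 1), (7, 1), (4, 1)]⟩] (.ddet 0 [⟨1, [(12, 1), (7, 1), (4, 1)]⟩, ⟨1, [(9, 1), (4, 1)]⟩] (.leaf 0 [⟨1, [(12, 1), (9, 1), (7, 1), (4, 2)]⟩, ⟨1, [(0, 1)]⟩, ⟨1, [(12, 2), (7, 2), (4, 2)]⟩, ⟨1, [(9, 1), (4, 1)]⟩, ⟨1, [(2, 1)]⟩, ⟨1, [(2, 1)]⟩, ⟨1, [(9, 1), (4, 1), (2, 1)]⟩, ⟨1, []⟩, ⟨1, []⟩, ⟨1, [(9, 1), (4, 1)]⟩, ⟨1, [(0, 1)]⟩, ⟨1, [(0, 1)]⟩, ⟨1, []⟩])))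 .nil)))
def s17_11_t1 : Tree := .dbr (.cons (.prune [(5, 1), (4, 1), (0, 1)]) (.cons (.ndet 1 [⟨1, [(7, 1), (2, 1)]⟩] (.ddet 0 [⟨1, [(7, 1), (2, 1), (0, 1)]⟩, ⟨1, [(4, 1), (0, 1)]⟩] (.ndet 0 [⟨1, [(4, 1), (0, 1)]⟩] (.ddet 2 [⟨1, [(7, 1), (2, 1), (0, 1)]⟩, ⟨1, [(0, 1)]⟩] (.ndet 1 [⟨1, [(7, 1), (2, 1), (0, 1)]⟩] (.ddet 0 [⟨1, [(7, 1), (2, 1), (0, 1)]⟩, ⟨1, [(7, 1), (2, 1), (0, 1)]⟩] (.leaf 0 [⟨1, [(7, 2), (2, 2), (0, 2)]⟩, ⟨1, [(0, 1)]⟩, ⟨1, [(7, 2), (2, 2), (0, 2)]⟩, ⟨1, [(7, 1), (2, 1), (0, 1)]⟩, ⟨1, []⟩, ⟨1, []⟩, ⟨1, [(7, 1), (2, 1)]⟩, ⟨1, []⟩, ⟨1, []⟩, ⟨1, [(7, 1), (2, 1)]⟩, ⟨1, []⟩, ⟨1, []⟩, ⟨1, []⟩])))))))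 (.cons (.ndet 1 [⟨1, [(7, 1), (2, 1)]⟩] (.ddet 0 [⟨1, [(7, 1), (2, 1)]⟩, ⟨1, [(10, 1), (2, 1)]⟩] (.ndet 0 [⟨1, [(10, 1), (2, 1)]⟩] s17_11_t0))) .nil)))
def s17_11_n0 : Node := ⟨[⟨[1, 0, 0, -1], -200⟩, ⟨[1, 0, -1], -200⟩, ⟨[1, -1], -200⟩, ⟨[-1, -1, 0, -1], 179700⟩, ⟨[-1, 0, 0, -1], -6340⟩, ⟨[0, 1, 0, -1], -3340⟩, ⟨[-1, 0, 1, -1], 179700⟩, ⟨[-1, -1], -3340⟩, ⟨[1, 1], 1960⟩, ⟨[-1, -1, 1], 179700⟩, ⟨[0, -1, 0, 1], -40⟩, ⟨[1, 0, 0, 1], 2960⟩], [1], 0, none, (.ndet 0 [⟨1, [(8, 1), (3, 1)]⟩] s17_11_t1)⟩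
def s17_11_t2 : Tree := .dbr (.cons (.prune [(6, 1), (5, 1), (3, 1), (1, 1)]) (.cons (.ndet 1 [⟨2, [(13, 1), (10, 1), (4, 2), (2, 1)]⟩] (.ddet 0 [⟨1, [(4, 1), (3, 1)]⟩, ⟨1, [(10, 1), (4, 1)]⟩] (.ndet 0 [⟨1, [(10, 1), (4, 1)]⟩] (.ddet 2 [⟨1, [(4, 1), (3, 1)]⟩, ⟨1, [(0, 1)]⟩] (.split [0, 1, 0, -1] (0) (.leaf 1 [⟨1, [(0, 1)]⟩, ⟨1, [(5, 2), (4, 2), (0, 1)]⟩, ⟨1, [(5, 2), (4, 2), (0, 1)]⟩, ⟨1, [(5, 1), (4, 1), (1, 1)]⟩, ⟨1, [(1, 1)]⟩, ⟨1, []⟩, ⟨1, [(1, 1)]⟩, ⟨1, [(0, 1)]⟩, ⟨1, []⟩, ⟨1, [(0, 1)]⟩, ⟨1, [(5, 1), (4, 1), (1, 1)]⟩, ⟨1, [(5, 1), (4, 1)]⟩, ⟨1, []⟩]) (.leaf 3 [⟨1, [(11, 1), (5, 2), (3, 1), (0, 1)]⟩, ⟨1,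 [(0, 1)]⟩, ⟨1, [(11, 1), (5, 2), (3, 1), (0, 1)]⟩, ⟨1, []⟩, ⟨1, []⟩, ⟨1, []⟩, ⟨2, [(14, 1), (11, 1), (5, 2), (3, 1)]⟩, ⟨1, []⟩, ⟨1, []⟩, ⟨1, []⟩, ⟨1, [(0, 1)]⟩])))))) (.cons (.ndet 1 [⟨1, [(4, 1), (3, 1), (0, 1)]⟩] (.ddet 0 [⟨1, [(4, 1), (3, 1), (0, 1)]⟩, ⟨1, [(10, 1), (4, 1)]⟩] (.ndet 0 [⟨1, [(10, 1), (4, 1)]⟩] (.dbr (.cons (.prune [(8, 1), (7, 1), (5, 1), (0, 1)]) (.cons (.leaf 1 [⟨1, [(0, 1)]⟩, ⟨1, [(6, 2), (5, 2), (0, 2)]⟩, ⟨1, [(6, 2), (5, 2), (0, 2)]⟩, ⟨1, [(6, 1), (5, 1), (0, 1)]⟩, ⟨1, []⟩, ⟨1, []⟩, ⟨1, []⟩, ⟨1, []⟩, ⟨1, []⟩, ⟨1, []⟩, ⟨1, [(6, 1), (5, 1)]⟩, ⟨1, [(6, 1), (5, 1)]⟩, ⟨1, []⟩]) (.cons (.leaf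 1 [⟨1, [(2, 1)]⟩, ⟨1, [(6, 2), (5, 2), (2, 2)]⟩, ⟨1, [(6, 2), (5, 2), (2, 1)]⟩, ⟨1, [(6, 1), (5, 1)]⟩, ⟨1, []⟩, ⟨1, [(2, 1)]⟩, ⟨1, [(0, 1)]⟩, ⟨1, [(2, 1)]⟩, ⟨1, [(0, 1)]⟩, ⟨1, []⟩, ⟨1, [(6, 1), (5, 1)]⟩, ⟨1, [(6, 1), (5, 1), (2, 1)]⟩, ⟨1, []⟩]) .nil))))))) .nil)))
def s17_11_n1 : Node := ⟨[⟨[0, 1, 0, -1], -200⟩, ⟨[0, 1, -1], -200⟩, ⟨[-1, 1], -200⟩, ⟨[-1, -1, -1], 179700⟩, ⟨[0, -1, -1], -3340⟩, ⟨[1, 0, -1], -4060⟩, ⟨[-1, -1], -2320⟩, ⟨[1, 1], -1020⟩, ⟨[-1, 0, 1], 640⟩, ⟨[0, 1, 1], 1960⟩, ⟨[0, -1, -1, 1], 179700⟩, ⟨[1, 0, -1, 1], 179700⟩], [0, 1], 0, none, (.ndet 1 [⟨1, [(2, 1), (1, 1)]⟩] (.ddet 0 [⟨1, [(8,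 1), (2, 1)]⟩, ⟨2, [(11, 1), (8, 1), (0, 1)]⟩] (.ndet 0 [⟨2, [(11, 1), (8, 1), (0, 1)]⟩] s17_11_t2)))⟩
def s17_11_t3 : Tree := .ddet 2 [⟨1, [(7, 1), (2, 1), (0, 1)]⟩, ⟨1, [(8, 1)]⟩] (.ndet 1 [⟨1, [(7, 1), (2, 1), (0, 1)]⟩] (.ddet 0 [⟨1, [(7, 1), (2, 1), (0, 1)]⟩, ⟨1, [(7, 1), (0, 1)]⟩] (.ndet 0 [⟨1, [(7, 1), (0, 1)]⟩] (.ddet 1 [⟨1, [(7, 1), (2, 1), (0, 1)]⟩, ⟨1, [(8, 1)]⟩] (.ndet 1 [⟨1, [(5, 1), (0, 1)]⟩] (.ddet 0 [⟨1, [(7, 1), (2, 1), (0, 1)]⟩, ⟨1, [(7, 1), (2, 1), (0, 1)]⟩] (.split [1, 0, -1] (0) (.leaf 0 [⟨1, [(8, 2), (3, 2), (1, 2), (0, 1)]⟩, ⟨1, [(0, 1)]⟩, ⟨1, [(8, 2), (3, 2), (1, 2), (0, 1)]⟩, ⟨1, [(9,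 1), (8, 1), (3, 1), (1, 1)]⟩, ⟨1, [(9, 1)]⟩, ⟨1, []⟩, ⟨1, [(9, 1), (8, 1), (3, 1), (1, 1)]⟩, ⟨1, [(9, 1)]⟩, ⟨1, [(0, 1)]⟩, ⟨1, [(9, 1), (8, 1), (3, 1), (1, 1)]⟩, ⟨1, []⟩, ⟨1, [(0, 1)]⟩, ⟨1, [(0, 1)]⟩]) (.leaf 2 [⟨1, [(8, 2), (3, 2), (1, 2)]⟩, ⟨1, [(8, 2), (3, 2), (1, 2)]⟩, ⟨1, [(0, 1)]⟩, ⟨1, [(8, 1), (3, 1), (1, 1)]⟩, ⟨1, []⟩, ⟨1, [(6, 1), (1, 1)]⟩, ⟨1, []⟩, ⟨1, []⟩, ⟨1, []⟩, ⟨1, []⟩, ⟨1, []⟩, ⟨1, []⟩]))))))))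
def s17_11_n2 : Node := ⟨[⟨[0, 0, 1, -1], -200⟩, ⟨[0, -1, 1], -200⟩, ⟨[-1, 0, 1], -200⟩, ⟨[0, -1, -1, -1], 179700⟩, ⟨[0, 0, -1, -1], -3340⟩, ⟨[1, 0, -1, -1], 179700⟩, ⟨[0, 1, 0, -1], -1360⟩, ⟨[0, -1, -1], -2320⟩, ⟨[0, 1, 1], 1680⟩, ⟨[0, -1, 0, 1], 640⟩, ⟨[0, 0, 1, 1], 2660⟩], [0, 0, 1], 0, none, (.ndet 0 [⟨1, [(7, 1), (2, 1)]⟩] s17_11_t3)⟩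
def s17_11_t4 : Tree := .ddet 0 [⟨1, [(8, 1), (5, 1), (3, 1), (2, 1)]⟩, ⟨1, [(8, 1), (5, 1), (3, 1)]⟩] (.ndet 0 [⟨1, [(8, 1), (5, 1), (3, 1)]⟩] (.ddet 1 [⟨1, [(8, 1), (3, 1), (2, 1)]⟩, ⟨1, [(8, 1)]⟩] (.ndet 1 [⟨1, [(3, 1), (2, 1)]⟩] (.ddet 0 [⟨1, [(8, 1), (3, 1), (2, 1)]⟩, ⟨1, [(8, 1), (5, 1), (3, 1), (2, 1)]⟩] (.ndet 0 [⟨1, [(8, 1), (5, 1), (3, 1), (2, 1)]⟩] (.ddet 2 [⟨1, [(8, 1), (3, 1), (2, 1)]⟩, ⟨1, [(8, 1)]⟩] (.split [0, 1, 0, -1] (0) (.leaf 1 [⟨1, [(0, 1)]⟩, ⟨1, [(9, 1), (4, 2), (3, 2)]⟩, ⟨1, [(9, 1), (4, 2), (3, 2)]⟩, ⟨1, [(9, 2), (4, 1), (3, 1)]⟩, ⟨1, [(9, 1)]⟩, ⟨1, []⟩, ⟨1, [(9, 1)]⟩, ⟨1, [(0, 1)]⟩,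 ⟨1, []⟩, ⟨1, [(0, 1)]⟩, ⟨1, [(9, 2), (4, 1), (3, 1)]⟩, ⟨1, [(9, 1), (4, 1), (3, 1)]⟩, ⟨1, [(0, 1)]⟩]) (.leaf 3 [⟨1, [(4, 2), (3, 2), (0, 2)]⟩, ⟨1, [(0, 1)]⟩, ⟨1, [(4, 2), (3, 2), (0, 2)]⟩, ⟨1, []⟩, ⟨1, []⟩, ⟨1, []⟩, ⟨1, [(4, 1), (3, 1)]⟩, ⟨1, []⟩, ⟨1, []⟩, ⟨1, []⟩, ⟨1, []⟩]))))))))
def s17_11_n3 : Node := ⟨[⟨[0, 0, -1, 1], -200⟩, ⟨[0, -1, 0, 1], -200⟩, ⟨[-1, 0, 0, 1], -200⟩, ⟨[0, 0, -1, -1], -2320⟩, ⟨[-1, 0, 0, -1], 680⟩, ⟨[1, 0, -1], -3340⟩, ⟨[1, 1, -1], 179700⟩, ⟨[-1, 0, 1], 2660⟩, ⟨[1, 0, 0, 1], -1320⟩, ⟨[0, 0, 1, 1], 1680⟩], [0, 0, 0, 1], 0, none, (.ndet 1 [⟨1, [(8, 1), (3, 1), (2, 1)]⟩] s17_11_t4)⟩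
def s17_11 : Sys := ⟨[(0, -1000), (4, 1000)], [(0, -3000), (1, -3000), (3, 0)], 4, [s17_11_n0, s17_11_n1, s17_11_n2, s17_11_n3], [185437, -202531, 204531, -201531], (.leaf 2 [⟨1, []⟩, ⟨1, []⟩, ⟨1, []⟩, ⟨1, []⟩, ⟨1, []⟩, ⟨1, []⟩, ⟨1, []⟩, ⟨1, []⟩, ⟨1, []⟩, ⟨1, []⟩, ⟨1, []⟩])⟩

theorem s17_11_ok : s17_11.ok = true := by decide +kernel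

def s21_10_n0 : Node := ⟨[⟨[0, -1], 44⟩, ⟨[0, 0, 0, -1], 36⟩, ⟨[1, 0, -1], 16⟩, ⟨[1], 84⟩, ⟨[1, 0, -1], 24⟩, ⟨[1, 1], 56⟩, ⟨[0, -1], 28⟩], [1], 0, none, (.ndet 0 [⟨1, [(6, 1)]⟩, ⟨1, [(5, 1)]⟩] (.ddet 0 [⟨1, [(2, 1)]⟩] (.ndet 1 [⟨1, [(6, 1), (1, 1)]⟩, ⟨1, [(2, 1)]⟩] (.ddet 1 [⟨1, [(1, 1)]⟩] (.leaf 0 [⟨1, [(6, 1), (1, 1)]⟩, ⟨1, [(6, 1)]⟩, ⟨1, [(6, 1)]⟩, ⟨1, [(6, 2), (1, 1)]⟩, ⟨1, [(6, 1)]⟩, ⟨1, [(6, 1)]⟩, ⟨1, [(6, 1), (1, 1)]⟩, ⟨1, [(6, 1)]⟩])))))⟩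
def s21_10 : Sys := ⟨[(0, 16), (2, 16), (4, 0)], [(1, 16), (3, -16)], 4, [s21_10_n0], [128, -48, 80, -128], (.leaf 0 [⟨1, []⟩, ⟨1, []⟩, ⟨1, []⟩, ⟨1, []⟩, ⟨1, []⟩, ⟨1, []⟩, ⟨1, []⟩])⟩

theorem s21_10_ok : s21_10.ok = true := by decide +kernel

def s21_12_n0 : Node := ⟨[⟨[0, 1], 32⟩, ⟨[0, 1, 0, -1], 40⟩, ⟨[0, 1, -1], 104⟩, ⟨[-1], 32⟩, ⟨[0, 0, -1], 64⟩, ⟨[-1, 1], 48⟩, ⟨[0, 1], 24⟩, ⟨[0, 1], 40⟩, ⟨[-1], 40⟩, ⟨[0, 1], 0⟩, ⟨[0, 1], 48⟩], [0, 1], 0, none, (.ndet 1 [⟨1, [(0, 1)]⟩, ⟨1, [(9, 1)]⟩] (.ddet 0 [⟨1, [(6, 1), (0, 1)]⟩] (.ndet 0 [⟨1, [(2, 1)]⟩, ⟨1, [(6, 1)]⟩] (.ddet 1 [⟨1, [(2, 1), (0, 1)]⟩] (.ndet 2 [⟨1,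 [(0, 1)]⟩, ⟨1, [(0, 1)]⟩] (.ddet 0 [⟨1, [(2, 1)]⟩] (.ndet 0 [⟨1, [(0, 1)]⟩, ⟨1, [(2, 1)]⟩] (.ddet 1 [⟨1, [(0, 1)]⟩] (.leaf 0 [⟨1, [(0, 1)]⟩, ⟨1, [(0, 1)]⟩, ⟨1, [(0, 2)]⟩, ⟨1, []⟩, ⟨1, [(0, 1)]⟩, ⟨1, [(0, 1)]⟩, ⟨1, [(0, 1)]⟩, ⟨1, [(0, 1)]⟩, ⟨1, []⟩, ⟨1, [(0, 1)]⟩, ⟨1, [(0, 1)]⟩, ⟨1, []⟩])))))))))⟩
def s21_12 : Sys := ⟨[(0, -16), (2, 0), (4, 16)], [(2, -16), (3, 16)], 4, [s21_12_n0], [-48, 80, -96, 16], (.leaf 0 [⟨1, []⟩, ⟨1, []⟩, ⟨1, []⟩, ⟨1, []⟩, ⟨1, []⟩, ⟨1, []⟩, ⟨1, []⟩, ⟨1, []⟩, ⟨1, []⟩, ⟨1, []⟩, ⟨1, []⟩])⟩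

theorem s21_12_ok : s21_12.ok = true := by decide +kernel

def s22_5_t0 : Tree := .nbr (.cons (.prune [(19, 1), (15, 2), (5, 1), (1, 3), (0, 6)]) (.cons (.ddet 1 [⟨2, [(14, 1), (0, 1)]⟩] (.ndet 2 [⟨1, [(14, 1)]⟩, ⟨1, [(14, 1)]⟩] (.ddet 0 [⟨1, []⟩] (.leaf 0 [⟨1, [(2, 1)]⟩, ⟨1, [(14, 1)]⟩, ⟨1, [(14, 1)]⟩, ⟨1, [(2, 1)]⟩, ⟨1, [(2, 1)]⟩, ⟨1, [(2, 1)]⟩, ⟨1, [(2, 1)]⟩, ⟨1, [(2, 1)]⟩, ⟨1, [(2, 1)]⟩, ⟨1, [(14, 1)]⟩, ⟨1, []⟩, ⟨1, []⟩, ⟨1, [(14, 1)]⟩, ⟨1, [(14, 1)]⟩, ⟨1, []⟩, ⟨1, [(14, 1)]⟩, ⟨1, []⟩, ⟨1, []⟩, ⟨2, [(14, 3), (0, 1)]⟩, ⟨2, [(14, 1), (0, 1)]⟩, ⟨2, [(14, 3), (0, 1)]⟩, ⟨2, [(14, 3), (0, 1)]⟩, ⟨2, [(14, 1),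 (0, 1)]⟩, ⟨1, []⟩])))) (.cons (.dbr (.cons (.ndet 2 [⟨1, [(5, 1)]⟩, ⟨1, [(15, 1)]⟩] (.ddet 0 [⟨1, []⟩] (.leaf 0 [⟨1, [(15, 1), (0, 1)]⟩, ⟨1, [(15, 1)]⟩, ⟨1, [(5, 1)]⟩, ⟨1, []⟩, ⟨1, [(15, 2), (0, 2)]⟩, ⟨1, []⟩, ⟨1, []⟩, ⟨1, [(15, 1), (0, 1)]⟩, ⟨1, [(15, 2), (0, 2)]⟩, ⟨1, [(5, 1)]⟩, ⟨1, []⟩, ⟨1, [(15, 1), (0, 1)]⟩, ⟨1, [(15, 2), (0, 1)]⟩, ⟨1, [(15, 1)]⟩, ⟨1, [(15, 1), (0, 1)]⟩, ⟨1, [(5, 1)]⟩, ⟨1, []⟩, ⟨1, [(15, 1), (0, 1)]⟩, ⟨1, [(5, 2)]⟩, ⟨1, [(5, 1)]⟩, ⟨1, [(15, 1), (5, 1)]⟩, ⟨1, [(5, 2)]⟩, ⟨1, [(5, 1)]⟩, ⟨1, []⟩]))) (.cons (.ndet 2 [⟨1, [(0, 2)]⟩, ⟨1, [(15, 1)]⟩] (.ddet 0 [⟨1, []⟩] (.leaf 0 [⟨2, [(15, 1),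 (1, 1)]⟩, ⟨1, [(15, 1)]⟩, ⟨1, [(0, 2)]⟩, ⟨1, [(0, 1)]⟩, ⟨2, [(15, 1), (1, 3)]⟩, ⟨1, [(0, 1)]⟩, ⟨1, [(0, 1)]⟩, ⟨2, [(15, 1), (1, 1)]⟩, ⟨2, [(15, 1), (1, 3)]⟩, ⟨1, [(0, 2)]⟩, ⟨1, []⟩, ⟨1, [(1, 1)]⟩, ⟨1, [(15, 1), (1, 1)]⟩, ⟨1, [(15, 1)]⟩, ⟨1, [(1, 1)]⟩, ⟨1, [(0, 2)]⟩, ⟨1, []⟩, ⟨1, [(1, 1)]⟩, ⟨1, [(0, 3)]⟩, ⟨1, [(0, 1)]⟩, ⟨1, [(15, 1), (0, 1)]⟩, ⟨1, [(0, 3)]⟩, ⟨1, [(0, 1)]⟩, ⟨1, []⟩]))) .nil))) .nil)))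
def s22_5_t1 : Tree := .dbr (.cons (.ndet 1 [⟨1, []⟩, ⟨1, [(15, 1), (12, 1)]⟩] (.ddet 1 [⟨1, [(12, 1)]⟩] (.ndet 1 [⟨1, [(12, 1)]⟩, ⟨1, [(12, 1), (0, 1)]⟩] (.ddet 1 [⟨1, [(12, 1)]⟩] (.ndet 2 [⟨1, [(12, 1)]⟩, ⟨1, [(12, 1)]⟩] (.ddet 0 [⟨1, []⟩] (.leaf 0 [⟨1, []⟩, ⟨1, [(12, 1)]⟩, ⟨1, [(12, 1)]⟩, ⟨1, []⟩, ⟨1, []⟩, ⟨1, []⟩, ⟨1, []⟩, ⟨1, []⟩, ⟨1, []⟩, ⟨1, [(12, 1)]⟩, ⟨1, []⟩, ⟨1, []⟩, ⟨1, [(12, 1)]⟩, ⟨1, [(12, 1)]⟩, ⟨1, []⟩, ⟨1, [(12, 1)]⟩, ⟨1, []⟩, ⟨1, []⟩, ⟨1, [(12, 2)]⟩, ⟨1, [(12, 1)]⟩, ⟨1, [(12, 2)]⟩, ⟨1, [(12, 2)]⟩, ⟨1, [(12, 1)]⟩, ⟨1, []⟩]))))))) (.cons (.ndet 1 [⟨1, [(0, 1)]⟩, ⟨1, [(15, 1), (12, 1)]⟩] (.ddet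 1 [⟨1, [(12, 1)]⟩] s22_5_t0)) .nil))
def s22_5_t2 : Tree := .nbr (.cons (.ddet 1 [⟨1, [(14, 1)]⟩] (.ndet 1 [⟨1, [(14, 1)]⟩, ⟨1, [(14, 1), (2, 1), (1, 1)]⟩] (.ddet 1 [⟨1, [(14, 1), (1, 1)]⟩] (.ndet 2 [⟨1, [(14, 1)]⟩, ⟨3, [(24, 1), (20, 2), (15, 1), (14, 2)]⟩] (.dbr (.cons (.leaf 0 [⟨1, [(0, 1)]⟩, ⟨1, [(15, 1), (0, 1)]⟩, ⟨1, [(15, 1)]⟩, ⟨1, [(0, 2)]⟩, ⟨1, [(0, 2)]⟩, ⟨1, [(0, 1)]⟩, ⟨1, []⟩, ⟨1, []⟩, ⟨1, []⟩, ⟨1, [(15, 1), (0, 1)]⟩, ⟨1, [(0, 1)]⟩, ⟨1, [(0, 1)]⟩, ⟨1, [(15, 1), (0, 1)]⟩, ⟨1, [(15, 1)]⟩, ⟨1, []⟩, ⟨1, [(15, 1), (2, 1)]⟩, ⟨1, [(2, 1)]⟩, ⟨1, [(2, 1)]⟩, ⟨1, [(15, 2)]⟩, ⟨1, [(15, 1)]⟩, ⟨1, [(15, 2)]⟩,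 ⟨1, [(15, 2), (2, 2)]⟩, ⟨1, [(15, 1), (2, 2)]⟩, ⟨1, []⟩]) (.cons (.leaf 3 [⟨1, [(15, 1)]⟩, ⟨1, [(15, 1), (0, 1)]⟩, ⟨1, [(0, 2)]⟩, ⟨1, []⟩, ⟨3, [(25, 1), (21, 2), (16, 1), (15, 2)]⟩, ⟨3, [(25, 1), (21, 2), (16, 1), (15, 2)]⟩, ⟨1, []⟩, ⟨3, [(25, 1), (21, 2), (16, 1), (15, 2)]⟩, ⟨1, [(0, 1)]⟩, ⟨1, [(0, 1)]⟩, ⟨1, [(0, 1)]⟩, ⟨1, [(15, 1)]⟩, ⟨3, [(25, 1), (21, 2), (16, 1), (15, 5)]⟩, ⟨3, [(25, 1), (21, 2), (16, 1), (15, 5)]⟩, ⟨1, [(0, 1)]⟩, ⟨1, [(15, 1)]⟩, ⟨3, [(25, 1), (21, 2), (16, 1), (15, 5)]⟩, ⟨1, [(15, 1), (0, 1)]⟩, ⟨1, [(15, 2)]⟩, ⟨1, [(15, 1), (0, 1)]⟩, ⟨1, [(0, 1)]⟩]) .nil))))))) (.cons (.ddet 1 [⟨1, [(14,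 1)]⟩] (.ndet 1 [⟨1, [(14, 1), (4, 1)]⟩, ⟨1, [(14, 1), (4, 1), (2, 1)]⟩] (.ddet 1 [⟨1, [(14, 1), (4, 1)]⟩] (.ndet 2 [⟨1, [(14, 1)]⟩, ⟨1, [(14, 1)]⟩] (.ddet 0 [⟨1, []⟩] (.leaf 0 [⟨1, [(1, 1)]⟩, ⟨1, [(14, 1)]⟩, ⟨1, [(14, 1)]⟩, ⟨1, [(1, 1)]⟩, ⟨1, [(1, 1)]⟩, ⟨1, [(1, 1)]⟩, ⟨1, [(1, 1)]⟩, ⟨1, [(1, 1)]⟩, ⟨1, [(1, 1)]⟩, ⟨1, [(14, 1)]⟩, ⟨1, []⟩, ⟨1, []⟩, ⟨1, [(14, 1)]⟩, ⟨1, [(14, 1)]⟩, ⟨1, []⟩, ⟨1, [(14, 1)]⟩, ⟨1, []⟩, ⟨1, []⟩, ⟨1, [(14, 2), (4, 1)]⟩, ⟨1, [(14, 1), (4, 1)]⟩, ⟨1, [(14, 2), (4, 1)]⟩, ⟨1, [(14, 2), (4, 1)]⟩, ⟨1, [(14, 1), (4, 1)]⟩, ⟨1, []⟩])))))) (.cons (.prune [(24, 1), (15, 1), (14, 1), (4, 1), (0,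 2)]) .nil)))
def s22_5_t3 : Tree := .nbr (.cons (.ddet 1 [⟨1, [(14, 1)]⟩] (.ndet 1 [⟨1, [(14, 1)]⟩, ⟨2, [(22, 1), (14, 2), (1, 3)]⟩] (.ddet 1 [⟨1, [(14, 1), (1, 1)]⟩] (.ndet 2 [⟨1, [(14, 1)]⟩, ⟨1, [(22, 1), (14, 1), (2, 2)]⟩] (.ddet 0 [⟨1, [(22, 1), (2, 2)]⟩] (.leaf 0 [⟨1, [(22, 1), (2, 2)]⟩, ⟨1, [(22, 1), (14, 1), (2, 2)]⟩, ⟨1, [(14, 1)]⟩, ⟨1, [(22, 2), (2, 4)]⟩, ⟨1, [(22, 2), (2, 4)]⟩, ⟨1, [(22, 1), (2, 2)]⟩, ⟨1, []⟩, ⟨1, []⟩, ⟨1, []⟩, ⟨1, [(22, 1), (14, 1), (2, 2)]⟩, ⟨1, [(22, 1), (2, 2)]⟩, ⟨1, [(22, 1), (2, 2)]⟩, ⟨1, [(22, 1), (14, 1), (2, 2)]⟩, ⟨1, [(14, 1)]⟩, ⟨1, []⟩, ⟨1, [(14, 1), (1, 1)]⟩, ⟨1, [(1,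 1)]⟩, ⟨1, [(1, 1)]⟩, ⟨1, [(14, 2)]⟩, ⟨1, [(14, 1)]⟩, ⟨1, [(14, 2)]⟩, ⟨1, [(14, 2), (1, 2)]⟩, ⟨1, [(14, 1), (1, 2)]⟩, ⟨1, []⟩])))))) (.cons (.ddet 1 [⟨1, [(14, 1)]⟩] (.ndet 1 [⟨1, [(22, 1), (14, 1), (4, 2)]⟩, ⟨1, [(22, 2), (14, 1), (4, 3)]⟩] (.ddet 1 [⟨1, [(22, 1), (14, 1), (4, 2)]⟩] (.ndet 2 [⟨1, [(14, 1)]⟩, ⟨1, [(14, 1)]⟩] (.ddet 0 [⟨1, []⟩] (.leaf 0 [⟨1, [(1, 1)]⟩, ⟨1, [(14, 1)]⟩, ⟨1, [(14, 1)]⟩, ⟨1, [(1, 1)]⟩, ⟨1, [(1, 1)]⟩, ⟨1, [(1, 1)]⟩, ⟨1, [(1, 1)]⟩, ⟨1, [(1, 1)]⟩, ⟨1, [(1, 1)]⟩, ⟨1, [(14, 1)]⟩, ⟨1, []⟩, ⟨1, []⟩, ⟨1, [(14, 1)]⟩, ⟨1, [(14, 1)]⟩, ⟨1, []⟩, ⟨1, [(14, 1)]⟩, ⟨1, []⟩, ⟨1, []⟩, ⟨1, [(22, 1),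 (14, 2), (4, 2)]⟩, ⟨1, [(22, 1), (14, 1), (4, 2)]⟩, ⟨1, [(22, 1), (14, 2), (4, 2)]⟩, ⟨1, [(22, 1), (14, 2), (4, 2)]⟩, ⟨1, [(22, 1), (14, 1), (4, 2)]⟩, ⟨1, []⟩])))))) (.cons (.prune [(24, 1), (15, 1), (14, 1), (4, 1), (0, 2)]) .nil)))
def s22_5_t4 : Tree := .nbr (.cons s22_5_t1 (.cons (.ddet 1 [⟨1, [(11, 1), (1, 1)]⟩] (.ndet 1 [⟨1, [(11, 1)]⟩, ⟨1, [(15, 1), (11, 1), (1, 1)]⟩] (.ddet 1 [⟨1, [(11, 1)]⟩] (.ndet 2 [⟨1, [(11, 1), (1, 1)]⟩, ⟨1, [(11, 1), (1, 1)]⟩] (.ddet 0 [⟨1, []⟩] (.ndet 2 [⟨1, [(22, 1)]⟩, ⟨1, [(11, 1)]⟩] (.ddet 0 [⟨1, []⟩] (.leaf 1 [⟨1, [(11, 1), (1, 1)]⟩, ⟨1, [(11, 1), (1, 1)]⟩, ⟨1, [(1, 1)]⟩,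 ⟨1, [(1, 1)]⟩, ⟨1, [(11, 1), (1, 1)]⟩, ⟨1, [(11, 2), (1, 1)]⟩, ⟨1, []⟩, ⟨1, [(11, 1)]⟩, ⟨1, [(1, 1)]⟩, ⟨1, [(11, 1), (1, 1)]⟩, ⟨1, [(22, 1)]⟩, ⟨1, []⟩, ⟨1, [(11, 1)]⟩, ⟨1, [(1, 1)]⟩, ⟨1, [(11, 1), (1, 1)]⟩, ⟨1, [(1, 1)]⟩, ⟨1, [(11, 1), (1, 1)]⟩, ⟨1, [(22, 1)]⟩, ⟨1, []⟩, ⟨1, [(11, 1)]⟩, ⟨1, [(1, 1)]⟩, ⟨1, [(1, 1)]⟩, ⟨1, [(11, 2), (1, 1)]⟩, ⟨1, []⟩, ⟨1, [(11, 1)]⟩, ⟨1, [(1, 1)]⟩, ⟨1, [(22, 1)]⟩, ⟨1, []⟩, ⟨1, [(1, 1)]⟩, ⟨1, [(1, 1)]⟩])))))))) (.cons (.dbr (.cons s22_5_t2 (.cons s22_5_t3 .nil))) .nil)))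
def s22_5_n0 : Node := ⟨[⟨[1, 0, 0, -1], -200⟩, ⟨[1, 0, -1], -200⟩, ⟨[1, -1], -200⟩, ⟨[1, -1, -1, -1], -3200⟩, ⟨[1, 1, -1, -1], -1160⟩, ⟨[1, -1, 0, -1], -1360⟩, ⟨[1, -1, 1, -1], -380⟩, ⟨[1, 0, 1, -1], 1660⟩, ⟨[1, 1, 1, -1], 2680⟩, ⟨[1, -1, -1], -1300⟩, ⟨[0, 0, -1], -2220⟩, ⟨[0, 1, -1], -1200⟩, ⟨[1, 1, -1], 179000⟩, ⟨[1], 179700⟩, ⟨[0, 1], 680⟩, ⟨[1, -1, 1], 700⟩, ⟨[0, 0, 1], 680⟩, ⟨[0, 1, 1], 1660⟩, ⟨[1, -1, -1, 1], -320⟩, ⟨[0, 0, -1, 1], -340⟩, ⟨[1, 0, -1, 1], 179700⟩, ⟨[1, -1, 1, 1], 1720⟩, ⟨[0, 0, 1, 1], 1700⟩], [1], 0, none, s22_5_t4⟩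
def s22_5_t5 : Tree := .dbr (.cons (.ndet 2 [⟨1, [(32, 1)]⟩, ⟨1, [(17, 1)]⟩] (.ddet 0 [⟨1, []⟩] (.nbr (.cons (.ddet 1 [⟨1, [(16, 1), (2, 1)]⟩] (.leaf 1 [⟨1, [(19, 1)]⟩, ⟨1, [(1, 1)]⟩, ⟨1, [(16, 1), (2, 1)]⟩, ⟨1, []⟩, ⟨1, [(1, 1)]⟩, ⟨1, [(1, 2)]⟩, ⟨1, []⟩, ⟨1, [(1, 1)]⟩, ⟨1, [(16, 1), (2, 1)]⟩, ⟨1, [(19, 1)]⟩, ⟨1, []⟩, ⟨1, [(16, 1), (2, 1)]⟩, ⟨1, [(19, 1)]⟩, ⟨1, [(16, 2), (2, 2)]⟩, ⟨1, [(19, 1), (16, 1), (2, 1)]⟩, ⟨1, []⟩, ⟨1, [(19, 1)]⟩, ⟨1, []⟩, ⟨1, [(16, 1), (2, 1)]⟩, ⟨1, [(19, 1)]⟩, ⟨1, [(16, 2), (2, 2)]⟩, ⟨1, []⟩, ⟨1, [(1, 2)]⟩, ⟨1, []⟩, ⟨1, [(1, 1)]⟩, ⟨1, [(16, 1), (2, 1)]⟩, ⟨1, []⟩, ⟨1, [(16, 1), (2,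 1)]⟩, ⟨1, [(16, 2), (2, 2)]⟩, ⟨1, []⟩])) (.cons (.ddet 1 [⟨1, [(19, 1), (1, 1)]⟩] (.leaf 2 [⟨1, [(19, 1), (1, 1)]⟩, ⟨1, [(1, 1)]⟩, ⟨1, [(19, 1), (1, 1)]⟩, ⟨1, [(1, 1)]⟩, ⟨1, [(1, 1)]⟩, ⟨1, [(19, 2), (1, 1)]⟩, ⟨1, [(19, 2), (1, 1)]⟩, ⟨1, []⟩, ⟨1, []⟩, ⟨1, [(19, 1)]⟩, ⟨1, [(19, 1)]⟩, ⟨1, [(1, 1)]⟩, ⟨1, [(1, 1)]⟩, ⟨1, [(19, 1), (1, 1)]⟩, ⟨1, [(19, 1), (1, 1)]⟩, ⟨1, [(34, 1)]⟩, ⟨1, [(34, 1)]⟩, ⟨1, [(34, 1)]⟩, ⟨1, []⟩, ⟨1, []⟩, ⟨1, []⟩, ⟨1, [(19, 1)]⟩, ⟨1, [(19, 1)]⟩, ⟨1, [(1, 1)]⟩, ⟨1, [(1, 1)]⟩, ⟨1, [(19, 1), (1, 1)]⟩, ⟨1, [(1, 1)]⟩])) (.cons (.prune [(19, 1), (2, 1), (1, 1)]) .nil)))))) (.cons (.ndet 2 [⟨1,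 [(18, 1), (0, 2)]⟩, ⟨1, [(17, 1)]⟩] (.ddet 0 [⟨1, []⟩] (.ndet 0 [⟨1, [(18, 1), (0, 2)]⟩, ⟨2, [(24, 1), (12, 1), (1, 1)]⟩] (.dbr (.cons (.leaf 1 [⟨1, [(18, 1)]⟩, ⟨1, [(18, 1), (0, 1)]⟩, ⟨1, []⟩, ⟨1, [(0, 1)]⟩, ⟨1, [(18, 1), (0, 1)]⟩, ⟨1, [(18, 2), (0, 1)]⟩, ⟨1, []⟩, ⟨1, [(18, 1)]⟩, ⟨1, []⟩, ⟨1, [(18, 1)]⟩, ⟨1, [(2, 1)]⟩, ⟨1, [(2, 1)]⟩, ⟨1, [(18, 1), (2, 1)]⟩, ⟨1, [(2, 1)]⟩, ⟨1, [(18, 1), (2, 1)]⟩, ⟨1, [(0, 1)]⟩, ⟨1, [(18, 1)]⟩, ⟨1, [(2, 1)]⟩, ⟨1, [(2, 1)]⟩, ⟨1, [(18, 1), (2, 1)]⟩, ⟨1, [(2, 1)]⟩, ⟨1, [(0, 1)]⟩, ⟨1, [(18, 2), (0, 1)]⟩, ⟨1, []⟩, ⟨1, [(18, 1)]⟩, ⟨1, []⟩, ⟨1, [(2, 1)]⟩, ⟨1, [(2, 1)]⟩, ⟨1, [(2, 1)]⟩,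 ⟨1, []⟩]) (.cons (.leaf 1 [⟨1, [(18, 1)]⟩, ⟨1, [(19, 1), (1, 2)]⟩, ⟨1, [(0, 1)]⟩, ⟨1, []⟩, ⟨1, [(19, 1), (1, 2)]⟩, ⟨1, [(19, 2), (1, 4)]⟩, ⟨1, []⟩, ⟨1, [(19, 1), (1, 2)]⟩, ⟨1, [(0, 1)]⟩, ⟨1, [(18, 1)]⟩, ⟨1, []⟩, ⟨1, [(0, 1)]⟩, ⟨1, [(18, 1)]⟩, ⟨1, [(0, 2)]⟩, ⟨1, [(18, 1), (0, 1)]⟩, ⟨1, []⟩, ⟨1, [(18, 1)]⟩, ⟨1, []⟩, ⟨1, [(0, 1)]⟩, ⟨1, [(18, 1)]⟩, ⟨1, [(0, 2)]⟩, ⟨1, []⟩, ⟨1, [(19, 2), (1, 4)]⟩, ⟨1, []⟩, ⟨1, [(19, 1), (1, 2)]⟩, ⟨1, [(0, 1)]⟩, ⟨1, []⟩, ⟨1, [(0, 1)]⟩, ⟨1, [(0, 2)]⟩, ⟨1, []⟩]) .nil)))))) .nil))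
def s22_5_t6 : Tree := .nbr (.cons (.prune [(20, 1), (16, 1), (6, 1), (1, 2), (0, 2)]) (.cons (.ddet 1 [⟨2, [(13, 1), (0, 1)]⟩] (.ndet 2 [⟨1, [(16, 1)]⟩, ⟨1, [(16, 1)]⟩] (.ddet 0 [⟨1, []⟩] (.nbr (.cons (.ddet 0 [⟨1, []⟩] (.leaf 1 [⟨1, [(18, 1)]⟩, ⟨1, [(18, 1)]⟩, ⟨1, []⟩, ⟨1, []⟩, ⟨1, [(18, 1)]⟩, ⟨1, [(18, 2)]⟩, ⟨1, []⟩, ⟨1, [(18, 1)]⟩, ⟨1, []⟩, ⟨1, [(18, 1)]⟩, ⟨1, []⟩, ⟨1, []⟩, ⟨1, [(18, 1)]⟩, ⟨1, []⟩, ⟨1, [(18, 1)]⟩, ⟨1, []⟩, ⟨1, [(18, 1)]⟩, ⟨1, []⟩, ⟨1, []⟩, ⟨1, [(18, 1)]⟩, ⟨1, []⟩, ⟨1, []⟩, ⟨1, [(18, 2)]⟩, ⟨1, []⟩, ⟨1, [(18, 1)]⟩, ⟨1, []⟩, ⟨1, []⟩, ⟨1, []⟩, ⟨1, []⟩, ⟨1, []⟩])) (.cons (.prune [(22, 1), (18,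 1), (8, 1), (2, 2), (0, 4)]) (.cons (.ddet 0 [⟨1, []⟩] (.leaf 1 [⟨1, [(18, 1)]⟩, ⟨1, [(18, 1)]⟩, ⟨1, [(5, 1)]⟩, ⟨1, [(5, 1)]⟩, ⟨1, [(18, 1)]⟩, ⟨1, [(18, 2), (1, 1)]⟩, ⟨1, []⟩, ⟨1, [(18, 1), (1, 1)]⟩, ⟨1, [(5, 1)]⟩, ⟨1, [(18, 1)]⟩, ⟨1, [(1, 1)]⟩, ⟨1, []⟩, ⟨1, [(18, 1), (1, 1)]⟩, ⟨1, [(5, 1)]⟩, ⟨1, [(18, 1)]⟩, ⟨1, [(5, 1)]⟩, ⟨1, [(18, 1)]⟩, ⟨1, [(1, 1)]⟩, ⟨1, []⟩, ⟨1, [(18, 1), (1, 1)]⟩, ⟨1, [(5, 1)]⟩, ⟨1, [(5, 1)]⟩, ⟨1, [(18, 2), (1, 1)]⟩, ⟨1, []⟩, ⟨1, [(18, 1), (1, 1)]⟩, ⟨1, [(5, 1)]⟩, ⟨1, [(1, 1)]⟩, ⟨1, []⟩, ⟨1, [(5, 1)]⟩, ⟨1, []⟩])) .nil))))))) (.cons s22_5_t5 .nil)))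
def s22_5_t7 : Tree := .nbr (.cons (.ddet 1 [⟨1, [(14, 1)]⟩] (.ndet 1 [⟨1, [(14, 1)]⟩, ⟨1, [(21, 1), (9, 1), (1, 2)]⟩] (.ddet 1 [⟨1, [(14, 1), (1, 1)]⟩] (.ndet 2 [⟨1, [(14, 1)]⟩, ⟨1, [(21, 1), (5, 1)]⟩] (.ddet 0 [⟨1, [(28, 1)]⟩] (.ndet 2 [⟨1, [(1, 1)]⟩, ⟨1, [(14, 1), (1, 1)]⟩] (.ddet 0 [⟨1, []⟩] (.leaf 0 [⟨1, [(14, 1)]⟩, ⟨1, [(14, 1), (1, 1)]⟩, ⟨1, [(1, 1)]⟩, ⟨1, []⟩, ⟨1, [(14, 2)]⟩, ⟨1, []⟩, ⟨1, []⟩, ⟨1, [(14, 1)]⟩, ⟨1, [(14, 2)]⟩, ⟨1, [(1, 1)]⟩, ⟨1, []⟩, ⟨1, [(14, 1)]⟩, ⟨1, [(14, 2), (1, 1)]⟩, ⟨1, [(14, 1), (1, 1)]⟩, ⟨1, [(14, 1)]⟩, ⟨1, [(1, 1)]⟩, ⟨1, []⟩, ⟨1, [(14, 1)]⟩, ⟨1, [(1, 2)]⟩, ⟨1, [(1, 1)]⟩, ⟨1,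 [(14, 1), (1, 2)]⟩, ⟨1, [(1, 2)]⟩, ⟨1, [(1, 1)]⟩, ⟨1, [(1, 1)]⟩])))))))) (.cons (.ddet 1 [⟨1, [(14, 1)]⟩] s22_5_t6) (.cons (.prune [(27, 1), (18, 1), (14, 1), (0, 2)]) .nil)))
def s22_5_n1 : Node := ⟨[⟨[0, 1, 0, -1], -200⟩, ⟨[0, 1, -1], -200⟩, ⟨[-1, 1], -200⟩, ⟨[-1, 1, -1, -1], -2340⟩, ⟨[0, 1, -1, -1], -1300⟩, ⟨[1, 1, -1, -1], -300⟩, ⟨[0, 0, 0, -1], -1340⟩, ⟨[1, 0, 0, -1], -320⟩, ⟨[-1, 1, 0, -1], -1320⟩, ⟨[0, 1, 0, -1], 179000⟩, ⟨[1, -1, 1, -1], -1360⟩, ⟨[0, 0, 1, -1], -360⟩, ⟨[1, 0, 1, -1], 179000⟩, ⟨[-1, 1, 1, -1], -340⟩, ⟨[0, 1, 1, -1], 179700⟩, ⟨[-1, 1, -1], -1320⟩, ⟨[0, 1], 179700⟩, ⟨[1, -1, 1], -340⟩,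 ⟨[0, 0, 1], 680⟩, ⟨[1, 0, 1], 179700⟩, ⟨[-1, 1, 1], 700⟩, ⟨[-1, 1, -1, 1], -340⟩, ⟨[1, 1, -1, 1], 1740⟩, ⟨[0, 0, 0, 1], 680⟩, ⟨[1, 0, 0, 1], 1720⟩, ⟨[-1, 1, 0, 1], 700⟩, ⟨[1, -1, 1, 1], 640⟩, ⟨[0, 0, 1, 1], 1660⟩, ⟨[-1, 1, 1, 1], 1720⟩], [0, 1], 0, none, s22_5_t7⟩
def s22_5_t8 : Tree := .nbr (.cons (.ddet 0 [⟨1, []⟩] (.ndet 1 [⟨1, []⟩, ⟨1, [(16, 1)]⟩] (.ddet 1 [⟨1, [(15, 1)]⟩] (.leaf 2 [⟨1, [(15, 1)]⟩, ⟨1, []⟩, ⟨1, [(15, 1)]⟩, ⟨1, []⟩, ⟨1, []⟩, ⟨1, [(15, 2)]⟩, ⟨1, [(15, 2)]⟩, ⟨1, []⟩, ⟨1, []⟩, ⟨1, [(15, 1)]⟩, ⟨1, [(15, 1)]⟩, ⟨1, []⟩, ⟨1, []⟩, ⟨1, [(15, 1)]⟩, ⟨1, [(15, 1)]⟩, ⟨1, []⟩, ⟨1, []⟩, ⟨1, []⟩, ⟨1, []⟩,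 ⟨1, []⟩, ⟨1, []⟩, ⟨1, [(15, 1)]⟩, ⟨1, [(15, 1)]⟩, ⟨1, []⟩, ⟨1, []⟩, ⟨1, [(15, 1)]⟩, ⟨1, []⟩])))) (.cons (.prune [(23, 1), (12, 1), (8, 2), (2, 2), (0, 6)]) (.cons (.ddet 0 [⟨1, []⟩] (.nbr (.cons (.ddet 1 [⟨1, [(17, 1)]⟩] (.leaf 1 [⟨1, [(17, 1), (1, 1)]⟩, ⟨1, [(1, 1)]⟩, ⟨1, [(17, 1)]⟩, ⟨1, []⟩, ⟨1, [(1, 1)]⟩, ⟨1, [(1, 2)]⟩, ⟨1, []⟩, ⟨1, [(1, 1)]⟩, ⟨1, [(17, 1)]⟩, ⟨1, [(17, 1), (1, 1)]⟩, ⟨1, []⟩, ⟨1, [(17, 1)]⟩, ⟨1, [(17, 1), (1, 1)]⟩, ⟨1, [(17, 2)]⟩, ⟨1, [(17, 2), (1, 1)]⟩, ⟨1, []⟩, ⟨1, [(17, 1), (1, 1)]⟩, ⟨1, []⟩, ⟨1, [(17, 1)]⟩, ⟨1, [(17, 1), (1, 1)]⟩, ⟨1, [(17, 2)]⟩, ⟨1, []⟩, ⟨1, [(1, 2)]⟩, ⟨1, []⟩, ⟨1,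 [(1, 1)]⟩, ⟨1, [(17, 1)]⟩, ⟨1, []⟩, ⟨1, [(17, 1)]⟩, ⟨1, [(17, 2)]⟩, ⟨1, [(1, 1)]⟩])) (.cons (.ddet 1 [⟨1, [(17, 1)]⟩] (.leaf 2 [⟨1, [(17, 1)]⟩, ⟨1, [(1, 1)]⟩, ⟨1, [(17, 1)]⟩, ⟨1, [(1, 1)]⟩, ⟨1, [(1, 1)]⟩, ⟨1, [(17, 2), (3, 1)]⟩, ⟨1, [(17, 2), (3, 1)]⟩, ⟨1, []⟩, ⟨1, []⟩, ⟨1, [(17, 1), (3, 1)]⟩, ⟨1, [(17, 1), (3, 1)]⟩, ⟨1, [(1, 1)]⟩, ⟨1, [(1, 1)]⟩, ⟨1, [(17, 1)]⟩, ⟨1, [(17, 1)]⟩, ⟨1, [(3, 1)]⟩, ⟨1, [(3, 1)]⟩, ⟨1, [(3, 1)]⟩, ⟨1, []⟩, ⟨1, []⟩, ⟨1, []⟩, ⟨1, [(17, 1), (3, 1)]⟩, ⟨1, [(17, 1), (3, 1)]⟩, ⟨1, [(1, 1)]⟩, ⟨1, [(1, 1)]⟩, ⟨1, [(17, 1)]⟩, ⟨1, []⟩])) (.cons (.prune [(28, 1), (17, 1), (10, 1), (0, 2)]) .nil)))))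 .nil)))
def s22_5_t9 : Tree := .nbr (.cons (.ddet 1 [⟨1, [(8, 1), (2, 1)]⟩] (.ndet 1 [⟨1, [(8, 1), (2, 1)]⟩, ⟨1, [(17, 1)]⟩] (.ddet 1 [⟨1, [(16, 1)]⟩] (.leaf 2 [⟨1, [(1, 1)]⟩, ⟨1, [(8, 1), (2, 1)]⟩, ⟨1, [(16, 1)]⟩, ⟨1, []⟩, ⟨1, []⟩, ⟨1, [(1, 2)]⟩, ⟨1, [(1, 2)]⟩, ⟨1, []⟩, ⟨1, []⟩, ⟨1, [(1, 1)]⟩, ⟨1, [(1, 1)]⟩, ⟨1, [(8, 1), (2, 1)]⟩, ⟨1, [(8, 1), (2, 1)]⟩, ⟨1, [(16, 1)]⟩, ⟨1, [(16, 1)]⟩, ⟨1, []⟩, ⟨1, []⟩, ⟨1, []⟩, ⟨1, [(8, 1), (2, 1)]⟩, ⟨1, [(8, 1), (2, 1)]⟩, ⟨1, [(8, 1), (2, 1)]⟩, ⟨1, [(16, 1)]⟩, ⟨1, [(16, 1)]⟩, ⟨1, [(8, 2), (2, 2)]⟩, ⟨1, [(8, 2), (2, 2)]⟩, ⟨1, [(16, 1), (8, 1), (2, 1)]⟩, ⟨1, []⟩])))) (.cons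 (.ddet 1 [⟨1, [(16, 1), (1, 1)]⟩] (.ndet 1 [⟨1, [(16, 1)]⟩, ⟨1, [(17, 1)]⟩] (.ddet 1 [⟨1, [(16, 1)]⟩] (.leaf 3 [⟨1, [(1, 1)]⟩, ⟨1, [(16, 1), (1, 1)]⟩, ⟨1, [(16, 1), (1, 1)]⟩, ⟨1, []⟩, ⟨1, []⟩, ⟨1, []⟩, ⟨1, []⟩, ⟨1, []⟩, ⟨1, [(16, 1)]⟩, ⟨1, [(16, 1)]⟩, ⟨1, [(1, 1)]⟩, ⟨1, [(1, 1)]⟩, ⟨1, [(1, 1)]⟩, ⟨1, [(1, 1)]⟩, ⟨1, [(1, 1)]⟩, ⟨1, [(1, 1)]⟩, ⟨1, [(1, 1)]⟩, ⟨1, [(16, 1), (1, 1)]⟩, ⟨1, [(16, 1), (1, 1)]⟩, ⟨1, [(16, 1), (1, 1)]⟩, ⟨1, [(1, 1)]⟩])))) (.cons (.prune [(16, 1), (2, 1), (1, 1)]) .nil)))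
def s22_5_t10 : Tree := .ndet 2 [⟨2, [(25, 1), (24, 1), (0, 4)]⟩, ⟨1, [(15, 1)]⟩] (.ddet 0 [⟨1, [(21, 1)]⟩] (.ndet 0 [⟨2, [(25, 1), (24, 1), (0, 4)]⟩, ⟨2, [(24, 1), (15, 1), (1, 1)]⟩] (.dbr (.cons (.ndet 1 [⟨1, []⟩, ⟨1, [(16, 1)]⟩] (.ddet 1 [⟨1, [(15, 1)]⟩] (.leaf 2 [⟨1, [(15, 1), (0, 1)]⟩, ⟨1, []⟩, ⟨1, [(15, 1)]⟩, ⟨1, [(0, 1)]⟩, ⟨1, [(0, 1)]⟩, ⟨1, [(15, 2), (0, 1)]⟩, ⟨1, [(15, 2), (0, 1)]⟩, ⟨1, []⟩, ⟨1, []⟩, ⟨1, [(15, 1)]⟩, ⟨1, [(15, 1)]⟩, ⟨1, []⟩, ⟨1, []⟩, ⟨1, [(15, 1)]⟩, ⟨1, [(15, 1)]⟩, ⟨1, [(2, 1)]⟩, ⟨1, [(2, 1)]⟩, ⟨1, [(2, 1)]⟩, ⟨1, [(2, 1)]⟩, ⟨1, [(2, 1)]⟩, ⟨1, [(2, 1)]⟩, ⟨1, [(15, 1), (2, 1)]⟩, ⟨1,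 [(15, 1), (2, 1)]⟩, ⟨1, [(2, 1)]⟩, ⟨1, [(2, 1)]⟩, ⟨1, [(15, 1), (2, 1)]⟩, ⟨1, []⟩]))) (.cons (.ndet 1 [⟨1, [(0, 1)]⟩, ⟨1, [(16, 1)]⟩] (.ddet 1 [⟨1, [(15, 1)]⟩] (.leaf 2 [⟨2, [(26, 1), (25, 1), (1, 4)]⟩, ⟨1, [(0, 1)]⟩, ⟨1, [(15, 1)]⟩, ⟨1, []⟩, ⟨1, []⟩, ⟨1, [(26, 1), (25, 1), (1, 4)]⟩, ⟨1, [(26, 1), (25, 1), (1, 4)]⟩, ⟨1, []⟩, ⟨1, []⟩, ⟨2, [(26, 1), (25, 1), (1, 4)]⟩, ⟨2, [(26, 1), (25, 1), (1, 4)]⟩, ⟨1, [(0, 1)]⟩, ⟨1, [(0, 1)]⟩, ⟨1, [(15, 1)]⟩, ⟨1, [(15, 1)]⟩, ⟨1, []⟩, ⟨1, []⟩, ⟨1, []⟩, ⟨1, [(0, 1)]⟩, ⟨1, [(0, 1)]⟩, ⟨1, [(0, 1)]⟩, ⟨1, [(15, 1)]⟩, ⟨1, [(15, 1)]⟩, ⟨1, [(0, 2)]⟩, ⟨1, [(0, 2)]⟩, ⟨1, [(15, 1), (0,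 1)]⟩, ⟨1, []⟩]))) .nil)))))
def s22_5_t11 : Tree := .nbr (.cons (.prune [(24, 1), (12, 1), (6, 2), (1, 2), (0, 2)]) (.cons (.ddet 1 [⟨2, [(5, 1), (0, 1)]⟩] (.ndet 2 [⟨1, [(13, 1)]⟩, ⟨1, [(14, 1)]⟩] (.ddet 0 [⟨1, [(20, 1)]⟩] s22_5_t8))) (.cons (.dbr (.cons (.ndet 2 [⟨1, [(28, 1)]⟩, ⟨1, [(15, 1)]⟩] (.ddet 0 [⟨1, [(21, 1)]⟩] s22_5_t9)) (.cons s22_5_t10 .nil))) .nil)))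
def s22_5_n2 : Node := ⟨[⟨[0, 0, 1, -1], -200⟩, ⟨[0, -1, 1], -200⟩, ⟨[-1, 0, 1], -200⟩, ⟨[-1, -1, 1, -1], -2300⟩, ⟨[1, -1, 1, -1], -340⟩, ⟨[-1, 1, 1, -1], -300⟩, ⟨[1, 1, 1, -1], 1740⟩, ⟨[-1], -1320⟩, ⟨[1], 680⟩, ⟨[-1, 1], -320⟩, ⟨[1, 1], 1720⟩, ⟨[-1, -1, 1], -1300⟩, ⟨[1, -1, 1], 700⟩, ⟨[-1, 0, 1], 179000⟩, ⟨[0, 0, 1], 179700⟩, ⟨[-1, 1, -1, 1], -1360⟩, ⟨[0, 1, -1, 1], -340⟩, ⟨[1, 1, -1, 1], 640⟩, ⟨[-1, 0, 0, 1], -340⟩, ⟨[0, 0, 0, 1], 680⟩, ⟨[1, 0, 0, 1], 1660⟩, ⟨[-1, 1, 0, 1], 179000⟩, ⟨[0, 1, 0, 1], 179700⟩, ⟨[-1, -1, 1, 1], -320⟩, ⟨[1, -1, 1, 1], 1720⟩, ⟨[-1, 0, 1, 1], 179700⟩], [0, 0, 1], 0, none, s22_5_t11⟩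
def s22_5_t12 : Tree := .ndet 1 [⟨1, [(0, 1)]⟩, ⟨1, [(5, 1)]⟩] (.ddet 1 [⟨1, [(3, 1)]⟩] (.nbr (.cons (.prune [(15, 1), (8, 1), (6, 2), (1, 3), (0, 6)]) (.cons (.ddet 1 [⟨2, [(5, 1), (0, 1)]⟩] (.leaf 3 [⟨1, [(2, 1)]⟩, ⟨1, [(5, 1)]⟩, ⟨1, [(5, 1)]⟩, ⟨1, []⟩, ⟨1, []⟩, ⟨1, []⟩, ⟨1, []⟩, ⟨1, []⟩, ⟨2, [(5, 1), (0, 1)]⟩, ⟨2, [(5, 1), (0, 1)]⟩, ⟨1, [(2, 1)]⟩, ⟨1, [(2, 1)]⟩, ⟨1, [(2, 1)]⟩, ⟨1, [(2, 1)]⟩, ⟨1, [(2, 1)]⟩, ⟨1, [(2, 1)]⟩, ⟨1, [(2, 1)]⟩, ⟨1, [(5, 1)]⟩, ⟨1, [(5, 1)]⟩, ⟨1, [(5, 1)]⟩, ⟨1, []⟩])) (.cons (.dbr (.cons (.leaf 0 [⟨1, [(0, 1)]⟩, ⟨2, [(16, 1), (11, 1), (8, 2), (0, 5)]⟩, ⟨2, [(16, 1), (11, 1), (8, 2),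 (0, 3)]⟩, ⟨1, [(0, 2)]⟩, ⟨1, [(0, 2)]⟩, ⟨1, [(0, 1)]⟩, ⟨1, []⟩, ⟨1, []⟩, ⟨1, []⟩, ⟨2, [(16, 1), (11, 1), (8, 2), (0, 5)]⟩, ⟨1, [(0, 1)]⟩, ⟨1, [(0, 1)]⟩, ⟨2, [(16, 1), (11, 1), (8, 2), (0, 5)]⟩, ⟨2, [(16, 1), (11, 1), (8, 2), (0, 3)]⟩, ⟨1, []⟩, ⟨2, [(16, 1), (11, 1), (8, 2), (0, 1)]⟩, ⟨1, [(23, 1)]⟩, ⟨1, [(23, 1)]⟩, ⟨1, [(16, 1), (11, 1), (8, 2), (0, 3)]⟩, ⟨2, [(16, 1), (11, 1), (8, 2), (0, 3)]⟩, ⟨1, [(16, 1), (11, 1), (8, 2), (0, 3)]⟩, ⟨1, [(16, 1), (11, 1), (8, 2), (0, 1)]⟩, ⟨2, [(23, 1), (16, 1), (11, 1), (8, 2)]⟩, ⟨1, [(0, 1)]⟩]) (.cons (.leaf 3 [⟨2, [(6, 1), (1, 1)]⟩, ⟨1, [(6, 1)]⟩, ⟨1, [(0, 2)]⟩, ⟨1,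 []⟩, ⟨1, [(1, 1)]⟩, ⟨1, [(1, 1)]⟩, ⟨1, []⟩, ⟨1, [(1, 1)]⟩, ⟨1, [(0, 1)]⟩, ⟨1, [(0, 1)]⟩, ⟨1, [(0, 1)]⟩, ⟨2, [(6, 1), (1, 1)]⟩, ⟨2, [(6, 1), (1, 3)]⟩, ⟨2, [(6, 1), (1, 3)]⟩, ⟨1, [(0, 1)]⟩, ⟨2, [(6, 1), (1, 1)]⟩, ⟨2, [(6, 1), (1, 3)]⟩, ⟨1, [(6, 1)]⟩, ⟨1, [(6, 1), (1, 1)]⟩, ⟨1, [(6, 1)]⟩, ⟨1, []⟩]) .nil))) .nil)))))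
def s22_5_t13 : Tree := .nbr (.cons (.ddet 1 [⟨1, [(5, 1)]⟩] (.ndet 1 [⟨1, [(5, 1)]⟩, ⟨1, [(10, 1), (7, 1), (1, 2)]⟩] (.ddet 1 [⟨1, [(5, 1), (1, 1)]⟩] (.leaf 2 [⟨1, [(1, 1)]⟩, ⟨1, [(5, 1)]⟩, ⟨1, [(5, 1), (1, 1)]⟩, ⟨1, []⟩, ⟨1, []⟩, ⟨1, [(1, 2)]⟩, ⟨1, [(1, 2)]⟩, ⟨1, []⟩, ⟨1, []⟩, ⟨1, [(1, 1)]⟩, ⟨1, [(1, 1)]⟩, ⟨1, [(5, 1)]⟩, ⟨1, [(5, 1)]⟩, ⟨1, [(5, 1), (1, 1)]⟩, ⟨1, [(5, 1), (1, 1)]⟩, ⟨1, []⟩, ⟨1, []⟩, ⟨1, []⟩, ⟨1, [(5, 1)]⟩, ⟨1, [(5, 1)]⟩, ⟨1, [(5, 1)]⟩, ⟨1, [(5, 1), (1, 1)]⟩, ⟨1, [(5, 1), (1, 1)]⟩, ⟨1, [(5, 2)]⟩, ⟨1, [(5, 2)]⟩, ⟨1, [(5, 2), (1, 1)]⟩, ⟨1, [(1, 1)]⟩])))) (.cons (.ddet 1 [⟨1, [(5, 1)]⟩] (.ndet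 1 [⟨1, [(5, 1), (4, 1)]⟩, ⟨1, [(5, 1), (4, 1), (2, 1)]⟩] (.ddet 1 [⟨1, [(5, 1), (4, 1)]⟩] (.leaf 3 [⟨1, [(1, 1)]⟩, ⟨1, [(5, 1)]⟩, ⟨1, [(5, 1)]⟩, ⟨1, []⟩, ⟨1, []⟩, ⟨1, []⟩, ⟨1, []⟩, ⟨1, []⟩, ⟨1, [(5, 1), (4, 1)]⟩, ⟨1, [(5, 1), (4, 1)]⟩, ⟨1, [(1, 1)]⟩, ⟨1, [(1, 1)]⟩, ⟨1, [(1, 1)]⟩, ⟨1, [(1, 1)]⟩, ⟨1, [(1, 1)]⟩, ⟨1, [(1, 1)]⟩, ⟨1, [(1, 1)]⟩, ⟨1, [(5, 1)]⟩, ⟨1, [(5, 1)]⟩, ⟨1, [(5, 1)]⟩, ⟨1, []⟩])))) (.cons (.prune [(7, 1), (0, 1)]) .nil)))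
def s22_5_t14 : Tree := .nbr (.cons (.ddet 1 [⟨1, [(10, 1), (7, 1), (2, 2), (1, 1)]⟩] (.ndet 1 [⟨1, [(10, 1), (7, 1), (2, 2), (1, 1)]⟩, ⟨1, [(10, 1), (7, 1), (2, 1), (1, 2)]⟩] (.ddet 1 [⟨1, [(10, 1), (7, 1), (2, 2), (1, 2)]⟩] (.leaf 2 [⟨1, [(1, 1)]⟩, ⟨1, [(10, 1), (7, 1), (2, 2), (1, 1)]⟩, ⟨1, [(10, 1), (7, 1), (2, 2), (1, 2)]⟩, ⟨1, []⟩, ⟨1, []⟩, ⟨1, [(1, 2)]⟩, ⟨1, [(1, 2)]⟩, ⟨1, []⟩, ⟨1, []⟩, ⟨1, [(1, 1)]⟩, ⟨1, [(1, 1)]⟩, ⟨1, [(10, 1), (7, 1), (2, 2), (1, 1)]⟩, ⟨1, [(10, 1), (7, 1), (2, 2), (1, 1)]⟩, ⟨1, [(10, 1), (7, 1), (2, 2), (1, 2)]⟩, ⟨1, [(10, 1), (7, 1), (2, 2), (1, 2)]⟩, ⟨1, []⟩, ⟨1, []⟩, ⟨1, []⟩,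 ⟨1, [(10, 1), (7, 1), (2, 2), (1, 1)]⟩, ⟨1, [(10, 1), (7, 1), (2, 2), (1, 1)]⟩, ⟨1, [(10, 1), (7, 1), (2, 2), (1, 1)]⟩, ⟨1, [(10, 1), (7, 1), (2, 2), (1, 2)]⟩, ⟨1, [(10, 1), (7, 1), (2, 2), (1, 2)]⟩, ⟨1, [(10, 2), (7, 2), (2, 4), (1, 2)]⟩, ⟨1, [(10, 2), (7, 2), (2, 4), (1, 2)]⟩, ⟨1, [(10, 2), (7, 2), (2, 4), (1, 3)]⟩, ⟨1, [(1, 1)]⟩])))) (.cons (.ddet 1 [⟨1, [(5, 1)]⟩] (.ndet 1 [⟨1, [(10, 1), (7, 1), (4, 2)]⟩, ⟨2, [(14, 1), (10, 3), (7, 2), (4, 6)]⟩] (.ddet 1 [⟨1, [(10, 1), (7, 1), (4, 2)]⟩] (.leaf 3 [⟨1, [(1, 1)]⟩, ⟨1, [(5, 1)]⟩, ⟨1, [(5, 1)]⟩, ⟨1, []⟩, ⟨1, []⟩, ⟨1, []⟩, ⟨1, []⟩, ⟨1, []⟩, ⟨1, [(10, 1), (7,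 1), (4, 2)]⟩, ⟨1, [(10, 1), (7, 1), (4, 2)]⟩, ⟨1, [(1, 1)]⟩, ⟨1, [(1, 1)]⟩, ⟨1, [(1, 1)]⟩, ⟨1, [(1, 1)]⟩, ⟨1, [(1, 1)]⟩, ⟨1, [(1, 1)]⟩, ⟨1, [(1, 1)]⟩, ⟨1, [(5, 1)]⟩, ⟨1, [(5, 1)]⟩, ⟨1, [(5, 1)]⟩, ⟨1, []⟩])))) (.cons (.prune [(7, 1), (0, 1)]) .nil)))
def s22_5_t15 : Tree := .nbr (.cons (.dbr (.cons (.ndet 1 [⟨1, []⟩, ⟨1, [(5, 1)]⟩] (.ddet 1 [⟨1, [(3, 1)]⟩] (.ndet 1 [⟨1, [(3, 1)]⟩, ⟨1, [(3, 1), (0, 1)]⟩] (.ddet 1 [⟨1, [(3, 1)]⟩] (.leaf 3 [⟨1, []⟩, ⟨1, [(3, 1)]⟩, ⟨1, [(3, 1)]⟩, ⟨1, []⟩, ⟨1, []⟩, ⟨1, []⟩, ⟨1, []⟩, ⟨1, []⟩, ⟨1, [(3, 1)]⟩, ⟨1, [(3, 1)]⟩, ⟨1, []⟩, ⟨1, []⟩, ⟨1, []⟩, ⟨1, []⟩, ⟨1, []⟩, ⟨1, []⟩, ⟨1,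 []⟩, ⟨1, [(3, 1)]⟩, ⟨1, [(3, 1)]⟩, ⟨1, [(3, 1)]⟩, ⟨1, []⟩]))))) (.cons s22_5_t12 .nil))) (.cons (.prune [(19, 1), (1, 1)]) (.cons (.dbr (.cons s22_5_t13 (.cons s22_5_t14 .nil))) .nil)))
def s22_5_n3 : Node := ⟨[⟨[0, 0, -1, 1], -200⟩, ⟨[0, -1, 0, 1], -200⟩, ⟨[-1, 0, 0, 1], -200⟩, ⟨[0, -1], -1320⟩, ⟨[1, -1], -340⟩, ⟨[1], 680⟩, ⟨[0, 1], 680⟩, ⟨[1, 1], 1660⟩, ⟨[0, -1, 1], 640⟩, ⟨[0, 1, 1], 2680⟩, ⟨[-1, -1, -1, 1], -3280⟩, ⟨[0, -1, -1, 1], -1300⟩, ⟨[1, -1, -1, 1], -320⟩, ⟨[1, 0, -1, 1], 700⟩, ⟨[-1, 1, -1, 1], -1240⟩, ⟨[0, 1, -1, 1], 700⟩, ⟨[1, 1, -1, 1], 1680⟩, ⟨[0, -1, 0, 1], 179000⟩, ⟨[1, -1, 0, 1], 179700⟩,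 ⟨[0, 0, 0, 1], 179700⟩], [0, 0, 0, 1], 0, none, (.ndet 2 [⟨1, [(17, 1)]⟩, ⟨1, [(2, 1)]⟩] (.ddet 0 [⟨1, [(16, 1)]⟩] s22_5_t15))⟩
def s22_5 : Sys := ⟨[(1, 0), (2, 0), (4, 2000)], [(0, 1000), (2, -1000)], 4, [s22_5_n0, s22_5_n1, s22_5_n2, s22_5_n3], [1000, 460728, 1192707, 732979], (.leaf 2 [⟨1, []⟩, ⟨1, []⟩, ⟨1, []⟩, ⟨1, []⟩, ⟨1, []⟩, ⟨1, []⟩, ⟨1, []⟩, ⟨1, []⟩, ⟨1, []⟩, ⟨1, []⟩, ⟨1, []⟩, ⟨1, []⟩, ⟨1, []⟩, ⟨1, []⟩, ⟨1, []⟩, ⟨1, []⟩, ⟨1, []⟩, ⟨1, []⟩, ⟨1, []⟩, ⟨1, []⟩, ⟨1, []⟩, ⟨1, []⟩, ⟨1, []⟩, ⟨1, []⟩, ⟨1, []⟩, ⟨1, []⟩])⟩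

theorem s22_5_ok : s22_5.ok = true := by decide +kernel

def s24_10_n0 : Node := ⟨[⟨[0, 0, 1, -1], 104⟩, ⟨[1, 0, -1], 32⟩, ⟨[0, -1, 1], 64⟩, ⟨[1, 1, -1], -8⟩, ⟨[1, -1], 120⟩, ⟨[1, 1, -1], 0⟩, ⟨[2, 0, -1], 88⟩, ⟨[1, 0, -1], 40⟩], [1], 0, none, (.ndet 0 [⟨1, [(7, 1)]⟩] (.ddet 0 [⟨1, [(0, 1)]⟩] (.ndet 1 [⟨1, [(5, 1)]⟩] (.ddet 1 [⟨1, [(2, 1)]⟩] (.ndet 0 [⟨1, [(3, 1)]⟩] (.ddet 1 [⟨1, [(2, 1)]⟩] (.ndet 1 [⟨1, [(3, 1), (2, 1)]⟩] (.ddet 0 [⟨1, [(0, 1)]⟩] (.leaf 0 [⟨1, [(3, 1)]⟩, ⟨1, [(2, 1)]⟩, ⟨1, [(5, 1)]⟩, ⟨1, [(2, 1)]⟩, ⟨1, [(5, 1), (2, 1)]⟩, ⟨1, [(2, 1)]⟩, ⟨1, [(5, 1), (2, 2)]⟩, ⟨1, [(2, 1)]⟩, ⟨1, []⟩])))))))))⟩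
def s24_10 : Sys := ⟨[(3, -16), (4, 16)], [(1, 0), (3, 16)], 4, [s24_10_n0], [176, -32, 128, -48], (.leaf 0 [⟨1, []⟩, ⟨1, []⟩, ⟨1, []⟩, ⟨1, []⟩, ⟨1, []⟩, ⟨1, []⟩, ⟨1, []⟩, ⟨1, []⟩])⟩

theorem s24_10_ok : s24_10.ok = true := by decide +kernel

def s24_13_n0 : Node := ⟨[⟨[0, 0, 1, -1], 224⟩, ⟨[0, 1], 64⟩, ⟨[0, 1, -1], -64⟩, ⟨[0, 1, -1], 96⟩, ⟨[0, 1], 192⟩, ⟨[-1, 1], 448⟩, ⟨[-1, 1], 288⟩, ⟨[0, 1, -1], 64⟩, ⟨[-1], 128⟩, ⟨[-1, -1, 1], 224⟩, ⟨[0, 1, -1], -192⟩, ⟨[0, 0, -1], -192⟩], [0, 1], 0, none, (.ndet 0 [⟨1, [(11, 1)]⟩] (.ddet 1 [⟨1, [(7, 1)]⟩, ⟨1, [(8, 1)]⟩] (.ndet 0 [⟨1, [(8, 1)]⟩] (.ddet 2 [⟨1, [(7, 1)]⟩,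 ⟨1, [(8, 1), (7, 1), (2, 1)]⟩] (.ndet 1 [⟨1, [(8, 1), (7, 1), (2, 1)]⟩] (.ddet 0 [⟨1, [(8, 1)]⟩, ⟨1, [(8, 1), (2, 1)]⟩] (.ndet 0 [⟨1, [(2, 1)]⟩] (.ddet 1 [⟨1, []⟩, ⟨1, [(8, 1)]⟩] (.leaf 0 [⟨1, [(8, 1)]⟩, ⟨1, [(7, 1)]⟩, ⟨1, [(7, 1)]⟩, ⟨1, [(7, 1)]⟩, ⟨1, [(7, 1)]⟩, ⟨1, [(8, 1), (7, 1)]⟩, ⟨1, [(8, 1), (7, 1)]⟩, ⟨1, [(7, 1)]⟩, ⟨1, [(8, 1)]⟩, ⟨1, [(0, 1)]⟩, ⟨1, [(7, 1)]⟩, ⟨1, []⟩, ⟨1, []⟩])))))))))⟩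
def s24_13 : Sys := ⟨[(3, 0), (4, 64)], [(0, 0), (2, 128), (3, -128)], 4, [s24_13_n0], [-384, 256, 128, -256], (.leaf 0 [⟨1, []⟩, ⟨1, []⟩, ⟨1, []⟩, ⟨1, []⟩, ⟨1, []⟩, ⟨1, []⟩, ⟨1, []⟩, ⟨1, []⟩, ⟨1, []⟩, ⟨1, []⟩, ⟨1, []⟩, ⟨1, []⟩])⟩

theorem s24_13_ok : s24_13.ok = true := by decide +kernel

def s24_14_n0 : Node := ⟨[⟨[0, 0, 1, -1], 168⟩, ⟨[-1, 1], 408⟩, ⟨[0, 1, -1], 168⟩, ⟨[0, 1, -1], 208⟩, ⟨[0, 2, -1], 240⟩, ⟨[-1, 1], 368⟩, ⟨[-1], 336⟩, ⟨[-1, -1, 1], 208⟩, ⟨[0, 1], 32⟩, ⟨[0, 2, -1], 200⟩, ⟨[0, 1], 72⟩], [0, 1], 0, none, (.ndet 0 [⟨1, [(10, 1)]⟩] (.ddet 1 [⟨1, [(7, 1), (3, 1), (0, 1)]⟩, ⟨1, [(7, 1)]⟩] (.ndet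 0 [⟨1, [(7, 1)]⟩] (.ddet 2 [⟨1, [(7, 1), (0, 1)]⟩, ⟨1, [(7, 1), (3, 1), (0, 1)]⟩] (.ndet 1 [⟨1, [(7, 1), (3, 1), (0, 1)]⟩] (.ddet 0 [⟨1, [(7, 1)]⟩, ⟨1, [(7, 1), (3, 1)]⟩] (.ndet 0 [⟨1, [(3, 1)]⟩] (.ddet 0 [⟨1, [(0, 1)]⟩, ⟨1, [(7, 1), (0, 1)]⟩] (.leaf 0 [⟨1, [(7, 1)]⟩, ⟨1, [(7, 1), (0, 2)]⟩, ⟨1, [(0, 1)]⟩, ⟨1, [(0, 1)]⟩, ⟨1, [(0, 2)]⟩, ⟨1, [(7, 1), (0, 2)]⟩, ⟨1, [(7, 1), (0, 1)]⟩, ⟨1, [(7, 1)]⟩, ⟨1, [(0, 1)]⟩, ⟨1, [(0, 2)]⟩, ⟨1, [(0, 1)]⟩, ⟨1, []⟩])))))))))⟩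
def s24_14 : Sys := ⟨[(3, -16), (4, 64)], [(1, 80), (2, 80), (3, 80)], 4, [s24_14_n0], [-576, 240, -96, -352], (.leaf 0 [⟨1, []⟩, ⟨1, []⟩, ⟨1, []⟩, ⟨1, []⟩, ⟨1, []⟩, ⟨1, []⟩, ⟨1, []⟩, ⟨1, []⟩, ⟨1, []⟩, ⟨1, []⟩, ⟨1, []⟩])⟩

theorem s24_14_ok : s24_14.ok = true := by decide +kernel

def s29_20_n0 : Node := ⟨[⟨[0, 0, 0, 1], 88⟩, ⟨[0, -1, 0, 1], 80⟩, ⟨[0, 0, -1, 1], 104⟩, ⟨[1], 112⟩, ⟨[1, -1], 128⟩, ⟨[1, 0, -1], 112⟩, ⟨[1], 88⟩, ⟨[1], 64⟩, ⟨[1, -1], 88⟩, ⟨[0, 1], -24⟩, ⟨[0, -1], 0⟩], [1], 0, none, (.ndet 3 [⟨1, [(10, 1)]⟩, ⟨1, [(10, 1), (0, 1)]⟩, ⟨1, [(8, 1)]⟩] (.ddet 1 [⟨1, [(10, 1), (0, 1)]⟩] (.ndet 1 [⟨1, [(7,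 1)]⟩, ⟨1, [(6, 1)]⟩, ⟨1, [(5, 1)]⟩] (.ddet 0 [⟨1, [(5, 1)]⟩] (.ndet 2 [⟨1, [(7, 1)]⟩, ⟨1, [(7, 1)]⟩, ⟨1, [(6, 1)]⟩] (.ddet 1 [⟨1, [(1, 1)]⟩] (.leaf 0 [⟨1, [(7, 1)]⟩, ⟨1, [(7, 1)]⟩, ⟨1, [(7, 1)]⟩, ⟨1, [(6, 1)]⟩, ⟨1, [(6, 1)]⟩, ⟨1, [(6, 1)]⟩, ⟨1, [(6, 1)]⟩, ⟨1, [(6, 1)]⟩, ⟨1, [(6, 1)]⟩, ⟨1, []⟩, ⟨1, []⟩, ⟨1, [(0, 1)]⟩])))))))⟩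
def s29_20 : Sys := ⟨[(0, 0), (2, -32), (3, 16), (4, -16)], [(2, -16), (4, 0)], 4, [s29_20_n0], [192, -16, -16, 160], (.leaf 0 [⟨1, []⟩, ⟨1, []⟩, ⟨1, []⟩, ⟨1, []⟩, ⟨1, []⟩, ⟨1, []⟩, ⟨1, []⟩, ⟨1, []⟩, ⟨1, []⟩, ⟨1, []⟩, ⟨1, []⟩])⟩

theorem s29_20_ok : s29_20.ok = true := by decide +kernel

def s30_2_n0 : Node := ⟨[⟨[-1, 1], 0⟩, ⟨[0, 1, -1], 40⟩, ⟨[0, 1, 0, -1], 24⟩, ⟨[-2, 1], 120⟩, ⟨[-1], 16⟩, ⟨[-1, 1, -1], 72⟩, ⟨[-1], -24⟩], [0, 1], 0, none, (.ndet 1 [⟨1, [(6, 1)]⟩, ⟨1, [(5, 1)]⟩, ⟨1, [(4, 1)]⟩] (.ddet 0 [] (.ndet 0 [⟨1, [(3, 1)]⟩, ⟨1, [(2, 1)]⟩, ⟨1, [(1, 1)]⟩] (.ddet 0 [] (.leaf 0 [⟨1, [(6, 1)]⟩, ⟨1, [(3,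 1)]⟩, ⟨1, [(2, 1)]⟩, ⟨1, [(6, 1)]⟩, ⟨1, []⟩, ⟨1, [(3, 1)]⟩, ⟨1, []⟩, ⟨1, [(2, 1)]⟩])))))⟩
def s30_2 : Sys := ⟨[(1, -80), (2, 64), (3, 0), (4, -32)], [(1, -32)], 4, [s30_2_n0], [-48, 96, -48, -48], (.leaf 0 [⟨1, []⟩, ⟨1, []⟩, ⟨1, []⟩, ⟨1, []⟩, ⟨1, []⟩, ⟨1, []⟩, ⟨1, []⟩])⟩

theorem s30_2_ok : s30_2.ok = true := by decide +kernel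

def s30_5_n0 : Node := ⟨[⟨[-1, 0, 1], 192⟩, ⟨[0, -1, 1], 104⟩, ⟨[0, 0, 1, -1], 40⟩, ⟨[0, 1], 120⟩, ⟨[-1, 0, 1], 152⟩, ⟨[0, -1, 1], 136⟩, ⟨[-1], -64⟩, ⟨[0, 1], 80⟩, ⟨[-1, 0, 1], 184⟩, ⟨[0, -1, 1], 128⟩, ⟨[0, -1, 1], 168⟩, ⟨[0, 1], 152⟩, ⟨[-1, 0, 1], 224⟩, ⟨[0, 0, 1], 240⟩], [0, 1], 0, none, (.ndet 2 [⟨1, [(7, 1), (3, 1), (2, 1)]⟩, ⟨1, [(3, 1)]⟩, ⟨1, [(11, 1)]⟩] (.ddet 1 [⟨1, [(2, 1)]⟩] (.ndet 3 [⟨1, [(2, 1)]⟩, ⟨1, [(7, 1), (3, 1), (2, 1)]⟩, ⟨1, [(3, 1)]⟩] (.ddet 0 [⟨1, [(7, 1)]⟩] (.ndet 0 [⟨1, [(2, 1)]⟩, ⟨1, [(7, 1), (3, 1), (2, 1)]⟩, ⟨1, [(3, 1)]⟩] (.ddet 1 [⟨1, [(3, 1)]⟩] (.ndet 1 [⟨1, [(3, 1)]⟩, ⟨1, [(2,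 1)]⟩, ⟨1, [(7, 1), (3, 1), (2, 1)]⟩] (.ddet 1 [⟨1, [(3, 1), (2, 1)]⟩] (.leaf 0 [⟨1, [(3, 1), (2, 1)]⟩, ⟨1, [(3, 1)]⟩, ⟨1, [(2, 1)]⟩, ⟨1, [(2, 1)]⟩, ⟨1, [(3, 1), (2, 1)]⟩, ⟨1, [(3, 1)]⟩, ⟨1, []⟩, ⟨1, [(2, 1)]⟩, ⟨1, [(3, 1), (2, 1)]⟩, ⟨1, [(3, 1)]⟩, ⟨1, [(3, 1)]⟩, ⟨1, [(2, 1)]⟩, ⟨1, [(3, 1), (2, 1)]⟩, ⟨1, [(3, 1), (2, 1)]⟩, ⟨1, []⟩])))))))))⟩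
def s30_5 : Sys := ⟨[(1, 32), (2, -32), (3, 48), (4, 64)], [(0, 16), (2, -64)], 4, [s30_5_n0], [48, 160, 448, 384], (.leaf 0 [⟨1, []⟩, ⟨1, []⟩, ⟨1, []⟩, ⟨1, []⟩, ⟨1, []⟩, ⟨1, []⟩, ⟨1, []⟩, ⟨1, []⟩, ⟨1, []⟩, ⟨1, []⟩, ⟨1, []⟩, ⟨1, []⟩, ⟨1, []⟩, ⟨1, []⟩])⟩

theorem s30_5_ok : s30_5.ok = true := by decide +kernel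

def s30_11_n0 : Node := ⟨[⟨[1, -1], 48⟩, ⟨[1, 0, -1], 8⟩, ⟨[1, 0, 0, -1], 24⟩, ⟨[1], 8⟩, ⟨[1], -16⟩, ⟨[1, -1], 16⟩, ⟨[1, 0, -1], -8⟩, ⟨[0, -1], 24⟩], [1], 0, none, (.ndet 0 [⟨1, [(7, 1)]⟩, ⟨1, [(6, 1)]⟩, ⟨1, [(5, 1)]⟩] (.ddet 1 [⟨1, [(4, 1)]⟩, ⟨1, [(6, 1)]⟩] (.ndet 1 [⟨1, [(4, 1)]⟩, ⟨1, [(7, 1)]⟩, ⟨1, [(6, 1)]⟩] (.ddet 0 [⟨1, []⟩, ⟨1, [(0, 1)]⟩] (.leaf 0 [⟨1, [(4, 1)]⟩, ⟨1, []⟩, ⟨1, [(7, 1)]⟩, ⟨1, [(4, 1)]⟩, ⟨1, [(4, 1)]⟩, ⟨1, [(4, 1)]⟩, ⟨1, []⟩, ⟨1, []⟩, ⟨1, []⟩])))))⟩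
def s30_11 : Sys := ⟨[(1, -32), (2, 0), (3, -32), (4, -32)], [(0, -16), (1, 0), (3, 0)], 4, [s30_11_n0], [32, -32, 16, -16], (.leaf 0 [⟨1, []⟩, ⟨1, []⟩, ⟨1, []⟩, ⟨1, []⟩, ⟨1, []⟩, ⟨1, []⟩, ⟨1, []⟩, ⟨1, []⟩])⟩

theorem s30_11_ok : s30_11.ok = true := by decide +kernel

def s30_22_n0 : Node := ⟨[⟨[1, -1], 392⟩, ⟨[1, 0, -1], 408⟩, ⟨[1, 0, 0, -1], 8⟩, ⟨[1, 0, 0, -1], 0⟩, ⟨[1], 408⟩, ⟨[1, -1], 416⟩, ⟨[1, 0, -1], 400⟩, ⟨[1], 392⟩, ⟨[1], 384⟩, ⟨[0, -1], -8⟩], [1], 0, none, (.ndet 0 [⟨1, [(4, 1)]⟩, ⟨1, [(8, 1)]⟩, ⟨1, [(7, 1)]⟩] (.ddet 0 [⟨1, [(4, 1)]⟩, ⟨1, [(7, 1)]⟩] (.ndet 1 [⟨1, [(5, 1)]⟩, ⟨1, [(4, 1)]⟩, ⟨1, [(8,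 1)]⟩] (.ddet 1 [⟨1, [(5, 1)]⟩, ⟨1, [(8, 1)]⟩] (.ndet 2 [⟨1, [(5, 1)]⟩, ⟨1, [(5, 1)]⟩, ⟨1, [(4, 1)]⟩] (.ddet 0 [⟨1, []⟩, ⟨1, [(0, 1)]⟩] (.leaf 0 [⟨1, [(5, 1)]⟩, ⟨1, [(5, 1)]⟩, ⟨1, []⟩, ⟨1, []⟩, ⟨1, [(5, 1)]⟩, ⟨1, [(5, 1)]⟩, ⟨1, [(5, 1)]⟩, ⟨1, [(5, 1)]⟩, ⟨1, [(5, 1)]⟩, ⟨1, []⟩, ⟨1, []⟩])))))))⟩
def s30_22 : Sys := ⟨[(1, 0), (2, -16), (3, 16), (4, 0)], [(1, 0), (2, -16), (4, -16)], 4, [s30_22_n0], [800, 0, 0, 784], (.leaf 0 [⟨1, []⟩, ⟨1, []⟩, ⟨1, []⟩, ⟨1, []⟩, ⟨1, []⟩, ⟨1, []⟩, ⟨1, []⟩, ⟨1, []⟩, ⟨1, []⟩, ⟨1, []⟩])⟩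

theorem s30_22_ok : s30_22.ok = true := by decide +kernel

end Pool.Agent.H81.RDE.Data
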