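import Pool.Agent.H81.RDE.System

/-! Data file (generated): certificates. -/

set_option maxRecDepth 100000

namespace Pool.Agent.H81.RDE.Data

def s3_12_t0 : Tree := .ddet 1 [⟨1, [(4, 1)]⟩] (.ndet 0 [⟨1, [(4, 1), (0, 1)]⟩] (.ddet 1 [⟨1, [(4, 1), (0, 1)]⟩] (.ndet 0 [⟨1, [(0, 1)]⟩] (.ddet 1 [⟨1, [(0, 1)]⟩] (.ndet 1 [⟨1, [(4, 1)]⟩] (.ddet 0 [⟨1, [(4, 1)]⟩] (.ndet 1 [⟨1, [(4, 1), (0, 1)]⟩] (.ddet 0 [⟨1, [(4, 1), (0, 1)]⟩] (.leaf 0 [⟨1, []⟩, ⟨1, []⟩, ⟨1, [(0, 1)]⟩, ⟨1, [(4, 1), (0, 1)]⟩, ⟨1, [(4, 1)]⟩, ⟨1, [(0, 1)]⟩])))))))))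
def s3_12_t1 : Tree := .ndet 0 [⟨1, [(0, 1)]⟩] (.ddet 1 [⟨1, [(0, 1)]⟩] (.ndet 1 [⟨1, [(4, 1)]⟩] (.ddet 0 [⟨1, [(4, 1)]⟩] (.ndet 1 [⟨1, [(4, 1), (0, 1)]⟩] (.ddet 0 [⟨1, [(4, 1), (0, 1)]⟩] (.ndet 1 [⟨1, [(0, 1)]⟩] (.ddet 0 [⟨1, [(0, 1)]⟩] (.ndet 0 [⟨1, [(4, 1)]⟩] s3_12_t0))))))))
def s3_12_t2 : Tree := .ddet 1 [⟨1, [(4, 1), (1, 1)]⟩] (.ndet 0 [⟨1, [(4, 1)]⟩] (.ddet 1 [⟨1, [(4, 1)]⟩] (.ndet 0 [⟨1, [(3, 1)]⟩] (.ddet 1 [⟨1, [(3, 1)]⟩] (.ndet 1 [⟨1, [(4, 1), (1, 1)]⟩] (.ddet 0 [⟨1, [(4, 1), (1, 1)]⟩] (.ndet 1 [⟨1, [(4, 1)]⟩] (.ddet 0 [⟨1, [(4, 1)]⟩] (.leaf 0 [⟨1, []⟩, ⟨1, []⟩, ⟨1, [(3, 1)]⟩, ⟨1, [(4, 1)]⟩, ⟨1, [(4, 1), (1, 1)]⟩, ⟨1, []⟩])))))))))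
def s3_12_t3 : Tree := .ndet 0 [⟨1, [(3, 1)]⟩] (.ddet 1 [⟨1, [(3, 2)]⟩] (.ndet 1 [⟨1, [(4, 1), (1, 1)]⟩] (.ddet 0 [⟨1, [(4, 1)]⟩] (.ndet 1 [⟨1, [(4, 1)]⟩] (.ddet 0 [⟨1, [(4, 1)]⟩] (.ndet 1 [⟨1, [(3, 1)]⟩] (.ddet 0 [⟨1, [(3, 1)]⟩] (.ndet 0 [⟨1, [(4, 1), (1, 1)]⟩] s3_12_t2))))))))
def s3_12_t4 : Tree := .dbr (.cons (.ndet 0 [⟨1, [(4, 1)]⟩] (.ddet 1 [⟨1, [(4, 1)]⟩] (.ndet 0 [⟨1, [(4, 1), (0, 1)]⟩] (.ddet 1 [⟨1, [(4, 1), (0, 1)]⟩] s3_12_t1)))) (.cons (.ndet 0 [⟨1, [(4, 1), (1, 1)]⟩] (.ddet 1 [⟨1, [(4, 1)]⟩] (.ndet 0 [⟨1, [(4, 1), (3, 1)]⟩] (.ddet 1 [⟨1, [(4, 1)]⟩] s3_12_t3)))) .nil))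
def s3_12_t5 : Tree := .ndet 0 [⟨1, [(3, 1), (2, 1)]⟩] (.ddet 1 [⟨1, [(3, 1), (2, 1)]⟩] (.ndet 1 [⟨1, [(0, 1)]⟩] (.ddet 0 [⟨1, [(0, 1)]⟩] (.ndet 1 [⟨1, [(3, 1)]⟩] (.ddet 0 [⟨1, [(3, 1)]⟩] (.ndet 1 [⟨1, [(3, 1), (2, 1)]⟩] (.ddet 0 [⟨1, [(3, 1), (2, 1)]⟩] (.ndet 1 [⟨1, [(2, 1)]⟩] s3_12_t4))))))))
def s3_12_t6 : Tree := .ddet 1 [⟨1, [(5, 1), (0, 1)]⟩] (.ndet 0 [⟨1, [(5, 1)]⟩] (.ddet 1 [⟨1, [(5, 1)]⟩] (.ndet 0 [⟨1, [(1, 1)]⟩] (.ddet 1 [⟨1, [(1, 1)]⟩] (.ndet 1 [⟨1, [(5, 1), (0, 1)]⟩] (.ddet 0 [⟨1, [(5, 1), (0, 1)]⟩] (.ndet 1 [⟨1, [(5, 1)]⟩] (.ddet 0 [⟨1, [(5, 1)]⟩] (.leaf 0 [⟨1, []⟩, ⟨1, []⟩, ⟨1, [(1, 1)]⟩, ⟨1, [(5, 1)]⟩, ⟨1, [(5, 1), (0, 1)]⟩, ⟨1,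 []⟩])))))))))
def s3_12_t7 : Tree := .ndet 1 [⟨1, [(4, 1), (2, 1)]⟩] (.ddet 0 [⟨1, [(4, 1), (2, 1)]⟩] (.ndet 1 [⟨1, [(4, 1)]⟩] (.ddet 0 [⟨1, [(4, 1)]⟩] (.split [1, -1] (3999552) (.leaf 0 [⟨1, []⟩, ⟨1, []⟩, ⟨1, [(0, 1)]⟩, ⟨1, [(5, 1)]⟩, ⟨1, [(5, 1), (3, 1)]⟩, ⟨1, []⟩]) (.ndet 1 [⟨1, [(1, 1)]⟩] (.ddet 0 [⟨1, [(1, 1)]⟩] (.ndet 0 [⟨1, [(5, 1), (0, 1)]⟩] s3_12_t6)))))))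
def s3_12_t8 : Tree := .ddet 0 [⟨1, [(4, 1)]⟩] (.ndet 1 [⟨1, [(0, 1)]⟩] (.ddet 0 [⟨1, [(0, 1)]⟩] (.ndet 0 [⟨1, [(4, 1), (2, 1)]⟩] (.ddet 1 [⟨1, [(4, 1), (2, 1)]⟩] (.ndet 0 [⟨1, [(4, 1)]⟩] (.ddet 1 [⟨1, [(4, 1)]⟩] (.ndet 0 [⟨1, [(0, 1)]⟩] (.ddet 1 [⟨1, [(0, 1)]⟩] s3_12_t7))))))))
def s3_12_t9 : Tree := .ddet 1 [⟨1, [(6, 1)]⟩] (.ndet 0 [⟨1, [(6, 1), (3, 1)]⟩] (.ddet 1 [⟨1, [(6, 1), (3, 1)]⟩] (.ndet 0 [⟨1, [(3, 1)]⟩] (.ddet 1 [⟨1, [(3, 1)]⟩] (.ndet 1 [⟨1, [(6, 1)]⟩] (.ddet 0 [⟨1, [(6, 1)]⟩] (.ndet 1 [⟨1, [(6, 1), (3, 1)]⟩] (.ddet 0 [⟨1, [(6, 1), (3, 1)]⟩] (.leaf 0 [⟨1, []⟩, ⟨1, []⟩, ⟨1, [(3, 1)]⟩, ⟨1, [(6, 1), (3, 1)]⟩, ⟨1, [(6, 1)]⟩, ⟨1, [(3, 1)]⟩])))))))))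
def s3_12_t10 : Tree := .ndet 0 [⟨1, [(3, 1)]⟩] (.ddet 1 [⟨1, [(3, 1)]⟩] (.ndet 1 [⟨1, [(6, 1)]⟩] (.ddet 0 [⟨1, [(6, 1)]⟩] (.ndet 1 [⟨1, [(6, 1), (3, 1)]⟩] (.ddet 0 [⟨1, [(6, 1), (3, 1)]⟩] (.ndet 1 [⟨1, [(3, 1)]⟩] (.ddet 0 [⟨1, [(3, 1)]⟩] (.ndet 0 [⟨1, [(6, 1)]⟩] s3_12_t9))))))))
def s3_12_t11 : Tree := .ddet 1 [⟨1, [(6, 1), (0, 1)]⟩] (.ndet 0 [⟨1, [(6, 1)]⟩] (.ddet 1 [⟨1, [(6, 1)]⟩] (.ndet 0 [⟨1, [(3, 1)]⟩] (.ddet 1 [⟨1, [(3, 1)]⟩] (.ndet 1 [⟨1, [(6, 1), (0, 1)]⟩] (.ddet 0 [⟨1, [(6, 1), (0, 1)]⟩] (.ndet 1 [⟨1, [(6, 1)]⟩] (.ddet 0 [⟨1, [(6, 1)]⟩] (.leaf 0 [⟨1, []⟩, ⟨1, []⟩, ⟨1, [(3, 1)]⟩, ⟨1, [(6, 1)]⟩, ⟨1, [(6, 1), (0, 1)]⟩, ⟨1, []⟩])))))))))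
def s3_12_t12 : Tree := .ndet 0 [⟨1, [(3, 1)]⟩] (.ddet 1 [⟨1, [(3, 2)]⟩] (.ndet 1 [⟨1, [(6, 1), (0, 1)]⟩] (.ddet 0 [⟨1, [(6, 1)]⟩] (.ndet 1 [⟨1, [(6, 1)]⟩] (.ddet 0 [⟨1, [(6, 1)]⟩] (.ndet 1 [⟨1, [(3, 1)]⟩] (.ddet 0 [⟨1, [(3, 1)]⟩] (.ndet 0 [⟨1, [(6, 1), (0, 1)]⟩] s3_12_t11))))))))
def s3_12_t13 : Tree := .dbr (.cons (.ndet 0 [⟨1, [(6, 1)]⟩] (.ddet 1 [⟨1, [(6, 1)]⟩] (.ndet 0 [⟨1, [(6, 1), (3, 1)]⟩] (.ddet 1 [⟨1, [(6, 1), (3, 1)]⟩] s3_12_t10)))) (.cons (.ndet 0 [⟨1, [(6, 1), (0, 1)]⟩] (.ddet 1 [⟨1, [(6, 1)]⟩] (.ndet 0 [⟨1, [(6, 1), (3, 1)]⟩] (.ddet 1 [⟨1, [(6, 1)]⟩] s3_12_t12)))) .nil))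
def s3_12_t14 : Tree := .ddet 1 [⟨1, [(5, 1), (1, 2)]⟩] (.ndet 0 [⟨1, [(5, 1), (1, 1)]⟩] (.ddet 1 [⟨1, [(5, 1), (1, 1)]⟩] (.ndet 0 [⟨2, [(0, 1)]⟩] (.ddet 1 [⟨2, [(0, 1)]⟩] (.ndet 1 [⟨1, [(5, 1), (1, 2)]⟩] (.ddet 0 [⟨1, [(5, 1), (1, 2)]⟩] (.ndet 1 [⟨1, [(5, 1), (1, 1)]⟩] (.ddet 0 [⟨1, [(5, 1), (1, 1)]⟩] (.leaf 0 [⟨1, []⟩, ⟨1, []⟩, ⟨2, [(0, 1)]⟩, ⟨1, [(5, 1), (1, 1)]⟩, ⟨1, [(5, 1), (1, 2)]⟩, ⟨1, [(1, 1)]⟩])))))))))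
def s3_12_t15 : Tree := .ndet 0 [⟨2, [(0, 1)]⟩] (.ddet 1 [⟨2, [(0, 1)]⟩] (.ndet 1 [⟨1, [(5, 1), (1, 2)]⟩] (.ddet 0 [⟨1, [(5, 1), (1, 2)]⟩] (.ndet 1 [⟨1, [(5, 1), (1, 1)]⟩] (.ddet 0 [⟨1, [(5, 1), (1, 1)]⟩] (.ndet 1 [⟨2, [(0, 1)]⟩] (.ddet 0 [⟨2, [(0, 1)]⟩] (.ndet 0 [⟨1, [(5, 1), (1, 2)]⟩] s3_12_t14))))))))
def s3_12_t16 : Tree := .ddet 0 [⟨1, [(5, 1)]⟩] (.ndet 1 [⟨1, [(5, 1), (1, 1)]⟩] (.ddet 0 [⟨1, [(5, 1), (1, 1)]⟩] (.ndet 1 [⟨2, [(0, 1)]⟩] (.ddet 0 [⟨2, [(0, 1)]⟩] (.ndet 0 [⟨1, [(5, 1), (1, 2)]⟩] (.ddet 1 [⟨1, [(5, 1), (1, 2)]⟩] (.ndet 0 [⟨1, [(5, 1), (1, 1)]⟩] (.ddet 1 [⟨1, [(5, 1), (1, 1)]⟩] s3_12_t15))))))))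
def s3_12_t17 : Tree := .nbr (.cons (.ddet 1 [⟨1, [(0, 2)]⟩] (.ndet 1 [⟨1, [(4, 1), (2, 1)]⟩] (.ddet 0 [⟨1, [(4, 1)]⟩] (.ndet 1 [⟨1, [(4, 1)]⟩] s3_12_t8)))) (.cons (.dbr (.cons (.ndet 1 [⟨1, [(5, 1)]⟩] (.ddet 0 [⟨1, [(5, 1)]⟩] (.ndet 1 [⟨1, [(5, 1), (2, 1)]⟩] (.ddet 0 [⟨1, [(5, 1), (2, 1)]⟩] (.ndet 1 [⟨1, [(2, 1)]⟩] s3_12_t13))))) (.cons (.ndet 1 [⟨1, [(5, 1), (1, 2)]⟩] s3_12_t16) .nil))) .nil))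
def s3_12_t18 : Tree := .nbr (.cons (.ddet 1 [⟨1, [(0, 1)]⟩] (.ndet 0 [⟨1, [(3, 1)]⟩] (.ddet 1 [⟨1, [(3, 1)]⟩] s3_12_t5))) (.cons (.ddet 1 [⟨1, [(1, 1)]⟩] (.ndet 0 [⟨1, [(3, 1), (1, 1)]⟩] (.ddet 1 [⟨1, [(3, 1)]⟩] (.ndet 0 [⟨1, [(3, 1), (0, 1)]⟩] (.ddet 1 [⟨1, [(3, 1)]⟩] s3_12_t17))))) .nil))
def s3_12_t19 : Tree := .ddet 1 [⟨1, [(2, 1)]⟩] (.ndet 0 [⟨1, [(2, 1), (1, 1)]⟩] (.ddet 1 [⟨1, [(2, 1), (1, 1)]⟩] (.ndet 1 [⟨1, [(0, 1)]⟩] (.ddet 0 [⟨1, [(0, 1)]⟩] (.ndet 1 [⟨1, [(2, 1)]⟩] (.ddet 0 [⟨1, [(2, 1)]⟩] (.ndet 1 [⟨1, [(2, 1), (1, 1)]⟩] (.ddet 0 [⟨1, [(2, 1), (1, 1)]⟩] s3_12_t18))))))))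
def s3_12_l0 : Loop := ⟨[⟨[1, -1, 1], 980000⟩, ⟨[-1, 1, -1], -1020000⟩], [1], 6000000, [-1, 1], 6000000, 100000000, 3000200, 4, [⟨1, [⟨1, 1, 0, []⟩], 0, [⟨1, 1, 0, [(3, 1)]⟩]⟩, ⟨0, [⟨1, 0, 1, []⟩], 1, [⟨1, 0, 1, []⟩]⟩, ⟨0, [⟨2, 1, 1, [(1, 1)]⟩], 1, [⟨2, 1, 1, [(1, 1)]⟩]⟩, ⟨0, [⟨1, 1, 0, []⟩], 1, [⟨1, 1, 0, []⟩]⟩, ⟨1, [⟨1, 0, 1, []⟩], 0, [⟨1, 0, 1, []⟩]⟩, ⟨1, [⟨2, 1, 1, [(1, 1)]⟩], 0, [⟨2, 1, 1, [(1, 1)]⟩]⟩], [⟨1, []⟩, ⟨1, []⟩], ⟨1, []⟩, ⟨1, []⟩, ⟨1, []⟩⟩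
def s3_12_n0 : Node := ⟨[], [0, 1], 0, (some s3_12_l0), (.ndet 1 [⟨1, [(2, 1), (1, 1)]⟩] (.ddet 0 [⟨1, [(4, 1), (2, 1), (1, 1)]⟩] (.ndet 0 [⟨1, [(0, 1)]⟩] (.ddet 1 [⟨1, [(0, 1)]⟩] (.ndet 0 [⟨1, [(2, 1)]⟩] s3_12_t19)))))⟩
def s3_12 : Sys := ⟨[(0, -1000000), (1, 0)], [(2, -1000000), (3, 0)], 3, [s3_12_n0], [12000000, 106000000, 95000000, 0], (.leaf 0 [⟨1, []⟩, ⟨1, []⟩, ⟨1, []⟩, ⟨1, []⟩, ⟨1, []⟩])⟩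

theorem s3_12_ok : s3_12.ok = true := by decide +kernel

def s3_16_t0 : Tree := .ddet 0 [] (.ndet 1 [⟨1, [(0, 1)]⟩] (.ddet 0 [] (.ndet 1 [⟨210688, [(7, 9881), (5, 433), (1, 10009), (0, 284513)]⟩] (.ddet 0 [] (.ndet 1 [⟨1053440, [(7, 102077), (5, 2165), (1, 102717), (0, 1422565)]⟩] (.ddet 0 [] (.ndet 1 [⟨263360, [(7, 34379), (5, 595), (1, 34859), (0, 226435)]⟩] (.ddet 0 [] (.leaf 0 [⟨295300, [(11, 413460), (7, 23417), (5, 910), (1, 24027)]⟩, ⟨147650, [(11, 206730), (7, 4326), (5, 455), (1, 4631)]⟩, ⟨1, [(0, 1)]⟩, ⟨1053440, [(7, 36480), (5, 13166), (3, 564531), (0, 2234315)]⟩, ⟨1053440, [(7, 32640), (5, 296798), (3, 843403), (0, 4045795)]⟩, ⟨1053440,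 [(7, 23040), (5, 1005878), (3, 1540583), (0, 8574495)]⟩, ⟨1053440, [(7, 378240), (5, 52478), (3, 237403), (0, 1925555)]⟩, ⟨210688, [(7, 72960), (5, 209038), (3, 242691), (0, 1653147)]⟩, ⟨1053440, [(7, 209453), (5, 199205), (1, 599213), (0, 3508885)]⟩, ⟨210688, [(7, 234413), (5, 43173), (1, 315053), (0, 1969813)]⟩, ⟨210688, [(7, 44817), (5, 113129), (1, 54417), (0, 640025)]⟩, ⟨1053440, [(7, 1186697), (5, 582305), (1, 1248137), (0, 9540305)]⟩, ⟨263360, [(7, 21211), (5, 595), (1, 21691), (0, 226435)]⟩])))))))))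
def s3_16_t1 : Tree := .ddet 0 [] (.ndet 1 [⟨1033650, [(11, 2845130), (8, 1934), (6, 2705), (2, 6019)]⟩] (.ddet 0 [] (.ndet 1 [⟨2067300, [(11, 5690260), (8, 107233), (6, 5410), (2, 115403)]⟩] (.ddet 0 [] (.ndet 1 [⟨1033650, [(11, 1811480), (8, 105299), (6, 2705), (2, 109384)]⟩] (.ddet 0 [] (.ndet 1 [⟨263360, [(8, 34379), (6, 595), (2, 34859), (0, 36925)]⟩] (.ddet 0 [] (.leaf 0 [⟨1053440, [(8, 35439), (6, 215), (2, 36719), (0, 1570265)]⟩, ⟨1, [(0, 1)]⟩, ⟨1033650, [(11, 2845130), (8, 1934), (6, 2705), (2, 6019)]⟩, ⟨368704, [(7, 11540), (6, 113389), (2, 117824), (0, 21007)]⟩, ⟨263360, [(8, 65873), (6, 90425), (2, 150993), (0, 88855)]⟩, ⟨32920, [(8,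 29721), (6, 11675), (2, 40661), (0, 34185)]⟩, ⟨526720, [(6, 46838), (4, 137303), (2, 122880), (0, 280465)]⟩, ⟨526720, [(6, 536474), (4, 618609), (2, 129600), (0, 797415)]⟩, ⟨105344, [(8, 55049), (6, 19521), (2, 31625), (0, 32527)]⟩, ⟨526720, [(8, 756551), (6, 105935), (2, 646151), (0, 679585)]⟩, ⟨263360, [(8, 81280), (6, 42214), (4, 127879), (0, 206545)]⟩, ⟨65840, [(8, 19480), (6, 72598), (4, 92973), (0, 116255)]⟩, ⟨263360, [(8, 21211), (6, 595), (2, 21691), (0, 36925)]⟩])))))))))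
def s3_16_t2 : Tree := .split [-1, 0, 0, 1] (-2000) (.leaf 0 [⟨1053440, [(9, 88111), (7, 215), (3, 89391), (2, 516825)]⟩, ⟨1053440, [(9, 35439), (7, 215), (3, 36719), (2, 516825)]⟩, ⟨1, [(0, 1)]⟩, ⟨1053440, [(9, 36480), (7, 13166), (5, 564531), (2, 276927285)]⟩, ⟨1053440, [(9, 32640), (7, 296798), (5, 843403), (2, 273008925)]⟩, ⟨1053440, [(9, 23040), (7, 1005878), (5, 1540583), (2, 263213025)]⟩, ⟨1053440, [(9, 378240), (7, 52478), (5, 237403), (2, 60227405)]⟩, ⟨210688, [(9, 72960), (7, 209038), (5, 242691), (2, 9302629)]⟩, ⟨1053440, [(9, 209453), (7, 199205), (3, 599213), (0, 71982485)]⟩, ⟨210688, [(9, 234413), (7, 43173), (3, 315053), (0, 17139349)]⟩,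 ⟨210688, [(9, 44817), (7, 113129), (3, 54417), (0, 57736473)]⟩, ⟨1053440, [(9, 1186697), (7, 582305), (3, 1248137), (0, 302396625)]⟩, ⟨263360, [(9, 21211), (7, 595), (3, 21691), (0, 489795)]⟩]) (.ndet 1 [⟨263360, [(9, 34379), (7, 595), (3, 34859), (1, 226435)]⟩] (.ddet 0 [] (.leaf 0 [⟨1053440, [(9, 35439), (7, 215), (3, 36719), (0, 1570265)]⟩, ⟨1, [(0, 1)]⟩, ⟨210688, [(9, 9881), (7, 433), (3, 10009), (1, 495201)]⟩, ⟨368704, [(8, 11540), (7, 113389), (3, 117824), (1, 53809777)]⟩, ⟨263360, [(9, 65873), (7, 90425), (3, 150993), (1, 38888425)]⟩, ⟨32920, [(9, 29721), (7, 11675), (3, 40661), (1, 5002575)]⟩, ⟨526720, [(7, 46838), (5, 137303), (3, 122880),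 (0, 57166225)]⟩, ⟨526720, [(7, 536474), (5, 618609), (3, 129600), (0, 53996135)]⟩, ⟨105344, [(9, 23424), (7, 51146), (5, 31625), (1, 11976689)]⟩, ⟨526720, [(9, 110400), (7, 752086), (5, 646151), (1, 63053535)]⟩, ⟨263360, [(9, 123494), (5, 85665), (3, 42214), (0, 37076945)]⟩, ⟨65840, [(9, 92078), (5, 20375), (3, 72598), (0, 8872975)]⟩, ⟨263360, [(9, 21211), (7, 595), (3, 21691), (1, 226435)]⟩])))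
def s3_16_t3 : Tree := .nbr (.cons s3_16_t1 (.cons (.ddet 0 [] (.ndet 1 [⟨210688, [(8, 9881), (6, 433), (2, 10009), (0, 495201)]⟩] (.ddet 0 [] (.ndet 1 [⟨1053440, [(8, 102077), (6, 2165), (2, 102717), (0, 2476005)]⟩] (.ddet 0 [] (.ndet 1 [⟨263360, [(8, 34379), (6, 595), (2, 34859), (0, 489795)]⟩] (.ddet 0 [] s3_16_t2))))))) .nil))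
def s3_16_t4 : Tree := .nbr (.cons (.ddet 0 [] (.ndet 0 [⟨210688, [(7, 9881), (5, 433), (1, 10009), (0, 73825)]⟩] (.ddet 0 [] (.ndet 0 [⟨20, [(7, 1), (1, 1)]⟩] (.ddet 0 [] (.ndet 0 [⟨147650, [(11, 206730), (7, 4326), (5, 455), (1, 4631)]⟩] s3_16_t0)))))) (.cons (.ddet 0 [] (.ndet 0 [⟨1033650, [(10, 2845130), (7, 1934), (5, 2705), (1, 6019)]⟩] (.ddet 0 [] (.ndet 0 [⟨20, [(7, 1), (1, 1)]⟩] (.ddet 0 [] (.ndet 0 [⟨1053440, [(7, 35439), (5, 215), (1, 36719), (0, 516825)]⟩] (.ddet 0 [] s3_16_t3))))))) .nil))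
def s3_16_n0 : Node := ⟨[⟨[0, 1, 0, -1], -200⟩, ⟨[0, 1, -1], -200⟩, ⟨[-1, 1], -200⟩, ⟨[-411, 515, 86, -455], 10413148⟩, ⟨[-411, 517, 86, -455], 19647171⟩, ⟨[-411, 522, 86, -455], 42699698⟩, ⟨[49, -315, 512, -305], 10599003⟩, ⟨[49, -308, 512, -305], 42874641⟩, ⟨[-49, 321, -512, 305], 16758629⟩, ⟨[-49, 328, -512, 305], 49034266⟩, ⟨[411, -509, -86, 455], 16931472⟩, ⟨[411, -502, -86, 455], 49209209⟩], [0, 1], 0, none, (.ndet 1 [⟨147650, [(10, 206730), (6, 4326), (4, 455), (0, 4631)]⟩] (.ddet 0 [] s3_16_t4))⟩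
def s3_16 : Sys := ⟨[(0, -1000), (1, 0)], [(4, -1000)], 4, [s3_16_n0], [6947020, 9872415, 9400170, 6625196], (.leaf 0 [⟨1, []⟩, ⟨1, []⟩, ⟨1, []⟩, ⟨1, []⟩, ⟨1, []⟩, ⟨1, []⟩, ⟨1, []⟩, ⟨1, []⟩, ⟨1, []⟩, ⟨1, []⟩, ⟨1, []⟩, ⟨1, []⟩])⟩

theorem s3_16_ok : s3_16.ok = true := by decide +kernel

def s3_28_t0 : Tree := .ddet 1 [⟨1, [(3, 1), (0, 1)]⟩, ⟨1, [(2, 1)]⟩] (.ndet 0 [⟨1, [(3, 1)]⟩] (.ddet 2 [⟨1, [(3, 2), (0, 1)]⟩, ⟨1, [(3, 1), (0, 1)]⟩] (.ndet 0 [⟨1, [(3, 1)]⟩] (.ddet 2 [⟨1, [(3, 1), (2, 1)]⟩, ⟨1, [(3, 1)]⟩] (.ndet 0 [⟨1, [(2, 1)]⟩] (.ddet 2 [⟨1, [(2, 1)]⟩, ⟨1, [(2, 1)]⟩] (.ndet 1 [⟨1, [(3, 1), (0, 1)]⟩] (.ddet 0 [⟨1, [(3, 1), (0, 1)]⟩, ⟨1, [(3,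 1), (0, 1)]⟩] (.leaf 0 [⟨1, []⟩, ⟨1, []⟩, ⟨1, []⟩, ⟨1, []⟩, ⟨1, [(2, 1)]⟩, ⟨1, [(3, 1)]⟩, ⟨1, [(3, 1), (0, 1)]⟩, ⟨1, []⟩])))))))))
def s3_28_t1 : Tree := .ndet 0 [⟨1, [(2, 1)]⟩] (.ddet 2 [⟨1, [(2, 2)]⟩, ⟨1, [(2, 2)]⟩] (.ndet 1 [⟨1, [(3, 1), (0, 1)]⟩] (.ddet 0 [⟨1, [(3, 1)]⟩, ⟨1, [(3, 1)]⟩] (.ndet 1 [⟨1, [(3, 1)]⟩] (.ddet 0 [⟨1, [(3, 1)]⟩, ⟨1, [(3, 2)]⟩] (.ndet 1 [⟨1, [(2, 1)]⟩] (.ddet 0 [⟨1, [(2, 1)]⟩, ⟨1, [(3, 1), (2, 1)]⟩] (.ndet 0 [⟨1, [(3, 1), (0, 1)]⟩] s3_28_t0))))))))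
def s3_28_t2 : Tree := .ddet 0 [⟨1, [(3, 1), (2, 1)]⟩, ⟨1, [(3, 2), (2, 1)]⟩] (.ndet 1 [⟨1, [(2, 1)]⟩] (.ddet 1 [⟨1, [(0, 1)]⟩, ⟨1, [(3, 1), (2, 1)]⟩] (.ndet 0 [⟨1, [(3, 1), (0, 1)]⟩] (.ddet 1 [⟨1, [(3, 1)]⟩, ⟨1, [(2, 1)]⟩] (.ndet 0 [⟨1, [(3, 1), (2, 1)]⟩] (.ddet 2 [⟨1, [(3, 2)]⟩, ⟨1, [(3, 1)]⟩] (.ndet 0 [⟨1, [(3, 1), (2, 1)]⟩] (.ddet 2 [⟨1, [(3, 1), (2, 2)]⟩, ⟨1, [(3, 1)]⟩] s3_28_t1))))))))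
def s3_28_t3 : Tree := .ndet 0 [⟨1, [(3, 1)]⟩] (.ddet 2 [⟨1, [(3, 2), (2, 1)]⟩, ⟨1, [(3, 1)]⟩] (.ndet 0 [⟨1, [(3, 1), (2, 1)]⟩] (.ddet 2 [⟨1, [(3, 1), (2, 1)]⟩, ⟨1, [(3, 1), (2, 1)]⟩] (.ndet 1 [⟨1, [(0, 1)]⟩] (.ddet 0 [⟨1, [(0, 1)]⟩, ⟨1, [(0, 1)]⟩] (.ndet 1 [⟨1, [(3, 1)]⟩] (.ddet 0 [⟨1, [(3, 1)]⟩, ⟨1, [(3, 1), (0, 1)]⟩] (.ndet 1 [⟨1, [(3, 1), (2, 1)]⟩] s3_28_t2))))))))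
def s3_28_t4 : Tree := .ddet 1 [⟨1, [(5, 1), (3, 1)]⟩, ⟨1, [(0, 1)]⟩] (.ndet 0 [⟨1, [(5, 1)]⟩] (.ddet 2 [⟨1, [(5, 2), (3, 1)]⟩, ⟨1, [(5, 1), (3, 1)]⟩] (.ndet 0 [⟨1, [(5, 1)]⟩] (.ddet 2 [⟨1, [(5, 1), (0, 1)]⟩, ⟨1, [(5, 1)]⟩] (.ndet 0 [⟨1, [(0, 1)]⟩] (.ddet 2 [⟨1, [(0, 1)]⟩, ⟨1, [(0, 1)]⟩] (.ndet 1 [⟨1, [(5, 1), (3, 1)]⟩] (.ddet 0 [⟨1, [(5, 1), (3, 1)]⟩, ⟨1, [(5, 1), (3, 1)]⟩] (.leaf 0 [⟨1, []⟩, ⟨1, []⟩, ⟨1, []⟩, ⟨1, []⟩, ⟨1, [(0, 1)]⟩, ⟨1, [(5, 1)]⟩, ⟨1, [(5, 1), (3, 1)]⟩, ⟨1, []⟩])))))))))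
def s3_28_t5 : Tree := .ndet 0 [⟨1, [(0, 1)]⟩] (.ddet 2 [⟨1, [(0, 2)]⟩, ⟨1, [(0, 2)]⟩] (.ndet 1 [⟨1, [(5, 1), (3, 1)]⟩] (.ddet 0 [⟨1, [(5, 1)]⟩, ⟨1, [(5, 1)]⟩] (.ndet 1 [⟨1, [(5, 1)]⟩] (.ddet 0 [⟨1, [(5, 1)]⟩, ⟨1, [(5, 2)]⟩] (.ndet 1 [⟨1, [(0, 1)]⟩] (.ddet 0 [⟨1, [(0, 1)]⟩, ⟨1, [(5, 1), (0, 1)]⟩] (.ndet 0 [⟨1, [(5, 1), (3, 1)]⟩] s3_28_t4))))))))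
def s3_28_t6 : Tree := .ddet 1 [⟨1, [(6, 1), (1, 1)]⟩, ⟨1, [(0, 1)]⟩] (.ndet 0 [⟨1, [(6, 1)]⟩] (.ddet 2 [⟨1, [(6, 2), (1, 1)]⟩, ⟨1, [(6, 1), (1, 1)]⟩] (.ndet 0 [⟨1, [(6, 1)]⟩] (.ddet 2 [⟨1, [(6, 1), (0, 1)]⟩, ⟨1, [(6, 1)]⟩] (.ndet 0 [⟨1, [(0, 1)]⟩] (.ddet 2 [⟨1, [(0, 1)]⟩, ⟨1, [(0, 1)]⟩] (.ndet 1 [⟨1, [(6, 1), (1, 1)]⟩] (.ddet 0 [⟨1, [(6, 1), (1, 1)]⟩, ⟨1, [(6, 1), (1, 1)]⟩] (.leaf 0 [⟨1, []⟩, ⟨1, []⟩, ⟨1, []⟩, ⟨1, []⟩, ⟨1, [(0, 1)]⟩, ⟨1, [(6, 1)]⟩, ⟨1, [(6, 1), (1, 1)]⟩, ⟨1, []⟩])))))))))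
def s3_28_t7 : Tree := .ddet 1 [⟨1, [(11, 1)]⟩, ⟨1, [(2, 1)]⟩] (.ndet 0 [⟨1, [(11, 1), (2, 1)]⟩] (.ddet 2 [⟨1, [(11, 2), (2, 1)]⟩, ⟨1, [(11, 1)]⟩] (.ndet 0 [⟨1, [(11, 1), (2, 1)]⟩] (.ddet 2 [⟨1, [(11, 1), (2, 2)]⟩, ⟨1, [(11, 1), (2, 1)]⟩] (.ndet 0 [⟨1, [(2, 1)]⟩] (.ddet 2 [⟨1, [(2, 1)]⟩, ⟨1, [(2, 1)]⟩] (.ndet 1 [⟨1, [(11, 1)]⟩] (.ddet 0 [⟨1, [(11, 1)]⟩, ⟨1, [(11, 1)]⟩] (.leaf 0 [⟨1, []⟩, ⟨1, []⟩, ⟨1, []⟩, ⟨1, []⟩, ⟨1, [(2, 1)]⟩, ⟨1, [(11, 1), (2, 1)]⟩, ⟨1, [(11, 1)]⟩, ⟨1, [(2, 1)]⟩])))))))))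
def s3_28_t8 : Tree := .ndet 1 [⟨1, [(10, 1)]⟩] (.ddet 0 [⟨1, [(10, 1)]⟩, ⟨1, [(10, 1)]⟩] (.split [0, -1] (159999846) (.leaf 0 [⟨1, []⟩, ⟨1, []⟩, ⟨1, []⟩, ⟨1, []⟩, ⟨1, [(0, 1)]⟩, ⟨1, [(11, 1), (0, 1)]⟩, ⟨1, [(11, 1)]⟩, ⟨1, [(0, 1)]⟩]) (.ndet 1 [⟨1, [(11, 1), (2, 1)]⟩] (.ddet 0 [⟨1, [(11, 1), (2, 1)]⟩, ⟨1, [(11, 2), (2, 1)]⟩] (.ndet 1 [⟨1, [(2, 1)]⟩] (.ddet 0 [⟨1, [(2, 1)]⟩, ⟨1, [(11, 1), (2, 2)]⟩] (.ndet 0 [⟨1, [(11, 1)]⟩] s3_28_t7)))))))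
def s3_28_t9 : Tree := .ddet 1 [⟨1, [(10, 1), (1, 1)]⟩, ⟨1, [(7, 1)]⟩] (.ndet 0 [⟨1, [(10, 1)]⟩] (.ddet 2 [⟨1, [(10, 2), (1, 1)]⟩, ⟨1, [(10, 1), (1, 1)]⟩] (.ndet 0 [⟨1, [(10, 1)]⟩] (.ddet 2 [⟨1, [(10, 1), (7, 1)]⟩, ⟨1, [(10, 1)]⟩] (.ndet 0 [⟨1, [(7, 1)]⟩] (.ddet 2 [⟨1, [(7, 1)]⟩, ⟨1, [(7, 1)]⟩] (.ndet 1 [⟨1, [(10, 1), (1, 1)]⟩] (.ddet 0 [⟨1, [(10, 1), (1, 1)]⟩, ⟨1, [(10, 1), (1, 1)]⟩] (.leaf 0 [⟨1, []⟩, ⟨1, []⟩, ⟨1, []⟩, ⟨1, []⟩, ⟨1, [(7, 1)]⟩, ⟨1, [(10, 1)]⟩, ⟨1, [(10, 1), (1, 1)]⟩, ⟨1, []⟩])))))))))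
def s3_28_t10 : Tree := .ndet 0 [⟨1, [(7, 1)]⟩] (.ddet 2 [⟨1, [(7, 2)]⟩, ⟨1, [(7, 2)]⟩] (.ndet 1 [⟨1, [(10, 1), (1, 1)]⟩] (.ddet 0 [⟨1, [(10, 1)]⟩, ⟨1, [(10, 1)]⟩] (.ndet 1 [⟨1, [(10, 1)]⟩] (.ddet 0 [⟨1, [(10, 1)]⟩, ⟨1, [(10, 2)]⟩] (.ndet 1 [⟨1, [(7, 1)]⟩] (.ddet 0 [⟨1, [(7, 1)]⟩, ⟨1, [(10, 1), (7, 1)]⟩] (.ndet 0 [⟨1, [(10, 1), (1, 1)]⟩] s3_28_t9))))))))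
def s3_28_t11 : Tree := .dbr (.cons (.ndet 0 [⟨1, [(10, 1)]⟩] (.ddet 1 [⟨1, [(10, 1)]⟩, ⟨1, [(1, 1)]⟩] (.ndet 0 [⟨1, [(10, 1), (1, 1)]⟩] (.ddet 2 [⟨1, [(10, 2), (1, 1)]⟩, ⟨1, [(10, 1)]⟩] (.ndet 0 [⟨1, [(10, 1), (1, 1)]⟩] (.ddet 2 [⟨1, [(10, 1), (1, 2)]⟩, ⟨1, [(10, 1), (1, 1)]⟩] (.ndet 0 [⟨1, [(1, 1)]⟩] (.ddet 2 [⟨1, [(1, 1)]⟩, ⟨1, [(1, 1)]⟩] s3_28_t8)))))))) (.cons (.ndet 0 [⟨1, [(10, 1), (1, 1)]⟩] (.ddet 1 [⟨1, [(10, 1)]⟩, ⟨1, [(7, 1)]⟩] (.ndet 0 [⟨1, [(10, 1), (7, 1)]⟩] (.ddet 2 [⟨1, [(10, 2)]⟩, ⟨1, [(10, 1)]⟩] (.ndet 0 [⟨1, [(10, 1), (7, 1)]⟩] (.ddet 2 [⟨1, [(10, 1), (7, 2)]⟩, ⟨1, [(10, 1)]⟩] s3_28_t10)))))) (.cons (.prune [(10, 1), (9, 2),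 (1, 1)]) .nil)))
def s3_28_t12 : Tree := .ddet 1 [⟨1, [(8, 1), (2, 2)]⟩, ⟨2, [(1, 1)]⟩] (.ndet 0 [⟨1, [(8, 1), (2, 1)]⟩] (.ddet 2 [⟨1, [(8, 2), (2, 3)]⟩, ⟨1, [(8, 1), (2, 2)]⟩] (.ndet 0 [⟨1, [(8, 1), (2, 1)]⟩] (.ddet 2 [⟨1, [(8, 1)]⟩, ⟨1, [(8, 1), (2, 1)]⟩] (.ndet 0 [⟨2, [(1, 1)]⟩] (.ddet 2 [⟨2, [(1, 1)]⟩, ⟨2, [(1, 1)]⟩] (.ndet 1 [⟨1, [(8, 1), (2, 2)]⟩] (.ddet 0 [⟨1, [(8, 1), (2, 2)]⟩, ⟨1, [(8, 1), (2, 2)]⟩] (.leaf 0 [⟨1, []⟩, ⟨1, []⟩, ⟨1, []⟩, ⟨1, []⟩, ⟨2, [(1, 1)]⟩, ⟨1, [(8, 1), (2, 1)]⟩, ⟨1, [(8, 1), (2, 2)]⟩, ⟨1, [(2, 1)]⟩])))))))))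
def s3_28_t13 : Tree := .dbr (.cons (.ndet 1 [⟨1, [(8, 1)]⟩] (.ddet 0 [⟨1, [(8, 1)]⟩, ⟨2, [(8, 2), (0, 1)]⟩] (.ndet 1 [⟨1, [(8, 1), (5, 1)]⟩] (.ddet 0 [⟨1, [(8, 1), (5, 1)]⟩, ⟨1, [(8, 2), (5, 1)]⟩] (.ndet 1 [⟨1, [(5, 1)]⟩] s3_28_t11))))) (.cons (.prune [(1, 1), (0, 1)]) (.cons (.ndet 1 [⟨1, [(8, 1), (2, 2)]⟩] (.ddet 0 [⟨1, [(8, 1)]⟩, ⟨1, [(8, 1), (2, 1)]⟩] (.ndet 1 [⟨1, [(8, 1), (2, 1)]⟩] (.ddet 0 [⟨1, [(8, 1), (2, 1)]⟩, ⟨1, [(8, 2), (2, 1)]⟩] (.ndet 1 [⟨2, [(1, 1)]⟩] (.ddet 0 [⟨2, [(1, 1)]⟩, ⟨1, [(8, 1)]⟩] (.ndet 0 [⟨1, [(8, 1), (2, 2)]⟩] s3_28_t12))))))) .nil)))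
def s3_28_t14 : Tree := .nbr (.cons (.ddet 2 [⟨1, [(0, 2)]⟩, ⟨1, [(0, 1)]⟩] (.ndet 1 [⟨1, [(6, 1), (1, 1)]⟩] (.ddet 0 [⟨1, [(6, 1)]⟩, ⟨1, [(6, 1), (1, 1)]⟩] (.ndet 1 [⟨1, [(6, 1)]⟩] (.ddet 0 [⟨1, [(6, 1)]⟩, ⟨1, [(6, 2)]⟩] (.ndet 1 [⟨1, [(0, 1)]⟩] (.ddet 0 [⟨1, [(0, 1)]⟩, ⟨1, [(6, 1), (0, 1)]⟩] (.ndet 0 [⟨1, [(6, 1), (1, 1)]⟩] s3_28_t6)))))))) (.cons s3_28_t13 .nil))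
def s3_28_t15 : Tree := .dbr (.cons (.prune [(5, 1), (1, 1)]) (.cons (.ndet 0 [⟨1, [(5, 1), (0, 1)]⟩] (.ddet 2 [⟨1, [(5, 2)]⟩, ⟨1, [(5, 1)]⟩] (.ndet 0 [⟨1, [(5, 1), (0, 1)]⟩] (.ddet 2 [⟨1, [(5, 1), (0, 2)]⟩, ⟨1, [(5, 1)]⟩] s3_28_t5)))) (.cons (.ndet 0 [⟨1, [(5, 1)]⟩] (.ddet 2 [⟨1, [(5, 2)]⟩, ⟨1, [(5, 1)]⟩] (.ndet 0 [⟨1, [(5, 1), (2, 1)]⟩] (.ddet 2 [⟨1, [(5, 1), (2, 1)]⟩, ⟨1, [(5, 1)]⟩] s3_28_t14)))) .nil)))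
def s3_28_t16 : Tree := .ndet 1 [⟨1, [(2, 1), (1, 1)]⟩] (.ddet 0 [⟨1, [(2, 1), (1, 1)]⟩, ⟨1, [(6, 1), (2, 2), (1, 1)]⟩] (.nbr (.cons (.ddet 1 [⟨1, [(0, 1)]⟩, ⟨1, [(3, 1), (2, 1)]⟩] (.ndet 0 [⟨1, [(3, 1)]⟩] (.ddet 2 [⟨1, [(3, 1), (0, 1)]⟩, ⟨1, [(0, 1)]⟩] s3_28_t3))) (.cons (.ddet 1 [⟨1, [(1, 1)]⟩, ⟨1, [(3, 1), (0, 1)]⟩] (.ndet 0 [⟨1, [(3, 1), (1, 1)]⟩] s3_28_t15)) .nil))))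
def s3_28_l0 : Loop := ⟨[⟨[1, -1, 1], 59500000⟩, ⟨[-1, 1, -1], -60500000⟩, ⟨[1, 0, 0, 1], -30500000⟩, ⟨[-1, 0, 0, -1], 29500000⟩], [1, -1], 200000000, [0, 1], 200000000, 4000000000, 150000200, 4, [⟨1, [⟨2, 1, 1, [(1, 1)]⟩], 0, [⟨2, 1, 1, [(5, 2), (1, 1)]⟩, ⟨1, 0, 1, [(3, 1), (1, 1)]⟩]⟩, ⟨1, [⟨1, 1, 0, []⟩], 0, [⟨1, 1, 0, []⟩, ⟨1, 1, 0, [(5, 1), (1, 1)]⟩]⟩, ⟨0, [⟨1, 0, 1, []⟩], 1, [⟨1, 0, 1, []⟩, ⟨1, 1, 0, []⟩]⟩, ⟨0, [⟨2, 1, 1, [(1, 1)]⟩], 2, [⟨1, 0, 1, [(1, 1)]⟩, ⟨1, 0, 1, []⟩]⟩, ⟨0, [⟨2, 1, 1, [(1, 1)]⟩], 2, [⟨1, 1, 0, [(1, 1)]⟩, ⟨2, 1, 1, [(1, 1)]⟩]⟩, ⟨0, [⟨1, 1, 0, []⟩], 2, [⟨1, 1, 0, []⟩, ⟨1, 1, 0, []⟩]⟩, ⟨1, [⟨1, 0, 1, []⟩], 0, [⟨1, 0, 1,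 []⟩, ⟨1, 0, 1, []⟩]⟩], [⟨1, []⟩, ⟨1, []⟩, ⟨1, []⟩, ⟨1, []⟩], ⟨1, []⟩, ⟨1, []⟩, ⟨1, []⟩⟩
def s3_28_n0 : Node := ⟨[], [1], 0, (some s3_28_l0), (.ndet 1 [⟨1, [(2, 1)]⟩] (.ddet 0 [⟨1, [(6, 1), (2, 1)]⟩, ⟨1, [(4, 1), (2, 1), (0, 1)]⟩] s3_28_t16))⟩
def s3_28 : Sys := ⟨[(0, -30000000), (1, 30000000)], [(2, -30000000), (3, 10000000), (4, 0)], 4, [s3_28_n0], [4200000000, 3800000000, -340000000, -4230000000], (.leaf 0 [⟨1, []⟩, ⟨1, []⟩, ⟨1, []⟩, ⟨1, []⟩, ⟨1, []⟩, ⟨1, []⟩, ⟨1, []⟩])⟩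

theorem s3_28_ok : s3_28.ok = true := by decide +kernel

def s4_1_n0 : Node := ⟨[], [1, 1], 0, none, (.ndet 0 [] (.ddet 0 [] (.leaf 0 [⟨1, []⟩])))⟩
def s4_1 : Sys := ⟨[(2, 80)], [(0, -16)], 2, [s4_1_n0], [32, -16, 0, 0], (.leaf 0 [])⟩

theorem s4_1_ok : s4_1.ok = true := by decide +kernel

def s7_9_n0 : Node := ⟨[⟨[0, 1], 8⟩, ⟨[-1, 1], 24⟩, ⟨[0, 0, -1], -24⟩, ⟨[0, 1], 72⟩, ⟨[-1, 1], 168⟩, ⟨[0, 1], 104⟩, ⟨[-1], 0⟩], [0, 1], 0, none, (.ndet 2 [⟨1, [(1, 1)]⟩, ⟨1, [(2, 1)]⟩] (.ddet 0 [⟨1, [(4, 1)]⟩] (.ndet 1 [⟨1, [(1, 1)]⟩, ⟨1, [(2, 1)]⟩] (.ddet 1 [⟨1, [(1, 1)]⟩] (.leaf 0 [⟨1, [(1, 1)]⟩, ⟨1, [(1, 1)]⟩, ⟨1, [(0, 1)]⟩, ⟨1, [(1, 1)]⟩, ⟨1, [(1, 1)]⟩,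 ⟨1, [(1, 1)]⟩, ⟨1, []⟩, ⟨1, []⟩])))))⟩
def s7_9 : Sys := ⟨[(0, -64), (1, -80), (2, 80)], [(0, 48), (3, 0)], 3, [s7_9_n0], [-48, 160, 0, 0], (.leaf 0 [⟨1, []⟩, ⟨1, []⟩, ⟨1, []⟩, ⟨1, []⟩, ⟨1, []⟩, ⟨1, []⟩, ⟨1, []⟩])⟩

theorem s7_9_ok : s7_9.ok = true := by decide +kernel

def s9_18_t0 : Tree := .ddet 0 [⟨1, [(5, 1)]⟩] (.ndet 0 [⟨1, [(5, 1)]⟩] (.ddet 1 [⟨1, [(5, 2)]⟩] (.ndet 1 [⟨1, [(6, 1), (5, 2)]⟩] (.ddet 0 [⟨1, [(6, 1), (5, 1)]⟩] (.ndet 0 [⟨1, [(6, 1), (5, 2)]⟩] (.ddet 1 [⟨1, [(6, 1)]⟩] (.ndet 1 [⟨1, [(6, 1)]⟩] (.ddet 0 [⟨1, []⟩] (.leaf 0 [⟨1, [(5, 2)]⟩, ⟨1, [(6, 1), (5, 2)]⟩, ⟨1, [(6, 1), (5, 2)]⟩, ⟨1, [(6, 2), (5, 2)]⟩, ⟨1, [(6, 2), (5, 2)]⟩,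 ⟨1, [(6, 1)]⟩, ⟨1, [(6, 2)]⟩, ⟨1, [(5, 2)]⟩, ⟨1, [(5, 4)]⟩, ⟨1, [(6, 2), (5, 4)]⟩, ⟨1, [(6, 2), (5, 4)]⟩, ⟨1, [(6, 2)]⟩, ⟨1, [(6, 2), (5, 2)]⟩, ⟨1, [(6, 1), (5, 1)]⟩])))))))))
def s9_18_n0 : Node := ⟨[⟨[0, 0, 1], 20⟩, ⟨[1, 0, 0, -1], 280⟩, ⟨[0, -1], 284⟩, ⟨[1], 388⟩, ⟨[1], 356⟩, ⟨[0, -1, -1], 216⟩, ⟨[1, 0, -1], 352⟩, ⟨[0, 0, 1], 52⟩, ⟨[0, 0, 2], 72⟩, ⟨[1, 0, 1], 392⟩, ⟨[1, 0, 1], 408⟩, ⟨[1, 0, -1], 320⟩, ⟨[1], 372⟩], [1], 0, none, (.ndet 1 [⟨1, [(5, 1)]⟩] (.ddet 0 [⟨1, [(11, 1)]⟩] (.ndet 0 [⟨1, [(10, 1)]⟩] (.ddet 1 [⟨1, [(6, 1), (5, 1)]⟩] (.ndet 1 [⟨1, [(6, 1), (5, 1)]⟩] (.ddet 0 [⟨1, [(7, 1)]⟩] (.ndet 0 [⟨1, [(6, 1)]⟩] s9_18_t0)))))))⟩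
def s9_18 : Sys := ⟨[(0, -32), (3, 0)], [(1, 0), (4, -32)], 4, [s9_18_n0], [992, -544, 96, 448], (.leaf 0 [⟨1, []⟩, ⟨1, []⟩, ⟨1, []⟩, ⟨1, []⟩, ⟨1, []⟩, ⟨1, []⟩, ⟨1, []⟩, ⟨1, []⟩, ⟨1, []⟩, ⟨1, []⟩, ⟨1, []⟩, ⟨1, []⟩, ⟨1, []⟩])⟩

theorem s9_18_ok : s9_18.ok = true := by decide +kernel

def s13_7_n0 : Node := ⟨[⟨[0, -1], -40⟩, ⟨[0, 0, -1], 8⟩, ⟨[1], 80⟩, ⟨[1, -1], 56⟩, ⟨[1], 96⟩, ⟨[1, -1], 80⟩, ⟨[2], 160⟩, ⟨[1], 72⟩, ⟨[2], 136⟩], [1], 0, none, (.ndet 0 [⟨1, [(8, 1)]⟩, ⟨1, [(7, 1)]⟩] (.ddet 1 [⟨1, [(4, 1)]⟩, ⟨1, [(3, 1)]⟩] (.ndet 1 [⟨1, [(4, 1)]⟩, ⟨1, [(3, 1)]⟩] (.ddet 2 [⟨1, [(4, 1)]⟩, ⟨1, [(4, 2)]⟩] (.ndet 2 [⟨1, [(4, 1)]⟩, ⟨1, [(4, 2)]⟩] (.ddet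 0 [⟨1, []⟩, ⟨1, [(4, 1)]⟩] (.leaf 0 [⟨1, []⟩, ⟨1, [(4, 1)]⟩, ⟨1, [(4, 1)]⟩, ⟨1, [(4, 1)]⟩, ⟨1, [(4, 1)]⟩, ⟨1, [(4, 1)]⟩, ⟨1, [(4, 2)]⟩, ⟨1, [(4, 1)]⟩, ⟨1, [(4, 2)]⟩, ⟨1, []⟩])))))))⟩
def s13_7 : Sys := ⟨[(0, 32), (2, -16), (3, 32)], [(0, 16), (1, 0), (2, 0)], 3, [s13_7_n0], [144, 32, -16, 0], (.leaf 0 [⟨1, []⟩, ⟨1, []⟩, ⟨1, []⟩, ⟨1, []⟩, ⟨1, []⟩, ⟨1, []⟩, ⟨1, []⟩, ⟨1, []⟩, ⟨1, []⟩])⟩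

theorem s13_7_ok : s13_7.ok = true := by decide +kernel

def s17_2_n0 : Node := ⟨[⟨[0, 0, 0, 1], 24⟩, ⟨[0, 0, -1], 24⟩, ⟨[-1], 20⟩, ⟨[0, 1], 36⟩, ⟨[-1], 36⟩], [0, 1, 0, 1], 0, none, (.ndet 1 [⟨1, [(4, 1)]⟩] (.ddet 0 [] (.ndet 0 [⟨1, [(3, 1)]⟩] (.ddet 0 [] (.leaf 0 [⟨1, [(1, 1)]⟩, ⟨1, [(0, 1)]⟩, ⟨1, [(4, 1), (0, 1)]⟩, ⟨1, [(4, 1), (0, 1)]⟩, ⟨1, [(4, 1), (0, 1)]⟩, ⟨1, [(0, 1)]⟩])))))⟩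
def s17_2 : Sys := ⟨[(0, 64), (4, 80)], [(1, 64)], 4, [s17_2_n0], [-80, 80, -32, 96], (.leaf 0 [⟨1, []⟩, ⟨1, []⟩, ⟨1, []⟩, ⟨1, []⟩, ⟨1, []⟩])⟩

theorem s17_2_ok : s17_2.ok = true := by decide +kernel

def s17_3_n0 : Node := ⟨[⟨[0, 0, 0, -1], 44⟩, ⟨[1], 60⟩, ⟨[0, 0, 1], 72⟩, ⟨[1], 84⟩, ⟨[0, -1], 48⟩], [1, 0, 1], 0, none, (.ndet 0 [⟨1, [(4, 1)]⟩] (.ddet 1 [⟨1, [(1, 1)]⟩] (.ndet 1 [⟨1, [(2, 1)]⟩] (.ddet 0 [⟨1, [(1, 1)]⟩] (.leaf 0 [⟨1, [(0, 1)]⟩, ⟨1, [(2, 1)]⟩, ⟨1, [(1, 1)]⟩, ⟨1, [(2, 1)]⟩, ⟨1, [(1, 1)]⟩, ⟨1, []⟩])))))⟩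
def s17_3 : Sys := ⟨[(0, 16), (4, 0)], [(0, -16), (1, 0)], 4, [s17_3_n0], [272, -64, 80, -240], (.leaf 0 [⟨1, []⟩, ⟨1, []⟩, ⟨1, []⟩, ⟨1, []⟩, ⟨1, []⟩])⟩

theorem s17_3_ok : s17_3.ok = true := by decide +kernel

def s19_1_n0 : Node := ⟨[⟨[1], -72⟩, ⟨[1, 0, 0, -1], -48⟩, ⟨[1, 0, -1], -96⟩, ⟨[1, -1], -160⟩], [1], 0, none, (.ndet 1 [⟨1, [(3, 1)]⟩, ⟨1, [(2, 1)]⟩] (.ddet 0 [] (.leaf 0 [⟨1, [(3, 1)]⟩, ⟨1, [(1, 1)]⟩, ⟨1, [(0, 1)]⟩, ⟨1, []⟩, ⟨1, []⟩])))⟩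
def s19_1 : Sys := ⟨[(0, -64), (1, 80), (4, -32)], [(0, -32)], 4, [s19_1_n0], [0, -16, -32, -16], (.leaf 0 [⟨1, []⟩, ⟨1, []⟩, ⟨1, []⟩, ⟨1, []⟩])⟩

theorem s19_1_ok : s19_1.ok = true := by decide +kernel

def s20_5_n0 : Node := ⟨[⟨[0, 1, 0, -1], 19148⟩, ⟨[0, 1], 20480⟩, ⟨[1, 0, -1], 16349⟩, ⟨[1], 16384⟩, ⟨[0, 1], 15360⟩, ⟨[1], 11264⟩], [1], 0, none, (.ndet 0 [⟨1, [(5, 1)]⟩] (.ddet 1 [⟨1, [(4, 1)]⟩] (.ndet 0 [⟨1, [(3, 1)]⟩] (.ddet 1 [⟨1, [(2, 1)]⟩] (.ndet 1 [⟨1, [(4, 1)]⟩] (.ddet 0 [⟨1, []⟩] (.ndet 1 [⟨1, [(2, 1)]⟩] (.ddet 0 [⟨1, []⟩] (.leaf 0 [⟨1, [(4, 1)]⟩, ⟨1, [(4, 1)]⟩, ⟨1, [(2, 1)]⟩, ⟨1, [(2, 1)]⟩, ⟨1, [(4, 1)]⟩, ⟨1, [(2, 1)]⟩, ⟨1, []⟩])))))))))⟩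
def s20_5 : Sys := ⟨[(2, -3072), (4, 3072)], [(0, 1024), (2, -5120)], 4, [s20_5_n0], [18432, 26624, 2048, 2048], (.leaf 0 [⟨1, []⟩, ⟨1, []⟩, ⟨1, []⟩, ⟨1, []⟩, ⟨1, []⟩, ⟨1, []⟩])⟩

theorem s20_5_ok : s20_5.ok = true := by decide +kernel

def s21_13_n0 : Node := ⟨[⟨[0, 1], 176⟩, ⟨[0, 1, 0, -1], 184⟩, ⟨[0, 1], 184⟩, ⟨[0, 1, -1], 392⟩, ⟨[-1], 32⟩, ⟨[0, 0, -1], 208⟩, ⟨[0, 1], 168⟩, ⟨[-1, 1], 192⟩, ⟨[-1], 40⟩, ⟨[0, 1], 144⟩, ⟨[0, 1], 192⟩], [0, 1], 0, none, (.ndet 1 [⟨1, [(0, 1)]⟩, ⟨1, [(9, 1)]⟩] (.ddet 1 [⟨1, [(0, 1)]⟩, ⟨1, [(5, 1), (0, 1)]⟩] (.ndet 0 [⟨1, [(2, 1)]⟩, ⟨1, [(5, 1)]⟩] (.ddet 2 [⟨1, [(0, 1)]⟩, ⟨1, [(2, 1), (0, 1)]⟩] (.ndet 2 [⟨1, [(0,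 1)]⟩, ⟨1, [(0, 1)]⟩] (.ddet 1 [⟨1, []⟩, ⟨1, [(2, 1)]⟩] (.ndet 0 [⟨1, [(0, 1)]⟩, ⟨1, [(2, 1)]⟩] (.ddet 2 [⟨1, []⟩, ⟨1, [(0, 1)]⟩] (.leaf 0 [⟨1, [(0, 1)]⟩, ⟨1, [(0, 1)]⟩, ⟨1, [(0, 1)]⟩, ⟨1, [(0, 2)]⟩, ⟨1, []⟩, ⟨1, [(0, 1)]⟩, ⟨1, [(0, 1)]⟩, ⟨1, [(0, 1)]⟩, ⟨1, []⟩, ⟨1, [(0, 1)]⟩, ⟨1, [(0, 1)]⟩, ⟨1, []⟩])))))))))⟩
def s21_13 : Sys := ⟨[(0, -16), (2, 0), (4, 16)], [(0, -16), (2, -16), (3, 16)], 4, [s21_13_n0], [-48, 368, -384, 16], (.leaf 0 [⟨1, []⟩, ⟨1, []⟩, ⟨1, []⟩, ⟨1, []⟩, ⟨1, []⟩, ⟨1, []⟩, ⟨1, []⟩, ⟨1, []⟩, ⟨1, []⟩, ⟨1, []⟩, ⟨1, []⟩])⟩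

theorem s21_13_ok : s21_13.ok = true := by decide +kernel

def s25_6_n0 : Node := ⟨[⟨[0, 0, 1], 168⟩, ⟨[0, 0, 1, -1], 216⟩, ⟨[-1, 1], 160⟩, ⟨[0, 0, 1], 192⟩, ⟨[0, -1, 1], 200⟩, ⟨[-1, -1, 1], 360⟩, ⟨[-1], 184⟩, ⟨[0, -1], -16⟩, ⟨[0, -2, 1], 144⟩, ⟨[0, -1], -8⟩], [0, 0, 1], 0, none, (.ndet 1 [⟨1, [(6, 1)]⟩, ⟨1, [(8, 1)]⟩] (.ddet 1 [⟨1, [(7, 1)]⟩] (.ndet 2 [⟨1, [(6, 1)]⟩, ⟨1, [(5, 1)]⟩] (.ddet 0 [⟨1, [(5, 1), (3, 1)]⟩] (.ndet 0 [⟨1, [(3, 1)]⟩, ⟨1, [(0, 1)]⟩] (.ddet 1 [⟨1, [(5, 1), (0, 1)]⟩] (.leaf 0 [⟨1, [(5, 1)]⟩, ⟨1, [(5, 1), (3, 1)]⟩, ⟨1, [(6, 1)]⟩, ⟨1, [(5, 1)]⟩, ⟨1, [(5, 1), (0, 1)]⟩, ⟨1, [(5, 2), (0, 1)]⟩, ⟨1, [(5, 1)]⟩, ⟨1, [(0, 1)]⟩, ⟨1,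 [(5, 1), (0, 2)]⟩, ⟨1, [(0, 1)]⟩, ⟨1, [(0, 1)]⟩])))))))⟩
def s25_6 : Sys := ⟨[(0, 16), (3, 32), (4, -16)], [(1, -16), (2, 16)], 4, [s25_6_n0], [-352, 0, 352, -128], (.leaf 0 [⟨1, []⟩, ⟨1, []⟩, ⟨1, []⟩, ⟨1, []⟩, ⟨1, []⟩, ⟨1, []⟩, ⟨1, []⟩, ⟨1, []⟩, ⟨1, []⟩, ⟨1, []⟩])⟩

theorem s25_6_ok : s25_6.ok = true := by decide +kernel

def s25_13_n0 : Node := ⟨[⟨[0, 0, -1], 24⟩, ⟨[0, 0, 0, -1], 16⟩, ⟨[0, 1], -8⟩, ⟨[0, 1, -1], 16⟩, ⟨[0, 1], 0⟩, ⟨[1], 16⟩, ⟨[1, -1], 16⟩, ⟨[1], 24⟩, ⟨[1, 1], 40⟩, ⟨[1], 32⟩, ⟨[1, -1], 40⟩, ⟨[0, 1], 8⟩], [1], 0, none, (.ndet 0 [⟨1, [(11, 1)]⟩, ⟨1, [(10, 1)]⟩] (.ddet 1 [⟨1, [(0, 1)]⟩, ⟨1, [(11, 1), (0, 1)]⟩] (.ndet 1 [⟨1, [(0,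 1)]⟩, ⟨1, [(11, 1), (0, 1)]⟩] (.ddet 1 [⟨1, [(1, 1), (0, 1)]⟩, ⟨1, [(1, 1)]⟩] (.ndet 1 [⟨1, [(1, 1), (0, 1)]⟩, ⟨1, [(1, 1)]⟩] (.ddet 2 [⟨1, [(1, 1), (0, 1)]⟩, ⟨1, [(1, 1), (0, 2)]⟩] (.ndet 2 [⟨1, [(1, 1), (0, 1)]⟩, ⟨1, [(1, 1), (0, 2)]⟩] (.ddet 0 [⟨1, [(1, 1)]⟩, ⟨1, [(0, 1)]⟩] (.leaf 0 [⟨1, [(1, 1)]⟩, ⟨1, [(0, 1)]⟩, ⟨1, []⟩, ⟨1, [(1, 1)]⟩, ⟨1, []⟩, ⟨1, [(1, 1), (0, 1)]⟩, ⟨1, [(1, 1), (0, 1)]⟩, ⟨1, [(1, 1), (0, 1)]⟩, ⟨1, [(1, 1), (0, 1)]⟩, ⟨1, [(1, 1), (0, 1)]⟩, ⟨1, [(1, 1), (0, 1)]⟩, ⟨1, []⟩, ⟨1, []⟩])))))))))⟩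
def s25_13 : Sys := ⟨[(0, 0), (3, 16), (4, 0)], [(0, -16), (2, 16), (3, 0)], 4, [s25_13_n0], [64, 16, -32, -32], (.leaf 0 [⟨1, []⟩, ⟨1, []⟩, ⟨1, []⟩, ⟨1, []⟩, ⟨1, []⟩, ⟨1, []⟩, ⟨1, []⟩, ⟨1, []⟩, ⟨1, []⟩, ⟨1, []⟩, ⟨1, []⟩, ⟨1, []⟩])⟩

theorem s25_13_ok : s25_13.ok = true := by decide +kernel

def s25_23_n0 : Node := ⟨[⟨[0, 0, -1], 72⟩, ⟨[0, 0, 0, -1], 16⟩, ⟨[0, 1], 8⟩, ⟨[-1, 1], 64⟩, ⟨[0, 1, 0, -1], 40⟩, ⟨[0, 1], 16⟩, ⟨[0, 1, -1], 48⟩, ⟨[-1], 72⟩, ⟨[0, 0, -1], 48⟩, ⟨[0, 1], 56⟩, ⟨[-1, 1], 120⟩, ⟨[0, 2], 40⟩], [0, 1], 0, none, (.ndet 0 [⟨1, [(11, 1)]⟩, ⟨1, [(10, 1)]⟩] (.ddet 2 [⟨1, [(2, 1)]⟩, ⟨1, [(4, 1), (2, 1)]⟩, ⟨1, [(10, 1), (2, 1)]⟩] (.ndet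 1 [⟨1, [(2, 1)]⟩, ⟨1, [(11, 1), (2, 1)]⟩] (.ddet 0 [⟨1, [(2, 1)]⟩, ⟨1, [(4, 1)]⟩, ⟨1, [(11, 1)]⟩] (.ndet 2 [⟨1, [(2, 1)]⟩, ⟨1, [(4, 1), (2, 1)]⟩] (.ddet 1 [⟨1, [(2, 1)]⟩, ⟨1, [(2, 2)]⟩, ⟨1, []⟩] (.leaf 0 [⟨1, [(2, 1)]⟩, ⟨1, [(4, 1)]⟩, ⟨1, [(2, 1)]⟩, ⟨1, [(2, 1)]⟩, ⟨1, [(4, 1), (2, 1)]⟩, ⟨1, [(2, 1)]⟩, ⟨1, [(2, 2)]⟩, ⟨1, []⟩, ⟨1, [(2, 1)]⟩, ⟨1, [(2, 1)]⟩, ⟨1, [(2, 1)]⟩, ⟨1, [(2, 2)]⟩, ⟨1, []⟩])))))))⟩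
def s25_23 : Sys := ⟨[(0, 0), (3, 32), (4, -48)], [(0, 16), (1, 32), (2, 64), (4, 0)], 4, [s25_23_n0], [-96, 64, -112, -80], (.leaf 0 [⟨1, []⟩, ⟨1, []⟩, ⟨1, []⟩, ⟨1, []⟩, ⟨1, []⟩, ⟨1, []⟩, ⟨1, []⟩, ⟨1, []⟩, ⟨1, []⟩, ⟨1, []⟩, ⟨1, []⟩, ⟨1, []⟩])⟩

theorem s25_23_ok : s25_23.ok = true := by decide +kernel

def s28_15_n0 : Node := ⟨[⟨[0, 1, -1], 112⟩, ⟨[0, 1, 0, -1], 168⟩, ⟨[0, 1], 48⟩, ⟨[-1, 1], 216⟩, ⟨[0, 1, -1], 176⟩, ⟨[0, 1], 56⟩, ⟨[0, 1], 72⟩, ⟨[0, 1], 8⟩, ⟨[-1, 1], 152⟩, ⟨[-1], 136⟩, ⟨[-1], 200⟩, ⟨[0, 1], 0⟩], [0, 1], 0, none, (.ndet 0 [⟨1, [(7, 1)]⟩, ⟨1, [(10, 1)]⟩] (.ddet 2 [⟨1, [(5, 1)]⟩, ⟨1, [(5, 1), (1, 1)]⟩, ⟨1, [(7, 1)]⟩] (.ndet 1 [⟨1,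 [(5, 1), (1, 1)]⟩, ⟨1, [(7, 1)]⟩] (.ddet 3 [⟨1, [(5, 1)]⟩, ⟨1, [(5, 1)]⟩, ⟨1, [(5, 1), (1, 1)]⟩] (.ndet 2 [⟨1, [(5, 1)]⟩, ⟨1, [(5, 1), (1, 1)]⟩] (.ddet 1 [⟨1, []⟩, ⟨1, []⟩, ⟨1, [(1, 1)]⟩] (.ndet 0 [⟨1, []⟩, ⟨1, [(1, 1)]⟩] (.ddet 1 [⟨1, [(5, 1)]⟩, ⟨1, [(5, 1)]⟩, ⟨1, [(5, 1)]⟩] (.leaf 0 [⟨1, [(5, 1)]⟩, ⟨1, [(5, 1)]⟩, ⟨1, [(5, 1)]⟩, ⟨1, [(5, 2)]⟩, ⟨1, [(5, 1)]⟩, ⟨1, [(5, 1)]⟩, ⟨1, [(5, 1)]⟩, ⟨1, [(5, 1)]⟩, ⟨1, [(5, 2)]⟩, ⟨1, [(5, 1)]⟩, ⟨1, [(5, 1)]⟩, ⟨1, [(5, 1)]⟩, ⟨1, []⟩])))))))))⟩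
def s28_15 : Sys := ⟨[(2, -64), (3, -80), (4, 32)], [(0, -80), (1, 16), (2, 0), (3, -16)], 4, [s28_15_n0], [-240, 176, -64, -64], (.leaf 0 [⟨1, []⟩, ⟨1, []⟩, ⟨1, []⟩, ⟨1, []⟩, ⟨1, []⟩, ⟨1, []⟩, ⟨1, []⟩, ⟨1, []⟩, ⟨1, []⟩, ⟨1, []⟩, ⟨1, []⟩, ⟨1, []⟩])⟩

theorem s28_15_ok : s28_15.ok = true := by decide +kernel

def s29_10_n0 : Node := ⟨[⟨[0, 0, 1], 408⟩, ⟨[0, -1, 1], 432⟩, ⟨[0, 0, 1, -1], 454⟩, ⟨[1, 0, -1], 8⟩, ⟨[1], 424⟩, ⟨[1, -1], 440⟩, ⟨[1, 0, -1], 24⟩, ⟨[-1, -1, 1], -8⟩, ⟨[1, 0, -1], 16⟩], [1], 0, none, (.ndet 2 [⟨1, [(8, 1)]⟩, ⟨1, [(7, 1)]⟩, ⟨1, [(6, 1)]⟩] (.ddet 0 [⟨1, [(2, 1)]⟩] (.ndet 1 [⟨1, [(8, 1), (2, 1)]⟩, ⟨1, [(7, 1), (2, 1)]⟩, ⟨1,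 [(2, 1)]⟩] (.ddet 0 [⟨1, [(1, 1)]⟩] (.leaf 0 [⟨1, [(8, 1), (2, 1)]⟩, ⟨1, [(8, 1), (2, 2)]⟩, ⟨1, [(7, 1), (2, 1)]⟩, ⟨1, [(2, 1)]⟩, ⟨1, [(8, 1), (2, 2)]⟩, ⟨1, [(8, 1), (2, 3)]⟩, ⟨1, [(2, 1)]⟩, ⟨1, []⟩, ⟨1, [(2, 1)]⟩, ⟨1, [(2, 1)]⟩])))))⟩
def s29_10 : Sys := ⟨[(0, 16), (2, 16), (3, 0), (4, 16)], [(1, 16), (3, -16)], 4, [s29_10_n0], [784, -32, 752, -16], (.leaf 0 [⟨1, []⟩, ⟨1, []⟩, ⟨1, []⟩, ⟨1, []⟩, ⟨1, []⟩, ⟨1, []⟩, ⟨1, []⟩, ⟨1, []⟩, ⟨1, []⟩])⟩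

theorem s29_10_ok : s29_10.ok = true := by decide +kernel

def s29_11_n0 : Node := ⟨[⟨[0, 1], 232⟩, ⟨[0, 1, -1], 280⟩, ⟨[0, 1, 0, -1], 32⟩, ⟨[-1], 80⟩, ⟨[0, 0, -1], 40⟩, ⟨[0, 1], 296⟩, ⟨[-1, 1], 408⟩, ⟨[0, 1, -1], 408⟩], [0, 1], 0, none, (.ndet 1 [⟨1, [(2, 1)]⟩, ⟨1, [(0, 1)]⟩, ⟨1, [(5, 1)]⟩] (.ddet 0 [⟨1, [(4, 1)]⟩, ⟨1, [(3, 1)]⟩] (.ndet 2 [⟨1, [(2, 1)]⟩, ⟨1, [(1, 1)]⟩, ⟨1, [(0, 1)]⟩] (.ddet 1 [⟨1, [(2, 1)]⟩, ⟨1, []⟩] (.leaf 0 [⟨1, [(2, 1)]⟩, ⟨1, [(1, 1)]⟩, ⟨1, []⟩, ⟨1, []⟩, ⟨1, [(4, 1)]⟩, ⟨1, [(2, 1)]⟩, ⟨1, [(2, 1)]⟩, ⟨1, [(1, 1)]⟩, ⟨1, []⟩])))))⟩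
def s29_11 : Sys := ⟨[(0, -32), (2, 48), (3, -80), (4, 48)], [(0, -16), (1, 0), (3, -80)], 4, [s29_11_n0], [-144, 544, -144, 480], (.leaf 0 [⟨1, []⟩, ⟨1, []⟩, ⟨1, []⟩, ⟨1, []⟩, ⟨1, []⟩, ⟨1, []⟩, ⟨1, []⟩, ⟨1, []⟩])⟩

theorem s29_11_ok : s29_11.ok = true := by decide +kernel

end Pool.Agent.H81.RDE.Data
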